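import Pool.Agent.Work.MP_60d5ce_nt.AS.EllA
import Pool.Agent.Work.MP_60d5ce_nt.Sm.LocEx
import Mathlib
import Pool.Agent.Work.MP_60d5ce_nt.AG.CDef

-- merged part: Pool.Agent.Work.MP_60d5ce_nt.AS.Sep
section
/-!
# Separable closures inside algebraic closures; Galois lemmas

`Om F M` is the subfield of the elements of `M` separable over `F`.

PLAN.  `sc_om`: for separable `x`, `F(x) = F(x ^ p)`, expand the coefficients in `F`; if `y ^ p = t` with
`y` separable then `y ∈ F` (`om_pow`).  A simple root of a polynomial over `Om` is separable over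
`Om`, hence over `F`.  `om_fix`: `Om / F` is Galois and its automorphisms extend to `M`.
`om_map_iff`: some `x ^ p ^ n` is separable; take `n` least; if `n > 0` then `der (x ^ p ^ n) ≠ 0`
(`der_eq_zero`), which is preserved by `ι` (`der_map`), while `ι x` separable makes it a `p`-th power.
`h90`: replace each `x ∈ X` by a separable `x ^ p ^ n` (same fixer); take a finite Galois extension
`N / F` inside `Om` containing `X` and the (finitely many) values of `f`; `f` factors through the image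
`H'` of `H` in `Gal(N/F)`; take `θ ∈ N` with `∑_{γ ∈ H'} γ θ = 1` (independence of characters) and
`z = -∑ f(γ) γ θ`.  `sah`: `f σ = σ y - y` satisfies `f (γ τ) = f (τ γ)`; with `γ l = ψ l`, `ψ ≠ 1`, this
gives `(ψ - 1) f τ = τ (f γ) - f γ`.  `as_surj`: induct on the number of roots, or: the image of `G` in
`ι → ZMod p` is a subgroup; if it is proper a nonzero functional `e` kills it, `∑ e l w l` is fixed.
-/

namespace Pool.Agent.ASel

noncomputable section

/-- the separable closure of `F` in `M`, as a subfield -/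
def Om (F M : Type) [Field F] [Field M] [Algebra F M] : Subfield M :=
  (separableClosure F M).toSubfield

variable {p : ℕ} [hp : Fact p.Prime] {F M : Type} [Field F] [Field M] [Algebra F M]

theorem mem_om {x : M} : x ∈ Om F M ↔ IsSeparable F x := Iff.rfl

theorem om_alg (a : F) : algebraMap F M a ∈ Om F M := isSeparable_algebraMap a

theorem om_act (σ : M ≃ₐ[F] M) {x : M} (hx : x ∈ Om F M) : σ x ∈ Om F M :=
  IsSeparable.map σ.toAlgHom σ.injective hx

theorem om_map {F' M' : Type} [Field F'] [Field M'] [Algebra F' M'] (j : F →+* F') (ι : M →+* M')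
    (h : ∀ a, ι (algebraMap F M a) = algebraMap F' M' (j a)) {x : M} (hx : x ∈ Om F M) :
    ι x ∈ Om F' M' := by
  refine Polynomial.Separable.of_dvd (Polynomial.Separable.map (f := j) (mem_om.1 hx))
    (minpoly.dvd F' _ ?_)
  rw [← Polynomial.map_aeval_eq_aeval_map (RingHom.ext fun a => (h a).symm), minpoly.aeval, map_zero]

theorem om_fix [IsAlgClosure F M] {x : M} (hx : x ∈ Om F M) (h : ∀ σ : M ≃ₐ[F] M, σ x = x) :
    ∃ a : F, algebraMap F M a = x := by
  obtain ⟨a, ha⟩ := (InfiniteGalois.mem_range_algebraMap_iff_fixed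
    (⟨x, hx⟩ : separableClosure F M)).2 fun f =>
      Subtype.ext ((f.liftNormal_commutes M ⟨x, hx⟩).symm.trans (h _))
  exact ⟨a, congrArg Subtype.val ha⟩

open Polynomial in
theorem Sep_simple {x : M} {f : M[X]} (hf : ∀ i, f.coeff i ∈ Om F M) (h0 : f.eval x = 0)
    (h1 : f.derivative.eval x ≠ 0) : x ∈ Om F M := by
  obtain ⟨g, rfl⟩ := (mem_lifts f).1 ((lifts_iff_coeff_lifts
    (f := algebraMap (separableClosure F M) M) f).2 fun i => ⟨⟨_, hf i⟩, rfl⟩)
  rw [derivative_map, eval_map_algebraMap] at h1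
  rw [eval_map_algebraMap] at h0
  have hi : IsIntegral (separableClosure F M) x :=
    IsAlgebraic.isIntegral ⟨g, fun e => h1 (by simp [e]), h0⟩
  refine IsSeparable.of_algebra_isSeparable_of_isSeparable F (E := separableClosure F M)
    ((separable_iff_derivative_ne_zero (minpoly.irreducible hi)).2 fun e => h1 ?_)
  obtain ⟨q, rfl⟩ := minpoly.dvd _ x h0
  simp [e]

variable [CharP F p] [CharP M p]

theorem om_pow {x : M} (hx : x ∈ Om F M) {a : F} (h : x ^ p = algebraMap F M a) :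
    ∃ b : F, algebraMap F M b = x := by
  have := ExpChar.prime (R := F) hp.out
  exact (separableClosure_inf_perfectClosure F M).le
    ⟨hx, (mem_perfectClosure_iff_pow_mem p).2 ⟨1, a, by rw [pow_one, h]⟩⟩

variable (p) in
theorem om_exists_pow [Algebra.IsAlgebraic F M] (x : M) : ∃ n : ℕ, x ^ p ^ n ∈ Om F M := by
  have := ExpChar.prime (R := F) hp.out
  have := expChar_of_injective_algebraMap (algebraMap F (separableClosure F M)).injective p
  obtain ⟨n, y, hy⟩ := IsPurelyInseparable.pow_mem (separableClosure F M) p x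
  exact ⟨n, hy ▸ y.2⟩

theorem sc_om [IsAlgClosure F M] {t : F} (h : PB p (⊤ : Subfield F) t) :
    SC p (Om F M) (algebraMap F M t) := by
  have := ExpChar.prime (R := F) hp.out
  refine ⟨⟨om_alg t, fun y hy e => ?_, fun x hx => ?_⟩, fun x f => Sep_simple⟩
  · obtain ⟨b, rfl⟩ := om_pow hy e
    exact h.2.1 b trivial ((algebraMap F M).injective (by rw [map_pow, e]))
  · have h1 := IntermediateField.mem_adjoin_simple_self F x
    rw [IntermediateField.adjoin_simple_eq_adjoin_pow_expChar_of_isSeparable F M hx p,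
      ← IntermediateField.mem_toSubalgebra,
      IntermediateField.adjoin_simple_toSubalgebra_of_isAlgebraic (Algebra.IsAlgebraic.isAlgebraic _),
      Algebra.adjoin_singleton_eq_range_aeval] at h1
    obtain ⟨g, hg⟩ := h1
    suffices ∃ c : ℕ → M, (∀ i, c i ∈ Om F M) ∧ Polynomial.aeval (x ^ p) g =
        ∑ i ∈ Finset.range p, c i ^ p * algebraMap F M t ^ i from hg ▸ this
    clear hg
    induction g using Polynomial.induction_on' with
    | add a b ha hb =>
      obtain ⟨c, h1, h2⟩ := ha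
      obtain ⟨d, h3, h4⟩ := hb
      exact ⟨c + d, fun i => add_mem (h1 i) (h3 i), by
        simp only [map_add, h2, h4, Pi.add_apply, add_pow_char, add_mul, Finset.sum_add_distrib]⟩
    | monomial k a =>
      obtain ⟨c, -, rfl⟩ := h.2.2 a trivial
      refine ⟨fun i => algebraMap F M (c i) * x ^ k, fun i => mul_mem (om_alg _) (pow_mem hx k), ?_⟩
      rw [Polynomial.aeval_monomial, map_sum, Finset.sum_mul]
      refine Finset.sum_congr rfl fun i _ => ?_
      rw [map_mul, map_pow, map_pow]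
      ring

theorem om_map_iff [IsAlgClosure F M] {F' M' : Type} [Field F'] [Field M'] [Algebra F' M']
    [CharP F' p] [CharP M' p] [IsAlgClosure F' M'] (j : F →+* F') (ι : M →+* M')
    (h : ∀ a, ι (algebraMap F M a) = algebraMap F' M' (j a)) {t : F} (h1 : PB p (⊤ : Subfield F) t)
    (h2 : PB p (⊤ : Subfield F') (j t)) {x : M} (hx : ι x ∈ Om F' M') : x ∈ Om F M := by
  have s1 := (sc_om (M := M) h1).1
  have s2 := (sc_om (M := M') h2).1
  rw [← h] at s2
  obtain ⟨n, hn⟩ := om_exists_pow p (F := F) x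
  induction n with
  | zero => simpa using hn
  | succ n ih =>
    rw [pow_succ, pow_mul] at hn
    have e := s1.der_map ι (fun _ => om_map j ι h) s2 hn
    rw [map_pow ι (x ^ p ^ n) p, map_pow ι x, s2.der_frob (pow_mem hx _), map_eq_zero] at e
    obtain ⟨y, hy, e'⟩ := s1.der_eq_zero hn e
    exact ih (frobenius_inj M p e' ▸ hy)

/-- roots of `y ^ p = A y + a` are separable -/
theorem om_wp {A a y : M} (hA : A ∈ Om F M) (hA0 : A ≠ 0) (ha : a ∈ Om F M) (h : y ^ p / A - y = a) :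
    y ∈ Om F M := by
  have e : (Polynomial.X ^ p - (Polynomial.C A * Polynomial.X + Polynomial.C (A * a)) :
      Polynomial M).eval y = 0 := by
    simp only [Polynomial.eval_sub, Polynomial.eval_add, Polynomial.eval_mul, Polynomial.eval_pow,
      Polynomial.eval_X, Polynomial.eval_C, ← h]
    field_simp
    ring
  refine Sep_simple (fun i => ?_) e (by simpa [Polynomial.derivative_X_pow] using hA0)
  simp only [Polynomial.coeff_sub, Polynomial.coeff_add, Polynomial.coeff_X_pow,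
    Polynomial.coeff_C_mul, Polynomial.coeff_X, Polynomial.coeff_C]
  refine sub_mem ?_ (add_mem (mul_mem hA ?_) ?_) <;> split_ifs
  exacts [one_mem _, zero_mem _, one_mem _, zero_mem _, mul_mem hA ha, zero_mem _]

end

end Pool.Agent.ASel
end

-- merged part: Pool.Agent.Work.MP_60d5ce_nt.AS.LocX
section
/-! The absolute value at a place of `k(t)`, trivial on the constants. -/

namespace Pool.Agent.ASel

open Polynomial WithZero IsDedekindDomain Pool.Agent.Smith

variable {k : Type} [Field k]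

/-- the values of the absolute value at a place on the polynomials -/
def Loc_Poly (v : Pl k) (w : RatFunc k → ℝ) : Prop :=
  match v with
  | none => ∀ b : k[X], b ≠ 0 → w (algebraMap k[X] _ b) = 2 ^ (b.natDegree : ℤ)
  | some p => ∀ b : k[X], w (algebraMap k[X] _ b) < 1 ↔ p.1 ∣ b

theorem Loc_exists (v : Pl k) : ∃ w : AbsoluteValue (RatFunc k) ℝ, IsNonarchimedean w ∧
    (∀ a, a ≠ 0 → ∃ n : ℤ, w a = 2 ^ n) ∧ LocC_Good v w ∧ (∃ a, a ≠ 0 ∧ w a ≠ 1) ∧
      (∀ c : k, c ≠ 0 → w (algebraMap k _ c) = 1) ∧ Loc_Poly v w := by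
  classical
  rcases v with _ | ⟨p, hm, hp⟩
  · obtain ⟨w, h1, h2, h3, -⟩ := LocC_abs (RatFunc.inftyValuation k)
    have hX : w RatFunc.X = 2 := by simpa using h2 _ _ (RatFunc.inftyValuation.X k)
    have hb : ∀ b : k[X], b ≠ 0 → w (algebraMap k[X] _ b) = 2 ^ (b.natDegree : ℤ) :=
      fun b hb => h2 _ _ (RatFunc.inftyValuation.polynomial k hb)
    refine ⟨w, h1, h3, ⟨hX, fun a ha => ?_⟩, ⟨RatFunc.X, RatFunc.X_ne_zero, by rw [hX]; norm_num⟩,
      fun c hc => by simpa using hb (Polynomial.C c) (C_ne_zero.2 hc), hb⟩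
    have hd := hb _ a.denom_ne_zero
    have hd0 : algebraMap k[X] (RatFunc k) a.denom ≠ 0 := RatFunc.algebraMap_ne_zero a.denom_ne_zero
    have hdeg : a.num.natDegree ≤ a.denom.natDegree := by
      by_cases h0 : a.num = 0
      · simp [h0]
      · rw [← a.num_div_denom, map_div₀, hb _ h0, hd, div_le_one (by positivity),
          zpow_le_zpow_iff_right₀ one_lt_two] at ha
        exact_mod_cast ha
    obtain ⟨c, hc⟩ : ∃ c, Polynomial.C c = a.num /ₘ a.denom := natDegree_eq_zero.1 (by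
      rw [natDegree_divByMonic _ a.monic_denom]
      omega)
    refine ⟨c, ?_⟩
    have e : a - algebraMap k _ c = algebraMap k[X] _ (a.num %ₘ a.denom) /
        algebraMap k[X] (RatFunc k) a.denom := by
      rw [eq_div_iff hd0, eq_sub_of_add_eq (modByMonic_add_div a.num a.denom), ← hc, map_sub,
        map_mul, (div_eq_iff hd0).1 a.num_div_denom, RatFunc.algebraMap_C, RatFunc.algebraMap_eq_C]
      ring
    rw [e, map_div₀, hd, div_lt_one (by positivity)]
    by_cases h0 : a.num %ₘ a.denom = 0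
    · rw [h0, map_zero, map_zero]
      positivity
    · rw [hb _ h0, zpow_lt_zpow_iff_right₀ one_lt_two]
      exact_mod_cast natDegree_lt_natDegree h0 (degree_modByMonic_lt _ a.monic_denom)
  · let P : HeightOneSpectrum k[X] := ⟨Ideal.span {p},
      (Ideal.span_singleton_prime hp.ne_zero).2 hp.prime,
      fun e => hp.ne_zero (Ideal.span_singleton_eq_bot.1 e)⟩
    obtain ⟨w, h1, h2, h3, h4⟩ := LocC_abs (P.valuation (RatFunc k))
    have hself : w (algebraMap k[X] _ p) = 2⁻¹ := by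
      simpa using h2 _ _ ((P.valuation_of_algebraMap (K := RatFunc k) p).trans
        (P.intValuation_singleton hp.ne_zero rfl))
    have hlt : ∀ b : k[X], w (algebraMap k[X] _ b) < 1 ↔ p ∣ b := fun b => by
      rw [h4, P.valuation_lt_one_iff_mem]
      exact Ideal.mem_span_singleton
    have hc : ∀ c : k, c ≠ 0 → 1 ≤ w (algebraMap k _ c) := fun c hc => not_lt.1 fun h =>
      hp.not_isUnit (isUnit_of_dvd_unit ((hlt (Polynomial.C c)).1 h) (isUnit_C.2 hc.isUnit))
    refine ⟨w, h1, h3, ⟨hself, fun a ha => ?_⟩, ⟨algebraMap k[X] _ p,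
      RatFunc.algebraMap_ne_zero hp.ne_zero, by rw [hself]; norm_num⟩, fun c h0 => le_antisymm ?_ (hc c h0),
      hlt⟩
    swap
    · have := hc c⁻¹ (inv_ne_zero h0)
      rw [map_inv₀, map_inv₀] at this
      exact (one_le_inv₀ (one_pos.trans_le (hc c h0))).1 this
    have hd0 : algebraMap k[X] (RatFunc k) a.denom ≠ 0 := RatFunc.algebraMap_ne_zero a.denom_ne_zero
    have e : algebraMap k[X] (RatFunc k) a.num = a * algebraMap k[X] (RatFunc k) a.denom :=
      (div_eq_iff hd0).1 a.num_div_denom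
    have hnd : ¬ p ∣ a.denom := fun h => by
      refine hp.not_isUnit (a.isCoprime_num_denom.isUnit_of_dvd' ((hlt _).1 ?_) h)
      rw [e, map_mul]
      exact mul_lt_one_of_nonneg_of_lt_one_right ha (w.nonneg _) ((hlt _).2 h)
    obtain ⟨s, t, hst⟩ := hp.coprime_iff_not_dvd.2 hnd
    refine ⟨a.num * t, ?_⟩
    have e2 : a - algebraMap k[X] (RatFunc k) (a.num * t) =
        a * algebraMap k[X] (RatFunc k) (s * p) := by
      rw [eq_sub_of_add_eq hst, map_sub, map_one, map_mul, map_mul, e]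
      ring
    rw [e2, map_mul]
    exact mul_lt_one_of_nonneg_of_lt_one_right ha (w.nonneg _) ((hlt _).2 (dvd_mul_left _ _))

end Pool.Agent.ASel
end

-- merged part: Pool.Agent.Work.MP_60d5ce_nt.AS.Loc
section
/-!
# The completions of `k(t)` and their algebraic closures

`av v` is the absolute value at the place `v` (`|P| = 1/2` at a finite place `P`, `|t| = 2` at infinity),
`Lv v` the completion, `Lb v` its algebraic closure with the spectral norm `nm v`; `Kb k` is the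
algebraic closure of `k(t)`.  `uu v = π / (dπ/dt)` for the uniformiser `π = P`, resp. `1/t`: the form
`f dt` has at most a simple pole iff `‖uu v * f‖ ≤ 1` and is regular iff `‖uu v * f‖ < 1`.
`I0 v` is the group of the automorphisms of `Lb v` over `Lv v` that fix all constants.

PLAN.  See `Sm/LocEx.lean` (`exists_loc`, `LocEx_of`, `LocEx_w`), `Sm/LocC.lean`, `Sm/LocA.lean` (`LD`).
`pb_K`: `g / h = g h ^ (p-1) / h ^ p`, split a polynomial by the exponents modulo `p`, `k` is perfect.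
`pb_L`: `∑ L ^ p t ^ i` is a finite dimensional space over the complete subfield `L ^ p`, so closed, and
contains the dense subfield `K`; if `t = y ^ p` then `P(t)` is a `p`-th power, of norm `1/2`.
`i0_small`: every integral element of `Lb v` is congruent to a constant (minimal polynomial, as in
`LD.big_res`).  `i0_disc`: a separable element fixed by `I0` lies in `L(constants)` (Galois
correspondence for the separable closure), `LD.M_disc`.  `i0_comm`: an automorphism acts on the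
finite field generated by a constant as a power of Frobenius.  `i0_der`, `norm_car`, `norm_der`: `π` is
a `p`-basis (`PB.change`); if `x = ∑ c_i ^ p π ^ i` with all `‖c_i‖` in `2 ^ ℤ` then `‖x‖` is the maximum
of the terms (distinct exponents modulo `p`); the `c_i` are fixed by `I0` by uniqueness.
-/

namespace Pool.Agent.ASel

open Polynomial Pool.Agent.Smith

noncomputable section

variable {k : Type} [Field k]

/-- the absolute value at a place -/
def av (v : Pl k) : AbsoluteValue (RatFunc k) ℝ := (Loc_exists v).choose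

/-- the completion at a place -/
def Lv (v : Pl k) : Type := (av v).Completion

instance instNFLv (v : Pl k) : NormedField (Lv v) := inferInstanceAs (NormedField (av v).Completion)

instance instAlgLv (v : Pl k) : Algebra (RatFunc k) (Lv v) :=
  inferInstanceAs (Algebra (RatFunc k) (av v).Completion)

instance instCompLv (v : Pl k) : CompleteSpace (Lv v) :=
  inferInstanceAs (CompleteSpace (av v).Completion)

theorem norm_alg (v : Pl k) (a : RatFunc k) : ‖algebraMap _ (Lv v) a‖ = av v a := by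
  have : algebraMap _ (av v).Completion a =
    ((WithAbs.toAbs (av v) a : WithAbs (av v)) : (av v).Completion) := rfl
  change ‖algebraMap _ (av v).Completion a‖ = _
  rw [this, UniformSpace.Completion.norm_coe]
  rfl

theorem av_na (v : Pl k) : IsNonarchimedean (av v) := (Loc_exists v).choose_spec.1

theorem av_disc (v : Pl k) (a : RatFunc k) (ha : a ≠ 0) : ∃ n : ℤ, av v a = 2 ^ n :=
  (Loc_exists v).choose_spec.2.1 a ha

theorem av_good (v : Pl k) : LocC_Good v (av v) := (Loc_exists v).choose_spec.2.2.1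

theorem av_nontriv (v : Pl k) : ∃ a : RatFunc k, a ≠ 0 ∧ av v a ≠ 1 :=
  (Loc_exists v).choose_spec.2.2.2.1

instance instNTLv (v : Pl k) : NontriviallyNormedField (Lv v) :=
  NontriviallyNormedField.ofNormNeOne (by
    obtain ⟨a, ha, h1⟩ := av_nontriv v
    exact ⟨algebraMap _ _ a, by simpa using ha, by rwa [norm_alg]⟩)

instance instUltLv (v : Pl k) : IsUltrametricDist (Lv v) :=
  IsUltrametricDist.isUltrametricDist_of_forall_norm_natCast_le_one fun n => by
    rw [← map_natCast (algebraMap (RatFunc k) (Lv v)), norm_alg]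
    exact (av_na v).apply_natCast_le_one

/-- the algebraic closure of the completion -/
abbrev Lb (v : Pl k) : Type := AlgebraicClosure (Lv v)

variable (k) in
/-- the algebraic closure of `k(t)` -/
abbrev Kb : Type := AlgebraicClosure (RatFunc k)

/-- the spectral norm on the algebraic closure of the completion -/
def nm (v : Pl k) : AbsoluteValue (Lb v) ℝ := (LocEx_w (Lv v) (Lb v)).choose

/-- the image of a polynomial in an extension of `k(t)` -/
def pk (M : Type) [Field M] [Algebra (RatFunc k) M] : k[X] →+* M :=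
  (algebraMap (RatFunc k) M).comp (algebraMap k[X] (RatFunc k))

/-- the variable in an extension of `k(t)` -/
def tv (k M : Type) [Field k] [Field M] [Algebra (RatFunc k) M] : M :=
  algebraMap (RatFunc k) M RatFunc.X

/-- the polynomial of a place (`1` at infinity) -/
def plp : Pl k → k[X]
  | none => 1
  | some P => P.1

/-- the reciprocal of the logarithmic derivative of the uniformiser -/
def uu : Pl k → RatFunc k
  | none => -RatFunc.X
  | some P => algebraMap k[X] _ P.1 / algebraMap k[X] _ (derivative P.1)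

/-- the image of `uu v` in the completion -/
def uL (v : Pl k) : Lv v := algebraMap (RatFunc k) _ (uu v)

variable {p : ℕ}

instance instCharLv [CharP k p] (v : Pl k) : CharP (Lv v) p :=
  charP_of_injective_ringHom ((algebraMap (RatFunc k) (Lv v)).comp (algebraMap k _)).injective p

instance instZK [CharP k p] : Algebra (ZMod p) (RatFunc k) := ZMod.algebra _ p

instance instZL [CharP k p] (v : Pl k) : Algebra (ZMod p) (Lv v) := ZMod.algebra _ p

variable (p) in
/-- automorphisms of `Lb v` that fix the constants -/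
def I0 (v : Pl k) : Subgroup (Lb v ≃ₐ[Lv v] Lb v) where
  carrier := {τ | ∀ c : Lb v, (∃ n, 0 < n ∧ c ^ p ^ n = c) → τ c = c}
  mul_mem' {a b} ha hb c hc := by rw [AlgEquiv.mul_apply, hb c hc, ha c hc]
  one_mem' _ _ := rfl
  inv_mem' {a} ha c hc := by rw [AlgEquiv.aut_inv, AlgEquiv.symm_apply_eq, ha c hc]

theorem dense_alg (v : Pl k) (x : Lv v) {ε : ℝ} (hε : 0 < ε) :
    ∃ a : RatFunc k, ‖x - algebraMap _ _ a‖ < ε := by
  have hd : DenseRange (algebraMap (RatFunc k) (av v).Completion) := by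
    have h1 : DenseRange ((↑) : WithAbs (av v) → (av v).Completion) :=
      UniformSpace.Completion.denseRange_coe
    have h2 : Function.Surjective (WithAbs.toAbs (av v)) := fun x => ⟨x.ofAbs, rfl⟩
    exact h1.comp h2.denseRange (UniformSpace.Completion.continuous_coe _)
  obtain ⟨b, hb⟩ := DenseRange.exists_dist_lt (f := algebraMap (RatFunc k) (Lv v)) hd x hε
  exact ⟨b, by rwa [← dist_eq_norm]⟩

theorem norm_disc (v : Pl k) {x : Lv v} (hx : x ≠ 0) : ∃ n : ℤ, ‖x‖ = 2 ^ n := by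
  obtain ⟨b, hb⟩ := dense_alg v x (norm_pos_iff.2 hx)
  have h1 : ‖algebraMap (RatFunc k) (Lv v) b‖ = ‖x‖ := by
    have e : algebraMap (RatFunc k) (Lv v) b = x + -(x - algebraMap _ _ b) := by ring
    rw [e, IsUltrametricDist.norm_add_eq_max_of_norm_ne_norm (by rw [norm_neg]; exact hb.ne'),
      norm_neg, max_eq_left hb.le]
  rw [← h1, norm_alg]
  refine av_disc v b fun h => hx ?_
  rw [h, map_zero, norm_zero] at h1
  exact norm_eq_zero.1 h1.symm

theorem nm_eq (v : Pl k) (x : Lb v) : nm v x = spectralNorm (Lv v) (Lb v) x :=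
  (LocEx_w (Lv v) (Lb v)).choose_spec x

theorem nm_na (v : Pl k) : IsNonarchimedean (nm v) := fun a b => by
  simp only [nm_eq]
  exact isNonarchimedean_spectralNorm a b

theorem nm_iso (v : Pl k) (τ : Lb v ≃ₐ[Lv v] Lb v) (x : Lb v) : nm v (τ x) = nm v x := by
  rw [nm_eq, nm_eq, ← spectralNorm_eq_of_equiv]

theorem nm_alg (v : Pl k) (x : Lv v) : nm v (algebraMap _ _ x) = ‖x‖ := by
  rw [nm_eq, spectralNorm_extends]

theorem nm_algK (v : Pl k) (a : RatFunc k) : nm v (algebraMap _ _ a) = av v a := by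
  rw [IsScalarTower.algebraMap_apply (RatFunc k) (Lv v) (Lb v), nm_alg, norm_alg]

theorem av_const (v : Pl k) {c : k} (hc : c ≠ 0) : av v (algebraMap k _ c) = 1 :=
  (Loc_exists v).choose_spec.2.2.2.2.1 c hc

theorem Loc_av_poly (v : Pl k) : Loc_Poly v (av v) := (Loc_exists v).choose_spec.2.2.2.2.2

theorem Loc_le (P : {p : k[X] // p.Monic ∧ Irreducible p}) (f : k[X]) :
    av (some P) (algebraMap k[X] _ f) ≤ 1 := by
  refine not_lt.1 fun h => ?_
  obtain ⟨n, hn⟩ := pow_unbounded_of_one_lt 2 h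
  have h1 := (Loc_av_poly (some P) (P.1 * f ^ n)).2 (dvd_mul_right _ _)
  rw [map_mul, map_pow, map_mul, map_pow, (av_good (some P)).1] at h1
  linarith

theorem av_poly_le {v : Pl k} (hv : v ≠ none) (f : k[X]) : av v (algebraMap k[X] _ f) ≤ 1 := by
  rcases v with _ | P
  · exact absurd rfl hv
  · exact Loc_le P f

theorem av_poly_lt {v : Pl k} (hv : v ≠ none) (f : k[X]) :
    av v (algebraMap k[X] _ f) < 1 ↔ plp v ∣ f := by
  rcases v with _ | P
  · exact absurd rfl hv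
  · exact Loc_av_poly (some P) f

theorem av_plp {v : Pl k} (hv : v ≠ none) : av v (algebraMap k[X] _ (plp v)) = 2⁻¹ := by
  rcases v with _ | P
  · exact absurd rfl hv
  · exact (av_good (some P)).1

theorem av_poly_eq {v : Pl k} (hv : v ≠ none) {f : k[X]} (hf : f ≠ 0) :
    av v (algebraMap k[X] _ f) = 2⁻¹ ^ multiplicity (plp v) f := by
  have hu : ¬ IsUnit (plp v) := by
    rcases v with _ | P
    · exact absurd rfl hv
    · exact P.2.2.not_isUnit
  obtain ⟨g, hg, hn⟩ := (FiniteMultiplicity.of_not_isUnit hu hf).exists_eq_pow_mul_and_not_dvd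
  have h1 : av v (algebraMap k[X] _ g) = 1 :=
    le_antisymm (av_poly_le hv g) (not_lt.1 fun h => hn ((av_poly_lt hv g).1 h))
  have h2 := congrArg (fun f : k[X] => av v (algebraMap k[X] _ f)) hg
  simp only [map_mul, map_pow, h1, av_plp hv, mul_one] at h2
  exact h2

theorem av_inf {f : k[X]} (hf : f ≠ 0) :
    av (none : Pl k) (algebraMap k[X] _ f) = 2 ^ f.natDegree := by
  rw [← zpow_natCast]
  exact Loc_av_poly none f hf

/-- the restriction of local automorphisms along an embedding -/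
theorem exists_rst (v : Pl k) (ι : Kb k →ₐ[RatFunc k] Lb v) :
    ∃ ρ : (Lb v ≃ₐ[Lv v] Lb v) →* (Kb k ≃ₐ[RatFunc k] Kb k), ∀ τ x, ι (ρ τ x) = τ (ι x) :=
  LocEx_res ι

theorem exists_emb (v : Pl k) : Nonempty (Kb k →ₐ[RatFunc k] Lb v) := ⟨IsAlgClosed.lift⟩

theorem Loc_conj {F Ω Λ : Type} [Field F] [Field Ω] [Algebra F Ω] [Normal F Ω] [Field Λ]
    [Algebra F Λ] (ι ι' : Ω →ₐ[F] Λ) : ∃ σ : Ω ≃ₐ[F] Ω, ∀ x, ι' x = ι (σ x) := by
  let _ : Algebra Ω Λ := ι.toRingHom.toAlgebra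
  have _ : IsScalarTower F Ω Λ := IsScalarTower.of_algebraMap_eq fun x => (ι.commutes x).symm
  exact ⟨ι'.restrictNormal' Ω, fun x => (ι'.restrictNormal_commutes Ω x).symm⟩

theorem emb_conj (v : Pl k) (ι ι' : Kb k →ₐ[RatFunc k] Lb v) :
    ∃ σ : Kb k ≃ₐ[RatFunc k] Kb k, ∀ x, ι' x = ι (σ x) :=
  Loc_conj ι ι'

variable [Fintype k]

theorem av_uu (v : Pl k) : av v (uu v) = if v = none then 2 else 2⁻¹ := by
  rcases v with _ | P
  · rw [if_pos rfl, uu, AbsoluteValue.map_neg]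
    exact (av_good none).1
  · have hs : P.1.Separable := PerfectField.separable_of_irreducible P.2.2
    have h1 : av (some P) (algebraMap k[X] _ (derivative P.1)) = 1 :=
      le_antisymm (Loc_le P _) (not_lt.1 fun h => P.2.2.not_isUnit
        (IsCoprime.isUnit_of_dvd' hs dvd_rfl ((Loc_av_poly (some P) _).1 h)))
    rw [if_neg (Option.some_ne_none P), uu, map_div₀, h1, div_one]
    exact (av_good (some P)).1

end

end Pool.Agent.ASel
end

-- merged part: Pool.Agent.Work.MP_60d5ce_nt.AS.LocP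
section
/-!
# `t` is a `p`-basis of `k(t)` and of its completions; norm bounds (plan in the header of `Loc.lean`)
-/

namespace Pool.Agent.ASel

open Polynomial Pool.Agent.Smith

variable {k : Type} [Field k] {p : ℕ} [Fintype k] [hp : Fact p.Prime] [CharP k p]

variable (p) in
/-- the expansion map -/
noncomputable def LocP_F {F : Type} [Field F] [CharP F p] (t : F) : (Fin p → F) →+ F where
  toFun c := ∑ i, c i ^ p * t ^ (i : ℕ)
  map_zero' := by simp [hp.out.ne_zero]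
  map_add' a b := by simp [add_pow_char, add_mul, Finset.sum_add_distrib]

theorem LocP_iff {F : Type} [Field F] [CharP F p] {t x : F} : x ∈ (LocP_F p t).range ↔
    ∃ c : ℕ → F, (∀ i, c i ∈ (⊤ : Subfield F)) ∧ x = ∑ i ∈ Finset.range p, c i ^ p * t ^ i := by
  constructor
  · rintro ⟨c, rfl⟩
    refine ⟨fun n => if h : n < p then c ⟨n, h⟩ else 0, fun _ => trivial, ?_⟩
    rw [Finset.sum_range]
    simp [LocP_F]
  · rintro ⟨c, -, rfl⟩
    exact ⟨fun i => c i, (Finset.sum_range fun i => c i ^ p * t ^ i).symm⟩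

theorem LocP_mon {F : Type} [Field F] [CharP F p] (t g : F) (n : ℕ) :
    g ^ p * t ^ n ∈ (LocP_F p t).range := by
  refine ⟨Pi.single ⟨n % p, Nat.mod_lt _ hp.out.pos⟩ (g * t ^ (n / p)), ?_⟩
  change ∑ i : Fin p, _ = _
  rw [Finset.sum_eq_single ⟨n % p, Nat.mod_lt _ hp.out.pos⟩ (fun i _ hi => by
    simp [Pi.single_eq_of_ne hi, hp.out.ne_zero]) (by simp), Pi.single_eq_same, mul_pow, mul_assoc,
    ← pow_mul, ← pow_add, Nat.div_add_mod']

theorem LocP_root (a : k) : ∃ b : RatFunc k, algebraMap k[X] (RatFunc k) (C a) = b ^ p := by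
  have : ExpChar k p := .prime hp.out
  obtain ⟨b, rfl⟩ := surjective_frobenius k p a
  exact ⟨algebraMap k[X] _ (C b), by rw [frobenius_def, map_pow, map_pow]⟩

theorem LocP_poly (f : k[X]) (g : RatFunc k) :
    g ^ p * algebraMap k[X] _ f ∈ (LocP_F p (RatFunc.X : RatFunc k)).range := by
  induction f using Polynomial.induction_on' with
  | add a b ha hb =>
    rw [map_add, mul_add]
    exact add_mem ha hb
  | monomial n a =>
    obtain ⟨b, hb⟩ := LocP_root (p := p) a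
    rw [← C_mul_X_pow_eq_monomial, map_mul, hb, map_pow, RatFunc.algebraMap_X, ← mul_assoc, ← mul_pow]
    exact LocP_mon _ _ _

/-- the uniformiser -/
noncomputable def LocP_pi : Pl k → RatFunc k
  | none => RatFunc.X⁻¹
  | some P => algebraMap k[X] _ P.1

/-- the uniformiser in the completion -/
noncomputable def LocP_pL (v : Pl k) : Lv v := algebraMap (RatFunc k) _ (LocP_pi v)

omit [Fintype k] in
theorem LocP_norm (v : Pl k) : ‖LocP_pL v‖ = 2⁻¹ := by
  rw [LocP_pL, norm_alg]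
  rcases v with _ | P
  · rw [LocP_pi, map_inv₀, (av_good none).1]
  · exact (av_good (some P)).1

omit [Fintype k] [CharP k p] in
theorem LocP_ne (v : Pl k) {a b : Lv v} {i j : ℕ} (hi : i < p) (hj : j < p)
    (ha : a ^ p * LocP_pL v ^ i ≠ 0) (h : ‖a ^ p * LocP_pL v ^ i‖ = ‖b ^ p * LocP_pL v ^ j‖) :
    i = j := by
  have hb : b ^ p * LocP_pL v ^ j ≠ 0 := norm_ne_zero_iff.1 (h ▸ norm_ne_zero_iff.2 ha)
  obtain ⟨m, hm⟩ := norm_disc v (pow_ne_zero_iff hp.out.ne_zero |>.1 (left_ne_zero_of_mul ha))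
  obtain ⟨n, hn⟩ := norm_disc v (pow_ne_zero_iff hp.out.ne_zero |>.1 (left_ne_zero_of_mul hb))
  simp only [norm_mul, norm_pow, hm, hn, LocP_norm, inv_pow] at h
  simp only [← zpow_natCast, ← zpow_mul, ← zpow_neg, ← zpow_add₀ (two_ne_zero (α := ℝ))] at h
  have h2 := zpow_right_injective₀ (by norm_num) (by norm_num) h
  exact Nat.ModEq.eq_of_lt_of_lt ((Nat.modEq_iff_dvd).2 ⟨n - m, by linarith⟩) hi hj

omit [Fintype k] [CharP k p] in
theorem LocP_np (v : Pl k) (y : Lv v) : y ^ p ≠ LocP_pL v := fun h => by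
  have h0 : LocP_pL v ≠ 0 := norm_ne_zero_iff.1 (by rw [LocP_norm]; norm_num)
  exact one_ne_zero (LocP_ne v (a := 1) (b := y) hp.out.one_lt hp.out.pos (by simpa using h0)
    (by simp [h]))

omit [Fintype k] [CharP k p] in
theorem LocP_le (v : Pl k) (c : ℕ → Lv v) {i : ℕ} (hi : i < p) :
    ‖c i ^ p * LocP_pL v ^ i‖ ≤ ‖∑ j ∈ Finset.range p, c j ^ p * LocP_pL v ^ j‖ := by
  classical
  by_cases h0 : c i ^ p * LocP_pL v ^ i = 0
  · simp [h0]
  have hm : i ∈ (Finset.range p).filter fun j => c j ^ p * LocP_pL v ^ j ≠ 0 :=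
    Finset.mem_filter.2 ⟨Finset.mem_range.2 hi, h0⟩
  rw [← Finset.sum_filter_ne_zero, IsUltrametricDist.norm_sum_eq_sup'_of_pairwise_ne ⟨i, hm⟩]
  · exact Finset.le_sup' (fun j => ‖c j ^ p * LocP_pL v ^ j‖) hm
  · intro a ha b hb hab h
    simp only [Finset.coe_filter, Finset.mem_range, Set.mem_ofPred_eq] at ha hb
    exact hab (LocP_ne v ha.1 hb.1 ha.2 h)

omit [Fintype k] in
theorem LocP_closed (v : Pl k) : IsClosed (Set.range (LocP_F p (LocP_pL v))) := by
  refine (IsUniformInducing.isComplete_range (Metric.isUniformInducing_iff.2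
    ⟨uniformContinuous_addMonoidHom_of_continuous ?_, fun δ hδ =>
      ⟨δ ^ p * 2⁻¹ ^ p, by positivity, fun {a b} h => (dist_pi_lt_iff hδ).2 fun i => ?_⟩⟩)).isClosed
  · change Continuous fun c : Fin p → Lv v => ∑ i, c i ^ p * LocP_pL v ^ (i : ℕ)
    fun_prop
  · rw [dist_eq_norm, ← map_sub] at h
    have h1 := LocP_le (p := p) v (fun n => if h : n < p then (a - b) ⟨n, h⟩ else 0) i.2
    simp only [Finset.sum_range, Fin.is_lt, dif_pos, Fin.eta, norm_mul, norm_pow, LocP_norm] at h1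
    have h2 : (2⁻¹ : ℝ) ^ p ≤ 2⁻¹ ^ (i : ℕ) := pow_le_pow_of_le_one (by norm_num) (by norm_num) i.2.le
    rw [dist_eq_norm]
    exact lt_of_pow_lt_pow_left₀ p hδ.le (lt_of_mul_lt_mul_right
      ((h1.trans_lt h).trans_le (by gcongr)) (by positivity))

theorem pb_K : PB p (⊤ : Subfield (RatFunc k)) (tv k (RatFunc k)) := by
  refine ⟨trivial, fun y _ hy => LocP_np (p := p) (none : Pl k) (algebraMap _ _ y⁻¹) ?_, fun x _ => LocP_iff.1 ?_⟩
  · rw [← map_pow, inv_pow, hy]
    rfl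
  · have h0 : algebraMap k[X] (RatFunc k) x.denom ≠ 0 := RatFunc.algebraMap_ne_zero x.denom_ne_zero
    have h := LocP_poly (p := p) (x.num * x.denom ^ (p - 1)) (algebraMap k[X] _ x.denom)⁻¹
    rwa [map_mul, map_pow, pow_sub₀ _ h0 hp.out.one_le, pow_one, mul_left_comm, inv_pow,
      inv_mul_cancel_left₀ (pow_ne_zero _ h0), ← div_eq_mul_inv, RatFunc.num_div_denom] at h

theorem LocP_der (f : k[X]) :
    der p ⊤ (tv k (RatFunc k)) (algebraMap k[X] _ f) = algebraMap k[X] _ (derivative f) := by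
  induction f using Polynomial.induction_on' with
  | add a b ha hb => simp only [map_add, ha, hb]
  | monomial n a =>
    obtain ⟨b, hb⟩ := LocP_root (p := p) a
    have ht : der p ⊤ (tv k (RatFunc k)) RatFunc.X = 1 := pb_K.der_t
    rw [← C_mul_X_pow_eq_monomial, derivative_C_mul, derivative_X_pow, map_mul,
      map_mul (algebraMap k[X] (RatFunc k)), hb, pb_K.der_mul trivial trivial,
      pb_K.der_frob trivial, map_pow (algebraMap k[X] (RatFunc k)), pb_K.der_pow trivial,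
      RatFunc.algebraMap_X, ht]
    simp

theorem LocP_uu_ne (v : Pl k) : uu v ≠ 0 := fun h => by
  have := av_uu v
  rw [h, map_zero] at this
  split_ifs at this <;> norm_num at this

theorem LocP_uu (v : Pl k) : uu v * der p ⊤ (tv k (RatFunc k)) (LocP_pi v) = LocP_pi v := by
  have h0 := LocP_uu_ne v
  rcases v with _ | P
  · have ht : der p ⊤ (tv k (RatFunc k)) RatFunc.X = 1 := pb_K.der_t
    rw [LocP_pi, uu, ← one_div, pb_K.der_div trivial trivial, pb_K.der_one, ht]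
    field_simp [RatFunc.X_ne_zero]
    simp
  · rw [LocP_pi, LocP_der, uu, div_mul_cancel₀ _ (div_ne_zero_iff.1 h0).2]

omit [Fintype k] in
theorem LocP_pL_ne (v : Pl k) : LocP_pL v ≠ 0 :=
  norm_ne_zero_iff.1 (by rw [LocP_norm]; norm_num)

theorem LocP_dne (v : Pl k) : der p ⊤ (tv k (RatFunc k)) (LocP_pi v) ≠ 0 := fun h =>
  LocP_pL_ne v (by rw [LocP_pL, ← LocP_uu (p := p), h, mul_zero, map_zero])

theorem LocP_pb (v : Pl k) : PB p (⊤ : Subfield (Lv v)) (LocP_pL v) := by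
  refine ⟨trivial, fun y _ => LocP_np v y, fun x _ => LocP_iff.1 ?_⟩
  refine (LocP_closed v).closure_subset (Metric.mem_closure_iff.2 fun ε hε => ?_)
  obtain ⟨a, ha⟩ := dense_alg v x hε
  obtain ⟨c, -, hc⟩ := (pb_K.change trivial (LocP_dne (p := p) v)).2.2 a trivial
  refine ⟨_, LocP_iff.2 ⟨fun i => algebraMap _ _ (c i), fun _ => trivial, ?_⟩, by rwa [dist_eq_norm]⟩
  simp [hc, LocP_pL]

theorem pb_L (v : Pl k) : PB p (⊤ : Subfield (Lv v)) (tv k (Lv v)) := by
  refine (LocP_pb v).change trivial ?_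
  have h := pb_K.der_change trivial (LocP_dne (p := p) v) (f := tv k (RatFunc k)) trivial
  rw [pb_K.der_t] at h
  have h2 := (pb_K.change trivial (LocP_dne (p := p) v)).der_map (algebraMap _ (Lv v))
    (fun _ _ => Subfield.mem_top _) (LocP_pb v) (x := tv k (RatFunc k)) trivial
  exact h2.symm.trans_ne ((_root_.map_ne_zero _).2 (left_ne_zero_of_mul (h.symm.trans_ne one_ne_zero)))

theorem sc_Kb : SC p (Om (RatFunc k) (Kb k)) (tv k (Kb k)) := sc_om pb_K

theorem sc_Lb (v : Pl k) : SC p (Om (Lv v) (Lb v)) (tv k (Lb v)) := by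
  rw [tv, IsScalarTower.algebraMap_apply (RatFunc k) (Lv v) (Lb v)]
  exact sc_om (pb_L v)

theorem der_poly (f : k[X]) :
    der p ⊤ (tv k (RatFunc k)) (algebraMap k[X] _ f) = algebraMap k[X] _ (derivative f) := LocP_der f

theorem LocP_uL (v : Pl k) : uL v * der p ⊤ (tv k (Lv v)) (LocP_pL v) = LocP_pL v := by
  have h := pb_K.der_map (algebraMap _ (Lv v)) (fun _ _ => Subfield.mem_top _) (pb_L (p := p) v)
    (x := LocP_pi v) trivial
  have h2 := congrArg (algebraMap _ (Lv v)) (LocP_uu (p := p) v)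
  rwa [map_mul, h] at h2

theorem LocP_dL (v : Pl k) : der p ⊤ (tv k (Lv v)) (LocP_pL v) ≠ 0 :=
  right_ne_zero_of_mul ((LocP_uL v).trans_ne (LocP_pL_ne v))

theorem LocP_uL_ne (v : Pl k) : uL v ≠ 0 := (_root_.map_ne_zero _).2 (LocP_uu_ne v)

theorem LocP_car (v : Pl k) (g : Lv v) : ∃ c : ℕ → Lv v,
    g / LocP_pL v = ∑ i ∈ Finset.range p, c i ^ p * LocP_pL v ^ i ∧
      uL v * car p ⊤ (tv k (Lv v)) (g / uL v) = c (p - 1) * LocP_pL v := by
  obtain ⟨c, hc, e⟩ := (LocP_pb (p := p) v).2.2 (g / LocP_pL v) trivial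
  refine ⟨c, e, ?_⟩
  have h1 : g / uL v = g / LocP_pL v * der p ⊤ (tv k (Lv v)) (LocP_pL v) := by
    rw [div_eq_iff (LocP_uL_ne v), mul_assoc, mul_comm _ (uL v), LocP_uL,
      div_mul_cancel₀ _ (LocP_pL_ne v)]
  rw [h1, (pb_L v).car_change trivial (LocP_dL v) trivial, mul_left_comm, LocP_uL, e, car,
    ((exists_dc p ⊤ (LocP_pL v)).choose_spec (LocP_pb v) c hc).2]

omit [Fintype k] [CharP k p] in
theorem LocP_top (v : Pl k) (c : Lv v) :
    (c * LocP_pL v) ^ p = c ^ p * LocP_pL v ^ (p - 1) * LocP_pL v := by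
  rw [mul_pow, mul_assoc, ← pow_succ, Nat.sub_add_cancel hp.out.one_le]

theorem norm_car (v : Pl k) (f : Lv v) :
    ‖uL v * car p ⊤ (tv k (Lv v)) f‖ ^ p ≤ ‖uL v * f‖ := by
  obtain ⟨c, e, h⟩ := LocP_car (p := p) v (uL v * f)
  rw [mul_div_cancel_left₀ _ (LocP_uL_ne v)] at h
  rw [h, ← norm_pow, LocP_top, ← div_mul_cancel₀ (uL v * f) (LocP_pL_ne v), e, norm_mul,
    norm_mul (∑ i ∈ _, _)]
  exact mul_le_mul_of_nonneg_right (LocP_le v c (Nat.sub_one_lt hp.out.ne_zero)) (norm_nonneg _)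

theorem norm_der (v : Pl k) (f : Lv v) : ‖uL v * der p ⊤ (tv k (Lv v)) f‖ ≤ ‖f‖ := by
  obtain ⟨c, hc, rfl⟩ := (LocP_pb (p := p) v).2.2 f trivial
  rw [(pb_L v).der_change trivial (LocP_dL v) trivial, mul_left_comm, LocP_uL, der,
    ((exists_dc p ⊤ (LocP_pL v)).choose_spec (LocP_pb v) c hc).1, Finset.sum_mul]
  refine IsUltrametricDist.norm_sum_le_of_forall_le_of_nonneg (norm_nonneg _) fun i hi => ?_
  rcases i with _ | i
  · simp
  · rw [Nat.add_sub_cancel, mul_assoc, ← pow_succ, mul_assoc, norm_mul]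
    exact (mul_le_of_le_one_left (norm_nonneg _) (IsUltrametricDist.norm_natCast_le_one _ _)).trans
      (LocP_le v c (Finset.mem_range.1 hi))

/-- the Cartier operator on simple poles -/
theorem car_simple (v : Pl k) {g : Lv v} (hg : ‖g‖ ≤ 1) :
    ‖(uL v * car p ⊤ (tv k (Lv v)) (g / uL v)) ^ p - g‖ < 1 := by
  obtain ⟨c, e, h⟩ := LocP_car (p := p) v g
  have e2 := (div_eq_iff (LocP_pL_ne v)).1 e
  have h1 : ∀ i < p - 1, ‖c i ^ p * LocP_pL v ^ i * LocP_pL v‖ < 1 := fun i hi => by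
    refine lt_of_le_of_ne (le_trans ?_ hg) fun h => ?_
    · rw [e2, norm_mul, norm_mul (∑ i ∈ _, _)]
      exact mul_le_mul_of_nonneg_right (LocP_le v c (by omega)) (norm_nonneg _)
    · exact (Nat.succ_ne_zero i).symm (LocP_ne v (a := 1) (b := c i) hp.out.pos (by omega)
        (by simp) (by rw [pow_succ, ← mul_assoc, h]; simp))
  rw [h, LocP_top, e2, ← norm_neg, neg_sub, ← sub_mul]
  nth_rw 1 [← Nat.sub_add_cancel hp.out.one_le]
  rw [Finset.sum_range_succ, add_sub_cancel_right, Finset.sum_mul]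
  exact Finset.sum_induction _ (fun x => ‖x‖ < 1) (fun a b ha hb =>
    (IsUltrametricDist.norm_add_le_max a b).trans_lt (max_lt ha hb)) (by simp)
    fun i hi => h1 i (Finset.mem_range.1 hi)

theorem car_inv_uL (v : Pl k) : car p ⊤ (tv k (Lv v)) (uL v)⁻¹ = (uL v)⁻¹ := by
  have h : (uL v)⁻¹ = der p ⊤ (tv k (Lv v)) (LocP_pL v) / LocP_pL v := by
    rw [eq_div_iff (LocP_pL_ne v), inv_mul_eq_iff_eq_mul₀ (LocP_uL_ne v), LocP_uL]
  rw [h, (pb_L v).car_dlog trivial]

theorem car_inv_uu (v : Pl k) : car p ⊤ (tv k (RatFunc k)) (uu v)⁻¹ = (uu v)⁻¹ := by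
  have h0 : LocP_pi v ≠ 0 := fun h => LocP_pL_ne v (by rw [LocP_pL, h, map_zero])
  have h : (uu v)⁻¹ = der p ⊤ (tv k (RatFunc k)) (LocP_pi v) / LocP_pi v := by
    rw [eq_div_iff h0, inv_mul_eq_iff_eq_mul₀ (LocP_uu_ne v), LocP_uu]
  rw [h, pb_K.car_dlog trivial]

end Pool.Agent.ASel
end

-- merged part: Pool.Agent.Work.MP_60d5ce_nt.AS.PF
section
/-!
# Partial fractions, Liouville, counting functions with bounded poles, counting zeros

`RS g n` is the set of the `g * f`, `f` a polynomial of degree `< n`.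

PLAN.  `pf_one`: approximate `x` by `a ∈ k(t)` (`dense_alg`); at a finite place `P ^ m a` is integral,
congruent to a polynomial `c` modulo `P ^ m` (iterate `av_good`), take `(c %ₘ P ^ m) / P ^ m`; at
infinity take the polynomial part.  `pf_many`: sum.  `card_bounded`: send `y` to its classes modulo the
unit balls at the places of `S`; two elements with the same classes differ by a constant.
`card_ball`: `{‖x‖ ≤ 2 ^ n}` modulo the unit ball has `q ^ (n deg v)` elements.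
`zero_count`: `Π = ∏_{x ∈ X} x` is fixed by all automorphisms, separable and nonzero, so it is a
nonzero element of `k(t)`; `av v Π ≤ 1` at finite `v ∤ F`, `< 1` (so `≤ 1/2`) for `v ∈ Z` (`emb_conj`: all
embeddings have the same image of `X`), `≤ 2 ^ (n |X|)` at the other places; product formula.
-/

namespace Pool.Agent.ASel

open Polynomial Pool.Agent.Smith Finset

noncomputable section

variable {k : Type} [Field k]

theorem PF_monic (v : Pl k) : (plp v).Monic := by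
  cases v with
  | none => exact monic_one
  | some P => exact P.2.1

theorem PF_irr {v : Pl k} (hv : v ≠ none) : Irreducible (plp v) := by
  cases v with
  | none => exact absurd rfl hv
  | some P => exact P.2.2

theorem PF_deg {v : Pl k} (hv : v ≠ none) : (plp v).natDegree = pdg v := by
  cases v with
  | none => exact absurd rfl hv
  | some P => rfl

theorem PF_inj {v v' : Pl k} (hv : v ≠ none) (hv' : v' ≠ none) (h : plp v ∣ plp v') : v = v' := by
  have e := eq_of_monic_of_associated (PF_monic v) (PF_monic v')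
    ((PF_irr hv).associated_of_dvd (PF_irr hv') h)
  cases v with
  | none => exact absurd rfl hv
  | some P =>
    cases v' with
    | none => exact absurd rfl hv'
    | some Q => exact congrArg some (Subtype.ext e)

theorem PF_one {v : Pl k} (hv : v ≠ none) {f : k[X]} (h : ¬ plp v ∣ f) :
    av v (algebraMap k[X] _ f) = 1 :=
  le_antisymm (av_poly_le hv f) (not_lt.1 fun h' => h ((av_poly_lt hv f).1 h'))

theorem PF_ne {f : k[X]} (hf : f ≠ 0) : algebraMap k[X] (RatFunc k) f ≠ 0 := by simpa using hf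

theorem PF_half {v : Pl k} {x : Lv v} (h : ‖x‖ < 1) : ‖x‖ ≤ 2⁻¹ := by
  by_cases hx : x = 0
  · rw [hx, norm_zero]
    positivity
  · obtain ⟨n, hn⟩ := norm_disc v hx
    rw [hn, ← zpow_zero (2 : ℝ), zpow_lt_zpow_iff_right₀ one_lt_two] at h
    rw [hn, ← zpow_neg_one, zpow_le_zpow_iff_right₀ one_lt_two]
    omega

theorem PF_half' {v : Pl k} {y : RatFunc k} (h : av v y < 1) : av v y ≤ 2⁻¹ := by
  rw [← norm_alg] at h ⊢
  exact PF_half h

theorem PF_add {v : Pl k} {x y : Lv v} {c : ℝ} (hx : ‖x‖ ≤ c) (hy : ‖y‖ ≤ c) : ‖x + y‖ ≤ c :=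
  (IsUltrametricDist.norm_add_le_max x y).trans (max_le hx hy)

theorem PF_sub {v : Pl k} {x y : Lv v} {c : ℝ} (hx : ‖x‖ ≤ c) (hy : ‖y‖ ≤ c) : ‖x - y‖ ≤ c := by
  rw [sub_eq_add_neg]
  exact PF_add hx (by rwa [norm_neg])

theorem PF_tri {v : Pl k} {x y z : Lv v} {c : ℝ} (hx : ‖x - y‖ ≤ c) (hy : ‖y - z‖ ≤ c) :
    ‖x - z‖ ≤ c := by
  rw [← sub_add_sub_cancel x y z]
  exact PF_add hx hy

theorem PF_sub' {v : Pl k} {x y : RatFunc k} {c : ℝ} (hx : av v x ≤ c) (hy : av v y ≤ c) :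
    av v (x - y) ≤ c := by
  rw [← norm_alg] at hx hy ⊢
  rw [map_sub]
  exact PF_sub hx hy

theorem PF_sum {ι : Type} {v : Pl k} {s : Finset ι} {f : ι → RatFunc k} {c : ℝ} (hc : 0 ≤ c)
    (h : ∀ i ∈ s, av v (f i) ≤ c) : av v (∑ i ∈ s, f i) ≤ c := by
  rw [← norm_alg, map_sum]
  exact IsUltrametricDist.norm_sum_le_of_forall_le_of_nonneg hc fun i hi => by
    rw [norm_alg]
    exact h i hi

theorem PF_inf {r g : k[X]} (h : r.degree < g.degree) :
    av (none : Pl k) (algebraMap k[X] _ r / algebraMap k[X] (RatFunc k) g) < 1 := by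
  have hg : g ≠ 0 := ne_zero_of_degree_gt h
  by_cases hr : r = 0
  · rw [hr, map_zero, zero_div, map_zero]
    exact one_pos
  · rw [map_div₀, av_inf hr, av_inf hg, div_lt_one (by positivity)]
    exact pow_lt_pow_right₀ one_lt_two (natDegree_lt_natDegree hr h)

theorem fin_dvd {f : k[X]} (hf : f ≠ 0) : {v : Pl k | v ≠ none ∧ plp v ∣ f}.Finite := by
  have := fintypeSubtypeMonicDvd f hf
  have h : {g : k[X] | g.Monic ∧ g ∣ f}.Finite := Set.finite_coe_iff.1 (@Finite.of_fintype _ this)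
  refine Set.Finite.of_finite_image (f := plp) (h.subset ?_) ?_
  · rintro _ ⟨v, hv, rfl⟩
    exact ⟨PF_monic v, hv.2⟩
  · intro v hv v' hv' e
    exact PF_inj hv.1 hv'.1 (e ▸ dvd_rfl)

theorem fin_zeros {y : RatFunc k} (hy : y ≠ 0) : {v : Pl k | av v y ≠ 1}.Finite := by
  refine (((fin_dvd (RatFunc.num_ne_zero hy)).union (fin_dvd y.denom_ne_zero)).insert
    none).subset fun v hv => ?_
  by_contra h
  simp only [Set.mem_insert_iff, Set.mem_union, Set.mem_ofPred_eq, not_or, not_and] at h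
  refine hv ?_
  rw [← y.num_div_denom, map_div₀, PF_one h.1 (h.2.1 h.1), PF_one h.1 (h.2.2 h.1), div_one]

theorem fin_poles (y : RatFunc k) : {v : Pl k | 1 < av v y}.Finite := by
  by_cases hy : y = 0
  · refine Set.finite_empty.subset fun v hv => ?_
    rw [hy, Set.mem_ofPred_eq, map_zero] at hv
    exact absurd hv (by norm_num)
  · exact (fin_zeros hy).subset fun v hv => ne_of_gt hv

/-- the finite places that divide a polynomial -/
def fac' (f : k[X]) : Finset (Pl k) :=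
  open Classical in if h : f = 0 then ∅ else (fin_dvd h).toFinset

theorem mem_fac' {f : k[X]} (hf : f ≠ 0) {v : Pl k} : v ∈ fac' f ↔ v ≠ none ∧ plp v ∣ f := by
  rw [fac', dif_neg hf, Set.Finite.mem_toFinset]
  rfl

theorem sum_pdg_fac' {f : k[X]} : ∑ v ∈ fac' f, pdg v ≤ f.natDegree := by
  by_cases hf : f = 0
  · rw [fac', dif_pos hf, sum_empty]
    exact Nat.zero_le _
  · have h : ∏ v ∈ fac' f, plp v ∣ f := by
      refine Finset.prod_dvd_of_coprime (fun v hv v' hv' hne => ?_) fun v hv => ((mem_fac' hf).1 hv).2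
      have h1 := ((mem_fac' hf).1 hv).1
      exact (PF_irr h1).coprime_iff_not_dvd.2 fun h => hne (PF_inj h1 ((mem_fac' hf).1 hv').1 h)
    have h2 := natDegree_le_of_dvd h hf
    rw [natDegree_prod_of_monic _ _ fun v _ => PF_monic v] at h2
    exact (sum_congr rfl fun v hv => (PF_deg ((mem_fac' hf).1 hv).1).symm).trans_le h2

theorem pdg_pos (v : Pl k) : 0 < pdg v := by
  cases v with
  | none => exact one_pos
  | some P => exact P.2.2.natDegree_pos

theorem liouville {y : RatFunc k} (h : ∀ v : Pl k, v ≠ none → av v y ≤ 1) :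
    ∃ f : k[X], y = algebraMap k[X] _ f := by
  refine ⟨y.num, ?_⟩
  have hd : y.denom = 1 := by
    refine y.monic_denom.isUnit_iff.1 (by_contra fun hu => ?_)
    obtain ⟨g, hm, hi, hg⟩ := exists_monic_irreducible_factor _ hu
    have hv : (some ⟨g, hm, hi⟩ : Pl k) ≠ none := Option.some_ne_none _
    have h1 := h _ hv
    have h2 := (av_poly_lt hv y.denom).2 hg
    have h3 := PF_one hv (f := y.num) fun h' =>
      hi.not_isUnit (y.isCoprime_num_denom.isUnit_of_dvd' h' hg)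
    rw [← y.num_div_denom, map_div₀, h3,
      div_le_one ((av _).pos (PF_ne y.denom_ne_zero))] at h1
    exact absurd h1 (not_le.2 h2)
  have e := y.num_div_denom
  rw [hd, map_one, div_one] at e
  exact e.symm

theorem eq_zero_of_small {y : RatFunc k} (h : ∀ v : Pl k, v ≠ none → av v y ≤ 1)
    (h0 : av (none : Pl k) y < 1) : y = 0 := by
  obtain ⟨f, rfl⟩ := liouville h
  by_contra hf
  rw [av_inf fun h' => hf (by rw [h', map_zero])] at h0
  exact absurd h0 (not_lt.2 (one_le_pow₀ one_le_two))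

theorem PF_mul {y z : RatFunc k} (hy : y ≠ 0) (hz : z ≠ 0) :
    ∏ᶠ v : Pl k, av v (y * z) ^ pdg v = (∏ᶠ v : Pl k, av v y ^ pdg v) * ∏ᶠ v : Pl k, av v z ^ pdg v := by
  have h : ∀ x : RatFunc k, x ≠ 0 → Function.HasFiniteMulSupport fun v : Pl k => av v x ^ pdg v :=
    fun x hx => (fin_zeros hx).subset fun v hv h => hv (by simp only [h, one_pow])
  rw [← finprod_mul_distrib (h y hy) (h z hz)]
  exact finprod_congr fun v => by rw [map_mul, mul_pow]

theorem PF_poly (f : k[X]) (hf : f ≠ 0) :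
    ∏ᶠ v : Pl k, av v (algebraMap k[X] (RatFunc k) f) ^ pdg v = 1 := by
  classical
  generalize hn : f.natDegree = n
  induction n using Nat.strong_induction_on generalizing f with
  | _ n ih =>
    by_cases hu : IsUnit f
    · obtain ⟨c, hc, rfl⟩ := isUnit_iff.1 hu
      refine finprod_eq_one_of_forall_eq_one fun v => ?_
      rw [RatFunc.algebraMap_C, ← RatFunc.algebraMap_eq_C, av_const v hc.ne_zero, one_pow]
    · obtain ⟨g, hm, hi, e, rfl⟩ := exists_monic_irreducible_factor _ hu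
      have he : e ≠ 0 := right_ne_zero_of_mul hf
      have hlt : e.natDegree < n := by
        rw [← hn, natDegree_mul hm.ne_zero he]
        have := hi.natDegree_pos
        omega
      have hv : (some ⟨g, hm, hi⟩ : Pl k) ≠ none := Option.some_ne_none _
      rw [map_mul, PF_mul (PF_ne hm.ne_zero) (PF_ne he), ih _ hlt e he rfl, mul_one,
        finprod_eq_prod_of_mulSupport_subset (s := {none, some ⟨g, hm, hi⟩}), prod_pair hv.symm,
        av_inf hm.ne_zero]
      · have h := av_plp hv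
        change av _ (algebraMap k[X] _ g) = _ at h
        rw [h]
        change (2 ^ g.natDegree) ^ 1 * (2⁻¹ : ℝ) ^ g.natDegree = 1
        rw [pow_one, ← mul_pow, mul_inv_cancel₀ two_ne_zero, one_pow]
      · intro v hv'
        by_contra h
        simp only [coe_insert, coe_singleton, Set.mem_insert_iff, Set.mem_singleton_iff,
          not_or] at h
        refine hv' ?_
        simp only [PF_one h.1 (f := g) fun h' => h.2 (PF_inj h.1 hv h'), one_pow]

theorem prod_formula {y : RatFunc k} (hy : y ≠ 0) (S : Finset (Pl k)) (hS : ∀ v ∉ S, av v y = 1) :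
    ∏ v ∈ S, av v y ^ pdg v = 1 := by
  rw [← finprod_eq_prod_of_mulSupport_subset _ fun v hv => by_contra fun h =>
    hv (by simp only [hS v h, one_pow])]
  have h := PF_mul hy (PF_ne y.denom_ne_zero)
  rw [← (div_eq_iff (PF_ne y.denom_ne_zero)).1 y.num_div_denom, PF_poly _ y.denom_ne_zero,
    PF_poly _ (RatFunc.num_ne_zero hy), mul_one] at h
  exact h.symm

theorem PF_res {v : Pl k} (hv : v ≠ none) {a : RatFunc k} (ha : av v a ≤ 1) :
    ∃ b : k[X], av v (a - algebraMap k[X] _ b) ≤ 2⁻¹ := by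
  cases v with
  | none => exact absurd rfl hv
  | some P =>
    obtain ⟨b, hb⟩ := (av_good (some P)).2 a ha
    exact ⟨b, PF_half' hb⟩

theorem PF_split0 {v : Pl k} (hv : v ≠ none) (m : ℕ) (a : RatFunc k) (ha : av v a ≤ 2 ^ m) :
    ∃ c : k[X], av v (a - algebraMap k[X] _ c / algebraMap k[X] (RatFunc k) (plp v ^ m)) ≤ 1 := by
  have hP := PF_ne (PF_monic v).ne_zero
  induction m generalizing a with
  | zero => exact ⟨0, by simpa using ha⟩
  | succ m ih =>
    have hp : av v (algebraMap k[X] (RatFunc k) (plp v ^ (m + 1))) = (2 ^ (m + 1))⁻¹ := by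
      rw [map_pow, map_pow, av_plp hv, inv_pow]
    obtain ⟨b, hb⟩ := PF_res hv (a := a * algebraMap k[X] _ (plp v ^ (m + 1))) (by
      rw [map_mul, hp, ← div_eq_mul_inv, div_le_one (by positivity)]
      exact ha)
    obtain ⟨c, hc⟩ := ih (a - algebraMap k[X] _ b / algebraMap k[X] (RatFunc k) (plp v ^ (m + 1))) (by
      have e : a - algebraMap k[X] _ b / algebraMap k[X] (RatFunc k) (plp v ^ (m + 1)) =
          (a * algebraMap k[X] _ (plp v ^ (m + 1)) - algebraMap k[X] _ b) /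
            algebraMap k[X] (RatFunc k) (plp v ^ (m + 1)) := by
        rw [map_pow]
        field_simp
      rw [e, map_div₀, hp, div_inv_eq_mul, pow_succ (2 : ℝ)]
      have : (0 : ℝ) < 2 ^ m := by positivity
      nlinarith)
    refine ⟨b + c * plp v, le_of_eq_of_le (congrArg _ ?_) hc⟩
    rw [map_add, map_mul, map_pow, map_pow]
    field_simp
    ring

theorem PF_split {v : Pl k} (hv : v ≠ none) (m : ℕ) (a : RatFunc k) (ha : av v a ≤ 2 ^ m) :
    ∃ c : k[X], c.degree < (plp v ^ m).degree ∧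
      av v (a - algebraMap k[X] _ c / algebraMap k[X] (RatFunc k) (plp v ^ m)) ≤ 1 := by
  obtain ⟨c, hc⟩ := PF_split0 hv m a ha
  have hm := (PF_monic v).pow m
  have hP := PF_ne hm.ne_zero
  refine ⟨c %ₘ plp v ^ m, degree_modByMonic_lt _ hm, ?_⟩
  have e : a - algebraMap k[X] _ (c %ₘ plp v ^ m) / algebraMap k[X] (RatFunc k) (plp v ^ m) =
      a - algebraMap k[X] _ c / algebraMap k[X] (RatFunc k) (plp v ^ m) -
        algebraMap k[X] _ (-(c /ₘ plp v ^ m)) := by
    rw [eq_sub_of_add_eq (modByMonic_add_div c (plp v ^ m)), map_sub, map_mul, map_neg]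
    field_simp
    ring
  rw [e]
  exact PF_sub' hc (av_poly_le hv _)

theorem pf_one (v : Pl k) (x : Lv v) : ∃ y : RatFunc k, ‖x - algebraMap _ _ y‖ ≤ 1 ∧
    (∀ v', v' ≠ v → av v' y ≤ 1) ∧ (v ≠ none → av (none : Pl k) y < 1) := by
  obtain ⟨a, ha⟩ := dense_alg v x one_pos
  by_cases hv : v = none
  · subst hv
    refine ⟨algebraMap k[X] _ (a.num /ₘ a.denom), PF_tri ha.le ?_, fun v' hv' => av_poly_le hv' _,
      fun h => absurd rfl h⟩
    have hd := PF_ne a.denom_ne_zero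
    have e : a - algebraMap k[X] _ (a.num /ₘ a.denom) = algebraMap k[X] _ (a.num %ₘ a.denom) /
        algebraMap k[X] (RatFunc k) a.denom := by
      rw [eq_div_iff hd, eq_sub_of_add_eq (modByMonic_add_div a.num a.denom), map_sub,
        map_mul, (div_eq_iff hd).1 a.num_div_denom]
      ring
    rw [← map_sub, norm_alg, e]
    exact (PF_inf (degree_modByMonic_lt _ a.monic_denom)).le
  · obtain ⟨m, hm⟩ := pow_unbounded_of_one_lt (av v a) (one_lt_two (α := ℝ))
    obtain ⟨c, hc, h⟩ := PF_split hv m a hm.le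
    refine ⟨_, PF_tri ha.le (by rwa [← map_sub, norm_alg]), fun v' hv' => ?_, fun _ => PF_inf hc⟩
    by_cases h0 : v' = none
    · rw [h0]
      exact (PF_inf hc).le
    · rw [map_div₀, map_pow, map_pow, PF_one h0 fun h' => hv' (PF_inj h0 hv h'), one_pow, div_one]
      exact av_poly_le h0 c

theorem pf_many (S : Finset (Pl k)) (x : ∀ v : Pl k, Lv v) : ∃ y : RatFunc k,
    (∀ v ∈ S, ‖x v - algebraMap _ _ y‖ ≤ 1) ∧ (∀ v ∉ S, av v y ≤ 1) ∧
      (none ∉ S → av (none : Pl k) y < 1) := by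
  classical
  choose y h1 h2 h3 using fun v => pf_one v (x v)
  refine ⟨∑ v ∈ S, y v, fun v hv => ?_, fun v hv => PF_sum zero_le_one fun w hw =>
    h2 w v fun e => hv (e ▸ hw), fun h => ?_⟩
  · rw [← add_sum_erase S y hv, map_add, ← sub_sub]
    refine PF_sub (h1 v) ?_
    rw [norm_alg]
    exact PF_sum zero_le_one fun w hw => h2 w v (ne_of_mem_erase hw).symm
  · exact (PF_sum (by positivity) fun w hw => PF_half' (h3 w fun e => h (e ▸ hw))).trans_lt
      (by norm_num)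

/-- simple polar parts -/
theorem pf_pol {v : Pl k} (hv : v ≠ none) {x : Lv v} (hx : ‖x‖ ≤ 2) : ∃ c : k[X],
    c.degree < (plp v).degree ∧ ‖x - pk (Lv v) c / pk (Lv v) (plp v)‖ ≤ 1 := by
  obtain ⟨a, ha⟩ := dense_alg v x one_pos
  obtain ⟨c, hc, h⟩ := PF_split hv 1 a (by
    rw [← norm_alg, pow_one, ← sub_sub_cancel x (algebraMap _ _ a)]
    exact PF_sub hx (ha.le.trans one_le_two))
  rw [pow_one] at hc h
  refine ⟨c, hc, PF_tri ha.le ?_⟩
  rw [← norm_alg, map_sub, map_div₀] at h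
  exact h

theorem pf_simple {y : RatFunc k} (S : Finset (Pl k)) (h0 : none ∉ S) (h1 : ∀ v ∈ S, av v y ≤ 2)
    (h2 : ∀ v ∉ S, v ≠ none → av v y ≤ 1) (h3 : av (none : Pl k) y < 1) :
    ∃ c : Pl k → k[X], (∀ v, (c v).degree < (plp v).degree) ∧
      y = ∑ v ∈ S, algebraMap k[X] _ (c v) / algebraMap k[X] (RatFunc k) (plp v) := by
  classical
  have h : ∀ v : Pl k, ∃ c : k[X], c.degree < (plp v).degree ∧ (v ∈ S →
      av v (y - algebraMap k[X] _ c / algebraMap k[X] (RatFunc k) (plp v)) ≤ 1) := by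
    intro v
    by_cases hv : v ∈ S
    · obtain ⟨c, hc, h⟩ := PF_split (fun e => h0 (e ▸ hv)) 1 y (by simpa using h1 v hv)
      rw [pow_one] at hc h
      exact ⟨c, hc, fun _ => h⟩
    · refine ⟨0, ?_, fun h => absurd h hv⟩
      rw [degree_zero, bot_lt_iff_ne_bot]
      exact degree_ne_bot.2 (PF_monic v).ne_zero
  choose c hc h4 using h
  have h5 : ∀ v, v ≠ none → ∀ w ∈ S, w ≠ v →
      av v (algebraMap k[X] _ (c w) / algebraMap k[X] (RatFunc k) (plp w)) ≤ 1 := by
    intro v hv w hw hne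
    rw [map_div₀, PF_one hv fun h' => hne (PF_inj hv (fun e => h0 (e ▸ hw)) h').symm, div_one]
    exact av_poly_le hv _
  refine ⟨c, hc, sub_eq_zero.1 (eq_zero_of_small (fun v hv => ?_) ?_)⟩
  · by_cases hS : v ∈ S
    · rw [← add_sum_erase S _ hS, ← sub_sub]
      exact PF_sub' (h4 v hS) (PF_sum zero_le_one fun w hw =>
        h5 v hv w (mem_of_mem_erase hw) (ne_of_mem_erase hw))
    · exact PF_sub' (h2 v hS hv) (PF_sum zero_le_one fun w hw => h5 v hv w hw fun e => hS (e ▸ hw))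
  · exact (PF_sub' (PF_half' h3) (PF_sum (by positivity) fun w _ =>
      PF_half' (PF_inf (hc w)))).trans_lt (by norm_num)

variable [Fintype k]

omit [Fintype k] in
theorem PF_unif (v : Pl k) : ∃ π : Lv v, ‖π‖ = 2⁻¹ := by
  by_cases hv : v = none
  · subst hv
    refine ⟨algebraMap (RatFunc k) _ (algebraMap k[X] (RatFunc k) X)⁻¹, ?_⟩
    rw [norm_alg, map_inv₀, av_inf X_ne_zero, natDegree_X, pow_one]
  · exact ⟨algebraMap (RatFunc k) _ (algebraMap k[X] (RatFunc k) (plp v)), by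
      rw [norm_alg, av_plp hv]⟩

theorem PF_digit (v : Pl k) : ∃ R : Finset (Lv v), R.card ≤ Fintype.card k ^ pdg v ∧
    ∀ x : Lv v, ‖x‖ ≤ 1 → ∃ d ∈ R, ‖x - d‖ ≤ 2⁻¹ := by
  classical
  have h : ∀ x : Lv v, ‖x‖ ≤ 1 → ∃ a : RatFunc k, ‖x - algebraMap _ _ a‖ ≤ 2⁻¹ ∧ av v a ≤ 1 := by
    intro x hx
    obtain ⟨a, ha⟩ := dense_alg v x one_pos
    refine ⟨a, PF_half ha, ?_⟩
    rw [← norm_alg, ← sub_sub_cancel x (algebraMap _ _ a)]
    exact PF_sub hx ha.le
  by_cases hv : v = none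
  · subst hv
    refine ⟨univ.image fun c : k => algebraMap (RatFunc k) _ (algebraMap k (RatFunc k) c),
      card_image_le.trans (le_of_eq (pow_one _).symm), fun x hx => ?_⟩
    obtain ⟨a, h1, h2⟩ := h x hx
    obtain ⟨c, hc⟩ := (av_good (none : Pl k)).2 a h2
    refine ⟨_, mem_image_of_mem _ (mem_univ c), PF_tri h1 ?_⟩
    rw [← map_sub, norm_alg]
    exact PF_half' hc
  · refine ⟨univ.image fun c : Fin (pdg v) → k => algebraMap (RatFunc k) _
      (algebraMap k[X] (RatFunc k) ((degreeLTEquiv k (pdg v)).symm c)),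
      card_image_le.trans (by simp), fun x hx => ?_⟩
    obtain ⟨a, h1, h2⟩ := h x hx
    have hP := PF_ne (PF_monic v).ne_zero
    obtain ⟨c, hc, h3⟩ := PF_split hv 1 (a / algebraMap k[X] _ (plp v)) (by
      rw [map_div₀, av_plp hv, pow_one, div_inv_eq_mul]
      linarith)
    rw [pow_one] at hc h3
    rw [degree_eq_natDegree (PF_monic v).ne_zero, PF_deg hv, ← mem_degreeLT] at hc
    refine ⟨_, mem_image_of_mem _ (mem_univ (degreeLTEquiv k (pdg v) ⟨c, hc⟩)), PF_tri h1 ?_⟩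
    rw [← sub_div, map_div₀, av_plp hv, div_le_one (by positivity)] at h3
    rw [LinearEquiv.symm_apply_apply, ← map_sub, norm_alg]
    exact h3

/-- the unit ball modulo a smaller ball -/
theorem card_ball' (v : Pl k) (n : ℕ) : ∃ T : Finset (Lv v),
    T.card ≤ Fintype.card k ^ (n * pdg v) ∧
      ∀ x : Lv v, ‖x‖ ≤ 1 → ∃ y ∈ T, ‖y‖ ≤ 1 ∧ ‖x - y‖ ≤ 2⁻¹ ^ n := by
  classical
  obtain ⟨π, hπ⟩ := PF_unif v
  obtain ⟨R, hR, hx⟩ := PF_digit v
  have hπ0 : π ≠ 0 := norm_pos_iff.1 (by rw [hπ]; positivity)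
  induction n with
  | zero => exact ⟨{0}, by simp, fun x h => ⟨0, mem_singleton_self _, by simp, by simpa using h⟩⟩
  | succ n ih =>
    obtain ⟨T, hT, h⟩ := ih
    refine ⟨(T ×ˢ R).image fun z => z.1 + π ^ n * z.2, card_image_le.trans ?_, fun x h1 => ?_⟩
    · rw [card_product, add_mul, one_mul, pow_add]
      exact Nat.mul_le_mul hT hR
    · obtain ⟨y, hy, -, h2⟩ := h x h1
      have hn : ‖π ^ n‖ = 2⁻¹ ^ n := by rw [norm_pow, hπ]
      obtain ⟨d, hd, h3⟩ := hx ((x - y) / π ^ n) (by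
        rw [norm_div, hn, div_le_one (by positivity)]
        exact h2)
      have h4 : ‖x - (y + π ^ n * d)‖ ≤ 2⁻¹ ^ (n + 1) := by
        have e : x - (y + π ^ n * d) = π ^ n * ((x - y) / π ^ n - d) := by
          field_simp
          ring
        rw [e, norm_mul, hn, pow_succ]
        exact mul_le_mul_of_nonneg_left h3 (by positivity)
      refine ⟨_, mem_image.2 ⟨(y, d), mem_product.2 ⟨hy, hd⟩, rfl⟩, ?_, h4⟩
      rw [← sub_sub_cancel x (y + π ^ n * d)]
      exact PF_sub h1 (h4.trans (pow_le_one₀ (by positivity) (by norm_num)))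

theorem card_ball (v : Pl k) (n : ℕ) : ∃ T : Finset (Lv v),
    T.card ≤ Fintype.card k ^ (n * pdg v) ∧ ∀ x : Lv v, ‖x‖ ≤ 2 ^ n → ∃ y ∈ T, ‖x - y‖ ≤ 1 := by
  classical
  obtain ⟨π, hπ⟩ := PF_unif v
  obtain ⟨T, hT, h⟩ := card_ball' v n
  have hπ0 : π ≠ 0 := norm_pos_iff.1 (by rw [hπ]; positivity)
  have hn : ‖π ^ n‖ = (2 ^ n)⁻¹ := by rw [norm_pow, hπ, inv_pow]
  refine ⟨T.image fun y => y / π ^ n, card_image_le.trans hT, fun x hx => ?_⟩
  obtain ⟨y, hy, -, h2⟩ := h (x * π ^ n) (by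
    rw [norm_mul, hn, ← div_eq_mul_inv, div_le_one (by positivity)]
    exact hx)
  refine ⟨_, mem_image_of_mem _ hy, ?_⟩
  have e : x - y / π ^ n = (x * π ^ n - y) / π ^ n := by field_simp
  rw [e, norm_div, hn, div_le_one (by positivity), ← inv_pow]
  exact h2

theorem card_bounded (S : Finset (Pl k)) (T : ∀ v : Pl k, Finset (Lv v)) : ∃ Y : Finset (RatFunc k),
    Y.card ≤ Fintype.card k * ∏ v ∈ S, (T v).card ∧ ∀ y : RatFunc k,
      (∀ v ∈ S, ∃ x ∈ T v, ‖algebraMap _ _ y - x‖ ≤ 1) → (∀ v ∉ S, av v y ≤ 1) → y ∈ Y := by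
  classical
  let Q : (∀ v : S, Lv v.1) → RatFunc k → Prop := fun f y =>
    (∀ v : S, ‖algebraMap _ _ y - f v‖ ≤ 1) ∧ ∀ v ∉ S, av v y ≤ 1
  refine ⟨((univ : Finset k) ×ˢ Fintype.piFinset fun v : S => T v.1).image fun z =>
    Classical.epsilon (Q z.2) + algebraMap k _ z.1, card_image_le.trans ?_, fun y h1 h2 => ?_⟩
  · rw [card_product, card_univ, Fintype.card_piFinset, prod_coe_sort S fun v => (T v).card]
  · choose f hf h3 using fun v : S => h1 v.1 v.2
    have h4 : Q f (Classical.epsilon (Q f)) := Classical.epsilon_spec ⟨y, h3, h2⟩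
    have h5 : ∀ v, av v (y - Classical.epsilon (Q f)) ≤ 1 := by
      intro v
      by_cases hv : v ∈ S
      · rw [← norm_alg, map_sub]
        exact PF_tri (h3 ⟨v, hv⟩) (by rw [norm_sub_rev]; exact h4.1 ⟨v, hv⟩)
      · exact PF_sub' (h2 v hv) (h4.2 v hv)
    obtain ⟨g, hg⟩ := liouville fun v _ => h5 v
    have h6 : g.natDegree = 0 := by
      by_cases h0 : g = 0
      · rw [h0, natDegree_zero]
      · have h7 := h5 none
        rw [hg, av_inf h0] at h7
        by_contra h8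
        exact absurd h7 (not_le.2 (one_lt_pow₀ one_lt_two h8))
    obtain ⟨c, rfl⟩ := natDegree_eq_zero.1 h6
    refine mem_image.2 ⟨(c, f), mem_product.2 ⟨mem_univ _, Fintype.mem_piFinset.2 hf⟩, ?_⟩
    rw [RatFunc.algebraMap_C, ← RatFunc.algebraMap_eq_C] at hg
    rw [← hg, add_sub_cancel]

omit [Fintype k] in
theorem zero_count {F : k[X]} (hF : F ≠ 0) (X : Finset (Kb k)) (n : ℕ)
    (h0 : ∀ x ∈ X, x ≠ 0 ∧ x ∈ Om (RatFunc k) (Kb k))
    (hG : ∀ σ : Kb k ≃ₐ[RatFunc k] Kb k, ∀ x ∈ X, σ x ∈ X)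
    (h1 : ∀ (v : Pl k) (ι : Kb k →ₐ[RatFunc k] Lb v), ∀ x ∈ X, nm v (ι x) ≤ 2 ^ n ∧
      (v ≠ none → ¬ plp v ∣ F → nm v (ι x) ≤ 1)) (Z : Finset (Pl k))
    (hZ : ∀ v ∈ Z, v ≠ none ∧ ¬ plp v ∣ F ∧
      ∃ ι : Kb k →ₐ[RatFunc k] Lb v, ∃ x ∈ X, nm v (ι x) < 1) :
    Z.card ≤ X.card * n * (F.natDegree + 1) := by
  classical
  obtain ⟨a, ha⟩ := om_fix (F := RatFunc k) (x := ∏ x ∈ X, x)
    (Subfield.prod_mem _ fun x hx => (h0 x hx).2) fun σ => by
      rw [map_prod]
      exact prod_nbij' σ σ.symm (hG σ) (hG σ.symm) (fun x _ => σ.symm_apply_apply x)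
        (fun x _ => σ.apply_symm_apply x) fun _ _ => rfl
  have ha0 : a ≠ 0 := fun h => prod_ne_zero_iff.2 (fun x hx => (h0 x hx).1) (by
    rw [← ha, h, map_zero])
  have h2 : ∀ (v : Pl k) (ι : Kb k →ₐ[RatFunc k] Lb v), av v a = ∏ x ∈ X, nm v (ι x) := by
    intro v ι
    rw [← nm_algK, ← ι.commutes, ha, map_prod, map_prod]
  let B : Finset (Pl k) := insert none (fac' F)
  let S : Finset (Pl k) := (fin_zeros ha0).toFinset ∪ (B ∪ Z)
  have h3 := prod_formula ha0 S fun v hv => by_contra fun h =>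
    hv (mem_union_left _ ((fin_zeros ha0).mem_toFinset.2 h))
  have h4 : ∀ v ∈ S, av v a ^ pdg v ≤ (if v ∈ B then (2 : ℝ) ^ (X.card * n * pdg v) else 1) *
      if v ∈ Z then 2⁻¹ else 1 := by
    intro v _
    have hB : v ∉ B ↔ v ≠ none ∧ ¬ plp v ∣ F := by
      simp only [B, mem_insert, mem_fac' hF, not_or, not_and]
      exact ⟨fun h => ⟨h.1, h.2 h.1⟩, fun h => ⟨h.1, fun _ => h.2⟩⟩
    by_cases hv : v ∈ Z
    · obtain ⟨hv1, hv2, ι, x, hx, h5⟩ := hZ v hv
      rw [if_neg (hB.2 ⟨hv1, hv2⟩), if_pos hv, one_mul]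
      have h6 : av v a < 1 := by
        rw [h2 v ι, ← mul_prod_erase X _ hx]
        exact mul_lt_one_of_nonneg_of_lt_one_left ((nm v).nonneg _) h5
          (prod_le_one (fun y _ => (nm v).nonneg _) fun y hy =>
            (h1 v ι y (mem_of_mem_erase hy)).2 hv1 hv2)
      exact (pow_le_of_le_one ((av v).nonneg _) h6.le (pdg_pos v).ne').trans (PF_half' h6)
    · obtain ⟨ι⟩ := exists_emb v
      rw [if_neg hv, mul_one]
      split_ifs with h5
      · rw [pow_mul]
        refine pow_le_pow_left₀ ((av v).nonneg _) ?_ _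
        rw [h2 v ι, mul_comm, pow_mul, ← prod_const]
        exact prod_le_prod (fun y _ => (nm v).nonneg _) fun y hy => (h1 v ι y hy).1
      · refine pow_le_one₀ ((av v).nonneg _) ?_
        rw [h2 v ι]
        exact prod_le_one (fun y _ => (nm v).nonneg _) fun y hy =>
          (h1 v ι y hy).2 (hB.1 h5).1 (hB.1 h5).2
  have h5 := h3.symm.trans_le (prod_le_prod (fun v _ => pow_nonneg ((av v).nonneg _) _) h4)
  rw [prod_mul_distrib, prod_ite_mem, prod_ite_mem,
    inter_eq_right.2 (subset_union_left.trans subset_union_right),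
    inter_eq_right.2 (subset_union_right.trans subset_union_right), prod_const,
    prod_pow_eq_pow_sum, inv_pow, ← div_eq_mul_inv, one_le_div (by positivity),
    pow_le_pow_iff_right₀ one_lt_two, ← mul_sum,
    sum_insert fun h => ((mem_fac' hF).1 h).1 rfl] at h5
  refine h5.trans (Nat.mul_le_mul_left _ ?_)
  have h6 := sum_pdg_fac' (f := F)
  change 1 + _ ≤ _
  omega

end

end Pool.Agent.ASel
end

-- merged part: Pool.Agent.Work.MP_60d5ce_nt.AS.Res
section
/-!
# Residues with values in `F_p`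

`res p v f` is the trace to `F_p` of the residue of `f dt` at `v`.

PLAN.  `fd p v` is the degree of the residue field over `F_p`: for `‖g‖ ≤ 1`, `g ^ p ^ fd ≡ g`
(`g` is congruent to a polynomial modulo `P`, `k[X] / P` is a field with `p ^ fd` elements), so
`tr g = ∑_{i < fd} g ^ p ^ i` satisfies `(tr g) ^ p ≡ tr g`, `∏_{c ∈ F_p} (tr g - c)` is small and `tr g` is
congruent to a unique `c ∈ F_p`; `tr` is additive and `tr (g ^ p) ≡ tr g`.  By `norm_car`, `‖u C^n f‖ ≤ 1`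
for large `n` (`norm_disc`); put `res f = tr (u C^n f)`, independent of `n` by `car_simple`.
`res_nd`: `tr` is a nonzero polynomial of degree `p ^ (fd - 1)` on the residue field with `p ^ fd`
elements.  `as_solve`: on the residue field `s ↦ s ^ p - s` has kernel `F_p`, its image lies in the
kernel of `tr`, count; then Hensel (`wp_small` with `A = 1`).
`res_sum`: replace `f` by `C ^ n f`, which has at most simple poles at all places (finitely many places
with `‖u f‖ > 1`, `res_car`, `PB.car_map`); then `f = ∑ a_P / P` (`pf_simple`), and for `f = a / P`,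
`deg a < deg P = d`: `res_P = tr (a / P')`, `res_∞ = - tr_k (coeff a (d-1))`, all other residues vanish,
and `∑_{P θ = 0} a(θ) / P'(θ) = coeff a (d-1)` (Lagrange interpolation over the roots
`θ ^ q ^ j`; take a root `θ` in `Lb v` with `nm (t - θ) < 1`).
-/

namespace Pool.Agent.ASel

open Polynomial Pool.Agent.Smith Finset

noncomputable section

variable (p : ℕ) {k : Type} [Field k] [Fintype k] [hp : Fact p.Prime] [CharP k p]

/-- the Cartier operator of `k(t)` -/
def cK : RatFunc k →+ RatFunc k := car p ⊤ (tv k (RatFunc k))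

/-- the Cartier operator of the completion -/
def cL (v : Pl k) : Lv v →+ Lv v := car p ⊤ (tv k (Lv v))

/-- degree of the residue field over the prime field -/
def fd (v : Pl k) : ℕ := Nat.log p (Fintype.card k) * pdg v

omit [Fintype k] [CharP k p] in
theorem Res_ff {R : Type} [Field R] [Finite R] [Algebra (ZMod p) R] {x : R}
    (hx : Algebra.trace (ZMod p) R x = 0) : ∃ s : R, s ^ p - s = x := by
  have : CharP R p := charP_of_injective_algebraMap (algebraMap (ZMod p) R).injective p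
  let φ := FiniteField.frobeniusAlgEquivOfAlgebraic (ZMod p) R
  let W : R →ₗ[ZMod p] R := φ.toLinearMap - LinearMap.id
  have hW : ∀ s, W s = s ^ p - s := fun s => by
    show s ^ Fintype.card (ZMod p) - s = _
    rw [ZMod.card]
  have h1 : LinearMap.range W ≤ LinearMap.ker (Algebra.trace (ZMod p) R) := by
    rintro _ ⟨s, rfl⟩
    show Algebra.trace (ZMod p) R (φ s - s) = 0
    rw [map_sub, Algebra.trace_eq_of_algEquiv, sub_self]
  have h2 : LinearMap.ker W ≤ Submodule.span (ZMod p) {1} := fun s hs => by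
    obtain ⟨n, rfl⟩ := (mem_bot_iff_intCast p R).1 ((Subfield.mem_bot_iff_pow_eq_self R p).2
      (sub_eq_zero.1 ((hW s).symm.trans hs)))
    exact Submodule.mem_span_singleton.2 ⟨n, by rw [Int.cast_smul_eq_zsmul, zsmul_one]⟩
  have h3 := Submodule.finrank_mono h2
  have h4 := W.finrank_range_add_finrank_ker
  have h5 := (Algebra.trace (ZMod p) R).finrank_range_add_finrank_ker
  rw [finrank_span_singleton one_ne_zero] at h3
  rw [LinearMap.range_eq_top.2 (Algebra.trace_surjective _ _), finrank_top, Module.finrank_self] at h5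
  obtain ⟨s, hs⟩ := (Submodule.eq_of_le_of_finrank_le h1 (by omega)).ge hx
  exact ⟨s, (hW s).symm.trans hs⟩

/-- the valuation ring -/
def Res_O (v : Pl k) : ValuationSubring (Lv v) :=
  (NormedField.valuation (K := Lv v)).valuationSubring

/-- the residue field -/
abbrev Res_R (v : Pl k) : Type := IsLocalRing.ResidueField (Res_O v)

omit [Fintype k] in
theorem Res_zero {v : Pl k} {x : Res_O v} :
    IsLocalRing.residue _ x = 0 ↔ ‖(x : Lv v)‖ < 1 :=
  (IsLocalRing.residue_eq_zero_iff x).trans (Valuation.mem_maximalIdeal_iff _ _)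

omit [Fintype k] in
theorem Res_surj {v : Pl k} {A : Type} [CommRing A] (j : A →+* RatFunc k)
    (h1 : ∀ a, av v (j a) ≤ 1) (h2 : ∀ y, av v y ≤ 1 → ∃ a, av v (y - j a) < 1) :
    ∃ φ : A →+* Res_R v, Function.Surjective φ ∧ ∀ a, φ a = 0 ↔ av v (j a) < 1 := by
  refine ⟨(IsLocalRing.residue _).comp (((algebraMap _ (Lv v)).comp j).codRestrict (Res_O v)
    fun a => (norm_alg v _).trans_le (h1 a)), fun r => ?_, fun a => Res_zero.trans
      (by rw [← norm_alg]; rfl)⟩
  obtain ⟨x, rfl⟩ := IsLocalRing.residue_surjective r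
  obtain ⟨y, hy⟩ := dense_alg v x one_pos
  have h3 := IsUltrametricDist.norm_add_le_max (x : Lv v) (algebraMap _ _ y - x)
  rw [add_sub_cancel, norm_alg, norm_sub_rev] at h3
  obtain ⟨a, ha⟩ := h2 y (h3.trans (max_le x.2 hy.le))
  refine ⟨a, Eq.symm ?_⟩
  rw [RingHom.comp_apply, ← sub_eq_zero, ← map_sub, Res_zero]
  rw [← norm_alg, map_sub] at ha
  have h4 := (IsUltrametricDist.norm_add_le_max _ _).trans_lt (max_lt hy ha)
  rw [sub_add_sub_cancel] at h4
  exact h4

theorem Res_card (v : Pl k) :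
    Nat.card (Res_R v) = Fintype.card k ^ pdg v ∧ Nonempty (k →+* Res_R v) := by
  have hg := av_good v
  rcases v with _ | P
  · obtain ⟨φ, h1, -⟩ := Res_surj (v := none) (algebraMap k _) (fun a => by
      rcases eq_or_ne a 0 with rfl | h
      · simp
      · exact (av_const _ h).le) hg.2
    exact ⟨by rw [← Nat.card_eq_of_bijective φ ⟨φ.injective, h1⟩, pdg, pow_one,
      Nat.card_eq_fintype_card], ⟨φ⟩⟩
  · obtain ⟨φ, h1, h2⟩ := Res_surj (v := some P) (algebraMap k[X] _)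
      (av_poly_le (Option.some_ne_none P)) hg.2
    have h3 : Ideal.span {P.1} = RingHom.ker φ := Ideal.ext fun a => by
      rw [RingHom.mem_ker, h2, av_poly_lt (Option.some_ne_none P), Ideal.mem_span_singleton, plp]
    have : Module.Finite k (k[X] ⧸ Ideal.span {P.1}) := P.2.1.finite_quotient
    refine ⟨?_, ⟨φ.comp C⟩⟩
    rw [← Nat.card_congr (RingHom.quotientKerEquivOfSurjective h1).toEquiv, ← h3,
      Module.natCard_eq_pow_finrank (K := k), finrank_quotient_span_eq_natDegree, pdg,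
      Nat.card_eq_fintype_card]

theorem Res_tr (v : Pl k) : ∃ T : Lv v → ZMod p,
    (∀ a b, ‖a‖ ≤ 1 → ‖b‖ ≤ 1 → T (a + b) = T a + T b) ∧
    (∀ a b, ‖a‖ ≤ 1 → ‖b‖ ≤ 1 → ‖a ^ p - b‖ < 1 → T a = T b) ∧
    (∀ g, ‖g‖ ≤ 1 → ‖∑ i ∈ range (fd p v), g ^ p ^ i - ((T g).val : Lv v)‖ < 1) ∧
    (∀ g, ‖g‖ < 1 → T g = 0) ∧ (∃ s, ‖s‖ ≤ 1 ∧ T s ≠ 0) ∧
    ∀ h, ‖h‖ ≤ 1 → T h = 0 → ∃ s, ‖s‖ ≤ 1 ∧ ‖h - (s ^ p - s)‖ < 1 := by
  classical
  obtain ⟨hc, ⟨j⟩⟩ := Res_card v
  have : CharP (Res_R v) p := charP_of_injective_ringHom j.injective p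
  let := ZMod.algebra (Res_R v) p
  have : Finite (Res_R v) := Nat.finite_of_card_ne_zero (hc ▸ pow_ne_zero _ Fintype.card_ne_zero)
  have hf : Module.finrank (ZMod p) (Res_R v) = fd p v := by
    obtain ⟨n, -, hn⟩ := FiniteField.card k p
    rw [Module.natCard_eq_pow_finrank (K := ZMod p), Nat.card_zmod, hn, ← pow_mul] at hc
    rw [fd, hn, Nat.log_pow hp.1.one_lt]
    exact Nat.pow_right_injective hp.1.two_le hc
  let T : Lv v → ZMod p := fun g =>
    if h : g ∈ Res_O v then Algebra.trace _ _ (IsLocalRing.residue (Res_O v) ⟨g, h⟩) else 0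
  have hT : ∀ g : Res_O v, T g = Algebra.trace _ _ (IsLocalRing.residue _ g) := fun g =>
    dif_pos g.2
  refine ⟨T, fun a b ha hb => ?_, fun a b ha hb h => ?_, fun g hg => ?_, fun g hg => ?_, ?_,
    fun h hh h0 => ?_⟩
  · lift a to Res_O v using ha
    lift b to Res_O v using hb
    rw [hT, hT, ← map_add, ← map_add, ← hT]
    rfl
  · lift a to Res_O v using ha
    lift b to Res_O v using hb
    have h1 := (Res_zero (x := a ^ p - b)).2 h
    rw [map_sub, map_pow, sub_eq_zero] at h1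
    rw [hT, hT, ← h1, ← Algebra.trace_eq_of_algEquiv
      (FiniteField.frobeniusAlgEquivOfAlgebraic (ZMod p) (Res_R v)),
      FiniteField.coe_frobeniusAlgEquivOfAlgebraic, ZMod.card]
  · lift g to Res_O v using hg
    have h1 := (Res_zero (x := ∑ i ∈ range (fd p v), g ^ p ^ i - ((T g).val : Res_O v))).1 (by
      have h2 := FiniteField.algebraMap_trace_eq_sum_pow (ZMod p) _ (IsLocalRing.residue _ g)
      rw [hf, Nat.card_zmod] at h2
      simp only [map_sub, map_sum, map_pow, map_natCast, ← h2, hT]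
      rw [ZMod.natCast_val, sub_eq_zero]
      rfl)
    push_cast at h1
    exact h1
  · lift g to Res_O v using hg.le
    rw [hT, Res_zero.2 hg, map_zero]
  · obtain ⟨r, hr⟩ := Algebra.trace_surjective (ZMod p) (Res_R v) 1
    obtain ⟨s, rfl⟩ := IsLocalRing.residue_surjective r
    exact ⟨s, s.2, by rw [hT, hr]; exact one_ne_zero⟩
  · lift h to Res_O v using hh
    obtain ⟨r, hr⟩ := Res_ff p ((hT h).symm.trans h0)
    obtain ⟨s, rfl⟩ := IsLocalRing.residue_surjective r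
    exact ⟨s, s.2, (Res_zero (x := h - (s ^ p - s))).1 (by rw [map_sub, map_sub, map_pow, hr, sub_self])⟩

theorem Res_u (v : Pl k) : uL v ≠ 0 := by
  rw [← norm_pos_iff, uL, norm_alg, av_uu]
  split_ifs <;> norm_num

theorem Res_step (v : Pl k) {f : Lv v} {j : ℕ} (h : ‖uL v * f‖ ≤ 2 ^ j) :
    ‖uL v * cL p v f‖ ≤ 2 ^ (j - 1) := by
  rcases eq_or_ne (uL v * cL p v f) 0 with e | e
  · rw [e, norm_zero]
    positivity
  obtain ⟨n, hn⟩ := norm_disc v e
  have h1 : ‖uL v * cL p v f‖ ^ p ≤ 2 ^ j := (norm_car v f).trans h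
  rw [hn, ← zpow_natCast, ← zpow_mul, ← zpow_natCast, zpow_le_zpow_iff_right₀ one_lt_two] at h1
  rw [hn, ← zpow_natCast, zpow_le_zpow_iff_right₀ one_lt_two]
  have h2 : (2 : ℤ) ≤ p := by exact_mod_cast hp.1.two_le
  by_contra h3
  have h4 : 0 < n := by omega
  have h5 := mul_le_mul_of_nonneg_left h2 h4.le
  omega

theorem Res_iter (v : Pl k) (f : Lv v) : ∃ n, ‖uL v * (cL p v)^[n] f‖ ≤ 1 := by
  obtain ⟨j, hj⟩ := pow_unbounded_of_one_lt ‖uL v * f‖ one_lt_two
  replace hj := hj.le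
  induction j generalizing f with
  | zero => exact ⟨0, hj.trans_eq (pow_zero _)⟩
  | succ j ih =>
    obtain ⟨n, hn⟩ := ih _ (Res_step p v hj)
    exact ⟨n + 1, hn⟩

theorem exists_res (v : Pl k) : ∃ r : Lv v →+ ZMod p, (∀ f, r (cL p v f) = r f) ∧
    ∀ g : Lv v, ‖g‖ ≤ 1 → ‖∑ i ∈ range (fd p v), g ^ p ^ i - ((r (g / uL v)).val : Lv v)‖ < 1 := by
  obtain ⟨T, h1, h2, h3, -⟩ := Res_tr p v
  choose n hn using Res_iter p v
  have h4 : ∀ f, ‖uL v * f‖ ≤ 1 → ∀ m, ‖uL v * (cL p v)^[m] f‖ ≤ 1 ∧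
      T (uL v * (cL p v)^[m] f) = T (uL v * f) := fun f hf m => by
    induction m with
    | zero => exact ⟨hf, rfl⟩
    | succ m ih =>
      have h5 := (Res_step p v (j := 0) (ih.1.trans_eq (pow_zero _).symm)).trans_eq (pow_zero _)
      have h6 := car_simple (p := p) v ih.1
      rw [mul_div_cancel_left₀ _ (Res_u v)] at h6
      rw [Function.iterate_succ_apply']
      exact ⟨h5, (h2 _ _ h5 ih.1 h6).trans ih.2⟩
  have h5 : ∀ f m, ‖uL v * (cL p v)^[m] f‖ ≤ 1 →
      T (uL v * (cL p v)^[n f] f) = T (uL v * (cL p v)^[m] f) := fun f m hm => by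
    rw [← (h4 _ (hn f) m).2, ← (h4 _ hm (n f)).2, ← Function.iterate_add_apply,
      ← Function.iterate_add_apply, add_comm]
  refine ⟨AddMonoidHom.mk' (fun f => T (uL v * (cL p v)^[n f] f)) fun a b => ?_, fun f => ?_,
    fun g hg => ?_⟩
  · have ha := (h4 _ (hn a) (n b)).1
    have hb := (h4 _ (hn b) (n a)).1
    rw [← Function.iterate_add_apply] at ha hb
    rw [add_comm] at ha
    have hab := (IsUltrametricDist.norm_add_le_max _ _).trans (max_le ha hb)
    rw [← mul_add, ← iterate_map_add] at hab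
    rw [h5 _ _ ha, h5 _ _ hb, h5 _ _ hab, iterate_map_add, mul_add, h1 _ _ ha hb]
  · exact (h5 f (n (cL p v f) + 1) (hn _)).symm
  · have e : uL v * (g / uL v) = g := mul_div_cancel₀ _ (Res_u v)
    have h6 := h5 (g / uL v) 0 (e.symm ▸ hg)
    rw [Function.iterate_zero_apply, e] at h6
    rw [AddMonoidHom.mk'_apply, h6]
    exact h3 g hg

/-- the trace of the residue of `f dt` -/
def res (v : Pl k) : Lv v →+ ZMod p := (exists_res p v).choose

variable {p}

theorem res_car (v : Pl k) (f : Lv v) : res p v (cL p v f) = res p v f :=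
  (exists_res p v).choose_spec.1 f

theorem res_tr (v : Pl k) {g : Lv v} (hg : ‖g‖ ≤ 1) :
    ‖∑ i ∈ range (fd p v), g ^ p ^ i - ((res p v (g / uL v)).val : Lv v)‖ < 1 :=
  (exists_res p v).choose_spec.2 g hg

theorem alg_cK (v : Pl k) (f : RatFunc k) :
    algebraMap _ (Lv v) (cK p f) = cL p v (algebraMap _ _ f) := by
  exact pb_K.car_map (algebraMap _ (Lv v)) (S' := ⊤) (fun _ _ => trivial) (pb_L v) trivial

theorem cK_frob (g f : RatFunc k) : cK p (g ^ p * f) = g * cK p f := by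
  exact pb_K.car_frob_mul trivial trivial

theorem cL_frob (v : Pl k) (g f : Lv v) : cL p v (g ^ p * f) = g * cL p v f := by
  exact (pb_L v).car_frob_mul trivial trivial

theorem Res_key (v : Pl k) : (∀ g, ‖g‖ < 1 → res p v (g / uL v) = 0) ∧
    (∃ s, ‖s‖ = 1 ∧ res p v (s / uL v) ≠ 0) ∧
    ∀ h, ‖h‖ ≤ 1 → res p v (h / uL v) = 0 → ∃ s, ‖s‖ ≤ 1 ∧ ‖h - (s ^ p - s)‖ < 1 := by
  obtain ⟨T, -, -, h3, h4, ⟨s, h5, h6⟩, h7⟩ := Res_tr p v
  have e : ∀ g, ‖g‖ ≤ 1 → res p v (g / uL v) = T g := fun g hg => by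
    have h1 := (IsUltrametricDist.norm_add_le_max _ _).trans_lt
      (max_lt (h3 g hg) ((norm_neg _).trans_lt (res_tr v hg)))
    rw [neg_sub, sub_add_sub_cancel', ZMod.natCast_val, ZMod.natCast_val] at h1
    by_contra h2
    have h8 := congrArg (fun c => ‖algebraMap (ZMod p) (Lv v) c‖)
      (ZMod.pow_card_sub_one_eq_one (sub_ne_zero.2 h2))
    simp only [map_pow, map_one, norm_pow, norm_one, map_sub] at h8
    exact (pow_lt_one₀ (norm_nonneg _) h1 (Nat.sub_ne_zero_of_lt hp.1.one_lt)).ne h8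
  refine ⟨fun g hg => (e g hg.le).trans (h4 g hg), ⟨s, h5.antisymm (not_lt.1 fun h => h6 (h4 s h)),
    (e s h5).symm ▸ h6⟩, fun h hh h0 => h7 h hh ((e h hh).symm.trans h0)⟩

theorem res_small {v : Pl k} {f : Lv v} (hf : ‖uL v * f‖ < 1) : res p v f = 0 := by
  rw [← (Res_key v).1 _ hf, mul_div_cancel_left₀ _ (Res_u v)]

theorem res_int {v : Pl k} (hv : v ≠ none) {f : Lv v} (hf : ‖f‖ ≤ 1) : res p v f = 0 := by
  refine res_small ?_
  rw [norm_mul, uL, norm_alg, av_uu, if_neg hv]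
  linarith

theorem res_nd {v : Pl k} {f : Lv v} (hf : f ≠ 0) :
    ∃ g : Lv v, ‖g‖ * ‖uL v * f‖ = 1 ∧ res p v (g * f) ≠ 0 := by
  obtain ⟨s, h1, h2⟩ := (Res_key (p := p) v).2.1
  have hu := Res_u v
  have h3 := mul_ne_zero hu hf
  refine ⟨s / (uL v * f), by rw [← norm_mul, div_mul_cancel₀ _ h3, h1], ?_⟩
  rwa [show s / (uL v * f) * f = s / uL v by field_simp]

theorem res_nd_pol {v : Pl k} (hv : v ≠ none) {f : Lv v} (hf : ‖f‖ ≤ 1)
    (h : ∀ c : k[X], c.degree < (plp v).degree →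
      res p v (pk (Lv v) c / pk (Lv v) (plp v) * f) = 0) : ‖f‖ < 1 := by
  refine hf.lt_of_ne fun e => ?_
  obtain ⟨g, h1, h2⟩ := res_nd (p := p) (f := f) (norm_pos_iff.1 (e ▸ one_pos))
  rw [norm_mul, uL, norm_alg, av_uu, if_neg hv, e] at h1
  obtain ⟨c, h3, h4⟩ := pf_pol hv (x := g) (by linarith)
  have h5 := res_int (p := p) hv (f := (g - pk (Lv v) c / pk (Lv v) (plp v)) * f)
    (by rwa [norm_mul, e, mul_one])
  rw [sub_mul, map_sub, h c h3, sub_zero] at h5
  exact h2 h5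

omit [Fintype k] in
/-- Hensel for small elements -/
theorem wp_small {v : Pl k} {A a : Lv v} (ha : ‖a‖ ^ (p - 1) < ‖A‖) :
    ∃ y : Lv v, ‖y‖ ≤ ‖a‖ ∧ y ^ p / A - y = a := by
  have h1 := hp.1.one_lt
  have hA : 0 < ‖A‖ := (pow_nonneg (norm_nonneg _) _).trans_lt ha
  obtain ⟨θ, hθ⟩ : ∃ θ, θ = ‖a‖ ^ (p - 1) / ‖A‖ := ⟨_, rfl⟩
  have θ0 : 0 ≤ θ := by rw [hθ]; positivity
  have θ1 : θ < 1 := by rwa [hθ, div_lt_one hA]
  let φ : Lv v →+ Lv v := AddMonoidHom.mk' (fun y => y ^ p / A) fun a b => by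
    rw [add_pow_char, add_div]
  have hφ : Continuous φ := (continuous_pow p).div_const A
  have h3 : ∀ n, θ ^ n * ‖a‖ ≤ ‖a‖ := fun n =>
    mul_le_of_le_one_left (norm_nonneg _) (pow_le_one₀ θ0 θ1.le)
  have h2 : ∀ n, ‖φ^[n] a‖ ≤ θ ^ n * ‖a‖ := fun n => by
    induction n with
    | zero => simp
    | succ n ih =>
      rw [Function.iterate_succ_apply']
      show ‖φ^[n] a ^ p / A‖ ≤ _
      rw [norm_div, norm_pow, ← pow_sub_one_mul (by omega : p ≠ 0), mul_div_right_comm, pow_succ',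
        mul_assoc]
      refine mul_le_mul ?_ ih (norm_nonneg _) θ0
      rw [hθ]
      exact div_le_div_of_nonneg_right
        (pow_le_pow_left₀ (norm_nonneg _) (ih.trans (h3 n)) _) hA.le
  have h4 : Summable fun n => φ^[n] a :=
    Summable.of_norm_bounded ((summable_geometric_of_lt_one θ0 θ1).mul_right _) h2
  refine ⟨-∑' n, φ^[n] a, (norm_neg _).trans_le
    (IsUltrametricDist.norm_tsum_le_of_forall_le fun n => (h2 n).trans (h3 n)), ?_⟩
  show φ _ - _ = a
  rw [map_neg, h4.map_tsum φ hφ, h4.tsum_eq_zero_add]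
  simp only [Function.iterate_succ_apply', Function.iterate_zero_apply]
  ring

theorem as_solve {v : Pl k} {h : Lv v} (hh : ‖h‖ ≤ 1) (h0 : res p v (h / uL v) = 0) :
    ∃ s : Lv v, ‖s‖ ≤ 1 ∧ s ^ p - s = h := by
  obtain ⟨s, h1, h2⟩ := (Res_key v).2.2 h hh h0
  obtain ⟨y, h3, h4⟩ := wp_small (p := p) (A := 1) (a := h - (s ^ p - s)) (by
    rw [norm_one]
    exact pow_lt_one₀ (norm_nonneg _) h2 (Nat.sub_ne_zero_of_lt hp.1.one_lt))
  refine ⟨s + y, (IsUltrametricDist.norm_add_le_max _ _).trans (max_le h1 (h3.trans h2.le)), ?_⟩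
  rw [add_pow_char]
  linear_combination h4

end

end Pool.Agent.ASel
end

-- merged part: Pool.Agent.Work.MP_60d5ce_nt.AS.LocI
section
/-!
# The inertia group `I0` (plan in the header of `Loc.lean`)
-/

namespace Pool.Agent.ASel

open Polynomial Pool.Agent.Smith

variable {k : Type} [Field k] {p : ℕ} [Fintype k] [hp : Fact p.Prime] [CharP k p]

theorem LocI_const {M : Type} [Field M] [CharP M p] {c : M} {m : ℕ} (hm : 0 < m) (h : c ^ m = 1) :
    ∃ n, 0 < n ∧ c ^ p ^ n = c := by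
  obtain ⟨a, b, l, e⟩ := (isOfFinOrder_iff_pow_eq_one.2 ⟨m, hm, h⟩).finite_powers
    |>.exists_lt_map_eq_of_forall_mem (f := fun n : ℕ => c ^ p ^ n) fun n => Submonoid.pow_mem _ (Submonoid.mem_powers c) _
  refine ⟨b - a, Nat.sub_pos_of_lt l, (iterateFrobenius M p a).injective ?_⟩
  rw [iterateFrobenius_def, iterateFrobenius_def, ← pow_mul, ← pow_add, Nat.sub_add_cancel l.le, e]

theorem LocI_tors {M : Type} [Field M] {c : M} {n : ℕ} (hn : 0 < n) (h : c ^ p ^ n = c) (h0 : c ≠ 0) :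
    0 < p ^ n - 1 ∧ c ^ (p ^ n - 1) = 1 := by
  have l : 1 < p ^ n := Nat.one_lt_pow hn.ne' hp.out.one_lt
  refine ⟨Nat.sub_pos_of_lt l, mul_right_cancel₀ h0 ?_⟩
  rw [← pow_succ, Nat.sub_add_cancel l.le, h, one_mul]

theorem LocI_LD (v : Pl k) : ∃ D : LD (Lv v) (separableClosure (Lv v) (Lb v)) (AlgebraicClosure k),
    ∀ a, D.w a = nm v a := by
  let Λ := separableClosure (Lv v) (Lb v)
  let ψ : RatFunc k →+* Λ := (algebraMap (Lv v) Λ).comp (algebraMap _ _)
  let _ : Algebra k Λ := (ψ.comp (algebraMap k _)).toAlgebra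
  let j : AlgebraicClosure k →ₐ[k] Λ := IsSepClosed.lift
  let w : AbsoluteValue Λ ℝ := (nm v).comp Λ.val.toRingHom.injective
  have na : IsNonarchimedean w := fun a b => nm_na v a b
  have wL : ∀ a, w (algebraMap (Lv v) Λ a) = ‖a‖ := nm_alg v
  have wK : ∀ a, w (ψ a) = av v a := fun a => (wL _).trans (norm_alg v a)
  have tors : ∀ c : AlgebraicClosure k, c ≠ 0 → ∃ n, 0 < n ∧ c ^ n = 1 := fun c hc =>
    (LocC_tors (k := k) (Ω := AlgebraicClosure k) ⟨c, mem_algebraicClosure_iff.2 (Algebra.IsAlgebraic.isAlgebraic c)⟩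
      fun h => hc (congrArg Subtype.val h)).imp fun n h => ⟨h.1, congrArg Subtype.val h.2⟩
  have ev : ∀ f : k[X], eval₂ j.toRingHom (ψ RatFunc.X) (f.map (algebraMap k _)) =
      ψ (algebraMap k[X] _ f) := fun f => by
    rw [eval₂_map, ← RatFunc.aeval_X_left_eq_algebraMap, aeval_def, hom_eval₂]
    exact congrArg (eval₂ · _ f) j.comp_algebraMap
  refine ⟨⟨j.toRingHom, w, RingHom.id _, na, fun s a => ?_, fun a ha i => ?_, tors, fun a ha => ?_,
    fun a ha => by rw [wL]; exact norm_disc v ha⟩, fun _ => rfl⟩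
  · exact (congrArg (nm v) (s.liftNormal_commutes (Lb v) a).symm).trans (nm_iso v _ _)
  · rw [wL, IntermediateField.minpoly_eq]
    exact (spectralValue_le_one_iff (minpoly.monic (Algebra.IsIntegral.isIntegral _))).1
      ((nm_eq v a).symm.trans_le ha) i
  obtain ⟨b, hb⟩ := dense_alg v a one_pos
  rw [← wL, map_sub] at hb
  have b1 : av v b ≤ 1 := wK b ▸ LocA_le na ha ((w.map_sub _ _).trans_lt hb)
  suffices ∃ c, w (ψ b - j c) < 1 from this.imp fun c h => ⟨rfl, LocA_trans na hb h⟩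
  have g := av_good v
  rcases v with _ | P
  · obtain ⟨c, hc⟩ := g.2 b b1
    refine ⟨algebraMap k _ c, ?_⟩
    rw [← wK, map_sub] at hc
    rwa [j.commutes]
  · obtain ⟨f, hf⟩ := g.2 b b1
    obtain ⟨x, -, hx⟩ := LocA_root (w := w) (j := j.toRingHom) (P.2.1.map (algebraMap k _))
      (a := ψ RatFunc.X) (by rw [ev, wK, g.1]; norm_num)
    have h5 := LocA_eval na (LocA_tors w _ tors) (f.map (algebraMap k _)) hx
    rw [ev] at h5
    rw [← wK, map_sub] at hf
    exact ⟨_, LocA_trans na hf h5⟩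

theorem i0_small {v : Pl k} {τ : Lb v ≃ₐ[Lv v] Lb v} (hτ : τ ∈ I0 p v) {x : Lb v}
    (hx : nm v x ≤ 1) : nm v (τ x - x) < 1 := by
  obtain ⟨D, hD⟩ := LocI_LD v
  obtain ⟨n, hn⟩ := om_exists_pow p (F := Lv v) x
  obtain ⟨c, hc⟩ := D.big_res (a := ⟨_, hn⟩) (by
    rw [hD, map_pow]
    exact pow_le_one₀ ((nm v).nonneg _) hx)
  rw [hD] at hc
  change nm v (x ^ p ^ n - D.j c) < 1 at hc
  have e : τ (D.j c) = D.j c := by
    by_cases c0 : c = 0
    · simp [c0]
    obtain ⟨m, a, b⟩ := D.tors c c0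
    exact hτ _ (LocI_const a (by
      rw [← IntermediateField.coe_pow, ← map_pow, b, map_one, IntermediateField.coe_one]))
  refine lt_of_pow_lt_pow_left₀ (p ^ n) zero_le_one ?_
  rw [one_pow, ← map_pow, sub_pow_char_pow, ← map_pow]
  refine LocA_trans (nm_na v) ?_ (((nm v).map_sub _ _).trans_lt hc)
  rwa [← e, ← map_sub, nm_iso]

theorem i0_disc {v : Pl k} {x : Lb v} (hx : x ∈ Om (Lv v) (Lb v)) (h : ∀ τ ∈ I0 p v, τ x = x)
    (h0 : x ≠ 0) : ∃ n : ℤ, nm v x = 2 ^ n := by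
  obtain ⟨D, hD⟩ := LocI_LD v
  obtain ⟨y, hy⟩ := (InfiniteGalois.mem_range_algebraMap_iff_fixed (k := D.M)
      (⟨x, hx⟩ : separableClosure (Lv v) (Lb v))).2 fun g => by
    have e := (D.incl g).liftNormal_commutes (Lb v)
    refine Subtype.ext ((e ⟨x, hx⟩).symm.trans (h _ fun c ⟨n, a, b⟩ => ?_))
    by_cases c0 : c = 0
    · rw [c0, map_zero]
    obtain ⟨d, rfl⟩ := LocA_mem ((algebraMap _ (Lb v)).comp D.j) (LocI_tors a b c0).1
      (LocI_tors a b c0).2
    exact (e (D.j d)).trans (congrArg _ (D.fix_j g d))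
  have := D.M_disc (a := ⟨x, hx⟩) (hy ▸ y.2) fun e => h0 (congrArg Subtype.val e)
  rwa [hD] at this

theorem i0_normal (v : Pl k) : (I0 p v).Normal :=
  ⟨fun τ h σ c ⟨n, a, b⟩ => by
    rw [AlgEquiv.mul_apply, AlgEquiv.mul_apply, h _ ⟨n, a, by rw [← map_pow, b]⟩,
      ← AlgEquiv.mul_apply, mul_inv_cancel, AlgEquiv.one_apply]⟩

theorem i0_comm {v : Pl k} (σ τ : Lb v ≃ₐ[Lv v] Lb v) : (σ * τ)⁻¹ * (τ * σ) ∈ I0 p v := by
  rintro c ⟨n, a, b⟩
  by_cases c0 : c = 0
  · rw [c0, map_zero]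
  obtain ⟨l, e⟩ := LocI_tors a b c0
  have : NeZero (orderOf c) := ⟨(isOfFinOrder_iff_pow_eq_one.2 ⟨_, l, e⟩).orderOf_pos.ne'⟩
  have q : ∀ s : Lb v ≃ₐ[Lv v] Lb v, ∃ i, c ^ i = s c := fun s =>
    ((IsPrimitiveRoot.orderOf c).eq_pow_of_pow_eq_one
      (by rw [← map_pow, pow_orderOf_eq_one, map_one])).imp fun _ h => h.2
  obtain ⟨i, hi⟩ := q σ
  obtain ⟨j, hj⟩ := q τ
  rw [AlgEquiv.mul_apply, AlgEquiv.aut_inv, AlgEquiv.symm_apply_eq, AlgEquiv.mul_apply,
    AlgEquiv.mul_apply, ← hi, map_pow, ← hj, map_pow, ← hi, pow_right_comm]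

theorem LocI_max {M : Type} [Field M] {w : AbsoluteValue M ℝ} (hw : IsNonarchimedean w) {π : M}
    (hπ : w π = 2⁻¹) {c : ℕ → M} (hc : ∀ i < p, c i ≠ 0 → ∃ n : ℤ, w (c i) = 2 ^ n) :
    ∀ i < p, w (c i ^ p * π ^ i) ≤ w (∑ i ∈ Finset.range p, c i ^ p * π ^ i) := by
  obtain ⟨j, hj, hm⟩ := (Finset.range p).exists_max_image (fun i => w (c i ^ p * π ^ i))
    ⟨0, Finset.mem_range.2 hp.out.pos⟩
  intro i hi
  refine (hm i (Finset.mem_range.2 hi)).trans ?_
  rcases (w.nonneg (c j ^ p * π ^ j)).eq_or_lt with e | e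
  · exact e ▸ w.nonneg _
  refine (LocA_eq hw ?_).ge
  rw [← Finset.add_sum_erase _ _ hj, add_sub_cancel_left]
  refine Finset.sum_induction _ (fun y => w y < _) (fun _ _ => LocA_add_lt hw) (by rwa [map_zero])
    fun l hl => (hm l (Finset.mem_of_mem_erase hl)).lt_of_ne fun q => Finset.ne_of_mem_erase hl ?_
  have f : ∀ i < p, 0 < w (c i ^ p * π ^ i) → ∃ n : ℤ, w (c i ^ p * π ^ i) = 2 ^ (n * p - i) :=
    fun i hi h => (hc i hi fun e => by simp [e, hp.out.ne_zero] at h).imp fun n e => by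
      rw [map_mul, map_pow, map_pow, e, hπ, zpow_sub₀ two_ne_zero, zpow_mul, zpow_natCast,
        zpow_natCast, inv_pow, div_eq_mul_inv]
  have l1 := Finset.mem_range.1 (Finset.mem_of_mem_erase hl)
  have l2 := Finset.mem_range.1 hj
  obtain ⟨a, ha⟩ := f l l1 (q ▸ e)
  obtain ⟨b, hb⟩ := f j l2 e
  rw [ha, hb, zpow_right_inj₀ two_pos (by norm_num)] at q
  obtain rfl : a = b := by
    rcases lt_trichotomy a b with r | r | r
    · nlinarith [Int.add_one_le_of_lt r]
    · exact r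
    · nlinarith [Int.add_one_le_of_lt r]
  omega

theorem LocI_der {v : Pl k} (hv : v ≠ none) {x : Lb v} (hx : x ∈ Om (Lv v) (Lb v))
    (h : ∀ τ ∈ I0 p v, τ x = x) {r : ℝ} (h0 : 0 ≤ r) (hr : ∀ (n : ℤ) (i : ℕ), i + 1 < p →
      ((2 : ℝ) ^ n) ^ p * 2⁻¹ ^ (i + 1) ≤ nm v x → ((2 : ℝ) ^ n) ^ p * 2⁻¹ ^ i ≤ r) :
    nm v (der p (Om (Lv v) (Lb v)) (tv k (Lb v)) x) ≤ r := by
  have B := (sc_Lb (p := p) v).1
  have mK : ∀ a : RatFunc k, algebraMap _ (Lb v) a ∈ Om (Lv v) (Lb v) := fun a =>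
    om_alg (algebraMap _ (Lv v) a)
  have d1 := (pb_K (k := k) (p := p)).der_map (algebraMap _ (Lb v)) (fun a _ => mK a) B
    (x := algebraMap k[X] _ (plp v)) trivial
  have n1 : nm v (der p (Om (Lv v) (Lb v)) (tv k (Lb v)) (pk (Lb v) (plp v))) = 1 := by
    refine (congrArg _ d1.symm).trans ?_
    rw [nm_algK, der_poly]
    refine (av_poly_le hv _).eq_of_not_lt fun l => ?_
    obtain _ | P := v
    · exact hv rfl
    exact P.2.2.not_isUnit ((PerfectField.separable_of_irreducible P.2.2).isUnit_of_dvd' dvd_rfl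
      ((av_poly_lt hv _).1 l))
  have n0 := (nm v).ne_zero_iff.1 (n1.trans_ne one_ne_zero)
  have mP : pk (Lb v) (plp v) ∈ Om (Lv v) (Lb v) := mK _
  have B' := B.change mP n0
  have nπ : nm v (pk (Lb v) (plp v)) = 2⁻¹ := (nm_algK v _).trans (av_plp hv)
  rw [B.der_change mP n0 hx, map_mul, n1, mul_one]
  obtain ⟨c, hc, rfl⟩ := B'.2.2 x hx
  have hd : ∀ i < p, c i ≠ 0 → ∃ n : ℤ, nm v (c i) = 2 ^ n := fun i hi =>
    i0_disc (hc i) fun τ hτ => sub_eq_zero.1 (B'.uniq (c := fun i => τ (c i) - c i)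
      (fun i => sub_mem (om_act τ (hc i)) (hc i)) (by
        have e : τ (pk (Lb v) (plp v)) = pk (Lb v) (plp v) := τ.commutes (algebraMap _ (Lv v) _)
        have := h τ hτ
        simp only [map_sum, map_mul, map_pow, e] at this
        simp only [sub_pow_char, sub_mul, Finset.sum_sub_distrib]
        exact sub_eq_zero.2 this) i hi)
  rw [der, ((exists_dc p _ _).choose_spec B' c hc).1]
  refine Finset.sum_induction _ (fun y => nm v y ≤ r) (fun _ _ => LocA_add_le (nm_na v))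
    (by rwa [map_zero]) fun i hi => ?_
  have hi := Finset.mem_range.1 hi
  by_cases c0 : c i = 0
  · simpa [c0, hp.out.ne_zero] using h0
  obtain _ | i := i
  · simpa using h0
  obtain ⟨n, e⟩ := hd _ hi c0
  have m := LocI_max (nm_na v) nπ hd _ hi
  rw [map_mul, map_pow, map_pow, e, nπ] at m
  rw [mul_assoc, map_mul, map_mul, map_pow, map_pow, e, Nat.add_sub_cancel]
  refine (mul_le_of_le_one_left (by positivity) (nm_na v).apply_natCast_le_one).trans ?_
  exact nπ ▸ hr n i hi m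

theorem i0_der {v : Pl k} (hv : v ≠ none) {x : Lb v} (hx : x ∈ Om (Lv v) (Lb v))
    (h : ∀ τ ∈ I0 p v, τ x = x) (h1 : nm v x ≤ 1) :
    nm v (der p (Om (Lv v) (Lb v)) (tv k (Lb v)) x) ≤ 1 :=
  LocI_der hv hx h zero_le_one fun n i l e => by
    have e := e.trans h1
    rw [inv_pow, mul_inv_le_iff₀ (by positivity), one_mul, ← zpow_natCast, ← zpow_natCast,
      ← zpow_mul, zpow_le_zpow_iff_right₀ one_lt_two] at e
    have : n ≤ 0 := by
      by_contra q
      have : (p : ℤ) ≤ n * p := le_mul_of_one_le_left (by positivity) (by omega)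
      omega
    exact mul_le_one₀ (pow_le_one₀ (by positivity) (zpow_le_one_of_nonpos₀ one_le_two this))
      (by positivity) (pow_le_one₀ (by positivity) (by norm_num))

theorem i0_der2 {v : Pl k} (hv : v ≠ none) {x : Lb v} (hx : x ∈ Om (Lv v) (Lb v))
    (h : ∀ τ ∈ I0 p v, τ x = x) :
    nm v (der p (Om (Lv v) (Lb v)) (tv k (Lb v)) x) ≤ 2 * nm v x :=
  LocI_der hv hx h (by positivity) fun n i _ e => by
    rw [pow_succ] at e
    linarith

end Pool.Agent.ASel
end

-- merged part: Pool.Agent.Work.MP_60d5ce_nt.AS.Wp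
section
/-!
# The operators `y ^ p / A - y` and `w - C (w / A)` on local fields; the Hasse principle for forms

`Anom p A P`: `A` is a `(p-1)`-th power modulo `P`.
-/

namespace Pool.Agent.ASel

open Polynomial Pool.Agent.Smith Finset

noncomputable section

variable (p : ℕ) {k : Type} [Field k]

/-- `A` is a `(p-1)`-th power modulo `P` -/
def Anom (A P : k[X]) : Prop := ∃ y : k[X], P ∣ y ^ (p - 1) - A

variable {p} [hp : Fact p.Prime]

section valued

variable {M : Type} [Field M] {w : AbsoluteValue M ℝ} (hw : IsNonarchimedean w)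
include hw

omit hw in
theorem Wp_pow {R : Type} [Monoid R] (x : R) : x ^ p = x * x ^ (p - 1) := by
  rw [← pow_succ', Nat.sub_add_cancel hp.out.one_le]

theorem wp_norm {A y : M} (hA : A ≠ 0) (hy : w A < w y ^ (p - 1)) :
    w (y ^ p / A - y) = w y ^ p / w A := by
  have hA' := w.pos hA
  have h0 : 0 < w y := by
    refine lt_of_le_of_ne (w.nonneg y) fun h => ?_
    rw [← h, zero_pow (Nat.sub_ne_zero_of_lt hp.out.one_lt)] at hy
    exact lt_asymm hy hA'
  rw [← map_pow, ← map_div₀]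
  refine LocA_eq hw ?_
  rw [sub_sub_cancel_left, w.map_neg, map_div₀, map_pow, lt_div_iff₀ hA', Wp_pow (w y)]
  exact mul_lt_mul_of_pos_left hy h0

theorem wp_le {A y : M} (hA : A ≠ 0) {B : ℝ} (hB : 1 ≤ B) (hAB : w A ≤ B)
    (hy : w (y ^ p / A - y) ≤ B) : w y ≤ B := by
  by_contra h
  have h1 : B < w y := not_le.1 h
  have h2 : w A < w y ^ (p - 1) := (hAB.trans_lt h1).trans_le
    (le_self_pow₀ (hB.trans h1.le) (Nat.sub_ne_zero_of_lt hp.out.one_lt))
  rw [wp_norm hw hA h2, div_le_iff₀ (w.pos hA), Wp_pow (w y)] at hy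
  exact absurd hy (not_le.2 (mul_lt_mul'' h1 h2 (by linarith) (w.nonneg A)))

theorem wp_int {A y : M} (hA : w A = 1) (hy : w (y ^ p / A - y) ≤ 1) : w y ≤ 1 := 
  wp_le hw (fun h => by simp [h] at hA) le_rfl hA.le hy

/-- an element close to `0` in `F_p l`, `l` a unit, vanishes -/
theorem fp_small [CharP M p] {l : M} (hl : w l = 1) {m : ℕ} (h : w (m * l) < 1) :
    (m : M) * l = 0 := by
  rw [map_mul, hl, mul_one] at h
  by_contra h0
  have h1 := pow_lt_self_of_lt_one₀ (w.pos (left_ne_zero_of_mul h0)) h hp.out.one_lt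
  rw [← map_pow, ← frobenius_def, map_natCast] at h1
  exact lt_irrefl _ h1

end valued

theorem Wp_fix {M : Type} [Field M] [CharP M p] {x : M} (h : x ^ p = x) : ∃ m : ℕ, x = m := by
  have h1 := (Subfield.mem_bot_iff_pow_eq_self M p).2 h
  rw [← ZMod.fieldRange_castHom_eq_bot p] at h1
  obtain ⟨c, rfl⟩ := h1
  exact ⟨c.val, by rw [ZMod.castHom_apply, ZMod.cast_eq_val]⟩

theorem Wp_add {M : Type} [Field M] [CharP M p] (A x y : M) :
    (x + y) ^ p / A - (x + y) = (x ^ p / A - x) + (y ^ p / A - y) := by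
  rw [add_pow_char]
  ring

theorem Wp_sub {M : Type} [Field M] [CharP M p] (A x y : M) :
    (x - y) ^ p / A - (x - y) = (x ^ p / A - x) - (y ^ p / A - y) := by
  rw [sub_pow_char]
  ring

theorem wp_ker {M : Type} [Field M] [CharP M p] {A l y : M} (hl : l ^ (p - 1) = A) (h0 : l ≠ 0)
    (hy : y ^ p / A - y = 0) : ∃ m : ℕ, y = m * l := by
  obtain ⟨m, hm⟩ := Wp_fix (p := p) (x := y / l) (by
    rw [div_pow, Wp_pow l, hl, mul_comm, ← div_div, sub_eq_zero.1 hy])
  exact ⟨m, by rw [← hm, div_mul_cancel₀ _ h0]⟩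

variable [Fintype k] [CharP k p]

theorem Wp_na (v : Pl k) : IsNonarchimedean (NormedField.toAbsoluteValue (Lv v)) :=
  IsUltrametricDist.isNonarchimedean_norm

theorem Wp_add_lt {v : Pl k} {a b : Lv v} {t : ℝ} (ha : ‖a‖ < t) (hb : ‖b‖ < t) : ‖a + b‖ < t :=
  LocA_add_lt (Wp_na v) ha hb

theorem Wp_add_le {v : Pl k} {a b : Lv v} {t : ℝ} (ha : ‖a‖ ≤ t) (hb : ‖b‖ ≤ t) : ‖a + b‖ ≤ t :=
  LocA_add_le (Wp_na v) ha hb

theorem Wp_sub_lt {v : Pl k} {a b : Lv v} {t : ℝ} (ha : ‖a‖ < t) (hb : ‖b‖ < t) : ‖a - b‖ < t := by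
  rw [sub_eq_add_neg]
  exact Wp_add_lt ha (by rwa [norm_neg])

theorem Wp_sub_le {v : Pl k} {a b : Lv v} {t : ℝ} (ha : ‖a‖ ≤ t) (hb : ‖b‖ ≤ t) : ‖a - b‖ ≤ t := by
  rw [sub_eq_add_neg]
  exact Wp_add_le ha (by rwa [norm_neg])

theorem Wp_eq {v : Pl k} {a b : Lv v} (h : ‖a - b‖ < ‖b‖) : ‖a‖ = ‖b‖ := LocA_eq (Wp_na v) h

theorem Wp_half {v : Pl k} {x : Lv v} {n : ℤ} (h : ‖x‖ < 2 ^ (n + 1)) : ‖x‖ ≤ 2 ^ n := by
  by_cases h0 : x = 0
  · rw [h0, norm_zero]
    positivity
  obtain ⟨j, hj⟩ := norm_disc v h0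
  rw [hj, zpow_lt_zpow_iff_right₀ one_lt_two] at h
  rw [hj]
  exact zpow_le_zpow_right₀ one_le_two (by omega)

theorem Wp_one {v : Pl k} {A t : Lv v} (hA : ‖A‖ = 1) (ht : t ^ (p - 1) = A) : ‖t‖ = 1 := by
  rw [← ht, norm_pow] at hA
  exact (pow_eq_one_iff_of_nonneg (norm_nonneg t) (Nat.sub_ne_zero_of_lt hp.out.one_lt)).1 hA

theorem Wp_small {v : Pl k} {A a : Lv v} (hA : ‖A‖ = 1) (ha : ‖a‖ < 1) :
    ∃ y : Lv v, ‖y‖ < 1 ∧ y ^ p / A - y = a := by
  obtain ⟨y, h1, h2⟩ := wp_small (p := p) (A := A) (a := a) (by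
    rw [hA]
    exact pow_lt_one₀ (norm_nonneg a) ha (Nat.sub_ne_zero_of_lt hp.out.one_lt))
  exact ⟨y, h1.trans_lt ha, h2⟩

theorem Wp_lift {v : Pl k} {A b : Lv v} (hA : ‖A‖ = 1) (h : ‖b ^ (p - 1) - A‖ < 1) :
    ∃ t : Lv v, t ^ (p - 1) = A := by
  have A0 : A ≠ 0 := fun h => by simp [h] at hA
  have b1 : ‖b‖ = 1 := Wp_one ((Wp_eq (h.trans_eq hA.symm)).trans hA) rfl
  obtain ⟨y, h1, h2⟩ := Wp_small (p := p) (a := b ^ p / A - b) hA (by
    rwa [show b ^ p / A - b = b * (b ^ (p - 1) - A) / A by rw [Wp_pow b]; field_simp, norm_div,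
      norm_mul, b1, hA, one_mul, div_one])
  have h3 := Wp_sub (p := p) A b y
  have h4 : b - y ≠ 0 := fun h => by
    rw [sub_eq_zero.1 h] at b1
    exact h1.ne b1
  rw [h2, sub_self, sub_eq_zero, div_eq_iff A0, Wp_pow (b - y)] at h3
  exact ⟨_, mul_left_cancel₀ h4 h3⟩

theorem Wp_near {v : Pl k} {x : Lv v} (h : ‖x ^ p - x‖ < 1) : ∃ m : ℕ, ‖x - m‖ < 1 := by
  obtain ⟨y, h1, h2⟩ := Wp_small (p := p) (A := 1) norm_one h
  have h3 := Wp_sub (p := p) 1 x y
  rw [h2, div_one, div_one, sub_self, sub_eq_zero] at h3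
  obtain ⟨m, hm⟩ := Wp_fix h3
  exact ⟨m, by rwa [← hm, sub_sub_cancel]⟩

/-- injective maps of the residue field are onto -/
theorem Wp_pig {v : Pl k} (f : Lv v → Lv v) (h1 : ∀ x, ‖x‖ ≤ 1 → ‖f x‖ ≤ 1)
    (h2 : ∀ x y, ‖x‖ ≤ 1 → ‖y‖ ≤ 1 → ‖f x - f y‖ < 1 → ‖x - y‖ < 1) {a : Lv v} (ha : ‖a‖ ≤ 1) :
    ∃ x, ‖x‖ ≤ 1 ∧ ‖a - f x‖ < 1 := by
  let s : Setoid {x : Lv v // ‖x‖ ≤ 1} := ⟨fun x y => ‖x.1 - y.1‖ < 1, fun x => by simp,
    fun h => by rwa [norm_sub_rev], fun h h' => LocA_trans (Wp_na v) h h'⟩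
  obtain ⟨T, -, hT⟩ := card_ball' v 1
  have : Finite {x : {x : Lv v // ‖x‖ ≤ 1} // x.1 ∈ T} :=
    Finite.of_injective (fun x => (⟨x.1.1, x.2⟩ : T)) fun x y h =>
      Subtype.ext (Subtype.ext (congrArg (fun z : T => z.1) h))
  have : Finite (Quotient s) := by
    refine Finite.of_surjective
      (fun x : {x : {x : Lv v // ‖x‖ ≤ 1} // x.1 ∈ T} => Quotient.mk s x.1) fun q => ?_
    obtain ⟨x, rfl⟩ := Quotient.exists_rep q
    obtain ⟨y, hy, y1, y2⟩ := hT x.1 x.2
    exact ⟨⟨⟨y, y1⟩, hy⟩, (Quotient.sound (s := s) (y2.trans_lt (by norm_num))).symm⟩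
  obtain ⟨q, hq⟩ := Finite.surjective_of_injective
    (f := fun q : Quotient s => Quotient.mk s ⟨f q.out.1, h1 _ q.out.2⟩)
    (fun q q' h => Quotient.out_equiv_out.1 (h2 _ _ q.out.2 q'.out.2 (Quotient.exact h)))
    (Quotient.mk s ⟨a, ha⟩)
  exact ⟨q.out.1, q.out.2, Quotient.exact hq.symm⟩

theorem Wp_uL (v : Pl k) : ‖uL v‖ = if v = none then 2 else 2⁻¹ := (norm_alg v _).trans (av_uu v)

theorem Wp_uL0 (v : Pl k) : uL v ≠ 0 := fun h => by
  have := Wp_uL v
  rw [h, norm_zero] at this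
  split_ifs at this <;> norm_num at this

theorem anom_iff {A : k[X]} {v : Pl k} (hv : v ≠ none) (hA : ¬ plp v ∣ A) :
    Anom p A (plp v) ↔ ∃ t : Lv v, t ^ (p - 1) = pk (Lv v) A := by
  have n : ∀ f : k[X], ‖pk (Lv v) f‖ = av v (algebraMap k[X] _ f) := fun f => norm_alg v _
  have h1 : ‖pk (Lv v) A‖ = 1 := by
    rw [n]
    exact le_antisymm (av_poly_le hv A) (not_lt.1 fun h => hA ((av_poly_lt hv A).1 h))
  constructor
  · rintro ⟨y, hy⟩
    have h2 := (av_poly_lt hv _).2 hy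
    rw [← n, map_sub, map_pow] at h2
    exact Wp_lift h1 h2
  · rintro ⟨t, ht⟩
    have t1 := Wp_one h1 ht
    have P1 : ‖pk (Lv v) (plp v)‖ = 2⁻¹ := by rw [n, av_plp hv]
    have P0 : pk (Lv v) (plp v) ≠ 0 := fun h => by simp [h] at P1
    obtain ⟨c, -, hc⟩ := pf_pol hv (x := t / pk (Lv v) (plp v)) (by rw [norm_div, t1, P1]; norm_num)
    rw [← sub_div, norm_div, P1, div_le_iff₀ (by norm_num), norm_sub_rev] at hc
    refine ⟨c, (av_poly_lt hv _).1 ?_⟩
    rw [← n, map_sub, map_pow, ← ht]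
    exact LocA_pow (Wp_na v) (a := pk (Lv v) c) (b := t) ((n c).trans_le (av_poly_le hv c)) t1.le
      (hc.trans_lt (by norm_num)) _

theorem wp_surj {v : Pl k} {A : Lv v} (hA : ‖A‖ = 1) (hn : ∀ t : Lv v, t ^ (p - 1) ≠ A) {a : Lv v}
    (ha : ‖a‖ ≤ 1) : ∃ y : Lv v, ‖y‖ ≤ 1 ∧ y ^ p / A - y = a := by
  have A0 : A ≠ 0 := fun h => by simp [h] at hA
  obtain ⟨x, x1, x2⟩ := Wp_pig (fun y => y ^ p / A - y) (fun x hx => Wp_sub_le (by
    rw [norm_div, hA, div_one, norm_pow]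
    exact pow_le_one₀ (norm_nonneg x) hx) hx) (fun x y hx hy h => by
      refine lt_of_le_of_ne (Wp_sub_le hx hy) fun h1 => ?_
      rw [← Wp_sub] at h
      generalize x - y = d at h h1
      rw [show d ^ p / A - d = d * (d ^ (p - 1) - A) / A by rw [Wp_pow d]; field_simp, norm_div,
        norm_mul, h1, hA, one_mul, div_one] at h
      obtain ⟨t, ht⟩ := Wp_lift hA h
      exact hn t ht) ha
  obtain ⟨y, y1, y2⟩ := Wp_small (p := p) hA x2
  exact ⟨x + y, Wp_add_le x1 y1.le, by rw [Wp_add, y2, add_sub_cancel]⟩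

/-- the unit ball modulo the image has at most `p` elements -/
theorem wp_coker {v : Pl k} {A : Lv v} (hA : ‖A‖ = 1) : ∃ o : Lv v, ‖o‖ ≤ 1 ∧ ∀ a : Lv v, ‖a‖ ≤ 1 →
    ∃ (m : ℕ) (y : Lv v), ‖y‖ ≤ 1 ∧ a = y ^ p / A - y + m * o := by
  by_cases hn : ∀ t : Lv v, t ^ (p - 1) ≠ A
  · refine ⟨0, by simp, fun a ha => ?_⟩
    obtain ⟨y, h1, h2⟩ := wp_surj hA hn ha
    exact ⟨0, y, h1, by rw [h2, mul_zero, add_zero]⟩
  simp only [not_forall, not_not] at hn
  obtain ⟨t, ht⟩ := hn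
  have t1 := Wp_one hA ht
  have t0 : t ≠ 0 := fun h => by simp [h] at t1
  obtain ⟨o, o1, ho⟩ : ∃ o : Lv v, ‖o‖ ≤ 1 ∧ ∀ h : Lv v, ‖h‖ ≤ 1 →
      ∃ m : ℕ, res p v (h / uL v) = m * res p v (o / uL v) := by
    by_cases h0 : ∃ o : Lv v, ‖o‖ ≤ 1 ∧ res p v (o / uL v) ≠ 0
    · obtain ⟨o, o1, o2⟩ := h0
      refine ⟨o, o1, fun h _ => ⟨(res p v (h / uL v) / res p v (o / uL v)).val, ?_⟩⟩
      rw [ZMod.natCast_zmod_val, div_mul_cancel₀ _ o2]
    · refine ⟨0, by simp, fun h h1 => ⟨0, ?_⟩⟩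
      by_contra h2
      exact h0 ⟨h, h1, by simpa using h2⟩
  refine ⟨t * o, by rwa [norm_mul, t1, one_mul], fun a ha => ?_⟩
  have a1 : ‖a / t‖ ≤ 1 := by rwa [norm_div, t1, div_one]
  obtain ⟨m, hm⟩ := ho _ a1
  obtain ⟨s, s1, s2⟩ := as_solve (p := p) (h := a / t - (m : Lv v) * o) (Wp_sub_le a1 (by
    rw [norm_mul]
    exact mul_le_one₀ (IsUltrametricDist.norm_natCast_le_one _ m) (norm_nonneg o) o1)) (by
      rw [sub_div, map_sub, hm, mul_div_assoc, ← nsmul_eq_mul m (o / uL v), map_nsmul, nsmul_eq_mul,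
        sub_self])
  refine ⟨m, t * s, by rwa [norm_mul, t1, one_mul], ?_⟩
  rw [mul_pow, Wp_pow t, ← ht, sub_eq_iff_eq_add.1 s2]
  field_simp
  ring

theorem wp_unr {v : Pl k} {A a : Lv v} (hA : ‖A‖ = 1) {z : Lb v} (hz : ∀ τ ∈ I0 p v, τ z = z)
    (h : z ^ p / algebraMap _ _ A - z = algebraMap _ _ a) :
    ∃ y : Lv v, ‖a - (y ^ p / A - y)‖ ≤ 1 := by
  have A0 : A ≠ 0 := fun h => by simp [h] at hA
  have A1 : nm v (algebraMap _ (Lb v) A) = 1 := (nm_alg v A).trans hA
  have A2 : algebraMap _ (Lb v) A ≠ 0 := (_root_.map_ne_zero _).2 A0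
  obtain ⟨n, hn⟩ := pow_unbounded_of_one_lt ‖a‖ (one_lt_two (α := ℝ))
  replace hn := hn.le
  induction n generalizing a z with
  | zero => exact ⟨0, by simpa [hp.out.ne_zero] using hn⟩
  | succ n ih =>
    by_cases h1 : ‖a‖ ≤ 2 ^ n
    · exact ih hz h h1
    have a1 : 1 < ‖a‖ := (one_le_pow₀ one_le_two).trans_lt (not_le.1 h1)
    have z1 : 1 < nm v z := by
      refine not_le.1 fun h2 => not_le.2 a1 ?_
      rw [← nm_alg, ← h, sub_eq_add_neg]
      refine LocA_add_le (nm_na v) ?_ (by rwa [(nm v).map_neg])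
      rw [map_div₀, A1, div_one, map_pow]
      exact pow_le_one₀ ((nm v).nonneg z) h2
    have z2 := wp_norm (p := p) (nm_na v) A2 (y := z)
      (A1.trans_lt (one_lt_pow₀ z1 (Nat.sub_ne_zero_of_lt hp.out.one_lt)))
    rw [h, nm_alg, A1, div_one] at z2
    obtain ⟨j, hj⟩ := i0_disc (om_wp (om_alg A) A2 (om_alg a) h) hz
      fun h0 => by simp [h0, not_lt.2 zero_le_one] at z1
    obtain ⟨c, hc⟩ : ∃ c : Lv v, ‖c‖ = nm v z := by
      have u := Wp_uL v
      split_ifs at u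
      · exact ⟨uL v ^ j, by rw [norm_zpow, u, hj]⟩
      · exact ⟨(uL v)⁻¹ ^ j, by rw [norm_zpow, norm_inv, u, inv_inv, hj]⟩
    rw [← hc] at z1 z2
    have c0 : c ≠ 0 := fun h0 => by simp [h0, not_lt.2 zero_le_one] at z1
    obtain ⟨b, b1, b2⟩ := Wp_pig (fun y : Lv v => y ^ p)
      (fun x hx => by rw [norm_pow]; exact pow_le_one₀ (norm_nonneg x) hx)
      (fun x y _ _ h => by
        rwa [← sub_pow_char, norm_pow, pow_lt_one_iff_of_nonneg (norm_nonneg _) hp.out.ne_zero] at h)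
      (a := a * A / c ^ p) (by
        rw [norm_div, norm_mul, hA, mul_one, norm_pow, ← z2, div_self (by positivity)])
    have e : ‖a - ((b * c) ^ p / A - b * c)‖ < ‖a‖ := by
      rw [show a - ((b * c) ^ p / A - b * c) = (a * A / c ^ p - b ^ p) * c ^ p / A + b * c by
        rw [mul_pow]; field_simp; ring]
      refine Wp_add_lt ?_ ?_
      · rw [norm_div, hA, div_one, norm_mul, norm_pow, ← z2]
        exact mul_lt_of_lt_one_left (by positivity) b2
      · rw [norm_mul, z2]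
        exact (mul_le_of_le_one_left (norm_nonneg c) b1).trans_lt (lt_self_pow₀ z1 hp.out.one_lt)
    obtain ⟨y, hy⟩ := ih (a := a - ((b * c) ^ p / A - b * c)) (z := z - algebraMap _ _ (b * c))
      (fun τ hτ => by rw [map_sub, hz τ hτ, τ.commutes])
      (by rw [Wp_sub, h, map_sub, map_sub, map_div₀, map_pow])
      (by exact_mod_cast Wp_half (n := n) (by exact_mod_cast e.trans_le hn))
    exact ⟨b * c + y, by rwa [Wp_add, ← sub_sub]⟩

theorem res_wp (v : Pl k) {A : Lv v} (hA : A ≠ 0) (y w : Lv v) :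
    res p v ((y ^ p / A - y) * w) = -res p v (y * (w - cL p v (w / A))) := by
  rw [sub_mul, mul_sub, map_sub, map_sub, neg_sub, ← cL_frob, res_car, div_mul_eq_mul_div,
    mul_div_assoc]

theorem ca_bound {v : Pl k} {A w : Lv v} (hA : A ≠ 0) {B : ℝ} (hB : 1 ≤ B) (hAB : ‖A‖⁻¹ ≤ B)
    (h : ‖uL v * (w - cL p v (w / A))‖ ≤ B) : ‖uL v * w‖ ≤ B := by
  refine not_lt.1 fun h1 => ?_
  have h2 : ‖uL v * cL p v (w / A)‖ = ‖uL v * w‖ :=
    Wp_eq (by rw [norm_sub_rev, ← mul_sub]; exact h.trans_lt h1)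
  have h3 : ‖uL v * cL p v (w / A)‖ ^ p ≤ _ := norm_car v (w / A)
  rw [h2, ← mul_div_assoc, norm_div, div_eq_mul_inv, Wp_pow] at h3
  exact not_lt.2 h3 (mul_lt_mul_of_pos_left ((hAB.trans_lt h1).trans_le (le_self_pow₀
    (hB.trans h1.le) (Nat.sub_ne_zero_of_lt hp.out.one_lt))) (by linarith))

theorem Wp_ca {v : Pl k} {A w : Lv v} (hA : ‖A‖ = 1) (h : ‖uL v * (w - cL p v (w / A))‖ < 1) :
    ‖uL v * w‖ ≤ 1 ∧ ‖(uL v * w) ^ p * A - uL v * w‖ < 1 := by
  have A0 : A ≠ 0 := fun h => by simp [h] at hA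
  have h1 := ca_bound A0 le_rfl (by rw [hA, inv_one]) h.le
  have h2 := car_simple (p := p) v (g := uL v * w / A) (by rwa [norm_div, hA, div_one])
  rw [show uL v * w / A / uL v = w / A by field_simp [Wp_uL0 v]] at h2
  have h3 := pow_lt_one₀ (norm_nonneg _) h hp.out.ne_zero
  rw [← norm_pow, mul_sub, sub_pow_char] at h3
  have h4 : ‖(uL v * w) ^ p - uL v * w / A‖ < 1 := LocA_trans (Wp_na v) h3 h2
  refine ⟨h1, ?_⟩
  rwa [show (uL v * w) ^ p * A - uL v * w = ((uL v * w) ^ p - uL v * w / A) * A by field_simp,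
    norm_mul, hA, mul_one]

theorem ca_na {v : Pl k} {A w : Lv v} (hA : ‖A‖ = 1) (hn : ∀ t : Lv v, t ^ (p - 1) ≠ A)
    (h : ‖uL v * (w - cL p v (w / A))‖ < 1) : ‖uL v * w‖ < 1 := by
  obtain ⟨h1, h2⟩ := Wp_ca hA h
  refine lt_of_le_of_ne h1 fun h3 => ?_
  generalize uL v * w = x at h2 h3
  have x0 : x ≠ 0 := fun h => by simp [h] at h3
  obtain ⟨t, ht⟩ := Wp_lift (p := p) (b := x⁻¹) hA (by
    rwa [show x⁻¹ ^ (p - 1) - A = -(x ^ p * A - x) / x ^ p by
      rw [Wp_pow x, inv_pow]; field_simp; ring, norm_div, norm_neg, norm_pow, h3, one_pow, div_one])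
  exact hn t ht

theorem ca_anom {v : Pl k} {A t w : Lv v} (hA : ‖A‖ = 1) (ht : t ^ (p - 1) = A)
    (h : ‖uL v * (w - cL p v (w / A))‖ < 1) : ∃ m : ℕ, ‖uL v * w - m / t‖ < 1 := by
  have t1 := Wp_one hA ht
  have t0 : t ≠ 0 := fun h => by simp [h] at t1
  have h2 := (Wp_ca hA h).2
  generalize uL v * w = x at h2
  obtain ⟨m, hm⟩ := Wp_near (p := p) (x := x * t) (by
    rwa [mul_pow, Wp_pow t, ht, show x ^ p * (t * A) - x * t = (x ^ p * A - x) * t by ring, norm_mul,
      t1, mul_one])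
  exact ⟨m, by rwa [show x - m / t = (x * t - m) / t by field_simp, norm_div, t1, div_one]⟩

theorem c_simple {v : Pl k} {w : Lv v} (h : ‖uL v * (w - cL p v w)‖ < 1) :
    ∃ m : ℕ, ‖uL v * w - m‖ < 1 := by
  simpa only [div_one] using
    ca_anom (p := p) (A := 1) (t := 1) (w := w) norm_one (one_pow _) (by rwa [div_one])

theorem int_iff {v : Pl k} (hv : v ≠ none) (w : Lv v) : ‖uL v * w‖ < 1 ↔ ‖w‖ ≤ 1 := by
  rw [norm_mul, Wp_uL, if_neg hv]
  refine ⟨fun h => ?_, fun h => by linarith⟩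
  simpa using Wp_half (x := w) (n := 0) (by norm_num; linarith)

theorem cL_int {v : Pl k} (hv : v ≠ none) {w : Lv v} (h : ‖w‖ ≤ 1) : ‖cL p v w‖ ≤ 1 := by
  have h1 := (norm_car (p := p) v w).trans_lt ((int_iff hv w).2 h)
  exact (int_iff hv _).1
    ((pow_lt_one_iff_of_nonneg (norm_nonneg _) hp.out.ne_zero).1 h1)

end

end Pool.Agent.ASel
end

-- merged part: Pool.Agent.Work.MP_60d5ce_nt.AS.Gal
section
/-!
# Additive Hilbert 90, Sah's lemma, independent Artin-Schreier roots (plan in the header of `Sep.lean`)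
-/

namespace Pool.Agent.ASel

theorem Gal_avg {G A : Type} [Group G] [AddCommMonoid A] (U : Subgroup G) [Fintype (G ⧸ U)]
    (g : G → A) (hg : ∀ γ, ∀ u ∈ U, g (γ * u) = g γ) (σ : G) :
    ∑ c : G ⧸ U, g (σ * c.out) = ∑ c : G ⧸ U, g c.out := by
  rw [← Equiv.sum_comp (MulAction.toPerm σ) fun c : G ⧸ U => g c.out]
  refine Finset.sum_congr rfl fun c _ => ?_
  obtain ⟨u, hu⟩ := QuotientGroup.mk_out_eq_mul U (σ * c.out)
  rw [MulAction.toPerm_apply, ← MulAction.Quotient.mk_smul_out, smul_eq_mul, hu, hg _ _ u.2]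

theorem Gal_fin {F M : Type} [Field F] [Field M] [Algebra F M] [Algebra.IsAlgebraic F M]
    (H : Subgroup (M ≃ₐ[F] M)) (x : M) : (MulAction.stabilizer H x).FiniteIndex := by
  have h : (MulAction.orbit H x).Finite := by
    refine ((minpoly F x).rootSet_finite M).subset ?_
    rintro _ ⟨σ, rfl⟩
    refine Polynomial.mem_rootSet.2 ⟨minpoly.ne_zero (Algebra.IsIntegral.isIntegral x), ?_⟩
    show Polynomial.aeval (σ.1 x) (minpoly F x) = 0
    rw [Polynomial.aeval_algEquiv, AlgHom.comp_apply, minpoly.aeval, map_zero]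
  have := h.to_subtype
  have := Finite.of_equiv _ (MulAction.orbitEquivQuotientStabilizer H x)
  exact Subgroup.finiteIndex_of_finite_quotient

theorem Gal_cast {p : ℕ} [Fact p.Prime] (M : Type) [Field M] [CharP M p] (a : ZMod p) :
    ((a.val : ℕ) : M) = ZMod.castHom (dvd_refl p) M a := by
  rw [ZMod.natCast_val, ZMod.castHom_apply]

variable {p : ℕ} [hp : Fact p.Prime] {F M : Type} [Field F] [Field M] [Algebra F M] [CharP F p]
  [CharP M p]

omit hp [CharP F p] [CharP M p] in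
/-- additive Hilbert 90 for an open subgroup -/
theorem h90 (p : ℕ) [Fact p.Prime] [CharP F p] [CharP M p] [IsAlgClosure F M] (H : Subgroup (M ≃ₐ[F] M)) (f : (M ≃ₐ[F] M) → M)
    (hf : ∀ σ ∈ H, f σ ∈ Om F M) (hc : ∀ σ ∈ H, ∀ τ ∈ H, f (σ * τ) = f σ + σ (f τ)) (X : Finset M)
    (hX : ∀ σ : M ≃ₐ[F] M, (∀ x ∈ X, σ x = x) → σ ∈ H ∧ f σ = 0) :
    ∃ z ∈ Om F M, ∀ σ ∈ H, σ z - z = f σ := by
  classical
  let U : Subgroup H := ⨅ x ∈ X, MulAction.stabilizer H x
  have hU : ∀ u : H, u ∈ U ↔ ∀ x ∈ X, u.1 x = x := fun u => by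
    simp only [U, Subgroup.mem_iInf, MulAction.mem_stabilizer_iff]
    rfl
  have : U.FiniteIndex := Subgroup.finiteIndex_iInf' _ fun x _ => Gal_fin H x
  have := Fintype.ofFinite (H ⧸ U)
  let L : Submonoid M :=
    { carrier := {y | y ∈ Om F M ∧ ∀ u ∈ U, u.1 y = y}
      mul_mem' := fun h h' => ⟨mul_mem h.1 h'.1, fun u hu => by rw [map_mul, h.2 u hu, h'.2 u hu]⟩
      one_mem' := ⟨one_mem _, fun u _ => map_one _⟩ }
  let χ : H ⧸ U → L →* M := fun c => (c.out.1 : M →* M).comp L.subtype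
  have inj : Function.Injective χ := fun c c' e => by
    rw [← c.out_eq', ← c'.out_eq', QuotientGroup.eq, hU]
    intro x hx
    obtain ⟨n, hn⟩ := om_exists_pow p (F := F) x
    have h1 : c.out.1 (x ^ p ^ n) = c'.out.1 (x ^ p ^ n) := DFunLike.congr_fun e
      ⟨x ^ p ^ n, hn, fun u hu => by rw [map_pow, (hU u).1 hu x hx]⟩
    rw [map_pow, map_pow] at h1
    have h2 : c.out.1 x = c'.out.1 x := iterateFrobenius_inj M p n h1
    show c.out.1.symm (c'.out.1 x) = x
    rw [← h2, AlgEquiv.symm_apply_apply]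
  obtain ⟨θ, hθ⟩ : ∃ θ : L, ∑ c : H ⧸ U, c.out.1 θ.1 ≠ 0 := by
    by_contra h
    refine one_ne_zero (Fintype.linearIndependent_iff.1
      ((linearIndependent_monoidHom L M).comp χ inj) (fun _ => 1) (funext fun θ => ?_)
      (QuotientGroup.mk 1))
    rw [Finset.sum_apply]
    refine Eq.trans (Finset.sum_congr rfl fun c _ => ?_) (not_not.1 (not_exists.1 h θ))
    exact one_mul _
  have hm : ∀ (γ u : H), u ∈ U → (γ * u).1 θ.1 = γ.1 θ.1 := fun γ u hu =>
    congrArg γ.1 (θ.2.2 u hu)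
  refine ⟨-(∑ c : H ⧸ U, f c.out.1 * c.out.1 θ.1) / ∑ c : H ⧸ U, c.out.1 θ.1,
    div_mem (neg_mem (sum_mem fun c _ => mul_mem (hf _ c.out.2) (om_act _ θ.2.1)))
      (sum_mem fun c _ => om_act _ θ.2.1), fun σ hσ => ?_⟩
  have e1 : σ (∑ c : H ⧸ U, c.out.1 θ.1) = ∑ c : H ⧸ U, c.out.1 θ.1 := by
    rw [map_sum]
    exact Gal_avg U (fun γ => γ.1 θ.1) hm ⟨σ, hσ⟩
  have e2 := Gal_avg U (fun γ => f γ.1 * γ.1 θ.1) (fun γ u hu => by
    show f (γ.1 * u.1) * (γ * u).1 θ.1 = _
    rw [hm γ u hu, hc _ γ.2 _ u.2, (hX u.1 ((hU u).1 hu)).2, map_zero, add_zero]) ⟨σ, hσ⟩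
  have e3 : ∑ c : H ⧸ U, f c.out.1 * c.out.1 θ.1 =
      f σ * σ (∑ c : H ⧸ U, c.out.1 θ.1) + σ (∑ c : H ⧸ U, f c.out.1 * c.out.1 θ.1) := by
    rw [map_sum, map_sum, Finset.mul_sum, ← Finset.sum_add_distrib]
    refine e2.symm.trans (Finset.sum_congr rfl fun c _ => ?_)
    show f (σ * c.out.1) * σ (c.out.1 θ.1) = _
    rw [hc _ hσ _ c.out.2, map_mul, add_mul]
  rw [e1] at e3
  rw [map_div₀, map_neg, e1, ← sub_div, div_eq_iff hθ]
  linear_combination e3

omit hp [CharP F p] [CharP M p] in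
/-- Sah's lemma -/
theorem sah (p : ℕ) [Fact p.Prime] [CharP M p] (H : Subgroup (M ≃ₐ[F] M)) {l y : M} (hl : ∀ σ ∈ H, ∃ m : ℕ, σ l = m * l)
    (hy : ∀ σ ∈ H, ∃ m : ℕ, σ y - y = m * l) (hc : ∀ σ ∈ H, ∀ τ ∈ H, (σ * τ) y = (τ * σ) y)
    (hγ : ∃ γ ∈ H, γ l ≠ l) : ∃ m : ℕ, ∀ σ ∈ H, σ (y - m * l) = y - m * l := by
  obtain ⟨γ, hγ, hne⟩ := hγ
  obtain ⟨ψ, hψ⟩ := hl γ hγ
  obtain ⟨b, hb⟩ := hy γ hγ
  have h1 : (ψ : M) - 1 ≠ 0 := fun e => hne (by rw [hψ, sub_eq_zero.1 e, one_mul])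
  refine ⟨((b : ZMod p) / ((ψ : ZMod p) - 1)).val, fun τ hτ => ?_⟩
  have hm : ((((b : ZMod p) / ((ψ : ZMod p) - 1)).val : ℕ) : M) * ((ψ : M) - 1) = b := by
    rw [Gal_cast, map_div₀, map_sub, map_natCast, map_natCast, map_one, div_mul_cancel₀ _ h1]
  generalize ((b : ZMod p) / ((ψ : ZMod p) - 1)).val = m at hm
  obtain ⟨a, ha⟩ := hy τ hτ
  have e := hc γ hγ τ hτ
  rw [AlgEquiv.mul_apply, AlgEquiv.mul_apply, sub_eq_iff_eq_add.1 ha, sub_eq_iff_eq_add.1 hb,
    map_add, map_add, map_mul, map_mul, map_natCast, map_natCast, hψ, sub_eq_iff_eq_add.1 ha,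
    sub_eq_iff_eq_add.1 hb] at e
  rw [map_sub, map_mul, map_natCast, sub_eq_iff_eq_add.1 ha]
  refine mul_left_cancel₀ h1 ?_
  linear_combination e + (l - τ l) * hm

/-- independent Artin-Schreier roots can be moved independently -/
theorem as_surj [IsAlgClosure F M] {ι : Type} [Fintype ι] (h : ι → F) (w : ι → M)
    (hw : ∀ l, w l ^ p - w l = algebraMap F M (h l))
    (hi : ∀ (e : ι → ZMod p) (y : F), y ^ p - y = ∑ l, ((e l).val : F) * h l → e = 0)
    (g : ι → ZMod p) : ∃ σ : M ≃ₐ[F] M, ∀ l, σ (w l) = w l + ((g l).val : M) := by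
  classical
  simp only [Gal_cast M]
  let W0 : AddSubmonoid (ι → ZMod p) :=
    { carrier := {g | ∃ σ : M ≃ₐ[F] M, ∀ l, σ (w l) = w l + ZMod.castHom (dvd_refl p) M (g l)}
      add_mem' := fun ⟨σ, hσ⟩ ⟨τ, hτ⟩ => ⟨σ * τ, fun l => by
        rw [AlgEquiv.mul_apply, hτ, map_add, hσ, ← Gal_cast M, ← Gal_cast M, map_natCast, Gal_cast,
          Gal_cast, Pi.add_apply, map_add, add_assoc]⟩
      zero_mem' := ⟨1, fun l => by rw [Pi.zero_apply, map_zero, add_zero, AlgEquiv.one_apply]⟩ }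
  let W : Submodule (ZMod p) (ι → ZMod p) :=
    { W0 with
      smul_mem' := fun c x hx => by
        rw [← ZMod.natCast_zmod_val c, Nat.cast_smul_eq_nsmul]
        exact nsmul_mem (S := W0) hx _ }
  have ex : ∀ σ : M ≃ₐ[F] M, ∃ g ∈ W, ∀ l, σ (w l) = w l + ZMod.castHom (dvd_refl p) M (g l) := by
    intro σ
    have h1 : ∀ l, ∃ a : ZMod p, σ (w l) = w l + ZMod.castHom (dvd_refl p) M a := fun l => by
      have h2 : (σ (w l) - w l) ^ p = σ (w l) - w l := by
        have h3 := congrArg σ (hw l)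
        rw [map_sub, map_pow, AlgEquiv.commutes, ← hw l] at h3
        rw [sub_pow_char]
        linear_combination h3
      obtain ⟨n, hn⟩ := (mem_bot_iff_intCast p M).1 ((Subfield.mem_bot_iff_pow_eq_self M p).2 h2)
      exact ⟨n, by rw [map_intCast, hn, add_sub_cancel]⟩
    choose a ha using h1
    exact ⟨a, ⟨σ, ha⟩, ha⟩
  by_contra hg
  obtain ⟨φ, φ0, hφ⟩ := W.exists_le_ker_of_lt_top
    (lt_top_iff_ne_top.2 fun e => hg (show g ∈ W from e ▸ Submodule.mem_top))
  let e : ι → ZMod p := fun l => φ fun j => if l = j then 1 else 0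
  have he : ∀ v, φ v = ∑ l, v l * e l := fun v => φ.pi_apply_eq_sum_univ v
  obtain ⟨y, hy⟩ := om_fix (F := F) (x := ∑ l, ((e l).val : M) * w l)
    (sum_mem fun l _ => mul_mem (natCast_mem _ _) (om_wp (p := p) (one_mem _) one_ne_zero
      (om_alg (h l)) (by rw [div_one, hw]))) fun σ => by
      obtain ⟨v, hv, hσ⟩ := ex σ
      have h1 := congrArg (ZMod.castHom (dvd_refl p) M) ((he v).symm.trans (hφ hv))
      rw [map_sum, map_zero] at h1
      rw [map_sum, ← add_zero (∑ l, ((e l).val : M) * w l), ← h1, ← Finset.sum_add_distrib]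
      refine Finset.sum_congr rfl fun l _ => ?_
      rw [map_mul, map_natCast, hσ, map_mul, Gal_cast]
      ring
  have e0 := hi e y ((algebraMap F M).injective (by
    rw [map_sub, map_pow, hy, sum_pow_char, ← Finset.sum_sub_distrib, map_sum]
    refine Finset.sum_congr rfl fun l _ => ?_
    rw [map_mul, map_natCast, ← hw, mul_pow, Gal_cast, ← map_pow, ZMod.pow_card, mul_sub]))
  refine φ0 (LinearMap.ext fun v => ?_)
  rw [he, e0]
  simp

end Pool.Agent.ASel
end

-- merged part: Pool.Agent.Work.MP_60d5ce_nt.AS.SDef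
section
/-!
# Statistics of the family `a / b`: definitions and basic counts  (AS, section 5)

Plan.  `ncard_lt`: `Polynomial.degreeLTEquiv`.  `ncard_mon`: `b ↦ b - X ^ N`.  `ncard_dvd`: `b = g * c`.
`ncard_cong`: two members differ by `g * c` with `c.degree < N - deg g` (or are equal).
`prm_upper`: copy `chebp_sum`, `chebp_le` from `Work/MP_60d5ce_nt/Qt/ChebP.lean` (do not import it).
-/

set_option linter.unusedSectionVars false

namespace Pool.Agent.ASW

open Polynomial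

variable {k : Type} [Field k]

/-- monic irreducible polynomials -/
def Prm (P : k[X]) : Prop := P.Monic ∧ Irreducible P

/-- `A` is not a square modulo `P` -/
def NS (A P : k[X]) : Prop := ¬ ∃ x : k[X], P ∣ x ^ 2 - A

/-- the number of prime factors -/
noncomputable def om (b : k[X]) : ℕ := {P | Prm P ∧ P ∣ b}.ncard

/-- the pairs `(a, b)`, `b` monic squarefree of degree `N` prime to `Δ`, `a` prime to `b` of degree `< N` -/
def Fam (Δ : k[X]) (N : ℕ) : Set (k[X] × k[X]) :=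
  {d | d.2.Monic ∧ Squarefree d.2 ∧ d.2.natDegree = N ∧ IsCoprime d.2 Δ ∧ IsCoprime d.1 d.2 ∧
    d.1.degree < N}

theorem fin_prm {b : k[X]} (hb : b ≠ 0) : {P | Prm P ∧ P ∣ b}.Finite := by
  classical
  have h : {P : k[X] | P.Monic ∧ P ∣ b}.Finite :=
    Set.finite_coe_iff.mp (@Finite.of_fintype _ (fintypeSubtypeMonicDvd b hb))
  exact h.subset fun P hP => ⟨hP.1.1, hP.2⟩

variable [Fintype k]

/-- polynomials of bounded degree as coefficient vectors -/
noncomputable def SDef_eqv (N : ℕ) : {a : k[X] | a.degree < N} ≃ (Fin N → k) :=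
  (Equiv.subtypeEquivRight fun _ => mem_degreeLT.symm).trans (degreeLTEquiv k N).toEquiv

theorem fin_lt (N : ℕ) : {a : k[X] | a.degree < N}.Finite := by
  exact Set.finite_coe_iff.mp (Finite.of_equiv _ (SDef_eqv N).symm)

theorem ncard_lt (N : ℕ) : {a : k[X] | a.degree < N}.ncard = Fintype.card k ^ N := by
  rw [← Nat.card_coe_set_eq, Nat.card_congr (SDef_eqv N), Nat.card_fun, Nat.card_eq_fintype_card,
    Nat.card_eq_fintype_card, Fintype.card_fin]

theorem fin_mon (N : ℕ) : {b : k[X] | b.Monic ∧ b.natDegree = N}.Finite := by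
  exact Set.finite_coe_iff.mp (Finite.of_equiv _
    ((monicEquivDegreeLT N).trans (degreeLTEquiv k N).toEquiv).symm)

theorem ncard_mon (N : ℕ) : {b : k[X] | b.Monic ∧ b.natDegree = N}.ncard = Fintype.card k ^ N := by
  rw [← Nat.card_coe_set_eq]
  refine (Nat.card_congr ((monicEquivDegreeLT N).trans (degreeLTEquiv k N).toEquiv)).trans ?_
  rw [Nat.card_fun, Nat.card_eq_fintype_card, Nat.card_eq_fintype_card, Fintype.card_fin]

theorem fin_fam (Δ : k[X]) (N : ℕ) : (Fam Δ N).Finite := by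
  exact ((fin_lt N).prod (fin_mon N)).subset fun d hd => ⟨hd.2.2.2.2.2, hd.1, hd.2.2.1⟩

theorem SDef_lt {g : k[X]} (hg : g ≠ 0) (N : ℕ) :
    {a : k[X] | a.degree < N ∧ g ∣ a}.ncard = Fintype.card k ^ (N - g.natDegree) := by
  have key : ∀ c : k[X], (g * c).degree < N ↔ c.degree < (N - g.natDegree : ℕ) := by
    intro c
    rcases eq_or_ne c 0 with rfl | hc
    · simp only [mul_zero, degree_zero, WithBot.bot_lt_coe, Nat.cast_withBot]
    · rw [← natDegree_lt_iff_degree_lt hc, ← natDegree_lt_iff_degree_lt (mul_ne_zero hg hc),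
        natDegree_mul hg hc]
      omega
  rw [← ncard_lt, ← Set.ncard_image_of_injective {c : k[X] | c.degree < (N - g.natDegree : ℕ)}
    (mul_right_injective₀ hg)]
  refine congrArg Set.ncard (Set.ext fun a => ⟨?_, ?_⟩)
  · rintro ⟨h1, c, rfl⟩
    exact ⟨c, (key c).1 h1, rfl⟩
  · rintro ⟨c, h1, rfl⟩
    exact ⟨(key c).2 h1, c, rfl⟩

theorem SDef_shift {g : k[X]} (hg : g ≠ 0) {c b₀ : k[X]} {N : ℕ} (h1 : b₀.Monic)
    (h2 : b₀.natDegree = N) (h3 : g ∣ b₀ - c) :
    {b : k[X] | b.Monic ∧ b.natDegree = N ∧ g ∣ b - c}.ncard =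
      Fintype.card k ^ (N - g.natDegree) := by
  have hd : b₀.degree = N := by rw [degree_eq_natDegree h1.ne_zero, h2]
  rw [← SDef_lt hg, ← Set.ncard_image_of_injective {a : k[X] | a.degree < N ∧ g ∣ a}
    (add_right_injective b₀)]
  refine congrArg Set.ncard (Set.ext fun b => ⟨?_, ?_⟩)
  · rintro ⟨k1, k2, k3⟩
    have hb : b.degree = N := by rw [degree_eq_natDegree k1.ne_zero, k2]
    refine ⟨b - b₀, ⟨?_, ?_⟩, add_sub_cancel _ _⟩
    · rw [← hb]
      exact degree_sub_lt_left (hb.trans hd.symm) k1.ne_zero (k1.trans h1.symm)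
    · simpa only [sub_sub_sub_cancel_right] using dvd_sub k3 h3
  · rintro ⟨a, ⟨k1, k2⟩, rfl⟩
    rw [← hd] at k1
    refine ⟨h1.add_of_left k1, (natDegree_add_eq_left_of_degree_lt k1).trans h2, ?_⟩
    rw [add_sub_right_comm]
    exact dvd_add h3 k2

theorem SDef_eq {g : k[X]} (hg : g ≠ 0) (c : k[X]) {N : ℕ} (h : g.natDegree ≤ N) :
    {b : k[X] | b.Monic ∧ b.natDegree = N ∧ g ∣ b - c}.ncard =
      Fintype.card k ^ (N - g.natDegree) := by
  have hm : (g * C g.leadingCoeff⁻¹ * X ^ (N - g.natDegree)).Monic :=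
    (monic_mul_leadingCoeff_inv hg).mul (monic_X_pow _)
  have hn : (g * C g.leadingCoeff⁻¹ * X ^ (N - g.natDegree)).natDegree = N := by
    rw [natDegree_mul_X_pow _ (monic_mul_leadingCoeff_inv hg).ne_zero,
      natDegree_mul_leadingCoeff_inv g hg]
    omega
  have hl : (c % g).degree < (g * C g.leadingCoeff⁻¹ * X ^ (N - g.natDegree)).degree := by
    rw [degree_eq_natDegree hm.ne_zero, hn]
    refine (degree_mod_lt c hg).trans_le ?_
    rw [degree_eq_natDegree hg]
    exact_mod_cast h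
  refine SDef_shift hg (hm.add_of_left hl) ((natDegree_add_eq_left_of_degree_lt hl).trans hn) ?_
  rw [add_sub_assoc, mul_assoc]
  refine dvd_add (dvd_mul_right _ _) ⟨-(c / g), ?_⟩
  linear_combination EuclideanDomain.div_add_mod c g

theorem ncard_dvd {g : k[X]} (hg : g.Monic) {N : ℕ} (h : g.natDegree ≤ N) :
    {b : k[X] | b.Monic ∧ b.natDegree = N ∧ g ∣ b}.ncard = Fintype.card k ^ (N - g.natDegree) := by
  simpa only [sub_zero] using SDef_eq hg.ne_zero 0 h

theorem ncard_dvd_lt {g : k[X]} (hg : g ≠ 0) (N : ℕ) :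
    {a : k[X] | a.degree < N ∧ g ∣ a}.ncard = Fintype.card k ^ (N - g.natDegree) := by
  exact SDef_lt hg N

theorem ncard_cong {g : k[X]} (hg : g ≠ 0) (c : k[X]) (N : ℕ) :
    {b : k[X] | b.Monic ∧ b.natDegree = N ∧ g ∣ b - c}.ncard ≤
      Fintype.card k ^ (N - g.natDegree) := by
  rcases Set.eq_empty_or_nonempty {b : k[X] | b.Monic ∧ b.natDegree = N ∧ g ∣ b - c} with h | h
  · rw [h, Set.ncard_empty]
    exact Nat.zero_le _
  · obtain ⟨b₀, h1, h2, h3⟩ := h
    exact (SDef_shift hg h1 h2 h3).le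

theorem ncard_cong_eq {g : k[X]} (hg : g ≠ 0) (c : k[X]) {N : ℕ} (h : g.natDegree ≤ N) :
    {b : k[X] | b.Monic ∧ b.natDegree = N ∧ g ∣ b - c}.ncard =
      Fintype.card k ^ (N - g.natDegree) := by
  exact SDef_eq hg c h

theorem SDef_sum (e : ℕ) (he : 0 < e) : ∃ S : Finset k[X],
    (∀ p, p ∈ S ↔ p.Monic ∧ Irreducible p ∧ p.natDegree ∣ e) ∧
      ∑ p ∈ S, p.natDegree = Fintype.card k ^ e := by
  classical
  have h1 : 1 < Fintype.card k := Fintype.one_lt_card
  have h0 : (X ^ Fintype.card k ^ e - X : k[X]) ≠ 0 :=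
    FiniteField.X_pow_card_pow_sub_X_ne_zero k he.ne' h1
  have hd : (X ^ Fintype.card k ^ e - X : k[X]).natDegree = Fintype.card k ^ e :=
    FiniteField.X_pow_card_pow_sub_X_natDegree_eq k he.ne' h1
  have hsep : (X ^ Fintype.card k ^ e - X : k[X]).Separable := by
    obtain ⟨p, hp⟩ := CharP.exists k
    obtain ⟨n, hpp, hn⟩ := FiniteField.card k p
    refine galois_poly_separable p _ ?_
    rw [hn]
    exact dvd_pow (dvd_pow_self p n.ne_zero) he.ne'
  have hnd := (UniqueFactorizationMonoid.squarefree_iff_nodup_normalizedFactors h0).1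
    hsep.squarefree
  refine ⟨⟨_, hnd⟩, fun p => ?_, ?_⟩
  · rw [Finset.mem_mk, Polynomial.mem_normalizedFactors_iff h0]
    constructor
    · rintro ⟨a, b, c⟩
      refine ⟨b, a, ?_⟩
      rw [a.natDegree_dvd_iff_dvd_X_pow_card_pow_sub_X, Nat.card_eq_fintype_card]
      exact c
    · rintro ⟨b, a, c⟩
      refine ⟨a, b, ?_⟩
      rwa [a.natDegree_dvd_iff_dvd_X_pow_card_pow_sub_X, Nat.card_eq_fintype_card] at c
  · refine Eq.trans ?_ hd
    rw [Finset.sum_mk, ← natDegree_multiset_prod _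
      (UniqueFactorizationMonoid.zero_notMem_normalizedFactors _)]
    exact natDegree_eq_of_degree_eq (degree_eq_degree_of_associated
      (UniqueFactorizationMonoid.prod_normalizedFactors h0))

theorem prm_upper (n : ℕ) :
    n * {P : k[X] | Prm P ∧ P.natDegree = n}.ncard ≤ Fintype.card k ^ n := by
  rcases Nat.eq_zero_or_pos n with rfl | hn
  · simp
  have hf : {P : k[X] | Prm P ∧ P.natDegree = n}.Finite :=
    (fin_mon n).subset fun P hP => ⟨hP.1.1, hP.2⟩
  obtain ⟨S, hS, hs⟩ := SDef_sum (k := k) n hn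
  have hT : ∀ p ∈ hf.toFinset, Prm p ∧ p.natDegree = n := fun p hp => hf.mem_toFinset.1 hp
  rw [Set.ncard_eq_toFinset_card _ hf, ← hs, mul_comm, ← smul_eq_mul, ← Finset.sum_const,
    ← Finset.sum_congr rfl fun p hp => (hT p hp).2]
  exact Finset.sum_le_sum_of_subset fun p hp =>
    (hS p).2 ⟨(hT p hp).1.1, (hT p hp).1.2, (hT p hp).2 ▸ dvd_rfl⟩

end Pool.Agent.ASW
end

-- merged part: Pool.Agent.Work.MP_60d5ce_nt.AG.CBas
section
/-!
# Poles of rational functions: definitions and basic facts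

PLAN.  `av_den`: `av v d = av v num / av v denom`, `av_poly_eq`; `num` and `denom` are coprime.  `av_deg`: `av_inf`,
`intDegree = deg num - deg denom`.  `fr_inf`: `a = 0` or `deg a < e i = deg (b ^ e)`.  `den_add`: with `d = n / m` in lowest
terms, `a / b ^ e + n / m = (a m + n b ^ e) / (b ^ e m)` is in lowest terms with a monic denominator (`RatFunc.denom_div`,
or compare `denom_dvd` both ways).  `ht_add`: `radical (b ^ e * m) = b * radical m` (`radical_mul`, `radical_pow`, `b` is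
monic and squarefree); the term at infinity is determined by the `n` with `av none d ≤ 2 ^ n` (`av_deg`, `fr_inf`).
`fin_ht`: the degrees of numerator and denominator are bounded (`fin_lt`).  `ht_ge`: `P ^ e ∣ denom`, `P ∣ radical`.
-/

namespace Pool.Agent.ASel

open Polynomial Pool.Agent.Smith Pool.Agent.ASW

noncomputable section

variable {k : Type} [Field k]

/-- all finite poles have order `≥ e` -/
def Hi (e : ℕ) (d : RatFunc k) : Prop := ∀ P, Prm P → P ∣ d.denom → P ^ e ∣ d.denom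

/-- all finite poles have order `< p` and `d` vanishes at infinity -/
def Red (p : ℕ) (d : RatFunc k) : Prop :=
  (∀ P, Prm P → ¬ P ^ p ∣ d.denom) ∧ av (none : Pl k) d < 1

/-- numerators and squarefree denominators of the layer `e` -/
def Lay (e i : ℕ) : Set (k[X] × k[X]) :=
  {x | x.2.Monic ∧ Squarefree x.2 ∧ x.2.natDegree = i ∧ IsCoprime x.1 x.2 ∧
    x.1.degree < (e * i : ℕ)}

/-- the fraction `a / b ^ e` -/
def fr (e : ℕ) (x : k[X] × k[X]) : RatFunc k :=
  algebraMap k[X] (RatFunc k) x.1 / algebraMap k[X] (RatFunc k) x.2 ^ e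

theorem av_den {v : Pl k} (hv : v ≠ none) (d : RatFunc k) (n : ℕ) :
    av v d ≤ 2 ^ n ↔ ¬ plp v ^ (n + 1) ∣ d.denom := by
  have e : av v d = av v (algebraMap k[X] _ d.num) / av v (algebraMap k[X] _ d.denom) := by
    rw [← map_div₀, RatFunc.num_div_denom]
  have hu := (PF_irr hv).not_isUnit
  by_cases h : plp v ∣ d.denom
  · rw [e, PF_one hv fun h' => hu (d.isCoprime_num_denom.isUnit_of_dvd' h' h),
      av_poly_eq hv d.denom_ne_zero, inv_pow, one_div, inv_inv, pow_le_pow_iff_right₀ one_lt_two,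
      (FiniteMultiplicity.of_not_isUnit hu d.denom_ne_zero).pow_dvd_iff_le_multiplicity]
    omega
  · refine iff_of_true ?_ fun h' => h ((dvd_pow_self _ n.succ_ne_zero).trans h')
    rw [e, PF_one hv h, div_one]
    exact (av_poly_le hv _).trans (one_le_pow₀ one_le_two)

theorem av_deg (d : RatFunc k) (n : ℕ) : av (none : Pl k) d ≤ 2 ^ n ↔ d.intDegree ≤ n := by
  by_cases hd : d = 0
  · subst hd
    simp
  have e : av (none : Pl k) d =
      av (none : Pl k) (algebraMap k[X] _ d.num) / av (none : Pl k) (algebraMap k[X] _ d.denom) := by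
    rw [← map_div₀, RatFunc.num_div_denom]
  rw [e, av_inf (RatFunc.num_ne_zero hd), av_inf d.denom_ne_zero, div_le_iff₀ (by positivity),
    ← pow_add, pow_le_pow_iff_right₀ one_lt_two, RatFunc.intDegree]
  omega

theorem prm_pl {P : k[X]} (hP : Prm P) : ∃ v : Pl k, v ≠ none ∧ plp v = P :=
  ⟨some ⟨P, hP⟩, Option.some_ne_none _, rfl⟩

theorem pl_prm {v : Pl k} (hv : v ≠ none) : Prm (plp v) := by
  rcases v with _ | P
  · exact absurd rfl hv
  · exact P.2

variable {e i : ℕ} {x : k[X] × k[X]} {d : RatFunc k}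

theorem fr_inf (hx : x ∈ Lay e i) : av (none : Pl k) (fr e x) < 1 := by
  rw [fr, ← map_pow]
  refine PF_inf ?_
  rw [degree_eq_natDegree (hx.1.pow e).ne_zero, hx.1.natDegree_pow, hx.2.2.1]
  exact hx.2.2.2.2

theorem CBas_den {a b : k[X]} (hb : b.Monic) (hc : IsCoprime a b) :
    (algebraMap k[X] (RatFunc k) a / algebraMap k[X] (RatFunc k) b).denom = b := by
  refine eq_of_monic_of_associated (RatFunc.monic_denom _) hb (associated_of_dvd_dvd
    (RatFunc.denom_div_dvd a b) (hc.symm.dvd_of_dvd_mul_left ?_))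
  rw [← (RatFunc.num_mul_eq_mul_denom_iff hb.ne_zero).2 rfl]
  exact dvd_mul_left _ _

theorem den_add (hx : x ∈ Lay e i) (hc : IsCoprime x.2 d.denom) :
    (fr e x + d).denom = x.2 ^ e * d.denom := by
  have h : fr e x + d = algebraMap k[X] (RatFunc k) (x.1 * d.denom + d.num * x.2 ^ e) /
      algebraMap k[X] (RatFunc k) (x.2 ^ e * d.denom) := by
    have h1 := PF_ne hx.1.ne_zero
    have h2 := PF_ne d.denom_ne_zero
    conv_lhs => rw [← RatFunc.num_div_denom d, fr]
    simp only [map_add, map_mul, map_pow]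
    field_simp
  rw [h]
  refine CBas_den ((hx.1.pow e).mul d.monic_denom) (IsCoprime.mul_right ?_ ?_)
  · exact ((hx.2.2.2.1.mul_left hc.symm).pow_right).add_mul_right_left _
  · rw [add_comm]
    exact (d.isCoprime_num_denom.mul_left hc.pow_left).add_mul_right_left _

theorem ht_add (he : 1 ≤ e) (hx : x ∈ Lay e i) (hc : IsCoprime x.2 d.denom) :
    ht (fr e x + d) = (e + 1) * i + ht d := by
  classical
  have key : ∀ n : ℕ, (fr e x + d).intDegree ≤ n ↔ d.intDegree ≤ n := fun n => by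
    have h := (fr_inf hx).le.trans (one_le_pow₀ (n := n) one_le_two)
    rw [← av_deg, ← av_deg]
    refine ⟨fun h' => ?_, fun h' => (av_na none _ _).trans (max_le h h')⟩
    simpa only [add_sub_cancel_left] using PF_sub' h' h
  have k1 := (key (fr e x + d).intDegree.toNat).1 (Int.self_le_toNat _)
  have k2 := (key d.intDegree.toNat).2 (Int.self_le_toNat _)
  rw [ht, ht, den_add hx hc, UniqueFactorizationMonoid.radical_mul hc.pow_left.isRelPrime,
    UniqueFactorizationMonoid.radical_pow _ (by omega), (hx.1.pow e).natDegree_mul d.monic_denom,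
    natDegree_mul UniqueFactorizationMonoid.radical_ne_zero UniqueFactorizationMonoid.radical_ne_zero,
    natDegree_eq_of_degree_eq (degree_eq_degree_of_associated
      (UniqueFactorizationMonoid.radical_associated hx.2.1.isRadical hx.1.ne_zero)),
    hx.1.natDegree_pow, hx.2.2.1, add_mul, one_mul]
  split_ifs <;> omega

theorem ht_zero : ht (0 : RatFunc k) = 0 := by simp [ht]

theorem ht_ge {P : k[X]} (hP : Prm P) (he : 1 ≤ e) (h : P ^ e ∣ d.denom) :
    (e + 1) * P.natDegree ≤ ht d := by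
  classical
  have h1 := natDegree_le_of_dvd h d.denom_ne_zero
  have h2 := natDegree_le_of_dvd ((UniqueFactorizationMonoid.dvd_radical_iff_of_irreducible hP.2
    d.denom_ne_zero).2 ((dvd_pow_self _ (by omega)).trans h)) UniqueFactorizationMonoid.radical_ne_zero
  rw [hP.1.natDegree_pow] at h1
  rw [add_mul, one_mul]
  exact (add_le_add h1 h2).trans (Nat.le_add_right _ _)

theorem ht_inf : av (none : Pl k) d ≤ 2 ^ ht d := by
  rw [av_deg, ht]
  split_ifs <;> omega

theorem den_le_ht : d.denom.natDegree ≤ ht d := (Nat.le_add_right _ _).trans (Nat.le_add_right _ _)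

theorem om_le_deg {b : k[X]} (hb : b ≠ 0) : om b ≤ b.natDegree := by
  have h : {P | Prm P ∧ P ∣ b} ⊆ plp '' (fac' b : Set (Pl k)) := fun P hP => by
    obtain ⟨v, hv, rfl⟩ := prm_pl hP.1
    exact ⟨v, (mem_fac' hb).2 ⟨hv, hP.2⟩, rfl⟩
  refine (Set.ncard_le_ncard h ((fac' b).finite_toSet.image _)).trans
    ((Set.ncard_image_le (fac' b).finite_toSet).trans (le_trans ?_ sum_pdg_fac'))
  rw [Set.ncard_coe_finset, Finset.card_eq_sum_ones]
  exact Finset.sum_le_sum fun v _ => pdg_pos v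

theorem om_mul_le {b c : k[X]} (hb : b ≠ 0) (hc : c ≠ 0) (e : ℕ) :
    om (b ^ e * c) ≤ om b + om c := by
  refine le_trans (Set.ncard_le_ncard (fun P hP => ?_) ((fin_prm hb).union (fin_prm hc)))
    (Set.ncard_union_le _ _)
  have hp := hP.1.2.prime
  exact (hp.dvd_or_dvd hP.2).imp (fun h => ⟨hP.1, hp.dvd_of_dvd_pow h⟩) fun h => ⟨hP.1, h⟩

theorem fin_ht [Fintype k] (n : ℕ) : {d : RatFunc k | ht d = n}.Finite := by
  refine (((fin_lt (k := k) (2 * n + 1)).prod (fin_lt (k := k) (n + 1))).image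
    fun x => algebraMap k[X] (RatFunc k) x.1 / algebraMap k[X] (RatFunc k) x.2).subset fun d hd => ?_
  have h1 : d.denom.natDegree ≤ n := den_le_ht.trans_eq hd
  have h2 := (av_deg d _).1 ht_inf
  rw [show ht d = n from hd, RatFunc.intDegree] at h2
  exact ⟨(d.num, d.denom), ⟨degree_le_natDegree.trans_lt (Nat.cast_lt.2 (by dsimp only; omega)),
    degree_le_natDegree.trans_lt (Nat.cast_lt.2 (by dsimp only; omega))⟩, d.num_div_denom⟩

theorem fin_lay [Fintype k] (e i : ℕ) : (Lay (k := k) e i).Finite :=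
  ((fin_lt (e * i)).prod (fin_mon i)).subset fun _ hx => ⟨hx.2.2.2.2, hx.1, hx.2.2.1⟩

variable (k) in
/-- the image of `y ↦ y ^ p - y` -/
def wpK (p : ℕ) [Fact p.Prime] [CharP k p] : AddSubgroup (RatFunc k) :=
  ((frobenius (RatFunc k) p).toAddMonoidHom - AddMonoidHom.id _).range

theorem mk_eq {p : ℕ} [Fact p.Prime] [CharP k p] {d d' : RatFunc k} :
    (d : RatFunc k ⧸ wpK k p) = d' ↔ ∃ y, d' = d + (y ^ p - y) := by
  rw [QuotientAddGroup.eq]
  exact exists_congr fun y => by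
    change y ^ p - y = -d + d' ↔ _
    constructor <;> intro h <;> linear_combination -h

variable [Fintype k]

/-- the number of classes of the `d` of height `n` with the property `T`, divided by `q ^ n` -/
def dn (p : ℕ) [Fact p.Prime] [CharP k p] (T : RatFunc k → Prop) (n : ℕ) : ℝ :=
  (((↑) : RatFunc k → RatFunc k ⧸ wpK k p) '' {d | T d ∧ ht d = n}).ncard / (Fintype.card k : ℝ) ^ n

/-- the sum of the reciprocals of the norms of the prime factors -/
def sg (b : k[X]) : ℝ := ∑ᶠ P ∈ {P | Prm P ∧ P ∣ b}, ((Fintype.card k : ℝ) ^ P.natDegree)⁻¹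

/-- the uniform estimate for the simple poles -/
def Unif (p : ℕ) (G : k[X]) (Bad : RatFunc k → Prop) : Prop :=
  ∀ F : k[X], F ≠ 0 → G ∣ F → 1 ≤ F.natDegree → ∀ ε : ℝ, 0 < ε → ∃ a N0 : ℕ, 1 ≤ a ∧ ∀ N ≥ N0,
    ∀ d : RatFunc k, (∀ v, av v d ≤ 2 ^ F.natDegree) →
      (∀ P, Prm P → ¬ P ∣ F → ¬ P ^ p ∣ d.denom) → om d.denom ^ (4 * a) ≤ N →
      d.denom.natDegree ≤ N ^ 2 →
      ({x | x ∈ Fam (F * d.denom) N ∧ Bad (fr 1 x + d)}.ncard : ℝ) ≤
        ε * (Fintype.card k : ℝ) ^ (2 * N)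

end

end Pool.Agent.ASel
end

-- merged part: Pool.Agent.Work.MP_60d5ce_nt.AG.CSpl
section
/-!
# Splitting off a layer of poles; reduced representatives

PLAN.  `split_pred`: `b` is the product of the primes `P` with `S P`, `P ^ e ∣ denom`, `¬ P ^ (e+1) ∣ denom`; `denom = b ^ e * m`
with `m` monic and prime to `b`.  Write `num = a m + n b ^ e` with `deg a < deg (b ^ e)` (Bezout, `modByMonic`); `a` is prime to `b`
and `n` to `m` because `num` is prime to `denom`; so `d' = n / m` has the denominator `m`.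
`fr_inj`: by `den_add` the primes of `b` are those with `P ∣ denom`, `¬ P ^ (e+1) ∣ denom`, so `b = b'` (monic, squarefree); then
`fr e x - fr e x' = d' - d` is integral at every finite place (`av_den`) and small at infinity (`fr_inf`), `eq_zero_of_small`.
`wp_reg`: a pole of `y` at `v` gives `av v (y ^ p - y) = av v y ^ p ≥ 2 ^ p` (`wp_norm` with `A = 1`, `av_disc`).
`pole_eq`: `av_den` with `n = p - 1` and `n = 0`, `wp_reg`.  `red_inj`: `m d` and `d'` have poles of order `< p`, so `y` is a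
polynomial (`wp_reg`, `liouville`), and `y ^ p - y` vanishes at infinity, so it is `0` (`eq_zero_of_small`).
`red_cond`: `denom d ∣ denom (d + y ^ p - y)`, prime by prime: if `y` is integral at `P` the orders of the poles are
equal, otherwise the second one is `≥ p`; `radical_dvd_radical`; the term of `ht d` at infinity is `0` (`av_deg`).
-/

namespace Pool.Agent.ASel

open Polynomial Pool.Agent.Smith Pool.Agent.ASW

variable {k : Type} [Field k]

theorem CSpl_eq {P Q : k[X]} (hP : Prm P) (hQ : Prm Q) (h : P ∣ Q) : P = Q :=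
  eq_of_monic_of_associated hP.1 hQ.1 (hP.2.associated_of_dvd hQ.2 h)

theorem CSpl_cop {a b : k[X]} (ha : a ≠ 0) (h : ∀ P, Prm P → P ∣ a → ¬ P ∣ b) : IsCoprime a b :=
  isCoprime_of_dvd a b (fun h' => ha h'.1) fun z hz _ h1 h2 => by
    obtain ⟨g, hm, hi, hg⟩ := exists_monic_irreducible_factor z hz
    exact h g ⟨hm, hi⟩ (hg.trans h1) (hg.trans h2)

theorem CSpl_dvd {a b : k[X]} (ha : a ≠ 0) (h : ∀ P, Prm P → ∀ n, P ^ n ∣ a → P ^ n ∣ b) : a ∣ b :=
  (UniqueFactorizationMonoid.dvd_iff_emultiplicity_le ha).2 fun q hq =>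
    emultiplicity_le_emultiplicity_iff.2 fun n hn => by
      obtain ⟨g, hm, hi, hg⟩ := exists_monic_irreducible_factor q hq.not_isUnit
      have h1 := (hi.associated_of_dvd hq.irreducible hg).pow_pow (n := n)
      exact h1.symm.dvd.trans (h g ⟨hm, hi⟩ n (h1.dvd.trans hn))

theorem CSpl_not {P a b : k[X]} (hP : Prm P) (h : IsCoprime a b) (ha : P ∣ a) : ¬ P ∣ b :=
  fun hb => hP.2.not_isUnit (h.isUnit_of_dvd' ha hb)

theorem CSpl_add {v : Pl k} {x y : RatFunc k} {c : ℝ} (hx : av v x ≤ c) (hy : av v y ≤ c) :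
    av v (x + y) ≤ c := (av_na v x y).trans (max_le hx hy)

theorem CSpl_sub {v : Pl k} {x y : RatFunc k} {c : ℝ} (hx : av v x < c) (hy : av v y < c) :
    av v (x - y) < c := by
  rw [sub_eq_add_neg]
  exact (av_na v x (-y)).trans_lt (max_lt hx (by rwa [AbsoluteValue.map_neg]))

theorem CSpl_int {v : Pl k} (hv : v ≠ none) {d : RatFunc k} (h : ¬ plp v ∣ d.denom) :
    av v d ≤ 1 := by
  simpa using (av_den hv d 0).2 (by simpa using h)

theorem split_pred {e : ℕ} (he : 1 ≤ e) (S : k[X] → Prop) (d : RatFunc k) :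
    ∃ (i : ℕ) (x : k[X] × k[X]) (d' : RatFunc k), x ∈ Lay e i ∧ IsCoprime x.2 d'.denom ∧
      d = fr e x + d' ∧ (∀ P, Prm P → P ∣ x.2 → S P) ∧
      ∀ P, Prm P → S P → P ^ e ∣ d'.denom → P ^ (e + 1) ∣ d'.denom := by
  classical
  have hD := d.denom_ne_zero
  obtain ⟨T, hT⟩ : ∃ T : Finset k[X], ∀ P, P ∈ T ↔
      Prm P ∧ S P ∧ P ^ e ∣ d.denom ∧ ¬ P ^ (e + 1) ∣ d.denom :=
    ⟨((fin_prm hD).subset (t := {P | Prm P ∧ S P ∧ P ^ e ∣ d.denom ∧ ¬ P ^ (e + 1) ∣ d.denom})
      fun P hP => ⟨hP.1, (dvd_pow_self P (by omega)).trans hP.2.2.1⟩).toFinset, by simp⟩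
  obtain ⟨b, hb⟩ : ∃ b : k[X], b = ∏ P ∈ T, P := ⟨_, rfl⟩
  have hcp : ∀ P ∈ T, ∀ Q ∈ T, P ≠ Q → IsCoprime P Q := fun P hP Q hQ h =>
    ((hT P).1 hP).1.2.coprime_iff_not_dvd.2 fun h' =>
      h (CSpl_eq ((hT P).1 hP).1 ((hT Q).1 hQ).1 h')
  have hm : b.Monic := hb ▸ monic_prod_of_monic _ _ fun P hP => ((hT P).1 hP).1.1
  have hs : Squarefree b := hb ▸ Finset.squarefree_prod_of_pairwise_isCoprime
    (fun P hP Q hQ h => (hcp P hP Q hQ h).isRelPrime) fun P hP => ((hT P).1 hP).1.2.squarefree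
  have hmem : ∀ P, Prm P → P ∣ b → P ∈ T := fun P hP h => by
    obtain ⟨Q, hQ, h'⟩ := hP.2.prime.exists_mem_finset_dvd (hb ▸ h)
    exact CSpl_eq hP ((hT Q).1 hQ).1 h' ▸ hQ
  obtain ⟨m, hm'⟩ : b ^ e ∣ d.denom := by
    rw [hb, ← Finset.prod_pow]
    exact Finset.prod_dvd_of_coprime (fun P hP Q hQ h => (hcp P hP Q hQ h).pow)
      fun P hP => ((hT P).1 hP).2.2.1
  have hc : IsCoprime b m := CSpl_cop hm.ne_zero fun P hP h h' => ((hT P).1 (hmem P hP h)).2.2.2
    (by rw [hm', pow_succ]; exact mul_dvd_mul (pow_dvd_pow_of_dvd h e) h')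
  obtain ⟨u, w, huw⟩ := hc.pow_left (m := e)
  obtain ⟨a, ha⟩ : ∃ a, a = (d.num * w) %ₘ b ^ e := ⟨_, rfl⟩
  obtain ⟨n, hn⟩ : ∃ n, d.num = a * m + n * b ^ e :=
    ⟨(d.num * w) /ₘ b ^ e * m + d.num * u, by
      have := modByMonic_add_div (d.num * w) (b ^ e)
      rw [← ha] at this
      linear_combination -m * this - d.num * huw⟩
  have hx : (a, b) ∈ Lay e b.natDegree := by
    refine ⟨hm, hs, rfl, ?_, ?_⟩
    · have h1 : IsCoprime d.num b := d.isCoprime_num_denom.of_isCoprime_of_dvd_right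
        (hm' ▸ (dvd_pow_self b (by omega)).mul_right m)
      obtain ⟨e', rfl⟩ : ∃ e', e = e' + 1 := ⟨e - 1, by omega⟩
      rw [hn, pow_succ, ← mul_assoc] at h1
      exact h1.of_add_mul_right_left.of_mul_left_left
    · have := degree_modByMonic_lt (d.num * w) (hm.pow e)
      rwa [← ha, degree_eq_natDegree (hm.pow e).ne_zero, natDegree_pow] at this
  have hm0 : m ≠ 0 := right_ne_zero_of_mul (hm' ▸ hD)
  obtain ⟨d', hd'⟩ : ∃ d' : RatFunc k, d' = algebraMap k[X] _ n / algebraMap k[X] _ m := ⟨_, rfl⟩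
  have hc' : IsCoprime b d'.denom := hc.of_isCoprime_of_dvd_right (hd' ▸ RatFunc.denom_div_dvd n m)
  have hd : d = fr e (a, b) + d' := by
    have h1 := PF_ne hm0
    have h2 := PF_ne hm.ne_zero
    rw [← d.num_div_denom, hn, hm', hd', fr]
    simp only [map_add, map_mul, map_pow]
    field_simp
  have hden : d'.denom = m := by
    have := den_add hx hc'
    rw [← hd, hm'] at this
    exact (mul_left_cancel₀ (hm.pow e).ne_zero this).symm
  refine ⟨_, (a, b), d', hx, hc', hd, fun P hP h => ((hT P).1 (hmem P hP h)).2.1, fun P hP h1 h2 => ?_⟩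
  rw [hden] at h2 ⊢
  have h3 : ¬ P ∣ b := CSpl_not hP hc.symm ((dvd_pow_self P (by omega)).trans h2)
  have h4 : P ^ (e + 1) ∣ b ^ e * m := by
    by_contra h4
    exact h3 (hb ▸ Finset.dvd_prod_of_mem _ ((hT P).2 ⟨hP, h1, hm' ▸ h2.mul_left _, hm' ▸ h4⟩))
  exact (hP.2.coprime_iff_not_dvd.2 h3).pow.dvd_of_dvd_mul_left h4

theorem split_lev {e : ℕ} (he : 1 ≤ e) {d : RatFunc k} (h : Hi e d) :
    ∃ (i : ℕ) (x : k[X] × k[X]) (d' : RatFunc k), x ∈ Lay e i ∧ IsCoprime x.2 d'.denom ∧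
      d = fr e x + d' ∧ Hi (e + 1) d' := by
  obtain ⟨i, x, d', hx, hc, hd, -, h2⟩ := split_pred he (fun _ => True) d
  refine ⟨i, x, d', hx, hc, hd, fun P hP h1 => h2 P hP trivial ?_⟩
  have h3 := den_add hx hc
  rw [← hd] at h3
  exact (hP.2.coprime_iff_not_dvd.2 (CSpl_not hP hc.symm h1)).pow.dvd_of_dvd_mul_left
    (h3 ▸ h P hP (h3 ▸ h1.mul_left _))

theorem CSpl_den {e i : ℕ} (he : 1 ≤ e) {x : k[X] × k[X]} {b m : k[X]} {d' : RatFunc k}
    (hx : x ∈ Lay e i) (hc : IsCoprime x.2 m) (hd' : Hi (e + 1) d')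
    (h : x.2 ^ e * m = b ^ e * d'.denom) : x.2 ∣ b := by
  have h1 : IsCoprime x.2 d'.denom := CSpl_cop hx.1.ne_zero fun P hP h1 h2 => by
    have h3 : P ^ (e + 1) ∣ x.2 ^ e :=
      (hP.2.coprime_iff_not_dvd.2 (CSpl_not hP hc h1)).pow_left.dvd_of_dvd_mul_right
        (h ▸ (hd' P hP h2).mul_left _)
    obtain ⟨c, hc⟩ := h1
    rw [hc, mul_pow, pow_succ, mul_dvd_mul_iff_left (pow_ne_zero _ hP.1.ne_zero)] at h3
    exact hP.2.not_isUnit (hx.2.1 P (hc ▸ mul_dvd_mul_left P (hP.2.prime.dvd_of_dvd_pow h3)))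
  exact (hx.2.1.dvd_pow_iff_dvd (by omega : e ≠ 0)).1
    (h1.dvd_of_dvd_mul_right (h ▸ (dvd_pow_self _ (by omega)).mul_right m))

theorem CSpl_fr {v : Pl k} (hv : v ≠ none) (e : ℕ) {x : k[X] × k[X]} (h : ¬ plp v ∣ x.2) :
    av v (fr e x) ≤ 1 := by
  rw [fr, map_div₀, map_pow, PF_one hv h, one_pow, div_one]
  exact av_poly_le hv _

theorem fr_inj {e i i' : ℕ} (he : 1 ≤ e) {x x' : k[X] × k[X]} {d d' : RatFunc k} (hx : x ∈ Lay e i)
    (hx' : x' ∈ Lay e i') (hc : IsCoprime x.2 d.denom) (hc' : IsCoprime x'.2 d'.denom)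
    (hd : Hi (e + 1) d) (hd' : Hi (e + 1) d') (h : fr e x + d = fr e x' + d') :
    x = x' ∧ d = d' := by
  have h1 : x.2 ^ e * d.denom = x'.2 ^ e * d'.denom := by rw [← den_add hx hc, h, den_add hx' hc']
  have h2 : x.2 = x'.2 := eq_of_monic_of_associated hx.1 hx'.1
    (associated_of_dvd_dvd (CSpl_den he hx hc hd' h1) (CSpl_den he hx' hc' hd h1.symm))
  have h3 : fr e x - fr e x' = 0 := by
    refine eq_zero_of_small (fun v hv => ?_) (CSpl_sub (fr_inf hx) (fr_inf hx'))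
    by_cases h4 : plp v ∣ x.2
    · rw [show fr e x - fr e x' = d' - d by linear_combination h]
      exact PF_sub' (CSpl_int hv (CSpl_not (pl_prm hv) hc' (h2 ▸ h4)))
        (CSpl_int hv (CSpl_not (pl_prm hv) hc h4))
    · exact PF_sub' (CSpl_fr hv e h4) (CSpl_fr hv e (h2 ▸ h4))
  refine ⟨Prod.ext ?_ h2, by linear_combination h - h3⟩
  rw [sub_eq_zero, fr, fr, h2, div_left_inj' (pow_ne_zero _ (PF_ne hx'.1.ne_zero))] at h3
  exact RatFunc.algebraMap_injective k h3

variable {p : ℕ} [hp : Fact p.Prime]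

theorem wp_reg {v : Pl k} {y : RatFunc k} (h : av v (y ^ p - y) < 2 ^ p) : av v y ≤ 1 := by
  by_contra h1
  rw [not_le] at h1
  obtain ⟨n, hn⟩ := av_disc v y fun h0 => by
    rw [h0, map_zero] at h1
    linarith
  have h2 : 2 ≤ av v y := by
    rw [hn] at h1 ⊢
    have := (one_lt_zpow_iff_right₀ one_lt_two).1 h1
    simpa using zpow_le_zpow_right₀ (one_le_two (α := ℝ)) (show (1 : ℤ) ≤ n by omega)
  have h3 := wp_norm (p := p) (av_na v) (A := 1) (y := y) one_ne_zero
    (by rw [map_one]; exact one_lt_pow₀ h1 (by have := hp.out.two_le; omega))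
  rw [div_one, map_one, div_one] at h3
  exact absurd (h3 ▸ h) (not_lt.2 (pow_le_pow_left₀ zero_le_two h2 p))

theorem CSpl_lt {v : Pl k} (hv : v ≠ none) {d : RatFunc k} (h : ¬ plp v ^ p ∣ d.denom) :
    av v d < 2 ^ p := by
  obtain ⟨n, rfl⟩ : ∃ n, p = n + 1 := ⟨p - 1, by have := hp.out.two_le; omega⟩
  exact ((av_den hv d n).2 h).trans_lt (pow_lt_pow_right₀ one_lt_two n.lt_succ_self)

theorem CSpl_wp {v : Pl k} {y : RatFunc k} (h : av v (y ^ p - y) < 2 ^ p) :
    av v (y ^ p - y) ≤ 1 :=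
  PF_sub' (by rw [map_pow]; exact pow_le_one₀ ((av v).nonneg y) (wp_reg h)) (wp_reg h)

theorem CSpl_pow {P : k[X]} (hP : Prm P) {d y : RatFunc k} (h : ¬ P ^ p ∣ d.denom)
    (h' : ¬ P ^ p ∣ (d + (y ^ p - y)).denom) (n : ℕ) :
    P ^ (n + 1) ∣ d.denom ↔ P ^ (n + 1) ∣ (d + (y ^ p - y)).denom := by
  obtain ⟨v, hv, rfl⟩ := prm_pl hP
  have h1 : av v (y ^ p - y) ≤ 2 ^ n := (CSpl_wp (by
    simpa using CSpl_sub (CSpl_lt hv h') (CSpl_lt hv h))).trans (one_le_pow₀ one_le_two)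
  rw [← not_iff_not, ← av_den hv, ← av_den hv]
  exact ⟨fun h2 => CSpl_add h2 h1, fun h2 => by simpa using PF_sub' h2 h1⟩

theorem pole_eq {P : k[X]} (hP : Prm P) {d y : RatFunc k} (h : ¬ P ^ p ∣ d.denom)
    (h' : ¬ P ^ p ∣ (d + (y ^ p - y)).denom) : P ∣ d.denom ↔ P ∣ (d + (y ^ p - y)).denom := by
  simpa using CSpl_pow hP h h' 0

theorem red_inj {d d' y : RatFunc k} (h : Red p d) (h' : Red p d') {m : ℕ}
    (e : d' = m * d + (y ^ p - y)) : d' = m * d := by
  have h0 : ∀ (v : Pl k) (c : ℝ), av v d' < c → av v d < c → av v (y ^ p - y) < c := fun v c h1 h2 => by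
    rw [show y ^ p - y = d' - m * d by linear_combination -e]
    refine CSpl_sub h1 (lt_of_le_of_lt ?_ h2)
    rw [map_mul]
    exact mul_le_of_le_one_left ((av v).nonneg d) (av_na v).apply_natCast_le_one
  rw [e, eq_zero_of_small (y := y ^ p - y) (fun v hv => CSpl_wp (h0 v _
    (CSpl_lt hv (h'.1 _ (pl_prm hv))) (CSpl_lt hv (h.1 _ (pl_prm hv))))) (h0 _ _ h'.2 h.2), add_zero]

theorem red_cond {d : RatFunc k} (h : Red p d) : cond p d = ht d := by
  classical
  refine le_antisymm (Nat.sInf_le ⟨0, by rw [zero_pow hp.out.ne_zero, sub_zero, add_zero]⟩)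
    (le_csInf ⟨_, 0, rfl⟩ ?_)
  rintro _ ⟨y, rfl⟩
  have h1 : d.denom ∣ (d + (y ^ p - y)).denom := CSpl_dvd d.denom_ne_zero fun P hP n hn => by
    rcases n with _ | n
    · simp
    by_cases h2 : P ^ p ∣ (d + (y ^ p - y)).denom
    · exact (pow_dvd_pow P (not_lt.1 fun h3 => h.1 P hP ((pow_dvd_pow P h3.le).trans hn))).trans h2
    · exact (CSpl_pow hP (h.1 P hP) h2 n).1 hn
  have h2 := natDegree_le_of_dvd h1 (RatFunc.denom_ne_zero _)
  have h3 := natDegree_le_of_dvd
    (UniqueFactorizationMonoid.radical_dvd_radical h1 (RatFunc.denom_ne_zero _))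
    UniqueFactorizationMonoid.radical_ne_zero
  have h4 := (av_deg d 0).1 (by simpa using h.2.le)
  rw [ht, ht, if_neg (by simpa using h4)]
  omega

end Pool.Agent.ASel
end

-- merged part: Pool.Agent.Work.MP_60d5ce_nt.AS.SFam
section
/-!
# The family has positive density  (AS, section 5)

Plan.  Count the pairs with `b` monic of degree `N`, `Δ ∣ b - 1`, `deg a < N`: there are `q ^ (2 N - δ)`, `δ = deg Δ`.  Such a pair is in the family unless
some prime `P` (automatically prime to `Δ`, as `P ∣ b`) has `P ^ 2 ∣ b`, or `P ∣ a` and `P ∣ b`.  By the Chinese remainder theorem (`ncard_cong` with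
`g = Δ * P ^ 2`, `c` one member of the set) at most `q ^ (N - δ - 2 n) + 1` values of `b` in the first case (`2 n ≤ N`), and at most
`(q ^ (N - δ - n) + 1) * q ^ (N - n)` pairs in the second; `n * (number of P of degree n) ≤ q ^ n`, `∑ n ≥ 1, q ^ (-n) ≤ 1 / 4`;
the terms `+ 1` give at most `2 q ^ (N / 2) * q ^ N + N q ^ N`.
-/

set_option linter.unusedSectionVars false

namespace Pool.Agent.ASW

open Polynomial

variable {k : Type} [Field k] [Fintype k]

theorem SFam_un {α ι : Type} (s : Finset ι) (B : ι → Set α) :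
    (⋃ i ∈ s, B i).ncard ≤ ∑ i ∈ s, (B i).ncard := by
  classical
  induction s using Finset.induction_on with
  | empty => simp
  | insert i s hi ih =>
    rw [Finset.set_biUnion_insert, Finset.sum_insert hi]
    exact (Set.ncard_union_le _ _).trans (Nat.add_le_add_left ih _)

theorem SFam_geo {q : ℕ} (hq : 5 ≤ q) (K N : ℕ) (h : N ≤ K) :
    4 * ∑ n ∈ Finset.range N, q ^ (K - (n + 1)) + q ^ (K - N) ≤ q ^ K := by
  induction N with
  | zero => simp
  | succ N ih =>
    have h1 := ih (by omega)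
    have e : K - N = K - (N + 1) + 1 := by omega
    have h2 := Nat.mul_le_mul_left (q ^ (K - (N + 1))) hq
    rw [e, pow_succ] at h1
    rw [Finset.sum_range_succ]
    omega

theorem SFam_big {q : ℕ} (hq : 5 ≤ q) {δ N : ℕ} (h : 4 * δ + 10 ≤ N) :
    8 * (N * q ^ (N + N / 2)) ≤ q ^ (2 * N - δ) := by
  obtain ⟨M, hM⟩ : ∃ M, 2 * N - δ = M + (N + N / 2) := ⟨2 * N - δ - (N + N / 2), by omega⟩
  have h1 : 2 ^ 5 ≤ 2 ^ M := Nat.pow_le_pow_right (by norm_num) (by omega)
  have h2 : M ≤ 2 ^ M := Nat.lt_two_pow_self.le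
  have h3 : 2 ^ M * 2 ^ M ≤ q ^ M := by
    rw [← mul_pow]
    exact Nat.pow_le_pow_left (by omega) _
  have h4 := Nat.mul_le_mul h1 h2
  rw [hM, pow_add q M, ← mul_assoc]
  exact Nat.mul_le_mul_right _ (by omega)

theorem SFam_crt {Δ g : k[X]} (hΔ : Δ ≠ 0) (hg : g ≠ 0) (N : ℕ) :
    {b : k[X] | (b.Monic ∧ b.natDegree = N ∧ Δ ∣ b - 1) ∧ g ∣ b}.ncard ≤
      Fintype.card k ^ (N - (Δ.natDegree + g.natDegree)) := by
  rcases Set.eq_empty_or_nonempty
    {b : k[X] | (b.Monic ∧ b.natDegree = N ∧ Δ ∣ b - 1) ∧ g ∣ b} with h | ⟨c, ⟨-, -, h1⟩, h2⟩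
  · rw [h, Set.ncard_empty]
    exact Nat.zero_le _
  · have hc : IsCoprime Δ g := by
      obtain ⟨u, hu⟩ := h1
      obtain ⟨v, hv⟩ := h2
      exact ⟨-u, v, by linear_combination hu - hv⟩
    rw [← natDegree_mul hΔ hg]
    refine le_trans (Set.ncard_le_ncard ?_ ((fin_mon N).subset fun b hb => ⟨hb.1, hb.2.1⟩))
      (ncard_cong (mul_ne_zero hΔ hg) c N)
    rintro b ⟨⟨b1, b2, b3⟩, b4⟩
    refine ⟨b1, b2, hc.mul_dvd ?_ (dvd_sub b4 h2)⟩
    simpa using dvd_sub b3 h1

/-- the pairs that are bad at `P` -/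
def SFam_bad (Δ : k[X]) (N : ℕ) (P : k[X]) : Set (k[X] × k[X]) :=
  {a : k[X] | a.degree < N} ×ˢ
      {b : k[X] | (b.Monic ∧ b.natDegree = N ∧ Δ ∣ b - 1) ∧ P ^ 2 ∣ b} ∪
    {a : k[X] | a.degree < N ∧ P ∣ a} ×ˢ
      {b : k[X] | (b.Monic ∧ b.natDegree = N ∧ Δ ∣ b - 1) ∧ P ∣ b}

theorem SFam_pw {q : ℕ} (hq : 1 ≤ q) {e a b : ℕ} (h : e ≤ a ∨ e ≤ b) : q ^ e ≤ q ^ a + q ^ b := by
  rcases h with h | h
  · exact (Nat.pow_le_pow_right hq h).trans (Nat.le_add_right _ _)
  · exact (Nat.pow_le_pow_right hq h).trans (Nat.le_add_left _ _)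

theorem SFam_one {Δ P : k[X]} (hΔ : Δ ≠ 0) (hP : P ≠ 0) {N : ℕ} (h : P.natDegree ≤ N) :
    Fintype.card k ^ P.natDegree * (SFam_bad Δ N P).ncard ≤
      2 * (Fintype.card k ^ (2 * N - Δ.natDegree - P.natDegree) +
        Fintype.card k ^ (N + N / 2)) := by
  have hq : 1 ≤ Fintype.card k := Fintype.card_pos
  refine (Nat.mul_le_mul_left _ (Set.ncard_union_le _ _)).trans ?_
  rw [mul_add, two_mul, Set.ncard_prod, Set.ncard_prod, ncard_lt, ncard_dvd_lt hP]
  refine Nat.add_le_add ?_ ?_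
  · by_cases h2 : 2 * P.natDegree ≤ N
    · refine (Nat.mul_le_mul_left _ (Nat.mul_le_mul_left _
        (SFam_crt hΔ (pow_ne_zero 2 hP) N))).trans ?_
      rw [← pow_add, ← pow_add, natDegree_pow]
      exact SFam_pw hq (by omega)
    · have e : {b : k[X] | (b.Monic ∧ b.natDegree = N ∧ Δ ∣ b - 1) ∧ P ^ 2 ∣ b} = ∅ := by
        refine Set.eq_empty_of_forall_notMem fun b hb => h2 ?_
        have := natDegree_le_of_dvd hb.2 hb.1.1.ne_zero
        rwa [natDegree_pow, hb.1.2.1] at this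
      rw [e, Set.ncard_empty]
      exact Nat.zero_le _
  · refine (Nat.mul_le_mul_left _ (Nat.mul_le_mul_left _ (SFam_crt hΔ hP N))).trans ?_
    rw [← pow_add, ← pow_add]
    exact SFam_pw hq (by omega)

theorem SFam_fin (n : ℕ) : {P : k[X] | Prm P ∧ P.natDegree = n}.Finite :=
  (fin_mon n).subset fun _ h => ⟨h.1.1, h.2⟩

theorem SFam_deg {Δ : k[X]} (hΔ : Δ ≠ 0) {N n : ℕ} (h : n + 1 ≤ N) :
    (⋃ P ∈ (SFam_fin (k := k) (n + 1)).toFinset, SFam_bad Δ N P).ncard ≤
      2 * (Fintype.card k ^ (2 * N - Δ.natDegree - (n + 1)) + Fintype.card k ^ (N + N / 2)) := by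
  have hq : 0 < Fintype.card k ^ (n + 1) := pow_pos Fintype.card_pos _
  refine (SFam_un _ _).trans (Nat.le_of_mul_le_mul_left ?_ hq)
  rw [Finset.mul_sum]
  refine (Finset.sum_le_card_nsmul _ _ _ fun P hP => ?_).trans (Nat.mul_le_mul_right _ ?_)
  · obtain ⟨h1, h2⟩ := (Set.Finite.mem_toFinset _).1 hP
    have := SFam_one hΔ h1.1.ne_zero (N := N) (by omega)
    rwa [h2] at this
  · rw [← Set.ncard_eq_toFinset_card _ (SFam_fin (n + 1))]
    exact (Nat.le_mul_of_pos_left _ n.succ_pos).trans (prm_upper (n + 1))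

theorem SFam_cov (Δ : k[X]) (N : ℕ) :
    {a : k[X] | a.degree < N} ×ˢ {b : k[X] | b.Monic ∧ b.natDegree = N ∧ Δ ∣ b - 1} ⊆
      Fam Δ N ∪ ⋃ n ∈ Finset.range N, ⋃ P ∈ (SFam_fin (k := k) (n + 1)).toFinset,
        SFam_bad Δ N P := by
  rintro ⟨a, b⟩ ⟨ha, hb⟩
  have key : ∀ P : k[X], Prm P → P ∣ b → (a, b) ∈ SFam_bad Δ N P →
      (a, b) ∈ ⋃ n ∈ Finset.range N, ⋃ P ∈ (SFam_fin (k := k) (n + 1)).toFinset,
        SFam_bad Δ N P := by
    intro P h1 h2 h3
    have d1 := h1.2.natDegree_pos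
    have d2 : P.natDegree ≤ N := hb.2.1 ▸ natDegree_le_of_dvd h2 hb.1.ne_zero
    simp only [Set.mem_iUnion, Finset.mem_range, Set.Finite.mem_toFinset]
    exact ⟨P.natDegree - 1, by omega, P, ⟨h1, by omega⟩, h3⟩
  by_cases h1 : Squarefree b
  · by_cases h2 : IsRelPrime a b
    · obtain ⟨u, hu⟩ := hb.2.2
      exact Or.inl ⟨hb.1, h1, hb.2.1, ⟨1, -u, by linear_combination hu⟩,
        isRelPrime_iff_isCoprime.1 h2, ha⟩
    · simp only [IsRelPrime, not_forall] at h2
      obtain ⟨x, x1, x2, x3⟩ := h2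
      obtain ⟨P, p1, p2, p3⟩ := exists_monic_irreducible_factor x x3
      exact Or.inr (key P ⟨p1, p2⟩ (p3.trans x2)
        (Or.inr ⟨⟨ha, p3.trans x1⟩, hb, p3.trans x2⟩))
  · simp only [Squarefree, not_forall] at h1
    obtain ⟨x, x1, x2⟩ := h1
    obtain ⟨P, p1, p2, p3⟩ := exists_monic_irreducible_factor x x2
    have p4 : P ^ 2 ∣ b := by
      rw [sq]
      exact (mul_dvd_mul p3 p3).trans x1
    exact Or.inr (key P ⟨p1, p2⟩ ((dvd_pow_self P two_ne_zero).trans p4) (Or.inl ⟨ha, hb, p4⟩))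

theorem SFam_nat (hq : 5 ≤ Fintype.card k) {Δ : k[X]} (hΔ : Δ ≠ 0) {N : ℕ}
    (hN : 4 * Δ.natDegree + 10 ≤ N) :
    Fintype.card k ^ (2 * N - Δ.natDegree) ≤ 4 * (Fam Δ N).ncard := by
  have fb : ∀ P : k[X], (SFam_bad Δ N P).Finite := fun P =>
    ((fin_lt N).prod (fin_mon N)).subset (by
      rintro d (h | h)
      · exact ⟨h.1, h.2.1.1, h.2.1.2.1⟩
      · exact ⟨h.1.1, h.2.1.1, h.2.1.2.1⟩)
  have h1 := Set.ncard_le_ncard (SFam_cov Δ N) ((fin_fam Δ N).union
    ((Finset.finite_toSet _).biUnion fun n _ => (Finset.finite_toSet _).biUnion fun P _ => fb P))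
  rw [Set.ncard_prod, ncard_lt, ncard_cong_eq hΔ 1 (by omega), ← pow_add,
    show N + (N - Δ.natDegree) = 2 * N - Δ.natDegree by omega] at h1
  have h2 := h1.trans ((Set.ncard_union_le _ _).trans (Nat.add_le_add_left ((SFam_un _ _).trans
    (Finset.sum_le_sum fun n hn => SFam_deg hΔ (Finset.mem_range.1 hn))) _))
  rw [← Finset.mul_sum, Finset.sum_add_distrib, Finset.sum_const, Finset.card_range,
    smul_eq_mul] at h2
  have h3 := SFam_geo hq (2 * N - Δ.natDegree) N (by omega)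
  have h4 := SFam_big hq hN
  omega

theorem fam_lower (hq : 5 ≤ Fintype.card k) {Δ : k[X]} (hΔ : Δ ≠ 0) :
    ∃ c : ℝ, 0 < c ∧ ∃ N0 : ℕ, ∀ N ≥ N0,
      c * (Fintype.card k : ℝ) ^ (2 * N) ≤ (Fam Δ N).ncard := by
  have h0 : (0 : ℝ) < Fintype.card k := Nat.cast_pos.2 Fintype.card_pos
  refine ⟨1 / (4 * (Fintype.card k : ℝ) ^ Δ.natDegree), by positivity, 4 * Δ.natDegree + 10,
    fun N hN => ?_⟩
  have h1 : ((Fintype.card k : ℝ)) ^ (2 * N - Δ.natDegree) ≤ 4 * (Fam Δ N).ncard := by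
    exact_mod_cast SFam_nat hq hΔ hN
  have e : (Fintype.card k : ℝ) ^ (2 * N) =
      (Fintype.card k : ℝ) ^ (2 * N - Δ.natDegree) * (Fintype.card k : ℝ) ^ Δ.natDegree := by
    rw [← pow_add, Nat.sub_add_cancel (by omega)]
  rw [e, one_div, inv_mul_le_iff₀ (by positivity)]
  nlinarith [pow_pos h0 Δ.natDegree]

end Pool.Agent.ASW
end
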