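import Mathlib

-- merged part: Pool.Agent.Work.MP_60d5ce_nt.AS.WCh
section
/-!
# Finite chain rings with residue field `ZMod p`  (AS, abstract part)
-/

set_option linter.unusedSectionVars false

namespace Pool.Agent.ASW

open Polynomial

/-- a chain ring with uniformiser `π`, `π ^ n = 0`, residue field `ZMod p`, `(1 + π) ^ p = 1` -/
structure Ch (p n : ℕ) (R : Type) [CommRing R] where
  π : R
  red : R →+* ZMod p
  surj : Function.Surjective red
  red_eq : ∀ x, red x = 0 ↔ π ∣ x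
  nil : π ^ n = 0
  canc : ∀ (a : ℕ) (x : R), a < n → π ^ (a + 1) ∣ π * x → π ^ a ∣ x
  root : (1 + π) ^ p = 1

variable {p n : ℕ} [Fact p.Prime] {R : Type} [CommRing R]

namespace Ch

variable (c : Ch p n R)

/-- the root of unity attached to a residue -/
def zp (x : ZMod p) : R := (1 + c.π) ^ x.val

theorem red_π : c.red c.π = 0 := (c.red_eq _).2 dvd_rfl

theorem zp_add (x y : ZMod p) : c.zp (x + y) = c.zp x * c.zp y := by
  have : NeZero p := ⟨(Fact.out : p.Prime).ne_zero⟩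
  rw [zp, zp, zp, ← pow_add, ZMod.val_add]
  conv_rhs => rw [← Nat.mod_add_div (x.val + y.val) p, pow_add, pow_mul, c.root, one_pow, mul_one]

theorem red_zp (x : ZMod p) : c.red (c.zp x) = 1 := by
  simp [zp, c.red_π]

theorem zp_sub (x : ZMod p) : ∃ y, c.zp x - 1 = c.π * y ∧ c.red y = x := by
  have : NeZero p := ⟨(Fact.out : p.Prime).ne_zero⟩
  refine ⟨∑ i ∈ Finset.range x.val, (1 + c.π) ^ i, ?_, ?_⟩
  · have := mul_geom_sum (1 + c.π) x.val
    rw [add_sub_cancel_left] at this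
    exact this.symm
  · simp [c.red_π]

theorem canc_pow (a : ℕ) (ha : a < n) (x : R) (h : c.π ^ (a + 1) ∣ c.π ^ a * x) : c.π ∣ x := by
  induction a with
  | zero => simpa using h
  | succ a ih =>
    refine ih (by omega) (c.canc (a + 1) _ ha ?_)
    rwa [← mul_assoc, ← pow_succ']

theorem isUnit_of {x : R} (hx : c.red x ≠ 0) : IsUnit x := by
  obtain ⟨y, hy⟩ := c.surj (c.red x)⁻¹
  obtain ⟨z, hz⟩ := (c.red_eq (x * y - 1)).1 (by rw [map_sub, map_mul, hy, mul_inv_cancel₀ hx]; simp)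
  have h1 : IsNilpotent (c.π * z) := ⟨n, by rw [mul_pow, c.nil, zero_mul]⟩
  have h2 : IsUnit (x * y) := by
    rw [show x * y = 1 + c.π * z by rw [← hz]; ring]
    exact h1.isUnit_one_add
  exact isUnit_of_mul_isUnit_left h2

/-- an element outside `π ^ (a+1) R` has `π ^ a` as a multiple -/
theorem exists_mul (a : ℕ) (x : R) (hx : ¬ c.π ^ (a + 1) ∣ x) : ∃ y, y * x = c.π ^ a := by
  induction a generalizing x with
  | zero =>
    obtain ⟨u, rfl⟩ := c.isUnit_of (x := x) fun h => hx (by simpa using (c.red_eq x).1 h)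
    exact ⟨↑u⁻¹, by simp⟩
  | succ a ih =>
    by_cases h : c.π ∣ x
    · obtain ⟨z, rfl⟩ := h
      obtain ⟨y, hy⟩ := ih z fun h => hx (by rw [pow_succ']; exact mul_dvd_mul_left _ h)
      exact ⟨y, by rw [pow_succ', ← hy]; ring⟩
    · obtain ⟨u, rfl⟩ := c.isUnit_of (x := x) fun h' => h ((c.red_eq x).1 h')
      exact ⟨c.π ^ (a + 1) * ↑u⁻¹, by simp⟩

theorem digits : Function.Surjective
    fun f : Fin n → ZMod p => ∑ i, ((f i).val : R) * c.π ^ (i : ℕ) := by
  have : NeZero p := ⟨(Fact.out : p.Prime).ne_zero⟩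
  have key : ∀ (a : ℕ) (x : R), ∃ f : Fin a → ZMod p,
      c.π ^ a ∣ x - ∑ i, ((f i).val : R) * c.π ^ (i : ℕ) := by
    intro a
    induction a with
    | zero => exact fun x => ⟨fun _ => 0, by simp⟩
    | succ a ih =>
      intro x
      obtain ⟨f, z, hz⟩ := ih x
      obtain ⟨w, hw⟩ := (c.red_eq (z - ((c.red z).val : R))).1 (by simp)
      refine ⟨Fin.snoc f (c.red z), w, ?_⟩
      rw [Fin.sum_univ_castSucc]
      simp only [Fin.snoc_castSucc, Fin.snoc_last, Fin.val_castSucc, Fin.val_last]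
      linear_combination hz + c.π ^ a * hw
  intro x
  obtain ⟨f, hf⟩ := key n x
  rw [c.nil, zero_dvd_iff, sub_eq_zero] at hf
  exact ⟨f, hf.symm⟩

include c in
theorem finite : Finite R :=
  have : NeZero p := ⟨(Fact.out : p.Prime).ne_zero⟩
  Finite.of_surjective _ c.digits

include c in
theorem card_le [Fintype R] : Fintype.card R ≤ p ^ n := by
  have : NeZero p := ⟨(Fact.out : p.Prime).ne_zero⟩
  simpa using Fintype.card_le_of_surjective _ c.digits

/-- a character that sees exactly the layer `π ^ j R / π ^ (j+1) R` -/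
theorem exists_char [Fintype R] (j : ℕ) (hj : j < n) :
    ∃ (χ : AddChar R ℂ) (ψ : AddChar (ZMod p) ℂ), (∀ y, χ (c.π ^ j * y) = ψ (c.red y)) ∧
      ∀ x, ψ x = 1 → x = 0 := by
  classical
  have : NeZero p := ⟨(Fact.out : p.Prime).ne_zero⟩
  let I : Ideal R := Ideal.span {c.π ^ (j + 1)}
  have hne : Ideal.Quotient.mk I (c.π ^ j) ≠ 0 := by
    intro h
    have h1 := Ideal.mem_span_singleton.1 (Ideal.Quotient.eq_zero_iff_mem.1 h)
    have h2 := (c.red_eq 1).2 (c.canc_pow j hj 1 (by simpa using h1))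
    simp at h2
  obtain ⟨θ, hθ⟩ := (AddChar.exists_apply_ne_zero (α := R ⧸ I)).2 hne
  let χ : AddChar R ℂ := θ.compAddMonoidHom (Ideal.Quotient.mk I).toAddMonoidHom
  have hχ : ∀ y z, c.red y = c.red z → χ (c.π ^ j * y) = χ (c.π ^ j * z) := by
    intro y z h
    obtain ⟨w, hw⟩ := (c.red_eq (y - z)).1 (by rw [map_sub, h, sub_self])
    have : Ideal.Quotient.mk I (c.π ^ j * y) = Ideal.Quotient.mk I (c.π ^ j * z) :=
      Ideal.Quotient.eq.2 (Ideal.mem_span_singleton.2 ⟨w, by linear_combination c.π ^ j * hw⟩)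
    exact congrArg θ this
  let ψ : AddChar (ZMod p) ℂ :=
    { toFun := fun x => χ (c.π ^ j * (x.val : R))
      map_zero_eq_one' := by simp
      map_add_eq_mul' := fun x y => by
        rw [← AddChar.map_add_eq_mul, ← mul_add]
        exact hχ _ _ (by simp) }
  have hψ : ∀ y, χ (c.π ^ j * y) = ψ (c.red y) := fun y => hχ _ _ (by simp)
  refine ⟨χ, ψ, hψ, fun x hx => by_contra fun h0 => hθ ?_⟩
  have h1 : ψ 1 = 1 := by
    have : (1 : ZMod p) = (x⁻¹).val • x := by
      rw [nsmul_eq_mul, ZMod.natCast_zmod_val, inv_mul_cancel₀ h0]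
    rw [this, AddChar.map_nsmul_eq_pow, hx, one_pow]
  have h2 := hψ 1
  rw [mul_one, map_one, h1] at h2
  exact h2

end Ch

/-- the ideal of `ℤ[X]` that defines `ℤ[ζ] / (ζ - 1) ^ n` -/
noncomputable def idl (p n : ℕ) : Ideal ℤ[X] :=
  Ideal.span {∑ i ∈ Finset.range p, (X : ℤ[X]) ^ i, (X - 1) ^ n}

theorem mem_idl {a : ℤ[X]} : a ∈ idl p n ↔
    ∃ u v, u * ∑ i ∈ Finset.range p, (X : ℤ[X]) ^ i + v * (X - 1) ^ n = a := Ideal.mem_span_pair

/-- evaluation at `1` modulo `p` -/
noncomputable def ev (p : ℕ) : ℤ[X] →+* ZMod p := eval₂RingHom (Int.castRingHom _) 1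

theorem ev_eq (a : ℤ[X]) : ev p a = ((a.eval 1 : ℤ) : ZMod p) := by
  have := eval₂_at_apply (p := a) (Int.castRingHom (ZMod p)) 1
  simpa [ev] using this

theorem ev_zero_iff {a : ℤ[X]} : ev p a = 0 ↔ a ∈ idl p 1 := by
  rw [mem_idl, ev_eq, ZMod.intCast_zmod_eq_zero_iff_dvd]
  constructor
  · rintro ⟨m, hm⟩
    have h : X - C 1 ∣ a - C m * ∑ i ∈ Finset.range p, (X : ℤ[X]) ^ i := by
      rw [dvd_iff_isRoot]
      simp [eval_finsetSum, hm, mul_comm]
    obtain ⟨v, hv⟩ := h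
    exact ⟨C m, v, by rw [C_1] at hv; linear_combination -hv⟩
  · rintro ⟨u, v, rfl⟩
    exact ⟨u.eval 1, by simp [eval_finsetSum, mul_comm]⟩

theorem idl_canc {a : ℤ[X]} (h : (X - 1) * a ∈ idl p (n + 1)) : a ∈ idl p n := by
  obtain ⟨u, v, h⟩ := mem_idl.1 h
  have h1 : X - C 1 ∣ u := by
    rw [dvd_iff_isRoot]
    have := congrArg (eval 1) h
    simpa [eval_finsetSum, (Fact.out : p.Prime).ne_zero] using this
  obtain ⟨w, rfl⟩ := h1
  refine mem_idl.2 ⟨w, v, mul_left_cancel₀ (X_sub_C_ne_zero (1 : ℤ)) ?_⟩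
  rw [C_1] at *
  linear_combination h

theorem idl_anti {a : ℤ[X]} {m : ℕ} (h : m ≤ n) (ha : a ∈ idl p n) : a ∈ idl p m := by
  obtain ⟨u, v, rfl⟩ := mem_idl.1 ha
  obtain ⟨d, rfl⟩ := Nat.exists_eq_add_of_le h
  exact mem_idl.2 ⟨u, v * (X - 1) ^ d, by ring⟩

theorem dvd_mk {a : ℤ[X]} {m : ℕ} (h : m ≤ n) :
    Ideal.Quotient.mk (idl p n) (X - 1) ^ m ∣ Ideal.Quotient.mk (idl p n) a ↔ a ∈ idl p m := by
  constructor
  · rintro ⟨y, hy⟩
    obtain ⟨y, rfl⟩ := Ideal.Quotient.mk_surjective y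
    rw [← map_pow, ← map_mul, Ideal.Quotient.eq] at hy
    have := (idl p m).add_mem (idl_anti h hy) (mem_idl.2 ⟨0, y, rfl⟩)
    simpa [mul_comm] using this
  · intro ha
    obtain ⟨u, v, rfl⟩ := mem_idl.1 ha
    refine ⟨Ideal.Quotient.mk _ v, ?_⟩
    rw [← map_pow, ← map_mul, Ideal.Quotient.eq]
    exact mem_idl.2 ⟨u, 0, by ring⟩

/-- the chain ring `ℤ[ζ] / (ζ - 1) ^ (n+1)` -/
noncomputable def chq (p n : ℕ) [Fact p.Prime] : Ch p (n + 1) (ℤ[X] ⧸ idl p (n + 1)) where
  π := Ideal.Quotient.mk _ (X - 1)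
  red := Ideal.Quotient.lift _ (ev p) fun _ ha => ev_zero_iff.2 (idl_anti (by omega) ha)
  surj := fun x => by
    obtain ⟨m, rfl⟩ := ZMod.intCast_surjective x
    exact ⟨m, by simp⟩
  red_eq := fun x => by
    obtain ⟨x, rfl⟩ := Ideal.Quotient.mk_surjective x
    rw [Ideal.Quotient.lift_mk, ev_zero_iff, ← dvd_mk (n := n + 1) (by omega), pow_one]
  nil := by
    rw [← map_pow, Ideal.Quotient.eq_zero_iff_mem]
    exact mem_idl.2 ⟨0, 1, by ring⟩
  canc := fun a x ha h => by
    obtain ⟨x, rfl⟩ := Ideal.Quotient.mk_surjective x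
    rw [← map_mul, dvd_mk ha] at h
    exact (dvd_mk ha.le).2 (idl_canc h)
  root := by
    rw [← map_one (Ideal.Quotient.mk (idl p (n + 1))), ← map_add, ← map_pow, Ideal.Quotient.eq]
    refine mem_idl.2 ⟨X - 1, 0, ?_⟩
    rw [mul_geom_sum]
    simp

end Pool.Agent.ASW
end

-- merged part: Pool.Agent.Work.MP_60d5ce_nt.AS.WKer
section
/-!
# Layers of the kernel of a matrix over a chain ring  (AS, abstract part)

Plan for `card_S`.  `R` is finite (`c.finite`).  `K j B = {x | ∀ l, π ^ j ∣ (B x) l}` (additive subgroup).  (a) `card (K j B) = card (K j Bᵀ)`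
for `j ≤ n`: for `j = a + 1` take `χ` from `exists_char a`; `∑ y, χ (y * z) = card R` if `π ^ (a+1) ∣ z` (write `z = π ^ a * (π * w)`), else `0`
(`exists_mul`, `AddChar.sum_eq_ite`); count `∑ x y, χ (∑ l i, y l * B l i * x i)` in two ways.
(b) reduction `K (a+1) B → S (a+1) B` is onto with kernel `π • K a B` (`canc`), and `x ↦ π • x` on `K a B` has kernel
`{x | ∀ i, π * x i = 0}`, contained in `K a B` (`canc` with `n - 1`, `nil`) and independent of `B`.
-/

set_option linter.unusedSectionVars false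

namespace Pool.Agent.ASW

open Matrix

variable {p n r : ℕ} [Fact p.Prime] {R : Type} [CommRing R]

namespace Ch

variable (c : Ch p n R)

/-- congruence of matrices modulo `π ^ j` -/
def Cong (j : ℕ) (B B' : Matrix (Fin r) (Fin r) R) : Prop := ∀ l i, c.π ^ j ∣ B l i - B' l i

/-- the reductions of the vectors killed by `B` modulo `π ^ j` -/
def S (j : ℕ) (B : Matrix (Fin r) (Fin r) R) : Submodule (ZMod p) (Fin r → ZMod p) where
  carrier := {a | ∃ x : Fin r → R, (∀ i, c.red (x i) = a i) ∧ ∀ l, c.π ^ j ∣ ∑ i, B l i * x i}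
  zero_mem' := ⟨0, by simp, by simp⟩
  add_mem' := by
    rintro a b ⟨x, hx, hx'⟩ ⟨y, hy, hy'⟩
    refine ⟨x + y, fun i => by simp [hx, hy], fun l => ?_⟩
    simpa [mul_add, Finset.sum_add_distrib] using dvd_add (hx' l) (hy' l)
  smul_mem' := by
    rintro s a ⟨x, hx, hx'⟩
    obtain ⟨t, rfl⟩ := c.surj s
    refine ⟨t • x, fun i => by simp [hx], fun l => ?_⟩
    have : ∑ i, B l i * (t • x) i = t * ∑ i, B l i * x i := by
      rw [Finset.mul_sum]
      exact Finset.sum_congr rfl fun i _ => by simp [mul_left_comm]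
    rw [this]
    exact (hx' l).mul_left t

theorem mem_S {j : ℕ} {B : Matrix (Fin r) (Fin r) R} {a : Fin r → ZMod p} : a ∈ c.S j B ↔
    ∃ x : Fin r → R, (∀ i, c.red (x i) = a i) ∧ ∀ l, c.π ^ j ∣ ∑ i, B l i * x i := Iff.rfl

theorem Cong.refl (j : ℕ) (B : Matrix (Fin r) (Fin r) R) : c.Cong j B B := fun _ _ => by simp

variable {c}

theorem Cong.symm {j : ℕ} {B B' : Matrix (Fin r) (Fin r) R} (h : c.Cong j B B') : c.Cong j B' B :=
  fun l i => by simpa using (h l i).neg_right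

theorem Cong.trans {j : ℕ} {B B' B'' : Matrix (Fin r) (Fin r) R} (h : c.Cong j B B')
    (h' : c.Cong j B' B'') : c.Cong j B B'' :=
  fun l i => by simpa using dvd_add (h l i) (h' l i)

theorem Cong.mono {j j' : ℕ} {B B' : Matrix (Fin r) (Fin r) R} (h : c.Cong j' B B') (hj : j ≤ j') :
    c.Cong j B B' := fun l i => (pow_dvd_pow _ hj).trans (h l i)

theorem Cong.transpose {j : ℕ} {B B' : Matrix (Fin r) (Fin r) R} (h : c.Cong j B B') :
    c.Cong j Bᵀ B'ᵀ := fun l i => h i l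

theorem S_anti {j j' : ℕ} (hj : j ≤ j') (B : Matrix (Fin r) (Fin r) R) : c.S j' B ≤ c.S j B :=
  fun _ ⟨x, hx, hx'⟩ => ⟨x, hx, fun l => (pow_dvd_pow _ hj).trans (hx' l)⟩

theorem Cong.S_eq {j : ℕ} {B B' : Matrix (Fin r) (Fin r) R} (h : c.Cong j B B') :
    c.S j B = c.S j B' := by
  have key : ∀ {B B' : Matrix (Fin r) (Fin r) R}, c.Cong j B B' → c.S j B' ≤ c.S j B := by
    rintro B B' h a ⟨x, hx, hx'⟩
    refine ⟨x, hx, fun l => ?_⟩
    have : ∑ i, B l i * x i = ∑ i, (B l i - B' l i) * x i + ∑ i, B' l i * x i := by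
      rw [← Finset.sum_add_distrib]
      exact Finset.sum_congr rfl fun i _ => by ring
    rw [this]
    exact dvd_add (Finset.dvd_sum fun i _ => (h l i).mul_right _) (hx' l)
  exact le_antisymm (key h.symm) (key h)

theorem WKer_card {G H : Type} [AddCommGroup G] [AddCommGroup H] (f : G →+ H) (K : AddSubgroup G) :
    Nat.card K = Nat.card ↥(f.ker ⊓ K) * Nat.card ↥(K.map f) := by
  rw [← AddSubgroup.relIndex_ker, AddSubgroup.relIndex,
    ← AddSubgroup.card_mul_index (f.ker.addSubgroupOf K), ← AddSubgroup.inf_addSubgroupOf_right,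
    Nat.card_congr (AddSubgroup.addSubgroupOfEquivOfLe inf_le_right).toEquiv]

/-- the vectors killed by `B` modulo `π ^ j` -/
def WKer_K (c : Ch p n R) (j : ℕ) (B : Matrix (Fin r) (Fin r) R) : AddSubgroup (Fin r → R) where
  carrier := {x | ∀ l, c.π ^ j ∣ ∑ i, B l i * x i}
  zero_mem' := by simp
  add_mem' := fun {x y} hx hy l => by
    simpa [mul_add, Finset.sum_add_distrib] using dvd_add (hx l) (hy l)
  neg_mem' := fun {x} hx l => by simpa using hx l

theorem WKer_mem {j : ℕ} {B : Matrix (Fin r) (Fin r) R} {x : Fin r → R} :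
    x ∈ WKer_K c j B ↔ ∀ l, c.π ^ j ∣ ∑ i, B l i * x i := Iff.rfl

open Classical in
theorem WKer_sum [Fintype R] {a : ℕ} {χ : AddChar R ℂ} {ψ : AddChar (ZMod p) ℂ}
    (h1 : ∀ y, χ (c.π ^ a * y) = ψ (c.red y)) (h2 : ∀ x, ψ x = 1 → x = 0) (z : Fin r → R) :
    ∑ y : Fin r → R, χ (∑ l, y l * z l) =
      if ∀ l, c.π ^ (a + 1) ∣ z l then (Fintype.card (Fin r → R) : ℂ) else 0 := by
  let φ : (Fin r → R) →+ R :=
    { toFun := fun y => ∑ l, y l * z l
      map_zero' := by simp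
      map_add' := fun x y => by simp [add_mul, Finset.sum_add_distrib] }
  refine (AddChar.sum_eq_ite (χ.compAddMonoidHom φ)).trans (if_congr ⟨fun h l => ?_, fun h => ?_⟩
    rfl rfl)
  · by_contra hl
    obtain ⟨y, hy⟩ := c.exists_mul a (z l) hl
    have h3 : χ (∑ m, (Pi.single l y : Fin r → R) m * z m) = 1 :=
      (DFunLike.congr_fun h (Pi.single l y : Fin r → R) :)
    rw [Finset.sum_eq_single l (fun m _ hm => by simp [hm]) (by simp), Pi.single_eq_same, hy,
      ← mul_one (c.π ^ a), h1, map_one] at h3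
    exact one_ne_zero (h2 1 h3)
  · ext y
    obtain ⟨w, hw⟩ : c.π ^ (a + 1) ∣ ∑ l, y l * z l := Finset.dvd_sum fun l _ => (h l).mul_left _
    change χ (∑ l, y l * z l) = 1
    rw [hw, pow_succ, mul_assoc, h1, map_mul, c.red_π, zero_mul, AddChar.map_zero_eq_one]

theorem WKer_tr (c : Ch p n R) {j : ℕ} (hj : j ≤ n) (B : Matrix (Fin r) (Fin r) R) :
    Nat.card (WKer_K c j B) = Nat.card (WKer_K c j Bᵀ) := by
  classical
  rcases j with _ | a
  · congr 2
    ext x
    simp [WKer_mem]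
  have := c.finite
  have := Fintype.ofFinite R
  obtain ⟨χ, ψ, h1, h2⟩ := c.exists_char a hj
  have key : ∀ B : Matrix (Fin r) (Fin r) R,
      ∑ x : Fin r → R, ∑ y : Fin r → R, χ (∑ l, y l * ∑ i, B l i * x i) =
        (Nat.card (WKer_K c (a + 1) B) : ℂ) * Fintype.card (Fin r → R) := fun B => by
    simp only [WKer_sum h1 h2]
    rw [← Finset.sum_filter, Finset.sum_const, nsmul_eq_mul, Nat.card_eq_fintype_card,
      Fintype.card_subtype]
    simp only [WKer_mem]
  have h3 := key Bᵀ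
  rw [Finset.sum_comm] at h3
  have h4 : ∀ x y : Fin r → R, ∑ l, x l * ∑ i, Bᵀ l i * y i = ∑ l, y l * ∑ i, B l i * x i := by
    intro x y
    simp only [Finset.mul_sum, transpose_apply]
    rw [Finset.sum_comm]
    exact Finset.sum_congr rfl fun l _ => Finset.sum_congr rfl fun i _ => by ring
  simp only [h4] at h3
  rw [key B] at h3
  exact_mod_cast mul_right_cancel₀ (Nat.cast_ne_zero.2 Fintype.card_ne_zero) h3

/-- multiplication by `π` -/
def WKer_m (c : Ch p n R) : (Fin r → R) →+ (Fin r → R) where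
  toFun x i := c.π * x i
  map_zero' := by ext; simp
  map_add' x y := by ext; simp [mul_add]

theorem WKer_step (c : Ch p n R) {a : ℕ} (ha : a < n) (B : Matrix (Fin r) (Fin r) R) :
    Nat.card (WKer_K c (a + 1) B) * Nat.card (WKer_m (r := r) c).ker =
      Nat.card (WKer_K c a B) * Nat.card (c.S (a + 1) B) := by
  let ρ : (Fin r → R) →+ (Fin r → ZMod p) :=
    { toFun := fun x i => c.red (x i)
      map_zero' := by ext; simp
      map_add' := fun x y => by ext; simp }
  have e : ∀ (x : Fin r → R) (l : Fin r), ∑ i, B l i * (c.π * x i) = c.π * ∑ i, B l i * x i := by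
    intro x l
    rw [Finset.mul_sum]
    exact Finset.sum_congr rfl fun i _ => by ring
  have h1 : (WKer_K c (a + 1) B).map ρ = (c.S (a + 1) B).toAddSubgroup := by
    ext v
    exact ⟨fun ⟨x, hx, hv⟩ => ⟨x, congrFun hv, hx⟩, fun ⟨x, hv, hx⟩ => ⟨x, hx, funext hv⟩⟩
  have h2 : ρ.ker ⊓ WKer_K c (a + 1) B = (WKer_K c a B).map (WKer_m c) := by
    ext x
    constructor
    · rintro ⟨hx, hx'⟩
      choose w hw using fun i => (c.red_eq (x i)).1 (congrFun hx i)
      refine ⟨w, fun l => c.canc a _ ha ?_, funext fun i => (hw i).symm⟩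
      rw [← e]
      simpa only [hw] using hx' l
    · rintro ⟨w, hw, rfl⟩
      refine ⟨funext fun i => (c.red_eq _).2 (Dvd.intro _ rfl), fun l => ?_⟩
      change c.π ^ (a + 1) ∣ ∑ i, B l i * (c.π * w i)
      rw [e, pow_succ']
      exact mul_dvd_mul_left _ (hw l)
  have h3 : (WKer_m (r := r) c).ker ⊓ WKer_K c a B = (WKer_m c).ker :=
    inf_eq_left.2 fun x hx l => Finset.dvd_sum fun i _ => (c.canc a _ ha (by
      rw [show c.π * x i = 0 from congrFun hx i]
      exact dvd_zero _)).mul_left _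
  rw [WKer_card ρ (WKer_K c (a + 1) B), WKer_card (WKer_m c) (WKer_K c a B), h1, h2, h3]
  change _ * Nat.card (c.S (a + 1) B) * _ = _
  ring

/-- the left and the right layers have the same size -/
theorem card_S (c : Ch p n R) {j : ℕ} (hj : j ≤ n) (B : Matrix (Fin r) (Fin r) R) :
    Nat.card (c.S j B) = Nat.card (c.S j Bᵀ) := by
  rcases j with _ | a
  · rw [Cong.S_eq (j := 0) (B' := Bᵀ) fun _ _ => by simp]
  have := c.finite
  have h1 := WKer_step c hj B
  rw [WKer_tr c hj B, WKer_step c hj Bᵀ, WKer_tr c (Nat.le_of_succ_le hj) B] at h1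
  exact (Nat.eq_of_mul_eq_mul_left Nat.card_pos h1).symm

end Ch

end Pool.Agent.ASW
end

-- merged part: Pool.Agent.Work.MP_60d5ce_nt.AS.WWeyl
section
/-!
# Weyl differencing along subgroups  (AS, abstract part)

Plan.  Van der Corput: `‖𝔼 F‖ ^ 2 ≤ 𝔼_{h ∈ U} ‖𝔼_e F (e + h) * conj (F e)‖` (average over shifts by `U`, Cauchy-Schwarz,
substitute), `F = Φ ∘ f`, `F (e + h) * conj (F e) = Φ (f (e + h) - f e)`, `‖Φ x‖ = 1` (`AddChar.norm_apply`).  Induction on `m`
generalising `f`; power mean inequality (`pow_sum_div_card_le_sum_pow` or iterated squares); the term `h = 0` is at most `1 / card U ≤ η`.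
-/

set_option linter.unusedSectionVars false

namespace Pool.Agent.ASW

variable {E A : Type} [AddCommGroup E] [AddCommGroup A]

/-- iterated differences -/
def dif : (m : ℕ) → (Fin m → E) → (E → A) → E → A
  | 0, _, f => f
  | m + 1, h, f => dif m (Fin.tail h) fun e => f (e + h 0) - f e

theorem WWeyl_vdc [Fintype E] (U : AddSubgroup E) [Fintype U] (F : E → ℂ) :
    (Fintype.card U : ℝ) * ‖∑ e, F e‖ ^ 2 ≤
      Fintype.card E * ∑ h : U, ‖∑ e, F (e + h) * (starRingEnd ℂ) (F e)‖ := by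
  have h1 : ∀ u : E, ∑ e, F (e + u) = ∑ e, F e := fun u => Equiv.sum_comp (Equiv.addRight u) F
  have h2 : ∑ e, ∑ u : U, F (e + u) = (Fintype.card U : ℂ) * ∑ e, F e := by
    rw [Finset.sum_comm]
    simp [h1]
  have h3 : (Fintype.card U : ℝ) * ‖∑ e, F e‖ ≤ ∑ e, ‖∑ u : U, F (e + u)‖ := by
    refine le_trans (le_of_eq ?_) (norm_sum_le _ _)
    rw [h2, norm_mul, Complex.norm_natCast]
  have h4 : (∑ e, ‖∑ u : U, F (e + u)‖) ^ 2 ≤
      Fintype.card E * ∑ e, ‖∑ u : U, F (e + u)‖ ^ 2 := sq_sum_le_card_mul_sum_sq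
  have h5 : ∀ v : U, ∑ e, ∑ u : U, F (e + u) * (starRingEnd ℂ) (F (e + v)) =
      ∑ h : U, ∑ e, F (e + h) * (starRingEnd ℂ) (F e) := by
    intro v
    rw [Finset.sum_comm, ← Equiv.sum_comp (Equiv.addLeft v)]
    refine Finset.sum_congr rfl fun h _ => ?_
    rw [← Equiv.sum_comp (Equiv.addRight (v : E)) fun e => F (e + h) * (starRingEnd ℂ) (F e)]
    refine Finset.sum_congr rfl fun e _ => ?_
    simp only [Equiv.coe_addLeft, Equiv.coe_addRight, AddSubgroup.coe_add, add_assoc]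
  have h6 : ((∑ e, ‖∑ u : U, F (e + u)‖ ^ 2 : ℝ) : ℂ) =
      (Fintype.card U : ℂ) * ∑ h : U, ∑ e, F (e + h) * (starRingEnd ℂ) (F e) := by
    push_cast
    simp only [← Complex.mul_conj', map_sum, Finset.mul_sum, Finset.sum_mul]
    rw [Finset.sum_comm]
    simp only [h5, ← Finset.mul_sum, Finset.sum_const, Finset.card_univ, nsmul_eq_mul]
  have h7 : ∑ e, ‖∑ u : U, F (e + u)‖ ^ 2 ≤
      Fintype.card U * ∑ h : U, ‖∑ e, F (e + h) * (starRingEnd ℂ) (F e)‖ := by
    have := congrArg norm h6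
    rw [Complex.norm_real, norm_mul, Complex.norm_natCast] at this
    refine (le_abs_self _).trans (this.le.trans ?_)
    exact mul_le_mul_of_nonneg_left (norm_sum_le _ _) (Nat.cast_nonneg _)
  have hc : (0 : ℝ) < Fintype.card U := Nat.cast_pos.2 Fintype.card_pos
  refine le_of_mul_le_mul_left ?_ hc
  have h8 := pow_le_pow_left₀ (by positivity) h3 2
  have h9 := mul_le_mul_of_nonneg_left h7 (Nat.cast_nonneg (Fintype.card E))
  nlinarith

theorem weyl [Fintype E] [Finite A] (Φ : AddChar A ℂ) {η : ℝ} (hη : 0 ≤ η) (m : ℕ)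
    (U : Fin m → AddSubgroup E) (hU : ∀ i, 1 ≤ η * Nat.card (U i)) (f : E → A)
    (h : ∀ h : Fin m → E, (∀ i, h i ∈ U i) → (∀ i, h i ≠ 0) → ∑ e, Φ (dif m h f e) = 0) :
    (‖∑ e, Φ (f e)‖ / Fintype.card E) ^ 2 ^ m ≤ m * η := by
  classical
  have hN : (0 : ℝ) < Fintype.card E := Nat.cast_pos.2 Fintype.card_pos
  induction m generalizing f with
  | zero =>
    have := h (fun i => i.elim0) (fun i => i.elim0) fun i => i.elim0
    simp only [dif] at this
    simp [this]
  | succ m ih =>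
    have hc : (0 : ℝ) < Fintype.card (U 0) := Nat.cast_pos.2 Fintype.card_pos
    have hU0 := hU 0
    rw [Nat.card_eq_fintype_card] at hU0
    obtain ⟨a, ea⟩ : ∃ a : U 0 → ℝ, ∀ u : U 0,
        a u = ‖∑ e, Φ (f (e + u) - f e)‖ / Fintype.card E := ⟨_, fun _ => rfl⟩
    have a0 : ∀ u, 0 ≤ a u := fun u => by
      rw [ea]
      positivity
    have a1 : ∀ u, a u ≤ 1 := fun u => by
      rw [ea, div_le_one hN]
      refine (norm_sum_le _ _).trans ?_
      simp [AddChar.norm_apply]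
    have a2 : ∀ u, a u ^ 2 ^ m ≤ m * η + if u = 0 then 1 else 0 := fun u => by
      split_ifs with hu
      · have := pow_le_one₀ (n := 2 ^ m) (a0 u) (a1 u)
        have : 0 ≤ m * η := by positivity
        linarith
      · rw [ea, add_zero]
        refine ih (fun i => U i.succ) (fun i => hU _) _ fun h' h1 h2 => ?_
        have := h (Fin.cons u h') (Fin.cases u.2 h1)
          (Fin.cases (fun e => hu (Subtype.ext e)) h2)
        simpa only [dif, Fin.tail_cons, Fin.cons_zero] using this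
    have a3 : (‖∑ e, Φ (f e)‖ / Fintype.card E) ^ 2 ≤ (∑ u, a u) / Fintype.card (U 0) := by
      have := WWeyl_vdc (U 0) fun e => Φ (f e)
      simp only [← AddChar.map_neg_eq_conj, ← AddChar.map_add_eq_mul, ← sub_eq_add_neg] at this
      simp only [ea, ← Finset.sum_div]
      rw [div_pow, div_div, div_le_div_iff₀ (by positivity) (by positivity)]
      nlinarith [mul_le_mul_of_nonneg_left this hN.le]
    obtain ⟨n, hn⟩ : ∃ n, 2 ^ m = n + 1 := ⟨2 ^ m - 1, (Nat.sub_add_cancel Nat.one_le_two_pow).symm⟩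
    have a4 := pow_sum_div_card_le_sum_pow (s := Finset.univ) (fun u _ => a0 u) n
    have a5 : ∑ u, a u ^ (n + 1) ≤ Fintype.card (U 0) * (m * η) + 1 := by
      rw [← hn]
      refine (Finset.sum_le_sum fun u _ => a2 u).trans (le_of_eq ?_)
      simp [Finset.sum_add_distrib]
    rw [pow_succ', pow_mul]
    refine (pow_le_pow_left₀ (by positivity) a3 _).trans ?_
    rw [hn, div_pow, pow_succ (Fintype.card (U 0) : ℝ), ← div_div, div_le_iff₀ hc]
    rw [Finset.card_univ] at a4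
    push_cast
    nlinarith

/-- a sum that is multiplied by a constant `≠ 1` under a shift vanishes -/
theorem sum_shift [Fintype E] (Φ : AddChar A ℂ) (f : E → A) (h : E) (ω : ℂ) (hω : ω ≠ 1)
    (hf : ∀ e, Φ (f (e + h) - f e) = ω) : ∑ e, Φ (f e) = 0 := by
  have h1 : ∑ e, Φ (f (e + h)) = ∑ e, Φ (f e) :=
    Equiv.sum_comp (Equiv.addRight h) fun e => Φ (f e)
  have h2 : ∑ e, Φ (f (e + h)) = ω * ∑ e, Φ (f e) := by
    rw [Finset.mul_sum]
    refine Finset.sum_congr rfl fun e _ => ?_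
    rw [← hf e, ← AddChar.map_add_eq_mul, sub_add_cancel]
  have h3 : (ω - 1) * ∑ e, Φ (f e) = 0 := by rw [sub_mul, ← h2, h1, one_mul, sub_self]
  exact (mul_eq_zero.1 h3).resolve_left (sub_ne_zero.2 hω)

end Pool.Agent.ASW
end

-- merged part: Pool.Agent.Work.MP_60d5ce_nt.AS.WStep
section
/-!
# One layer: conditional equidistribution  (AS, abstract part)

Plan.  `R` finite.  `χ, ψ` from `exists_char (m+1)`.  Fix the lift `x` of `a` with `π ^ (m+1) ∣ B0 x`, and lifts `lf a'` of all `a'`.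
For `B ≡ B0`: `B x = π ^ (m+1) y`, `χ (lf a' · B x) = ψ (a' · red y)`, a character of `W`, so its sum over `W` is `0` or `card W`; it is `card W` when
`a ∈ S (m+2) B` (use a lift of `a'` in the left kernel and `canc_pow`).  The indicator of `B ≡ B0` is the average of `θ (mk (B - B0))` over the
characters `θ` of the quotient of the matrices by `{Y | ∀ l i, π ^ (m+1) ∣ Y l i}` (`AddChar.sum_apply_eq_ite`).  For `a' ≠ 0` apply `weyl` to
`Φ Y = θ (mk Y) * χ (lf a' · Y x)`, `f = Bm pr b`: `dif m h f = Bm pr (b * ∏ (zp (pr g (h s)) - 1))` (`zp_add`), one more difference is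
`π ^ (m+1) •` a matrix with reduction given by `zp_sub`, `red_zp`, so `sum_shift` applies with `ω = ψ (top …)`.
-/

set_option linter.unusedSectionVars false

namespace Pool.Agent.ASW

open Matrix

variable {p n r : ℕ} [Fact p.Prime] {R : Type} [CommRing R]
variable {E G : Type} [AddCommGroup E] [Module (ZMod p) E] [Fintype E] [Fintype G]

/-- the top multilinear coefficient of `a' * Bb * a` -/
def top (pr : G → E →ₗ[ZMod p] ZMod p) (Bb : Fin r → Fin r → G → ZMod p) (a' a : Fin r → ZMod p)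
    {m : ℕ} (h : Fin m → E) (hJ : E) : ZMod p :=
  ∑ l, ∑ i, ∑ g, a' l * Bb l i g * a i * ((∏ s, pr g (h s)) * pr g hJ)

namespace Ch

/-- the matrix at the character `e` -/
def Bm (c : Ch p n R) (pr : G → E →ₗ[ZMod p] ZMod p) (b : Fin r → Fin r → G → R) (e : E) :
    Matrix (Fin r) (Fin r) R := fun l i => ∑ g, c.zp (pr g e) * b l i g

theorem WStep_ind {A : Type} [AddCommGroup A] [Finite A] (H : AddSubgroup A) (g : E → A) (a₀ : A)
    (χ : AddChar A ℂ) {D : ℝ} [DecidablePred fun e => g e - a₀ ∈ H]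
    (h : ∀ θ : AddChar A ℂ, (∀ y ∈ H, θ y = 1) → ‖∑ e, (θ * χ) (g e)‖ ≤ D) :
    ‖∑ e, if g e - a₀ ∈ H then χ (g e) else 0‖ ≤ D := by
  classical
  have := Fintype.ofFinite (A ⧸ H)
  have hc : (0 : ℝ) < Fintype.card (A ⧸ H) := by exact_mod_cast Fintype.card_pos
  have e1 : (Fintype.card (A ⧸ H) : ℂ) * ∑ e, (if g e - a₀ ∈ H then χ (g e) else 0) =
      ∑ θ : AddChar (A ⧸ H) ℂ, θ (-(a₀ : A ⧸ H)) *
        ∑ e, (θ.compAddMonoidHom (QuotientAddGroup.mk' H) * χ) (g e) := by
    simp only [Finset.mul_sum]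
    rw [Finset.sum_comm]
    refine Finset.sum_congr rfl fun e _ => ?_
    have e2 : ∀ θ : AddChar (A ⧸ H) ℂ, θ (-(a₀ : A ⧸ H)) *
        (θ.compAddMonoidHom (QuotientAddGroup.mk' H) * χ) (g e) =
          θ ((g e - a₀ : A) : A ⧸ H) * χ (g e) := by
      intro θ
      rw [AddChar.mul_apply, ← mul_assoc, QuotientAddGroup.mk_sub, sub_eq_neg_add,
        AddChar.map_add_eq_mul]
      rfl
    rw [Finset.sum_congr rfl fun θ _ => e2 θ, ← Finset.sum_mul, AddChar.sum_apply_eq_ite]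
    simp only [QuotientAddGroup.eq_zero_iff]
    split_ifs <;> simp
  refine le_of_mul_le_mul_left ?_ hc
  have e3 := congrArg norm e1
  rw [norm_mul, Complex.norm_natCast] at e3
  rw [e3, ← AddChar.card_eq, ← nsmul_eq_mul, ← Finset.card_univ, ← Finset.sum_const]
  refine norm_sum_le_of_le _ fun θ _ => ?_
  rw [norm_mul, AddChar.norm_apply, one_mul]
  refine h _ fun y hy => ?_
  change θ (y : A ⧸ H) = 1
  rw [(QuotientAddGroup.eq_zero_iff y).2 hy, AddChar.map_zero_eq_one]

theorem WStep_sub (c : Ch p n R) (pr : G → E →ₗ[ZMod p] ZMod p) (b : Fin r → Fin r → G → R)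
    (e h : E) : c.Bm pr b (e + h) - c.Bm pr b e =
      c.Bm pr (fun l i g => b l i g * (c.zp (pr g h) - 1)) e := by
  funext l i
  simp only [Bm, Matrix.sub_apply, map_add, zp_add, ← Finset.sum_sub_distrib]
  exact Finset.sum_congr rfl fun g _ => by ring

theorem WStep_dif (c : Ch p n R) (pr : G → E →ₗ[ZMod p] ZMod p) (m : ℕ) (h : Fin m → E)
    (b : Fin r → Fin r → G → R) : dif m h (c.Bm pr b) =
      c.Bm pr fun l i g => b l i g * ∏ s, (c.zp (pr g (h s)) - 1) := by
  induction m generalizing b with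
  | zero => simp [dif]
  | succ m ih =>
    simp only [dif, WStep_sub, Fin.prod_univ_succ, ← mul_assoc]
    exact ih _ _

theorem step (c : Ch p n R) (pr : G → E →ₗ[ZMod p] ZMod p) (b : Fin r → Fin r → G → R) (m : ℕ)
    (hm : m + 1 < n) (U : Fin m → AddSubgroup E) {η δ : ℝ} (hη : 0 ≤ η) (hδ : 0 ≤ δ)
    (hU : ∀ i, 1 ≤ η * Nat.card (U i)) (hηδ : m * η ≤ δ ^ 2 ^ m) (a : Fin r → ZMod p)
    (W : Submodule (ZMod p) (Fin r → ZMod p))
    (hW : ∀ a' ∈ W, a' ≠ 0 → ∀ h : Fin m → E, (∀ i, h i ∈ U i) → (∀ i, h i ≠ 0) →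
      ∃ hJ, top pr (fun l i g => c.red (b l i g)) a' a h hJ ≠ 0)
    (B0 : Matrix (Fin r) (Fin r) R) (ha : a ∈ c.S (m + 1) B0) (hW' : W ≤ c.S (m + 1) B0ᵀ) :
    ({e | c.Cong (m + 1) (c.Bm pr b e) B0 ∧ a ∈ c.S (m + 2) (c.Bm pr b e)}.ncard : ℝ) ≤
      {e | c.Cong (m + 1) (c.Bm pr b e) B0}.ncard / Nat.card W + δ * Fintype.card E := by
  classical
  have := c.finite
  have := Fintype.ofFinite R
  have : NeZero p := ⟨(Fact.out : p.Prime).ne_zero⟩
  have := Fintype.ofFinite W
  obtain ⟨χ, ψ, hχ, hψ⟩ := c.exists_char (m + 1) hm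
  obtain ⟨x, hx, hx0⟩ := ha
  choose lf hlf using c.surj
  choose u hu hu' using c.zp_sub
  let T : (Fin r → ZMod p) → Matrix (Fin r) (Fin r) R →+ R := fun a' =>
    AddMonoidHom.mk' (fun Y => ∑ l, lf (a' l) * ∑ i, Y l i * x i) fun Y Z => by
      simp [add_mul, mul_add, Finset.sum_add_distrib]
  have hT : ∀ a' Y, T a' Y = ∑ l, lf (a' l) * ∑ i, Y l i * x i := fun _ _ => rfl
  let H : AddSubgroup (Matrix (Fin r) (Fin r) R) :=
    { carrier := {Y | ∀ l i, c.π ^ (m + 1) ∣ Y l i}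
      zero_mem' := fun l i => dvd_zero _
      add_mem' := fun h h' l i => dvd_add (h l i) (h' l i)
      neg_mem' := fun h l i => (h l i).neg_right }
  have hE : (0 : ℝ) < Fintype.card E := by exact_mod_cast Fintype.card_pos
  have hWc : (0 : ℝ) < Fintype.card W := by exact_mod_cast Fintype.card_pos
  let F : W → E → ℂ := fun a' e =>
    if c.Cong (m + 1) (c.Bm pr b e) B0 then χ (T a' (c.Bm pr b e)) else 0
  have h1 : ∀ a' : W, a' ≠ 0 → ‖∑ e, F a' e‖ ≤ δ * Fintype.card E := by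
    intro a' ha'
    refine WStep_ind H (c.Bm pr b) B0 (χ.compAddMonoidHom (T a')) fun θ hθ => ?_
    rw [← div_le_iff₀ hE]
    refine (pow_le_pow_iff_left₀ (by positivity) hδ (pow_ne_zero m two_ne_zero)).1
      ((weyl _ hη m U hU _ fun h h1 h2 => ?_).trans hηδ)
    obtain ⟨hJ, hJ'⟩ := hW a' a'.2 (fun h => ha' (Subtype.ext h)) h h1 h2
    refine sum_shift _ _ hJ _ (fun h => hJ' (hψ _ h)) fun e => ?_
    have e1 : ∀ l i, (dif m h (c.Bm pr b) (e + hJ) - dif m h (c.Bm pr b) e) l i =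
        c.π ^ (m + 1) * ∑ g, c.zp (pr g e) * b l i g * ((∏ s, u (pr g (h s))) * u (pr g hJ)) := by
      intro l i
      rw [WStep_dif, WStep_sub, Finset.mul_sum]
      refine Finset.sum_congr rfl fun g _ => ?_
      simp only [hu, Finset.prod_mul_distrib, Finset.prod_const, Finset.card_univ, Fintype.card_fin]
      ring
    rw [AddChar.mul_apply, hθ _ fun l i => ⟨_, e1 l i⟩, one_mul, AddChar.compAddMonoidHom_apply, hT]
    simp only [e1, mul_assoc (c.π ^ (m + 1)), ← Finset.mul_sum, mul_left_comm _ (c.π ^ (m + 1))]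
    rw [hχ]
    congr 1
    simp only [top, map_sum, map_mul, map_prod, hlf, hx, hu', red_zp, Finset.mul_sum,
      Finset.sum_mul]
    refine Finset.sum_congr rfl fun l _ => Finset.sum_congr rfl fun i _ =>
      Finset.sum_congr rfl fun g _ => by ring
  have h2 : ∀ B, c.Cong (m + 1) B B0 → ∃ y : Fin r → R,
      (∀ l, ∑ i, B l i * x i = c.π ^ (m + 1) * y l) ∧
        ∀ a', χ (T a' B) = ψ (∑ l, a' l * c.red (y l)) := by
    intro B hB
    have : ∀ l, c.π ^ (m + 1) ∣ ∑ i, B l i * x i := by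
      intro l
      have e : ∑ i, B l i * x i = ∑ i, (B l i - B0 l i) * x i + ∑ i, B0 l i * x i := by
        rw [← Finset.sum_add_distrib]
        exact Finset.sum_congr rfl fun i _ => by ring
      rw [e]
      exact dvd_add (Finset.dvd_sum fun i _ => (hB l i).mul_right _) (hx0 l)
    choose y hy using this
    refine ⟨y, hy, fun a' => ?_⟩
    simp only [hT, hy, ← Finset.mul_sum, mul_left_comm _ (c.π ^ (m + 1))]
    rw [hχ]
    simp only [map_sum, map_mul, hlf]
  have h3 : ∀ e, (if c.Cong (m + 1) (c.Bm pr b e) B0 ∧ a ∈ c.S (m + 2) (c.Bm pr b e) then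
      (Fintype.card W : ℝ) else 0) ≤ (∑ a', F a' e).re := by
    intro e
    by_cases hB : c.Cong (m + 1) (c.Bm pr b e) B0
    swap
    · simp [F, hB]
    obtain ⟨y, hy, hy'⟩ := h2 _ hB
    simp only [F, hB, if_true, true_and, hy']
    split_ifs with hS
    · obtain ⟨x', hx', hx1⟩ := hS
      have : ∀ a' : W, ψ (∑ l, a'.1 l * c.red (y l)) = 1 := by
        intro a'
        obtain ⟨z, hz, hz1⟩ : a'.1 ∈ c.S (m + 1) (c.Bm pr b e)ᵀ := hB.transpose.S_eq ▸ hW' a'.2
        have e1 : c.π ^ (m + 1) * ∑ l, z l * y l = ∑ l, z l * ∑ i, c.Bm pr b e l i * x' i +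
            ∑ i, (x i - x' i) * ∑ l, c.Bm pr b e l i * z l := by
          simp only [Finset.mul_sum, ← mul_left_comm _ (c.π ^ (m + 1)), ← hy]
          rw [Finset.sum_comm (f := fun i l => (x i - x' i) * _), ← Finset.sum_add_distrib]
          refine Finset.sum_congr rfl fun l _ => ?_
          rw [← Finset.sum_add_distrib]
          exact Finset.sum_congr rfl fun i _ => by ring
        have e2 : c.π ∣ ∑ l, z l * y l := by
          refine c.canc_pow (m + 1) hm _ ?_
          rw [e1]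
          refine dvd_add (Finset.dvd_sum fun l _ => (hx1 l).mul_left _)
            (Finset.dvd_sum fun i _ => ?_)
          rw [pow_succ']
          exact mul_dvd_mul ((c.red_eq _).1 (by rw [map_sub, hx, hx', sub_self])) (hz1 i)
        have e3 := (c.red_eq _).2 e2
        simp only [map_sum, map_mul, hz] at e3
        rw [e3, AddChar.map_zero_eq_one]
      simp [this]
    · have := AddChar.sum_eq_ite (ψ.compAddMonoidHom (AddMonoidHom.mk'
        (fun a' : W => ∑ l, a'.1 l * c.red (y l)) fun s t => by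
          simp [add_mul, Finset.sum_add_distrib]))
      simp only [AddChar.compAddMonoidHom_apply, AddMonoidHom.mk'_apply] at this
      rw [this]
      split_ifs <;> simp
  have h4 : (∑ e, F 0 e).re = {e | c.Cong (m + 1) (c.Bm pr b e) B0}.ncard := by
    have : ∀ e, F 0 e = if c.Cong (m + 1) (c.Bm pr b e) B0 then 1 else 0 := by
      intro e
      refine if_ctx_congr Iff.rfl (fun hB => ?_) fun _ => rfl
      obtain ⟨y, -, hy'⟩ := h2 _ hB
      simp [hy']
    simp [this, Set.ncard_eq_toFinset_card']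
  have h5 := Finset.sum_le_sum fun e (_ : e ∈ Finset.univ) => h3 e
  rw [← Complex.re_sum, Finset.sum_comm, Complex.re_sum,
    ← Finset.add_sum_erase _ _ (Finset.mem_univ (0 : W)), h4, ← Finset.sum_filter, Finset.sum_const,
    nsmul_eq_mul] at h5
  have h6 : ∑ a' ∈ Finset.univ.erase 0, (∑ e, F a' e).re ≤
      Fintype.card W * (δ * Fintype.card E) := by
    refine (Finset.sum_le_card_nsmul _ _ _ fun a' ha' =>
      (Complex.re_le_norm _).trans (h1 a' (Finset.ne_of_mem_erase ha'))).trans ?_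
    rw [nsmul_eq_mul]
    refine mul_le_mul_of_nonneg_right ?_ (by positivity)
    exact_mod_cast Finset.card_le_univ _
  rw [Nat.card_eq_fintype_card, div_add' _ _ _ hWc.ne', le_div_iff₀ hWc,
    Set.ncard_eq_toFinset_card', Set.toFinset_ofPred]
  linarith

end Ch

end Pool.Agent.ASW
end

-- merged part: Pool.Agent.Work.MP_60d5ce_nt.AS.WLay
section
/-!
# All layers  (AS, abstract part)

Plan.  `P j a = ncard {e | a ∈ S j (Bm e)}`.  Class sum: choose a representative `rep B` of each `Cong (m+1)` class; for an invariant predicate `Q`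
and an invariant weight `t > 0` such that `Q B0` gives `a ∈ S (m+1) B0` and `W ≤ S (m+1) B0ᵀ`, `W ⊓ Bad m a = ⊥`, `t B0 ≤ card W`, `step` gives
`ncard {e | Q (Bm e) ∧ a ∈ S (m+2) (Bm e)} ≤ ∑ e with Q (Bm e), 1 / t (Bm e) + card (Matrix) * δ * card E`, `card (Matrix) ≤ p ^ (n * r ^ 2)` (`card_le`).
(A) `m = 1`, `t = card (S 2 B) / p` (`card_S`, complement of `Bad ⊓ S` in `S`): `∑ a ∈ Good, P 3 a ≤ p * card E + p ^ r * err`.
(B) `P (m+3) a ≤ P (m+1) a / p + 2 * err`: type A, some element of `S (m+1) Bᵀ` is outside `Bad m a` (`W` its span); type B,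
`S (m+1) Bᵀ ≤ Bad m a`: then a nonzero element of `S (m+2) Bᵀ` (`card_S`, `a ≠ 0`, `S_anti`) is outside `Bad (m+1) a`.
-/

set_option linter.unusedSectionVars false

namespace Pool.Agent.ASW

open Matrix

variable {p r : ℕ} [Fact p.Prime] {R : Type} [CommRing R]
variable {E G : Type} [AddCommGroup E] [Module (ZMod p) E] [Fintype E] [Fintype G]

open Classical in
lemma WLay_card (P : E → Prop) : ({e | P e}.ncard : ℝ) = ∑ e, if P e then 1 else 0 := by
  rw [Set.ncard_eq_toFinset_card', Set.toFinset_ofPred, Finset.sum_boole]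

lemma WLay_cls {M : Type} [Fintype M] (t : Setoid M) (f : E → M) (A : E → Prop) (u : M → ℝ) {ε : ℝ}
    (hε : 0 ≤ ε) (hu : ∀ B B', t B B' → u B = u B')
    (h : ∀ B, ({e | t (f e) B ∧ A e}.ncard : ℝ) ≤ {e | t (f e) B}.ncard * u B + ε) :
    ({e | A e}.ncard : ℝ) ≤ ∑ e, u (f e) + Fintype.card M * ε := by
  classical
  have k : ∀ g : E → ℝ, ∑ e, g e = ∑ x : Quotient t, ∑ e, if t (f e) x.out then g e else 0 :=
    fun g => by
      rw [Finset.sum_comm]
      refine Finset.sum_congr rfl fun e _ => ?_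
      have : ∀ x : Quotient t, t (f e) x.out ↔ Quotient.mk t (f e) = x :=
        fun x => Quotient.mk_eq_iff_out.symm
      simp [this]
  rw [WLay_card, k, k fun e => u (f e)]
  refine le_trans (Finset.sum_le_sum fun x _ => ?_ : _ ≤ ∑ x : Quotient t,
    (∑ e, (if t (f e) x.out then u (f e) else 0) + ε)) ?_
  · have := h x.out
    rw [WLay_card, WLay_card, Finset.sum_mul] at this
    refine le_of_eq_of_le (Finset.sum_congr rfl fun e _ => ?_) (this.trans_eq
      (congrArg (· + ε) (Finset.sum_congr rfl fun e _ => ?_)))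
    · by_cases a : t (f e) x.out <;> simp [a]
    · by_cases a : t (f e) x.out
      · simp [a, hu _ _ a]
      · simp [a]
  · rw [Finset.sum_add_distrib, Finset.sum_const, Finset.card_univ, nsmul_eq_mul]
    gcongr
    exact Fintype.card_quotient_le t

lemma WLay_cpl (S T : Submodule (ZMod p) (Fin r → ZMod p)) (hT : Module.finrank (ZMod p) T ≤ 1) :
    ∃ W ≤ S, Disjoint T W ∧ Nat.card S ≤ p * Nat.card W := by
  obtain ⟨W, h1, h2⟩ := IsModularLattice.exists_disjoint_and_sup_eq (inf_le_right : T ⊓ S ≤ S)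
  have h3 : W ≤ S := le_sup_right.trans h2.le
  refine ⟨W, h3, ?_, ?_⟩
  · rw [← inf_eq_right.2 h3, ← disjoint_assoc]
    exact h1
  · have := Submodule.finrank_add_le_finrank_add_finrank (T ⊓ S) W
    have h4 := Submodule.finrank_mono (inf_le_left : T ⊓ S ≤ T)
    rw [h2] at this
    rw [Module.natCard_eq_pow_finrank (K := ZMod p), Module.natCard_eq_pow_finrank (K := ZMod p) (V := W),
      Nat.card_zmod, ← pow_succ']
    exact Nat.pow_le_pow_right (Fact.out : p.Prime).pos (by omega)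

namespace Ch

theorem layers (s : ℕ) (c : Ch p (2 * s + 3) R) (pr : G → E →ₗ[ZMod p] ZMod p)
    (b : Fin r → Fin r → G → R) (U : ℕ → AddSubgroup E) {η δ : ℝ} (hη : 0 ≤ η) (hδ : 0 ≤ δ)
    (hδ1 : δ ≤ 1) (hU : ∀ i < 2 * s + 1, 1 ≤ η * Nat.card (U i))
    (hηδ : (2 * s + 1) * η ≤ δ ^ 2 ^ (2 * s + 1)) (Good : Set (Fin r → ZMod p))
    (h0 : (0 : Fin r → ZMod p) ∉ Good)
    (Bad : ℕ → (Fin r → ZMod p) → Submodule (ZMod p) (Fin r → ZMod p))
    (hB1 : ∀ m, ∀ a ∈ Good, Module.finrank (ZMod p) (Bad m a) ≤ 1)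
    (hB2 : ∀ m, ∀ a ∈ Good, Bad m a ⊓ Bad (m + 1) a = ⊥)
    (hW : ∀ m, 1 ≤ m → m ≤ 2 * s + 1 → ∀ a ∈ Good, ∀ a' ∉ Bad m a, ∀ h : Fin m → E,
      (∀ i : Fin m, h i ∈ U i) → (∀ i, h i ≠ 0) →
        ∃ hJ, top pr (fun l i g => c.red (b l i g)) a' a h hJ ≠ 0) :
    ({e | ∃ a ∈ Good, a ∈ c.S (2 * s + 3) (c.Bm pr b e)}.ncard : ℝ) ≤
      ((p : ℝ) / p ^ s + (2 * s + 1) * p ^ (r + (2 * s + 3) * r ^ 2) * δ) * Fintype.card E := by
  classical
  have := c.finite
  have := Fintype.ofFinite R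
  have p1 : (1 : ℝ) ≤ p := by exact_mod_cast (Fact.out : p.Prime).pos
  have : NeZero p := ⟨(Fact.out : p.Prime).ne_zero⟩
  obtain ⟨ε, hε⟩ : ∃ ε : ℝ, ε = p ^ ((2 * s + 3) * r ^ 2) * (δ * Fintype.card E) := ⟨_, rfl⟩
  have ε0 : 0 ≤ ε := by rw [hε]; positivity
  generalize hf : c.Bm pr b = f
  have one : ∀ m, 1 ≤ m → m ≤ 2 * s + 1 → ∀ a ∈ Good, ∀ (Q : Matrix (Fin r) (Fin r) R → Prop)
      (u : Matrix (Fin r) (Fin r) R → ℝ), (∀ B B', c.Cong (m + 1) B B' → (Q B ↔ Q B')) →
      (∀ B B', c.Cong (m + 1) B B' → u B = u B') → (∀ B, 0 ≤ u B) →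
      (∀ B, Q B → a ∈ c.S (m + 1) B →
        ∃ W ≤ c.S (m + 1) Bᵀ, Disjoint (Bad m a) W ∧ 1 ≤ u B * Nat.card W) →
      ({e | Q (f e) ∧ a ∈ c.S (m + 2) (f e)}.ncard : ℝ) ≤ ∑ e, u (f e) + ε := by
    intro m m1 m2 a ha Q u hQ hu u0 h
    refine (WLay_cls ⟨c.Cong (m + 1), Cong.refl c _, Cong.symm, Cong.trans⟩ f _ u
      (ε := δ * Fintype.card E) (by positivity) hu fun B => ?_).trans (add_le_add_right ?_ _)
    · show ({e | c.Cong (m + 1) (f e) B ∧ _}.ncard : ℝ) ≤ {e | c.Cong (m + 1) (f e) B}.ncard * _ + _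
      rcases Set.eq_empty_or_nonempty
        {e | c.Cong (m + 1) (f e) B ∧ Q (f e) ∧ a ∈ c.S (m + 2) (f e)} with k | ⟨e, e1, e2, e3⟩
      · have := u0 B
        rw [k, Set.ncard_empty, Nat.cast_zero]
        positivity
      have aB : a ∈ c.S (m + 1) B := e1.S_eq ▸ S_anti (Nat.le_succ _) _ e3
      obtain ⟨W, w1, w2, w3⟩ := h B ((hQ _ _ e1).1 e2) aB
      have st := step c pr b m (by omega) (fun i => U i) hη hδ (fun i => hU i (by omega))
        ((mul_le_mul_of_nonneg_right (by exact_mod_cast m2) hη).trans (hηδ.trans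
          (pow_le_pow_of_le_one hδ hδ1 (Nat.pow_le_pow_right two_pos m2)))) a W
        (fun a' w n0 => hW m m1 m2 a ha a' fun k => n0 (Submodule.disjoint_def.1 w2 _ k w)) B aB w1
      rw [hf] at st
      refine le_trans (Nat.cast_le.2 (Set.ncard_le_ncard fun e he => ?_)) (st.trans (add_le_add_left ?_ _))
      · exact ⟨he.1, he.2.2⟩
      · have : (0 : ℝ) < Nat.card W := by exact_mod_cast Nat.card_pos
        rw [div_le_iff₀ this, mul_assoc]
        exact le_mul_of_one_le_right (by positivity) w3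
    · rw [hε]
      refine mul_le_mul_of_nonneg_right ?_ (by positivity)
      rw [Fintype.card_congr Matrix.of.symm, Fintype.card_fun, Fintype.card_fun, Fintype.card_fin,
        ← pow_mul, pow_mul (p : ℝ), sq]
      exact_mod_cast Nat.pow_le_pow_left c.card_le _
  have two : ∀ m, 1 ≤ m → m ≤ 2 * s + 1 → ∀ a ∈ Good, ∀ Q : Matrix (Fin r) (Fin r) R → Prop,
      (∀ B B', c.Cong (m + 1) B B' → (Q B ↔ Q B')) →
      (∀ B, Q B → a ∈ c.S (m + 1) B → ∃ a' ∈ c.S (m + 1) Bᵀ, a' ∉ Bad m a) →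
      ({e | Q (f e) ∧ a ∈ c.S (m + 2) (f e)}.ncard : ℝ) ≤ {e | Q (f e)}.ncard / p + ε := by
    intro m m1 m2 a ha Q hQ h
    refine (one m m1 m2 a ha Q (fun B => (if Q B then 1 else 0) / p) hQ
      (fun B B' k => by rw [propext (hQ _ _ k)]) (fun B => by positivity) fun B q aB => ?_).trans_eq
      (by rw [WLay_card, Finset.sum_div])
    obtain ⟨a', a1, a2⟩ := h B q aB
    refine ⟨_, (Submodule.span_singleton_le_iff_mem _ _).2 a1,
      Submodule.disjoint_span_singleton_of_notMem a2, le_of_eq ?_⟩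
    rw [Module.natCard_eq_pow_finrank (K := ZMod p), Nat.card_zmod, if_pos q,
      finrank_span_singleton fun k => a2 (by rw [k]; exact zero_mem _), pow_one,
      div_mul_cancel₀ _ (by positivity)]
  have three : ∀ m, 1 ≤ m → m ≤ 2 * s → ∀ a ∈ Good, ({e | a ∈ c.S (m + 3) (f e)}.ncard : ℝ) ≤
      {e | a ∈ c.S (m + 1) (f e)}.ncard / p + 2 * ε := by
    intro m m1 m2 a ha
    have A := two m m1 (by omega) a ha (fun B => a ∈ c.S (m + 1) B ∧ ¬ c.S (m + 1) Bᵀ ≤ Bad m a)
      (fun B B' k => by rw [k.S_eq, k.transpose.S_eq])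
      fun B q _ => SetLike.not_le_iff_exists.1 q.2
    have B := two (m + 1) (by omega) (by omega) a ha
      (fun B => a ∈ c.S (m + 1) B ∧ c.S (m + 1) Bᵀ ≤ Bad m a)
      (fun B B' k => by rw [(k.mono (Nat.le_succ _)).S_eq, (k.mono (Nat.le_succ _)).transpose.S_eq])
      fun B q aB => by
        by_contra k
        have k1 : c.S (m + 1 + 1) Bᵀ = ⊥ := le_bot_iff.1 (hB2 m a ha ▸ le_inf
          ((S_anti (Nat.le_succ _) _).trans q.2) fun x hx => by_contra fun k2 => k ⟨x, hx, k2⟩)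
        have k2 := c.card_S (j := m + 1 + 1) (by omega) B
        rw [k1, Nat.card_unique (α := (⊥ : Submodule (ZMod p) (Fin r → ZMod p))),
          Nat.card_eq_one_iff_unique] at k2
        have k3 : a = 0 := congrArg Subtype.val (k2.1.elim ⟨a, aB⟩ 0)
        exact h0 (k3 ▸ ha)
    have C : ({e | a ∈ c.S (m + 3) (f e)}.ncard : ℝ) ≤
        {e | (a ∈ c.S (m + 1) (f e) ∧ ¬ c.S (m + 1) (f e)ᵀ ≤ Bad m a) ∧
          a ∈ c.S (m + 2) (f e)}.ncard + {e | (a ∈ c.S (m + 1) (f e) ∧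
            c.S (m + 1) (f e)ᵀ ≤ Bad m a) ∧ a ∈ c.S (m + 1 + 2) (f e)}.ncard := by
      rw [← Nat.cast_add, Nat.cast_le]
      refine (Set.ncard_le_ncard fun e he => ?_).trans (Set.ncard_union_le _ _)
      by_cases k : c.S (m + 1) (f e)ᵀ ≤ Bad m a
      · exact Or.inr ⟨⟨S_anti (by omega) _ he, k⟩, he⟩
      · exact Or.inl ⟨⟨S_anti (by omega) _ he, k⟩, S_anti (by omega) _ he⟩
    have D : ({e | a ∈ c.S (m + 1) (f e) ∧ ¬ c.S (m + 1) (f e)ᵀ ≤ Bad m a}.ncard : ℝ) +
        {e | a ∈ c.S (m + 1) (f e) ∧ c.S (m + 1) (f e)ᵀ ≤ Bad m a}.ncard =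
        {e | a ∈ c.S (m + 1) (f e)}.ncard := by
      simp only [WLay_card]
      rw [← Finset.sum_add_distrib]
      refine Finset.sum_congr rfl fun e _ => ?_
      by_cases k : c.S (m + 1) (f e)ᵀ ≤ Bad m a <;> simp [k]
    rw [← D, add_div]
    linarith
  have cG : ((Finset.univ.filter (· ∈ Good)).card : ℝ) ≤ p ^ r := by
    have := Finset.card_le_univ (Finset.univ.filter (· ∈ Good))
    rw [Fintype.card_fun, ZMod.card, Fintype.card_fin] at this
    exact_mod_cast this
  have ind : ∀ k ≤ s, ∑ a with a ∈ Good, ({e | a ∈ c.S (2 * k + 3) (f e)}.ncard : ℝ) ≤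
      p / p ^ k * Fintype.card E + (2 * k + 1) * (p ^ r * ε) := by
    intro k hk
    induction k with
    | zero =>
      refine (Finset.sum_le_sum fun a ha => (?_ : _ ≤ ∑ e, (if a ∈ c.S 2 (f e) then
        (p : ℝ) / Nat.card (c.S 2 (f e)) else 0) + ε)).trans ?_
      · have := one 1 le_rfl (by omega) a (Finset.mem_filter.1 ha).2 (fun _ => True)
          (fun B => if a ∈ c.S 2 B then (p : ℝ) / Nat.card (c.S 2 B) else 0) (fun _ _ _ => Iff.rfl)
          (fun B B' k => by rw [k.S_eq]) (fun B => by positivity) fun B _ aB => by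
            obtain ⟨W, w1, w2, w3⟩ := WLay_cpl (c.S 2 Bᵀ) _ (hB1 1 a (Finset.mem_filter.1 ha).2)
            refine ⟨W, w1, w2, ?_⟩
            rw [if_pos aB, c.card_S (by omega), div_mul_eq_mul_div,
              one_le_div (by exact_mod_cast Nat.card_pos)]
            exact_mod_cast w3
        simpa only [true_and] using this
      rw [Finset.sum_add_distrib, Finset.sum_comm, Finset.sum_const, nsmul_eq_mul]
      refine add_le_add ((Finset.sum_le_card_nsmul _ _ (p : ℝ) fun e _ => ?_).trans_eq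
        (by simp [mul_comm])) (by simpa using mul_le_mul_of_nonneg_right cG ε0)
      refine (Finset.sum_le_sum_of_subset_of_nonneg (Finset.subset_univ _)
        fun _ _ _ => by positivity).trans_eq ?_
      have : (0 : ℝ) < Nat.card (c.S 2 (f e)) := by exact_mod_cast Nat.card_pos
      rw [← Finset.sum_filter, Finset.sum_const, nsmul_eq_mul, ← Fintype.card_subtype,
        ← Nat.card_eq_fintype_card, mul_div_cancel₀ _ this.ne']
    | succ k ih =>
      refine (Finset.sum_le_sum fun a ha => three (2 * k + 2) (by omega) (by omega) a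
        (Finset.mem_filter.1 ha).2).trans ?_
      have h1 := div_le_div_of_nonneg_right (ih (by omega)) (by positivity : (0 : ℝ) ≤ p)
      have h2 : (2 * k + 1) * (p ^ r * ε) / p ≤ (2 * k + 1) * (p ^ r * ε) :=
        div_le_self (by positivity) p1
      have h3 := mul_le_mul_of_nonneg_right cG ε0
      have h4 : (p : ℝ) / p ^ k * Fintype.card E / p = p / p ^ (k + 1) * Fintype.card E := by
        rw [pow_succ]; field_simp
      rw [Finset.sum_add_distrib, ← Finset.sum_div, Finset.sum_const, nsmul_eq_mul]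
      rw [add_div, h4] at h1
      push_cast
      linarith
  refine le_trans ?_ ((ind s le_rfl).trans_eq (by rw [hε, pow_add]; ring))
  rw [← Nat.cast_sum, Nat.cast_le]
  refine (Set.ncard_le_ncard fun e he => ?_).trans (Finset.set_ncard_biUnion_le _ _)
  obtain ⟨a, a1, a2⟩ := he
  exact Set.mem_biUnion (Finset.mem_coe.2 (Finset.mem_filter.2 ⟨Finset.mem_univ _, a1⟩)) a2

end Ch

end Pool.Agent.ASW
end

-- merged part: Pool.Agent.Work.MP_60d5ce_nt.AS.WBox
section
/-!
# Boxes on which finitely many multilinear forms vanish  (AS, abstract part)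

Plan.  Induction on `K` with the bound `(D + 1) ^ K` monotone (prove it for all `K' ≤ K`).  `U i` is the span of `D` independent vectors
`v i b`.  For the new index `i` the conditions are indexed by `t` and `s : Fin i → Option (Fin D)`:
`x ↦ ∑ g, dd t g * (∏ l, (s l).elim 1 fun b => pr g (v l b)) * pr g x` is linear; the common kernel in `Eb i` has dimension `≥ D`
(`LinearMap.finrank_range_add_finrank_ker`, `exists_linearIndependent_of_le_finrank`).  Multilinearity extends from the `v l b` to the spans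
(expand `h l = ∑ b, c b • v l b`, `Finset.prod_univ_sum`, or induct on the span one variable at a time).
-/

set_option linter.unusedSectionVars false

namespace Pool.Agent.ASW

variable {p : ℕ} [Fact p.Prime]

theorem WBox_step {F E G T : Type} [Field F] [AddCommGroup E] [Module F E] [Module.Finite F E]
    [Fintype G] [Fintype T] (pr : G → E →ₗ[F] F) (Λ : (G → F) →ₗ[F] T → F) (D : ℕ)
    (S : Submodule F (G → F)) (hS : S ≤ LinearMap.ker Λ) (V : Submodule F E)
    (hd : D + Fintype.card T * Module.finrank F S ≤ Module.finrank F V) :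
    ∃ (W : Submodule F E) (S' : Submodule F (G → F)), W ≤ V ∧ Module.finrank F W = D ∧
      S' ≤ LinearMap.ker Λ ∧ Module.finrank F S' ≤ Module.finrank F S * (D + 1) ∧ S ≤ S' ∧
      ∀ f ∈ S, ∀ x ∈ W, (fun g => f g * pr g x) ∈ S' := by
  let B : (G → F) →ₗ[F] E →ₗ[F] G → F := LinearMap.mk₂ F (fun f x g => f g * pr g x)
    (fun f f' x => funext fun g => by simp [add_mul]) (fun c f x => funext fun g => by simp [mul_assoc])
    (fun f x x' => funext fun g => by simp [mul_add])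
    fun c f x => funext fun g => by simp [mul_left_comm]
  let C : V →ₗ[F] S →ₗ[F] T → F := (B.compl₁₂ S.subtype V.subtype).flip.compr₂ Λ
  have h1 := C.finrank_range_add_finrank_ker
  have h2 : Module.finrank F (LinearMap.range C) ≤ Fintype.card T * Module.finrank F S := by
    refine (Submodule.finrank_le _).trans (le_of_eq ?_)
    rw [Module.finrank_linearMap, Module.finrank_fintype_fun_eq_card, mul_comm]
  obtain ⟨v, hv⟩ := exists_linearIndependent_of_le_finrank (R := F) (M := LinearMap.ker C) (n := D)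
    (by omega)
  have hv' : LinearIndependent F fun b => ((v b : V) : E) :=
    (hv.map' _ (Submodule.ker_subtype _)).map' _ (Submodule.ker_subtype V)
  let W : Submodule F E := Submodule.span F (Set.range fun b => ((v b : V) : E))
  have hW : Module.finrank F W = D := by rw [finrank_span_eq_card hv', Fintype.card_fin]
  have hk : W ≤ (LinearMap.ker C).map V.subtype :=
    Submodule.span_le.2 (Set.range_subset_iff.2 fun b => ⟨v b, (v b).2, rfl⟩)
  let P := TensorProduct.lift (B.compl₁₂ S.subtype W.subtype)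
  refine ⟨W, S ⊔ LinearMap.range P, hk.trans (V.map_subtype_le _), hW, sup_le hS ?_, ?_, le_sup_left,
    fun f hf x hx => Submodule.mem_sup_right ⟨(⟨f, hf⟩ : S) ⊗ₜ (⟨x, hx⟩ : W), rfl⟩⟩
  · rw [LinearMap.range_le_ker_iff]
    refine TensorProduct.ext' fun f x => ?_
    obtain ⟨y, hy, e⟩ := hk x.2
    have h3 : Λ (B f y) = 0 := LinearMap.congr_fun (LinearMap.mem_ker.1 hy) f
    have e' : (y : E) = x := e
    rw [e'] at h3
    exact h3
  · refine (Submodule.finrank_add_le_finrank_add_finrank _ _).trans ?_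
    have := P.finrank_range_le
    rw [Module.finrank_tensorProduct, hW] at this
    rw [mul_add_one, add_comm]
    exact Nat.add_le_add_right this _

theorem WBox_ind {F E G T : Type} [Field F] [AddCommGroup E] [Module F E] [Module.Finite F E]
    [Fintype G] [Fintype T] (pr : G → E →ₗ[F] F) (Λ : (G → F) →ₗ[F] T → F) (h0 : Λ (fun _ => 1) = 0)
    (K D : ℕ) (Eb : ℕ → Submodule F E)
    (hd : ∀ i < K, D + Fintype.card T * (D + 1) ^ K ≤ Module.finrank F (Eb i)) (k : ℕ) :
    k ≤ K → ∃ (U : ℕ → Submodule F E) (S : Submodule F (G → F)),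
      (∀ i < k, U i ≤ Eb i ∧ Module.finrank F (U i) = D) ∧ S ≤ LinearMap.ker Λ ∧
      Module.finrank F S ≤ (D + 1) ^ k ∧ ∀ (h : ℕ → E) (I : Finset ℕ),
        (∀ i ∈ I, i < k ∧ h i ∈ U i) → (fun g => ∏ i ∈ I, pr g (h i)) ∈ S := by
  induction k with
  | zero =>
    refine fun _ => ⟨Eb, F ∙ fun _ => 1, fun i hi => absurd hi (Nat.not_lt_zero i),
      (Submodule.span_singleton_le_iff_mem _ _).2 h0, ?_, fun h I hI => ?_⟩
    · simpa using finrank_span_le_card (R := F) ({fun _ => 1} : Set (G → F))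
    · rw [Finset.eq_empty_of_forall_notMem fun i hi => Nat.not_lt_zero i (hI i hi).1]
      exact Submodule.mem_span_singleton_self _
  | succ k ih =>
    intro hk
    obtain ⟨U, S, h1, h2, h3, h4⟩ := ih (Nat.le_of_succ_le hk)
    obtain ⟨W, S', a1, a2, a3, a4, a5, a6⟩ := WBox_step pr Λ D S h2 (Eb k)
      ((Nat.add_le_add_left (Nat.mul_le_mul_left _ (h3.trans
        (Nat.pow_le_pow_right D.succ_pos (Nat.le_of_succ_le hk)))) _).trans (hd k hk))
    refine ⟨Function.update U k W, S', fun i hi => ?_, a3,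
      a4.trans (Nat.mul_le_mul_right _ h3), fun h I hI => ?_⟩
    · rcases (Nat.lt_succ_iff.1 hi).eq_or_lt with rfl | hi
      · rw [Function.update_self]
        exact ⟨a1, a2⟩
      · rw [Function.update_of_ne hi.ne]
        exact h1 i hi
    · have e := h4 h (I.erase k) fun i hi => by
        obtain ⟨b1, b2⟩ := Finset.mem_erase.1 hi
        obtain ⟨b3, b4⟩ := hI i b2
        rw [Function.update_of_ne b1] at b4
        exact ⟨by omega, b4⟩
      by_cases hI' : k ∈ I
      · have b := (hI k hI').2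
        rw [Function.update_self] at b
        simpa only [Finset.prod_erase_mul _ _ hI'] using a6 _ e _ b
      · rw [Finset.erase_eq_of_notMem hI'] at e
        exact a5 e

theorem exists_box {E G T : Type} [AddCommGroup E] [Module (ZMod p) E] [Finite E] [Fintype G]
    [Fintype T] (pr : G → E →ₗ[ZMod p] ZMod p) (dd : T → G → ZMod p) (h0 : ∀ t, ∑ g, dd t g = 0)
    (K D : ℕ) (Eb : ℕ → Submodule (ZMod p) E)
    (hd : ∀ i < K, D + Fintype.card T * (D + 1) ^ K ≤ Module.finrank (ZMod p) (Eb i)) :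
    ∃ U : ℕ → Submodule (ZMod p) E, (∀ i < K, U i ≤ Eb i ∧ Nat.card (U i) = p ^ D) ∧
      ∀ m ≤ K, ∀ h : Fin m → E, (∀ i : Fin m, h i ∈ U i) →
        ∀ t (I : Finset (Fin m)), ∑ g, dd t g * ∏ i ∈ I, pr g (h i) = 0 := by
  let Λ : (G → ZMod p) →ₗ[ZMod p] T → ZMod p := (Matrix.of dd).mulVecLin
  have hΛ : ∀ f t, Λ f t = ∑ g, dd t g * f g := fun f t => rfl
  obtain ⟨U, S, h1, h2, -, h4⟩ := WBox_ind pr Λ (funext fun t => by simp [hΛ, h0]) K D Eb hd K le_rfl
  refine ⟨U, fun i hi => ⟨(h1 i hi).1, ?_⟩, fun m hm h hh t I => ?_⟩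
  · rw [Module.natCard_eq_pow_finrank (K := ZMod p), Nat.card_zmod, (h1 i hi).2]
  · have e := h2 (h4 (fun i => if hi : i < m then h ⟨i, hi⟩ else 0) (I.map Fin.valEmbedding)
      fun i hi => by
        obtain ⟨j, -, rfl⟩ := Finset.mem_map.1 hi
        simpa using ⟨j.2.trans_le hm, hh j⟩)
    simpa [hΛ] using congrFun (LinearMap.mem_ker.1 e) t

end Pool.Agent.ASW
end

-- merged part: Pool.Agent.Work.MP_60d5ce_nt.AS.WLift
section
/-!
# Lifting the group ring matrix to characteristic zero  (AS, abstract part)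

Plan.  `M` is a module over `A = ℤ[X]` (`X` acts as `σ`: `Module.AEval'` or `aeval` into `Module.End ℤ M`),
killed by `∑ X ^ i`; `π = X - 1` is injective on `M`; `act g` is `A`-linear.  `J u = fun g => j (act g u)`.
(1) Choose `m : Fin t → M` with `J (m k)` a basis of the range of `J` (over `ZMod p`; `J (a • u) = ev a • J u`).
Every `u` is `∑ a k • m k + π ^ N • v` (induction on `N`, `hk`), and `∑ a k • m k ∈ π ^ N M` forces
`a k ∈ idl p N` (induction: `ev_zero_iff`, `mem_idl`, injectivity of `π`).  So there are additive coordinates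
`co k : M → R = A ⧸ idl p (n+1)` with `co k (a • u) = mk a * co k u`.  Put `F i u = ∑ k, co k u * lift (j (m k) i)`;
`red (F i u) = j u i` by `hj`.  (2) `y k (i, g) = F i (act g (m k))` reduces to the independent vectors
`J (m k)`; take a linear left inverse over `ZMod p`, lift its matrix to `lam k`, `Λ k k' = lam k · y k'` is `1` mod `π`,
so its determinant is a unit (`Ch.isUnit_of`).  With any lift `f l` of `Bb l` put
`b l = f l - ∑ k k', (f l · y k) * Λ⁻¹ k k' * lam k'`: it kills all `y k`, hence all `(F i (act g u))`, and reduces to `Bb l` by `hB`.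
For an eigenvector `F i (act g u) = zp (x g) * F i u` (`1 + π = mk X`).
-/

set_option linter.unusedSectionVars false

namespace Pool.Agent.ASW

open Polynomial

variable {p : ℕ} [Fact p.Prime]

theorem WLift_iter {R V W : Type} [CommRing R] [AddCommGroup V] [Module R V] [AddCommGroup W]
    [Module R W] (T : V →ₗ[R] W) (π : R) (h : ∀ z, ∃ c w, z = T c + π • w) (N : ℕ) (z : W) :
    ∃ c w, z = T c + π ^ N • w := by
  induction N with
  | zero => exact ⟨0, z, by simp⟩
  | succ N ih =>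
    obtain ⟨c, w, rfl⟩ := ih
    obtain ⟨c', w', rfl⟩ := h w
    exact ⟨c + π ^ N • c', w', by rw [map_add, map_smul, smul_add, smul_smul, add_assoc, pow_succ]⟩

theorem WLift_dual {K ι κ : Type} [Field K] [Fintype ι] [Fintype κ] {v : κ → ι → K}
    (h : LinearIndependent K v) (z : κ → K) : ∃ c : ι → K, ∀ k, ∑ i, c i * v k i = z k := by
  classical
  obtain ⟨L, hL⟩ := (Fintype.linearCombination K v).exists_leftInverse_of_injective
    (LinearMap.ker_eq_bot.2 (linearIndependent_iff_injective_fintypeLinearCombination.1 h))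
  refine ⟨fun i => ∑ k, z k * L (Pi.single i 1) k, fun k => ?_⟩
  have h1 : L (v k) = Pi.single k 1 := by
    simpa using LinearMap.congr_fun hL (Pi.single k 1)
  have h2 : L (v k) = ∑ i, v k i • L (Pi.single i 1) := by
    conv_lhs => rw [pi_eq_sum_univ' (v k), map_sum]
    simp only [map_smul]
  have h3 : ∑ k', z k' * L (v k) k' = z k := by simp [h1, Pi.single_apply]
  rw [← h3, h2]
  simp only [Finset.sum_apply, Pi.smul_apply, smul_eq_mul, Finset.sum_mul, Finset.mul_sum]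
  rw [Finset.sum_comm]
  exact Finset.sum_congr rfl fun _ _ => Finset.sum_congr rfl fun _ _ => by ring

theorem WLift_lift {n : ℕ} {R ι κ : Type} [CommRing R] [Fintype ι] [Fintype κ] (c : Ch p n R)
    {y : κ → ι → R} (h : LinearIndependent (ZMod p) fun k i => c.red (y k i)) (B : ι → ZMod p)
    (hB : ∀ k, ∑ i, B i * c.red (y k i) = 0) :
    ∃ b : ι → R, (∀ i, c.red (b i) = B i) ∧ ∀ k, ∑ i, b i * y k i = 0 := by
  choose s hs using c.surj
  let T : (ι → R) →ₗ[R] κ → R := Fintype.linearCombination R fun i k => y k i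
  have hT : ∀ b k, T b k = ∑ i, b i * y k i := fun b k => by
    simp [T, Fintype.linearCombination_apply]
  have h1 : ∀ (b : ι → ZMod p) (z : κ → R), (∀ k, ∑ i, b i * c.red (y k i) = c.red (z k)) →
      ∃ w, z = T (fun i => s (b i)) + c.π • w := fun b z e => by
    choose w hw using fun k => (c.red_eq (z k - T (fun i => s (b i)) k)).1 (by
      simp only [hT, map_sub, map_sum, map_mul, hs, e, sub_self])
    exact ⟨w, funext fun k => eq_add_of_sub_eq' (hw k)⟩
  obtain ⟨w, hw⟩ := h1 B 0 (by simpa using hB)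
  obtain ⟨b, w', rfl⟩ := WLift_iter T c.π (fun z => by
    obtain ⟨b, hb⟩ := WLift_dual h fun k => c.red (z k)
    exact ⟨_, h1 b z hb⟩) n w
  rw [c.nil, zero_smul, add_zero, ← map_smul, ← map_add] at hw
  exact ⟨_, fun i => by simp [hs, c.red_π], fun k => (hT _ k).symm.trans (congrFun hw.symm k)⟩

theorem WLift_co (N : ℕ) {M V κ : Type} [AddCommGroup M] [Module ℤ[X] M] [AddCommGroup V]
    [Module (ZMod p) V] [Fintype κ] (hN : ∀ u : M, (∑ i ∈ Finset.range p, (X : ℤ[X]) ^ i) • u = 0)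
    (hi : ∀ u : M, (X - 1 : ℤ[X]) • u = 0 → u = 0) (J : M →+ V)
    (hJ : ∀ a u, J (a • u) = ev p a • J u) (hk : ∀ u, J u = 0 → ∃ v, u = (X - 1 : ℤ[X]) • v)
    (m : κ → M) (h1 : LinearIndependent (ZMod p) (J ∘ m))
    (h2 : ∀ u, J u ∈ Submodule.span (ZMod p) (Set.range (J ∘ m))) :
    ∃ co : M →ₗ[ℤ[X]] κ → ℤ[X] ⧸ idl p N, ∀ u, ∃ (a : κ → ℤ[X]) (v : M),
      u = ∑ k, a k • m k + (X - 1 : ℤ[X]) ^ N • v ∧ ∀ k, co u k = Ideal.Quotient.mk _ (a k) := by
  have e0 : ev p (X - 1) = 0 := by simp [ev]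
  have hu : ∀ (N : ℕ) (a : κ → ℤ[X]) (v : M), ∑ k, a k • m k = (X - 1 : ℤ[X]) ^ N • v →
      ∀ k, a k ∈ idl p N := fun N => by
    induction N with
    | zero => exact fun a _ _ k => mem_idl.2 ⟨0, a k, by simp⟩
    | succ N ih =>
      intro a v e
      have e1 := congrArg J e
      rw [map_sum, pow_succ', mul_smul, hJ, e0, zero_smul] at e1
      simp only [hJ] at e1
      choose s w hw using fun k =>
        mem_idl.1 (ev_zero_iff.1 (Fintype.linearIndependent_iff.1 h1 _ e1 k))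
      intro k
      obtain ⟨s', w', e2⟩ := mem_idl.1 (ih w v (sub_eq_zero.1 (hi _ (by
        rw [smul_sub, smul_smul, ← pow_succ', ← e, Finset.smul_sum, sub_eq_zero]
        refine Finset.sum_congr rfl fun k _ => ?_
        rw [← hw, add_smul, mul_smul, hN, smul_zero, zero_add, pow_one, mul_comm, mul_smul]))) k)
      exact mem_idl.2 ⟨s k + s' * (X - 1), w', by rw [← hw, ← e2]; ring⟩
  choose a v ha using WLift_iter (Fintype.linearCombination ℤ[X] m) (X - 1) (fun u => by
    obtain ⟨c, hc⟩ := (Submodule.mem_span_range_iff_exists_fun _).1 (h2 u)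
    obtain ⟨v, hv⟩ := hk (u - Fintype.linearCombination ℤ[X] m fun k => ((c k).val : ℤ[X])) (by
      simp only [map_sub, Fintype.linearCombination_apply, map_sum, hJ, map_natCast,
        ZMod.natCast_zmod_val, ← hc, Function.comp, sub_self])
    exact ⟨_, v, eq_add_of_sub_eq' hv⟩) N
  have key : ∀ u a' v', u = Fintype.linearCombination ℤ[X] m a' + (X - 1 : ℤ[X]) ^ N • v' →
      ∀ k, Ideal.Quotient.mk (idl p N) (a u k) = Ideal.Quotient.mk _ (a' k) := fun u a' v' e k =>
    Ideal.Quotient.eq.2 (hu N (a u - a') (v' - v u) (by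
      rw [← Fintype.linearCombination_apply, map_sub, smul_sub, sub_eq_sub_iff_add_eq_add, ← ha,
        add_comm, ← e]) k)
  refine ⟨⟨⟨fun u k => Ideal.Quotient.mk _ (a u k), fun u u' => funext fun k => ?_⟩,
    fun c u => funext fun k => ?_⟩, fun u => ⟨a u, v u, ha u, fun _ => rfl⟩⟩
  · exact key _ (a u + a u') (v u + v u') (by
      rw [map_add, smul_add, add_add_add_comm, ← ha, ← ha]) k
  · exact key _ (c • a u) (c • v u) (by rw [map_smul, smul_comm _ c, ← smul_add, ← ha]) k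

theorem WLift_smul {I : Ideal ℤ[X]} (a : ℤ[X]) (x : ℤ[X] ⧸ I) :
    a • x = Ideal.Quotient.mk I a * x := by
  obtain ⟨x, rfl⟩ := Ideal.Quotient.mk_surjective x
  rfl

theorem WLift_main (n r : ℕ) {G M : Type} [Fintype G] [AddCommGroup M] [Module ℤ[X] M]
    (act : G → M →+ M) (hc : ∀ g (a : ℤ[X]) u, act g (a • u) = a • act g u)
    (hN : ∀ u : M, (∑ i ∈ Finset.range p, (X : ℤ[X]) ^ i) • u = 0)
    (hi : ∀ u : M, (X - 1 : ℤ[X]) • u = 0 → u = 0)
    (j : M →+ (Fin r → ZMod p)) (hj : ∀ a u, j (a • u) = ev p a • j u)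
    (hk : ∀ u, (∀ g, j (act g u) = 0) → ∃ v, u = (X - 1 : ℤ[X]) • v)
    (Bb : Fin r → Fin r → G → ZMod p) (hB : ∀ u l, ∑ i, ∑ g, Bb l i g * j (act g u) i = 0) :
    ∃ (b : Fin r → Fin r → G → ℤ[X] ⧸ idl p (n + 1))
      (F : M →ₗ[ℤ[X]] Fin r → ℤ[X] ⧸ idl p (n + 1)), (∀ l i g, (chq p n).red (b l i g) = Bb l i g) ∧
      (∀ u i, (chq p n).red (F u i) = j u i) ∧ ∀ u l, ∑ i, ∑ g, b l i g * F (act g u) i = 0 := by
  let J : M →+ Fin r × G → ZMod p :=
    ⟨⟨fun u x => j (act x.2 u) x.1, by ext; simp⟩, fun u v => by ext; simp⟩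
  obtain ⟨κ, m, -, h2, h1⟩ := exists_linearIndependent' (ZMod p) J
  have := h1.finite
  have := Fintype.ofFinite κ
  obtain ⟨co, hco⟩ := WLift_co (n + 1) hN hi J
    (fun a u => funext fun x => congrFun ((congrArg j (hc _ a u)).trans (hj _ _)) x.1)
    (fun u e => hk u fun g => funext fun i => congrFun e (i, g)) m h1
    fun u => h2 ▸ Submodule.subset_span ⟨u, rfl⟩
  choose s hs using (chq p n).surj
  have e0 : ev p (X - 1) = 0 := by simp [ev]
  let F : M →ₗ[ℤ[X]] Fin r → ℤ[X] ⧸ idl p (n + 1) :=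
    ((Fintype.linearCombination _ fun k i => s (j (m k) i)).restrictScalars ℤ[X]).comp co
  have hF : ∀ u i, (chq p n).red (F u i) = j u i := fun u i => by
    obtain ⟨a, v, e1, e2⟩ := hco u
    have e3 : F u i = ∑ k, co u k * s (j (m k) i) := by simp [F, Fintype.linearCombination_apply]
    rw [e3, map_sum]
    conv_rhs => rw [e1, map_add, pow_succ', mul_smul, hj, e0, zero_smul, add_zero, map_sum]
    simp only [map_mul, hs, e2, hj, Finset.sum_apply, Pi.smul_apply, smul_eq_mul]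
    rfl
  choose b b1 b2 using fun l => WLift_lift (chq p n)
    (y := fun k (x : Fin r × G) => F (act x.2 (m k)) x.1) (by simp only [hF]; exact h1)
    (fun x => Bb l x.1 x.2) fun k => by simpa only [hF, Fintype.sum_prod_type] using hB (m k) l
  refine ⟨fun l i g => b l (i, g), F, fun l i g => b1 l _, hF, fun u l => ?_⟩
  obtain ⟨a, v, e1, -⟩ := hco u
  have e2 : ∀ x : ℤ[X] ⧸ idl p (n + 1), (X - 1 : ℤ[X]) ^ (n + 1) • x = 0 := fun x => by
    rw [WLift_smul, map_pow]
    exact mul_eq_zero_of_left (chq p n).nil x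
  rw [← Fintype.sum_prod_type (fun x : Fin r × G => b l x * F (act x.2 u) x.1), e1]
  simp only [map_add, map_sum, hc, map_smul, Pi.add_apply, Finset.sum_apply, Pi.smul_apply, e2,
    add_zero, Finset.mul_sum, mul_smul_comm]
  rw [Finset.sum_comm]
  simp only [← Finset.smul_sum, b2, smul_zero, Finset.sum_const_zero]

/-- A matrix of functions on `G` that kills `M / π M` lifts to a matrix that kills `M / π ^ (n+1) M`. -/
theorem exists_lift (n r : ℕ) {G M : Type} [Fintype G] [AddCommGroup M] (σ : M →+ M)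
    (act : G → M →+ M) (hc : ∀ g u, act g (σ u) = σ (act g u))
    (hN : ∀ u, ∑ i ∈ Finset.range p, σ^[i] u = 0) (hi : ∀ u, σ u = u → u = 0)
    (j : M →+ (Fin r → ZMod p)) (hj : ∀ u, j (σ u) = j u)
    (hk : ∀ u, (∀ g, j (act g u) = 0) → ∃ v, u = σ v - v)
    (Bb : Fin r → Fin r → G → ZMod p) (hB : ∀ u l, ∑ i, ∑ g, Bb l i g * j (act g u) i = 0) :
    ∃ b : Fin r → Fin r → G → ℤ[X] ⧸ idl p (n + 1),
      (∀ l i g, (chq p n).red (b l i g) = Bb l i g) ∧
      ∀ (u : M) (x : G → ZMod p), (∀ g, act g u = σ^[(x g).val] u) →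
        ∃ ct : Fin r → ℤ[X] ⧸ idl p (n + 1), (∀ i, (chq p n).red (ct i) = j u i) ∧
          ∀ l, ∑ i, (∑ g, (chq p n).zp (x g) * b l i g) * ct i = 0 := by
  let σ' : Module.End ℤ M := σ.toIntLinearMap
  let _ : Module ℤ[X] M := Module.compHom M (aeval σ').toRingHom
  have e : ∀ (a : ℤ[X]) (u : M), a • u = aeval σ' a u := fun _ _ => rfl
  have e1 : ∀ (i : ℕ) (u : M), (X ^ i : ℤ[X]) • u = σ^[i] u := fun i u => by
    rw [e, map_pow, aeval_X, Module.End.pow_apply]
    rfl
  have e2 : ∀ u : M, (X - 1 : ℤ[X]) • u = σ u - u := fun u => by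
    rw [sub_smul, one_smul, e, aeval_X]
    rfl
  have e3 : ∀ (a : ℤ) (i : ℕ) (u : M), (monomial i a : ℤ[X]) • u = a • σ^[i] u := fun a i u => by
    rw [← C_mul_X_pow_eq_monomial, mul_smul, e1, e, aeval_C]
    rfl
  obtain ⟨b, F, h1, h2, h3⟩ := WLift_main n r act (fun g a u => by
      induction a using Polynomial.induction_on' with
      | add a b ha hb => rw [add_smul, add_smul, map_add, ha, hb]
      | monomial i a =>
        rw [e3, e3, map_zsmul, (Function.Commute.iterate_right (f := act g) (hc g) i) u])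
    (fun u => by simp only [Finset.sum_smul, e1, hN]) (fun u h => hi u (sub_eq_zero.1 (e2 u ▸ h)))
    j (fun a u => by
      induction a using Polynomial.induction_on' with
      | add a b ha hb => rw [add_smul, map_add, ha, hb, map_add, add_smul]
      | monomial i a =>
        have : j (σ^[i] u) = j u := by
          induction i with
          | zero => rfl
          | succ i ih => rw [Function.iterate_succ_apply', hj, ih]
        rw [e3, map_zsmul, this, ← Int.cast_smul_eq_zsmul (ZMod p)]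
        simp [ev])
    (by simpa only [e2] using hk) Bb hB
  refine ⟨b, h1, fun u x hx => ⟨F u, h2 u, fun l => (Finset.sum_congr rfl fun i _ => ?_).trans
    (h3 u l)⟩⟩
  rw [Finset.sum_mul]
  refine Finset.sum_congr rfl fun g _ => ?_
  rw [hx, ← e1, map_smul, Pi.smul_apply, WLift_smul, map_pow, mul_comm _ (b l i g), mul_assoc]
  exact congrArg (fun t => b l i g * (t ^ (x g).val * F u i))
    ((map_add (Ideal.Quotient.mk _) 1 (X - 1)).symm.trans (congrArg _ (add_sub_cancel _ _)))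

end Pool.Agent.ASW
end

-- merged part: Pool.Agent.Work.MP_60d5ce_nt.AS.WMain
section
/-!
# The abstract counting theorems  (AS, abstract part)

Plan.  `few_good`: `K = 2 s + 1`, `D = m ^ 3`, `a = 4 K + 5`, `η = p ^ (-D)`, `δ = min 1 (ε / (K * p ^ (r + (2 s + 3) r ^ 2)))`; `exists_box`, `exists_lift` with
`n = 2 s + 2`, `layers` (an eigenvector gives `ct` with `Bm e * ct = 0`).  `few_marked`: `Z w` lies in a coset of the common kernel of the
forms `T w v`, which has `card E / card V` elements (`T w` flipped is onto the dual of `V`; or `Subspace.finrank_add_finrank_dualCoannihilator_eq`).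
-/

set_option linter.unusedSectionVars false

namespace Pool.Agent.ASW

variable {p : ℕ} [Fact p.Prime]

theorem WMain_box {C K m : ℕ} (h3 : 3 ≤ m) (hC : C ≤ m) {t f : ℕ} (ht : t ≤ (C * m) ^ 2)
    (hf : m ^ (4 * K + 5) ≤ f + C * m) : m ^ 3 + t * (m ^ 3 + 1) ^ K ≤ f := by
  have h1 : 1 ≤ m := by omega
  have hCm : C * m ≤ m ^ 2 := by rw [sq]; exact Nat.mul_le_mul_right _ hC
  have h4 : m ^ 3 + 1 ≤ m ^ 4 := by
    have : 1 ≤ m ^ 3 := Nat.one_le_pow _ _ h1
    calc m ^ 3 + 1 ≤ m ^ 3 * 3 := by omega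
      _ ≤ m ^ 3 * m := Nat.mul_le_mul_left _ h3
      _ = m ^ 4 := by ring
  have h5 : t * (m ^ 3 + 1) ^ K ≤ m ^ (4 * K + 4) := by
    calc t * (m ^ 3 + 1) ^ K ≤ (m ^ 2) ^ 2 * (m ^ 4) ^ K :=
          Nat.mul_le_mul (ht.trans (Nat.pow_le_pow_left hCm _)) (Nat.pow_le_pow_left h4 _)
      _ = m ^ (4 * K + 4) := by ring
  have h6 : m ^ 3 ≤ m ^ (4 * K + 4) := Nat.pow_le_pow_right h1 (by omega)
  have h7 : m ^ 2 ≤ m ^ (4 * K + 4) := Nat.pow_le_pow_right h1 (by omega)
  have h8 : m ^ (4 * K + 4) * 3 ≤ m ^ (4 * K + 5) := by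
    rw [pow_succ m (4 * K + 4)]
    exact Nat.mul_le_mul_left _ h3
  omega

theorem WMain_exp {C K L c m r : ℕ} (h1 : 1 ≤ m) (hr : r ≤ C * m)
    (hm : K + (L + K + (C + c * C ^ 2)) * 2 ^ K ≤ m) :
    K + (L + K + (r + c * r ^ 2)) * 2 ^ K ≤ m ^ 3 := by
  have h2 : 1 ≤ m ^ 2 := Nat.one_le_pow _ _ h1
  have h3 : m ≤ m ^ 2 := by rw [sq]; exact Nat.le_mul_of_pos_left _ h1
  have h4 : r ≤ C * m ^ 2 := hr.trans (Nat.mul_le_mul_left _ h3)
  have h5 : c * r ^ 2 ≤ c * C ^ 2 * m ^ 2 := by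
    rw [mul_assoc, ← mul_pow]
    exact Nat.mul_le_mul_left _ (Nat.pow_le_pow_left hr _)
  have h6 : K ≤ K * m ^ 2 := Nat.le_mul_of_pos_right _ h2
  have h7 : L ≤ L * m ^ 2 := Nat.le_mul_of_pos_right _ h2
  have h8 : L + K + (r + c * r ^ 2) ≤ (L + K + (C + c * C ^ 2)) * m ^ 2 := by
    rw [add_mul, add_mul, add_mul]
    omega
  calc K + (L + K + (r + c * r ^ 2)) * 2 ^ K
      ≤ K * m ^ 2 + (L + K + (C + c * C ^ 2)) * m ^ 2 * 2 ^ K :=
        Nat.add_le_add h6 (Nat.mul_le_mul_right _ h8)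
    _ = (K + (L + K + (C + c * C ^ 2)) * 2 ^ K) * m ^ 2 := by ring
    _ ≤ m * m ^ 2 := Nat.mul_le_mul_right _ hm
    _ = m ^ 3 := by ring

/-- Few characters `e` carry an eigenvector with a good class. -/
theorem few_good (s C : ℕ) {ε : ℝ} (hε : 0 < ε) : ∃ a m0 : ℕ, 1 ≤ a ∧ ∀ m ≥ m0, ∀ (r : ℕ)
    (E G T M : Type) [AddCommGroup E] [Module (ZMod p) E] [Fintype E] [Fintype G] [Fintype T]
    [AddCommGroup M] (pr : G → E →ₗ[ZMod p] ZMod p) (Eb : ℕ → Submodule (ZMod p) E)
    (σ : M →+ M) (act : G → M →+ M) (j : M →+ (Fin r → ZMod p))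
    (Bb : Fin r → Fin r → G → ZMod p) (dd : T → G → ZMod p) (Good : Set (Fin r → ZMod p))
    (Bad : ℕ → (Fin r → ZMod p) → Submodule (ZMod p) (Fin r → ZMod p)),
    r ≤ C * m → Fintype.card T ≤ (C * m) ^ 2 →
    (∀ i < 2 * s + 1, m ^ a ≤ Module.finrank (ZMod p) (Eb i) + C * m) →
    (∀ g u, act g (σ u) = σ (act g u)) → (∀ u, ∑ i ∈ Finset.range p, σ^[i] u = 0) →
    (∀ u, σ u = u → u = 0) → (∀ u, j (σ u) = j u) →
    (∀ u, (∀ g, j (act g u) = 0) → ∃ v, u = σ v - v) →
    (∀ u l, ∑ i, ∑ g, Bb l i g * j (act g u) i = 0) → (∀ t, ∑ g, dd t g = 0) →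
    (0 : Fin r → ZMod p) ∉ Good → (∀ n, ∀ x ∈ Good, Module.finrank (ZMod p) (Bad n x) ≤ 1) →
    (∀ n, ∀ x ∈ Good, Bad n x ⊓ Bad (n + 1) x = ⊥) →
    (∀ n, 1 ≤ n → n ≤ 2 * s + 1 → ∀ h : Fin n → E, (∀ i : Fin n, h i ∈ Eb i) → (∀ i, h i ≠ 0) →
      (∀ t (I : Finset (Fin n)), ∑ g, dd t g * ∏ i ∈ I, pr g (h i) = 0) →
      ∀ x ∈ Good, ∀ x' ∉ Bad n x, ∃ hJ, top pr Bb x' x h hJ ≠ 0) →
    ({e | ∃ u, (∀ g, act g u = σ^[(pr g e).val] u) ∧ j u ∈ Good}.ncard : ℝ) ≤
      ((p : ℝ) / p ^ s + ε) * Fintype.card E := by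
  have hp : (1 : ℝ) < p := by exact_mod_cast (Fact.out : p.Prime).one_lt
  have hp0 : (0 : ℝ) < p := by linarith
  obtain ⟨L, hL⟩ := pow_unbounded_of_one_lt ε⁻¹ hp
  have hK : ((2 * s + 1 : ℕ) : ℝ) ≤ (p : ℝ) ^ (2 * s + 1) := by
    exact_mod_cast (Nat.lt_pow_self (Fact.out : p.Prime).one_lt).le
  refine ⟨4 * (2 * s + 1) + 5, 3 + C + ((2 * s + 1) + (L + (2 * s + 1) + (C + (2 * s + 3) * C ^ 2)) *
    2 ^ (2 * s + 1)), by omega, ?_⟩
  intro m hm r E G T M _ _ _ _ _ _ pr Eb σ act j Bb dd Good Bad hr hT hE hc hN hi hj hk hB h0 hG hB1 hB2 hW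
  have hm3 : 3 ≤ m := by omega
  obtain ⟨U, hU, hU'⟩ := exists_box pr dd h0 (2 * s + 1) (m ^ 3) Eb fun i hi =>
    WMain_box hm3 (by omega) hT (hE i hi)
  obtain ⟨b, hb, hb'⟩ := exists_lift (2 * s + 2) r σ act hc hN hi j hj hk Bb hB
  have hexp := WMain_exp (K := 2 * s + 1) (L := L) (c := 2 * s + 3) (by omega : 1 ≤ m) hr (by omega)
  set N := r + (2 * s + 3) * r ^ 2 with hNdef
  have hbb : (fun l i g => (chq p (2 * s + 2)).red (b l i g)) = Bb := by
    funext l i g
    exact hb l i g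
  have key := Ch.layers s (chq p (2 * s + 2)) pr b (fun i => (U i).toAddSubgroup)
    (η := ((p : ℝ) ^ m ^ 3)⁻¹) (δ := ((p : ℝ) ^ (L + (2 * s + 1) + N))⁻¹) (by positivity)
    (by positivity) (inv_le_one_of_one_le₀ (one_le_pow₀ hp.le))
    (fun i hi => by
      have h1 : Nat.card (U i).toAddSubgroup = p ^ m ^ 3 := (hU i hi).2
      rw [h1, Nat.cast_pow, inv_mul_cancel₀ (by positivity)])
    (by
      rw [inv_pow, ← pow_mul, ← div_eq_mul_inv, div_le_iff₀ (by positivity),
        le_inv_mul_iff₀ (by positivity)]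
      push_cast at hK
      calc (p : ℝ) ^ ((L + (2 * s + 1) + N) * 2 ^ (2 * s + 1)) * (2 * s + 1)
          ≤ (p : ℝ) ^ ((L + (2 * s + 1) + N) * 2 ^ (2 * s + 1)) * p ^ (2 * s + 1) := by gcongr
        _ = (p : ℝ) ^ (2 * s + 1 + (L + (2 * s + 1) + N) * 2 ^ (2 * s + 1)) := by
          rw [← pow_add, add_comm]
        _ ≤ (p : ℝ) ^ m ^ 3 := pow_le_pow_right₀ hp.le hexp)
    Good hG Bad hB1 hB2
    (fun n h1 h2 a ha a' ha' h hh hh0 => by
      rw [hbb]
      exact hW n h1 h2 h (fun i => (hU i (lt_of_lt_of_le i.2 h2)).1 (hh i)) hh0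
        (hU' n h2 h hh) a ha a' ha')
  have hsub : {e | ∃ u, (∀ g, act g u = σ^[(pr g e).val] u) ∧ j u ∈ Good} ⊆
      {e | ∃ a ∈ Good, a ∈ (chq p (2 * s + 2)).S (2 * s + 3) ((chq p (2 * s + 2)).Bm pr b e)} := by
    rintro e ⟨u, hu, hu'⟩
    obtain ⟨ct, h1, h2⟩ := hb' u (fun g => pr g e) hu
    exact ⟨j u, hu', ct, h1, fun l => by
      have h3 : ∑ i, (chq p (2 * s + 2)).Bm pr b e l i * ct i = 0 := h2 l
      rw [h3]
      exact dvd_zero _⟩
  have hle : (2 * s + 1 : ℝ) * p ^ N * ((p : ℝ) ^ (L + (2 * s + 1) + N))⁻¹ ≤ ε := by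
    push_cast at hK
    rw [← div_eq_mul_inv, div_le_iff₀ (by positivity), pow_add _ _ N, pow_add _ L]
    have h1 : 1 ≤ ε * p ^ L := by
      have := mul_le_mul_of_nonneg_left hL.le hε.le
      rwa [mul_inv_cancel₀ hε.ne'] at this
    calc (2 * s + 1 : ℝ) * p ^ N ≤ 1 * p ^ (2 * s + 1) * p ^ N := by rw [one_mul]; gcongr
      _ ≤ ε * p ^ L * p ^ (2 * s + 1) * p ^ N := by gcongr
      _ = _ := by ring
  refine le_trans ?_ (key.trans ?_)
  · exact_mod_cast Set.ncard_le_ncard hsub (Set.toFinite _)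
  · gcongr

/-- Tightness: survivors with the same mark differ by an element killed by independent forms. -/
theorem few_marked {E V C : Type} [AddCommGroup E] [Module (ZMod p) E] [Fintype E]
    [AddCommGroup V] [Module (ZMod p) V] [Finite V] [Finite C] (Z : C → Set E)
    (T : C → V →ₗ[ZMod p] E →ₗ[ZMod p] ZMod p) (hT : ∀ w, Function.Injective (T w))
    (hZ : ∀ w, ∀ e ∈ Z w, ∀ e' ∈ Z w, ∀ v, T w v (e - e') = 0) :
    ({e | ∃ w, e ∈ Z w}.ncard : ℝ) * Nat.card V ≤ Nat.card C * Fintype.card E := by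
  classical
  have : Fintype C := Fintype.ofFinite C
  have h1 : ∀ w, (Z w).ncard * Nat.card V ≤ Fintype.card E := by
    intro w
    rcases (Z w).eq_empty_or_nonempty with h | ⟨e0, he0⟩
    · simp [h]
    have hs : Function.Surjective (T w).flip := LinearMap.flip_surjective_iff₁.2 (hT w)
    have h2 := LinearMap.finrank_range_add_finrank_ker (T w).flip
    rw [LinearMap.range_eq_top.2 hs, finrank_top] at h2
    have h3 : Module.finrank (ZMod p) (V →ₗ[ZMod p] ZMod p) = Module.finrank (ZMod p) V :=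
      Subspace.dual_finrank_eq
    have h4 : (Z w).ncard ≤ Nat.card (LinearMap.ker (T w).flip) := by
      rw [← Nat.card_coe_set_eq]
      refine Nat.card_le_card_of_injective
        (fun e : Z w => (⟨e.1 - e0, LinearMap.mem_ker.2 (LinearMap.ext fun v =>
          hZ w e.1 e.2 e0 he0 v)⟩ : LinearMap.ker (T w).flip)) fun e e' h => ?_
      exact Subtype.ext (sub_left_injective (congrArg Subtype.val h))
    rw [← Nat.card_eq_fintype_card, Module.natCard_eq_pow_finrank (K := ZMod p) (V := E), ← h2, h3,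
      pow_add, ← Module.natCard_eq_pow_finrank, ← Module.natCard_eq_pow_finrank, mul_comm]
    exact Nat.mul_le_mul_left _ h4
  have h5 : {e | ∃ w, e ∈ Z w}.ncard ≤ ∑ w, (Z w).ncard := by
    have : {e | ∃ w, e ∈ Z w} = ⋃ w, Z w := by
      ext e
      simp
    rw [this]
    exact Set.ncard_iUnion_le_of_fintype Z
  have h6 : {e | ∃ w, e ∈ Z w}.ncard * Nat.card V ≤ Nat.card C * Fintype.card E := by
    calc _ ≤ (∑ w, (Z w).ncard) * Nat.card V := Nat.mul_le_mul_right _ h5
      _ = ∑ w, (Z w).ncard * Nat.card V := Finset.sum_mul _ _ _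
      _ ≤ ∑ _w : C, Fintype.card E := Finset.sum_le_sum fun w _ => h1 w
      _ = _ := by simp
  exact_mod_cast h6

end Pool.Agent.ASW
end
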