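import Mathlib
import Pool.Agent.Work.MP_60d5ce_nt.Qt.EllB

-- merged part: Pool.Agent.Work.MP_60d5ce_nt.AS.PB
section
/-!
# Subfields with a `p`-basis `t`: the derivation `d/dt` and the Cartier operator

`PB p S t`: every element of the subfield `S` is `∑_{i<p} c_i ^ p t ^ i` with `c_i ∈ S`, and `t` is not a
`p`-th power in `S`.  `der p S t` and `car p S t` are additive maps `M → M` (junk outside `S`) with
`der (∑ c_i ^ p t ^ i) = ∑ i c_i ^ p t ^ (i - 1)` and `car (∑ c_i ^ p t ^ i) = c_(p-1)`.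

PLAN.  Uniqueness of the `c_i`: `X ^ p - t ^ p` is irreducible over the subfield `S ^ p`
(`X_pow_sub_C_irreducible_of_prime`), so `1, …, t ^ (p-1)` are independent over `S ^ p`.
`exists_dc`: define the maps on `S`, compose with an additive retraction `M → S` (complement of the
`ZMod p`-subspace `S`).  `der_mul`: reduce to `c ^ p t ^ i * d ^ p t ^ j`; first show
`der (c ^ p t ^ n) = n c ^ p t ^ (n - 1)` for all `n` (`t ^ p` is a `p`-th power).
`car_dlog`: `g ↦ car (g ^ (p-1) der g) - der g` is additive, since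
`(a+b)^(p-1) der (a+b) - a^(p-1) der a - b^(p-1) der b = der (∑_{0<i<p} (choose p i / p) a^i b^(p-i))`,
and vanishes on `c ^ p t ^ i`.  `PB.change`: if `der π ≠ 0` then `π ∉ S ^ p`, `S ^ p (π)` has degree `p`
over `S ^ p`, as has `S`.  `car_change`: expand `f` in powers of `π`; `π ^ i der π` is a derivative
for `i < p - 1`, and use `car_dlog` for `i = p - 1`.
-/

namespace Pool.Agent.ASel

open Finset Polynomial

noncomputable section

variable (p : ℕ) {M M' : Type} [Field M] [Field M']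

/-- `t` is a `p`-basis of the subfield `S` -/
def PB (S : Subfield M) (t : M) : Prop :=
  t ∈ S ∧ (∀ y ∈ S, y ^ p ≠ t) ∧
    ∀ x ∈ S, ∃ c : ℕ → M, (∀ i, c i ∈ S) ∧ x = ∑ i ∈ range p, c i ^ p * t ^ i

/-- `S` has the `p`-basis `t` and contains the simple roots of the polynomials over `S` -/
def SC (S : Subfield M) (t : M) : Prop :=
  PB p S t ∧ ∀ (x : M) (f : M[X]), (∀ i, f.coeff i ∈ S) → f.eval x = 0 →
    f.derivative.eval x ≠ 0 → x ∈ S

variable [hp : Fact p.Prime] [CharP M p] [CharP M' p]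

theorem PB_uniq {S : Subfield M} {t : M} (h : PB p S t) {c : ℕ → M} (hc : ∀ i, c i ∈ S)
    (h0 : ∑ i ∈ range p, c i ^ p * t ^ i = 0) : ∀ i < p, c i = 0 := by
  have hi : Irreducible (X ^ p - C (⟨t, h.1⟩ : S)) :=
    X_pow_sub_C_irreducible_of_prime hp.out fun b e => h.2.1 b b.2 (congrArg Subtype.val e)
  let φ : S[X] →+* M := eval₂RingHom ((frobenius M p).comp S.subtype) t
  let g : S[X] := ∑ i ∈ range p, monomial i ⟨c i, hc i⟩
  have e1 : φ (X ^ p - C (⟨t, h.1⟩ : S)) = 0 := by simp [φ, frobenius_def]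
  have e2 : φ g = 0 := by simpa [φ, g, frobenius_def] using h0
  have g0 : g = 0 := by
    rcases EuclideanDomain.dvd_or_coprime _ g hi with hd | ⟨a, b, hab⟩
    · refine eq_zero_of_dvd_of_degree_lt hd ?_
      rw [degree_X_pow_sub_C hp.out.pos]
      refine (degree_sum_le _ _).trans_lt ((Finset.sup_lt_iff (WithBot.bot_lt_coe _)).2 fun i hi => ?_)
      exact (degree_monomial_le _ _).trans_lt (Nat.cast_lt.2 (mem_range.1 hi))
    · have := congrArg φ hab
      rw [map_add, map_mul, map_mul, e1, e2, mul_zero, mul_zero, add_zero, map_one] at this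
      exact absurd this zero_ne_one
  intro i hi
  have := congrArg (fun f : S[X] => (f.coeff i : M)) g0
  simpa [g, coeff_monomial, hi] using this

theorem PB_cast (i : ℕ) (x t : M) : i * x ^ p * t ^ (i - 1) * t = (i * x) ^ p * t ^ i := by
  rw [mul_pow, ← frobenius_def p (i : M), map_natCast]
  rcases i with _ | i
  · simp
  · rw [Nat.add_sub_cancel, pow_succ, mul_assoc]

theorem exists_dc (S : Subfield M) (t : M) : ∃ DC : (M →+ M) × (M →+ M), PB p S t →
    ∀ c : ℕ → M, (∀ i, c i ∈ S) →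
      DC.1 (∑ i ∈ range p, c i ^ p * t ^ i) = ∑ i ∈ range p, i * c i ^ p * t ^ (i - 1) ∧
      DC.2 (∑ i ∈ range p, c i ^ p * t ^ i) = c (p - 1) := by
  by_cases h : PB p S t
  swap
  · exact ⟨0, fun h' => absurd h' h⟩
  let Φ : (ℕ → S) →+ S := AddMonoidHom.mk' (fun c => ∑ i ∈ range p, c i ^ p * ⟨t, h.1⟩ ^ i)
    fun a b => by simp only [Pi.add_apply, add_pow_char, add_mul, sum_add_distrib]
  let D : (ℕ → S) →+ M × M := AddMonoidHom.mk'
    (fun c => (∑ i ∈ range p, i * (c i : M) ^ p * t ^ (i - 1), (c (p - 1) : M)))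
    fun a b => by
      simp only [Pi.add_apply, Subfield.coe_add, add_pow_char, add_mul, mul_add, sum_add_distrib,
        Prod.mk_add_mk]
  have hΦ : ∀ c, (Φ c : M) = ∑ i ∈ range p, (c i : M) ^ p * t ^ i := fun c => by simp [Φ]
  have sj : Function.Surjective Φ := fun x => by
    obtain ⟨c, hc, e⟩ := h.2.2 x x.2
    exact ⟨fun i => ⟨c i, hc i⟩, Subtype.ext ((hΦ _).trans e.symm)⟩
  have hk : Φ.ker ≤ D.ker := fun c hc => by
    have h0 := PB_uniq p h (fun i => (c i).2) ((hΦ c).symm.trans (congrArg Subtype.val hc))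
    refine Prod.ext (show ∑ i ∈ range p, i * (c i : M) ^ p * t ^ (i - 1) = 0 from
      sum_eq_zero fun i hi => ?_) (h0 _ (Nat.sub_lt hp.out.pos one_pos))
    rw [h0 i (mem_range.1 hi), zero_pow hp.out.ne_zero, mul_zero, zero_mul]
  obtain ⟨r, hr⟩ := (Algebra.linearMap S M).exists_leftInverse_of_injective
    (LinearMap.ker_eq_bot.2 Subtype.val_injective)
  let L : M →+ M × M := (Φ.liftOfSurjective sj ⟨D, hk⟩).comp r.toAddMonoidHom
  refine ⟨((AddMonoidHom.fst M M).comp L, (AddMonoidHom.snd M M).comp L), fun _ c hc => ?_⟩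
  have e : L (∑ i ∈ range p, c i ^ p * t ^ i) = D fun i => ⟨c i, hc i⟩ := by
    rw [← Φ.liftOfRightInverse_comp_apply _ (Function.rightInverse_surjInv sj) ⟨D, hk⟩]
    refine congrArg (Φ.liftOfSurjective sj ⟨D, hk⟩) ?_
    exact (congrArg r (hΦ fun i => ⟨c i, hc i⟩).symm).trans (DFunLike.congr_fun hr _)
  exact ⟨congrArg Prod.fst e, congrArg Prod.snd e⟩


/-- the derivation `d/dt` of `S` -/
def der (S : Subfield M) (t : M) : M →+ M := (exists_dc p S t).choose.1

/-- the Cartier operator of `S` on forms `f dt` -/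
def car (S : Subfield M) (t : M) : M →+ M := (exists_dc p S t).choose.2

variable {p} {S : Subfield M} {t : M}

namespace PB

variable (h : PB p S t)
include h

theorem uniq {c : ℕ → M} (hc : ∀ i, c i ∈ S) (h0 : ∑ i ∈ range p, c i ^ p * t ^ i = 0) :
    ∀ i < p, c i = 0 :=
  PB_uniq p h hc h0


theorem PB_spec {c : ℕ → M} (hc : ∀ i, c i ∈ S) :
    der p S t (∑ i ∈ range p, c i ^ p * t ^ i) = ∑ i ∈ range p, i * c i ^ p * t ^ (i - 1) ∧
      car p S t (∑ i ∈ range p, c i ^ p * t ^ i) = c (p - 1) :=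
  (exists_dc p S t).choose_spec h c hc

theorem PB_mono {c : M} (hc : c ∈ S) (n : ℕ) :
    der p S t (c ^ p * t ^ n) = n * c ^ p * t ^ (n - 1) := by
  have hr := mem_range.2 (Nat.mod_lt n hp.out.pos)
  have e := (h.PB_spec (c := fun i => if i = n % p then c * t ^ (n / p) else 0) fun i => by
    split_ifs
    exacts [mul_mem hc (pow_mem h.1 _), zero_mem _]).1
  simp only [ite_pow, zero_pow hp.out.ne_zero, ite_mul, mul_ite, zero_mul, mul_zero, sum_ite_eq',
    if_pos hr] at e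
  rw [mul_pow, ← pow_mul, mul_assoc, ← pow_add, Nat.div_add_mod'] at e
  rw [e, ← CharP.cast_eq_mod M p n, ← mul_assoc, mul_assoc _ _ (t ^ _), ← pow_add]
  rcases Nat.eq_zero_or_pos (n % p) with h0 | h0
  · rw [CharP.cast_eq_mod M p n, h0, Nat.cast_zero, zero_mul, zero_mul, zero_mul]
  · rw [← Nat.add_sub_assoc h0, Nat.div_add_mod']

theorem der_mem {x : M} (hx : x ∈ S) : der p S t x ∈ S := by
  obtain ⟨c, hc, rfl⟩ := h.2.2 x hx
  rw [(h.PB_spec hc).1]
  exact sum_mem fun i _ => mul_mem (mul_mem (natCast_mem _ _) (pow_mem (hc i) _)) (pow_mem h.1 _)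


theorem car_mem {x : M} (hx : x ∈ S) : car p S t x ∈ S := by
  obtain ⟨c, hc, rfl⟩ := h.2.2 x hx
  rw [(h.PB_spec hc).2]
  exact hc _


theorem der_t : der p S t t = 1 := by
  simpa using h.PB_mono (one_mem S) 1


theorem der_mul {x y : M} (hx : x ∈ S) (hy : y ∈ S) :
    der p S t (x * y) = x * der p S t y + y * der p S t x := by
  obtain ⟨c, hc, rfl⟩ := h.2.2 x hx
  obtain ⟨d, hd, rfl⟩ := h.2.2 y hy
  rw [(h.PB_spec hc).1, (h.PB_spec hd).1, mul_comm (∑ i ∈ range p, d i ^ p * t ^ i), sum_mul_sum,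
    sum_mul_sum, sum_mul_sum, ← sum_add_distrib, map_sum]
  refine sum_congr rfl fun i _ => ?_
  rw [← sum_add_distrib, map_sum]
  refine sum_congr rfl fun j _ => ?_
  rw [mul_mul_mul_comm, ← mul_pow, ← pow_add, h.PB_mono (mul_mem (hc i) (hd j)), mul_pow]
  rcases i with _ | i
  · simp only [zero_add, Nat.cast_zero, pow_zero]
    ring
  rcases j with _ | j
  · simp only [add_zero, Nat.cast_zero, pow_zero]
    ring
  rw [Nat.add_sub_cancel, Nat.add_sub_cancel, ← add_assoc, Nat.add_sub_cancel]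
  push_cast
  ring


theorem der_frob {x : M} (hx : x ∈ S) : der p S t (x ^ p) = 0 := by
  simpa using h.PB_mono hx 0


theorem der_one : der p S t 1 = 0 := by
  simpa using h.der_frob (one_mem S)


theorem der_pow {x : M} (hx : x ∈ S) (n : ℕ) :
    der p S t (x ^ n) = n * x ^ (n - 1) * der p S t x := by
  induction n with
  | zero => simp [h.der_one]
  | succ n ih =>
    rw [pow_succ, h.der_mul (pow_mem hx n) hx, ih, Nat.add_sub_cancel]
    rcases n with _ | n
    · simp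
    · rw [Nat.add_sub_cancel]
      push_cast
      ring


theorem der_div {x y : M} (hx : x ∈ S) (hy : y ∈ S) :
    der p S t (x / y) = (y * der p S t x - x * der p S t y) / y ^ 2 := by
  by_cases h0 : y = 0
  · simp [h0]
  have e := h.der_mul (div_mem hx hy) hy
  rw [div_mul_cancel₀ _ h0] at e
  rw [e]
  field_simp
  ring


theorem der_eq_zero {x : M} (hx : x ∈ S) (h0 : der p S t x = 0) : ∃ y ∈ S, x = y ^ p := by
  obtain ⟨c, hc, rfl⟩ := h.2.2 x hx
  rw [(h.PB_spec hc).1] at h0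
  have h1 := h.uniq (c := fun i => i * c i) (fun i => mul_mem (natCast_mem _ _) (hc i)) (by
    simp only [← PB_cast]
    rw [← sum_mul, h0, zero_mul])
  refine ⟨c 0, hc 0, ?_⟩
  rw [sum_eq_single_of_mem 0 (mem_range.2 hp.out.pos) fun i hi h2 => ?_, pow_zero, mul_one]
  have h3 : (i : M) ≠ 0 := fun e =>
    h2 (Nat.eq_zero_of_dvd_of_lt ((CharP.cast_eq_zero_iff M p i).1 e) (mem_range.1 hi))
  rw [(mul_eq_zero.1 (h1 i (mem_range.1 hi))).resolve_left h3, zero_pow hp.out.ne_zero, zero_mul]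


/-- the derivation as a `Derivation` of the field `S` -/
theorem exists_derivation : ∃ D : Derivation ℤ S S, ∀ x : S, (D x : M) = der p S t x :=
  ⟨Derivation.mk' (AddMonoidHom.mk' (fun x : S => (⟨der p S t x, h.der_mem x.2⟩ : S))
    fun a b => Subtype.ext (map_add (der p S t) (a : M) b)).toIntLinearMap
    fun a b => Subtype.ext (h.der_mul a.2 b.2), fun _ => rfl⟩


theorem der_eval {f : M[X]} (hf : ∀ i, f.coeff i ∈ S ∧ der p S t (f.coeff i) = 0) {x : M}
    (hx : x ∈ S) : der p S t (f.eval x) = f.derivative.eval x * der p S t x := by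
  rw [derivative_eval, eval_eq_sum, sum_def, sum_def, map_sum, sum_mul]
  refine sum_congr rfl fun i _ => ?_
  rw [h.der_mul (hf i).1 (pow_mem hx i), (hf i).2, h.der_pow hx]
  ring


end PB

end

end Pool.Agent.ASel
end

-- merged part: Pool.Agent.Work.MP_60d5ce_nt.AS.PBc
section
/-!
# The Cartier operator; change of the `p`-basis; functoriality (plan in the header of `PB.lean`)
-/

namespace Pool.Agent.ASel

variable {p : ℕ} {M M' : Type} [Field M] [Field M'] [hp : Fact p.Prime] [CharP M p] [CharP M' p]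
  {S : Subfield M} {t : M}

namespace PB

variable (h : PB p S t)
include h

theorem PBc_spec {c : ℕ → M} (hc : ∀ i, c i ∈ S) :
    der p S t (∑ i ∈ Finset.range p, c i ^ p * t ^ i) =
        ∑ i ∈ Finset.range p, i * c i ^ p * t ^ (i - 1) ∧
      car p S t (∑ i ∈ Finset.range p, c i ^ p * t ^ i) = c (p - 1) :=
  (exists_dc p S t).choose_spec h c hc

theorem car_frob_mul {g f : M} (hg : g ∈ S) (hf : f ∈ S) :
    car p S t (g ^ p * f) = g * car p S t f := by
  obtain ⟨c, hc, rfl⟩ := h.2.2 f hf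
  rw [(h.PBc_spec hc).2, ← (h.PBc_spec (c := fun i => g * c i) fun i => S.mul_mem hg (hc i)).2,
    Finset.mul_sum]
  simp only [mul_pow, mul_assoc]

theorem PBc_car1 {c : M} (hc : c ∈ S) {i : ℕ} (hi : i < p) :
    car p S t (c ^ p * t ^ i) = if p - 1 = i then c else 0 := by
  rw [← (h.PBc_spec (c := fun j => if j = i then c else 0) fun j => by
    split_ifs
    exacts [hc, S.zero_mem]).2, Finset.sum_eq_single i (fun j _ e => by simp [e, hp.out.ne_zero])
      (fun k => (k (Finset.mem_range.2 hi)).elim), if_pos rfl]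

theorem car_der {x : M} (hx : x ∈ S) : car p S t (der p S t x) = 0 := by
  obtain ⟨c, hc, rfl⟩ := h.2.2 x hx
  rw [(h.PBc_spec hc).1, map_sum]
  refine Finset.sum_eq_zero fun i hi => ?_
  have := Finset.mem_range.1 hi
  have := hp.out.two_le
  rw [← map_natCast (frobenius M p) i, frobenius_def, ← mul_pow,
    h.PBc_car1 (S.mul_mem (natCast_mem S i) (hc i)) (by omega), if_neg (by omega)]

theorem PBc_exact {u : M} (hu : u ∈ S) {k : ℕ} (hk : k + 1 < p) :
    car p S t (u ^ k * der p S t u) = 0 := by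
  have e := h.car_der (S.pow_mem hu (k + 1))
  rw [h.der_pow hu, Nat.add_sub_cancel, mul_assoc, ← nsmul_eq_mul, map_nsmul, nsmul_eq_mul] at e
  exact (mul_eq_zero.1 e).resolve_left fun k0 =>
    Nat.not_dvd_of_pos_of_lt k.succ_pos hk ((CharP.cast_eq_zero_iff M p _).1 k0)

theorem PBc_iff {g : M} (hg : g ∈ S) (h0 : g ≠ 0) :
    car p S t (der p S t g / g) = der p S t g / g ↔
      car p S t (g ^ (p - 1) * der p S t g) = der p S t g := by
  have e : g ^ (p - 1) * der p S t g = g ^ p * (der p S t g / g) := by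
    rw [← pow_sub_one_mul hp.out.ne_zero g]
    field_simp
  rw [e, h.car_frob_mul hg (S.div_mem (h.der_mem hg) hg), eq_div_iff h0, mul_comm]

theorem PBc_mul {a b : M} (ha : a ∈ S) (hb : b ∈ S)
    (h1 : car p S t (der p S t a / a) = der p S t a / a)
    (h2 : car p S t (der p S t b / b) = der p S t b / b) :
    car p S t (der p S t (a * b) / (a * b)) = der p S t (a * b) / (a * b) ∧
      car p S t (der p S t (a / b) / (a / b)) = der p S t (a / b) / (a / b) := by
  by_cases a0 : a = 0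
  · simp [a0]
  by_cases b0 : b = 0
  · simp [b0]
  have e1 : der p S t (a * b) / (a * b) = der p S t a / a + der p S t b / b := by
    rw [h.der_mul ha hb]
    field_simp
    ring
  have e2 : der p S t (a / b) / (a / b) = der p S t a / a - der p S t b / b := by
    rw [h.der_div ha hb]
    field_simp
  rw [e1, e2, map_add, map_sub, h1, h2]
  exact ⟨rfl, rfl⟩

theorem PBc_succ {u : M} (hu : u ∈ S) (h1 : car p S t (der p S t u / u) = der p S t u / u) :
    car p S t (der p S t (u + 1) / (u + 1)) = der p S t (u + 1) / (u + 1) := by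
  by_cases u0 : u = 0
  · simp [u0, h.der_one]
  by_cases u1 : u + 1 = 0
  · simp [u1]
  rw [h.PBc_iff (S.add_mem hu S.one_mem) u1, map_add, h.der_one, add_zero, add_pow,
    Finset.sum_range_succ, add_mul, map_add, Finset.sum_mul, map_sum, Finset.sum_eq_zero,
    Nat.choose_self, one_pow, Nat.cast_one, mul_one, mul_one, (h.PBc_iff hu u0).1 h1, zero_add]
  intro k hk
  have := Finset.mem_range.1 hk
  rw [one_pow, mul_one, mul_right_comm, ← nsmul_eq_mul', map_nsmul, h.PBc_exact hu (by omega),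
    smul_zero]

theorem car_dlog {g : M} (hg : g ∈ S) : car p S t (der p S t g / g) = der p S t g / g := by
  obtain ⟨c, hc, rfl⟩ := h.2.2 g hg
  have ht : car p S t (der p S t t / t) = der p S t t / t := by
    by_cases t0 : t = 0
    · simp [t0]
    have e := h.PBc_car1 S.one_mem (Nat.sub_lt hp.out.pos one_pos)
    rw [one_pow, one_mul, if_pos rfl] at e
    rw [h.PBc_iff h.1 t0, h.der_t, mul_one, e]
  refine (Finset.sum_induction _ (fun x => x ∈ S ∧ car p S t (der p S t x / x) = der p S t x / x)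
    (fun a b ha hb => ⟨S.add_mem ha.1 hb.1, ?_⟩) ⟨S.zero_mem, by simp⟩ fun i _ => ?_).2
  · by_cases b0 : b = 0
    · simpa [b0] using ha.2
    have m := S.div_mem ha.1 hb.1
    have e := (h.PBc_mul (S.add_mem m S.one_mem) hb.1
      (h.PBc_succ m (h.PBc_mul ha.1 hb.1 ha.2 hb.2).2) hb.2).1
    rwa [add_mul, div_mul_cancel₀ _ b0, one_mul] at e
  · have m := S.pow_mem (hc i) p
    have k : ∀ n : ℕ, car p S t (der p S t (c i ^ p * t ^ n) / (c i ^ p * t ^ n)) =
        der p S t (c i ^ p * t ^ n) / (c i ^ p * t ^ n) := fun n => by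
      induction n with
      | zero => simp [h.der_frob (hc i)]
      | succ n ih =>
        rw [pow_succ t, ← mul_assoc]
        exact (h.PBc_mul (S.mul_mem m (S.pow_mem h.1 n)) h.1 ih ht).1
    exact ⟨S.mul_mem m (S.pow_mem h.1 i), k i⟩

theorem car_t_pow (n : ℕ) :
    car p S t (t ^ n) = if (n + 1) % p = 0 then t ^ ((n + 1) / p - 1) else 0 := by
  have p0 := hp.out.pos
  have e := h.PBc_car1 (S.pow_mem h.1 (n / p)) (Nat.mod_lt n p0)
  rw [← pow_mul, ← pow_add, Nat.div_add_mod'] at e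
  rw [e]
  by_cases k : p - 1 = n % p
  · have e2 : n + 1 = p * (n / p + 1) := by
      have := Nat.div_add_mod n p
      rw [mul_add]
      omega
    rw [if_pos k, e2, if_pos (Nat.mul_mod_right _ _), Nat.mul_div_cancel_left _ p0,
      Nat.add_sub_cancel]
  · have := Nat.mod_lt n p0
    rw [if_neg k, if_neg]
    rw [← Nat.mod_add_mod, Nat.mod_eq_of_lt (by omega)]
    omega

theorem change {π : M} (hπ : π ∈ S) (h0 : der p S t π ≠ 0) : PB p S π := by
  have hn : ∀ y ∈ S, y ^ p ≠ π := fun y hy e => h0 (e ▸ h.der_frob hy)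
  refine ⟨hπ, hn, fun x hx => ?_⟩
  let F := S.map (frobenius M p)
  have key : ∀ {s z : M}, s ∈ S → (z ∈ Submodule.span F (Set.range fun i : Fin p => s ^ (i : ℕ)) ↔
      ∃ c : ℕ → M, (∀ i, c i ∈ S) ∧ z = ∑ i ∈ Finset.range p, c i ^ p * s ^ i) := fun {s z} hs => by
    rw [Submodule.mem_span_range_iff_exists_fun]
    constructor
    · rintro ⟨a, rfl⟩
      choose c hc e using fun i => (a i).2
      refine ⟨fun i => if k : i < p then c ⟨i, k⟩ else 0, fun i => ?_, ?_⟩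
      · beta_reduce
        split_ifs
        exacts [hc _, S.zero_mem]
      · rw [Finset.sum_range]
        exact Finset.sum_congr rfl fun i _ => by
          simp only [dif_pos i.2]
          rw [← frobenius_def p, e i]
          rfl
    · rintro ⟨c, hc, rfl⟩
      exact ⟨fun i => ⟨c i ^ p, c i, hc i, rfl⟩, by rw [Finset.sum_range]; rfl⟩
  let a : F := ⟨π ^ p, π, hπ, rfl⟩
  have ir := X_pow_sub_C_irreducible_of_prime hp.out (a := a) (by
    rintro ⟨_, y, hy, rfl⟩ e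
    exact hn y hy (frobenius_inj M p (congrArg Subtype.val e)))
  have mp := minpoly.eq_of_irreducible_of_monic (x := π) ir (by simp [a, sub_eq_zero]; rfl)
    (Polynomial.monic_X_pow_sub_C a hp.out.ne_zero)
  have li := linearIndependent_pow (K := F) π
  rw [← mp, Polynomial.natDegree_X_pow_sub_C] at li
  have := FiniteDimensional.span_of_finite F (Set.finite_range fun i : Fin p => t ^ (i : ℕ))
  refine (key hπ).1 ((Submodule.eq_of_le_of_finrank_le (Submodule.span_le.2 ?_)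
    ((finrank_range_le_card _).trans (finrank_span_eq_card li).ge)).ge ((key h.1).2 (h.2.2 x hx)))
  rintro _ ⟨i, rfl⟩
  exact (key h.1).2 (h.2.2 _ (S.pow_mem hπ i))

theorem der_change {π : M} (hπ : π ∈ S) (h0 : der p S t π ≠ 0) {f : M} (hf : f ∈ S) :
    der p S t f = der p S π f * der p S t π := by
  have h' := h.change hπ h0
  obtain ⟨c, hc, rfl⟩ := h'.2.2 f hf
  rw [(h'.PBc_spec hc).1, map_sum, Finset.sum_mul]
  refine Finset.sum_congr rfl fun i _ => ?_
  rw [h.der_mul (S.pow_mem (hc i) p) (S.pow_mem hπ i), h.der_frob (hc i), h.der_pow hπ]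
  ring

theorem car_change {π : M} (hπ : π ∈ S) (h0 : der p S t π ≠ 0) {f : M} (hf : f ∈ S) :
    car p S t (f * der p S t π) = car p S π f * der p S t π := by
  have h' := h.change hπ h0
  obtain ⟨c, hc, rfl⟩ := h'.2.2 f hf
  have p0 := hp.out.pos
  have e : ∀ i, car p S t (c i ^ p * π ^ i * der p S t π) = c i * car p S t (π ^ i * der p S t π) :=
    fun i => by rw [mul_assoc, h.car_frob_mul (hc i) (S.mul_mem (S.pow_mem hπ i) (h.der_mem hπ))]
  rw [(h'.PBc_spec hc).2, Finset.sum_mul, map_sum, Finset.sum_eq_single (p - 1), e,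
    (h.PBc_iff hπ fun k => h0 (by rw [k, map_zero])).1 (h.car_dlog hπ)]
  · intro i hi k
    have := Finset.mem_range.1 hi
    rw [e, h.PBc_exact hπ (by omega), mul_zero]
  · exact fun k => (k (Finset.mem_range.2 (by omega))).elim

theorem der_map (f : M →+* M') {S' : Subfield M'} (hS : ∀ x ∈ S, f x ∈ S') (h' : PB p S' (f t))
    {x : M} (hx : x ∈ S) : f (der p S t x) = der p S' (f t) (f x) := by
  obtain ⟨c, hc, rfl⟩ := h.2.2 x hx
  rw [(h.PBc_spec hc).1]
  simp only [map_sum f, map_mul f, map_pow f, map_natCast f]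
  rw [(h'.PBc_spec fun i => hS _ (hc i)).1]

theorem car_map (f : M →+* M') {S' : Subfield M'} (hS : ∀ x ∈ S, f x ∈ S') (h' : PB p S' (f t))
    {x : M} (hx : x ∈ S) : f (car p S t x) = car p S' (f t) (f x) := by
  obtain ⟨c, hc, rfl⟩ := h.2.2 x hx
  rw [(h.PBc_spec hc).2]
  simp only [map_sum f, map_mul f, map_pow f]
  rw [(h'.PBc_spec fun i => hS _ (hc i)).2]

end PB

end Pool.Agent.ASel
end

-- merged part: Pool.Agent.Work.MP_60d5ce_nt.AS.EllD
section
/-!
# Ordinary curves `y ^ 2 = x ^ 3 + a x + b` in characteristic `p`: definitions, functoriality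

`slp P Q` is the slope of the line through `P`, `Q` (`0` if `P`, `Q` or `P + Q` is `O`);
`zz Q = ∑_{p t = 0} slp Q t`, `uU Q = ∑ zz t * slp Q t`, `ww = zz ^ 2 / 2 + uU`.  `Lev p S W k` is the group of the
points whose coordinates have their `p ^ k`-th power in `S`.  With `uk k = 1 + p + … + p ^ (k-1)`:
`zk k = zz ^ p ^ k / A ^ uk k`, `wk k = ww ^ p ^ k / A ^ (2 uk k)`, `bk k = A ^ uk k * dX / (2 Y)`,
`(X, Y) = (x, y) ^ p ^ k`.  `Cmp s f`: the homomorphism `s` applies the ring map `f` to coordinates.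

PLAN.  Closure of `Lev`: `x ↦ x ^ p ^ k` is a ring map (`iterateFrobenius`), so the preimage of `S` is a
subfield containing the coefficients, and the addition formulas are rational.  `exists_cmp`: as
`Point.map` in Mathlib (`map_addX`, `map_addY`, `map_slope`, `map_negY`, `map_nonsingular`).
-/

namespace Pool.Agent.ASel

open WeierstrassCurve WeierstrassCurve.Affine Polynomial Pool.Agent.Quad
open scoped Classical

noncomputable section

variable {M M' : Type} [Field M] [Field M'] {W : Affine M} {W' : Affine M'}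

/-- the second coordinate -/
def yc : W.Point → M
  | .zero => 0
  | .some _ y _ => y

/-- the slope of the line through two points -/
def slp : W.Point → W.Point → M
  | .some x y _, .some x' y' _ => W.slope x x' y y'
  | _, _ => 0

/-- the Hasse invariant -/
def hasseInv {R : Type} [CommRing R] (p : ℕ) (a b : R) : R :=
  ((X ^ 3 + C a * X + C b : R[X]) ^ ((p - 1) / 2)).coeff (p - 1)

theorem EllD_negY {T : Subfield M} (hW : W.a₁ ∈ T ∧ W.a₂ ∈ T ∧ W.a₃ ∈ T ∧ W.a₄ ∈ T) {x y : M}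
    (hx : x ∈ T) (hy : y ∈ T) : W.negY x y ∈ T :=
  sub_mem (sub_mem (neg_mem hy) (mul_mem hW.1 hx)) hW.2.2.1

theorem EllD_add {T : Subfield M} (hW : W.a₁ ∈ T ∧ W.a₂ ∈ T ∧ W.a₃ ∈ T ∧ W.a₄ ∈ T)
    {P Q : W.Point} (hP : xc P ∈ T ∧ yc P ∈ T) (hQ : xc Q ∈ T ∧ yc Q ∈ T) :
    xc (P + Q) ∈ T ∧ yc (P + Q) ∈ T := by
  rcases P with _ | ⟨x, y, h⟩
  · rwa [← Point.zero_def, zero_add]
  rcases Q with _ | ⟨x', y', h'⟩
  · rwa [← Point.zero_def, add_zero]
  by_cases e : x = x' ∧ y = W.negY x' y'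
  · rw [Point.add_of_Y_eq e.1 e.2]
    exact ⟨zero_mem T, zero_mem T⟩
  have hx : x ∈ T := hP.1
  have hy : y ∈ T := hP.2
  have hx' : x' ∈ T := hQ.1
  have hy' : y' ∈ T := hQ.2
  have hl : W.slope x x' y y' ∈ T := by
    unfold WeierstrassCurve.Affine.slope
    split_ifs
    · exact zero_mem T
    · exact div_mem (sub_mem (add_mem (add_mem (mul_mem (ofNat_mem T 3) (pow_mem hx 2))
        (mul_mem (mul_mem (ofNat_mem T 2) hW.2.1) hx)) hW.2.2.2) (mul_mem hW.1 hy))
        (sub_mem hy (EllD_negY hW hx hy))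
    · exact div_mem (sub_mem hy hy') (sub_mem hx hx')
  have hX : W.addX x x' (W.slope x x' y y') ∈ T :=
    sub_mem (sub_mem (sub_mem (add_mem (pow_mem hl 2) (mul_mem hW.1 hl)) hW.2.1) hx) hx'
  rw [Point.add_some e]
  exact ⟨hX, EllD_negY hW hX (add_mem (mul_mem hl (sub_mem hX hx)) hy)⟩

theorem EllD_neg {T : Subfield M} (hW : W.a₁ ∈ T ∧ W.a₂ ∈ T ∧ W.a₃ ∈ T ∧ W.a₄ ∈ T)
    {P : W.Point} (hP : xc P ∈ T ∧ yc P ∈ T) : xc (-P) ∈ T ∧ yc (-P) ∈ T := by
  rcases P with _ | ⟨x, y, h⟩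
  · exact hP
  · exact ⟨hP.1, EllD_negY hW hP.1 hP.2⟩

theorem EllD_hasse (p : ℕ) (f : M →+* M') (a b : M) :
    f (hasseInv p a b) = hasseInv p (f a) (f b) := by
  unfold hasseInv
  rw [← Polynomial.coeff_map]
  simp

variable (p : ℕ)

/-- sum of the slopes to the points of order `p` -/
def zz (Q : W.Point) : M := ∑ᶠ t ∈ {t : W.Point | p • t = 0}, slp Q t

/-- weighted sum of the slopes -/
def uU (Q : W.Point) : M := ∑ᶠ t ∈ {t : W.Point | p • t = 0}, zz p t * slp Q t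

/-- a function invariant under translation by points of order `p` -/
def ww (Q : W.Point) : M := zz p Q ^ 2 / 2 + uU p Q

/-- `1 + p + … + p ^ (k - 1)` -/
def uk (k : ℕ) : ℕ := ∑ i ∈ Finset.range k, p ^ i

/-- normalised `zz` at level `k` -/
def zk (A : M) (k : ℕ) (Q : W.Point) : M := zz p Q ^ p ^ k / A ^ uk p k

/-- normalised `ww` at level `k` -/
def wk (A : M) (k : ℕ) (Q : W.Point) : M := ww p Q ^ p ^ k / A ^ (2 * uk p k)

/-- ordinary short Weierstrass curves with Hasse invariant `A` -/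
structure Ord (W : Affine M) (A : M) : Prop where
  sw : SW W
  hA : A = hasseInv p W.a₄ W.a₆
  ex : ∃ t : W.Point, t ≠ 0 ∧ p • t = 0

/-- `s` applies `f` to the coordinates -/
structure Cmp (s : W.Point →+ W'.Point) (f : M →+* M') : Prop where
  map : W.map f = W'
  pt : ∀ x y h, ∃ h', s (.some x y h) = .some (f x) (f y) h'

variable [hp : Fact p.Prime] [CharP M p] [CharP M' p]

/-- normalised invariant differential at level `k` -/
def bk (S : Subfield M) (t A : M) (k : ℕ) (Q : W.Point) : M :=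
  A ^ uk p k * der p S t (xc Q ^ p ^ k) / (2 * yc Q ^ p ^ k)

/-- the rational term in the isotropy identity -/
def rho0 (S : Subfield M) (t A : M) (k : ℕ) (ϖ : M) (Q Q' : W.Point) : M :=
  (zk p A k (Q + Q') - zk p A k Q - zk p A k Q') *
      (bk p S t A k Q + bk p S t A k Q' - (zk p A k Q + zk p A k Q') * ϖ) -
    (zk p A k (Q + Q') - zk p A k Q - zk p A k Q') ^ 2 * ϖ / 2 +
    (wk p A k (Q + Q') - wk p A k Q - wk p A k Q') * ϖ

theorem lev_add {S : Subfield M} (hW : W.a₁ ∈ S ∧ W.a₂ ∈ S ∧ W.a₃ ∈ S ∧ W.a₄ ∈ S) (k : ℕ)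
    {P Q : W.Point} (hP : xc P ^ p ^ k ∈ S ∧ yc P ^ p ^ k ∈ S)
    (hQ : xc Q ^ p ^ k ∈ S ∧ yc Q ^ p ^ k ∈ S) :
    xc (P + Q) ^ p ^ k ∈ S ∧ yc (P + Q) ^ p ^ k ∈ S :=
  EllD_add (T := S.comap (iterateFrobenius M p k))
    ⟨pow_mem hW.1 _, pow_mem hW.2.1 _, pow_mem hW.2.2.1 _, pow_mem hW.2.2.2 _⟩ hP hQ

theorem lev_neg {S : Subfield M} (hW : W.a₁ ∈ S ∧ W.a₂ ∈ S ∧ W.a₃ ∈ S ∧ W.a₄ ∈ S) (k : ℕ)
    {P : W.Point} (hP : xc P ^ p ^ k ∈ S ∧ yc P ^ p ^ k ∈ S) :
    xc (-P) ^ p ^ k ∈ S ∧ yc (-P) ^ p ^ k ∈ S :=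
  EllD_neg (T := S.comap (iterateFrobenius M p k))
    ⟨pow_mem hW.1 _, pow_mem hW.2.1 _, pow_mem hW.2.2.1 _, pow_mem hW.2.2.2 _⟩ hP

theorem lev_zero (S : Subfield M) (k : ℕ) :
    xc (0 : W.Point) ^ p ^ k ∈ S ∧ yc (0 : W.Point) ^ p ^ k ∈ S :=
  ⟨pow_mem (zero_mem S) _, pow_mem (zero_mem S) _⟩

/-- points of level `k` -/
def Lev (S : Subfield M) (W : Affine M) (k : ℕ) : AddSubgroup W.Point where
  carrier := {P | W.a₁ ∈ S ∧ W.a₂ ∈ S ∧ W.a₃ ∈ S ∧ W.a₄ ∈ S →
    xc P ^ p ^ k ∈ S ∧ yc P ^ p ^ k ∈ S}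
  add_mem' hP hQ h := lev_add p h k (hP h) (hQ h)
  zero_mem' _ := lev_zero p S k
  neg_mem' hP h := lev_neg p h k (hP h)

variable {p}

theorem mem_lev (h : SW W) {S : Subfield M} (h4 : W.a₄ ∈ S) {k : ℕ} {P : W.Point} :
    P ∈ Lev p S W k ↔ xc P ^ p ^ k ∈ S ∧ yc P ^ p ^ k ∈ S :=
  ⟨fun e => e ⟨h.a1 ▸ zero_mem S, h.a2 ▸ zero_mem S, h.a3 ▸ zero_mem S, h4⟩, fun e _ => e⟩

theorem lev_mono {S : Subfield M} (k : ℕ) : Lev p S W k ≤ Lev p S W (k + 1) := by
  intro P hP h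
  rw [pow_succ, pow_mul, pow_mul]
  exact ⟨pow_mem (hP h).1 _, pow_mem (hP h).2 _⟩

omit hp [CharP M p] [CharP M' p] in
theorem exists_cmp (W : Affine M) (f : M →+* M') :
    ∃ s : W.Point →+ (W.map f).toAffine.Point, Cmp s f := by
  refine ⟨AddMonoidHom.mk' (fun P => match P with
    | .zero => 0
    | .some x y h => .some (f x) (f y) ((W.map_nonsingular f.injective x y).2 h)) ?_,
    rfl, fun x y h => ⟨_, rfl⟩⟩
  rintro (_ | ⟨x₁, y₁, h₁⟩) (_ | ⟨x₂, y₂, h₂⟩)
  any_goals rfl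
  by_cases hxy : x₁ = x₂ ∧ y₁ = W.negY x₂ y₂
  · rw [Point.add_of_Y_eq hxy.1 hxy.2]
    exact (Point.add_of_Y_eq (congrArg f hxy.1) (by rw [hxy.2, map_negY])).symm
  · have e : ¬(f x₁ = f x₂ ∧ f y₁ = (W.map f).toAffine.negY (f x₂) (f y₂)) := fun h =>
      hxy ⟨f.injective h.1, f.injective (h.2.trans (map_negY ..))⟩
    rw [Point.add_some hxy]
    refine Eq.trans ?_ (Point.add_some e).symm
    simp only [map_slope, map_addX, map_addY]

omit hp [CharP M p] [CharP M' p] in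
/-- the map on points induced by an algebra homomorphism -/
theorem cmp_map {R : Type} [Field R] [Algebra R M] [Algebra R M'] (E : WeierstrassCurve R)
    (f : M →ₐ[R] M') : Cmp (Point.map (W' := E.toAffine) f) f.toRingHom :=
  ⟨WeierstrassCurve.map_baseChange E f, fun _ _ _ => ⟨_, rfl⟩⟩

namespace Cmp

variable {s : W.Point →+ W'.Point} {f : M →+* M'} (h : Cmp s f)
include h

omit hp [CharP M p] [CharP M' p]

theorem inj : Function.Injective s := by
  refine (injective_iff_map_eq_zero s).2 ?_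
  rintro (_ | ⟨x, y, k⟩) e
  · rfl
  · obtain ⟨k', e'⟩ := h.pt x y k
    exact absurd (e'.symm.trans e) (Point.some_ne_zero k')

theorem xc_eq (P : W.Point) : xc (s P) = f (xc P) := by
  rcases P with _ | ⟨x, y, k⟩
  · rw [← Point.zero_def, map_zero]
    exact (map_zero f).symm
  · obtain ⟨k', e⟩ := h.pt x y k
    rw [e]
    rfl

theorem yc_eq (P : W.Point) : yc (s P) = f (yc P) := by
  rcases P with _ | ⟨x, y, k⟩
  · rw [← Point.zero_def, map_zero]
    exact (map_zero f).symm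
  · obtain ⟨k', e⟩ := h.pt x y k
    rw [e]
    rfl

theorem slp_eq (P Q : W.Point) : slp (s P) (s Q) = f (slp P Q) := by
  rcases P with _ | ⟨x, y, k⟩
  · rw [← Point.zero_def, map_zero]
    exact (map_zero f).symm
  obtain ⟨k', e⟩ := h.pt x y k
  rcases Q with _ | ⟨x', y', l⟩
  · rw [← Point.zero_def, map_zero, e]
    exact (map_zero f).symm
  · obtain ⟨l', e'⟩ := h.pt x' y' l
    rw [e, e']
    obtain rfl := h.map
    exact map_slope f x x' y y'

theorem sw (hW : SW W) : SW W' := by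
  obtain rfl := h.map
  refine ⟨(congrArg f hW.a1).trans (map_zero f), (congrArg f hW.a2).trans (map_zero f),
    (congrArg f hW.a3).trans (map_zero f), fun e => hW.disc (f.injective ?_),
    fun e => hW.six (f.injective ?_)⟩
  · rw [map_zero, ← e]
    simp [map_ofNat]
  · rw [map_zero, ← e, map_ofNat]

theorem ord {A : M} (hW : Ord p W A) : Ord p W' (f A) := by
  obtain ⟨t, h1, h2⟩ := hW.ex
  refine ⟨h.sw hW.sw, ?_, s t, fun e => h1 (h.inj (e.trans (map_zero s).symm)), ?_⟩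
  · obtain rfl := h.map
    rw [hW.hA, EllD_hasse]
    rfl
  · rw [← map_nsmul, h2, map_zero]

theorem surj (hf : Function.Surjective f) : Function.Surjective s := by
  rintro (_ | ⟨x', y', k'⟩)
  · exact ⟨0, map_zero s⟩
  obtain ⟨x, rfl⟩ := hf x'
  obtain ⟨y, rfl⟩ := hf y'
  obtain rfl := h.map
  obtain ⟨_, e⟩ := h.pt x y ((W.map_nonsingular f.injective x y).1 k')
  exact ⟨_, e⟩

end Cmp

theorem Cmp.lev {s : W.Point →+ W'.Point} {f : M →+* M'} (h : Cmp s f) (hW : SW W)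
    {S : Subfield M} {S' : Subfield M'} (hS : ∀ x ∈ S, f x ∈ S') (h4 : W.a₄ ∈ S) {k : ℕ}
    {P : W.Point} (hP : P ∈ Lev p S W k) : s P ∈ Lev p S' W' k := by
  intro _
  rw [h.xc_eq, h.yc_eq, ← map_pow, ← map_pow]
  exact ((mem_lev hW h4).1 hP).imp (hS _) (hS _)

theorem Cmp.bk_eq {s : W.Point →+ W'.Point} {f : M →+* M'} (h : Cmp s f) (hW : SW W)
    {S : Subfield M} {S' : Subfield M'} (hS : ∀ x ∈ S, f x ∈ S') (h4 : W.a₄ ∈ S) {t : M}
    (h1 : PB p S t) (h2 : PB p S' (f t)) (A : M) {k : ℕ} {P : W.Point} (hP : P ∈ Lev p S W k) :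
    bk p S' (f t) (f A) k (s P) = f (bk p S t A k P) := by
  unfold bk
  rw [h.xc_eq, h.yc_eq, map_div₀, map_mul, map_mul, h1.der_map f hS h2 ((mem_lev hW h4).1 hP).1,
    map_pow f, map_pow f, map_pow f, map_ofNat f]

end

end Pool.Agent.ASel
end

-- merged part: Pool.Agent.Work.MP_60d5ce_nt.AS.EllA
section
/-!
# The kernel of reduction is a group; the invariant differential is additive

PLAN.  `InE1_add`: `x_1, x_2, x_3` are the roots of `x ^ 3 + a x + b - (l x + ν) ^ 2`; compare the sizes of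
the symmetric functions `l ^ 2`, `a - 2 l ν`, `ν ^ 2 - b` if `|x_3| ≤ ρ ^ 2 < |x_1|, |x_2|`.
`beta_add`: chord and tangent; `2 y dy = (3 x ^ 2 + a) dx`; points with `y = 0` have `dx = 0`, so it is
convenient to prove `d x_3 = 2 y_3 (β_1 + β_2)` and, when `y_3 = 0`, `d y_3 = (3 x_3 ^ 2 + a) (β_1 + β_2)`,
or to reduce the case `y_3 = 0` to the case `y_2 = 0` by writing `P = (P + Q) + (-Q)`.
-/

namespace Pool.Agent.ASel

open WeierstrassCurve WeierstrassCurve.Affine Polynomial Pool.Agent.Quad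
open scoped Classical

variable {M : Type} [Field M] {W : Affine M}

theorem EllA_line (h : SW W) {x₁ x₂ y₁ y₂ : M} (h₁ : W.Nonsingular x₁ y₁) (h₂ : W.Nonsingular x₂ y₂)
    (hxy : ¬(x₁ = x₂ ∧ y₁ = W.negY x₂ y₂)) : ∃ l ν x₃ y₃ h₃,
      (Point.some x₁ y₁ h₁ : W.Point) + Point.some x₂ y₂ h₂ = Point.some x₃ y₃ h₃ ∧
      y₁ = l * x₁ + ν ∧ y₂ = l * x₂ + ν ∧ y₃ = -(l * x₃ + ν) ∧ x₁ + x₂ + x₃ = l ^ 2 ∧
      x₁ * x₂ + x₁ * x₃ + x₂ * x₃ = W.a₄ - 2 * l * ν ∧ x₁ * x₂ * x₃ = ν ^ 2 - W.a₆ := by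
  have e1 := EllB_line h₁.1 h₂.1 hxy
  have e2 := EllB_line' h h₁.1 h₂.1 hxy
  have e3 := h.eqn h₁
  rw [h.negY_eq] at e2
  refine ⟨W.slope x₁ x₂ y₁ y₂, y₁ - W.slope x₁ x₂ y₁ y₂ * x₁, _, _, _, Point.add_some hxy, by ring,
    by linear_combination -e1, ?_, ?_, ?_, ?_⟩
  · rw [addY, negAddY, h.negY_eq]
    ring
  · rw [addX, h.a1, h.a2]
    ring
  · rw [addX, h.a1, h.a2]
    linear_combination e2 + W.slope x₁ x₂ y₁ y₂ * e1
  · rw [addX, h.a1, h.a2]
    linear_combination x₁ * e2 + x₁ * W.slope x₁ x₂ y₁ y₂ * e1 - e3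

theorem EllA_size {w : AbsoluteValue M ℝ} {ρ : ℝ} (hs : Sz W w ρ) {x₁ x₂ x₃ l ν : M}
    (h1 : ρ ^ 2 < w x₁) (h2 : ρ ^ 2 < w x₂) (s1 : x₁ + x₂ + x₃ = l ^ 2)
    (s2 : x₁ * x₂ + x₁ * x₃ + x₂ * x₃ = W.a₄ - 2 * l * ν) (s3 : x₁ * x₂ * x₃ = ν ^ 2 - W.a₆) :
    ρ ^ 2 < w x₃ := by
  refine not_le.1 fun h3 => ?_
  have na := hs.na
  have r : 0 < ρ ^ 2 := pow_pos hs.pos 2
  obtain ⟨m, m1, m2, m3⟩ : ∃ m, w x₁ ≤ m ∧ w x₂ ≤ m ∧ m * ρ ^ 2 < w x₁ * w x₂ := by
    rcases le_total (w x₁) (w x₂) with k | k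
    · exact ⟨_, k, le_rfl, by nlinarith⟩
    · exact ⟨_, le_rfl, k, by nlinarith⟩
  have r4 : ρ ^ 4 < w x₁ * w x₂ := by nlinarith
  have a1 : w l ^ 2 ≤ m := by
    rw [← w.map_pow, ← s1]
    exact EllB_add na (EllB_add na m1 m2) (by linarith)
  have a2 : w ν ^ 2 ≤ w x₁ * w x₂ * ρ ^ 2 := by
    rw [← w.map_pow, ← eq_sub_iff_add_eq.1 s3]
    exact EllB_add na (EllB_mul (w.map_mul _ _).le h3) (hs.a6.trans (by nlinarith))
  have a3 : w l * w ν = w x₁ * w x₂ := by
    have e : 2 * (l * ν) = -(x₁ * x₂ + (x₁ * x₃ + x₂ * x₃ - W.a₄)) := by linear_combination s2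
    have k := congrArg w e
    rw [w.map_mul, hs.two, one_mul, w.map_mul, w.map_neg, EllB_eq na, w.map_mul] at k
    · exact k
    · rw [w.map_mul]
      exact EllB_subl na (EllB_addl na ((EllB_mul m1 h3).trans_lt m3) ((EllB_mul m2 h3).trans_lt m3))
        (hs.a4.trans_lt r4)
  have a4 := mul_le_mul a1 a2 (sq_nonneg _) (by linarith)
  rw [← mul_pow, a3] at a4
  nlinarith [pow_pos hs.pos 4]

theorem EllA_ns (h : SW W) {x : M} (e : 0 = x ^ 3 + W.a₄ * x + W.a₆) : 3 * x ^ 2 + W.a₄ ≠ 0 :=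
  fun k => h.disc (by
    linear_combination (6 * W.a₄ * x ^ 2 - 9 * W.a₆ * x + 4 * W.a₄ ^ 2) * k +
      (18 * W.a₄ * x - 27 * W.a₆) * e)

theorem EllA_pt (h : SW W) (D : Derivation ℤ M M) (h4 : D W.a₄ = 0) (h6 : D W.a₆ = 0) {x y : M}
    (e : y ^ 2 = x ^ 3 + W.a₄ * x + W.a₆) :
    D x = 2 * y * (D x / (2 * y)) ∧ D y = (3 * x ^ 2 + W.a₄) * (D x / (2 * y)) := by
  have k : 2 * y * D y = (3 * x ^ 2 + W.a₄) * D x := by
    have := congrArg D e
    simp only [map_add, Derivation.leibniz, Derivation.leibniz_pow, h4, h6, smul_eq_mul,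
      nsmul_eq_mul] at this
    push_cast at this
    linear_combination this
  by_cases hy : y = 0
  · subst hy
    have := EllA_ns h (x := x) (by linear_combination e)
    rw [mul_zero, zero_mul] at k
    simp [(mul_eq_zero.1 k.symm).resolve_left this]
  · have := mul_ne_zero h.two hy
    refine ⟨(mul_div_cancel₀ _ this).symm, ?_⟩
    rw [← mul_div_assoc, ← k, mul_div_cancel_left₀ _ this]

theorem EllA_two (h : SW W) {x x' l ν β β' dl dn : M}
    (e : (l * x + ν) ^ 2 = x ^ 3 + W.a₄ * x + W.a₆) (s1 : x + x + x' = l ^ 2)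
    (s2 : x * x + x * x' + x * x' = W.a₄ - 2 * l * ν)
    (L : l * (2 * (l * x + ν) * β) + x * dl + dn = (3 * x ^ 2 + W.a₄) * β)
    (L' : l * (2 * (l * x' + ν) * β') + x' * dl + dn = (3 * x' ^ 2 + W.a₄) * β')
    (S1 : 2 * (l * x + ν) * β + 2 * (l * x + ν) * β + 2 * (l * x' + ν) * β' = 2 * l * dl)
    (S2 : (x + x') * (2 * (l * x + ν) * β) + (x + x') * (2 * (l * x + ν) * β) +
      (x + x) * (2 * (l * x' + ν) * β') = -2 * (l * dn + ν * dl)) : β + β + β' = 0 := by
  have g : 3 * x ^ 2 + W.a₄ = 2 * l * (l * x + ν) := by linear_combination 2 * x * s1 - s2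
  have hy : l * x + ν ≠ 0 := fun k => EllA_ns h (x := x) (by rw [← e, k]; ring) (by rw [g, k]; ring)
  have h2 := mul_ne_zero h.two hy
  have a : x * dl + dn = 0 := by linear_combination L + β * g
  have b : dl = -2 * β * (x' - x) := mul_left_cancel₀ h2 (by
    linear_combination S2 - 2 * x * S1 - 2 * l * a)
  by_cases k : x' = x
  · subst k
    exact mul_left_cancel₀ h2 (by linear_combination S1 + 2 * l * b)
  · refine mul_left_cancel₀ (pow_ne_zero 2 (sub_ne_zero.2 k)) ?_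
    linear_combination a - L' + (x' - x) * b + β' * s2 - 2 * x' * β' * s1

theorem EllA_sum (h : SW W) (D : Derivation ℤ M M) (h4 : D W.a₄ = 0) (h6 : D W.a₆ = 0)
    {x₁ x₂ x₃ l ν : M} (s1 : x₁ + x₂ + x₃ = l ^ 2)
    (s2 : x₁ * x₂ + x₁ * x₃ + x₂ * x₃ = W.a₄ - 2 * l * ν) (s3 : x₁ * x₂ * x₃ = ν ^ 2 - W.a₆) :
    D x₁ / (2 * (l * x₁ + ν)) + D x₂ / (2 * (l * x₂ + ν)) + D x₃ / (2 * (l * x₃ + ν)) = 0 := by
  have e1 : (l * x₁ + ν) ^ 2 = x₁ ^ 3 + W.a₄ * x₁ + W.a₆ := by
    linear_combination -x₁ ^ 2 * s1 + x₁ * s2 - s3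
  have e2 : (l * x₂ + ν) ^ 2 = x₂ ^ 3 + W.a₄ * x₂ + W.a₆ := by
    linear_combination -x₂ ^ 2 * s1 + x₂ * s2 - s3
  have e3 : (l * x₃ + ν) ^ 2 = x₃ ^ 3 + W.a₄ * x₃ + W.a₆ := by
    linear_combination -x₃ ^ 2 * s1 + x₃ * s2 - s3
  have two : D 2 = 0 := D.map_natCast 2
  have S1 := congrArg D s1
  have S2 := congrArg D s2
  obtain ⟨a1, b1⟩ := EllA_pt h D h4 h6 e1
  obtain ⟨a2, b2⟩ := EllA_pt h D h4 h6 e2
  obtain ⟨a3, b3⟩ := EllA_pt h D h4 h6 e3
  have q : ∀ {x x' : M}, x = x' → D x / (2 * (l * x + ν)) = D x' / (2 * (l * x' + ν)) :=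
    fun k => k ▸ rfl
  have q12 := q (x := x₁) (x' := x₂)
  have q13 := q (x := x₁) (x' := x₃)
  have q23 := q (x := x₂) (x' := x₃)
  generalize D x₁ / (2 * (l * x₁ + ν)) = β₁ at *
  generalize D x₂ / (2 * (l * x₂ + ν)) = β₂ at *
  generalize D x₃ / (2 * (l * x₃ + ν)) = β₃ at *
  simp only [map_add, map_sub, Derivation.leibniz, Derivation.leibniz_pow, h4, two, smul_eq_mul,
    nsmul_eq_mul, a1, a2, a3] at S1 S2 b1 b2 b3
  push_cast at S1
  by_cases k12 : x₁ = x₂
  · obtain rfl := q12 k12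
    subst k12
    exact EllA_two h e1 s1 s2 b1 b3 (by linear_combination S1) (by linear_combination S2)
  by_cases k13 : x₁ = x₃
  · obtain rfl := q13 k13
    subst k13
    linear_combination EllA_two h e1 (by linear_combination s1) (by linear_combination s2) b1 b2
      (by linear_combination S1) (by linear_combination S2)
  by_cases k23 : x₂ = x₃
  · obtain rfl := q23 k23
    subst k23
    linear_combination EllA_two h e2 (by linear_combination s1) (by linear_combination s2) b2 b1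
      (by linear_combination S1) (by linear_combination S2)
  refine mul_left_cancel₀ (mul_ne_zero (mul_ne_zero (sub_ne_zero.2 k12) (sub_ne_zero.2 k13))
    (sub_ne_zero.2 k23)) ?_
  linear_combination (x₃ - x₂) * (b1 - β₁ * s2 + 2 * x₁ * β₁ * s1) +
    (x₁ - x₃) * (b2 - β₂ * s2 + 2 * x₂ * β₂ * s1) + (x₂ - x₁) * (b3 - β₃ * s2 + 2 * x₃ * β₃ * s1)

theorem InE1_add {w : AbsoluteValue M ℝ} {ρ : ℝ} (h : SW W) (hs : Sz W w ρ) {P Q : W.Point}
    (hP : InE1 w ρ P) (hQ : InE1 w ρ Q) : InE1 w ρ (P + Q) := by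
  rcases P with _ | ⟨x₁, y₁, h₁⟩
  · exact (zero_add Q).symm ▸ hQ
  rcases Q with _ | ⟨x₂, y₂, h₂⟩
  · exact (add_zero (Point.some x₁ y₁ h₁)).symm ▸ hP
  by_cases hxy : x₁ = x₂ ∧ y₁ = W.negY x₂ y₂
  · rw [Point.add_of_Y_eq hxy.1 hxy.2]
    exact InE1.zero
  obtain ⟨l, ν, x₃, y₃, h₃, e, -, -, -, s1, s2, s3⟩ := EllA_line h h₁ h₂ hxy
  rw [e]
  exact EllA_size hs hP hQ s1 s2 s3

/-- the invariant differential is additive -/
theorem beta_add (h : SW W) (D : Derivation ℤ M M) (h4 : D W.a₄ = 0) (h6 : D W.a₆ = 0)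
    (P Q : W.Point) : D (xc (P + Q)) / (2 * yc (P + Q)) =
      D (xc P) / (2 * yc P) + D (xc Q) / (2 * yc Q) := by
  have z : D (xc (0 : W.Point)) / (2 * yc (0 : W.Point)) = 0 := by
    rw [show xc (0 : W.Point) = 0 from rfl, map_zero, zero_div]
  rcases P with _ | ⟨x₁, y₁, h₁⟩
  · rw [← Point.zero_def, zero_add, z, zero_add]
  rcases Q with _ | ⟨x₂, y₂, h₂⟩
  · rw [← Point.zero_def, add_zero, z, add_zero]
  by_cases hxy : x₁ = x₂ ∧ y₁ = W.negY x₂ y₂
  · rw [Point.add_of_Y_eq hxy.1 hxy.2, z]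
    show 0 = D x₁ / (2 * y₁) + D x₂ / (2 * y₂)
    rw [hxy.1, hxy.2, h.negY_eq, mul_neg, div_neg, neg_add_cancel]
  obtain ⟨l, ν, x₃, y₃, h₃, e, rfl, rfl, rfl, s1, s2, s3⟩ := EllA_line h h₁ h₂ hxy
  rw [e]
  show D x₃ / (2 * -(l * x₃ + ν)) = D x₁ / (2 * (l * x₁ + ν)) + D x₂ / (2 * (l * x₂ + ν))
  rw [mul_neg, div_neg]
  linear_combination -EllA_sum h D h4 h6 s1 s2 s3

end Pool.Agent.ASel
end
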