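import Pool.Agent.Work.MP_60d5ce_nt.AS.EllU

/-!
# Ordinary curves over valued fields; Manin's map; existence of points of order `p`

PLAN.  `dich`: if no `Q + t` lies in `E_1^ρ` all slopes `slp Q t` have size `≤ ρ` (`l ^ 2 = x_1 + x_2 + x_3`).
`tors_e1`: if `t ≠ O` lies in `E_1` then `T ⊆ E_1` (`InE1_add`, `tors_cyc`); for `Q ∉ E_1`, `zz_formula` gives
`|zz Q| < 1`; take `Q` of order two, `Q + t ∉ E_1`, so `|zz t| < 1`, but `zz t ^ (p-1) = A`.
`bk_le`: `(X, Y) = (x, y) ^ p ^ (k+1)` lies on the curve with coefficients `a', b'` killed by `der`.  If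
`|X| ≤ 1`, then `|Y| = 1` or `3 X ^ 2 + a'` is a unit and `dX / 2 Y = dY / (3 X ^ 2 + a')`.  If `|X| > 1` put
`s = X / Y`, `u = 1 / Y`, `u = s ^ 3 + a' s u ^ 2 + b' u ^ 3`, `|u| = |s| ^ 3`,
`dX / 2 Y = ds / 2 - s du / (2 u)`, `du (1 - 2 a' s u - 3 b' u ^ 2) = (3 s ^ 2 + a' u ^ 2) ds`.
`manin`: with `a = a₄`, `b = a₆`, `D = 4 a ^ 3 + 27 b ^ 2`,
`Nm x = -(da (-9 b x ^ 2 - 2 a ^ 2 x - 6 a b) + db (6 a x ^ 2 - 9 b x + 4 a ^ 2)) / D`,
`m P = (dx - Nm x) / 2 y`, `κ = 3 (3 b da - 2 a db) / D`: for points with coordinates in `S`, none of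
`P`, `Q`, `P + Q` of order two, `m (P + Q) - m P - m Q = κ / 2 * slp P Q` (chord and tangent; checked
numerically).  If `T ⊆ Lev 0`, sum over `Q ∈ T`: `0 = p m P + κ / 2 * zz P`, contradiction with `lam_ne`.
`ord_exists`: see the header of `EllO.lean`.
-/

namespace Pool.Agent.ASel

open WeierstrassCurve WeierstrassCurve.Affine Polynomial Pool.Agent.Quad
open scoped Classical

variable {p : ℕ} [hp : Fact p.Prime] {M : Type} [Field M] [CharP M p] [IsAlgClosed M]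
  {W : Affine M} {A : M}

theorem EllL_sum_le {w : AbsoluteValue M ℝ} (na : IsNonarchimedean w) {ι : Type} (s : Finset ι)
    (f : ι → M) {r : ℝ} (hr : 0 ≤ r) (hf : ∀ i ∈ s, w (f i) ≤ r) : w (∑ i ∈ s, f i) ≤ r := by
  refine Finset.sum_induction f (fun a => w a ≤ r) (fun a b ha hb => EllB_add na ha hb) ?_ hf
  rwa [w.map_zero]

theorem EllL_sum_lt {w : AbsoluteValue M ℝ} (na : IsNonarchimedean w) {ι : Type} (s : Finset ι)
    (f : ι → M) {r : ℝ} (hr : 0 < r) (hf : ∀ i ∈ s, w (f i) < r) : w (∑ i ∈ s, f i) < r := by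
  refine Finset.sum_induction f (fun a => w a < r) (fun a b ha hb => EllB_addl na ha hb) ?_ hf
  rwa [w.map_zero]

theorem EllL_far {w : AbsoluteValue M ℝ} {ρ : ℝ} (h : SW W) (hs : Sz W w ρ) {Q t : W.Point}
    (hQ : ¬InE1 w ρ Q) (h0 : t ≠ 0) (ht : InE1 w ρ t) : w (yc Q / (xc Q - xc t)) < ρ := by
  rcases Q with _ | ⟨x, y, hn⟩
  · exact absurd InE1.zero hQ
  rcases t with _ | ⟨x', y', hn'⟩
  · exact absurd rfl h0
  have hx : w x ≤ ρ ^ 2 := not_lt.1 hQ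
  have hx' : ρ ^ 2 < w x' := ht
  have hy := h.w_y_le hs hn hx
  have hρ := hs.pos
  change w (y / (x - x')) < ρ
  rw [map_div₀, EllB_eq_sub hs.na (hx.trans_lt hx'), div_lt_iff₀ ((pow_pos hρ 2).trans hx')]
  refine hy.trans_lt ?_
  rw [pow_succ']
  exact mul_lt_mul_of_pos_left hx' hρ

theorem EllL_slope {w : AbsoluteValue M ℝ} {ρ : ℝ} (h : SW W) (hs : Sz W w ρ) {x y x' y' : M}
    (hn : W.Nonsingular x y) (hn' : W.Nonsingular x' y') (hx : w x ≤ ρ ^ 2) (hx' : w x' ≤ ρ ^ 2)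
    (hne : x ≠ x') (h1 : ¬InE1 w ρ (Point.some x y hn + Point.some x' y' hn' : W.Point)) :
    w ((y - y') / (x - x')) ≤ ρ := by
  obtain ⟨l, hl, hn'', e⟩ := h.EllA_add hn hn' hne
  rw [e] at h1
  rw [← hl, mul_div_cancel_right₀ _ (sub_ne_zero.2 hne)]
  refine not_lt.1 fun hc => h1 ?_
  change ρ ^ 2 < w (l ^ 2 - x - x')
  rw [sub_sub]
  exact EllB_big hs.na hs.pos hc hx hx'

theorem EllL_term {w : AbsoluteValue M ℝ} {ρ : ℝ} (h : SW W) (hs : Sz W w ρ) {Q t : W.Point}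
    (hQ : ¬InE1 w ρ Q) (h0 : t ≠ 0) (h1 : ¬InE1 w ρ (Q + t)) (h2 : ¬InE1 w ρ (Q + -t)) :
    w (yc Q / (xc Q - xc t)) ≤ ρ := by
  by_cases ht : InE1 w ρ t
  · exact (EllL_far h hs hQ h0 ht).le
  rcases Q with _ | ⟨x, y, hn⟩
  · exact absurd InE1.zero hQ
  rcases t with _ | ⟨x', y', hn'⟩
  · exact absurd rfl h0
  have hx : w x ≤ ρ ^ 2 := not_lt.1 hQ
  have hx' : w x' ≤ ρ ^ 2 := not_lt.1 ht
  change w (y / (x - x')) ≤ ρ
  by_cases hne : x = x'
  · rw [hne, sub_self, div_zero, w.map_zero]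
    exact hs.pos.le
  obtain ⟨hn'', e⟩ := h.neg_some hn'
  rw [e] at h2
  have h3 := EllB_add hs.na (EllL_slope h hs hn hn' hx hx' hne h1)
    (EllL_slope h hs hn hn'' hx hx' hne h2)
  rwa [← add_div, show y - y' + (y - -y') = 2 * y by ring, mul_div_assoc, w.map_mul, hs.two,
    one_mul] at h3

theorem EllL_nsmul {w : AbsoluteValue M ℝ} {ρ : ℝ} (h : SW W) (hs : Sz W w ρ) {t : W.Point}
    (ht : InE1 w ρ t) (m : ℕ) : InE1 w ρ (m • t) := by
  induction m with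
  | zero =>
    rw [zero_nsmul]
    exact InE1.zero
  | succ m ih =>
    rw [succ_nsmul]
    exact InE1_add h hs ih ht

theorem EllL_nat (p : ℕ) [hp : Fact p.Prime] {M : Type} [Field M] [CharP M p]
    (w : AbsoluteValue M ℝ) {n : ℕ} (hn : (n : M) ≠ 0) : w (n : M) = 1 := by
  have h1 : (n : M) ^ p = n := map_natCast (frobenius M p) n
  have h2 : (n : M) ^ (p - 1) = 1 := by
    refine mul_left_cancel₀ hn ?_
    rw [← pow_succ', Nat.sub_add_cancel hp.out.one_le, h1, mul_one]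
  exact EllC.w_root (Nat.sub_ne_zero_of_lt hp.out.one_lt) h2

theorem EllL_form {w : AbsoluteValue M ℝ} (h : SW W) (hs : Sz W w 1)
    (hD : w (4 * W.a₄ ^ 3 + 27 * W.a₆ ^ 2) = 1) {x y dx dy : M} (hn : W.Nonsingular x y)
    (hx : w x ≤ 1 → w dx ≤ 1) (hy : w y ≤ 1 → w dy ≤ 1)
    (hq : w (x / y) ≤ 1 → w ((y * dx - x * dy) / y ^ 2) ≤ 1)
    (he : 2 * y * dy = (3 * x ^ 2 + W.a₄) * dx) : w (dx / (2 * y)) ≤ 1 := by
  by_cases h0 : y = 0
  · rw [h0, mul_zero, div_zero, w.map_zero]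
    exact zero_le_one
  have hy0 := w.pos h0
  have h2 : w (2 * y) = w y := by rw [w.map_mul, hs.two, one_mul]
  rcases le_or_gt (w x) (1 ^ 2) with h1 | h1
  · rw [map_div₀, h2, div_le_one hy0]
    have h3 := h.w_y_le hs hn h1
    rw [one_pow] at h3
    rcases h3.eq_or_lt with h3 | h3
    · rw [h3]
      exact hx (by simpa using h1)
    have h4 : 1 ≤ w (3 * x ^ 2 + W.a₄) := not_lt.1 fun hc =>
      EllB_disc h hs hn h1 (by rwa [hD, h2, one_pow, mul_one]) (by rwa [hD, one_pow, mul_one])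
    have h5 := congrArg w he
    rw [w.map_mul, w.map_mul (3 * x ^ 2 + W.a₄), h2] at h5
    have h6 := w.nonneg dx
    nlinarith [hy h3.le]
  · have h3 := h.w_y_sq hs hn h1
    have h4 : w (W.a₄ * x) < w (x ^ 3) := by
      rw [w.map_pow]
      exact (EllB_mul hs.a4 le_rfl).trans_lt (by simpa using EllB_lt hs.pos h1 1 1)
    have h5 : w (2 * W.a₆) < w (x ^ 3) := by
      rw [w.map_pow]
      exact (EllB_num hs.na 2 hs.a6).trans_lt (by simpa using EllB_lt hs.pos h1 2 0)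
    have h6 := EllB_eq_sub hs.na (EllB_addl hs.na h4 h5)
    rw [one_pow] at h1
    have h7 : w x ≤ w y := by
      refine le_of_pow_le_pow_left₀ two_ne_zero hy0.le ?_
      rw [h3]
      exact pow_le_pow_right₀ h1.le (by norm_num)
    have h8 := hq (by rwa [map_div₀, div_le_one hy0])
    have h9 : (y * dx - x * dy) / y ^ 2 =
        dx / (2 * y) * ((W.a₄ * x + 2 * W.a₆ - x ^ 3) / y ^ 2) := by
      have h20 := h.two
      field_simp
      linear_combination 2 * dx * h.eqn hn - x * he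
    rwa [h9, w.map_mul, map_div₀ w _ (y ^ 2), h6, w.map_pow, w.map_pow, h3,
      div_self (pow_pos (one_pos.trans h1) 3).ne', mul_one] at h8

namespace Ord

variable (h : Ord p W A)
include h

theorem dich {w : AbsoluteValue M ℝ} {ρ : ℝ} (hs : Sz W w ρ) (Q : W.Point) :
    (∃ t, p • t = 0 ∧ InE1 w ρ (Q + t)) ∨ w (zz p Q) ≤ ρ := by
  refine or_iff_not_imp_left.2 fun hc => ?_
  have h1 : ∀ t : W.Point, p • t = 0 → ¬InE1 w ρ (Q + t) := fun t ht h1 => hc ⟨t, ht, h1⟩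
  have h0 : ¬InE1 w ρ Q := by simpa using h1 0 (nsmul_zero p)
  have hQ : p • Q ≠ 0 := fun hQ => h1 (-Q) (by rw [neg_nsmul, hQ, neg_zero])
    (by rw [add_neg_cancel]; exact InE1.zero)
  rw [h.zz_formula hQ]
  refine EllL_sum_le hs.na _ _ hs.pos.le fun t ht => ?_
  obtain ⟨ht0, ht⟩ := Finset.mem_erase.1 ht
  have ht : p • t = 0 := by simpa using ht
  exact EllL_term h.sw hs h0 ht0 (h1 t ht) (h1 (-t) (by rw [neg_nsmul, ht, neg_zero]))

theorem tors_e1 {w : AbsoluteValue M ℝ} (hs : Sz W w 1) (hA : w A = 1) {t : W.Point}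
    (ht : p • t = 0) (h1 : InE1 w 1 t) : t = 0 := by
  by_contra h0
  have hT : ∀ s : W.Point, p • s = 0 → InE1 w 1 s := fun s hs' => by
    obtain ⟨m, rfl⟩ := h.tors_cyc h0 ht hs'
    exact EllL_nsmul h.sw hs h1 m
  have hz : ∀ Q : W.Point, ¬InE1 w 1 Q → w (zz p Q) < 1 := fun Q hQ => by
    rw [h.zz_formula fun hc => hQ (hT Q hc)]
    refine EllL_sum_lt hs.na _ _ one_pos fun s hs' => ?_
    obtain ⟨hs0, hs'⟩ := Finset.mem_erase.1 hs'
    exact EllL_far h.sw hs hQ hs0 (hT s (by simpa using hs'))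
  obtain ⟨e1, e2, e3, he⟩ := h.sw.exists_rt
  have hQ : ¬InE1 w 1 (tp W e1) := by
    rw [tp_eq he.nonsing]
    exact not_lt.2 (hs.w_root_le he.root)
  have hQ' : ¬InE1 w 1 (tp W e1 + t) := fun hc => hQ (by
    have := InE1_add h.sw hs hc h1.neg
    rwa [add_neg_cancel_right] at this)
  have h2 := EllB_subl hs.na (hz _ hQ') (hz _ hQ)
  rw [h.zz_add_tors _ ht, add_sub_cancel_left] at h2
  rw [← h.lam_pow h0 ht, w.map_pow] at hA
  exact (pow_lt_one₀ (w.nonneg _) h2 (Nat.sub_ne_zero_of_lt hp.out.one_lt)).ne hA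

theorem exists_rho {w : AbsoluteValue M ℝ} (hw : IsNonarchimedean w) : ∃ ρ : ℝ, 1 ≤ ρ ∧ Sz W w ρ ∧
    ∀ t : W.Point, p • t = 0 → InE1 w ρ t → t = 0 := by
  obtain ⟨B, hB⟩ := (h.tors_fin.image fun t => w (xc t)).bddAbove
  obtain ⟨ρ, e⟩ : ∃ ρ : ℝ, ρ = max (max 1 B) (max (w W.a₄) (w W.a₆)) := ⟨_, rfl⟩
  have h1 : 1 ≤ ρ := e ▸ le_max_of_le_left (le_max_left _ _)
  have h2 : B ≤ ρ := e ▸ le_max_of_le_left (le_max_right _ _)
  have h4 : w W.a₄ ≤ ρ := e ▸ le_max_of_le_right (le_max_left _ _)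
  have h6 : w W.a₆ ≤ ρ := e ▸ le_max_of_le_right (le_max_right _ _)
  refine ⟨ρ, h1, ⟨hw, ?_, ?_, one_pos.trans_le h1, h4.trans (le_self_pow₀ h1 (by norm_num)),
    h6.trans (le_self_pow₀ h1 (by norm_num))⟩, fun t ht h3 => ?_⟩
  · simpa using EllL_nat p w (n := 2) (by simpa using h.sw.two)
  · simpa using EllL_nat p w (n := 3) (by simpa using h.sw.three)
  rcases t with _ | ⟨x, y, hn⟩
  · rfl
  have h5 : w x ≤ B := hB ⟨_, ht, rfl⟩
  exact absurd h3 (not_lt.2 ((h5.trans h2).trans (le_self_pow₀ h1 two_ne_zero)))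

variable {S : Subfield M} {t : M} (hS : SC p S t) (h4 : W.a₄ ∈ S) (h6 : W.a₆ ∈ S)
include hS h4 h6

theorem bk_le {w : AbsoluteValue M ℝ} (hs : Sz W w 1)
    (hD : w (4 * W.a₄ ^ 3 + 27 * W.a₆ ^ 2) = 1) (F : Subfield M) (hF : F ≤ S)
    (hd : ∀ x ∈ F, w x ≤ 1 → w (der p S t x) ≤ 1) {k : ℕ} {Q : W.Point}
    (hx : xc Q ^ p ^ (k + 1) ∈ F)
    (hy : yc Q ^ p ^ (k + 1) ∈ F) : w (bk p S t A (k + 1) Q) ≤ w A ^ uk p (k + 1) := by
  rw [bk, mul_div_assoc, w.map_mul, w.map_pow]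
  refine mul_le_of_le_one_right (pow_nonneg (w.nonneg _) _) ?_
  rcases Q with _ | ⟨x, y, hn⟩
  · change w (der p S t (0 ^ _) / _) ≤ 1
    rw [zero_pow (pow_ne_zero _ hp.out.ne_zero), map_zero, zero_div, w.map_zero]
    exact zero_le_one
  change x ^ _ ∈ F at hx
  change y ^ _ ∈ F at hy
  change w (der p S t (x ^ _) / (2 * y ^ _)) ≤ 1
  have hk : ∀ a ∈ S, der p S t (a ^ p ^ (k + 1)) = 0 := fun a ha => by
    rw [pow_succ, pow_mul]
    exact hS.1.der_frob (S.pow_mem ha _)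
  have hφ : ∀ a : M, iterateFrobenius M p (k + 1) a = a ^ p ^ (k + 1) := fun a => rfl
  have e1 := congrArg (iterateFrobenius M p (k + 1)) (h.sw.eqn hn)
  have e2 : w (iterateFrobenius M p (k + 1) (4 * W.a₄ ^ 3 + 27 * W.a₆ ^ 2)) = 1 := by
    rw [hφ, w.map_pow, hD, one_pow]
  simp only [map_add, map_mul, map_pow, map_ofNat] at e1 e2
  simp only [hφ] at e1 e2
  have d4 := hk _ h4
  have d6 := hk _ h6
  have m4 := S.pow_mem h4 (p ^ (k + 1))
  have w4 : w (W.a₄ ^ p ^ (k + 1)) ≤ 1 ^ 4 := by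
    rw [w.map_pow, one_pow]
    exact pow_le_one₀ (w.nonneg _) (by simpa using hs.a4)
  have w6 : w (W.a₆ ^ p ^ (k + 1)) ≤ 1 ^ 6 := by
    rw [w.map_pow, one_pow]
    exact pow_le_one₀ (w.nonneg _) (by simpa using hs.a6)
  generalize W.a₄ ^ p ^ (k + 1) = a at *
  generalize W.a₆ ^ p ^ (k + 1) = b at *
  generalize x ^ p ^ (k + 1) = X at *
  generalize y ^ p ^ (k + 1) = Y at *
  have hsw : SW (⟨0, 0, 0, a, b⟩ : Affine M) :=
    ⟨rfl, rfl, rfl, fun hc => by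
      rw [show 4 * a ^ 3 + 27 * b ^ 2 = 0 from hc, w.map_zero] at e2
      exact zero_ne_one e2, h.sw.six⟩
  have hsz : Sz (⟨0, 0, 0, a, b⟩ : Affine M) w 1 := ⟨hs.na, hs.two, hs.three, one_pos, w4, w6⟩
  refine EllL_form hsw hsz e2 (hsw.nonsing e1) (hd X hx) (hd Y hy)
    (hS.1.der_div (hF hx) (hF hy) ▸ hd _ (F.div_mem hx hy)) ?_
  have e3 := congrArg (der p S t) e1
  rw [map_add, map_add, hS.1.der_pow (hF hy), hS.1.der_pow (hF hx), hS.1.der_mul m4 (hF hx), d4,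
    d6] at e3
  change 2 * Y * der p S t Y = (3 * X ^ 2 + a) * der p S t X
  push_cast at e3
  linear_combination e3

end Ord

end Pool.Agent.ASel
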