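import Pool.Agent.Work.MP_60d5ce_nt.AS.SFam
import Mathlib

-- merged part: Pool.Agent.Work.MP_60d5ce_nt.AS.ResS
section
/-!
# The residue theorem (plan in the header of `Res.lean`)
-/

namespace Pool.Agent.ASel

open Polynomial Pool.Agent.Smith

variable {k : Type} [Field k] {p : ℕ} [Fintype k] [hp : Fact p.Prime] [CharP k p]

omit hp [CharP k p] in
/-- Euler's formula for the trace -/
theorem ResS_euler {P c : k[X]} [hi : Fact (Irreducible P)] (hm : P.Monic)
    (hc : c.degree < P.degree) :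
    Algebra.trace k (AdjoinRoot P) (AdjoinRoot.mk P c / AdjoinRoot.mk P (derivative P)) =
      c.coeff (P.natDegree - 1) := by
  have := hm.finite_adjoinRoot
  have e : minpoly k (AdjoinRoot.root P) = P := by
    rw [AdjoinRoot.minpoly_root hm.ne_zero, hm.leadingCoeff, inv_one, C_1, mul_one]
  have hz := AdjoinRoot.isIntegral_root hm.ne_zero
  have d : (minpolyDiv k (AdjoinRoot.root P)).coeff (P.natDegree - 1) = 1 := by
    have := natDegree_minpolyDiv_succ hz
    rw [e] at this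
    rw [← this]
    exact (minpolyDiv_monic hz).coeff_natDegree
  have i0 : P.natDegree - 1 < P.natDegree := Nat.sub_one_lt hi.out.natDegree_pos.ne'
  have h2 := (AdjoinRoot.powerBasis' hm).basis.traceDual.traceDual_repr_apply
    (AdjoinRoot.mk P c) ⟨_, i0⟩
  rw [Module.Basis.traceDual_traceDual, Module.Basis.traceDual_powerBasis_eq,
    AdjoinRoot.powerBasis'_gen, e, d, AdjoinRoot.aeval_eq, Algebra.traceForm_apply, mul_one_div] at h2
  rw [← h2]
  exact congrArg (coeff · _) ((modByMonic_eq_self_iff hm).2 hc)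

theorem ResS_tr (v : Pl k) {κ : Type} [Field κ] [Finite κ] [Algebra (ZMod p) κ] (φ : k[X] →+* κ)
    (hr : Module.finrank (ZMod p) κ = fd p v)
    (hφ : ∀ f : k[X], av v (algebraMap _ _ f) < 1 → φ f = 0) {b : k[X]}
    (hb : av v (algebraMap _ _ b) ≤ 1) {f : RatFunc k}
    (hf : av v (uu v * f - algebraMap _ _ b) < 1) :
    res p v (algebraMap _ _ f) = Algebra.trace (ZMod p) κ (φ b) := by
  have u0 : uL v ≠ 0 := by
    rw [← norm_ne_zero_iff, uL, norm_alg, av_uu]
    split_ifs <;> norm_num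
  have e : res p v (algebraMap _ _ f) = res p v (pk (Lv v) b / uL v) := by
    rw [← sub_eq_zero, ← map_sub]
    refine res_small ?_
    rw [mul_sub, mul_div_cancel₀ _ u0]
    rwa [← norm_alg, map_sub, map_mul] at hf
  have h1 := res_tr (p := p) v (g := pk (Lv v) b) ((norm_alg v _).trans_le hb)
  rw [e]
  generalize res p v (pk (Lv v) b / uL v) = n at h1
  have h2 := hφ (∑ i ∈ Finset.range (fd p v), b ^ p ^ i - n.val) (by
    rw [← norm_alg]
    simpa only [pk, RingHom.comp_apply, map_sub, map_sum, map_pow, map_natCast] using h1)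
  apply (algebraMap (ZMod p) κ).injective
  rw [FiniteField.algebraMap_trace_eq_sum_pow, Nat.card_zmod, hr, ← ZMod.natCast_zmod_val n,
    map_natCast]
  simp only [map_sub, map_sum, map_pow, map_natCast, sub_eq_zero] at h2
  exact h2.symm

theorem ResS_one {w : Pl k} (hw : w ≠ none) {c : k[X]} (hc : c.degree < (plp w).degree) :
    res p (none : Pl k) (algebraMap _ _ (algebraMap k[X] _ c / algebraMap k[X] (RatFunc k) (plp w))) +
      res p w (algebraMap _ _ (algebraMap k[X] _ c / algebraMap k[X] (RatFunc k) (plp w))) = 0 := by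
  obtain _ | ⟨P, hm, hi⟩ := w
  · exact (hw rfl).elim
  have : Fact (Irreducible P) := ⟨hi⟩
  let _ := ZMod.algebra k p
  have := hm.finite_adjoinRoot
  have : Finite (AdjoinRoot P) := Module.finite_of_finite k
  have r1 : Module.finrank (ZMod p) k = Nat.log p (Fintype.card k) := by
    rw [← FiniteField.pow_finrank_eq_card p k, Nat.log_pow hp.out.one_lt]
  have P0 : algebraMap k[X] (RatFunc k) P ≠ 0 := RatFunc.algebraMap_ne_zero hm.ne_zero
  have sp : ¬ P ∣ derivative P := fun h =>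
    hi.not_isUnit ((PerfectField.separable_of_irreducible hi).isUnit_of_dvd' dvd_rfl h)
  have D1 : av (some ⟨P, hm, hi⟩) (algebraMap k[X] _ (derivative P)) = 1 :=
    (av_poly_le hw _).antisymm (not_lt.1 fun h => sp ((av_poly_lt hw _).1 h))
  have D0 : algebraMap k[X] (RatFunc k) (derivative P) ≠ 0 := fun h => by simp [h] at D1
  have inf : ∀ f : k[X], av (none : Pl k) (algebraMap _ _ f) < 1 → f = 0 := fun f h => by
    by_contra h0
    rw [av_inf h0] at h
    exact h.not_ge (one_le_pow₀ one_le_two)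
  obtain ⟨b, hb⟩ := AdjoinRoot.mk_surjective
    (AdjoinRoot.mk P c / AdjoinRoot.mk P (derivative P))
  rw [ResS_tr none (evalRingHom 0) (by rw [r1, fd, pdg, mul_one])
      (fun f h => by rw [inf f h, map_zero]) (b := C (-c.coeff (P.natDegree - 1))) ?_ ?_,
    ResS_tr _ (AdjoinRoot.mk P) (by
        rw [← Module.finrank_mul_finrank (ZMod p) k, r1, (AdjoinRoot.powerBasis' hm).finrank]
        rfl)
      (fun f h => AdjoinRoot.mk_eq_zero.2 ((av_poly_lt hw f).1 h)) (av_poly_le hw b) ?_,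
    hb, ← Algebra.trace_trace (S := k) (T := AdjoinRoot P), ResS_euler hm hc]
  · simp
  · have e : uu (some ⟨P, hm, hi⟩) * (algebraMap k[X] _ c / algebraMap k[X] (RatFunc k) P) -
        algebraMap _ _ b = algebraMap k[X] _ (c - b * derivative P) /
          algebraMap k[X] (RatFunc k) (derivative P) := by
      simp only [uu, map_sub, map_mul]
      field_simp
    rw [plp, e, map_div₀, D1, div_one, av_poly_lt hw, plp, ← AdjoinRoot.mk_eq_zero, map_sub, map_mul,
      hb, div_mul_cancel₀ _ (mt AdjoinRoot.mk_eq_zero.1 sp), sub_self]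
  · by_cases h0 : C (-c.coeff (P.natDegree - 1)) = 0
    · simp [h0]
    · rw [av_inf h0, natDegree_C, pow_zero]
  · have e : uu (none : Pl k) * (algebraMap k[X] _ c / algebraMap k[X] (RatFunc k) P) -
        algebraMap _ _ (C (-c.coeff (P.natDegree - 1))) =
          algebraMap k[X] _ (C (c.coeff (P.natDegree - 1)) * P - X * c) /
            algebraMap k[X] (RatFunc k) P := by
      simp only [uu, map_sub, map_mul, map_neg, RatFunc.algebraMap_X]
      field_simp
      ring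
    rw [plp, e, map_div₀, av_inf hm.ne_zero, div_lt_one (by positivity)]
    by_cases h0 : C (c.coeff (P.natDegree - 1)) * P - X * c = 0
    · simp [h0]
    rw [av_inf h0]
    refine pow_lt_pow_right₀ one_lt_two ((natDegree_lt_iff_degree_lt h0).2
      ((degree_lt_iff_coeff_zero _ _).2 fun m hm' => ?_))
    obtain ⟨m, rfl⟩ : ∃ j, m = j + 1 := ⟨m - 1, by have := hi.natDegree_pos; omega⟩
    rw [coeff_sub, coeff_C_mul, coeff_X_mul]
    rcases hm'.eq_or_lt with e | e
    · rw [← e, hm.coeff_natDegree, e, mul_one, Nat.add_sub_cancel, sub_self]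
    · rw [coeff_eq_zero_of_natDegree_lt e, coeff_eq_zero_of_degree_lt
        (hc.trans_le (degree_le_of_natDegree_le (Nat.le_of_lt_succ e))), mul_zero, sub_zero]

theorem ResS_simple (f : RatFunc k) (S : Finset (Pl k)) (hS : ∀ v ∉ S, av v (uu v * f) < 1)
    (h : ∀ v, av v (uu v * f) ≤ 1) : ∑ v ∈ S, res p v (algebraMap _ _ f) = 0 := by
  classical
  have e0 : ∑ v ∈ S, res p v (algebraMap _ _ f) =
      ∑ v ∈ insert none (S.erase none), res p v (algebraMap _ _ f) := by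
    refine Finset.sum_subset (fun v hv => by by_cases h : v = none <;> simp [h, hv])
      fun v _ hv => res_small ?_
    have := hS v hv
    rwa [← norm_alg, map_mul] at this
  obtain ⟨c, c1, c2⟩ := pf_simple (y := f) (S.erase none) (by simp) (fun v hv => by
      have := h v
      rw [map_mul, av_uu, if_neg (Finset.ne_of_mem_erase hv)] at this
      linarith)
    (fun v hv h0 => by
      have := hS v fun h => hv (Finset.mem_erase.2 ⟨h0, h⟩)
      rw [map_mul, av_uu, if_neg h0] at this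
      by_cases f0 : f = 0
      · simp [f0]
      obtain ⟨n, hn⟩ := av_disc v f f0
      rw [hn] at this ⊢
      have : (2 : ℝ) ^ n < 2 ^ (1 : ℤ) := by
        rw [zpow_one]
        linarith
      exact zpow_le_one_of_nonpos₀ one_le_two
        (by have := (zpow_lt_zpow_iff_right₀ one_lt_two).1 this; omega))
    (by
      have := h none
      rw [map_mul, av_uu, if_pos rfl] at this
      linarith)
  rw [e0, c2]
  simp only [map_sum]
  rw [Finset.sum_comm]
  refine Finset.sum_eq_zero fun w hw => ?_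
  have w0 := Finset.ne_of_mem_erase hw
  rw [Finset.sum_insert (by simp), Finset.sum_eq_single_of_mem w hw fun v hv e => ?_]
  · exact ResS_one w0 (c1 w)
  have v0 := Finset.ne_of_mem_erase hv
  refine res_int v0 ?_
  rw [norm_alg, map_div₀, (av_poly_le v0 (plp w)).antisymm (not_lt.1 fun h => e ?_), div_one]
  · exact av_poly_le v0 _
  obtain _ | ⟨P, hm, hi⟩ := v
  · exact (v0 rfl).elim
  obtain _ | ⟨Q, hm', hi'⟩ := w
  · exact (w0 rfl).elim
  exact congrArg some (Subtype.ext (eq_of_monic_of_associated hm hm'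
    (hi.associated_of_dvd hi' ((av_poly_lt v0 _).1 h))))

theorem ResS_car (v : Pl k) (f : RatFunc k) : av v (uu v * cK p f) ^ p ≤ av v (uu v * f) := by
  rw [← norm_alg, ← norm_alg, map_mul, map_mul, alg_cK]
  exact norm_car v _

theorem ResS_ind (S : Finset (Pl k)) (N : ℕ) : ∀ f : RatFunc k, (∀ v ∉ S, av v (uu v * f) < 1) →
    (∀ v, av v (uu v * f) ≤ 2 ^ N) → ∑ v ∈ S, res p v (algebraMap _ _ f) = 0 := by
  induction N with
  | zero => exact fun f h1 h2 => ResS_simple f S h1 (by simpa using h2)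
  | succ N ih =>
    intro f h1 h2
    rw [← ih (cK p f) (fun v hv => (pow_lt_one_iff_of_nonneg (apply_nonneg _ _) hp.out.ne_zero).1
      ((ResS_car v f).trans_lt (h1 v hv))) fun v => ?_]
    · simp only [alg_cK, res_car]
    have h3 := (ResS_car (p := p) v f).trans (h2 v)
    by_cases f0 : uu v * cK p f = 0
    · simp [f0]
    obtain ⟨n, hn⟩ := av_disc v _ f0
    rw [hn, ← zpow_natCast, ← zpow_natCast, ← zpow_mul, zpow_le_zpow_iff_right₀ one_lt_two] at h3
    rw [hn, ← zpow_natCast, zpow_le_zpow_iff_right₀ one_lt_two]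
    have : (2 : ℤ) ≤ p := by exact_mod_cast hp.out.two_le
    push_cast at h3
    nlinarith

theorem res_sum (f : RatFunc k) (S : Finset (Pl k))
    (hS : ∀ v ∉ S, av v (uu v * f) < 1) : ∑ v ∈ S, res p v (algebraMap _ _ f) = 0 := by
  obtain ⟨N, hN⟩ := pow_unbounded_of_one_lt (∑ v ∈ S, av v (uu v * f)) one_lt_two
  refine ResS_ind S N f hS fun v => ?_
  by_cases hv : v ∈ S
  · exact (Finset.single_le_sum (f := fun v => av v (uu v * f))
      (fun _ _ => apply_nonneg _ _) hv).trans hN.le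
  · exact (hS v hv).le.trans (one_le_pow₀ one_le_two)

end Pool.Agent.ASel
end

-- merged part: Pool.Agent.Work.MP_60d5ce_nt.AS.Hasse
section
/-!
# The Hasse principle for forms (plan in the header of `Wp.lean`)
-/

namespace Pool.Agent.ASel

open Polynomial Pool.Agent.Smith

theorem Hasse_count {V W : Type} [AddCommGroup V] [Finite V] [AddCommGroup W] (φ : V →+ V)
    (ρ : V →+ W) (h0 : ∀ x, ρ (φ x) = 0) (hs : Function.Surjective ρ)
    (hk : Nat.card φ.ker ≤ Nat.card W) {x : V} (hx : ρ x = 0) : ∃ y, φ y = x := by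
  have h1 := φ.ker.card_mul_index
  have h2 := ρ.ker.card_mul_index
  rw [AddSubgroup.index_ker] at h1 h2
  rw [AddMonoidHom.range_eq_top.2 hs, AddSubgroup.card_top] at h2
  have : Finite W := Finite.of_surjective ρ hs
  have h3 : Nat.card ρ.ker ≤ Nat.card φ.range := by
    refine Nat.le_of_mul_le_mul_right ?_ (Nat.card_pos (α := W))
    rw [h2, ← h1, mul_comm]
    exact Nat.mul_le_mul_left _ hk
  have h4 : φ.range = ρ.ker := AddSubgroup.eq_of_le_of_card_ge (by
    rintro _ ⟨y, rfl⟩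
    exact h0 y) h3
  exact h4.ge hx

variable {k : Type} [Field k] {p : ℕ}

theorem Hasse_add {v : Pl k} {x y : RatFunc k} {B : ℝ} (hx : av v x ≤ B) (hy : av v y ≤ B) :
    av v (x + y) ≤ B := (av_na v x y).trans (max_le hx hy)

theorem Hasse_sub {v : Pl k} {x y : RatFunc k} {B : ℝ} (hx : av v x ≤ B) (hy : av v y ≤ B) :
    av v (x - y) ≤ B := by
  rw [sub_eq_add_neg]
  exact Hasse_add hx (by rwa [AbsoluteValue.map_neg])

theorem Hasse_sum {v : Pl k} {S : Finset (Pl k)} {f : Pl k → RatFunc k} {B : ℝ} (hB : 0 ≤ B)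
    (h : ∀ i ∈ S, av v (f i) ≤ B) : av v (∑ i ∈ S, f i) ≤ B :=
  Finset.sum_induction f (fun x => av v x ≤ B) (fun _ _ => Hasse_add) (by rwa [map_zero]) h

theorem Hasse_nat (v : Pl k) (m : ℕ) (x : RatFunc k) : av v (m * x) ≤ av v x := by
  rw [map_mul]
  exact mul_le_of_le_one_left ((av v).nonneg _) (av_na v).apply_natCast_le_one

theorem Hasse_frac {v : Pl k} (hv : v ≠ none) {c : k[X]} (hc : c.degree < (plp v).degree) :
    (∀ v' : Pl k, v' ≠ none → v' ≠ v →
      av v' (algebraMap k[X] (RatFunc k) c / algebraMap k[X] _ (plp v)) ≤ 1) ∧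
    av (none : Pl k) (algebraMap k[X] (RatFunc k) c / algebraMap k[X] _ (plp v)) ≤ 2⁻¹ ∧
    av v (algebraMap k[X] (RatFunc k) c / algebraMap k[X] _ (plp v)) ≤ 2 := by
  refine ⟨fun v' h1 h2 => ?_, ?_, ?_⟩
  · have h3 : ¬ plp v' ∣ plp v := by
      obtain ⟨P, rfl⟩ := Option.ne_none_iff_exists'.1 hv
      obtain ⟨Q, rfl⟩ := Option.ne_none_iff_exists'.1 h1
      exact fun h => h2 (congrArg some (Subtype.ext
        (eq_of_monic_of_associated Q.2.1 P.2.1 (Q.2.2.associated_of_dvd P.2.2 h))))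
    rw [map_div₀, le_antisymm (av_poly_le h1 (plp v)) (not_lt.1 fun h => h3 ((av_poly_lt h1 _).1 h)),
      div_one]
    exact av_poly_le h1 c
  · by_cases h0 : c = 0
    · rw [h0, map_zero, zero_div, map_zero]
      norm_num
    have h1 : plp v ≠ 0 := fun h => by simp [h] at hc
    rw [map_div₀, av_inf h0, av_inf h1, div_le_iff₀ (by positivity), inv_mul_eq_div,
      le_div_iff₀ two_pos, ← pow_succ]
    exact pow_le_pow_right₀ one_le_two (natDegree_lt_natDegree h0 hc)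
  · rw [map_div₀, av_plp hv, div_inv_eq_mul]
    linarith [av_poly_le hv c]

theorem Hasse_uu {v : Pl k} (hv : v ≠ none) (m : ℕ) :
    (∀ v' : Pl k, v' ≠ none → v' ≠ v → av v' ((m : RatFunc k) / uu v) ≤ 1) ∧
      av (none : Pl k) ((m : RatFunc k) / uu v) ≤ 2⁻¹ := by
  obtain ⟨P, rfl⟩ := Option.ne_none_iff_exists'.1 hv
  have h := Hasse_frac hv (c := derivative P.1) (degree_derivative_lt P.2.2.ne_zero)
  have e : (m : RatFunc k) / uu (some P) =
      m * (algebraMap k[X] (RatFunc k) (derivative P.1) / algebraMap k[X] _ (plp (some P))) := by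
    rw [div_eq_mul_inv, uu, inv_div, plp]
  rw [e]
  exact ⟨fun v' h1 h2 => (Hasse_nat _ _ _).trans (h.1 v' h1 h2), (Hasse_nat _ _ _).trans h.2.1⟩

theorem Hasse_off {S : Finset (Pl k)} (h0 : none ∉ S) (m : Pl k → ℕ) {v : Pl k} (hv : v ≠ none)
    (hS : v ∉ S) : av v (∑ i ∈ S, (m i : RatFunc k) / uu i) ≤ 1 :=
  Hasse_sum zero_le_one fun i hi =>
    (Hasse_uu (fun e => h0 (e ▸ hi)) (m i)).1 v hv fun e => hS (e ▸ hi)

theorem Hasse_on {S : Finset (Pl k)} (h0 : none ∉ S) (m : Pl k → ℕ) {v : Pl k} (hv : v ∈ S)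
    {x : Lv v} (h : ‖x - m v / uL v‖ ≤ 1) :
    ‖x - algebraMap _ _ (∑ i ∈ S, (m i : RatFunc k) / uu i)‖ ≤ 1 := by
  classical
  have h1 := Hasse_off (S := S.erase v) (fun e => h0 (Finset.mem_of_mem_erase e)) m
    (fun e => h0 (e ▸ hv)) (Finset.notMem_erase v S)
  rw [← norm_alg, ← norm_neg] at h1
  rw [← Finset.add_sum_erase _ _ hv, map_add, map_div₀, map_natCast, ← sub_sub, sub_eq_add_neg]
  exact (IsUltrametricDist.norm_add_le_max _ _).trans (max_le h h1)

variable [Fintype k]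

theorem Hasse_uL (v : Pl k) : ‖uL v‖ = if v = none then 2 else 2⁻¹ := by
  rw [uL, norm_alg, av_uu]

/-- functions with bounded poles -/
def Hasse_V (S : Finset (Pl k)) (n : ℕ) : AddSubgroup (RatFunc k) where
  carrier := {f | (∀ v, v ∈ S ∨ v = none → av v (uu v * f) ≤ 2 ^ n) ∧
    ∀ v ∉ S, v ≠ none → av v f ≤ 1}
  add_mem' ha hb := ⟨fun v hv => by
    rw [mul_add]
    exact Hasse_add (ha.1 v hv) (hb.1 v hv), fun v h1 h2 => Hasse_add (ha.2 v h1 h2) (hb.2 v h1 h2)⟩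
  zero_mem' := ⟨fun v _ => by
    rw [mul_zero, map_zero]
    positivity, fun v _ _ => by
    rw [map_zero]
    exact zero_le_one⟩
  neg_mem' ha := ⟨fun v hv => by
    rw [mul_neg, AbsoluteValue.map_neg]
    exact ha.1 v hv, fun v h1 h2 => by
    rw [AbsoluteValue.map_neg]
    exact ha.2 v h1 h2⟩

theorem Hasse_fin (S : Finset (Pl k)) (n : ℕ) : Finite (Hasse_V S n) := by
  classical
  choose T _ hT using fun v : Pl k => card_ball v (n + 1)
  obtain ⟨Y, -, hY⟩ := card_bounded (insert none S) T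
  refine (Y.finite_toSet.subset fun y hy => hY y (fun v hv => hT v _ ?_) fun v hv => ?_).to_subtype
  · have h := hy.1 v (Finset.mem_insert.1 hv).symm
    have h1 := (av v).nonneg y
    have h2 : (0 : ℝ) < 2 ^ n := by positivity
    rw [map_mul, av_uu] at h
    rw [norm_alg, pow_succ]
    split_ifs at h <;> linarith
  · rw [Finset.mem_insert, not_or] at hv
    exact hy.2 v hv.2 hv.1

variable [hp : Fact p.Prime] [CharP k p]

theorem Hasse_loc {v : Pl k} (hv : v ≠ none) {x : Lv v} (h : ‖uL v * (x - cL p v x)‖ < 1) :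
    ∃ m : ℕ, ‖x - m / uL v‖ ≤ 1 := by
  obtain ⟨m, hm⟩ := c_simple h
  have h0 : uL v ≠ 0 := fun e => by
    have := Hasse_uL v
    rw [e, norm_zero, if_neg hv] at this
    norm_num at this
  refine ⟨m, (int_iff hv _).1 ?_⟩
  rwa [mul_sub, mul_div_cancel₀ _ h0]

theorem Hasse_fix (S : Finset (Pl k)) (m : Pl k → ℕ) :
    cK p (∑ i ∈ S, (m i : RatFunc k) / uu i) = ∑ i ∈ S, (m i : RatFunc k) / uu i := by
  rw [map_sum]
  refine Finset.sum_congr rfl fun i _ => ?_
  rw [div_eq_mul_inv, ← nsmul_eq_mul, map_nsmul, cK, car_inv_uu]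

/-- fixed forms whose finite poles lie in `S` -/
theorem cK_fixed {w : RatFunc k} (h : cK p w = w) (S : Finset (Pl k)) (h0 : none ∉ S)
    (hS : ∀ v ∉ S, v ≠ none → av v w ≤ 1) :
    ∃ m : Pl k → ZMod p, w = ∑ v ∈ S, ((m v).val : RatFunc k) / uu v := by
  have h1 : ∀ v : Pl k, ‖uL v * (algebraMap _ _ w - cL p v (algebraMap _ _ w))‖ < 1 := fun v => by
    rw [← alg_cK, h, sub_self, mul_zero, norm_zero]
    exact one_pos
  choose! m hm using fun (v : Pl k) (hv : v ≠ none) => Hasse_loc hv (h1 v)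
  refine ⟨fun v => m v, ?_⟩
  have e : ∀ v, (((m v : ZMod p).val : ℕ) : RatFunc k) = m v := fun v => by
    rw [ZMod.val_natCast, CharP.cast_eq_mod (RatFunc k) p (m v)]
  simp only [e]
  refine sub_eq_zero.1 (eq_zero_of_small (fun v hv => ?_) ?_)
  · by_cases hv' : v ∈ S
    · rw [← norm_alg, map_sub]
      exact Hasse_on h0 m hv' (hm v hv)
    · exact Hasse_sub (hS v hv' hv) (Hasse_off h0 m hv hv')
  · obtain ⟨n, hn⟩ := c_simple (h1 none)
    have h2 : ‖uL (none : Pl k) * algebraMap _ _ w‖ ≤ 1 := by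
      rw [← sub_add_cancel (uL (none : Pl k) * algebraMap _ _ w) n]
      exact (IsUltrametricDist.norm_add_le_max _ _).trans
        (max_le hn.le (IsUltrametricDist.norm_natCast_le_one _ n))
    rw [norm_mul, Hasse_uL, if_pos rfl, norm_alg] at h2
    refine (Hasse_sub (B := 2⁻¹) (by linarith) (Hasse_sum (by norm_num) fun i hi =>
      (Hasse_uu (fun e => h0 (e ▸ hi)) (m i)).2)).trans_lt (by norm_num)

theorem Hasse_car {S : Finset (Pl k)} {n : ℕ} {f : RatFunc k} (hf : f ∈ Hasse_V S n) :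
    cK p f ∈ Hasse_V S n := by
  refine ⟨fun v hv => ?_, fun v h1 h2 => ?_⟩
  · have h := hf.1 v hv
    rw [← norm_alg, map_mul] at h ⊢
    rw [alg_cK]
    have h1 := (norm_car (p := p) v (algebraMap _ _ f)).trans h
    refine not_lt.1 fun h2 => absurd h1 (not_le.2 (h2.trans_le ?_))
    exact le_self_pow₀ ((one_le_pow₀ one_le_two).trans h2.le) hp.1.ne_zero
  · rw [← norm_alg, alg_cK]
    exact cL_int h2 (by rw [norm_alg]; exact hf.2 v h1 h2)

theorem Hasse_elt {S : Finset (Pl k)} (h0 : none ∉ S) (n : ℕ) {v : Pl k} (hv : v ∈ S) :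
    ∃ e ∈ Hasse_V S n, res p v (algebraMap _ _ e) ≠ 0 ∧
      ∀ v' ∈ S, v' ≠ v → res p v' (algebraMap _ _ e) = 0 := by
  have hv' : v ≠ none := fun e => h0 (e ▸ hv)
  have h1 := mt (res_nd_pol (p := p) hv' (f := 1) norm_one.le) (by simp)
  push Not at h1
  obtain ⟨c, hc, h1⟩ := h1
  obtain ⟨a1, a2, a3⟩ := Hasse_frac hv' hc
  have b : (1 : ℝ) ≤ 2 ^ n := one_le_pow₀ one_le_two
  refine ⟨algebraMap k[X] (RatFunc k) c / algebraMap k[X] _ (plp v), ⟨fun i hi => ?_,
    fun i h2 h3 => a1 i h3 fun e => h2 (e ▸ hv)⟩, ?_, fun i hi h2 => res_int (fun e => h0 (e ▸ hi)) ?_⟩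
  · rw [map_mul, av_uu]
    split_ifs with h2
    · rw [h2]
      linarith
    · by_cases h3 : i = v
      · rw [h3]
        linarith
      · linarith [a1 i h2 h3]
  · rw [mul_one] at h1
    rw [map_div₀]
    exact h1
  · rw [norm_alg]
    exact a1 i (fun e => h0 (e ▸ hi)) h2

theorem hasse {θ : RatFunc k} (h : ∀ v : Pl k, res p v (algebraMap _ _ θ) = 0) :
    ∃ η : RatFunc k, η - cK p η = θ := by
  classical
  set S : Finset (Pl k) := (fin_poles θ).toFinset.erase none with hS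
  have h0 : none ∉ S := Finset.notMem_erase _ _
  obtain ⟨n, hn⟩ : ∃ n : ℕ, ∀ v ∈ insert none S, av v (uu v * θ) ≤ 2 ^ n := by
    obtain ⟨B, hB⟩ := (insert none S).finite_toSet.image (fun v => av v (uu v * θ)) |>.bddAbove
    obtain ⟨n, hn⟩ := pow_unbounded_of_one_lt B (one_lt_two (α := ℝ))
    exact ⟨n, fun v hv => (hB (Set.mem_image_of_mem _ hv)).trans hn.le⟩
  have hθ : θ ∈ Hasse_V S n := ⟨fun v hv => hn v (Finset.mem_insert.2 hv.symm), fun v h1 h2 =>
    not_lt.1 fun h3 => h1 (Finset.mem_erase.2 ⟨h2, (fin_poles θ).mem_toFinset.2 h3⟩)⟩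
  have := Hasse_fin S n
  let φ : Hasse_V S n →+ Hasse_V S n :=
    AddMonoidHom.id _ - ((cK p).comp (Hasse_V S n).subtype).codRestrict _ fun f => Hasse_car f.2
  have hφ : ∀ f, (φ f).1 = f.1 - cK p f.1 := fun _ => rfl
  let ρ : Hasse_V S n →+ S → ZMod p := AddMonoidHom.pi fun v =>
    (res p v.1).comp ((algebraMap (RatFunc k) (Lv v.1)).toAddMonoidHom.comp (Hasse_V S n).subtype)
  have hρ : ∀ f v, ρ f v = res p v.1 (algebraMap _ _ f.1) := fun _ _ => rfl
  obtain ⟨y, hy⟩ := Hasse_count φ ρ (fun x => funext fun v => by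
    rw [hρ, hφ, map_sub, map_sub, alg_cK, res_car, sub_self, Pi.zero_apply]) (fun x => by
      choose e e1 e2 e3 using fun v : S => Hasse_elt (p := p) h0 n v.2
      refine ⟨∑ v : S, (x v / res p v.1 (algebraMap _ _ (e v))).val • ⟨e v, e1 v⟩, funext fun v => ?_⟩
      rw [map_sum, Finset.sum_apply, Finset.sum_eq_single v (fun i _ hi => ?_) (by simp)]
      · rw [map_nsmul, Pi.smul_apply, hρ, nsmul_eq_mul, ZMod.natCast_zmod_val,
          div_mul_cancel₀ _ (e2 v)]
      · rw [map_nsmul, Pi.smul_apply, hρ, e3 i v v.2 fun k => hi (Subtype.ext k).symm, smul_zero])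
    (by
      choose m hm using fun f : φ.ker => cK_fixed (p := p) (w := f.1.1)
        (sub_eq_zero.1 ((hφ f.1).symm.trans (congrArg Subtype.val f.2))).symm S h0 f.1.2.2
      refine Nat.card_le_card_of_injective (fun f (v : S) => m f v) fun f g e => ?_
      refine Subtype.ext (Subtype.ext ?_)
      rw [hm f, hm g]
      exact Finset.sum_congr rfl fun v hv => by rw [show m f v = m g v from congrFun e ⟨v, hv⟩])
    (x := ⟨θ, hθ⟩) (funext fun v => h v.1)
  exact ⟨y, (hφ y).symm.trans (congrArg Subtype.val hy)⟩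

/-- Hasse principle with prescribed polar parts -/
theorem hasse' {θ : RatFunc k} (h : ∀ v : Pl k, res p v (algebraMap _ _ θ) = 0)
    (S T : Finset (Pl k)) (hT : none ∉ T) (h1 : ∀ v, v ∉ S → v ∉ T → v ≠ none → av v θ ≤ 1)
    (ξ : ∀ v : Pl k, Lv v) (hξ : ∀ v ∈ T, ξ v - cL p v (ξ v) = algebraMap _ _ θ) :
    ∃ η : RatFunc k, η - cK p η = θ ∧ (∀ v ∈ T, ‖algebraMap _ _ η - ξ v‖ ≤ 1) ∧
      ∀ v, v ∉ S → v ∉ T → v ≠ none → av v η ≤ 1 := by
  classical
  obtain ⟨η, hη⟩ := hasse h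
  have hL : ∀ v : Pl k, algebraMap _ (Lv v) η - cL p v (algebraMap _ _ η) = algebraMap _ _ θ :=
    fun v => by rw [← alg_cK, ← map_sub, hη]
  set R : Finset (Pl k) := T ∪ ((fin_poles η).toFinset.erase none \ S) with hR
  have h0 : none ∉ R := by simp [hR, hT]
  have key : ∀ v ∈ R, ∃ m : ℕ,
      ‖algebraMap _ (Lv v) η - (if v ∈ T then ξ v else 0) - m / uL v‖ ≤ 1 := by
    intro v hv
    have hv' : v ≠ none := fun e => h0 (e ▸ hv)
    refine Hasse_loc (p := p) hv' ?_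
    split_ifs with h2
    · rw [map_sub, sub_sub_sub_comm, hL, hξ v h2, sub_self, mul_zero, norm_zero]
      exact one_pos
    · rw [sub_zero, hL, int_iff hv', norm_alg]
      exact h1 v (Finset.mem_sdiff.1 ((Finset.mem_union.1 hv).resolve_left h2)).2 h2 hv'
  choose! m hm using key
  refine ⟨η - ∑ i ∈ R, (m i : RatFunc k) / uu i, ?_, fun v hv => ?_, fun v h2 h3 h4 => ?_⟩
  · rw [map_sub, Hasse_fix, sub_sub_sub_cancel_right, hη]
  · have h2 := Hasse_on h0 m (Finset.mem_union_left _ hv) (hm v (Finset.mem_union_left _ hv))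
    rwa [if_pos hv, sub_right_comm, ← map_sub] at h2
  · by_cases h5 : v ∈ R
    · have h6 := Hasse_on h0 m h5 (hm v h5)
      rwa [if_neg h3, sub_zero, ← map_sub, norm_alg] at h6
    · refine Hasse_sub (not_lt.1 fun h6 => h5 (Finset.mem_union_right _ ?_)) (Hasse_off h0 m h4 h5)
      exact Finset.mem_sdiff.2 ⟨Finset.mem_erase.2 ⟨h4, (fin_poles η).mem_toFinset.2 h6⟩, h2⟩

end Pool.Agent.ASel
end

-- merged part: Pool.Agent.Work.MP_60d5ce_nt.AG.FDef
section
/-!
# The interface between the Selmer groups and the function field complexes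

`ASF`: Artin-Schreier roots `w0` of `d` and `w l` of `h l` that can be moved independently.  `K2` is the
field `K(w l)`, `L2 v ι` its completion along `ι`.  `Stg`: outside the primes of `F` and `∞` the poles of `d` divide
`b` and have order `< p`; the `h l` are regular outside `b`, and split at `∞`, at the primes of `F` and at the
anomalous primes of `b`.
`LatD`: a lattice `M` with the relation `Rep u a w` (the class of `u` modulo `σ0 - 1` is the class of
the cocycle `(a, w)` of the complex `y ↦ (y ^ p / A - y, -(y ^ p / A) ϖ)`, `(a, w) ↦ w - C (w / A) + a ϖ`).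
-/

namespace Pool.Agent.ASel

open Polynomial Pool.Agent.Smith

noncomputable section

variable (p : ℕ) (k : Type) [Field k]

/-- the absolute Galois group -/
abbrev Gk : Type := Kb k ≃ₐ[RatFunc k] Kb k

/-- a family of independent Artin-Schreier roots -/
structure ASF (ι : Type) where
  d : RatFunc k
  h : ι → RatFunc k
  w0 : Kb k
  w : ι → Kb k
  hw0 : w0 ^ p - w0 = algebraMap _ _ d
  hw : ∀ l, w l ^ p - w l = algebraMap _ _ (h l)
  σ0 : Gk k
  γ : (ι → ZMod p) → Gk k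
  σ_w0 : σ0 w0 = w0 + 1
  σ_w : ∀ l, σ0 (w l) = w l
  γ_w0 : ∀ g, γ g w0 = w0
  γ_w : ∀ g l, γ g (w l) = w l + ((g l).val : Kb k)

variable {p k} {ι : Type}

/-- the field generated by the `w l` -/
def ASF.K2 (Φ : ASF p k ι) (x : Kb k) : Prop :=
  x ∈ Om (RatFunc k) (Kb k) ∧ ∀ σ : Gk k, (∀ l, σ (Φ.w l) = Φ.w l) → σ x = x

/-- the local field generated by the `w l` -/
def ASF.L2 (Φ : ASF p k ι) (v : Pl k) (j : Kb k →ₐ[RatFunc k] Lb v) (y : Lb v) : Prop :=
  y ∈ Om (Lv v) (Lb v) ∧ ∀ τ : Lb v ≃ₐ[Lv v] Lb v, (∀ l, τ (j (Φ.w l)) = j (Φ.w l)) → τ y = y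

/-- the member `d + ∑ e l * h l` of the family -/
def ASF.de [Fintype ι] (Φ : ASF p k ι) (e : ι → ZMod p) : RatFunc k :=
  Φ.d + ∑ l, ((e l).val : RatFunc k) * Φ.h l

/-- the bad places of the curve -/
def InS0 (F : k[X]) (v : Pl k) : Prop := v = none ∨ plp v ∣ F

variable (p) in
/-- the bad places and the anomalous primes of `b` -/
def InS (A F b : k[X]) (v : Pl k) : Prop := InS0 F v ∨ (plp v ∣ b ∧ Anom p A (plp v))

/-- the standing hypotheses on a family -/
structure Stg (A F b : k[X]) (Φ : ASF p k ι) : Prop where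
  b_ne : b ≠ 0
  cop : IsCoprime b F
  d_le : ∀ v, av v Φ.d ≤ 2 ^ F.natDegree
  d_lt : ∀ v, ¬ InS0 F v → av v Φ.d < 2 ^ p
  d_int : ∀ v, ¬ InS0 F v → ¬ plp v ∣ b → av v Φ.d ≤ 1
  h_int : ∀ l v, v = none ∨ ¬ plp v ∣ b → av v (Φ.h l) ≤ 1
  split : ∀ l v, InS p A F b v → ∃ s : Lv v, ‖s‖ ≤ 1 ∧ s ^ p - s = algebraMap _ _ (Φ.h l)

variable [Fintype k] [hp : Fact p.Prime] [CharP k p]

variable (p) in
/-- the Cartier operator of the separable closure -/
def cB : Kb k →+ Kb k := car p (Om (RatFunc k) (Kb k)) (tv k (Kb k))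

/-- a lattice with its map to the cohomology of the complex of type `(ϖ, ε)` -/
structure LatD (A F b : k[X]) (n0 : ℕ) (Φ : ASF p k ι) (ϖ : RatFunc k) (ε : ℤ) : Type 1 where
  M : Type
  [grp : AddCommGroup M]
  ac : Gk k → M →+ M
  Rep : M → Kb k → Kb k → Prop
  ac_mul : ∀ σ τ u, ac (σ * τ) u = ac σ (ac τ u)
  ac_triv : ∀ σ u, σ Φ.w0 = Φ.w0 → (∀ l, σ (Φ.w l) = Φ.w l) → ac σ u = u
  comm : ∀ σ τ u, ac σ (ac τ u) = ac τ (ac σ u)
  norm : ∀ u, ∑ i ∈ Finset.range p, (ac Φ.σ0)^[i] u = 0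
  tf : ∀ u, ac Φ.σ0 u = u → u = 0
  ex : ∀ u, ∃ a w, Rep u a w
  mem : ∀ {u a w}, Rep u a w → Φ.K2 a ∧ Φ.K2 w
  sub : ∀ {u a w u' a' w'}, Rep u a w → Rep u' a' w' → Rep (u - u') (a - a') (w - w')
  act : ∀ {u a w} (σ : Gk k), Rep u a w → Rep (ac σ u) (σ a) (σ w)
  cob : ∀ {u a w y}, Rep u a w → Φ.K2 y →
    Rep u (a + (y ^ p / pk _ A - y)) (w - y ^ p / pk _ A * algebraMap _ _ ϖ)
  uniq : ∀ {a w}, Rep 0 a w → ∃ y, Φ.K2 y ∧ a = y ^ p / pk _ A - y ∧
    w = -(y ^ p / pk _ A * algebraMap _ _ ϖ)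
  ker : ∀ {u}, Rep u 0 0 → ∃ u', u = ac Φ.σ0 u' - u'
  coc : ∀ {u a w}, Rep u a w → w - cB p (w / pk _ A) + a * algebraMap _ _ ϖ = 0
  et0 : ∀ {u a w}, Rep u a w → ∀ v, InS0 F v → ∀ j : Kb k →ₐ[RatFunc k] Lb v, ∃ y : Lv v,
    nm v (j a - algebraMap _ _ (y ^ p / pk _ A - y)) ≤ 2 ^ n0
  et1 : ∀ {u a w}, Rep u a w → ∀ v, v ≠ none → plp v ∣ b → Anom p A (plp v) →
    ∀ j : Kb k →ₐ[RatFunc k] Lb v, ∃ y t : Lv v, t ^ p / pk _ A - t = 0 ∧
      nm v (j a - algebraMap _ _ (y ^ p / pk _ A - y + t * algebraMap _ _ Φ.d)) ≤ 1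
  iso : ∀ {u a w u' a' w'}, Rep u a w → Rep u' a' w' → ∀ v, InS p A F b v →
    ∀ (j : Kb k →ₐ[RatFunc k] Lb v) (θ : Lv v),
      algebraMap _ _ θ = j (a * w' + ε • (a' * w) + a * a' * algebraMap _ _ ϖ) → res p v θ = 0
  na : ∀ {u a w}, Rep u a w → ∀ v, v ≠ none → plp v ∣ b → ¬ Anom p A (plp v) →
    ∀ j : Kb k →ₐ[RatFunc k] Lb v, ∃ y, Φ.L2 v j y ∧ j a = y ^ p / pk _ A - y
  good : ∀ {u a w}, Rep u a w → ∀ v, v ≠ none → ¬ plp v ∣ F * b →
    ∀ j : Kb k →ₐ[RatFunc k] Lb v, ∃ y, Φ.L2 v j y ∧ nm v (j a - (y ^ p / pk _ A - y)) ≤ 1 ∧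
      nm v (j w + y ^ p / pk _ A * algebraMap (RatFunc k) _ ϖ) ≤ 1

attribute [instance] LatD.grp

/-- the lattice has an eigenvector for the character `e` with a good class -/
def LatD.GoodEig [Fintype ι] {A F b : k[X]} {n0 : ℕ} {Φ : ASF p k ι} {ϖ : RatFunc k} {ε : ℤ}
    (L : LatD A F b n0 Φ ϖ ε) (e : ι → ZMod p) : Prop :=
  ∃ u a w, (∀ g, L.ac (Φ.γ g) u = (L.ac Φ.σ0)^[(∑ l, e l * g l).val] u) ∧ L.Rep u a w ∧
    (∀ y, Φ.K2 y → a ≠ y ^ p / pk _ A - y) ∧ (ϖ = 0 → w ≠ 0)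

variable (p) in
/-- there is a form `α x ^ 2 + β x + γ` on `x ^ p - x = d` fixed by `C (· / A)`, with `α ≠ 0`, and `α`, `β`
regular outside `F b` and vanishing to order `Mx` at `v0` -/
def Tight (A F b : k[X]) (v0 : Pl k) (Mx : ℕ) (d : RatFunc k) : Prop :=
  ∃ α β γ : RatFunc k, α ≠ 0 ∧ cK p (α / pk _ A) = α ∧ cK p ((β - 2 * d * α) / pk _ A) = β ∧
    cK p ((γ - d * β + d ^ 2 * α) / pk _ A) = γ ∧
    (∀ v, v ≠ none → ¬ plp v ∣ F * b → av v α ≤ 1 ∧ av v β ≤ 1) ∧
    av v0 α ≤ 2⁻¹ ^ Mx ∧ av v0 β ≤ 2⁻¹ ^ Mx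

variable (p) in
/-- the arithmetic data of the curve -/
structure Ari (A F : k[X]) (v0 : Pl k) (ϖ0 : RatFunc k) : Prop where
  five : 5 ≤ p
  F_ne : F ≠ 0
  dvd : A ∣ F
  v0_mem : InS0 F v0
  nr : ∀ t : RatFunc k, t ^ (p - 1) ≠ pk _ A
  ϖ_ne : ϖ0 ≠ 0
  car_ϖ : cK p (ϖ0 / pk _ A ^ 2) = ϖ0
  ϖ_int : ∀ v, ¬ InS0 F v → av v ϖ0 ≤ 1

variable (p) in
/-- the output of the study of the Selmer groups -/
def Sec2 (A F : k[X]) (v0 : Pl k) (ϖ0 : RatFunc k) (BadD : RatFunc k → Prop) : Prop :=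
  ∀ Mx : ℕ, ∃ (n0 I : ℕ) (ϖ : Fin I → RatFunc k) (ε : Fin I → ℤ),
    (∀ i, (ϖ i = ϖ0 ∧ ε i = 1) ∨ (ϖ i = 0 ∧ (ε i = 1 ∨ ε i = -1))) ∧
    ∀ (ι : Type) [Fintype ι] (b : k[X]) (Φ : ASF p k ι), Stg A F b Φ →
      ∃ L : ∀ i, LatD A F b n0 Φ (ϖ i) (ε i), ∀ e, BadD (Φ.de e) →
        (∃ i, (L i).GoodEig e) ∨ Tight p A F b v0 Mx (Φ.de e)

end

end Pool.Agent.ASel
end

-- merged part: Pool.Agent.Work.MP_60d5ce_nt.AG.TDef
section
/-!
# Tate modules of the Selmer groups: the abstract data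

`K1` is the field `K(w0, w l)`, `L1 v j` its completion along `j`.  `T n` is the part of the Tate module
of the Selmer group of level `n` over `K1` that is killed by the norm of `σ0`; `Kap u a w` says that
`(a, w)` represents the first component of `u`.
-/

namespace Pool.Agent.ASel

open Polynomial Pool.Agent.Smith

noncomputable section

variable {p : ℕ} {k : Type} [Field k] {ι : Type}

/-- the field generated by `w0` and the `w l` -/
def ASF.K1 (Φ : ASF p k ι) (x : Kb k) : Prop :=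
  x ∈ Om (RatFunc k) (Kb k) ∧ ∀ σ : Gk k, σ Φ.w0 = Φ.w0 → (∀ l, σ (Φ.w l) = Φ.w l) → σ x = x

/-- the local field generated by `w0` and the `w l` -/
def ASF.L1 (Φ : ASF p k ι) (v : Pl k) (j : Kb k →ₐ[RatFunc k] Lb v) (y : Lb v) : Prop :=
  y ∈ Om (Lv v) (Lb v) ∧ ∀ τ : Lb v ≃ₐ[Lv v] Lb v, τ (j Φ.w0) = j Φ.w0 →
    (∀ l, τ (j (Φ.w l)) = j (Φ.w l)) → τ y = y

/-- the root of the member `e` of the family -/
def ASF.we [Fintype ι] (Φ : ASF p k ι) (e : ι → ZMod p) : Kb k :=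
  Φ.w0 + ∑ l, ((e l).val : Kb k) * Φ.w l

/-- the constant of level `n` -/
def vpn (ϖ0 : RatFunc k) (n : ℕ) : RatFunc k := if n = 0 then ϖ0 else 0

variable [Fintype k] [hp : Fact p.Prime] [CharP k p]

/-- Tate data -/
structure TD (A F b : k[X]) (v0 : Pl k) (ϖ0 : RatFunc k) (B : ℕ → ℕ) (Φ : ASF p k ι) : Type 1 where
  T : ℕ → Type
  [grp : ∀ n, AddCommGroup (T n)]
  ac : ∀ n, Gk k → T n →+ T n
  Fr : ∀ n, T n →+ T (n + 1)
  Ve : ∀ n, T (n + 1) →+ T n
  Kap : ∀ n, T n → Kb k → Kb k → Prop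
  ρ : ℕ
  ρ_ne : (ρ : Kb k) ≠ 0
  ac_mul : ∀ n σ τ u, ac n (σ * τ) u = ac n σ (ac n τ u)
  ac_triv : ∀ n σ u, σ Φ.w0 = Φ.w0 → (∀ l, σ (Φ.w l) = Φ.w l) → ac n σ u = u
  norm : ∀ n u, ∑ i ∈ Finset.range p, (ac n Φ.σ0)^[i] u = 0
  FV : ∀ n u, Fr n (Ve n u) = p • u
  VF : ∀ n u, Ve n (Fr n u) = p • u
  F_ac : ∀ n σ u, Fr n (ac n σ u) = ac (n + 1) σ (Fr n u)
  V_ac : ∀ n σ u, Ve n (ac (n + 1) σ u) = ac n σ (Ve n u)
  ptf : ∀ n (u : T n), p • u = 0 → u = 0
  sep : ∀ n (u : T n), (∀ m : ℕ, ∃ u', u = p ^ m • u') → u = 0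
  ex : ∀ n u, ∃ a w, Kap n u a w
  mem : ∀ {n u a w}, Kap n u a w → Φ.K1 a ∧ Φ.K1 w
  sub : ∀ {n u a w u' a' w'}, Kap n u a w → Kap n u' a' w' → Kap n (u - u') (a - a') (w - w')
  act : ∀ {n u a w} (σ : Gk k), Kap n u a w → Kap n (ac n σ u) (σ a) (σ w)
  cob : ∀ {n u a w y}, Kap n u a w → Φ.K1 y →
    Kap n u (a + (y ^ p / pk _ A - y)) (w - y ^ p / pk _ A * algebraMap _ _ (vpn ϖ0 n))
  uniq : ∀ {n u a w}, Kap n (p • u) a w → ∃ y, Φ.K1 y ∧ a = y ^ p / pk _ A - y ∧
    w = -(y ^ p / pk _ A * algebraMap _ _ (vpn ϖ0 n))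
  ker : ∀ {n u}, Kap n u 0 0 → ∃ u', u = p • u'
  noT : ∀ y, Φ.K1 y → y ^ p / pk _ A - y = 0 → y = 0
  coc : ∀ {n u a w}, Kap n u a w → w - cB p (w / pk _ A) + a * algebraMap _ _ (vpn ϖ0 n) = 0
  kF : ∀ {n u a w}, Kap n u a w → Kap (n + 1) (Fr n u) a 0
  kV : ∀ {n u a w}, Kap (n + 1) u a w → Kap n (Ve n u) 0 (ρ * w)
  et0 : ∀ {n u a w}, Kap n u a w → ∀ v, InS0 F v → ∀ j : Kb k →ₐ[RatFunc k] Lb v,
    ∃ y, Φ.L1 v j y ∧ nm v (j a - (y ^ p / pk _ A - y)) ≤ 2 ^ B n
  et1 : ∀ {n u a w}, Kap n u a w → ∀ v, ¬ InS0 F v → ∀ j : Kb k →ₐ[RatFunc k] Lb v,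
    ∃ y, Φ.L1 v j y ∧ nm v (j a - (y ^ p / pk _ A - y)) ≤ 1
  good : ∀ {n u a w}, Kap n u a w → ∀ v, v ≠ none → ¬ plp v ∣ F * b →
    ∀ j : Kb k →ₐ[RatFunc k] Lb v, ∃ y, Φ.L1 v j y ∧ nm v (j a - (y ^ p / pk _ A - y)) ≤ 1 ∧
      nm v (j w + y ^ p / pk _ A * algebraMap (RatFunc k) _ (vpn ϖ0 n)) ≤ 1
  iso : ∀ {n u a w u' a' w'}, Kap n u a w → Kap n u' a' w' →
    ∀ (v : Pl k) (j : Kb k →ₐ[RatFunc k] Lb v), ∃ η, Φ.L1 v j η ∧
      j (a * w' + a' * w + a * a' * algebraMap _ _ (vpn ϖ0 n)) =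
        η - car p (Om (Lv v) (Lb v)) (tv k (Lb v)) η
  tight : ∀ {n u w} (m : ℕ), B m ≤ n → Kap (n + 1) u 0 w → ∀ j : Kb k →ₐ[RatFunc k] Lb v0,
    nm v0 (j w) ≤ 2⁻¹ ^ m

attribute [instance] TD.grp

end

end Pool.Agent.ASel
end

-- merged part: Pool.Agent.Work.MP_60d5ce_nt.AS.FZ
section
/-!
# Families indexed by subsets: shifts, the top pairing, moments  (AS, function field side)

A family `f : Finset (Fin n) → F` is the element `∑ f I * x_I` of `F[x_1, …, x_n] / (x_i ^ 2)`.  `sh c f` is the product with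
`∏ (1 + c i * x_i)`, `tp f f'` the top coefficient of `ι f * f'` (`ι x_i = - x_i`), `dl τ = τ * x_1 ⋯ x_n`.

PLAN.  `sh_sh`: for `L ⊆ I`, `∑ L ⊆ J ⊆ I, ∏ (I \ J) c * ∏ (J \ L) c' = ∏ (I \ L) (c + c')` (`Finset.prod_add`).
`tp_sh_left`: reindex the pairs `J ⊆ I` by `(J, Iᶜ)`; `tp_sh` follows with `sh_sh`, `sh_zero`.
`dl_mem`: `D i f = sh (Pi.single i 1) f - f` has `D i f I = if i ∈ I then f (I.erase i) else 0`; by induction on a finset `T` the family
`fun I => if T ⊆ I then f (I \ T) else 0` (for both components) lies in `V`; take `T = univ`.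
`card_dev`: induct on a finset `T` of indices closed under subsets, or on the number of families: the map `x ↦ x I` on the subgroup of the
`x` that vanish on all `J` with `J.card < I.card` or (same card and earlier in a fixed enumeration); simplest: order `Finset (Fin n)` by
an injection to `ℕ` that is monotone (`I ↦ ∑ i ∈ I, 2 ^ i`), and bound the image of `𝓕` in the first `N` coordinates by `card ^ N`.
-/

set_option linter.unusedSectionVars false

namespace Pool.Agent.ASel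

open Finset

section ring

variable {F F' : Type} [CommRing F] [CommRing F'] {n : ℕ}

/-- multiplication by `∏ (1 + c i * x_i)` -/
def sh (c : Fin n → F) (f : Finset (Fin n) → F) (I : Finset (Fin n)) : F :=
  ∑ J ∈ I.powerset, (∏ i ∈ I \ J, c i) * f J

/-- the top coefficient of `ι f * f'` -/
def tp (f f' : Finset (Fin n) → F) : F := ∑ I, (-1) ^ I.card * (f I * f' Iᶜ)

/-- the family concentrated at the top -/
def dl (n : ℕ) (τ : F) : Finset (Fin n) → F := fun I => if I = univ then τ else 0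

theorem sh_sh (c c' : Fin n → F) (f : Finset (Fin n) → F) : sh c (sh c' f) = sh (c + c') f := by
  funext I
  simp only [sh, mul_sum, Pi.add_apply, prod_add, sum_mul]
  rw [sum_comm' (t' := I.powerset) (s' := fun L => I.powerset.filter (L ⊆ ·)) fun J L => by
    simp only [mem_powerset, mem_filter]
    exact ⟨fun h => ⟨h, h.2.trans h.1⟩, fun h => h.1⟩]
  refine sum_congr rfl fun L hL => sum_nbij' (I \ ·) (I \ ·) (fun J hJ => ?_) (fun J hJ => ?_)
    (fun J hJ => ?_) (fun J hJ => ?_) fun J hJ => ?_ <;>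
    simp only [mem_powerset, mem_filter] at hL hJ ⊢
  · exact sdiff_subset_sdiff Subset.rfl hJ.2
  · exact ⟨sdiff_subset, subset_sdiff.2 ⟨hL, (subset_sdiff.1 hJ).2.symm⟩⟩
  · exact Finset.sdiff_sdiff_eq_self hJ.1
  · exact Finset.sdiff_sdiff_eq_self (hJ.trans sdiff_subset)
  · have e : (I \ L) \ (I \ J) = J \ L := by
      ext k
      simp only [mem_sdiff, not_and, not_not]
      exact ⟨fun h => ⟨h.2 h.1.1, h.1.2⟩, fun h => ⟨⟨hJ.1 h.1, h.2⟩, fun _ => h.1⟩⟩
    rw [e, mul_assoc]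

theorem sh_zero (f : Finset (Fin n) → F) : sh 0 f = f := by
  funext I
  rw [sh, sum_eq_single I, Finset.sdiff_self, prod_empty, one_mul]
  · intro J hJ hne
    obtain ⟨k, hk⟩ := sdiff_nonempty.2 fun h => hne (Subset.antisymm (mem_powerset.1 hJ) h)
    rw [prod_eq_zero hk rfl, zero_mul]
  · exact fun h => absurd (mem_powerset_self I) h

theorem sh_empty (c : Fin n → F) (f : Finset (Fin n) → F) : sh c f ∅ = f ∅ := by
  simp [sh]

theorem sh_add (c : Fin n → F) (f g : Finset (Fin n) → F) : sh c (f + g) = sh c f + sh c g := by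
  funext I
  simp only [sh, Pi.add_apply, mul_add, sum_add_distrib]

theorem sh_sub (c : Fin n → F) (f g : Finset (Fin n) → F) : sh c (f - g) = sh c f - sh c g := by
  funext I
  simp only [sh, Pi.sub_apply, mul_sub, sum_sub_distrib]

theorem sh_mul (c : Fin n → F) (f : Finset (Fin n) → F) (x : F) (I : Finset (Fin n)) :
    sh c (fun J => f J * x) I = sh c f I * x := by
  simp only [sh, sum_mul, mul_assoc]

theorem map_sh (φ : F →+* F') (c : Fin n → F) (f : Finset (Fin n) → F) (I : Finset (Fin n)) :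
    φ (sh c f I) = sh (fun i => φ (c i)) (fun J => φ (f J)) I := by
  simp only [sh, map_sum, map_mul, map_prod]

theorem sh_eq (c : Fin n → F) (f : Finset (Fin n) → F) (I : Finset (Fin n)) :
    sh c f I = f I + ∑ J ∈ I.ssubsets, (∏ i ∈ I \ J, c i) * f J := by
  rw [sh, ← add_sum_erase _ _ (mem_powerset_self I), Finset.sdiff_self, prod_empty, one_mul]
  rfl

theorem sh_of_lower (c : Fin n → F) (f : Finset (Fin n) → F) (I : Finset (Fin n))
    (h : ∀ J, J ⊂ I → f J = 0) : sh c f I = f I := by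
  rw [sh_eq, sum_eq_zero fun J hJ => by rw [h J (mem_ssubsets.1 hJ), mul_zero], add_zero]

theorem sh_dl (c : Fin n → F) (τ : F) : sh c (dl n τ) = dl n τ := by
  exact funext fun I => sh_of_lower c _ I fun J hJ =>
    if_neg fun e : J = univ => hJ.2 (e ▸ subset_univ I)

theorem tp_add_left (f g f' : Finset (Fin n) → F) : tp (f + g) f' = tp f f' + tp g f' := by
  simp only [tp, Pi.add_apply, add_mul, mul_add, sum_add_distrib]

theorem tp_add_right (f f' g' : Finset (Fin n) → F) : tp f (f' + g') = tp f f' + tp f g' := by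
  simp only [tp, Pi.add_apply, mul_add, sum_add_distrib]

theorem tp_sub_left (f g f' : Finset (Fin n) → F) : tp (f - g) f' = tp f f' - tp g f' := by
  simp only [tp, Pi.sub_apply, sub_mul, mul_sub, sum_sub_distrib]

theorem tp_sub_right (f f' g' : Finset (Fin n) → F) : tp f (f' - g') = tp f f' - tp f g' := by
  simp only [tp, Pi.sub_apply, mul_sub, sum_sub_distrib]

theorem tp_mul_left (f f' : Finset (Fin n) → F) (x : F) :
    tp (fun I => f I * x) f' = tp f f' * x := by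
  simp only [tp, sum_mul]
  exact sum_congr rfl fun I _ => by ring

theorem tp_mul_right (f f' : Finset (Fin n) → F) (x : F) :
    tp f (fun I => f' I * x) = tp f f' * x := by
  simp only [tp, sum_mul, mul_assoc]

theorem map_tp (φ : F →+* F') (f f' : Finset (Fin n) → F) :
    φ (tp f f') = tp (fun I => φ (f I)) fun I => φ (f' I) := by
  simp only [tp, map_sum, map_mul, map_pow, map_neg, map_one]

theorem tp_sh_left (c : Fin n → F) (f f' : Finset (Fin n) → F) :
    tp (sh c f) f' = tp f (sh (-c) f') := by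
  simp only [tp, sh, mul_sum, sum_mul]
  rw [sum_comm' (t' := univ) (s' := fun J => univ.filter (J ⊆ ·)) fun I J => by simp]
  refine sum_congr rfl fun J _ => sum_nbij' (·ᶜ) (·ᶜ) (fun I hI => ?_) (fun I hI => ?_)
    (fun I _ => compl_compl I) (fun I _ => compl_compl I) fun I hI => ?_ <;>
    simp only [mem_powerset, mem_filter, mem_univ, true_and] at hI ⊢
  · exact compl_subset_compl.2 hI
  · exact subset_compl_comm.1 hI
  · have e : Jᶜ \ Iᶜ = I \ J := by
      ext k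
      simp only [mem_sdiff, mem_compl, not_not, and_comm]
    simp only [e, Pi.neg_apply, prod_neg]
    rw [← card_sdiff_add_card_eq_card hI, pow_add]
    ring

theorem tp_sh (c : Fin n → F) (f f' : Finset (Fin n) → F) : tp (sh c f) (sh c f') = tp f f' := by
  rw [tp_sh_left, sh_sh, neg_add_cancel, sh_zero]

theorem tp_dl_left (τ : F) (f' : Finset (Fin n) → F) : tp (dl n τ) f' = (-1) ^ n * (τ * f' ∅) := by
  rw [tp, sum_eq_single univ]
  · simp [dl]
  · exact fun I _ h => by simp [dl, h]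
  · simp

theorem tp_dl_right (f : Finset (Fin n) → F) (τ : F) : tp f (dl n τ) = f ∅ * τ := by
  rw [tp, sum_eq_single ∅]
  · simp [dl]
  · exact fun I _ h => by simp [dl, h]
  · simp

theorem dl_empty (hn : 0 < n) (τ : F) : dl n τ ∅ = 0 := by
  exact if_neg fun h : ∅ = univ => notMem_empty (⟨0, hn⟩ : Fin n) (h ▸ mem_univ _)

theorem tp_zero_dim (f f' : Finset (Fin 0) → F) : tp f f' = f ∅ * f' ∅ := by
  have e : ∀ I : Finset (Fin 0), I = ∅ := fun I => eq_empty_of_isEmpty I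
  rw [tp, sum_eq_single ∅ (fun I _ h => absurd (e I) h) fun h => absurd (mem_univ _) h, e ∅ᶜ]
  simp

theorem FZ_D (i : Fin n) (f : Finset (Fin n) → F) (I : Finset (Fin n)) :
    sh (Pi.single i 1) f I - f I = if i ∈ I then f (I.erase i) else 0 := by
  have z : ∀ J ∈ I.ssubsets, ¬ (i ∈ I ∧ J = I.erase i) →
      (∏ k ∈ I \ J, (Pi.single i 1 : Fin n → F) k) * f J = 0 := by
    intro J hJ h
    have hJ' := mem_ssubsets.1 hJ
    by_contra h0
    have a : ∀ k ∈ I, k ∉ J → k = i := fun k h1 h2 => by_contra fun h3 =>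
      h0 (by rw [prod_eq_zero (mem_sdiff.2 ⟨h1, h2⟩) (Pi.single_eq_of_ne h3 _), zero_mul])
    obtain ⟨k, k1, k2⟩ := exists_of_ssubset hJ'
    obtain rfl := a k k1 k2
    refine h ⟨k1, ext fun l => ⟨fun hl => mem_erase.2 ⟨fun e => k2 (e ▸ hl), hJ'.1 hl⟩,
      fun hl => by_contra fun h1 => (mem_erase.1 hl).1 (a l (mem_erase.1 hl).2 h1)⟩⟩
  rw [sh_eq, add_sub_cancel_left]
  split_ifs with h
  · rw [sum_eq_single (I.erase i) (fun J hJ hne => z J hJ fun e => hne e.2)
      fun e => absurd (mem_ssubsets.2 (erase_ssubset h)) e, sdiff_erase_self h, prod_singleton,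
      Pi.single_eq_same, one_mul]
  · exact sum_eq_zero fun J hJ => z J hJ fun e => h e.1

theorem FZ_step {i : Fin n} {T : Finset (Fin n)} (hi : i ∉ T) (f : Finset (Fin n) → F) :
    (fun I => if insert i T ⊆ I then f (I \ insert i T) else 0) =
      sh (Pi.single i 1) (fun I => if T ⊆ I then f (I \ T) else 0) -
        fun I => if T ⊆ I then f (I \ T) else 0 := by
  funext I
  rw [Pi.sub_apply, FZ_D, sdiff_insert, erase_sdiff_comm]
  simp only [insert_subset_iff, subset_erase, hi, not_false_eq_true, and_true, ite_and]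

theorem dl_mem (V : AddSubgroup ((Finset (Fin n) → F) × (Finset (Fin n) → F)))
    (hV : ∀ i, ∀ x ∈ V, (sh (Pi.single i 1) x.1, sh (Pi.single i 1) x.2) ∈ V)
    {x : (Finset (Fin n) → F) × (Finset (Fin n) → F)} (hx : x ∈ V) :
    (dl n (x.1 ∅), dl n (x.2 ∅)) ∈ V := by
  have key : ∀ T : Finset (Fin n), ((fun I => if T ⊆ I then x.1 (I \ T) else 0),
      fun I => if T ⊆ I then x.2 (I \ T) else 0) ∈ V := fun T => by
    induction T using Finset.induction_on with
    | empty => simpa using hx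
    | insert i T hi ih =>
      rw [FZ_step hi, FZ_step hi]
      exact V.sub_mem (hV i _ ih) ih
  have e : ∀ f : Finset (Fin n) → F,
      dl n (f ∅) = fun I => if univ ⊆ I then f (I \ univ) else 0 := fun f => by
    funext I
    simp only [dl, univ_subset_iff, sdiff_eq_empty_iff_subset.2 (subset_univ I)]
  rw [e, e]
  exact key univ

theorem FZ_neg (C : F →+ F) (k : ℕ) (z : F) : C ((-1) ^ k * z) = (-1) ^ k * C z := by
  rcases neg_one_pow_eq_or F k with h | h <;> simp [h]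

variable {p : ℕ} (C : F →+ F) (S : Subring F) (hC : ∀ y ∈ S, ∀ f ∈ S, C (y ^ p * f) = y * C f)
include hC

theorem car_sh {c : Fin n → F} {f : Finset (Fin n) → F} (hc : ∀ i, c i ∈ S) (hf : ∀ I, f I ∈ S)
    (I : Finset (Fin n)) : C (sh (fun i => c i ^ p) f I) = sh c (fun J => C (f J)) I := by
  simp only [sh, map_sum, prod_pow]
  exact sum_congr rfl fun J _ => hC _ (prod_mem fun i _ => hc i) _ (hf J)

theorem car_tp_left {y f : Finset (Fin n) → F} (hy : ∀ I, y I ∈ S) (hf : ∀ I, f I ∈ S) :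
    C (tp (fun I => y I ^ p) f) = tp y fun I => C (f I) := by
  simp only [tp, map_sum, FZ_neg, hC _ (hy _) _ (hf _)]

theorem car_tp_right {y f : Finset (Fin n) → F} (hy : ∀ I, y I ∈ S) (hf : ∀ I, f I ∈ S) :
    C (tp f fun I => y I ^ p) = tp (fun I => C (f I)) y := by
  simp only [tp, map_sum, FZ_neg]
  exact sum_congr rfl fun I _ => by rw [mul_comm (f I), hC _ (hy _) _ (hf _), mul_comm (y _)]

theorem car_tp_both {y y' : Finset (Fin n) → F} (hy : ∀ I, y I ∈ S) (hy' : ∀ I, y' I ∈ S) {x : F}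
    (hx : x ∈ S) : C (tp (fun I => y I ^ p) (fun I => y' I ^ p) * x) = tp y y' * C x := by
  simp only [tp, sum_mul, map_sum, ← mul_pow, mul_assoc ((-1) ^ _ : F), FZ_neg,
    hC _ (mul_mem (hy _) (hy' _)) _ hx]

end ring

section norm

variable {F : Type} [Field F] {n : ℕ} {w : AbsoluteValue F ℝ} (hw : IsNonarchimedean w)
include hw

theorem sh_le {c : Fin n → F} {f : Finset (Fin n) → F} {b B : ℝ} (hb : 1 ≤ b) (hc : ∀ i, w (c i) ≤ b)
    (hf : ∀ I, w (f I) ≤ B) (I : Finset (Fin n)) : w (sh c f I) ≤ b ^ n * B := by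
  obtain ⟨J, -, hJ⟩ := hw.finset_image_add_of_nonempty (fun J => (∏ i ∈ I \ J, c i) * f J)
    (powerset_nonempty I)
  refine hJ.trans ?_
  rw [map_mul, map_prod]
  refine mul_le_mul ((prod_le_prod (fun i _ => w.nonneg _) fun i _ => hc i).trans
    ((prod_const b).trans_le (pow_le_pow_right₀ hb ?_))) (hf J) (w.nonneg _) (by positivity)
  simpa using card_le_univ (I \ J)

theorem tp_le {f f' : Finset (Fin n) → F} {B B' : ℝ} (hf : ∀ I, w (f I) ≤ B)
    (hf' : ∀ I, w (f' I) ≤ B') : w (tp f f') ≤ B * B' := by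
  obtain ⟨I, -, hI⟩ := hw.finset_image_add_of_nonempty
    (fun I : Finset (Fin n) => (-1) ^ I.card * (f I * f' Iᶜ)) univ_nonempty
  refine hI.trans ?_
  rw [map_mul, map_mul, map_pow, w.map_neg, map_one, one_pow, one_mul]
  exact mul_le_mul (hf _) (hf' _) (w.nonneg _) ((w.nonneg _).trans (hf I))

end norm

/-- counting families by induction on the index -/
theorem card_dev {V : Type} [AddCommGroup V] {n : ℕ} (𝓕 : AddSubgroup (Finset (Fin n) → V))
    (T : Finset V) (h : ∀ x ∈ 𝓕, ∀ I, (∀ J, J ⊂ I → x J = 0) → x I ∈ T) :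
    (𝓕 : Set (Finset (Fin n) → V)).Finite ∧
      (𝓕 : Set (Finset (Fin n) → V)).ncard ≤ T.card ^ 2 ^ n := by
  classical
  obtain ⟨r, r1, r2⟩ : ∃ r : Finset (Fin n) → (Finset (Fin n) → V) → Finset (Fin n) → V,
      (∀ I, ∀ x ∈ 𝓕, r I x ∈ 𝓕 ∧ ∀ J, J ⊂ I → r I x J = x J) ∧
      ∀ I x x', (∀ J, J ⊂ I → x J = x' J) → r I x = r I x' :=
    ⟨fun I x => Classical.epsilon fun y => y ∈ 𝓕 ∧ ∀ J, J ⊂ I → y J = x J,
      fun I x hx => Classical.epsilon_spec (p := fun y => y ∈ 𝓕 ∧ ∀ J, J ⊂ I → y J = x J)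
        ⟨x, hx, fun _ _ => rfl⟩,
      fun I x x' e => congrArg Classical.epsilon (funext fun y => propext
        (and_congr_right' (forall₂_congr fun J hJ => by rw [e J hJ])))⟩
  have m : Set.MapsTo (fun x I => x I - r I x I) (𝓕 : Set (Finset (Fin n) → V))
      (Fintype.piFinset fun _ : Finset (Fin n) => T) := fun x hx =>
    Fintype.mem_piFinset.2 fun I => h _ (𝓕.sub_mem hx (r1 I x hx).1) I fun J hJ =>
      sub_eq_zero.2 ((r1 I x hx).2 J hJ).symm
  have i : Set.InjOn (fun x I => x I - r I x I) (𝓕 : Set (Finset (Fin n) → V)) := by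
    intro x _ x' _ e
    funext I
    induction I using Finset.strongInduction with
    | H I ih =>
      have := congrFun e I
      simp only [r2 I x x' ih] at this
      exact sub_left_injective this
  refine ⟨Set.Finite.of_injOn m i (finite_toSet _),
    (Set.ncard_le_ncard_of_injOn _ m i (finite_toSet _)).trans_eq ?_⟩
  rw [Set.ncard_coe_finset, Fintype.card_piFinset, prod_const, card_univ, Fintype.card_finset,
    Fintype.card_fin]

end Pool.Agent.ASel
end

-- merged part: Pool.Agent.Work.MP_60d5ce_nt.AS.FMom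
section
/-!
# Moments of functions on a finite group  (AS, function field side)

PLAN.  `mom_shift`: substitute `g ↦ g - ρ`, expand `∏ (χ i g - χ i ρ)` (`Finset.prod_add` / `prod_sub`).  `mom_conv`: exchange the sums, substitute
`g = g' + h`, expand `∏ (χ i g' + χ i h)`.  `top_eq`: substitute `g = g' - g1`, expand `∏ i, (χ i g' - χ i g1)` as a sum over `I`
(`Finset.prod_add`, `Fintype.prod_add`), `χ' g = χ' g' - χ' g1`; `β` is `ZMod p`-bilinear because it is biadditive (`AddMonoidHom.toZModLinearMap`).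
-/

set_option linter.unusedSectionVars false

namespace Pool.Agent.ASel

open Finset

variable {p n : ℕ} {G V : Type} [AddCommGroup G] [Fintype G] [AddCommGroup V] [Module (ZMod p) V]

theorem alg_val [NeZero p] {F : Type} [CommRing F] [Algebra (ZMod p) F] (x : ZMod p) :
    algebraMap (ZMod p) F x = (x.val : F) := by
  rw [← map_natCast (algebraMap (ZMod p) F), ZMod.natCast_zmod_val]

theorem smul_val [NeZero p] {F : Type} [CommRing F] [Algebra (ZMod p) F] (x : ZMod p) (y : F) :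
    x • y = (x.val : F) * y := by
  rw [Algebra.smul_def, alg_val]

/-- the multilinear moments of `f` -/
def mom (χ : Fin n → G →+ ZMod p) (f : G → V) (I : Finset (Fin n)) : V :=
  ∑ g, (∏ i ∈ I, χ i g) • f g

theorem map_mom {V' : Type} [AddCommGroup V'] [Module (ZMod p) V'] (φ : V →+ V')
    (χ : Fin n → G →+ ZMod p) (f : G → V) (I : Finset (Fin n)) :
    φ (mom χ f I) = mom χ (fun g => φ (f g)) I := by
  simp only [mom, map_sum, ZMod.map_smul]

theorem mom_empty (χ : Fin n → G →+ ZMod p) (f : G → V) : mom χ f ∅ = ∑ g, f g := by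
  simp only [mom, prod_empty, one_smul]

theorem mom_add (χ : Fin n → G →+ ZMod p) (f f' : G → V) (I : Finset (Fin n)) :
    mom χ (f + f') I = mom χ f I + mom χ f' I := by
  simp only [mom, Pi.add_apply, smul_add, sum_add_distrib]

theorem mom_sum {κ : Type} (s : Finset κ) (χ : Fin n → G →+ ZMod p) (c : κ → ZMod p) (f : κ → G → V)
    (I : Finset (Fin n)) :
    mom χ (fun g => ∑ i ∈ s, c i • f i g) I = ∑ i ∈ s, c i • mom χ (f i) I := by
  simp only [mom, smul_sum]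
  rw [sum_comm]
  exact sum_congr rfl fun i _ => sum_congr rfl fun g _ => smul_comm _ _ _

theorem mom_shift [NeZero p] {F : Type} [CommRing F] [Algebra (ZMod p) F] (χ : Fin n → G →+ ZMod p)
    (f : G → F) (ρ : G) (I : Finset (Fin n)) :
    mom χ (fun g => f (g + ρ)) I = sh (fun i => -((χ i ρ).val : F)) (mom χ f) I := by
  have e : ∀ J : Finset (Fin n), ∏ i ∈ J, -((χ i ρ).val : F) =
      algebraMap (ZMod p) F (∏ i ∈ J, -χ i ρ) := fun J => by
    simp only [map_prod, map_neg, alg_val]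
  simp only [mom, sh, e, ← Algebra.smul_def, smul_sum, smul_smul]
  rw [sum_comm, ← Equiv.sum_comp (Equiv.addRight (-ρ))]
  refine sum_congr rfl fun g _ => ?_
  simp only [Equiv.coe_addRight, neg_add_cancel_right, map_add, map_neg, prod_add, sum_smul]
  exact sum_congr rfl fun J _ => by rw [mul_comm]

theorem mom_mul [NeZero p] {F : Type} [CommRing F] [Algebra (ZMod p) F] (χ : Fin n → G →+ ZMod p)
    (f : G → F) (x : F) (I : Finset (Fin n)) :
    mom χ (fun g => x * f g) I = x * mom χ f I := by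
  simp only [mom, mul_sum, mul_smul_comm]

theorem mom_conv (χ : Fin n → G →+ ZMod p) (dd : G → ZMod p) (ρ : G → V)
    (h : ∀ I : Finset (Fin n), ∑ g, dd g * ∏ i ∈ I, χ i g = 0) (I : Finset (Fin n)) :
    mom χ (fun g => ∑ h, dd h • ρ (g - h)) I = 0 := by
  have e : ∀ k : G, ∑ g, (∏ i ∈ I, χ i g) • dd k • ρ (g - k) =
      ∑ g, ∑ J ∈ I.powerset, (dd k * ∏ i ∈ J, χ i k) • (∏ i ∈ I \ J, χ i g) • ρ g := fun k => by
    rw [← Equiv.sum_comp (Equiv.addLeft k)]
    refine sum_congr rfl fun g _ => ?_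
    simp only [Equiv.coe_addLeft, map_add, add_sub_cancel_left, prod_add, smul_smul, sum_smul,
      sum_mul]
    exact sum_congr rfl fun J _ => congrArg (· • ρ g) (by ring)
  simp only [mom, smul_sum]
  rw [sum_comm]
  simp only [e]
  rw [sum_comm]
  refine sum_eq_zero fun g _ => ?_
  rw [sum_comm]
  exact sum_eq_zero fun J _ => by rw [← sum_smul, h, zero_smul]

theorem FMom_pair (χ : Fin n → G →+ ZMod p) (β : V →+ V →+ ZMod p) (X X' : G → V)
    (I J : Finset (Fin n)) : β (mom χ X I) (mom χ X' J) =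
      ∑ g', ∑ g, (∏ i ∈ I, χ i g) * (∏ i ∈ J, χ i g') * β (X g) (X' g') := by
  rw [map_mom (β (mom χ X I)), mom]
  refine sum_congr rfl fun g' _ => ?_
  have := map_mom (β.flip (X' g')) χ X I
  rw [AddMonoidHom.flip_apply] at this
  rw [this, mom, smul_sum]
  exact sum_congr rfl fun g _ => by
    rw [AddMonoidHom.flip_apply, smul_eq_mul, smul_eq_mul]; ring

theorem top_eq (χ : Fin n → G →+ ZMod p) (χ' : G →+ ZMod p) (β : V →+ V →+ ZMod p) (X X' : G → V) :
    ∑ g, (∑ g', β (X (g' - g)) (X' g')) * ((∏ i, χ i g) * χ' g) =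
      ∑ I : Finset (Fin n), (-1) ^ I.card *
        (β (mom χ X I) (mom χ (fun g => χ' g • X' g) Iᶜ) -
          β (mom χ (fun g => χ' g • X g) I) (mom χ X' Iᶜ)) := by
  have e1 : ∀ (c : ZMod p) (x y : V), β (c • x) y = c * β x y := fun c x y =>
    ZMod.map_smul (β.flip y) c x
  have e2 : ∀ (c : ZMod p) (x y : V), β x (c • y) = c * β x y := fun c x y =>
    ZMod.map_smul (β x) c y
  simp only [FMom_pair, e1, e2, ← sum_sub_distrib, sum_mul, mul_sum]
  rw [sum_comm, sum_comm (s := (univ : Finset (Finset (Fin n))))]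
  refine sum_congr rfl fun g' _ => ?_
  rw [sum_comm (s := (univ : Finset (Finset (Fin n)))), ← Equiv.sum_comp (Equiv.subLeft g')]
  refine sum_congr rfl fun g _ => ?_
  have e3 : ∏ i, χ i (g' - g) = ∏ i, (-χ i g + χ i g') :=
    prod_congr rfl fun i _ => by rw [map_sub]; ring
  simp only [Equiv.subLeft_apply, sub_sub_cancel]
  rw [e3, Fintype.prod_add, map_sub, sum_mul, mul_sum]
  refine sum_congr rfl fun I _ => ?_
  rw [prod_neg]
  ring

end Pool.Agent.ASel
end

-- merged part: Pool.Agent.Work.MP_60d5ce_nt.AS.FEq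
section
/-!
# Equivariant families  (AS, function field side)

`M` is an algebraic closure of `F`, `w l` are Artin-Schreier roots over `F`.  `Eqv F w`: the families `g ↦ γ_g x` for `x` in `F(w)`.
`Eq1 F W`: the families that transform like the moments of such a family.

PLAN.  `exists_rho`: `σ w - w` is a root of `x ^ p = x` (`wp_ker` with `A = l = 1`).  `sum_th`: `∑ c : ZMod p, (w + c) ^ (p - 1) = -1`
(binomial theorem and `FiniteField.sum_pow_lt_card_sub_one`, or the derivative of `∏ (X + c) = X ^ p - X`), `Fintype.prod_sum`/`Finset.prod_univ_sum`.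
`Eqv.poly`: the monomials `∏ (w l + g l) ^ m l`, `m : ι → Fin p`, are a basis of the functions on the grid (tensor product of Vandermonde matrices; or induct with
Lagrange interpolation; or count dimensions after showing independence); write `f` in this basis with coefficients `c m ∈ M`; applying `σ` and uniqueness gives `σ (c m) = c m`;
the `c m` are separable (solve the linear system in the subfield `Om`, i.e. do the linear algebra over the field `Om F M`); `om_fix`.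
`Eq1.hat`: `σ (sh W f) = sh (W + χ) (sh (-χ) f)` (`map_sh`, `sh_sh`).  `eqv_of_wp`: `τ (y g) - y (g + ρ)` is a root of `y ^ p / A = y`, so is `m * l` (`wp_ker`), and it is fixed by the
automorphisms that fix all `w l` (a normal subgroup: conjugates also fix the `w l`, by `exists_rho`); `move_root` gives one that moves `l`.
`move_root`: `l` is separable and not in `F`, so some `τ` moves it, `τ l = c l` with `c ^ (p-1) = 1`, `c ≠ 1`; take `τ ^ p`.
-/

set_option linter.unusedSectionVars false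

namespace Pool.Agent.ASel

open Finset

variable (p : ℕ) (F : Type) {M : Type} [Field F] [Field M] [Algebra F M] {ι : Type} {n : ℕ}

/-- equivariant families on the group -/
def Eqv (w : ι → M) : AddSubgroup ((ι → ZMod p) → M) where
  carrier := {f | (∀ g, f g ∈ Om F M) ∧ ∀ (σ : M ≃ₐ[F] M) (ρ : ι → ZMod p),
    (∀ l, σ (w l) = w l + ((ρ l).val : M)) → ∀ g, σ (f g) = f (g + ρ)}
  zero_mem' := ⟨fun _ => zero_mem _, fun σ _ _ _ => map_zero σ⟩
  add_mem' := fun ha hb => ⟨fun g => add_mem (ha.1 g) (hb.1 g), fun σ ρ h g => by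
    simp only [Pi.add_apply, map_add, ha.2 σ ρ h g, hb.2 σ ρ h g]⟩
  neg_mem' := fun ha => ⟨fun g => neg_mem (ha.1 g), fun σ ρ h g => by
    simp only [Pi.neg_apply, map_neg, ha.2 σ ρ h g]⟩

/-- equivariant families on the subsets -/
def Eq1 (W : Fin n → M) : AddSubgroup (Finset (Fin n) → M) where
  carrier := {f | (∀ I, f I ∈ Om F M) ∧ ∀ (σ : M ≃ₐ[F] M) (χ : Fin n → ZMod p),
    (∀ i, σ (W i) = W i + ((χ i).val : M)) → ∀ I, σ (f I) = sh (fun i => -((χ i).val : M)) f I}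
  zero_mem' := ⟨fun _ => zero_mem _, fun σ _ _ _ => by simp [sh]⟩
  add_mem' := fun ha hb => ⟨fun I => add_mem (ha.1 I) (hb.1 I), fun σ χ h I => by
    rw [sh_add]
    simp only [Pi.add_apply, map_add, ha.2 σ χ h I, hb.2 σ χ h I]⟩
  neg_mem' := fun {a} ha => ⟨fun I => neg_mem (ha.1 I), fun σ χ h I => by
    simp only [Pi.neg_apply, map_neg, ha.2 σ χ h I, sh, mul_neg, Finset.sum_neg_distrib]⟩

/-- Artin-Schreier roots over `F` -/
def ASr (w : ι → M) : Prop := ∀ l, ∃ h : F, w l ^ p - w l = algebraMap F M h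

variable {F}

/-- a family with sum one -/
def th [Fintype ι] (w : ι → M) (g : ι → ZMod p) : M := ∏ l, -(w l + ((g l).val : M)) ^ (p - 1)

/-- the pairing of the family with its dual -/
def prg [Fintype ι] (e : ι → ZMod p) : (ι → ZMod p) →+ ZMod p where
  toFun g := ∑ l, e l * g l
  map_zero' := by simp
  map_add' g g' := by simp [mul_add, Finset.sum_add_distrib]

variable {p} [hp : Fact p.Prime] [CharP F p] [CharP M p] [IsAlgClosure F M] {w : ι → M}
  {W : Fin n → M}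

theorem FEq_val (x : ZMod p) : (x.val : M) = ZMod.castHom (dvd_refl p) M x := by
  rw [ZMod.castHom_apply, ZMod.natCast_val]

theorem FEq_add (x y : ZMod p) : ((x + y).val : M) = x.val + y.val := by
  simp only [FEq_val, map_add]

theorem FEq_frob (m : ℕ) : (m : M) ^ p = m := map_natCast (frobenius M p) m

theorem FEq_neg (m : ℕ) : (-m : M) ^ p = -m := by
  rw [neg_pow, neg_one_pow_char, FEq_frob, neg_one_mul]

theorem FEq_car {t : M} (ht : PB p (Om F M) t) (ht' : ∀ σ : M ≃ₐ[F] M, σ t = t) (σ : M ≃ₐ[F] M)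
    {x : M} (hx : x ∈ Om F M) : σ (car p (Om F M) t x) = car p (Om F M) t (σ x) := by
  have e : (σ : M →+* M) t = t := ht' σ
  have h := ht.car_map (σ : M →+* M) (S' := Om F M) (fun _ => om_act σ) (by rwa [e]) hx
  rwa [e] at h

theorem FEq_sh {c : Fin n → M} {f : Finset (Fin n) → M} (hc : ∀ i, c i ∈ Om F M)
    (hf : ∀ I, f I ∈ Om F M) (I : Finset (Fin n)) : sh c f I ∈ Om F M :=
  sum_mem fun J _ => mul_mem (prod_mem fun i _ => hc i) (hf J)

theorem ASr.mem (h : ASr p F w) (l : ι) : w l ∈ Om F M := by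
  obtain ⟨a, ha⟩ := h l
  exact om_wp (p := p) (one_mem _) one_ne_zero (om_alg a) (by rw [div_one, ha])

theorem exists_rho (h : ASr p F w) (σ : M ≃ₐ[F] M) :
    ∃ ρ : ι → ZMod p, ∀ l, σ (w l) = w l + ((ρ l).val : M) := by
  have h1 : ∀ l, ∃ c : ZMod p, σ (w l) = w l + (c.val : M) := by
    intro l
    obtain ⟨a, ha⟩ := h l
    obtain ⟨m, hm⟩ := Wp_fix (p := p) (x := σ (w l) - w l) (by
      rw [sub_pow_char, ← map_pow, eq_add_of_sub_eq ha, map_add, σ.commutes]
      ring)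
    exact ⟨m, by rw [FEq_val, map_natCast, ← hm, add_sub_cancel]⟩
  choose ρ hρ using h1
  exact ⟨ρ, hρ⟩

theorem move_root (h : ASr p F w) {A : F} {l : M} (hl : l ^ (p - 1) = algebraMap F M A) (hA : A ≠ 0)
    (hn : ∀ t : F, t ^ (p - 1) ≠ A) : ∃ τ : M ≃ₐ[F] M, (∀ i, τ (w i) = w i) ∧ τ l ≠ l := by
  have hA' : algebraMap F M A ≠ 0 := by simpa using hA
  have h0 : l ≠ 0 := fun e => hA' (by
    rw [← hl, e, zero_pow (Nat.sub_pos_of_lt hp.out.one_lt).ne'])
  have h1 : l ^ p / algebraMap F M A - l = 0 := by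
    rw [Wp_pow, hl, mul_div_cancel_right₀ _ hA', sub_self]
  obtain ⟨τ, hτ⟩ : ∃ τ : M ≃ₐ[F] M, τ l ≠ l := by
    by_contra! h2
    obtain ⟨t, ht⟩ := om_fix (om_wp (p := p) (om_alg A) hA' (zero_mem _) h1) h2
    exact hn t ((algebraMap F M).injective (by rw [map_pow, ht, hl]))
  obtain ⟨m, hm⟩ := wp_ker hl h0 (y := τ l) (by
    rw [← τ.commutes A, ← map_pow, ← map_div₀, ← map_sub, h1, map_zero])
  obtain ⟨ρ, hρ⟩ := exists_rho h τ
  have h2 : ∀ j : ℕ, (τ ^ j) l = m ^ j * l ∧ ∀ i, (τ ^ j) (w i) = w i + j * ((ρ i).val : M) := by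
    intro j
    induction j with
    | zero => simp
    | succ j ih =>
      refine ⟨?_, fun i => ?_⟩
      · rw [pow_succ', AlgEquiv.mul_apply, ih.1, map_mul, map_pow, map_natCast, hm]
        ring
      · rw [pow_succ', AlgEquiv.mul_apply, ih.2, map_add, map_mul, map_natCast, map_natCast, hρ]
        push_cast
        ring
  refine ⟨τ ^ p, fun i => ?_, ?_⟩
  · rw [(h2 p).2, CharP.cast_eq_zero, zero_mul, add_zero]
  · rwa [(h2 p).1, FEq_frob, ← hm]

/-- a root of `y ^ p / A = y` in `F(w)` vanishes -/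
theorem wp_fix_zero (h : ASr p F w) {A : F} (hA : A ≠ 0) (hn : ∀ t : F, t ^ (p - 1) ≠ A) {y : M}
    (hy : ∀ τ : M ≃ₐ[F] M, (∀ i, τ (w i) = w i) → τ y = y)
    (h0 : y ^ p / algebraMap F M A - y = 0) : y = 0 := by
  by_contra h1
  have hA' : algebraMap F M A ≠ 0 := by simpa using hA
  rw [sub_eq_zero, div_eq_iff hA', Wp_pow] at h0
  obtain ⟨τ, h2, h3⟩ := move_root h (mul_left_cancel₀ h1 h0) hA hn
  exact h3 (hy τ h2)

namespace Eqv

theorem fix {f : (ι → ZMod p) → M} (hf : f ∈ Eqv p F w) (g : ι → ZMod p) (τ : M ≃ₐ[F] M)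
    (hτ : ∀ l, τ (w l) = w l) : τ (f g) = f g := by
  rw [hf.2 τ 0 (fun l => by simpa using hτ l) g, add_zero]

theorem shift {f : (ι → ZMod p) → M} (hf : f ∈ Eqv p F w) (h : ι → ZMod p) :
    (fun g => f (g + h)) ∈ Eqv p F w := by
  exact ⟨fun g => hf.1 _, fun σ ρ h' g => by
    simp only [hf.2 σ ρ h', add_right_comm g h ρ]⟩

theorem mul {f f' : (ι → ZMod p) → M} (hf : f ∈ Eqv p F w) (hf' : f' ∈ Eqv p F w) :
    (fun g => f g * f' g) ∈ Eqv p F w := by
  exact ⟨fun g => mul_mem (hf.1 g) (hf'.1 g), fun σ ρ h g => by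
    simp only [map_mul, hf.2 σ ρ h, hf'.2 σ ρ h]⟩

theorem pow {f : (ι → ZMod p) → M} (hf : f ∈ Eqv p F w) (m : ℕ) :
    (fun g => f g ^ m) ∈ Eqv p F w := by
  exact ⟨fun g => pow_mem (hf.1 g) m, fun σ ρ h g => by simp only [map_pow, hf.2 σ ρ h]⟩

theorem alg (a : F) : (fun _ => algebraMap F M a) ∈ Eqv p F w := by
  exact ⟨fun _ => om_alg a, fun σ _ _ _ => σ.commutes a⟩

theorem const (h : ASr p F w) {x : M} (hx : (fun _ => x) ∈ Eqv p F w) :
    ∃ a : F, algebraMap F M a = x := by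
  refine om_fix (hx.1 0) fun σ => ?_
  obtain ⟨ρ, hρ⟩ := exists_rho h σ
  exact hx.2 σ ρ hρ 0

theorem car {t : M} (ht : PB p (Om F M) t) (ht' : ∀ σ : M ≃ₐ[F] M, σ t = t)
    {f : (ι → ZMod p) → M} (hf : f ∈ Eqv p F w) :
    (fun g => car p (Om F M) t (f g)) ∈ Eqv p F w := by
  exact ⟨fun g => ht.car_mem (hf.1 g), fun σ ρ h g => by
    simp only [FEq_car ht ht' σ (hf.1 g), hf.2 σ ρ h]⟩

end Eqv

theorem eqv_of_wp (h : ASr p F w) {A : F} (hA : A ≠ 0) (hn : ∀ t : F, t ^ (p - 1) ≠ A)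
    {a y : (ι → ZMod p) → M} (ha : a ∈ Eqv p F w)
    (hy : ∀ g (τ : M ≃ₐ[F] M), (∀ i, τ (w i) = w i) → τ (y g) = y g)
    (hw : ∀ g, a g = y g ^ p / algebraMap F M A - y g) : y ∈ Eqv p F w := by
  have hA' : algebraMap F M A ≠ 0 := by simpa using hA
  refine ⟨fun g => om_wp (p := p) (om_alg A) hA' (ha.1 g) (hw g).symm, fun σ ρ hρ g => ?_⟩
  refine sub_eq_zero.1 (wp_fix_zero h hA hn (fun τ hτ => ?_) ?_)
  · have h1 := hy g (σ⁻¹ * τ * σ) fun i => by
      rw [AlgEquiv.mul_apply, AlgEquiv.mul_apply, hρ, map_add, hτ, map_natCast, ← hρ]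
      exact σ.symm_apply_apply _
    rw [map_sub, hy _ τ hτ]
    exact congrArg (· - y (g + ρ)) (σ.symm_apply_eq.1 h1)
  · rw [Wp_sub, ← hw (g + ρ), ← ha.2 σ ρ hρ, hw g, map_sub, map_div₀, map_pow, σ.commutes, sub_self]

variable [Fintype ι]

theorem FEq_lin (e : ι → ZMod p) {σ : M ≃ₐ[F] M} {ρ : ι → ZMod p}
    (hρ : ∀ l, σ (w l) = w l + ((ρ l).val : M)) :
    σ (∑ l, ((e l).val : M) * w l) = ∑ l, ((e l).val : M) * w l + ((prg p e ρ).val : M) := by
  have h : ((prg p e ρ).val : M) = ∑ l, ((e l).val : M) * (ρ l).val := by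
    simp only [FEq_val, ← map_mul, ← map_sum]
    rfl
  simp only [map_sum, map_mul, map_natCast, hρ, mul_add, sum_add_distrib, h]

theorem FEq_x (h : ASr p F w) (l : ι) : (fun g => w l + ((g l).val : M)) ∈ Eqv p F w :=
  ⟨fun g => add_mem (h.mem l) (natCast_mem _ _), fun σ ρ hρ g => by
    simp only [map_add, map_natCast, hρ, Pi.add_apply, FEq_add]
    ring⟩

theorem FEq_prod {f : ι → (ι → ZMod p) → M} (hf : ∀ l, f l ∈ Eqv p F w) :
    (fun g => ∏ l, f l g) ∈ Eqv p F w :=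
  ⟨fun g => prod_mem fun l _ => (hf l).1 g, fun σ ρ h g => by
    simp only [map_prod, fun l => (hf l).2 σ ρ h g]⟩

theorem FEq_sum [DecidableEq ι] (h : ASr p F w) {f : (ι → ZMod p) → M} (hf : f ∈ Eqv p F w) :
    ∃ a : F, algebraMap F M a = ∑ g, f g := by
  refine om_fix (sum_mem fun g _ => hf.1 g) fun σ => ?_
  obtain ⟨ρ, hρ⟩ := exists_rho h σ
  simp only [map_sum, hf.2 σ ρ hρ]
  exact Equiv.sum_comp (Equiv.addRight ρ) f

theorem FEq_range : range p = range (p - 1 + 1) := by rw [Nat.sub_add_cancel hp.out.one_le]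

theorem FEq_delta (x : M) (c c' : ZMod p) :
    1 - (x + (c.val : M) - (x + c'.val)) ^ (p - 1) = if c = c' then 1 else 0 := by
  rw [add_sub_add_left_eq_sub, FEq_val, FEq_val, ← map_sub, ← map_pow, ZMod.pow_card_sub_one]
  by_cases h : c = c' <;> simp [h, sub_eq_zero]

theorem FEq_exp (x a : M) : ∑ j : Fin p, ((if (j : ℕ) = 0 then 1 else 0) -
    (-a) ^ (p - 1 - j) * ((p - 1).choose j : M)) * x ^ (j : ℕ) = 1 - (x - a) ^ (p - 1) := by
  rw [Fin.sum_univ_eq_sum_range (fun j => ((if j = 0 then 1 else 0) -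
    (-a) ^ (p - 1 - j) * ((p - 1).choose j : M)) * x ^ j) p, sub_eq_add_neg x, add_pow, ← FEq_range]
  simp only [sub_mul, sum_sub_distrib, ite_mul, zero_mul, sum_ite_eq', mem_range, hp.out.pos,
    if_true, pow_zero, mul_one]
  exact congrArg (1 - ·) (sum_congr rfl fun j _ => by ring)

theorem eqv_lin (h : ASr p F w) (e : ι → ZMod p) :
    (fun g => ∑ l, ((e l).val : M) * w l + ((prg p e g).val : M)) ∈ Eqv p F w := by
  refine ⟨fun g => add_mem (sum_mem fun l _ => mul_mem (natCast_mem _ _) (h.mem l))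
    (natCast_mem _ _), fun σ ρ hρ g => ?_⟩
  simp only [map_add, map_natCast, FEq_lin e hρ, FEq_add]
  ring

theorem sum_th [DecidableEq ι] (w : ι → M) : ∑ g, th p w g = 1 := by
  unfold th
  rw [← Fintype.prod_sum fun l (c : ZMod p) => -(w l + (c.val : M)) ^ (p - 1)]
  refine prod_eq_one fun l _ => ?_
  have h1 : ∀ j < p - 1, ∑ c : ZMod p, (c.val : M) ^ j = 0 := fun j hj => by
    simp only [FEq_val, ← map_pow, ← map_sum]
    rw [FiniteField.sum_pow_lt_card_sub_one _ j (by rwa [ZMod.card]), map_zero]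
  have h2 : ∑ c : ZMod p, (c.val : M) ^ (p - 1) = -1 := by
    have h3 := sum_congr (rfl : (univ : Finset (ZMod p)) = univ) fun c _ => FEq_delta (0 : M) c 0
    simp only [zero_add, ZMod.val_zero, Nat.cast_zero, sub_zero, sum_sub_distrib, sum_const,
      card_univ, ZMod.card, nsmul_eq_mul, CharP.cast_eq_zero, zero_mul, sum_ite_eq', mem_univ,
      if_true] at h3
    linear_combination -h3
  simp only [add_comm (w l), add_pow, sum_neg_distrib]
  rw [sum_comm, sum_range_succ, sum_eq_zero fun j hj => ?_]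
  · simp [h2, -ZMod.natCast_val]
  · rw [← sum_mul, ← sum_mul, h1 j (mem_range.1 hj), zero_mul, zero_mul]

theorem th_mem (h : ASr p F w) : th p w ∈ Eqv p F w := by
  exact FEq_prod fun l => neg_mem (Eqv.pow (FEq_x h l) (p - 1))

theorem Eqv.poly [DecidableEq ι] (h : ASr p F w) {f : (ι → ZMod p) → M} (hf : f ∈ Eqv p F w) :
    ∃ c : (ι → Fin p) → F, ∀ g,
      f g = ∑ m, algebraMap F M (c m) * ∏ l, (w l + ((g l).val : M)) ^ (m l : ℕ) := by
  have h1 : ∀ m : ι → Fin p, ∃ a : F, algebraMap F M a = ∑ g, f g * ∏ l,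
      ((if (m l : ℕ) = 0 then 1 else 0) - (-(w l + ((g l).val : M))) ^ (p - 1 - m l) *
        ((p - 1).choose (m l) : M)) := fun m =>
    FEq_sum h (Eqv.mul hf (FEq_prod fun l => sub_mem
      (by simpa using Eqv.alg (p := p) (w := w) (if (m l : ℕ) = 0 then (1 : F) else 0))
      (Eqv.mul (Eqv.pow (neg_mem (FEq_x h l)) _)
        (by simpa using Eqv.alg (p := p) (w := w) ((p - 1).choose (m l) : F)))))
  choose c hc using h1
  refine ⟨c, fun g => ?_⟩
  simp only [hc, sum_mul, mul_assoc, ← prod_mul_distrib]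
  rw [sum_comm]
  simp only [← mul_sum]
  have h2 : ∀ g' : ι → ZMod p, ∑ m : ι → Fin p, ∏ l, (((if (m l : ℕ) = 0 then 1 else 0) -
      (-(w l + ((g' l).val : M))) ^ (p - 1 - m l) * ((p - 1).choose (m l) : M)) *
        (w l + ((g l).val : M)) ^ (m l : ℕ)) = if g = g' then 1 else 0 := by
    intro g'
    rw [← Fintype.prod_sum fun l (j : Fin p) => ((if (j : ℕ) = 0 then 1 else 0) -
      (-(w l + ((g' l).val : M))) ^ (p - 1 - j) * ((p - 1).choose j : M)) *
        (w l + ((g l).val : M)) ^ (j : ℕ)]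
    simp only [FEq_exp, FEq_delta, Fintype.prod_boole, funext_iff]
  simp only [h2, mul_ite, mul_one, mul_zero, sum_ite_eq, mem_univ, if_true]

theorem eqv_mon (h : ASr p F w) (m : ι → ℕ) :
    (fun g => ∏ l, (w l + ((g l).val : M)) ^ m l) ∈ Eqv p F w := by
  exact FEq_prod fun l => Eqv.pow (FEq_x h l) (m l)

theorem mom_mem [DecidableEq ι] [Algebra (ZMod p) M] (h : ASr p F w) (e : Fin n → ι → ZMod p)
    {f : (ι → ZMod p) → M} (hf : f ∈ Eqv p F w) :
    mom (fun i => prg p (e i)) f ∈ Eq1 p F fun i => ∑ l, ((e i l).val : M) * w l := by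
  refine ⟨fun I => sum_mem fun g _ => ?_, fun σ χ hχ I => ?_⟩
  · rw [smul_val]
    exact mul_mem (natCast_mem _ _) (hf.1 g)
  · obtain ⟨ρ, hρ⟩ := exists_rho h σ
    have h1 : ∀ i, ((χ i).val : M) = (prg p (e i) ρ).val := fun i =>
      add_left_cancel ((hχ i).symm.trans (FEq_lin (e i) hρ))
    simp only [h1]
    rw [← mom_shift, ← funext (hf.2 σ ρ hρ)]
    exact map_mom (σ : M →+* M).toAddMonoidHom _ f I

omit [Fintype ι]

namespace Eq1

theorem mul_alg {f : Finset (Fin n) → M} (hf : f ∈ Eq1 p F W) (a : F) :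
    (fun I => f I * algebraMap F M a) ∈ Eq1 p F W := by
  exact ⟨fun I => mul_mem (hf.1 I) (om_alg a), fun σ χ h I => by
    rw [sh_mul, ← hf.2 σ χ h, map_mul, σ.commutes]⟩

theorem phi {f : Finset (Fin n) → M} (hf : f ∈ Eq1 p F W) (a : F) :
    (fun I => f I ^ p / algebraMap F M a) ∈ Eq1 p F W := by
  refine ⟨fun I => div_mem (pow_mem (hf.1 I) p) (om_alg a), fun σ χ h I => ?_⟩
  have h1 := map_sh (frobenius M p) (fun i => -((χ i).val : M)) f I
  simp only [frobenius_def, FEq_neg] at h1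
  simp only [div_eq_mul_inv]
  rw [sh_mul, ← h1, ← hf.2 σ χ h, map_mul, map_pow, map_inv₀, σ.commutes]

theorem car {t : M} (ht : PB p (Om F M) t) (ht' : ∀ σ : M ≃ₐ[F] M, σ t = t)
    {f : Finset (Fin n) → M} (hf : f ∈ Eq1 p F W) :
    (fun I => car p (Om F M) t (f I)) ∈ Eq1 p F W := by
  refine ⟨fun I => ht.car_mem (hf.1 I), fun σ χ h I => ?_⟩
  have h1 := car_sh (p := p) (ASel.car p (Om F M) t) (Om F M).toSubring
    (fun y hy x hx => ht.car_frob_mul hy hx) (c := fun i => -((χ i).val : M))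
    (fun i => neg_mem (natCast_mem _ _)) hf.1 I
  simp only [FEq_neg] at h1
  rw [← h1, ← hf.2 σ χ h]
  exact FEq_car ht ht' σ (hf.1 I)

theorem hat (h : ASr p F W) {f : Finset (Fin n) → M} (hf : f ∈ Eq1 p F W) :
    ∃ f0 : Finset (Fin n) → F, ∀ I, algebraMap F M (f0 I) = sh W f I := by
  have h1 : ∀ I, ∃ a : F, algebraMap F M a = sh W f I := fun I =>
    om_fix (FEq_sh h.mem hf.1 I) fun σ => by
      obtain ⟨χ, hχ⟩ := exists_rho h σ
      refine (map_sh (σ : M →+* M) W f I).trans ?_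
      simp only [RingHom.coe_coe, hχ, hf.2 σ χ hχ]
      exact congrFun ((sh_sh _ _ f).trans (congrArg (sh · f) (funext fun i => by simp))) I
  choose f0 h0 using h1
  exact ⟨f0, h0⟩

theorem unhat (h : ASr p F W) (f0 : Finset (Fin n) → F) :
    sh (-W) (fun I => algebraMap F M (f0 I)) ∈ Eq1 p F W := by
  refine ⟨FEq_sh (fun i => neg_mem (h.mem i)) fun I => om_alg _, fun σ χ hχ I => ?_⟩
  refine (map_sh (σ : M →+* M) _ _ I).trans ?_
  simp only [RingHom.coe_coe, Pi.neg_apply, map_neg, hχ, AlgEquiv.commutes, sh_sh]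
  exact congrArg (sh · _ I) (funext fun i => by simp)

theorem tp_mem (h : ASr p F W) {f f' : Finset (Fin n) → M} (hf : f ∈ Eq1 p F W)
    (hf' : f' ∈ Eq1 p F W) : ∃ a : F, algebraMap F M a = tp f f' := by
  refine om_fix (sum_mem fun I _ => mul_mem (pow_mem (neg_mem (one_mem _)) _)
    (mul_mem (hf.1 I) (hf'.1 _))) fun σ => ?_
  obtain ⟨χ, hχ⟩ := exists_rho h σ
  refine (map_tp (σ : M →+* M) f f').trans ?_
  simp only [RingHom.coe_coe, hf.2 σ χ hχ, hf'.2 σ χ hχ]
  exact tp_sh _ f f'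

theorem lower (h : ASr p F W) {f : Finset (Fin n) → M} (hf : f ∈ Eq1 p F W) (I : Finset (Fin n))
    (hI : ∀ J, J ⊂ I → f J = 0) : ∃ a : F, algebraMap F M a = f I := by
  refine om_fix (hf.1 I) fun σ => ?_
  obtain ⟨χ, hχ⟩ := exists_rho h σ
  rw [hf.2 σ χ hχ, sh_of_lower _ f I hI]

theorem split (h : ∀ i, ∃ s : F, algebraMap F M s = W i) {f : Finset (Fin n) → M}
    (hf : f ∈ Eq1 p F W) (I : Finset (Fin n)) : ∃ a : F, algebraMap F M a = f I := by
  refine om_fix (hf.1 I) fun σ => ?_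
  rw [hf.2 σ 0 fun i => by
    obtain ⟨s, hs⟩ := h i
    simp [← hs]]
  exact congrFun ((congrArg (sh · f) (funext fun i => by simp)).trans (sh_zero f)) I

end Eq1

end Pool.Agent.ASel
end

-- merged part: Pool.Agent.Work.MP_60d5ce_nt.AS.FXi
section
/-!
# The cup product and its primitive  (AS, function field side)

`C` is an additive map with `C (y ^ p * f) = y * C f` on the subfield `S`; `φ y = y ^ p / A`.

PLAN.  Use `car_tp_left`, `car_tp_right`, `car_tp_both` (with `S.toSubring`), writing `tp (φ y) f = tp (y ^ p) (f / A)` (`tp_mul_left`, `tp_mul_right`, `div_eq_mul_inv`), then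
bilinearity of `tp` and `hε : ε • ϖ = ϖ` (`ring`, `linear_combination`).  `na_id`: first show, for any `a, w, y` and a cocycle `(a', w')` with `a' = φ y' - y'`, `o' = w' + φ y' * ϖ` (fixed by `C (· / A)`),
`tp (a - φ y + y) o' - ε • tp (d1 (a, w)) y' = thT a w a' w' - (z - C z)`, `z = tp (φ y) o' + ε • tp w (φ y')`.  Apply it to `a1 - W a`, `w1 - W w`, `y1 - W y`, with `φ (W y) = W ^ p * φ y`,
`W = W ^ p - h`, `C (W ^ p * Ξ) = W * C Ξ`, `xi_car`.
-/

set_option linter.unusedSectionVars false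

namespace Pool.Agent.ASel

open Finset

variable {M M' : Type} [Field M] [Field M'] {n : ℕ}

/-- the top coefficient of the cup product -/
def thT (ε : ℤ) (ϖ : M) (a w a' w' : Finset (Fin n) → M) : M :=
  tp a w' + ε • tp w a' + tp a a' * ϖ

/-- the top coefficient of its primitive -/
def xiT (p : ℕ) (A : M) (ε : ℤ) (ϖ : M) (y w y' w' : Finset (Fin n) → M) : M :=
  tp (fun I => y I ^ p / A) w' + ε • tp w (fun I => y' I ^ p / A) +
    tp (fun I => y I ^ p / A) (fun I => y' I ^ p / A) * ϖ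

theorem map_thT (φ : M →+* M') (ε : ℤ) (ϖ : M) (a w a' w' : Finset (Fin n) → M) :
    φ (thT ε ϖ a w a' w') = thT ε (φ ϖ) (fun I => φ (a I)) (fun I => φ (w I)) (fun I => φ (a' I))
      fun I => φ (w' I) := by
  simp only [thT, map_add, map_mul, map_zsmul, map_tp]

theorem map_xiT (φ : M →+* M') (p : ℕ) (A : M) (ε : ℤ) (ϖ : M) (y w y' w' : Finset (Fin n) → M) :
    φ (xiT p A ε ϖ y w y' w') = xiT p (φ A) ε (φ ϖ) (fun I => φ (y I)) (fun I => φ (w I))
      (fun I => φ (y' I)) fun I => φ (w' I) := by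
  simp only [xiT, map_add, map_mul, map_zsmul, map_tp, map_div₀, map_pow]

theorem thT_eq_sum (ε : ℤ) (ϖ : M) (a w a' w' : Finset (Fin n) → M) : thT ε ϖ a w a' w' =
    ∑ I : Finset (Fin n), (-1) ^ I.card * (a I * w' Iᶜ + ε • (a' Iᶜ * w I) + a I * a' Iᶜ * ϖ) := by
  simp only [thT, tp, zsmul_eq_mul, mul_sum, sum_mul, ← sum_add_distrib]
  exact sum_congr rfl fun I _ => by ring

theorem thT_sub_mul (ε : ℤ) (ϖ s : M) (a1 w1 a w a' w' : Finset (Fin n) → M) :
    thT ε ϖ (fun I => a1 I - s * a I) (fun I => w1 I - s * w I) a' w' =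
      thT ε ϖ a1 w1 a' w' - s * thT ε ϖ a w a' w' := by
  simp only [thT_eq_sum, zsmul_eq_mul, mul_sum, ← sum_sub_distrib]
  exact sum_congr rfl fun I _ => by ring

variable {p : ℕ} [Fact p.Prime] [CharP M p] {A ϖ : M} {ε : ℤ}

theorem xiT_sh (c : Fin n → M) (hc : ∀ i, c i ^ p = c i) (y w y' w' : Finset (Fin n) → M) :
    xiT p A ε ϖ (sh c y) (sh c w) (sh c y') (sh c w') = xiT p A ε ϖ y w y' w' := by
  have e : ∀ y : Finset (Fin n) → M, (fun I => sh c y I ^ p / A) = sh c fun I => y I ^ p / A :=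
    fun y => funext fun I => by
      have h := map_sh (frobenius M p) c y I
      simp only [frobenius_def, hc] at h
      simp only [h, div_eq_mul_inv, sh_mul]
  simp only [xiT, e, tp_sh]

theorem xi_gauge (hε : ε • ϖ = ϖ) (y w y' w' Y Y' : Finset (Fin n) → M) :
    xiT p A ε ϖ (y + Y) (fun I => w I - Y I ^ p / A * ϖ) (y' + Y') (fun I => w' I - Y' I ^ p / A * ϖ) =
      xiT p A ε ϖ y w y' w' + (tp (fun I => Y I ^ p / A) (fun I => w' I - Y' I ^ p / A * ϖ) +
        ε • tp w fun I => Y' I ^ p / A) := by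
  rw [zsmul_eq_mul] at hε
  simp only [xiT, tp, zsmul_eq_mul, mul_sum, sum_mul, ← sum_add_distrib, Pi.add_apply, add_pow_char]
  exact sum_congr rfl fun I _ => by
    linear_combination (-((-1) ^ I.card * (Y I ^ p / A) * (y' Iᶜ ^ p / A + Y' Iᶜ ^ p / A))) * hε

theorem xi_dl (hε : ε • ϖ = ϖ) (hn : 0 < n) (y w y' w' : Finset (Fin n) → M) {τ τ' : M}
    (hτ : τ ^ p / A = τ) (hτ' : τ' ^ p / A = τ') :
    xiT p A ε ϖ (y + dl n τ) w (y' + dl n τ') w' = xiT p A ε ϖ y w y' w' +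
      ((-1) ^ n * (τ * (w' ∅ + y' ∅ ^ p / A * ϖ)) + ε • (τ' * (w ∅ + y ∅ ^ p / A * ϖ))) := by
  have e : ∀ (y : Finset (Fin n) → M) {τ : M}, τ ^ p / A = τ →
      (fun I => (y + dl n τ) I ^ p / A) = (fun I => y I ^ p / A) + dl n τ := fun y τ h =>
    funext fun I => by
      simp only [Pi.add_apply, add_pow_char, add_div, dl]
      split_ifs
      · rw [h]
      · rw [zero_pow (Fact.out : p.Prime).ne_zero, zero_div]
  rw [zsmul_eq_mul] at hε
  rw [xiT, xiT, e y hτ, e y' hτ']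
  simp only [tp_add_left, tp_add_right, tp_dl_left, tp_dl_right, Pi.add_apply, dl_empty hn,
    zsmul_eq_mul]
  linear_combination (-(τ' * (y ∅ ^ p / A))) * hε

variable (C : M →+ M) (S : Subfield M) (hC : ∀ y ∈ S, ∀ f ∈ S, C (y ^ p * f) = y * C f)
  (hA : A ∈ S) (hA0 : A ≠ 0) (hϖ : ϖ ∈ S) (hcϖ : C (ϖ / A ^ 2) = ϖ) (hε : ε • ϖ = ϖ)
include hC hA hA0 hϖ hcϖ hε

omit hA0 hε in
theorem FXi_one {y : M} (hy : y ∈ S) : C (y ^ p / A * ϖ / A) = y * ϖ := by
  rw [show y ^ p / A * ϖ / A = y ^ p * (ϖ / A ^ 2) by ring, hC y hy _ (div_mem hϖ (pow_mem hA 2)),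
    hcϖ]

omit hA0 hε hϖ hcϖ in
theorem FXi_left {y f : Finset (Fin n) → M} (hy : ∀ I, y I ∈ S) (hf : ∀ I, f I ∈ S) :
    C (tp (fun I => y I ^ p / A) f) = tp y fun I => C (f I / A) := by
  simp only [tp, map_sum, FZ_neg]
  exact sum_congr rfl fun I _ => by
    rw [div_mul_eq_mul_div, mul_div_assoc, hC _ (hy _) _ (div_mem (hf _) hA)]

omit hA0 hε hϖ hcϖ in
theorem FXi_right {y f : Finset (Fin n) → M} (hy : ∀ I, y I ∈ S) (hf : ∀ I, f I ∈ S) :
    C (tp f fun I => y I ^ p / A) = tp (fun I => C (f I / A)) y := by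
  simp only [tp, map_sum, FZ_neg]
  exact sum_congr rfl fun I _ => by
    rw [mul_comm (f I), div_mul_eq_mul_div, mul_div_assoc, hC _ (hy _) _ (div_mem (hf _) hA),
      mul_comm (y _)]

omit hA0 hε in
theorem FXi_both {y y' : Finset (Fin n) → M} (hy : ∀ I, y I ∈ S) (hy' : ∀ I, y' I ∈ S) :
    C (tp (fun I => y I ^ p / A) (fun I => y' I ^ p / A) * ϖ) = tp y y' * ϖ := by
  rw [← tp_mul_right, FXi_left C S hC hA hy fun I =>
    mul_mem (div_mem (pow_mem (hy' I) p) hA) hϖ, ← tp_mul_right]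
  simp only [FXi_one C S hC hA hϖ hcϖ (hy' _)]

theorem cob_coc {y : M} (hy : y ∈ S) :
    -(y ^ p / A * ϖ) - C (-(y ^ p / A * ϖ) / A) + (y ^ p / A - y) * ϖ = 0 := by
  rw [neg_div, map_neg, FXi_one C S hC hA hϖ hcϖ hy]
  ring

theorem xi_car {y w y' w' : Finset (Fin n) → M} (hy : ∀ I, y I ∈ S) (hw : ∀ I, w I ∈ S)
    (hy' : ∀ I, y' I ∈ S) (hw' : ∀ I, w' I ∈ S)
    (h : ∀ I, w I - C (w I / A) + (y I ^ p / A - y I) * ϖ = 0)
    (h' : ∀ I, w' I - C (w' I / A) + (y' I ^ p / A - y' I) * ϖ = 0) :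
    xiT p A ε ϖ y w y' w' - C (xiT p A ε ϖ y w y' w') =
      thT ε ϖ (fun I => y I ^ p / A - y I) w (fun I => y' I ^ p / A - y' I) w' := by
  have e : ∀ I, C (w I / A) = w I + (y I ^ p / A - y I) * ϖ := fun I => by
    linear_combination -h I
  have e' : ∀ I, C (w' I / A) = w' I + (y' I ^ p / A - y' I) * ϖ := fun I => by
    linear_combination -h' I
  rw [zsmul_eq_mul] at hε
  rw [xiT, map_add, map_add, map_zsmul, FXi_left C S hC hA hy hw', FXi_right C S hC hA hy' hw,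
    FXi_both C S hC hA hϖ hcϖ hy hy']
  simp only [e, e', thT, tp, zsmul_eq_mul, mul_sum, sum_mul, ← sum_add_distrib, ← sum_sub_distrib]
  exact sum_congr rfl fun I _ => by
    linear_combination (-((-1) ^ I.card * y' Iᶜ * (y I ^ p / A - y I))) * hε

theorem na_id {y w y' w' a1 w1 y1 : Finset (Fin n) → M} (hy : ∀ I, y I ∈ S) (hw : ∀ I, w I ∈ S)
    (hy' : ∀ I, y' I ∈ S) (hw' : ∀ I, w' I ∈ S) (ha1 : ∀ I, a1 I ∈ S) (hw1 : ∀ I, w1 I ∈ S)
    (hy1 : ∀ I, y1 I ∈ S)
    (h : ∀ I, w I - C (w I / A) + (y I ^ p / A - y I) * ϖ = 0)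
    (h' : ∀ I, w' I - C (w' I / A) + (y' I ^ p / A - y' I) * ϖ = 0) {W h0 : M} (hW : W ∈ S)
    (hh : W ^ p - W = h0) (z : M)
    (hz : z = tp (fun I => y1 I ^ p / A) (fun I => w' I + y' I ^ p / A * ϖ) +
      ε • tp w1 (fun I => y' I ^ p / A) + h0 * ε • tp w fun I => y' I ^ p / A) :
    tp (fun I => a1 I - W * (y I ^ p / A - y I) - ((y1 I - W * y I) ^ p / A - (y1 I - W * y I)))
        (fun I => w' I + y' I ^ p / A * ϖ) -
      ε • tp (fun I => w1 I - W * w I - C ((w1 I - W * w I) / A) +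
        (a1 I - W * (y I ^ p / A - y I)) * ϖ) y' =
      thT ε ϖ a1 w1 (fun I => y' I ^ p / A - y' I) w' + h0 * xiT p A ε ϖ y w y' w' - (z - C z) := by
  have e : ∀ I, C (w I * h0 / A) = W * (w I + (y I ^ p / A - y I) * ϖ) - C (W * w I / A) :=
    fun I => by
      rw [show w I * h0 / A = W ^ p * (w I / A) - W * w I / A by rw [← hh]; ring, map_sub,
        hC W hW _ (div_mem (hw I) hA)]
      linear_combination -W * h I
  have e' : ∀ I, C ((w' I + y' I ^ p / A * ϖ) / A) = w' I + y' I ^ p / A * ϖ := fun I => by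
    rw [add_div, map_add, FXi_one C S hC hA hϖ hcϖ (hy' I)]
    linear_combination -h' I
  have h0S : h0 ∈ S := hh ▸ sub_mem (pow_mem hW p) hW
  have hc : C z = tp y1 (fun I => w' I + y' I ^ p / A * ϖ) + ε • tp (fun I => C (w1 I / A)) y' +
      ε • tp (fun I => W * (w I + (y I ^ p / A - y I) * ϖ) - C (W * w I / A)) y' := by
    rw [hz, mul_smul_comm, mul_comm h0, ← tp_mul_left, map_add, map_add, map_zsmul, map_zsmul,
      FXi_left C S hC hA hy1 fun I => add_mem (hw' I) (mul_mem (div_mem (pow_mem (hy' I) p) hA) hϖ),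
      FXi_right C S hC hA hy' hw1, FXi_right C S hC hA hy' fun I => mul_mem (hw I) h0S]
    simp only [e, e']
  rw [zsmul_eq_mul] at hε
  rw [hc, hz]
  simp only [sub_div, map_sub, sub_pow_char, mul_pow, eq_add_of_sub_eq hh, thT, xiT, tp,
    zsmul_eq_mul, mul_sum, sum_mul, ← sum_add_distrib, ← sum_sub_distrib]
  exact sum_congr rfl fun I _ => by
    linear_combination (-((-1) ^ I.card * a1 I * y' Iᶜ)) * hε

end Pool.Agent.ASel
end

-- merged part: Pool.Agent.Work.MP_60d5ce_nt.AS.FMin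
section
/-!
# The minimal model of a complex of induced modules  (AS, function field side)

`G` is a finite group killed by `p`, acting on functions `G → W` by translation.  `Hig C t`: the subgroup `C` is stable under translation and under the
pointwise maps `t g`, whose sum is the identity; so `∑ h, T h ∘ t ∘ T (-h) = id` on `C` (Higman's criterion).

PLAN.  (0) A nonzero `G`-stable subspace of a `ZMod p`-space has a nonzero fixed vector (span of an orbit is finite; `IsPGroup.exists_fixed_point_of_prime_dvd_card_of_fixed_point`,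
or: the commuting operators `T g - 1` are nilpotent, `(T g - 1) ^ p = 0`).  Dually (Nakayama): if `X ≤ Y` are stable and `Y ≤ X ⊔ span {T g y - y}` then `Y ≤ X`
(a nonzero fixed functional on `Y / X`; or iterate: the ideal spanned by the `T g - 1` is nilpotent).  (1) For `Hig C t`: `N f = ∑ g, f g` has `const (N f) ∈ C`; if `const x ∈ C` then
`x = N (fun g => t g x)`; `f - (fun g => t g (N f))` lies in the span of the `T h f' - f'`, `f' ∈ C`.
(2) Choose `ρb t` (`t : Fin r'`) with `const (ρb t) ∈ C2`, a basis of the finite quotient (at most `p ^ n2` elements) of the invariants of `C2` by `D1` of the invariants of `C1`;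
`ρ t g = t2 g (ρb t)`.  The family `T h (ρ t)` is independent (by (0)); take linear functionals `ℓ t` dual to it, `pR y = ∑ t h, ℓ t (T h y) • T (-h) (ρ t)` is an equivariant projection onto
its span `R`.  `D' = (1 - pR) ∘ D1` maps `C1` onto `Q' = (1 - pR) C2` (Nakayama); a linear section `s0` gives the equivariant section `s = ∑ T h ∘ s0 ∘ (1 - pR) ∘ t2 ∘ T (-h)`.
`Z = {z ∈ C1 | D' z = 0}` has the Higman map `(1 - s D') ∘ t1`.  (3) Choose invariant cocycles `xb i`, a basis of the invariant cohomology (at most `p ^ n1` classes),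
`x i = (1 - s D') (t1 (const (xb i)))`, `N (x i) = xb i`.  `C0 × (Fin r → G → ZMod p) → Z`, `(y, m) ↦ D0 y + ∑ m i h • T (-h) (x i)` is onto (Nakayama; if `z ∈ Z` then
`D1 (N z)` lies in the span of the `ρb t`, so vanishes) and `m` is unique (by (0), `hinj`).  `J z = fun i => m i 0`, extended linearly (`LinearMap.exists_extend`).
-/

set_option linter.unusedSectionVars false

namespace Pool.Agent.ASel

variable {p : ℕ} [Fact p.Prime] {G : Type} [AddCommGroup G] [Fintype G]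

/-- induced modules -/
structure Hig {W : Type} [AddCommGroup W] (C : AddSubgroup (G → W)) (t : G → W →+ W) : Prop where
  shift : ∀ f ∈ C, ∀ h, (fun g => f (g + h)) ∈ C
  mul : ∀ f ∈ C, (fun g => t g (f g)) ∈ C
  sum : ∀ x, ∑ g, t g x = x

/-- a linear action of `G` -/
structure FMin_Act {M : Type} [AddCommGroup M] [Module (ZMod p) M]
    (T : G → Module.End (ZMod p) M) : Prop where
  zero : ∀ x, T 0 x = x
  add : ∀ a b x, T (a + b) x = T a (T b x)

section Aux

variable {M A B : Type} [AddCommGroup M] [Module (ZMod p) M] [AddCommGroup A] [Module (ZMod p) A]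
  [AddCommGroup B] [Module (ZMod p) B] {T : G → Module.End (ZMod p) M}
  {TA : G → Module.End (ZMod p) A} {TB : G → Module.End (ZMod p) B}

theorem FMin_Act.comm (hT : FMin_Act T) (a b : G) (x : M) : T a (T b x) = T b (T a x) := by
  rw [← hT.add, add_comm, hT.add]

theorem FMin_Act.norm (hT : FMin_Act T) (a : G) (x : M) : T a (∑ g, T g x) = ∑ g, T g x := by
  rw [map_sum]
  exact Fintype.sum_equiv (Equiv.addLeft a) _ _ fun g => (hT.add a g x).symm

theorem FMin_neg (T : G → Module.End (ZMod p) M) (x : M) : ∑ g, T (-g) x = ∑ g, T g x :=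
  Equiv.sum_comp (Equiv.neg G) fun g => T g x

theorem FMin_nil (hG : ∀ g : G, p • g = 0) (hT : FMin_Act T) (a : G) : (T a - 1) ^ p = 0 := by
  have h1 : ∀ n : ℕ, T a ^ n = T (n • a) := by
    intro n
    induction n with
    | zero => exact LinearMap.ext fun x => by rw [pow_zero, zero_nsmul, hT.zero]; rfl
    | succ n ih => exact LinearMap.ext fun x => by rw [pow_succ, succ_nsmul, hT.add, ← ih]; rfl
  obtain ⟨r, hr⟩ := (Commute.one_right (T a - 1)).exists_add_pow_prime_eq (Fact.out : p.Prime)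
  have h2 : ((p : ℕ) : Module.End (ZMod p) M) = 0 := by
    rw [← map_natCast (algebraMap (ZMod p) (Module.End (ZMod p) M)), ZMod.natCast_self, map_zero]
  have h3 : T 0 = 1 := LinearMap.ext hT.zero
  rw [sub_add_cancel, h1, hG, one_pow, h2, zero_mul, zero_mul, zero_mul, add_zero, h3] at hr
  exact add_eq_right.1 hr.symm

theorem FMin_fix (hG : ∀ g : G, p • g = 0) (hT : FMin_Act T) (Y : Submodule (ZMod p) M)
    (hY : ∀ g, ∀ y ∈ Y, T g y ∈ Y) (h : ∀ y ∈ Y, (∀ g, T g y = y) → y = 0) : ∀ y ∈ Y, y = 0 := by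
  classical
  have key : ∀ (S : Finset G) (Y : Submodule (ZMod p) M), (∀ g, ∀ y ∈ Y, T g y ∈ Y) →
      (∀ y ∈ Y, (∀ g ∈ S, T g y = y) → y = 0) → ∀ y ∈ Y, y = 0 := by
    intro S
    induction S using Finset.induction_on with
    | empty => exact fun Y _ h y hy => h y hy (by simp)
    | insert a S _ ih =>
      intro Y hY h
      have e : ∀ y, y ∈ LinearMap.ker (T a - 1) ↔ T a y = y := fun y => sub_eq_zero
      have h1 := ih (Y ⊓ LinearMap.ker (T a - 1))
        (fun g y hy => ⟨hY g y hy.1, (e _).2 (by rw [hT.comm, (e _).1 hy.2])⟩)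
        fun y hy hS => h y hy.1 fun g hg => by
          rcases Finset.mem_insert.1 hg with rfl | hg
          · exact (e _).1 hy.2
          · exact hS g hg
      have h2 : ∀ n : ℕ, ∀ y ∈ Y, ((T a - 1) ^ n) y = 0 → y = 0 := by
        intro n
        induction n with
        | zero => exact fun y _ hy => hy
        | succ n ihn =>
          intro y hy h0
          rw [pow_succ] at h0
          exact h1 y ⟨hy, ihn _ (Y.sub_mem (hY a y hy) hy) h0⟩
      exact fun y hy => h2 p y hy (by rw [FMin_nil hG hT]; rfl)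
  exact key Finset.univ Y hY fun y hy hS => h y hy fun g => hS g (Finset.mem_univ g)

theorem FMin_nak (hG : ∀ g : G, p • g = 0) (hT : FMin_Act T) (X Y : Submodule (ZMod p) M)
    (hX : ∀ g, ∀ x ∈ X, T g x ∈ X) (hY : ∀ g, ∀ y ∈ Y, T g y ∈ Y)
    (h : ∀ y ∈ Y, ∃ x ∈ X, ∃ u : G → M, (∀ g, u g ∈ Y) ∧ y = x + ∑ g, (T g (u g) - u g)) :
    ∀ y ∈ Y, y ∈ X := by
  classical
  have key : ∀ (S : Finset G) (X : Submodule (ZMod p) M), (∀ g, ∀ x ∈ X, T g x ∈ X) →
      (∀ y ∈ Y, ∃ x ∈ X, ∃ u : G → M, (∀ g, u g ∈ Y) ∧ y = x + ∑ g ∈ S, (T g (u g) - u g)) →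
      ∀ y ∈ Y, y ∈ X := by
    intro S
    induction S using Finset.induction_on with
    | empty =>
      intro X _ h y hy
      obtain ⟨x, hx, u, -, e⟩ := h y hy
      rw [e, Finset.sum_empty, add_zero]
      exact hx
    | insert a S ha ih =>
      intro X hX h
      have h1 := ih (X ⊔ Y.map (T a - 1)) (fun g z hz => by
          obtain ⟨x, hx, _, ⟨y, hy, rfl⟩, rfl⟩ := Submodule.mem_sup.1 hz
          rw [map_add]
          refine Submodule.add_mem_sup (hX g x hx) ⟨T g y, hY g y hy, ?_⟩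
          show T a (T g y) - T g y = T g (T a y - y)
          rw [map_sub, hT.comm])
        fun y hy => by
          obtain ⟨x, hx, u, hu, e⟩ := h y hy
          rw [Finset.sum_insert ha, ← add_assoc] at e
          exact ⟨_, Submodule.add_mem_sup hx ⟨u a, hu a, rfl⟩, u, hu, e⟩
      have h2 : ∀ n : ℕ, ∀ y ∈ Y, ∃ x ∈ X, ∃ u ∈ Y, y = x + ((T a - 1) ^ n) u := by
        intro n
        induction n with
        | zero => exact fun y hy => ⟨0, X.zero_mem, y, hy, (zero_add y).symm⟩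
        | succ n ihn =>
          intro y hy
          obtain ⟨x, hx, _, ⟨u, hu, rfl⟩, rfl⟩ := Submodule.mem_sup.1 (h1 y hy)
          obtain ⟨x', hx', u', hu', rfl⟩ := ihn u hu
          refine ⟨x + (T a - 1) x', X.add_mem hx (X.sub_mem (hX a x' hx') hx'), u', hu', ?_⟩
          rw [map_add, pow_succ', add_assoc]
          rfl
      intro y hy
      obtain ⟨x, hx, u, -, e⟩ := h2 p y hy
      rw [e, FMin_nil hG hT, LinearMap.zero_apply, add_zero]
      exact hx
  exact key Finset.univ X hX h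

/-- translation -/
def FMin_sh (p : ℕ) (W : Type) [AddCommGroup W] [Module (ZMod p) W] (a : G) :
    Module.End (ZMod p) (G → W) :=
  LinearMap.funLeft (ZMod p) W fun g => g + a

theorem FMin_sh_act : FMin_Act (FMin_sh (G := G) p M) :=
  ⟨fun x => funext fun g => congrArg x (add_zero g),
    fun a b x => funext fun g => congrArg x (add_assoc g a b).symm⟩

theorem FMin_sh_inv {f : G → M} (h : ∀ g, FMin_sh p M g f = f) (g : G) : f g = f 0 :=
  (congrFun (h (-g)) g).symm.trans (congrArg f (add_neg_cancel g))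

theorem FMin_sh_norm (f : G → M) (a : G) : (∑ g, FMin_sh p M g f) a = ∑ g, f g := by
  rw [Finset.sum_apply]
  exact Equiv.sum_comp (Equiv.addLeft a) f

theorem FMin_prod (hA : FMin_Act TA) (hB : FMin_Act TB) :
    FMin_Act (fun g => (TA g).prodMap (TB g) : G → Module.End (ZMod p) (A × B)) :=
  ⟨fun _ => Prod.ext (hA.zero _) (hB.zero _), fun a b _ => Prod.ext (hA.add a b _) (hB.add a b _)⟩

/-- the map from the free module -/
def FMin_al (T : G → Module.End (ZMod p) M) {r : ℕ} (ρ : Fin r → M) :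
    (G → Fin r → ZMod p) →ₗ[ZMod p] M where
  toFun m := ∑ h, ∑ t, m h t • T (-h) (ρ t)
  map_add' m m' := by simp only [Pi.add_apply, add_smul, Finset.sum_add_distrib]
  map_smul' c m := by
    simp only [Pi.smul_apply, smul_eq_mul, mul_smul, RingHom.id_apply, Finset.smul_sum]

theorem FMin_al_apply {r : ℕ} (ρ : Fin r → M) (m : G → Fin r → ZMod p) :
    FMin_al T ρ m = ∑ h, ∑ t, m h t • T (-h) (ρ t) := rfl

theorem FMin_al_sh (hT : FMin_Act T) {r : ℕ} (ρ : Fin r → M) (a : G) (m : G → Fin r → ZMod p) :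
    FMin_al T ρ (FMin_sh p _ a m) = T a (FMin_al T ρ m) := by
  rw [FMin_al_apply, FMin_al_apply, map_sum]
  refine Fintype.sum_equiv (Equiv.addRight a) _ _ fun h => ?_
  rw [map_sum]
  refine Finset.sum_congr rfl fun t _ => ?_
  rw [map_smul, ← hT.add, Equiv.coe_addRight, show a + -(h + a) = -h by abel]
  rfl

theorem FMin_al_const {r : ℕ} (ρ : Fin r → M) {m : G → Fin r → ZMod p} (h : ∀ g, m g = m 0) :
    FMin_al T ρ m = ∑ t, m 0 t • ∑ g, T g (ρ t) := by
  rw [FMin_al_apply, Finset.sum_comm]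
  refine Finset.sum_congr rfl fun t _ => ?_
  rw [← FMin_neg, Finset.smul_sum]
  exact Finset.sum_congr rfl fun g _ => by rw [h]

theorem FMin_al_single [DecidableEq G] (hT : FMin_Act T) {r : ℕ} (ρ : Fin r → M)
    (c : Fin r → ZMod p) : FMin_al T ρ (Pi.single 0 c) = ∑ t, c t • ρ t := by
  rw [FMin_al_apply, Finset.sum_eq_single 0]
  · simp only [Pi.single_eq_same, neg_zero, hT.zero]
  · intro g _ hg
    simp only [Pi.single_eq_of_ne hg, Pi.zero_apply, zero_smul, Finset.sum_const_zero]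
  · exact fun h => absurd (Finset.mem_univ _) h

theorem FMin_sh_hig : ∃ τ : Module.End (ZMod p) (G → M),
    ∀ f, ∑ h, FMin_sh p M h (τ (FMin_sh p M (-h) f)) = f := by
  classical
  refine ⟨(LinearMap.single (ZMod p) (fun _ : G => M) 0).comp (LinearMap.proj 0),
    fun f => funext fun g => ?_⟩
  rw [Finset.sum_apply, Finset.sum_eq_single (-g)]
  · show (Pi.single 0 (f (0 + - -g)) : G → M) (g + -g) = f g
    rw [add_neg_cancel, Pi.single_eq_same, zero_add, neg_neg]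
  · intro h _ hh
    show (Pi.single 0 (f (0 + -h)) : G → M) (g + h) = 0
    exact Pi.single_eq_of_ne (fun e => hh (eq_neg_of_add_eq_zero_right e)) _
  · exact fun h => absurd (Finset.mem_univ _) h

theorem FMin_hig_inv {τ : Module.End (ZMod p) M} {x : M} (h : ∑ h, T h (τ (T (-h) x)) = x)
    (hx : ∀ g, T g x = x) : ∑ g, T g (τ x) = x := by
  simpa only [hx] using h

theorem FMin_cover (hG : ∀ g : G, p • g = 0) (hB : FMin_Act TB)
    {τ : Module.End (ZMod p) A} (hτ : ∀ x, ∑ h, TA h (τ (TA (-h) x)) = x)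
    (K : Submodule (ZMod p) B) (hK : ∀ g, ∀ v ∈ K, TB g v ∈ K) {σ : Module.End (ZMod p) B}
    (hσK : ∀ v, σ v ∈ K) (hσ : ∀ v ∈ K, ∑ h, TB h (σ (TB (-h) v)) = v) (d : A →ₗ[ZMod p] B)
    (hd : ∀ g a, d (TA g a) = TB g (d a)) (hdK : ∀ a, d a ∈ K) {r : ℕ} (ρ : Fin r → B)
    (hρ : ∀ t, ρ t ∈ K)
    (hs : ∀ v ∈ K, (∀ g, TB g v = v) → ∃ (a : A) (c : Fin r → ZMod p), (∀ g, TA g a = a) ∧
      v = d a + ∑ t, c t • ∑ g, TB g (ρ t)) :
    ∀ v ∈ K, ∃ a m, d a + FMin_al TB ρ m = v := by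
  classical
  intro v hv
  have h := FMin_nak hG hB (LinearMap.range (d.coprod (FMin_al TB ρ))) K ?_ hK ?_ v hv
  · obtain ⟨z, hz⟩ := h
    exact ⟨z.1, z.2, hz⟩
  · rintro g _ ⟨z, rfl⟩
    refine ⟨(TA g z.1, FMin_sh p _ g z.2), ?_⟩
    rw [LinearMap.coprod_apply, LinearMap.coprod_apply, map_add, hd, FMin_al_sh hB]
  · intro y hy
    obtain ⟨a, c, ha, e⟩ := hs (∑ g, TB g y) (K.sum_mem fun g _ => hK g y hy) fun g => hB.norm g y
    obtain ⟨x, hx⟩ : ∃ x, x = d (τ a) + ∑ t, c t • ρ t := ⟨_, rfl⟩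
    have hxK : y - x ∈ K := by
      rw [hx]
      exact K.sub_mem hy (K.add_mem (hdK _) (K.sum_mem fun t _ => K.smul_mem _ (hρ t)))
    have hN : ∑ g, TB g x = ∑ g, TB g y := by
      rw [e, hx]
      simp only [map_add, Finset.sum_add_distrib, ← hd, map_sum, map_smul, Finset.smul_sum]
      rw [← map_sum, FMin_hig_inv (hτ a) ha, Finset.sum_comm]
    refine ⟨x, ⟨(τ a, Pi.single 0 c), ?_⟩, fun g => σ (TB (-g) (y - x)), fun g => hσK _, ?_⟩
    · rw [LinearMap.coprod_apply, FMin_al_single hB, hx]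
    · rw [Finset.sum_sub_distrib, hσ _ hxK, ← map_sum, FMin_neg]
      simp only [map_sub, Finset.sum_sub_distrib]
      rw [hN, sub_self, sub_zero, add_sub_cancel]

theorem FMin_inj (hG : ∀ g : G, p • g = 0) (hA : FMin_Act TA) (hB : FMin_Act TB)
    (d : A →ₗ[ZMod p] B) (hd : ∀ g a, d (TA g a) = TB g (d a)) {r : ℕ} (ρ : Fin r → B)
    (h : ∀ (a : A) (c : Fin r → ZMod p), (∀ g, TA g a = a) →
      d a + ∑ t, c t • ∑ g, TB g (ρ t) = 0 → a = 0 ∧ c = 0) :
    LinearMap.ker (d.coprod (FMin_al TB ρ)) = ⊥ := by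
  refine eq_bot_iff.2 fun z hz => FMin_fix hG (FMin_prod hA FMin_sh_act) _ ?_ ?_ z hz
  · intro g y hy
    show d (TA g y.1) + FMin_al TB ρ (FMin_sh p _ g y.2) = 0
    rw [hd, FMin_al_sh hB, ← map_add]
    exact (congrArg (TB g) hy).trans (map_zero _)
  · intro y hy hi
    have h1 := FMin_sh_inv (p := p) fun g => congrArg Prod.snd (hi g)
    have h2 : d y.1 + FMin_al TB ρ y.2 = 0 := hy
    rw [FMin_al_const ρ h1] at h2
    obtain ⟨a, b⟩ := h _ _ (fun g => congrArg Prod.fst (hi g)) h2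
    exact Prod.ext a (funext fun g => (h1 g).trans b)

theorem FMin_sec (hA : FMin_Act TA) (hB : FMin_Act TB) {τ : Module.End (ZMod p) B}
    (hτ : ∀ x, ∑ h, TB h (τ (TB (-h) x)) = x) (β : A →ₗ[ZMod p] B)
    (hβ : ∀ g a, β (TA g a) = TB g (β a)) (hs : ∀ b, ∃ a, β a = b) :
    ∃ π : Module.End (ZMod p) A, (∀ g a, π (TA g a) = TA g (π a)) ∧ (∀ a, β (π a) = 0) ∧
      ∀ a, β a = 0 → π a = a := by
  obtain ⟨s0, hs0⟩ := β.exists_rightInverse_of_surjective (LinearMap.range_eq_top.2 hs)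
  obtain ⟨s, e⟩ : ∃ s : B →ₗ[ZMod p] A, ∀ b, s b = ∑ h, TA h (s0 (τ (TB (-h) b))) :=
    ⟨∑ h, (TA h).comp (s0.comp (τ.comp (TB (-h)))), fun b => LinearMap.sum_apply _ _ _⟩
  have h0 : ∀ b, β (s0 b) = b := fun b => LinearMap.congr_fun hs0 b
  have h1 : ∀ b, β (s b) = b := fun b => by
    rw [e, map_sum]
    simp only [hβ, h0]
    exact hτ b
  have h2 : ∀ g b, s (TB g b) = TA g (s b) := fun g b => by
    rw [e, e, map_sum]
    refine (Fintype.sum_equiv (Equiv.addLeft g) _ _ fun h => ?_).symm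
    rw [← hA.add, Equiv.coe_addLeft, ← hB.add, show -(g + h) + g = -h by abel]
  refine ⟨LinearMap.id - s.comp β, fun g a => ?_, fun a => ?_, fun a ha => ?_⟩
  · show TA g a - s (β (TA g a)) = TA g (a - s (β a))
    rw [hβ, h2, map_sub]
  · show β (a - s (β a)) = 0
    rw [map_sub, h1, sub_self]
  · show a - s (β a) = a
    rw [ha, map_zero, sub_zero]

theorem FMin_abs (hG : ∀ g : G, p • g = 0) (h0 : FMin_Act T) (h1 : FMin_Act TA) (h2 : FMin_Act TB)
    {τ0 : Module.End (ZMod p) M} {τ1 : Module.End (ZMod p) A} {τ2 : Module.End (ZMod p) B}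
    (g0 : ∀ x, ∑ h, T h (τ0 (T (-h) x)) = x) (g1 : ∀ x, ∑ h, TA h (τ1 (TA (-h) x)) = x)
    (g2 : ∀ x, ∑ h, TB h (τ2 (TB (-h) x)) = x) (d0 : M →ₗ[ZMod p] A) (d1 : A →ₗ[ZMod p] B)
    (e0 : ∀ g y, d0 (T g y) = TA g (d0 y)) (e1 : ∀ g x, d1 (TA g x) = TB g (d1 x))
    (hdd : ∀ y, d1 (d0 y) = 0) (hinj : ∀ y, (∀ g, T g y = y) → d0 y = 0 → y = 0)
    {r r' : ℕ} (xb : Fin r → A) (b : Fin r' → B) (xi : ∀ i g, TA g (xb i) = xb i)
    (xc : ∀ i, d1 (xb i) = 0) (bi : ∀ t g, TB g (b t) = b t)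
    (xs : ∀ z, (∀ g, TA g z = z) → d1 z = 0 → ∃ (y : M) (c : Fin r → ZMod p), (∀ g, T g y = y) ∧
      z = d0 y + ∑ i, c i • xb i)
    (xn : ∀ (y : M) (c : Fin r → ZMod p), (∀ g, T g y = y) → d0 y + ∑ i, c i • xb i = 0 → c = 0)
    (bs : ∀ y, (∀ g, TB g y = y) → ∃ (x : A) (c : Fin r' → ZMod p), (∀ g, TA g x = x) ∧
      y = d1 x + ∑ t, c t • b t)
    (bn : ∀ (x : A) (c : Fin r' → ZMod p), (∀ g, TA g x = x) → d1 x + ∑ t, c t • b t = 0 → c = 0) :
    ∃ (x : Fin r → A) (J : A →ₗ[ZMod p] (Fin r → ZMod p)) (ρ : Fin r' → B)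
      (dd : Fin r → G → Fin r' → ZMod p), (∀ i, d1 (x i) = FMin_al TB ρ (dd i)) ∧
      (∀ i, ∑ h, dd i h = 0) ∧ (∀ i, ∑ g, TA g (x i) = xb i) ∧
      (∀ z, d1 z = 0 → ∃ y, z = d0 y + FMin_al TA x fun h => J (TA h z)) ∧
      ∀ y, J (d0 y) = 0 := by
  obtain ⟨ρ, hρ⟩ : ∃ ρ : Fin r' → B, ∀ t, ∑ g, TB g (ρ t) = b t :=
    ⟨fun t => τ2 (b t), fun t => FMin_hig_inv (g2 _) (bi t)⟩
  obtain ⟨β, hβ⟩ : ∃ β : (A × (G → Fin r' → ZMod p)) →ₗ[ZMod p] B,
    ∀ v, β v = d1 v.1 + FMin_al TB ρ v.2 := ⟨d1.coprod (FMin_al TB ρ), fun v => rfl⟩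
  obtain ⟨U, hU⟩ : ∃ U : G → Module.End (ZMod p) (A × (G → Fin r' → ZMod p)),
    U = fun g => (TA g).prodMap (FMin_sh p _ g) := ⟨_, rfl⟩
  have aU : FMin_Act U := hU ▸ FMin_prod h1 FMin_sh_act
  have U1 : ∀ g v, (U g v).1 = TA g v.1 := fun g v => by rw [hU]; rfl
  have U2 : ∀ g v, (U g v).2 = FMin_sh p _ g v.2 := fun g v => by rw [hU]; rfl
  have eβ : ∀ g v, β (U g v) = TB g (β v) := fun g v => by
    rw [hβ, hβ, U1, U2, e1, FMin_al_sh h2, map_add]
  have sβ : ∀ y, ∃ v, β v = y := fun y => by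
    obtain ⟨a, m, e⟩ := FMin_cover hG h2 g1 ⊤ (fun _ _ _ => trivial) (σ := τ2) (fun _ => trivial)
      (fun v _ => g2 v) d1 e1 (fun _ => trivial) ρ (fun _ => trivial)
      (fun v _ hv => by simpa only [hρ] using bs v hv) y trivial
    exact ⟨(a, m), (hβ _).trans e⟩
  obtain ⟨π, π1, π2, π3⟩ := FMin_sec aU h2 g2 β eβ sβ
  obtain ⟨τF, gF⟩ := FMin_sh_hig (p := p) (G := G) (M := Fin r' → ZMod p)
  obtain ⟨σ, σ1, σ2⟩ : ∃ σ : Module.End (ZMod p) (A × (G → Fin r' → ZMod p)),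
      (∀ v, σ v ∈ LinearMap.ker β) ∧ ∀ v ∈ LinearMap.ker β, ∑ h, U h (σ (U (-h) v)) = v := by
    refine ⟨π.comp (τ1.prodMap τF), fun v => π2 _, fun v hv => ?_⟩
    have e : ∑ h, U h ((τ1.prodMap τF) (U (-h) v)) = v := by
      refine Prod.ext ?_ ?_
      · rw [Prod.fst_sum]
        simpa only [U1, LinearMap.prodMap_apply] using g1 v.1
      · rw [Prod.snd_sum]
        simpa only [U2, LinearMap.prodMap_apply] using gF v.2
    simp only [LinearMap.comp_apply, ← π1]
    rw [← map_sum, e, π3 v hv]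
  have kU : ∀ g, ∀ v ∈ LinearMap.ker β, U g v ∈ LinearMap.ker β := fun g v hv => by
    rw [LinearMap.mem_ker, eβ, LinearMap.mem_ker.1 hv, map_zero]
  have k0 : ∀ z, d1 z = 0 → (z, 0) ∈ LinearMap.ker β := fun z hz => by
    rw [LinearMap.mem_ker, hβ, map_zero, add_zero, hz]
  have U0 : ∀ g z, U g (z, 0) = (TA g z, 0) := fun g z =>
    Prod.ext (U1 g _) ((U2 g _).trans (map_zero _))
  obtain ⟨X, X1, X2⟩ : ∃ X : Fin r → A × (G → Fin r' → ZMod p),
      (∀ i, X i ∈ LinearMap.ker β) ∧ ∀ i, ∑ g, U g (X i) = (xb i, 0) :=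
    ⟨fun i => σ (xb i, 0), fun i => σ1 _, fun i =>
      FMin_hig_inv (σ2 _ (k0 _ (xc i))) fun g => by rw [U0, xi]⟩
  obtain ⟨d, hd⟩ : ∃ d : M →ₗ[ZMod p] (A × (G → Fin r' → ZMod p)), ∀ y, d y = (d0 y, 0) :=
    ⟨d0.prod 0, fun y => rfl⟩
  have ed : ∀ g y, d (T g y) = U g (d y) := fun g y => by rw [hd, hd, U0, e0]
  have eX : ∀ (y : M) (c : Fin r → ZMod p),
      d y + ∑ i, c i • ∑ g, U g (X i) = (d0 y + ∑ i, c i • xb i, 0) := fun y c => by
    simp only [X2, hd]
    refine Prod.ext ?_ ?_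
    · simp only [Prod.fst_add, Prod.fst_sum, Prod.smul_fst]
    · simp only [Prod.snd_add, Prod.snd_sum, Prod.smul_snd, smul_zero, Finset.sum_const_zero,
        add_zero]
  have cov := FMin_cover hG aU g0 (LinearMap.ker β) kU σ1 σ2 d ed
    (fun y => hd y ▸ k0 _ (hdd y)) X X1 fun v hv hi => by
      have i1 : ∀ g, TA g v.1 = v.1 := fun g => (U1 g v).symm.trans (congrArg Prod.fst (hi g))
      have i2 := FMin_sh_inv fun g => (U2 g v).symm.trans (congrArg Prod.snd (hi g))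
      have i3 : d1 v.1 + FMin_al TB ρ v.2 = 0 := (hβ v).symm.trans hv
      have i4 : v.2 = 0 := by
        rw [FMin_al_const ρ i2] at i3
        simp only [hρ] at i3
        exact funext fun g => (i2 g).trans (bn _ _ i1 i3)
      rw [i4, map_zero, add_zero] at i3
      obtain ⟨y, c, hy, e⟩ := xs _ i1 i3
      exact ⟨y, c, hy, (Prod.ext e i4).trans (eX y c).symm⟩
  have inj := FMin_inj hG h0 aU d ed X fun y c hy e => by
    have i1 : d0 y + ∑ i, c i • xb i = 0 := congrArg Prod.fst ((eX y c).symm.trans e)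
    have i2 := xn y c hy i1
    refine ⟨hinj y hy ?_, i2⟩
    simpa only [i2, Pi.zero_apply, zero_smul, Finset.sum_const_zero, add_zero] using i1
  obtain ⟨L, hL⟩ := (d.coprod (FMin_al U X)).exists_leftInverse_of_injective inj
  have eL : ∀ y m, L (d y + FMin_al U X m) = (y, m) := fun y m => LinearMap.congr_fun hL (y, m)
  obtain ⟨J, hJ⟩ : ∃ J : A →ₗ[ZMod p] (Fin r → ZMod p), ∀ z, J z = (L (z, 0)).2 0 :=
    ⟨(LinearMap.proj 0).comp ((LinearMap.snd _ _ _).comp (L.comp (LinearMap.inl _ _ _))),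
      fun z => rfl⟩
  refine ⟨fun i => (X i).1, J, ρ, fun i => -(X i).2, fun i => ?_, fun i => ?_, fun i => ?_,
    fun z hz => ?_, fun y => ?_⟩
  · rw [map_neg]
    exact eq_neg_of_add_eq_zero_left ((hβ _).symm.trans (X1 i))
  · have e := congrFun (congrArg Prod.snd (X2 i)) 0
    rw [Prod.snd_sum] at e
    simp only [U2] at e
    rw [FMin_sh_norm] at e
    simp only [Pi.neg_apply, Finset.sum_neg_distrib]
    rw [e, Pi.zero_apply, neg_zero]
  · have e := congrArg Prod.fst (X2 i)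
    rw [Prod.fst_sum] at e
    simpa only [U1] using e
  · obtain ⟨y, m, e⟩ := cov _ (k0 z hz)
    have e2 : (fun h => J (TA h z)) = m := funext fun h => by
      rw [hJ, ← U0, ← e, map_add (U h), ← ed, ← FMin_al_sh aU, eL]
      exact congrArg m (zero_add h)
    refine ⟨y, ?_⟩
    rw [e2]
    refine (congrArg Prod.fst e).symm.trans ?_
    rw [Prod.fst_add, hd, FMin_al_apply, FMin_al_apply]
    simp only [Prod.fst_sum, Prod.smul_fst, U1]
  · have e := eL y 0
    rw [map_zero, add_zero] at e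
    rw [hJ, ← hd, e]
    rfl

theorem FMin_basis (P Q : Submodule (ZMod p) M) {n : ℕ}
    (h : ∃ T : Finset M, T.card ≤ p ^ n ∧ ∀ a ∈ P, ∃ b ∈ Q, a - b ∈ T) :
    ∃ (r : ℕ) (e : Fin r → M), r ≤ n ∧ (∀ i, e i ∈ P) ∧
      (∀ a ∈ P, ∃ b ∈ Q, ∃ c : Fin r → ZMod p, a = b + ∑ i, c i • e i) ∧
      ∀ c : Fin r → ZMod p, ∑ i, c i • e i ∈ Q → c = 0 := by
  obtain ⟨S, hS, h⟩ := h
  have hsub : (P.map Q.mkQ : Set (M ⧸ Q)) ⊆ Q.mkQ '' S := by
    rintro _ ⟨a, ha, rfl⟩
    obtain ⟨b, hb, hab⟩ := h a ha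
    refine ⟨a - b, hab, ?_⟩
    rw [map_sub, Submodule.mkQ_apply Q b, (Submodule.Quotient.mk_eq_zero Q).2 hb, sub_zero]
  have hfin : (Q.mkQ '' S).Finite := S.finite_toSet.image _
  have : Finite (P.map Q.mkQ) := hfin.subset hsub
  have : Module.Finite (ZMod p) (P.map Q.mkQ) := Module.Finite.of_finite
  have hc : Nat.card (P.map Q.mkQ) ≤ p ^ n :=
    ((Set.ncard_le_ncard hsub hfin).trans (Set.ncard_image_le S.finite_toSet)).trans
      ((Set.ncard_coe_finset S).trans_le hS)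
  rw [Module.natCard_eq_pow_finrank (K := ZMod p), Nat.card_zmod] at hc
  obtain ⟨E⟩ : Nonempty (Module.Basis (Fin (Module.finrank (ZMod p) (P.map Q.mkQ))) (ZMod p)
    (P.map Q.mkQ)) := ⟨Module.finBasis _ _⟩
  choose e he he' using fun i => Submodule.mem_map.1 (E i).2
  have key : ∀ c : Fin _ → ZMod p, Q.mkQ (∑ i, c i • e i) = (∑ i, c i • E i : P.map Q.mkQ) :=
    fun c => by simp only [map_sum, map_smul, he', Submodule.coe_sum, Submodule.coe_smul]
  refine ⟨_, e, (Nat.pow_le_pow_iff_right (Fact.out : p.Prime).one_lt).1 hc, he, fun a ha => ?_,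
    fun c hc => ?_⟩
  · refine ⟨a - ∑ i, E.repr ⟨Q.mkQ a, a, ha, rfl⟩ i • e i, ?_, _, (sub_add_cancel _ _).symm⟩
    rw [← Submodule.Quotient.mk_eq_zero, ← Submodule.mkQ_apply, map_sub, key, E.sum_repr, sub_self]
  · refine funext (Fintype.linearIndependent_iff.1 E.linearIndependent c (Subtype.ext ?_))
    rw [← key]
    exact (Submodule.Quotient.mk_eq_zero Q).2 hc

/-- translation on a stable subgroup -/
def FMin_T (p : ℕ) [Module (ZMod p) M] {C : AddSubgroup (G → M)} {t : G → M →+ M} (h : Hig C t)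
    (a : G) : Module.End (ZMod p) (AddSubgroup.toZModSubmodule p C) :=
  (FMin_sh p M a).restrict fun f hf => h.shift f hf a

theorem FMin_T_act {C : AddSubgroup (G → M)} {t : G → M →+ M} (h : Hig C t) :
    FMin_Act (FMin_T p h) :=
  ⟨fun x => Subtype.ext ((FMin_sh_act (p := p)).zero x.1),
    fun a b x => Subtype.ext ((FMin_sh_act (p := p)).add a b x.1)⟩

theorem FMin_T_hig {C : AddSubgroup (G → M)} {t : G → M →+ M} (h : Hig C t) :
    ∃ τ : Module.End (ZMod p) (AddSubgroup.toZModSubmodule p C),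
      ∀ x, ∑ a, FMin_T p h a (τ (FMin_T p h (-a) x)) = x := by
  refine ⟨(LinearMap.pi fun g => ((t g).toZModLinearMap p).comp (LinearMap.proj g)).restrict
    fun f hf => h.mul f hf, fun x => Subtype.ext (funext fun g => ?_)⟩
  rw [Submodule.coe_sum, Finset.sum_apply]
  refine Eq.trans ?_ (h.sum (x.1 g))
  refine Fintype.sum_equiv (Equiv.addLeft g) _ _ fun a => ?_
  show t (g + a) (x.1 (g + a + -a)) = t (g + a) (x.1 g)
  rw [add_neg_cancel_right]

theorem FMin_T_inv {C : AddSubgroup (G → M)} {t : G → M →+ M} (h : Hig C t)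
    {x : AddSubgroup.toZModSubmodule p C} (hx : ∀ g, FMin_T p h g x = x) :
    x.1 = fun _ => x.1 0 :=
  funext (FMin_sh_inv (p := p) fun g => congrArg Subtype.val (hx g))

theorem FMin_T_al {C : AddSubgroup (G → M)} {t : G → M →+ M} (h : Hig C t) {r : ℕ}
    (ρ : Fin r → AddSubgroup.toZModSubmodule p C) (m : G → Fin r → ZMod p) (g : G) :
    (FMin_al (FMin_T p h) ρ m).1 g = ∑ i, ∑ a, m a i • (ρ i).1 (g - a) := by
  rw [FMin_al_apply, Finset.sum_comm]
  simp only [Submodule.coe_sum, Finset.sum_apply, Submodule.coe_smul, Pi.smul_apply,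
    sub_eq_add_neg]
  rfl

/-- a pointwise map between subgroups -/
def FMin_D (p : ℕ) [Module (ZMod p) A] [Module (ZMod p) B] {C : AddSubgroup (G → A)}
    {C' : AddSubgroup (G → B)} (D : A →+ B) (hD : ∀ f ∈ C, (fun g => D (f g)) ∈ C') :
    AddSubgroup.toZModSubmodule p C →ₗ[ZMod p] AddSubgroup.toZModSubmodule p C' :=
  ((D.toZModLinearMap p).compLeft G).restrict hD

/-- the values of the constant members -/
def FMin_cst (p : ℕ) [Module (ZMod p) M] (C : AddSubgroup (G → M)) : Submodule (ZMod p) M :=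
  (AddSubgroup.toZModSubmodule p C).comap (LinearMap.pi fun _ => LinearMap.id)

theorem FMin_sum_val {C : AddSubgroup (G → M)} {r : ℕ} (c : Fin r → ZMod p)
    (x : Fin r → AddSubgroup.toZModSubmodule p C) (g : G) :
    (∑ i, c i • x i).1 g = ∑ i, c i • (x i).1 g := by
  simp only [Submodule.coe_sum, Finset.sum_apply, Submodule.coe_smul, Pi.smul_apply]

end Aux

theorem min_model (hG : ∀ g : G, p • g = 0) {W0 W1 W2 : Type} [AddCommGroup W0] [AddCommGroup W1]
    [AddCommGroup W2] [Module (ZMod p) W0] [Module (ZMod p) W1] [Module (ZMod p) W2]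
    {C0 : AddSubgroup (G → W0)} {C1 : AddSubgroup (G → W1)} {C2 : AddSubgroup (G → W2)}
    {t0 : G → W0 →+ W0} {t1 : G → W1 →+ W1} {t2 : G → W2 →+ W2} (h0 : Hig C0 t0) (h1 : Hig C1 t1)
    (h2 : Hig C2 t2) (D0 : W0 →+ W1) (D1 : W1 →+ W2)
    (hD0 : ∀ f ∈ C0, (fun g => D0 (f g)) ∈ C1) (hD1 : ∀ f ∈ C1, (fun g => D1 (f g)) ∈ C2)
    (hDD : ∀ f ∈ C0, ∀ g, D1 (D0 (f g)) = 0)
    (hinj : ∀ y, (fun _ => y) ∈ C0 → D0 y = 0 → y = 0) {n1 n2 : ℕ}
    (H1 : ∃ T : Finset W1, T.card ≤ p ^ n1 ∧ ∀ z, (fun _ => z) ∈ C1 → D1 z = 0 →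
      ∃ y, (fun _ => y) ∈ C0 ∧ z - D0 y ∈ T)
    (H2 : ∃ T : Finset W2, T.card ≤ p ^ n2 ∧ ∀ y, (fun _ => y) ∈ C2 →
      ∃ x, (fun _ => x) ∈ C1 ∧ y - D1 x ∈ T) :
    ∃ (r r' : ℕ) (x : Fin r → G → W1) (J : (G → W1) →+ (Fin r → ZMod p)) (ρ : Fin r' → G → W2)
      (dd : Fin r → Fin r' → G → ZMod p), r ≤ n1 ∧ r' ≤ n2 ∧ (∀ i, x i ∈ C1) ∧
      (∀ i g, D1 (x i g) = ∑ t, ∑ h, dd i t h • ρ t (g - h)) ∧ (∀ i t, ∑ h, dd i t h = 0) ∧
      (∀ z ∈ C1, (∀ g, D1 (z g) = 0) → ∃ y ∈ C0, ∀ g,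
        z g = D0 (y g) + ∑ i, ∑ h, J (fun g' => z (g' + h)) i • x i (g - h)) ∧
      (∀ y ∈ C0, J (fun g => D0 (y g)) = 0) ∧
      ∀ (c : Fin r → ZMod p) (y : W0), (fun _ => y) ∈ C0 → ∑ i, c i • ∑ g, x i g = D0 y → c = 0 := by
  obtain ⟨r, xb, hr, x1, x2, x3⟩ := FMin_basis
    (FMin_cst p C1 ⊓ LinearMap.ker (D1.toZModLinearMap p))
    ((FMin_cst p C0).map (D0.toZModLinearMap p)) (n := n1) (by
      obtain ⟨S, hS, h⟩ := H1
      refine ⟨S, hS, fun a ha => ?_⟩
      obtain ⟨y, hy, e⟩ := h a ha.1 ha.2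
      exact ⟨_, ⟨y, hy, rfl⟩, e⟩)
  obtain ⟨r', b, hr', b1, b2, b3⟩ := FMin_basis (FMin_cst p C2)
    ((FMin_cst p C1).map (D1.toZModLinearMap p)) (n := n2) (by
      obtain ⟨S, hS, h⟩ := H2
      refine ⟨S, hS, fun a ha => ?_⟩
      obtain ⟨y, hy, e⟩ := h a ha
      exact ⟨_, ⟨y, hy, rfl⟩, e⟩)
  obtain ⟨τ0, g0⟩ := FMin_T_hig (p := p) h0
  obtain ⟨τ1, g1⟩ := FMin_T_hig (p := p) h1
  obtain ⟨τ2, g2⟩ := FMin_T_hig (p := p) h2
  obtain ⟨x, J, ρ, dd, a1, a2, a3, a4, a5⟩ := FMin_abs hG (FMin_T_act h0) (FMin_T_act h1)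
    (FMin_T_act h2) g0 g1 g2 (FMin_D p D0 hD0) (FMin_D p D1 hD1) (fun _ _ => rfl) (fun _ _ => rfl)
    (fun y => Subtype.ext (funext (hDD y.1 y.2)))
    (fun y hy e => Subtype.ext ((FMin_T_inv h0 hy).trans (funext fun _ =>
      hinj _ (FMin_T_inv h0 hy ▸ y.2) (congrFun (congrArg Subtype.val e) 0))))
    (fun i => ⟨fun _ => xb i, (x1 i).1⟩) (fun t => ⟨fun _ => b t, b1 t⟩) (fun _ _ => rfl)
    (fun i => Subtype.ext (funext fun _ => (x1 i).2)) (fun _ _ => rfl)
    (fun z hz e => by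
      have e1 := FMin_T_inv h1 hz
      have m1 : (fun _ => z.1 0) ∈ C1 := e1 ▸ z.2
      obtain ⟨_, ⟨y, hy, rfl⟩, c, e2⟩ := x2 (z.1 0) ⟨m1, congrFun (congrArg Subtype.val e) 0⟩
      refine ⟨⟨fun _ => y, hy⟩, c, fun _ => rfl, Subtype.ext (e1.trans (funext fun g => ?_))⟩
      refine e2.trans (congrArg (D0 y + ·) (Eq.symm ?_))
      exact FMin_sum_val c _ g)
    (fun y c hy e => by
      have m0 : (fun _ => y.1 0) ∈ C0 := FMin_T_inv h0 hy ▸ y.2
      have e1 : D0 (y.1 0) + _ = 0 := congrFun (congrArg Subtype.val e) 0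
      refine x3 c ⟨-y.1 0, (FMin_cst p C0).neg_mem m0, ?_⟩
      rw [map_neg]
      exact (neg_eq_of_add_eq_zero_right e1).trans (FMin_sum_val c _ 0))
    (fun z hz => by
      have e1 := FMin_T_inv h2 hz
      have m1 : (fun _ => z.1 0) ∈ C2 := e1 ▸ z.2
      obtain ⟨_, ⟨y, hy, rfl⟩, c, e2⟩ := b2 (z.1 0) m1
      refine ⟨⟨fun _ => y, hy⟩, c, fun _ => rfl, Subtype.ext (e1.trans (funext fun g => ?_))⟩
      refine e2.trans (congrArg (D1 y + ·) (Eq.symm ?_))
      exact FMin_sum_val c _ g)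
    (fun y c hy e => by
      have m0 : (fun _ => y.1 0) ∈ C1 := FMin_T_inv h1 hy ▸ y.2
      have e1 : D1 (y.1 0) + _ = 0 := congrFun (congrArg Subtype.val e) 0
      refine b3 c ⟨-y.1 0, (FMin_cst p C1).neg_mem m0, ?_⟩
      rw [map_neg]
      exact (neg_eq_of_add_eq_zero_right e1).trans (FMin_sum_val c _ 0))
  obtain ⟨J', hJ⟩ := J.exists_extend
  have eJ : ∀ z : AddSubgroup.toZModSubmodule p C1, J' z.1 = J z := fun z =>
    LinearMap.congr_fun hJ z
  refine ⟨r, r', fun i => (x i).1, J'.toAddMonoidHom, fun t => (ρ t).1, fun i t h => dd i h t, hr,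
    hr', fun i => (x i).2, fun i g => ?_, fun i t => ?_, fun z hz e => ?_, fun y hy => ?_,
    fun c y hy e => ?_⟩
  · exact (congrFun (congrArg Subtype.val (a1 i)) g).trans (FMin_T_al h2 ρ _ g)
  · exact (Finset.sum_apply t _ _).symm.trans (congrFun (a2 i) t)
  · obtain ⟨y, e1⟩ := a4 ⟨z, hz⟩ (Subtype.ext (funext e))
    refine ⟨y.1, y.2, fun g => (congrFun (congrArg Subtype.val e1) g).trans ?_⟩
    refine congrArg (D0 (y.1 g) + ·) ((FMin_T_al h1 x _ g).trans ?_)
    exact Finset.sum_congr rfl fun i _ => Finset.sum_congr rfl fun h _ => by rw [← eJ]; rfl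
  · exact (eJ (FMin_D p D0 hD0 ⟨y, hy⟩)).trans (a5 _)
  · refine x3 c ⟨y, hy, e.symm.trans (Finset.sum_congr rfl fun i _ => congrArg (c i • ·) ?_)⟩
    refine (FMin_sh_norm (p := p) (x i).1 0).symm.trans ?_
    refine Eq.trans ?_ (congrFun (congrArg Subtype.val (a3 i)) 0)
    rw [Submodule.coe_sum]
    rfl

end Pool.Agent.ASel
end
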