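import Pool.Agent.Work.MP_60d5ce_nt.Asc.Defs

/-!
# The flat `p^∞`-Selmer group on cocycles; admissible pairs

`H^1_fl(K, W[p^n])` is the first cohomology of the complex `W(Ω) → W(Ω)` (multiplication by `p ^ n`):
pairs `(c, Q)`, `c` a continuous cocycle with `p ^ n c = ∂ Q`, modulo the pairs `(∂ P, p ^ n P)`.  The
transition map to level `n + 1` is `(c, Q) ↦ (c, p Q)`.  The Selmer condition is that `c` splits over
every completion.
-/

namespace Pool.Agent.ASel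

open Pool.Agent.ShaAsc Polynomial

section

variable {R K Ω : Type} [Field R] [Field K] [Field Ω] [Algebra R K] [Algebra K Ω] [Algebra R Ω]
  [IsScalarTower R K Ω] [DecidableEq Ω]

/-- `(c, Q, n)` represents an element of the flat `p^∞`-Selmer group. -/
def InSelP (p : ℕ) (W : WeierstrassCurve R) (c : (Ω ≃ₐ[K] Ω) → Pts W Ω) (Q : Pts W Ω) (n : ℕ) :
    Prop :=
  InSha W c ∧ ∀ σ, p ^ n • c σ = act W σ Q - Q

/-- `(c, Q, n)` and `(c', Q', n')` have the same class in the limit of the `H^1_fl(K, W[p^n])`. -/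
def SameSel (p : ℕ) (W : WeierstrassCurve R) (c : (Ω ≃ₐ[K] Ω) → Pts W Ω) (Q : Pts W Ω) (n : ℕ)
    (c' : (Ω ≃ₐ[K] Ω) → Pts W Ω) (Q' : Pts W Ω) (n' : ℕ) : Prop :=
  ∃ (P : Pts W Ω) (i : ℕ), (∀ σ, c σ - c' σ = act W σ P - P) ∧
    p ^ i • (p ^ n' • Q - p ^ n • Q' - p ^ (n + n') • P) = 0

end

/-- pairs `(a, b)`: `b` monic squarefree of degree `N` and prime to `F`, `a` prime to `b` of degree
`< N` -/
def Prs {k : Type} [Field k] (F : k[X]) (N : ℕ) : Set (k[X] × k[X]) :=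
  {x | x.2.Monic ∧ x.2.natDegree = N ∧ Squarefree x.2 ∧ IsCoprime x.2 F ∧ IsCoprime x.1 x.2 ∧
    x.1.degree < N}

end Pool.Agent.ASel
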