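import Pool.Agent.Work.MP_60d5ce_nt.AS.SDefs

/-!
# Finite index of the restriction of the flat `p^∞`-Selmer group
-/

namespace Pool.Agent.ASel

open Pool.Agent.ShaAsc

/-- The image of the flat `p^∞`-Selmer group of `W` over `K` has finite index in the one over `L`. -/
def FinIdx (p : ℕ) {K Ω : Type} [Field K] [Field Ω] [Algebra K Ω] [DecidableEq Ω]
    (W : WeierstrassCurve K) (L : IntermediateField K Ω) : Prop :=
  ∃ S : Set (((Ω ≃ₐ[L] Ω) → Pts W Ω) × Pts W Ω × ℕ), S.Finite ∧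
    (∀ s ∈ S, InSelP p W s.1 s.2.1 s.2.2) ∧
    ∀ c Q n, InSelP p W c Q n → ∃ s ∈ S, ∃ (c0 : (Ω ≃ₐ[K] Ω) → Pts W Ω) (Q0 : Pts W Ω) (n0 : ℕ),
      InSelP p W c0 Q0 n0 ∧ SameSel p W c Q n (fun σ => s.1 σ + c0 (σ.restrictScalars K))
        (p ^ n0 • s.2.1 + p ^ s.2.2 • Q0) (s.2.2 + n0)

end Pool.Agent.ASel
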