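import Pool.Agent.Work.MP_60d5ce_nt.AS.SelK
import Pool.Agent.Work.MP_60d5ce_nt.AS.SDefs
import Pool.Agent.Work.MP_60d5ce_nt.Asc.Loc

/-!
# From Selmer triples over `K(δ) ⊆ Ω` to classes in `Amb`

`Cor j δ c Q n s`: the class `s` corresponds to the triple `(c, Q, n)`.

PLAN.  `σ ∈ Gk k` restricts along `j` to `Ω` (`AlgEquiv.restrictNormal`-type argument: the range of `j` is `Om`), and
every automorphism of `Ω` over `K` comes from some `σ` (`AlgEquiv.liftNormal`); `σ` fixes `j δ` iff its restriction is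
linear over `K⟮δ⟯` (`Hs`, `toH`, `ext0` of `Asc/Cores.lean`).  Points of level `0` are the images of the points over
`Ω` (`mem_lev`).  `cor_ex`: `ξ σ = j (ext0 c (ρ σ))`, `Q'` with `p ^ n Q' = j Q` (`divp`); for the local condition
apply `loc_split` with `Λ = separableClosure (Lv v) (Lb v)` and `ι = j' ∘ j` (`om_map`, `av_nontriv`).
`cor_same`: the difference of the two pairs is `(∂ P, P + t)` with `P = j P0`.  A given instance
`DecidableEq Ω` can be replaced by the classical one with `Subsingleton.elim` and `subst`.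
-/

namespace Pool.Agent.ASel

open Polynomial Pool.Agent.Smith Pool.Agent.ShaAsc WeierstrassCurve WeierstrassCurve.Affine
open scoped Classical IntermediateField

section

variable {R K Ω : Type} [Field R] [Field K] [Field Ω] [Algebra R K] [Algebra K Ω] [Algebra R Ω]
  [IsScalarTower R K Ω] [DecidableEq Ω] [IsGalois K Ω] {p : ℕ} {W : WeierstrassCurve R}

theorem InSelP.sub {c c' : (Ω ≃ₐ[K] Ω) → Pts W Ω} {Q Q' : Pts W Ω} {n n' : ℕ}
    (h : InSelP p W c Q n) (h' : InSelP p W c' Q' n') :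
    InSelP p W (c - c') (p ^ n' • Q - p ^ n • Q') (n + n') := by
  refine ⟨h.1.sub h'.1, fun σ => ?_⟩
  rw [Pi.sub_apply, smul_sub, pow_add, mul_nsmul, mul_nsmul', h.2, h'.2, map_sub, map_nsmul,
    map_nsmul, smul_sub, smul_sub]
  abel

theorem inSelP_zero : InSelP p W (0 : (Ω ≃ₐ[K] Ω) → Pts W Ω) 0 0 := by
  refine ⟨⟨⟨IsLocallyConstant.const 0, fun _ _ => by simp⟩, fun v _ => ?_⟩, fun _ => by simp⟩
  let _ := Classical.decEq (SeparableClosure v.Completion)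
  obtain ⟨ι, hι⟩ := exists_compat (R := R) (K := K) (Ω := Ω) v.Completion
  exact ⟨ι, hι, 0, fun _ _ _ => by rw [Pi.zero_apply, map_zero, map_zero, sub_zero]⟩

end

variable {k : Type} [Field k] {p : ℕ} [Fintype k] [hp : Fact p.Prime] [CharP k p] {a4 a6 : k[X]}
  {Ω : Type} [Field Ω] [Algebra (RatFunc k) Ω] [IsSepClosure (RatFunc k) Ω] [DecidableEq Ω]

omit [Fintype k] [IsSepClosure (RatFunc k) Ω] in
theorem BrgA_lev {M : Type} [Field M] [Algebra (RatFunc k) M] [CharP M p] (κ : Ω →ₐ[RatFunc k] M)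
    {S : Subfield M} (hκ : ∀ y, κ y ∈ S) (P : Pts (Ew a4 a6) Ω) :
    Point.map (W' := (Ew a4 a6).toAffine) κ P ∈ Lev p S (Wm a4 a6 M) 0 := by
  rcases P with _ | ⟨x, y, h⟩
  · exact zero_mem _
  · exact fun _ => ⟨pow_mem (hκ x) _, pow_mem (hκ y) _⟩

omit [Fintype k] [IsSepClosure (RatFunc k) Ω] [DecidableEq Ω] in
theorem BrgA_stab {j : Ω →ₐ[RatFunc k] Kb k} {δ : Ω} {σ : Gk k} {σ' : Ω ≃ₐ[(RatFunc k)⟮δ⟯] Ω}
    (h : ∀ y, j (σ' y) = σ (j y)) : σ (j δ) = j δ :=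
  (h δ).symm.trans (congrArg j (σ'.commutes ⟨δ, IntermediateField.mem_adjoin_simple_self _ δ⟩))

theorem exists_j0 : ∃ j : Ω →ₐ[RatFunc k] Kb k,
    ∀ x, x ∈ Om (RatFunc k) (Kb k) ↔ ∃ y, j y = x := by
  let e := IsSepClosure.equiv (RatFunc k) Ω (separableClosure (RatFunc k) (Kb k))
  exact ⟨(IntermediateField.val _).comp e.toAlgHom, fun x => ⟨fun h => ⟨e.symm ⟨x, h⟩,
    congrArg Subtype.val (e.apply_symm_apply _)⟩, fun ⟨y, h⟩ => h ▸ (e y).2⟩⟩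

variable (p a4 a6) in
/-- the class `s` corresponds to the triple `(c, Q, n)` -/
def Cor (j : Ω →ₐ[RatFunc k] Kb k) (δ : Ω) (c : (Ω ≃ₐ[(RatFunc k)⟮δ⟯] Ω) → Pts (Ew a4 a6) Ω)
    (Q : Pts (Ew a4 a6) Ω) (n : ℕ) (s : Amb a4 a6 p (MulAction.stabilizer (Gk k) (j δ)) 0) : Prop :=
  ∃ x : (Gk k → EK a4 a6) × EK a4 a6, (x : Amb a4 a6 p _ 0) = s ∧
    (∀ (σ : Gk k) (σ' : Ω ≃ₐ[(RatFunc k)⟮δ⟯] Ω), (∀ y, j (σ' y) = σ (j y)) →
      x.1 σ = Point.map (W' := (Ew a4 a6).toAffine) j (c σ')) ∧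
    p ^ n • x.2 = Point.map (W' := (Ew a4 a6).toAffine) j Q

variable {j : Ω →ₐ[RatFunc k] Kb k} {δ : Ω}
  {c c' : (Ω ≃ₐ[(RatFunc k)⟮δ⟯] Ω) → Pts (Ew a4 a6) Ω} {Q Q' : Pts (Ew a4 a6) Ω} {n n' : ℕ}
  {s s' : Amb a4 a6 p (MulAction.stabilizer (Gk k) (j δ)) 0}

theorem cor_zero : Cor p a4 a6 j δ 0 0 0 0 := ⟨0, rfl, fun _ _ _ => by simp, by simp⟩

theorem Cor.add (h : Cor p a4 a6 j δ c Q n s) (h' : Cor p a4 a6 j δ c' Q' n' s') :
    Cor p a4 a6 j δ (c + c') (p ^ n' • Q + p ^ n • Q') (n + n') (s + s') := by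
  obtain ⟨x, rfl, h1, h2⟩ := h
  obtain ⟨x', rfl, h3, h4⟩ := h'
  refine ⟨x + x', rfl, fun σ σ' e => ?_, ?_⟩
  · rw [Prod.fst_add, Pi.add_apply, Pi.add_apply, h1 σ σ' e, h3 σ σ' e, map_add]
  · rw [Prod.snd_add, smul_add, pow_add, mul_nsmul, mul_nsmul', h2, h4, map_add, map_nsmul, map_nsmul]

theorem Cor.sub (h : Cor p a4 a6 j δ c Q n s) (h' : Cor p a4 a6 j δ c' Q' n' s') :
    Cor p a4 a6 j δ (c - c') (p ^ n' • Q - p ^ n • Q') (n + n') (s - s') := by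
  obtain ⟨x, rfl, h1, h2⟩ := h
  obtain ⟨x', rfl, h3, h4⟩ := h'
  refine ⟨x - x', rfl, fun σ σ' e => ?_, ?_⟩
  · rw [Prod.fst_sub, Pi.sub_apply, Pi.sub_apply, h1 σ σ' e, h3 σ σ' e, map_sub]
  · rw [Prod.snd_sub, smul_sub, pow_add, mul_nsmul, mul_nsmul', h2, h4, map_sub, map_nsmul, map_nsmul]

variable (hj : ∀ x, x ∈ Om (RatFunc k) (Kb k) ↔ ∃ y, j y = x)
include hj

theorem j_res (σ : Gk k) : ∃ σ' : Ω ≃ₐ[RatFunc k] Ω, ∀ y, j (σ' y) = σ (j y) :=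
  ShaFF.exists_res j σ

theorem j_lift (σ' : Ω ≃ₐ[RatFunc k] Ω) : ∃ σ : Gk k, ∀ y, j (σ' y) = σ (j y) := by
  let _ : Algebra Ω (Kb k) := j.toRingHom.toAlgebra
  have : IsScalarTower (RatFunc k) Ω (Kb k) := .of_algebraMap_eq fun x => (j.commutes x).symm
  exact ⟨σ'.liftNormal (Kb k), fun y => (σ'.liftNormal_commutes (Kb k) y).symm⟩

theorem j_resH {σ : Gk k} (hσ : σ (j δ) = j δ) :
    ∃ σ' : Ω ≃ₐ[(RatFunc k)⟮δ⟯] Ω, ∀ y, j (σ' y) = σ (j y) := by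
  obtain ⟨τ, hτ⟩ := j_res hj σ
  have h : (RatFunc k)⟮δ⟯ ≤ IntermediateField.fixedField (MulAction.stabilizer (Ω ≃ₐ[RatFunc k] Ω) δ) :=
    IntermediateField.adjoin_simple_le_iff.2 ((IntermediateField.mem_fixedField_iff _ _).2 fun _ h => h)
  exact ⟨{ τ.toRingEquiv with
    commutes' := fun x => (IntermediateField.mem_fixedField_iff _ _).1 (h x.2) τ
      (j.injective ((hτ δ).trans hσ)) }, hτ⟩

theorem Hy.lev0_iff (h : Hy p a4 a6) (P : EK a4 a6) :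
    P ∈ LG a4 a6 p 0 ↔ ∃ P0, Point.map (W' := (Ew a4 a6).toAffine) j P0 = P := by
  refine ⟨fun hP => ?_, fun ⟨P0, e⟩ => e ▸ BrgA_lev j (fun y => (hj _).2 ⟨y, rfl⟩) P0⟩
  rw [mem_lev h.ord_Kb.sw (pk_om a4), pow_zero, pow_one, pow_one, hj, hj] at hP
  rcases P with _ | ⟨x, y, hn⟩
  · exact ⟨0, rfl⟩
  · obtain ⟨⟨x, rfl : j x = _⟩, y, rfl : j y = _⟩ := hP
    exact ⟨.some x y ((baseChange_nonsingular (W := (Ew a4 a6).toAffine) j.injective x y).1 hn), rfl⟩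

theorem Hy.cor_ex (h : Hy p a4 a6) (hc : InSelP p (Ew a4 a6) c Q n) :
    ∃ s ∈ Sel a4 a6 p _ 0, Cor p a4 a6 j δ c Q n s := by
  obtain ⟨ξ, hξ⟩ : ∃ ξ : Gk k → EK a4 a6, ∀ (σ : Gk k) (σ' : Ω ≃ₐ[(RatFunc k)⟮δ⟯] Ω),
      (∀ y, j (σ' y) = σ (j y)) → ξ σ = Point.map (W' := (Ew a4 a6).toAffine) j (c σ') :=
    ⟨fun σ => if e : σ (j δ) = j δ then
      Point.map (W' := (Ew a4 a6).toAffine) j (c (j_resH hj e).choose) else 0, fun σ σ' e => by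
      have e' := BrgA_stab e
      simp only [dif_pos e']
      rw [show (j_resH hj e').choose = σ' from
        AlgEquiv.ext fun y => j.injective (((j_resH hj e').choose_spec y).trans (e y).symm)]⟩
  obtain ⟨Q', hQ⟩ : ∃ Q', p ^ n • Q' = Point.map (W' := (Ew a4 a6).toAffine) j Q := by
    clear hc
    induction n with
    | zero => exact ⟨_, one_smul _ _⟩
    | succ n ih =>
      obtain ⟨P, hP⟩ := ih
      obtain ⟨P', rfl⟩ := h.ord_Kb.divp P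
      exact ⟨P', by rw [pow_succ, mul_smul, hP]⟩
  have : Algebra.IsIntegral (RatFunc k)⟮δ⟯ Ω := Algebra.IsIntegral.tower_top (R := RatFunc k)
  have := IntermediateField.adjoin.finiteDimensional (Algebra.IsIntegral.isIntegral (R := RatFunc k) δ)
  obtain ⟨S, hS⟩ := hc.1.1.fin
  refine ⟨_, ⟨(ξ, Q'), ⟨fun σ hσ => ?_, fun σ hσ τ hτ => ?_, ⟨S.image j, fun σ hσ e => ?_⟩,
    ⟨n, fun σ hσ => ?_⟩, fun v j' => ?_⟩, rfl⟩, (ξ, Q'), rfl, hξ, hQ⟩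
  · obtain ⟨σ', e⟩ := j_resH hj hσ
    exact (h.lev0_iff hj _).2 ⟨_, (hξ σ σ' e).symm⟩
  · obtain ⟨σ', e⟩ := j_resH hj hσ
    obtain ⟨τ', e'⟩ := j_resH hj hτ
    simp only
    rw [hξ (σ * τ) (σ' * τ') fun y => (e (τ' y)).trans (congrArg σ (e' y)), hξ σ σ' e, hξ τ τ' e', hc.1.1.2,
      map_add, map_act j e]
  · obtain ⟨σ', e'⟩ := j_resH hj hσ
    simp only
    rw [hξ σ σ' e', hS σ' fun y hy =>
      j.injective ((e' y).trans (e _ (Finset.mem_image_of_mem j hy))), map_zero]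
  · obtain ⟨σ', e⟩ := j_resH hj hσ
    simp only
    rw [hξ σ σ' e, smul_sub, smul_sub, ← map_nsmul, ← map_nsmul, hQ, hc.2, map_sub, map_act j e,
      sub_self]
  let Λ := separableClosure (Lv v) (Lb v)
  have hm : ∀ y, (j'.comp j : Ω →+* Lb v) y ∈ Λ := fun y =>
    om_map (algebraMap (RatFunc k) (Lv v)) (j' : Kb k →+* Lb v) j'.commutes ((hj _).2 ⟨y, rfl⟩)
  let ι : Ω →ₐ[RatFunc k] Λ := { (j'.comp j : Ω →+* Lb v).codRestrict Λ hm with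
    commutes' := fun a => Subtype.ext ((j'.comp j).commutes a) }
  let κ : Λ →ₐ[RatFunc k] Lb v := Λ.val.restrictScalars _
  obtain ⟨a, a0, a1⟩ := av_nontriv v
  obtain ⟨P, hP⟩ := loc_split (K := RatFunc k) (L := Lv v) hc.1 ⟨a, a0, by rwa [norm_alg]⟩ ι
    ι.commutes
  refine ⟨Point.map (W' := (Ew a4 a6).toAffine) κ P, BrgA_lev κ (fun y => y.2) P,
    fun τ σ hσ e => ?_⟩
  obtain ⟨σ', e'⟩ := j_resH hj hσ
  obtain ⟨τ', f⟩ := ShaFF.exists_res Λ.val τ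
  simp only
  rw [hξ σ σ' e', ← map_act κ f, ← map_sub, ← hP τ' σ' fun y => Subtype.ext
    ((congrArg j' (e' y)).trans ((e _).trans (f (ι y)).symm)), em, map_map_eq, map_map_eq]
  rfl

theorem Hy.cor_same (h : Hy p a4 a6) (h1 : Cor p a4 a6 j δ c Q n s)
    (h2 : Cor p a4 a6 j δ c' Q' n' s) : SameSel p (Ew a4 a6) c Q n c' Q' n' := by
  obtain ⟨x, rfl, a1, a2⟩ := h1
  obtain ⟨x', e, b1, b2⟩ := h2
  obtain ⟨P, hP, c1, m, c2⟩ := QuotientAddGroup.eq_iff_sub_mem.1 e.symm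
  obtain ⟨P, rfl⟩ := (h.lev0_iff hj P).1 hP
  refine ⟨P, m, fun σ' => Point.map_injective (W' := (Ew a4 a6).toAffine) j ?_,
    Point.map_injective (W' := (Ew a4 a6).toAffine) j ?_⟩
  · obtain ⟨σ, f⟩ := j_lift hj (σ'.restrictScalars (RatFunc k))
    rw [map_sub, map_sub, ← a1 σ σ' f, ← b1 σ σ' f, map_act j (σ := σ') f]
    exact c1 σ (BrgA_stab f)
  · rw [map_nsmul, map_sub, map_sub, map_nsmul, map_nsmul, map_nsmul, ← a2, ← b2, ← mul_nsmul,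
      ← mul_nsmul', ← pow_add, ← smul_sub, ← smul_sub, smul_comm, map_zero]
    exact (congrArg _ c2).trans (smul_zero _)

theorem Cor.uniq (h1 : Cor p a4 a6 j δ c Q n s) (h2 : Cor p a4 a6 j δ c Q n s') : s = s' := by
  obtain ⟨x, rfl, a1, a2⟩ := h1
  obtain ⟨x', rfl, b1, b2⟩ := h2
  refine QuotientAddGroup.eq_iff_sub_mem.2 ⟨0, zero_mem _, fun σ hσ => ?_, n, ?_⟩
  · obtain ⟨σ', e⟩ := j_resH hj hσ
    rw [Prod.fst_sub, Pi.sub_apply, a1 σ σ' e, b1 σ σ' e, map_zero, sub_self, sub_self]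
  · rw [sub_zero, Prod.snd_sub, smul_sub, a2, b2, sub_self]

end Pool.Agent.ASel
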