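import Pool.Agent.Work.MP_60d5ce_nt.AS.LatA

/-!
# Descent of the local conditions from `K1` to `K2`

PLAN.  Let `G2` be the group of the local `τ` that fix the `j (w l)`; `j a` is fixed by `G2` if `a ∈ K2`
(`exists_rst`).  `l2_split`: `j (w l) - s ∈ F_p`, so `G2` is everything, `om_fix`.  `desc_unr`: if `G2` fixes
`j w0` take `y`; otherwise some `τ ∈ G2` has `τ (j w0) = j w0 + 1`; `y0 = ∑ τ ^ i (θ y)`, `θ = -(j w0) ^ (p-1)` of
trace one and norm `≤ 1`; `y - y0 = ∑ τ ^ i θ (y - τ ^ i y)` and `℘ (τ ^ i y - y)` has norm `≤ C`, `wp_le`.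
`desc_anom`, `desc_na`: take `z` with `℘ z = j a` and `l` with `l ^ (p-1) = A`, `nm l = 1`; `f τ = τ z - z ∈ F_p l` on
`G2` (`wp_ker`).  `z - y` is integral (`wp_int`), so for `τ ∈ I0 ∩ G2` fixing `j w0`, `f τ` is small, so zero
(`i0_small`, `fp_small`); `I0` fixes `l`.  Hence on `I0 ∩ G2`, `f τ = μ (τ w0 - w0) l`.  Anomalous case:
`l ∈ Lv v` (`anom_iff`), `z - μ l w0` is fixed by `I0`, `℘ (l w0) = l d`, `wp_unr`.  Other case: `l ∉ Lv v`, some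
`γ` moves `l`, so does `γ ^ p ∈ G2`; conjugating (`i0_normal`) gives `μ (τ w0 - w0) = 0`, so `z` is fixed
by `I0 ∩ G2`, which contains the commutators (`i0_comm`); `sah`.
-/

namespace Pool.Agent.ASel

open Polynomial Pool.Agent.Smith

variable {p : ℕ} {k : Type} [Field k] {ι : Type} [Fintype k] [hp : Fact p.Prime] [CharP k p]
  {A F b : k[X]} {v0 : Pl k} {ϖ0 : RatFunc k} {B : ℕ → ℕ} {Φ : ASF p k ι}

section abs

variable {K M : Type} [Field K] [Field M] [Algebra K M] {w : AbsoluteValue M ℝ}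

theorem LatE_mv [CharP M p] {x : M} {c : K} (h : x ^ p - x = algebraMap K M c) (τ : M ≃ₐ[K] M) :
    ∃ m : ℕ, τ x = x + m := by
  obtain ⟨m, hm⟩ := Wp_fix (p := p) (x := τ x - x) (by
    have h1 := congrArg τ h
    rw [map_sub, map_pow, AlgEquiv.commutes, ← h] at h1
    rw [sub_pow_char]
    linear_combination h1)
  exact ⟨m, sub_eq_iff_eq_add'.1 hm⟩

theorem LatE_it {τ : M ≃ₐ[K] M} {x c : M} (h : τ x = x + c) (hc : τ c = c) (n : ℕ) :
    (τ ^ n) x = x + n * c := by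
  induction n with
  | zero => simp
  | succ n ih =>
    rw [pow_succ', AlgEquiv.mul_apply, ih, map_add, map_mul, map_natCast, h, hc]
    push_cast
    ring

theorem LatE_nat [CharP M p] (m : ℕ) : (m : M) ^ p = m := by rw [← frobenius_def, map_natCast]

include hp in
variable (p) in
theorem LatE_one [CharP M p] (H : Subgroup (M ≃ₐ[K] M)) {x : M}
    (hx : ∀ τ : M ≃ₐ[K] M, ∃ m : ℕ, τ x = x + m) :
    (∀ τ ∈ H, τ x = x) ∨ ∃ τ ∈ H, τ x = x + 1 := by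
  refine or_iff_not_imp_left.2 fun h => ?_
  obtain ⟨τ, h1⟩ := not_forall.1 h
  obtain ⟨h2, h3⟩ := Classical.not_imp.1 h1
  obtain ⟨m, hm⟩ := hx τ
  have h0 : (m : M) ≠ 0 := fun e => h3 (by rw [hm, e, add_zero])
  refine ⟨τ ^ m ^ (p - 2), pow_mem h2 _, ?_⟩
  rw [LatE_it hm (map_natCast τ m), Nat.cast_pow]
  refine congrArg _ (mul_right_cancel₀ h0 ?_)
  rw [← pow_succ, ← pow_succ, one_mul, show p - 2 + 1 + 1 = p by have := hp.out.two_le; omega]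
  exact LatE_nat m

theorem LatE_tr [CharP M p] (x : M) : ∑ i ∈ Finset.range p, (x + i) ^ (p - 1) = -1 := by
  have h1 : ∀ m, ∑ i ∈ Finset.range p, (i : M) ^ m =
      ZMod.castHom (dvd_refl p) M (∑ c : ZMod p, c ^ m) := fun m => by
    rw [map_sum]
    exact Finset.sum_bij' (fun i _ => (i : ZMod p)) (fun c _ => c.val) (fun _ _ => Finset.mem_univ _)
      (fun c _ => Finset.mem_range.2 c.val_lt)
      (fun i hi => ZMod.val_cast_of_lt (Finset.mem_range.1 hi))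
      (fun c _ => ZMod.natCast_zmod_val c) fun i _ => by rw [map_pow, map_natCast]
  have h2 : ∑ c : ZMod p, c ^ (p - 1) = -1 := by
    rw [Finset.sum_congr rfl (g := fun c : ZMod p => 1 - if c = 0 then 1 else 0) fun c _ => by
      rw [ZMod.pow_card_sub_one]
      by_cases h : c = 0 <;> simp [h]]
    simp
  simp only [add_comm x, add_pow]
  rw [Finset.sum_comm, Finset.sum_range_succ, Finset.sum_eq_zero fun m hm => by
    rw [← Finset.sum_mul, ← Finset.sum_mul, h1, FiniteField.sum_pow_lt_card_sub_one _ _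
      (by rw [ZMod.card]; exact Finset.mem_range.1 hm), map_zero, zero_mul, zero_mul]]
  rw [← Finset.sum_mul, ← Finset.sum_mul, h1, h2]
  simp

theorem LatE_key {H : Subgroup (M ≃ₐ[K] M)} {x u : M}
    (hu : ∀ τ ∈ H, τ x = x → τ u = u) {σ τ : M ≃ₐ[K] M} (hσ : σ ∈ H) (hτ : τ ∈ H)
    (h : σ x = τ x) : σ u = τ u := by
  have h1 := hu (τ⁻¹ * σ) (mul_mem (inv_mem hτ) hσ) (by
    rw [AlgEquiv.mul_apply, h, AlgEquiv.aut_inv, AlgEquiv.symm_apply_apply])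
  rwa [AlgEquiv.mul_apply, AlgEquiv.aut_inv, AlgEquiv.symm_apply_eq] at h1

include hp in
variable (p) in
theorem LatE_avg [CharP M p] (hw : IsNonarchimedean w) (hi : ∀ (τ : M ≃ₐ[K] M) x, w (τ x) = w x)
    (H : Subgroup (M ≃ₐ[K] M)) {x y : M} (hx : ∀ τ : M ≃ₐ[K] M, ∃ m : ℕ, τ x = x + m)
    (hx1 : w x ≤ 1) (hxo : x ∈ Om K M) (hyo : y ∈ Om K M) (hy : ∀ τ ∈ H, τ x = x → τ y = y) {C : ℝ}
    (hC : 0 ≤ C) (h : ∀ τ ∈ H, w (y - τ y) ≤ C) :
    ∃ y0 ∈ Om K M, (∀ τ ∈ H, τ y0 = y0) ∧ w (y - y0) ≤ C := by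
  rcases LatE_one p H hx with h1 | ⟨τ, hτ, h1⟩
  · exact ⟨y, hyo, fun τ hτ => hy τ hτ (h1 τ hτ), by rwa [sub_self, map_zero]⟩
  have h2 : ∀ n : ℕ, (τ ^ n) x = x + n := fun n => by rw [LatE_it h1 (map_one τ), mul_one]
  obtain ⟨u, hu⟩ : ∃ u, u = -x ^ (p - 1) * y := ⟨_, rfl⟩
  have h3 : ∀ σ ∈ H, σ x = x → σ u = u := fun σ hσ e => by
    rw [hu, map_mul, map_neg, map_pow, e, hy σ hσ e]
  have h4 : ∀ σ ∈ H, σ x = x → σ (∑ i ∈ Finset.range p, (τ ^ i) u) =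
      ∑ i ∈ Finset.range p, (τ ^ i) u := fun σ hσ e => by
    rw [map_sum]
    exact Finset.sum_congr rfl fun i _ => LatE_key h3 (mul_mem hσ (pow_mem hτ i)) (pow_mem hτ i)
      (by rw [AlgEquiv.mul_apply, h2, map_add, e, map_natCast])
  have h5 : τ (∑ i ∈ Finset.range p, (τ ^ i) u) = ∑ i ∈ Finset.range p, (τ ^ i) u + 0 := by
    have e := (Finset.sum_range_succ' (fun i => (τ ^ i) u) p).symm.trans
      (Finset.sum_range_succ (fun i => (τ ^ i) u) p)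
    rw [h3 (τ ^ p) (pow_mem hτ p) (by rw [h2, CharP.cast_eq_zero, add_zero]), pow_zero,
      AlgEquiv.one_apply, add_left_inj] at e
    rw [map_sum, add_zero, ← e]
    exact Finset.sum_congr rfl fun i _ => by rw [pow_succ', AlgEquiv.mul_apply]
  refine ⟨∑ i ∈ Finset.range p, (τ ^ i) u, sum_mem fun i _ => om_act _
    (hu ▸ mul_mem (neg_mem (pow_mem hxo _)) hyo), fun σ hσ => ?_, ?_⟩
  · obtain ⟨m, hm⟩ := hx σ
    rw [LatE_key h4 hσ (pow_mem hτ m) (hm.trans (h2 m).symm), LatE_it h5 (map_zero τ), mul_zero,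
      add_zero]
  have e : y - ∑ i ∈ Finset.range p, (τ ^ i) u =
      ∑ i ∈ Finset.range p, -(τ ^ i) x ^ (p - 1) * (y - (τ ^ i) y) := by
    simp only [mul_sub, Finset.sum_sub_distrib, hu, map_mul, map_neg, map_pow, h2]
    rw [← Finset.sum_mul, Finset.sum_neg_distrib, LatE_tr, neg_neg, one_mul]
  rw [e]
  refine Finset.sum_induction _ (fun a => w a ≤ C) (fun _ _ => LocA_add_le hw) (by rwa [map_zero])
    fun i _ => ?_
  rw [map_mul, w.map_neg, map_pow, hi]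
  exact (mul_le_of_le_one_left (w.nonneg _) (pow_le_one₀ (w.nonneg _) hx1)).trans
    (h _ (pow_mem hτ i))

theorem LatE_l [CharP M p] {A : K} {l : M} (hl : l ^ (p - 1) = algebraMap K M A) (h0 : l ≠ 0)
    (τ : M ≃ₐ[K] M) : ∃ m : ℕ, τ l = m * l := by
  refine wp_ker hl h0 ?_
  rw [Wp_pow, ← map_pow, hl, AlgEquiv.commutes, ← hl, mul_div_cancel_right₀ _ (pow_ne_zero _ h0),
    sub_self]

theorem LatE_z [CharP M p] {A : K} {l z : M} (hl : l ^ (p - 1) = algebraMap K M A) (h0 : l ≠ 0)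
    {τ : M ≃ₐ[K] M} (h : τ (z ^ p / algebraMap K M A - z) = z ^ p / algebraMap K M A - z) :
    ∃ m : ℕ, τ z - z = m * l := by
  refine wp_ker hl h0 ?_
  rw [map_sub, map_div₀, map_pow, AlgEquiv.commutes] at h
  rw [Wp_sub, h, sub_self]

theorem LatE_root [IsAlgClosed M] {A : M} (hA : A ≠ 0) (a : M) : ∃ z, z ^ p / A - z = a := by
  have h1 : (X ^ p - (C A * X + C (A * a)) : M[X]).degree = p := by
    rw [degree_sub_eq_left_of_degree_lt, degree_X_pow]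
    rw [degree_X_pow]
    exact degree_linear_lt.trans_le (by exact_mod_cast hp.out.two_le)
  obtain ⟨z, hz⟩ := IsAlgClosed.exists_root _ (h1.trans_ne (by exact_mod_cast hp.out.ne_zero))
  refine ⟨z, ?_⟩
  simp only [IsRoot.def, eval_sub, eval_add, eval_mul, eval_pow, eval_X, eval_C] at hz
  field_simp
  linear_combination hz

theorem LatE_core [CharP M p] (hw : IsNonarchimedean w) (I : Subgroup (M ≃ₐ[K] M))
    (hI : ∀ τ ∈ I, ∀ x, w x ≤ 1 → w (τ x - x) < 1) {A : K} {l x y z : M}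
    (hA : w (algebraMap K M A) = 1) (hl : l ^ (p - 1) = algebraMap K M A)
    (hx : ∀ τ : M ≃ₐ[K] M, ∃ m : ℕ, τ x = x + m) (hy : ∀ τ ∈ I, τ x = x → τ y = y)
    (hz : ∀ τ ∈ I, τ (z ^ p / algebraMap K M A - z) = z ^ p / algebraMap K M A - z)
    (h : w (z ^ p / algebraMap K M A - z - (y ^ p / algebraMap K M A - y)) ≤ 1) :
    (∀ τ ∈ I, τ l = l) ∧ ∃ μ : ℕ, ∀ τ ∈ I, τ z - z = μ * (τ x - x) * l := by
  have l1 : w l = 1 := by
    rw [← hl, map_pow] at hA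
    exact (pow_eq_one_iff_of_nonneg (w.nonneg l) (Nat.sub_ne_zero_of_lt hp.out.one_lt)).1 hA
  have l0 : l ≠ 0 := fun e => by simp [e] at l1
  have h1 : ∀ τ ∈ I, τ l = l := fun τ hτ => by
    obtain ⟨m, hm⟩ := LatE_l hl l0 τ
    have e : τ l - l = (m + (p - 1) : ℕ) * l := by
      rw [hm, Nat.cast_add, Nat.cast_sub hp.out.one_le, CharP.cast_eq_zero M p]
      push_cast
      ring
    exact sub_eq_zero.1 (e.trans (fp_small (p := p) hw l1 (e ▸ hI τ hτ l l1.le)))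
  have h2 : ∀ τ ∈ I, τ x = x → τ z = z := fun τ hτ e => by
    obtain ⟨m, hm⟩ := LatE_z hl l0 (hz τ hτ)
    have h3 := hI τ hτ _ (wp_int hw hA (Wp_sub (p := p) _ z y ▸ h))
    rw [map_sub τ, hy τ hτ e, sub_sub_sub_cancel_right, hm] at h3
    exact sub_eq_zero.1 (hm.trans (fp_small (p := p) hw l1 h3))
  refine ⟨h1, ?_⟩
  rcases LatE_one p I hx with h3 | ⟨σ, hσ, h3⟩
  · exact ⟨0, fun τ hτ => by rw [h2 τ hτ (h3 τ hτ), sub_self, Nat.cast_zero, zero_mul, zero_mul]⟩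
  obtain ⟨μ, hμ⟩ := LatE_z hl l0 (hz σ hσ)
  refine ⟨μ, fun τ hτ => ?_⟩
  obtain ⟨n, hn⟩ := hx τ
  rw [LatE_key h2 hτ (pow_mem hσ n) (by rw [hn, LatE_it h3 (map_one σ), mul_one]),
    LatE_it (sub_eq_iff_eq_add'.1 hμ) (by rw [map_mul, map_natCast, h1 σ hσ]), hn]
  ring

theorem LatE_G (W : ι → M) : ∃ H : Subgroup (M ≃ₐ[K] M), ∀ τ, τ ∈ H ↔ ∀ l, τ (W l) = W l :=
  ⟨⨅ l, MulAction.stabilizer _ (W l), fun _ => Subgroup.mem_iInf⟩

end abs

omit [Fintype k] hp [CharP k p] in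
theorem LatE_alg (v : Pl k) (c : RatFunc k) :
    algebraMap (RatFunc k) (Lb v) c = algebraMap (Lv v) (Lb v) (algebraMap _ _ c) :=
  IsScalarTower.algebraMap_apply _ _ _ c

omit [Fintype k] hp [CharP k p] in
theorem LatE_pk (v : Pl k) (A : k[X]) : pk (Lb v) A = algebraMap (Lv v) (Lb v) (pk _ A) :=
  LatE_alg v _

omit [Fintype k] hp [CharP k p] in
theorem LatE_w0 (Φ : ASF p k ι) {v : Pl k} (j : Kb k →ₐ[RatFunc k] Lb v) :
    j Φ.w0 ^ p - j Φ.w0 = algebraMap (Lv v) (Lb v) (algebraMap _ _ Φ.d) := by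
  rw [← map_pow, ← map_sub, Φ.hw0, AlgHom.commutes, LatE_alg]

omit [Fintype k] hp [CharP k p] in
theorem LatE_w (Φ : ASF p k ι) {v : Pl k} (j : Kb k →ₐ[RatFunc k] Lb v) (l : ι) :
    j (Φ.w l) ^ p - j (Φ.w l) = algebraMap (Lv v) (Lb v) (algebraMap _ _ (Φ.h l)) := by
  rw [← map_pow, ← map_sub, Φ.hw, AlgHom.commutes, LatE_alg]

omit [Fintype k] hp [CharP k p] in
theorem LatE_om {a : Kb k} (ha : a ∈ Om (RatFunc k) (Kb k)) (v : Pl k)
    (j : Kb k →ₐ[RatFunc k] Lb v) : j a ∈ Om (Lv v) (Lb v) :=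
  om_map (algebraMap (RatFunc k) (Lv v)) (j : Kb k →+* Lb v)
    (fun c => (j.commutes c).trans (LatE_alg v c)) ha

omit [Fintype k] hp [CharP k p] in
theorem LatE_unit {v : Pl k} (hv : v ≠ none) (hA : ¬ plp v ∣ A) : ‖pk (Lv v) A‖ = 1 :=
  (norm_alg v _).trans
    (le_antisymm (av_poly_le hv A) (not_lt.1 fun h => hA ((av_poly_lt hv A).1 h)))

omit [Fintype k] in
theorem LatE_split (hS : Stg A F b Φ) {v : Pl k} (hv : InS p A F b v)
    (j : Kb k →ₐ[RatFunc k] Lb v) (τ : Lb v ≃ₐ[Lv v] Lb v) (l : ι) :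
    τ (j (Φ.w l)) = j (Φ.w l) := by
  obtain ⟨s, -, hs⟩ := hS.split l v hv
  obtain ⟨m, hm⟩ := Wp_fix (p := p) (x := j (Φ.w l) - algebraMap (Lv v) (Lb v) s) (by
    have h1 := LatE_w Φ j l
    rw [← hs, map_sub, map_pow] at h1
    rw [sub_pow_char]
    linear_combination h1)
  rw [sub_eq_iff_eq_add.1 hm, map_add, map_natCast, AlgEquiv.commutes]

theorem k2_loc {a : Kb k} (ha : Φ.K2 a) (v : Pl k) (j : Kb k →ₐ[RatFunc k] Lb v) :
    Φ.L2 v j (j a) := by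
  obtain ⟨ρ, hρ⟩ := exists_rst v j
  refine ⟨LatE_om ha.1 v j, fun τ hτ => ?_⟩
  rw [← hρ, ha.2 (ρ τ) fun l => j.injective ((hρ τ _).trans (hτ l))]

theorem k1_loc {a : Kb k} (ha : Φ.K1 a) (v : Pl k) (j : Kb k →ₐ[RatFunc k] Lb v) :
    Φ.L1 v j (j a) := by
  obtain ⟨ρ, hρ⟩ := exists_rst v j
  refine ⟨LatE_om ha.1 v j, fun τ h0 hτ => ?_⟩
  rw [← hρ, ha.2 (ρ τ) (j.injective ((hρ τ _).trans h0))
    fun l => j.injective ((hρ τ _).trans (hτ l))]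

theorem l2_split (hS : Stg A F b Φ) {v : Pl k} (hv : InS p A F b v)
    {j : Kb k →ₐ[RatFunc k] Lb v} {y : Lb v} (hy : Φ.L2 v j y) :
    ∃ y0 : Lv v, algebraMap _ _ y0 = y :=
  om_fix hy.1 fun τ => hy.2 τ (LatE_split hS hv j τ)

theorem desc_unr (hA : A ≠ 0) {v : Pl k} (hd : av v Φ.d ≤ 1) {j : Kb k →ₐ[RatFunc k] Lb v}
    {a : Kb k} (ha : Φ.K2 a) {y : Lb v} (hy : Φ.L1 v j y) {C : ℝ} (hC : 1 ≤ C)
    (hAC : av v (pk _ A) ≤ C) (h : nm v (j a - (y ^ p / pk _ A - y)) ≤ C) :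
    ∃ y0, Φ.L2 v j y0 ∧ nm v (y - y0) ≤ C := by
  obtain ⟨H, hH⟩ := LatE_G (K := Lv v) fun l => j (Φ.w l)
  have h0 : j Φ.w0 ^ p / 1 - j Φ.w0 = _ := (by rw [div_one] : _ = _).trans (LatE_w0 Φ j)
  have hA0 : pk (Lb v) A ≠ 0 :=
    (_root_.map_ne_zero (algebraMap (RatFunc k) (Lb v))).2 (RatFunc.algebraMap_ne_zero hA)
  obtain ⟨y0, h1, h2, h3⟩ := LatE_avg p (nm_na v) (nm_iso v) H (LatE_mv (LatE_w0 Φ j))
    (wp_int (p := p) (nm_na v) (map_one _) (by rw [h0, nm_alg, norm_alg]; exact hd))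
    (om_wp (one_mem _) one_ne_zero (om_alg _) h0) hy.1
    (fun τ hτ e => hy.2 τ e ((hH τ).1 hτ)) (zero_le_one.trans hC) fun τ hτ => by
      refine wp_le (p := p) (nm_na v) hA0 hC ((nm_algK v _).trans_le hAC) ?_
      have e : (y - τ y) ^ p / pk _ A - (y - τ y) =
          τ (j a - (y ^ p / pk _ A - y)) + -(j a - (y ^ p / pk _ A - y)) := by
        rw [Wp_sub, map_sub, map_sub, map_div₀, map_pow, (k2_loc ha v j).2 τ ((hH τ).1 hτ), LatE_pk,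
          AlgEquiv.commutes]
        ring
      rw [e]
      exact LocA_add_le (nm_na v) ((nm_iso v τ _).trans_le h) (((nm v).map_neg _).trans_le h)
  exact ⟨y0, ⟨h1, fun τ hτ => h2 τ ((hH τ).2 hτ)⟩, h3⟩

theorem desc_anom (hS : Stg A F b Φ) (hAF : A ∣ F) {v : Pl k} (hv : v ≠ none) (hb : plp v ∣ b)
    (han : Anom p A (plp v)) {j : Kb k →ₐ[RatFunc k] Lb v} {a : Kb k} (ha : Φ.K2 a) {y : Lb v}
    (hy : Φ.L1 v j y) (h : nm v (j a - (y ^ p / pk _ A - y)) ≤ 1) :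
    ∃ y t : Lv v, t ^ p / pk _ A - t = 0 ∧
      nm v (j a - algebraMap _ _ (y ^ p / pk _ A - y + t * algebraMap _ _ Φ.d)) ≤ 1 := by
  have hin : InS p A F b v := Or.inr ⟨hb, han⟩
  have hA : ¬ plp v ∣ A := fun e => by
    obtain ⟨P, rfl⟩ := Option.ne_none_iff_exists'.1 hv
    exact P.2.2.not_isUnit (hS.cop.isUnit_of_dvd' hb (e.trans hAF))
  have h1 := LatE_unit hv hA
  have h0 : pk (Lv v) A ≠ 0 := fun e => by simp [e] at h1
  obtain ⟨t, ht⟩ := (anom_iff hv hA).1 han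
  obtain ⟨a0, ha0⟩ := l2_split hS hin (k2_loc ha v j)
  obtain ⟨z, hz⟩ := LatE_root (p := p) ((_root_.map_ne_zero (algebraMap (Lv v) (Lb v))).2 h0) (j a)
  obtain ⟨-, μ, hμ⟩ := LatE_core (p := p) (nm_na v) (I0 p v) (fun τ hτ x => i0_small hτ)
    (l := algebraMap _ _ t) (z := z) ((nm_alg v _).trans h1) (by rw [← map_pow, ht])
    (LatE_mv (LatE_w0 Φ j)) (fun τ _ e => hy.2 τ e (LatE_split hS hin j τ))
    (fun τ _ => by rw [hz, ← ha0, AlgEquiv.commutes]) (by rwa [hz, ← LatE_pk])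
  have h2 : (μ * t) ^ p / pk (Lv v) A = μ * t := by
    rw [mul_pow, LatE_nat, Wp_pow t, ht, ← mul_assoc, mul_div_cancel_right₀ _ h0]
  obtain ⟨y0, hy0⟩ := wp_unr (a := a0 - (μ : Lv v) * t * algebraMap _ _ Φ.d) h1
    (z := z - algebraMap _ _ ((μ : Lv v) * t) * j Φ.w0) (fun τ hτ => by
      rw [map_sub, map_mul, AlgEquiv.commutes, map_mul, map_natCast]
      linear_combination hμ τ hτ) (by
      rw [Wp_sub, hz, mul_pow, mul_div_right_comm, ← map_pow, ← map_div₀, h2, ← mul_sub,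
        LatE_w0 Φ j, map_sub, ha0, map_mul _ ((μ : Lv v) * t)])
  refine ⟨y0, μ * t, sub_eq_zero.2 h2, ?_⟩
  rw [← ha0, ← map_sub, nm_alg]
  exact (congrArg _ (by ring)).trans_le hy0

theorem desc_na {v : Pl k} (hv : v ≠ none) (hA : ¬ plp v ∣ A) (han : ¬ Anom p A (plp v))
    {j : Kb k →ₐ[RatFunc k] Lb v} {a : Kb k} (ha : Φ.K2 a) {y : Lb v} (hy : Φ.L1 v j y)
    (h : nm v (j a - (y ^ p / pk _ A - y)) ≤ 1) : ∃ y, Φ.L2 v j y ∧ j a = y ^ p / pk _ A - y := by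
  obtain ⟨H, hH⟩ := LatE_G (K := Lv v) fun l => j (Φ.w l)
  have h1 := LatE_unit hv hA
  have h0 : algebraMap (Lv v) (Lb v) (pk _ A) ≠ 0 := (_root_.map_ne_zero _).2 fun e => by simp [e] at h1
  obtain ⟨l, hl⟩ := IsAlgClosed.exists_pow_nat_eq (algebraMap (Lv v) (Lb v) (pk _ A))
    (Nat.sub_pos_of_lt hp.out.one_lt)
  have l0 : l ≠ 0 := fun e => h0 (by rw [← hl, e, zero_pow (Nat.sub_ne_zero_of_lt hp.out.one_lt)])
  have l1 : ∀ m : ℕ, (m * l) ^ p / algebraMap (Lv v) (Lb v) (pk _ A) - m * l = 0 := fun m => by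
    rw [mul_pow, LatE_nat, Wp_pow l, hl, ← mul_assoc, mul_div_cancel_right₀ _ h0, sub_self]
  obtain ⟨z, hz⟩ := LatE_root (p := p) h0 (j a)
  have hz' : ∀ τ ∈ H, τ (z ^ p / algebraMap (Lv v) (Lb v) (pk _ A) - z) =
      z ^ p / algebraMap (Lv v) (Lb v) (pk _ A) - z := fun τ hτ => by
    rw [hz, (k2_loc ha v j).2 τ ((hH τ).1 hτ)]
  obtain ⟨h2, μ, hμ⟩ := LatE_core (p := p) (nm_na v) (I0 p v ⊓ H) (fun τ hτ x => i0_small hτ.1)
    (z := z) ((nm_alg v _).trans h1) hl (LatE_mv (LatE_w0 Φ j))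
    (fun τ hτ e => hy.2 τ e ((hH τ).1 hτ.2)) (fun τ hτ => hz' τ hτ.2) (by rwa [hz, ← LatE_pk])
  obtain ⟨γ, hγ, hγl⟩ : ∃ γ ∈ H, γ l ≠ l := by
    obtain ⟨γ, hγ⟩ : ∃ γ : Lb v ≃ₐ[Lv v] Lb v, γ l ≠ l := not_forall.1 fun e => by
      obtain ⟨t, ht⟩ := om_fix (om_wp (om_alg _) h0 (zero_mem _) (by simpa using l1 1)) e
      exact han ((anom_iff hv hA).2 ⟨t, (algebraMap (Lv v) (Lb v)).injective
        (by rw [map_pow, ht, hl])⟩)
    obtain ⟨m, hm⟩ := LatE_l hl l0 γ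
    have h3 : ∀ n : ℕ, (γ ^ n) l = m ^ n * l := fun n => by
      induction n with
      | zero => simp
      | succ n ih => rw [pow_succ', AlgEquiv.mul_apply, ih, map_mul, map_pow, map_natCast, hm,
          pow_succ, mul_assoc]
    refine ⟨γ ^ p, (hH _).2 fun i => ?_, by rwa [h3, LatE_nat, ← hm]⟩
    obtain ⟨n, hn⟩ := LatE_mv (LatE_w Φ j i) γ
    rw [LatE_it hn (map_natCast γ n), CharP.cast_eq_zero, zero_mul, add_zero]
  have h4 : ∀ τ ∈ I0 p v ⊓ H, τ z = z := fun τ hτ => by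
    have h5 : γ * τ * γ⁻¹ ∈ I0 p v ⊓ H :=
      ⟨(i0_normal v).conj_mem τ hτ.1 γ, H.mul_mem (H.mul_mem hγ hτ.2) (H.inv_mem hγ)⟩
    have h6 : ∀ x, (γ * τ * γ⁻¹) (γ x) = γ (τ x) := fun x => by
      rw [← AlgEquiv.mul_apply, inv_mul_cancel_right, AlgEquiv.mul_apply]
    have h7 := hμ _ h5
    have h8 := h2 _ h5
    generalize γ * τ * γ⁻¹ = σ at h6 h7 h8
    obtain ⟨c, hc⟩ := LatE_mv (LatE_w0 Φ j) γ
    obtain ⟨n, hn⟩ := LatE_mv (LatE_w0 Φ j) τ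
    obtain ⟨m, hm⟩ := LatE_z hl l0 (hz' γ hγ)
    have h9 := hμ τ hτ
    rw [hn, add_sub_cancel_left] at h9
    have e1 := h6 (j Φ.w0)
    rw [hn, map_add, hc, map_add, map_natCast, map_natCast] at e1
    have e2 := h6 z
    rw [sub_eq_iff_eq_add'.1 h9, map_add, sub_eq_iff_eq_add'.1 hm, map_add, map_mul, map_mul,
      map_mul, map_natCast, map_natCast, map_natCast, h8] at e2
    have e3 : (μ : Lb v) * n = 0 := mul_right_cancel₀ (sub_ne_zero.2 hγl)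
      (by linear_combination h7 - e2 + μ * l * e1)
    rw [sub_eq_iff_eq_add'.1 h9, e3, zero_mul, add_zero]
  obtain ⟨m, hm⟩ := sah p H (fun σ _ => LatE_l hl l0 σ) (fun σ hσ => LatE_z hl l0 (hz' σ hσ))
    (fun σ hσ τ hτ => by
      have h5 := h4 _ ⟨i0_comm σ τ, H.mul_mem (H.inv_mem (H.mul_mem hσ hτ)) (H.mul_mem hτ hσ)⟩
      rw [AlgEquiv.mul_apply, AlgEquiv.aut_inv, AlgEquiv.symm_apply_eq] at h5
      exact h5.symm) ⟨γ, hγ, hγl⟩
  have e : (z - m * l) ^ p / algebraMap (Lv v) (Lb v) (pk _ A) - (z - m * l) = j a := by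
    rw [Wp_sub, hz, l1, sub_zero]
  exact ⟨z - m * l, ⟨om_wp (om_alg _) h0 (k2_loc ha v j).1 e, fun τ hτ => hm τ ((hH τ).2 hτ)⟩,
    by rw [LatE_pk, e]⟩

end Pool.Agent.ASel
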