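import Pool.Agent.Work.MP_60d5ce_nt.AS.SelL
import Pool.Agent.Work.MP_60d5ce_nt.AS.LatE
import Pool.Agent.Work.MP_60d5ce_nt.AS.FinK
import Pool.Agent.Work.MP_60d5ce_nt.AS.Kon

/-!
# The `p`-torsion of the Selmer group over `K(δ)` is finite

PLAN.  `H` is the stabiliser of `w0`; `KH H = K1`, `LH H v j = L1 v j` (`exists_rst`), `K2` is `k(t)` (`om_fix`).
`k1_noT`: `y = m l` with `l ^ (p-1) = A` (`wp_ker`); if `y ≠ 0`, `σ y = m' y` and `σ ^ p` fixes `y`, so `σ y = y`,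
against `nsq`.  `sel_fix`: `κ s = (a, w)`; by `Kap.act`, `kap_sub`, `kap_uniq`, `(π a, π w)` is the coboundary of some
`y ∈ K1`; `π ^ (p-1) y = 0` (`k1_noT`), `y = π y'` (`k1_h90`), use `kap_cob` with `-y'`.  `sel_fin0`: `fin_K` with
`S` = `∞` and the primes of `F b`.  On `S0`: `kap_et0`, `desc_unr`, `l2_split`; at primes of `b`: `kap_et1`,
`desc_anom` (`‖t‖ ≤ 1`, `|d| ≤ 2`) or `desc_na`; elsewhere `kap_good` (`I0` fixes `j w0`: `wp_int` with `A = 1`,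
`i0_small`, `fp_small`) and `desc_unr` with `C = 1`, `vp_int`.  The map to `Y` is injective by `kap_sub`,
`kap_ker`.  `sel_fin`: `fin_of_nil`, `pi_nil` (`σ0 ^ p ∈ H`, `acA_triv`).
-/

namespace Pool.Agent.ASel

open Polynomial Pool.Agent.Smith Pool.Agent.ShaAsc
open scoped Classical

variable {k : Type} [Field k] {p : ℕ} [Fintype k] [hp : Fact p.Prime] [CharP k p] {a4 a6 b : k[X]}

theorem Hy.k1_noT (h : Hy p a4 a6) {ι : Type} {Φ : ASF p k ι} {y : Kb k} (hy : Φ.K1 y)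
    (h0 : y ^ p / pk _ (hasseInv p a4 a6) - y = 0) : y = 0 := by
  by_contra y0
  have hA : pk (Kb k) (hasseInv p a4 a6) ≠ 0 :=
    (_root_.map_ne_zero (algebraMap (RatFunc k) (Kb k))).2 (RatFunc.algebraMap_ne_zero h.A_ne)
  have hl : y ^ (p - 1) = algebraMap (RatFunc k) (Kb k) (pk _ (hasseInv p a4 a6)) := by
    rw [sub_eq_zero, div_eq_iff hA, Wp_pow y] at h0
    exact mul_left_cancel₀ y0 h0
  obtain ⟨a, ha⟩ := om_fix hy.1 fun σ => by
    obtain ⟨m, hm⟩ := LatE_l hl y0 σ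
    have h3 : ∀ n : ℕ, (σ ^ n) y = m ^ n * y := fun n => by
      induction n with
      | zero => simp
      | succ n ih => rw [pow_succ', AlgEquiv.mul_apply, ih, map_mul, map_pow, map_natCast, hm,
          pow_succ, mul_assoc]
    have h4 : ∀ x : Kb k, (∃ n : ℕ, σ x = x + n) → (σ ^ p) x = x := fun x ⟨n, hn⟩ => by
      rw [LatE_it hn (map_natCast σ n), CharP.cast_eq_zero, zero_mul, add_zero]
    have h5 := hy.2 (σ ^ p) (h4 _ (Φ.move0 σ)) fun l => h4 _ (Φ.move σ l)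
    rwa [h3, LatE_nat, ← hm] at h5
  exact h.nsq a ((algebraMap (RatFunc k) (Kb k)).injective (by rw [map_pow, ha, hl]))

theorem SelF_neg {M : Type} [Field M] [CharP M p] (y : M) : (-y) ^ p = -y ^ p := by
  rw [← zero_sub, sub_pow_char, zero_pow hp.out.ne_zero, zero_sub]

theorem SelF_cob (h : Hy p a4 a6) {H : Subgroup (Gk k)} {n : ℕ} {s : Amb a4 a6 p H n} {a w y : Kb k}
    (hs : Kap a4 a6 p H n s a w) (hy : KH H y) :
    Kap a4 a6 p H n s (a - (y ^ p / pk _ (hasseInv p a4 a6) - y))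
      (w + y ^ p / pk _ (hasseInv p a4 a6) * algebraMap _ _ (vpk a4 a6 p n)) := by
  have e := h.kap_cob (y := -y) hs ⟨neg_mem hy.1, fun σ hσ => by rw [map_neg, hy.2 σ hσ]⟩
  rwa [SelF_neg, neg_div, neg_mul, ← neg_sub', ← sub_eq_add_neg, sub_neg_eq_add] at e

omit [Fintype k] hp [CharP k p] in
theorem SelF_KH {Φ : ASF p k Empty} {x : Kb k} :
    KH (MulAction.stabilizer (Gk k) Φ.w0) x ↔ Φ.K1 x :=
  and_congr_right fun _ => ⟨fun h σ e _ => h σ e, fun h σ e => h σ e fun l => l.elim⟩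

omit [Fintype k] hp [CharP k p] in
theorem SelF_LH {Φ : ASF p k Empty} {v : Pl k} {j : Kb k →ₐ[RatFunc k] Lb v} {y : Lb v}
    (h : LH (MulAction.stabilizer (Gk k) Φ.w0) v j y) : Φ.L1 v j y := by
  obtain ⟨ρ, hρ⟩ := exists_rst v j
  exact ⟨h.1, fun τ e _ => h.2 τ (ρ τ) (j.injective ((hρ τ _).trans e)) (hρ τ)⟩

omit [Fintype k] hp [CharP k p] in
theorem SelF_K2 {Φ : ASF p k Empty} (a : RatFunc k) : Φ.K2 (algebraMap _ _ a) :=
  ⟨om_alg a, fun σ _ => σ.commutes a⟩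

omit [Fintype k] hp [CharP k p] in
theorem SelF_L2 {Φ : ASF p k Empty} {v : Pl k} {j : Kb k →ₐ[RatFunc k] Lb v} {y : Lb v}
    (h : Φ.L2 v j y) : ∃ y0 : Lv v, algebraMap _ _ y0 = y :=
  om_fix h.1 fun τ => h.2 τ fun l => l.elim

theorem SelF_opn (h : Hy p a4 a6) (Φ : ASF p k Empty) :
    Opn a4 a6 p (MulAction.stabilizer (Gk k) Φ.w0) :=
  h.opn {Φ.w0} (fun y hy => ⟨Φ.d, by rw [Finset.mem_singleton.1 hy, Φ.hw0]⟩)
    fun σ hσ => hσ _ (Finset.mem_singleton_self _)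

omit [Fintype k] in
theorem SelF_nm {v : Pl k} (j : Kb k →ₐ[RatFunc k] Lb v) (A : k[X]) (a : RatFunc k) (y : Lv v) :
    ‖algebraMap _ _ a - (y ^ p / pk _ A - y)‖ = nm v (j (algebraMap _ _ a) -
      (algebraMap _ (Lb v) y ^ p / pk _ A - algebraMap _ (Lb v) y)) := by
  rw [j.commutes, LatE_alg, LatE_pk, ← map_pow, ← map_div₀, ← map_sub, ← map_sub, nm_alg]

omit [Fintype k] in
theorem SelF_step {v : Pl k} {A x y y0 : Lb v} {C : ℝ} (hC : 1 ≤ C)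
    (h : nm v (x - (y ^ p / A - y)) ≤ C) (h0 : nm v (y - y0) ≤ C) :
    nm v (x - (y0 ^ p / A - y0)) ≤ C + C ^ p / nm v A := by
  have h1 : 0 ≤ C ^ p / nm v A := div_nonneg (by positivity) ((nm v).nonneg _)
  rw [show x - (y0 ^ p / A - y0) = x - (y ^ p / A - y) + ((y - y0) ^ p / A + -(y - y0)) by
    rw [sub_pow_char]; ring]
  refine LocA_add_le (nm_na v) (by linarith) (LocA_add_le (nm_na v) ?_ ?_)
  · rw [map_div₀, map_pow]
    have := div_le_div_of_nonneg_right (pow_le_pow_left₀ ((nm v).nonneg _) h0 p) ((nm v).nonneg A)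
    linarith
  · rw [(nm v).map_neg]
    linarith

theorem SelF_bad (h : Hy p a4 a6) {Φ : ASF p k Empty}
    (hS : Stg (hasseInv p a4 a6) (hasseInv p a4 a6 * Dc a4 a6) b Φ) {v : Pl k}
    (hv : v = none ∨ plp v ∣ hasseInv p a4 a6 * Dc a4 a6 * b) : ∃ c : ℝ,
    ∀ (s : Amb a4 a6 p (MulAction.stabilizer (Gk k) Φ.w0) 0) (a w : RatFunc k),
      Kap a4 a6 p _ 0 s (algebraMap _ _ a) (algebraMap _ _ w) →
      ∃ y : Lv v, ‖algebraMap _ _ a - (y ^ p / pk _ (hasseInv p a4 a6) - y)‖ ≤ c := by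
  obtain ⟨j⟩ := exists_emb v
  by_cases h0 : InS0 (hasseInv p a4 a6 * Dc a4 a6) v
  · obtain ⟨B, hB⟩ := h.kap_et0 0
    obtain ⟨C, hC⟩ : ∃ C : ℝ, C = max (2 ^ B) (av v (pk _ (hasseInv p a4 a6))) := ⟨_, rfl⟩
    have c1 : 2 ^ B ≤ C := hC ▸ le_max_left _ _
    have c2 : 1 ≤ C := (one_le_pow₀ one_le_two).trans c1
    refine ⟨C + C ^ p / nm v (pk _ (hasseInv p a4 a6)), fun s a w hs => ?_⟩
    obtain ⟨y, h1, h2⟩ := hB _ s _ _ hs v h0 j
    have hd : av v Φ.d ≤ 1 := by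
      refine hS.d_int v (or_iff_not_imp_left.2 fun e e' => ?_)
      exact (PF_irr e).not_isUnit (hS.cop.isUnit_of_dvd' e' (h0.resolve_left e))
    obtain ⟨y0, h3, h4⟩ := desc_unr h.A_ne hd (SelF_K2 a) (SelF_LH h1) c2
      (hC ▸ le_max_right _ _) (h2.trans c1)
    obtain ⟨y1, rfl⟩ := SelF_L2 h3
    exact ⟨y1, (SelF_nm j _ a y1).trans_le (SelF_step c2 (h2.trans c1) h4)⟩
  have v0 : v ≠ none := fun e => h0 (Or.inl e)
  have hF : ¬ plp v ∣ hasseInv p a4 a6 * Dc a4 a6 := fun e => h0 (Or.inr e)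
  have hA : ¬ plp v ∣ hasseInv p a4 a6 := fun e => hF (e.mul_right _)
  have hb : plp v ∣ b := ((PF_irr v0).prime.dvd_or_dvd (hv.resolve_left v0)).resolve_left hF
  refine ⟨2, fun s a w hs => ?_⟩
  obtain ⟨y, h1, h2⟩ := h.kap_et1 hs h0 j
  by_cases han : Anom p (hasseInv p a4 a6) (plp v)
  · obtain ⟨y0, t, h3, h4⟩ := desc_anom hS (dvd_mul_right _ _) v0 hb han (SelF_K2 a) (SelF_LH h1) h2
    rw [j.commutes, LatE_alg, ← map_sub, nm_alg] at h4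
    have t1 : ‖t‖ ≤ 1 := wp_int (p := p) (Wp_na v) (LatE_unit v0 hA) (y := t) (by
      rw [h3, map_zero]
      exact zero_le_one)
    refine ⟨y0, ?_⟩
    rw [show algebraMap _ _ a - (y0 ^ p / pk _ (hasseInv p a4 a6) - y0) = algebraMap _ _ a -
      (y0 ^ p / pk _ (hasseInv p a4 a6) - y0 + t * algebraMap _ _ Φ.d) + t * algebraMap _ _ Φ.d by ring]
    refine PF_add (h4.trans one_le_two) ?_
    rw [norm_mul, norm_alg]
    exact (mul_le_of_le_one_left ((av v).nonneg _) t1).trans (hS.d_le v)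
  · obtain ⟨y0, h3, h4⟩ := desc_na v0 hA han (SelF_K2 a) (SelF_LH h1) h2
    obtain ⟨y1, rfl⟩ := SelF_L2 h3
    refine ⟨y1, (SelF_nm j _ a y1).trans_le ?_⟩
    rw [h4, sub_self, map_zero]
    exact zero_le_two

theorem SelF_good (h : Hy p a4 a6) {Φ : ASF p k Empty}
    (hS : Stg (hasseInv p a4 a6) (hasseInv p a4 a6 * Dc a4 a6) b Φ) {v : Pl k} (v0 : v ≠ none)
    (hv : ¬ plp v ∣ hasseInv p a4 a6 * Dc a4 a6 * b)
    {s : Amb a4 a6 p (MulAction.stabilizer (Gk k) Φ.w0) 0} {a w : RatFunc k}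
    (hs : Kap a4 a6 p _ 0 s (algebraMap _ _ a) (algebraMap _ _ w)) :
    ∃ y : Lv v, ‖algebraMap _ _ a - (y ^ p / pk _ (hasseInv p a4 a6) - y)‖ ≤ 1 ∧
      ‖algebraMap _ _ w + y ^ p / pk _ (hasseInv p a4 a6) *
        algebraMap (RatFunc k) _ (vpk a4 a6 p 0)‖ ≤ 1 := by
  obtain ⟨j⟩ := exists_emb v
  obtain ⟨ρ, hρ⟩ := exists_rst v j
  have h0 : ¬ InS0 (hasseInv p a4 a6 * Dc a4 a6) v := fun e =>
    hv ((e.resolve_left v0).mul_right _)
  have hA : ¬ plp v ∣ hasseInv p a4 a6 := fun e => hv ((e.mul_right _).mul_right _)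
  have hd : av v Φ.d ≤ 1 := hS.d_int v (Or.inr fun e => hv (e.mul_left _))
  have A1 : nm v (pk _ (hasseInv p a4 a6)) = 1 := by rw [LatE_pk, nm_alg, LatE_unit v0 hA]
  have w1 : nm v (j Φ.w0) ≤ 1 := wp_int (p := p) (nm_na v) (map_one _) (by
    rw [div_one, LatE_w0, nm_alg, norm_alg]
    exact hd)
  obtain ⟨y, h1, h2, h3⟩ := h.kap_good hs h0 j fun τ hτ => ⟨ρ τ, j.injective ((hρ τ _).trans (by
    obtain ⟨m, hm⟩ := LatE_mv (LatE_w0 Φ j) τ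
    have e := i0_small hτ w1
    rw [hm, add_sub_cancel_left, ← mul_one (m : Lb v)] at e
    have e' := fp_small (p := p) (nm_na v) (map_one _) e
    rw [mul_one] at e'
    exact hm.trans (by rw [e', add_zero]; rfl))), hρ τ⟩
  obtain ⟨y0, h4, h5⟩ := desc_unr h.A_ne hd (SelF_K2 a) (SelF_LH h1) le_rfl (av_poly_le v0 _) h2
  obtain ⟨y1, rfl⟩ := SelF_L2 h4
  have h6 : nm v ((y - algebraMap _ _ y1) ^ p / pk _ (hasseInv p a4 a6)) ≤ 1 := by
    rw [map_div₀, map_pow, A1, div_one]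
    exact pow_le_one₀ ((nm v).nonneg _) h5
  refine ⟨y1, (SelF_nm j _ a y1).trans_le ?_, ?_⟩
  · generalize algebraMap (Lv v) (Lb v) y1 = y0 at h5 h6 ⊢
    generalize j (algebraMap _ _ a) = x at h2 ⊢
    generalize pk (Lb v) (hasseInv p a4 a6) = A at h2 h6 ⊢
    rw [show x - (y0 ^ p / A - y0) = x - (y ^ p / A - y) + ((y - y0) ^ p / A + -(y - y0)) by
      rw [sub_pow_char]; ring]
    exact LocA_add_le (nm_na v) h2 (LocA_add_le (nm_na v) h6 (((nm v).map_neg _).trans_le h5))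
  · rw [← nm_alg, map_add, map_mul, map_div₀, map_pow, ← LatE_pk, ← LatE_alg, ← LatE_alg,
      ← j.commutes w]
    have h7 : nm v (algebraMap (RatFunc k) (Lb v) (vpk a4 a6 p 0)) ≤ 1 :=
      (nm_algK v _).trans_le (h.vp_int h0)
    generalize algebraMap (Lv v) (Lb v) y1 = y0 at h6 ⊢
    generalize j (algebraMap _ _ w) = x at h3 ⊢
    generalize pk (Lb v) (hasseInv p a4 a6) = A at h3 h6 ⊢
    generalize algebraMap (RatFunc k) (Lb v) (vpk a4 a6 p 0) = u at h3 h7 ⊢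
    rw [show x + y0 ^ p / A * u = x + y ^ p / A * u + -((y - y0) ^ p / A * u) by
      rw [sub_pow_char]; ring]
    refine LocA_add_le (nm_na v) h3 ?_
    rw [(nm v).map_neg, map_mul]
    exact mul_le_one₀ h6 ((nm v).nonneg _) h7

variable {Φ : ASF p k Empty} [(MulAction.stabilizer (Gk k) Φ.w0).Normal]

theorem Hy.sel_fix (h : Hy p a4 a6) {s : Amb a4 a6 p (MulAction.stabilizer (Gk k) Φ.w0) 0}
    (hs : s ∈ Sel a4 a6 p _ 0) (h0 : p • s = 0) (h1 : acA a4 a6 p _ 0 Φ.σ0 s = s) :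
    ∃ a w : RatFunc k, Kap a4 a6 p _ 0 s (algebraMap _ _ a) (algebraMap _ _ w) := by
  obtain ⟨a, w, hk⟩ := h.kap_ex (SelF_opn h Φ) hs h0
  have h2 := hk.act h Φ.σ0
  rw [h1] at h2
  have h3 := h.kap_sub h2 hk
  rw [sub_self] at h3
  obtain ⟨y, hy, e1, e2⟩ := h.kap_uniq (SelF_opn h Φ) h3
  have hy1 := SelF_KH.1 hy
  have ha := SelF_KH.1 (h.kap_mem hk).1
  rw [← Φ.pi_apply] at e1 e2
  have h4 : Φ.pi^[p - 1] y = 0 := h.k1_noT (hy1.pi _) (by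
    rw [← Φ.pi_wp, ← iterate_map_sub, ← e1, ← Function.iterate_succ_apply]
    exact ha.pi_p (by have := hp.out.pos; omega))
  obtain ⟨x, hx, rfl⟩ := ASF.k1_h90 hy1 h4
  have h5 := SelF_cob h hk (SelF_KH.2 hx)
  have e3 : Φ.pi (x ^ p / pk _ (hasseInv p a4 a6)) = Φ.pi x ^ p / pk _ (hasseInv p a4 a6) :=
    Φ.pi_wp _ x 1
  have e4 : ∀ z, Φ.pi (z * algebraMap _ _ (vpk a4 a6 p 0)) =
      Φ.pi z * algebraMap _ _ (vpk a4 a6 p 0) := fun z => Φ.pi_mul _ z 1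
  have h6 := (SelF_KH.1 (h.kap_mem h5).1).k2 (by rw [map_sub, map_sub, e1, e3, sub_self])
  have h7 := (SelF_KH.1 (h.kap_mem h5).2).k2 (by rw [map_add, e2, e4, e3, neg_add_cancel])
  obtain ⟨a', ha'⟩ := om_fix h6.1 fun σ => h6.2 σ fun l => l.elim
  obtain ⟨w', hw'⟩ := om_fix h7.1 fun σ => h7.2 σ fun l => l.elim
  exact ⟨a', w', by rwa [ha', hw']⟩

theorem Hy.sel_fin0 (h : Hy p a4 a6)
    (hS : Stg (hasseInv p a4 a6) (hasseInv p a4 a6 * Dc a4 a6) b Φ) :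
    {s | s ∈ Sel a4 a6 p (MulAction.stabilizer (Gk k) Φ.w0) 0 ∧ p • s = 0 ∧
      acA a4 a6 p _ 0 Φ.σ0 s = s}.Finite := by
  have hF : hasseInv p a4 a6 * Dc a4 a6 * b ≠ 0 :=
    mul_ne_zero (mul_ne_zero h.A_ne h.disc) hS.b_ne
  obtain ⟨S, hm⟩ : ∃ S : Finset (Pl k), ∀ v, v ∈ S ↔
      v = none ∨ plp v ∣ hasseInv p a4 a6 * Dc a4 a6 * b :=
    ⟨insert none (fac' (hasseInv p a4 a6 * Dc a4 a6 * b)), fun v => by
      rw [Finset.mem_insert, mem_fac' hF]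
      tauto⟩
  choose c hc using fun v : S => SelF_bad h hS ((hm v).1 v.2)
  obtain ⟨C, hC⟩ := (Set.finite_range c).bddAbove
  obtain ⟨n, hn⟩ := pow_unbounded_of_one_lt C (one_lt_two (α := ℝ))
  obtain ⟨Y, hY, hY'⟩ := fin_K (p := p) h.A_ne (ϖ := vpk a4 a6 p 0) h.car_vp0 S n
  refine (hY.biUnion (t := fun x => {s | Kap a4 a6 p _ 0 s (algebraMap _ _ x.1) (algebraMap _ _ x.2)})
    fun x _ => Set.Subsingleton.finite fun s hs s' hs' => ?_).subset fun s hs => ?_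
  · have e := h.kap_sub hs hs'
    rw [sub_self, sub_self] at e
    exact sub_eq_zero.1 (h.kap_ker e)
  obtain ⟨a, w, hk⟩ := h.sel_fix hs.1 hs.2.1 hs.2.2
  obtain ⟨y, hy⟩ := hY' a w ((algebraMap (RatFunc k) (Kb k)).injective (by
      rw [map_add, map_sub, map_mul, alg_cB, map_div₀, map_zero]
      exact h.kap_coc hk))
    (fun v hv => (hc ⟨v, hv⟩ s a w hk).imp fun _ e => e.trans ((hC ⟨_, rfl⟩).trans hn.le))
    fun v hv => SelF_good h hS (fun e => hv ((hm v).2 (Or.inl e)))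
      (fun e => hv ((hm v).2 (Or.inr e))) hk
  refine Set.mem_biUnion hy ?_
  have e := SelF_cob h hk (y := algebraMap _ _ y) ⟨om_alg y, fun σ _ => σ.commutes y⟩
  show Kap a4 a6 p _ 0 s (algebraMap _ _ (a - _)) (algebraMap _ _ (w + _))
  rw [map_sub, map_sub, map_add, map_mul, map_div₀, map_pow]
  exact e

theorem Hy.sel_fin (h : Hy p a4 a6)
    (hS : Stg (hasseInv p a4 a6) (hasseInv p a4 a6 * Dc a4 a6) b Φ) :
    {s | s ∈ Sel a4 a6 p (MulAction.stabilizer (Gk k) Φ.w0) 0 ∧ p • s = 0}.Finite := by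
  have h1 : ∀ s ∈ Sel a4 a6 p (MulAction.stabilizer (Gk k) Φ.w0) 0, ∀ n : ℕ,
      (acA a4 a6 p _ 0 Φ.σ0)^[n] s = acA a4 a6 p _ 0 (Φ.σ0 ^ n) s := fun s hs n => by
    induction n with
    | zero => exact (acA_triv (one_mem _) hs).symm
    | succ n ih => rw [Function.iterate_succ_apply', ih, pow_succ', acA_mul]
  have h2 : Φ.σ0 ^ p ∈ MulAction.stabilizer (Gk k) Φ.w0 := by
    show (Φ.σ0 ^ p) Φ.w0 = Φ.w0
    rw [Φ.LatA_pow0, CharP.cast_eq_zero, add_zero]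
  refine fin_of_nil (Sel a4 a6 p _ 0 ⊓ (nsmulAddMonoidHom p).ker)
    (acA a4 a6 p _ 0 Φ.σ0 - AddMonoidHom.id _) (fun s hs => ⟨sub_mem (acA_mem _ hs.1) hs.1, ?_⟩) p
    (fun s hs => pi_nil hp.out _ hs.2 ((h1 s hs.1 p).trans (acA_triv h2 hs.1)))
    ((h.sel_fin0 hS).subset fun s hs => ⟨hs.1.1, hs.1.2, sub_eq_zero.1 hs.2⟩)
  have e : p • s = 0 := hs.2
  show p • (acA a4 a6 p _ 0 Φ.σ0 - AddMonoidHom.id _ : _ →+ _) s = 0
  rw [← map_nsmul, e, map_zero]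

end Pool.Agent.ASel
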