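import Pool.Agent.Work.MP_60d5ce_nt.AS.BrgA
import Pool.Agent.Work.MP_60d5ce_nt.AS.SelF

/-!
# If `d` is not bad, the Selmer group over `K` has finite index in the one over `K(δ)`

PLAN.  `cor_norm`: `c0 = cores c` (`InSha.cores`), `Q0 = ∑ x.out Q` over the cosets `x : Xs` (`cor_cob`, `cores_nsmul`).
By `InSha.res`, `cor_ex` the triple `(res c0, Q0, n)` has a class `s2 ∈ Sel`.  Let `(ξ, Q')` be the pair of `s` (it
satisfies `IsZ`), and `g x ∈ Gk k` lifts of `x.out`.  Then `s2 = ∑ acA (g x) s` by `amb0_eq` (only the second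
components matter), and `x ↦ m` with `g x δ = δ + m` is a bijection onto `range p`, `acA (g x) s = acA (σ0 ^ m) s`
(`acA_triv`, `acA_mul`).  `bridge`: `σ0` from `as_surj`; `Φ : ASF p k Empty`; `S'` is the subgroup of the `s ∈ Sel`
that correspond to a Selmer triple, `N = ∑ acA (σ0 ^ i)`; `coker_fin` with `sel_prim`, `sel_fin`; choose triples
for the elements of `Y`; `Cor.add`, `cor_same`.
-/

namespace Pool.Agent.ASel

open Polynomial Pool.Agent.Smith Pool.Agent.ShaAsc WeierstrassCurve WeierstrassCurve.Affine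
open scoped Classical IntermediateField

variable {k : Type} [Field k] {p : ℕ} [Fintype k] [hp : Fact p.Prime] [CharP k p] {a4 a6 b : k[X]}
  {Ω : Type} [Field Ω] [Algebra (RatFunc k) Ω] [IsSepClosure (RatFunc k) Ω] [DecidableEq Ω]

theorem BrgB_mem {K Ω : Type} [Field K] [Field Ω] [Algebra K Ω] {δ : Ω} {σ : Ω ≃ₐ[K] Ω} :
    σ ∈ Hs K K⟮δ⟯ Ω ↔ σ δ = δ := by
  rw [mem_Hs]
  refine ⟨fun h => h ⟨δ, IntermediateField.mem_adjoin_simple_self K δ⟩, fun h x => ?_⟩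
  obtain ⟨x, hx⟩ := x
  change σ x = x
  induction hx using IntermediateField.adjoin_induction with
  | mem y hy => rw [Set.mem_singleton_iff.1 hy, h]
  | algebraMap y => exact σ.commutes y
  | add y z _ _ hy hz => rw [map_add, hy, hz]
  | inv y _ hy => rw [map_inv₀, hy]
  | mul y z _ _ hy hz => rw [map_mul, hy, hz]

theorem BrgB_eq {K Ω : Type} [Field K] [Field Ω] [Algebra K Ω] {δ : Ω} {σ τ : Ω ≃ₐ[K] Ω} :
    (σ : Xs K K⟮δ⟯ Ω) = τ ↔ τ δ = σ δ := by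
  rw [QuotientGroup.eq, BrgB_mem, AlgEquiv.mul_apply, AlgEquiv.aut_inv, AlgEquiv.symm_apply_eq]

theorem BrgB_pow {K Ω : Type} [Field K] [Field Ω] [Algebra K Ω] {δ : Ω} {σ : Ω ≃ₐ[K] Ω}
    (h : σ δ = δ + 1) (m : ℕ) : (σ ^ m) δ = δ + m := by
  induction m with
  | zero => simp
  | succ m ih =>
    rw [pow_succ', AlgEquiv.mul_apply, ih, map_add, map_natCast, h]
    push_cast
    ring

theorem BrgB_isZ {H : Subgroup (Gk k)} {n : ℕ} {x : (Gk k → EK a4 a6) × EK a4 a6}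
    (hx : (x : Amb a4 a6 p H n) ∈ Sel a4 a6 p H n) : x ∈ Zs a4 a6 p H n := by
  obtain ⟨z, hz, e⟩ := hx
  have h1 : -z + x ∈ Zs a4 a6 p H n := IsB.isZ (QuotientAddGroup.eq.1 e)
  simpa using add_mem hz h1

theorem BrgB_iter {H : Subgroup (Gk k)} [H.Normal] {n : ℕ} (σ : Gk k) {s : Amb a4 a6 p H n}
    (hs : s ∈ Sel a4 a6 p H n) (i : ℕ) : (acA a4 a6 p H n σ)^[i] s = acA a4 a6 p H n (σ ^ i) s := by
  induction i with
  | zero => exact (acA_triv H.one_mem hs).symm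
  | succ i ih => rw [Function.iterate_succ_apply', ih, pow_succ', acA_mul]

theorem BrgB_same {δ : Kb k} [(MulAction.stabilizer (Gk k) δ).Normal] {n : ℕ} {σ τ : Gk k}
    (h : τ δ = σ δ) {s : Amb a4 a6 p (MulAction.stabilizer (Gk k) δ) n}
    (hs : s ∈ Sel a4 a6 p _ n) : acA a4 a6 p _ n σ s = acA a4 a6 p _ n τ s := by
  have h1 : σ⁻¹ * τ ∈ MulAction.stabilizer (Gk k) δ := by
    change (σ⁻¹ * τ) δ = δ
    rw [AlgEquiv.mul_apply, AlgEquiv.aut_inv, AlgEquiv.symm_apply_eq, h]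
  have h2 := acA_mul σ (σ⁻¹ * τ) s
  rwa [acA_triv h1 hs, mul_inv_cancel_left, eq_comm] at h2

/-- the norm -/
def BrgB_N {G : Type} [AddCommGroup G] (p : ℕ) (g : G →+ G) : G →+ G :=
  AddMonoidHom.mk' (fun s => ∑ i ∈ Finset.range p, g^[i] s) fun s t => by
    simp only [iterate_map_add, Finset.sum_add_distrib]

theorem BrgB_NN {G : Type} [AddCommGroup G] (p : ℕ) (g : G →+ G) {s : G} (h : g^[p] s = s) :
    BrgB_N p g (BrgB_N p g s) = p • BrgB_N p g s := by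
  have h1 : g (BrgB_N p g s) = BrgB_N p g s := by
    have h2 := Finset.sum_range_succ' (fun i => g^[i] s) p
    rw [Finset.sum_range_succ, h, Function.iterate_zero_apply, add_left_inj] at h2
    change g (∑ i ∈ Finset.range p, g^[i] s) = ∑ i ∈ Finset.range p, g^[i] s
    rw [map_sum]
    simp only [Function.iterate_succ_apply'] at h2
    exact h2.symm
  change ∑ i ∈ Finset.range p, g^[i] (BrgB_N p g s) = _
  simp only [Function.iterate_fixed h1, Finset.sum_const, Finset.card_range]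

theorem Hy.cor_norm (h : Hy p a4 a6) {j : Ω →ₐ[RatFunc k] Kb k}
    (hj : ∀ x, x ∈ Om (RatFunc k) (Kb k) ↔ ∃ y, j y = x) {δ : Ω} {d : RatFunc k}
    (hδ : δ ^ p - δ = algebraMap _ _ d) [(MulAction.stabilizer (Gk k) (j δ)).Normal] {σ0 : Gk k}
    (h0 : σ0 (j δ) = j δ + 1) {c : (Ω ≃ₐ[(RatFunc k)⟮δ⟯] Ω) → Pts (Ew a4 a6) Ω}
    {Q : Pts (Ew a4 a6) Ω} {n : ℕ} (hc : InSelP p (Ew a4 a6) c Q n)
    {s : Amb a4 a6 p (MulAction.stabilizer (Gk k) (j δ)) 0} (hs : Cor p a4 a6 j δ c Q n s) :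
    ∃ (c0 : (Ω ≃ₐ[RatFunc k] Ω) → Pts (Ew a4 a6) Ω) (Q0 : Pts (Ew a4 a6) Ω),
      InSelP p (Ew a4 a6) c0 Q0 n ∧ InSelP p (Ew a4 a6) (ShaAsc.res (RatFunc k)⟮δ⟯ c0) Q0 n ∧
      Cor p a4 a6 j δ (ShaAsc.res _ c0) Q0 n (∑ i ∈ Finset.range p, (acA a4 a6 p _ 0 σ0)^[i] s) := by
  have hG : IsGalois (RatFunc k) Ω := inferInstance
  have hfin : FiniteDimensional (RatFunc k) (RatFunc k)⟮δ⟯ :=
    IntermediateField.adjoin.finiteDimensional (Algebra.IsIntegral.isIntegral δ)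
  have hch : CharP Ω p := charP_of_injective_algebraMap (algebraMap (RatFunc k) Ω).injective p
  have k1 : InSelP p (Ew a4 a6) (cores (RatFunc k) (Ew a4 a6) c)
      (∑ x : Xs (RatFunc k) (RatFunc k)⟮δ⟯ Ω, act (Ew a4 a6) x.out Q) n := by
    refine ⟨hc.1.cores p, fun σ => ?_⟩
    rw [← Pi.smul_apply, ← cores_nsmul]
    refine cor_cob act_mul out_smul (fun τ hτ => ?_) σ
    rw [smul_x0_iff] at hτ
    rw [ext0_of_mem _ hτ, Pi.smul_apply, hc.2, act_congr (σ := τ) (σ' := toH τ hτ) fun _ => rfl]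
  have k2 : InSelP p (Ew a4 a6) (ShaAsc.res (RatFunc k)⟮δ⟯ (cores (RatFunc k) (Ew a4 a6) c))
      (∑ x : Xs (RatFunc k) (RatFunc k)⟮δ⟯ Ω, act (Ew a4 a6) x.out Q) n :=
    ⟨k1.1.res, fun σ => (k1.2 _).trans (by
      rw [act_congr (σ := σ) (σ' := σ.restrictScalars (RatFunc k)) fun _ => rfl])⟩
  refine ⟨_, _, k1, k2, ?_⟩
  obtain ⟨s2, hs2, k3⟩ := h.cor_ex hj k2
  obtain ⟨s1, hs1, k4⟩ := h.cor_ex hj hc
  obtain rfl : s = s1 := Cor.uniq hj hs k4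
  choose g hg using fun x : Xs (RatFunc k) (RatFunc k)⟮δ⟯ Ω => j_lift hj x.out
  obtain ⟨ρ, hρ⟩ := j_res hj σ0
  have hρ1 : ρ δ = δ + 1 := j.injective (by
    change j _ = j _
    rw [hρ, h0, map_add, map_one])
  have e1 : ∑ i ∈ Finset.range p, (acA a4 a6 p _ 0 σ0)^[i] s = ∑ x, acA a4 a6 p _ 0 (g x) s := by
    refine Finset.sum_nbij (fun i => ((ρ ^ i : Ω ≃ₐ[RatFunc k] Ω) : Xs _ (RatFunc k)⟮δ⟯ Ω))
      (fun _ _ => Finset.mem_univ _) (fun i hi i' hi' e => ?_) (fun x _ => ?_) fun i _ => ?_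
    · rw [BrgB_eq, BrgB_pow hρ1, BrgB_pow hρ1, add_right_inj] at e
      exact (CharP.natCast_injOn_Iio Ω p (Finset.mem_range.1 hi') (Finset.mem_range.1 hi) e).symm
    · obtain ⟨m, hm⟩ := Wp_fix (p := p) (x := x.out δ - δ) (by
        have := congrArg x.out hδ
        rw [map_sub, map_pow, AlgEquiv.commutes] at this
        rw [sub_pow_char]
        linear_combination this - hδ)
      refine ⟨m % p, Finset.mem_range.2 (Nat.mod_lt _ hp.out.pos), ?_⟩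
      rw [← x.out_eq]
      refine BrgB_eq.2 ?_
      rw [BrgB_pow hρ1, ← CharP.cast_eq_mod, ← hm, add_sub_cancel]
    · rw [BrgB_iter _ hs1]
      refine BrgB_same ?_ hs1
      rw [← hg, BrgB_pow h0, ← BrgB_eq.1 (Quotient.out_eq _), BrgB_pow hρ1, map_add, map_natCast]
  rw [e1]
  suffices e2 : s2 = ∑ x, acA a4 a6 p _ 0 (g x) s from e2 ▸ k3
  obtain ⟨x2, rfl, -, hx2⟩ := k3
  obtain ⟨x1, rfl, -, hx1⟩ := hs
  have e3 : ∑ x, acA a4 a6 p (MulAction.stabilizer (Gk k) (j δ)) 0 (g x) x1 =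
      ((∑ x, cj a4 a6 (g x) x1 :) : Amb a4 a6 p _ 0) :=
    (map_sum (QuotientAddGroup.mk' _) (fun x => cj a4 a6 (g x) x1) _).symm
  rw [e3]
  refine h.amb0_eq (BrgB_isZ hs2) (sum_mem (S := Zs a4 a6 p _ 0) fun x _ =>
    IsZ.cj (BrgB_isZ hs1) (g x)) (zero_mem _) (m := n) ?_
  rw [sub_zero, smul_sub, hx2, Prod.snd_sum, Finset.smul_sum, map_sum, sub_eq_zero]
  refine Finset.sum_congr rfl fun x _ => ?_
  rw [map_act j (hg x), ← hx1, map_nsmul]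
  rfl

theorem Hy.bridge (h : Hy p a4 a6) {d : RatFunc k} (hd : ∀ y : RatFunc k, y ^ p - y ≠ d)
    (hb : b ≠ 0) (hc : IsCoprime b (hasseInv p a4 a6 * Dc a4 a6)) (h1 : ∀ v, av v d ≤ 2)
    (h2 : ∀ v, v = none ∨ ¬ plp v ∣ b → av v d ≤ 1) (hB : ¬ BadD a4 a6 p d) (δ : Ω)
    (hδ : δ ^ p - δ = algebraMap _ _ d) :
    ∃ S : Set (((Ω ≃ₐ[(RatFunc k)⟮δ⟯] Ω) → Pts (Ew a4 a6) Ω) × Pts (Ew a4 a6) Ω × ℕ), S.Finite ∧
      (∀ s ∈ S, InSelP p (Ew a4 a6) s.1 s.2.1 s.2.2) ∧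
      ∀ c Q n, InSelP p (Ew a4 a6) c Q n → ∃ s ∈ S,
        ∃ (c0 : (Ω ≃ₐ[RatFunc k] Ω) → Pts (Ew a4 a6) Ω) (Q0 : Pts (Ew a4 a6) Ω) (n0 : ℕ),
          InSelP p (Ew a4 a6) c0 Q0 n0 ∧ SameSel p (Ew a4 a6) c Q n
            (fun σ => s.1 σ + c0 (σ.restrictScalars (RatFunc k)))
            (p ^ n0 • s.2.1 + p ^ s.2.2 • Q0) (s.2.2 + n0) := by
  obtain ⟨j, hj⟩ := exists_j0 (k := k) (Ω := Ω)
  have hw : j δ ^ p - j δ = algebraMap _ _ d := by rw [← map_pow, ← map_sub, hδ, j.commutes]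
  obtain ⟨σ0, h0⟩ := as_surj (p := p) (fun _ : Unit => d) (fun _ => j δ) (fun _ => hw)
    (fun e y hy => by
      by_contra hne
      have h3 : (((e ()).val : ℕ) : RatFunc k) ≠ 0 := by
        rw [Gal_cast, _root_.map_ne_zero]
        exact fun h4 => hne (funext fun _ => h4)
      have h4 : (((e ()).val : ℕ) : RatFunc k) ^ p = (e ()).val :=
        map_natCast (frobenius (RatFunc k) p) _
      refine hd (y / (e ()).val) ?_
      rw [div_pow, h4, ← sub_div, hy, Fintype.sum_unique, mul_div_cancel_left₀ _ h3]) fun _ => 1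
  replace h0 : σ0 (j δ) = j δ + 1 := by rw [h0 (), ZMod.val_one, Nat.cast_one]
  have hN := stab_normal hw
  let Φ : ASF p k Empty := ⟨d, Empty.elim, j δ, Empty.elim, hw, fun l => l.elim, σ0, fun _ => 1, h0,
    fun l => l.elim, fun _ => rfl, fun _ l => l.elim⟩
  have hf := h.sel_fin (Φ := Φ) ⟨hb, hc, h1, h2, fun l => l.elim, fun l => l.elim⟩
  let S' : AddSubgroup (Amb a4 a6 p (MulAction.stabilizer (Gk k) (j δ)) 0) :=
    AddSubgroup.ofSub {s | s ∈ Sel a4 a6 p _ 0 ∧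
      ∃ c Q n, InSelP p (Ew a4 a6) c Q n ∧ Cor p a4 a6 j δ c Q n s}
      ⟨0, zero_mem _, 0, 0, 0, inSelP_zero, cor_zero⟩
      fun _ ⟨hx, _, _, _, hx1, hx2⟩ _ ⟨hy, _, _, _, hy1, hy2⟩ => by
        rw [← sub_eq_add_neg]
        exact ⟨sub_mem hx hy, _, _, _, hx1.sub hy1, hx2.sub hy2⟩
  obtain ⟨Y, hY, hYS, hs⟩ := coker_fin p S' (BrgB_N p (acA a4 a6 p _ 0 σ0))
    (fun s ⟨hs, c, Q, n, g1, g2⟩ => by
      obtain ⟨c0, Q0, -, g3, g4⟩ := h.cor_norm hj hδ h0 g1 g2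
      refine ⟨?_, _, _, _, g3, g4⟩
      change ∑ i ∈ Finset.range p, (acA a4 a6 p _ 0 σ0)^[i] s ∈ _
      refine sum_mem fun i _ => ?_
      rw [BrgB_iter _ hs]
      exact acA_mem _ hs)
    (fun s hs => BrgB_NN p _ (by
      rw [BrgB_iter _ hs.1]
      refine acA_triv ?_ hs.1
      change (σ0 ^ p) (j δ) = j δ
      rw [BrgB_pow h0, CharP.cast_eq_zero, add_zero]))
    (fun s hs => h.sel_prim hs.1) (hf.subset fun s hs => ⟨hs.1.1, hs.2⟩)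
    (fun u hu0 hu => by
      by_contra hne
      exact hB ⟨j δ, hw, σ0, u, h0, hne, hu0, fun n => ⟨(hu n).1.1, (hu n).2⟩⟩)
  choose tc tQ tn ht using fun y : Y => (hYS y.2).2
  have := hY.to_subtype
  refine ⟨Set.range fun y => (tc y, tQ y, tn y), Set.finite_range _, ?_, fun c Q n g => ?_⟩
  · rintro _ ⟨y, rfl⟩
    exact (ht y).1
  obtain ⟨s, g1, g2⟩ := h.cor_ex hj g
  obtain ⟨y, hy, x, ⟨-, c1, Q1, n1, g3, g4⟩, rfl⟩ := hs s ⟨g1, c, Q, n, g, g2⟩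
  obtain ⟨c0, Q0, g5, -, g6⟩ := h.cor_norm hj hδ h0 g3 g4
  exact ⟨_, ⟨⟨y, hy⟩, rfl⟩, c0, Q0, n1, g5, h.cor_same hj g2 ((ht ⟨y, hy⟩).2.add g6)⟩

end Pool.Agent.ASel
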