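import Pool.Agent.Work.MP_60d5ce_nt.AS.EllA
import Pool.Agent.Work.MP_60d5ce_nt.AS.SFam

-- merged part: Pool.Agent.Work.MP_60d5ce_nt.AS.EllH
section
/-!
# Heights of multiples of the generic point (steps 1 and 2 of the plan in `EllV.lean`)

That `n P ≠ O` for a point `P = (x, y)` with transcendental `x`: take an absolute value on the field
`F(x, y)` with `|x| > 1`, trivial on `F`; or avoid it: if `n P = O` for one such point then for all
(transport), and the recursion `d_(n+1) + d_(n-1) ≤ 2 d_n + 2` can be run with the convention that `O`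
has abscissa `1 / 0` of height `0`.  For `p P ≠ O` and `n P ≠ O`, `n < p`: `dx / 2 y` is additive and
nonzero at `P`, so `n P ≠ O` for `0 < n < p`; if `p P = O` then `(p - 1) P = -P`; let `s = x / y` be the
parameter at infinity, or use that the translate of a point of order `p` ... simplest: if `p P = O`
for all points with transcendental abscissa then `p` kills all points over the algebraic closure of
`F(x)` (every point is a difference of two such points), in particular the points of order two.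

Done as follows.  `EllH_G n r s`: `n (X, y) = (r, y s)` in every field over `F(X)`; `EllH_ind`: this holds
for some `r`, `s` or `n (X, y) = O` everywhere.  A separable closure of `F(X)` carries `d / dX`
(`EllH_model`), which gives `n P ≠ O` for `0 < n < p` and `d r = 0` for `n = p`.
-/

namespace Pool.Agent.ASel

open WeierstrassCurve WeierstrassCurve.Affine Polynomial Pool.Agent.Quad
open scoped Classical

section
variable {F : Type} [Field F]

theorem EllH_ev {M : Type} [Field M] [Algebra F M] (φ : RatFunc F →ₐ[F] M) (g : F[X]) :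
    φ (algebraMap F[X] (RatFunc F) g) = aeval (φ RatFunc.X) g := by
  rw [← RatFunc.aeval_X_left_eq_algebraMap, aeval_algHom_apply]

theorem EllH_phi {M : Type} [Field M] [Algebra F M] {x : M} (hx : Transcendental F x) :
    ∃ φ : RatFunc F →ₐ[F] M, φ RatFunc.X = x :=
  ⟨IsFractionRing.liftAlgHom (g := aeval x) (transcendental_iff_injective.1 hx), by
    rw [IsFractionRing.liftAlgHom_apply, ← RatFunc.algebraMap_X, IsFractionRing.lift_algebraMap]
    exact aeval_X x⟩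

/-- a separably closed extension of `F(X)` with the derivation `d / dX` -/
theorem EllH_model (F : Type) [Field F] : ∃ (L : Type) (_ : Field L) (_ : Algebra F L)
    (_ : IsSepClosed L) (ι : RatFunc F →ₐ[F] L) (D : Derivation ℤ L L), ∀ g : F[X],
      D (ι (algebraMap F[X] (RatFunc F) g)) = ι (algebraMap F[X] (RatFunc F) (derivative g)) := by
  obtain ⟨L, _, _, _, _, _, _, _, _⟩ : ∃ (L : Type) (_ : Field L) (_ : Algebra F L)
      (_ : Algebra F[X] L) (_ : Algebra (RatFunc F) L) (_ : IsScalarTower F (RatFunc F) L)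
      (_ : IsScalarTower F[X] (RatFunc F) L) (_ : IsSepClosed L), Algebra.IsSeparable (RatFunc F) L :=
    ⟨SeparableClosure (RatFunc F), inferInstance, inferInstance, inferInstance, inferInstance,
      inferInstance, inferInstance, inferInstance, inferInstance⟩
  have h1 : Algebra.FormallyEtale F[X] (RatFunc F) :=
    Algebra.FormallyEtale.of_isLocalization (nonZeroDivisors F[X])
  have h2 : Algebra.FormallyEtale (RatFunc F) L := Algebra.FormallyEtale.of_isSeparable _ _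
  have h3 : Algebra.FormallyEtale F[X] L := Algebra.FormallyEtale.comp _ (RatFunc F) _
  have h4 := IsScalarTower.to₁₂₄ F F[X] (RatFunc F) L
  have hb := KaehlerDifferential.isBaseChange_of_formallyEtale F F[X] L
  let l := hb.lift (Polynomial.mkDerivation F (1 : L)).liftKaehlerDifferential
  refine ⟨L, inferInstance, inferInstance, inferInstance, IsScalarTower.toAlgHom F (RatFunc F) L,
    (l.compDer (KaehlerDifferential.D F L)).restrictScalars ℤ, fun g => ?_⟩
  show l (KaehlerDifferential.D F L (algebraMap _ L (algebraMap F[X] (RatFunc F) g))) =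
    algebraMap _ L (algebraMap F[X] (RatFunc F) (derivative g))
  rw [← IsScalarTower.algebraMap_apply, ← IsScalarTower.algebraMap_apply,
    ← KaehlerDifferential.map_D F F F[X] L, hb.lift_eq, Derivation.liftKaehlerDifferential_comp_D,
    Polynomial.mkDerivation_apply, Algebra.algebraMap_eq_smul_one]

/-- the height of a rational function -/
noncomputable def EllH_ht (r : RatFunc F) : ℕ := max r.num.natDegree r.denom.natDegree

theorem EllH_nd (r : RatFunc F) :
    r * algebraMap F[X] (RatFunc F) r.denom = algebraMap F[X] (RatFunc F) r.num := by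
  have := RatFunc.num_div_denom r
  rw [div_eq_iff (RatFunc.algebraMap_ne_zero r.denom_ne_zero)] at this
  exact this.symm

theorem EllH_key {u v : RatFunc F} {U0 U1 U2 : F[X]} {m : ℕ} (h0 : U0 ≠ 0)
    (e1 : (u + v) * algebraMap F[X] (RatFunc F) U0 = algebraMap F[X] (RatFunc F) U1)
    (e2 : u * v * algebraMap F[X] (RatFunc F) U0 = algebraMap F[X] (RatFunc F) U2)
    (d0 : U0.natDegree ≤ m) (d1 : U1.natDegree ≤ m) (d2 : U2.natDegree ≤ m) :
    EllH_ht u + EllH_ht v ≤ m := by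
  have hu := EllH_nd u
  have hv := EllH_nd v
  obtain ⟨a1, b1, c1⟩ := u.isCoprime_num_denom
  obtain ⟨a2, b2, c2⟩ := v.isCoprime_num_denom
  have n1 := u.denom_ne_zero
  have n2 := v.denom_ne_zero
  unfold EllH_ht
  generalize u.num = A1 at *
  generalize u.denom = B1 at *
  generalize v.num = A2 at *
  generalize v.denom = B2 at *
  have inj := RatFunc.algebraMap_injective F
  have k1 : U0 * (A1 * B2 + A2 * B1) = U1 * (B1 * B2) := inj (by
    simp only [map_mul, map_add, ← hu, ← hv, ← e1]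
    ring)
  have k2 : U0 * (A1 * A2) = U2 * (B1 * B2) := inj (by
    simp only [map_mul, ← hu, ← hv, ← e2]
    ring)
  obtain ⟨g, hg⟩ : ∃ g, U0 = g * (B1 * B2) := ⟨(2 * a1 * b1 * b2 * A1 - b1 ^ 2 * a2 * A1 +
      b1 ^ 2 * b2 * B1) * U0 + (a1 ^ 2 * b2 * A1 + b1 ^ 2 * a2 * B1) * U1 +
      (a1 ^ 2 * a2 * A1 - a1 ^ 2 * b2 * B1 + 2 * a1 * b1 * a2 * B1) * U2, by
    linear_combination (a1 ^ 2 * b2 * A1 + b1 ^ 2 * a2 * B1) * k1 +
      (a1 ^ 2 * a2 * A1 - a1 ^ 2 * b2 * B1 + 2 * a1 * b1 * a2 * B1) * k2 -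
      U0 * (a1 * A1 + b1 * B1 + 1) * (a2 * A2 + b2 * B2) * c1 - U0 * c2⟩
  have g0 : g ≠ 0 := fun e => h0 (by rw [hg, e, zero_mul])
  have n0 := mul_ne_zero n1 n2
  have q1 : U1 = g * (A1 * B2 + A2 * B1) :=
    mul_right_cancel₀ n0 (by linear_combination (A1 * B2 + A2 * B1) * hg - k1)
  have q2 : U2 = g * (A1 * A2) := mul_right_cancel₀ n0 (by linear_combination A1 * A2 * hg - k2)
  have le : ∀ T : F[X], T.natDegree ≤ (g * T).natDegree := fun T => by
    by_cases t0 : T = 0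
    · simp [t0]
    · rw [natDegree_mul g0 t0]
      omega
  have z : ∀ {A B : F[X]}, B.natDegree < A.natDegree → A ≠ 0 := fun k e => by simp [e] at k
  have l0 := (le _).trans (hg ▸ d0)
  have l1 := (le _).trans (q1 ▸ d1)
  have l2 := (le _).trans (q2 ▸ d2)
  rcases le_or_gt A1.natDegree B1.natDegree with k | k <;>
    rcases le_or_gt A2.natDegree B2.natDegree with k' | k'
  · rw [natDegree_mul n1 n2] at l0
    omega
  · have := natDegree_mul_le (p := A1) (q := B2)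
    have e := natDegree_mul (z k') n1
    rw [natDegree_add_eq_right_of_natDegree_lt (by omega), e] at l1
    omega
  · have := natDegree_mul_le (p := A2) (q := B1)
    have e := natDegree_mul (z k) n2
    rw [natDegree_add_eq_left_of_natDegree_lt (by omega), e] at l1
    omega
  · rw [natDegree_mul (z k) (z k')] at l2
    omega

theorem EllH_rec {a b : F} {u r v : RatFunc F} (hr : r ≠ RatFunc.X)
    (e1 : (u + v) * (r - RatFunc.X) ^ 2 =
      2 * (r * RatFunc.X + RatFunc.C a) * (r + RatFunc.X) + 4 * RatFunc.C b)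
    (e2 : u * v * (r - RatFunc.X) ^ 2 =
      (r * RatFunc.X - RatFunc.C a) ^ 2 - 4 * RatFunc.C b * (r + RatFunc.X)) :
    EllH_ht u + EllH_ht v ≤ 2 * EllH_ht r + 2 := by
  have hn := EllH_nd r
  have n0 := RatFunc.algebraMap_ne_zero r.denom_ne_zero
  have dA : r.num.natDegree ≤ EllH_ht r := le_max_left _ _
  have dB : r.denom.natDegree ≤ EllH_ht r := le_max_right _ _
  generalize r.num = A at *
  generalize r.denom = B at *
  refine EllH_key (U0 := (A - X * B) ^ 2)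
    (U1 := 2 * (A * X + C a * B) * (A + X * B) + 4 * C b * B ^ 2)
    (U2 := (A * X - C a * B) ^ 2 - 4 * C b * B * (A + X * B)) (pow_ne_zero 2 fun k => hr ?_)
    ?_ ?_ ?_ ?_ ?_
  · have := congrArg (algebraMap F[X] (RatFunc F)) k
    rw [map_sub, map_mul, RatFunc.algebraMap_X, ← hn, map_zero, ← sub_mul] at this
    exact sub_eq_zero.1 ((mul_eq_zero.1 this).resolve_right n0)
  · simp only [map_pow, map_sub, map_mul, map_add, map_ofNat, RatFunc.algebraMap_X,
      RatFunc.algebraMap_C, ← hn]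
    linear_combination algebraMap F[X] (RatFunc F) B ^ 2 * e1
  · simp only [map_pow, map_sub, map_mul, map_add, map_ofNat, RatFunc.algebraMap_X,
      RatFunc.algebraMap_C, ← hn]
    linear_combination algebraMap F[X] (RatFunc F) B ^ 2 * e2
  · compute_degree
    omega
  · compute_degree
    omega
  · compute_degree
    omega

theorem EllH_con {p : ℕ} [hp : Fact p.Prime] [CharP F p] {L : Type} [Field L] [Algebra F L]
    {ι : RatFunc F →ₐ[F] L} {D : Derivation ℤ L L} (hD : ∀ g : F[X],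
      D (ι (algebraMap F[X] (RatFunc F) g)) = ι (algebraMap F[X] (RatFunc F) (derivative g)))
    {r : RatFunc F} (h0 : D (ι r) = 0) : ∃ N Dn : F[X], Dn.Monic ∧ IsCoprime N Dn ∧
      max N.natDegree Dn.natDegree * p = EllH_ht r ∧ ∀ (M : Type) [Field M] [Algebra F M]
        (φ : RatFunc F →ₐ[F] M), φ r = aeval (φ RatFunc.X ^ p) N / aeval (φ RatFunc.X ^ p) Dn := by
  have hn := EllH_nd r
  have e := hD r.num
  rw [← hn, map_mul, Derivation.leibniz, h0, smul_zero, add_zero, hD, smul_eq_mul, ← map_mul] at e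
  have e1 : r.num * derivative r.denom = derivative r.num * r.denom :=
    RatFunc.algebraMap_injective F (by rw [map_mul, map_mul, ← ι.injective e, ← hn]; ring)
  have b0 : derivative r.denom = 0 := dvd_derivative_iff.1
    (r.isCoprime_num_denom.symm.dvd_of_dvd_mul_left ⟨_, e1.trans (mul_comm _ _)⟩)
  have a0 : derivative r.num = 0 := by
    rw [b0, mul_zero] at e1
    exact (mul_eq_zero.1 e1.symm).resolve_right r.denom_ne_zero
  have ea := expand_contract p a0 hp.out.ne_zero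
  have eb := expand_contract p b0 hp.out.ne_zero
  refine ⟨contract p r.num, contract p r.denom, (monic_expand_iff hp.out.pos).1 ?_,
    (isCoprime_expand hp.out.ne_zero).1 ?_, ?_, fun M _ _ φ => ?_⟩
  · rw [eb]
    exact r.monic_denom
  · rw [ea, eb]
    exact r.isCoprime_num_denom
  · rw [max_mul, ← natDegree_expand, ← natDegree_expand, ea, eb, EllH_ht]
  · rw [← expand_aeval, ← expand_aeval, ea, eb, ← EllH_ev, ← EllH_ev, ← map_div₀,
      RatFunc.num_div_denom]

theorem EllH_sp {M : Type} [Field M] {W : Affine M} (h : SW W) {x y x1 y1 x2 y2 x3 y3 : M}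
    {hP : W.Nonsingular x y} {hQ : W.Nonsingular x1 y1} {h2 : W.Nonsingular x2 y2}
    {h3 : W.Nonsingular x3 y3}
    (e2 : (Point.some x1 y1 hQ : W.Point) + Point.some x y hP = Point.some x2 y2 h2)
    (e3 : (Point.some x1 y1 hQ : W.Point) + -Point.some x y hP = Point.some x3 y3 h3) :
    x1 ≠ x ∧ (x3 + x2) * (x1 - x) ^ 2 = 2 * (x1 * x + W.a₄) * (x1 + x) + 4 * W.a₆ ∧
      x3 * x2 * (x1 - x) ^ 2 = (x1 * x - W.a₄) ^ 2 - 4 * W.a₆ * (x1 + x) := by
  have hx : x1 ≠ x := by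
    rintro rfl
    rcases Y_eq_of_X_eq hQ.1 hP.1 rfl with rfl | k
    · exact Point.some_ne_zero _ (e3.symm.trans (add_neg_cancel _))
    · exact Point.some_ne_zero _ (e2.symm.trans (Point.add_of_Y_eq rfl k))
  obtain ⟨hN, eN⟩ := h.neg_some hP
  obtain ⟨l, hl, _, k⟩ := h.EllA_add hQ hP hx
  obtain ⟨l', hl', _, k'⟩ := h.EllA_add hQ hN hx
  obtain rfl := (Point.some.inj (e2.symm.trans k)).1
  obtain rfl := (Point.some.inj (e3.symm.trans (eN ▸ k'))).1
  have a := h.eqn hP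
  have b := h.eqn hQ
  have c : l * l' * (x1 - x) = x1 ^ 2 + x1 * x + x ^ 2 + W.a₄ :=
    mul_right_cancel₀ (sub_ne_zero.2 hx) (by
      linear_combination l' * (x1 - x) * hl + (y1 - y) * hl' + b - a)
  have d : (l ^ 2 + l' ^ 2) * (x1 - x) ^ 2 = 2 * (x1 ^ 3 + x ^ 3 + W.a₄ * (x1 + x) + 2 * W.a₆) := by
    linear_combination (l * (x1 - x) + (y1 - y)) * hl + (l' * (x1 - x) + (y1 + y)) * hl' +
      2 * a + 2 * b
  exact ⟨hx, by linear_combination d, by
    linear_combination (l * l' * (x1 - x) + (x1 ^ 2 + x1 * x + x ^ 2 + W.a₄)) * c - (x1 + x) * d⟩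

variable {W : Affine F}

theorem EllH_sw (h : SW W) (M : Type) [Field M] [Algebra F M] : SW (W.baseChange M).toAffine := by
  have inj := (algebraMap F M).injective
  refine ⟨?_, ?_, ?_, fun k => h.disc (inj ?_), fun k => h.six (inj ?_)⟩
  · exact (congrArg (algebraMap F M) h.a1).trans (map_zero _)
  · exact (congrArg (algebraMap F M) h.a2).trans (map_zero _)
  · exact (congrArg (algebraMap F M) h.a3).trans (map_zero _)
  · simp only [map_add, map_mul, map_pow, map_ofNat, map_zero]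
    exact k
  · rw [map_ofNat, k, map_zero]

/-- the cubic -/
noncomputable def EllH_f (W : Affine F) : RatFunc F :=
  algebraMap F[X] (RatFunc F) (X ^ 3 + C W.a₄ * X + C W.a₆)

theorem EllH_f0 (W : Affine F) : (X ^ 3 + C W.a₄ * X + C W.a₆ : F[X]) ≠ 0 :=
  Monic.ne_zero (by monicity!)

theorem EllH_fe {M : Type} [Field M] [Algebra F M] (φ : RatFunc F →ₐ[F] M) : φ (EllH_f W) =
    φ RatFunc.X ^ 3 + (W.baseChange M).toAffine.a₄ * φ RatFunc.X + (W.baseChange M).toAffine.a₆ := by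
  rw [EllH_f, EllH_ev, map_add, map_add, map_mul, map_pow, aeval_X, aeval_C, aeval_C]
  rfl

theorem EllH_y (h : SW W) {M : Type} [Field M] [Algebra F M] {φ : RatFunc F →ₐ[F] M} {y : M}
    (hn : (W.baseChange M).toAffine.Nonsingular (φ RatFunc.X) y) :
    y ^ 2 = φ (EllH_f W) ∧ y ≠ 0 ∧ φ (EllH_f W) ≠ 0 := by
  have e := ((EllH_sw h M).eqn hn).trans (EllH_fe φ).symm
  have k : φ (EllH_f W) ≠ 0 := (map_ne_zero φ).2 (RatFunc.algebraMap_ne_zero (EllH_f0 W))
  exact ⟨e, fun y0 => k (by rw [← e, y0]; ring), k⟩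

/-- `n (X, y) = (r, y s)` in every model -/
def EllH_G (W : Affine F) (n : ℕ) (r s : RatFunc F) : Prop :=
  ∀ (M : Type) [Field M] [Algebra F M] (φ : RatFunc F →ₐ[F] M) (y : M)
    (h : (W.baseChange M).toAffine.Nonsingular (φ RatFunc.X) y), ∃ h',
      n • (Point.some _ y h : (W.baseChange M).toAffine.Point) = Point.some (φ r) (y * φ s) h'

/-- `n (X, y) = O` in every model -/
def EllH_Z (W : Affine F) (n : ℕ) : Prop :=
  ∀ (M : Type) [Field M] [Algebra F M] (φ : RatFunc F →ₐ[F] M) (y : M)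
    (h : (W.baseChange M).toAffine.Nonsingular (φ RatFunc.X) y),
      n • (Point.some _ y h : (W.baseChange M).toAffine.Point) = 0

theorem EllH_two (h : SW W) : ∃ r s, EllH_G W 2 r s ∧ EllH_ht r ≤ 4 := by
  have f0 : EllH_f W ≠ 0 := RatFunc.algebraMap_ne_zero (EllH_f0 W)
  have t : (2 : RatFunc F) ≠ 0 := fun k => h.two ((algebraMap F (RatFunc F)).injective (by
    rw [map_ofNat, k, map_zero]))
  obtain ⟨μ, hμ⟩ : ∃ μ, μ * (2 * EllH_f W) = 3 * RatFunc.X ^ 2 + RatFunc.C W.a₄ :=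
    ⟨_, div_mul_cancel₀ _ (mul_ne_zero t f0)⟩
  refine ⟨EllH_f W * μ ^ 2 - 2 * RatFunc.X,
    μ * (RatFunc.X - (EllH_f W * μ ^ 2 - 2 * RatFunc.X)) - 1, fun M _ _ φ y hn => ?_, ?_⟩
  · obtain ⟨e, y0, -⟩ := EllH_y h hn
    obtain ⟨l, hl, h', k⟩ := (EllH_sw h M).EllA_dbl hn y0
    have c := congrArg φ hμ
    simp only [map_mul, map_add, map_pow, map_ofNat, ← e] at c
    obtain rfl : l = y * φ μ := mul_right_cancel₀ (mul_ne_zero (EllH_sw h M).two y0) (by
      rw [hl, show (W.baseChange M).toAffine.a₄ = φ (RatFunc.C W.a₄) from (φ.commutes _).symm]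
      linear_combination -c)
    rw [k]
    refine EllA_congr _ ?_ ?_ <;> simp only [map_mul, map_sub, map_pow, map_ofNat, map_one, ← e] <;>
      ring
  · refine (Nat.le_add_right _ _).trans (EllH_key (v := 0) (U2 := 0)
      (U0 := 4 * (X ^ 3 + C W.a₄ * X + C W.a₆))
      (U1 := (3 * X ^ 2 + C W.a₄) ^ 2 - 8 * X * (X ^ 3 + C W.a₄ * X + C W.a₆))
      (mul_ne_zero (fun k => pow_ne_zero 2 h.two (C_injective ?_)) (EllH_f0 W)) ?_ (by simp)
      (by compute_degree!) (by compute_degree) (by simp))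
    · rw [map_pow, map_ofNat, map_zero, ← k]
      norm_num
    · rw [map_sub, map_mul, map_mul, map_mul, ← EllH_f]
      simp only [map_pow, map_mul, map_add, map_ofNat, RatFunc.algebraMap_X, RatFunc.algebraMap_C,
        ← hμ]
      ring

theorem EllH_ind (h : SW W) (n : ℕ) : EllH_Z W n ∨ ∃ r s, EllH_G W n r s := by
  induction n with
  | zero => exact Or.inl fun M _ _ φ y hn => zero_nsmul _
  | succ n ih =>
    rcases ih with z | ⟨r, s, g⟩
    · refine Or.inr ⟨RatFunc.X, 1, fun M _ _ φ y hn => ?_⟩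
      rw [succ_nsmul, z, zero_add]
      exact EllA_congr _ rfl (by rw [map_one, mul_one])
    by_cases hr : r = RatFunc.X
    · subst hr
      by_cases hs : s = 1
      · subst hs
        obtain ⟨r, s, g2, -⟩ := EllH_two h
        refine Or.inr ⟨r, s, fun M _ _ φ y hn => ?_⟩
        obtain ⟨h', k⟩ := g M φ y hn
        obtain ⟨_, k'⟩ := EllA_congr h' rfl (show y * φ 1 = y by rw [map_one, mul_one])
        rw [succ_nsmul, k, k', ← two_nsmul]
        exact g2 M φ y hn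
      · refine Or.inl fun M _ _ φ y hn => ?_
        obtain ⟨h', k⟩ := g M φ y hn
        rw [succ_nsmul, k]
        refine Point.add_of_Y_eq rfl ((Y_eq_of_X_eq h'.1 hn.1 rfl).resolve_left fun e => hs ?_)
        exact φ.injective (mul_left_cancel₀ (EllH_y h hn).2.1 (e.trans (by simp)))
    obtain ⟨μ, hμ⟩ : ∃ μ, μ * (r - RatFunc.X) = s - 1 := ⟨_, div_mul_cancel₀ _ (sub_ne_zero.2 hr)⟩
    refine Or.inr ⟨EllH_f W * μ ^ 2 - r - RatFunc.X,
      μ * (r - (EllH_f W * μ ^ 2 - r - RatFunc.X)) - s, fun M _ _ φ y hn => ?_⟩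
    obtain ⟨h', k⟩ := g M φ y hn
    have hx : φ r ≠ φ RatFunc.X := fun e => hr (φ.injective e)
    obtain ⟨l, hl, h'', k'⟩ := (EllH_sw h M).EllA_add h' hn hx
    have c := congrArg φ hμ
    rw [map_mul, map_sub, map_sub, map_one] at c
    obtain rfl : l = y * φ μ :=
      mul_right_cancel₀ (sub_ne_zero.2 hx) (by linear_combination hl - y * c)
    rw [succ_nsmul, k, k']
    refine EllA_congr _ ?_ ?_ <;> simp only [map_mul, map_sub, map_pow, ← (EllH_y h hn).1] <;> ring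

theorem EllH_odd (h : SW W) {L : Type} [Field L] [Algebra F L] [IsSepClosed L]
    {ι : RatFunc F →ₐ[F] L} {y : L} (hn : (W.baseChange L).toAffine.Nonsingular (ι RatFunc.X) y)
    (k : ℕ) : ¬EllH_Z W (2 * k + 1) := fun z => by
  have hs := EllH_sw h L
  obtain ⟨e, e2, e3, rt⟩ := hs.exists_rt
  have a := hs.eqn hn
  have b := rt.root
  have hx : ι RatFunc.X ≠ e := fun q => (EllH_y h hn).2.2 (by rw [EllH_fe, q, b])
  obtain ⟨l, hl, h', q⟩ := hs.EllA_add hn rt.nonsing hx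
  have c : (l ^ 2 - ι RatFunc.X - e - e) * (ι RatFunc.X - e) =
      3 * e ^ 2 + (W.baseChange L).toAffine.a₄ := mul_right_cancel₀ (sub_ne_zero.2 hx) (by
    linear_combination (l * (ι RatFunc.X - e) + y) * hl + a + b)
  have tr : Transcendental F (l ^ 2 - ι RatFunc.X - e) := fun al => by
    have m1 := (mem_algebraicClosure_iff (F := F)).2 al
    have m2 : e ∈ algebraicClosure F L := mem_algebraicClosure_iff.2 ⟨_, EllH_f0 W, by
      rw [map_add, map_add, map_mul, map_pow, aeval_X, aeval_C, aeval_C]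
      exact b⟩
    have c0 := left_ne_zero_of_mul (c ▸ EllA_ns hs b.symm)
    have m3 : ι RatFunc.X ∈ algebraicClosure F L := by
      rw [← sub_add_cancel (ι RatFunc.X) e, eq_div_of_mul_eq c0 ((mul_comm _ _).trans c)]
      exact add_mem (div_mem (add_mem (mul_mem (natCast_mem _ 3) (pow_mem m2 2))
        (IntermediateField.algebraMap_mem _ W.a₄)) (sub_mem m1 m2)) m2
    obtain ⟨g, g0, hg⟩ := mem_algebraicClosure_iff.1 m3
    rw [← EllH_ev, map_eq_zero] at hg
    exact RatFunc.algebraMap_ne_zero g0 hg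
  obtain ⟨φ, hφ⟩ := EllH_phi tr
  obtain ⟨h'', q'⟩ := EllA_congr h' hφ.symm rfl
  have z1 := z L φ _ h''
  rw [← q', ← q, nsmul_add, z L ι y hn, zero_add, succ_nsmul, mul_nsmul,
    (hs.two_smul_zero _).2 rfl, nsmul_zero, zero_add] at z1
  exact Point.some_ne_zero _ z1

end

/-- multiplication by `p` on points with transcendental abscissa -/
def GenMul (p : ℕ) {F : Type} [Field F] (W : Affine F) (N Dn Mn Dm : F[X]) : Prop :=
  ∀ (M : Type) [Field M] [Algebra F M] (x y : M) (h : (W.baseChange M).toAffine.Nonsingular x y),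
    Transcendental F x → ∃ h', p • (Point.some x y h : (W.baseChange M).toAffine.Point) =
      Point.some (aeval (x ^ p) N / aeval (x ^ p) Dn)
        (y ^ p * aeval (x ^ p) Mn / aeval (x ^ p) Dm) h'

theorem gen_mul {p : ℕ} [Fact p.Prime] {F : Type} [Field F] [CharP F p] {W : Affine F} (h : SW W) :
    ∃ N Dn Mn Dm : F[X], Dn.Monic ∧ Dm.Monic ∧ IsCoprime N Dn ∧ IsCoprime Mn Dm ∧
      N.natDegree ≤ p ∧ Dn.natDegree ≤ p ∧ GenMul p W N Dn Mn Dm := by
  have hp : p.Prime := Fact.out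
  obtain ⟨k, hk⟩ := hp.eq_two_or_odd'.resolve_left fun e =>
    h.two (by have := CharP.cast_eq_zero F p; rwa [e] at this)
  obtain ⟨L, _, _, _, ι, D, hD⟩ := EllH_model F
  have hs := EllH_sw h L
  have : NeZero (2 : L) := ⟨hs.two⟩
  have := charP_of_injective_algebraMap (algebraMap F L).injective p
  obtain ⟨y, hy⟩ := IsSepClosed.exists_pow_nat_eq (ι (EllH_f W)) 2
  have hn := hs.nonsing (hy.trans (EllH_fe ι))
  have dc : ∀ c : F, D (algebraMap F L c) = 0 := fun c => by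
    have := hD (C c)
    rwa [derivative_C, map_zero, map_zero, EllH_ev, aeval_C] at this
  have dx : D (ι RatFunc.X) = 1 := by
    have := hD X
    rwa [derivative_X, map_one, map_one, RatFunc.algebraMap_X] at this
  have be : ∀ n : ℕ, D (xc (n • (Point.some _ y hn : (W.baseChange L).toAffine.Point))) /
      (2 * yc (n • (Point.some _ y hn : (W.baseChange L).toAffine.Point))) = n * (1 / (2 * y)) := by
    intro n
    induction n with
    | zero => exact (congrArg (· / _) (map_zero D)).trans (by simp)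
    | succ n ih =>
      rw [succ_nsmul, beta_add hs D (dc _) (dc _), ih, Nat.cast_succ, add_mul, one_mul, ← dx]
      rfl
  have nz : ∀ n, 0 < n → n ≤ p → ¬EllH_Z W n := fun n n0 np z => by
    rcases np.eq_or_lt with e | e
    · exact EllH_odd h hn k (hk ▸ e ▸ z)
    · have b := be n
      rw [z L ι y hn, show xc (0 : (W.baseChange L).toAffine.Point) = 0 from rfl, map_zero,
        zero_div] at b
      exact mul_ne_zero (fun c => Nat.not_dvd_of_pos_of_lt n0 e ((CharP.cast_eq_zero_iff L p n).1 c))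
        (one_div_ne_zero (mul_ne_zero hs.two (EllH_y h hn).2.1)) b.symm
  choose! r s hG using fun n n0 np => (EllH_ind h n).resolve_left (nz n n0 np)
  have ht : ∀ n, n + 2 ≤ p → EllH_ht (r (n + 2)) ≤ EllH_ht (r (n + 1)) + 2 * n + 3 ∧
      EllH_ht (r (n + 1)) ≤ (n + 1) ^ 2 := fun n => by
    induction n with
    | zero =>
      intro p2
      obtain ⟨_, e1⟩ := hG 1 one_pos (by omega) L ι y hn
      obtain ⟨_, e2⟩ := hG 2 two_pos p2 L ι y hn
      obtain ⟨r2, s2, g2, b⟩ := EllH_two h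
      obtain ⟨_, e3⟩ := g2 L ι y hn
      rw [one_nsmul] at e1
      have a : EllH_ht (RatFunc.X : RatFunc F) = 1 := by simp [EllH_ht]
      rw [← ι.injective (Point.some.inj e1).1, ι.injective (Point.some.inj (e2.symm.trans e3)).1]
      omega
    | succ n ih =>
      intro pn
      obtain ⟨i1, i2⟩ := ih (by omega)
      obtain ⟨_, e1⟩ := hG (n + 1) (by omega) (by omega) L ι y hn
      obtain ⟨_, e2⟩ := hG (n + 2) (by omega) (by omega) L ι y hn
      obtain ⟨_, e3⟩ := hG (n + 3) (by omega) pn L ι y hn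
      rw [succ_nsmul, e2] at e3
      rw [succ_nsmul, ← eq_add_neg_iff_add_eq, e1] at e2
      obtain ⟨c0, c1, c2⟩ := EllH_sp hs e3 e2.symm
      have inj : Function.Injective ι := ι.injective
      have := EllH_rec (a := W.a₄) (b := W.a₆) (u := r (n + 1)) (r := r (n + 2))
        (v := r (n + 3)) (fun e => c0 (congrArg ι e)) (inj ?_) (inj ?_)
      · show EllH_ht (r (n + 3)) ≤ EllH_ht (r (n + 2)) + _ + _ ∧ EllH_ht (r (n + 2)) ≤ _
        exact ⟨by omega, by nlinarith⟩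
      all_goals
        simp only [map_mul, map_add, map_sub, map_pow, map_ofNat, ← RatFunc.algebraMap_eq_C,
          AlgHom.commutes]
        assumption
  have p2 := hp.two_le
  obtain ⟨i1, i2⟩ := ht (p - 2) (by omega)
  have gp := hG p hp.pos le_rfl
  obtain ⟨h', e⟩ := gp L ι y hn
  obtain ⟨d1, d2⟩ := EllA_pt hs D (dc _) (dc _) (hs.eqn h')
  have b := be p
  rw [e, CharP.cast_eq_zero, zero_mul] at b
  have ys : ∀ (M : Type) [Field M] [Algebra F M] (φ : RatFunc F →ₐ[F] M) (y : M),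
      (W.baseChange M).toAffine.Nonsingular (φ RatFunc.X) y →
        y * φ (s p) = y ^ p * φ (s p / EllH_f W ^ k) := fun M _ _ φ y hn => by
    obtain ⟨a1, a2, -⟩ := EllH_y h hn
    rw [map_div₀, map_pow, ← a1, ← pow_mul, hk, pow_succ]
    field_simp
  rw [show D (ι (r p)) / (2 * (y * ι (s p))) = 0 from b, mul_zero] at d1 d2
  rw [ys L ι y hn, Derivation.leibniz, Derivation.leibniz_pow, nsmul_eq_mul, CharP.cast_eq_zero,
    zero_mul, smul_zero, add_zero, smul_eq_mul] at d2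
  obtain ⟨N, Dn, m1, c1, n1, q1⟩ := EllH_con (p := p) hD d1
  obtain ⟨Mn, Dm, m2, c2, -, q2⟩ := EllH_con (p := p) hD
    ((mul_eq_zero.1 d2).resolve_left (pow_ne_zero _ (EllH_y h hn).2.1))
  have n2 : max N.natDegree Dn.natDegree ≤ p := Nat.le_of_mul_le_mul_right (by
    obtain ⟨j, rfl⟩ := Nat.exists_eq_add_of_le' p2
    rw [Nat.add_sub_cancel] at i1 i2
    rw [n1]
    nlinarith) hp.pos
  refine ⟨N, Dn, Mn, Dm, m1, m2, c1, c2, (le_max_left _ _).trans n2, (le_max_right _ _).trans n2,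
    fun M _ _ x y hm tr => ?_⟩
  obtain ⟨φ, rfl⟩ := EllH_phi tr
  obtain ⟨h'', e'⟩ := gp M φ y hm
  rw [e']
  exact EllA_congr _ (q1 M φ) (by rw [ys M φ y hm, q2 M φ, mul_div_assoc])

end Pool.Agent.ASel
end

-- merged part: Pool.Agent.Work.MP_60d5ce_nt.AS.EllS
section
/-!
# Specialisation (step 3 of the plan in `EllV.lean`)

The places of `RatFunc M` are available for every field `M`: `av`, `Lv`, `Lb`, `nm` of `Loc.lean`, with
`v = some (X - C x)` or `v = none`; take `M1 = Lb v`, `X = tv M (Lb v)`.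
-/

namespace Pool.Agent.ASel

open WeierstrassCurve WeierstrassCurve.Affine Polynomial Pool.Agent.Quad
open scoped Classical

theorem EllS_place {M : Type} [Field M] (v : Smith.Pl M) :
    ∃ (M1 : Type) (_ : Field M1) (_ : Algebra M M1) (_ : IsAlgClosed M1) (w : AbsoluteValue M1 ℝ)
      (t : M1), IsNonarchimedean w ∧ (∀ c : M, c ≠ 0 → w (algebraMap M M1 c) = 1) ∧
      Transcendental M t ∧ ∀ g : M[X], w (aeval t g) = av v (algebraMap M[X] _ g) := by
  letI : Algebra M (Lb v) :=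
    ((algebraMap (RatFunc M) (Lb v)).comp (algebraMap M (RatFunc M))).toAlgebra
  haveI : IsScalarTower M (RatFunc M) (Lb v) := IsScalarTower.of_algebraMap_eq fun _ => rfl
  have key : ∀ g : M[X], nm v (aeval (tv M (Lb v)) g) = av v (algebraMap M[X] _ g) := fun g => by
    rw [tv, aeval_algebraMap_apply, nm_algK, RatFunc.aeval_X_left_eq_algebraMap]
  refine ⟨Lb v, inferInstance, inferInstance, inferInstance, nm v, tv M (Lb v), nm_na v,
    fun c hc => (nm_algK v _).trans (av_const v hc), ?_, key⟩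
  refine transcendental_iff.2 fun g hg => ?_
  have h1 := key g
  rw [hg, map_zero, eq_comm, AbsoluteValue.eq_zero] at h1
  exact (map_eq_zero_iff _ (IsFractionRing.injective M[X] (RatFunc M))).1 h1

theorem EllS_nsmul {M : Type} [Field M] {W : Affine M} {w : AbsoluteValue M ℝ} {ρ : ℝ} (h : SW W)
    (hs : Sz W w ρ) {P : W.Point} (hP : InE1 w ρ P) (n : ℕ) : InE1 w ρ (n • P) := by
  induction n with
  | zero => rw [zero_nsmul]; exact InE1.zero
  | succ n ih => rw [succ_nsmul]; exact InE1_add h hs ih hP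

section
variable {M M1 : Type} [Field M] [Field M1] {V : Affine M} {V1 : Affine M1}
  {s : V.Point →+ V1.Point} {f : M →+* M1} {w : AbsoluteValue M1 ℝ}

theorem EllS_le (hw : ∀ c, c ≠ 0 → w (f c) = 1) (c : M) : w (f c) ≤ 1 := by
  by_cases h : c = 0
  · simp [h]
  · exact (hw c h).le

theorem EllS_sz (hc : Cmp s f) (hV : SW V) (na : IsNonarchimedean w)
    (hw : ∀ c, c ≠ 0 → w (f c) = 1) :
    Sz V1 w 1 ∧ w (4 * V1.a₄ ^ 3 + 27 * V1.a₆ ^ 2) = 1 := by
  have h4 : V1.a₄ = f V.a₄ := by rw [← hc.map]; rfl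
  have h6 : V1.a₆ = f V.a₆ := by rw [← hc.map]; rfl
  refine ⟨⟨na, by simpa [map_ofNat] using hw 2 hV.two, by simpa [map_ofNat] using hw 3 hV.three,
    one_pos, by rw [h4, one_pow]; exact EllS_le hw _, by rw [h6, one_pow]; exact EllS_le hw _⟩, ?_⟩
  simpa [h4, h6, map_ofNat] using hw _ hV.disc

theorem EllS_const (hc : Cmp s f) (hw : ∀ c, c ≠ 0 → w (f c) = 1) {R : V.Point}
    (h : InE1 w 1 (s R)) : R = 0 := by
  rcases R with _ | ⟨x, y, hn⟩
  · rfl
  · obtain ⟨h', e⟩ := hc.pt x y hn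
    rw [e] at h
    exact absurd (show (1 : ℝ) ^ 2 < w (f x) from h) (by rw [one_pow]; exact (EllS_le hw x).not_gt)

theorem EllS_cub (hs : Sz V1 w 1) {a b : M1} (ha : w a ≤ 1) (hb : w b ≤ 1) (h : w (a - b) < 1) :
    w (a ^ 3 + V1.a₄ * a + V1.a₆ - (b ^ 3 + V1.a₄ * b + V1.a₆)) < 1 := by
  have e : a ^ 3 + V1.a₄ * a + V1.a₆ - (b ^ 3 + V1.a₄ * b + V1.a₆) =
      a ^ 3 - b ^ 3 + (a - b) * V1.a₄ := by ring
  rw [e]
  exact EllC.add_lt hs.na (EllC.pow_sub hs.na ha hb h 3)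
    (EllC.mul_lt h (by simpa using hs.a4))

theorem EllS_or {a b : M1} (h : w (a * b) < 1) : w a < 1 ∨ w b < 1 := by
  by_contra h1
  rw [not_or, not_lt, not_lt] at h1
  rw [map_mul] at h
  nlinarith [h1.1, h1.2]

theorem EllS_close (hc : Cmp s f) (hV : SW V) (na : IsNonarchimedean w)
    (hw : ∀ c, c ≠ 0 → w (f c) = 1) {R : V.Point} (hR : R ≠ 0) {r u : M1} (hn : V1.Nonsingular r u)
    (h : InE1 w 1 (Point.some r u hn - s R)) :
    w r ≤ 1 ∧ w (r - f (xc R)) < 1 ∧ w (u - f (yc R)) < 1 := by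
  have h1 := hc.sw hV
  obtain ⟨hs, hd⟩ := EllS_sz hc hV na hw
  have hr : w r ≤ 1 := by
    by_contra h2
    have h3 : InE1 w 1 (Point.some r u hn : V1.Point) := by
      change (1 : ℝ) ^ 2 < w r
      rw [one_pow]
      exact not_le.1 h2
    have h4 := InE1_add h1 hs h3 h.neg
    rw [neg_sub, add_sub_cancel] at h4
    exact hR (EllS_const hc hw h4)
  rcases R with _ | ⟨x, y, hx⟩
  · exact absurd rfl hR
  obtain ⟨h', e⟩ := hc.pt x y hx
  obtain ⟨h'', e'⟩ := h1.neg_some h'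
  have hu : w u ≤ 1 := by simpa using h1.w_y_le hs hn (by simpa using hr)
  have hy : w (f y) ≤ 1 := EllS_le hw y
  have hx' : w (f x) ≤ 1 := EllS_le hw x
  have k1 : w (r - f x) < 1 := by
    by_contra h2
    have h3 : w (r - f x) = 1 := le_antisymm (EllC.sub_le na hr hx') (not_lt.1 h2)
    have h4 : r ≠ f x := fun h5 => by simp [h5] at h3
    obtain ⟨l, hl, h5, e5⟩ := h1.EllA_add hn h'' h4
    rw [e, sub_eq_add_neg, e', e5] at h
    have h6 : w l ≤ 1 := by
      have h7 := congrArg w hl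
      rw [map_mul, h3, mul_one, sub_neg_eq_add] at h7
      exact h7 ▸ EllC.add_le na hu hy
    have h7 : w (l ^ 2 - r - f x) ≤ 1 :=
      EllC.sub_le na (EllC.sub_le na (by rw [map_pow]; exact pow_le_one₀ (w.nonneg _) h6) hr) hx'
    exact absurd (show (1 : ℝ) ^ 2 < w (l ^ 2 - r - f x) from h) (by rw [one_pow]; exact h7.not_gt)
  refine ⟨hr, k1, ?_⟩
  change w (u - f y) < 1
  have k2 : w ((u - f y) * (u - -f y)) < 1 := by
    have := EllS_cub hs hr hx' k1
    rw [← h1.eqn hn, ← h1.eqn h'] at this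
    rwa [show (u - f y) * (u - -f y) = u ^ 2 - f y ^ 2 by ring]
  refine (EllS_or k2).elim id fun k3 => ?_
  have k4 := h1.close hs hn h'' (by simpa using hr) (by simpa using hx') (by simpa [hd] using k1)
    (by simpa [hd] using k3)
  have k5 := InE1_add h1 hs k4 h.neg
  rw [← e', ← e, sub_neg_eq_add, neg_sub, add_comm (Point.some r u hn), add_add_sub_cancel, ← map_add, ← two_nsmul] at k5
  have k6 := (hV.two_smul_zero hx).1 (EllS_const hc hw k5)
  simpa [k6] using k3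

end

theorem spec_mul {p : ℕ} [Fact p.Prime] {F M : Type} [Field F] [Field M] [Algebra F M] [CharP M p]
    [IsAlgClosed M] {W : Affine F} (h : SW W) {N Dn Mn Dm : F[X]} (h1 : IsCoprime N Dn)
    (h2 : Dn ≠ 0) (h3 : Dm ≠ 0) (hg : GenMul p W N Dn Mn Dm) :
    Dn.natDegree < N.natDegree ∧
    (X ^ 3 + C (W.a₄ ^ p) * X + C (W.a₆ ^ p)) * Mn ^ 2 * Dn ^ 3 =
      (N ^ 3 + C W.a₄ * N * Dn ^ 2 + C W.a₆ * Dn ^ 3) * Dm ^ 2 ∧
    ∀ Q : (W.baseChange M).toAffine.Point, Q ≠ 0 → (p • Q = 0 ↔ aeval (xc Q ^ p) Dn = 0) ∧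
      (p • Q ≠ 0 → aeval (xc Q ^ p) Dm ≠ 0 →
        xc (p • Q) = aeval (xc Q ^ p) N / aeval (xc Q ^ p) Dn ∧
        yc (p • Q) = yc Q ^ p * aeval (xc Q ^ p) Mn / aeval (xc Q ^ p) Dm) := by
  have hp : p.Prime := Fact.out
  have sw : ∀ (K : Type) [Field K] [Algebra F K], SW (W.baseChange K).toAffine := fun K _ _ =>
    (exists_cmp W (algebraMap F K)).choose_spec.sw h
  have gen : ∀ v : Smith.Pl M, ∃ (M1 : Type) (_ : Field M1) (_ : Algebra M M1) (_ : Algebra F M1)
      (_ : IsScalarTower F M M1) (_ : CharP M1 p) (w : AbsoluteValue M1 ℝ) (t u : M1),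
      IsNonarchimedean w ∧ (∀ c : M, c ≠ 0 → w (algebraMap M M1 c) = 1) ∧ Transcendental F t ∧
      (∀ g : M[X], w (aeval t g) = av v (algebraMap M[X] _ g)) ∧
      u ^ 2 = t ^ 3 + (W.baseChange M1).a₄ * t + (W.baseChange M1).a₆ := fun v => by
    obtain ⟨M1, _, _, _, w, t, a1, a2, a3, a4⟩ := EllS_place v
    letI : Algebra F M1 := ((algebraMap M M1).comp (algebraMap F M)).toAlgebra
    haveI : IsScalarTower F M M1 := IsScalarTower.of_algebraMap_eq fun _ => rfl
    obtain ⟨u, hu⟩ := IsAlgClosed.exists_pow_nat_eq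
      (t ^ 3 + (W.baseChange M1).a₄ * t + (W.baseChange M1).a₆) two_pos
    exact ⟨M1, inferInstance, inferInstance, inferInstance, inferInstance,
      charP_of_injective_algebraMap (algebraMap M M1).injective p, w, t, u, a1, a2,
      a3.restrictScalars (algebraMap F M).injective, a4, hu⟩
  have ex : ∀ (M1 : Type) [Field M1] [Algebra M M1] [Algebra F M1] [IsScalarTower F M M1] (t : M1)
      (g : F[X]), aeval (t ^ p) g = aeval t (expand M p (g.map (algebraMap F M))) :=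
    fun M1 _ _ _ _ t g => by rw [expand_aeval, aeval_map_algebraMap]
  refine ⟨?_, ?_, ?_⟩
  · obtain ⟨M1, _, _, _, _, _, w, t, u, a1, a2, a3, a4, a5⟩ := gen none
    have hc := cmp_map W (IsScalarTower.toAlgHom F M M1)
    obtain ⟨hs, -⟩ := EllS_sz hc (sw M) a1 a2
    have hd : ∀ g : F[X], g ≠ 0 → w (aeval (t ^ p) g) = 2 ^ (g.natDegree * p) := fun g hg => by
      rw [ex, a4, av_inf ((expand_ne_zero hp.pos).2 (Polynomial.map_ne_zero hg)), natDegree_expand,
        natDegree_map]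
    have hn := (sw M1).nonsing a5
    have b1 : InE1 w 1 (Point.some t u hn : (W.baseChange M1).toAffine.Point) := by
      change (1 : ℝ) ^ 2 < w t
      have := a4 X
      rw [aeval_X, av_inf X_ne_zero, natDegree_X] at this
      rw [this]
      norm_num
    have b2 := EllS_nsmul (sw M1) hs b1 p
    obtain ⟨h', e⟩ := hg M1 t u hn a3
    rw [e] at b2
    have b3 : (1 : ℝ) ^ 2 < w (aeval (t ^ p) N / aeval (t ^ p) Dn) := b2
    have hN : N ≠ 0 := fun h0 => by
      rw [h0] at b3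
      norm_num at b3
    rw [map_div₀, hd N hN, hd Dn h2, one_pow, one_lt_div (by positivity),
      pow_lt_pow_iff_right₀ one_lt_two] at b3
    exact lt_of_mul_lt_mul_right b3 p.zero_le
  · obtain ⟨M1, _, _, _, _, _, w, t, u, -, -, a3, -, a5⟩ := gen none
    obtain ⟨h', -⟩ := hg M1 t u ((sw M1).nonsing a5) a3
    have b1 := (sw M1).eqn h'
    have a6 := transcendental_iff.1 (a3.pow hp.pos)
    have b2 : aeval (t ^ p) Dn ≠ 0 := fun h0 => h2 (a6 _ h0)
    have b3 : aeval (t ^ p) Dm ≠ 0 := fun h0 => h3 (a6 _ h0)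
    have h4 : (W.baseChange M1).a₄ = algebraMap F M1 W.a₄ := rfl
    have h6 : (W.baseChange M1).a₆ = algebraMap F M1 W.a₆ := rfl
    have b4 : (u ^ p) ^ 2 = (t ^ p) ^ 3 + algebraMap F M1 W.a₄ ^ p * t ^ p +
        algebraMap F M1 W.a₆ ^ p := by
      rw [← pow_mul, mul_comm, pow_mul, a5, add_pow_char, add_pow_char, mul_pow, ← pow_mul,
        mul_comm 3, pow_mul, h4, h6]
    refine sub_eq_zero.1 (a6 _ ?_)
    simp only [map_sub, map_mul, map_add, map_pow, aeval_X, aeval_C]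
    change _ = _ + algebraMap F M1 W.a₄ * _ + algebraMap F M1 W.a₆ at b1
    rw [← b4]
    field_simp at b1
    linear_combination b1
  · rintro (_ | ⟨x, y, hx⟩) hQ
    · exact absurd rfl hQ
    obtain ⟨M1, _, _, _, _, _, w, t, u, a1, a2, a3, a4, a5⟩ :=
      gen (some ⟨X - C x, monic_X_sub_C x, irreducible_X_sub_C x⟩)
    have hc := cmp_map W (IsScalarTower.toAlgHom F M M1)
    obtain ⟨hs, hd⟩ := EllS_sz hc (sw M) a1 a2
    have le : ∀ g : M[X], w (aeval t g) ≤ 1 := fun g => by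
      rw [a4]
      exact av_poly_le (by simp) g
    have lt : ∀ g : M[X], w (aeval t g) < 1 ↔ g.eval x = 0 := fun g => by
      rw [a4, av_poly_lt (by simp)]
      exact dvd_iff_isRoot
    have le' : ∀ g : F[X], w (aeval (t ^ p) g) ≤ 1 := fun g => by rw [ex]; exact le _
    have lin : ∀ (a b : M) (g g' : F[X]), w (algebraMap M M1 a * aeval (t ^ p) g -
        algebraMap M M1 b * aeval (t ^ p) g') < 1 → a * aeval (x ^ p) g = b * aeval (x ^ p) g' :=
      fun a b g g' h0 => by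
      have := (lt (C a * expand M p (g.map (algebraMap F M)) -
        C b * expand M p (g'.map (algebraMap F M)))).1 (by
          rwa [map_sub, map_mul, map_mul, aeval_C, aeval_C, ← ex, ← ex])
      simpa [sub_eq_zero, expand_eval, eval_map_algebraMap] using this
    have lt' : ∀ g : F[X], w (aeval (t ^ p) g) < 1 ↔ aeval (x ^ p) g = 0 := fun g => by
      rw [ex, lt, expand_eval, eval_map_algebraMap]
    have ht : w t ≤ 1 := by simpa using le X
    have htx : w (t - algebraMap M M1 x) < 1 := by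
      have := (lt (X - C x)).2 (by simp)
      rwa [map_sub, aeval_X, aeval_C] at this
    obtain ⟨hx1, e1⟩ := hc.pt x y hx
    have hx' := EllS_le a2 x
    obtain ⟨u, a5, hu⟩ : ∃ u : M1, u ^ 2 = t ^ 3 + (W.baseChange M1).a₄ * t + (W.baseChange M1).a₆ ∧
        w (u - algebraMap M M1 y) < 1 := by
      have k := EllS_cub hs ht hx' htx
      have k1 : algebraMap M M1 y ^ 2 = _ := (sw M1).eqn hx1
      erw [← a5, ← k1] at k
      rw [show u ^ 2 - algebraMap M M1 y ^ 2 = (u - algebraMap M M1 y) * -(-u - algebraMap M M1 y) by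
        ring] at k
      rcases EllS_or k with k2 | k2
      · exact ⟨u, a5, k2⟩
      · exact ⟨-u, by rw [neg_sq, a5], by rwa [w.map_neg] at k2⟩
    have hn := (sw M1).nonsing a5
    have b1 := (sw M1).close hs hn hx1 (by simpa using ht) (by simpa using hx')
      (by rw [hd]; simpa using htx) (by rw [hd]; simpa using hu)
    have b2 := EllS_nsmul (sw M1) hs b1 p
    obtain ⟨h', e⟩ := hg M1 t u hn a3
    rw [smul_sub, e, ← e1, ← map_nsmul] at b2
    have a6 := transcendental_iff.1 (a3.pow hp.pos)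
    have c2 : aeval (t ^ p) Dn ≠ 0 := fun h0 => h2 (a6 _ h0)
    have c3 : aeval (t ^ p) Dm ≠ 0 := fun h0 => h3 (a6 _ h0)
    have main : p • (Point.some x y hx : (W.baseChange M).toAffine.Point) ≠ 0 →
        aeval (x ^ p) Dn ≠ 0 ∧
        aeval (x ^ p) N = xc (p • Point.some x y hx) * aeval (x ^ p) Dn ∧
        y ^ p * aeval (x ^ p) Mn = yc (p • Point.some x y hx) * aeval (x ^ p) Dm := fun h0 => by
      obtain ⟨k1, k2, k3⟩ := EllS_close hc (sw M) a1 a2 h0 h' b2
      refine ⟨fun h5 => ?_, ?_, ?_⟩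
      · have k4 := EllC.mul_lt ((lt' _).2 h5) k1
        rw [mul_div_cancel₀ _ c2, lt'] at k4
        obtain ⟨a, b, hab⟩ := h1
        have := congrArg (aeval (x ^ p)) hab
        simp [k4, h5] at this
      · have k4 := EllC.mul_lt k2 (le' Dn)
        rw [sub_mul, div_mul_cancel₀ _ c2] at k4
        simpa using lin 1 _ N Dn (by simpa using k4)
      · have k4 := EllC.mul_lt k3 (le' Dm)
        rw [sub_mul, div_mul_cancel₀ _ c3] at k4
        have k5 : w (u ^ p - algebraMap M M1 y ^ p) < 1 := by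
          rw [← sub_pow_char, map_pow]
          exact pow_lt_one₀ (w.nonneg _) hu hp.ne_zero
        have k6 := EllC.sub_lt a1 k4 (EllC.mul_lt k5 (le' Mn))
        refine lin _ _ Mn Dm (lt_of_eq_of_lt (congrArg w ?_) k6)
        rw [map_pow]
        change _ = _ - algebraMap M M1 _ * _ - _
        ring
    refine ⟨⟨fun h0 => ?_, fun h5 => by_contra fun h0 => (main h0).1 h5⟩, fun h0 h5 => ?_⟩
    · rw [h0, map_zero, sub_zero] at b2
      have b3 : (1 : ℝ) ^ 2 < w (aeval (t ^ p) N / aeval (t ^ p) Dn) := b2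
      rw [map_div₀, one_pow, one_lt_div (w.pos c2)] at b3
      exact (lt' _).1 (b3.trans_le (le' N))
    · obtain ⟨k1, k2, k3⟩ := main h0
      exact ⟨((div_eq_iff k1).2 k2).symm, ((div_eq_iff h5).2 k3).symm⟩

end Pool.Agent.ASel
end

-- merged part: Pool.Agent.Work.MP_60d5ce_nt.AS.EllV
section
/-!
# Multiplication by `p` on an ordinary curve

PLAN (1, 2: `EllH.lean`; 3: `EllS.lean`; 4, 5: this file; consequences: `EllT.lean`).  Work over the field `F = S` (as a type) and the generic point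
`P = (X, Y)` of the curve over `F(X)[Y]` (inside an algebraic closure `M1` of `RatFunc M`).
1. `n P = (r_n(X), Y s_n(X))` with `r_n, s_n ∈ F(X)` (induction; `n P ≠ O` and `n P ≠ ± P` for `n ≥ 2`
   because of 3).  Height `d_n = max (deg num, deg den)` of `r_n`: `r_(n+1) r_(n-1)` and `r_(n+1) + r_(n-1)` are
   quotients of polynomials of bidegree `(2, 2)` in `(r_n, X)` (`addSubMap`), so
   `d_(n+1) + d_(n-1) ≤ 2 d_n + 2` and `d_n ≤ n ^ 2`.
2. `d/dX` kills the coefficients, `dx / 2 y` is additive (`beta_add`), so `r_p` and `Y s_p` are killed by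
   `d/dX`: `r_p = R(X ^ p)`, `Y s_p = Y ^ p S(X ^ p)`, `deg R ≤ p`, `f^(p)(X) S ^ 2 = f(R)`.
3. Specialisation: for a point `Q = (x, y)` over `M` take an absolute value on `M1`, trivial on `M`,
   with `|X - x| < 1`, `|Y - y| < 1` (the `(X - x)`-adic value, extended; change the sign of `Y`).  Then
   `P - Q ∈ E_1` (`SW.close`), `E_1` is a subgroup (`InE1.add`), so `n P - n Q ∈ E_1`: `r_n` has a pole at `x`
   iff `n Q = O`, and otherwise `n Q = (r_n(x), y s_n(x))`.  At infinity `P ∈ E_1`, so `r_p` has a pole.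
4. Poles of `R` at `x_t ^ p` have even order (`3 ord r = 2 ord s`; `y_t ≠ 0`), so counting poles
   `1 + 2 (|T| - 1) / 2 ≤ deg R ≤ p`; as `T ≠ 0`, `|T| = p`, `R = N / G ^ 2`, `G = ∏ (X - x_t ^ p)` over `T / ±`,
   `deg N = p`, `S = Mm / G ^ 3`, `deg Mm = (3 p - 3) / 2`, `f^(p) Mm ^ 2 = N ^ 3 + a N G ^ 4 + b G ^ 6`.
5. Differentiating, every root of `Mm` of order `m` is a root of order `≥ m` of `N' G - 2 N G'`, which
   has degree exactly `(3 p - 3) / 2`: `N' G - 2 N G' = c Mm`, `c ≠ 0`.  (`G` has coefficients in `S`: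
   `G ^ 2` is the monic denominator of `R`, `G = gcd (G ^ 2, (G ^ 2)')` up to a constant.)
`divp`: `N - x0 G ^ 2` has a root.  `tors_lev`: `x_t ^ p` is a simple root of `G`; `y` is a simple root of
`Y ^ 2 - f(x)` (or `0`).  `lev_of_p`: the `p` roots of `N - x0 G ^ 2` are the `x(Q + t) ^ p`, distinct unless
`2 p Q = 0`; in that case `Q ∈ ± p Q + T` and the points of order two have level `0`.
-/

namespace Pool.Agent.ASel

open WeierstrassCurve WeierstrassCurve.Affine Polynomial Pool.Agent.Quad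
open scoped Classical

variable {p : ℕ} [hp : Fact p.Prime] {M : Type} [Field M] [CharP M p] {W : Affine M}

variable [IsAlgClosed M] {A : M}

theorem EllV_sep {F : Type} [Field F] {a b : F} (h : 4 * a ^ 3 + 27 * b ^ 2 ≠ 0) :
    (X ^ 3 + C a * X + C b : F[X]).Separable := by
  have e : derivative (X ^ 3 + C a * X + C b : F[X]) = 3 * X ^ 2 + C a := by
    simp only [derivative_add, derivative_X_pow, derivative_C_mul_X, derivative_C, add_zero,
      Nat.cast_ofNat, map_ofNat]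
  have e1 : C (4 * a ^ 3 + 27 * b ^ 2)⁻¹ * (4 * C a ^ 3 + 27 * C b ^ 2 : F[X]) = 1 := by
    rw [← C_1, ← inv_mul_cancel₀ h]
    simp [map_ofNat]
  refine ⟨-(C (4 * a ^ 3 + 27 * b ^ 2)⁻¹ * (18 * C a * X - 27 * C b)),
    C (4 * a ^ 3 + 27 * b ^ 2)⁻¹ * (6 * C a * X ^ 2 - 9 * C b * X + 4 * C a ^ 2), ?_⟩
  rw [e]
  linear_combination e1

theorem EllV_sq {F : Type} [Field F] {φ N Dn Mn Dm : F[X]} {a b : F} (hφ : φ.Separable)
    (m1 : Dn.Monic) (m2 : Dm.Monic) (c1 : IsCoprime N Dn) (c2 : IsCoprime Mn Dm)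
    (c3 : IsCoprime φ Dn)
    (e : φ * Mn ^ 2 * Dn ^ 3 = (N ^ 3 + C a * N * Dn ^ 2 + C b * Dn ^ 3) * Dm ^ 2) :
    ∃ G : F[X], G.Monic ∧ Dn = G ^ 2 ∧ Dm = G ^ 3 := by
  have cE : IsCoprime (Dn ^ 3) (N ^ 3 + C a * N * Dn ^ 2 + C b * Dn ^ 3) := by
    refine IsCoprime.pow_left ?_
    rw [show N ^ 3 + C a * N * Dn ^ 2 + C b * Dn ^ 3 =
      N ^ 3 + Dn * (C a * N * Dn + C b * Dn ^ 2) by ring]
    exact c1.symm.pow_right.add_mul_left_right _
  obtain ⟨ψ, hψ⟩ : Dn ^ 3 ∣ Dm ^ 2 := cE.dvd_of_dvd_mul_left ⟨φ * Mn ^ 2, by rw [← e]; ring⟩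
  have h3 : Dn ^ 3 ≠ 0 := pow_ne_zero 3 m1.ne_zero
  have d1 : Dm ^ 2 ∣ φ * Dn ^ 3 :=
    (c2.symm.pow (m := 2) (n := 2)).dvd_of_dvd_mul_left ⟨_, by rw [mul_comm (Dm ^ 2), ← e]; ring⟩
  have d2 : ψ ∣ φ := by
    rw [hψ, mul_comm φ] at d1
    exact (mul_dvd_mul_iff_left h3).1 d1
  have mψ : ψ.Monic := (m1.pow 3).of_mul_monic_left (hψ ▸ m2.pow 2)
  have d3 : ψ ∣ Dm := ((hφ.squarefree.squarefree_of_dvd d2).dvd_pow_iff_dvd two_ne_zero).1
    ⟨Dn ^ 3, by rw [hψ, mul_comm]⟩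
  have d4 : ψ ∣ Dn ^ 3 := by
    have := pow_dvd_pow_of_dvd d3 2
    rw [hψ, sq] at this
    exact (mul_dvd_mul_iff_right mψ.ne_zero).1 this
  have u : ψ = 1 := mψ.eq_one_of_isUnit ((c3.pow_right (n := 3)).isUnit_of_dvd' d2 d4)
  rw [u, mul_one] at hψ
  obtain ⟨G, hG⟩ : Dn ∣ Dm := (UniqueFactorizationMonoid.pow_dvd_pow_iff_dvd two_ne_zero).1
    ⟨Dn, by rw [hψ]; ring⟩
  have e2 : Dn = G ^ 2 := mul_left_cancel₀ (pow_ne_zero 2 m1.ne_zero)
    (by rw [← mul_pow, ← hG, hψ]; ring)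
  exact ⟨G, m1.of_mul_monic_left (hG ▸ m2), e2, by rw [hG, e2]; ring⟩

theorem EllV_der {F : Type} [Field F] {φ N G Mn : F[X]} {a b : F}
    (hD : 4 * a ^ 3 + 27 * b ^ 2 ≠ 0) (c : IsCoprime Mn G)
    (e : φ * Mn ^ 2 = N ^ 3 + C a * N * G ^ 4 + C b * G ^ 6) :
    Mn ∣ derivative N * G - 2 * N * derivative G := by
  have e1 := congrArg derivative e
  simp only [derivative_add, derivative_mul, derivative_pow, derivative_C, Nat.cast_ofNat,
    map_ofNat, Nat.add_one_sub_one, pow_one, zero_mul, zero_add] at e1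
  have cK : IsCoprime Mn (3 * N ^ 2 + C a * G ^ 4) := by
    obtain ⟨u, v, huv⟩ := c.pow_right (n := 8)
    have e2 : C (4 * a ^ 3 + 27 * b ^ 2)⁻¹ * (4 * C a ^ 3 + 27 * C b ^ 2 : F[X]) = 1 := by
      rw [← C_1, ← inv_mul_cancel₀ hD]
      simp [map_ofNat]
    refine ⟨u - v * C (4 * a ^ 3 + 27 * b ^ 2)⁻¹ * (18 * C a * N - 27 * C b * G ^ 2) * φ * Mn,
      v * C (4 * a ^ 3 + 27 * b ^ 2)⁻¹ *
        (6 * C a * N ^ 2 - 9 * C b * N * G ^ 2 + 4 * C a ^ 2 * G ^ 4), ?_⟩
    linear_combination huv + v * G ^ 8 * e2 -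
      v * C (4 * a ^ 3 + 27 * b ^ 2)⁻¹ * (18 * C a * N - 27 * C b * G ^ 2) * e
  refine cK.dvd_of_dvd_mul_left ⟨G * (derivative φ * Mn + 2 * φ * derivative Mn) -
    6 * derivative G * φ * Mn, ?_⟩
  linear_combination 6 * derivative G * e - G * e1

theorem EllV_pt (h : SW W) (z : M) : ∃ P : W.Point, ∀ Q : W.Point, Q ≠ 0 → xc Q ^ p = z →
    Q = P ∨ Q = -P := by
  obtain ⟨x, rfl⟩ := IsAlgClosed.exists_pow_nat_eq z hp.out.pos
  obtain ⟨y, hy⟩ := IsAlgClosed.exists_pow_nat_eq (x ^ 3 + W.a₄ * x + W.a₆) two_pos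
  refine ⟨Point.some x y (h.nonsing hy), ?_⟩
  rintro (_ | ⟨x', y', hn⟩) h0 hx
  · exact (h0 rfl).elim
  · exact Point.X_eq_iff.1 (frobenius_inj M p hx)

theorem EllV_count (h : SW W) {R : Set M} (hR : R.Finite)
    (H : ∀ Q : W.Point, Q ≠ 0 → p • Q = 0 → xc Q ^ p ∈ R) (ex : ∃ t : W.Point, t ≠ 0 ∧ p • t = 0) :
    p ≤ Nat.card {t : W.Point // p • t = 0} ∧
      Nat.card {t : W.Point // p • t = 0} ≤ 2 * R.ncard + 1 := by
  choose P hP using EllV_pt (p := p) h
  have hs : {t : W.Point | p • t = 0} ⊆ insert 0 (P '' R ∪ (fun z => -P z) '' R) := fun t ht => by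
    rcases eq_or_ne t 0 with h0 | h0
    · exact Or.inl h0
    · exact Or.inr ((hP _ t h0 rfl).imp (fun e => ⟨_, H t h0 ht, e.symm⟩)
        fun e => ⟨_, H t h0 ht, e.symm⟩)
  have hf : (insert 0 (P '' R ∪ (fun z => -P z) '' R)).Finite :=
    ((hR.image _).union (hR.image _)).insert 0
  constructor
  · obtain ⟨t, t0, ht⟩ := ex
    let T : AddSubgroup W.Point := (nsmulAddMonoidHom p).ker
    have : Finite T := (hf.subset hs).to_subtype
    have h1 : addOrderOf (⟨t, ht⟩ : T) = p :=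
      addOrderOf_eq_prime (Subtype.ext ht) fun e => t0 (congrArg Subtype.val e)
    exact Nat.le_of_dvd (Nat.card_pos (α := T))
      (h1.symm.dvd.trans (addOrderOf_dvd_natCard (⟨t, ht⟩ : T)))
  · have h1 := (Set.ncard_le_ncard hs hf).trans (Set.ncard_insert_le _ _)
    have h2 := Set.ncard_union_le (P '' R) ((fun z => -P z) '' R)
    have h3 := Set.ncard_image_le (f := P) hR
    have h4 := Set.ncard_image_le (f := fun z => -P z) hR
    change Set.ncard {t : W.Point | p • t = 0} ≤ _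
    omega

theorem EllV_main {F : Type} [Field F] [CharP F p] [Algebra F M] {E : Affine F} (h : SW E)
    (h' : SW (E.baseChange M).toAffine)
    (ex : ∃ t : (E.baseChange M).toAffine.Point, t ≠ 0 ∧ p • t = 0) :
    ∃ (N G Mm : F[X]) (c : F),
      c ≠ 0 ∧ N.natDegree = p ∧ G.Monic ∧ 2 * G.natDegree + 1 = p ∧ G.Separable ∧ IsCoprime N G ∧
      derivative N * G - 2 * N * derivative G = C c * Mm ∧
      (X ^ 3 + C (E.a₄ ^ p) * X + C (E.a₆ ^ p)) * Mm ^ 2 =
        N ^ 3 + C E.a₄ * N * G ^ 4 + C E.a₆ * G ^ 6 ∧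
      Nat.card {t : (E.baseChange M).toAffine.Point // p • t = 0} = p ∧
      ∀ Q : (E.baseChange M).toAffine.Point, Q ≠ 0 → (p • Q = 0 ↔ aeval (xc Q ^ p) G = 0) ∧
        (p • Q ≠ 0 → xc (p • Q) = aeval (xc Q ^ p) N / aeval (xc Q ^ p) G ^ 2 ∧
        yc (p • Q) = yc Q ^ p * aeval (xc Q ^ p) Mm / aeval (xc Q ^ p) G ^ 3) := by
  obtain ⟨N, Dn, Mm, Dm, m1, m2, c1, c2, dN, -, hg⟩ := gen_mul (p := p) h
  obtain ⟨dlt, e, H⟩ := spec_mul (M := M) h c1 m1.ne_zero m2.ne_zero hg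
  have podd : Odd p := hp.out.odd_of_ne_two fun e2 => h.two (by
    simpa [e2] using CharP.cast_eq_zero F p)
  have hD : 4 * (E.a₄ ^ p) ^ 3 + 27 * (E.a₆ ^ p) ^ 2 ≠ 0 := by
    have := (map_ne_zero (frobenius F p)).2 h.disc
    simpa only [map_add, map_mul, map_pow, map_ofNat, frobenius_def] using this
  have c3 : IsCoprime (X ^ 3 + C (E.a₄ ^ p) * X + C (E.a₆ ^ p)) Dn := by
    refine (isCoprime_iff_aeval_ne_zero_of_isAlgClosed F M _ _).2 fun z => ?_
    by_contra hz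
    simp only [not_or, not_not] at hz
    obtain ⟨x, rfl⟩ := IsAlgClosed.exists_pow_nat_eq z hp.out.pos
    have h0 : (0 : M) ^ 2 = x ^ 3 + algebraMap F M E.a₄ * x + algebraMap F M E.a₆ := by
      apply frobenius_inj M p
      have := hz.1
      simp only [map_add, map_mul, map_pow, aeval_X, aeval_C] at this
      simp only [map_add, map_mul, map_pow, map_zero, frobenius_def, this, zero_pow two_ne_zero]
    have hn := h'.nonsing h0
    have h1 := (H _ (Point.some_ne_zero hn)).1.2 hz.2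
    have h2 := (h'.two_smul_zero hn).2 rfl
    obtain ⟨k, hk⟩ := podd
    rw [hk, add_smul, mul_comm, mul_smul, h2, smul_zero, zero_add, one_smul] at h1
    exact Point.some_ne_zero hn h1
  obtain ⟨G, mG, rfl, rfl⟩ := EllV_sq (EllV_sep hD) m1 m2 c1 c2 c3 e
  have G0 := mG.ne_zero
  have cN : IsCoprime N G := (IsCoprime.pow_right_iff two_pos).1 c1
  have cM : IsCoprime Mm G := (IsCoprime.pow_right_iff three_pos).1 c2
  have e1 : (X ^ 3 + C (E.a₄ ^ p) * X + C (E.a₆ ^ p)) * Mm ^ 2 =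
      N ^ 3 + C E.a₄ * N * G ^ 4 + C E.a₆ * G ^ 6 :=
    mul_right_cancel₀ (pow_ne_zero 6 G0) (by linear_combination e)
  have H1 : ∀ Q : (E.baseChange M).toAffine.Point, Q ≠ 0 →
      (p • Q = 0 ↔ aeval (xc Q ^ p) G = 0) := fun Q hQ => by
    rw [(H Q hQ).1, map_pow, pow_eq_zero_iff two_ne_zero]
  obtain ⟨k1, k2⟩ := EllV_count h' (G.rootSet_finite M)
    (fun Q hQ h0 => mem_rootSet.2 ⟨G0, (H1 Q hQ).1 h0⟩) ex
  have k3 := ncard_rootSet_le G M
  rw [natDegree_pow] at dlt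
  have sG : G.Separable := by
    refine (card_rootSet_eq_natDegree_iff_of_splits G0 (IsAlgClosed.splits (k := M) _)).1 ?_
    rw [← Nat.card_eq_fintype_card, Nat.card_coe_set_eq]
    omega
  have dN' : N.natDegree = p := by omega
  have dG : 2 * G.natDegree + 1 = p := by omega
  have p2 := hp.out.two_le
  obtain ⟨q, hq⟩ := EllV_der h.disc cM e1
  have H0 : derivative N * G - 2 * N * derivative G ≠ 0 := fun h0 => by
    have d1 : G ∣ C 2 * (N * derivative G) :=
      ⟨derivative N, by rw [map_ofNat]; linear_combination -h0⟩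
    have d2 := sG.dvd_of_dvd_mul_right (cN.symm.dvd_of_dvd_mul_left
      ((isUnit_C.2 h.two.isUnit).dvd_mul_left.1 d1) |>.trans (dvd_mul_left _ 1))
    have := natDegree_eq_zero_of_isUnit (isUnit_of_dvd_one d2)
    omega
  have dH : (derivative N * G - 2 * N * derivative G).natDegree ≤ 3 * G.natDegree := by
    have a1 := natDegree_derivative_le N
    have a2 := natDegree_derivative_le G
    have a3 := natDegree_mul_le (p := derivative N) (q := G)
    have a4 := natDegree_mul_le (p := 2 * N) (q := derivative G)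
    have a5 : (2 * N).natDegree ≤ N.natDegree := natDegree_C_mul_le (2 : F) N
    refine (natDegree_sub_le _ _).trans (max_le ?_ ?_) <;> omega
  have M0 : Mm ≠ 0 := fun h0 => H0 (by rw [hq, h0, zero_mul])
  have q0 : q ≠ 0 := fun h0 => H0 (by rw [hq, h0, mul_zero])
  have dM : Mm.natDegree = 3 * G.natDegree := by
    have mφ : (X ^ 3 + C (E.a₄ ^ p) * X + C (E.a₆ ^ p) : F[X]).IsMonicOfDegree 3 :=
      ⟨by compute_degree!, by monicity!⟩
    have a1 := congrArg natDegree e1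
    have a2 : (C E.a₄ * N * G ^ 4).natDegree < (N ^ 3).natDegree := by
      have b1 := natDegree_mul_le (p := C E.a₄ * N) (q := G ^ 4)
      have b2 := natDegree_C_mul_le E.a₄ N
      rw [natDegree_pow] at b1 ⊢
      omega
    have a3 : (C E.a₆ * G ^ 6).natDegree < (N ^ 3).natDegree := by
      have b2 := natDegree_C_mul_le E.a₆ (G ^ 6)
      rw [natDegree_pow] at b2 ⊢
      omega
    rw [add_assoc (N ^ 3), natDegree_add_eq_left_of_natDegree_lt
      ((natDegree_add_le _ _).trans_lt (max_lt a2 a3)),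
      natDegree_mul mφ.monic.ne_zero (pow_ne_zero 2 M0), mφ.natDegree_eq, natDegree_pow,
      natDegree_pow] at a1
    omega
  rw [hq, natDegree_mul M0 q0] at dH
  have hc : q = C (q.coeff 0) := eq_C_of_natDegree_eq_zero (by omega)
  refine ⟨N, G, Mm, q.coeff 0, fun h0 => q0 (by rw [hc, h0, C_0]), dN', mG, dG, sG, cN,
    by rw [hq, ← hc, mul_comm], e1, by omega, fun Q hQ => ⟨H1 Q hQ, fun h0 => ?_⟩⟩
  simpa only [map_pow] using (H Q hQ).2 h0
    (by rw [map_pow]; exact pow_ne_zero 3 fun h1 => h0 ((H1 Q hQ).2 h1))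

theorem vform (h : Ord p W A) (S : Subfield M) (h4 : W.a₄ ∈ S) (h6 : W.a₆ ∈ S) :
    ∃ (N G Mm : M[X]) (c : M), (∀ i, N.coeff i ∈ S ∧ G.coeff i ∈ S ∧ Mm.coeff i ∈ S) ∧ c ∈ S ∧
      c ≠ 0 ∧ N.natDegree = p ∧ G.Monic ∧ 2 * G.natDegree + 1 = p ∧ G.Separable ∧ IsCoprime N G ∧
      derivative N * G - 2 * N * derivative G = C c * Mm ∧
      (X ^ 3 + C (W.a₄ ^ p) * X + C (W.a₆ ^ p)) * Mm ^ 2 =
        N ^ 3 + C W.a₄ * N * G ^ 4 + C W.a₆ * G ^ 6 ∧
      Nat.card {t : W.Point // p • t = 0} = p ∧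
      ∀ Q : W.Point, Q ≠ 0 → (p • Q = 0 ↔ G.eval (xc Q ^ p) = 0) ∧ (p • Q ≠ 0 →
        xc (p • Q) = N.eval (xc Q ^ p) / G.eval (xc Q ^ p) ^ 2 ∧
        yc (p • Q) = yc Q ^ p * Mm.eval (xc Q ^ p) / G.eval (xc Q ^ p) ^ 3) := by
  obtain ⟨E, rfl⟩ : ∃ E : Affine S, W = (E.baseChange M).toAffine :=
    ⟨⟨0, 0, 0, ⟨_, h4⟩, ⟨_, h6⟩⟩, WeierstrassCurve.ext h.sw.a1 h.sw.a2 h.sw.a3 rfl rfl⟩
  have hi : Function.Injective (algebraMap S M) := (algebraMap S M).injective
  have hE : SW E := ⟨hi (h.sw.a1.trans (map_zero _).symm), hi (h.sw.a2.trans (map_zero _).symm),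
    hi (h.sw.a3.trans (map_zero _).symm), fun h0 => h.sw.disc (by
      simpa [map_ofNat] using congrArg (algebraMap S M) h0), fun h0 => h.sw.six (by
      simpa only [map_ofNat, map_zero] using congrArg (algebraMap S M) h0)⟩
  obtain ⟨N, G, Mm, c, c0, dN, mG, dG, sG, cN, e1, e2, hT, H⟩ := EllV_main hE h.sw h.ex
  refine ⟨N.map (algebraMap S M), G.map (algebraMap S M), Mm.map (algebraMap S M),
    algebraMap S M c, fun i => ?_, c.2, fun h0 => c0 (Subtype.ext h0), by rw [natDegree_map, dN], mG.map _,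
    by rw [natDegree_map, dG], sG.map, cN.map (mapRingHom (algebraMap S M)), ?_, ?_, hT, ?_⟩
  · simp only [coeff_map]
    exact ⟨(N.coeff i).2, (G.coeff i).2, (Mm.coeff i).2⟩
  · simpa [derivative_map] using congrArg (Polynomial.map (algebraMap S M)) e1
  · simpa using congrArg (Polynomial.map (algebraMap S M)) e2
  · simpa only [eval_map_algebraMap] using H

end Pool.Agent.ASel
end

-- merged part: Pool.Agent.Work.MP_60d5ce_nt.AS.EllT
section
/-!
# Consequences of the formula for multiplication by `p` (plan in the header of `EllV.lean`)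
-/

namespace Pool.Agent.ASel

open WeierstrassCurve WeierstrassCurve.Affine Polynomial Pool.Agent.Quad
open scoped Classical

variable {p : ℕ} [hp : Fact p.Prime] {M : Type} [Field M] [CharP M p] {W : Affine M}
  [IsAlgClosed M] {A : M}

omit hp [CharP M p] [IsAlgClosed M] in
theorem EllT_pm {P Q : W.Point} (hP : P ≠ 0) (hQ : Q ≠ 0) (e : xc P = xc Q) : P = Q ∨ P = -Q := by
  rcases P with _ | ⟨x, y, hn⟩
  · exact (hP rfl).elim
  rcases Q with _ | ⟨x', y', hn'⟩
  · exact (hQ rfl).elim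
  exact Point.X_eq_iff.1 e

omit [IsAlgClosed M] in
theorem EllT_mono {S : Subfield M} (k : ℕ) : Lev p S W 1 ≤ Lev p S W (k + 1) := by
  induction k with
  | zero => exact le_rfl
  | succ k ih => exact ih.trans (lev_mono _)

namespace Ord

variable (h : Ord p W A)
include h

theorem tors_card : Nat.card {t : W.Point // p • t = 0} = p := by
  obtain ⟨N, G, Mm, c, -, -, -, -, -, -, -, -, -, -, h1, -⟩ := vform h ⊤ trivial trivial
  exact h1

theorem tors_fin : {t : W.Point | p • t = 0}.Finite :=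
  Nat.finite_of_card_ne_zero (h.tors_card.trans_ne hp.out.ne_zero)

theorem tors_cyc {t0 t : W.Point} (h0 : t0 ≠ 0) (h1 : p • t0 = 0) (ht : p • t = 0) :
    ∃ m : ℕ, t = m • t0 := by
  obtain ⟨m, hm⟩ := mem_multiples_of_prime_card (G := (nsmulAddMonoidHom p : W.Point →+ W.Point).ker)
    h.tors_card (g := ⟨t0, h1⟩) (g' := ⟨t, ht⟩) fun e => h0 (congrArg Subtype.val e)
  exact ⟨m, (congrArg Subtype.val hm).symm⟩

theorem divp (P : W.Point) : ∃ Q, p • Q = P := by
  by_cases hP : P = 0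
  · exact ⟨0, by rw [hP, nsmul_zero]⟩
  obtain ⟨N, G, Mm, c, -, -, -, hN, -, hG, -, hco, -, -, -, H⟩ := vform h ⊤ trivial trivial
  have h1 : (C (xc P) * G ^ 2).natDegree < N.natDegree :=
    (natDegree_C_mul_le _ _).trans_lt (natDegree_pow_le.trans_lt (by omega))
  obtain ⟨z, hz⟩ := IsAlgClosed.exists_root (N - C (xc P) * G ^ 2) (natDegree_pos_iff_degree_pos.1 (by
    rw [natDegree_sub_eq_left_of_natDegree_lt h1, hN]
    exact hp.out.pos)).ne'
  rw [IsRoot, eval_sub, eval_mul, eval_C, eval_pow, sub_eq_zero] at hz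
  obtain ⟨x, rfl⟩ := IsAlgClosed.exists_pow_nat_eq z hp.out.pos
  obtain ⟨y, hy⟩ := IsAlgClosed.exists_pow_nat_eq (x ^ 3 + W.a₄ * x + W.a₆) two_pos
  have hG0 : G.eval (x ^ p) ≠ 0 := fun e => by
    obtain ⟨u, v, huv⟩ := hco
    have := congrArg (eval (x ^ p)) huv
    rw [eval_add, eval_mul, eval_mul, hz, e, eval_one] at this
    simp at this
  obtain ⟨h2, h3⟩ := H (.some x y (h.sw.nonsing hy)) (Point.some_ne_zero _)
  have h4 := mt h2.1 hG0
  rcases EllT_pm h4 hP ((h3 h4).1.trans (by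
    change N.eval (x ^ p) / G.eval (x ^ p) ^ 2 = _
    rw [hz, mul_div_cancel_right₀ _ (pow_ne_zero 2 hG0)])) with e | e
  · exact ⟨_, e⟩
  · exact ⟨-_, by rw [smul_neg, e, neg_neg]⟩

theorem tors_surj {M' : Type} [Field M'] [CharP M' p] [IsAlgClosed M'] {W' : Affine M'}
    {s : W.Point →+ W'.Point} {f : M →+* M'} (hs : Cmp s f) (n : ℕ) {t' : W'.Point}
    (ht : p ^ n • t' = 0) : ∃ t, s t = t' := by
  induction n generalizing t' with
  | zero => exact ⟨0, by rw [map_zero, ← ht, pow_zero, one_nsmul]⟩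
  | succ n ih =>
    obtain ⟨a, ha⟩ := ih (t' := p • t') (by rw [← mul_nsmul', ← pow_succ, ht])
    obtain ⟨b, rfl⟩ := h.divp a
    obtain ⟨t0, h0, h1⟩ := h.ex
    obtain ⟨m, hm⟩ := (hs.ord h).tors_cyc (t0 := s t0) (t := t' - s b)
      (fun e => h0 (hs.inj (e.trans s.map_zero.symm))) (by rw [← map_nsmul, h1, map_zero])
      (by rw [smul_sub, ← ha, map_nsmul, sub_self])
    exact ⟨m • t0 + b, by rw [map_add, map_nsmul, ← hm, sub_add_cancel]⟩

variable {S : Subfield M} {t : M} (hS : SC p S t) (h4 : W.a₄ ∈ S) (h6 : W.a₆ ∈ S)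
include hS h4 h6

theorem lev_of_x {k : ℕ} {P : W.Point} (hP : xc P ^ p ^ k ∈ S) : P ∈ Lev p S W k := by
  rcases P with _ | ⟨x, y, hn⟩
  · exact (Lev p S W k).zero_mem
  refine (mem_lev h.sw h4).2 ⟨hP, ?_⟩
  change y ^ p ^ k ∈ S
  replace hP : x ^ p ^ k ∈ S := hP
  have h1 : (y ^ p ^ k) ^ 2 ∈ S := by
    rw [← pow_mul, mul_comm, pow_mul, h.sw.eqn hn, add_pow_char_pow, add_pow_char_pow, mul_pow,
      ← pow_mul, mul_comm 3, pow_mul]
    exact add_mem (add_mem (pow_mem hP 3) (mul_mem (pow_mem h4 _) hP)) (pow_mem h6 _)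
  by_cases h0 : y ^ p ^ k = 0
  · exact h0 ▸ zero_mem S
  refine hS.2 _ (X ^ 2 - C ((y ^ p ^ k) ^ 2)) (fun i => ?_) (by simp) ?_
  · rw [coeff_sub, coeff_X_pow, coeff_C]
    exact sub_mem (by split_ifs; exacts [one_mem S, zero_mem S])
      (by split_ifs; exacts [h1, zero_mem S])
  · rw [derivative_sub, derivative_C, sub_zero, derivative_X_sq, eval_mul, eval_C, eval_X]
    exact mul_ne_zero h.sw.two h0

theorem tors_lev {P : W.Point} (hP : p • P = 0) : P ∈ Lev p S W 1 := by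
  by_cases h0 : P = 0
  · exact h0 ▸ zero_mem _
  obtain ⟨N, G, Mm, c, hc, -, -, -, -, -, hG, -, -, -, -, H⟩ := vform h S h4 h6
  have h1 := (H P h0).1.1 hP
  refine h.lev_of_x hS h4 h6 ?_
  rw [pow_one]
  exact hS.2 _ G (fun i => (hc i).2.1) h1 (hG.eval₂_derivative_ne_zero (RingHom.id M) h1)

theorem lev_of_p {k : ℕ} {Q : W.Point} (hQ : p • Q ∈ Lev p S W k) : Q ∈ Lev p S W (k + 1) := by
  by_cases h0 : p • Q = 0
  · exact EllT_mono k (h.tors_lev hS h4 h6 h0)
  obtain ⟨N, G, Mm, c, hc, -, c0, -, -, hG, -, -, hD, -, -, H⟩ := vform h S h4 h6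
  by_cases h2 : 2 • p • Q = 0
  · have h3 : p • (Q - p • Q) = 0 := by
      rw [smul_sub, sub_eq_zero]
      nth_rewrite 2 [← hG]
      rw [add_nsmul, one_nsmul, mul_nsmul, h2, nsmul_zero, zero_add]
    have h5 := add_mem (EllT_mono k (h.tors_lev hS h4 h6 h3)) (lev_mono k hQ)
    rwa [sub_add_cancel] at h5
  obtain ⟨h3, h5⟩ := H Q fun e => h0 (by rw [e, nsmul_zero])
  obtain ⟨hx, hy⟩ := h5 h0
  have hG0 := mt h3.2 h0
  have hM : Mm.eval (xc Q ^ p) ≠ 0 := fun e => h2 (by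
    rw [e, mul_zero, zero_div] at hy
    generalize p • Q = P at hy
    rcases P with _ | ⟨x, y, hn⟩
    · exact nsmul_zero 2
    · exact (h.sw.two_smul_zero hn).2 hy)
  have hN : N.eval (xc Q ^ p) = xc (p • Q) * G.eval (xc Q ^ p) ^ 2 := by
    rw [hx, div_mul_cancel₀ _ (pow_ne_zero 2 hG0)]
  refine h.lev_of_x hS h4 h6 ?_
  rw [pow_succ', pow_mul]
  let φ := iterateFrobenius M p k
  refine hS.2 (φ (xc Q ^ p)) ((N - C (xc (p • Q)) * G ^ 2).map φ) (fun i => ?_) ?_ ?_
  · rw [coeff_map, coeff_sub, coeff_C_mul, map_sub, map_mul, sq, coeff_mul]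
    exact sub_mem (pow_mem (hc i).1 _) (mul_mem ((mem_lev h.sw h4).1 hQ).1 (pow_mem
      (sum_mem fun j _ => mul_mem (hc _).2.1 (hc _).2.1) _))
  · rw [eval_map, eval₂_hom, eval_sub, eval_mul, eval_C, eval_pow, hN, sub_self, map_zero]
  · rw [derivative_map, eval_map, eval₂_hom, _root_.map_ne_zero]
    intro e
    have h7 := congrArg (eval (xc Q ^ p)) hD
    simp only [derivative_sub, derivative_mul, derivative_C, derivative_sq, eval_sub, eval_mul,
      eval_add, eval_C, eval_zero, eval_ofNat, zero_mul, zero_add] at e h7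
    refine mul_ne_zero c0 hM ?_
    rw [← h7, hN]
    linear_combination G.eval (xc Q ^ p) * e

end Ord

end Pool.Agent.ASel
end

-- merged part: Pool.Agent.Work.MP_60d5ce_nt.AS.EllK
section
/-!
# The slope is a 2-cocycle (plan in the header of `EllC.lean`)
-/

namespace Pool.Agent.ASel

open WeierstrassCurve WeierstrassCurve.Affine Polynomial Pool.Agent.Quad
open scoped Classical

variable {M : Type} [Field M] {W : Affine M}

theorem EllK_sqrt (h : SW W) : ∃ s : PowerSeries M,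
    s ^ 2 = 1 + PowerSeries.C W.a₄ * PowerSeries.X ^ 4 + PowerSeries.C W.a₆ * PowerSeries.X ^ 6 ∧
      PowerSeries.coeff 0 s = 1 ∧ PowerSeries.coeff 1 s = 0 := by
  obtain ⟨s, hs, h1⟩ := (IsAdicComplete.henselianRing (PowerSeries M)
      (Ideal.span {PowerSeries.X})).is_henselian (X ^ 2 - C (1 + PowerSeries.C W.a₄ *
      PowerSeries.X ^ 4 + PowerSeries.C W.a₆ * PowerSeries.X ^ 6))
      (monic_X_pow_sub_C _ two_ne_zero) 1
      (by
        rw [Ideal.mem_span_singleton, PowerSeries.X_dvd_iff]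
        simp)
      (by
        refine IsUnit.map _ ?_
        rw [PowerSeries.isUnit_iff_constantCoeff, derivative_sub, derivative_C]
        simpa [one_add_one_eq_two, map_ofNat] using h.two)
  rw [Ideal.mem_span_singleton, PowerSeries.X_dvd_iff, map_sub, map_one, sub_eq_zero,
    ← PowerSeries.coeff_zero_eq_constantCoeff_apply] at h1
  rw [IsRoot.def, eval_sub, eval_pow, eval_X, eval_C, sub_eq_zero] at hs
  refine ⟨s, hs, h1, ?_⟩
  have h2 := congrArg (PowerSeries.coeff 1) hs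
  rw [sq, PowerSeries.coeff_one_mul, ← PowerSeries.coeff_zero_eq_constantCoeff_apply, h1] at h2
  simp only [map_add, PowerSeries.coeff_C_mul, PowerSeries.coeff_X_pow, PowerSeries.coeff_one]
    at h2
  norm_num at h2
  exact (mul_eq_zero.1 (by linear_combination h2 : 2 * PowerSeries.coeff 1 s = 0)).resolve_left
    h.two

theorem EllK_unit {w : W.CoordinateRing} (hw : IsUnit w) :
    ∃ k : M, k ≠ 0 ∧ w = CoordinateRing.mk W (C (C k)) := by
  obtain ⟨p, q, rfl⟩ := CoordinateRing.exists_smul_basis_eq w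
  have h1 := degree_eq_zero_of_isUnit (hw.map (Algebra.norm M[X]))
  rw [CoordinateRing.degree_norm_smul_basis] at h1
  have hq : q = 0 := by
    by_contra hq
    have h2 := (le_max_right _ _).trans h1.le
    rw [degree_eq_natDegree hq] at h2
    norm_cast at h2
  subst hq
  have hp : p ≠ 0 := by
    rintro rfl
    simp at h1
  have h2 := (le_max_left _ _).trans h1.le
  rw [degree_eq_natDegree hp] at h2
  have h3 : p.natDegree = 0 := by
    by_contra h4
    obtain ⟨n, hn⟩ := Nat.exists_eq_succ_of_ne_zero h4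
    rw [hn] at h2
    exact absurd h2 (not_le.2 (WithBot.coe_lt_coe.2 (Nat.succ_pos _)))
  rw [eq_C_of_natDegree_eq_zero h3] at hp ⊢
  refine ⟨p.coeff 0, fun h0 => hp (by rw [h0, C_0]), ?_⟩
  rw [zero_smul, add_zero, CoordinateRing.smul, mul_one]

theorem EllK_le {A B : PowerSeries M} {d e : ℕ} (hA : PowerSeries.coeff 0 A ≠ 0)
    (h : A * PowerSeries.X ^ d = B * PowerSeries.X ^ e) : e ≤ d := by
  by_contra h0
  have h1 := congrArg (PowerSeries.coeff d) h
  rw [PowerSeries.coeff_mul_X_pow', PowerSeries.coeff_mul_X_pow', if_pos le_rfl, if_neg h0,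
    Nat.sub_self] at h1
  exact hA h1

/-- the second coefficient of the expansion at infinity -/
theorem EllK_top (h : SW W) : ∃ T : W.CoordinateRing → M → Prop,
    (∀ u v c c', T u c → T v c' → T (u * v) (c + c')) ∧ T 1 0 ∧
      (∀ x, T (CoordinateRing.XClass W x) 0) ∧
      (∀ x y l, T (CoordinateRing.YClass W (linePolynomial x y l)) (-l)) ∧
      ∀ u v c c', T u c → T v c' → Associated u v → c = c' := by
  obtain ⟨s, hs, s0, s1⟩ := EllK_sqrt h
  obtain ⟨ι, hι⟩ : ∃ ι : PowerSeries M →+* FractionRing (PowerSeries M), Function.Injective ι :=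
    ⟨algebraMap _ _, IsFractionRing.injective _ _⟩
  obtain ⟨z, hz⟩ : ∃ z, z = ι PowerSeries.X := ⟨_, rfl⟩
  have z0 : z ≠ 0 := hz ▸ (map_ne_zero_iff ι hι).2 PowerSeries.X_ne_zero
  have hs' := congrArg ι hs
  simp only [map_add, map_mul, map_pow, map_one, ← hz] at hs'
  obtain ⟨φ, hφ⟩ : ∃ φ : W.CoordinateRing →+* FractionRing (PowerSeries M), ∀ f,
      φ (CoordinateRing.mk W f) = f.eval₂ (eval₂RingHom (ι.comp PowerSeries.C) (z⁻¹ ^ 2))
        (ι s * z⁻¹ ^ 3) := by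
    refine ⟨AdjoinRoot.lift _ _ ?_, fun f => AdjoinRoot.lift_mk _ f⟩
    simp only [Affine.polynomial, h.a1, h.a2, h.a3, eval₂_add, eval₂_sub, eval₂_mul, eval₂_pow,
      eval₂_X, eval₂_C, coe_eval₂RingHom, map_zero, RingHom.comp_apply, eval₂_zero]
    field_simp
    linear_combination hs'
  refine ⟨fun u c => ∃ (d : ℕ) (A : PowerSeries M), φ u * z ^ d = ι A ∧
    PowerSeries.coeff 0 A = 1 ∧ PowerSeries.coeff 1 A = c, ?_, ⟨0, 1, by simp, by simp, by simp
      [PowerSeries.coeff_one]⟩, fun x => ?_, fun x y l => ?_, ?_⟩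
  · rintro u v c c' ⟨d, A, a1, a2, a3⟩ ⟨e, B, b1, b2, b3⟩
    rw [PowerSeries.coeff_zero_eq_constantCoeff_apply] at a2 b2
    refine ⟨d + e, A * B, by rw [map_mul, map_mul, ← a1, ← b1]; ring, ?_, ?_⟩
    · rw [PowerSeries.coeff_zero_eq_constantCoeff_apply, map_mul, a2, b2, mul_one]
    · rw [PowerSeries.coeff_one_mul, a2, b2, a3, b3]
      ring
  · refine ⟨2, 1 - PowerSeries.C x * PowerSeries.X ^ 2, ?_, by simp, by simp
      [PowerSeries.coeff_one, PowerSeries.coeff_X_pow]⟩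
    rw [CoordinateRing.XClass, hφ]
    simp only [eval₂_sub, eval₂_X, eval₂_C, coe_eval₂RingHom, RingHom.comp_apply, map_sub, map_mul,
      map_pow, map_one, ← hz]
    field_simp
  · refine ⟨3, s - PowerSeries.C l * PowerSeries.X + PowerSeries.C (l * x - y) * PowerSeries.X ^ 3,
      ?_, ?_, ?_⟩
    · rw [CoordinateRing.YClass, hφ]
      simp only [linePolynomial, eval₂_sub, eval₂_add, eval₂_mul, eval₂_X, eval₂_C,
        coe_eval₂RingHom, RingHom.comp_apply, map_sub, map_add, map_mul, map_pow, ← hz]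
      field_simp
      ring
    · simp only [map_add, map_sub (PowerSeries.coeff 0), PowerSeries.coeff_C_mul, s0,
        PowerSeries.coeff_X_pow, PowerSeries.coeff_X]
      simp
    · simp only [map_add, map_sub (PowerSeries.coeff 1), PowerSeries.coeff_C_mul, s1,
        PowerSeries.coeff_X_pow, PowerSeries.coeff_X]
      simp
  · rintro u v c c' ⟨d, A, a1, a2, a3⟩ ⟨e, B, b1, b2, b3⟩ ⟨w, rfl⟩
    obtain ⟨k, k0, hk⟩ := EllK_unit w.isUnit
    rw [map_mul, hk, hφ, eval₂_C, coe_eval₂RingHom, eval₂_C, RingHom.comp_apply] at b1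
    have h1 : B * PowerSeries.X ^ d = (PowerSeries.C k * A) * PowerSeries.X ^ e := hι (by
      simp only [map_mul, map_pow, ← hz, ← a1, ← b1]
      ring)
    obtain rfl : d = e := le_antisymm
      (EllK_le (by rw [PowerSeries.coeff_C_mul, a2, mul_one]; exact k0) h1.symm)
      (EllK_le (by rw [b2]; exact one_ne_zero) h1)
    obtain rfl := mul_right_cancel₀ (pow_ne_zero d PowerSeries.X_ne_zero) h1
    rw [PowerSeries.coeff_C_mul] at b2 b3
    rw [a2, mul_one] at b2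
    rw [← a3, ← b3, b2, one_mul]

/-- the ideal of a point -/
noncomputable def EllK_mI : W.Point → Ideal W.CoordinateRing
  | .zero => ⊤
  | .some x y _ => CoordinateRing.XYIdeal W x (C y)

theorem EllK_inv (S : W.Point) : ∃ (J : Ideal W.CoordinateRing) (e : W.CoordinateRing), e ≠ 0 ∧
    J * EllK_mI S = Ideal.span {e} := by
  rcases S with _ | ⟨x, y, hn⟩
  · exact ⟨⊤, 1, one_ne_zero, by rw [EllK_mI, Ideal.top_mul, Ideal.span_singleton_one]⟩
  · exact ⟨_, _, CoordinateRing.XClass_ne_zero x, CoordinateRing.XYIdeal_neg_mul hn⟩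

theorem EllK_pair {T : W.CoordinateRing → M → Prop} (h1 : T 1 0)
    (hx : ∀ x, T (CoordinateRing.XClass W x) 0)
    (hy : ∀ x y l, T (CoordinateRing.YClass W (linePolynomial x y l)) (-l)) (P Q : W.Point) :
    ∃ g g', T g (-slp P Q) ∧ T g' 0 ∧ Ideal.span {g'} * (EllK_mI P * EllK_mI Q) =
      Ideal.span {g} * EllK_mI (P + Q) := by
  rcases P with _ | ⟨x, y, hn⟩
  · refine ⟨1, 1, by rw [show slp Point.zero Q = 0 from rfl, neg_zero]; exact h1, h1, ?_⟩
    rw [EllK_mI, Ideal.top_mul, ← Point.zero_def, zero_add]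
  rcases Q with _ | ⟨x', y', hm⟩
  · refine ⟨1, 1, by rw [show slp (Point.some x y hn) Point.zero = 0 from rfl, neg_zero]; exact h1,
      h1, ?_⟩
    rw [← Point.zero_def, add_zero, Point.zero_def, show EllK_mI (Point.zero : W.Point) = ⊤ from rfl,
      Ideal.mul_top]
  by_cases hxy : x = x' ∧ y = W.negY x' y'
  · obtain ⟨rfl, rfl⟩ := hxy
    refine ⟨CoordinateRing.XClass W x, 1, ?_, h1, ?_⟩
    · rw [slp, slope_of_Y_eq rfl rfl, neg_zero]
      exact hx x
    · rw [Point.add_of_Y_eq rfl rfl, Point.zero_def, show EllK_mI (Point.zero : W.Point) = ⊤ from rfl,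
        Ideal.mul_top, Ideal.span_singleton_one, Ideal.top_mul]
      exact CoordinateRing.XYIdeal_neg_mul hm
  · rw [Point.add_some hxy]
    exact ⟨_, _, hy _ _ _, hx _, CoordinateRing.XYIdeal_mul_XYIdeal hn.1 hm.1 hxy⟩

theorem slp_cocycle (h : SW W) (P Q R : W.Point) :
    slp P Q + slp (P + Q) R = slp Q R + slp P (Q + R) := by
  obtain ⟨T, hm, h1, hx, hy, hu⟩ := EllK_top h
  obtain ⟨g1, f1, a1, b1, c1⟩ := EllK_pair h1 hx hy P Q
  obtain ⟨g2, f2, a2, b2, c2⟩ := EllK_pair h1 hx hy (P + Q) R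
  obtain ⟨g3, f3, a3, b3, c3⟩ := EllK_pair h1 hx hy Q R
  obtain ⟨g4, f4, a4, b4, c4⟩ := EllK_pair h1 hx hy P (Q + R)
  obtain ⟨J, e, e0, he⟩ := EllK_inv (P + Q + R)
  rw [← add_assoc] at c4
  have key : Ideal.span {f3 * f4 * (g1 * g2) * e} = Ideal.span {f1 * f2 * (g3 * g4) * e} := by
    simp only [← Ideal.span_singleton_mul_span_singleton, ← he]
    generalize Ideal.span {f1} = F1, Ideal.span {f2} = F2, Ideal.span {f3} = F3,
      Ideal.span {f4} = F4, Ideal.span {g1} = G1, Ideal.span {g2} = G2, Ideal.span {g3} = G3,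
      Ideal.span {g4} = G4 at *
    calc _ = F3 * F4 * G1 * J * (G2 * EllK_mI (P + Q + R)) := by ring
      _ = F3 * F4 * F2 * J * EllK_mI R * (G1 * EllK_mI (P + Q)) := by rw [← c2]; ring
      _ = F1 * F2 * F4 * J * EllK_mI P * (F3 * (EllK_mI Q * EllK_mI R)) := by rw [← c1]; ring
      _ = F1 * F2 * G3 * J * (F4 * (EllK_mI P * EllK_mI (Q + R))) := by rw [c3]; ring
      _ = _ := by rw [c4]; ring
  have h2 := hu _ _ _ _ (hm _ _ _ _ (hm _ _ _ _ b3 b4) (hm _ _ _ _ a1 a2))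
    (hm _ _ _ _ (hm _ _ _ _ b1 b2) (hm _ _ _ _ a3 a4))
    ((Ideal.span_singleton_eq_span_singleton.1 key).of_mul_right (Associated.refl e) e0)
  linear_combination -h2

theorem slp_neg (h : SW W) (P Q : W.Point) : slp (-P) (-Q) = -slp P Q := by
  rcases P with _ | ⟨x, y, hn⟩
  · exact neg_zero.symm
  rcases Q with _ | ⟨x', y', hm⟩
  · exact neg_zero.symm
  change W.slope x x' (W.negY x y) (W.negY x' y') = -W.slope x x' y y'
  simp only [Affine.slope, h.negY_eq, h.a1, neg_inj]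
  split_ifs
  · exact neg_zero.symm
  · rw [← div_neg]
    ring
  · ring

theorem slp_comm (h : SW W) (P Q : W.Point) : slp P Q = slp Q P := by
  rcases P with _ | ⟨x, y, hn⟩ <;> rcases Q with _ | ⟨x', y', hm⟩
  any_goals rfl
  change W.slope x x' y y' = W.slope x' x y' y
  by_cases hx : x = x'
  · subst hx
    by_cases hy : y = W.negY x y'
    · rw [slope_of_Y_eq rfl hy, slope_of_Y_eq rfl (by rw [hy, negY_negY])]
    · rw [Y_eq_of_Y_ne hn.1 hm.1 rfl hy]
  · rw [slope_of_X_ne hx, slope_of_X_ne (Ne.symm hx), ← neg_div_neg_eq, neg_sub, neg_sub]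

end Pool.Agent.ASel
end

-- merged part: Pool.Agent.Work.MP_60d5ce_nt.AS.EllC
section
/-!
# The slope cocycle and the functions `zz`, `ww`

PLAN `slp_cocycle`.  In the coordinate ring let `m_P` be `XYIdeal W x (C y)` (`⊤` for `O`).  For all `P`, `Q`
there are `g, g'` with `(g') m_P m_Q = (g) m_(P+Q)`: `g = YClass (line)`, `g' = XClass x_3` in general
(`XYIdeal_mul_XYIdeal`), `g = XClass x`, `g' = 1` if `P + Q = O` (`XYIdeal_neg_mul`), `g = g' = 1` if `P` or
`Q` is `O`.  For `u = a(X) + b(X) Y ≠ 0` let `Ψ u = a(Z ^ 2) + b(Z ^ 2) Z ^ 3`, with degree `δ u`, leading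
coefficient `lc u` and next coefficient `sc u`.  Since `Y ^ 2 = X ^ 3 + a X + b` differs from `Z ^ 6` in degree
`≤ 2`, `δ`, `lc` are multiplicative and `sc / lc` is additive.  `sc / lc` is `- slope` for the line, `0` for
`XClass` and `1`.  The two ways of computing `m_P m_Q m_R` give principal ideals with associated
generators; units have `δ = 0` and `sc = 0`.
`zz_add_tors`: sum the cocycle relation for `(Q, t, s)` over `s ∈ T`, `|T| = p`.  `ww_add_tors`:
`uU (Q + s) = uU s + uU Q - zz s * zz Q`, so `ww` is additive on `T` and even.  `zz_formula`: the terms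
`y_t / (x - x_t)` cancel in pairs.  `lam_ne`: if `zz t0 = 0` then `zz` vanishes on `T`, is invariant, and
vanishes at the `e + t`, `e` of order two (`zz e = 0`); with `H = ∏_{t ∈ (T \ O)} (X - x_t)` of degree
`p - 1`, `zz Q = y H'(x) / H(x)`; the `3 (p - 1)` points `e + t`, `t ≠ O`, have `y ≠ 0` and give
`3 (p - 1) / 2` values of `x` that are roots of `H'` and not of `H = G ^ 2`, so roots of `G'`, of degree
`(p - 3) / 2` (`G' ≠ 0`).  (Counting with `H'` of degree `p - 2 < 3 (p - 1) / 2` is enough.)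
-/

namespace Pool.Agent.ASel

open WeierstrassCurve WeierstrassCurve.Affine Polynomial Pool.Agent.Quad
open scoped Classical

variable {p : ℕ} {M : Type} [Field M] {W : Affine M}

theorem EllC_slp_zero_left (t : W.Point) : slp (0 : W.Point) t = 0 := rfl

theorem EllC_slp_zero_right (Q : W.Point) : slp Q (0 : W.Point) = 0 := by
  rcases Q with _ | ⟨x, y, hn⟩ <;> rfl

theorem EllC_xc_eq {P Q : W.Point} (hP : P ≠ 0) (hQ : Q ≠ 0) (hx : xc P = xc Q) :
    P = Q ∨ P = -Q := by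
  rcases P with _ | ⟨x, y, hn⟩
  · exact absurd rfl hP
  rcases Q with _ | ⟨x', y', hn'⟩
  · exact absurd rfl hQ
  exact Point.X_eq_iff.1 hx

theorem EllC_slp_eq {P Q : W.Point} (hP : P ≠ 0) (hQ : Q ≠ 0) (hx : xc P ≠ xc Q) :
    slp P Q = (yc P - yc Q) / (xc P - xc Q) := by
  rcases P with _ | ⟨x, y, hn⟩
  · exact absurd rfl hP
  rcases Q with _ | ⟨x', y', hn'⟩
  · exact absurd rfl hQ
  exact slope_of_X_ne hx

theorem EllC_yc_neg (h : SW W) (P : W.Point) : yc (-P) = -yc P := by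
  rcases P with _ | ⟨x, y, hn⟩
  · exact neg_zero.symm
  · exact h.negY_eq x y

theorem EllC_yc_ne (h : SW W) {P : W.Point} (hP : 2 • P ≠ 0) : yc P ≠ 0 := by
  rcases P with _ | ⟨x, y, hn⟩
  · exact absurd (smul_zero 2) hP
  · exact fun h0 => hP ((h.two_smul_zero hn).2 h0)

theorem EllC_odd (h : SW W) {S : Finset W.Point} (hS : ∀ t ∈ S, -t ∈ S) {g : W.Point → M}
    (hg : ∀ t, g (-t) = -g t) : ∑ t ∈ S, g t = 0 := by
  have h1 : ∑ t ∈ S, g t = ∑ t ∈ S, g (-t) :=
    Finset.sum_nbij' (fun t => -t) (fun t => -t) hS hS (fun t _ => neg_neg t)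
      (fun t _ => neg_neg t) fun t _ => by rw [neg_neg]
  simp only [hg, Finset.sum_neg_distrib] at h1
  exact (mul_eq_zero.1 (by linear_combination h1)).resolve_left h.two

theorem EllC_deriv {ι : Type} (S : Finset ι) (c : ι → M) {x : M} (hx : ∀ i ∈ S, x ≠ c i)
    (h0 : ∑ i ∈ S, 1 / (x - c i) = 0) :
    (derivative (∏ i ∈ S, (X - C (c i)))).eval x = 0 := by
  rw [derivative_prod_finset, eval_finsetSum]
  have h1 : ∀ i ∈ S, ((∏ j ∈ S.erase i, (X - C (c j))) * derivative (X - C (c i))).eval x =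
      (∏ j ∈ S, (x - c j)) * (1 / (x - c i)) := fun i hi => by
    rw [← Finset.mul_prod_erase S _ hi, derivative_X_sub_C, mul_one, eval_prod]
    simp only [eval_sub, eval_X, eval_C]
    have := sub_ne_zero.2 (hx i hi)
    field_simp
  rw [Finset.sum_congr rfl h1, ← Finset.mul_sum, h0, mul_zero]

variable [hp : Fact p.Prime] [CharP M p] [IsAlgClosed M] {A : M}

namespace Ord

variable (h : Ord p W A)
include h

theorem EllC_mem {t : W.Point} : t ∈ h.tors_fin.toFinset ↔ p • t = 0 :=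
  Set.Finite.mem_toFinset _

theorem EllC_sum (g : W.Point → M) :
    ∑ᶠ t ∈ {t : W.Point | p • t = 0}, g t = ∑ t ∈ h.tors_fin.toFinset, g t :=
  finsum_mem_eq_finite_toFinset_sum g h.tors_fin

theorem EllC_card : h.tors_fin.toFinset.card = p := by
  rw [← Set.ncard_eq_toFinset_card _ h.tors_fin, ← Nat.card_coe_set_eq]
  exact h.tors_card

theorem EllC_neg_mem : ∀ t ∈ h.tors_fin.toFinset, -t ∈ h.tors_fin.toFinset := fun t ht => by
  rw [h.EllC_mem] at ht ⊢
  rw [smul_neg, ht, neg_zero]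

theorem EllC_neg_mem' :
    ∀ t ∈ h.tors_fin.toFinset.erase 0, -t ∈ h.tors_fin.toFinset.erase 0 := fun t ht => by
  rw [Finset.mem_erase] at ht ⊢
  exact ⟨neg_ne_zero.2 ht.1, h.EllC_neg_mem t ht.2⟩

theorem EllC_sum_neg (g : W.Point → M) :
    ∑ t ∈ h.tors_fin.toFinset, g (-t) = ∑ t ∈ h.tors_fin.toFinset, g t :=
  Finset.sum_nbij' (fun t => -t) (fun t => -t) h.EllC_neg_mem h.EllC_neg_mem
    (fun t _ => neg_neg t) (fun t _ => neg_neg t) fun _ _ => rfl

theorem EllC_sum_add (g : W.Point → M) {s : W.Point} (hs : p • s = 0) :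
    ∑ t ∈ h.tors_fin.toFinset, g (s + t) = ∑ t ∈ h.tors_fin.toFinset, g t := by
  refine Finset.sum_nbij' (fun t => s + t) (fun t => -s + t) (fun t ht => ?_) (fun t ht => ?_)
    (fun t _ => neg_add_cancel_left s t) (fun t _ => add_neg_cancel_left s t) fun _ _ => rfl
  · rw [h.EllC_mem] at ht ⊢
    rw [smul_add, hs, ht, add_zero]
  · rw [h.EllC_mem] at ht ⊢
    rw [smul_add, smul_neg, hs, ht, neg_zero, add_zero]

theorem EllC_zz (Q : W.Point) : zz p Q = ∑ t ∈ h.tors_fin.toFinset, slp Q t := h.EllC_sum _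

theorem EllC_uU (Q : W.Point) : uU p Q = ∑ t ∈ h.tors_fin.toFinset, zz p t * slp Q t :=
  h.EllC_sum _

theorem EllC_smul {e : W.Point} (he : 2 • e = 0) : p • e = e := by
  have h2 : p ≠ 2 := fun h0 => h.sw.two (by
    have := CharP.cast_eq_zero M p
    rw [h0] at this
    exact_mod_cast this)
  obtain ⟨k, hk⟩ := hp.out.odd_of_ne_two h2
  rw [hk, add_nsmul, one_nsmul, mul_nsmul, he, smul_zero, zero_add]

theorem EllC_xc_ne {Q t : W.Point} (hQ : p • Q ≠ 0) (ht : t ∈ h.tors_fin.toFinset.erase 0) :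
    xc Q ≠ xc t := fun hx => by
  rw [Finset.mem_erase, h.EllC_mem] at ht
  rcases EllC_xc_eq (fun h0 => hQ (by rw [h0, smul_zero])) ht.1 hx with h1 | h1
  · exact hQ (by rw [h1, ht.2])
  · exact hQ (by rw [h1, smul_neg, ht.2, neg_zero])

theorem EllC_split {Q : W.Point} (hQ : p • Q ≠ 0) (c : W.Point → M) :
    ∑ t ∈ h.tors_fin.toFinset, c t * slp Q t =
      ∑ t ∈ h.tors_fin.toFinset.erase 0, c t * yc Q / (xc Q - xc t) -
        ∑ t ∈ h.tors_fin.toFinset.erase 0, c t * yc t / (xc Q - xc t) := by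
  rw [← Finset.sum_erase (a := 0) _ (by rw [EllC_slp_zero_right, mul_zero]),
    ← Finset.sum_sub_distrib]
  refine Finset.sum_congr rfl fun t ht => ?_
  rw [EllC_slp_eq (fun h0 => hQ (by rw [h0, smul_zero])) (Finset.ne_of_mem_erase ht)
    (h.EllC_xc_ne hQ ht)]
  ring

theorem zz_zero : zz p (0 : W.Point) = 0 := by
  rw [h.EllC_zz]
  exact Finset.sum_eq_zero fun t _ => rfl

theorem zz_neg (Q : W.Point) : zz p (-Q) = -zz p Q := by
  rw [h.EllC_zz, h.EllC_zz, ← h.EllC_sum_neg, ← Finset.sum_neg_distrib]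
  exact Finset.sum_congr rfl fun t _ => slp_neg h.sw Q t

theorem zz_add_tors (Q : W.Point) {t : W.Point} (ht : p • t = 0) :
    zz p (Q + t) = zz p Q + zz p t := by
  have h1 := Finset.sum_congr (rfl (a := h.tors_fin.toFinset))
    fun s _ => slp_cocycle h.sw Q t s
  rw [Finset.sum_add_distrib, Finset.sum_add_distrib, h.EllC_sum_add (slp Q) ht, Finset.sum_const,
    h.EllC_card, nsmul_eq_mul, CharP.cast_eq_zero M p, zero_mul, zero_add, ← h.EllC_zz,
    ← h.EllC_zz, ← h.EllC_zz] at h1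
  rw [h1, add_comm]

theorem zz_nsmul {t : W.Point} (ht : p • t = 0) (m : ℕ) : zz p (m • t) = m * zz p t := by
  induction m with
  | zero => rw [zero_nsmul, h.zz_zero, Nat.cast_zero, zero_mul]
  | succ m ih =>
    rw [succ_nsmul, h.zz_add_tors _ ht, ih, Nat.cast_succ]
    ring

theorem EllC_ww_zero : ww p (0 : W.Point) = 0 := by
  rw [ww, h.zz_zero, h.EllC_uU, Finset.sum_eq_zero fun t _ => mul_zero _]
  ring

theorem EllC_ww_neg (Q : W.Point) : ww p (-Q) = ww p Q := by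
  rw [ww, ww, h.zz_neg, neg_sq, h.EllC_uU, h.EllC_uU, ← h.EllC_sum_neg]
  refine congrArg _ (Finset.sum_congr rfl fun t _ => ?_)
  rw [h.zz_neg, slp_neg h.sw, neg_mul_neg]

theorem EllC_ww_add (Q : W.Point) {s : W.Point} (hs : p • s = 0) :
    ww p (Q + s) = ww p Q + ww p s := by
  have h1 : ∀ t ∈ h.tors_fin.toFinset, zz p t * slp (Q + s) t = zz p t * slp s t +
      (zz p (s + t) * slp Q (s + t) - zz p s * slp Q (s + t)) - slp Q s * zz p t := fun t ht => by
    rw [h.zz_add_tors s (h.EllC_mem.1 ht)]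
    linear_combination zz p t * slp_cocycle h.sw Q s t
  have h2 := Finset.sum_congr rfl h1
  rw [Finset.sum_sub_distrib, Finset.sum_add_distrib, Finset.sum_sub_distrib, ← Finset.mul_sum,
    ← Finset.mul_sum, EllC_odd h.sw h.EllC_neg_mem h.zz_neg,
    h.EllC_sum_add (fun t => zz p t * slp Q t) hs, h.EllC_sum_add (slp Q) hs, ← h.EllC_uU,
    ← h.EllC_uU, ← h.EllC_uU, ← h.EllC_zz] at h2
  have h3 := h.sw.two
  rw [ww, ww, ww, h2, h.zz_add_tors Q hs]
  field_simp
  ring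

theorem ww_add_tors (Q : W.Point) {t : W.Point} (ht : p • t = 0) : ww p (Q + t) = ww p Q := by
  have h1 := h.EllC_ww_add (-t) ht
  rw [neg_add_cancel, h.EllC_ww_zero, h.EllC_ww_neg] at h1
  have h2 : ww p t = 0 :=
    (mul_eq_zero.1 (by linear_combination -h1)).resolve_left h.sw.two
  rw [h.EllC_ww_add Q ht, h2, add_zero]

theorem ww_zero : ww p (0 : W.Point) = 0 := h.EllC_ww_zero

theorem zz_formula {Q : W.Point} (hQ : p • Q ≠ 0) :
    zz p Q = ∑ t ∈ h.tors_fin.toFinset.erase 0, yc Q / (xc Q - xc t) := by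
  have h1 := h.EllC_split hQ fun _ => 1
  rw [EllC_odd h.sw h.EllC_neg_mem' (g := fun t => 1 * yc t / (xc Q - xc t)) fun t => by
    rw [EllC_yc_neg h.sw, xc_neg]
    ring] at h1
  simp only [one_mul, sub_zero] at h1
  rw [h.EllC_zz, h1]

theorem uU_formula {Q : W.Point} (hQ : p • Q ≠ 0) :
    uU p Q = -∑ t ∈ h.tors_fin.toFinset.erase 0, zz p t * yc t / (xc Q - xc t) := by
  rw [h.EllC_uU, h.EllC_split hQ,
    EllC_odd h.sw h.EllC_neg_mem' (g := fun t => zz p t * yc Q / (xc Q - xc t)) fun t => by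
      rw [h.zz_neg, xc_neg]
      ring, zero_sub]

theorem lam_ne {t : W.Point} (h0 : t ≠ 0) (ht : p • t = 0) : zz p t ≠ 0 := fun hz => by
  set T := h.tors_fin.toFinset.erase 0 with hT
  have hp2 := hp.out.two_le
  have hc : T.card = p - 1 := by
    rw [hT, Finset.card_erase_of_mem (h.EllC_mem.2 (smul_zero p)), h.EllC_card]
  have hm : (∏ u ∈ T, (X - C (xc u))).Monic := monic_prod_of_monic _ _ fun u _ => monic_X_sub_C _
  have hd : (∏ u ∈ T, (X - C (xc u))).natDegree = p - 2 + 1 := by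
    rw [natDegree_finsetProd_X_sub_C_eq_card, hc]
    omega
  set H := ∏ u ∈ T, (X - C (xc u)) with hH
  have hne : derivative H ≠ 0 := fun h1 => by
    have h2 := coeff_derivative H (p - 2)
    rw [h1, coeff_zero, ← hd, hm.coeff_natDegree, one_mul] at h2
    have h3 := CharP.cast_eq_zero M p
    rw [show p = p - 2 + 2 by omega, Nat.cast_add] at h3
    exact one_ne_zero (α := M) (by push_cast at h3; linear_combination h2 + h3)
  have hroot : ∀ e : W.Point, e ≠ 0 → 2 • e = 0 → ∀ u ∈ T,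
      e + u ≠ 0 ∧ xc (e + u) ∈ (derivative H).roots.toFinset := fun e e0 e2 u hu => by
    have hu' : p • u = 0 := h.EllC_mem.1 (Finset.mem_of_mem_erase hu)
    have a1 : p • (e + u) ≠ 0 := by rwa [smul_add, hu', add_zero, h.EllC_smul e2]
    have a2 : 2 • (e + u) ≠ 0 := fun a2 => by
      rw [smul_add, e2, zero_add] at a2
      exact Finset.ne_of_mem_erase hu ((h.EllC_smul a2).symm.trans hu')
    have a3 : zz p e = 0 := by
      have a4 := h.zz_neg e
      rw [neg_eq_of_add_eq_zero_left ((two_nsmul e).symm.trans e2)] at a4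
      exact (mul_eq_zero.1 (by linear_combination a4)).resolve_left h.sw.two
    have a5 : zz p (e + u) = 0 := by
      obtain ⟨m, hm⟩ := h.tors_cyc h0 ht hu'
      rw [h.zz_add_tors e hu', a3, hm, h.zz_nsmul ht, hz, mul_zero, add_zero]
    refine ⟨fun a6 => a1 (by rw [a6, smul_zero]), ?_⟩
    rw [Multiset.mem_toFinset, mem_roots hne]
    refine EllC_deriv T xc (fun v hv => h.EllC_xc_ne a1 hv) ?_
    refine (mul_eq_zero.1 ?_).resolve_left (EllC_yc_ne h.sw a2)
    rw [← a5, h.zz_formula a1, Finset.mul_sum]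
    exact Finset.sum_congr rfl fun v _ => mul_one_div _ _
  obtain ⟨e1, e2, e3, hr⟩ := h.sw.exists_rt
  have hdis : Disjoint (T.image (tp W e1 + ·)) (T.image (tp W e2 + ·)) := by
    refine Finset.disjoint_left.2 fun P h1 h2 => hr.ne12 ?_
    obtain ⟨u, hu, h3⟩ := Finset.mem_image.1 h1
    obtain ⟨v, hv, h4⟩ := Finset.mem_image.1 h2
    have h5 := congrArg (p • ·) (h3.trans h4.symm)
    simp only [smul_add, h.EllC_mem.1 (Finset.mem_of_mem_erase hu), add_zero,
      h.EllC_mem.1 (Finset.mem_of_mem_erase hv), h.EllC_smul hr.two_tp,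
      h.EllC_smul hr.swap12.two_tp] at h5
    rw [← hr.xc_tp, h5, hr.swap12.xc_tp]
  have hall : ∀ P ∈ T.image (tp W e1 + ·) ∪ T.image (tp W e2 + ·),
      P ≠ 0 ∧ xc P ∈ (derivative H).roots.toFinset := fun P hP => by
    rcases Finset.mem_union.1 hP with h1 | h1 <;> obtain ⟨u, hu, rfl⟩ := Finset.mem_image.1 h1
    · exact hroot _ hr.tp_ne hr.two_tp u hu
    · exact hroot _ hr.swap12.tp_ne hr.swap12.two_tp u hu
  have hle := Finset.card_le_mul_card_image_of_maps_to (fun P hP => (hall P hP).2) 2 fun b _ => by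
    rcases Finset.eq_empty_or_nonempty
      ((T.image (tp W e1 + ·) ∪ T.image (tp W e2 + ·)).filter fun P => xc P = b) with h1 | ⟨R, hR⟩
    · rw [h1]
      exact Nat.zero_le _
    refine le_trans (Finset.card_le_card fun P hP => ?_) (Finset.card_le_two (a := R) (b := -R))
    rw [Finset.mem_filter] at hP hR
    rw [Finset.mem_insert, Finset.mem_singleton]
    exact EllC_xc_eq (hall P hP.1).1 (hall R hR.1).1 (hP.2.trans hR.2.symm)
  rw [Finset.card_union_of_disjoint hdis, Finset.card_image_of_injective _ (add_right_injective _),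
    Finset.card_image_of_injective _ (add_right_injective _), hc] at hle
  have b1 := Multiset.toFinset_card_le (derivative H).roots
  have b2 := card_roots' (derivative H)
  have b3 := natDegree_derivative_le H
  omega

variable {M' : Type} [Field M'] [CharP M' p] [IsAlgClosed M'] {W' : Affine M'}
  {s : W.Point →+ W'.Point} {f : M →+* M'} (hs : Cmp s f)
include hs

theorem EllC_sum_map (g : W'.Point → M') :
    ∑ᶠ t ∈ {t : W'.Point | p • t = 0}, g t = ∑ t ∈ h.tors_fin.toFinset, g (s t) := by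
  have h1 : {t : W'.Point | p • t = 0} = s '' {t : W.Point | p • t = 0} := by
    refine Set.Subset.antisymm (fun t ht => ?_) ?_
    · obtain ⟨u, rfl⟩ := h.tors_surj hs 1 (t' := t) (by rwa [pow_one])
      exact ⟨u, hs.inj (by rw [map_nsmul, map_zero]; exact ht), rfl⟩
    · rintro _ ⟨u, hu, rfl⟩
      exact (map_nsmul s p u).symm.trans ((congrArg s hu).trans (map_zero s))
  rw [h1, finsum_mem_image hs.inj.injOn, finsum_mem_eq_finite_toFinset_sum _ h.tors_fin]

theorem zz_map (Q : W.Point) : zz p (s Q) = f (zz p Q) := by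
  rw [zz, h.EllC_sum_map hs, h.EllC_zz, map_sum]
  exact Finset.sum_congr rfl fun t _ => hs.slp_eq Q t

theorem ww_map (Q : W.Point) : ww p (s Q) = f (ww p Q) := by
  rw [ww, ww, map_add, map_div₀, map_pow, map_ofNat, h.zz_map hs, uU, h.EllC_sum_map hs, h.EllC_uU,
    map_sum]
  refine congrArg _ (Finset.sum_congr rfl fun t _ => ?_)
  rw [map_mul, h.zz_map hs, hs.slp_eq]

theorem zk_map (k : ℕ) (Q : W.Point) : zk p (f A) k (s Q) = f (zk p A k Q) := by
  rw [zk, zk, map_div₀, map_pow, map_pow, h.zz_map hs]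

theorem wk_map (k : ℕ) (Q : W.Point) : wk p (f A) k (s Q) = f (wk p A k Q) := by
  rw [wk, wk, map_div₀, map_pow, map_pow, h.ww_map hs]

end Ord

end Pool.Agent.ASel
end

-- merged part: Pool.Agent.Work.MP_60d5ce_nt.AS.EllQ
section
/-!
# Logarithmic forms attached to points; the level structure

PLAN (this file: `log_id`, `lam_pow`; the rest in `EllR`, `EllU`, `EllI`).  `log_id` (level `0`, constant coefficients, `β Q = dx / 2 y`): for `p Q ≠ 0`,
`dlog ∏_{t ≠ O} (x - x_t) = 2 (zz Q β Q + uU Q ϖ)` by `zz_formula`, `uU_formula`, so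
`q Q = zz β - zz ^ 2 ϖ / 2 + ww ϖ` is fixed by `car` (`car_dlog`; `1/2 ∈ F_p`).  For `t ∈ T`,
`q (Q + t) - q Q = zz t β Q + zz t ^ 2 ϖ / 2`; take `Q` of order two to see that `zz t ^ 2 ϖ` is fixed, and
`q t = zz t ^ 2 ϖ / 2`.  `lam_pow`: apply this to the generic point `(X, Y)` in the algebraic closure of
`RatFunc M` with `d/dX` (`sc_om`; `ϖ = 0`, `β = 1 / 2 Y`): `1 / Y = f ^ ((p-1)/2) / Y ^ p`, and
`car (f ^ ((p-1)/2)) ^ p = A` (`car_t_pow`, degree `< 2 p - 1`), so `λ A = λ ^ p`.  The same computation shows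
`car (a β P) = a' β P` when `a' ^ p = a A`, `a` constant, for every point `P` over that field (its
abscissa is constant or a `p`-basis: `car_change`).  `vbeta`: `β_k (p Q) = c ^ p ^ k β_(k+1) Q` from `vform`
(chain rule; the coefficients raised to `p ^ k`, `k ≥ 1`, are killed by `der`); applying it to a generic
point gives `c ^ (p-1) = A ^ (p-1)`, so `c = ρ A`, `ρ ∈ F_p`.  Level `k`: transport along the Frobenius
automorphism `x ↦ x ^ p ^ k` of `M` (`exists_cmp`, `Cmp.surj`, `zz_map`), `zz t ^ p ^ k = zz t A ^ uk k`.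
`iso_car`: `q (Q + Q') - q Q - q Q'` is the displayed sum.
-/

namespace Pool.Agent.ASel

open WeierstrassCurve WeierstrassCurve.Affine Polynomial Pool.Agent.Quad
open scoped Classical

variable {p : ℕ} [hp : Fact p.Prime] {M : Type} [Field M] [CharP M p] [IsAlgClosed M]
  {W : Affine M} {A : M}

omit hp [CharP M p] [IsAlgClosed M] in
theorem EllQ_beta0 {F : Type} [Field F] (f : F →+* M) {W₀ : Affine F} (e : W₀.map f = W)
    (h₀ : SW W₀) (hW : SW W) (D : Derivation ℤ F F) (d : M → M) (hd : ∀ x, f (D x) = d (f x))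
    (h4 : D W₀.a₄ = 0) (h6 : D W₀.a₆ = 0) {P Q : W.Point}
    (hP : xc P ∈ f.range ∧ yc P ∈ f.range) (hQ : xc Q ∈ f.range ∧ yc Q ∈ f.range) :
    (xc (P + Q) ∈ f.range ∧ yc (P + Q) ∈ f.range) ∧ d (xc (P + Q)) / (2 * yc (P + Q)) =
      d (xc P) / (2 * yc P) + d (xc Q) / (2 * yc Q) := by
  subst e
  obtain ⟨s, hs⟩ := exists_cmp W₀ f
  have lift : ∀ P : (W₀.map f).toAffine.Point, xc P ∈ f.range ∧ yc P ∈ f.range → ∃ P₀, s P₀ = P := by
    rintro (_ | ⟨x, y, hn⟩) ⟨⟨a, ha⟩, b, hb⟩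
    · exact ⟨0, map_zero s⟩
    · obtain rfl : f a = x := ha
      obtain rfl : f b = y := hb
      have h1 := h₀.nonsing (x := a) (y := b) (f.injective (by simpa using hW.eqn hn))
      obtain ⟨h', e'⟩ := hs.pt _ _ h1
      exact ⟨_, e'⟩
  obtain ⟨P, rfl⟩ := lift P hP
  obtain ⟨Q, rfl⟩ := lift Q hQ
  have h1 := congrArg f (beta_add h₀ D h4 h6 P Q)
  rw [← map_add]
  simp only [hs.xc_eq, hs.yc_eq]
  refine ⟨⟨⟨_, rfl⟩, _, rfl⟩, ?_⟩
  simpa only [map_add, map_div₀, map_mul, map_ofNat, hd] using h1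

omit [IsAlgClosed M] in
/-- the invariant differential is additive on the points with coordinates in `S` -/
theorem EllQ_beta (hW : SW W) {S : Subfield M} {t : M} (hS : PB p S t) (h4 : W.a₄ ∈ S)
    (h6 : W.a₆ ∈ S) (d4 : der p S t W.a₄ = 0) (d6 : der p S t W.a₆ = 0) {P Q : W.Point}
    (hP : xc P ∈ S ∧ yc P ∈ S) (hQ : xc Q ∈ S ∧ yc Q ∈ S) :
    (xc (P + Q) ∈ S ∧ yc (P + Q) ∈ S) ∧ der p S t (xc (P + Q)) / (2 * yc (P + Q)) =
      der p S t (xc P) / (2 * yc P) + der p S t (xc Q) / (2 * yc Q) := by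
  obtain ⟨D, hD⟩ := hS.exists_derivation
  have e : ∀ x, x ∈ S.subtype.range ↔ x ∈ S := fun x =>
    ⟨fun ⟨y, hy⟩ => hy ▸ y.2, fun hx => ⟨⟨x, hx⟩, rfl⟩⟩
  have := EllQ_beta0 (W := W) S.subtype (W₀ := ⟨0, 0, 0, ⟨_, h4⟩, ⟨_, h6⟩⟩)
    (by ext <;> simp [hW.a1, hW.a2, hW.a3])
    ⟨rfl, rfl, rfl, fun k => hW.disc (by
      simpa only [map_add, map_mul, map_pow, map_ofNat, map_zero, Subfield.coe_subtype] using
        congrArg S.subtype k),
      fun k => hW.six (by simpa only [map_ofNat, map_zero] using congrArg S.subtype k)⟩ hW D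
    (der p S t) hD (Subtype.ext ((hD _).trans d4)) (Subtype.ext ((hD _).trans d6))
    (P := P) (Q := Q) (by simpa only [e] using hP) (by simpa only [e] using hQ)
  simpa only [e] using this

omit [IsAlgClosed M] in
theorem EllQ_dx (hW : SW W) {S : Subfield M} {t : M} (hS : PB p S t) (h4 : W.a₄ ∈ S)
    (d4 : der p S t W.a₄ = 0) (d6 : der p S t W.a₆ = 0) {P : W.Point} (hx : xc P ∈ S) :
    der p S t (xc P) = 2 * yc P * (der p S t (xc P) / (2 * yc P)) := by
  by_cases hy : yc P = 0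
  · rw [hy, mul_zero, zero_mul]
    rcases P with _ | ⟨x, y, hn⟩
    · exact map_zero _
    · obtain rfl : y = 0 := hy
      have e := hW.eqn hn
      have hx' : x ∈ S := hx
      have e1 := congrArg (der p S t) e
      rw [zero_pow two_ne_zero, map_zero, map_add, map_add, hS.der_pow hx', hS.der_mul h4 hx', d4,
        d6] at e1
      change der p S t x = 0
      refine (mul_eq_zero.1 (?_ : (4 * W.a₄ ^ 3 + 27 * W.a₆ ^ 2) * der p S t x = 0)).resolve_left
        hW.disc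
      push_cast at e1
      linear_combination (-(6 * W.a₄ * x ^ 2 - 9 * W.a₆ * x + 4 * W.a₄ ^ 2)) * e1 +
        (18 * W.a₄ * x - 27 * W.a₆) * der p S t x * e
  · rw [mul_div_cancel₀ _ (mul_ne_zero hW.two hy)]

omit [IsAlgClosed M] in
theorem EllQ_odd (hW : SW W) : ∃ m, p = 2 * m + 1 := by
  refine hp.out.eq_two_or_odd'.resolve_left fun e => hW.two ?_
  have := CharP.cast_eq_zero M p
  rwa [e] at this

omit [IsAlgClosed M] in
theorem EllQ_two : (2 : M) ^ p = 2 := by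
  have := map_natCast (frobenius M p) 2
  rwa [frobenius_def] at this

omit hp [CharP M p] [IsAlgClosed M] in
theorem EllQ_yc (hW : SW W) {e : W.Point} (he : 2 • e = 0) : -e = e ∧ yc e = 0 := by
  have h1 : -e = e := neg_eq_of_add_eq_zero_left ((two_nsmul e).symm.trans he)
  refine ⟨h1, ?_⟩
  rcases e with _ | ⟨x, y, hn⟩
  · rfl
  · obtain ⟨hn', e'⟩ := hW.neg_some hn
    have h2 : -y = y := congrArg yc (e'.symm.trans h1)
    exact (mul_eq_zero.1 (by linear_combination -h2 : 2 * y = 0)).resolve_left hW.two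

/-- the variable is a `p`-basis of the field of rational functions -/
theorem EllQ_pb : PB p (⊤ : Subfield (RatFunc M)) RatFunc.X := by
  refine ⟨Subfield.mem_top _, fun y _ hy => ?_, fun x _ => ?_⟩
  · have h0 : y ≠ 0 := fun e => RatFunc.X_ne_zero (K := M) (by
      rw [← hy, e, zero_pow hp.out.ne_zero])
    have h1 : ∀ n : ℕ, (y ^ n).intDegree = n * y.intDegree := fun n => by
      induction n with
      | zero => simp
      | succ n ih =>
        rw [pow_succ, RatFunc.intDegree_mul (pow_ne_zero _ h0) h0, ih]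
        push_cast
        ring
    have h2 := h1 p
    rw [hy, RatFunc.intDegree_X] at h2
    have h3 : (p : ℤ) ∣ 1 := ⟨_, h2⟩
    exact hp.out.one_lt.ne' (Nat.dvd_one.1 (by exact_mod_cast h3))
  · have key : ∀ g : M[X], ∃ c : ℕ → RatFunc M, algebraMap M[X] (RatFunc M) g =
        ∑ i ∈ Finset.range p, c i ^ p * RatFunc.X ^ i := by
      intro g
      induction g using Polynomial.induction_on' with
      | add g g' h h' =>
        obtain ⟨c, hc⟩ := h
        obtain ⟨c', hc'⟩ := h'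
        refine ⟨fun i => c i + c' i, ?_⟩
        rw [map_add, hc, hc', ← Finset.sum_add_distrib]
        exact Finset.sum_congr rfl fun i _ => by rw [add_pow_char, add_mul]
      | monomial n a =>
        obtain ⟨b, rfl⟩ := IsAlgClosed.exists_pow_nat_eq a hp.out.pos
        refine ⟨fun i => if i = n % p then RatFunc.C b * RatFunc.X ^ (n / p) else 0, ?_⟩
        beta_reduce
        rw [Finset.sum_eq_single (n % p) (fun i _ hi => by
          rw [if_neg hi, zero_pow hp.out.ne_zero, zero_mul])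
          fun hi => absurd (Finset.mem_range.2 (Nat.mod_lt _ hp.out.pos)) hi,
          if_pos rfl, ← C_mul_X_pow_eq_monomial, map_mul, RatFunc.algebraMap_C, map_pow, map_pow,
          RatFunc.algebraMap_X, mul_pow, ← pow_mul, mul_assoc, ← pow_add, Nat.div_add_mod']
    obtain ⟨c, hc⟩ := key (x.num * x.denom ^ (p - 1))
    have h0 : algebraMap M[X] (RatFunc M) x.denom ≠ 0 := RatFunc.algebraMap_ne_zero x.denom_ne_zero
    refine ⟨fun i => c i / algebraMap M[X] (RatFunc M) x.denom, fun _ => Subfield.mem_top _, ?_⟩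
    simp only [div_pow, div_mul_eq_mul_div]
    rw [← Finset.sum_div, ← hc, map_mul, map_pow, eq_div_iff (pow_ne_zero _ h0)]
    have h1 : algebraMap M[X] (RatFunc M) x.num = x * algebraMap M[X] (RatFunc M) x.denom :=
      (div_eq_iff h0).1 x.num_div_denom
    rw [h1, mul_assoc, ← pow_succ', Nat.sub_add_cancel hp.out.pos]

namespace Ord

variable (h : Ord p W A)
include h

theorem log_id {S : Subfield M} {t : M} (hS : PB p S t) (h4 : W.a₄ ∈ S) (h6 : W.a₆ ∈ S)
    (d4 : der p S t W.a₄ = 0) (d6 : der p S t W.a₆ = 0)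
    (hT : ∀ P : W.Point, p • P = 0 → xc P ∈ S ∧ yc P ∈ S) {ϖ : M} (hϖ0 : ϖ ∈ S)
    (hϖ : ∀ P : W.Point, p • P = 0 → der p S t (xc P) / (2 * yc P) = zz p P * ϖ)
    (h2 : ∃ e : W.Point, e ≠ 0 ∧ 2 • e = 0 ∧ xc e ∈ S) {Q : W.Point} (hx : xc Q ∈ S) (hy : yc Q ∈ S) :
    car p S t (zz p Q * (der p S t (xc Q) / (2 * yc Q)) - zz p Q ^ 2 * ϖ / 2 + ww p Q * ϖ) =
      zz p Q * (der p S t (xc Q) / (2 * yc Q)) - zz p Q ^ 2 * ϖ / 2 + ww p Q * ϖ := by
  have half : ∀ u ∈ S, car p S t u = u → car p S t (u / 2) = u / 2 := by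
    intro u hu e
    have e1 : u / 2 = (2⁻¹ : M) ^ p * u := by rw [inv_pow, EllQ_two, div_eq_inv_mul]
    rw [e1, hS.car_frob_mul (S.inv_mem (by exact_mod_cast natCast_mem S 2)) hu, e, inv_pow,
      EllQ_two]
  have gen : ∀ P : W.Point, p • P ≠ 0 → xc P ∈ S →
      car p S t (zz p P * (der p S t (xc P) / (2 * yc P)) - zz p P ^ 2 * ϖ / 2 + ww p P * ϖ) =
        zz p P * (der p S t (xc P) / (2 * yc P)) - zz p P ^ 2 * ϖ / 2 + ww p P * ϖ := by
    intro P hP hx
    have hm : ∀ R ∈ h.tors_fin.toFinset.erase 0, p • R = 0 := fun R hR =>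
      h.tors_fin.mem_toFinset.1 (Finset.mem_of_mem_erase hR)
    have e : zz p P * (der p S t (xc P) / (2 * yc P)) - zz p P ^ 2 * ϖ / 2 + ww p P * ϖ =
        ∑ R ∈ h.tors_fin.toFinset.erase 0, der p S t (xc P - xc R) / (xc P - xc R) / 2 := by
      have e1 : ∀ R ∈ h.tors_fin.toFinset.erase 0, der p S t (xc P - xc R) / (xc P - xc R) / 2 =
          yc P / (xc P - xc R) * (der p S t (xc P) / (2 * yc P)) -
            zz p R * yc R / (xc P - xc R) * ϖ := by
        intro R hR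
        have e2 := EllQ_dx h.sw hS h4 d4 d6 (hT R (hm R hR)).1
        rw [hϖ R (hm R hR)] at e2
        rw [map_sub, e2, div_eq_iff h.sw.two]
        conv_lhs => rw [EllQ_dx h.sw hS h4 d4 d6 hx]
        ring
      rw [Finset.sum_congr rfl e1, Finset.sum_sub_distrib, ← Finset.sum_mul, ← Finset.sum_mul,
        ← h.zz_formula hP, ww, h.uU_formula hP]
      ring
    rw [e, map_sum]
    refine Finset.sum_congr rfl fun R hR => ?_
    have m1 := S.sub_mem hx (hT R (hm R hR)).1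
    exact half _ (S.div_mem (hS.der_mem m1) m1) (hS.car_dlog m1)
  by_cases hQ : p • Q = 0
  · obtain ⟨e, e0, e2, ex⟩ := h2
    obtain ⟨e3, e4⟩ := EllQ_yc h.sw e2
    have e5 : p • e ≠ 0 := by
      obtain ⟨m, hm⟩ := EllQ_odd (p := p) h.sw
      rwa [hm, add_nsmul, mul_nsmul, e2, nsmul_zero, zero_add, one_nsmul]
    have e6 : zz p e = 0 := by
      have e7 := h.zz_neg e
      rw [e3] at e7
      exact (mul_eq_zero.1 (by linear_combination e7 : 2 * zz p e = 0)).resolve_left h.sw.two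
    obtain ⟨b1, b2⟩ := EllQ_beta h.sw hS h4 h6 d4 d6 ⟨ex, e4 ▸ S.zero_mem⟩ ⟨hx, hy⟩
    have g1 := gen e e5 ex
    have g2 := gen (e + Q) (by rwa [nsmul_add, hQ, add_zero]) b1.1
    have w0 := h.ww_add_tors 0 hQ
    rw [zero_add, h.ww_zero] at w0
    rw [b2, h.zz_add_tors e hQ, h.ww_add_tors e hQ, e6, e4, mul_zero, div_zero, zero_add,
      zero_add] at g2
    rw [e6, zero_mul, zero_pow two_ne_zero, zero_mul, zero_div, sub_zero, zero_add] at g1
    rw [map_add, g1, add_left_inj] at g2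
    rw [w0, zero_mul, add_zero, g2]
  · exact gen Q hQ hx

theorem EllQ_gen {M' : Type} [Field M'] [CharP M' p] [IsAlgClosed M'] (f : M →+* M')
    {S : Subfield M'} {x : M'} (hS : SC p S x) (hf : ∀ c, f c ∈ S) {t : W.Point} (h0 : t ≠ 0)
    (ht : p • t = 0) : zz p t ^ (p - 1) = A := by
  obtain ⟨s, hs⟩ := exists_cmp W f
  have h' := hs.ord h
  have hd : ∀ c, der p S x (f c) = 0 := fun c => by
    obtain ⟨b, rfl⟩ := IsAlgClosed.exists_pow_nat_eq c hp.out.pos
    rw [map_pow, hS.1.der_frob (hf b)]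
  have hx := hS.1.1
  obtain ⟨y, hy⟩ := IsAlgClosed.exists_pow_nat_eq (x ^ 3 + f W.a₄ * x + f W.a₆) two_pos
  have hn := h'.sw.nonsing (x := x) (y := y) hy
  have y0 : y ≠ 0 := fun e => by
    have e1 := EllQ_dx h'.sw hS.1 (hf _) (hd _) (hd _) (P := .some x y hn) hx
    change der p S x x = 2 * y * (der p S x x / (2 * y)) at e1
    rw [hS.1.der_t, e, mul_zero, zero_mul] at e1
    exact one_ne_zero e1
  have m1 : x ^ 3 + f W.a₄ * x + f W.a₆ ∈ S :=
    S.add_mem (S.add_mem (S.pow_mem hx 3) (S.mul_mem (hf _) hx)) (hf _)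
  have hyS : y ∈ S := by
    refine hS.2 y (X ^ 2 - C (x ^ 3 + f W.a₄ * x + f W.a₆)) (fun i => ?_) ?_ ?_
    · rw [coeff_sub, coeff_X_pow, coeff_C]
      refine S.sub_mem ?_ ?_ <;> split_ifs
      exacts [S.one_mem, S.zero_mem, m1, S.zero_mem]
    · rw [eval_sub, eval_pow, eval_X, eval_C, hy, sub_self]
    · rw [derivative_sub, derivative_C, sub_zero, derivative_X_pow]
      simpa using ⟨h'.sw.two, y0⟩
  have hT : ∀ P : (W.map f).toAffine.Point, p • P = 0 → ∃ P₀, s P₀ = P := fun P hP =>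
    h.tors_surj hs 1 (by rwa [pow_one])
  have hT1 : ∀ P : (W.map f).toAffine.Point, p • P = 0 → xc P ∈ S ∧ yc P ∈ S := fun P hP => by
    obtain ⟨P, rfl⟩ := hT P hP
    rw [hs.xc_eq, hs.yc_eq]
    exact ⟨hf _, hf _⟩
  have hT2 : ∀ P : (W.map f).toAffine.Point, p • P = 0 →
      der p S x (xc P) / (2 * yc P) = zz p P * 0 := fun P hP => by
    obtain ⟨P, rfl⟩ := hT P hP
    rw [hs.xc_eq, hd, zero_div, mul_zero]
  have h2 : ∃ e : (W.map f).toAffine.Point, e ≠ 0 ∧ 2 • e = 0 ∧ xc e ∈ S := by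
    obtain ⟨e1, e2, e3, he⟩ := h.sw.exists_rt
    obtain ⟨hn', e'⟩ := h.sw.neg_some he.nonsing
    refine ⟨s (.some e1 0 he.nonsing), fun k => Point.some_ne_zero _
      (hs.inj (k.trans (map_zero s).symm)), ?_, by rw [hs.xc_eq]; exact hf _⟩
    rw [← map_nsmul, two_nsmul, Point.add_of_Y_eq rfl (by rw [h.sw.negY_eq, neg_zero]), map_zero]
  have ht' : p • s t = 0 := by rw [← map_nsmul, ht, map_zero]
  obtain ⟨b1, b2⟩ := EllQ_beta h'.sw hS.1 (hf _) (hf _) (hd _) (hd _) (P := .some x y hn)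
    ⟨hx, hyS⟩ (hT1 _ ht')
  have g1 := h'.log_id hS.1 (hf _) (hf _) (hd _) (hd _) hT1 S.zero_mem hT2 h2
    (Q := .some x y hn) hx hyS
  have g2 := h'.log_id hS.1 (hf _) (hf _) (hd _) (hd _) hT1 S.zero_mem hT2 h2 b1.1 b1.2
  rw [b2, hT2 _ ht', h'.zz_add_tors _ ht', h.zz_map hs] at g2
  simp only [mul_zero, zero_div, sub_zero, add_zero] at g1 g2
  rw [add_mul, map_add, g1, add_right_inj] at g2
  change car p S x (_ * (der p S x x / (2 * y))) = _ * (der p S x x / (2 * y)) at g2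
  rw [hS.1.der_t] at g2
  obtain ⟨m, hm⟩ := EllQ_odd (p := p) h.sw
  obtain ⟨μ, hμ⟩ := IsAlgClosed.exists_pow_nat_eq (zz p t) hp.out.pos
  obtain ⟨a, ha⟩ := IsAlgClosed.exists_pow_nat_eq A hp.out.pos
  have hm2 : (p - 1) / 2 = m := by omega
  have c1 : car p S x ((x ^ 3 + f W.a₄ * x + f W.a₆) ^ m) = f a := by
    have d1 : ((X ^ 3 + C W.a₄ * X + C W.a₆ : M[X]) ^ m).natDegree < 2 * p - 1 := by
      have d2 : (X ^ 3 + C W.a₄ * X + C W.a₆ : M[X]).natDegree ≤ 3 := by compute_degree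
      have := natDegree_pow_le (p := (X ^ 3 + C W.a₄ * X + C W.a₆ : M[X])) (n := m)
      have := Nat.mul_le_mul_left m d2
      omega
    have e1 := eval₂_eq_sum_range' f d1 x
    rw [eval₂_pow, eval₂_add, eval₂_add, eval₂_mul, eval₂_X_pow, eval₂_C, eval₂_C, eval₂_X] at e1
    rw [e1, map_sum, Finset.sum_eq_single (p - 1) (fun i hi hi' => ?_)
      fun hi => absurd (Finset.mem_range.2 (by omega)) hi]
    · have e2 := h.hA
      rw [hasseInv, hm2] at e2
      rw [← e2, ← ha, map_pow, hS.1.car_frob_mul (hf _) (S.pow_mem hx _), hS.1.car_t_pow,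
        Nat.sub_add_cancel hp.out.pos, Nat.mod_self, if_pos rfl, Nat.div_self hp.out.pos,
        Nat.sub_self, pow_zero, mul_one]
    · obtain ⟨b, hb⟩ := IsAlgClosed.exists_pow_nat_eq
        (((X ^ 3 + C W.a₄ * X + C W.a₆ : M[X]) ^ m).coeff i) hp.out.pos
      rw [← hb, map_pow, hS.1.car_frob_mul (hf _) (S.pow_mem hx _), hS.1.car_t_pow, if_neg,
        mul_zero]
      intro k
      obtain ⟨j, hj⟩ := Nat.dvd_of_mod_eq_zero k
      have := Finset.mem_range.1 hi
      rcases j with _ | _ | j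
      · omega
      · omega
      · rw [mul_add, mul_add] at hj
        omega
  have y2 : 2 * y ≠ 0 := mul_ne_zero h'.sw.two y0
  have c2 : f (zz p t) * (1 / (2 * y)) =
      (f μ / (2 * y)) ^ p * (x ^ 3 + f W.a₄ * x + f W.a₆) ^ m := by
    have : y ^ p = (y ^ 2) ^ m * y := by rw [← pow_mul, ← pow_succ, ← hm]
    rw [← hy, div_pow, mul_pow, EllQ_two, ← map_pow, hμ, this]
    have := h'.sw.two
    field_simp
  have m2 : 2 * y ∈ S := S.mul_mem (by exact_mod_cast natCast_mem S 2) hyS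
  conv_lhs at g2 => rw [c2, hS.1.car_frob_mul (S.div_mem (hf _) m2) (S.pow_mem m1 _), c1]
  have c3 : μ * a = zz p t := f.injective (by
    rw [div_mul_eq_mul_div, mul_one_div, div_left_inj' y2] at g2
    rw [map_mul, g2])
  have c4 : zz p t * A = zz p t * zz p t ^ (p - 1) := by
    rw [← pow_succ', Nat.sub_add_cancel hp.out.pos]
    conv_rhs => rw [← c3, mul_pow, hμ, ha]
  exact (mul_left_cancel₀ (h.lam_ne h0 ht) c4).symm

theorem lam_pow {t : W.Point} (h0 : t ≠ 0) (ht : p • t = 0) : zz p t ^ (p - 1) = A := by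
  have h1 := sc_om (F := RatFunc M) (M := AlgebraicClosure (RatFunc M)) (EllQ_pb (p := p))
  exact h.EllQ_gen ((algebraMap (RatFunc M) (AlgebraicClosure (RatFunc M))).comp RatFunc.C)
    h1 (fun c => om_alg (RatFunc.C c)) h0 ht

theorem A_ne : A ≠ 0 := by
  obtain ⟨t, h0, ht⟩ := h.ex
  rw [← h.lam_pow h0 ht]
  exact pow_ne_zero _ (h.lam_ne h0 ht)

end Ord

end Pool.Agent.ASel
end

-- merged part: Pool.Agent.Work.MP_60d5ce_nt.AS.EllR
section
/-!
# The level structure (plan in the header of `EllQ.lean`)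
-/

namespace Pool.Agent.ASel

open WeierstrassCurve WeierstrassCurve.Affine Polynomial Pool.Agent.Quad
open scoped Classical

variable {p : ℕ} [hp : Fact p.Prime] {M : Type} [Field M] [CharP M p] [IsAlgClosed M]
  {W : Affine M} {A : M}

omit hp in
theorem EllR_uk (k : ℕ) : uk p (k + 1) = uk p k * p + 1 := by
  rw [uk, uk, Finset.sum_range_succ', Finset.sum_mul]
  simp only [pow_succ, pow_zero]

omit [IsAlgClosed M] in
theorem EllR_mem {S : Subfield M} {k : ℕ} {x : M} :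
    x ∈ S.comap (iterateFrobenius M p k) ↔ x ^ p ^ k ∈ S := Iff.rfl

omit [IsAlgClosed M] in
theorem EllR_le {S : Subfield M} (k : ℕ) {x : M} (hx : x ∈ S) :
    x ∈ S.comap (iterateFrobenius M p k) := S.pow_mem hx _

omit [IsAlgClosed M] in
theorem EllR_eval {S : Subfield M} {f : M[X]} (hf : ∀ i, f.coeff i ∈ S) {x : M} (hx : x ∈ S) :
    f.eval x ∈ S := by
  rw [eval_eq_sum_range]
  exact S.sum_mem fun i _ => S.mul_mem (hf i) (S.pow_mem hx _)

omit [IsAlgClosed M] in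
theorem EllR_slp (h : SW W) {S : Subfield M} (h4 : W.a₄ ∈ S) {P Q : W.Point} (p1 : xc P ∈ S)
    (p2 : yc P ∈ S) (q1 : xc Q ∈ S) (q2 : yc Q ∈ S) : slp P Q ∈ S := by
  rcases P with _ | ⟨x, y, hxy⟩
  · exact S.zero_mem
  rcases Q with _ | ⟨x', y', hxy'⟩
  · exact S.zero_mem
  change W.slope x x' y y' ∈ S
  rw [Affine.slope]
  split_ifs
  · exact S.zero_mem
  · simp only [negY, h.a1, h.a2, h.a3, mul_zero, zero_mul, add_zero, sub_zero]
    exact S.div_mem (S.add_mem (S.mul_mem (ofNat_mem _ 3) (S.pow_mem p1 _)) h4)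
      (S.sub_mem p2 (S.neg_mem p2))
  · exact S.div_mem (S.sub_mem p2 q2) (S.sub_mem p1 q1)

omit [IsAlgClosed M] in
theorem EllR_beta {K : Type} [Field K] (j : K →+* M) (D : Derivation ℤ K K) {δ : M → M}
    (hD : ∀ x, j (D x) = δ (j x)) {V : Affine K} (h : SW V) (d4 : D V.a₄ = 0) (d6 : D V.a₆ = 0)
    (e : V.map j = W) {P Q : W.Point} (hP : (∃ x, j x = xc P) ∧ ∃ y, j y = yc P)
    (hQ : (∃ x, j x = xc Q) ∧ ∃ y, j y = yc Q) :
    δ (xc (P + Q)) / (2 * yc (P + Q)) = δ (xc P) / (2 * yc P) + δ (xc Q) / (2 * yc Q) := by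
  subst e
  obtain ⟨s, c⟩ := exists_cmp V j
  have lift : ∀ R : (V.map j).toAffine.Point, ((∃ x, j x = xc R) ∧ ∃ y, j y = yc R) →
      ∃ R1, s R1 = R := by
    rintro (_ | ⟨x, y, hxy⟩) ⟨⟨x', e1⟩, y', e2⟩
    · exact ⟨0, map_zero s⟩
    · obtain rfl : j x' = x := e1
      obtain rfl : j y' = y := e2
      obtain ⟨h', e3⟩ := c.pt _ _ ((map_nonsingular V j.injective x' y').1 hxy)
      exact ⟨_, e3⟩
  obtain ⟨P, rfl⟩ := lift P hP
  obtain ⟨Q, rfl⟩ := lift Q hQ
  have := congrArg j (beta_add h D d4 d6 P Q)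
  simp only [map_add, map_div₀, map_mul, map_ofNat, hD, ← c.xc_eq, ← c.yc_eq] at this
  exact this

namespace Ord

variable (h : Ord p W A)
include h

theorem zk_succ (k : ℕ) (Q : W.Point) : zk p A (k + 1) Q = zk p A k Q ^ p / A := by
  rw [zk, zk, EllR_uk, div_pow, div_div, ← pow_mul, ← pow_mul, ← pow_succ, ← pow_succ]

theorem EllR_lam {t : W.Point} (ht : p • t = 0) : zz p t ^ p = A * zz p t := by
  by_cases h0 : t = 0
  · rw [h0, h.zz_zero, zero_pow hp.out.ne_zero, mul_zero]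
  · rw [← h.lam_pow h0 ht, ← pow_succ, Nat.sub_add_cancel hp.out.one_le]

theorem zk_tors (k : ℕ) {t : W.Point} (ht : p • t = 0) : zk p A k t = zz p t := by
  induction k with
  | zero => simp [zk, uk]
  | succ k ih => rw [h.zk_succ, ih, h.EllR_lam ht, mul_div_cancel_left₀ _ h.A_ne]

theorem zk_add_tors (k : ℕ) (Q : W.Point) {t : W.Point} (ht : p • t = 0) :
    zk p A k (Q + t) = zk p A k Q + zz p t := by
  rw [← h.zk_tors k ht, zk, zk, zk, h.zz_add_tors Q ht, add_pow_char_pow, add_div]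

theorem wk_add_tors (k : ℕ) (Q : W.Point) {t : W.Point} (ht : p • t = 0) :
    wk p A k (Q + t) = wk p A k Q := by
  rw [wk, wk, h.ww_add_tors Q ht]

variable {S : Subfield M} {t : M} (hS : SC p S t) (h4 : W.a₄ ∈ S) (h6 : W.a₆ ∈ S)
include hS h4 h6

theorem A_mem : A ∈ S := by
  have e : hasseInv p W.a₄ W.a₆ = S.subtype (hasseInv p (⟨_, h4⟩ : S) ⟨_, h6⟩) := by
    rw [hasseInv, hasseInv, ← coeff_map]
    simp
  rw [h.hA, e]
  exact Subtype.property _

theorem zz_tors_mem {P : W.Point} (hP : p • P = 0) : zz p P ∈ S := by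
  refine hS.2 _ (X ^ p - C A * X) (fun i => ?_) ?_ ?_
  · rw [coeff_sub, coeff_X_pow, coeff_C_mul, coeff_X]
    refine S.sub_mem ?_ (S.mul_mem (h.A_mem hS h4 h6) ?_) <;> split_ifs
    exacts [S.one_mem, S.zero_mem, S.one_mem, S.zero_mem]
  · simp [h.EllR_lam hP]
  · simpa [derivative_X_pow] using h.A_ne

theorem EllR_tors (k : ℕ) {P : W.Point} (hP : p • P = 0) : P ∈ Lev p S W (k + 1) := by
  induction k with
  | zero => exact h.tors_lev hS h4 h6 hP
  | succ k ih => exact lev_mono _ ih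

omit hS h6 in
theorem EllR_slp_lev {k : ℕ} {P Q : W.Point} (hP : P ∈ Lev p S W k) (hQ : Q ∈ Lev p S W k) :
    slp P Q ∈ S.comap (iterateFrobenius M p k) :=
  EllR_slp h.sw (EllR_le k h4) ((mem_lev h.sw h4).1 hP).1 ((mem_lev h.sw h4).1 hP).2
    ((mem_lev h.sw h4).1 hQ).1 ((mem_lev h.sw h4).1 hQ).2

theorem EllR_zz {k : ℕ} {Q : W.Point} (hQ : Q ∈ Lev p S W (k + 1)) : zz p Q ^ p ^ (k + 1) ∈ S := by
  rw [← EllR_mem, zz, finsum_mem_eq_finite_toFinset_sum _ h.tors_fin]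
  exact Subfield.sum_mem _ fun P hP => h.EllR_slp_lev h4 hQ
    (h.EllR_tors hS h4 h6 k (h.tors_fin.mem_toFinset.1 hP))

theorem zk_mem {k : ℕ} {Q : W.Point} (hQ : Q ∈ Lev p S W (k + 1)) : zk p A (k + 1) Q ∈ S :=
  S.div_mem (h.EllR_zz hS h4 h6 hQ) (S.pow_mem (h.A_mem hS h4 h6) _)

theorem wk_mem {k : ℕ} {Q : W.Point} (hQ : Q ∈ Lev p S W (k + 1)) : wk p A (k + 1) Q ∈ S := by
  refine S.div_mem (EllR_mem.1 ?_) (S.pow_mem (h.A_mem hS h4 h6) _)
  refine Subfield.add_mem _ (Subfield.div_mem _ (Subfield.pow_mem _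
    (EllR_mem.2 (h.EllR_zz hS h4 h6 hQ)) _) (ofNat_mem _ 2)) ?_
  rw [uU, finsum_mem_eq_finite_toFinset_sum _ h.tors_fin]
  refine Subfield.sum_mem _ fun P hP => ?_
  have hP' : p • P = 0 := h.tors_fin.mem_toFinset.1 hP
  exact Subfield.mul_mem _ (EllR_le _ (h.zz_tors_mem hS h4 h6 hP'))
    (h.EllR_slp_lev h4 hQ (h.EllR_tors hS h4 h6 k hP'))

theorem bk_mem {k : ℕ} {Q : W.Point} (hQ : Q ∈ Lev p S W k) : bk p S t A k Q ∈ S := by
  obtain ⟨e1, e2⟩ := (mem_lev h.sw h4).1 hQ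
  exact S.div_mem (S.mul_mem (S.pow_mem (h.A_mem hS h4 h6) _) (hS.1.der_mem e1))
    (S.mul_mem (ofNat_mem _ 2) e2)

theorem bk_add {k : ℕ} {Q Q' : W.Point} (hQ : Q ∈ Lev p S W (k + 1))
    (hQ' : Q' ∈ Lev p S W (k + 1)) :
    bk p S t A (k + 1) (Q + Q') = bk p S t A (k + 1) Q + bk p S t A (k + 1) Q' := by
  obtain ⟨φ, hφ⟩ : ∃ φ : M →+* M, ∀ x, φ x = x ^ p ^ (k + 1) :=
    ⟨iterateFrobenius M p (k + 1), fun _ => rfl⟩
  have m4 : φ W.a₄ ∈ S := hφ _ ▸ S.pow_mem h4 _
  have m6 : φ W.a₆ ∈ S := hφ _ ▸ S.pow_mem h6 _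
  obtain ⟨W1, hW1⟩ : ∃ W1 : Affine S, W1 = ⟨0, 0, 0, ⟨_, m4⟩, ⟨_, m6⟩⟩ := ⟨_, rfl⟩
  have e : W1.map S.subtype = W.map φ := by
    rw [hW1]
    ext <;> simp [h.sw.a1, h.sw.a2, h.sw.a3]
  obtain ⟨s1, c1⟩ := exists_cmp W φ
  have sw1 : SW W1 := by
    have e1 := c1.sw h.sw
    rw [hW1]
    exact ⟨rfl, rfl, rfl, fun e2 => e1.disc (congrArg Subtype.val e2),
      fun e2 => h.sw.six (congrArg Subtype.val e2)⟩
  obtain ⟨D, hD⟩ := hS.1.exists_derivation
  have d0 : ∀ x ∈ S, der p S t (φ x) = 0 := fun x hx => by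
    rw [hφ, pow_succ, pow_mul]
    exact hS.1.der_frob (S.pow_mem hx _)
  have d4 : D W1.a₄ = 0 := Subtype.ext (by rw [hD, hW1]; exact d0 _ h4)
  have d6 : D W1.a₆ = 0 := Subtype.ext (by rw [hD, hW1]; exact d0 _ h6)
  have lift : ∀ R ∈ Lev p S W (k + 1), (∃ x, S.subtype x = xc (s1 R)) ∧
      ∃ y, S.subtype y = yc (s1 R) := fun R hR => by
    obtain ⟨e1, e2⟩ := (mem_lev h.sw h4).1 hR
    exact ⟨⟨⟨_, e1⟩, by rw [c1.xc_eq, hφ]; rfl⟩, ⟨_, e2⟩, by rw [c1.yc_eq, hφ]; rfl⟩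
  have key := EllR_beta S.subtype D hD sw1 d4 d6 e (lift Q hQ) (lift Q' hQ')
  rw [← map_add s1] at key
  simp only [c1.xc_eq, c1.yc_eq, hφ] at key
  rw [bk, bk, bk, mul_div_assoc, key, mul_add, mul_div_assoc, mul_div_assoc]

theorem bk_eq_zero {k : ℕ} {Q : W.Point} (hQ : Q ∈ Lev p S W (k + 1)) :
    bk p S t A (k + 1) Q = 0 ↔ Q ∈ Lev p S W k := by
  obtain ⟨e1, -⟩ := (mem_lev h.sw h4).1 hQ
  refine ⟨fun h0 => h.lev_of_x hS h4 h6 ?_, fun h0 => ?_⟩
  · rcases div_eq_zero_iff.1 h0 with h1 | h1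
    · obtain ⟨y, hy, e2⟩ := hS.1.der_eq_zero e1
        ((mul_eq_zero.1 h1).resolve_left (pow_ne_zero _ h.A_ne))
      rw [pow_succ, pow_mul] at e2
      exact frobenius_inj M p e2 ▸ hy
    · have two : (2 : M) ≠ 0 := fun e2 => h.sw.six (by linear_combination 3 * e2)
      have h2 : yc Q = 0 := pow_eq_zero_iff (pow_ne_zero _ hp.out.ne_zero) |>.1
        ((mul_eq_zero.1 h1).resolve_left two)
      refine S.pow_mem ?_ _
      rcases Q with _ | ⟨x, y, hxy⟩
      · exact S.zero_mem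
      · obtain rfl : y = 0 := h2
        obtain ⟨e2, e3⟩ := (nonsingular_iff _ _).1 hxy
        rw [equation_iff] at e2
        simp only [h.sw.a1, h.sw.a2, h.sw.a3] at e2 e3
        refine hS.2 x (X ^ 3 + C W.a₄ * X + C W.a₆) (fun i => ?_) ?_ ?_
        · rw [coeff_add, coeff_add, coeff_X_pow, coeff_C_mul, coeff_X, coeff_C]
          refine S.add_mem (S.add_mem ?_ (S.mul_mem h4 ?_)) ?_ <;> split_ifs
          exacts [S.one_mem, S.zero_mem, S.one_mem, S.zero_mem, h6, S.zero_mem]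
        · simp only [eval_add, eval_pow, eval_X, eval_mul, eval_C]
          linear_combination -e2
        · intro e4
          simp at e4
          refine e3.elim (fun e5 => e5 ?_) fun e5 => e5 (by ring)
          linear_combination -e4
  · rw [bk, pow_succ p k, pow_mul, hS.1.der_frob ((mem_lev h.sw h4).1 h0).1, mul_zero, zero_div]

theorem p_lev {k : ℕ} {Q : W.Point} (hQ : Q ∈ Lev p S W (k + 1)) : p • Q ∈ Lev p S W k := by
  by_cases h0 : p • Q = 0
  · rw [h0]
    exact zero_mem _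
  have h1 : Q ≠ 0 := fun e => h0 (by rw [e, smul_zero])
  obtain ⟨N, G, Mm, c, e1, -, -, -, -, -, -, -, -, -, -, e2⟩ := vform h S h4 h6
  have hx : xc Q ^ p ∈ S.comap (iterateFrobenius M p k) := by
    rw [EllR_mem, ← pow_mul, ← pow_succ']
    exact ((mem_lev h.sw h4).1 hQ).1
  refine h.lev_of_x hS h4 h6 (EllR_mem.1 ?_)
  rw [((e2 Q h1).2 h0).1]
  exact Subfield.div_mem _ (EllR_eval (fun i => EllR_le k (e1 i).1) hx)
    (Subfield.pow_mem _ (EllR_eval (fun i => EllR_le k (e1 i).2.1) hx) _)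

theorem exists_vp (k : ℕ) : ∃ ϖ ∈ S, ∀ P : W.Point, p • P = 0 →
    bk p S t A (k + 1) P = zz p P * ϖ := by
  obtain ⟨t0, h0, h1⟩ := h.ex
  have l0 := h.EllR_tors hS h4 h6 k h1
  refine ⟨bk p S t A (k + 1) t0 / zz p t0,
    S.div_mem (h.bk_mem hS h4 h6 l0) (h.zz_tors_mem hS h4 h6 h1), fun P hP => ?_⟩
  obtain ⟨m, rfl⟩ := h.tors_cyc h0 h1 hP
  rw [h.zz_nsmul h1, mul_assoc, mul_div_cancel₀ _ (h.lam_ne h0 h1)]
  clear hP
  induction m with
  | zero =>
    rw [zero_smul, Nat.cast_zero, zero_mul]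
    exact (h.bk_eq_zero hS h4 h6 (zero_mem _)).2 (zero_mem _)
  | succ m ih =>
    rw [succ_nsmul, h.bk_add hS h4 h6 (nsmul_mem l0 m) l0, ih, Nat.cast_succ, add_one_mul]

end Ord

end Pool.Agent.ASel
end

-- merged part: Pool.Agent.Work.MP_60d5ce_nt.AS.EllI
section
/-!
# Isotropy identity (plan in the header of `EllQ.lean`)
-/

namespace Pool.Agent.ASel

open WeierstrassCurve WeierstrassCurve.Affine Polynomial Pool.Agent.Quad
open scoped Classical

variable {p : ℕ} [hp : Fact p.Prime] {M : Type} [Field M] [CharP M p] [IsAlgClosed M]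
  {W : Affine M} {A : M}

namespace Ord

variable (h : Ord p W A)
include h

variable {S : Subfield M} {t : M} (hS : SC p S t) (h4 : W.a₄ ∈ S) (h6 : W.a₆ ∈ S)
include hS h4 h6

theorem EllI_lev (k : ℕ) {P : W.Point} (hP : p • P = 0) : P ∈ Lev p S W (k + 1) := by
  induction k with
  | zero => exact h.tors_lev hS h4 h6 hP
  | succ k ih => exact lev_mono _ ih

theorem EllI_two : ∃ e : W.Point, e ≠ 0 ∧ 2 • e = 0 ∧ xc e ∈ S := by
  obtain ⟨e1, e2, e3, r⟩ := h.sw.exists_rt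
  refine ⟨_, r.tp_ne, r.two_tp, ?_⟩
  rw [r.xc_tp]
  refine hS.2 e1 (X ^ 3 + C W.a₄ * X + C W.a₆) (fun i => ?_) (by simpa using r.root) ?_
  · simp only [coeff_add, coeff_X_pow, coeff_C_mul, coeff_X, coeff_C]
    refine add_mem (add_mem ?_ (mul_mem h4 ?_)) ?_ <;> split_ifs <;>
      first | exact one_mem _ | exact zero_mem _ | exact h6
  · have e : (derivative (X ^ 3 + C W.a₄ * X + C W.a₆)).eval e1 = (e1 - e2) * (e1 - e3) := by
      simp
      linear_combination 2 * e1 * r.s1 - r.s2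
    rw [e]
    exact mul_ne_zero (sub_ne_zero.2 r.ne12) (sub_ne_zero.2 r.ne13)

theorem EllI_mem {k : ℕ} {ϖ : M}
    (hϖ : ∀ P : W.Point, p • P = 0 → bk p S t A (k + 1) P = zz p P * ϖ) : ϖ ∈ S := by
  obtain ⟨P, h0, hP⟩ := h.ex
  rw [show ϖ = bk p S t A (k + 1) P / zz p P by
    rw [hϖ P hP, mul_div_cancel_left₀ _ (h.lam_ne h0 hP)]]
  exact div_mem (h.bk_mem hS h4 h6 (h.EllI_lev hS h4 h6 k hP)) (h.zz_tors_mem hS h4 h6 hP)

theorem EllI_q {k : ℕ} {ϖ : M}
    (hϖ : ∀ P : W.Point, p • P = 0 → bk p S t A (k + 1) P = zz p P * ϖ) {Q : W.Point}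
    (hQ : Q ∈ Lev p S W (k + 1)) :
    car p S t (zk p A (k + 1) Q * bk p S t A (k + 1) Q - zk p A (k + 1) Q ^ 2 * ϖ / 2 +
      wk p A (k + 1) Q * ϖ) = zk p A (k + 1) Q * bk p S t A (k + 1) Q -
        zk p A (k + 1) Q ^ 2 * ϖ / 2 + wk p A (k + 1) Q * ϖ := by
  obtain ⟨s, hs⟩ := exists_cmp W (iterateFrobenius M p (k + 1))
  have ha : A ^ uk p (k + 1) ≠ 0 := pow_ne_zero _ h.A_ne
  have hx : ∀ P, xc (s P) = xc P ^ p ^ (k + 1) := hs.xc_eq
  have hy : ∀ P, yc (s P) = yc P ^ p ^ (k + 1) := hs.yc_eq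
  have hz : ∀ P, zz p (s P) = zk p A (k + 1) P * A ^ uk p (k + 1) := fun P => by
    rw [zk, div_mul_cancel₀ _ ha]
    exact h.zz_map hs P
  have hw : ww p (s Q) = wk p A (k + 1) Q * (A ^ uk p (k + 1)) ^ 2 := by
    rw [wk, mul_comm 2, pow_mul, div_mul_cancel₀ _ (pow_ne_zero _ ha)]
    exact h.ww_map hs Q
  have hb : ∀ P, der p S t (xc (s P)) / (2 * yc (s P)) = bk p S t A (k + 1) P / A ^ uk p (k + 1) :=
    fun P => by rw [hx, hy, bk, mul_div_assoc, mul_div_cancel_left₀ _ ha]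
  have hT : ∀ P', p • P' = 0 → ∃ P, p • P = 0 ∧ s P = P' := fun P' hP => by
    obtain ⟨P, rfl⟩ := h.tors_surj hs 1 (t' := P') (by rwa [pow_one])
    exact ⟨P, hs.inj (by rw [map_nsmul, hP, map_zero]), rfl⟩
  have hc : ∀ a ∈ S, a ^ p ^ (k + 1) ∈ S ∧ der p S t (a ^ p ^ (k + 1)) = 0 := fun a ha =>
    ⟨pow_mem ha _, by rw [pow_succ, pow_mul]; exact hS.1.der_frob (pow_mem ha _)⟩
  have key := (hs.ord h).log_id hS.1 (hc _ h4).1 (hc _ h6).1 (hc _ h4).2 (hc _ h6).2
    (fun P' hP' => by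
      obtain ⟨P, hP, rfl⟩ := hT P' hP'
      rw [hx, hy]
      exact (mem_lev h.sw h4).1 (h.EllI_lev hS h4 h6 k hP))
    (ϖ := ϖ / (A ^ uk p (k + 1)) ^ 2)
    (div_mem (h.EllI_mem hS h4 h6 hϖ) (pow_mem (pow_mem (h.A_mem hS h4 h6) _) _))
    (fun P' hP' => by
      obtain ⟨P, hP, rfl⟩ := hT P' hP'
      rw [hb, hz, hϖ P hP, h.zk_tors _ hP]
      field_simp)
    (by
      obtain ⟨e, e0, e2, eS⟩ := h.EllI_two hS h4 h6
      exact ⟨s e, fun e' => e0 (hs.inj (e'.trans (map_zero s).symm)),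
        by rw [← map_nsmul, e2, map_zero], hx e ▸ pow_mem eS _⟩)
    (Q := s Q) (hx Q ▸ ((mem_lev h.sw h4).1 hQ).1) (hy Q ▸ ((mem_lev h.sw h4).1 hQ).2)
  have e : zz p (s Q) * (der p S t (xc (s Q)) / (2 * yc (s Q))) -
      zz p (s Q) ^ 2 * (ϖ / (A ^ uk p (k + 1)) ^ 2) / 2 + ww p (s Q) * (ϖ / (A ^ uk p (k + 1)) ^ 2) =
      zk p A (k + 1) Q * bk p S t A (k + 1) Q - zk p A (k + 1) Q ^ 2 * ϖ / 2 +
        wk p A (k + 1) Q * ϖ := by
    rw [hb, hz, hw]
    field_simp
  rwa [e] at key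

omit h4 h6 in
theorem EllI_div {P : W.Point} (h0 : P ≠ 0) (hP : p • P = 0) (hz : zz p P ∈ S) {b : M}
    (hb : b / A ∈ S) : car p S t (zz p P * b) = zz p P * car p S t (b / A) := by
  rw [← hS.1.car_frob_mul hz hb, ← h.lam_pow h0 hP]
  congr 1
  have := h.lam_ne h0 hP
  obtain ⟨m, hm⟩ : ∃ m, p = m + 1 := ⟨p - 1, (Nat.succ_pred_eq_of_pos hp.out.pos).symm⟩
  generalize zz p P = z at this ⊢
  rw [hm, Nat.add_sub_cancel]
  field_simp
  ring

theorem car_bk {k : ℕ} {Q : W.Point} (hQ : Q ∈ Lev p S W (k + 1)) :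
    car p S t (bk p S t A (k + 1) Q / A) = bk p S t A (k + 1) Q := by
  obtain ⟨ϖ, -, hϖ⟩ := h.exists_vp hS h4 h6 k
  obtain ⟨P, h0, hP⟩ := h.ex
  have hl := h.EllI_lev hS h4 h6 k hP
  have q1 := h.EllI_q hS h4 h6 hϖ hQ
  have q2 := h.EllI_q hS h4 h6 hϖ hl
  have q3 := h.EllI_q hS h4 h6 hϖ (add_mem hQ hl)
  have w0 : wk p A (k + 1) P = 0 := by
    rw [← zero_add P, h.wk_add_tors _ _ hP, wk, h.ww_zero, zero_pow (pow_ne_zero _ hp.out.ne_zero),
      zero_div]
  rw [h.zk_tors _ hP, hϖ P hP, w0] at q2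
  rw [h.zk_add_tors _ _ hP, h.wk_add_tors _ _ hP, h.bk_add hS h4 h6 hQ hl, hϖ P hP] at q3
  have q := congrArg₂ (· - ·) (congrArg₂ (· - ·) q3 q1) q2
  have h2 := h.sw.two
  simp only [← map_sub] at q
  rw [show _ - _ - _ = zz p P * bk p S t A (k + 1) Q by field_simp; ring,
    h.EllI_div hS h0 hP (h.zz_tors_mem hS h4 h6 hP)
      (div_mem (h.bk_mem hS h4 h6 hQ) (h.A_mem hS h4 h6))] at q
  exact mul_left_cancel₀ (h.lam_ne h0 hP) q

variable {k : ℕ} {ϖ : M} (hϖ : ∀ P : W.Point, p • P = 0 → bk p S t A (k + 1) P = zz p P * ϖ)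
include hϖ

theorem car_vp : car p S t (ϖ / A ^ 2) = ϖ := by
  obtain ⟨P, h0, hP⟩ := h.ex
  have q := h.car_bk hS h4 h6 (h.EllI_lev hS h4 h6 k hP)
  have e : ϖ / A / A = ϖ / A ^ 2 := by rw [div_div, sq]
  rw [hϖ P hP, mul_div_assoc, h.EllI_div hS h0 hP (h.zz_tors_mem hS h4 h6 hP)
    (e ▸ div_mem (h.EllI_mem hS h4 h6 hϖ) (pow_mem (h.A_mem hS h4 h6) _)), e] at q
  exact mul_left_cancel₀ (h.lam_ne h0 hP) q

theorem rho0_mem {Q Q' : W.Point} (hQ : Q ∈ Lev p S W (k + 1)) (hQ' : Q' ∈ Lev p S W (k + 1)) :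
    rho0 p S t A (k + 1) ϖ Q Q' ∈ S := by
  have z := sub_mem (sub_mem (h.zk_mem hS h4 h6 (add_mem hQ hQ')) (h.zk_mem hS h4 h6 hQ))
    (h.zk_mem hS h4 h6 hQ')
  have v := h.EllI_mem hS h4 h6 hϖ
  exact add_mem (sub_mem (mul_mem z (sub_mem (add_mem (h.bk_mem hS h4 h6 hQ) (h.bk_mem hS h4 h6 hQ'))
    (mul_mem (add_mem (h.zk_mem hS h4 h6 hQ) (h.zk_mem hS h4 h6 hQ')) v)))
    (div_mem (mul_mem (pow_mem z 2) v) (ofNat_mem S 2))) (mul_mem (sub_mem (sub_mem
      (h.wk_mem hS h4 h6 (add_mem hQ hQ')) (h.wk_mem hS h4 h6 hQ)) (h.wk_mem hS h4 h6 hQ')) v)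

theorem rho0_tors {Q Q' : W.Point} (hQ : Q ∈ Lev p S W (k + 1)) (hQ' : Q' ∈ Lev p S W (k + 1))
    {P P' : W.Point} (hP : p • P = 0) (hP' : p • P' = 0) :
    rho0 p S t A (k + 1) ϖ (Q + P) (Q' + P') = rho0 p S t A (k + 1) ϖ Q Q' := by
  rw [rho0, rho0, show Q + P + (Q' + P') = Q + Q' + P + P' by abel,
    h.bk_add hS h4 h6 hQ (h.EllI_lev hS h4 h6 k hP),
    h.bk_add hS h4 h6 hQ' (h.EllI_lev hS h4 h6 k hP'), hϖ P hP, hϖ P' hP']
  simp only [h.zk_add_tors _ _ hP, h.zk_add_tors _ _ hP', h.wk_add_tors _ _ hP,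
    h.wk_add_tors _ _ hP']
  ring

theorem iso_car {Q Q' : W.Point} (hQ : Q ∈ Lev p S W (k + 1)) (hQ' : Q' ∈ Lev p S W (k + 1)) :
    car p S t (zk p A (k + 1) Q * bk p S t A (k + 1) Q' + zk p A (k + 1) Q' * bk p S t A (k + 1) Q -
        zk p A (k + 1) Q * zk p A (k + 1) Q' * ϖ + rho0 p S t A (k + 1) ϖ Q Q') =
      zk p A (k + 1) Q * bk p S t A (k + 1) Q' + zk p A (k + 1) Q' * bk p S t A (k + 1) Q -
        zk p A (k + 1) Q * zk p A (k + 1) Q' * ϖ + rho0 p S t A (k + 1) ϖ Q Q' := by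
  have q := congrArg₂ (· - ·) (congrArg₂ (· - ·) (h.EllI_q hS h4 h6 hϖ (add_mem hQ hQ'))
    (h.EllI_q hS h4 h6 hϖ hQ)) (h.EllI_q hS h4 h6 hϖ hQ')
  have h2 := h.sw.two
  simp only [← map_sub] at q
  rwa [h.bk_add hS h4 h6 hQ hQ', show _ - _ - _ = zk p A (k + 1) Q * bk p S t A (k + 1) Q' +
    zk p A (k + 1) Q' * bk p S t A (k + 1) Q - zk p A (k + 1) Q * zk p A (k + 1) Q' * ϖ +
      rho0 p S t A (k + 1) ϖ Q Q' by rw [rho0]; field_simp; ring] at q

end Ord

end Pool.Agent.ASel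
end

-- merged part: Pool.Agent.Work.MP_60d5ce_nt.AS.EllU
section
/-!
# The differential of multiplication by `p` (plan in the header of `EllQ.lean`)

The constant `c / A` is fixed by Frobenius: apply `car_bk` to a point with `x ^ p ^ 2 = t` and to its
multiple by `p`.
-/

namespace Pool.Agent.ASel

open WeierstrassCurve WeierstrassCurve.Affine Polynomial Pool.Agent.Quad
open scoped Classical

variable {p : ℕ} [hp : Fact p.Prime] {M : Type} [Field M] [CharP M p] [IsAlgClosed M]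
  {W : Affine M} {A : M}

theorem EllU_nat {z : M} (hz : z ^ p = z) : ∃ ρ : ℕ, (ρ : M) = z := by
  obtain ⟨n, rfl⟩ := (mem_bot_iff_intCast p M).1 ((Subfield.mem_bot_iff_pow_eq_self M p).2 hz)
  have h0 : (0 : ℤ) ≤ n % p := Int.emod_nonneg _ (by exact_mod_cast hp.out.ne_zero)
  refine ⟨(n % p).toNat, ?_⟩
  rw [← Int.cast_natCast, Int.toNat_of_nonneg h0]
  exact (CharP.intCast_eq_intCast M p).2 (Int.mod_modEq n p)

theorem EllU_eq (h : SW W) {x y : M} (hn : W.Nonsingular x y) :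
    y ^ 2 = x ^ 3 + W.a₄ * x + W.a₆ := by
  have := (equation_iff x y).1 hn.1
  rw [h.a1, h.a2, h.a3] at this
  linear_combination this

theorem EllU_root (h : SW W) {S : Subfield M} {t : M} (hS : SC p S t) (h4 : W.a₄ ∈ S)
    (h6 : W.a₆ ∈ S) {x : M} (hx : x ^ 3 + W.a₄ * x + W.a₆ = 0) : x ∈ S := by
  refine hS.2 x (X ^ 3 + C W.a₄ * X + C W.a₆) (fun i => ?_) (by simpa using hx) fun h0 => h.disc ?_
  · simp only [coeff_add, coeff_X_pow, coeff_C_mul, coeff_X, coeff_C]
    refine S.add_mem (S.add_mem ?_ (S.mul_mem h4 ?_)) ?_ <;> split_ifs <;>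
      first | exact S.one_mem | exact S.zero_mem | exact h6
  · have h1 : (2 + 1) * x ^ 2 + W.a₄ = 0 := by simpa using h0
    linear_combination (27 * W.a₆ - 18 * W.a₄ * x) * hx +
      (6 * W.a₄ * x ^ 2 - 9 * W.a₆ * x + 4 * W.a₄ ^ 2) * h1

theorem EllU_ev (n : ℕ) (f : M[X]) (x : M) :
    f.eval x ^ p ^ n = (f.map (iterateFrobenius M p n)).eval (x ^ p ^ n) := by
  rw [← iterateFrobenius_def, ← iterateFrobenius_def p n x, eval_map_apply]

theorem EllU_ev_mem {S : Subfield M} {f : M[X]} (hf : ∀ i, f.coeff i ∈ S) {x : M} (hx : x ∈ S) :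
    f.eval x ∈ S := by
  rw [eval_eq_sum_range]
  exact S.sum_mem fun i _ => S.mul_mem (hf i) (S.pow_mem hx i)

theorem EllU_co {S : Subfield M} {t : M} (hS : PB p S t) (n : ℕ) {f : M[X]}
    (hf : ∀ i, f.coeff i ∈ S) (i : ℕ) :
    (f.map (iterateFrobenius M p (n + 1))).coeff i ∈ S ∧
      der p S t ((f.map (iterateFrobenius M p (n + 1))).coeff i) = 0 := by
  rw [coeff_map, iterateFrobenius_def]
  refine ⟨S.pow_mem (hf i) _, ?_⟩
  rw [pow_succ, pow_mul]
  exact hS.der_frob (S.pow_mem (hf i) _)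

namespace Ord

variable (h : Ord p W A)
include h

variable {S : Subfield M} {t : M} (hS : SC p S t) (h4 : W.a₄ ∈ S) (h6 : W.a₆ ∈ S)
include hS h4 h6

theorem EllU_zero {k : ℕ} {Q : W.Point} (hQ : Q ∈ Lev p S W (k + 2)) (h0 : yc (p • Q) = 0) :
    bk p S t A (k + 1) (p • Q) = 0 ∧ bk p S t A (k + 2) Q = 0 := by
  refine ⟨by rw [bk, h0, zero_pow (pow_ne_zero _ hp.out.ne_zero), mul_zero, div_zero], ?_⟩
  have h1 : p • Q ∈ Lev p S W 0 := by
    refine h.lev_of_x hS h4 h6 ?_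
    rw [pow_zero, pow_one]
    generalize p • Q = P at h0
    rcases P with _ | ⟨x, y, hn⟩
    · exact S.zero_mem
    · have := EllU_eq h.sw hn
      have hy : y = 0 := h0
      refine EllU_root h.sw hS h4 h6 ?_
      rw [hy] at this
      simpa [xc] using this.symm
  exact (h.bk_eq_zero hS h4 h6 hQ).2
    (monotone_nat_of_le_succ (f := Lev p S W) lev_mono (Nat.le_add_left 1 k) (h.lev_of_p hS h4 h6 h1))

theorem EllU_main : ∃ c ∈ S, c ≠ 0 ∧ ∀ k, ∀ Q ∈ Lev p S W (k + 2),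
    bk p S t A (k + 1) (p • Q) = (c / A) ^ p ^ (k + 1) * bk p S t A (k + 2) Q := by
  obtain ⟨N, G, Mm, c, hco, hc, hc0, -, -, -, -, -, hd, -, -, hf⟩ := vform h S h4 h6
  refine ⟨c, hc, hc0, fun k Q hQ => ?_⟩
  by_cases h0 : yc (p • Q) = 0
  · obtain ⟨e1, e2⟩ := h.EllU_zero hS h4 h6 hQ h0
    rw [e1, e2, mul_zero]
  have hp0 : p • Q ≠ 0 := fun e => h0 (by rw [e]; rfl)
  have hQ0 : Q ≠ 0 := fun e => hp0 (by rw [e, smul_zero])
  obtain ⟨hG, hxy⟩ := hf Q hQ0
  obtain ⟨hx, hy⟩ := hxy hp0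
  have hX := ((mem_lev h.sw h4).1 hQ).1
  have e (z : M) : (z ^ p) ^ p ^ (k + 1) = z ^ p ^ (k + 2) := by rw [← pow_mul, ← pow_succ']
  have hG0 : (G.map (iterateFrobenius M p (k + 1))).eval (xc Q ^ p ^ (k + 2)) ≠ 0 := by
    rw [← e, ← EllU_ev]
    exact pow_ne_zero _ fun e => hp0 (hG.2 e)
  have hM0 : (Mm.map (iterateFrobenius M p (k + 1))).eval (xc Q ^ p ^ (k + 2)) ≠ 0 := by
    rw [← e, ← EllU_ev]
    exact pow_ne_zero _ fun e => h0 (by rw [hy, e, mul_zero, zero_div])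
  have hY0 : yc Q ^ p ^ (k + 2) ≠ 0 := by
    rw [← e]
    exact pow_ne_zero _ fun e => h0 (by rw [hy, e, zero_mul, zero_div])
  have hN := EllU_co hS.1 k fun i => (hco i).1
  have hG' := EllU_co hS.1 k fun i => (hco i).2.1
  have hd' := congrArg (fun f => (f.map (iterateFrobenius M p (k + 1))).eval (xc Q ^ p ^ (k + 2))) hd
  simp only [Polynomial.map_sub, Polynomial.map_mul, Polynomial.map_ofNat, ← derivative_map, map_C,
    eval_sub, eval_mul, eval_C, eval_ofNat, iterateFrobenius_def] at hd'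
  have hGm := EllU_ev_mem (fun i => (hG' i).1) hX
  have h2 : (2 : M) ≠ 0 := fun e => h.sw.six (by linear_combination 3 * e)
  have hA := h.A_ne
  rw [bk, bk, hx, hy, div_pow, div_pow, mul_pow, pow_right_comm _ 2, pow_right_comm _ 3, EllU_ev,
    EllU_ev, EllU_ev, e, e, hS.1.der_div (EllU_ev_mem (fun i => (hN i).1) hX) (S.pow_mem hGm 2),
    hS.1.der_pow hGm, hS.1.der_eval hN hX, hS.1.der_eval hG' hX, uk, uk, Finset.sum_range_succ _ (k + 1),
    pow_add A, div_pow]
  generalize (G.map (iterateFrobenius M p (k + 1))).eval (xc Q ^ p ^ (k + 2)) = g at hd' hG0 ⊢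
  generalize (Mm.map (iterateFrobenius M p (k + 1))).eval (xc Q ^ p ^ (k + 2)) = m at hd' hM0 ⊢
  have hA' : A ^ p ^ (k + 1) ≠ 0 := pow_ne_zero _ hA
  generalize A ^ p ^ (k + 1) = a at hA' ⊢
  generalize yc Q ^ p ^ (k + 2) = y at hY0 ⊢
  simp only [derivative_map] at hd'
  norm_num
  field_simp
  linear_combination (der p S t (xc Q ^ p ^ (k + 2))) * hd'

theorem vbeta : ∃ ρ : ℕ, (ρ : M) ≠ 0 ∧ ∀ k, ∀ Q ∈ Lev p S W (k + 2),
    bk p S t A (k + 1) (p • Q) = ρ * bk p S t A (k + 2) Q := by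
  obtain ⟨c, hc, hc0, hm⟩ := h.EllU_main hS h4 h6
  have hA := h.A_ne
  have hAS := h.A_mem hS h4 h6
  obtain ⟨x, hx⟩ := IsAlgClosed.exists_pow_nat_eq t (pow_pos hp.out.pos (0 + 2))
  obtain ⟨y, hy⟩ := IsAlgClosed.exists_pow_nat_eq (x ^ 3 + W.a₄ * x + W.a₆) two_pos
  have hy0 : y ≠ 0 := fun e => hS.1.2.1 (x ^ p)
    (S.pow_mem (EllU_root h.sw hS h4 h6 (by rw [← hy, e]; simp)) _) (by rw [← pow_mul, ← hx]; ring)
  have h2 : (2 : M) ≠ 0 := fun e => h.sw.six (by linear_combination 3 * e)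
  have hn : W.Nonsingular x y := by
    rw [nonsingular_iff', equation_iff, h.sw.a1, h.sw.a2, h.sw.a3]
    exact ⟨by linear_combination hy, Or.inr (by simpa using ⟨h2, hy0⟩)⟩
  have hQ : Point.some x y hn ∈ Lev p S W (0 + 2) :=
    h.lev_of_x hS h4 h6 (by rw [xc, hx]; exact hS.1.1)
  have hb : bk p S t A (0 + 2) (Point.some x y hn) ≠ 0 := by
    rw [bk, xc, yc, hx, hS.1.der_t, mul_one]
    exact div_ne_zero (pow_ne_zero _ hA) (mul_ne_zero h2 (pow_ne_zero _ hy0))
  have e1 := h.car_bk hS h4 h6 (h.p_lev hS h4 h6 hQ)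
  rw [hm 0 _ hQ, zero_add 1, pow_one, mul_div_assoc, hS.1.car_frob_mul (S.div_mem hc hAS)
    (S.div_mem (h.bk_mem hS h4 h6 hQ) hAS), h.car_bk hS h4 h6 hQ] at e1
  have e2 := (mul_right_cancel₀ hb e1).symm
  obtain ⟨ρ, hρ⟩ := EllU_nat e2
  refine ⟨ρ, by rw [hρ]; exact div_ne_zero hc0 hA, fun k Q hQ => ?_⟩
  rw [hm k Q hQ, hρ, ← iterateFrobenius_def, ← hρ, map_natCast]

end Ord

end Pool.Agent.ASel
end
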