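import Pool.Agent.Work.MP_60d5ce_nt.AS.FC

/-!
# Normalised cocycles, bad primes, the standing situation  (AS, function field side)

`Fj`: the finite group of normalised cocycles indexed by subsets; it does not depend on the large prime.  `BadS`: the primes at which a nonzero element `η - Ξ (y, y')` vanishes.
`Bd`: the line of the classes that are orthogonal to a given class.  `Su`: the family `Φ` over `b = b' * P`.

PLAN.  Closure properties (`nm_na`, `add_pow_char`, `hh_add`, `hh_smul`).  `Su.b'_ne` etc.: `Stg.b_ne`, `IsCoprime.of_mul_left_left`; `plp` of a finite place is monic irreducible, two finite places with `plp v ∣ plp P` are equal.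
`av_pol`: `av_poly_le`, `av_plp`, `av_poly_lt`, `av_inf`.  `exists_sol`: `IsAlgClosed.exists_root`; `sol_lift`: `wp_ker` with the image of a root of `l ^ (p - 1) = A`.
-/

set_option linter.unusedSectionVars false

namespace Pool.Agent.ASel

open Polynomial Pool.Agent.Smith Finset
open scoped Classical

noncomputable section

variable {p : ℕ} {k : Type} [Field k] [Fintype k] [hp : Fact p.Prime] [CharP k p] {ι : Type}

variable (p) in
/-- normalised cocycles -/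
def Fj (A F b : k[X]) (d ϖ : RatFunc k) (Med : Finset (Pl k)) (n1 : ℕ) {n : ℕ} (W : Fin n → Kb k) :
    AddSubgroup (Finset (Fin n) → Kb k × Kb k) where
  carrier := {x | (fun I => (x I).1) ∈ Eq1 p (RatFunc k) W ∧ (fun I => (x I).2) ∈ Eq1 p (RatFunc k) W ∧
    ∀ I, (x I).2 - cB p ((x I).2 / pk _ A) + (x I).1 * algebraMap _ _ ϖ = 0 ∧ ∀ v,
      (InU F b v → nm v (emb v (x I).2) ≤ 1) ∧ nm v (emb v (x I).1) ≤ 2 ^ n1 ∧
      (InAn p A b v → ∃ t : Lv v, t ^ p / pk _ A - t = 0 ∧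
        nm v (emb v (x I).1 - algebraMap _ _ (t * algebraMap _ _ d)) ≤ 1) ∧
      (¬ InS p A F b v → v ∉ Med → nm v (emb v (x I).1) ≤ 1)}
  zero_mem' := ⟨zero_mem _, zero_mem _, fun I => ⟨by simp, fun v =>
    ⟨fun _ => by simp, by simp, fun _ => ⟨0, by simp [hp.out.ne_zero], by simp⟩, fun _ _ => by simp⟩⟩⟩
  add_mem' {x y} hx hy := ⟨add_mem hx.1 hy.1, add_mem hx.2.1 hy.2.1, fun I => by
    obtain ⟨a1, a2⟩ := hx.2.2 I
    obtain ⟨b1, b2⟩ := hy.2.2 I
    simp only [Pi.add_apply, Prod.fst_add, Prod.snd_add, add_div, map_add]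
    refine ⟨by linear_combination a1 + b1, fun v => ⟨fun h => LocA_add_le (nm_na v) ((a2 v).1 h)
      ((b2 v).1 h), LocA_add_le (nm_na v) (a2 v).2.1 (b2 v).2.1, fun h => ?_, fun h h' =>
        LocA_add_le (nm_na v) ((a2 v).2.2.2 h h') ((b2 v).2.2.2 h h')⟩⟩
    obtain ⟨t, t1, t2⟩ := (a2 v).2.2.1 h
    obtain ⟨u, u1, u2⟩ := (b2 v).2.2.1 h
    refine ⟨t + u, by rw [Wp_add, t1, u1, add_zero], ?_⟩
    rw [add_mul, map_add, add_sub_add_comm]
    exact LocA_add_le (nm_na v) t2 u2⟩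
  neg_mem' {x} hx := ⟨neg_mem hx.1, neg_mem hx.2.1, fun I => by
    obtain ⟨a1, a2⟩ := hx.2.2 I
    simp only [Pi.neg_apply, Prod.fst_neg, Prod.snd_neg, neg_div, map_neg, AbsoluteValue.map_neg]
    refine ⟨by linear_combination -a1, fun v => ⟨(a2 v).1, (a2 v).2.1, fun h => ?_, (a2 v).2.2.2⟩⟩
    obtain ⟨t, t1, t2⟩ := (a2 v).2.2.1 h
    refine ⟨0 - t, by rw [Wp_sub, t1, zero_pow hp.out.ne_zero, zero_div, sub_zero, sub_zero], ?_⟩
    rwa [zero_sub, neg_mul, map_neg, ← neg_sub', AbsoluteValue.map_neg]⟩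

variable (p) in
/-- `y` solves `℘ y = a` -/
def Sol (A : k[X]) {n : ℕ} (a y : Finset (Fin n) → Kb k) : Prop :=
  ∀ I, y I ^ p / pk _ A - y I = a I

variable (p) in
/-- the difference of `η` and the primitive attached to `y`, `y'` -/
def dif (A : k[X]) (ϖ : RatFunc k) (ε : ℤ) {n : ℕ} (x x' : Finset (Fin n) → Kb k × Kb k)
    (η : RatFunc k) (y y' : Finset (Fin n) → Kb k) : Kb k :=
  algebraMap _ _ η - xiT p (pk (Kb k) A) ε (algebraMap _ _ ϖ) y (fun I => (x I).2) y' fun I => (x' I).2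

variable (p) in
/-- `η` is a primitive of the cup product, regular outside `F b`, not of the form `Ξ (y, y')` -/
def Prim (A F b : k[X]) (ϖ : RatFunc k) (ε : ℤ) {n : ℕ} (x x' : Finset (Fin n) → Kb k × Kb k)
    (η : RatFunc k) : Prop :=
  algebraMap _ _ (η - cK p η) = thT ε (algebraMap _ _ ϖ) (fun I => (x I).1) (fun I => (x I).2)
      (fun I => (x' I).1) (fun I => (x' I).2) ∧ (∀ v, InU F b v → av v η ≤ 1) ∧
    ∀ y y', Sol p A (fun I => (x I).1) y → Sol p A (fun I => (x' I).1) y' →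
      dif p A ϖ ε x x' η y y' ≠ 0

variable (p) in
/-- the zeros of the differences -/
def Zer (A F b : k[X]) (ϖ : RatFunc k) (ε : ℤ) {n : ℕ} (x x' : Finset (Fin n) → Kb k × Kb k)
    (η : RatFunc k) : Set (Pl k) :=
  {P | InU F b P ∧ ∃ y y', Sol p A (fun I => (x I).1) y ∧ Sol p A (fun I => (x' I).1) y' ∧
    nm P (emb P (dif p A ϖ ε x x' η y y')) < 1}

/-- a simple polar part -/
def pol (c : k[X]) (v : Pl k) : RatFunc k := pk (RatFunc k) c / pk _ (plp v)

variable (p) in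
/-- the bad primes -/
def BadS (A F b : k[X]) (d ϖ : RatFunc k) (ε : ℤ) (n1 : ℕ) {K : ℕ} (vv : Fin K → Pl k) : Set (Pl k) :=
  {P | ∃ (n : ℕ) (hn : n ≤ K) (W : Fin n → Kb k) (c : Fin n → k[X]),
    (∀ i, (c i).degree < (plp (vv (i.castLE hn))).degree ∧
      W i ^ p - W i = algebraMap _ _ (pol (c i) (vv (i.castLE hn)))) ∧
    ∃ x ∈ Fj p A F b d ϖ (univ.image vv) n1 W, ∃ x' ∈ Fj p A F b d ϖ (univ.image vv) n1 W,
      ∃ η, Prim p A F b ϖ ε x x' η ∧ P ∈ Zer p A F b ϖ ε x x' η}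

variable (p) in
/-- the class of `(a', w')` lies on the line attached to `(a, w)` and the sign `s` -/
def Bd (A : k[X]) (ϖ : RatFunc k) (s : ℤ) (a w a' w' : Kb k) : Prop :=
  ∃ (κ : ZMod p) (y : RatFunc k), a' = κ.val * a + algebraMap _ _ (y ^ p / pk _ A - y) ∧
    w' = -(s * κ.val * w) - algebraMap _ _ (y ^ p / pk _ A * ϖ) ∧ (κ.val : RatFunc k) * (1 + s) * ϖ = 0

variable (p) in
/-- good classes -/
def Gd (A : k[X]) (ϖ : RatFunc k) (a w : Kb k) : Prop :=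
  (∀ y : RatFunc k, a ≠ algebraMap _ _ (y ^ p / pk _ A - y)) ∧ (ϖ = 0 → w ≠ 0)

theorem av_pol {c : k[X]} {P : Pl k} (hP : P ≠ none) (hc : c.degree < (plp P).degree) :
    (∀ v, av v (pol c P) ≤ 2) ∧ (∀ v, v ≠ P → av v (pol c P) ≤ 1) ∧ av (none : Pl k) (pol c P) < 1 ∧
      (c ≠ 0 → 1 < av P (pol c P)) := by
  obtain ⟨h1, h2, h3⟩ := Hasse_frac hP hc
  have h4 : av (none : Pl k) (pol c P) < 1 := lt_of_le_of_lt h2 (by norm_num)
  have h5 : ∀ v, v ≠ P → av v (pol c P) ≤ 1 := fun v hv => by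
    by_cases h : v = none
    · exact h ▸ h4.le
    · exact h1 v h hv
  refine ⟨fun v => ?_, h5, h4, fun h0 => ?_⟩
  · by_cases h : v = P
    · exact h ▸ h3
    · exact (h5 v h).trans one_le_two
  · change 1 < av P (algebraMap k[X] (RatFunc k) c / algebraMap k[X] _ (plp P))
    rw [map_div₀, av_plp hP, PF_one hP (not_dvd_of_degree_lt h0 hc)]
    norm_num

theorem FB_pk {A : k[X]} (hA : A ≠ 0) (M : Type) [Field M] [Algebra (RatFunc k) M] : pk M A ≠ 0 :=
  (_root_.map_ne_zero (algebraMap (RatFunc k) M)).2 (RatFunc.algebraMap_ne_zero hA)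

theorem FB_root {M : Type} [Field M] [IsAlgClosed M] {A : M} (hA : A ≠ 0) (a : M) :
    ∃ y, y ^ p / A - y = a := by
  have h : (C A * X + C (A * a) : M[X]).degree < (X ^ p : M[X]).degree := by
    rw [degree_X_pow]
    exact degree_linear_le.trans_lt (by exact_mod_cast hp.out.one_lt)
  obtain ⟨y, hy⟩ := IsAlgClosed.exists_root (X ^ p - (C A * X + C (A * a)) : M[X]) (by
    rw [degree_sub_eq_left_of_degree_lt h, degree_X_pow]
    exact_mod_cast hp.out.ne_zero)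
  simp only [IsRoot.def, eval_sub, eval_add, eval_mul, eval_pow, eval_X, eval_C] at hy
  refine ⟨y, ?_⟩
  rw [sub_eq_zero.1 hy]
  field_simp
  ring

theorem exists_sol {A : k[X]} (hA : A ≠ 0) {n : ℕ} (a : Finset (Fin n) → Kb k) :
    ∃ y, Sol p A a y := by
  choose y hy using fun I => FB_root (p := p) (FB_pk hA (Kb k)) (a I)
  exact ⟨y, hy⟩

theorem Sol.om {A : k[X]} (hA : A ≠ 0) {n : ℕ} {a y : Finset (Fin n) → Kb k} (h : Sol p A a y)
    (ha : ∀ I, a I ∈ Om (RatFunc k) (Kb k)) (I : Finset (Fin n)) : y I ∈ Om (RatFunc k) (Kb k) :=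
  om_wp (om_alg _) (FB_pk hA _) (ha I) (h I)

/-- local solutions come from global ones -/
theorem sol_lift {A : k[X]} (hA : A ≠ 0) {n : ℕ} {a : Finset (Fin n) → Kb k} {v : Pl k}
    {z : Finset (Fin n) → Lb v} (h : ∀ I, emb v (a I) = z I ^ p / pk _ A - z I) :
    ∃ y, Sol p A a y ∧ ∀ I, emb v (y I) = z I := by
  obtain ⟨y, hy⟩ := exists_sol (p := p) hA a
  have hp1 : 0 < p - 1 := Nat.sub_pos_of_lt hp.out.one_lt
  obtain ⟨l, hl⟩ := IsAlgClosed.exists_pow_nat_eq (pk (Kb k) A) hp1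
  have l0 : l ≠ 0 := fun e => FB_pk hA _ (by rw [← hl, e, zero_pow hp1.ne'])
  have key : ∀ I, ∃ m : ℕ, z I - emb v (y I) = m * emb v l := fun I =>
    wp_ker (p := p) (A := pk _ A) (by rw [← map_pow, hl, emb_pk]) ((_root_.map_ne_zero _).2 l0) (by
      rw [Wp_sub, ← h I, ← hy I, map_sub, map_div₀, map_pow, emb_pk, sub_self])
  choose m hm using key
  refine ⟨fun I => y I + m I * l, fun I => ?_, fun I => ?_⟩
  · rw [Wp_add, hy I, mul_pow, FEq_frob, Wp_pow l, hl, ← mul_assoc,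
      mul_div_cancel_right₀ _ (FB_pk hA _), sub_self, add_zero]
  · rw [map_add, map_mul, map_natCast, ← hm, add_sub_cancel]

variable [Fintype ι]

/-- the members of the family with a single pole -/
def Blk (Φ : ASF p k ι) (v : Pl k) : Submodule (ZMod p) (ι → ZMod p) where
  carrier := {e | ∃ c : k[X], c.degree < (plp v).degree ∧ hh Φ e = pol c v}
  zero_mem' := ⟨0, by simpa [bot_lt_iff_ne_bot] using (PF_monic v).ne_zero, by simp [hh, pol]⟩
  add_mem' := by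
    rintro e e' ⟨c, h1, h2⟩ ⟨c', h3, h4⟩
    exact ⟨c + c', (degree_add_le _ _).trans_lt (max_lt h1 h3), by
      rw [hh_add, h2, h4, pol, pol, pol, map_add, add_div]⟩
  smul_mem' := by
    rintro m e ⟨c, h1, h2⟩
    exact ⟨m.val • c, (degree_smul_le _ _).trans_lt h1, by
      rw [hh_smul, h2, pol, pol, map_nsmul, nsmul_eq_mul, mul_div_assoc]⟩

/-- the standing situation -/
structure Su (A F b' : k[X]) (P : Pl k) (d' : RatFunc k) {K : ℕ} (vv : Fin K → Pl k)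
    (Φ : ASF p k ι) : Prop where
  stg : Stg A F (b' * plp P) Φ
  P_na : InNa p A (b' * plp P) P
  P_not : ¬ plp P ∣ b'
  inj : Function.Injective vv
  vv_na : ∀ i, InNa p A b' (vv i)
  near : ∀ v, v ≠ P → av v (Φ.d - d') ≤ 1
  pole : ∀ v, InAn p A b' v → 1 < av v Φ.d
  hinj : ∀ e, hh Φ e = 0 → e = 0
  big : ∀ c : k[X], c.degree < (plp P).degree → (∀ v, InS p A F (b' * plp P) v → v ≠ none →
    res p v (algebraMap _ _ (pol c P) / uL v) = 0) → ∃ e, hh Φ e = pol c P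
  dim : ∀ i, pdg (vv i) ≤ Module.finrank (ZMod p) (Blk Φ (vv i)) + (fac' (F * b')).card

namespace Su

variable {A F b' : k[X]} {P : Pl k} {d' : RatFunc k} {K : ℕ} {vv : Fin K → Pl k} {Φ : ASF p k ι}
  (h : Su A F b' P d' vv Φ)
include h

theorem b'_ne : b' ≠ 0 := left_ne_zero_of_mul h.stg.b_ne

theorem cop : IsCoprime b' F := h.stg.cop.of_mul_left_left

theorem FB_dvd {v : Pl k} (hv : v ≠ none) (f : k[X]) : plp v ∣ f * plp P ↔ plp v ∣ f ∨ v = P := by
  rw [(PF_irr hv).prime.dvd_mul]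
  exact or_congr_right ⟨PF_inj hv h.P_na.1, fun e => e ▸ dvd_rfl⟩

theorem an_iff {v : Pl k} : InAn p A (b' * plp P) v ↔ InAn p A b' v :=
  ⟨fun ⟨a, b, c⟩ => ⟨a, ((h.FB_dvd a _).1 b).resolve_right fun e => h.P_na.2.2 (e ▸ c), c⟩,
    fun ⟨a, b, c⟩ => ⟨a, b.mul_right _, c⟩⟩

theorem na_iff {v : Pl k} : InNa p A (b' * plp P) v ↔ InNa p A b' v ∨ v = P :=
  ⟨fun ⟨a, b, c⟩ => ((h.FB_dvd a _).1 b).imp_left fun e => ⟨a, e, c⟩,
    fun e => e.elim (fun ⟨a, b, c⟩ => ⟨a, b.mul_right _, c⟩) fun e => e ▸ h.P_na⟩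

theorem S_iff {v : Pl k} : InS p A F (b' * plp P) v ↔ InS p A F b' v := by
  rw [inS_iff, inS_iff, h.an_iff]

theorem U_iff {v : Pl k} : InU F b' v ↔ InU F (b' * plp P) v ∨ v = P := by
  refine ⟨fun ⟨a, b⟩ => or_iff_not_imp_right.2 fun e => ⟨a, fun c => ?_⟩, fun e => e.elim
    (fun ⟨a, b⟩ => ⟨a, fun c => b (mul_assoc F b' _ ▸ c.mul_right _)⟩) fun e => ?_⟩
  · exact ((h.FB_dvd a _).1 (mul_assoc F b' _ ▸ c)).elim b e
  · subst e
    exact ⟨h.P_na.1, fun c => ((PF_irr h.P_na.1).prime.dvd_mul.1 c).elim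
      (fun c => not_S0_of_dvd h.stg.cop h.P_na.1 h.P_na.2.1 (Or.inr c)) h.P_not⟩

theorem an_near {v : Pl k} (hv : InAn p A (b' * plp P) v) :
    InAn p A b' v ∧ av v d' ≤ 2 ∧ av v (Φ.d - d') ≤ 1 := by
  have h1 := h.near v fun e => h.P_na.2.2 (e ▸ hv.2.2)
  refine ⟨h.an_iff.1 hv, ?_, h1⟩
  have := Hasse_sub (h.stg.d_le v) (h1.trans one_le_two)
  rwa [sub_sub_cancel] at this

theorem card_fac : (fac' (b' * plp P)).card ≤ (fac' b').card + 1 := by
  refine (card_le_card fun v hv => ?_).trans (card_insert_le P _)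
  obtain ⟨a, b⟩ := (mem_fac' h.stg.b_ne).1 hv
  exact mem_insert.2 (((h.FB_dvd a _).1 b).symm.imp_right fun c => (mem_fac' h.b'_ne).2 ⟨a, c⟩)

theorem vv_ne (i : Fin K) : vv i ≠ P := fun e => h.P_not (e ▸ (h.vv_na i).2.1)

end Su

end

end Pool.Agent.ASel
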