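import Pool.Agent.Work.MP_60d5ce_nt.AS.FD

/-!
# Bounds for the second component of a cocycle  (AS, function field side)

PLAN.  `hat_eq`: the image of `sh h w0 I` is `sh (W ^ p) w I` (`map_sh`, `sh_sh`); `alg_cKB`, `car_sh` (with `cB_frob`, `S = (Om _ _).toSubring`), `sh_mul`, `sh_add`.
`hat_le`: strong induction on `I`, with the bound `B ^ (1 + I.card * (n + 1))`: `sh_eq`, `norm_car`, `ca_bound`.  `hat_int`: the same with `cL_int`, `ca_na`, `int_iff`.
`w_le`, `w_int`: `Eq1.hat`, `hat_eq`, `alg_cK`, `root_le`, `sh_le` in both directions (`w = sh (-W) (sh W w)`), `av_uu`.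
`approx1`: `Eq1.hat` over `Lv v`, `pf_many` for each `I`, `Eq1.unhat`, `map_sh`, `sh_le`.
-/

set_option linter.unusedSectionVars false

namespace Pool.Agent.ASel

open Polynomial Pool.Agent.Smith Finset

variable {p : ℕ} {k : Type} [Field k] [Fintype k] [hp : Fact p.Prime] [CharP k p] {A : k[X]}
  {ϖ : RatFunc k} {n : ℕ}

theorem FHat_eq {v : Pl k} {A : Lv v} {h : Fin n → Lv v} {f g : Finset (Fin n) → Lv v}
    {I : Finset (Fin n)} (H : cL p v (sh h f I / A) = f I + g I) : f I - cL p v (f I / A) =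
      cL p v ((∑ J ∈ I.ssubsets, (∏ i ∈ I \ J, h i) * f J) / A) - g I := by
  rw [sh_eq, add_div, map_add] at H
  linear_combination -H

theorem FHat_prod {v : Pl k} {B : ℝ} (hB : 1 ≤ B) {h : Fin n → Lv v} (hh : ∀ i, ‖h i‖ ≤ B)
    (J : Finset (Fin n)) : ‖∏ i ∈ J, h i‖ ≤ B ^ n := by
  rw [norm_prod]
  refine (prod_le_prod (fun i _ => norm_nonneg _) fun i _ => hh i).trans
    ((prod_const B).trans_le (pow_le_pow_right₀ hB ?_))
  simpa using card_le_univ J

theorem FHat_car {v : Pl k} {B : ℝ} (hB : 1 ≤ B) {x : Lv v} (hx : ‖uL v * x‖ ≤ B) :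
    ‖uL v * cL p v x‖ ≤ B := by
  refine not_lt.1 fun h => ?_
  have h1 : ‖uL v * cL p v x‖ ^ p ≤ _ := norm_car v x
  exact not_lt.2 (h1.trans hx) (h.trans_le (le_self_pow₀ (hB.trans h.le) hp.out.ne_zero))

theorem FHat_pk (M : Type) [Field M] [Algebra (RatFunc k) M] (f : k[X]) :
    algebraMap (RatFunc k) M (pk (RatFunc k) f) = pk M f := rfl

theorem hat_le {v : Pl k} {A : Lv v} (hA : A ≠ 0) {B : ℝ} (hB : 1 ≤ B) (hAB : ‖A‖⁻¹ ≤ B)
    {h : Fin n → Lv v} (hh : ∀ i, ‖h i‖ ≤ B) {f g : Finset (Fin n) → Lv v}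
    (hg : ∀ I, ‖uL v * g I‖ ≤ B) (H : ∀ I, cL p v (sh h f I / A) = f I + g I) (I : Finset (Fin n)) :
    ‖uL v * f I‖ ≤ B ^ (n + 1) ^ 2 := by
  have key : ∀ I : Finset (Fin n), ‖uL v * f I‖ ≤ B ^ (1 + I.card * (n + 1)) := fun I => by
    induction I using Finset.strongInduction with
    | H I ih =>
      have h1 : 1 ≤ B ^ (1 + I.card * (n + 1)) := one_le_pow₀ hB
      have h2 : B ≤ B ^ (1 + I.card * (n + 1)) := le_self_pow₀ hB (by omega)
      refine ca_bound (p := p) hA h1 (hAB.trans h2) ?_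
      rw [FHat_eq (H I), mul_sub]
      refine PF_sub (FHat_car h1 ?_) ((hg I).trans h2)
      rw [sum_div, mul_sum]
      refine IsUltrametricDist.norm_sum_le_of_forall_le_of_nonneg (by positivity) fun J hJ => ?_
      have hJ' := mem_ssubsets.1 hJ
      have h3 : J.card + 1 ≤ I.card := card_lt_card hJ'
      rw [show uL v * ((∏ i ∈ I \ J, h i) * f J / A) = (∏ i ∈ I \ J, h i) * (uL v * f J) * A⁻¹ by
        ring, norm_mul, norm_mul, norm_inv]
      refine (mul_le_mul (mul_le_mul (FHat_prod hB hh _) (ih J hJ') (norm_nonneg _) (by positivity))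
        hAB (by positivity) (by positivity)).trans ?_
      rw [← pow_add, ← pow_succ]
      refine pow_le_pow_right₀ hB ?_
      nlinarith [Nat.mul_le_mul_right (n + 1) h3]
  refine (key I).trans (pow_le_pow_right₀ hB ?_)
  have h3 : I.card ≤ n := by simpa using card_le_univ I
  nlinarith [Nat.mul_le_mul_right (n + 1) h3]

theorem hat_int {v : Pl k} (hv : v ≠ none) {A : Lv v} (hA : ‖A‖ = 1) (hn : ∀ t : Lv v, t ^ (p - 1) ≠ A)
    {h : Fin n → Lv v} (hh : ∀ i, ‖h i‖ ≤ 1) {f g : Finset (Fin n) → Lv v}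
    (hg : ∀ I, ‖g I‖ ≤ 1) (H : ∀ I, cL p v (sh h f I / A) = f I + g I) (I : Finset (Fin n)) :
    ‖f I‖ ≤ 1 := by
  induction I using Finset.strongInduction with
  | H I ih =>
    refine (int_iff hv _).1 (ca_na (p := p) hA hn ((int_iff hv _).2 ?_))
    rw [FHat_eq (H I)]
    refine PF_sub (cL_int hv ?_) (hg I)
    rw [norm_div, hA, div_one]
    refine IsUltrametricDist.norm_sum_le_of_forall_le_of_nonneg zero_le_one fun J hJ => ?_
    rw [norm_mul]
    exact mul_le_one₀ ((FHat_prod le_rfl hh _).trans_eq (one_pow n)) (norm_nonneg _)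
      (ih J (mem_ssubsets.1 hJ))

theorem FHat_back {M : Type} [Field M] (W : Fin n → M) (f : Finset (Fin n) → M) :
    sh (-W) (sh W f) = f := by
  rw [sh_sh, neg_add_cancel, sh_zero]

theorem FHat_emb (v : Pl k) (c : Fin n → Kb k) (f : Finset (Fin n) → Kb k) (I : Finset (Fin n)) :
    emb v (sh c f I) = sh (fun i => emb v (c i)) (fun J => emb v (f J)) I :=
  map_sh (emb v : Kb k →+* Lb v) c f I

theorem approx1 {W : Fin n → Kb k} (hW : ASr p (RatFunc k) W) (T : Finset (Pl k))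
    (y : ∀ v : Pl k, Finset (Fin n) → Lb v)
    (hy : ∀ v ∈ T, y v ∈ Eq1 p (Lv v) fun i => emb v (W i)) :
    ∃ Y ∈ Eq1 p (RatFunc k) W, ∀ (v : Pl k) (B : ℝ), 1 ≤ B → (∀ i, nm v (emb v (W i)) ≤ B) → ∀ I,
      (v ∈ T → nm v (y v I - emb v (Y I)) ≤ B ^ n) ∧ (v ∉ T → nm v (emb v (Y I)) ≤ B ^ n) := by
  have h1 : ∀ v : Pl k, ∃ y0 : Finset (Fin n) → Lv v, v ∈ T →
      ∀ I, algebraMap _ (Lb v) (y0 I) = sh (fun i => emb v (W i)) (y v) I := fun v => by
    by_cases hv : v ∈ T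
    · exact (Eq1.hat (hW.emb v) (hy v hv)).imp fun _ h _ => h
    · exact ⟨0, fun h => absurd h hv⟩
  choose y0 h0 using h1
  choose Y0 h2 h3 _ using fun I => pf_many T fun v => y0 v I
  refine ⟨_, Eq1.unhat hW Y0, fun v B hB hb I => ?_⟩
  have h4 : ∀ i, nm v ((-fun i => emb v (W i)) i) ≤ B := fun i => by
    rw [Pi.neg_apply, (nm v).map_neg]
    exact hb i
  have e : emb v (sh (-W) (fun I => algebraMap (RatFunc k) (Kb k) (Y0 I)) I) =
      sh (-fun i => emb v (W i)) (fun J => algebraMap (Lv v) (Lb v) (algebraMap _ _ (Y0 J))) I := by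
    rw [FHat_emb]
    simp only [Pi.neg_apply, map_neg, emb_algK]
    rfl
  rw [e]
  refine ⟨fun hv => ?_, fun hv => ?_⟩
  · rw [← congrFun (FHat_back (fun i => emb v (W i)) (y v)) I, ← funext (h0 v hv), ← Pi.sub_apply,
      ← sh_sub, ← mul_one (B ^ n)]
    refine sh_le (nm_na v) hB h4 (fun J => ?_) I
    rw [Pi.sub_apply, ← map_sub, nm_alg]
    exact h2 J v hv
  · rw [← mul_one (B ^ n)]
    refine sh_le (nm_na v) hB h4 (fun J => ?_) I
    rw [nm_alg, norm_alg]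
    exact h3 J v hv

variable {W : Fin n → Kb k} {h : Fin n → RatFunc k}
  (hW : ∀ i, W i ^ p - W i = algebraMap _ _ (h i)) {a w : Finset (Fin n) → Kb k}
  (ha : a ∈ Eq1 p (RatFunc k) W) (hw : w ∈ Eq1 p (RatFunc k) W)
  (hc : ∀ I, w I - cB p (w I / pk _ A) + a I * algebraMap _ _ ϖ = 0)
include hW ha hw hc

theorem hat_eq {a0 w0 : Finset (Fin n) → RatFunc k} (ha0 : ∀ I, algebraMap _ _ (a0 I) = sh W a I)
    (hw0 : ∀ I, algebraMap _ _ (w0 I) = sh W w I) (I : Finset (Fin n)) :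
    cK p (sh h w0 I / pk _ A) = w0 I + a0 I * ϖ := by
  have hs : ASr p (RatFunc k) W := fun i => ⟨h i, hW i⟩
  have e1 : algebraMap _ (Kb k) (sh h w0 I) = sh (fun i => W i ^ p) w I := by
    rw [map_sh, funext hw0, sh_sh]
    exact congrArg (sh · w I) (funext fun i => by rw [Pi.add_apply, ← hW, sub_add_cancel])
  have e2 : (fun J => cB p (w J * (pk (Kb k) A)⁻¹)) = w + fun J => a J * algebraMap _ _ ϖ :=
    funext fun J => by
      rw [← div_eq_mul_inv, Pi.add_apply]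
      linear_combination -hc J
  have hA : pk (Kb k) A ∈ Om (RatFunc k) (Kb k) := om_alg _
  refine (algebraMap _ (Kb k)).injective ?_
  rw [alg_cKB, map_div₀, FHat_pk, e1, div_eq_mul_inv, ← sh_mul,
    car_sh (cB p) (Om (RatFunc k) (Kb k)).toSubring cB_frob hs.mem
      fun J => (Om (RatFunc k) (Kb k)).mul_mem (hw.1 J) (inv_mem (hA : pk (Kb k) A ∈ _)), e2, sh_add, Pi.add_apply, sh_mul, map_add,
    map_mul, ha0, hw0]

theorem FHat_loc (v : Pl k) {B : ℝ} (hB : 1 ≤ B) (hh : ∀ i, av v (h i) ≤ B)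
    (h1 : ∀ I, nm v (emb v (a I)) ≤ B) : ∃ f g : Finset (Fin n) → Lv v,
      (∀ I, ‖g I‖ ≤ B ^ n * B) ∧
      (∀ I, cL p v (sh (fun i => algebraMap _ (Lv v) (h i)) f I / pk (Lv v) A) =
        f I + g I * algebraMap _ _ ϖ) ∧
      ∀ C : ℝ, (∀ I, ‖f I‖ ≤ C) → ∀ I, nm v (emb v (w I)) ≤ B ^ n * C := by
  have hs : ASr p (RatFunc k) W := fun i => ⟨h i, hW i⟩
  obtain ⟨a0, ha0⟩ := Eq1.hat hs ha
  obtain ⟨w0, hw0⟩ := Eq1.hat hs hw
  have hb : ∀ i, nm v (emb v (W i)) ≤ B := fun i => root_le (hW i) hB (hh i)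
  refine ⟨fun I => algebraMap _ _ (w0 I), fun I => algebraMap _ _ (a0 I), fun I => ?_, fun I => ?_,
    fun C hC I => ?_⟩
  · rw [← nm_alg, ← emb_algK, ha0, FHat_emb]
    exact sh_le (nm_na v) hB hb h1 I
  · rw [← map_sh, ← FHat_pk, ← map_div₀, ← alg_cK, hat_eq hW ha hw hc ha0 hw0, map_add, map_mul]
  · rw [← congrFun (FHat_back W w) I, ← funext hw0, FHat_emb]
    refine sh_le (nm_na v) hB (fun i => ?_) (fun J => ?_) I
    · rw [Pi.neg_apply, map_neg, (nm v).map_neg]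
      exact hb i
    · rw [emb_algK, nm_alg]
      exact hC J

theorem w_le (hA : A ≠ 0) {v : Pl k} {B : ℝ} (hB : 2 ≤ B) (hAB : ‖pk (Lv v) A‖⁻¹ ≤ B)
    (hh : ∀ i, av v (h i) ≤ B) (hϖ : av v ϖ ≤ B) (h1 : ∀ I, nm v (emb v (a I)) ≤ B)
    (I : Finset (Fin n)) : nm v (emb v (w I)) ≤ B ^ (n + 3) ^ 3 := by
  have hB1 : 1 ≤ B := one_le_two.trans hB
  obtain ⟨f, g, h2, h3, h4⟩ := FHat_loc hW ha hw hc v hB1 hh h1
  have u1 : ‖uL v‖ ≤ B ∧ ‖uL v‖⁻¹ ≤ B := by
    rw [Wp_uL]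
    split_ifs
    · exact ⟨hB, by linarith⟩
    · exact ⟨by linarith, by rwa [inv_inv]⟩
  have hA' : pk (Lv v) A ≠ 0 := fun e => hA (RatFunc.algebraMap_injective k (by
    rw [map_zero]
    exact (algebraMap (RatFunc k) (Lv v)).injective (e.trans (map_zero _).symm)))
  have h5 : B ≤ B ^ (n + 3) := le_self_pow₀ hB1 (by omega)
  have h6 := hat_le (p := p) hA' (hB1.trans h5) (hAB.trans h5)
    (h := fun i => algebraMap _ (Lv v) (h i)) (fun i => ((norm_alg v _).trans_le (hh i)).trans h5)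
    (g := fun I => g I * algebraMap _ _ ϖ) (fun I => by
      rw [norm_mul, norm_mul, norm_alg]
      refine (mul_le_mul u1.1 (mul_le_mul (h2 I) hϖ ((av v).nonneg _) (by positivity))
        (by positivity) (by positivity)).trans_eq ?_
      ring) h3
  refine (h4 (B * (B ^ (n + 3)) ^ (n + 1) ^ 2) (fun J => ?_) I).trans ?_
  · rw [← inv_mul_cancel_left₀ (Wp_uL0 v) (f J), norm_mul, norm_inv]
    exact mul_le_mul u1.2 (h6 J) (norm_nonneg _) (by positivity)
  · rw [← pow_mul, ← pow_succ', ← pow_add]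
    refine pow_le_pow_right₀ hB1 ?_
    nlinarith [Nat.zero_le (n ^ 2), Nat.zero_le n]

theorem w_int {v : Pl k} (hv : v ≠ none) (hA : ‖pk (Lv v) A‖ = 1)
    (hn : ∀ t : Lv v, t ^ (p - 1) ≠ pk (Lv v) A) (hh : ∀ i, av v (h i) ≤ 1) (hϖ : av v ϖ ≤ 1)
    (h1 : ∀ I, nm v (emb v (a I)) ≤ 1) (I : Finset (Fin n)) : nm v (emb v (w I)) ≤ 1 := by
  obtain ⟨f, g, h2, h3, h4⟩ := FHat_loc hW ha hw hc v le_rfl hh h1
  have h6 := hat_int (p := p) hv hA hn (h := fun i => algebraMap _ (Lv v) (h i))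
    (fun i => (norm_alg v _).trans_le (hh i)) (g := fun I => g I * algebraMap _ _ ϖ) (fun I => by
      rw [norm_mul, norm_alg]
      exact mul_le_one₀ ((h2 I).trans_eq (by simp)) ((av v).nonneg _) hϖ) h3
  simpa using h4 1 h6 I

end Pool.Agent.ASel
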