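import Pool.Agent.Work.MP_60d5ce_nt.AS.FFix
import Pool.Agent.Work.MP_60d5ce_nt.AS.FHat

/-!
# There are few bad primes  (AS, function field side)

PLAN.  `card_zer`: let `X` be the set of the `dif … y y'`, `y`, `y'` solutions: finite with at most `p ^ (2 * 2 ^ n)` elements (a polynomial of degree `p` has at most `p` roots).  It is stable under `σ`: with `χ` from `exists_rho`,
`σ (Ξ (y, w, y', w')) = Ξ (σ y, sh (-χ) w, …) = Ξ (sh χ (σ y), w, …)` (`map_xiT`, `xiT_sh`, `sh_sh`) and `sh χ (σ y)` solves the same equations (`map_sh` for the Frobenius).  Sizes: choose `N` with `av v ϖ ≤ 2 ^ N` (`fin_poles`), `‖A‖, ‖A‖⁻¹ ≤ 2 ^ N` for all `v`;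
`wp_le` bounds `y`, `w_le` bounds `w`, `tp_le` bounds `Ξ` and `θ`, `ca_bound` with `A = 1` bounds `η` (`alg_cK`); at `InU F b` everything is integral (`wp_int`).  `emb_conj` reduces any embedding to `emb v`.  `zero_count` with `F * b` for every finite subset of `Zer`.
`card_prim`: two primitives differ by a fixed form: `cK_fixed` with `S = fac' (F * b)`.  `bad_card`: `BadS` is a finite union over `n ≤ K`, `c` (`ASW.ncard_lt`-type count, `natDegree (plp v) = pdg v`), `W` (at most `p` roots each), `x`, `x'` (`card_Fj`), `η` (`card_prim`) of sets `Zer`; `av_pol`.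
-/

set_option linter.unusedSectionVars false

namespace Pool.Agent.ASel

open Polynomial Pool.Agent.Smith Finset

variable {p : ℕ} {k : Type} [Field k] [Fintype k] [hp : Fact p.Prime] [CharP k p]
  {A F : k[X]} {ϖ : RatFunc k} {ε : ℤ}

theorem FBad_fin {α : Type} {S : Set α} {m : ℕ} (h : ∀ Z : Finset α, ↑Z ⊆ S → Z.card ≤ m) :
    S.Finite ∧ S.ncard ≤ m := by
  have h1 : S.Finite := by
    by_contra hc
    obtain ⟨Z, h1, h2⟩ := Set.Infinite.exists_subset_card_eq hc (m + 1)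
    have := h Z h1
    omega
  exact ⟨h1, by rw [Set.ncard_eq_toFinset_card S h1]; exact h _ (by simp)⟩

theorem FBad_sub {α : Type} {S : Set α} {m : ℕ} (T : Finset α) (h : S ⊆ T) (hm : T.card ≤ m) :
    S.Finite ∧ S.ncard ≤ m :=
  FBad_fin fun _ hZ => (card_le_card (coe_subset.1 (hZ.trans h))).trans hm

theorem FBad_mono {α : Type} {S S' : Set α} {m m' : ℕ} (h : S'.Finite ∧ S'.ncard ≤ m') (hs : S ⊆ S')
    (hm : m' ≤ m) : S.Finite ∧ S.ncard ≤ m :=
  ⟨h.1.subset hs, ((Set.ncard_le_ncard hs h.1).trans h.2).trans hm⟩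

theorem FBad_union {α β : Type} {S : α → Prop} {T : α → β → Prop} {m n : ℕ}
    (hS : {a | S a}.Finite ∧ {a | S a}.ncard ≤ m)
    (hT : ∀ a, S a → {b | T a b}.Finite ∧ {b | T a b}.ncard ≤ n) :
    {b | ∃ a, S a ∧ T a b}.Finite ∧ {b | ∃ a, S a ∧ T a b}.ncard ≤ m * n := by
  classical
  choose! U h1 h2 using fun a (ha : S a) => (⟨(hT a ha).1.toFinset, fun b hb => by simpa using hb,
    by rw [← Set.ncard_eq_toFinset_card _ (hT a ha).1]; exact (hT a ha).2⟩ :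
      ∃ U : Finset β, (∀ b, T a b → b ∈ U) ∧ U.card ≤ n)
  refine FBad_sub (hS.1.toFinset.biUnion U) (fun b ⟨a, ha, hb⟩ => ?_) ?_
  · exact mem_coe.2 (mem_biUnion.2 ⟨a, by simpa using ha, h1 a ha b hb⟩)
  · refine (card_biUnion_le_card_mul _ _ n fun a ha => h2 a (by simpa using ha)).trans ?_
    rw [← Set.ncard_eq_toFinset_card _ hS.1]
    exact Nat.mul_le_mul_right _ hS.2

theorem FBad_union' {α β : Type} {S : α → Prop} {T : ∀ a, S a → β → Prop} {m n : ℕ}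
    (hS : {a | S a}.Finite ∧ {a | S a}.ncard ≤ m)
    (hT : ∀ a (h : S a), {b | T a h b}.Finite ∧ {b | T a h b}.ncard ≤ n) :
    {b | ∃ a, ∃ h : S a, T a h b}.Finite ∧ {b | ∃ a, ∃ h : S a, T a h b}.ncard ≤ m * n :=
  FBad_mono (FBad_union (T := fun a b => ∃ h : S a, T a h b) hS fun a ha =>
    FBad_mono (hT a ha) (fun _ ⟨_, h⟩ => h) le_rfl) (fun _ ⟨a, ha, h⟩ => ⟨a, ha, ha, h⟩) le_rfl

theorem FBad_roots {M : Type} [Field M] {A : M} (hA : A ≠ 0) (a : M) :
    ∃ T : Finset M, T.card ≤ p ∧ ∀ y, y ∈ T ↔ y ^ p / A - y = a := by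
  classical
  have h1 : (C A * X + C (A * a) : M[X]).degree < p :=
    degree_linear_le.trans_lt (by exact_mod_cast hp.out.one_lt)
  have h2 := monic_X_pow_sub h1
  refine ⟨(X ^ p - (C A * X + C (A * a))).roots.toFinset, (Multiset.toFinset_card_le _).trans
    ((card_roots' _).trans ?_), fun y => ?_⟩
  · exact natDegree_le_iff_degree_le.2 ((degree_sub_le _ _).trans (max_le (degree_X_pow_le p) h1.le))
  · rw [Multiset.mem_toFinset, mem_roots h2.ne_zero, IsRoot.def, sub_eq_iff_eq_add, div_eq_iff hA]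
    simp only [eval_sub, eval_add, eval_mul, eval_pow, eval_X, eval_C]
    constructor <;> intro h <;> linear_combination h

theorem FBad_pi {M ι : Type} [Field M] [Fintype ι] {A : M} (hA : A ≠ 0) (a : ι → M) :
    ∃ T : Finset (ι → M), T.card ≤ p ^ Fintype.card ι ∧
      ∀ y, y ∈ T ↔ ∀ i, y i ^ p / A - y i = a i := by
  classical
  choose T h1 h2 using fun i => FBad_roots (p := p) hA (a i)
  refine ⟨Fintype.piFinset T, ?_, fun y => by simp only [Fintype.mem_piFinset, h2]⟩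
  rw [Fintype.card_piFinset]
  exact prod_le_pow_card _ _ _ fun i _ => h1 i

theorem FBad_pk {M : Type} [Field M] [Algebra (RatFunc k) M] (hA : A ≠ 0) : pk M A ≠ 0 :=
  (_root_.map_ne_zero (algebraMap (RatFunc k) M)).2 (PF_ne hA)

theorem FBad_sol {n : ℕ} {W : Fin n → Kb k} {a y : Finset (Fin n) → Kb k}
    (ha : a ∈ Eq1 p (RatFunc k) W) (hy : Sol p A a y) {σ : Gk k} {χ : Fin n → ZMod p}
    (hχ : ∀ i, σ (W i) = W i + ((χ i).val : Kb k)) :
    Sol p A a (sh (fun i => ((χ i).val : Kb k)) fun I => σ (y I)) := fun I => by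
  have e1 := map_sh (frobenius (Kb k) p) (fun i => ((χ i).val : Kb k)) (fun I => σ (y I)) I
  simp only [frobenius_def, FEq_frob] at e1
  have e2 : ((fun J => σ (y J) ^ p * (pk (Kb k) A)⁻¹) - fun J => σ (y J)) =
      sh (-fun i => ((χ i).val : Kb k)) a := funext fun J => by
    have e : σ (pk (Kb k) A) = pk (Kb k) A := σ.commutes _
    refine Eq.trans ?_ (ha.2 σ χ hχ J)
    rw [← hy J, map_sub, map_div₀, map_pow, e, div_eq_mul_inv]
    rfl
  rw [e1, div_eq_mul_inv, ← sh_mul, ← Pi.sub_apply (sh _ _) (sh _ _), ← sh_sub, e2, sh_sh,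
    add_neg_cancel, sh_zero]

theorem FBad_act {n : ℕ} {W : Fin n → Kb k} {x x' : Finset (Fin n) → Kb k × Kb k}
    (hw : (fun I => (x I).2) ∈ Eq1 p (RatFunc k) W) (hw' : (fun I => (x' I).2) ∈ Eq1 p (RatFunc k) W)
    (η : RatFunc k) (y y' : Finset (Fin n) → Kb k) {σ : Gk k} {χ : Fin n → ZMod p}
    (hχ : ∀ i, σ (W i) = W i + ((χ i).val : Kb k)) :
    σ (dif p A ϖ ε x x' η y y') = dif p A ϖ ε x x' η
      (sh (fun i => ((χ i).val : Kb k)) fun I => σ (y I))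
      (sh (fun i => ((χ i).val : Kb k)) fun I => σ (y' I)) := by
  have e : σ (pk (Kb k) A) = pk (Kb k) A := σ.commutes _
  have e1 := map_xiT (σ : Kb k →+* Kb k) p (pk (Kb k) A) ε (algebraMap _ _ ϖ) y (fun I => (x I).2) y'
    fun I => (x' I).2
  simp only [RingHom.coe_coe, e, AlgEquiv.commutes] at e1
  have e2 : (fun I => σ (x I).2) = sh (-fun i => ((χ i).val : Kb k)) fun I => (x I).2 :=
    funext (hw.2 σ χ hχ)
  have e3 : (fun I => σ (x' I).2) = sh (-fun i => ((χ i).val : Kb k)) fun I => (x' I).2 :=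
    funext (hw'.2 σ χ hχ)
  rw [dif, dif, map_sub, AlgEquiv.commutes, e1, e2, e3,
    ← xiT_sh (fun i => ((χ i).val : Kb k)) (fun i => FEq_frob _), sh_sh, sh_sh, add_neg_cancel,
    sh_zero, sh_zero]

theorem FBad_tpm {M : Type} [Field M] {n : ℕ} {S : Subfield M} {f g : Finset (Fin n) → M}
    (hf : ∀ I, f I ∈ S) (hg : ∀ I, g I ∈ S) : tp f g ∈ S :=
  sum_mem fun _ _ => mul_mem (pow_mem (neg_mem (one_mem _)) _) (mul_mem (hf _) (hg _))

theorem FBad_tri {M : Type} [Field M] {w : AbsoluteValue M ℝ} (hw : IsNonarchimedean w) {n : ℕ}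
    (hε : ε = 1 ∨ ε = -1) {f g f' g' : Finset (Fin n) → M} {u : M} {D : ℝ} (hD : 1 ≤ D)
    (h1 : ∀ I, w (f I) ≤ D) (h2 : ∀ I, w (g I) ≤ D) (h3 : ∀ I, w (f' I) ≤ D)
    (h4 : ∀ I, w (g' I) ≤ D) (hu : w u ≤ D) :
    w (tp f g' + ε • tp g f' + tp f f' * u) ≤ D ^ 3 := by
  have h5 : D * D ≤ D ^ 3 := by nlinarith
  refine LocA_add_le hw (LocA_add_le hw ((tp_le hw h1 h4).trans h5) ?_) ?_
  · rcases hε with rfl | rfl
    · rw [one_smul]
      exact (tp_le hw h2 h3).trans h5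
    · rw [neg_smul, one_smul, w.map_neg]
      exact (tp_le hw h2 h3).trans h5
  · rw [map_mul]
    exact (mul_le_mul (tp_le hw h1 h3) hu (w.nonneg _) (by positivity)).trans (le_of_eq (by ring))

theorem FBad_loc {v : Pl k} {D : ℝ} (hD : 1 ≤ D) {n : ℕ} {x x' : Finset (Fin n) → Kb k × Kb k}
    {η : RatFunc k} {y y' : Finset (Fin n) → Kb k} (hε : ε = 1 ∨ ε = -1) (hA0 : A ≠ 0)
    (hA : av v (algebraMap _ _ A) ≤ D) (hϖ : av v ϖ ≤ D)
    (hx : ∀ I, nm v (emb v (x I).1) ≤ D ∧ nm v (emb v (x I).2) ≤ D)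
    (hx' : ∀ I, nm v (emb v (x' I).1) ≤ D ∧ nm v (emb v (x' I).2) ≤ D)
    (hy : Sol p A (fun I => (x I).1) y) (hy' : Sol p A (fun I => (x' I).1) y')
    (hη : algebraMap _ _ (η - cK p η) = thT ε (algebraMap _ _ ϖ) (fun I => (x I).1)
      (fun I => (x I).2) (fun I => (x' I).1) fun I => (x' I).2) :
    av v η ≤ 4 * D ^ 3 ∧ nm v (emb v (dif p A ϖ ε x x' η y y')) ≤ max (av v η) (D ^ 3) := by
  let w : AbsoluteValue (Kb k) ℝ := (nm v).comp (emb v : Kb k →+* Lb v).injective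
  have hw : IsNonarchimedean w := fun a b => by
    show nm v (emb v (a + b)) ≤ _
    rw [map_add]
    exact nm_na v _ _
  have ha : ∀ a, w (algebraMap _ _ a) = av v a := fun a =>
    (congrArg (nm v) ((emb v).commutes a)).trans (nm_algK v a)
  have hs : ∀ {a y : Finset (Fin n) → Kb k}, Sol p A a y → (∀ I, w (a I) ≤ D) → ∀ I,
      w (y I ^ p / pk (Kb k) A) ≤ D := fun {a y} h h1 I => by
    rw [eq_add_of_sub_eq (h I)]
    exact LocA_add_le hw (h1 I) (wp_le hw (FBad_pk hA0) hD ((ha _).trans_le hA) (h I ▸ h1 I))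
  have hϖ' := (ha ϖ).trans_le hϖ
  have h3 : 1 ≤ D ^ 3 := one_le_pow₀ hD
  refine ⟨?_, ?_⟩
  · have h1 : av v (η - cK p η) ≤ D ^ 3 := by
      rw [← ha, hη]
      exact FBad_tri hw hε hD (fun I => (hx I).1) (fun I => (hx I).2) (fun I => (hx' I).1)
        (fun I => (hx' I).2) hϖ'
    have h2 : 2⁻¹ ≤ ‖uL v‖ ∧ ‖uL v‖ ≤ 2 := by
      rw [Wp_uL]
      split_ifs <;> norm_num
    have h4 := ca_bound (p := p) (v := v) (A := 1) (w := algebraMap _ _ η) one_ne_zero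
      (B := 2 * D ^ 3) (by linarith) (by rw [norm_one, inv_one]; linarith) (by
        rw [div_one, ← alg_cK, ← map_sub, norm_mul, norm_alg]
        exact mul_le_mul h2.2 h1 ((av v).nonneg _) zero_le_two)
    rw [norm_mul, norm_alg] at h4
    nlinarith [(av v).nonneg η]
  · show w _ ≤ _
    rw [dif, sub_eq_add_neg]
    refine LocA_add_le hw ((ha η).trans_le (le_max_left _ _)) (le_max_of_le_right ?_)
    rw [w.map_neg]
    exact FBad_tri hw hε hD (hs hy fun I => (hx I).1) (fun I => (hx I).2)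
      (hs hy' fun I => (hx' I).1) (fun I => (hx' I).2) hϖ'

theorem FBad_bd (y : RatFunc k) : ∃ N : ℕ, ∀ v, av v y ≤ 2 ^ N := by
  obtain ⟨M, hM⟩ := ((fin_poles y).image fun v => av v y).bddAbove
  obtain ⟨N, hN⟩ := pow_unbounded_of_one_lt M (one_lt_two (α := ℝ))
  refine ⟨N, fun v => ?_⟩
  by_cases h : 1 < av v y
  · exact (hM ⟨v, h, rfl⟩).trans hN.le
  · exact (not_lt.1 h).trans (one_le_pow₀ one_le_two)

theorem card_zer (hT : Ty p A F ϖ ε) (n1 K : ℕ) : ∃ C : ℕ, ∀ {b : k[X]} {d : RatFunc k}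
    {Med : Finset (Pl k)} {n : ℕ} {W : Fin n → Kb k} {h : Fin n → RatFunc k}
    {x x' : Finset (Fin n) → Kb k × Kb k} {η : RatFunc k}, b ≠ 0 → IsCoprime b F →
    (∀ v ∈ Med, InNa p A b v) → n ≤ K → (∀ i, W i ^ p - W i = algebraMap _ _ (h i)) →
    (∀ i v, av v (h i) ≤ 2) → x ∈ Fj p A F b d ϖ Med n1 W → x' ∈ Fj p A F b d ϖ Med n1 W →
    Prim p A F b ϖ ε x x' η → (Zer p A F b ϖ ε x x' η).Finite ∧
      (Zer p A F b ϖ ε x x' η).ncard ≤ C * (b.natDegree + 1) := by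
  classical
  have hA0 : A ≠ 0 := fun h => hT.F_ne (zero_dvd_iff.1 (h ▸ hT.dvd))
  obtain ⟨N1, b1⟩ := FBad_bd ϖ
  obtain ⟨N2, b2⟩ := FBad_bd (algebraMap k[X] (RatFunc k) A)
  obtain ⟨N3, b3⟩ := FBad_bd (algebraMap k[X] (RatFunc k) A)⁻¹
  set N := N1 + N2 + N3 + n1 + 1 with hN
  have hle : ∀ {m : ℕ}, m ≤ N → (2 : ℝ) ^ m ≤ 2 ^ N := fun h => pow_le_pow_right₀ one_le_two h
  refine ⟨p ^ 2 ^ K * p ^ 2 ^ K * (N * (K + 3) ^ 3 * 3 + 2) * (F.natDegree + 1), ?_⟩
  intro b d Med n W h x x' η hb hco hMed hn hW hh hx hx' hP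
  have hB : (2 : ℝ) ≤ 2 ^ N := (pow_one _).symm.trans_le (hle (by omega))
  have hB1 : (1 : ℝ) ≤ 2 ^ N := one_le_two.trans hB
  have hBD : (2 : ℝ) ^ N ≤ (2 ^ N) ^ (K + 3) ^ 3 := le_self_pow₀ hB1 (by positivity)
  have g1 : ∀ {x}, x ∈ Fj p A F b d ϖ Med n1 W → ∀ v I,
      nm v (emb v (x I).1) ≤ (2 ^ N) ^ (K + 3) ^ 3 ∧
        nm v (emb v (x I).2) ≤ (2 ^ N) ^ (K + 3) ^ 3 := fun {x} hx v I => by
    have h1 : ∀ I, nm v (emb v (x I).1) ≤ 2 ^ N := fun I =>
      ((hx.2.2 I).2 v).2.1.trans (hle (by omega))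
    refine ⟨(h1 I).trans hBD, (w_le hW hx.1 hx.2.1 (fun I => (hx.2.2 I).1) hA0 hB ?_
      (fun i => (hh i v).trans hB) ((b1 v).trans (hle (by omega))) h1 I).trans
        (pow_le_pow_right₀ hB1 (Nat.pow_le_pow_left (by omega) 3))⟩
    have := (b3 v).trans (hle (by omega))
    rwa [map_inv₀, ← norm_alg] at this
  have g2 : ∀ {x}, x ∈ Fj p A F b d ϖ Med n1 W → ∀ v, InU F b v → ∀ I,
      nm v (emb v (x I).1) ≤ 1 ∧ nm v (emb v (x I).2) ≤ 1 := fun {x} hx v hv I =>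
    have := (inU_iff (p := p) (A := A)).1 hv
    ⟨((hx.2.2 I).2 v).2.2.2 this.1 fun h => this.2 (hMed v h), ((hx.2.2 I).2 v).1 hv⟩
  obtain ⟨T, t1, t2⟩ := FBad_pi (p := p) (FBad_pk (M := Kb k) hA0) fun I => (x I).1
  obtain ⟨T', t1', t2'⟩ := FBad_pi (p := p) (FBad_pk (M := Kb k) hA0) fun I => (x' I).1
  have hX : ∀ z, z ∈ (T ×ˢ T').image (fun y => dif p A ϖ ε x x' η y.1 y.2) ↔ ∃ y y',
      Sol p A (fun I => (x I).1) y ∧ Sol p A (fun I => (x' I).1) y' ∧
        dif p A ϖ ε x x' η y y' = z := fun z => by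
    simp only [mem_image, mem_product, t2, t2', Prod.exists, Sol, and_assoc]
  have hG : ∀ σ : Gk k, ∀ z ∈ (T ×ˢ T').image (fun y => dif p A ϖ ε x x' η y.1 y.2),
      σ z ∈ (T ×ˢ T').image (fun y => dif p A ϖ ε x x' η y.1 y.2) := fun σ z hz => by
    obtain ⟨y, y', hy, hy', rfl⟩ := (hX z).1 hz
    obtain ⟨χ, hχ⟩ := exists_rho (fun i => ⟨_, hW i⟩) σ
    exact (hX _).2 ⟨_, _, FBad_sol hx.1 hy hχ, FBad_sol hx'.1 hy' hχ,
      (FBad_act hx.2.1 hx'.2.1 η y y' hχ).symm⟩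
  refine FBad_fin fun Z hZ => (zero_count (mul_ne_zero hT.F_ne hb) _ (N * (K + 3) ^ 3 * 3 + 2)
    (fun z hz => ?_) hG (fun v ι z hz => ?_) Z fun v hv => ?_).trans ?_
  · obtain ⟨y, y', hy, hy', rfl⟩ := (hX z).1 hz
    have o1 := fun I => div_mem (pow_mem (hy.om hA0 hx.1.1 I) p)
      (om_alg (M := Kb k) (algebraMap k[X] (RatFunc k) A))
    have o2 := fun I => div_mem (pow_mem (hy'.om hA0 hx'.1.1 I) p)
      (om_alg (M := Kb k) (algebraMap k[X] (RatFunc k) A))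
    exact ⟨hP.2.2 y y' hy hy', sub_mem (om_alg _) (add_mem (add_mem (FBad_tpm o1 hx'.2.1.1)
      (zsmul_mem (FBad_tpm hx.2.1.1 o2) _)) (mul_mem (FBad_tpm o1 o2) (om_alg _)))⟩
  · obtain ⟨σ, hσ⟩ := emb_conj v (emb v) ι
    obtain ⟨y, y', hy, hy', e⟩ := (hX _).1 (hG σ z hz)
    rw [hσ, ← e]
    refine ⟨?_, fun h1 h2 => ?_⟩
    · obtain ⟨a1, a2⟩ := FBad_loc (hB1.trans hBD) hT.sgn hA0
        (((b2 v).trans (hle (by omega))).trans hBD) (((b1 v).trans (hle (by omega))).trans hBD)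
        (g1 hx v) (g1 hx' v) hy hy' hP.1
      have a3 : (0 : ℝ) < ((2 ^ N) ^ (K + 3) ^ 3) ^ 3 := by positivity
      rw [pow_add, pow_mul, pow_mul]
      exact a2.trans (max_le (by linarith) (by linarith))
    · have h3 : ¬InS0 F v := fun h => h.elim h1 fun h => h2 (h.mul_right _)
      refine (FBad_loc le_rfl hT.sgn hA0 (av_poly_le h1 _) (hT.int v h3) (g2 hx v ⟨h1, h2⟩)
        (g2 hx' v ⟨h1, h2⟩) hy hy' hP.1).2.trans (max_le (hP.2.1 v ⟨h1, h2⟩) (one_pow 3).le)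
  · obtain ⟨h1, y, y', hy, hy', h2⟩ := hZ hv
    exact ⟨h1.1, h1.2, emb v, _, (hX _).2 ⟨y, y', hy, hy', rfl⟩, h2⟩
  · rw [Fintype.card_finset, Fintype.card_fin] at t1 t1'
    have a1 : p ^ 2 ^ n ≤ p ^ 2 ^ K :=
      Nat.pow_le_pow_right hp.out.pos (Nat.pow_le_pow_right two_pos hn)
    rw [mul_assoc (_ * _ * _)]
    refine Nat.mul_le_mul (Nat.mul_le_mul_right _ (card_image_le.trans ?_)) ?_
    · rw [card_product]
      exact Nat.mul_le_mul (t1.trans a1) (t1'.trans a1)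
    · have := natDegree_mul_le (p := F) (q := b)
      nlinarith [Nat.zero_le (F.natDegree * b.natDegree)]

theorem card_prim {b : k[X]} (hF : F ≠ 0) (hb : b ≠ 0) {n : ℕ} (x x' : Finset (Fin n) → Kb k × Kb k) :
    {η | Prim p A F b ϖ ε x x' η}.Finite ∧
      {η | Prim p A F b ϖ ε x x' η}.ncard ≤ p ^ (F.natDegree + (fac' b).card) := by
  classical
  by_cases h0 : ∃ η0, Prim p A F b ϖ ε x x' η0
  swap
  · exact FBad_sub ∅ (fun η h => absurd ⟨η, h⟩ h0) (Nat.zero_le _)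
  obtain ⟨η0, h0⟩ := h0
  have hFb := mul_ne_zero hF hb
  refine FBad_sub (univ.image fun m : fac' (F * b) → ZMod p =>
    η0 + ∑ v, ((m v).val : RatFunc k) / uu v.1) (fun η h => ?_) (card_image_le.trans ?_)
  · have e := (algebraMap (RatFunc k) (Kb k)).injective (h.1.trans h0.1.symm)
    obtain ⟨m, hm⟩ := cK_fixed (p := p) (w := η - η0) (by rw [map_sub]; linear_combination -e)
      (fac' (F * b)) (fun h => ((mem_fac' hFb).1 h).1 rfl) fun v h1 h2 =>
        have : InU F b v := ⟨h2, fun h3 => h1 ((mem_fac' hFb).2 ⟨h2, h3⟩)⟩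
        PF_sub' (h.2.1 v this) (h0.2.1 v this)
    refine mem_coe.2 (mem_image.2 ⟨fun v => m v, mem_univ _, ?_⟩)
    rw [sum_coe_sort (fac' (F * b)) fun v => ((m v).val : RatFunc k) / uu v, ← hm, add_sub_cancel]
  · rw [card_univ, Fintype.card_fun, ZMod.card, Fintype.card_coe]
    refine Nat.pow_le_pow_right hp.out.pos ((card_le_card (t := fac' F ∪ fac' b) fun v hv => ?_).trans
      ((card_union_le _ _).trans (Nat.add_le_add_right ?_ _)))
    · obtain ⟨h1, h2⟩ := (mem_fac' hFb).1 hv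
      rw [mem_union, mem_fac' hF, mem_fac' hb]
      exact ((PF_irr h1).prime.dvd_or_dvd h2).imp (fun h => ⟨h1, h⟩) fun h => ⟨h1, h⟩
    · refine le_trans ?_ sum_pdg_fac'
      rw [card_eq_sum_ones]
      exact sum_le_sum fun v _ => pdg_pos v

theorem FBad_poly (n Y : ℕ) : {c : Fin n → k[X] | ∀ i, (c i).degree < Y}.Finite ∧
    {c : Fin n → k[X] | ∀ i, (c i).degree < Y}.ncard ≤ (Fintype.card k ^ Y) ^ n := by
  classical
  refine FBad_sub (Fintype.piFinset fun _ => univ.image fun a : Fin Y → k =>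
    ((degreeLTEquiv k Y).symm a : k[X])) (fun c hc => ?_) ?_
  · refine mem_coe.2 (Fintype.mem_piFinset.2 fun i => mem_image.2
      ⟨degreeLTEquiv k Y ⟨c i, mem_degreeLT.2 (hc i)⟩, mem_univ _, ?_⟩)
    rw [LinearEquiv.symm_apply_apply]
  · rw [Fintype.card_piFinset, prod_const, card_univ, Fintype.card_fin]
    refine Nat.pow_le_pow_left (card_image_le.trans ?_) _
    rw [card_univ, Fintype.card_fun, Fintype.card_fin]

theorem bad_card (hT : Ty p A F ϖ ε) (n1 K : ℕ) : ∃ C : ℕ, ∀ (b : k[X]) (d : RatFunc k)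
    (vv : Fin K → Pl k) (Y : ℕ), b ≠ 0 → IsCoprime b F → (∀ i, InNa p A b (vv i) ∧ pdg (vv i) ≤ Y) →
    (fac' b).card ≤ Y → 1 ≤ Y → (BadS p A F b d ϖ ε n1 vv).Finite ∧
      (BadS p A F b d ϖ ε n1 vv).ncard ≤ Fintype.card k ^ (C * Y) * (b.natDegree + 1) := by
  classical
  obtain ⟨C1, c1⟩ := card_Fj (p := p) hT.F_ne hT.dvd n1 K
  obtain ⟨C2, c2⟩ := card_zer hT n1 K
  refine ⟨K + 1 + (K + (p ^ K + (C1 + (C1 + (p ^ F.natDegree + p + C2))))),
    fun b d vv Y hb hco hvv hY h1 => ?_⟩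
  have hq : 1 < Fintype.card k := Fintype.one_lt_card
  have hm : ∀ m : ℕ, m ≤ Fintype.card k ^ (m * Y) := fun m =>
    (Nat.lt_pow_self hq).le.trans (Nat.pow_le_pow_right hq.le (Nat.le_mul_of_pos_right _ h1))
  have hMed : ∀ v ∈ univ.image vv, InNa p A b v ∧ pdg v ≤ Y := fun v hv => by
    obtain ⟨i, -, rfl⟩ := mem_image.1 hv
    exact hvv i
  have hF := fun n hn (W : Fin n → Kb k) hW => c1 b d ϖ (univ.image vv) Y hb hco
    (card_image_le.trans (by simp)) (fun v hv => (hMed v hv).2) hY h1 n hn W hW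
  refine FBad_mono (FBad_union' (m := K + 1) (n := Fintype.card k ^ (K * Y) *
    (Fintype.card k ^ (p ^ K * Y) * (Fintype.card k ^ (C1 * Y) * (Fintype.card k ^ (C1 * Y) *
      (p ^ (F.natDegree + (fac' b).card) * (C2 * (b.natDegree + 1)))))))
    (FBad_sub (range (K + 1)) (fun n hn => mem_coe.2 (mem_range.2 (Nat.lt_succ_of_le hn)))
      (card_range _).le) fun n hn => ?_) subset_rfl ?_
  · refine FBad_mono (FBad_union
      (S := fun c : Fin n → k[X] => ∀ i, (c i).degree < (plp (vv (i.castLE hn))).degree)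
      (FBad_mono (FBad_poly n Y) (fun c hc i => (hc i).trans_le ?_) ?_) fun c hc =>
        FBad_union (S := fun W : Fin n → Kb k => ∀ i,
          W i ^ p - W i = algebraMap _ _ (pol (c i) (vv (i.castLE hn)))) ?_ fun W hW =>
          FBad_union (hF n hn W fun i => ⟨_, hW i⟩) fun x hx =>
            FBad_union (hF n hn W fun i => ⟨_, hW i⟩) fun x' hx' =>
              FBad_union (T := fun η P => P ∈ Zer p A F b ϖ ε x x' η)
                (card_prim hT.F_ne hb x x') fun η hη =>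
                c2 hb hco (fun v hv => (hMed v hv).1) hn hW
                  (fun i => (av_pol (hvv _).1.1 (hc i)).1) hx hx' hη)
      (fun P ⟨W, c, h, h'⟩ => ⟨c, fun i => (h i).1, W, fun i => (h i).2, h'⟩) le_rfl
    · refine degree_le_natDegree.trans ?_
      rw [PF_deg (hvv _).1.1]
      exact_mod_cast (hvv _).2
    · rw [← pow_mul, mul_comm]
      exact Nat.pow_le_pow_right hq.le (Nat.mul_le_mul_right _ hn)
    · obtain ⟨T, t1, t2⟩ := FBad_pi (p := p) (one_ne_zero (α := Kb k))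
        fun i : Fin n => algebraMap _ _ (pol (c i) (vv (i.castLE hn)))
      refine FBad_sub T (fun W hW => mem_coe.2 ((t2 W).2 fun i => ?_)) (t1.trans (le_trans ?_ (hm _)))
      · rw [div_one]
        exact hW i
      · rw [Fintype.card_fin]
        exact Nat.pow_le_pow_right hp.out.pos hn
  · have a1 : p ^ (F.natDegree + (fac' b).card) ≤
        Fintype.card k ^ (p ^ F.natDegree * Y) * Fintype.card k ^ (p * Y) := by
      rw [pow_add, pow_mul _ p]
      exact Nat.mul_le_mul (hm _) ((Nat.pow_le_pow_right hp.out.pos hY).trans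
        (Nat.pow_le_pow_left (Nat.lt_pow_self hq).le _))
    refine (Nat.mul_le_mul (hm _) (Nat.mul_le_mul_left _ (Nat.mul_le_mul_left _
      (Nat.mul_le_mul_left _ (Nat.mul_le_mul_left _ (Nat.mul_le_mul a1
        (Nat.mul_le_mul_right _ (hm _)))))))).trans (le_of_eq ?_)
    simp only [add_mul _ _ Y, pow_add, mul_assoc]

end Pool.Agent.ASel
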