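import Pool.Agent.Work.MP_60d5ce_nt.AS.FD
import Pool.Agent.Work.MP_60d5ce_nt.AS.FMin

/-!
# The complex of equivariant families  (AS, function field side)

`C0`, `C1`, `C2`: families on the group `ι → ZMod p`, regular at the places `InU`.  `SplG`: values that are separable and lie in the completions at the places `InS`.
`Cn`: cochains indexed by subsets.

PLAN.  `th` is integral where the `w l` are (`root_le`, `Stg.h_int`), `sum_th`, `th_mem`, `Eqv.emb`.  `C0_split`: `root_split` and `Stg.split` put `emb v (w l)` in `Lv v`, so every local automorphism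
fixes them (`Eqv.fix`, `om_fix`).  `D1_mem`: integrality of `cB (w / A)` at `InU v`: by `Eqv.poly` over `Lv v`... simplest: the local family `emb v ∘ w / A` is fixed by `I0 p v` (the `emb v (w l)` are: `i0_small`, `fp_small`),
`C (x) ^ p = - der ^ (p-1) x` or the expansion in the `p`-basis as in `i0_der`; see `i0_car` below (prove it as `i0_der` in `LocI.lean`).  `D1_D0`: `cob_coc`, `LtD.cob`, `LtD.Q_iff`.
`D0_inj`: `Eqv.const`, `wp_ker`, `Ty.nr`.  `cn_mom`: `mom_mem`, `map_mom` for the projections and `emb v`, `smul_val`.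
-/

set_option linter.unusedSectionVars false

namespace Pool.Agent.ASel

open Polynomial Pool.Agent.Smith Finset
open scoped Classical

noncomputable section

variable {p : ℕ} {k : Type} [Field k] [Fintype k] [hp : Fact p.Prime] [CharP k p] {ι : Type}
  {A F b : k[X]} {n0 : ℕ} {d ϖ : RatFunc k} {ε : ℤ}

theorem i0_car {v : Pl k} (hv : v ≠ none) {x : Lb v} (hx : x ∈ Om (Lv v) (Lb v))
    (h : ∀ τ ∈ I0 p v, τ x = x) (h1 : nm v x ≤ 1) : nm v (cM p v x) ≤ 1 := by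
  have B := (sc_Lb (p := p) v).1
  have mK : ∀ a : RatFunc k, algebraMap _ (Lb v) a ∈ Om (Lv v) (Lb v) := fun a =>
    om_alg (algebraMap _ (Lv v) a)
  have fK : ∀ (τ : Lb v ≃ₐ[Lv v] Lb v) (a : RatFunc k), τ (algebraMap _ (Lb v) a) =
      algebraMap _ (Lb v) a := fun τ a => τ.commutes (algebraMap _ (Lv v) a)
  have d1 := (pb_K (k := k) (p := p)).der_map (algebraMap _ (Lb v)) (fun a _ => mK a) B
    (x := algebraMap k[X] _ (plp v)) trivial
  have n1 : nm v (der p (Om (Lv v) (Lb v)) (tv k (Lb v)) (pk (Lb v) (plp v))) = 1 := by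
    refine (congrArg _ d1.symm).trans ?_
    rw [nm_algK, der_poly]
    refine (av_poly_le hv _).eq_of_not_lt fun l => ?_
    obtain _ | P := v
    · exact hv rfl
    exact P.2.2.not_isUnit ((PerfectField.separable_of_irreducible P.2.2).isUnit_of_dvd' dvd_rfl
      ((av_poly_lt hv _).1 l))
  have n0 := (nm v).ne_zero_iff.1 (n1.trans_ne one_ne_zero)
  have mP : pk (Lb v) (plp v) ∈ Om (Lv v) (Lb v) := mK _
  have B' := B.change mP n0
  have nπ : nm v (pk (Lb v) (plp v)) = 2⁻¹ := (nm_algK v _).trans (av_plp hv)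
  have hf := div_mem hx (B.der_mem mP)
  rw [← div_mul_cancel₀ x n0, cM, B.car_change mP n0 hf, map_mul, n1, mul_one]
  obtain ⟨c, hc, e⟩ := B'.2.2 _ hf
  have hd : ∀ i < p, c i ≠ 0 → ∃ n : ℤ, nm v (c i) = 2 ^ n := fun i hi =>
    i0_disc (hc i) fun τ hτ => sub_eq_zero.1 (B'.uniq (c := fun i => τ (c i) - c i)
      (fun i => sub_mem (om_act τ (hc i)) (hc i)) (by
        have e1 : τ (pk (Lb v) (plp v)) = pk (Lb v) (plp v) := fK τ _
        have e2 := congrArg τ e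
        have e3 : τ (der p (Om (Lv v) (Lb v)) (tv k (Lb v)) (pk (Lb v) (plp v))) =
            der p (Om (Lv v) (Lb v)) (tv k (Lb v)) (pk (Lb v) (plp v)) :=
          (congrArg τ d1.symm).trans ((fK τ _).trans d1)
        rw [map_div₀, h τ hτ, e3, e] at e2
        simp only [map_sum, map_mul, map_pow, e1] at e2
        simp only [sub_pow_char, sub_mul, Finset.sum_sub_distrib]
        exact sub_eq_zero.2 e2.symm) i hi)
  have hi : p - 1 < p := Nat.sub_lt hp.out.pos one_pos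
  have m := LocI_max (nm_na v) nπ hd _ hi
  rw [← e, map_div₀, n1, div_one, map_mul, map_pow, map_pow, nπ] at m
  rw [e, (B'.PBc_spec hc).2]
  by_cases c0 : c (p - 1) = 0
  · simp [c0]
  obtain ⟨n, e⟩ := hd _ hi c0
  have m := m.trans h1
  rw [e, inv_pow, mul_inv_le_iff₀ (by positivity), one_mul, ← zpow_natCast, ← zpow_natCast,
    ← zpow_mul, zpow_le_zpow_iff_right₀ one_lt_two] at m
  refine e ▸ zpow_le_one_of_nonpos₀ one_le_two ?_
  by_contra q
  have : (p : ℤ) ≤ n * p := le_mul_of_one_le_left (by positivity) (by omega)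
  omega

/-- global families, regular at the unramified places -/
def C0 (F b : k[X]) (Φ : ASF p k ι) : AddSubgroup ((ι → ZMod p) → Kb k) where
  carrier := {f | f ∈ Eqv p (RatFunc k) Φ.w ∧ ∀ v, InU F b v → ∀ g, nm v (emb v (f g)) ≤ 1}
  zero_mem' := ⟨zero_mem _, fun v _ g => by simp⟩
  add_mem' ha hb := ⟨add_mem ha.1 hb.1, fun v hv g => by
    rw [Pi.add_apply, map_add]
    exact LocA_add_le (nm_na v) (ha.2 v hv g) (hb.2 v hv g)⟩
  neg_mem' ha := ⟨neg_mem ha.1, fun v hv g => by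
    rw [Pi.neg_apply, map_neg, AbsoluteValue.map_neg]
    exact ha.2 v hv g⟩

/-- local families at the non anomalous primes -/
def CN (A b : k[X]) (Φ : ASF p k ι) : AddSubgroup ((ι → ZMod p) → ∀ v : Pl k, Lb v) where
  carrier := {y | ∀ v, (fun g => y g v) ∈ Eqv p (Lv v) (fun l => emb v (Φ.w l)) ∧
    (¬ InNa p A b v → ∀ g, y g v = 0)}
  zero_mem' v := ⟨zero_mem _, fun _ _ => rfl⟩
  add_mem' ha hb v := ⟨add_mem (ha v).1 (hb v).1, fun h g => by
    rw [Pi.add_apply, Pi.add_apply, (ha v).2 h, (hb v).2 h, add_zero]⟩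
  neg_mem' ha v := ⟨neg_mem (ha v).1, fun h g => by
    rw [Pi.neg_apply, Pi.neg_apply, (ha v).2 h, neg_zero]⟩

/-- cochains of degree one -/
def C1 (A F b : k[X]) (Φ : ASF p k ι) : AddSubgroup ((ι → ZMod p) → W1 k) where
  carrier := {x | (fun g => (x g).1) ∈ C0 F b Φ ∧ (fun g => (x g).2.1) ∈ C0 F b Φ ∧
    (fun g => (x g).2.2) ∈ CN A b Φ}
  zero_mem' := ⟨zero_mem _, zero_mem _, zero_mem _⟩
  add_mem' ha hb := ⟨add_mem ha.1 hb.1, add_mem ha.2.1 hb.2.1, add_mem ha.2.2 hb.2.2⟩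
  neg_mem' ha := ⟨neg_mem ha.1, neg_mem ha.2.1, neg_mem ha.2.2⟩

/-- cochains of degree two -/
def C2 (D : LtD p A F b n0 d ϖ ε) (Φ : ASF p k ι) : AddSubgroup ((ι → ZMod p) → W2 k) where
  carrier := {x | (fun g => (x g).1) ∈ C0 F b Φ ∧
    (∀ g v, D.Q v ((x g).2.1 v) = (x g).2.1 v ∧ (¬ InS p A F b v → (x g).2.1 v = 0)) ∧
    (fun g => (x g).2.2) ∈ CN A b Φ}
  zero_mem' := ⟨zero_mem _, fun _ _ => ⟨map_zero _, fun _ => rfl⟩, zero_mem _⟩
  add_mem' ha hb := ⟨add_mem ha.1 hb.1, fun g v =>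
    ⟨(map_add _ _ _).trans (congrArg₂ (· + ·) (ha.2.1 g v).1 (hb.2.1 g v).1), fun h =>
      (congrArg₂ (· + ·) ((ha.2.1 g v).2 h) ((hb.2.1 g v).2 h)).trans (add_zero 0)⟩,
    add_mem ha.2.2 hb.2.2⟩
  neg_mem' ha := ⟨neg_mem ha.1, fun g v => ⟨(map_neg _ _).trans (congrArg (- ·) (ha.2.1 g v).1),
    fun h => (congrArg (- ·) ((ha.2.1 g v).2 h)).trans neg_zero⟩, neg_mem ha.2.2⟩

variable (p) in
/-- values that lie in the completions at the split places -/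
def SplG (A F b : k[X]) : AddSubgroup (W1 k) where
  carrier := {x | x.1 ∈ Om (RatFunc k) (Kb k) ∧ x.2.1 ∈ Om (RatFunc k) (Kb k) ∧
    ∀ v, InS p A F b v → algebraMap _ _ (lc v x).1 = emb v x.1 ∧
      algebraMap _ _ (lc v x).2 = emb v x.2.1}
  zero_mem' := ⟨zero_mem _, zero_mem _, fun v _ => by simp [lc]⟩
  add_mem' ha hb := ⟨add_mem ha.1 hb.1, add_mem ha.2.1 hb.2.1, fun v hv => by
    have a := ha.2.2 v hv
    have b := hb.2.2 v hv
    simp only [lc, Prod.fst_add, Prod.snd_add, map_add] at a b ⊢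
    exact ⟨by rw [a.1, b.1], by rw [a.2, b.2]⟩⟩
  neg_mem' ha := ⟨neg_mem ha.1, neg_mem ha.2.1, fun v hv => by
    have a := ha.2.2 v hv
    simp only [lc, Prod.fst_neg, Prod.snd_neg, map_neg] at a ⊢
    exact ⟨by rw [a.1], by rw [a.2]⟩⟩

variable (p) in
/-- cochains indexed by subsets -/
structure Cn (A F b : k[X]) {n : ℕ} (W : Fin n → Kb k) (x : Finset (Fin n) → W1 k) : Prop where
  a_eq : (fun I => (x I).1) ∈ Eq1 p (RatFunc k) W
  w_eq : (fun I => (x I).2.1) ∈ Eq1 p (RatFunc k) W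
  y_eq : ∀ v, (fun I => (x I).2.2 v) ∈ Eq1 p (Lv v) fun i => emb v (W i)
  int : ∀ v, InU F b v → ∀ I, nm v (emb v (x I).1) ≤ 1 ∧ nm v (emb v (x I).2.1) ≤ 1
  spl : ∀ I, x I ∈ SplG p A F b

theorem FC_dL {x : W1 k} (hx : x ∈ SplG p A F b) {v : Pl k} (hv : InS p A F b v)
    (h : d1B p A ϖ x = 0) : dL p A ϖ v (lc v x) = 0 := by
  have := congrArg (emb v) h
  rw [d1B, map_add, map_sub, emb_cB v (x := _ / pk _ A) (div_mem hx.2.1 (om_alg _)), map_mul, map_div₀, emb_pk,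
    emb_algK, ← (hx.2.2 v hv).1, ← (hx.2.2 v hv).2, ← alg_pk, ← map_div₀, ← alg_cL, ← map_mul,
    ← map_sub, ← map_add, map_zero] at this
  exact (_root_.map_eq_zero _).1 this

theorem D1_eq_zero {D : LtD p A F b n0 d ϖ ε} {x : W1 k} (hx : x ∈ SplG p A F b) : D1 D x = 0 ↔
    d1B p A ϖ x = 0 ∧ (∀ v, InS p A F b v → lc v x ∈ D.Lt v) ∧
      ∀ v, InNa p A b v → emb v x.1 = x.2.2 v ^ p / pk _ A - x.2.2 v := by
  change D1f D x = 0 ↔ _
  simp only [D1f, Prod.mk_eq_zero, funext_iff, Pi.zero_apply, ite_eq_right_iff, sub_eq_zero]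
  exact and_congr_right fun h => and_congr_left' (forall₂_congr fun v hv =>
    D.Q_iff v _ (FC_dL hx hv h))

theorem bW_coc {D : LtD p A F b n0 d ϖ ε} (hF : F ≠ 0) (hb : b ≠ 0) {x : W1 k}
    (hx : x ∈ SplG p A F b) (h : D1 D x = 0) (x' : W1 k) : bW D x x' = 0 := by
  obtain ⟨h1, h2, h3⟩ := (D1_eq_zero hx).1 h
  change bWf D x x' = 0
  rw [bWf, sum_eq_zero fun v hv => ?_, sum_eq_zero fun v hv => ?_, add_zero]
  · simp [h1, h3 v ((mem_Nf hb).1 hv)]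
  · simp [D.P_id v _ (h2 v ((mem_Sf hF hb).1 hv)), thL]

variable [Fintype ι]

/-- the member of the linear family with coordinates `e` -/
def hh (Φ : ASF p k ι) (e : ι → ZMod p) : RatFunc k := ∑ l, ((e l).val : RatFunc k) * Φ.h l

/-- its Artin-Schreier root -/
def WW (Φ : ASF p k ι) (e : ι → ZMod p) : Kb k := ∑ l, ((e l).val : Kb k) * Φ.w l

theorem hh_add (Φ : ASF p k ι) (e e' : ι → ZMod p) : hh Φ (e + e') = hh Φ e + hh Φ e' := by
  simp only [hh, Pi.add_apply, FEq_add, add_mul, sum_add_distrib]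

theorem hh_smul (Φ : ASF p k ι) (c : ZMod p) (e : ι → ZMod p) :
    hh Φ (c • e) = (c.val : RatFunc k) * hh Φ e := by
  simp only [hh, Pi.smul_apply, smul_eq_mul, FEq_val, map_mul, mul_sum, mul_assoc]

theorem WW_add (Φ : ASF p k ι) (e e' : ι → ZMod p) : WW Φ (e + e') = WW Φ e + WW Φ e' := by
  simp only [WW, Pi.add_apply, FEq_add, add_mul, sum_add_distrib]

theorem WW_pow (Φ : ASF p k ι) (e : ι → ZMod p) :
    WW Φ e ^ p - WW Φ e = algebraMap _ _ (hh Φ e) := by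
  simp only [WW, hh, sum_pow_char, mul_pow, FEq_frob, map_sum, map_mul, map_natCast, ← Φ.hw,
    mul_sub, sum_sub_distrib]

/-- multiplication by the family of sum one -/
def t0 (Φ : ASF p k ι) (g : ι → ZMod p) : Kb k →+ Kb k := AddMonoidHom.mulLeft (th p Φ.w g)

/-- the same on local families -/
def tN (Φ : ASF p k ι) (g : ι → ZMod p) : (∀ v : Pl k, Lb v) →+ ∀ v : Pl k, Lb v :=
  AddMonoidHom.pi fun v =>
    (AddMonoidHom.mulLeft (emb v (th p Φ.w g))).comp (Pi.evalAddMonoidHom (fun v : Pl k => Lb v) v)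

/-- the same in degree one -/
def t1 (Φ : ASF p k ι) (g : ι → ZMod p) : W1 k →+ W1 k :=
  (t0 Φ g).prodMap ((t0 Φ g).prodMap (tN Φ g))

/-- the same in degree two -/
def t2 (Φ : ASF p k ι) (g : ι → ZMod p) : W2 k →+ W2 k :=
  (t0 Φ g).prodMap ((if g = 0 then AddMonoidHom.id _ else 0).prodMap (tN Φ g))

variable {Φ : ASF p k ι}

theorem FC_mul0 {a f : (ι → ZMod p) → Kb k} (ha : a ∈ C0 F b Φ) (hf : f ∈ C0 F b Φ) :
    (fun g => a g * f g) ∈ C0 F b Φ :=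
  ⟨Eqv.mul ha.1 hf.1, fun v hv g => by
    rw [map_mul, map_mul]
    exact mul_le_one₀ (ha.2 v hv g) ((nm v).nonneg _) (hf.2 v hv g)⟩

theorem FC_mulN {a : (ι → ZMod p) → Kb k} {y : (ι → ZMod p) → ∀ v : Pl k, Lb v} (ha : a ∈ C0 F b Φ)
    (hy : y ∈ CN A b Φ) : (fun g v => emb v (a g) * y g v) ∈ CN A b Φ := fun v =>
  ⟨Eqv.mul (Eqv.emb v ha.1) (hy v).1, fun h g => by simp only [(hy v).2 h g, mul_zero]⟩

theorem FC_sh0 {f : (ι → ZMod p) → Kb k} (hf : f ∈ C0 F b Φ) (h : ι → ZMod p) :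
    (fun g => f (g + h)) ∈ C0 F b Φ := ⟨Eqv.shift hf.1 h, fun v hv _ => hf.2 v hv _⟩

theorem FC_shN {y : (ι → ZMod p) → ∀ v : Pl k, Lb v} (hy : y ∈ CN A b Φ) (h : ι → ZMod p) :
    (fun g => y (g + h)) ∈ CN A b Φ := fun v => ⟨Eqv.shift (hy v).1 h, fun h' _ => (hy v).2 h' _⟩

theorem FC_s0 (Φ : ASF p k ι) (x : Kb k) : ∑ g, t0 Φ g x = x := by
  change ∑ g, th p Φ.w g * x = x
  rw [← sum_mul, sum_th, one_mul]

theorem FC_sN (Φ : ASF p k ι) (x : ∀ v : Pl k, Lb v) : ∑ g, tN Φ g x = x := funext fun v => by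
  rw [Finset.sum_apply]
  change ∑ g, emb v (th p Φ.w g) * x v = x v
  rw [← sum_mul, ← map_sum, sum_th, map_one, one_mul]

theorem FC_nat (v : Pl k) (m : ℕ) : nm v (emb v m) ≤ 1 := by
  rw [map_natCast]
  exact (nm_na v).apply_natCast_le_one

theorem FC_alg {a : RatFunc k} (h : ∀ v, ¬ InS0 F v → av v a ≤ 1) :
    (fun _ => algebraMap _ _ a) ∈ C0 F b Φ :=
  ⟨Eqv.alg a, fun v hv _ => by
    rw [emb_algK, nm_alg, norm_alg]
    exact h v fun h' => (inU_iff (p := p) (A := 0)).1 hv |>.1 (Or.inl h')⟩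

theorem FC_div (hA : A ∣ F) {f : (ι → ZMod p) → Kb k} (hf : f ∈ C0 F b Φ) :
    (fun g => f g / pk _ A) ∈ C0 F b Φ := by
  have := FC_mul0 hf (FC_alg (a := (pk _ A)⁻¹) fun v hv => by
    rw [map_inv₀, ← norm_alg]
    exact inv_le_one_of_one_le₀ (norm_pk_one hA hv).ge)
  simp only [map_inv₀, ← div_eq_mul_inv] at this
  exact this

theorem FC_pow {f : (ι → ZMod p) → Kb k} (hf : f ∈ C0 F b Φ) (n : ℕ) :
    (fun g => f g ^ n) ∈ C0 F b Φ :=
  ⟨Eqv.pow hf.1 n, fun v hv g => by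
    rw [map_pow, map_pow]
    exact pow_le_one₀ ((nm v).nonneg _) (hf.2 v hv g)⟩

theorem FC_mom {n : ℕ} (χ : Fin n → (ι → ZMod p) →+ ZMod p) {f : (ι → ZMod p) → Kb k}
    (hf : f ∈ C0 F b Φ) {v : Pl k} (hv : InU F b v) (I : Finset (Fin n)) :
    nm v (emb v (mom χ f I)) ≤ 1 := by
  rw [mom, map_sum]
  refine LocA_sum_le (nm_na v) _ _ fun g _ => ?_
  rw [smul_val, map_mul, map_mul]
  exact mul_le_one₀ (FC_nat v _) ((nm v).nonneg _) (hf.2 v hv g)

variable (hS : Stg A F b Φ)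
include hS

theorem FC_w {v : Pl k} (hv : InU F b v) (l : ι) : nm v (emb v (Φ.w l)) ≤ 1 :=
  root_le (Φ.hw l) le_rfl (hS.h_int l v (Or.inr fun h => hv.2 (h.mul_left F)))

theorem FC_th : th p Φ.w ∈ C0 F b Φ :=
  ⟨th_mem Φ.asr, fun v hv g => by
    simp only [th, map_prod, map_neg, map_pow, AbsoluteValue.map_neg, map_add]
    exact prod_le_one (fun _ _ => pow_nonneg ((nm v).nonneg _) _) fun l _ =>
      pow_le_one₀ ((nm v).nonneg _) (LocA_add_le (nm_na v) (FC_w hS hv l) (FC_nat v _))⟩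

theorem FC_car {f : (ι → ZMod p) → Kb k} (hf : f ∈ C0 F b Φ) : (fun g => cB p (f g)) ∈ C0 F b Φ :=
  ⟨Eqv.cB hf.1, fun v hv g => by
    rw [emb_cB v (hf.1.1 g)]
    refine i0_car hv.1 (emb_om v (hf.1.1 g)) (fun τ hτ => Eqv.fix (Eqv.emb v hf.1) g τ fun l => ?_)
      (hf.2 v hv g)
    obtain ⟨ρ, hρ⟩ := exists_rho (ASr.emb v Φ.asr) τ
    have h := i0_small hτ (FC_w hS hv l)
    rw [hρ, add_sub_cancel_left, ← mul_one ((ρ l).val : Lb v)] at h
    have := fp_small (p := p) (nm_na v) (map_one _) h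
    rw [hρ, ← mul_one ((ρ l).val : Lb v), this, add_zero]⟩

theorem FC_split {v : Pl k} (hv : InS p A F b v) (l : ι) :
    ∃ s : Lv v, ‖s‖ ≤ 1 ∧ algebraMap _ _ s = emb v (Φ.w l) := by
  obtain ⟨s, h1, h2⟩ := hS.split l v hv
  exact root_split (by rw [h2, ← emb_algK, ← Φ.hw, map_sub, map_pow]) h1

theorem hh_int (e : ι → ZMod p) {v : Pl k} (hv : v = none ∨ ¬ plp v ∣ b) : av v (hh Φ e) ≤ 1 :=
  LocA_sum_le (av_na v) _ _ fun l _ => (Hasse_nat v _ _).trans (hS.h_int l v hv)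

theorem WW_split (e : ι → ZMod p) {v : Pl k} (hv : InS p A F b v) :
    ∃ s : Lv v, ‖s‖ ≤ 1 ∧ algebraMap _ _ s = emb v (WW Φ e) := by
  choose s h1 h2 using FC_split hS hv
  refine ⟨∑ l, ((e l).val : Lv v) * s l, LocA_sum_le (Wp_na v) _ _ fun l _ => ?_, by
    simp only [WW, map_sum, map_mul, map_natCast, h2]⟩
  exact (norm_mul _ _).trans_le
    (mul_le_one₀ (IsUltrametricDist.norm_natCast_le_one _ _) (norm_nonneg _) (h1 l))

theorem eqv_split {f : (ι → ZMod p) → Kb k} (hf : f ∈ Eqv p (RatFunc k) Φ.w) {v : Pl k}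
    (hv : InS p A F b v) (g : ι → ZMod p) : algebraMap _ _ (rt v (emb v (f g))) = emb v (f g) := by
  obtain ⟨a, ha⟩ := om_fix (emb_om v (hf.1 g)) fun τ => Eqv.fix (Eqv.emb v hf) g τ fun l => by
    obtain ⟨s, -, h⟩ := FC_split hS hv l
    rw [← h, τ.commutes]
  rw [← ha, rt_alg]

theorem C1_spl {x : (ι → ZMod p) → W1 k} (hx : x ∈ C1 A F b Φ) (g : ι → ZMod p) :
    x g ∈ SplG p A F b :=
  ⟨hx.1.1.1 g, hx.2.1.1.1 g, fun _ hv => ⟨eqv_split hS hx.1.1 hv g, eqv_split hS hx.2.1.1 hv g⟩⟩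

theorem hig0 : Hig (C0 F b Φ) (t0 Φ) :=
  ⟨fun _ => FC_sh0, fun _ => FC_mul0 (FC_th hS), FC_s0 Φ⟩

theorem hig1 : Hig (C1 A F b Φ) (t1 Φ) :=
  ⟨fun _ hf h => ⟨FC_sh0 hf.1 h, FC_sh0 hf.2.1 h, FC_shN hf.2.2 h⟩, fun _ hf =>
    ⟨FC_mul0 (FC_th hS) hf.1, FC_mul0 (FC_th hS) hf.2.1, FC_mulN (FC_th hS) hf.2.2⟩, fun x =>
    Prod.ext (Prod.fst_sum.trans (FC_s0 Φ _)) (Prod.snd_sum.trans
      (Prod.ext (Prod.fst_sum.trans (FC_s0 Φ _)) (Prod.snd_sum.trans (FC_sN Φ _))))⟩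

theorem hig2 (D : LtD p A F b n0 d ϖ ε) : Hig (C2 D Φ) (t2 Φ) := by
  have e : ∀ g (x : W2 k), (t2 Φ g x).2.1 = if g = 0 then x.2.1 else 0 := fun g _ => by
    by_cases h : g = 0 <;> simp [t2, h]
  refine ⟨fun _ hf h => ⟨FC_sh0 hf.1 h, fun g => hf.2.1 _, FC_shN hf.2.2 h⟩, fun f hf =>
    ⟨FC_mul0 (FC_th hS) hf.1, fun g v => ?_, FC_mulN (FC_th hS) hf.2.2⟩, fun x =>
    Prod.ext (Prod.fst_sum.trans (FC_s0 Φ _)) (Prod.snd_sum.trans
      (Prod.ext (Prod.fst_sum.trans ?_) (Prod.snd_sum.trans (FC_sN Φ _))))⟩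
  · rw [e]
    split_ifs
    exacts [hf.2.1 g v, ⟨map_zero _, fun _ => rfl⟩]
  · simp only [e, sum_ite_eq', mem_univ, if_true]

theorem cn_mom {n : ℕ} (e : Fin n → ι → ZMod p) {x : (ι → ZMod p) → W1 k} (hx : x ∈ C1 A F b Φ) :
    Cn p A F b (fun i => WW Φ (e i)) (mom (fun i => prg p (e i)) x) := by
  have e1 := map_mom (AddMonoidHom.fst _ _) (fun i => prg p (e i)) x
  have e2 := map_mom ((AddMonoidHom.fst _ _).comp (AddMonoidHom.snd _ _)) (fun i => prg p (e i)) x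
  refine ⟨funext e1 ▸ mom_mem Φ.asr e hx.1.1, funext e2 ▸ mom_mem Φ.asr e hx.2.1.1, fun v => ?_,
    fun v hv I => ⟨(congrArg (fun z => nm v (emb v z)) (e1 I)).trans_le (FC_mom _ hx.1 hv I),
      (congrArg (fun z => nm v (emb v z)) (e2 I)).trans_le (FC_mom _ hx.2.1 hv I)⟩,
    fun I => sum_mem fun g _ => ZMod.smul_mem (C1_spl hS hx g) _⟩
  have e3 := map_mom ((Pi.evalAddMonoidHom (fun v : Pl k => Lb v) v).comp
    ((AddMonoidHom.snd _ _).comp (AddMonoidHom.snd _ _))) (fun i => prg p (e i)) x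
  simp only [WW, map_sum, map_mul, map_natCast]
  exact funext e3 ▸ mom_mem (ASr.emb v Φ.asr) e (hx.2.2 v).1

/-- multiplication of a family by the conjugates of `WW Φ e` -/
theorem mul_WW (e : ι → ZMod p) {x : (ι → ZMod p) → W1 k} (hx : x ∈ C1 A F b Φ) :
    ∃ x1 ∈ C1 A F b Φ, ∀ g, (prg p e g • x g).1 = (x1 g).1 - WW Φ e * (x g).1 ∧
      (prg p e g • x g).2.1 = (x1 g).2.1 - WW Φ e * (x g).2.1 ∧
      ∀ v, (prg p e g • x g).2.2 v = (x1 g).2.2 v - emb v (WW Φ e) * (x g).2.2 v := by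
  have ha : (fun g => WW Φ e + ((prg p e g).val : Kb k)) ∈ C0 F b Φ :=
    ⟨eqv_lin Φ.asr e, fun v hv g => by
      rw [map_add]
      exact LocA_add_le (nm_na v) (root_le (WW_pow Φ e) le_rfl
        (hh_int hS e (Or.inr fun h => hv.2 (h.mul_left F)))) (FC_nat v _)⟩
  refine ⟨fun g => (_, _, _), ⟨FC_mul0 ha hx.1, FC_mul0 ha hx.2.1, FC_mulN ha hx.2.2⟩,
    fun g => ⟨?_, ?_, fun v => ?_⟩⟩ <;>
  simp only [Prod.smul_fst, Prod.smul_snd, Pi.smul_apply, add_mul, add_sub_cancel_left,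
    map_add, map_natCast] <;> exact smul_val _ _

variable (hT : Ty p A F ϖ ε)
include hT

theorem FC_pk (M : Type) [Field M] [Algebra (RatFunc k) M] : pk M A ≠ 0 :=
  (_root_.map_ne_zero (algebraMap (RatFunc k) M)).2 (RatFunc.algebraMap_ne_zero (ne_zero_of_dvd_ne_zero hT.F_ne hT.dvd))

theorem D0_mem : ∀ f ∈ C0 F b Φ, (fun g => D0 p A b ϖ (f g)) ∈ C1 A F b Φ := fun f hf => by
  have h := FC_div hT.dvd (FC_pow hf p)
  refine ⟨sub_mem h hf, neg_mem (FC_mul0 h (FC_alg hT.int)), fun v => ⟨?_, fun h _ => if_neg h⟩⟩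
  change (fun g => if InNa p A b v then emb v (f g) else 0) ∈ _
  split_ifs
  exacts [Eqv.emb v hf.1, zero_mem _]

theorem D1_mem (D : LtD p A F b n0 d ϖ ε) :
    ∀ f ∈ C1 A F b Φ, (fun g => D1 D (f g)) ∈ C2 D Φ := fun f hf => by
  refine ⟨add_mem (sub_mem hf.2.1 (FC_car hS (FC_div hT.dvd hf.2.1))) (FC_mul0 hf.1 (FC_alg hT.int)),
    fun g v => ⟨?_, fun h => if_neg h⟩, fun v => ⟨?_, fun h _ => if_neg h⟩⟩
  · change D.Q v (if InS p A F b v then _ else 0) = if InS p A F b v then _ else 0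
    split_ifs
    exacts [D.Q_Q v _, map_zero _]
  · change (fun g => if InNa p A b v then emb v (f g).1 - ((f g).2.2 v ^ p / pk _ A - (f g).2.2 v)
      else 0) ∈ _
    split_ifs
    · have := Eqv.mul (Eqv.pow (hf.2.2 v).1 p) (Eqv.alg (pk (Lv v) A)⁻¹)
      simp only [map_inv₀, alg_pk, ← div_eq_mul_inv] at this
      exact sub_mem (Eqv.emb v hf.1.1) (sub_mem this (hf.2.2 v).1)
    · exact zero_mem _

theorem D1_D0 (D : LtD p A F b n0 d ϖ ε) : ∀ f ∈ C0 F b Φ, ∀ g, D1 D (D0 p A b ϖ (f g)) = 0 := fun f hf g => by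
  refine (D1_eq_zero (C1_spl hS (D0_mem hS hT f hf) g)).2 ⟨?_, fun v hv => ?_, fun v hv => ?_⟩
  · refine cob_coc (cB p) _ cB_frob (om_alg _) (FC_pk hS hT _) (om_alg _) ?_
      (by rw [← map_zsmul, hT.eps]) (hf.1.1 g)
    have := alg_cKB (p := p) (ϖ / pk _ A ^ 2)
    rw [hT.car, map_div₀, map_pow] at this
    exact this.symm
  · have e := eqv_split hS hf.1 hv g
    have := D.cob v (rt v (emb v (f g)))
    rw [← rt_alg v (_ - _), ← rt_alg v (-_), map_neg, map_sub, map_mul, map_div₀, map_pow, e, alg_pk,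
      ← emb_algK, ← emb_pk, ← map_pow, ← map_div₀, ← map_sub, ← map_mul, ← map_neg] at this
    exact this
  · change emb v (f g ^ p / pk _ A - f g) = (if InNa p A b v then emb v (f g) else 0) ^ p / pk _ A -
      if InNa p A b v then emb v (f g) else 0
    rw [if_pos hv, map_sub, map_div₀, map_pow, emb_pk]

theorem D0_inj : ∀ y, (fun _ => y) ∈ C0 F b Φ → D0 p A b ϖ y = 0 → y = 0 := fun _ hy h =>
  wp_fix_zero Φ.asr (FC_pk hS hT _) hT.nr (Eqv.fix hy.1 0) (congrArg Prod.fst h)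

end

end Pool.Agent.ASel
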