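import Pool.Agent.Work.MP_60d5ce_nt.AS.FDef
import Pool.Agent.Work.MP_60d5ce_nt.AS.FEq
import Pool.Agent.Work.MP_60d5ce_nt.AS.FXi

/-!
# The complex of equivariant families: definitions, functoriality  (AS, function field side)

`emb v` is a fixed embedding of `Kb k` in `Lb v`, `rt v` an additive retraction of `Lb v` onto `Lv v`, `cM p v` the Cartier operator of the separable closure of `Lv v`.
`LtD`: isotropic subgroups `Lt v` of the local cocycles with two projections.  `D0`, `D1` are the pointwise differentials on `Kb k → W1 → W2`, `bW` the pointwise pairing.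

PLAN.  `exists_rt`: `LinearMap.exists_leftInverse_of_injective` over `ZMod p` or `Lv v`.  The compatibilities are `PB.car_map` (`pb_K`, `pb_L`, `sc_Kb`, `sc_Lb`, `om_map`, `om_alg`, `om_act`).
`Eqv.emb`, `Eq1.emb`: `exists_rst`.  `fin_nonint`: outside the poles of the coefficients of the minimal polynomial `x` is integral.
-/

set_option linter.unusedSectionVars false

namespace Pool.Agent.ASel

open Polynomial Pool.Agent.Smith Finset
open scoped Classical

noncomputable section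

variable {k : Type} [Field k]

/-- a fixed embedding in the algebraic closure of the completion -/
def emb (v : Pl k) : Kb k →ₐ[RatFunc k] Lb v := (exists_emb v).some

theorem exists_rt (v : Pl k) : ∃ r : Lb v →+ Lv v, ∀ x, r (algebraMap _ _ x) = x := by
  obtain ⟨r, hr⟩ := (Algebra.linearMap (Lv v) (Lb v)).exists_leftInverse_of_injective
    (LinearMap.ker_eq_bot.2 (algebraMap (Lv v) (Lb v)).injective)
  exact ⟨r.toAddMonoidHom, fun x => LinearMap.congr_fun hr x⟩

/-- a retraction onto the completion -/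
def rt (v : Pl k) : Lb v →+ Lv v := (exists_rt v).choose

theorem rt_alg (v : Pl k) (x : Lv v) : rt v (algebraMap _ _ x) = x := (exists_rt v).choose_spec x

/-- the places where everything is unramified -/
def InU (F b : k[X]) (v : Pl k) : Prop := v ≠ none ∧ ¬ plp v ∣ F * b

theorem emb_algK (v : Pl k) (a : RatFunc k) :
    emb v (algebraMap _ _ a) = algebraMap (Lv v) (Lb v) (algebraMap _ _ a) := by
  exact ((emb v).commutes a).trans (IsScalarTower.algebraMap_apply _ _ _ a)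

theorem emb_pk (v : Pl k) (f : k[X]) : emb v (pk (Kb k) f) = pk (Lb v) f := by
  exact (emb v).commutes _

theorem alg_pk (v : Pl k) (f : k[X]) : algebraMap (Lv v) (Lb v) (pk (Lv v) f) = pk (Lb v) f := by
  exact (IsScalarTower.algebraMap_apply (RatFunc k) (Lv v) (Lb v) _).symm

theorem emb_om (v : Pl k) {x : Kb k} (hx : x ∈ Om (RatFunc k) (Kb k)) :
    emb v x ∈ Om (Lv v) (Lb v) := by
  exact om_map (algebraMap (RatFunc k) (Lv v)) (emb v : Kb k →+* Lb v) (emb_algK v) hx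

theorem fin_nonint (x : Kb k) : {v : Pl k | 1 < nm v (emb v x)}.Finite := by
  have hm := minpoly.monic (Algebra.IsIntegral.isIntegral (R := RatFunc k) x)
  refine ((minpoly (RatFunc k) x).support.finite_toSet.biUnion fun i _ =>
    fin_poles ((minpoly (RatFunc k) x).coeff i)).subset fun v hv => by_contra fun h => ?_
  have hm' := hm.map (algebraMap (RatFunc k) (Lv v))
  refine not_le.2 hv ((nm_eq v _).trans_le ((norm_root_le_spectralValue
    (f := spectralAlgNorm (Lv v) (Lb v)) spectralAlgNorm_isPowMul isNonarchimedean_spectralNorm hm'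
    ?_).trans ((spectralValue_le_one_iff hm').2 fun i => ?_)))
  · rw [aeval_map_algebraMap, aeval_algHom_apply, minpoly.aeval, map_zero]
  · rw [coeff_map, norm_alg]
    refine not_lt.1 fun e => h (Set.mem_biUnion (mem_support_iff.2 fun e0 => ?_) e)
    rw [e0, map_zero] at e
    exact not_lt.2 zero_le_one e

variable (p : ℕ)

/-- the non anomalous primes of `b` -/
def InNa (A b : k[X]) (v : Pl k) : Prop := v ≠ none ∧ plp v ∣ b ∧ ¬ Anom p A (plp v)

/-- the anomalous primes of `b` -/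
def InAn (A b : k[X]) (v : Pl k) : Prop := v ≠ none ∧ plp v ∣ b ∧ Anom p A (plp v)

/-- the finite set of the bad places and the anomalous primes -/
def Sf (A F b : k[X]) : Finset (Pl k) :=
  insert none (fac' F) ∪ (fac' b).filter fun v => Anom p A (plp v)

/-- the finite set of the non anomalous primes -/
def Nf (A b : k[X]) : Finset (Pl k) := (fac' b).filter fun v => ¬ Anom p A (plp v)

variable {p}

theorem mem_Sf {A F b : k[X]} (hF : F ≠ 0) (hb : b ≠ 0) {v : Pl k} :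
    v ∈ Sf p A F b ↔ InS p A F b v := by
  simp only [Sf, InS, InS0, mem_union, mem_insert, mem_filter, mem_fac' hF, mem_fac' hb]
  tauto

theorem mem_Nf {A b : k[X]} (hb : b ≠ 0) {v : Pl k} : v ∈ Nf p A b ↔ InNa p A b v := by
  simp only [Nf, InNa, mem_filter, mem_fac' hb, and_assoc]

theorem inU_iff {A F b : k[X]} {v : Pl k} : InU F b v ↔ ¬ InS p A F b v ∧ ¬ InNa p A b v := by
  unfold InU InS InS0 InNa
  by_cases hv : v = none
  · tauto
  · rw [(PF_irr hv).prime.dvd_mul]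
    tauto

theorem inS_iff {A F b : k[X]} {v : Pl k} : InS p A F b v ↔ InS0 F v ∨ InAn p A b v := by
  unfold InS InS0 InAn
  tauto

theorem not_S0_of_dvd {F b : k[X]} (h : IsCoprime b F) {v : Pl k} (hv : v ≠ none) (hb : plp v ∣ b) :
    ¬ InS0 F v := by
  rintro (e | e)
  exacts [hv e, (PF_irr hv).not_isUnit (h.isUnit_of_dvd' hb e)]

theorem InNa.not_S {A F b : k[X]} (h : IsCoprime b F) {v : Pl k} (hv : InNa p A b v) :
    ¬ InS p A F b v := by
  rintro (e | e)
  exacts [not_S0_of_dvd h hv.1 hv.2.1 e, hv.2.2 e.2]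

theorem norm_pk_one {A F : k[X]} (hA : A ∣ F) {v : Pl k} (hv : ¬ InS0 F v) : ‖pk (Lv v) A‖ = 1 := by
  exact (norm_alg v _).trans (PF_one (fun e => hv (Or.inl e)) fun e => hv (Or.inr (e.trans hA)))

theorem nm_pk_one {A F : k[X]} (hA : A ∣ F) {v : Pl k} (hv : ¬ InS0 F v) :
    nm v (pk (Lb v) A) = 1 := by
  rw [← alg_pk, nm_alg, norm_pk_one hA hv]

theorem Eqv.emb {ι : Type} {w : ι → Kb k} (v : Pl k) {f : (ι → ZMod p) → Kb k}
    (hf : f ∈ Eqv p (RatFunc k) w) :
    (fun g => emb v (f g)) ∈ Eqv p (Lv v) fun l => emb v (w l) := by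
  refine ⟨fun g => emb_om v (hf.1 g), fun σ ρ h g => ?_⟩
  obtain ⟨r, hr⟩ := exists_rst v (ASel.emb v)
  rw [← hr, hf.2 (r σ) ρ (fun l => (ASel.emb v).injective ((hr _ _).trans ((h l).trans
    (by rw [map_add, map_natCast]; rfl)))) g]

theorem Eq1.emb {n : ℕ} {W : Fin n → Kb k} (v : Pl k) {f : Finset (Fin n) → Kb k}
    (hf : f ∈ Eq1 p (RatFunc k) W) :
    (fun I => emb v (f I)) ∈ Eq1 p (Lv v) fun i => emb v (W i) := by
  refine ⟨fun g => emb_om v (hf.1 g), fun σ ρ h g => ?_⟩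
  obtain ⟨r, hr⟩ := exists_rst v (ASel.emb v)
  rw [← hr, hf.2 (r σ) ρ (fun l => (ASel.emb v).injective ((hr _ _).trans ((h l).trans
    (by rw [map_add, map_natCast]; rfl)))) g]
  refine (map_sh (ASel.emb v : Kb k →+* Lb v) _ f g).trans ?_
  simp only [map_neg, map_natCast]
  rfl

theorem ASr.emb {ι : Type} {w : ι → Kb k} (v : Pl k) (h : ASr p (RatFunc k) w) :
    ASr p (Lv v) fun l => emb v (w l) := by
  intro l
  obtain ⟨a, ha⟩ := h l
  exact ⟨algebraMap _ _ a, by rw [← map_pow, ← map_sub, ha, emb_algK]⟩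

theorem ASF.asr {ι : Type} (Φ : ASF p k ι) : ASr p (RatFunc k) Φ.w := fun l => ⟨_, Φ.hw l⟩

variable [Fintype k] [hp : Fact p.Prime] [CharP k p]

variable (p) in
/-- the Cartier operator of the separable closure of the completion -/
def cM (v : Pl k) : Lb v →+ Lb v := car p (Om (Lv v) (Lb v)) (tv k (Lb v))

theorem FD_car {M M' : Type} [Field M] [Field M'] [CharP M p] [CharP M' p] {S : Subfield M} {t : M}
    (h : PB p S t) (f : M →+* M') {S' : Subfield M'} {t' : M'} (hS : ∀ x ∈ S, f x ∈ S')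
    (e : f t = t') (h' : PB p S' t') {x : M} (hx : x ∈ S) :
    f (car p S t x) = car p S' t' (f x) := by
  subst e
  exact h.car_map f hS h' hx

theorem emb_cB (v : Pl k) {x : Kb k} (hx : x ∈ Om (RatFunc k) (Kb k)) :
    emb v (cB p x) = cM p v (emb v x) := by
  exact FD_car sc_Kb.1 (emb v : Kb k →+* Lb v) (fun _ => emb_om v) ((emb v).commutes _)
    (sc_Lb v).1 hx

theorem alg_cL (v : Pl k) (x : Lv v) :
    algebraMap (Lv v) (Lb v) (cL p v x) = cM p v (algebraMap _ _ x) := by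
  exact FD_car (pb_L v) _ (fun x _ => om_alg x)
    (IsScalarTower.algebraMap_apply (RatFunc k) (Lv v) (Lb v) _).symm (sc_Lb v).1 trivial

theorem alg_cKB (x : RatFunc k) :
    algebraMap (RatFunc k) (Kb k) (cK p x) = cB p (algebraMap _ _ x) := by
  exact FD_car pb_K _ (fun x _ => om_alg x) rfl sc_Kb.1 trivial

theorem cB_frob : ∀ y ∈ Om (RatFunc k) (Kb k), ∀ f ∈ Om (RatFunc k) (Kb k),
    cB p (y ^ p * f) = y * cB p f := by
  exact fun _ hy _ hf => sc_Kb.1.car_frob_mul hy hf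

theorem cM_frob (v : Pl k) : ∀ y ∈ Om (Lv v) (Lb v), ∀ f ∈ Om (Lv v) (Lb v),
    cM p v (y ^ p * f) = y * cM p v f := by
  exact fun _ hy _ hf => (sc_Lb v).1.car_frob_mul hy hf

theorem Eqv.cB {ι : Type} {w : ι → Kb k} {f : (ι → ZMod p) → Kb k}
    (hf : f ∈ Eqv p (RatFunc k) w) : (fun g => cB p (f g)) ∈ Eqv p (RatFunc k) w := by
  exact Eqv.car sc_Kb.1 (fun σ => σ.commutes _) hf

theorem Eq1.cB {n : ℕ} {W : Fin n → Kb k} {f : Finset (Fin n) → Kb k}
    (hf : f ∈ Eq1 p (RatFunc k) W) : (fun I => cB p (f I)) ∈ Eq1 p (RatFunc k) W := by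
  exact Eq1.car sc_Kb.1 (fun σ => σ.commutes _) hf

theorem na_root {A F b : k[X]} (hA : A ∣ F) (h : IsCoprime b F) {v : Pl k} (hv : InNa p A b v) :
    ∀ t : Lv v, t ^ (p - 1) ≠ pk (Lv v) A := by
  exact fun t ht => hv.2.2 ((anom_iff hv.1 fun e =>
    not_S0_of_dvd h hv.1 hv.2.1 (Or.inr (e.trans hA))).2 ⟨t, ht⟩)

theorem an_root {A F b : k[X]} (hA : A ∣ F) (h : IsCoprime b F) {v : Pl k} (hv : InAn p A b v) :
    ∃ t : Lv v, t ^ (p - 1) = pk (Lv v) A := by
  exact (anom_iff hv.1 fun e => not_S0_of_dvd h hv.1 hv.2.1 (Or.inr (e.trans hA))).1 hv.2.2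

/-- a root of `x ^ p - x = h` with a local solution lies in the completion -/
theorem root_split {v : Pl k} {W : Lb v} {s : Lv v}
    (h : W ^ p - W = algebraMap _ _ (s ^ p - s)) (hs : ‖s‖ ≤ 1) :
    ∃ s' : Lv v, ‖s'‖ ≤ 1 ∧ algebraMap _ _ s' = W := by
  obtain ⟨m, hm⟩ := Wp_fix (p := p) (x := W - algebraMap _ _ s) (by
    rw [map_sub, map_pow] at h
    rw [sub_pow_char]
    linear_combination h)
  exact ⟨s + m, PF_add hs (IsUltrametricDist.norm_natCast_le_one _ m),
    by rw [map_add, map_natCast, ← hm, add_sub_cancel]⟩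

theorem root_le {v : Pl k} {W : Kb k} {h : RatFunc k} (hW : W ^ p - W = algebraMap _ _ h) {B : ℝ}
    (hB : 1 ≤ B) (hh : av v h ≤ B) : nm v (emb v W) ≤ B := by
  refine wp_le (p := p) (nm_na v) one_ne_zero hB (by rwa [map_one]) ?_
  rwa [div_one, ← map_pow, ← map_sub, hW, AlgHom.commutes, nm_algK]

variable (p) in
/-- the three types of complexes -/
structure Ty (A F : k[X]) (ϖ : RatFunc k) (ε : ℤ) : Prop where
  five : 5 ≤ p
  F_ne : F ≠ 0
  dvd : A ∣ F
  nr : ∀ t : RatFunc k, t ^ (p - 1) ≠ pk _ A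
  car : cK p (ϖ / pk _ A ^ 2) = ϖ
  int : ∀ v, ¬ InS0 F v → av v ϖ ≤ 1
  sgn : ε = 1 ∨ ε = -1
  eps : ε • ϖ = ϖ

variable (p) in
/-- the local differential -/
def dL (A : k[X]) (ϖ : RatFunc k) (v : Pl k) (x : Lv v × Lv v) : Lv v :=
  x.2 - cL p v (x.2 / pk _ A) + x.1 * algebraMap _ _ ϖ

/-- the local cup product -/
def thL (ϖ : RatFunc k) (ε : ℤ) (v : Pl k) (x x' : Lv v × Lv v) : Lv v :=
  x.1 * x'.2 + ε • (x'.1 * x.2) + x.1 * x'.1 * algebraMap _ _ ϖ

variable (p) in
/-- local conditions -/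
structure LtD (A F b : k[X]) (n0 : ℕ) (d ϖ : RatFunc k) (ε : ℤ) where
  Lt : ∀ v : Pl k, AddSubgroup (Lv v × Lv v)
  P : ∀ v : Pl k, Lv v × Lv v →+ Lv v × Lv v
  Q : ∀ v : Pl k, Lv v × Lv v →+ Lv v × Lv v
  P_mem : ∀ v x, P v x ∈ Lt v
  P_id : ∀ v, ∀ x ∈ Lt v, P v x = x
  Q_coc : ∀ v x, dL p A ϖ v (Q v x) = 0
  Q_Q : ∀ v x, Q v (Q v x) = Q v x
  Q_iff : ∀ v x, dL p A ϖ v x = 0 → (Q v x = 0 ↔ x ∈ Lt v)
  coc : ∀ v, ∀ x ∈ Lt v, dL p A ϖ v x = 0
  cob : ∀ v (y : Lv v), (y ^ p / pk _ A - y, -(y ^ p / pk _ A * algebraMap _ _ ϖ)) ∈ Lt v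
  iso : ∀ v, ∀ x ∈ Lt v, ∀ x' ∈ Lt v, res p v (thL ϖ ε v x x') = 0
  rel0 : ∀ v, InS0 F v → ∀ x ∈ Lt v, ∃ y : Lv v, ‖x.1 - (y ^ p / pk _ A - y)‖ ≤ 2 ^ n0
  rel1 : ∀ v, InAn p A b v → ∀ x ∈ Lt v, ∃ y t : Lv v, t ^ p / pk _ A - t = 0 ∧
    ‖x.1 - (y ^ p / pk _ A - y + t * algebraMap _ _ d)‖ ≤ 1
  hi0 : ∀ v, InS0 F v → ∀ w : Lv v, cL p v (w / pk _ A) = w → ‖uL v * w‖ * 2 ^ n0 < 1 →
    (0, w) ∈ Lt v
  hi1 : ∀ v, InAn p A b v → ∀ w : Lv v, cL p v (w / pk _ A) = w → ‖uL v * w‖ < 1 →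
    (∀ t : Lv v, t ^ p / pk _ A - t = 0 → res p v (t * algebraMap _ _ d * w) = 0) → (0, w) ∈ Lt v

variable (k) in
/-- values of the cochains of degree one -/
abbrev W1 : Type := Kb k × Kb k × ∀ v : Pl k, Lb v

variable (k) in
/-- values of the cochains of degree two -/
abbrev W2 : Type := Kb k × (∀ v : Pl k, Lv v × Lv v) × ∀ v : Pl k, Lb v

variable (p) in
/-- the first differential -/
def D0f (A b : k[X]) (ϖ : RatFunc k) (y : Kb k) : W1 k :=
  (y ^ p / pk _ A - y, -(y ^ p / pk _ A * algebraMap _ _ ϖ),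
    fun v => if InNa p A b v then emb v y else 0)

variable (p) in
/-- the global part of the second differential -/
def d1B (A : k[X]) (ϖ : RatFunc k) (x : W1 k) : Kb k :=
  x.2.1 - cB p (x.2.1 / pk _ A) + x.1 * algebraMap _ _ ϖ

/-- localisation at a split place -/
def lc (v : Pl k) (x : W1 k) : Lv v × Lv v := (rt v (emb v x.1), rt v (emb v x.2.1))

variable {A F b : k[X]} {n0 : ℕ} {d ϖ : RatFunc k} {ε : ℤ}

/-- the second differential -/
def D1f (D : LtD p A F b n0 d ϖ ε) (x : W1 k) : W2 k :=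
  (d1B p A ϖ x, fun v => if InS p A F b v then D.Q v (lc v x) else 0,
    fun v => if InNa p A b v then emb v x.1 - (x.2.2 v ^ p / pk _ A - x.2.2 v) else 0)

/-- the pointwise pairing -/
def bWf (D : LtD p A F b n0 d ϖ ε) (x x' : W1 k) : ZMod p :=
  ∑ v ∈ Sf p A F b, res p v (thL ϖ ε v (lc v x - D.P v (lc v x)) (lc v x')) +
    ∑ v ∈ Nf p A b, res p v (rt v ((emb v x.1 - (x.2.2 v ^ p / pk _ A - x.2.2 v)) *
      (emb v x'.2.1 + x'.2.2 v ^ p / pk _ A * algebraMap (RatFunc k) _ ϖ) -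
        ε • (emb v (d1B p A ϖ x) * x'.2.2 v)))

theorem D0f_add (y y' : Kb k) : D0f p A b ϖ (y + y') = D0f p A b ϖ y + D0f p A b ϖ y' := by
  refine Prod.ext (Wp_add _ _ _) (Prod.ext ?_ (funext fun v => ?_))
  · simp only [D0f, Prod.snd_add, Prod.fst_add, add_pow_char]
    ring
  · simp only [D0f, Prod.snd_add, Pi.add_apply, map_add, ite_add_ite, add_zero]

theorem FD_d1B (x x' : W1 k) : d1B p A ϖ (x + x') = d1B p A ϖ x + d1B p A ϖ x' := by
  simp only [d1B, Prod.fst_add, Prod.snd_add, add_div, map_add]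
  ring

theorem FD_lc (v : Pl k) (x x' : W1 k) : lc v (x + x') = lc v x + lc v x' := by
  simp only [lc, Prod.fst_add, Prod.snd_add, map_add, Prod.mk_add_mk]

theorem D1f_add (D : LtD p A F b n0 d ϖ ε) (x x' : W1 k) : D1f D (x + x') = D1f D x + D1f D x' := by
  refine Prod.ext (FD_d1B x x') (Prod.ext (funext fun v => ?_) (funext fun v => ?_))
  · simp only [D1f, Prod.snd_add, Prod.fst_add, Pi.add_apply, FD_lc, map_add, ite_add_ite, add_zero]
  · simp only [D1f, Prod.snd_add, Prod.fst_add, Pi.add_apply, map_add, ite_add_ite, add_zero, Wp_add,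
      add_sub_add_comm]

theorem bWf_add_left (D : LtD p A F b n0 d ϖ ε) (x y x' : W1 k) :
    bWf D (x + y) x' = bWf D x x' + bWf D y x' := by
  rw [bWf, bWf, bWf, add_add_add_comm, ← sum_add_distrib, ← sum_add_distrib]
  refine congrArg₂ _ (sum_congr rfl fun v _ => ?_) (sum_congr rfl fun v _ => ?_)
  · rw [← map_add, FD_lc, map_add (D.P v)]
    refine congrArg _ ?_
    simp only [thL, Prod.fst_add, Prod.snd_add, Prod.fst_sub, Prod.snd_sub, zsmul_eq_mul]
    ring
  · rw [← map_add, ← map_add]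
    refine congrArg _ (congrArg _ ?_)
    simp only [FD_d1B, Prod.fst_add, Prod.snd_add, Pi.add_apply, map_add, Wp_add, zsmul_eq_mul]
    ring

theorem bWf_add_right (D : LtD p A F b n0 d ϖ ε) (x x' y' : W1 k) :
    bWf D x (x' + y') = bWf D x x' + bWf D x y' := by
  rw [bWf, bWf, bWf, add_add_add_comm, ← sum_add_distrib, ← sum_add_distrib]
  refine congrArg₂ _ (sum_congr rfl fun v _ => ?_) (sum_congr rfl fun v _ => ?_)
  · rw [← map_add, FD_lc]
    refine congrArg _ ?_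
    simp only [thL, Prod.fst_add, Prod.snd_add, zsmul_eq_mul]
    ring
  · rw [← map_add, ← map_add]
    refine congrArg _ (congrArg _ ?_)
    simp only [Prod.fst_add, Prod.snd_add, Pi.add_apply, map_add, add_pow_char, zsmul_eq_mul]
    ring

variable (p) in
/-- the first differential as an additive map -/
def D0 (A b : k[X]) (ϖ : RatFunc k) : Kb k →+ W1 k := AddMonoidHom.mk' (D0f p A b ϖ) D0f_add

/-- the second differential as an additive map -/
def D1 (D : LtD p A F b n0 d ϖ ε) : W1 k →+ W2 k := AddMonoidHom.mk' (D1f D) (D1f_add D)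

/-- the pairing as a biadditive map -/
def bW (D : LtD p A F b n0 d ϖ ε) : W1 k →+ W1 k →+ ZMod p :=
  AddMonoidHom.mk' (fun x => AddMonoidHom.mk' (bWf D x) (bWf_add_right D x)) fun x y =>
    AddMonoidHom.ext fun x' => bWf_add_left D x y x'

end

end Pool.Agent.ASel
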