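import Pool.Agent.Work.MP_60d5ce_nt.AS.Hasse
import Pool.Agent.Work.MP_60d5ce_nt.AS.Gal

/-!
# The interface between the Selmer groups and the function field complexes

`ASF`: Artin-Schreier roots `w0` of `d` and `w l` of `h l` that can be moved independently.  `K2` is the
field `K(w l)`, `L2 v ι` its completion along `ι`.  `Stg`: the poles of `d`, `h l` are simple and divide
`b`; the `h l` are regular and split at `∞`, at the primes of `F` and at the anomalous primes of `b`.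
`LatD`: a lattice `M` with the relation `Rep u a w` (the class of `u` modulo `σ0 - 1` is the class of
the cocycle `(a, w)` of the complex `y ↦ (y ^ p / A - y, -(y ^ p / A) ϖ)`, `(a, w) ↦ w - C (w / A) + a ϖ`).
-/

namespace Pool.Agent.ASel

open Polynomial Pool.Agent.Smith

noncomputable section

variable (p : ℕ) (k : Type) [Field k]

/-- the absolute Galois group -/
abbrev Gk : Type := Kb k ≃ₐ[RatFunc k] Kb k

/-- a family of independent Artin-Schreier roots -/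
structure ASF (ι : Type) where
  d : RatFunc k
  h : ι → RatFunc k
  w0 : Kb k
  w : ι → Kb k
  hw0 : w0 ^ p - w0 = algebraMap _ _ d
  hw : ∀ l, w l ^ p - w l = algebraMap _ _ (h l)
  σ0 : Gk k
  γ : (ι → ZMod p) → Gk k
  σ_w0 : σ0 w0 = w0 + 1
  σ_w : ∀ l, σ0 (w l) = w l
  γ_w0 : ∀ g, γ g w0 = w0
  γ_w : ∀ g l, γ g (w l) = w l + ((g l).val : Kb k)

variable {p k} {ι : Type}

/-- the field generated by the `w l` -/
def ASF.K2 (Φ : ASF p k ι) (x : Kb k) : Prop :=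
  x ∈ Om (RatFunc k) (Kb k) ∧ ∀ σ : Gk k, (∀ l, σ (Φ.w l) = Φ.w l) → σ x = x

/-- the local field generated by the `w l` -/
def ASF.L2 (Φ : ASF p k ι) (v : Pl k) (j : Kb k →ₐ[RatFunc k] Lb v) (y : Lb v) : Prop :=
  y ∈ Om (Lv v) (Lb v) ∧ ∀ τ : Lb v ≃ₐ[Lv v] Lb v, (∀ l, τ (j (Φ.w l)) = j (Φ.w l)) → τ y = y

/-- the member `d + ∑ e l * h l` of the family -/
def ASF.de [Fintype ι] (Φ : ASF p k ι) (e : ι → ZMod p) : RatFunc k :=
  Φ.d + ∑ l, ((e l).val : RatFunc k) * Φ.h l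

/-- the bad places of the curve -/
def InS0 (F : k[X]) (v : Pl k) : Prop := v = none ∨ plp v ∣ F

variable (p) in
/-- the bad places and the anomalous primes of `b` -/
def InS (A F b : k[X]) (v : Pl k) : Prop := InS0 F v ∨ (plp v ∣ b ∧ Anom p A (plp v))

/-- the standing hypotheses on a family -/
structure Stg (A F b : k[X]) (Φ : ASF p k ι) : Prop where
  b_ne : b ≠ 0
  cop : IsCoprime b F
  d_le : ∀ v, av v Φ.d ≤ 2
  d_int : ∀ v, v = none ∨ ¬ plp v ∣ b → av v Φ.d ≤ 1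
  h_int : ∀ l v, v = none ∨ ¬ plp v ∣ b → av v (Φ.h l) ≤ 1
  split : ∀ l v, InS p A F b v → ∃ s : Lv v, ‖s‖ ≤ 1 ∧ s ^ p - s = algebraMap _ _ (Φ.h l)

variable [Fintype k] [hp : Fact p.Prime] [CharP k p]

variable (p) in
/-- the Cartier operator of the separable closure -/
def cB : Kb k →+ Kb k := car p (Om (RatFunc k) (Kb k)) (tv k (Kb k))

/-- a lattice with its map to the cohomology of the complex of type `(ϖ, ε)` -/
structure LatD (A F b : k[X]) (n0 : ℕ) (Φ : ASF p k ι) (ϖ : RatFunc k) (ε : ℤ) : Type 1 where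
  M : Type
  [grp : AddCommGroup M]
  ac : Gk k → M →+ M
  Rep : M → Kb k → Kb k → Prop
  ac_mul : ∀ σ τ u, ac (σ * τ) u = ac σ (ac τ u)
  ac_triv : ∀ σ u, σ Φ.w0 = Φ.w0 → (∀ l, σ (Φ.w l) = Φ.w l) → ac σ u = u
  comm : ∀ σ τ u, ac σ (ac τ u) = ac τ (ac σ u)
  norm : ∀ u, ∑ i ∈ Finset.range p, (ac Φ.σ0)^[i] u = 0
  tf : ∀ u, ac Φ.σ0 u = u → u = 0
  ex : ∀ u, ∃ a w, Rep u a w
  mem : ∀ {u a w}, Rep u a w → Φ.K2 a ∧ Φ.K2 w
  sub : ∀ {u a w u' a' w'}, Rep u a w → Rep u' a' w' → Rep (u - u') (a - a') (w - w')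
  act : ∀ {u a w} (σ : Gk k), Rep u a w → Rep (ac σ u) (σ a) (σ w)
  cob : ∀ {u a w y}, Rep u a w → Φ.K2 y →
    Rep u (a + (y ^ p / pk _ A - y)) (w - y ^ p / pk _ A * algebraMap _ _ ϖ)
  uniq : ∀ {a w}, Rep 0 a w → ∃ y, Φ.K2 y ∧ a = y ^ p / pk _ A - y ∧
    w = -(y ^ p / pk _ A * algebraMap _ _ ϖ)
  ker : ∀ {u}, Rep u 0 0 → ∃ u', u = ac Φ.σ0 u' - u'
  coc : ∀ {u a w}, Rep u a w → w - cB p (w / pk _ A) + a * algebraMap _ _ ϖ = 0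
  et0 : ∀ {u a w}, Rep u a w → ∀ v, InS0 F v → ∀ j : Kb k →ₐ[RatFunc k] Lb v, ∃ y : Lv v,
    nm v (j a - algebraMap _ _ (y ^ p / pk _ A - y)) ≤ 2 ^ n0
  et1 : ∀ {u a w}, Rep u a w → ∀ v, v ≠ none → plp v ∣ b → Anom p A (plp v) →
    ∀ j : Kb k →ₐ[RatFunc k] Lb v, ∃ y t : Lv v, t ^ p / pk _ A - t = 0 ∧
      nm v (j a - algebraMap _ _ (y ^ p / pk _ A - y + t * algebraMap _ _ Φ.d)) ≤ 1
  iso : ∀ {u a w u' a' w'}, Rep u a w → Rep u' a' w' → ∀ v, InS p A F b v →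
    ∀ (j : Kb k →ₐ[RatFunc k] Lb v) (θ : Lv v),
      algebraMap _ _ θ = j (a * w' + ε • (a' * w) + a * a' * algebraMap _ _ ϖ) → res p v θ = 0
  na : ∀ {u a w}, Rep u a w → ∀ v, v ≠ none → plp v ∣ b → ¬ Anom p A (plp v) →
    ∀ j : Kb k →ₐ[RatFunc k] Lb v, ∃ y, Φ.L2 v j y ∧ j a = y ^ p / pk _ A - y
  good : ∀ {u a w}, Rep u a w → ∀ v, v ≠ none → ¬ plp v ∣ F * b →
    ∀ j : Kb k →ₐ[RatFunc k] Lb v, ∃ y, Φ.L2 v j y ∧ nm v (j a - (y ^ p / pk _ A - y)) ≤ 1 ∧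
      nm v (j w + y ^ p / pk _ A * algebraMap (RatFunc k) _ ϖ) ≤ 1

attribute [instance] LatD.grp

/-- the lattice has an eigenvector for the character `e` with a good class -/
def LatD.GoodEig [Fintype ι] {A F b : k[X]} {n0 : ℕ} {Φ : ASF p k ι} {ϖ : RatFunc k} {ε : ℤ}
    (L : LatD A F b n0 Φ ϖ ε) (e : ι → ZMod p) : Prop :=
  ∃ u a w, (∀ g, L.ac (Φ.γ g) u = (L.ac Φ.σ0)^[(∑ l, e l * g l).val] u) ∧ L.Rep u a w ∧
    (∀ y, Φ.K2 y → a ≠ y ^ p / pk _ A - y) ∧ (ϖ = 0 → w ≠ 0)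

variable (p) in
/-- there is a form `α x ^ 2 + β x + γ` on `x ^ p - x = d` fixed by `C (· / A)`, with `α ≠ 0`, and `α`, `β`
regular outside `F b` and vanishing to order `Mx` at `v0` -/
def Tight (A F b : k[X]) (v0 : Pl k) (Mx : ℕ) (d : RatFunc k) : Prop :=
  ∃ α β γ : RatFunc k, α ≠ 0 ∧ cK p (α / pk _ A) = α ∧ cK p ((β - 2 * d * α) / pk _ A) = β ∧
    cK p ((γ - d * β + d ^ 2 * α) / pk _ A) = γ ∧
    (∀ v, v ≠ none → ¬ plp v ∣ F * b → av v α ≤ 1 ∧ av v β ≤ 1) ∧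
    av v0 α ≤ 2⁻¹ ^ Mx ∧ av v0 β ≤ 2⁻¹ ^ Mx

variable (p) in
/-- the arithmetic data of the curve -/
structure Ari (A F : k[X]) (v0 : Pl k) (ϖ0 : RatFunc k) : Prop where
  five : 5 ≤ p
  F_ne : F ≠ 0
  dvd : A ∣ F
  v0_ne : v0 ≠ none
  odd : Odd (multiplicity (plp v0) A)
  ϖ_ne : ϖ0 ≠ 0
  car_ϖ : cK p (ϖ0 / pk _ A ^ 2) = ϖ0
  ϖ_int : ∀ v, ¬ InS0 F v → av v ϖ0 ≤ 1

variable (p) in
/-- the output of the study of the Selmer groups -/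
def Sec2 (A F : k[X]) (v0 : Pl k) (ϖ0 : RatFunc k) (BadD : RatFunc k → Prop) : Prop :=
  ∀ Mx : ℕ, ∃ (n0 I : ℕ) (ϖ : Fin I → RatFunc k) (ε : Fin I → ℤ),
    (∀ i, (ϖ i = ϖ0 ∧ ε i = 1) ∨ (ϖ i = 0 ∧ (ε i = 1 ∨ ε i = -1))) ∧
    ∀ (ι : Type) [Fintype ι] (b : k[X]) (Φ : ASF p k ι), Stg A F b Φ →
      ∃ L : ∀ i, LatD A F b n0 Φ (ϖ i) (ε i), ∀ e, BadD (Φ.de e) →
        (∃ i, (L i).GoodEig e) ∨ Tight p A F b v0 Mx (Φ.de e)

end

end Pool.Agent.ASel
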