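import Pool.Agent.Work.MP_60d5ce_nt.AS.FB
import Pool.Agent.Work.MP_60d5ce_nt.AS.FCov

/-!
# Counting fixed forms and normalised cocycles  (AS, function field side)

PLAN.  `card_fix`: `card_bounded` with `S = Sf p A F b`.  At `InS0`: `ca_bound` (`‖A‖⁻¹ ≤ 2 ^ natDegree A`, `av_uu`), `card_ball`, `sum_pdg_fac'`; at `InAn`: `ca_anom`, `an_root`, the `p` points `m / t / uL v` (`int_iff`); at `InNa`: `ca_na`, `na_root`.  `p ≤ card k`.
`card_a`: `card_bounded` with `S = Sf ∪ Med`; at `InAn` the points `t * d`, `t ^ p / A = t` (at most `p` roots).  `card_F0`: `Eq1.lower` puts both components in `k(t)`; the first lies in the set of `card_a`, and two second components with the same first component differ by a fixed form (`alg_cKB`).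
`card_Fj`: `card_dev`.  `cov_cok`: let `V` be the group of the `f` regular at `InU`, `‖uL v * f‖ ≤ 2 ^ natDegree A` at `InS0`, `≤ 1` at the primes of `b`; it is finite (`card_bounded`), stable under `φ = 1 - C (· / A)` (`norm_car`, `cL_int`), and
`C (· / A)` strictly decreases every `‖uL v * f‖` above the bound, so (induction on a bound `2 ^ N` for all `v ∈ insert none (fac' (F * b))`, `norm_disc`) every regular `f` is in `V + φ (regular)`; `cov_coker`, `card_fix`.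
-/

set_option linter.unusedSectionVars false

namespace Pool.Agent.ASel

open Polynomial Pool.Agent.Smith Finset

variable {p : ℕ} {k : Type} [Field k] [Fintype k] [hp : Fact p.Prime] [CharP k p] {A F : k[X]}

theorem FFix_p : p ≤ Fintype.card k := by
  obtain ⟨n, -, e⟩ := FiniteField.card k p
  exact e ▸ Nat.le_self_pow n.pos.ne' p

theorem FFix_R {M : Type} [Field M] [CharP M p] (f : M → M) : ∃ R : Finset M,
    R.card ≤ Fintype.card k ∧ ∀ m : ℕ, f m ∈ R := by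
  classical
  refine ⟨(range p).image fun m : ℕ => f m, card_image_le.trans ((card_range p).trans_le FFix_p),
    fun m => mem_image.2 ⟨m % p, mem_range.2 (Nat.mod_lt _ hp.out.pos), ?_⟩⟩
  rw [← CharP.cast_eq_mod M p m]

theorem FFix_inv (hA : A ≠ 0) (v : Pl k) : (av v (pk _ A))⁻¹ ≤ 2 ^ A.natDegree := by
  change (av v (algebraMap k[X] _ A))⁻¹ ≤ _
  by_cases hv : v = none
  · rw [hv, av_inf hA]
    exact (inv_le_one_of_one_le₀ (one_le_pow₀ one_le_two)).trans (one_le_pow₀ one_le_two)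
  · rw [av_poly_eq hv hA, inv_pow, inv_inv]
    have := natDegree_le_of_dvd (pow_multiplicity_dvd (plp v) A) hA
    rw [natDegree_pow, PF_deg hv] at this
    exact pow_le_pow_right₀ one_le_two ((Nat.le_mul_of_pos_right _ (pdg_pos v)).trans this)

theorem FFix_ne (hA : A ≠ 0) (v : Pl k) : pk (Lv v) A ≠ 0 :=
  (_root_.map_ne_zero (algebraMap (RatFunc k) (Lv v))).2 (PF_ne hA)

theorem FFix_count (hF : F ≠ 0) {b : k[X]} (hb : b ≠ 0) (n : ℕ) (Med : Finset (Pl k))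
    (R : ∀ v : Pl k, Finset (Lv v)) (hR : ∀ v, (R v).card ≤ Fintype.card k) :
    ∃ T : Finset (RatFunc k), T.card ≤ Fintype.card k ^
      (1 + n * (1 + F.natDegree + ∑ v ∈ Med, pdg v) + (fac' b).card) ∧ ∀ a : RatFunc k,
      (∀ v, InS0 F v ∨ v ∈ Med → av v a ≤ 2 ^ n) →
      (∀ v, InAn p A b v → ∃ x ∈ R v, ‖algebraMap _ _ a - x‖ ≤ 1) →
      (∀ v, ¬ InS p A F b v → v ∉ Med → av v a ≤ 1) → a ∈ T := by
  classical
  choose B b1 b2 using fun v : Pl k => card_ball v n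
  obtain ⟨S, hS⟩ : ∃ S, S = insert none (fac' F) ∪ Med := ⟨_, rfl⟩
  have mS : ∀ v, v ∈ S ↔ InS0 F v ∨ v ∈ Med := fun v => by
    simp only [hS, InS0, mem_union, mem_insert, mem_fac' hF]
    tauto
  obtain ⟨T, t1, t2⟩ := card_bounded (S ∪ (Sf p A F b \ S)) fun v => if v ∈ S then B v else R v
  refine ⟨T, t1.trans ?_, fun a h1 h2 h3 => t2 a (fun v hv => ?_) fun v hv => ?_⟩
  · have e1 : ∑ v ∈ S, pdg v ≤ 1 + F.natDegree + ∑ v ∈ Med, pdg v := by
      have i1 := sum_union_inter (s₁ := insert none (fac' F)) (s₂ := Med) (f := pdg)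
      have i2 := sum_pdg_fac' (f := F)
      rw [sum_insert fun h => ((mem_fac' hF).1 h).1 rfl, ← hS] at i1
      have i3 : pdg (none : Pl k) = 1 := rfl
      omega
    have e2 : (Sf p A F b \ S).card ≤ (fac' b).card := card_le_card fun v hv => by
      obtain ⟨i1, i2⟩ := mem_sdiff.1 hv
      rcases inS_iff.1 ((mem_Sf hF hb).1 i1) with i3 | i3
      · exact absurd ((mS v).2 (Or.inl i3)) i2
      · exact (mem_fac' hb).2 ⟨i3.1, i3.2.1⟩
    rw [prod_union disjoint_sdiff, pow_add, pow_add, pow_one, mul_assoc]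
    refine Nat.mul_le_mul_left _ (Nat.mul_le_mul ?_ ?_)
    · refine (prod_le_prod' fun v hv => (congrArg card (if_pos hv)).trans_le (b1 v)).trans ?_
      rw [prod_pow_eq_pow_sum, ← mul_sum]
      exact Nat.pow_le_pow_right Fintype.card_pos (Nat.mul_le_mul_left _ e1)
    · exact (prod_le_pow_card _ _ _ fun v hv =>
        (congrArg card (if_neg (mem_sdiff.1 hv).2)).trans_le (hR v)).trans
        (Nat.pow_le_pow_right Fintype.card_pos e2)
  · by_cases h : v ∈ S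
    · rw [if_pos h]
      exact b2 v _ ((norm_alg v a).trans_le (h1 v ((mS v).1 h)))
    · rw [if_neg h]
      rcases inS_iff.1 ((mem_Sf hF hb).1 (mem_sdiff.1 ((mem_union.1 hv).resolve_left h)).1)
        with i3 | i3
      · exact absurd ((mS v).2 (Or.inl i3)) h
      · exact h2 v i3
  · rw [union_sdiff_self_eq_union, mem_union, not_or, mem_Sf hF hb, mS, not_or] at hv
    exact h3 v hv.2 hv.1.2

theorem card_fix (hF : F ≠ 0) (hA : A ∣ F) : ∃ C : ℕ, ∀ b : k[X], b ≠ 0 → IsCoprime b F →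
    ∃ T : Finset (RatFunc k), T.card ≤ Fintype.card k ^ (C * ((fac' b).card + 1)) ∧
      ∀ w : RatFunc k, cK p (w / pk _ A) = w → (∀ v, InU F b v → av v w ≤ 1) → w ∈ T := by
  have A0 : A ≠ 0 := ne_zero_of_dvd_ne_zero hF hA
  refine ⟨1 + (A.natDegree + 1) * (1 + F.natDegree), fun b hb hc => ?_⟩
  choose! t ht using fun (v : Pl k) (hv : InAn p A b v) => an_root hA hc hv
  choose R r1 r2 using fun v : Pl k => FFix_R (k := k) (p := p) fun m : Lv v => m / t v / uL v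
  obtain ⟨T, t1, t2⟩ := FFix_count (p := p) (A := A) hF hb (A.natDegree + 1) ∅ R r1
  refine ⟨T, t1.trans (Nat.pow_le_pow_right Fintype.card_pos ?_), fun w hw hi => ?_⟩
  · rw [sum_empty, add_zero]
    nlinarith [Nat.zero_le ((A.natDegree + 1) * (1 + F.natDegree) * (fac' b).card)]
  have z : ∀ v : Pl k, ‖uL v * (algebraMap (RatFunc k) (Lv v) w -
      cL p v (algebraMap (RatFunc k) (Lv v) w / pk (Lv v) A))‖ = 0 := fun v => by
    have := congrArg (algebraMap _ (Lv v)) hw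
    rw [alg_cK, map_div₀] at this
    exact (congrArg (‖uL v * ·‖) (sub_eq_zero.2 this.symm)).trans (by rw [mul_zero, norm_zero])
  refine t2 w (fun v _ => ?_) (fun v hv => ?_) fun v hv _ => ?_
  · have h1 := ca_bound (FFix_ne A0 v)
      (one_le_pow₀ one_le_two) ((congrArg _ (norm_alg v _)).trans_le (FFix_inv A0 v))
      ((z v).trans_le (by positivity))
    have h2 := (av v).nonneg w
    have h3 : (0 : ℝ) < 2 ^ A.natDegree := by positivity
    rw [norm_mul, Wp_uL, norm_alg] at h1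
    rw [pow_succ]
    split_ifs at h1 <;> linarith
  · obtain ⟨m, hm⟩ := ca_anom (norm_pk_one hA (not_S0_of_dvd hc hv.1 hv.2.1)) (ht v hv)
      ((z v).trans_lt one_pos)
    refine ⟨_, r2 v m, (int_iff hv.1 _).1 ?_⟩
    rwa [mul_sub, mul_div_cancel₀ _ (Wp_uL0 v)]
  · by_cases h1 : InNa p A b v
    · exact (norm_alg v w).symm.trans_le ((int_iff h1.1 _).1 (ca_na (norm_pk_one hA
        (not_S0_of_dvd hc h1.1 h1.2.1)) (na_root hA hc h1) ((z v).trans_lt one_pos)))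
    · exact hi v (inU_iff.2 ⟨hv, h1⟩)

theorem FFix_car (hA : A ≠ 0) {S : Finset (Pl k)} (hS : ∀ v ∉ S, v ≠ none → ¬ plp v ∣ A) {N : ℕ}
    {f : RatFunc k} (hf : f ∈ Hasse_V S (A.natDegree + N + 1)) :
    cK p (f / pk _ A) ∈ Hasse_V S (A.natDegree + N) := by
  refine ⟨fun v hv => ?_, fun v h1 h2 => ?_⟩
  · have h3 := ResS_car (p := p) v (f / pk _ A)
    rw [← mul_div_assoc, map_div₀ (av v), div_eq_mul_inv (av v _)] at h3
    have h4 := h3.trans (mul_le_mul (hf.1 v hv) (FFix_inv hA v) (by positivity) (by positivity))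
    by_cases f0 : uu v * cK p (f / pk _ A) = 0
    · rw [f0, map_zero]
      positivity
    obtain ⟨n, hn⟩ := av_disc v _ f0
    rw [hn, ← pow_add, ← zpow_natCast, ← zpow_natCast, ← zpow_mul,
      zpow_le_zpow_iff_right₀ one_lt_two] at h4
    rw [hn, ← zpow_natCast, zpow_le_zpow_iff_right₀ one_lt_two]
    have h5 : (2 : ℤ) ≤ p := by exact_mod_cast hp.out.two_le
    by_contra h6
    have : n * 2 ≤ n * p := mul_le_mul_of_nonneg_left h5 (by omega)
    omega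
  · rw [← norm_alg, alg_cK]
    refine cL_int h2 ?_
    rw [norm_alg, map_div₀, show av v (pk _ A) = 1 from PF_one h2 (hS v h1 h2), div_one]
    exact hf.2 v h1 h2

theorem cov_cok (hF : F ≠ 0) (hA : A ∣ F) : ∃ C : ℕ, ∀ b : k[X], b ≠ 0 → IsCoprime b F →
    Cov {f : RatFunc k | ∀ v, InU F b v → av v f ≤ 1}
      {f | ∃ w : RatFunc k, (∀ v, InU F b v → av v w ≤ 1) ∧ f = w - cK p (w / pk _ A)}
      (Fintype.card k ^ (C * ((fac' b).card + 1))) := by
  have A0 : A ≠ 0 := ne_zero_of_dvd_ne_zero hF hA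
  obtain ⟨C, hC⟩ := card_fix (p := p) hF hA
  refine ⟨C, fun b hb hc => ?_⟩
  obtain ⟨T, t1, t2⟩ := hC b hb hc
  have hFb := mul_ne_zero hF hb
  have hU : ∀ {n f}, f ∈ Hasse_V (fac' (F * b)) n → ∀ v, InU F b v → av v f ≤ 1 :=
    fun hf v hv => hf.2 v (fun h => hv.2 ((mem_fac' hFb).1 h).2) hv.1
  have hS : ∀ v ∉ fac' (F * b), v ≠ none → ¬ plp v ∣ A := fun v h1 h2 h3 =>
    h1 ((mem_fac' hFb).2 ⟨h2, (h3.trans hA).mul_right b⟩)
  have mono : ∀ {n n' f}, n ≤ n' → f ∈ Hasse_V (fac' (F * b)) n → f ∈ Hasse_V (fac' (F * b)) n' :=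
    fun h hf => ⟨fun v hv => (hf.1 v hv).trans (pow_le_pow_right₀ one_le_two h), hf.2⟩
  obtain ⟨φ, hφ⟩ : ∃ φ : RatFunc k →+ RatFunc k, ∀ w, φ w = w - cK p (w / pk _ A) :=
    ⟨AddMonoidHom.mk' (fun w => w - cK p (w / pk _ A)) fun x y => by
      rw [add_div, map_add, add_sub_add_comm], fun _ => rfl⟩
  have key : ∀ N, ∀ f ∈ Hasse_V (fac' (F * b)) (A.natDegree + N),
      ∃ w, (∀ v, InU F b v → av v w ≤ 1) ∧ f - φ w ∈ Hasse_V (fac' (F * b)) A.natDegree := by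
    intro N
    induction N with
    | zero => exact fun f hf => ⟨0, fun v _ => by simp, by rwa [map_zero, sub_zero]⟩
    | succ N ih =>
      intro f hf
      obtain ⟨w, w1, w2⟩ := ih _ (FFix_car (p := p) A0 hS hf)
      refine ⟨f + w, fun v hv => Hasse_add (hU hf v hv) (w1 v hv), ?_⟩
      rwa [map_add, ← sub_sub, hφ f, sub_sub_cancel]
  obtain ⟨Z, z1, z2⟩ := cov_coker (Hasse_V (fac' (F * b)) A.natDegree)
    (Set.finite_coe_iff.1 (Hasse_fin _ _)) φ fun f hf => hφ f ▸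
      sub_mem hf (FFix_car (N := 0) A0 hS (mono (Nat.le_succ _) hf))
  refine ⟨Z, z1.trans (((Set.ncard_le_ncard (fun f hf => ?_) T.finite_toSet).trans_eq
    (Set.ncard_coe_finset T)).trans t1), fun f hf => ?_⟩
  · exact t2 f (sub_eq_zero.1 ((hφ f).symm.trans hf.2)).symm (hU hf.1)
  · obtain ⟨B, hB⟩ := ((insert none (fac' (F * b)) : Set (Pl k)).toFinite.image
      fun v => av v (uu v * f)).bddAbove
    obtain ⟨n, hn⟩ := pow_unbounded_of_one_lt B (one_lt_two (α := ℝ))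
    obtain ⟨w, w1, w2⟩ := key n f (mono (Nat.le_add_left _ _)
      ⟨fun v hv => (hB (Set.mem_image_of_mem _ hv.symm)).trans hn.le,
        fun v h1 h2 => hf v ⟨h2, fun h => h1 ((mem_fac' hFb).2 ⟨h2, h⟩)⟩⟩)
    obtain ⟨t, h1, u, h2, h3⟩ := z2 _ w2
    refine ⟨t, h1, u + w, fun v hv => Hasse_add (hU h2 v hv) (w1 v hv), ?_⟩
    rw [← hφ, map_add, h3]
    ring

theorem card_a (hF : F ≠ 0) (hA : A ∣ F) (n1 K : ℕ) : ∃ C : ℕ, ∀ (b : k[X]) (d : RatFunc k)
    (Med : Finset (Pl k)) (Y : ℕ), b ≠ 0 → IsCoprime b F → Med.card ≤ K → (∀ v ∈ Med, pdg v ≤ Y) →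
    (fac' b).card ≤ Y → 1 ≤ Y → ∃ T : Finset (RatFunc k), T.card ≤ Fintype.card k ^ (C * Y) ∧
      ∀ a : RatFunc k, (∀ v, av v a ≤ 2 ^ n1 ∧ (InAn p A b v → ∃ t : Lv v, t ^ p / pk _ A - t = 0 ∧
        ‖algebraMap _ _ a - t * algebraMap _ _ d‖ ≤ 1) ∧
        (¬ InS p A F b v → v ∉ Med → av v a ≤ 1)) → a ∈ T := by
  have A0 : A ≠ 0 := ne_zero_of_dvd_ne_zero hF hA
  refine ⟨1 + n1 * (1 + F.natDegree + K) + 1, fun b d Med Y hb hc h1 h2 h3 h4 => ?_⟩
  choose! t ht using fun (v : Pl k) (hv : InAn p A b v) => an_root hA hc hv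
  choose R r1 r2 using fun v : Pl k =>
    FFix_R (k := k) (p := p) fun m : Lv v => m * t v * algebraMap _ _ d
  obtain ⟨T, t1, t2⟩ := FFix_count (p := p) (A := A) hF hb n1 Med R r1
  refine ⟨T, t1.trans (Nat.pow_le_pow_right Fintype.card_pos ?_), fun a ha =>
    t2 a (fun v _ => (ha v).1) (fun v hv => ?_) fun v => (ha v).2.2⟩
  · have i1 : ∑ v ∈ Med, pdg v ≤ K * Y :=
      (sum_le_card_nsmul _ _ _ h2).trans (Nat.mul_le_mul_right _ h1)
    have i2 : 1 + F.natDegree + ∑ v ∈ Med, pdg v ≤ (1 + F.natDegree + K) * Y := by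
      nlinarith [Nat.le_mul_of_pos_right (1 + F.natDegree) h4]
    nlinarith [Nat.mul_le_mul_left n1 i2]
  · obtain ⟨s, s1, s2⟩ := (ha v).2.1 hv
    obtain ⟨m, rfl⟩ := wp_ker (ht v hv) (fun e => FFix_ne A0 v
      ((ht v hv).symm.trans (by rw [e, zero_pow (Nat.sub_ne_zero_of_lt hp.out.one_lt)]))) s1
    exact ⟨_, r2 v m, s2⟩

theorem card_F0 (hF : F ≠ 0) (hA : A ∣ F) (n1 K : ℕ) : ∃ C : ℕ, ∀ (b : k[X]) (d ϖ : RatFunc k)
    (Med : Finset (Pl k)) (Y : ℕ), b ≠ 0 → IsCoprime b F → Med.card ≤ K → (∀ v ∈ Med, pdg v ≤ Y) →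
    (fac' b).card ≤ Y → 1 ≤ Y → ∃ T : Finset (Kb k × Kb k), T.card ≤ Fintype.card k ^ (C * Y) ∧
      ∀ (n : ℕ) (W : Fin n → Kb k), ASr p (RatFunc k) W → ∀ x ∈ Fj p A F b d ϖ Med n1 W, ∀ I,
        (∀ J, J ⊂ I → x J = 0) → x I ∈ T := by
  classical
  obtain ⟨C1, c1⟩ := card_a (p := p) hF hA n1 K
  obtain ⟨C2, c2⟩ := card_fix (p := p) hF hA
  refine ⟨C1 + C2 * 2, fun b d ϖ Med Y hb hc h1 h2 h3 h4 => ?_⟩
  obtain ⟨T1, a1, a2⟩ := c1 b d Med Y hb hc h1 h2 h3 h4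
  obtain ⟨T2, b1, b2⟩ := c2 b hb hc
  choose! u hu using fun (a : RatFunc k) (h : ∃ w : RatFunc k,
    w - cK p (w / pk (RatFunc k) A) + a * ϖ = 0 ∧ ∀ v, InU F b v → av v w ≤ 1) => h
  refine ⟨(T1 ×ˢ T2).image fun y => (algebraMap _ _ y.1, algebraMap _ _ (u y.1 + y.2)),
    card_image_le.trans ?_, fun n W hW x hx I hI => ?_⟩
  · rw [card_product, add_mul, pow_add]
    refine Nat.mul_le_mul a1 (b1.trans (Nat.pow_le_pow_right Fintype.card_pos ?_))
    rw [mul_assoc]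
    exact Nat.mul_le_mul_left _ (by omega)
  obtain ⟨a, ea⟩ := Eq1.lower hW hx.1 I fun J hJ => congrArg Prod.fst (hI J hJ)
  obtain ⟨w, ew⟩ := Eq1.lower hW hx.2.1 I fun J hJ => congrArg Prod.snd (hI J hJ)
  obtain ⟨x1, x2⟩ := hx.2.2 I
  have n0 : ∀ v (y : RatFunc k), nm v (emb v (algebraMap _ _ y)) = av v y := fun v y => by
    rw [AlgHom.commutes, nm_algK]
  simp only [← ea, ← ew, n0] at x1 x2
  have e1 : w - cK p (w / pk _ A) + a * ϖ = 0 := (algebraMap _ (Kb k)).injective (by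
    rw [map_add, map_sub, alg_cKB, map_div₀, map_mul, map_zero]
    exact x1)
  obtain ⟨u1, u2⟩ := hu a ⟨w, e1, fun v => (x2 v).1⟩
  refine mem_image.2 ⟨(a, w - u a), mem_product.2 ⟨a2 a fun v => ⟨(x2 v).2.1, fun hv => ?_,
    (x2 v).2.2.2⟩, b2 _ ?_ fun v hv => Hasse_sub ((x2 v).1 hv) (u2 v hv)⟩,
    Prod.ext ea (by rw [← ew, add_sub_cancel])⟩
  · obtain ⟨t, t1, t2⟩ := (x2 v).2.2.1 hv
    refine ⟨t, t1, ?_⟩
    rwa [emb_algK, ← map_sub, nm_alg] at t2
  · rw [sub_div, map_sub]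
    linear_combination u1 - e1

theorem card_Fj (hF : F ≠ 0) (hA : A ∣ F) (n1 K : ℕ) : ∃ C : ℕ, ∀ (b : k[X]) (d ϖ : RatFunc k)
    (Med : Finset (Pl k)) (Y : ℕ), b ≠ 0 → IsCoprime b F → Med.card ≤ K → (∀ v ∈ Med, pdg v ≤ Y) →
    (fac' b).card ≤ Y → 1 ≤ Y → ∀ n ≤ K, ∀ W : Fin n → Kb k, ASr p (RatFunc k) W →
      {x | x ∈ Fj p A F b d ϖ Med n1 W}.Finite ∧
        {x | x ∈ Fj p A F b d ϖ Med n1 W}.ncard ≤ Fintype.card k ^ (C * Y) := by
  obtain ⟨C, hC⟩ := card_F0 (p := p) hF hA n1 K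
  refine ⟨C * 2 ^ K, fun b d ϖ Med Y hb hc h1 h2 h3 h4 n hn W hW => ?_⟩
  obtain ⟨T, t1, t2⟩ := hC b d ϖ Med Y hb hc h1 h2 h3 h4
  obtain ⟨f1, f2⟩ := card_dev _ T (t2 n W hW)
  refine ⟨f1, f2.trans ((Nat.pow_le_pow_left t1 _).trans ?_)⟩
  rw [← pow_mul, mul_right_comm]
  exact Nat.pow_le_pow_right Fintype.card_pos (Nat.mul_le_mul_right _
    (Nat.mul_le_mul_left _ (Nat.pow_le_pow_right two_pos hn)))

end Pool.Agent.ASel
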