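import Pool.Agent.Work.MP_60d5ce_nt.AS.FB
import Pool.Agent.Work.MP_60d5ce_nt.AS.FHat

/-!
# Normalisation of cocycles  (AS, function field side)

PLAN.  `D1_eq_zero` describes the cocycles.  For `v ∈ Sf` let `y v I` be the image of the element `y` of `LtD.rel0`, `LtD.rel1` for `lc v (x I)`; every family with values in `Lv v` is in `Eq1` there, because the `emb v (W i)` are in `Lv v`
(so `χ = 0`; `sh_zero`).  For `v ∈ Nf` let `y v I = (x I).2.2 v`.  `approx1` with `T = Sf ∪ Nf` gives `Y`; `root_le` bounds `W` by `2` everywhere and by `1` outside `Med`.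
`a - ℘ Y = (a - ℘ y) + ℘ (y - Y)`; `nm (℘ z) ≤ max (nm z ^ p / nm A) (nm z)`; `‖A‖⁻¹ ≤ 2 ^ natDegree A` at every place (`av_poly_eq`, `av_inf`), `nm_pk_one` outside `InS0`; take `n1 = n0 + natDegree A + K * p + 1`.
A solution `t` of `t ^ p / A = t` is integral (`wp_int`).  The new second component is regular at `InU F b` directly, and at the places of `InU F b'` that divide `b` (they are `InNa` and not in `Med`) by `w_int`, `na_root`.  Cocycle: `cob_coc`.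
-/

set_option linter.unusedSectionVars false

namespace Pool.Agent.ASel

open Polynomial Pool.Agent.Smith Finset

variable {p : ℕ} {k : Type} [Field k] [Fintype k] [hp : Fact p.Prime] [CharP k p]
  {A F : k[X]} {ϖ : RatFunc k} {ε : ℤ}

theorem FNorm_eq1 {F M : Type} [Field F] [Field M] [Algebra F M] {n : ℕ} {W : Fin n → M}
    (h : ∀ i, ∃ s : F, algebraMap F M s = W i) (f : Finset (Fin n) → F) :
    (fun I => algebraMap F M (f I)) ∈ Eq1 p F W :=
  ⟨fun _ => om_alg _, fun σ χ hχ I => by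
    have e : (fun i => -((χ i).val : M)) = 0 := funext fun i => by
      obtain ⟨s, hs⟩ := h i
      have := hχ i
      rw [← hs, σ.commutes, left_eq_add] at this
      rw [this, neg_zero, Pi.zero_apply]
    rw [e, sh_zero, σ.commutes]⟩

theorem FNorm_sub {v : Pl k} {x y : Lb v} {B : ℝ} (hx : nm v x ≤ B) (hy : nm v y ≤ B) :
    nm v (x - y) ≤ B := by
  rw [sub_eq_add_neg]
  exact LocA_add_le (nm_na v) hx (by rwa [AbsoluteValue.map_neg])

theorem FNorm_wp {v : Pl k} {a z : Lb v} {B C : ℝ} (hB : 1 ≤ B) (hC : 1 ≤ C) (ha : (nm v a)⁻¹ ≤ C)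
    (hz : nm v z ≤ B) : nm v (z ^ p / a) ≤ B ^ p * C ∧ nm v (z ^ p / a - z) ≤ B ^ p * C := by
  have h : nm v (z ^ p / a) ≤ B ^ p * C := by
    rw [map_div₀, map_pow, div_eq_mul_inv]
    exact mul_le_mul (pow_le_pow_left₀ ((nm v).nonneg _) hz p) ha (inv_nonneg.2 ((nm v).nonneg _))
      (by positivity)
  exact ⟨h, FNorm_sub h (hz.trans ((le_self_pow₀ hB hp.out.ne_zero).trans
    (le_mul_of_one_le_right (by positivity) hC)))⟩

theorem FNorm_inv (hA : A ≠ 0) (v : Pl k) : (nm v (pk (Lb v) A))⁻¹ ≤ 2 ^ A.natDegree := by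
  rw [show nm v (pk (Lb v) A) = _ from nm_algK v _]
  by_cases hv : v = none
  · rw [hv, av_inf hA]
    exact (inv_le_one_of_one_le₀ (one_le_pow₀ one_le_two)).trans (one_le_pow₀ one_le_two)
  rw [av_poly_eq hv hA, inv_pow, inv_inv]
  refine pow_le_pow_right₀ one_le_two ?_
  have := natDegree_le_of_dvd (pow_multiplicity_dvd (plp v) A) hA
  rw [natDegree_pow] at this
  exact (Nat.le_mul_of_pos_right _ (PF_irr hv).natDegree_pos).trans this

theorem FNorm_cob (hT : Ty p A F ϖ ε) {y : Kb k} (hy : y ∈ Om (RatFunc k) (Kb k)) :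
    -(y ^ p / pk _ A * algebraMap _ _ ϖ) - cB p (-(y ^ p / pk _ A * algebraMap _ _ ϖ) / pk _ A) +
      (y ^ p / pk _ A - y) * algebraMap _ _ ϖ = 0 := by
  refine cob_coc (cB p) _ cB_frob (om_alg _) ((_root_.map_ne_zero (algebraMap (RatFunc k) _)).2
    (PF_ne (ne_zero_of_dvd_ne_zero hT.F_ne hT.dvd))) (om_alg _) ?_ (by rw [← map_zsmul, hT.eps]) hy
  have := alg_cKB (p := p) (ϖ / pk _ A ^ 2)
  rw [hT.car, map_div₀, map_pow] at this
  exact this.symm

theorem exists_norm (hT : Ty p A F ϖ ε) (n0 K : ℕ) : ∃ n1 : ℕ, ∀ {b b' : k[X]} {d d' : RatFunc k}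
    (D : LtD p A F b n0 d ϖ ε) (Med : Finset (Pl k)) {n : ℕ} {W : Fin n → Kb k} {h : Fin n → RatFunc k}
    {x : Finset (Fin n) → W1 k}, b ≠ 0 → IsCoprime b F → b' ∣ b →
    (∀ v, InAn p A b v → InAn p A b' v ∧ av v d' ≤ 2 ∧ av v (d - d') ≤ 1) →
    (∀ v ∈ Med, InNa p A b' v) → n ≤ K → (∀ i, W i ^ p - W i = algebraMap _ _ (h i)) →
    (∀ i v, av v (h i) ≤ 2 ∧ (v ∉ Med → av v (h i) ≤ 1)) →
    (∀ i v, InS p A F b v → ∃ s : Lv v, algebraMap _ _ s = emb v (W i)) →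
    Cn p A F b W x → (∀ I, D1 D (x I) = 0) →
    ∃ Y ∈ Eq1 p (RatFunc k) W, (∀ v, InU F b v → ∀ I, nm v (emb v (Y I)) ≤ 1) ∧
      (fun I => ((x I).1 - (Y I ^ p / pk _ A - Y I),
        (x I).2.1 + Y I ^ p / pk _ A * algebraMap _ _ ϖ)) ∈ Fj p A F b' d' ϖ Med n1 W ∧
      ∀ v, InNa p A b v → v ∉ Med → ∀ I, nm v ((x I).2.2 v - emb v (Y I)) ≤ 1 := by
  classical
  refine ⟨n0 + A.natDegree + K * p + 1, fun {b b' d d'} D Med {n W h x} hb hc hb' han hM hn hW hh hs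
    hx h0 => ?_⟩
  have hA := ne_zero_of_dvd_ne_zero hT.F_ne hT.dvd
  have c := fun I => (D1_eq_zero (hx.spl I)).1 (h0 I)
  have nS : ∀ v, InAn p A b v → ¬ InS0 F v := fun v hv => not_S0_of_dvd hc hv.1 hv.2.1
  have L : ∀ v, ∃ y ∈ Eq1 p (Lv v) fun i => emb v (W i),
      (InS0 F v → ∀ I, nm v (emb v (x I).1 - (y I ^ p / pk _ A - y I)) ≤ 2 ^ n0) ∧
      (InAn p A b v → ∀ I, ∃ t : Lv v, t ^ p / pk _ A - t = 0 ∧ nm v (emb v (x I).1 -
        (y I ^ p / pk _ A - y I + algebraMap _ _ (t * algebraMap _ _ d))) ≤ 1) ∧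
      (InNa p A b v → ∀ I, y I = (x I).2.2 v) := fun v => by
    by_cases h1 : InS0 F v
    · choose y hy using fun I => D.rel0 v h1 _ ((c I).2.1 v (Or.inl h1))
      refine ⟨_, FNorm_eq1 (fun i => hs i v (Or.inl h1)) y, fun _ I => ?_,
        fun h => (nS v h h1).elim, fun h => (h.not_S hc (Or.inl h1)).elim⟩
      rw [← ((hx.spl I).2.2 v (Or.inl h1)).1, ← alg_pk, ← map_pow, ← map_div₀, ← map_sub, ← map_sub,
        nm_alg]
      exact hy I
    by_cases h2 : InAn p A b v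
    · have h3 := inS_iff.2 (Or.inr h2 : InS0 F v ∨ _)
      choose y t ht hy using fun I => D.rel1 v h2 _ ((c I).2.1 v h3)
      refine ⟨_, FNorm_eq1 (fun i => hs i v h3) y, fun h => (h1 h).elim, fun _ I => ⟨t I, ht I, ?_⟩,
        fun h => (h.not_S hc h3).elim⟩
      rw [← ((hx.spl I).2.2 v h3).1, ← alg_pk, ← map_pow, ← map_div₀, ← map_sub, ← map_add,
        ← map_sub, nm_alg]
      exact hy I
    · exact ⟨_, hx.y_eq v, fun h => (h1 h).elim, fun h => (h2 h).elim, fun _ _ => rfl⟩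
  choose y y1 y2 y3 y4 using L
  obtain ⟨Y, hY, H⟩ := approx1 (fun i => ⟨_, hW i⟩) (Sf p A F b ∪ Nf p A b) y fun v _ => y1 v
  have mT : ∀ v, v ∈ Sf p A F b ∪ Nf p A b ↔ InS p A F b v ∨ InNa p A b v := fun v => by
    rw [mem_union, mem_Sf hT.F_ne hb, mem_Nf hb]
  have nM : ∀ v, ¬ InNa p A b v → v ∉ Med := fun v h hv =>
    h ⟨(hM v hv).1, (hM v hv).2.1.trans hb', (hM v hv).2.2⟩
  have H1 := fun v hv I => one_pow n (M := ℝ) ▸
    H v 1 le_rfl (fun i => root_le (hW i) le_rfl ((hh i v).2 hv)) I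
  have HS : ∀ v, InS p A F b v → ∀ I, nm v (y v I - emb v (Y I)) ≤ 1 := fun v hv I =>
    (H1 v (nM v fun h => h.not_S hc hv) I).1 ((mT v).2 (Or.inl hv))
  have HU : ∀ v, InU F b v → ∀ I, nm v (emb v (Y I)) ≤ 1 := fun v hv I =>
    (H1 v (nM v (inU_iff.1 hv).2) I).2 fun h => ((mT v).1 h).elim (inU_iff.1 hv).1 (inU_iff.1 hv).2
  have w1 : ∀ v, ¬ InS0 F v → ∀ {z : Lb v}, nm v z ≤ 1 →
      nm v (z ^ p / pk _ A) ≤ 1 ∧ nm v (z ^ p / pk _ A - z) ≤ 1 := fun v hv z hz => by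
    simpa using FNorm_wp (p := p) le_rfl le_rfl (by rw [nm_pk_one hT.dvd hv, inv_one]) hz
  have e1 : ∀ v I, emb v ((x I).1 - (Y I ^ p / pk _ A - Y I)) =
      emb v (x I).1 - (y v I ^ p / pk _ A - y v I) +
        ((y v I - emb v (Y I)) ^ p / pk _ A - (y v I - emb v (Y I))) := fun v I => by
    rw [Wp_sub, map_sub, map_sub, map_div₀, map_pow, emb_pk, sub_add_sub_cancel]
  have e2 : ∀ v, InNa p A b v → ∀ I, emb v ((x I).1 - (Y I ^ p / pk _ A - Y I)) =
      (y v I - emb v (Y I)) ^ p / pk _ A - (y v I - emb v (Y I)) := fun v hv I => by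
    rw [e1, (c I).2.2 v hv, y4 v hv, sub_self, zero_add]
  have b1 : ∀ v, ¬ InS p A F b v → v ∉ Med → ∀ I,
      nm v (emb v ((x I).1 - (Y I ^ p / pk _ A - Y I))) ≤ 1 := fun v hv hm I => by
    by_cases h : InNa p A b v
    · exact e2 v h I ▸ (w1 v (fun h => hv (Or.inl h)) ((H1 v hm I).1 ((mT v).2 (Or.inr h)))).2
    · have hu := inU_iff.2 ⟨hv, h⟩
      rw [map_sub (emb v), map_sub (emb v), map_div₀ (emb v), map_pow (emb v), emb_pk]
      exact FNorm_sub (hx.int v hu I).1 (w1 v (fun h => hv (Or.inl h)) (HU v hu I)).2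
  have b2 : ∀ v, InAn p A b v → ∀ I, ∃ t : Lv v, t ^ p / pk _ A - t = 0 ∧ ‖t‖ ≤ 1 ∧
      nm v (emb v ((x I).1 - (Y I ^ p / pk _ A - Y I)) -
        algebraMap _ _ (t * algebraMap _ _ d')) ≤ 1 := fun v hv I => by
    obtain ⟨t, t1, t2⟩ := y3 v hv I
    have t3 : ‖t‖ ≤ 1 := wp_int (p := p) (Wp_na v) (norm_pk_one hT.dvd (nS v hv))
      (by rw [t1, map_zero]; exact zero_le_one)
    have t4 : nm v (algebraMap (Lv v) _ (t * algebraMap _ _ (d - d'))) ≤ 1 := by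
      rw [nm_alg, norm_mul, norm_alg]
      exact mul_le_one₀ t3 ((av v).nonneg _) (han v hv).2.2
    refine ⟨t, t1, t3, le_of_eq_of_le (congrArg _ ?_) (LocA_add_le (nm_na v) (LocA_add_le (nm_na v)
      t2 t4) (w1 v (nS v hv) (HS v (inS_iff.2 (Or.inr hv)) I)).2)⟩
    rw [e1, map_sub, mul_sub, map_sub]
    ring
  have nb : ∀ v, ¬ InS p A F b' v → ¬ InS p A F b v := fun v hv h =>
    hv (inS_iff.2 ((inS_iff.1 h).imp_right fun h => (han v h).1))
  have ph := Eq1.phi hY (algebraMap k[X] _ A)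
  have m1 := sub_mem hx.a_eq (sub_mem ph hY)
  have m2 := add_mem hx.w_eq (Eq1.mul_alg ph ϖ)
  have cc : ∀ I, (x I).2.1 + Y I ^ p / pk _ A * algebraMap _ _ ϖ -
      cB p (((x I).2.1 + Y I ^ p / pk _ A * algebraMap _ _ ϖ) / pk _ A) +
        ((x I).1 - (Y I ^ p / pk _ A - Y I)) * algebraMap _ _ ϖ = 0 := fun I => by
    have a2 := FNorm_cob hT (hY.1 I)
    have a3 := (c I).1
    rw [neg_div, map_neg] at a2
    rw [d1B] at a3
    rw [add_div, map_add]
    linear_combination a3 - a2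
  have pw : ∀ m, m ≤ n0 + A.natDegree + K * p + 1 → (2 : ℝ) ^ m ≤ 2 ^ (n0 + A.natDegree + K * p + 1) :=
    fun m => pow_le_pow_right₀ one_le_two
  refine ⟨Y, hY, HU, ⟨m1, m2, fun I => ⟨cc I, fun v => ⟨fun hv => ?_, ?_, fun hv => ?_,
    fun hv hm => b1 v (nb v hv) hm I⟩⟩⟩, fun v hv hm I =>
      y4 v hv I ▸ (H1 v hm I).1 ((mT v).2 (Or.inr hv))⟩
  · obtain ⟨a1, a2⟩ := (inU_iff (p := p) (A := A)).1 hv
    have a3 : v ∉ Med := fun h => a2 (hM v h)
    have a4 : ¬ InS0 F v := fun h => a1 (Or.inl h)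
    by_cases h : InNa p A b v
    · exact w_int hW m1 m2 cc hv.1 (norm_pk_one hT.dvd a4) (na_root hT.dvd hc h)
        (fun i => (hh i v).2 a3) (hT.int v a4) (b1 v (nb v a1) a3) I
    · have hu := inU_iff.2 ⟨nb v a1, h⟩
      rw [map_add, map_mul, map_div₀, map_pow, emb_pk, emb_algK]
      refine LocA_add_le (nm_na v) (hx.int v hu I).2 ?_
      rw [map_mul, nm_alg, norm_alg]
      exact mul_le_one₀ (w1 v a4 (HU v hu I)).1 ((av v).nonneg _) (hT.int v a4)
  · by_cases h1 : InS0 F v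
    · refine e1 v I ▸ LocA_add_le (nm_na v) ((y2 v h1 I).trans (pw _ (by omega))) ?_
      refine (FNorm_wp le_rfl (one_le_pow₀ one_le_two) (FNorm_inv hA v)
        (HS v (Or.inl h1) I)).2.trans ?_
      rw [one_pow, one_mul]
      exact pw _ (by omega)
    by_cases h2 : InAn p A b v
    · obtain ⟨t, -, t2, t3⟩ := b2 v h2 I
      rw [← sub_add_cancel (emb v _) (algebraMap (Lv v) _ (t * algebraMap _ _ d'))]
      refine LocA_add_le (nm_na v) (t3.trans (one_le_pow₀ one_le_two)) ?_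
      rw [nm_alg, norm_mul, norm_alg]
      exact (mul_le_of_le_one_left ((av v).nonneg _) t2).trans ((han v h2).2.1.trans
        (le_self_pow₀ one_le_two (by omega)))
    have h3 : ¬ InS p A F b v := fun h => (inS_iff.1 h).elim h1 h2
    by_cases h4 : InNa p A b v
    · refine e2 v h4 I ▸ (FNorm_wp (one_le_pow₀ one_le_two) le_rfl
        (by rw [nm_pk_one hT.dvd h1, inv_one]) ((H v 2 one_le_two (fun i =>
          root_le (hW i) one_le_two (hh i v).1) I).1 ((mT v).2 (Or.inr h4)))).2.trans ?_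
      rw [mul_one, ← pow_mul]
      exact pw _ (by nlinarith [Nat.mul_le_mul_right p hn])
    · exact (b1 v h3 (nM v h4) I).trans (one_le_pow₀ one_le_two)
  · obtain ⟨t, t1, -, t3⟩ := b2 v ⟨hv.1, hv.2.1.trans hb', hv.2.2⟩ I
    exact ⟨t, t1, t3⟩

end Pool.Agent.ASel
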