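import Pool.Agent.Work.MP_60d5ce_nt.AS.FLc
import Pool.Agent.Work.MP_60d5ce_nt.AS.FFix
import Pool.Agent.Work.MP_60d5ce_nt.AS.FNorm

/-!
# The cohomology of the complex of invariants is small  (AS, function field side)

PLAN.  Constant families have values in `k(t)`, `Lv v` (`Eqv.const`, `ASr.emb`), and conversely (`Eqv.alg`).  `card k = p ^ f` (`FiniteField.card`).
`coh1`: `exists_norm` with `n = 0`, `b' = b`, `d' = d`, `Med = ∅`, `x = fun _ => z` (`C1_spl`); `card_F0` (with `Y = card + 1`) bounds the first two components of `z - D0 y`, and they determine the third: the solution of `℘ y = a` in `Lv v` is unique at `InNa` (`wp_ker`, `na_root`, or `wp_fix_zero`).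
`coh2`: let `Y` be the subgroup of the `D1 D x`, `x` constant cochain; show `Cov X Y n` and use `Cov.inner`.  (1) `pf_many`, `wp_surj` kill the third component by some `(a, 0, y)`.  (2) `cov_cok` and `(0, w, 0)` kill the first component up to a small set.
(3) for `(0, q, 0)`, `Q q = q`, so `q v` is a cocycle (`Q_coc`): choose `a` with `a - (q v).1` integral on `Sf`, integral elsewhere; up to a small set (`cov_graph` with `cov_cok`) `a ϖ = -(w - C (w / A))`, then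
`(0, q, 0) - D1 (a, w, y) = (0, Q (q - (a, w)), 0)` and `q v - (a, w)` is a cocycle with integral first component: `cov_pi`, `cov_Lt0`, `cov_Lt1`, `Q_iff`.
-/

set_option linter.unusedSectionVars false

namespace Pool.Agent.ASel

open Polynomial Pool.Agent.Smith Finset

variable {p : ℕ} {k : Type} [Field k] [Fintype k] [hp : Fact p.Prime] [CharP k p]
  {A F : k[X]} {ϖ : RatFunc k} {ε : ℤ}

section aux

open scoped Classical

variable {ι : Type} [Fintype ι] {b : k[X]} {Φ : ASF p k ι} {n0 : ℕ} {d : RatFunc k}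

/-- the functions that are regular at the unramified places -/
def FH_R (F b : k[X]) : AddSubgroup (RatFunc k) where
  carrier := {f | ∀ v, InU F b v → av v f ≤ 1}
  zero_mem' v _ := by simp
  add_mem' ha hb v hv := Hasse_add (ha v hv) (hb v hv)
  neg_mem' ha v hv := by
    rw [AbsoluteValue.map_neg]
    exact ha v hv

variable (p) in
/-- the operator on forms -/
noncomputable def FH_phi (A : k[X]) : RatFunc k →+ RatFunc k :=
  AddMonoidHom.mk' (fun w => w - cK p (w / pk _ A)) fun x y => by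
    rw [add_div, map_add, add_sub_add_comm]

theorem FH_alg {a : RatFunc k} (h : a ∈ FH_R F b) : (fun _ => algebraMap _ _ a) ∈ C0 F b Φ :=
  ⟨Eqv.alg a, fun v hv _ => by
    rw [emb_algK, nm_alg, norm_alg]
    exact h v hv⟩

theorem FH_const {x : Kb k} (h : (fun _ => x) ∈ C0 F b Φ) :
    ∃ a ∈ FH_R F b, algebraMap _ _ a = x := by
  obtain ⟨a, rfl⟩ := Eqv.const Φ.asr h.1
  refine ⟨a, fun v hv => ?_, rfl⟩
  have := h.2 v hv 0
  rwa [emb_algK, nm_alg, norm_alg] at this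

variable (p) in
/-- a constant cochain -/
noncomputable def FH_x (A b : k[X]) (a w : RatFunc k) (u : ∀ v : Pl k, Lv v) : W1 k :=
  (algebraMap _ _ a, algebraMap _ _ w, fun v => if InNa p A b v then algebraMap _ _ (u v) else 0)

theorem FH_mem {a w : RatFunc k} (ha : a ∈ FH_R F b) (hw : w ∈ FH_R F b) (u : ∀ v : Pl k, Lv v) :
    (fun _ => FH_x p A b a w u) ∈ C1 A F b Φ := by
  refine ⟨FH_alg ha, FH_alg hw, fun v => ⟨?_, fun h _ => if_neg h⟩⟩
  change (fun _ => if InNa p A b v then algebraMap _ _ (u v) else 0) ∈ _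
  split_ifs
  exacts [Eqv.alg _, zero_mem _]

theorem FH_D1 (D : LtD p A F b n0 d ϖ ε) (a w : RatFunc k) (u : ∀ v : Pl k, Lv v) :
    (D1 D (FH_x p A b a w u)).1 = algebraMap _ _ (FH_phi p A w + a * ϖ) ∧
    (∀ v, (D1 D (FH_x p A b a w u)).2.1 v =
      if InS p A F b v then D.Q v (algebraMap _ _ a, algebraMap _ _ w) else 0) ∧
    ∀ v, (D1 D (FH_x p A b a w u)).2.2 v = if InNa p A b v then
      algebraMap (Lv v) _ (algebraMap _ _ a - (u v ^ p / pk _ A - u v)) else 0 := by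
  refine ⟨?_, fun v => ?_, fun v => ?_⟩
  · change algebraMap _ _ w - cB p (algebraMap _ _ w / algebraMap _ _ (pk (RatFunc k) A)) +
      algebraMap _ _ a * algebraMap _ _ ϖ = algebraMap _ _ (w - cK p (w / pk _ A) + a * ϖ)
    rw [← map_div₀, ← alg_cKB, map_add, map_sub, map_mul]
  · change (if InS p A F b v then D.Q v (rt v (emb v (algebraMap _ _ a)),
      rt v (emb v (algebraMap _ _ w))) else 0) = _
    rw [emb_algK, emb_algK, rt_alg, rt_alg]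
  · change (if InNa p A b v then emb v (algebraMap _ _ a) -
      ((if InNa p A b v then algebraMap _ _ (u v) else 0) ^ p / pk _ A -
        if InNa p A b v then algebraMap _ _ (u v) else 0) else 0) = _
    split_ifs
    · rw [emb_algK, map_sub, map_sub, map_div₀, map_pow, alg_pk]
    · rfl

/-- the elements that can be moved into `X` by a constant coboundary -/
def FH_P (D : LtD p A F b n0 d ϖ ε) (Φ : ASF p k ι) (X : Set (W2 k)) : Set (W2 k) :=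
  {y | ∃ x, (fun _ => x) ∈ C1 A F b Φ ∧ y - D1 D x ∈ X}

theorem FH_up {D : LtD p A F b n0 d ϖ ε} {X Z : Set (W2 k)} {m : ℕ} (h : Cov X (FH_P D Φ Z) m) :
    Cov (FH_P D Φ X) (FH_P D Φ Z) m := by
  obtain ⟨T, a, c⟩ := h
  refine ⟨T, a, fun y ⟨x, x1, x2⟩ => ?_⟩
  obtain ⟨t, t1, x', t2, t3⟩ := c _ x2
  refine ⟨t, t1, x + x', add_mem x1 t2, ?_⟩
  rw [map_add, show y - t - (D1 D x + D1 D x') = y - D1 D x - t - D1 D x' by abel]
  exact t3

theorem FH_cok {N : ℕ} (h : Cov {f : RatFunc k | ∀ v, InU F b v → av v f ≤ 1}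
    {f | ∃ w : RatFunc k, (∀ v, InU F b v → av v w ≤ 1) ∧ f = w - cK p (w / pk _ A)} N) :
    Cov (FH_R F b : Set (RatFunc k)) ((FH_R F b).map (FH_phi p A)) N :=
  h.mono le_rfl (fun _ ⟨w, h1, h2⟩ => ⟨w, h1, h2.symm⟩) le_rfl

variable (hT : Ty p A F ϖ ε) (hS : Stg A F b Φ)
include hT hS

theorem FH_third {D : LtD p A F b n0 d ϖ ε} {z : W1 k} (h1 : (fun _ => z) ∈ C1 A F b Φ)
    (h2 : D1 D z = 0) (h3 : z.1 = 0) : z.2.2 = 0 := by
  funext v
  by_cases hv : InNa p A b v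
  · have e := ((D1_eq_zero (C1_spl hS h1 0)).1 h2).2.2 v hv
    rw [h3, map_zero, ← alg_pk] at e
    exact wp_fix_zero (ASr.emb v Φ.asr) (FC_pk hS hT _) (na_root hT.dvd hS.cop hv)
      (Eqv.fix (h1.2.2 v).1 0) e.symm
  · exact (h1.2.2 v).2 hv 0

theorem FH_sol (c : ∀ v : Pl k, Lv v) (hc : ∀ v, InNa p A b v → ‖c v‖ ≤ 1) :
    ∃ u : ∀ v : Pl k, Lv v, ∀ v, InNa p A b v → u v ^ p / pk _ A - u v = c v := by
  have : ∀ v, ∃ u : Lv v, InNa p A b v → u ^ p / pk _ A - u = c v := fun v => by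
    by_cases hv : InNa p A b v
    · obtain ⟨u, -, hu⟩ := wp_surj (norm_pk_one hT.dvd (not_S0_of_dvd hS.cop hv.1 hv.2.1))
        (na_root hT.dvd hS.cop hv) (hc v hv)
      exact ⟨u, fun _ => hu⟩
    · exact ⟨0, fun h => (hv h).elim⟩
  exact ⟨fun v => (this v).choose, fun v => (this v).choose_spec⟩

theorem FH_sub (D : LtD p A F b n0 d ϖ ε) {y : W2 k} (hy : (fun _ => y) ∈ C2 D Φ) {x : W1 k}
    (hx : (fun _ => x) ∈ C1 A F b Φ) : (fun _ => y - D1 D x) ∈ C2 D Φ :=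
  sub_mem hy (D1_mem hS hT D _ hx)

theorem FH_s1 (D : LtD p A F b n0 d ϖ ε) {y : W2 k} (hy : (fun _ => y) ∈ C2 D Φ) :
    y ∈ FH_P D Φ {y | (fun _ => y) ∈ C2 D Φ ∧ y.2.2 = 0} := by
  choose s hs using fun v => Eqv.const (ASr.emb v Φ.asr) (hy.2.2 v).1
  obtain ⟨a, a1, a2, -⟩ := pf_many (Nf p A b) s
  obtain ⟨u, hu⟩ := FH_sol hT hS (fun v => algebraMap _ _ a - s v) fun v hv => by
    rw [norm_sub_rev]
    exact a1 v ((mem_Nf hS.b_ne).2 hv)
  have hx := FH_mem (Φ := Φ) (A := A) (a := a)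
    (fun v hv => a2 v fun h => (inU_iff.1 hv).2 ((mem_Nf hS.b_ne).1 h)) (zero_mem (FH_R F b)) u
  refine ⟨_, hx, FH_sub hT hS D hy hx, funext fun v => ?_⟩
  change y.2.2 v - (D1 D _).2.2 v = 0
  rw [(FH_D1 D a 0 u).2.2 v]
  split_ifs with h
  · rw [hu v h, sub_sub_cancel, hs, sub_self]
  · exact (sub_zero _).trans ((hy.2.2 v).2 h 0)

theorem FH_s2 (D : LtD p A F b n0 d ϖ ε) {N : ℕ}
    (h : Cov (FH_R F b : Set (RatFunc k)) ((FH_R F b).map (FH_phi p A)) N) :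
    Cov {y | (fun _ => y) ∈ C2 D Φ ∧ y.2.2 = 0}
      (FH_P D Φ {y | (fun _ => y) ∈ C2 D Φ ∧ y.2.2 = 0 ∧ y.1 = 0}) N := by
  let Γ : AddSubgroup (W2 k × RatFunc k) :=
    { carrier := {z | (fun _ => z.1) ∈ C2 D Φ ∧ z.1.2.2 = 0 ∧ z.1.1 = algebraMap _ _ z.2}
      zero_mem' := ⟨zero_mem _, rfl, (map_zero _).symm⟩
      add_mem' := fun ha hb => ⟨add_mem ha.1 hb.1, (congrArg₂ (· + ·) ha.2.1 hb.2.1).trans (add_zero 0),
        (congrArg₂ (· + ·) ha.2.2 hb.2.2).trans (map_add _ _ _).symm⟩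
      neg_mem' := fun ha => ⟨neg_mem ha.1, (congrArg (- ·) ha.2.1).trans neg_zero,
        (congrArg (- ·) ha.2.2).trans (map_neg _ _).symm⟩ }
  refine (cov_graph Γ (fun y hy => ?_) h).mono le_rfl ?_ le_rfl
  · obtain ⟨a, a1, a2⟩ := FH_const hy.1.1
    exact ⟨a, a1, hy.1, hy.2, a2.symm⟩
  rintro y ⟨_, ⟨w, hw, rfl⟩, y1, y2, y3⟩
  have hx := FH_mem (Φ := Φ) (A := A) (zero_mem (FH_R F b)) hw 0
  refine ⟨_, hx, FH_sub hT hS D y1 hx, funext fun v => ?_, ?_⟩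
  · change y.2.2 v - (D1 D _).2.2 v = 0
    rw [(FH_D1 D 0 w 0).2.2 v, show y.2.2 = 0 from y2]
    simp [hp.out.ne_zero]
  · change y.1 - (D1 D _).1 = 0
    rw [(FH_D1 D 0 w 0).1, zero_mul, add_zero, show y.1 = _ from y3, sub_self]

theorem FH_s3 (D : LtD p A F b n0 d ϖ ε) {N : ℕ}
    (h : Cov (FH_R F b : Set (RatFunc k)) ((FH_R F b).map (FH_phi p A)) N) :
    Cov {y | (fun _ => y) ∈ C2 D Φ ∧ y.2.2 = 0 ∧ y.1 = 0}
      (FH_P D Φ {y | ∃ r : ∀ v : Pl k, Lv v × Lv v,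
        (∀ v ∈ Sf p A F b, dL p A ϖ v (r v) = 0 ∧ ‖(r v).1‖ ≤ 1) ∧
          y = (0, fun v => if InS p A F b v then D.Q v (r v) else 0, 0)}) N := by
  let Γ : AddSubgroup (W2 k × RatFunc k) :=
    { carrier := {z | (fun _ => z.1) ∈ C2 D Φ ∧ z.1.2.2 = 0 ∧ z.1.1 = 0 ∧ ∃ a : RatFunc k,
        (∀ v ∈ Sf p A F b, ‖(z.1.2.1 v).1 - algebraMap _ _ a‖ ≤ 1) ∧ (∀ v ∉ Sf p A F b, av v a ≤ 1) ∧
          z.2 = -(a * ϖ)}
      zero_mem' := ⟨zero_mem _, rfl, rfl, 0, fun v _ => by simp, fun v _ => by simp, by simp⟩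
      add_mem' := by
        rintro z z' ⟨a1, a2, a3, a, a4, a5, a6⟩ ⟨b1, b2, b3, a', b4, b5, b6⟩
        refine ⟨add_mem a1 b1, (congrArg₂ (· + ·) a2 b2).trans (add_zero 0),
          (congrArg₂ (· + ·) a3 b3).trans (add_zero 0), a + a', fun v hv => ?_,
          fun v hv => Hasse_add (a5 v hv) (b5 v hv), by rw [Prod.snd_add, a6, b6, add_mul, neg_add]⟩
        have := PF_add (a4 v hv) (b4 v hv)
        rwa [← add_sub_add_comm, ← map_add] at this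
      neg_mem' := by
        rintro z ⟨a1, a2, a3, a, a4, a5, a6⟩
        refine ⟨neg_mem a1, (congrArg (- ·) a2).trans neg_zero, (congrArg (- ·) a3).trans neg_zero, -a,
          fun v hv => ?_, fun v hv => by rw [AbsoluteValue.map_neg]; exact a5 v hv,
          by rw [Prod.snd_neg, a6, neg_mul]⟩
        have := a4 v hv
        rwa [← norm_neg, neg_sub', ← map_neg] at this }
  have mS := fun v => mem_Sf (p := p) (A := A) (v := v) hT.F_ne hS.b_ne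
  have hR : ∀ {a : RatFunc k}, (∀ v ∉ Sf p A F b, av v a ≤ 1) → a ∈ FH_R F b := fun ha v hv =>
    ha v fun h => (inU_iff.1 hv).1 ((mS v).1 h)
  refine (cov_graph Γ (fun y hy => ?_) h).mono le_rfl ?_ le_rfl
  · obtain ⟨a, a1, a2, -⟩ := pf_many (Sf p A F b) fun v => (y.2.1 v).1
    refine ⟨_, neg_mem (fun v hv => ?_ : a * ϖ ∈ FH_R F b), hy.1, hy.2.1, hy.2.2, a, a1, a2, rfl⟩
    rw [map_mul]
    exact mul_le_one₀ (hR a2 v hv) ((av v).nonneg _)
      (hT.int v fun h => (inU_iff (p := p) (A := A).1 hv).1 (Or.inl h))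
  rintro y ⟨_, ⟨w, hw, rfl⟩, y1, y2, y3, a, a1, a2, a3⟩
  have e : FH_phi p A w + a * ϖ = 0 := by rw [show FH_phi p A w = _ from a3, neg_add_cancel]
  obtain ⟨u, hu⟩ := FH_sol hT hS (fun v => algebraMap _ _ a) fun v hv => by
    rw [norm_alg]
    exact a2 v fun h => hv.not_S hS.cop ((mS v).1 h)
  refine ⟨_, FH_mem (hR a2) hw u, fun v => y.2.1 v - (algebraMap _ _ a, algebraMap _ _ w),
    fun v hv => ⟨?_, a1 v hv⟩, Prod.ext ?_ (Prod.ext (funext fun v => ?_) (funext fun v => ?_))⟩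
  · have e1 := D.Q_coc v (y.2.1 v)
    have e2 := congrArg (algebraMap _ (Lv v)) e
    rw [(y1.2.1 0 v).1] at e1
    change algebraMap _ (Lv v) (w - cK p (w / pk _ A) + a * ϖ) = _ at e2
    rw [map_add, map_sub, map_mul, alg_cK, map_div₀, FHat_pk, map_zero] at e2
    simp only [dL, Prod.fst_sub, Prod.snd_sub, sub_div, map_sub] at e1 ⊢
    linear_combination e1 - e2
  · change y.1 - (D1 D _).1 = 0
    rw [(FH_D1 D a w u).1, e, map_zero, show y.1 = 0 from y3, sub_self]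
  · change y.2.1 v - (D1 D _).2.1 v = if InS p A F b v then D.Q v (y.2.1 v - _) else 0
    rw [(FH_D1 D a w u).2.1 v]
    split_ifs with h
    · rw [map_sub, (y1.2.1 0 v).1]
    · rw [(y1.2.1 0 v).2 h, sub_zero]
  · change y.2.2 v - (D1 D _).2.2 v = 0
    rw [(FH_D1 D a w u).2.2 v, show y.2.2 = 0 from y2]
    split_ifs with h
    · rw [hu v h, sub_self, map_zero, Pi.zero_apply, sub_zero]
    · exact sub_zero _

theorem FH_s4 (D : LtD p A F b n0 d ϖ ε) (n : Pl k → ℕ) (h : ∀ v ∈ Sf p A F b,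
    Cov {x : Lv v × Lv v | dL p A ϖ v x = 0 ∧ ‖x.1‖ ≤ 1} (D.Lt v) (n v)) :
    Cov {y : W2 k | ∃ r : ∀ v : Pl k, Lv v × Lv v,
        (∀ v ∈ Sf p A F b, dL p A ϖ v (r v) = 0 ∧ ‖(r v).1‖ ≤ 1) ∧
          y = (0, fun v => if InS p A F b v then D.Q v (r v) else 0, 0)} (FH_P D Φ {0})
      (∏ v ∈ Sf p A F b, n v) := by
  obtain ⟨T, a, c⟩ := cov_pi _ _ _ n h
  refine ⟨T.image fun r => (0, fun v => if InS p A F b v then D.Q v (r v) else 0, 0),
    card_image_le.trans a, ?_⟩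
  rintro _ ⟨r, hr, rfl⟩
  obtain ⟨t, t1, t2⟩ := c r hr
  refine ⟨_, mem_image_of_mem _ t1, 0, zero_mem _, ?_⟩
  rw [map_zero, sub_zero, Set.mem_singleton_iff, sub_eq_zero]
  refine Prod.ext rfl (Prod.ext (funext fun v => ?_) rfl)
  refine ite_congr rfl (fun hv => ?_) fun _ => rfl
  have m := t2 v ((mem_Sf hT.F_ne hS.b_ne).2 hv)
  rw [← sub_eq_zero, ← map_sub]
  exact (D.Q_iff v _ (D.coc v _ m)).2 m

end aux

theorem coh1 (hT : Ty p A F ϖ ε) (n0 : ℕ) : ∃ C : ℕ, ∀ {ι : Type} [Fintype ι] {b : k[X]}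
    {Φ : ASF p k ι}, Stg A F b Φ → ∀ D : LtD p A F b n0 Φ.d ϖ ε,
    ∃ T : Finset (W1 k), T.card ≤ p ^ (C * ((fac' b).card + 1)) ∧
      ∀ z, (fun _ => z) ∈ C1 A F b Φ → D1 D z = 0 →
        ∃ y, (fun _ => y) ∈ C0 F b Φ ∧ z - D0 p A b ϖ y ∈ T := by
  classical
  obtain ⟨n1, H1⟩ := exists_norm hT n0 0
  obtain ⟨C, H2⟩ := card_F0 (p := p) hT.F_ne hT.dvd n1 0
  obtain ⟨f, -, hf⟩ := FiniteField.card k p
  refine ⟨f * C, fun {ι} _ b Φ hS D => ?_⟩
  obtain ⟨T, T1, T2⟩ := H2 b Φ.d ϖ ∅ ((fac' b).card + 1) hS.b_ne hS.cop (by simp) (by simp)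
    (Nat.le_succ _) (Nat.le_add_left _ _)
  obtain ⟨T', a1, -, a3⟩ := FCov_pick T fun t (z : W1 k) =>
    (fun _ => z) ∈ C1 A F b Φ ∧ D1 D z = 0 ∧ (z.1, z.2.1) = t
  refine ⟨T', a1.trans (by rwa [hf, ← pow_mul, ← mul_assoc] at T1), fun z z1 z2 => ?_⟩
  have hW : ASr p (RatFunc k) (Fin.elim0 : Fin 0 → Kb k) := fun i => i.elim0
  have E : ∀ {L M : Type} [Field L] [Field M] [Algebra L M] {W : Fin 0 → M} {x : M},
      (∃ a : L, algebraMap L M a = x) → (fun _ => x) ∈ Eq1 p L W := by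
    rintro L M _ _ _ W _ ⟨a, rfl⟩
    exact FNorm_eq1 (fun i => i.elim0) fun _ => a
  obtain ⟨Y, Y1, Y2, Y3, -⟩ := H1 (d' := Φ.d) D ∅ (W := Fin.elim0) (h := Fin.elim0) (x := fun _ => z)
    hS.b_ne hS.cop dvd_rfl (fun v hv => ⟨hv, hS.d_le v, by simp⟩) (by simp) le_rfl (fun i => i.elim0)
    (fun i => i.elim0) (fun i => i.elim0) ⟨E (Eqv.const Φ.asr z1.1.1), E (Eqv.const Φ.asr z1.2.1.1),
      fun v => E (Eqv.const (ASr.emb v Φ.asr) (z1.2.2 v).1),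
      fun v hv _ => ⟨z1.1.2 v hv 0, z1.2.1.2 v hv 0⟩, fun _ => C1_spl hS z1 0⟩ fun _ => z2
  have n : ∀ {M : Type} [Zero M] (x : Finset (Fin 0) → M), ∀ J, J ⊂ ∅ → x J = 0 :=
    fun _ J hJ => (not_ssubset_empty J hJ).elim
  obtain ⟨y, hy⟩ := Eq1.lower hW Y1 ∅ (n _)
  have y1 : (fun _ => Y ∅) ∈ C0 F b Φ := ⟨hy ▸ Eqv.alg y, fun v hv _ => Y2 v hv ∅⟩
  have m1 : (fun _ => z - D0 p A b ϖ (Y ∅)) ∈ C1 A F b Φ := sub_mem z1 (D0_mem hS hT _ y1)
  have m2 : D1 D (z - D0 p A b ϖ (Y ∅)) = 0 := by rw [map_sub, z2, D1_D0 hS hT D _ y1 0, sub_zero]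
  obtain ⟨z', b1, b2, b3, b4⟩ := a3 _ (T2 0 _ hW _ Y3 ∅ (n _)) _
    ⟨m1, m2, Prod.ext rfl (sub_neg_eq_add _ _)⟩
  have c1 : z'.1 = (z - D0 p A b ϖ (Y ∅)).1 := (Prod.ext_iff.1 b4).1
  have c2 : z'.2.1 = (z - D0 p A b ϖ (Y ∅)).2.1 :=
    (Prod.ext_iff.1 b4).2.trans (sub_neg_eq_add _ _).symm
  have c3 := FH_third hT hS (z := z' - (z - D0 p A b ϖ (Y ∅))) (sub_mem b2 m1)
    (by rw [map_sub, b3, m2, sub_zero]) (sub_eq_zero.2 c1)
  exact ⟨_, y1, Prod.ext c1 (Prod.ext c2 (sub_eq_zero.1 c3)) ▸ b1⟩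

theorem coh2 (hT : Ty p A F ϖ ε) (n0 : ℕ) : ∃ C : ℕ, ∀ {ι : Type} [Fintype ι] {b : k[X]}
    {Φ : ASF p k ι}, Stg A F b Φ → ∀ D : LtD p A F b n0 Φ.d ϖ ε,
    ∃ T : Finset (W2 k), T.card ≤ p ^ (C * ((fac' b).card + 1)) ∧
      ∀ y, (fun _ => y) ∈ C2 D Φ → ∃ x, (fun _ => x) ∈ C1 A F b Φ ∧ y - D1 D x ∈ T := by
  classical
  obtain ⟨C1, H1⟩ := cov_cok (p := p) hT.F_ne hT.dvd
  obtain ⟨C0, H0⟩ := cov_Lt0 hT n0
  obtain ⟨f, -, hf⟩ := FiniteField.card k p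
  refine ⟨f * C1 + (f * C1 + (f * C0 * (insert none (fac' F)).card + 3)), fun {ι} _ b Φ hS D => ?_⟩
  have h := FH_cok (H1 b hS.b_ne hS.cop)
  have mS := fun v => mem_Sf (p := p) (A := A) (v := v) hT.F_ne hS.b_ne
  obtain ⟨T, T1, T2⟩ := FH_up ((FH_s2 hT hS D h).trans (FH_up ((FH_s3 hT hS D h).trans (FH_up
    (FH_s4 hT hS D (fun v => if InS0 F v then Fintype.card k ^ C0 else p ^ 3) fun v hv => by
      split_ifs with h0
      exacts [H0 D v h0, cov_Lt1 hT hS.cop D ((inS_iff.1 ((mS v).1 hv)).resolve_left h0)])))))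
  refine ⟨T, T1.trans ?_, fun y hy => ?_⟩
  · have c1 : ((Sf p A F b).filter (InS0 F)).card ≤ (insert none (fac' F)).card :=
      card_le_card fun v hv => by
        rw [mem_insert, mem_fac' hT.F_ne]
        have := (mem_filter.1 hv).2
        unfold InS0 at this
        tauto
    have c2 : ((Sf p A F b).filter fun v => ¬ InS0 F v).card ≤ (fac' b).card :=
      card_le_card fun v hv => by
        have := (inS_iff.1 ((mS v).1 (mem_filter.1 hv).1)).resolve_left (mem_filter.1 hv).2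
        exact (mem_fac' hS.b_ne).2 ⟨this.1, this.2.1⟩
    rw [prod_ite, prod_const, prod_const, hf]
    simp only [← pow_mul, ← pow_add]
    refine Nat.pow_le_pow_right hp.out.pos ?_
    have := Nat.mul_le_mul_left (f * C0) c1
    nlinarith [Nat.zero_le (f * C0 * (insert none (fac' F)).card * (fac' b).card)]
  · obtain ⟨t, t1, x, x1, x2⟩ := T2 y (FH_s1 hT hS D hy)
    rw [Set.mem_singleton_iff, sub_right_comm, sub_eq_zero] at x2
    exact ⟨x, x1, x2 ▸ t1⟩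

end Pool.Agent.ASel
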