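import Pool.Agent.Work.MP_60d5ce_nt.AS.FC

/-!
# Local conditions attached to a lattice  (AS, function field side)

PLAN.  `Lt v` is the subgroup generated by (1) the coboundaries, (2) if `InS v`, the pairs `x` with image `(emb v a, emb v w)`, `Rep u a w`, (3) the pairs of `hi0` (if `InS0 v`) and of `hi1` (if `InAn v`).
All generators are cocycles (`cob_coc` over `Lv v` with `S = ⊤`, `LatD.coc`, `emb_cB`, `alg_cL`).  `thL` is biadditive and `thL x' x = ε • thL x x'`; a coboundary is orthogonal to every cocycle (`res_wp`);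
(2) with (2) is `LatD.iso`; (2) with (3): `et0`, `et1`, `res_wp`, `res_small`; (3) with (3): `thL = 0`.  `InS0` and `InAn` exclude each other (`not_S0_of_dvd`).  Over `ZMod p` choose a projection `P` onto `Lt v`
and a projection `PZ` onto the cocycles (`Submodule.exists_isCompl`, `LinearMap.exists_leftInverse_of_injective`), `Q = (1 - P) ∘ PZ`.
Elements of `K2` lie in `Lv v` at the places `InS` (`Stg.split`, `root_split`, `exists_rst`, `om_fix`).
-/

set_option linter.unusedSectionVars false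

namespace Pool.Agent.ASel

open Polynomial Pool.Agent.Smith Finset

variable {p : ℕ} {k : Type} [Field k] [Fintype k] [hp : Fact p.Prime] [CharP k p] {ι : Type}
  {A F b : k[X]} {n0 : ℕ} {ϖ : RatFunc k} {ε : ℤ} {Φ : ASF p k ι}

theorem FLt_proj {V : Type} [AddCommGroup V] [Module (ZMod p) V] (H : AddSubgroup V) :
    ∃ P : V →+ V, (∀ x, P x ∈ H) ∧ ∀ x ∈ H, P x = x := by
  obtain ⟨g, hg⟩ := (AddSubgroup.toZModSubmodule p H).subtype.exists_leftInverse_of_injective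
    (Submodule.ker_subtype _)
  exact ⟨((AddSubgroup.toZModSubmodule p H).subtype.comp g).toAddMonoidHom, fun x => (g x).2,
    fun x hx => congrArg Subtype.val (LinearMap.congr_fun hg ⟨x, hx⟩)⟩

theorem FLt_split (hS : Stg A F b Φ) {v : Pl k} (hv : InS p A F b v) {x : Kb k} (hx : Φ.K2 x) :
    algebraMap _ _ (rt v (emb v x)) = emb v x := by
  obtain ⟨ρ, hρ⟩ := exists_rst v (emb v)
  obtain ⟨a, ha⟩ := om_fix (emb_om v hx.1) fun τ => by
    rw [← hρ, hx.2 _ fun l => (emb v).injective ?_]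
    obtain ⟨s, h1, h2⟩ := hS.split l v hv
    obtain ⟨s', -, h3⟩ := root_split (p := p) (W := emb v (Φ.w l)) (s := s)
      (by rw [h2, ← emb_algK, ← Φ.hw, map_sub, map_pow]) h1
    exact (hρ τ _).trans (h3 ▸ τ.commutes s')
  rw [← ha, rt_alg]

/-- the generators -/
def FLt_G (L : LatD A F b n0 Φ ϖ ε) (v : Pl k) : Set (Lv v × Lv v) :=
  {x | (∃ y, x = (y ^ p / pk _ A - y, -(y ^ p / pk _ A * algebraMap _ _ ϖ))) ∨
    (InS p A F b v ∧ ∃ u a w, L.Rep u a w ∧ algebraMap _ _ x.1 = emb v a ∧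
      algebraMap _ _ x.2 = emb v w) ∨
    x.1 = 0 ∧ cL p v (x.2 / pk _ A) = x.2 ∧ (InS0 F v ∧ ‖uL v * x.2‖ * 2 ^ n0 < 1 ∨
      InAn p A b v ∧ ‖uL v * x.2‖ < 1 ∧
        ∀ t : Lv v, t ^ p / pk _ A - t = 0 → res p v (t * algebraMap _ _ Φ.d * x.2) = 0)}

theorem FLt_rel (L : LatD A F b n0 Φ ϖ ε) {v : Pl k} {B : ℝ} (hB : 0 ≤ B) {c : Lv v}
    (h : ∀ u a w, L.Rep u a w → ∃ y t : Lv v, t ^ p / pk _ A - t = 0 ∧
      nm v (emb v a - algebraMap _ _ (y ^ p / pk _ A - y + t * c)) ≤ B) :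
    ∀ x ∈ AddSubgroup.closure (FLt_G L v), ∃ y t : Lv v, t ^ p / pk _ A - t = 0 ∧
      ‖x.1 - (y ^ p / pk _ A - y + t * c)‖ ≤ B := by
  have h0 : (0 : Lv v) ^ p / pk _ A - 0 = 0 := by simp [hp.out.ne_zero]
  intro x hx
  induction hx using AddSubgroup.closure_induction with
  | mem x hx =>
    rcases hx with ⟨y, rfl⟩ | ⟨-, u, a, w, h1, h2, -⟩ | ⟨h1, -⟩
    · exact ⟨y, 0, h0, by simpa using hB⟩
    · obtain ⟨y, t, h3, h4⟩ := h u a w h1
      exact ⟨y, t, h3, by rwa [← h2, ← map_sub, nm_alg] at h4⟩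
    · exact ⟨0, 0, h0, by simpa [h0, h1] using hB⟩
  | zero => exact ⟨0, 0, h0, by simpa [h0] using hB⟩
  | add x x' _ _ h1 h2 =>
    obtain ⟨y, t, h3, h4⟩ := h1
    obtain ⟨y', t', h5, h6⟩ := h2
    refine ⟨y + y', t + t', by rw [Wp_add, h3, h5, add_zero], le_of_eq_of_le ?_ (Wp_add_le h4 h6)⟩
    rw [Wp_add, Prod.fst_add]
    exact congrArg _ (by ring)
  | neg x _ h1 =>
    obtain ⟨y, t, h3, h4⟩ := h1
    refine ⟨0 - y, 0 - t, by rw [Wp_sub, h3, h0, sub_zero], le_of_eq_of_le ?_ h4⟩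
    rw [Wp_sub, h0, Prod.fst_neg, ← norm_neg]
    exact congrArg _ (by ring)

theorem FLt_rel0 (L : LatD A F b n0 Φ ϖ ε) {v : Pl k} (hv : InS0 F v) :
    ∀ x ∈ AddSubgroup.closure (FLt_G L v), ∃ y : Lv v, ‖x.1 - (y ^ p / pk _ A - y)‖ ≤ 2 ^ n0 := by
  intro x hx
  obtain ⟨y, t, -, h⟩ := FLt_rel L (c := 0) (B := 2 ^ n0) (by positivity) (fun u a w h =>
    (L.et0 h v hv (emb v)).elim fun y hy => ⟨y, 0, by simp [hp.out.ne_zero], by
      rwa [mul_zero, add_zero]⟩) x hx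
  exact ⟨y, by rwa [mul_zero, add_zero] at h⟩

theorem FLt_rel1 (L : LatD A F b n0 Φ ϖ ε) {v : Pl k} (hv : InAn p A b v) :
    ∀ x ∈ AddSubgroup.closure (FLt_G L v), ∃ y t : Lv v, t ^ p / pk _ A - t = 0 ∧
      ‖x.1 - (y ^ p / pk _ A - y + t * algebraMap _ _ Φ.d)‖ ≤ 1 :=
  FLt_rel L zero_le_one fun _ _ _ h => L.et1 h v hv.1 hv.2.1 hv.2.2 (emb v)

variable (p A ϖ) in
/-- the local differential as an additive map -/
noncomputable def FLt_d (v : Pl k) : Lv v × Lv v →+ Lv v :=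
  AddMonoidHom.mk' (dL p A ϖ v) fun x y => by
    simp only [dL, Prod.fst_add, Prod.snd_add, add_div, map_add]
    ring

variable (p ϖ ε) in
/-- the pairing as an additive map -/
noncomputable def FLt_b (v : Pl k) (x' : Lv v × Lv v) : Lv v × Lv v →+ ZMod p :=
  (res p v).comp (AddMonoidHom.mk' (fun x => thL ϖ ε v x x') fun x y => by
    simp only [thL, Prod.fst_add, Prod.snd_add, zsmul_eq_mul]
    ring)

section
variable (hT : Ty p A F ϖ ε)
include hT

theorem FLt_A (v : Pl k) : pk (Lv v) A ≠ 0 :=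
  (_root_.map_ne_zero (algebraMap _ (Lv v))).2
    (RatFunc.algebraMap_ne_zero (ne_zero_of_dvd_ne_zero hT.F_ne hT.dvd))

theorem FLt_eps (v : Pl k) : ε • algebraMap _ (Lv v) ϖ = algebraMap _ _ ϖ := by
  rw [← map_zsmul, hT.eps]

theorem FLt_coc (L : LatD A F b n0 Φ ϖ ε) (v : Pl k) :
    AddSubgroup.closure (FLt_G L v) ≤ (FLt_d p A ϖ v).ker := by
  refine (AddSubgroup.closure_le _).2 fun x hx => show dL p A ϖ v x = 0 from ?_
  rcases hx with ⟨y, rfl⟩ | ⟨-, u, a, w, h1, h2, h3⟩ | ⟨h1, h2, -⟩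
  · refine cob_coc (cL p v) ⊤ (fun y _ f _ => cL_frob v y f) trivial (FLt_A hT v) trivial ?_
      (FLt_eps hT v) trivial
    have := congrArg (algebraMap _ (Lv v)) hT.car
    rwa [alg_cK, map_div₀, map_pow] at this
  · apply (algebraMap _ (Lb v)).injective
    have := congrArg (emb v) (L.coc h1)
    rw [map_add, map_sub, map_mul, emb_cB v (x := w / pk _ A) (div_mem (L.mem h1).2.1 (om_alg _)),
      map_div₀, emb_pk, emb_algK] at this
    rw [dL, map_add, map_sub, map_mul, alg_cL, map_div₀, alg_pk, h2, h3, this, map_zero, map_zero]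
  · rw [dL, h1, h2, sub_self, zero_mul, add_zero]

theorem FLt_sym {v : Pl k} {x x' : Lv v × Lv v} (h : res p v (thL ϖ ε v x x') = 0) :
    res p v (thL ϖ ε v x' x) = 0 := by
  have e := FLt_eps hT v
  have : thL ϖ ε v x' x = ε • thL ϖ ε v x x' := by
    have e2 : (ε : Lv v) * ε = 1 := by rcases hT.sgn with h | h <;> simp [h]
    simp only [thL, zsmul_eq_mul] at e ⊢
    linear_combination -x.1 * x'.1 * e - x'.1 * x.2 * e2
  rw [this, map_zsmul, h, smul_zero]

theorem FLt_iso (L : LatD A F b n0 Φ ϖ ε) (v : Pl k) : ∀ x ∈ AddSubgroup.closure (FLt_G L v),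
    ∀ x' ∈ AddSubgroup.closure (FLt_G L v), res p v (thL ϖ ε v x x') = 0 := by
  have k1 : ∀ (y : Lv v), ∀ x' ∈ FLt_G L v, res p v (thL ϖ ε v
      (y ^ p / pk _ A - y, -(y ^ p / pk _ A * algebraMap _ _ ϖ)) x') = 0 := fun y x' hx' => by
    have h1 : dL p A ϖ v x' = 0 := FLt_coc hT L v (AddSubgroup.subset_closure hx')
    have e := FLt_eps hT v
    have h2 : thL ϖ ε v (y ^ p / pk _ A - y, -(y ^ p / pk _ A * algebraMap _ _ ϖ)) x' =
        (y ^ p / pk _ A - y) * x'.2 + y * (x'.2 - cL p v (x'.2 / pk _ A)) := by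
      simp only [thL, dL, zsmul_eq_mul] at e h1 ⊢
      linear_combination -(x'.1 * (y ^ p / pk _ A)) * e - y * h1
    rw [h2, map_add, res_wp v (FLt_A hT v), neg_add_cancel]
  have k3 : ∀ x ∈ FLt_G L v, ∀ x' : Lv v × Lv v, x'.1 = 0 ∧ cL p v (x'.2 / pk _ A) = x'.2 ∧
      (InS0 F v ∧ ‖uL v * x'.2‖ * 2 ^ n0 < 1 ∨ InAn p A b v ∧ ‖uL v * x'.2‖ < 1 ∧
        ∀ t : Lv v, t ^ p / pk _ A - t = 0 → res p v (t * algebraMap _ _ Φ.d * x'.2) = 0) →
      res p v (thL ϖ ε v x x') = 0 := by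
    rintro x hx ⟨_, w⟩ ⟨rfl, h1, h2⟩
    have h3 : ∀ y c : Lv v, ‖uL v * w‖ * ‖x.1 - (y ^ p / pk _ A - y + c)‖ < 1 →
        res p v (c * w) = 0 → res p v (thL ϖ ε v x (0, w)) = 0 := fun y c h h' => by
      have : thL ϖ ε v x (0, w) = (x.1 - (y ^ p / pk _ A - y + c)) * w +
          (y ^ p / pk _ A - y) * w + c * w := by
        simp only [thL, zsmul_eq_mul]
        ring
      rw [this, map_add, map_add, h', res_wp v (FLt_A hT v), show cL p v (w / pk _ A) = w from h1,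
        res_small (by rwa [mul_left_comm, norm_mul, mul_comm])]
      simp
    rcases h2 with ⟨h4, h5⟩ | ⟨h4, h5, h6⟩
    · obtain ⟨y, hy⟩ := FLt_rel0 L h4 x (AddSubgroup.subset_closure hx)
      refine h3 y 0 (lt_of_le_of_lt ?_ h5) (by simp)
      rw [add_zero]
      gcongr
    · obtain ⟨y, t, ht, hy⟩ := FLt_rel1 L h4 x (AddSubgroup.subset_closure hx)
      exact h3 y _ ((mul_le_of_le_one_right (norm_nonneg _) hy).trans_lt h5) (h6 t ht)
  have k2 : ∀ x' ∈ FLt_G L v, AddSubgroup.closure (FLt_G L v) ≤ (FLt_b p ϖ ε v x').ker := by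
    refine fun x' hx' => (AddSubgroup.closure_le _).2 fun x hx =>
      show res p v (thL ϖ ε v x x') = 0 from ?_
    rcases id hx' with ⟨y, rfl⟩ | ⟨hv, u', a', w', h1, h2, h3⟩ | h
    · exact FLt_sym hT (k1 y x hx)
    · rcases id hx with ⟨y, rfl⟩ | ⟨-, u, a, w, h4, h5, h6⟩ | h
      · exact k1 y x' hx'
      · refine L.iso h4 h1 v hv (emb v) _ ?_
        simp only [thL, map_add, map_mul, map_zsmul, h2, h3, h5, h6, emb_algK]
      · exact FLt_sym hT (k3 x' hx' x h)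
    · exact k3 x hx x' h
  exact fun x hx x' hx' => FLt_sym hT ((AddSubgroup.closure_le (FLt_b p ϖ ε v x).ker).2
    (fun z hz => FLt_sym hT (k2 z hz hx)) hx')

end

theorem exists_LtD (hT : Ty p A F ϖ ε) (hS : Stg A F b Φ) (L : LatD A F b n0 Φ ϖ ε) :
    ∃ D : LtD p A F b n0 Φ.d ϖ ε, ∀ u a w, L.Rep u a w → ∀ v, InS p A F b v →
      (rt v (emb v a), rt v (emb v w)) ∈ D.Lt v := by
  choose P hP hP' using fun v => FLt_proj (p := p) (AddSubgroup.closure (FLt_G L v))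
  choose Z hZ hZ' using fun v => FLt_proj (p := p) (FLt_d p A ϖ v).ker
  have hQ : ∀ v x, Z v x - P v (Z v x) ∈ (FLt_d p A ϖ v).ker := fun v x =>
    sub_mem (hZ v x) (FLt_coc hT L v (hP v _))
  refine ⟨{ Lt := fun v => AddSubgroup.closure (FLt_G L v)
            P := P
            Q := fun v => Z v - (P v).comp (Z v)
            P_mem := hP
            P_id := hP'
            Q_coc := hQ
            Q_Q := fun v x => ?_
            Q_iff := fun v x hx => ?_
            coc := FLt_coc hT L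
            cob := fun v y => AddSubgroup.subset_closure (Or.inl ⟨y, rfl⟩)
            iso := FLt_iso hT L
            rel0 := fun v => FLt_rel0 L
            rel1 := fun v => FLt_rel1 L
            hi0 := fun v h1 w h2 h3 =>
              AddSubgroup.subset_closure (Or.inr (Or.inr ⟨rfl, h2, Or.inl ⟨h1, h3⟩⟩))
            hi1 := fun v h1 w h2 h3 h4 =>
              AddSubgroup.subset_closure (Or.inr (Or.inr ⟨rfl, h2, Or.inr ⟨h1, h3, h4⟩⟩)) },
    fun u a w h v hv => AddSubgroup.subset_closure (Or.inr (Or.inl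
      ⟨hv, u, a, w, h, FLt_split hS hv (L.mem h).1, FLt_split hS hv (L.mem h).2⟩))⟩
  · simp only [AddMonoidHom.sub_apply, AddMonoidHom.comp_apply]
    rw [hZ' v _ (hQ v x), map_sub (P v), hP' v _ (hP v _), sub_self, sub_zero]
  · rw [AddMonoidHom.sub_apply, AddMonoidHom.comp_apply, hZ' v x hx, sub_eq_zero]
    exact ⟨fun h => h ▸ hP v x, fun h => (hP' v x h).symm⟩

end Pool.Agent.ASel
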