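import Pool.Agent.Work.MP_60d5ce_nt.AS.FB

/-!
# Nondegeneracy of the triple symbol  (AS, function field side)

PLAN.  `as_zero`: a pole of `y` gives `av v (y ^ p - y) = av v y ^ p ≥ 2 ^ p` (`wp_norm` with `A = 1`, `av_disc`), so `y` is a polynomial (`liouville`), constant by `av_inf`, and a nonzero constant has `av none = 1`.
`indep_pol`: `av_pol`, `as_zero`, then look at the place `vv i`.  `sah_fix`: `sah` with `H = ⊤`: `wp_ker`; the commutator of two automorphisms fixes `l` and the `W i` (`exists_rho`); `move_root`; `om_fix`, `om_wp`.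
`nondeg`: let `l ^ (p - 1) = A`, `Γ` the group of the automorphisms that fix `l` and all `W i`; it fixes `a, w, a', w'` (`sh_zero`), and `σ y I - y I ∈ ℕ * l` (`wp_ker`).  `V = {(σ y - y, σ y' - y') | σ ∈ Γ}` is an additive subgroup (`Γ` fixes these differences).
It is stable under `sh (single i 1)`: take `γ` from `as_surj` with `g = single i 1` and `γ' = γ ^ (p - 1)`; `γ'` fixes `l`, `γ' (W j) = W j - single i 1 j`, so `γ' a = sh (single i 1) a`, `γ' y - sh (single i 1) y` has values in `ℕ * l`, and for `σ' ∈ Γ`,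
`σ = γ'⁻¹ σ' γ' ∈ Γ` has `σ y - y = γ' (σ y - y) = sh (single i 1) (σ' y - y)`.  `dl_mem`, `map_xiT`, `xi_dl` give `τ σ * Ω' + s * τ' σ * Ω = 0` on `Γ`, `τ σ = σ (y ∅) - y ∅`, `Ω = w ∅ + φ (y ∅) ϖ`, `s = ε (-1) ^ n`.
By `sah_fix` some `τ σ1 ≠ 0`; `κ = τ' σ1 / τ σ1 ∈ ZMod p`, `Ω' = -s κ Ω`, `Ω ≠ 0` (`Eq1.lower`: the values at `∅` are in `k(t)`), so `y' ∅ - κ y ∅` is fixed by `Γ`; `sah_fix` gives `y' ∅ - κ y ∅ = y1 + m l`.
Apply `σ1` to `w' ∅ + s κ w ∅ + φ y1 ϖ + m l ϖ = - κ (1 + s) φ (y ∅) ϖ`, then an automorphism that moves `l`.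
-/

set_option linter.unusedSectionVars false

namespace Pool.Agent.ASel

open Polynomial Pool.Agent.Smith Finset

variable {p : ℕ} {k : Type} [Field k] [Fintype k] [hp : Fact p.Prime] [CharP k p]
  {A F : k[X]} {ϖ : RatFunc k} {ε : ℤ} {n : ℕ}

theorem as_zero {g y : RatFunc k} (h1 : ∀ v, av v g ≤ 2) (h2 : av (none : Pl k) g < 1)
    (h : y ^ p - y = g) : g = 0 := by
  refine eq_zero_of_small (fun v _ => ?_) h2
  have hy : av v y ≤ 1 := not_lt.1 fun hy => by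
    have e := wp_norm (p := p) (av_na v) (A := 1) (y := y) one_ne_zero (by
      rw [map_one]
      exact one_lt_pow₀ hy (Nat.sub_ne_zero_of_lt hp.out.one_lt))
    rw [div_one, map_one, div_one, h] at e
    obtain ⟨m, hm⟩ := av_disc v y fun h0 => by
      rw [h0, map_zero] at hy
      linarith
    have h3 : (2 : ℝ) ≤ av v y := by
      rw [hm] at hy ⊢
      exact (zpow_one _).symm.trans_le
        (zpow_le_zpow_right₀ one_le_two ((one_lt_zpow_iff_right₀ one_lt_two).1 hy))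
    have h4 := (pow_le_pow_left₀ zero_le_two h3 2).trans (pow_le_pow_right₀ hy.le hp.out.two_le)
    linarith [h1 v]
  rw [← h]
  refine PF_sub' ?_ hy
  rw [map_pow]
  exact pow_le_one₀ (AbsoluteValue.nonneg _ _) hy

theorem indep_pol {vv : Fin n → Pl k} (hi : Function.Injective vv) (h0 : ∀ i, vv i ≠ none)
    {c : Fin n → k[X]} (hc : ∀ i, (c i).degree < (plp (vv i)).degree) (hc0 : ∀ i, c i ≠ 0)
    (e : Fin n → ZMod p) (y : RatFunc k)
    (h : y ^ p - y = ∑ i, ((e i).val : RatFunc k) * pol (c i) (vv i)) : e = 0 := by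
  have key : ∀ v i (B : ℝ), av v (pol (c i) (vv i)) ≤ B →
      av v (((e i).val : RatFunc k) * pol (c i) (vv i)) ≤ B := fun v i B hB => by
    rw [map_mul]
    exact (mul_le_of_le_one_left (AbsoluteValue.nonneg _ _) (av_na v).apply_natCast_le_one).trans hB
  have h1 := as_zero (fun v => PF_sum zero_le_two fun i _ => key v i _ ((av_pol (h0 i) (hc i)).1 v))
    ((PF_sum (by norm_num) fun i _ => key none i _
      (PF_half' (av_pol (h0 i) (hc i)).2.2.1)).trans_lt two_inv_lt_one) h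
  funext i
  by_contra hne
  have h2 : ((e i).val : k) ≠ 0 := fun h2 => hne ((ZMod.val_eq_zero _).1
    (Nat.eq_zero_of_dvd_of_lt ((CharP.cast_eq_zero_iff k p _).1 h2) (ZMod.val_lt _)))
  have h3 := av_const (vv i) h2
  rw [map_natCast] at h3
  rw [← add_sum_erase _ _ (mem_univ i), add_eq_zero_iff_eq_neg] at h1
  have h4 := congrArg (av (vv i)) h1
  rw [map_mul, h3, one_mul, AbsoluteValue.map_neg] at h4
  refine not_le.2 ((av_pol (h0 i) (hc i)).2.2.2 (hc0 i)) (h4.trans_le (PF_sum zero_le_one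
    fun j hj => key _ j _ ((av_pol (h0 j) (hc j)).2.1 _ fun e => ?_)))
  exact ne_of_mem_erase hj (hi e).symm

theorem FNd_A (hT : Ty p A F ϖ ε) : pk (RatFunc k) A ≠ 0 ∧ pk (Kb k) A ≠ 0 :=
  have h : pk (RatFunc k) A ≠ 0 := PF_ne (ne_zero_of_dvd_ne_zero hT.F_ne hT.dvd)
  ⟨h, (map_ne_zero (algebraMap (RatFunc k) (Kb k))).2 h⟩

theorem FNd_l (hT : Ty p A F ϖ ε) {l : Kb k} (hl : l ^ (p - 1) = pk _ A) : l ≠ 0 := fun h =>
  (FNd_A hT).2 (by rw [← hl, h, zero_pow (Nat.sub_ne_zero_of_lt hp.out.one_lt)])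

theorem FNd_phi (hT : Ty p A F ϖ ε) {l : Kb k} (hl : l ^ (p - 1) = pk _ A) (m : ℕ) :
    ((m : Kb k) * l) ^ p / pk _ A = m * l := by
  rw [mul_pow, FEq_frob, Wp_pow (p := p) l, hl, ← mul_assoc, mul_div_cancel_right₀ _ (FNd_A hT).2]

theorem FNd_pk (σ : Gk k) : σ (pk _ A) = pk _ A := σ.commutes _

theorem FNd_act (hT : Ty p A F ϖ ε) {l : Kb k} (hl : l ^ (p - 1) = pk _ A) (σ : Gk k) :
    ∃ m : ℕ, σ l = m * l := by
  refine wp_ker hl (FNd_l hT hl) ?_
  have := congrArg σ (FNd_phi hT hl 1)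
  rwa [Nat.cast_one, one_mul, map_div₀, map_pow, FNd_pk, ← sub_eq_zero] at this

theorem sah_fix (hT : Ty p A F ϖ ε) {W : Fin n → Kb k} (hW : ASr p (RatFunc k) W) {l y : Kb k}
    (hl : l ^ (p - 1) = pk _ A) {a : RatFunc k} (hy : y ^ p / pk _ A - y = algebraMap _ _ a)
    (h : ∀ σ : Gk k, σ l = l → (∀ i, σ (W i) = W i) → σ y = y) :
    ∃ (m : ℕ) (y1 : RatFunc k), y = algebraMap _ _ y1 + m * l := by
  have key : ∀ (σ τ : Gk k) (x : Kb k), (τ⁻¹ * σ) x = x ↔ σ x = τ x := fun σ τ x => by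
    rw [AlgEquiv.mul_apply, AlgEquiv.aut_inv, AlgEquiv.symm_apply_eq]
  have hA := (FNd_A hT).2
  obtain ⟨m, hm⟩ := sah p (⊤ : Subgroup (Gk k)) (l := l) (y := y) (fun σ _ => FNd_act hT hl σ)
    (fun σ _ => wp_ker hl (FNd_l hT hl) (by
      have := congrArg σ hy
      rw [map_sub, map_div₀, map_pow, FNd_pk, σ.commutes] at this
      rw [Wp_sub, this, hy, sub_self]))
    (fun σ _ τ _ => (key _ _ _).1 (h _ ((key _ _ _).2 (by
      obtain ⟨m, hm⟩ := FNd_act hT hl σ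
      obtain ⟨m', hm'⟩ := FNd_act hT hl τ
      simp only [AlgEquiv.mul_apply, hm, hm', map_mul, map_natCast]
      ring)) fun i => (key _ _ _).2 (by
      obtain ⟨r, hr⟩ := exists_rho hW σ
      obtain ⟨r', hr'⟩ := exists_rho hW τ
      simp only [AlgEquiv.mul_apply, hr, hr', map_add, map_natCast]
      ring)))
    ((move_root hW hl (FNd_A hT).1 hT.nr).imp fun γ hγ => ⟨trivial, hγ.2⟩)
  obtain ⟨y1, hy1⟩ := om_fix (sub_mem (om_wp (om_alg _) hA (om_alg a) hy)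
    (om_wp (om_alg _) hA (zero_mem _) (sub_eq_zero.2 (FNd_phi hT hl m)))) fun σ => hm σ trivial
  exact ⟨m, y1, by rw [hy1, sub_add_cancel]⟩

theorem FNd_dif (hT : Ty p A F ϖ ε) {l : Kb k} (hl : l ^ (p - 1) = pk _ A) {W : Fin n → Kb k}
    {a y : Finset (Fin n) → Kb k} (ha : a ∈ Eq1 p (RatFunc k) W) (hy : Sol p A a y) {σ : Gk k}
    {χ : Fin n → ZMod p} (hσ : ∀ i, σ (W i) = W i + ((χ i).val : Kb k)) (I : Finset (Fin n)) :
    ∃ m : ℕ, σ (y I) - sh (fun i => -((χ i).val : Kb k)) y I = m * l := by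
  refine wp_ker hl (FNd_l hT hl) ?_
  have h1 := congrArg σ (hy I)
  rw [map_sub, map_div₀, map_pow, FNd_pk, ha.2 σ χ hσ] at h1
  have h2 := map_sh (frobenius (Kb k) p) (fun i => -((χ i).val : Kb k)) y I
  simp only [frobenius_def, FEq_neg] at h2
  rw [Wp_sub, h1, h2, div_eq_mul_inv, ← sh_mul, ← Pi.sub_apply (sh _ _) (sh _ y), ← sh_sub,
    sub_eq_zero]
  congr 1
  funext J
  rw [← hy J, div_eq_mul_inv]
  rfl

theorem FNd_fix {W : Fin n → Kb k} {a : Finset (Fin n) → Kb k} (ha : a ∈ Eq1 p (RatFunc k) W)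
    {σ : Gk k} (hσ : ∀ i, σ (W i) = W i) (I : Finset (Fin n)) : σ (a I) = a I := by
  rw [ha.2 σ 0 (by simpa using hσ)]
  simp only [Pi.zero_apply, ZMod.val_zero, Nat.cast_zero, neg_zero]
  exact congrFun (sh_zero a) I

theorem FNd_dif0 (hT : Ty p A F ϖ ε) {l : Kb k} (hl : l ^ (p - 1) = pk _ A) {W : Fin n → Kb k}
    {a y : Finset (Fin n) → Kb k} (ha : a ∈ Eq1 p (RatFunc k) W) (hy : Sol p A a y) {σ : Gk k}
    (hσ : ∀ i, σ (W i) = W i) (I : Finset (Fin n)) : ∃ m : ℕ, σ (y I) - y I = m * l := by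
  have h := FNd_dif hT hl ha hy (σ := σ) (χ := 0) (by simpa using hσ) I
  simp only [Pi.zero_apply, ZMod.val_zero, Nat.cast_zero, neg_zero] at h
  rwa [show sh (fun _ => (0 : Kb k)) y = y from sh_zero y] at h

theorem FNd_sh (hT : Ty p A F ϖ ε) {l : Kb k} (hl : l ^ (p - 1) = pk _ A) {W : Fin n → Kb k}
    {a y : Finset (Fin n) → Kb k} (ha : a ∈ Eq1 p (RatFunc k) W) (hy : Sol p A a y) {γ σ τ : Gk k}
    {χ : Fin n → ZMod p} (hγ : ∀ i, γ (W i) = W i + ((χ i).val : Kb k)) {m : ℕ} (hm : γ l = m * l)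
    (h1 : τ l = l) (h2 : ∀ i, σ (W i) = W i) (e : ∀ x, γ (σ x) = τ (γ x)) :
    sh (fun i => -((χ i).val : Kb k)) (fun I => τ (y I) - y I) = m • fun I => σ (y I) - y I := by
  funext I
  obtain ⟨m1, e1⟩ := FNd_dif hT hl ha hy hγ I
  obtain ⟨m2, e2⟩ := FNd_dif0 hT hl ha hy h2 I
  have e3 := congrArg γ e2
  have e4 := congrArg τ e1
  have e5 := map_sh (τ : Kb k →+* Kb k) (fun i => -((χ i).val : Kb k)) y I
  simp only [map_neg, map_natCast, RingHom.coe_coe] at e5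
  rw [map_sub, map_mul, map_natCast, hm, e] at e3
  rw [map_sub, map_mul, map_natCast, h1, e5] at e4
  refine (congrFun (sh_sub _ (fun I => τ (y I)) y) I).trans ?_
  rw [Pi.sub_apply, Pi.smul_apply, nsmul_eq_mul, e2]
  linear_combination e3 + e1 - e4

/-- the differences under the automorphisms that fix `l` and the roots -/
theorem FNd_top (hT : Ty p A F ϖ ε) {l : Kb k} (hl : l ^ (p - 1) = pk _ A) {W : Fin n → Kb k}
    {h : Fin n → RatFunc k} (hW : ∀ i, W i ^ p - W i = algebraMap _ _ (h i))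
    (hi : ∀ (e : Fin n → ZMod p) (y : RatFunc k),
      y ^ p - y = ∑ i, ((e i).val : RatFunc k) * h i → e = 0)
    {a a' y y' : Finset (Fin n) → Kb k} (ha : a ∈ Eq1 p (RatFunc k) W)
    (ha' : a' ∈ Eq1 p (RatFunc k) W) (hy : Sol p A a y) (hy' : Sol p A a' y') {σ : Gk k}
    (h1 : σ l = l) (h2 : ∀ i, σ (W i) = W i) : ∃ ρ : Gk k, (∀ i, ρ (W i) = W i) ∧
      (fun I => ρ (y I)) = y + dl n (σ (y ∅) - y ∅) ∧
      (fun I => ρ (y' I)) = y' + dl n (σ (y' ∅) - y' ∅) := by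
  have fx : ∀ {a y : Finset (Fin n) → Kb k}, a ∈ Eq1 p (RatFunc k) W → Sol p A a y → ∀ {σ τ : Gk k},
      σ l = l → (∀ i, τ (W i) = W i) → ∀ I, σ (τ (y I)) - σ (y I) = τ (y I) - y I :=
    fun ha hy σ τ h1 h2 I => by
      obtain ⟨m, hm⟩ := FNd_dif0 hT hl ha hy h2 I
      rw [← map_sub, hm, map_mul, map_natCast, h1]
  let V : AddSubgroup ((Finset (Fin n) → Kb k) × (Finset (Fin n) → Kb k)) :=
    { carrier := {x | ∃ σ : Gk k, σ l = l ∧ (∀ i, σ (W i) = W i) ∧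
        x = (fun I => σ (y I) - y I, fun I => σ (y' I) - y' I)}
      zero_mem' := ⟨1, rfl, fun _ => rfl, Prod.ext (funext fun _ => (sub_self _).symm)
        (funext fun _ => (sub_self _).symm)⟩
      add_mem' := by
        rintro _ _ ⟨σ, s1, s2, rfl⟩ ⟨τ, t1, t2, rfl⟩
        refine ⟨σ * τ, by rw [AlgEquiv.mul_apply, t1, s1],
          fun i => by rw [AlgEquiv.mul_apply, t2, s2],
          Prod.ext (funext fun I => ?_) (funext fun I => ?_)⟩
        · show σ (y I) - y I + (τ (y I) - y I) = σ (τ (y I)) - y I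
          linear_combination -fx ha hy s1 t2 I
        · show σ (y' I) - y' I + (τ (y' I) - y' I) = σ (τ (y' I)) - y' I
          linear_combination -fx ha' hy' s1 t2 I
      neg_mem' := by
        rintro _ ⟨σ, s1, s2, rfl⟩
        have t1 : σ.symm l = l := σ.symm_apply_eq.2 s1.symm
        refine ⟨σ.symm, t1, fun i => σ.symm_apply_eq.2 (s2 i).symm,
          Prod.ext (funext fun I => ?_) (funext fun I => ?_)⟩
        · have := fx ha hy t1 s2 I
          rw [σ.symm_apply_apply] at this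
          show -(σ (y I) - y I) = σ.symm (y I) - y I
          linear_combination this
        · have := fx ha' hy' t1 s2 I
          rw [σ.symm_apply_apply] at this
          show -(σ (y' I) - y' I) = σ.symm (y' I) - y' I
          linear_combination this }
  obtain ⟨ρ, -, r2, r3⟩ := dl_mem V (x := (fun I => σ (y I) - y I, fun I => σ (y' I) - y' I)) (by
    rintro i _ ⟨τ, t1, t2, rfl⟩
    obtain ⟨γ, hγ⟩ := as_surj h W hW hi (-Pi.single i 1)
    obtain ⟨m, hm⟩ := FNd_act hT hl γ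
    have hc : (fun j => -(((-Pi.single i 1 : Fin n → ZMod p) j).val : Kb k)) = Pi.single i 1 :=
      funext fun j => by
        rw [FEq_val, Pi.neg_apply, map_neg, neg_neg]
        by_cases e : j = i
        · rw [e, Pi.single_eq_same, Pi.single_eq_same, map_one]
        · rw [Pi.single_eq_of_ne e, Pi.single_eq_of_ne e, map_zero]
    have e : ∀ x, γ ((γ⁻¹ * τ * γ) x) = τ (γ x) := fun x => γ.apply_symm_apply _
    have s2 : ∀ j, (γ⁻¹ * τ * γ) (W j) = W j := fun j => γ.injective (by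
      rw [e, hγ, map_add, map_natCast, t2])
    rw [← hc, FNd_sh hT hl ha hy hγ hm t1 s2 e, FNd_sh hT hl ha' hy' hγ hm t1 s2 e]
    exact V.nsmul_mem (x := (_, _)) ⟨γ⁻¹ * τ * γ, γ.injective (by
      rw [e, hm, map_mul, map_natCast, t1]), s2, rfl⟩ m) ⟨σ, h1, h2, rfl⟩
  exact ⟨ρ, r2, eq_add_of_sub_eq' (congrArg Prod.fst r3).symm,
    eq_add_of_sub_eq' (congrArg Prod.snd r3).symm⟩

theorem nondeg (hT : Ty p A F ϖ ε) (hn : 0 < n) {W : Fin n → Kb k} {h : Fin n → RatFunc k}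
    (hW : ∀ i, W i ^ p - W i = algebraMap _ _ (h i))
    (hi : ∀ (e : Fin n → ZMod p) (y : RatFunc k),
      y ^ p - y = ∑ i, ((e i).val : RatFunc k) * h i → e = 0)
    {a w a' w' y y' : Finset (Fin n) → Kb k} (ha : a ∈ Eq1 p (RatFunc k) W)
    (hw : w ∈ Eq1 p (RatFunc k) W) (ha' : a' ∈ Eq1 p (RatFunc k) W) (hw' : w' ∈ Eq1 p (RatFunc k) W)
    (hy : Sol p A a y) (hy' : Sol p A a' y') (hg : Gd p A ϖ (a ∅) (w ∅)) {η : RatFunc k}
    (hη : algebraMap _ _ η = xiT p (pk (Kb k) A) ε (algebraMap _ _ ϖ) y w y' w') :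
    Bd p A ϖ (ε * (-1) ^ n) (a ∅) (w ∅) (a' ∅) (w' ∅) := by
  obtain ⟨l, hl⟩ := IsAlgClosed.exists_pow_nat_eq (pk (Kb k) A) (Nat.sub_pos_of_lt hp.out.one_lt)
  have hWr : ASr p (RatFunc k) W := fun i => ⟨h i, hW i⟩
  have hphi := FNd_phi hT hl
  have low : ∀ {f : Finset (Fin n) → Kb k}, f ∈ Eq1 p (RatFunc k) W →
      ∃ f0 : RatFunc k, algebraMap _ _ f0 = f ∅ := fun hf =>
    Eq1.lower hWr hf ∅ fun J hJ => absurd hJ (not_ssubset_empty J)
  obtain ⟨a0, ea⟩ := low ha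
  obtain ⟨a0', ea'⟩ := low ha'
  obtain ⟨w0, ew⟩ := low hw
  obtain ⟨w0', ew'⟩ := low hw'
  have alg : ∀ z : RatFunc k, algebraMap _ (Kb k) (z ^ p / pk _ A) =
      algebraMap _ _ z ^ p / pk _ A := fun z => by
    rw [map_div₀, map_pow]
    rfl
  generalize hs : ε * (-1) ^ n = s
  have s1 : (s : Kb k) * s = 1 := by
    have : s * s = 1 := by
      rw [← hs, mul_mul_mul_comm, ← mul_pow]
      rcases hT.sgn with e | e <;> simp [e]
    exact_mod_cast congrArg (Int.cast : ℤ → Kb k) this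
  have key : ∀ σ : Gk k, σ l = l → (∀ i, σ (W i) = W i) →
      (σ (y ∅) - y ∅) * (w' ∅ + y' ∅ ^ p / pk _ A * algebraMap _ _ ϖ) +
        s * ((σ (y' ∅) - y' ∅) * (w ∅ + y ∅ ^ p / pk _ A * algebraMap _ _ ϖ)) = 0 := by
    intro σ h1 h2
    obtain ⟨ρ, r1, r2, r3⟩ := FNd_top hT hl hW hi ha ha' hy hy' h1 h2
    obtain ⟨m, hm⟩ := FNd_dif0 hT hl ha hy h2 ∅
    obtain ⟨m', hm'⟩ := FNd_dif0 hT hl ha' hy' h2 ∅
    have e1 := map_xiT (ρ : Kb k →+* Kb k) p (pk (Kb k) A) ε (algebraMap _ _ ϖ) y w y' w'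
    simp only [RingHom.coe_coe, ← hη, AlgEquiv.commutes, FNd_pk, FNd_fix hw r1, FNd_fix hw' r1]
      at e1
    rw [r2, r3, xi_dl (by rw [← map_zsmul, hT.eps]) hn y w y' w' (by rw [hm, hphi])
      (by rw [hm', hphi]), ← hη, left_eq_add, zsmul_eq_mul] at e1
    have e2 : ((-1 : Kb k) ^ n) * (-1) ^ n = 1 := by rw [← mul_pow, neg_mul_neg, one_mul, one_pow]
    rw [← hs]
    push_cast
    linear_combination (-1) ^ n * e1 - (σ (y ∅) - y ∅) *
      (w' ∅ + y' ∅ ^ p / pk _ A * algebraMap _ _ ϖ) * e2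
  have mv : ∀ {a y : Finset (Fin n) → Kb k}, a ∈ Eq1 p (RatFunc k) W → Sol p A a y → ∀ σ : Gk k,
      (∀ i, σ (W i) = W i) → σ (y ∅ ^ p / pk _ A) = y ∅ ^ p / pk _ A + (σ (y ∅) - y ∅) :=
    fun ha hy σ h2 => by
      have e1 := congrArg σ (hy ∅)
      rw [map_sub, FNd_fix ha h2, ← hy ∅] at e1
      linear_combination e1
  obtain ⟨σ1, t1, t2, t3⟩ : ∃ σ : Gk k, σ l = l ∧ (∀ i, σ (W i) = W i) ∧ σ (y ∅) ≠ y ∅ := by
    by_contra hc
    push Not at hc
    obtain ⟨m, y1, e⟩ := sah_fix hT hWr hl ((hy ∅).trans ea.symm) hc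
    refine hg.1 y1 ?_
    rw [← hy ∅, e, Wp_add, hphi, sub_self, add_zero, map_sub, alg]
  replace t3 := sub_ne_zero.2 t3
  obtain ⟨m1, e1⟩ := FNd_dif0 hT hl ha hy t2 ∅
  obtain ⟨m2, e2⟩ := FNd_dif0 hT hl ha' hy' t2 ∅
  obtain ⟨κ, hκ⟩ : ∃ κ : ZMod p, σ1 (y' ∅) - y' ∅ = κ.val * (σ1 (y ∅) - y ∅) := by
    refine ⟨(m2 : ZMod p) / m1, ?_⟩
    rw [FEq_val, map_div₀, map_natCast, map_natCast, e2, e1, ← mul_assoc,
      div_mul_cancel₀ _ (left_ne_zero_of_mul (e1 ▸ t3))]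
  have hΩ : w' ∅ + y' ∅ ^ p / pk _ A * algebraMap _ _ ϖ =
      -(s * κ.val * (w ∅ + y ∅ ^ p / pk _ A * algebraMap _ _ ϖ)) := by
    refine mul_left_cancel₀ t3 ?_
    have := key σ1 t1 t2
    rw [hκ] at this
    linear_combination this
  have hΩ0 : w ∅ + y ∅ ^ p / pk _ A * algebraMap _ _ ϖ ≠ 0 := fun h0 => by
    have h1 := congrArg σ1 h0
    rw [map_add, map_mul, mv ha hy σ1 t2, FNd_fix hw t2, σ1.commutes, map_zero] at h1
    have h2 : algebraMap _ (Kb k) ϖ = 0 := mul_left_cancel₀ t3 (by linear_combination h1 - h0)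
    rw [h2, mul_zero, add_zero] at h0
    exact hg.2 ((map_eq_zero _).1 h2) h0
  have hz : (y' ∅ - κ.val * y ∅) ^ p / pk _ A = y' ∅ ^ p / pk _ A - κ.val * (y ∅ ^ p / pk _ A) := by
    rw [sub_pow_char, mul_pow, FEq_frob]
    ring
  obtain ⟨m, y1, e⟩ := sah_fix hT hWr hl (y := y' ∅ - κ.val * y ∅) (a := a0' - κ.val * a0) (by
    rw [hz, map_sub, map_mul, map_natCast, ea, ea', ← hy ∅, ← hy' ∅]
    ring) fun σ h1 h2 => by
      have e3 := key σ h1 h2
      rw [hΩ] at e3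
      rw [map_sub, map_mul, map_natCast]
      refine mul_right_cancel₀ hΩ0 ?_
      linear_combination s * e3 - (σ (y' ∅) - y' ∅ - κ.val * (σ (y ∅) - y ∅)) *
        (w ∅ + y ∅ ^ p / pk _ A * algebraMap _ _ ϖ) * s1
  rw [e, add_pow_char, add_div, hphi] at hz
  have h3 : (κ.val : Kb k) * (1 + s) * algebraMap _ _ ϖ = 0 := by
    have h1 := congrArg σ1 hΩ
    simp only [map_add, map_mul, map_neg, map_intCast, map_natCast, mv ha hy σ1 t2,
      mv ha' hy' σ1 t2, FNd_fix hw t2, FNd_fix hw' t2, AlgEquiv.commutes, hκ] at h1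
    exact mul_left_cancel₀ t3 (by linear_combination h1 - hΩ)
  have h4 : w' ∅ + s * κ.val * w ∅ + algebraMap _ _ (y1 ^ p / pk _ A * ϖ) +
      m * algebraMap _ _ ϖ * l = 0 := by
    rw [map_mul, alg]
    linear_combination hΩ + algebraMap _ (Kb k) ϖ * hz - y ∅ ^ p / pk _ A * h3
  obtain ⟨δ, -, hδ⟩ := move_root hWr hl (FNd_A hT).1 hT.nr
  have h5 : (m : Kb k) * algebraMap _ _ ϖ = 0 := by
    have h1 := congrArg δ h4
    rw [← ew, ← ew'] at h1 h4
    simp only [map_add, map_mul δ, map_intCast, map_natCast, AlgEquiv.commutes, map_zero] at h1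
    exact mul_right_cancel₀ (sub_ne_zero.2 hδ) (by linear_combination h1 - h4)
  refine ⟨κ, y1, ?_, ?_, (algebraMap _ (Kb k)).injective ?_⟩
  · rw [map_sub, alg, ← hy ∅, ← hy' ∅]
    linear_combination -hz - e
  · linear_combination h4 - l * h5
  · simpa only [map_mul, map_add, map_one, map_intCast, map_natCast, map_zero] using h3

end Pool.Agent.ASel
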