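import Pool.Agent.Work.MP_60d5ce_nt.AS.FD

/-!
# The reciprocity law for the triple symbol  (AS, function field side)

PLAN.  `hasse'` gives `η0` with `η0 - C η0 = θ`, `η0 - ξ v` integral on `Nf`, `η0` integral on `InU` (residues of `θ` vanish everywhere: `res_car`, `res_int`).  For `h = c / P` and any `s` with `s ^ p - s = h` on `Sf`:
`res (s θ) = res (s η0) - res (s ^ p η0) = - res (h η0)` (`cL_frob`, `res_car`, `alg_cK`), `res_sum` for `h η0`, and `res_int` at the primes of `Nf` other than `P`, so the displayed sum is `res_P (h (η0 - ξ P))`.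
The functional `c ↦ res_P (c / P * f)`, `f = η0 - ξ P`, on the `ZMod p`-space of the `c` of small degree vanishes on the common kernel of the functionals
`c ↦ res_v (c / P / u_v)`, `v ∈ Sf` finite, so is a combination of them (`mem_span_of_iInf_ker_le_ker`); `res_v (h / u_v) = - res_P (h / u_v)` (`res_sum`: `1 / uu v = P_v' / P_v` is regular at the other finite
places, `h / uu v` is regular at infinity); `res_nd_pol`; `η = η0 + ∑ m v / uu v` (`car_inv_uu`).
-/

set_option linter.unusedSectionVars false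

namespace Pool.Agent.ASel

open Polynomial Pool.Agent.Smith Finset

variable {p : ℕ} {k : Type} [Field k] [Fintype k] [hp : Fact p.Prime] [CharP k p] {A F b : k[X]}

theorem FRec_span0 {V ι : Type} [AddCommGroup V] [Module (ZMod p) V] (S : Finset ι)
    (L : ι → V →+ ZMod p) (K : V →+ ZMod p) (h : ∀ x, (∀ i ∈ S, L i x = 0) → K x = 0) :
    ∃ m : ι → ℕ, ∀ x, K x = ∑ i ∈ S, m i • L i x := by
  classical
  have h0 := mem_span_of_iInf_ker_le_ker (𝕜 := ZMod p) (E := V)
    (L := fun i : S => (L i).toZModLinearMap p) (K := K.toZModLinearMap p) fun x hx =>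
      h x fun i hi => (Submodule.mem_iInf _).1 hx ⟨i, hi⟩
  rw [Submodule.mem_span_range_iff_exists_fun] at h0
  obtain ⟨c, hc⟩ := h0
  refine ⟨fun i => if hi : i ∈ S then (c ⟨i, hi⟩).val else 0, fun x => ?_⟩
  have h1 := LinearMap.congr_fun hc x
  rw [LinearMap.sum_apply] at h1
  rw [← Finset.sum_coe_sort]
  refine h1.symm.trans (Finset.sum_congr rfl fun i _ => ?_)
  beta_reduce
  rw [dif_pos i.2, nsmul_eq_mul, ZMod.natCast_zmod_val]
  rfl

theorem FRec_span {V ι : Type} [AddCommGroup V] (hV : ∀ x : V, p • x = 0) (S : Finset ι)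
    (L : ι → V →+ ZMod p) (K : V →+ ZMod p) (h : ∀ x, (∀ i ∈ S, L i x = 0) → K x = 0) :
    ∃ m : ι → ℕ, ∀ x, K x = ∑ i ∈ S, m i • L i x :=
  @FRec_span0 p hp V ι _ (AddCommGroup.zmodModule hV) S L K h

theorem FRec_fin {v : Pl k} (hv : v ≠ none) {x y : RatFunc k} (hx : av v x ≤ 1) (hy : av v y ≤ 1) :
    av v (uu v * (x * y)) < 1 := by
  rw [map_mul, map_mul, av_uu, if_neg hv]
  have := mul_le_one₀ hx ((av v).nonneg _) hy
  linarith

theorem FRec_two {P v : Pl k} (hP : P ≠ none) (hv : v ≠ none) (hne : v ≠ P) {c : k[X]}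
    (hc : c.degree < (plp P).degree) :
    res p v (algebraMap _ _ (pk (RatFunc k) c / pk _ (plp P)) / uL v) +
      res p P (algebraMap _ _ (pk (RatFunc k) c / pk _ (plp P) * (((1 : ℕ) : RatFunc k) / uu v))) = 0 := by
  classical
  obtain ⟨a1, a2, -⟩ := Hasse_frac hP hc
  obtain ⟨b1, b2⟩ := Hasse_uu hv 1
  have h := res_sum (p := p) (pk (RatFunc k) c / pk _ (plp P) * (((1 : ℕ) : RatFunc k) / uu v)) {v, P}
    fun w hw => by
      rw [mem_insert, mem_singleton, not_or] at hw
      by_cases h0 : w = none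
      · subst h0
        rw [map_mul, map_mul, av_uu, if_pos rfl]
        have := mul_le_mul a2 b2 ((av _).nonneg _) (by norm_num)
        change 2 * (av none (algebraMap k[X] (RatFunc k) c / algebraMap k[X] _ (plp P)) * _) < 1
        linarith
      · exact FRec_fin h0 (a1 w h0 hw.2) (b1 w h0 hw.1)
  rw [sum_pair hne] at h
  rwa [map_mul (algebraMap (RatFunc k) (Lv v)),
    map_div₀ (algebraMap (RatFunc k) (Lv v)) ((1 : ℕ) : RatFunc k), map_natCast, Nat.cast_one (R := Lv v),
    mul_one_div] at h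

theorem FRec_as {v : Pl k} {η θ h : RatFunc k} (hη : η - cK p η = θ) {s : Lv v}
    (hs : s ^ p - s = algebraMap _ _ h) :
    res p v (s * algebraMap _ _ θ) = -res p v (algebraMap _ _ (h * η)) := by
  rw [← hη, map_sub, mul_sub, alg_cK, ← cL_frob, map_sub, res_car,
    map_mul (algebraMap (RatFunc k) (Lv v)), ← hs, sub_mul, map_sub, neg_sub]

theorem detect (hF : F ≠ 0) (hb : b ≠ 0) (hc : IsCoprime b F) {θ : RatFunc k} (ξ : ∀ v : Pl k, Lv v)
    (h1 : ∀ v, InS p A F b v → res p v (algebraMap _ _ θ) = 0)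
    (h2 : ∀ v, InNa p A b v → ξ v - cL p v (ξ v) = algebraMap _ _ θ)
    (h3 : ∀ v, InU F b v → av v θ ≤ 1) {P : Pl k} (hP : InNa p A b P)
    (H : ∀ c : k[X], c.degree < (plp P).degree →
      (∀ v, InS p A F b v → v ≠ none →
        res p v (algebraMap _ _ (pk (RatFunc k) c / pk _ (plp P)) / uL v) = 0) →
      ∃ s : ∀ v : Pl k, Lv v, (∀ v, InS p A F b v →
          s v ^ p - s v = algebraMap _ _ (pk (RatFunc k) c / pk _ (plp P))) ∧
        ∑ v ∈ Sf p A F b, res p v (s v * algebraMap _ _ θ) -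
          ∑ v ∈ Nf p A b, res p v (algebraMap _ _ (pk (RatFunc k) c / pk _ (plp P)) * ξ v) = 0) :
    ∃ η : RatFunc k, η - cK p η = θ ∧ (∀ v, InU F b v → av v η ≤ 1) ∧
      ‖algebraMap _ _ η - ξ P‖ < 1 := by
  classical
  have hU : ∀ v, v ∉ Sf p A F b → v ∉ Nf p A b → InU F b v := fun v a1 a2 =>
    inU_iff.2 ⟨fun h => a1 ((mem_Sf hF hb).2 h), fun h => a2 ((mem_Nf hb).2 h)⟩
  have hres : ∀ v : Pl k, res p v (algebraMap _ _ θ) = 0 := fun v => by
    by_cases a1 : InS p A F b v
    · exact h1 v a1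
    by_cases a2 : InNa p A b v
    · rw [← h2 v a2, map_sub, res_car, sub_self]
    · have a3 : InU F b v := inU_iff.2 ⟨a1, a2⟩
      exact res_int a3.1 (by rw [norm_alg]; exact h3 v a3)
  obtain ⟨η, e1, e2, e3⟩ := hasse' hres (Sf p A F b) (Nf p A b)
    (fun h => ((mem_Nf hb).1 h).1 rfl) (fun v a1 a2 _ => h3 v (hU v a1 a2)) ξ
    fun v hv => h2 v ((mem_Nf hb).1 hv)
  have hPN : P ∈ Nf p A b := (mem_Nf hb).2 hP
  have hdis : Disjoint (Sf p A F b) (Nf p A b) := disjoint_left.2 fun v a1 a2 =>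
    ((mem_Nf hb).1 a2).not_S hc ((mem_Sf hF hb).1 a1)
  have hPS : P ∉ (Sf p A F b).erase none := fun h =>
    disjoint_left.1 hdis (mem_of_mem_erase h) hPN
  have key : ∀ c : k[X], c.degree < (plp P).degree → (∀ v ∈ (Sf p A F b).erase none,
      res p v (algebraMap _ _ (pk (RatFunc k) c / pk _ (plp P)) / uL v) = 0) →
      res p P (algebraMap _ _ (pk (RatFunc k) c / pk _ (plp P)) * (algebraMap _ _ η - ξ P)) = 0 := by
    intro c hd h0
    obtain ⟨s, s1, s2⟩ := H c hd fun v a1 a2 => h0 v (mem_erase.2 ⟨a2, (mem_Sf hF hb).2 a1⟩)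
    obtain ⟨a1, -, -⟩ := Hasse_frac hP.1 hd
    have k1 := res_sum (p := p) (pk (RatFunc k) c / pk _ (plp P) * η) (Sf p A F b ∪ Nf p A b)
      fun v hv => by
        rw [mem_union, not_or] at hv
        have h0 := (hU v hv.1 hv.2).1
        exact FRec_fin h0 (a1 v h0 fun e => hv.2 (e ▸ hPN)) (e3 v hv.1 hv.2 h0)
    rw [sum_union hdis] at k1
    rw [sum_congr rfl fun v hv => FRec_as e1 (s1 v ((mem_Sf hF hb).1 hv)), sum_neg_distrib,
      neg_eq_of_add_eq_zero_right k1, ← sum_sub_distrib, sum_eq_single_of_mem P hPN] at s2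
    · rwa [mul_sub, map_sub, ← map_mul]
    · intro v hv hne
      have h0 := ((mem_Nf hb).1 hv).1
      rw [← map_sub, map_mul, ← mul_sub]
      refine res_int h0 ?_
      rw [norm_mul, norm_alg]
      exact mul_le_one₀ (a1 v h0 hne) (norm_nonneg _) (e2 v hv)
  have hdeg : ∀ c : k[X], c ∈ degreeLT k (plp P).natDegree ↔ c.degree < (plp P).degree := fun c => by
    rw [mem_degreeLT, degree_eq_natDegree (PF_monic P).ne_zero]
  obtain ⟨m, hm⟩ := FRec_span (p := p) (V := degreeLT k (plp P).natDegree)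
    (fun x => Subtype.ext (by simp)) ((Sf p A F b).erase none)
    (fun v => AddMonoidHom.mk' (fun c =>
      res p v (algebraMap _ _ (pk (RatFunc k) c.1 / pk _ (plp P)) / uL v)) fun x y => by
        simp only [Submodule.coe_add, map_add, add_div])
    (AddMonoidHom.mk' (fun c => res p P (algebraMap _ _ (pk (RatFunc k) c.1 / pk _ (plp P)) *
      (algebraMap _ _ η - ξ P))) fun x y => by
        simp only [Submodule.coe_add, map_add, add_div, add_mul])
    fun x hx => key x.1 ((hdeg _).1 x.2) hx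
  have h0 : none ∉ (Sf p A F b).erase none := notMem_erase _ _
  refine ⟨η + ∑ v ∈ (Sf p A F b).erase none, (m v : RatFunc k) / uu v, ?_, fun v hv => ?_, ?_⟩
  · rw [map_add, Hasse_fix, add_sub_add_right_eq_sub, e1]
  · obtain ⟨a1, a2⟩ := (inU_iff (p := p) (A := A)).1 hv
    have a3 : v ∉ Sf p A F b := fun h => a1 ((mem_Sf hF hb).1 h)
    exact Hasse_add (e3 v a3 (fun h => a2 ((mem_Nf hb).1 h)) hv.1)
      (Hasse_off h0 m hv.1 fun h => a3 (mem_of_mem_erase h))
  · rw [map_add, add_sub_right_comm]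
    refine res_nd_pol (p := p) hP.1
      (PF_add (e2 P hPN) (by rw [norm_alg]; exact Hasse_off h0 m hP.1 hPS)) fun c hd => ?_
    have e4 : pk (Lv P) c / pk (Lv P) (plp P) =
        algebraMap _ _ (pk (RatFunc k) c / pk _ (plp P)) := by
      rw [map_div₀]
      rfl
    have k1 := hm ⟨c, (hdeg c).2 hd⟩
    simp only [AddMonoidHom.mk'_apply] at k1
    rw [e4, mul_add, map_add, k1, ← map_mul, mul_sum, map_sum, map_sum, ← sum_add_distrib]
    refine sum_eq_zero fun v hv => ?_
    have k2 := FRec_two (p := p) hP.1 (mem_erase.1 hv).1 (fun e => hPS (e ▸ hv)) hd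
    have e5 : pk (RatFunc k) c / pk _ (plp P) * ((m v : RatFunc k) / uu v) =
        m v • (pk (RatFunc k) c / pk _ (plp P) * (((1 : ℕ) : RatFunc k) / uu v)) := by
      rw [nsmul_eq_mul]
      push_cast
      ring
    rw [e5, map_nsmul, map_nsmul, ← nsmul_add, k2, nsmul_zero]

end Pool.Agent.ASel
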