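import Pool.Agent.Work.MP_60d5ce_nt.AS.FC

/-!
# The top coefficient of the pairing  (AS, function field side)

PLAN.  Let `Θ ∈ k(t)` be the element with image `thT a1 w1 a' w'` (`Eq1.tp_mem`); it is regular at `InU` (`tp_le`, `Ty.int`), so `∑ v ∈ Sf ∪ Nf, res Θ = 0` (`res_sum`, `int_iff`, `inU_iff`).
At `v ∈ Sf`: the terms with `D.P` vanish by `LtD.iso` (`D1_eq_zero`), `∑ (-1) ^ card * thL (lc (xc I)) (lc (x' Iᶜ))` has the image `thT (a1 - WJ a) … = Θ - s θ` (`thT_eq_sum`, `thT_sub_mul`,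
`map_thT`, injectivity of `algebraMap`; `xc I ∈ SplG` because `emb v WJ` is in `Lv v`).  At `v ∈ Nf`: `res ∘ rt` is additive, the signed sum is the left side of `na_id` (with `C = cM p v`, `S = Om`), and `z` is the image of some `z0 ∈ Lv v`
(`Eq1.tp_mem` over `Lv v`, `Eq1.phi`, `Eq1.mul_alg`, `Eq1.emb`), so `rt` gives `Θ + h ξ - (z0 - cL z0)` (`alg_cL`, `rt_alg`, `res_car`).
-/

set_option linter.unusedSectionVars false

namespace Pool.Agent.ASel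

open Polynomial Pool.Agent.Smith Finset

variable {p : ℕ} {k : Type} [Field k] [Fintype k] [hp : Fact p.Prime] [CharP k p]
  {A F b : k[X]} {n0 : ℕ} {d ϖ : RatFunc k} {ε : ℤ}

theorem FT1_th {K M : Type} [Field K] [Field M] [Algebra K M] [CharP K p] [CharP M p]
    [IsAlgClosure K M] {n : ℕ} {W : Fin n → M} (hW : ASr p K W) (ε : ℤ) (ϖ : K)
    {a w a' w' : Finset (Fin n) → M} (ha : a ∈ Eq1 p K W) (hw : w ∈ Eq1 p K W)
    (ha' : a' ∈ Eq1 p K W) (hw' : w' ∈ Eq1 p K W) :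
    ∃ Θ : K, algebraMap K M Θ = thT ε (algebraMap K M ϖ) a w a' w' := by
  obtain ⟨t1, h1⟩ := Eq1.tp_mem hW ha hw'
  obtain ⟨t2, h2⟩ := Eq1.tp_mem hW hw ha'
  obtain ⟨t3, h3⟩ := Eq1.tp_mem hW ha ha'
  exact ⟨t1 + ε • t2 + t3 * ϖ, by rw [map_add, map_add, map_zsmul, map_mul, h1, h2, h3, thT]⟩

theorem FT1_sgn {M : Type} [Field M] (r : M →+ ZMod p) (c : ℕ) (t : M) :
    (-1) ^ c * r t = r ((-1) ^ c * t) := by
  rcases Nat.even_or_odd c with h | h <;> simp [h.neg_one_pow]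

theorem FT1_alg (v : Pl k) (a : RatFunc k) :
    algebraMap (Lv v) (Lb v) (algebraMap _ _ a) = algebraMap (RatFunc k) (Lb v) a :=
  (emb_algK v a).symm.trans ((emb v).commutes a)

theorem FT1_emb (v : Pl k) {n : ℕ} (a w a' w' : Finset (Fin n) → Kb k) :
    emb v (thT ε (algebraMap _ _ ϖ) a w a' w') = thT ε (algebraMap (RatFunc k) _ ϖ)
      (fun I => emb v (a I)) (fun I => emb v (w I)) (fun I => emb v (a' I)) fun I => emb v (w' I) :=
  (emb v).commutes ϖ ▸ map_thT (emb v : Kb k →+* Lb v) ε _ a w a' w'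

theorem FT1_le (hT : Ty p A F ϖ ε) {n : ℕ} {W : Fin n → Kb k} {x x' : Finset (Fin n) → W1 k}
    (hx : Cn p A F b W x) (hx' : Cn p A F b W x') {θ : RatFunc k}
    (hθ : algebraMap _ _ θ = thT ε (algebraMap _ _ ϖ) (fun I => (x I).1) (fun I => (x I).2.1)
      (fun I => (x' I).1) fun I => (x' I).2.1) {v : Pl k} (hv : InU F b v) : av v θ ≤ 1 := by
  have h1 := tp_le (nm_na v) (fun I => (hx.int v hv I).1) fun I => (hx'.int v hv I).2
  have h2 := tp_le (nm_na v) (fun I => (hx.int v hv I).2) fun I => (hx'.int v hv I).1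
  have h3 := tp_le (nm_na v) (fun I => (hx.int v hv I).1) fun I => (hx'.int v hv I).1
  have h4 := hT.int v fun h => (inU_iff (p := p) (A := A)).1 hv |>.1 (Or.inl h)
  rw [one_mul] at h1 h2 h3
  rw [← nm_algK, ← (emb v).commutes, hθ, FT1_emb, thT]
  refine (nm_na v _ _).trans (max_le ((nm_na v _ _).trans (max_le h1 ?_)) ?_)
  · rcases hT.sgn with h | h <;> simpa [h] using h2
  · rw [map_mul, nm_algK]
    exact mul_le_one₀ h3 (AbsoluteValue.nonneg _ _) h4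

theorem FT1_loc {v : Pl k} {n : ℕ} {x x' : Finset (Fin n) → W1 k}
    (hx : ∀ I, algebraMap _ _ (lc v (x I)).1 = emb v (x I).1 ∧
      algebraMap _ _ (lc v (x I)).2 = emb v (x I).2.1)
    (hx' : ∀ I, algebraMap _ _ (lc v (x' I)).1 = emb v (x' I).1 ∧
      algebraMap _ _ (lc v (x' I)).2 = emb v (x' I).2.1) {t : Lv v}
    (ht : algebraMap _ _ t = emb v (thT ε (algebraMap _ _ ϖ) (fun I => (x I).1)
      (fun I => (x I).2.1) (fun I => (x' I).1) fun I => (x' I).2.1)) :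
    ∑ I : Finset (Fin n), (-1) ^ I.card * res p v (thL ϖ ε v (lc v (x I)) (lc v (x' Iᶜ))) =
      res p v t := by
  simp only [FT1_sgn, ← map_sum]
  refine congrArg _ ((algebraMap (Lv v) (Lb v)).injective ?_)
  rw [ht, FT1_emb, thT_eq_sum]
  simp only [thL, map_sum, map_mul, map_add, map_pow, map_neg, map_one, map_zsmul, hx, hx', FT1_alg]

theorem FT1_d1 (v : Pl k) {x : W1 k} (hx : x.2.1 ∈ Om (RatFunc k) (Kb k)) :
    emb v (d1B p A ϖ x) = emb v x.2.1 - cM p v (emb v x.2.1 / pk _ A) +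
      emb v x.1 * algebraMap (RatFunc k) _ ϖ := by
  rw [d1B, map_add, map_sub, map_mul, emb_cB v (x := x.2.1 / pk _ A) (div_mem hx (om_alg _)),
    map_div₀, emb_pk, (emb v).commutes]

theorem FT1_coc {D : LtD p A F b n0 d ϖ ε} {x : W1 k} (hx : x ∈ SplG p A F b) (h : D1 D x = 0)
    {v : Pl k} (hv : InNa p A b v) : emb v x.1 = x.2.2 v ^ p / pk _ A - x.2.2 v ∧
      emb v x.2.1 - cM p v (emb v x.2.1 / pk _ A) +
        (x.2.2 v ^ p / pk _ A - x.2.2 v) * algebraMap (RatFunc k) _ ϖ = 0 := by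
  obtain ⟨h1, -, h2⟩ := (D1_eq_zero hx).1 h
  exact ⟨h2 v hv, by rw [← h2 v hv, ← FT1_d1 v hx.2.1, h1, map_zero]⟩

theorem FT1_hyp (hT : Ty p A F ϖ ε) (hc : IsCoprime b F) {v : Pl k} (hv : InNa p A b v) :
    pk (Lb v) A ∈ Om (Lv v) (Lb v) ∧ pk (Lb v) A ≠ 0 ∧
      algebraMap (RatFunc k) (Lb v) ϖ ∈ Om (Lv v) (Lb v) ∧
      cM p v (algebraMap (RatFunc k) _ ϖ / pk _ A ^ 2) = algebraMap (RatFunc k) _ ϖ ∧
      ε • algebraMap (RatFunc k) (Lb v) ϖ = algebraMap (RatFunc k) _ ϖ := by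
  refine ⟨alg_pk v A ▸ om_alg _, fun h => ?_, FT1_alg v ϖ ▸ om_alg _, ?_,
    by rw [← map_zsmul, hT.eps]⟩
  · have := nm_pk_one hT.dvd (not_S0_of_dvd hc hv.1 hv.2.1)
    simp [h] at this
  · have := alg_cL (p := p) v (algebraMap _ _ (ϖ / pk _ A ^ 2))
    rw [← alg_cK, hT.car, FT1_alg, FT1_alg, map_div₀, map_pow] at this
    exact this.symm

theorem FT1_phi {v : Pl k} {n : ℕ} {W : Fin n → Lb v} {y : Finset (Fin n) → Lb v}
    (hy : y ∈ Eq1 p (Lv v) W) : (fun I => y I ^ p / pk _ A) ∈ Eq1 p (Lv v) W :=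
  alg_pk v A ▸ Eq1.phi hy _

theorem top_formula (hT : Ty p A F ϖ ε) (hb : b ≠ 0) (hc : IsCoprime b F) (D : LtD p A F b n0 d ϖ ε)
    {n : ℕ} {W : Fin n → Kb k} (hW : ASr p (RatFunc k) W) {x x' x1 xc : Finset (Fin n) → W1 k}
    (hx : Cn p A F b W x) (cx : ∀ I, D1 D (x I) = 0) (hx' : Cn p A F b W x')
    (cx' : ∀ I, D1 D (x' I) = 0) (hx1 : Cn p A F b W x1) {WJ : Kb k} {h : RatFunc k}
    (hJ : WJ ^ p - WJ = algebraMap _ _ h) (s : ∀ v : Pl k, Lv v)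
    (hs : ∀ v, InS p A F b v → algebraMap _ _ (s v) = emb v WJ)
    (hxc : ∀ I, (xc I).1 = (x1 I).1 - WJ * (x I).1 ∧ (xc I).2.1 = (x1 I).2.1 - WJ * (x I).2.1 ∧
      ∀ v, (xc I).2.2 v = (x1 I).2.2 v - emb v WJ * (x I).2.2 v) {θ : RatFunc k}
    (hθ : algebraMap _ _ θ = thT ε (algebraMap _ _ ϖ) (fun I => (x I).1) (fun I => (x I).2.1)
      (fun I => (x' I).1) fun I => (x' I).2.1) (ξ : ∀ v : Pl k, Lv v)
    (hξ : ∀ v, InNa p A b v → algebraMap _ _ (ξ v) =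
      xiT p (pk (Lb v) A) ε (algebraMap (RatFunc k) _ ϖ) (fun I => (x I).2.2 v)
        (fun I => emb v (x I).2.1) (fun I => (x' I).2.2 v) fun I => emb v (x' I).2.1) :
    -∑ I : Finset (Fin n), (-1) ^ I.card * bW D (xc I) (x' Iᶜ) =
      ∑ v ∈ Sf p A F b, res p v (s v * algebraMap _ _ θ) -
        ∑ v ∈ Nf p A b, res p v (algebraMap _ _ h * ξ v) := by
  classical
  obtain ⟨Θ, hΘ⟩ := FT1_th hW ε ϖ hx1.a_eq hx1.w_eq hx'.a_eq hx'.w_eq
  have hWJ : WJ ∈ Om (RatFunc k) (Kb k) :=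
    om_wp (p := p) (one_mem _) one_ne_zero (om_alg h) (by rw [div_one, hJ])
  have h0 := res_sum (p := p) Θ (Sf p A F b ∪ Nf p A b) fun v hv => by
    rw [mem_union, not_or, mem_Sf hT.F_ne hb, mem_Nf hb, ← inU_iff] at hv
    have := (int_iff hv.1 (algebraMap _ _ Θ)).2 ((norm_alg v Θ).trans_le (FT1_le hT hx1 hx' hΘ hv))
    rwa [uL, ← map_mul, norm_alg] at this
  rw [sum_union (disjoint_left.2 fun v h1 h2 =>
    ((mem_Nf hb).1 h2).not_S hc ((mem_Sf hT.F_ne hb).1 h1))] at h0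
  have hS : ∀ v ∈ Sf p A F b, ∑ I : Finset (Fin n), (-1) ^ I.card * res p v (thL ϖ ε v
      (lc v (xc I) - D.P v (lc v (xc I))) (lc v (x' Iᶜ))) =
      res p v (algebraMap _ _ Θ) - res p v (s v * algebraMap _ _ θ) := fun v hv => by
    rw [mem_Sf hT.F_ne hb] at hv
    have e : ∀ {X X1 : Kb k}, algebraMap _ _ (rt v (emb v X)) = emb v X →
        algebraMap _ _ (rt v (emb v X1)) = emb v X1 →
        algebraMap _ _ (rt v (emb v (X1 - WJ * X))) = emb v (X1 - WJ * X) := fun h1 h2 => by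
      rw [map_sub (emb v), map_mul, ← h1, ← h2, ← hs v hv, ← map_mul, ← map_sub, rt_alg]
    rw [← map_sub, ← FT1_loc (ϖ := ϖ) (ε := ε) (x := xc) (fun I => by
      simp only [lc, (hxc I).1, (hxc I).2.1]
      exact ⟨e ((hx.spl I).2.2 v hv).1 ((hx1.spl I).2.2 v hv).1,
        e ((hx.spl I).2.2 v hv).2 ((hx1.spl I).2.2 v hv).2⟩) (fun I => (hx'.spl I).2.2 v hv) (by
      simp only [hxc, thT_sub_mul]
      rw [← hΘ, ← hθ, map_sub, map_sub, map_mul, map_mul, hs v hv, emb_algK, emb_algK])]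
    refine sum_congr rfl fun I _ => congrArg _ ?_
    rw [← sub_zero (res p v (thL ϖ ε v (lc v (xc I)) _)), ← D.iso v _ (D.P_mem v (lc v (xc I))) _
      (((D1_eq_zero (hx'.spl Iᶜ)).1 (cx' Iᶜ)).2.1 v hv), ← map_sub]
    refine congrArg _ ?_
    simp only [thL, Prod.fst_sub, Prod.snd_sub, zsmul_eq_mul]
    ring
  have hN : ∀ v ∈ Nf p A b, ∑ I : Finset (Fin n), (-1) ^ I.card * res p v (rt v
      ((emb v (xc I).1 - ((xc I).2.2 v ^ p / pk _ A - (xc I).2.2 v)) *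
        (emb v (x' Iᶜ).2.1 + (x' Iᶜ).2.2 v ^ p / pk _ A * algebraMap (RatFunc k) _ ϖ) -
        ε • (emb v (d1B p A ϖ (xc I)) * (x' Iᶜ).2.2 v))) =
      res p v (algebraMap _ _ Θ) + res p v (algebraMap _ _ h * ξ v) := fun v hv => by
    rw [mem_Nf hb] at hv
    obtain ⟨a1, a2, a3, a4, a5⟩ := FT1_hyp hT hc hv
    have c := fun I => FT1_coc (hx.spl I) (cx I) hv
    have c' := fun I => FT1_coc (hx'.spl I) (cx' I) hv
    have y' := FT1_phi (A := A) (hx'.y_eq v)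
    obtain ⟨t1, e1⟩ := Eq1.tp_mem (hW.emb v) (FT1_phi (A := A) (hx1.y_eq v))
      (add_mem (Eq1.emb v hx'.w_eq) (Eq1.mul_alg y' (algebraMap _ _ ϖ)))
    obtain ⟨t2, e2⟩ := Eq1.tp_mem (hW.emb v) (Eq1.emb v hx1.w_eq) y'
    obtain ⟨t3, e3⟩ := Eq1.tp_mem (hW.emb v) (Eq1.emb v hx.w_eq) y'
    have key := na_id (cM p v) _ (cM_frob v) a1 a2 a3 a4 a5 (hx.y_eq v).1 (Eq1.emb v hx.w_eq).1
      (hx'.y_eq v).1 (Eq1.emb v hx'.w_eq).1 (Eq1.emb v hx1.a_eq).1 (Eq1.emb v hx1.w_eq).1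
      (hx1.y_eq v).1 (fun I => (c I).2) (fun I => (c' I).2) (emb_om v hWJ)
      (h0 := algebraMap (RatFunc k) _ h) (by rw [← map_pow, ← map_sub, hJ, (emb v).commutes])
      (algebraMap _ _ (t1 + ε • t2 + algebraMap _ _ h * ε • t3)) (by
        rw [map_add, map_add, map_mul, map_zsmul, map_zsmul, e1, e2, e3, FT1_alg, FT1_alg]
        rfl)
    simp only [← fun I => (c' I).1] at key
    rw [← FT1_emb, ← hΘ, emb_algK, ← hξ v hv, ← alg_cL, ← FT1_alg v h, ← map_mul, ← map_add,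
      ← map_sub, ← map_sub] at key
    have k2 := congrArg (fun X => res p v (rt v X)) key
    simp only [rt_alg] at k2
    rw [map_sub (res p v) (_ + _), map_sub (res p v) _ (cL p v _), res_car, sub_self, sub_zero,
      map_add (res p v)] at k2
    rw [← k2]
    refine (sum_congr rfl fun I _ => FT1_sgn ((res p v).comp (rt v)) _ _).trans
      ((map_sum ((res p v).comp (rt v)) _ _).symm.trans (congrArg ((res p v).comp (rt v)) ?_))
    simp only [tp, zsmul_eq_mul, mul_sum, ← sum_sub_distrib]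
    refine sum_congr rfl fun I _ => ?_
    rw [FT1_d1 v ((hxc I).2.1 ▸ sub_mem (hx1.spl I).2.1 (mul_mem hWJ (hx.spl I).2.1)),
      (hxc I).1, (hxc I).2.1, (hxc I).2.2, map_sub (emb v), map_sub (emb v), map_mul (emb v),
      map_mul (emb v), (c I).1]
    ring
  change -∑ I : Finset (Fin n), (-1) ^ I.card * bWf D (xc I) (x' Iᶜ) = _
  simp only [bWf, mul_add (_ : ZMod p), mul_sum, sum_add_distrib]
  rw [sum_comm, sum_congr rfl hS, sum_comm, sum_congr rfl hN, sum_sub_distrib, sum_add_distrib]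
  linear_combination -h0

/-- the data that enter the formula exist and satisfy the hypotheses of the reciprocity law -/
theorem top_data (hT : Ty p A F ϖ ε) (hb : b ≠ 0) (hc : IsCoprime b F) (D : LtD p A F b n0 d ϖ ε)
    {n : ℕ} {W : Fin n → Kb k} (hW : ASr p (RatFunc k) W) {x x' : Finset (Fin n) → W1 k}
    (hx : Cn p A F b W x) (cx : ∀ I, D1 D (x I) = 0) (hx' : Cn p A F b W x')
    (cx' : ∀ I, D1 D (x' I) = 0) : ∃ (θ : RatFunc k) (ξ : ∀ v : Pl k, Lv v),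
      algebraMap _ _ θ = thT ε (algebraMap _ _ ϖ) (fun I => (x I).1) (fun I => (x I).2.1)
        (fun I => (x' I).1) (fun I => (x' I).2.1) ∧
      (∀ v, InNa p A b v → algebraMap _ _ (ξ v) =
        xiT p (pk (Lb v) A) ε (algebraMap (RatFunc k) _ ϖ) (fun I => (x I).2.2 v)
          (fun I => emb v (x I).2.1) (fun I => (x' I).2.2 v) fun I => emb v (x' I).2.1) ∧
      (∀ v, InS p A F b v → res p v (algebraMap _ _ θ) = 0) ∧
      (∀ v, InNa p A b v → ξ v - cL p v (ξ v) = algebraMap _ _ θ) ∧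
      ∀ v, InU F b v → av v θ ≤ 1 := by
  obtain ⟨θ, hθ⟩ := FT1_th hW ε ϖ hx.a_eq hx.w_eq hx'.a_eq hx'.w_eq
  choose ξ hξ using fun v => FT1_th (hW.emb v) ε (algebraMap _ _ ϖ) (FT1_phi (A := A) (hx.y_eq v))
    (Eq1.emb v hx.w_eq) (FT1_phi (A := A) (hx'.y_eq v)) (Eq1.emb v hx'.w_eq)
  simp only [FT1_alg] at hξ
  refine ⟨θ, ξ, hθ, fun v _ => hξ v, fun v hv => ?_, fun v hv => ?_,
    fun v hv => FT1_le hT hx hx' hθ hv⟩
  · rw [← FT1_loc (ϖ := ϖ) (ε := ε) (fun I => (hx.spl I).2.2 v hv) (fun I => (hx'.spl I).2.2 v hv)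
      (by rw [← hθ, emb_algK])]
    refine sum_eq_zero fun I _ => ?_
    rw [D.iso v _ (((D1_eq_zero (hx.spl I)).1 (cx I)).2.1 v hv) _
      (((D1_eq_zero (hx'.spl Iᶜ)).1 (cx' Iᶜ)).2.1 v hv), mul_zero]
  · obtain ⟨a1, a2, a3, a4, a5⟩ := FT1_hyp hT hc hv
    have c := fun I => FT1_coc (hx.spl I) (cx I) hv
    have c' := fun I => FT1_coc (hx'.spl I) (cx' I) hv
    have key := xi_car (cM p v) _ (cM_frob v) a1 a2 a3 a4 a5 (hx.y_eq v).1 (Eq1.emb v hx.w_eq).1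
      (hx'.y_eq v).1 (Eq1.emb v hx'.w_eq).1 (fun I => (c I).2) fun I => (c' I).2
    simp only [← fun I => (c I).1, ← fun I => (c' I).1] at key
    refine (algebraMap (Lv v) (Lb v)).injective ?_
    rw [map_sub, alg_cL, hξ, ← emb_algK, hθ, FT1_emb]
    exact key

end Pool.Agent.ASel
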