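import Pool.Agent.Work.MP_60d5ce_nt.AS.FNorm
import Pool.Agent.Work.MP_60d5ce_nt.AS.FNd
import Pool.Agent.Work.MP_60d5ce_nt.AS.FT1
import Pool.Agent.Work.MP_60d5ce_nt.AS.FRec

/-!
# The top coefficient does not vanish at a good prime  (AS, function field side)

PLAN.  `nd_bad`: `exists_norm` (with `b = b' * plp P`, `Med = univ.image vv`, `av_pol`) gives `Y`, `Y'` and normalised `xn`, `xn'`.  Let `ρ ∈ k(t)` have the image `tp (φ Y) w' + ε • tp wn (φ Y')` (`Eq1.tp_mem`, `Eq1.phi`); by `xi_gauge`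
`Ξ (y + Y, w, y' + Y', w') = Ξ (y, wn, y', wn') + ρ` for all `y`, `y'`.  With solutions from `exists_sol`, `xi_car` (for `cB`, `S = Om`) applied to both gives `ρ - C ρ = θ - θn`, so `η - ρ` is a primitive for `xn`, `xn'`.
`ρ` is regular at `InU F b` (`tp_le`); at `P` apply `xi_gauge` in `Lb P` to `y = (x I).2.2 P - emb P (Y I)`, which is integral, so `η - ρ` is integral at `P`; `sol_lift`, `map_xiT`.
`nd_main`: `cn_mom`, `top_data`; if all sums vanish then `mul_WW`, `mom_mul` (or `map_mom`), `top_formula` (with `xc = mom χ (prg eJ • X)`, `x1 = mom χ X1`, `s v = rt v (emb v (WW Φ eJ))`, `WW_split`, `WW_pow`) and `Su.big` give the hypothesis of `detect`;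
`nondeg` (with `indep_pol`, `Su.hinj`, `mom_empty`) gives the last hypothesis of `nd_bad`.
-/

set_option linter.unusedSectionVars false

namespace Pool.Agent.ASel

open Polynomial Pool.Agent.Smith Finset
open scoped Classical

variable {p : ℕ} {k : Type} [Field k] [Fintype k] [hp : Fact p.Prime] [CharP k p]
  {A F : k[X]} {ϖ : RatFunc k} {ε : ℤ}

theorem FNm_gauge {M : Type} [Field M] [CharP M p] {n : ℕ} {A ϖ : M} (hε : ε • ϖ = ϖ)
    (y w y' w' Y Y' : Finset (Fin n) → M) :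
    xiT p A ε ϖ (y + Y) w (y' + Y') w' = xiT p A ε ϖ y (fun I => w I + Y I ^ p / A * ϖ) y'
      (fun I => w' I + Y' I ^ p / A * ϖ) +
        xiT p A ε 0 Y (fun I => w I + Y I ^ p / A * ϖ) Y' w' := by
  have h := xi_gauge (p := p) (A := A) hε y (fun I => w I + Y I ^ p / A * ϖ) y'
    (fun I => w' I + Y' I ^ p / A * ϖ) Y Y'
  simp only [add_sub_cancel_right] at h
  rw [h, xiT, xiT, mul_zero, add_zero]

theorem FNm_le {M : Type} [Field M] {ν : AbsoluteValue M ℝ} (hν : IsNonarchimedean ν) {n : ℕ}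
    {A ϖ : M} (hA : ν A = 1) (hϖ : ν ϖ ≤ 1) (hε : ε = 1 ∨ ε = -1) {y w y' w' : Finset (Fin n) → M}
    (hy : ∀ I, ν (y I) ≤ 1) (hw : ∀ I, ν (w I) ≤ 1) (hy' : ∀ I, ν (y' I) ≤ 1)
    (hw' : ∀ I, ν (w' I) ≤ 1) : ν (xiT p A ε ϖ y w y' w') ≤ 1 := by
  have e : ∀ {y : Finset (Fin n) → M}, (∀ I, ν (y I) ≤ 1) → ∀ I, ν (y I ^ p / A) ≤ 1 :=
    fun h I => by
      rw [map_div₀, map_pow, hA, div_one]
      exact pow_le_one₀ (ν.nonneg _) (h I)
  have h1 := tp_le hν (e hy) hw'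
  have h2 := tp_le hν hw (e hy')
  have h3 := tp_le hν (e hy) (e hy')
  rw [one_mul] at h1 h2 h3
  refine LocA_add_le hν (LocA_add_le hν h1 ?_) ?_
  · rcases hε with h | h <;> simpa [h] using h2
  · rw [map_mul]
    exact mul_le_one₀ h3 (ν.nonneg _) hϖ

theorem FNm_emb (v : Pl k) (ϖ : RatFunc k) {n : ℕ} (y w y' w' : Finset (Fin n) → Kb k) :
    emb v (xiT p (pk _ A) ε (algebraMap _ _ ϖ) y w y' w') =
      xiT p (pk _ A) ε (algebraMap (RatFunc k) _ ϖ) (fun I => emb v (y I)) (fun I => emb v (w I))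
        (fun I => emb v (y' I)) fun I => emb v (w' I) :=
  (emb v).commutes ϖ ▸ emb_pk v A ▸ map_xiT (emb v : Kb k →+* Lb v) p _ ε _ y w y' w'

theorem FNm_car (hT : Ty p A F ϖ ε) {n : ℕ} {a w a' w' y y' : Finset (Fin n) → Kb k}
    (ha : ∀ I, a I ∈ Om (RatFunc k) (Kb k)) (hw : ∀ I, w I ∈ Om (RatFunc k) (Kb k))
    (ha' : ∀ I, a' I ∈ Om (RatFunc k) (Kb k)) (hw' : ∀ I, w' I ∈ Om (RatFunc k) (Kb k))
    (hy : Sol p A a y) (hy' : Sol p A a' y')
    (h : ∀ I, w I - cB p (w I / pk _ A) + a I * algebraMap _ _ ϖ = 0)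
    (h' : ∀ I, w' I - cB p (w' I / pk _ A) + a' I * algebraMap _ _ ϖ = 0) :
    xiT p (pk _ A) ε (algebraMap _ _ ϖ) y w y' w' -
      cB p (xiT p (pk _ A) ε (algebraMap _ _ ϖ) y w y' w') = thT ε (algebraMap _ _ ϖ) a w a' w' := by
  have hA := ne_zero_of_dvd_ne_zero hT.F_ne hT.dvd
  have hc := alg_cKB (p := p) (ϖ / pk _ A ^ 2)
  rw [hT.car, map_div₀, map_pow] at hc
  have o := hy.om hA ha
  have o' := hy'.om hA ha'
  obtain rfl := funext hy
  obtain rfl := funext hy'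
  exact xi_car (cB p) _ cB_frob (om_alg _) ((_root_.map_ne_zero (algebraMap (RatFunc k) _)).2
    (RatFunc.algebraMap_ne_zero hA)) (om_alg _) hc.symm (by rw [← map_zsmul, hT.eps]) o hw o' hw' h h'

theorem FNm_sol {n : ℕ} {a y Y : Finset (Fin n) → Kb k}
    (h : Sol p A (fun I => a I - (Y I ^ p / pk _ A - Y I)) y) : Sol p A a (y + Y) := fun I => by
  rw [Pi.add_apply, Wp_add, h I, sub_add_cancel]

theorem nd_bad (hT : Ty p A F ϖ ε) (n0 K : ℕ) : ∃ n1 : ℕ, ∀ {ι : Type} [Fintype ι] {b' : k[X]}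
    {P : Pl k} {d' : RatFunc k} {vv : Fin K → Pl k} {Φ : ASF p k ι}, Su A F b' P d' vv Φ →
    ∀ (D : LtD p A F (b' * plp P) n0 Φ.d ϖ ε) {n : ℕ} (hn : n ≤ K) {W : Fin n → Kb k}
      {c : Fin n → k[X]} {x x' : Finset (Fin n) → W1 k} {θ η : RatFunc k} {ξ : Lv P},
    (∀ i, (c i).degree < (plp (vv (i.castLE hn))).degree ∧
      W i ^ p - W i = algebraMap _ _ (pol (c i) (vv (i.castLE hn)))) →
    (∀ i v, InS p A F (b' * plp P) v → ∃ s : Lv v, algebraMap _ _ s = emb v (W i)) →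
    Cn p A F (b' * plp P) W x → (∀ I, D1 D (x I) = 0) →
    Cn p A F (b' * plp P) W x' → (∀ I, D1 D (x' I) = 0) →
    algebraMap _ _ θ = thT ε (algebraMap _ _ ϖ) (fun I => (x I).1) (fun I => (x I).2.1)
      (fun I => (x' I).1) (fun I => (x' I).2.1) →
    algebraMap _ _ ξ = xiT p (pk (Lb P) A) ε (algebraMap (RatFunc k) _ ϖ) (fun I => (x I).2.2 P)
      (fun I => emb P (x I).2.1) (fun I => (x' I).2.2 P) (fun I => emb P (x' I).2.1) →
    η - cK p η = θ → (∀ v, InU F (b' * plp P) v → av v η ≤ 1) → ‖algebraMap _ _ η - ξ‖ < 1 →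
    (∀ (y y' : Finset (Fin n) → Kb k) (η0 : RatFunc k), Sol p A (fun I => (x I).1) y →
      Sol p A (fun I => (x' I).1) y' → algebraMap _ _ η0 ≠ xiT p (pk (Kb k) A) ε (algebraMap _ _ ϖ) y
        (fun I => (x I).2.1) y' fun I => (x' I).2.1) →
    P ∈ BadS p A F b' d' ϖ ε n1 vv := by
  obtain ⟨n1, h1⟩ := exists_norm hT n0 K
  refine ⟨n1, ?_⟩
  intro ι _ b' P d' vv Φ hS D n hn W c x x' θ η ξ hW hs hx cx hx' cx' hθ hξ hη iη nη hd
  have hA := ne_zero_of_dvd_ne_zero hT.F_ne hT.dvd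
  have N := fun {x : Finset (Fin n) → W1 k} => h1 D (univ.image vv) (x := x) hS.stg.b_ne hS.stg.cop
    (dvd_mul_right _ _) (fun _ => hS.an_near) (fun v hv => by
      obtain ⟨i, -, rfl⟩ := mem_image.1 hv
      exact hS.vv_na i) hn (fun i => (hW i).2) (fun i v =>
      ⟨(av_pol (hS.vv_na _).1 (hW i).1).1 v, fun hv => (av_pol (hS.vv_na _).1 (hW i).1).2.1 v
        fun e => hv (mem_image.2 ⟨_, mem_univ _, e.symm⟩)⟩) hs
  obtain ⟨Y, mY, iY, fY, nY⟩ := N hx cx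
  obtain ⟨Y', mY', iY', fY', nY'⟩ := N hx' cx'
  have hP : P ∉ univ.image vv := fun h => by
    obtain ⟨i, -, e⟩ := mem_image.1 h
    exact hS.vv_ne i e
  have uP : InU F b' P := hS.U_iff.2 (Or.inr rfl)
  have n0 : ∀ {v : Pl k}, InU F b' v → ¬ InS0 F v := fun hv h =>
    (inU_iff (p := p) (A := A)).1 hv |>.1 (Or.inl h)
  obtain ⟨ρ, hρ⟩ := FT1_th (fun i => ⟨_, (hW i).2⟩) ε 0 (Eq1.phi mY (pk _ A)) fY.2.1
    (Eq1.phi mY' (pk _ A)) hx'.w_eq
  change _ = xiT p (pk _ A) ε (algebraMap _ _ (0 : RatFunc k)) Y _ Y' _ at hρ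
  have G := fun y y' => FNm_gauge (p := p) (A := pk (Kb k) A) (ε := ε) (ϖ := algebraMap _ _ ϖ)
    (by rw [← map_zsmul, hT.eps]) y (fun I => (x I).2.1) y' (fun I => (x' I).2.1) Y Y'
  rw [← map_zero (algebraMap (RatFunc k) (Kb k)), ← hρ] at G
  have q := fun I => FT1_coc (hx.spl I) (cx I) hS.P_na
  have q' := fun I => FT1_coc (hx'.spl I) (cx' I) hS.P_na
  obtain ⟨z, sz, ez⟩ := sol_lift (p := p) hA (a := fun I => (x I).1 - (Y I ^ p / pk _ A - Y I))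
    (v := P) (z := fun I => (x I).2.2 P - emb P (Y I)) fun I => by
      rw [Wp_sub, map_sub, (q I).1, map_sub, map_div₀, map_pow, emb_pk]
  obtain ⟨z', sz', ez'⟩ := sol_lift (p := p) hA (a := fun I => (x' I).1 - (Y' I ^ p / pk _ A - Y' I))
    (v := P) (z := fun I => (x' I).2.2 P - emb P (Y' I)) fun I => by
      rw [Wp_sub, map_sub, (q' I).1, map_sub, map_div₀, map_pow, emb_pk]
  have E : ∀ y y', dif p A ϖ ε (fun I => ((x I).1 - (Y I ^ p / pk _ A - Y I),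
      (x I).2.1 + Y I ^ p / pk _ A * algebraMap _ _ ϖ)) (fun I => ((x' I).1 - (Y' I ^ p / pk _ A - Y' I),
      (x' I).2.1 + Y' I ^ p / pk _ A * algebraMap _ _ ϖ)) (η - ρ) y y' = algebraMap _ _ η -
      xiT p (pk _ A) ε (algebraMap _ _ ϖ) (y + Y) (fun I => (x I).2.1) (y' + Y')
        fun I => (x' I).2.1 := fun y y' => by
    rw [G, dif, map_sub, sub_sub, add_comm]
  have Z := (congrArg (fun t => nm P (emb P t)) (E z z')).trans_lt (by
    rw [map_sub, FNm_emb, emb_algK]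
    simp only [Pi.add_apply, map_add, ez, ez', sub_add_cancel]
    rwa [← hξ, ← map_sub, nm_alg])
  refine ⟨n, hn, W, c, hW, _, fY, _, fY', η - ρ, ⟨?_, fun v hv => ?_, fun y y' hy hy' => ?_⟩,
    uP, z, z', sz, sz', Z⟩
  · have e1 := FNm_car hT hx.a_eq.1 hx.w_eq.1 hx'.a_eq.1 hx'.w_eq.1 (FNm_sol sz) (FNm_sol sz')
      (fun I => ((D1_eq_zero (hx.spl I)).1 (cx I)).1) fun I => ((D1_eq_zero (hx'.spl I)).1 (cx' I)).1
    have e2 := FNm_car hT fY.1.1 fY.2.1.1 fY'.1.1 fY'.2.1.1 sz sz' (fun I => (fY.2.2 I).1)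
      fun I => (fY'.2.2 I).1
    rw [G, ← hθ, ← hη, map_add, ← alg_cKB] at e1
    rw [← e2]
    simp only [map_sub] at e1 ⊢
    linear_combination -e1
  · rcases hS.U_iff.1 hv with h | rfl
    · refine Hasse_sub (iη v h) ?_
      rw [← nm_algK, ← (emb v).commutes, hρ, FNm_emb]
      exact FNm_le (nm_na v) (nm_pk_one hT.dvd (n0 hv)) (by simp) hT.sgn (iY v h)
        (fun I => ((fY.2.2 I).2 v).1 hv) (iY' v h) fun I => (hx'.int v h I).2
    · rw [dif, map_sub, FNm_emb, AlgHom.commutes] at Z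
      rw [← nm_algK]
      exact LocA_le (nm_na v) (FNm_le (nm_na v) (nm_pk_one hT.dvd (n0 hv))
        ((nm_algK v ϖ).trans_le (hT.int v (n0 hv))) hT.sgn (fun I => ez I ▸ nY v hS.P_na hP I)
        (fun I => ((fY.2.2 I).2 v).1 hv) (fun I => ez' I ▸ nY' v hS.P_na hP I)
        fun I => ((fY'.2.2 I).2 v).1 hv) Z
  · rw [E]
    exact sub_ne_zero.2 (hd _ _ η (FNm_sol hy) (FNm_sol hy'))

theorem FNm_mom {n : ℕ} {G V M : Type} [AddCommGroup G] [Fintype G] [AddCommGroup V]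
    [Module (ZMod p) V] [CommRing M] [Algebra (ZMod p) M] (φ : V →+ M) (χ : Fin n → G →+ ZMod p)
    {f f1 f0 : G → V} {s : M} (h : ∀ g, φ (f g) = φ (f1 g) - s * φ (f0 g)) (I : Finset (Fin n)) :
    φ (mom χ f I) = φ (mom χ f1 I) - s * φ (mom χ f0 I) := by
  simp only [map_mom, h]
  simp only [mom, smul_sub, sum_sub_distrib, mul_sum, mul_smul_comm]

theorem nd_main (hT : Ty p A F ϖ ε) (n0 K : ℕ) : ∃ n1 : ℕ, ∀ {ι : Type} [Fintype ι] {b' : k[X]}
    {P : Pl k} {d' : RatFunc k} {vv : Fin K → Pl k} {Φ : ASF p k ι}, Su A F b' P d' vv Φ →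
    P ∉ BadS p A F b' d' ϖ ε n1 vv →
    ∀ (D : LtD p A F (b' * plp P) n0 Φ.d ϖ ε) {n : ℕ} (hn : n ≤ K), 0 < n →
    ∀ e : Fin n → ι → ZMod p, (∀ i, e i ∈ Blk Φ (vv (i.castLE hn)) ∧ e i ≠ 0) →
    ∀ X ∈ C1 A F (b' * plp P) Φ, ∀ X' ∈ C1 A F (b' * plp P) Φ,
    (∀ I, D1 D (mom (fun i => prg p (e i)) X I) = 0) →
    (∀ I, D1 D (mom (fun i => prg p (e i)) X' I) = 0) →
    Gd p A ϖ (∑ g, X g).1 (∑ g, X g).2.1 →
    ¬ Bd p A ϖ (ε * (-1) ^ n) (∑ g, X g).1 (∑ g, X g).2.1 (∑ g, X' g).1 (∑ g, X' g).2.1 →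
    ∃ eJ : ι → ZMod p, ∑ I : Finset (Fin n), (-1) ^ I.card *
      bW D (mom (fun i => prg p (e i)) (fun g => prg p eJ g • X g) I)
        (mom (fun i => prg p (e i)) X' Iᶜ) ≠ 0 := by
  obtain ⟨n1, h1⟩ := nd_bad hT n0 K
  refine ⟨n1, ?_⟩
  intro ι _ b' P d' vv Φ hS hP D n hn h0 e he X hX X' hX' cx cx' hg hb
  by_contra! H
  choose c hc ec using fun i => (he i).1
  have hW : ∀ i, WW Φ (e i) ^ p - WW Φ (e i) = algebraMap _ _ (pol (c i) (vv (i.castLE hn))) :=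
    fun i => ec i ▸ WW_pow Φ (e i)
  have hx := cn_mom hS.stg e hX
  have hx' := cn_mom hS.stg e hX'
  obtain ⟨θ, ξ, hθ, hξ, a1, a2, a3⟩ := top_data hT hS.stg.b_ne hS.stg.cop D
    (fun i => ⟨_, hW i⟩) hx cx hx' cx'
  obtain ⟨η, b1, b2, b3⟩ := detect hT.F_ne hS.stg.b_ne hS.stg.cop ξ a1 a2 a3 hS.P_na
    fun c0 hc0 hr => by
      obtain ⟨eJ, hJ⟩ := hS.big c0 hc0 hr
      obtain ⟨X1, hX1, hm⟩ := mul_WW hS.stg eJ hX
      have hs : ∀ v, InS p A F (b' * plp P) v →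
          algebraMap _ _ (rt v (emb v (WW Φ eJ))) = emb v (WW Φ eJ) := fun v hv => by
        obtain ⟨s, -, h⟩ := WW_split hS.stg eJ hv
        rw [← h, rt_alg]
      have hp := hJ ▸ WW_pow Φ eJ
      have T := top_formula hT hS.stg.b_ne hS.stg.cop D (fun i => ⟨_, hW i⟩) hx cx hx' cx'
        (cn_mom hS.stg e hX1) hp _ hs (xc := mom (fun i => prg p (e i)) fun g => prg p eJ g • X g)
        (fun I => ⟨by exact FNm_mom (V := W1 k) (AddMonoidHom.fst _ _) _ (fun g => (hm g).1) I,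
          FNm_mom (V := W1 k) ((AddMonoidHom.fst _ _).comp (AddMonoidHom.snd _ _)) _
            (fun g => (hm g).2.1) I,
          fun v => FNm_mom (V := W1 k) ((Pi.evalAddMonoidHom (fun v : Pl k => Lb v) v).comp
            ((AddMonoidHom.snd _ _).comp (AddMonoidHom.snd _ _))) _ (fun g => (hm g).2.2 v) I⟩) hθ ξ hξ
      rw [H, neg_zero] at T
      refine ⟨_, fun v hv => (algebraMap (Lv v) (Lb v)).injective ?_, T.symm⟩
      rw [map_sub, map_pow, hs v hv, ← map_pow, ← map_sub, hp, emb_algK, pol]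
  refine hP (h1 hS D hn (fun i => ⟨hc i, hW i⟩) (fun i v hv => ?_) hx cx hx' cx' hθ (hξ P hS.P_na)
    b1 b2 b3 fun y y' η0 hy hy' h => hb ?_)
  · obtain ⟨s, -, h⟩ := WW_split hS.stg (e i) hv
    exact ⟨s, h⟩
  · rw [← mom_empty (fun i => prg p (e i)) X] at hg ⊢
    rw [← mom_empty (fun i => prg p (e i)) X']
    exact nondeg hT h0 hW (indep_pol (hS.inj.comp (Fin.castLE_injective hn))
      (fun i => (hS.vv_na _).1) hc fun i h => (he i).2 (hS.hinj _ (by simp [ec, h, pol])))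
      hx.a_eq hx.w_eq hx'.a_eq hx'.w_eq hy hy' hg h

end Pool.Agent.ASel
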