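import Pool.Agent.Work.MP_60d5ce_nt.AS.FLb
import Pool.Agent.Work.MP_60d5ce_nt.AS.FLt
import Pool.Agent.Work.MP_60d5ce_nt.AS.FH
import Pool.Agent.Work.MP_60d5ce_nt.AS.FNm
import Pool.Agent.Work.MP_60d5ce_nt.AS.WMain

/-!
# Few characters carry a good eigenvector  (AS, function field side)

PLAN.  `exists_LtD`, `min_model` (with `hig0`, `hig1`, `hig2`, `D0_mem`, `D1_mem`, `D1_D0`, `D0_inj`, `coh1`, `coh2`, `Su.card_fac`) give `x`, `J`, `ρ`, `dd`.  Apply `ASW.few_good` with `E = G = ι → ZMod p`, `pr g e = prg p e g`, `T = Fin r × Fin r'`,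
`Eb i = if h : i < 2 * s + 1 then Blk Φ (vv ⟨i, h⟩) else ⊥` (`Su.dim`, `card (fac' (F * b')) ≤ natDegree F + m`), `σ = L.ac Φ.σ0`, `act g = L.ac (Φ.γ g)`, `j` from `exists_j`, `Bb l i g = ∑ g', bW D (x i (g' - g)) (x l g')`,
`N c = ∑ i, c i • ∑ g, x i g`, `Good = {c | Gd (N c).1 (N c).2.1}`, `Bad` from `exists_bad`.  `D1 (N c) = 0`: sum the formula for `D1 (x i g)` over `g`.  The family `fun _ => N c` is in `C1` (`Hig.shift`, sum of the translates).
`j (act g u) = J (z (· + g))` (`RepF.shift`); the relation `∑ Bb * j = 0` is `bW_coc` for the cocycles `z g' - D0 (y g')` (`C1_spl`, `D1_D0`); the kernel statement is `repF_ker`; for an eigenvector `j (act g u) = j u` (`RepF.sigma`), so `z 0 = D0 (y 0) + N (j u)`, `repF_good`.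
The last hypothesis: `top … = ∑ g, (∑ g', bW (X (g' - g)) (X' g')) * …` for `X = ∑ i, c i • x i`, `X' = ∑ l, c' l • x l`; `top_eq`; `mom χ X I` is a cocycle (`map_mom`, `mom_sum`, `mom_conv`), `cn_mom`, `bW_coc`; `nd_main`.
-/

set_option linter.unusedSectionVars false

namespace Pool.Agent.ASel

open Polynomial Pool.Agent.Smith Finset

variable {p : ℕ} {k : Type} [Field k] [Fintype k] [hp : Fact p.Prime] [CharP k p]
  {A F : k[X]} {ϖ : RatFunc k} {ε : ℤ}

theorem FLat_fac {f g : k[X]} (hf : f ≠ 0) (hg : g ≠ 0) :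
    (fac' (f * g)).card ≤ f.natDegree + (fac' g).card := by
  classical
  refine (card_le_card (t := fac' f ∪ fac' g) fun v hv => ?_).trans ((card_union_le _ _).trans
    (Nat.add_le_add_right (le_trans ?_ sum_pdg_fac') _))
  · obtain ⟨a, b⟩ := (mem_fac' (mul_ne_zero hf hg)).1 hv
    exact mem_union.2 (((PF_irr a).prime.dvd_mul.1 b).imp (fun c => (mem_fac' hf).2 ⟨a, c⟩)
      fun c => (mem_fac' hg).2 ⟨a, c⟩)
  · rw [card_eq_sum_ones]
    exact sum_le_sum fun v _ => pdg_pos v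

/-- the pairing as a linear form in the character -/
def FLat_pr {ι : Type} [Fintype ι] (g : ι → ZMod p) : (ι → ZMod p) →ₗ[ZMod p] ZMod p where
  toFun e := prg p e g
  map_add' e e' := by simp [prg, add_mul, sum_add_distrib]
  map_smul' c e := by simp [prg, mul_sum, mul_assoc]

section abs

variable {G V V' : Type} [AddCommGroup G] [Fintype G] [AddCommGroup V] [Module (ZMod p) V]
  [AddCommGroup V'] [Module (ZMod p) V'] {r r' : ℕ}

/-- the norm of a linear combination -/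
def FLat_N (x : Fin r → G → V) : (Fin r → ZMod p) →+ V where
  toFun c := ∑ g, ∑ i, c i • x i g
  map_zero' := by simp
  map_add' c c' := by simp [add_smul, sum_add_distrib]

theorem FLat_mem {C : AddSubgroup (G → V)} {x : Fin r → G → V} (hx : ∀ i, x i ∈ C)
    (c : Fin r → ZMod p) : (fun g => ∑ i, c i • x i g) ∈ C := by
  have := sum_mem (t := univ) fun i _ => ZMod.smul_mem (hx i) (c i)
  rwa [show ∑ i, c i • x i = fun g => ∑ i, c i • x i g from funext fun g => by simp] at this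

theorem FLat_const {C : AddSubgroup (G → V)} {t : G → V →+ V} (h : Hig C t) {f : G → V}
    (hf : f ∈ C) : (fun _ => ∑ g, f g) ∈ C := by
  have := sum_mem (t := univ) fun a _ => h.shift f hf a
  rwa [show (∑ a, fun g => f (g + a)) = fun _ => ∑ g, f g from funext fun g => by
    rw [Finset.sum_apply]
    exact Equiv.sum_comp (Equiv.addLeft g) f] at this

theorem FLat_coc (D : V →+ V') {x : Fin r → G → V} {ρ : Fin r' → G → V'}
    {dd : Fin r → Fin r' → G → ZMod p} (h : ∀ i g, D (x i g) = ∑ t, ∑ h, dd i t h • ρ t (g - h))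
    {n : ℕ} (χ : Fin n → G →+ ZMod p)
    (hd : ∀ i t (I : Finset (Fin n)), ∑ g, dd i t g * ∏ i ∈ I, χ i g = 0) (c : Fin r → ZMod p)
    (I : Finset (Fin n)) : D (mom χ (fun g => ∑ i, c i • x i g) I) = 0 := by
  rw [mom_sum, map_sum]
  refine sum_eq_zero fun i _ => ?_
  have := mom_sum univ χ (fun _ => 1) (fun t g => ∑ h, dd i t h • ρ t (g - h)) I
  simp only [one_smul, mom_conv χ _ _ (hd i _), sum_const_zero] at this
  rw [ZMod.map_smul, map_mom]
  simp only [h]
  rw [this, smul_zero]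

theorem FLat_bil (β : V →+ V →+ ZMod p) (x : Fin r → V) (c : Fin r → ZMod p) (y : V) :
    β (∑ i, c i • x i) y = ∑ i, c i * β (x i) y ∧ β y (∑ i, c i • x i) = ∑ i, c i * β y (x i) :=
  ⟨(map_sum (β.flip y) _ _).trans (sum_congr rfl fun i _ => ZMod.map_smul (β.flip y) _ _),
    (map_sum (β y) _ _).trans (sum_congr rfl fun i _ => ZMod.map_smul (β y) _ _)⟩

theorem FLat_rel (β : V →+ V →+ ZMod p) (x : Fin r → G → V) (m : G → Fin r → ZMod p) (y : G → V) :
    ∑ i, ∑ g, (∑ g', β (x i (g' - g)) (y g')) * m g i =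
      ∑ g', β (∑ i, ∑ g, m g i • x i (g' - g)) (y g') := by
  have e : ∀ (c : ZMod p) (a b : V), β (c • a) b = c * β a b := fun c a b =>
    ZMod.map_smul (β.flip b) c a
  simp only [map_sum, AddMonoidHom.finsetSum_apply, e, sum_mul]
  rw [sum_comm (s := (univ : Finset G))]
  refine sum_congr rfl fun i _ => ?_
  rw [sum_comm]
  exact sum_congr rfl fun g' _ => sum_congr rfl fun g _ => mul_comm _ _

theorem FLat_top {E : Type} [AddCommGroup E] [Module (ZMod p) E] (pr : G → E →ₗ[ZMod p] ZMod p)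
    (β : V →+ V →+ ZMod p) (x : Fin r → G → V) (c c' : Fin r → ZMod p) {n : ℕ} (h : Fin n → E)
    (hJ : E) : ASW.top pr (fun l i g => ∑ g', β (x i (g' - g)) (x l g')) c' c h hJ =
      ∑ g, (∑ g', β (∑ i, c i • x i (g' - g)) (∑ i, c' i • x i g')) *
        ((∏ s, pr g (h s)) * pr g hJ) := by
  simp only [ASW.top, (FLat_bil _ _ _ _).1, (FLat_bil _ _ _ _).2]
  rw [sum_comm, sum_congr rfl fun i _ => sum_comm, sum_comm]
  refine sum_congr rfl fun g _ => ?_
  simp only [← sum_mul]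
  congr 1
  rw [sum_comm (s := (univ : Finset G))]
  refine sum_congr rfl fun i _ => ?_
  simp only [mul_sum, sum_mul]
  rw [sum_comm]
  exact sum_congr rfl fun g' _ => sum_congr rfl fun l _ => by ring

end abs

theorem lat_bound (hT : Ty p A F ϖ ε) (n0 s : ℕ) {δ : ℝ} (hδ : 0 < δ) : ∃ a m0 n1 : ℕ, 1 ≤ a ∧
    ∀ m ≥ m0, ∀ {ι : Type} [Fintype ι] {b' : k[X]} {P : Pl k} {d' : RatFunc k}
      {vv : Fin (2 * s + 1) → Pl k} {Φ : ASF p k ι}, Su A F b' P d' vv Φ → (fac' b').card ≤ m →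
      (∀ i, m ^ a ≤ pdg (vv i)) → P ∉ BadS p A F b' d' ϖ ε n1 vv →
      ∀ L : LatD A F (b' * plp P) n0 Φ ϖ ε,
        ({e | L.GoodEig e}.ncard : ℝ) ≤ ((p : ℝ) / p ^ s + δ) * p ^ Fintype.card ι := by
  classical
  obtain ⟨c1, H1⟩ := coh1 hT n0
  obtain ⟨c2, H2⟩ := coh2 hT n0
  obtain ⟨n1, H3⟩ := nd_main hT n0 (2 * s + 1)
  obtain ⟨a, m0, ha, H⟩ := ASW.few_good (p := p) s (3 * c1 + 3 * c2 + F.natDegree + 1) hδ
  refine ⟨a, max m0 1, n1, ha, ?_⟩
  intro m hm ι _ b' P d' vv Φ hS hb hv hP L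
  have m1 : 1 ≤ m := (le_max_right _ _).trans hm
  have hs := hS.stg
  obtain ⟨D, hD⟩ := exists_LtD hT hs L
  obtain ⟨r, r', x, J, ρ, dd, r1, r2, hx, hd, hd0, hz, hJ, hc⟩ := min_model (p := p)
    (fun g => by ext l; simp) (hig0 hs) (hig1 hs) (hig2 hs D) _ _ (D0_mem hs hT) (D1_mem hs hT D)
    (D1_D0 hs hT D) (D0_inj hs hT) (H1 hs D) (H2 hs D)
  obtain ⟨j, hj⟩ := exists_j hT hs hD J hJ
  obtain ⟨Bad, b1, b2, b3⟩ := exists_bad hT hs (D := D) (FLat_N x)
    (fun c => FLat_const (hig1 hs) (FLat_mem hx c))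
    (fun c => by
      have := FLat_coc (D1 D) hd (n := 0) (fun i => i.elim0)
        (fun i t I => by simpa [eq_empty_of_isEmpty I] using hd0 i t) c ∅
      rwa [mom_empty] at this)
    fun c y hy e => hc c y hy (by
      rw [← e]
      simp only [smul_sum]
      exact sum_comm)
  have hf := hS.card_fac
  have q1 : r ≤ (3 * c1 + 3 * c2 + F.natDegree + 1) * m := r1.trans (by nlinarith)
  have q2 : r' ≤ (3 * c1 + 3 * c2 + F.natDegree + 1) * m := r2.trans (by nlinarith)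
  have sg : ∀ u, j (L.ac Φ.σ0 u) = j u := fun u => by
    obtain ⟨z, h⟩ := exists_repF hT hs hD u
    rw [hj _ _ h.sigma, hj _ _ h]
  have key : ∀ u, ∃ z, RepF L D u z ∧ ∃ y ∈ C0 F (b' * plp P) Φ, ∀ g, z g =
      D0 p A (b' * plp P) ϖ (y g) + ∑ i, ∑ h, j (L.ac (Φ.γ h) u) i • x i (g - h) := fun u => by
    obtain ⟨z, h⟩ := exists_repF hT hs hD u
    simp only [fun g => hj _ _ (h.shift g)]
    exact ⟨z, h, hz z h.1 h.2.1⟩
  have := H m ((le_max_left _ _).trans hm) r (ι → ZMod p) (ι → ZMod p) (Fin r × Fin r') L.M FLat_pr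
    (fun i => if h : i < 2 * s + 1 then Blk Φ (vv ⟨i, h⟩) else ⊥) (L.ac Φ.σ0) (fun g => L.ac (Φ.γ g))
    j (fun l i g => ∑ g', bW D (x i (g' - g)) (x l g')) (fun t => dd t.1 t.2)
    {c | Gd p A ϖ (FLat_N x c).1 (FLat_N x c).2.1} Bad q1
    (by rw [Fintype.card_prod, Fintype.card_fin, Fintype.card_fin, sq]; exact Nat.mul_le_mul q1 q2)
    (fun i hi => by
      have := FLat_fac hT.F_ne hS.b'_ne
      rw [dif_pos hi]
      exact (hv _).trans ((hS.dim _).trans (Nat.add_le_add_left (by nlinarith) _)))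
    (fun g u => L.comm _ _ u) L.norm L.tf sg
    (fun u h => by
      obtain ⟨z, h1, y, hy, e⟩ := key u
      simp only [h, Pi.zero_apply, zero_smul, sum_const_zero, add_zero] at e
      exact repF_ker hT hs hy (funext e ▸ h1))
    (fun u l => by
      obtain ⟨z, h1, y, hy, e⟩ := key u
      rw [FLat_rel (bW D) x (fun g => j (L.ac (Φ.γ g) u))]
      refine sum_eq_zero fun g _ => ?_
      rw [← sub_eq_iff_eq_add'.2 (e g)]
      exact bW_coc hT.F_ne hs.b_ne (sub_mem (C1_spl hs h1.1 g) (C1_spl hs (D0_mem hs hT y hy) g))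
        (by rw [map_sub, h1.2.1, D1_D0 hs hT D y hy, sub_zero]) _)
    (fun t => hd0 _ _) (fun h => h.1 0 (by simp [hp.out.ne_zero])) (fun n c _ => b2 n c)
    (fun n c h => b3 n c h) fun n n1 hn h h1 h2 h3 c hc c' hc' => by
      have cc := FLat_coc (D1 D) hd (fun i => prg p (h i)) fun i t => h3 (i, t)
      obtain ⟨eJ, e⟩ := H3 hS hP D hn n1 h
        (fun i => ⟨(dif_pos (i.2.trans_le hn) ▸ h1 i :), h2 i⟩) _ (FLat_mem hx c) _
        (FLat_mem hx c') (cc c) (cc c') hc fun e => hc' ((b1 _ _ _).2 e)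
      refine ⟨eJ, fun e' => e ?_⟩
      rw [FLat_top] at e'
      have := (top_eq (fun i => prg p (h i)) (prg p eJ) (bW D) (fun g => ∑ i, c i • x i g)
        fun g => ∑ i, c' i • x i g).symm.trans e'
      simpa only [fun I => bW_coc hT.F_ne hs.b_ne ((cn_mom hs h (FLat_mem hx c)).spl I) (cc c I),
        zero_sub, mul_neg, sum_neg_distrib, neg_eq_zero] using this
  rw [Fintype.card_fun, ZMod.card, Nat.cast_pow] at this
  refine le_trans (Nat.cast_le.2 (Set.ncard_le_ncard ?_)) this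
  rintro e ⟨u, a, w, h1, h2, h3, h4⟩
  refine ⟨u, h1, ?_⟩
  obtain ⟨z, h5, y, hy, e⟩ := key u
  have it : ∀ n, j ((L.ac Φ.σ0)^[n] u) = j u := fun n => by
    induction n with
    | zero => rfl
    | succ n ih => rw [Function.iterate_succ_apply', sg, ih]
  refine repF_good hT hs h2 h3 h4 h5 hy ((e 0).trans (congrArg _ ?_))
  simp only [h1, it]
  rw [sum_comm]
  exact Equiv.sum_comp (Equiv.subLeft 0) fun g => ∑ i, j u i • x i g

end Pool.Agent.ASel
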