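import Pool.Agent.Work.MP_60d5ce_nt.AS.FC
import Pool.Agent.Work.MP_60d5ce_nt.AS.PF

/-!
# Classes of a lattice as families of cocycles  (AS, function field side)

PLAN.  `k2_eqv`, `eqv_k2`: `σ * γ g` and `γ (g + ρ)` differ by an automorphism fixing all `w l` (note `γ g` maps such automorphisms to such by conjugation, `exists_rho`).  `approx`: `Eqv.poly` over `Lv v` gives coefficients
`c v m ∈ Lv v`; `pf_many` for each `m`; `eqv_mon`.  `eqv_near`: let `H` be the subgroup of the `ρ` that come from a local automorphism `τ ρ`; with `o g = Quotient.out (mk g)` put `y' g = τ (g - o g) (y (o g))`.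
`exists_repF`: take `Rep u a w`; `T` the finite set of the `v ∈ InU` where some `γ g a`, `γ g w` is not integral (`fin_nonint`); for `v ∈ T` use `LatD.good` with `j = (emb v).comp (γ g)`; `τ (y g) - y (g + ρ)` is integral by `wp_int`;
`eqv_near`, `approx` give `Y`; replace `(a, w)` by `(a - ℘ Y, w + φ Y ϖ)` (`LatD.cob` with `-Y 0`); the local components come from `LatD.na` and `eqv_of_wp` (`na_root`); `D1_eq_zero`, `LatD.act`.
`repF_zero`: `LatD.uniq`, `wp_int`, `wp_fix_zero`.  `repF_ker`: `LatD.cob`, `LatD.ker`.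
-/

set_option linter.unusedSectionVars false

namespace Pool.Agent.ASel

open Polynomial Pool.Agent.Smith Finset

variable {p : ℕ} {k : Type} [Field k] [Fintype k] [hp : Fact p.Prime] [CharP k p] {ι : Type}
  {A F b : k[X]} {n0 : ℕ} {ϖ : RatFunc k} {ε : ℤ} {Φ : ASF p k ι}

theorem FRep_same {F M : Type} [Field F] [Field M] [Algebra F M] {w : ι → M} {x : M}
    (hx : ∀ τ : M ≃ₐ[F] M, (∀ l, τ (w l) = w l) → τ x = x) {σ σ' : M ≃ₐ[F] M}
    (h : ∀ l, σ (w l) = σ' (w l)) : σ x = σ' x :=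
  σ'.symm_apply_eq.1 (hx (σ'⁻¹ * σ) fun l => σ'.symm_apply_eq.2 (h l))

theorem FRep_neg {M : Type} [Field M] [CharP M p] (y : M) : (-y) ^ p = -y ^ p := by
  rw [neg_pow, neg_one_pow_char, neg_one_mul]

/-- the valuation ring -/
def FRep_O (v : Pl k) : Subring (Lb v) where
  carrier := {x | nm v x ≤ 1}
  mul_mem' ha hb := (map_mul (nm v) _ _).trans_le (mul_le_one₀ ha (apply_nonneg _ _) hb)
  one_mem' := (map_one (nm v)).le
  add_mem' ha hb := (nm_na v _ _).trans (max_le ha hb)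
  zero_mem' := (map_zero (nm v)).trans_le zero_le_one
  neg_mem' {x} ha := ((nm v).map_neg x).trans_le ha

theorem FRep_phi {v : Pl k} {a y : Lb v} (ha : nm v a = 1) (hy : y ∈ FRep_O v) :
    y ^ p / a ∈ FRep_O v := by
  rw [div_eq_mul_inv]
  exact mul_mem (pow_mem hy p) (show nm v a⁻¹ ≤ 1 by rw [map_inv₀, ha, inv_one])

theorem FRep_S0 {v : Pl k} (hv : InU F b v) : ¬ InS0 F v := fun h =>
  h.elim hv.1 fun h => hv.2 (h.mul_right b)

theorem FRep_eqv {y : (ι → ZMod p) → Kb k} (hy : y ∈ Eqv p (RatFunc k) Φ.w) (A : k[X]) :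
    (fun g => y g ^ p / pk _ A) ∈ Eqv p (RatFunc k) Φ.w := by
  have h := Eqv.mul (Eqv.pow hy p) (Eqv.alg (pk (RatFunc k) A)⁻¹)
  simp only [map_inv₀, ← div_eq_mul_inv] at h
  exact h

theorem FRep_pk (v : Pl k) (τ : Lb v ≃ₐ[Lv v] Lb v) (A : k[X]) : τ (pk _ A) = pk _ A := by
  rw [← alg_pk, τ.commutes]

theorem FRep_ne {M : Type} [Field M] {a : M} (h : ∀ t : M, t ^ (p - 1) ≠ a) : a ≠ 0 := fun e =>
  h 0 (by rw [e, zero_pow (Nat.sub_pos_of_lt hp.out.one_lt).ne'])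

theorem k2_eqv {x : Kb k} (hx : Φ.K2 x) : (fun g => Φ.γ g x) ∈ Eqv p (RatFunc k) Φ.w :=
  ⟨fun _ => om_act _ hx.1, fun σ ρ h g => FRep_same hx.2 (σ := σ * Φ.γ g) fun l => by
    rw [AlgEquiv.mul_apply, Φ.γ_w, Φ.γ_w, map_add, h, map_natCast, Pi.add_apply, FEq_add,
      add_right_comm, add_assoc]⟩

theorem eqv_k2 {f : (ι → ZMod p) → Kb k} (hf : f ∈ Eqv p (RatFunc k) Φ.w) (g : ι → ZMod p) :
    Φ.K2 (f g) ∧ ∀ h, Φ.γ h (f g) = f (g + h) :=
  ⟨⟨hf.1 g, Eqv.fix hf g⟩, fun h => hf.2 _ h (Φ.γ_w h) g⟩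

theorem eqv_near {v : Pl k} {w : ι → Lb v} (hw : ASr p (Lv v) w) (y : (ι → ZMod p) → Lb v)
    (h1 : ∀ g, y g ∈ Om (Lv v) (Lb v) ∧
      ∀ τ : Lb v ≃ₐ[Lv v] Lb v, (∀ l, τ (w l) = w l) → τ (y g) = y g)
    (h2 : ∀ (τ : Lb v ≃ₐ[Lv v] Lb v) (ρ : ι → ZMod p), (∀ l, τ (w l) = w l + ((ρ l).val : Lb v)) →
      ∀ g, nm v (τ (y g) - y (g + ρ)) ≤ 1) :
    ∃ y' ∈ Eqv p (Lv v) w, ∀ g, nm v (y' g - y g) ≤ 1 := by
  let s : Setoid (ι → ZMod p) :=
    ⟨fun g g' => ∃ τ : Lb v ≃ₐ[Lv v] Lb v, ∀ l, τ (w l + ((g l).val : Lb v)) = w l + (g' l).val,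
      fun _ => ⟨1, fun _ => rfl⟩, fun ⟨τ, h⟩ => ⟨τ.symm, fun l => τ.symm_apply_eq.2 (h l).symm⟩,
      fun ⟨τ, h⟩ ⟨τ', h'⟩ => ⟨τ' * τ, fun l => by rw [AlgEquiv.mul_apply, h, h']⟩⟩
  choose τ hτ using fun g => (Quotient.mk_out (s := s) g : ∃ τ : Lb v ≃ₐ[Lv v] Lb v, _)
  refine ⟨fun g => τ g (y (Quotient.mk s g).out), ⟨fun g => om_act _ (h1 _).1, fun σ ρ h g => ?_⟩,
    fun g => ?_⟩
  · have e : ∀ l, σ (w l + ((g l).val : Lb v)) = w l + ((g + ρ) l).val := fun l => by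
      rw [map_add, h, map_natCast, Pi.add_apply, FEq_add, add_right_comm, add_assoc]
    have e' : Quotient.mk s g = Quotient.mk s (g + ρ) := Quotient.sound ⟨σ, e⟩
    show (σ * τ g) _ = τ (g + ρ) (y (Quotient.mk s (g + ρ)).out)
    rw [← e']
    refine FRep_same (h1 _).2 fun l => ?_
    have e1 := ((congrArg σ (hτ g l)).trans (e l)).trans (hτ (g + ρ) l).symm
    rw [← e', map_add, map_add, map_add, map_natCast, map_natCast, map_natCast] at e1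
    exact add_right_cancel e1
  · have e := h2 (τ g) (g - (Quotient.mk s g).out) (fun l => ?_) (Quotient.mk s g).out
    · rwa [add_sub_cancel] at e
    · have e1 := hτ g l
      rw [map_add, map_natCast] at e1
      rw [eq_sub_of_add_eq e1, Pi.sub_apply, FEq_val, FEq_val, FEq_val, map_sub, add_sub_assoc]

variable [Fintype ι]

theorem approx (T : Finset (Pl k)) (y : ∀ v : Pl k, (ι → ZMod p) → Lb v)
    (hy : ∀ v ∈ T, y v ∈ Eqv p (Lv v) fun l => emb v (Φ.w l)) :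
    ∃ Y ∈ Eqv p (RatFunc k) Φ.w, ∀ v, (∀ l, nm v (emb v (Φ.w l)) ≤ 1) → ∀ g,
      (v ∈ T → nm v (emb v (Y g) - y v g) ≤ 1) ∧ (v ∉ T → nm v (emb v (Y g)) ≤ 1) := by
  classical
  choose! c hc using fun v hv => Eqv.poly (Φ.asr.emb v) (hy v hv)
  choose e e1 e2 _ using fun m => pf_many T fun v => c v m
  refine ⟨∑ m : ι → Fin p, fun g => algebraMap _ _ (e m) *
    ∏ l, (Φ.w l + ((g l).val : Kb k)) ^ (m l : ℕ), sum_mem fun m _ =>
      Eqv.mul (Eqv.alg _) (eqv_mon Φ.asr _), fun v hv g => ?_⟩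
  have h1 : ∀ m : ι → Fin p, ∏ l, (emb v (Φ.w l) + ((g l).val : Lb v)) ^ (m l : ℕ) ∈ FRep_O v :=
    fun m => prod_mem fun l _ => pow_mem (add_mem (hv l) (natCast_mem _ _)) _
  simp only [Finset.sum_apply, map_sum, map_mul, map_prod, map_pow, map_add, map_natCast, emb_algK]
  refine ⟨fun h => ?_, fun h => ?_⟩
  · rw [hc v h g, ← Finset.sum_sub_distrib]
    refine (FRep_O v).sum_mem fun m _ => ?_
    rw [← sub_mul, ← map_sub]
    exact mul_mem ((nm_alg v _).trans_le ((norm_sub_rev _ _).trans_le (e1 m v h))) (h1 m)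
  · exact (FRep_O v).sum_mem fun m _ =>
      mul_mem (((nm_alg v _).trans (norm_alg v _)).trans_le (e2 m v h)) (h1 m)

/-- the family `z` of cocycles represents the class of `u` -/
def RepF (L : LatD A F b n0 Φ ϖ ε) (D : LtD p A F b n0 Φ.d ϖ ε) (u : L.M)
    (z : (ι → ZMod p) → W1 k) : Prop :=
  z ∈ C1 A F b Φ ∧ (∀ g, D1 D (z g) = 0) ∧ L.Rep u (z 0).1 (z 0).2.1

variable {L : LatD A F b n0 Φ ϖ ε} {D : LtD p A F b n0 Φ.d ϖ ε}

theorem RepF.sub {u u' : L.M} {z z' : (ι → ZMod p) → W1 k} (h : RepF L D u z) (h' : RepF L D u' z') :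
    RepF L D (u - u') (z - z') :=
  ⟨sub_mem h.1 h'.1, fun g => by rw [Pi.sub_apply, map_sub, h.2.1, h'.2.1, sub_zero],
    L.sub h.2.2 h'.2.2⟩

theorem RepF.shift {u : L.M} {z : (ι → ZMod p) → W1 k} (h : RepF L D u z) (g : ι → ZMod p) :
    RepF L D (L.ac (Φ.γ g) u) fun g' => z (g' + g) := by
  obtain ⟨⟨h1, h2, h3⟩, h4, h5⟩ := h
  refine ⟨⟨⟨Eqv.shift h1.1 g, fun v hv _ => h1.2 v hv _⟩, ⟨Eqv.shift h2.1 g,
    fun v hv _ => h2.2 v hv _⟩, fun v => ⟨Eqv.shift (h3 v).1 g, fun hv _ => (h3 v).2 hv _⟩⟩,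
    fun _ => h4 _, ?_⟩
  have e := L.act (Φ.γ g) h5
  rwa [(eqv_k2 h1.1 0).2 g, (eqv_k2 h2.1 0).2 g] at e

theorem RepF.sigma {u : L.M} {z : (ι → ZMod p) → W1 k} (h : RepF L D u z) :
    RepF L D (L.ac Φ.σ0 u) z := by
  refine ⟨h.1, h.2.1, ?_⟩
  have e := L.act Φ.σ0 h.2.2
  rwa [Eqv.fix h.1.1.1 0 _ Φ.σ_w, Eqv.fix h.1.2.1.1 0 _ Φ.σ_w] at e

variable (hT : Ty p A F ϖ ε) (hS : Stg A F b Φ)
include hT hS

theorem exists_repF (hD : ∀ u a w, L.Rep u a w → ∀ v, InS p A F b v →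
    (rt v (emb v a), rt v (emb v w)) ∈ D.Lt v) (u : L.M) : ∃ z, RepF L D u z := by
  classical
  obtain ⟨a, w, h⟩ := L.ex u
  have ha := k2_eqv (L.mem h).1
  have hw := k2_eqv (L.mem h).2
  have hA : ∀ v, InU F b v → nm v (pk (Lb v) A) = 1 := fun v hv => nm_pk_one hT.dvd (FRep_S0 hv)
  choose! y y1 y2 y3 using fun v (hv : InU F b v) g =>
    L.good (L.act (Φ.γ g) h) v hv.1 hv.2 (emb v)
  choose! y' y4 y5 using fun v (hv : InU F b v) =>
    eqv_near (Φ.asr.emb v) (y v) (y1 v hv) fun τ ρ hρ g => wp_int (p := p) (nm_na v) (hA v hv) (by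
      have e := (Eqv.emb v ha).2 τ ρ hρ g
      have e1 : τ (emb v (Φ.γ g a) - (y v g ^ p / pk _ A - y v g)) ∈ FRep_O v :=
        (nm_iso v τ _).trans_le (y2 v hv g)
      have e2 := (FRep_O v).sub_mem (y2 v hv (g + ρ)) e1
      rw [map_sub, map_sub, map_div₀, map_pow, FRep_pk, e, sub_sub_sub_cancel_left] at e2
      rwa [Wp_sub])
  have fin : {v | InU F b v ∧ ∃ g, 1 < nm v (emb v (Φ.γ g a)) ∨
      1 < nm v (emb v (Φ.γ g w))}.Finite :=
    (Set.finite_iUnion fun g => (fin_nonint (Φ.γ g a)).union (fin_nonint (Φ.γ g w))).subset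
      fun v hv => Set.mem_iUnion.2 hv.2
  obtain ⟨Y, Y1, Y2⟩ := approx (Φ := Φ) fin.toFinset y' fun v hv => y4 v (fin.mem_toFinset.1 hv).1
  have int : ∀ v, InU F b v → ∀ g, emb v (Φ.γ g a - (Y g ^ p / pk _ A - Y g)) ∈ FRep_O v ∧
      emb v (Φ.γ g w + Y g ^ p / pk _ A * algebraMap _ _ ϖ) ∈ FRep_O v := fun v hv g => by
    have h0 := Y2 v (fun l => root_le (Φ.hw l) le_rfl
      (hS.h_int l v (Or.inr fun c => hv.2 (c.mul_left F)))) g
    have hϖ : algebraMap (RatFunc k) (Lb v) ϖ ∈ FRep_O v :=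
      (nm_algK v ϖ).trans_le (hT.int v (FRep_S0 hv))
    simp only [map_sub, map_add, map_mul, map_div₀, map_pow, emb_pk, AlgHom.commutes]
    by_cases c : v ∈ fin.toFinset
    · have e : emb v (Y g) - y v g ∈ FRep_O v := by
        rw [← sub_add_sub_cancel _ (y' v g)]
        exact add_mem (h0.1 c) (y5 v hv g)
      have e1 := FRep_phi (p := p) (hA v hv) e
      have e2 := (FRep_O v).sub_mem (y2 v hv g) (sub_mem e1 e)
      have e3 := (FRep_O v).add_mem (y3 v hv g) (mul_mem e1 hϖ)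
      rw [Wp_sub, sub_sub, add_sub_cancel] at e2
      rw [sub_pow_char, sub_div, sub_mul, add_assoc, add_sub_cancel] at e3
      exact ⟨e2, e3⟩
    · have e := h0.2 c
      have e1 := FRep_phi (p := p) (hA v hv) e
      have e2 := not_or.1 fun c' => c (fin.mem_toFinset.2 ⟨hv, g, c'⟩)
      exact ⟨sub_mem (not_lt.1 e2.1) (sub_mem e1 e), add_mem (not_lt.1 e2.2) (mul_mem e1 hϖ)⟩
  have rep : ∀ g, L.Rep (L.ac (Φ.γ g) u) (Φ.γ g a - (Y g ^ p / pk _ A - Y g))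
      (Φ.γ g w + Y g ^ p / pk _ A * algebraMap _ _ ϖ) := fun g => by
    have e := L.cob (L.act (Φ.γ g) h) (eqv_k2 (neg_mem Y1) g).1
    rwa [Pi.neg_apply, FRep_neg, neg_div, ← neg_sub', ← sub_eq_add_neg, neg_mul,
      sub_neg_eq_add] at e
  have ha' := sub_mem ha (sub_mem (FRep_eqv Y1 A) Y1)
  have hw' := add_mem hw (Eqv.mul (FRep_eqv Y1 A) (Eqv.alg ϖ))
  choose! n n1 n2 using fun v (hv : InNa p A b v) g => L.na (rep g) v hv.1 hv.2.1 hv.2.2 (emb v)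
  have hz : (fun g => (Φ.γ g a - (Y g ^ p / pk _ A - Y g),
      Φ.γ g w + Y g ^ p / pk _ A * algebraMap _ _ ϖ,
      fun v => if InNa p A b v then n v g else 0)) ∈ C1 A F b Φ := by
    refine ⟨⟨ha', fun v hv g => (int v hv g).1⟩, ⟨hw', fun v hv g => (int v hv g).2⟩,
      fun v => ⟨?_, fun hv g => if_neg hv⟩⟩
    by_cases hv : InNa p A b v
    · simp only [if_pos hv]
      exact eqv_of_wp (Φ.asr.emb v) (FRep_ne (na_root hT.dvd hS.cop hv)) (na_root hT.dvd hS.cop hv)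
        (Eqv.emb v ha') (fun g => (n1 v hv g).2) fun g => by rw [alg_pk]; exact n2 v hv g
    · simp only [if_neg hv]
      exact zero_mem _
  refine ⟨_, hz, fun g => (D1_eq_zero (C1_spl hS hz g)).2 ⟨L.coc (rep g), hD _ _ _ (rep g),
    fun v hv => ?_⟩, ?_⟩
  · simp only [if_pos hv]
    exact n2 v hv g
  · have e := rep 0
    rwa [L.ac_triv _ u (Φ.γ_w0 0) fun l => by simp [Φ.γ_w]] at e

theorem repF_zero {z : (ι → ZMod p) → W1 k} (h : RepF L D 0 z) :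
    ∃ y ∈ C0 F b Φ, ∀ g, z g = D0 p A b ϖ (y g) := by
  classical
  obtain ⟨hz, h4, h5⟩ := h
  obtain ⟨y, y1, y2, y3⟩ := L.uniq h5
  have e1 : ∀ g, (z g).1 = Φ.γ g y ^ p / pk _ A - Φ.γ g y := fun g => by
    have e := (eqv_k2 hz.1.1 0).2 g
    rw [zero_add, y2, map_sub, map_div₀, map_pow] at e
    exact e.symm.trans (congrArg (_ / · - _) ((Φ.γ g).commutes _))
  have e2 : ∀ g, (z g).2.1 = -(Φ.γ g y ^ p / pk _ A * algebraMap _ _ ϖ) := fun g => by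
    have e := (eqv_k2 hz.2.1.1 0).2 g
    rw [zero_add, y3, map_neg, map_mul, map_div₀, map_pow, AlgEquiv.commutes] at e
    exact e.symm.trans (congrArg (-(_ / · * _)) ((Φ.γ g).commutes _))
  have e3 : ∀ v g, emb v (z g).1 = emb v (Φ.γ g y) ^ p / pk _ A - emb v (Φ.γ g y) := fun v g => by
    rw [e1, map_sub, map_div₀, map_pow, emb_pk]
  refine ⟨_, ⟨k2_eqv y1, fun v hv g => wp_int (p := p) (nm_na v) (nm_pk_one hT.dvd (FRep_S0 hv))
    (e3 v g ▸ hz.1.2 v hv g)⟩, fun g => Prod.ext (e1 g) (Prod.ext (e2 g) (funext fun v => ?_))⟩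
  show _ = if InNa p A b v then emb v (Φ.γ g y) else 0
  split_ifs with hv
  · refine sub_eq_zero.1 (wp_fix_zero (Φ.asr.emb v) (FRep_ne (na_root hT.dvd hS.cop hv))
      (na_root hT.dvd hS.cop hv) (Eqv.fix (sub_mem (hz.2.2 v).1 (Eqv.emb v (k2_eqv y1))) g) ?_)
    rw [alg_pk, Wp_sub, ← e3, ← ((D1_eq_zero (C1_spl hS hz g)).1 (h4 g)).2.2 v hv, sub_self]
  · exact (hz.2.2 v).2 hv g

theorem repF_ker {u : L.M} {y : (ι → ZMod p) → Kb k} (hy : y ∈ C0 F b Φ)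
    (h : RepF L D u fun g => D0 p A b ϖ (y g)) : ∃ u', u = L.ac Φ.σ0 u' - u' := by
  have e : L.Rep u (y 0 ^ p / pk _ A - y 0 + _) (-(y 0 ^ p / pk _ A * algebraMap _ _ ϖ) - _) :=
    L.cob h.2.2 (eqv_k2 (neg_mem hy.1) 0).1
  rw [Pi.neg_apply, FRep_neg, neg_div, ← neg_sub', add_neg_cancel, neg_mul, sub_self] at e
  exact L.ker e

/-- goodness does not depend on the representative -/
theorem repF_good {u : L.M} {a w : Kb k} (h : L.Rep u a w)
    (h1 : ∀ y, Φ.K2 y → a ≠ y ^ p / pk _ A - y) (h2 : ϖ = 0 → w ≠ 0)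
    {z : (ι → ZMod p) → W1 k} (hz : RepF L D u z) {y : (ι → ZMod p) → Kb k} (hy : y ∈ C0 F b Φ)
    {x : W1 k} (hx : z 0 = D0 p A b ϖ (y 0) + x) :
    (∀ y0 : RatFunc k, x.1 ≠ algebraMap _ _ (y0 ^ p / pk _ A - y0)) ∧ (ϖ = 0 → x.2.1 ≠ 0) := by
  have e := L.sub h hz.2.2
  rw [sub_self, hx] at e
  obtain ⟨y1, k1, k2, k3⟩ := L.uniq e
  have k2' : a - (y 0 ^ p / pk _ A - y 0 + x.1) = _ := k2
  have k3' : w - (-(y 0 ^ p / pk _ A * algebraMap _ _ ϖ) + x.2.1) = _ := k3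
  refine ⟨fun y0 c => h1 (y1 + y 0 + algebraMap _ _ y0) ⟨add_mem (add_mem k1.1 (hy.1.1 0))
    (om_alg y0), fun σ hσ => ?_⟩ ?_, fun c c' => h2 c ?_⟩
  · rw [map_add, map_add, k1.2 σ hσ, Eqv.fix hy.1 0 σ hσ, σ.commutes]
  · rw [c, map_sub, map_div₀, map_pow] at k2'
    rw [Wp_add, Wp_add, ← k2', add_assoc]
    exact (sub_add_cancel _ _).symm
  · simpa [c, c'] using k3'

end Pool.Agent.ASel
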