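import Pool.Agent.Work.MP_60d5ce_nt.AS.FB
import Pool.Agent.Work.MP_60d5ce_nt.AS.FRep

/-!
# The bad lines and the class map  (AS, function field side)

PLAN.  `bd_zero`: `y` is regular at `InU` (`wp_int`), the third components of `z` and `D0 y` lie in `Lv v` (`Eqv.const`) and solve the same equation (`D1_eq_zero`, `C1_spl`, `wp_fix_zero`, `na_root`).
`exists_bad`: the pairs `(κ, c')` with the three equations of `Bd` form a submodule `Γ`; the projection to `κ` is injective on `Γ` (`bd_zero`, `h3`), `Bad` is the image under the second projection.  If `c'` lies on both lines, with `κ, y` and `κ', y'`, then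
`(κ - κ') a ∈ ℘ k(t)` gives `κ = κ'` (multiply by the inverse), `y = y'` (`Ty.nr`), `2 κ w = 0`; one of the two signs is `1`, so `2 κ ϖ = 0`; `Gd` gives `κ = 0` (`Ty.five`).
`exists_j`: `j u = J z` for a chosen `RepF u z` (`exists_repF`); independent of the choice by `RepF.sub`, `repF_zero`.
-/

set_option linter.unusedSectionVars false

namespace Pool.Agent.ASel

open Polynomial Pool.Agent.Smith Finset

variable {p : ℕ} {k : Type} [Field k] [Fintype k] [hp : Fact p.Prime] [CharP k p] {ι : Type}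
  [Fintype ι] {A F b : k[X]} {n0 : ℕ} {ϖ : RatFunc k} {ε : ℤ} {Φ : ASF p k ι}
  (hT : Ty p A F ϖ ε) (hS : Stg A F b Φ)
include hT hS

theorem bd_zero {D : LtD p A F b n0 Φ.d ϖ ε} {z : W1 k} (h1 : (fun _ => z) ∈ C1 A F b Φ)
    (h2 : D1 D z = 0) {y : RatFunc k} (ha : z.1 = algebraMap _ _ (y ^ p / pk _ A - y))
    (hw : z.2.1 = -algebraMap _ _ (y ^ p / pk _ A * ϖ)) :
    (fun _ => algebraMap _ _ y) ∈ C0 F b Φ ∧ z = D0 p A b ϖ (algebraMap _ _ y) := by
  classical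
  have e1 : z.1 = algebraMap _ _ y ^ p / pk _ A - algebraMap (RatFunc k) (Kb k) y := by
    rw [ha, map_sub, map_div₀, map_pow]
    rfl
  have e2 : z.2.1 = -(algebraMap (RatFunc k) (Kb k) y ^ p / pk _ A * algebraMap _ _ ϖ) := by
    rw [hw, map_mul, map_div₀, map_pow]
    rfl
  have e3 : ∀ v, emb v z.1 = emb v (algebraMap (RatFunc k) (Kb k) y) ^ p / pk _ A -
      emb v (algebraMap (RatFunc k) (Kb k) y) := fun v => by
    rw [e1, map_sub, map_div₀, map_pow, emb_pk]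
  refine ⟨⟨Eqv.alg y, fun v hv g => wp_int (p := p) (nm_na v) (nm_pk_one hT.dvd (FRep_S0 hv))
    (e3 v ▸ h1.1.2 v hv g)⟩, Prod.ext e1 (Prod.ext e2 (funext fun v => ?_))⟩
  show _ = if InNa p A b v then emb v (algebraMap (RatFunc k) (Kb k) y) else 0
  split_ifs with hv
  · refine sub_eq_zero.1 (wp_fix_zero (Φ.asr.emb v) (FRep_ne (na_root hT.dvd hS.cop hv))
      (na_root hT.dvd hS.cop hv) (Eqv.fix (sub_mem (h1.2.2 v).1 (Eqv.emb v (Eqv.alg y))) 0) ?_)
    rw [alg_pk, Wp_sub, ← e3, ← ((D1_eq_zero (C1_spl hS h1 0)).1 h2).2.2 v hv, sub_self]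
  · exact (h1.2.2 v).2 hv 0

variable (p) in
/-- the three equations of `Bd` -/
def FLb_R (A : k[X]) (ϖ : RatFunc k) (s : ℤ) (a w : Kb k) (κ : ZMod p) (x : W1 k) : Prop :=
  ∃ y : RatFunc k, x.1 = κ.val * a + algebraMap _ _ (y ^ p / pk _ A - y) ∧
    x.2.1 = -(s * κ.val * w) - algebraMap _ _ (y ^ p / pk _ A * ϖ) ∧
      (κ.val : RatFunc k) * (1 + s) * ϖ = 0

omit hT hS in
theorem FLb_val {M : Type} [Field M] [CharP M p] (x y : ZMod p) :
    ((x - y).val : M) = x.val - y.val := by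
  simp only [FEq_val, map_sub]

omit hT hS in
theorem FLb_sub {s : ℤ} {a w : Kb k} {κ κ' : ZMod p} {x x' : W1 k} (h : FLb_R p A ϖ s a w κ x)
    (h' : FLb_R p A ϖ s a w κ' x') : FLb_R p A ϖ s a w (κ - κ') (x - x') := by
  obtain ⟨y, h1, h2, h3⟩ := h
  obtain ⟨y', k1, k2, k3⟩ := h'
  refine ⟨y - y', ?_, ?_, ?_⟩
  · rw [Prod.fst_sub, h1, k1, Wp_sub, map_sub (algebraMap _ _) (_ - y), FLb_val]
    ring
  · rw [Prod.snd_sub, Prod.fst_sub, h2, k2, sub_pow_char, sub_div, sub_mul, map_sub, FLb_val]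
    ring
  · rw [FLb_val]
    linear_combination h3 - k3

omit hS in
theorem FLb_both {s : ℤ} (hs : s * s = 1) {a w : Kb k} (hg : Gd p A ϖ a w) {κ κ' : ZMod p}
    {x : W1 k} (h : FLb_R p A ϖ s a w κ x) (h' : FLb_R p A ϖ (-s) a w κ' x) : κ = 0 := by
  obtain ⟨y, h1, h2, h3⟩ := h
  obtain ⟨y', k1, k2, k3⟩ := h'
  have e : ((κ - κ').val : Kb k) * a = algebraMap _ _ ((y' - y) ^ p / pk _ A - (y' - y)) := by
    rw [Wp_sub, map_sub (algebraMap _ _) (_ - y'), FLb_val]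
    linear_combination k1 - h1
  obtain rfl : κ = κ' := by
    refine sub_eq_zero.1 (by_contra fun h0 => hg.1 (((κ - κ')⁻¹.val : RatFunc k) * (y' - y)) ?_)
    have e1 : (((κ - κ')⁻¹).val : Kb k) * (κ - κ').val = 1 := by
      rw [FEq_val, FEq_val, ← map_mul, inv_mul_cancel₀ h0, map_one]
    rw [mul_pow, FEq_frob, mul_div_assoc, ← mul_sub, map_mul, ← e, map_natCast, ← mul_assoc, e1,
      one_mul]
  rw [sub_self, ZMod.val_zero, Nat.cast_zero, zero_mul, eq_comm, _root_.map_eq_zero] at e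
  obtain rfl : y' = y := by
    refine sub_eq_zero.1 (by_contra fun h0 => hT.nr (y' - y) ?_)
    have a0 : pk (RatFunc k) A ≠ 0 := FRep_ne hT.nr
    rw [sub_eq_zero, div_eq_iff a0, Wp_pow] at e
    exact mul_left_cancel₀ h0 e
  by_contra h0
  have two : ∀ (M : Type) [Field M] [CharP M p], (2 : M) * κ.val ≠ 0 := fun M _ _ => by
    refine mul_ne_zero (fun h2 => ?_) ?_
    · have := Nat.le_of_dvd two_pos ((CharP.cast_eq_zero_iff M p 2).1 (by exact_mod_cast h2))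
      have := hT.five
      omega
    · rw [FEq_val]
      exact (_root_.map_ne_zero _).2 h0
  have e1 : ϖ = 0 := (mul_eq_zero.1 (by
    push_cast at k3
    linear_combination h3 + k3)).resolve_left (two (RatFunc k))
  have e2 : ((s : Kb k)) * s = 1 := by exact_mod_cast congrArg (Int.cast : ℤ → Kb k) hs
  refine hg.2 e1 ((mul_eq_zero.1 ?_).resolve_left (two (Kb k)))
  rw [Int.cast_neg] at k2
  linear_combination (s : Kb k) * h2 - (s : Kb k) * k2 - 2 * κ.val * w * e2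

theorem exists_bad {D : LtD p A F b n0 Φ.d ϖ ε} {r : ℕ} (N : (Fin r → ZMod p) →+ W1 k)
    (h1 : ∀ c, (fun _ => N c) ∈ C1 A F b Φ) (h2 : ∀ c, D1 D (N c) = 0)
    (h3 : ∀ c y, (fun _ => y) ∈ C0 F b Φ → N c = D0 p A b ϖ y → c = 0) :
    ∃ Bad : ℕ → (Fin r → ZMod p) → Submodule (ZMod p) (Fin r → ZMod p),
      (∀ n c c', c' ∈ Bad n c ↔
        Bd p A ϖ (ε * (-1) ^ n) (N c).1 (N c).2.1 (N c').1 (N c').2.1) ∧
      (∀ n c, Module.finrank (ZMod p) (Bad n c) ≤ 1) ∧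
      ∀ n c, Gd p A ϖ (N c).1 (N c).2.1 → Bad n c ⊓ Bad (n + 1) c = ⊥ := by
  have z0 : ∀ s a w c', FLb_R p A ϖ s a w 0 (N c') → c' = 0 := by
    rintro s a w c' ⟨y, k1, k2, -⟩
    rw [ZMod.val_zero, Nat.cast_zero] at k1 k2
    rw [zero_mul, zero_add] at k1
    rw [mul_zero, zero_mul, neg_zero, zero_sub] at k2
    obtain ⟨k3, k4⟩ := bd_zero hT hS (h1 c') (h2 c') k1 k2
    exact h3 c' _ k3 k4
  obtain ⟨Γ, hΓ⟩ : ∃ Γ : ℤ → (Fin r → ZMod p) → Submodule (ZMod p) (ZMod p × (Fin r → ZMod p)),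
      ∀ s c x, x ∈ Γ s c ↔ FLb_R p A ϖ s (N c).1 (N c).2.1 x.1 (N x.2) := by
    refine ⟨fun s c => AddSubgroup.toZModSubmodule p (AddSubgroup.ofSub
      {x | FLb_R p A ϖ s (N c).1 (N c).2.1 x.1 (N x.2)} ⟨0, 0, ?_⟩ fun x hx y hy => ?_),
      fun s c x => Iff.rfl⟩
    · simp [hp.out.ne_zero]
    · have := FLb_sub hx hy
      rwa [← map_sub, sub_eq_add_neg, sub_eq_add_neg] at this
  refine ⟨fun n c => (Γ (ε * (-1) ^ n) c).map (LinearMap.snd _ _ _), fun n c c' => ?_,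
    fun n c => ?_, fun n c hg => ?_⟩
  · constructor
    · rintro ⟨x, hx, rfl⟩
      exact ⟨x.1, (hΓ _ _ _).1 hx⟩
    · rintro ⟨κ, h⟩
      exact ⟨(κ, c'), (hΓ _ _ _).2 h, rfl⟩
  · refine (Submodule.finrank_map_le _ _).trans ((LinearMap.finrank_le_finrank_of_injective
      (f := (LinearMap.fst _ _ _).comp (Γ (ε * (-1) ^ n) c).subtype) ?_).trans_eq
        (Module.finrank_self _))
    refine (injective_iff_map_eq_zero _).2 fun x hx => Subtype.ext (Prod.ext hx ?_)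
    have h4 := (hΓ _ _ _).1 x.2
    have h5 : x.1.1 = 0 := hx
    rw [h5] at h4
    exact z0 _ _ _ _ h4
  · refine eq_bot_iff.2 ?_
    rintro c' ⟨⟨x, hx, rfl⟩, x', hx', e⟩
    have h4 := (hΓ _ _ _).1 hx
    have h5 := (hΓ _ _ _).1 hx'
    have e' : x'.2 = x.2 := e
    rw [e', pow_succ, mul_neg_one, mul_neg] at h5
    have h6 : ε * (-1) ^ n * (ε * (-1) ^ n) = 1 := by
      rcases hT.sgn with h | h <;> rcases neg_one_pow_eq_or ℤ n with h' | h' <;> simp [h, h']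
    rw [FLb_both hT h6 hg h4 h5] at h4
    exact z0 _ _ _ _ h4

theorem exists_j {L : LatD A F b n0 Φ ϖ ε} {D : LtD p A F b n0 Φ.d ϖ ε}
    (hD : ∀ u a w, L.Rep u a w → ∀ v, InS p A F b v → (rt v (emb v a), rt v (emb v w)) ∈ D.Lt v)
    {V : Type} [AddCommGroup V] (J : ((ι → ZMod p) → W1 k) →+ V)
    (hJ : ∀ y ∈ C0 F b Φ, J (fun g => D0 p A b ϖ (y g)) = 0) :
    ∃ j : L.M →+ V, ∀ u z, RepF L D u z → j u = J z := by
  have key : ∀ u z z', RepF L D u z → RepF L D u z' → J z = J z' := fun u z z' h h' => by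
    have h1 := h.sub h'
    rw [sub_self] at h1
    obtain ⟨y, h2, h3⟩ := repF_zero hT hS h1
    rw [← sub_eq_zero, ← map_sub, funext h3]
    exact hJ y h2
  choose z hz using exists_repF hT hS hD
  refine ⟨AddMonoidHom.ofMapSub (f := fun u => J (z u)) fun u u' => ?_,
    fun u z' h => key u _ _ (hz u) h⟩
  rw [← map_sub]
  exact key _ _ _ (hz _) ((hz u).sub (hz u'))

end Pool.Agent.ASel
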