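import Pool.Agent.Work.MP_60d5ce_nt.AS.FD
import Pool.Agent.Work.MP_60d5ce_nt.AS.FCov

/-!
# Local cocycles with integral first component  (AS, function field side)

PLAN.  Two steps (`Cov.trans`, or by hand with `Cov.inner`, `cov_graph`): the first component modulo `℘ (Lv v)`, then, after subtracting a coboundary (`LtD.cob`, `cob_coc`), a pair `(0, w)` with `w` fixed by `C (· / A)`.
At `InS0`: the unit ball modulo the ball of radius `2⁻¹ ^ (natDegree A + 1)` (`card_ball'`, `wp_small`, `‖A‖ ≥ 2⁻¹ ^ natDegree A`); fixed forms have `‖uL v * w‖ ≤ 2 ^ natDegree A` (`ca_bound`), rescale by a power of `uL v` (`av_uu`) and use `card_ball'`, `LtD.hi0`; `pdg v ≤ natDegree F + 1`.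
At `InAn`: `wp_coker`; `ca_anom` (`p` classes), then the additive map `w ↦ res (t * d * w)` for `t ^ (p - 1) = A` (`p` values; all roots of `t ^ p / A = t` are multiples, `wp_ker`), `LtD.hi1`.
-/

set_option linter.unusedSectionVars false

namespace Pool.Agent.ASel

open Polynomial Pool.Agent.Smith Finset

variable {p : ℕ} {k : Type} [Field k] [Fintype k] [hp : Fact p.Prime] [CharP k p]
  {A F : k[X]} {ϖ : RatFunc k} {ε : ℤ}

lemma FLc_cov {V τ : Type} [AddCommGroup V] {X Y : Set V} (T : Finset τ) (r : τ → V → Prop)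
    (h1 : ∀ x ∈ X, ∃ t ∈ T, r t x)
    (h2 : ∀ t, ∀ x ∈ X, ∀ x' ∈ X, r t x → r t x' → x - x' ∈ Y) : Cov X Y T.card := by
  obtain ⟨T', a, -, c⟩ := FCov_pick T fun t x => x ∈ X ∧ r t x
  refine ⟨T', a, fun x hx => ?_⟩
  obtain ⟨t, ht, hr⟩ := h1 x hx
  obtain ⟨u, u1, u2, u3⟩ := c t ht x ⟨hx, hr⟩
  exact ⟨u, u1, h2 t x hx u u2 hr u3⟩

lemma FLc_ball (v : Pl k) (B : ℝ) {r : ℝ} (hr : 0 < r) : ∃ (C : ℕ) (T : Finset (Lv v)),
    T.card ≤ Fintype.card k ^ C ∧ ∀ x : Lv v, ‖x‖ ≤ B → ∃ t ∈ T, ‖x - t‖ < r := by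
  classical
  obtain ⟨s, hs⟩ := NormedField.exists_lt_norm (Lv v) (max B 0)
  have s0 : 0 < ‖s‖ := (le_max_right _ _).trans_lt hs
  obtain ⟨n, hn⟩ := exists_pow_lt_of_lt_one (div_pos hr s0) (by norm_num : (2⁻¹ : ℝ) < 1)
  obtain ⟨T, a, b⟩ := card_ball' v n
  refine ⟨_, T.image (s * ·), card_image_le.trans a, fun x hx => ?_⟩
  obtain ⟨y, hy, -, h⟩ := b (x / s) (by
    rw [norm_div, div_le_one s0]
    exact hx.trans ((le_max_left _ _).trans hs.le))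
  refine ⟨s * y, mem_image_of_mem _ hy, ?_⟩
  have e : x - s * y = s * (x / s - y) := by
    rw [mul_sub, mul_div_cancel₀ _ (norm_pos_iff.1 s0)]
  rw [e, norm_mul, ← lt_div_iff₀' s0]
  exact h.trans_lt hn

lemma FLc_dL (v : Pl k) (x x' : Lv v × Lv v) :
    dL p A ϖ v (x - x') = dL p A ϖ v x - dL p A ϖ v x' := by
  simp only [dL, Prod.fst_sub, Prod.snd_sub, sub_div, map_sub]
  ring

lemma FLc_two {n0 N : ℕ} {b : k[X]} {d : RatFunc k} (D : LtD p A F b n0 d ϖ ε) (v : Pl k)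
    (h : Cov {w : Lv v | cL p v (w / pk _ A) = w} {w | (0, w) ∈ D.Lt v} N) :
    Cov {x : Lv v × Lv v | dL p A ϖ v x = 0 ∧ ∃ y, y ^ p / pk _ A - y = x.1} (D.Lt v) N := by
  classical
  obtain ⟨T, a, c⟩ := h
  refine ⟨T.image fun t => (0, t), card_image_le.trans a, ?_⟩
  rintro x ⟨hx, y, hy⟩
  have e := FLc_dL (p := p) (A := A) (ϖ := ϖ) v x
    (y ^ p / pk _ A - y, -(y ^ p / pk _ A * algebraMap _ _ ϖ))
  rw [hx, D.coc v _ (D.cob v y), sub_zero, dL, Prod.fst_sub, hy, sub_self, zero_mul, add_zero,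
    sub_eq_zero] at e
  obtain ⟨t, t1, t2⟩ := c _ e.symm
  refine ⟨_, mem_image_of_mem _ t1, ?_⟩
  have f := (D.Lt v).add_mem (D.cob v y) t2
  have g : x - (0, t) = (y ^ p / pk _ A - y, -(y ^ p / pk _ A * algebraMap _ _ ϖ)) +
      (0, (x - (x.1, -(y ^ p / pk _ A * algebraMap _ _ ϖ))).2 - t) := by
    refine Prod.ext ?_ ?_
    · simp only [Prod.fst_sub, Prod.fst_add, hy, sub_zero, add_zero]
    · simp only [Prod.snd_sub, Prod.snd_add]
      ring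
  rw [SetLike.mem_coe, g]
  exact f

lemma FLc_fix {v : Pl k} {a w w' : Lv v} (h : cL p v (w / a) = w) (h' : cL p v (w' / a) = w') :
    cL p v ((w - w') / a) = w - w' := by
  rw [sub_div, map_sub, h, h']

lemma FLc_lt {v : Pl k} {a a' t : Lv v} {r : ℝ} (h : ‖a - t‖ < r) (h' : ‖a' - t‖ < r) :
    ‖a - a'‖ < r := by
  rw [← sub_sub_sub_cancel_right a a' t]
  exact Wp_sub_lt h h'

lemma FLc_A (hT : Ty p A F ϖ ε) (v : Pl k) : pk (Lv v) A ≠ 0 := by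
  have hA : A ≠ 0 := fun e => hT.F_ne (zero_dvd_iff.1 (e ▸ hT.dvd))
  exact (_root_.map_ne_zero (algebraMap (RatFunc k) (Lv v))).2
    ((map_ne_zero_iff _ (IsFractionRing.injective k[X] (RatFunc k))).2 hA)

lemma FLc_one (hT : Ty p A F ϖ ε) (n0 : ℕ) (v : Pl k) (hv : InS0 F v) : ∃ C : ℕ,
    ∀ {b : k[X]} {d : RatFunc k} (D : LtD p A F b n0 d ϖ ε),
      Cov {x : Lv v × Lv v | dL p A ϖ v x = 0 ∧ ‖x.1‖ ≤ 1} (D.Lt v) (Fintype.card k ^ C) := by
  have hA := FLc_A hT v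
  obtain ⟨C, T, a, c⟩ := FLc_ball v 1 (lt_min one_pos (norm_pos_iff.2 hA))
  obtain ⟨C', T', a', c'⟩ := FLc_ball v (max 1 ‖pk (Lv v) A‖⁻¹)
    (by positivity : (0 : ℝ) < (2 ^ n0)⁻¹)
  refine ⟨C + C', fun D => ?_⟩
  rw [pow_add]
  refine ((FLc_cov T (fun t x => ‖x.1 - t‖ < min 1 ‖pk (Lv v) A‖) (fun x hx => c _ hx.2) ?_).trans
    (FLc_two D v (FLc_cov T' (fun t w => ‖uL v * w - t‖ < (2 ^ n0)⁻¹) (fun w hw => c' _ ?_)
      ?_))).mono subset_rfl subset_rfl (Nat.mul_le_mul a a')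
  · intro t x hx x' hx' h h'
    have e := FLc_lt h h'
    refine ⟨by rw [FLc_dL, hx.1, hx'.1, sub_zero], ?_⟩
    obtain ⟨y, -, hy⟩ := wp_small (p := p) (A := pk (Lv v) A) (a := x.1 - x'.1)
      ((pow_le_of_le_one (norm_nonneg _) (e.le.trans (min_le_left _ _))
        (Nat.sub_ne_zero_of_lt hp.out.one_lt)).trans_lt (e.trans_le (min_le_right _ _)))
    exact ⟨y, hy⟩
  · refine ca_bound (p := p) hA (le_max_left _ _) (le_max_right _ _) ?_
    rw [hw, sub_self, mul_zero, norm_zero]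
    exact zero_le_one.trans (le_max_left _ _)
  · intro t w hw w' hw' h h'
    refine D.hi0 v hv _ (FLc_fix hw hw') ?_
    rw [mul_sub, ← lt_div_iff₀ (by positivity), one_div]
    exact FLc_lt h h'

theorem cov_Lt0 (hT : Ty p A F ϖ ε) (n0 : ℕ) : ∃ C : ℕ, ∀ {b : k[X]} {d : RatFunc k}
    (D : LtD p A F b n0 d ϖ ε) (v : Pl k), InS0 F v →
      Cov {x : Lv v × Lv v | dL p A ϖ v x = 0 ∧ ‖x.1‖ ≤ 1} (D.Lt v) (Fintype.card k ^ C) := by
  classical
  choose! C hC using FLc_one hT n0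
  refine ⟨(insert none (fac' F)).sup C, fun D v hv => (hC v hv D).mono subset_rfl subset_rfl
    (Nat.pow_le_pow_right Fintype.card_pos (le_sup ?_))⟩
  rw [mem_insert, mem_fac' hT.F_ne]
  unfold InS0 at hv
  tauto

theorem cov_Lt1 (hT : Ty p A F ϖ ε) {n0 : ℕ} {b : k[X]} (hc : IsCoprime b F) {d : RatFunc k}
    (D : LtD p A F b n0 d ϖ ε) {v : Pl k} (hv : InAn p A b v) :
    Cov {x : Lv v × Lv v | dL p A ϖ v x = 0 ∧ ‖x.1‖ ≤ 1} (D.Lt v) (p ^ 3) := by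
  have hA := norm_pk_one hT.dvd (not_S0_of_dvd hc hv.1 hv.2.1)
  obtain ⟨o, -, ho⟩ := wp_coker (p := p) hA
  obtain ⟨t, ht⟩ := an_root hT.dvd hc hv
  have t0 : t ≠ 0 := fun e => FLc_A hT v (by
    rw [← ht, e, zero_pow (Nat.sub_ne_zero_of_lt hp.out.one_lt)])
  have : NeZero p := ⟨hp.out.ne_zero⟩
  refine ((FLc_cov (range p) (fun m x => ∃ y, x.1 = y ^ p / pk (Lv v) A - y + m * o)
    (fun x hx => ?_) ?_).trans (FLc_two D v (FLc_cov (range p ×ˢ (univ : Finset (ZMod p)))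
      (fun m w => ‖uL v * w - m.1 / t‖ < 1 ∧ res p v (t * algebraMap _ _ d * w) = m.2)
      (fun w hw => ?_) ?_))).mono subset_rfl subset_rfl (le_of_eq ?_)
  · obtain ⟨m, y, -, e⟩ := ho _ hx.2
    exact ⟨m % p, mem_range.2 (Nat.mod_lt _ hp.out.pos), y, by rwa [← CharP.cast_eq_mod]⟩
  · rintro m x hx x' hx' ⟨y, h⟩ ⟨y', h'⟩
    refine ⟨by rw [FLc_dL, hx.1, hx'.1, sub_zero], y - y', ?_⟩
    rw [Wp_sub, Prod.fst_sub, h, h']
    ring
  · obtain ⟨m, e⟩ := ca_anom (p := p) (w := w) hA ht (by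
      rw [hw, sub_self, mul_zero, norm_zero]
      exact one_pos)
    exact ⟨(m % p, _), mem_product.2 ⟨mem_range.2 (Nat.mod_lt _ hp.out.pos), mem_univ _⟩,
      by rwa [← CharP.cast_eq_mod], rfl⟩
  · rintro m w hw w' hw' ⟨h, e⟩ ⟨h', e'⟩
    refine D.hi1 v hv _ (FLc_fix hw hw') (by rw [mul_sub]; exact FLc_lt h h') fun s hs => ?_
    obtain ⟨n, rfl⟩ := wp_ker ht t0 hs
    rw [mul_assoc, mul_assoc, ← nsmul_eq_mul, map_nsmul, ← mul_assoc, mul_sub, map_sub, e, e',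
      sub_self, smul_zero]
  · rw [card_product, card_range, card_univ, ZMod.card]
    ring

end Pool.Agent.ASel
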