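import Pool.Agent.Work.MP_60d5ce_nt.AS.FTc
import Pool.Agent.Work.MP_60d5ce_nt.AS.FRec

/-!
# Tightness  (AS, function field side)

PLAN.  `TT_inj`: `detect` with `θ = a α`, `ξ v = sl ^ p / A * α` (`res_AA`, `sl_spec`, `cL_frob`; `Su.big`, `WW_split`, `WW_pow`).  If `a ∉ ℘ k(t)` then `P ∈ BadS` with `n = 0`, `x = fun _ => (a, 0)`, `x' = fun _ => (0, α)`
(`tp_zero_dim`, `sh_empty`; `α` is integral at `P` by `ca_na`, `na_root`; `Su.U_iff`, `Su.an_near`, `Su.S_iff`; `dif = η - φ (y ∅) α`; `sol_lift`).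
`tight_bound`: `few_marked'` with `C = Cc \ {0}`, `X = AA`, `X0 = AA0`, `Z α = {e | TgD (Φ.de e) α}`, `T = TT`; `Mx = p * M` with `M` large: `AA_ge`, `AA0_le`, `pdg_pos`, `2 ≤ p`, `2 ≤ card k`.
-/

set_option linter.unusedSectionVars false

namespace Pool.Agent.ASel

open Polynomial Pool.Agent.Smith Finset

variable {p : ℕ} {k : Type} [Field k] [Fintype k] [hp : Fact p.Prime] [CharP k p] {A F : k[X]}
  {v0 : Pl k} (hT : Ty p A F 0 1) (h0 : v0 ≠ none) (h1 : plp v0 ∣ F)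

theorem FTm_eq1 (W : Fin 0 → Kb k) (a : RatFunc k) :
    (fun _ => algebraMap _ (Kb k) a) ∈ Eq1 p (RatFunc k) W :=
  ⟨fun _ => om_alg a, fun σ χ _ I => by rw [eq_empty_of_isEmpty I, sh_empty, σ.commutes]⟩

theorem FTm_nm (v : Pl k) (a : RatFunc k) : nm v (emb v (algebraMap _ _ a)) = av v a := by
  rw [emb_algK, nm_alg, norm_alg]

theorem FTm_fix {α : RatFunc k} (h : cK p (α / pk _ A) = α) (v : Pl k) :
    cL p v (algebraMap _ _ α / pk _ A) = algebraMap _ _ α := by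
  have e := alg_cK (p := p) v (α / pk _ A)
  rw [h, map_div₀] at e
  exact e.symm

theorem FTm_dif (a α η : Kb k) (η0 : RatFunc k) (y y' : Finset (Fin 0) → Kb k)
    (h : η = algebraMap _ _ η0) : dif p A 0 1 (fun _ => (a, 0)) (fun _ => (0, α)) η0 y y' =
      η - y ∅ ^ p / pk _ A * α := by
  simp only [dif, xiT, tp_zero_dim, map_zero, mul_zero, zero_mul, smul_zero, add_zero, h]

include hT h0 h1

theorem TT_inj {ι : Type} [Fintype ι] {b' : k[X]} {P : Pl k} {d' : RatFunc k} {K Mx : ℕ}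
    {vv : Fin K → Pl k} {Φ : ASF p k ι} (h : Su A F b' P d' vv Φ)
    (hP : P ∉ BadS p A F b' d' 0 1 (Mx + 1) vv) {α a : RatFunc k}
    (hα : α ∈ Cc p A F (b' * plp P) v0 Mx Φ.d) (hα0 : α ≠ 0)
    (ha : a ∈ AA p A F (b' * plp P) v0 Mx Φ.d) (H : ∀ e, TT A F (b' * plp P) Φ α a e = 0) :
    a ∈ AA0 p A F (b' * plp P) v0 Mx Φ.d := by
  classical
  refine ⟨ha, by_contra fun hn => hP ?_⟩
  have hF := hT.F_ne
  have hA := hT.dvd
  have hb := h.stg.b_ne
  have hc := h.stg.cop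
  have A0 : A ≠ 0 := fun e => hF (zero_dvd_iff.1 (e ▸ hA))
  obtain ⟨c1, c2, c3⟩ := hα
  have hS : ∀ v, ¬ InS p A F (b' * plp P) v → av v a ≤ 1 := fun v => (ha.2 v).2.2
  have hsl := fun v (hv : InNa p A (b' * plp P) v) => sl_spec hA hc hv (hS v (hv.not_S hc))
  obtain ⟨η, e1, e2, e3⟩ := detect hF hb hc (θ := a * α)
    (fun v => sl p A v a ^ p / pk _ A * algebraMap _ _ α)
    (fun v hv => by
      rw [map_mul]
      exact res_AA hF hA hc h0 ha hv (FTm_fix c1 v) (fun e => by rw [norm_alg, e]; exact c2)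
        (c3 v).2)
    (fun v hv => by
      rw [map_mul (algebraMap (RatFunc k) (Lv v)), ← (hsl v hv).2, div_mul_eq_mul_div, mul_div_assoc,
        cL_frob, FTm_fix c1 v]
      ring)
    (fun v hv => by
      rw [map_mul]
      exact mul_le_one₀ (hS v (inU_iff.1 hv).1) ((av v).nonneg _) ((c3 v).1 hv))
    h.P_na fun c hd hr => by
      obtain ⟨e, he⟩ := h.big c hd hr
      refine ⟨fun v => rt v (emb v (WW Φ e)), fun v hv => ?_, ?_⟩
      · obtain ⟨s, -, hs⟩ := WW_split h.stg e hv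
        refine (algebraMap (Lv v) (Lb v)).injective ?_
        beta_reduce
        rw [← hs, rt_alg, map_sub, map_pow, hs, ← map_pow, ← map_sub, WW_pow, he, emb_algK]
        rfl
      · have e4 := H e
        rw [TT, he] at e4
        exact e4
  have P0 : ¬ InS0 F P := not_S0_of_dvd hc h.P_na.1 h.P_na.2.1
  have P1 : ‖pk (Lv P) A‖ = 1 := norm_pk_one hA P0
  have αP : ‖algebraMap (RatFunc k) (Lv P) α‖ ≤ 1 := (int_iff h.P_na.1 _).1
    (ca_na P1 (na_root hA hc h.P_na) (by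
      rw [FTm_fix c1 P, sub_self, mul_zero, norm_zero]
      exact one_pos))
  have hAn : ∀ v, InAn p A (b' * plp P) v → ∃ t : Lv v, t ^ p / pk _ A - t = 0 ∧ ‖t‖ ≤ 1 ∧
      ‖algebraMap _ _ a - t * algebraMap _ _ Φ.d‖ ≤ 1 := fun v hv => by
    obtain ⟨y, t, y1, t1, e⟩ := (ha.2 v).2.1 hv
    have A1 : ‖pk (Lv v) A‖ = 1 := norm_pk_one hA (not_S0_of_dvd hc hv.1 hv.2.1)
    refine ⟨t, t1, wp_int (p := p) (Wp_na v) A1 (y := t) (by
      rw [t1, map_zero]
      exact zero_le_one), ?_⟩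
    rw [e, add_sub_cancel_right]
    refine PF_sub ?_ y1
    rw [norm_div, A1, div_one, norm_pow]
    exact pow_le_one₀ (norm_nonneg y) y1
  have hbd : ∀ v, av v a ≤ 2 ^ (Mx + 1) := fun v => by
    have i1 : (1 : ℝ) ≤ 2 ^ Mx := one_le_pow₀ one_le_two
    rw [pow_succ]
    by_cases s1 : InS p A F (b' * plp P) v
    · rcases inS_iff.1 s1 with s2 | s2
      · by_cases s3 : v = v0
        · have := ha.1
          rw [s3]
          linarith
        · have i2 := (ha.2 v).1 s2 s3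
          have i3 := le_mul_of_one_le_right ((av v).nonneg a)
            (one_le_pow₀ (n := A.natDegree) (one_le_two (α := ℝ)))
          linarith
      · obtain ⟨t, -, t2, t3⟩ := hAn v s2
        have i2 : ‖t * algebraMap _ _ Φ.d‖ ≤ 2 := by
          rw [norm_mul, norm_alg]
          exact (mul_le_of_le_one_left ((av v).nonneg _) t2).trans (h.stg.d_le v)
        have i3 := PF_add (t3.trans one_le_two) i2
        rw [sub_add_cancel, norm_alg] at i3
        linarith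
    · linarith [hS v s1]
  refine ⟨0, Nat.zero_le _, Fin.elim0, Fin.elim0, fun i => i.elim0,
    fun _ => (algebraMap _ _ a, 0), ⟨FTm_eq1 _ a, zero_mem _, fun _ => ⟨by simp, fun v =>
      ⟨fun _ => by simp, (FTm_nm v a).trans_le (hbd v), fun hv => ?_,
        fun hv _ => (FTm_nm v a).trans_le (hS v fun e => hv (h.S_iff.1 e))⟩⟩⟩,
    fun _ => (0, algebraMap _ _ α), ⟨zero_mem _, FTm_eq1 _ α, fun _ => ⟨?_, fun v =>
      ⟨fun hv => (FTm_nm v α).trans_le ?_, by simp, fun _ => ⟨0, by simp [hp.out.ne_zero], by simp⟩,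
        fun _ _ => by simp⟩⟩⟩, η, ⟨?_, fun v hv => ?_, fun y y' hy _ e => hn ?_⟩,
    h.U_iff.2 (Or.inr rfl), ?_⟩
  · obtain ⟨t, t1, t2, t3⟩ := hAn v (h.an_iff.2 hv)
    refine ⟨t, t1, ?_⟩
    show nm v (emb v (algebraMap _ _ a) - _) ≤ 1
    rw [emb_algK, ← map_sub, nm_alg, show algebraMap _ _ a - t * algebraMap _ _ d' =
      algebraMap _ _ a - t * algebraMap _ _ Φ.d + t * algebraMap _ _ (Φ.d - d') by
        rw [map_sub]; ring]
    refine PF_add t3 ?_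
    rw [norm_mul, norm_alg]
    exact mul_le_one₀ t2 ((av v).nonneg _) (h.an_near (h.an_iff.2 hv)).2.2
  · have e := alg_cKB (p := p) (α / pk _ A)
    rw [c1, map_div₀] at e
    show algebraMap _ _ α - cB p (algebraMap _ _ α / _) + 0 * _ = 0
    rw [zero_mul, add_zero]
    exact sub_eq_zero.2 e
  · rcases h.U_iff.1 hv with e | e
    · exact (c3 v).1 e
    · rw [e, ← norm_alg]
      exact αP
  · simp only [thT, tp_zero_dim, e1, map_mul, mul_zero, zero_mul, smul_zero, add_zero]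
  · rcases h.U_iff.1 hv with e | e
    · exact e2 v e
    · have i1 : ‖sl p A P a ^ p / pk _ A * algebraMap _ _ α‖ ≤ 1 := by
        rw [norm_mul, norm_div, P1, div_one, norm_pow]
        exact mul_le_one₀ (pow_le_one₀ (norm_nonneg _) (hsl P h.P_na).1) (norm_nonneg _) αP
      have i2 := PF_add e3.le i1
      rwa [sub_add_cancel, norm_alg, ← e] at i2
  · rw [FTm_dif _ _ _ η y y' rfl, sub_eq_zero, ← div_eq_iff ((_root_.map_ne_zero _).2 hα0),
      ← map_div₀] at e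
    have e4 : y ∅ ^ p / pk _ A - y ∅ = algebraMap _ _ a := hy ∅
    have e5 : y ∅ = algebraMap _ _ (η / α - a) := by
      rw [map_sub, e, ← e4, sub_sub_cancel]
    refine ⟨η / α - a, (algebraMap (RatFunc k) (Kb k)).injective ?_⟩
    rw [← e4, map_sub _ (_ / _), map_div₀, map_pow, ← e5]
    rfl
  · obtain ⟨y, y1, y2⟩ := sol_lift (p := p) A0 (a := fun _ : Finset (Fin 0) => algebraMap _ _ a)
      (v := P) (z := fun _ => algebraMap _ _ (sl p A P a)) fun _ => by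
        rw [emb_algK, ← (hsl P h.P_na).2, map_sub, map_div₀, map_pow, alg_pk]
    refine ⟨y, 0, y1, fun _ => by simp [hp.out.ne_zero], ?_⟩
    rw [FTm_dif _ _ _ η y 0 rfl, map_sub, map_mul, map_div₀, map_pow, y2, emb_pk, emb_algK, emb_algK,
      ← alg_pk, ← map_pow, ← map_div₀, ← map_mul, ← map_sub, nm_alg]
    exact e3

theorem tight_bound {δ : ℝ} (hδ : 0 < δ) : ∃ Mx : ℕ, ∀ {ι : Type} [Fintype ι] {b' : k[X]} {P : Pl k}
    {d' : RatFunc k} {K : ℕ} {vv : Fin K → Pl k} {Φ : ASF p k ι}, Su A F b' P d' vv Φ →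
    P ∉ BadS p A F b' d' 0 1 (Mx + 1) vv →
    ({e | Tight p A F (b' * plp P) v0 Mx (Φ.de e)}.ncard : ℝ) ≤ δ * p ^ Fintype.card ι := by
  classical
  have hF := hT.F_ne
  have hA := hT.dvd
  obtain ⟨c1, g1⟩ := AA0_le (p := p) hF hA h0 h1
  obtain ⟨c2, M0, g2⟩ := AA_ge (p := p) hF hA h0 h1
  obtain ⟨q, hq⟩ : ∃ q, q = Fintype.card k := ⟨_, rfl⟩
  have q2 : 2 ≤ q := hq ▸ Fintype.one_lt_card
  have p2 := hp.out.two_le
  obtain ⟨M1, hM⟩ := pow_unbounded_of_one_lt ((q : ℝ) ^ (c1 + c2) / δ) (one_lt_two (α := ℝ))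
  refine ⟨p * (M0 + M1), fun {ι} _ {b' P d' K vv Φ} h hP => ?_⟩
  have hb := h.stg.b_ne
  have hc := h.stg.cop
  have f1 := Cc_fin (p := p) hF hA h0 h1 hb hc (p * (M0 + M1)) Φ.d
  have f2 := AA_fin (p := p) hF hA h0 h1 hb hc (p * (M0 + M1)) Φ.d
  have k1 := few_marked' (p := p) (E := ι → ZMod p)
    ((Cc p A F (b' * plp P) v0 (p * (M0 + M1)) Φ.d : Set (RatFunc k)) \ {0}) f1.diff
    (AA p A F (b' * plp P) v0 (p * (M0 + M1)) Φ.d) (AA0 p A F (b' * plp P) v0 (p * (M0 + M1)) Φ.d)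
    f2 (fun _ hx => hx.1) (fun α => {e | TgD p A F (b' * plp P) v0 (p * (M0 + M1)) (Φ.de e) α})
    (TT A F (b' * plp P) Φ) (fun α _ a ha a' ha' e => TT_add_a hT h.stg α ha ha' e)
    (fun α _ a _ e e' => TT_add_e α a e e')
    (fun α hα a ha H => TT_inj hT h0 h1 h hP hα.1 hα.2 ha H)
    fun α _ e he e' he' a ha => TT_zero hT h.stg h0 he he' ha
  have k2 := g1 _ Φ.d (M0 + M1) hb hc h.stg.d_le
  have k3 := g2 _ Φ.d (p * (M0 + M1)) (by nlinarith) hb hc fun v hv => h.pole v (h.an_iff.1 hv)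
  have k4 : {e | Tight p A F (b' * plp P) v0 (p * (M0 + M1)) (Φ.de e)}.ncard ≤ _ :=
    Set.ncard_le_ncard (t := {e | ∃ w ∈ (Cc p A F (b' * plp P) v0 (p * (M0 + M1)) Φ.d :
      Set (RatFunc k)) \ {0}, e ∈ {e | TgD p A F (b' * plp P) v0 (p * (M0 + M1)) (Φ.de e) w}})
      (fun e ⟨α, β, γ, a0, a1⟩ => ⟨α, ⟨mem_Cc hT h.stg ⟨β, γ, a1⟩, a0⟩, β, γ, a1⟩) (Set.toFinite _)
  have k5 : ((Cc p A F (b' * plp P) v0 (p * (M0 + M1)) Φ.d : Set (RatFunc k)) \ {0}).ncard ≤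
      Nat.card (Cc p A F (b' * plp P) v0 (p * (M0 + M1)) Φ.d) :=
    Set.ncard_le_ncard Set.diff_subset f1
  have k6 : 0 < Nat.card (AA p A F (b' * plp P) v0 (p * (M0 + M1)) Φ.d) :=
    @Nat.card_pos _ _ f2.to_subtype
  rw [Fintype.card_fun, ZMod.card] at k1
  rw [← hq] at k2 k3
  have f0 := pdg_pos v0
  generalize {e | Tight p A F (b' * plp P) v0 (p * (M0 + M1)) (Φ.de e)}.ncard = N at k4 ⊢
  generalize Nat.card (AA p A F (b' * plp P) v0 (p * (M0 + M1)) Φ.d) = X at k1 k3 k6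
  generalize Nat.card (AA0 p A F (b' * plp P) v0 (p * (M0 + M1)) Φ.d) = X0 at k1 k2
  generalize Nat.card (Cc p A F (b' * plp P) v0 (p * (M0 + M1)) Φ.d) = C at k3 k5
  have k7 : N * X ≤ C * q ^ (c1 + (M0 + M1) * pdg v0) * p ^ Fintype.card ι :=
    ((Nat.mul_le_mul_right _ k4).trans k1).trans (Nat.mul_le_mul_right _ (Nat.mul_le_mul k5 k2))
  have k8 : q ^ M1 * q ^ ((M0 + M1) * pdg v0) ≤ q ^ (p * (M0 + M1) * pdg v0) := by
    rw [← pow_add]
    refine Nat.pow_le_pow_right (by omega) ?_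
    have := Nat.mul_le_mul_right ((M0 + M1) * pdg v0) p2
    have := Nat.le_mul_of_pos_right (M0 + M1) f0
    rw [mul_assoc]
    omega
  have k9 : N * q ^ M1 ≤ q ^ (c1 + c2) * p ^ Fintype.card ι := by
    refine Nat.le_of_mul_le_mul_right (c := X * q ^ ((M0 + M1) * pdg v0)) ?_ (by positivity)
    calc N * q ^ M1 * (X * q ^ ((M0 + M1) * pdg v0))
        = N * X * (q ^ M1 * q ^ ((M0 + M1) * pdg v0)) := by ring
      _ ≤ C * q ^ (c1 + (M0 + M1) * pdg v0) * p ^ Fintype.card ι * q ^ (p * (M0 + M1) * pdg v0) :=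
        Nat.mul_le_mul k7 k8
      _ = C * q ^ (p * (M0 + M1) * pdg v0) *
          (q ^ (c1 + (M0 + M1) * pdg v0) * p ^ Fintype.card ι) := by ring
      _ ≤ q ^ c2 * X * (q ^ (c1 + (M0 + M1) * pdg v0) * p ^ Fintype.card ι) :=
        Nat.mul_le_mul_right _ k3
      _ = _ := by ring
  have r1 : (N : ℝ) * q ^ M1 ≤ q ^ (c1 + c2) * p ^ Fintype.card ι := by exact_mod_cast k9
  have r2 : (2 : ℝ) ^ M1 ≤ q ^ M1 := pow_le_pow_left₀ zero_le_two (by exact_mod_cast q2) _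
  rw [div_lt_iff₀ hδ] at hM
  refine le_of_mul_le_mul_right ?_ (pow_pos (two_pos (α := ℝ)) M1)
  calc (N : ℝ) * 2 ^ M1 ≤ N * q ^ M1 := mul_le_mul_of_nonneg_left r2 (Nat.cast_nonneg N)
    _ ≤ q ^ (c1 + c2) * p ^ Fintype.card ι := r1
    _ ≤ 2 ^ M1 * δ * p ^ Fintype.card ι := mul_le_mul_of_nonneg_right hM.le (by positivity)
    _ = _ := by ring

end Pool.Agent.ASel
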