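import Pool.Agent.Work.MP_60d5ce_nt.AS.SMain
import Pool.Agent.Work.MP_60d5ce_nt.AS.FLat
import Pool.Agent.Work.MP_60d5ce_nt.AS.FTm
import Pool.Agent.Work.MP_60d5ce_nt.AS.FSet
import Pool.Agent.Work.MP_60d5ce_nt.AS.FBad

/-!
# The estimate on cosets
-/

namespace Pool.Agent.ASel

open Polynomial Pool.Agent.Smith Finset

theorem FMain_un {α : Type} {I : ℕ} (S : Fin I → Set α) (T : Set α) {B : ℝ}
    (hS : ∀ i, (S i).Finite ∧ ((S i).ncard : ℝ) ≤ B) (hT : T.Finite ∧ (T.ncard : ℝ) ≤ B) :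
    {x | (∃ i, x ∈ S i) ∨ x ∈ T}.Finite ∧
      ({x | (∃ i, x ∈ S i) ∨ x ∈ T}.ncard : ℝ) ≤ (I + 1) * B := by
  have e : {x | (∃ i, x ∈ S i) ∨ x ∈ T} = (⋃ i, S i) ∪ T := by
    ext x
    simp only [Set.mem_ofPred_eq, Set.mem_union, Set.mem_iUnion]
  rw [e]
  refine ⟨(Set.finite_iUnion fun i => (hS i).1).union hT.1, ?_⟩
  have h1 : ((⋃ i, S i).ncard : ℝ) ≤ ∑ i, ((S i).ncard : ℝ) := by
    exact_mod_cast Set.ncard_iUnion_le_of_fintype S
  have h2 : ∑ i, ((S i).ncard : ℝ) ≤ I * B := by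
    simpa using Finset.sum_le_card_nsmul univ _ B fun i _ => (hS i).2
  have h3 : (((⋃ i, S i) ∪ T).ncard : ℝ) ≤ (⋃ i, S i).ncard + T.ncard := by
    exact_mod_cast Set.ncard_union_le _ _
  linarith [hT.2]

theorem cos_main {p : ℕ} [Fact p.Prime] {k : Type} [Field k] [Fintype k] [CharP k p] {A F : k[X]}
    {v0 : Pl k} {ϖ0 : RatFunc k} (h : Ari p A F v0 ϖ0) {BadD : RatFunc k → Prop}
    (h2 : Sec2 p A F v0 ϖ0 BadD) (ε : ℝ) (hε : 0 < ε) : ∃ K a C m0 : ℕ, 1 ≤ a ∧ ∀ m ≥ m0,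
      ASW.Cos A F (fun a b => BadD (algebraMap k[X] (RatFunc k) a / algebraMap k[X] _ b))
        ε K a C m := by
  have hp1 : (1 : ℝ) < p := by exact_mod_cast (Fact.out : p.Prime).one_lt
  have hq : 2 ≤ Fintype.card k := Fintype.one_lt_card
  have hT0 : Ty p A F 0 1 := h.ty (Or.inr ⟨rfl, Or.inl rfl⟩)
  obtain ⟨Mx, hMx⟩ := tight_bound hT0 h.v0_ne h.v0_dvd (half_pos hε)
  obtain ⟨n0, I, ϖ, ep, hty, hL⟩ := h2 Mx
  have hT : ∀ i, Ty p A F (ϖ i) (ep i) := fun i => h.ty (hty i)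
  have hδ : 0 < ε / 4 / (I + 1) := by positivity
  obtain ⟨s, hs⟩ : ∃ s : ℕ, (p : ℝ) / p ^ s ≤ ε / 4 / (I + 1) := by
    obtain ⟨s, hs⟩ := pow_unbounded_of_one_lt (p / (ε / 4 / (I + 1))) hp1
    refine ⟨s, ?_⟩
    rw [div_lt_iff₀ hδ] at hs
    rw [div_le_iff₀ (by positivity)]
    linarith
  choose a0 m0 n1 ha0 hlat using fun i => lat_bound (hT i) n0 s hδ
  choose C1 hC1 using fun i => bad_card (hT i) (n1 i) (2 * s + 1)
  obtain ⟨C2, hC2⟩ := bad_card hT0 (Mx + 1) (2 * s + 1)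
  refine ⟨2 * s + 1 + 1, ∑ i, a0 i + 1, ∑ i, C1 i + C2 + (I + 1), ∑ i, m0 i + 1, by omega, ?_⟩
  intro m hm b' v hb1 hb2 hb3 hb4 hv1 hv2
  generalize ha : ∑ i, a0 i + 1 = a at hv2 ⊢
  have hm1 : 1 ≤ m := by omega
  have hb0 := hb1.ne_zero
  let vv : Fin (2 * s + 1 + 1) → Pl k := fun i => some ⟨v i, (hv2 i).1⟩
  have hvi : Function.Injective vv := fun i j e =>
    hv1 (congrArg Subtype.val (Option.some.inj e))
  have hvn : ∀ i, InNa p A b' (vv i) := fun i =>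
    ⟨Option.some_ne_none _, (hv2 i).2.1, ns_na h.five (hv2 i).2.2.1⟩
  let v1 : Fin (2 * s + 1) → Pl k := fun i => vv i.castSucc
  have hY : 1 ≤ m ^ (2 * a) := Nat.one_le_pow _ _ hm1
  have hf : (fac' b').card ≤ m := om_eq hb0 ▸ hb4
  have hf' : (fac' b').card ≤ m ^ (2 * a) := hf.trans (Nat.le_self_pow (by omega) m)
  have hv3 : ∀ i, InNa p A b' (v1 i) ∧ pdg (v1 i) ≤ m ^ (2 * a) := fun i =>
    ⟨hvn _, (hv2 _).2.2.2.2⟩
  let BP : k[X] → Set (Pl k) := fun a' =>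
    {P | (∃ i, P ∈ BadS p A F b' (pk _ a' / pk _ b') (ϖ i) (ep i) (n1 i) v1) ∨
      P ∈ BadS p A F b' (pk _ a' / pk _ b') 0 1 (Mx + 1) v1}
  refine ⟨fun a' => plp '' BP a', fun a' => ?_, fun P hP1 hP2 hP3 hP4 => ?_⟩
  · have key : ∀ {c n : ℕ}, c ≤ ∑ i, C1 i + C2 →
        n ≤ Fintype.card k ^ (c * m ^ (2 * a)) * (b'.natDegree + 1) →
        (n : ℝ) ≤ ((Fintype.card k ^ ((∑ i, C1 i + C2) * m ^ (2 * a)) * (b'.natDegree + 1) : ℕ) : ℝ) :=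
      fun hc hn => Nat.cast_le.2 (hn.trans (Nat.mul_le_mul_right _
        (Nat.pow_le_pow_right (by omega) (Nat.mul_le_mul_right _ hc))))
    obtain ⟨k1, k2⟩ := FMain_un _ _
      (fun i => (hC1 i b' (pk _ a' / pk _ b') v1 _ hb0 hb3 hv3 hf' hY).imp_right
        (key ((single_le_sum (fun _ _ => Nat.zero_le _) (mem_univ i)).trans (Nat.le_add_right _ _))))
      ((hC2 b' (pk _ a' / pk _ b') v1 _ hb0 hb3 hv3 hf' hY).imp_right (key (Nat.le_add_left _ _)))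
    refine ⟨k1.image _, (Set.ncard_image_le k1).trans ?_⟩
    have k3 : (BP a').ncard ≤ (I + 1) *
        (Fintype.card k ^ ((∑ i, C1 i + C2) * m ^ (2 * a)) * (b'.natDegree + 1)) := by
      exact_mod_cast k2
    refine k3.trans ?_
    rw [add_mul _ (I + 1), pow_add, mul_comm (_ ^ _) (_ ^ ((I + 1) * _)), mul_assoc]
    exact Nat.mul_le_mul_right _ ((Nat.lt_pow_self hq).le.trans
      (Nat.pow_le_pow_right (by omega) (Nat.le_mul_of_pos_right _ hY)))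
  obtain ⟨n, nu, hnu, hdeg, hsu⟩ := exists_su (A := A) (P := some ⟨P, hP1⟩) h.F_ne hb2 hb3 hvi hvn
    (Option.some_ne_none _) hP2 hP3 (ns_na h.five hP4)
  refine ⟨nu.range, ?_, fun a' a'' k1 k2 k3 k4 => ?_⟩
  · rintro _ ⟨e, rfl⟩
    exact hdeg e
  obtain ⟨Φ, hΦ, hde⟩ := hsu a' a'' k1 k2 k3
  have k5 : (some ⟨P, hP1⟩ : Pl k) ∉ BP a' := fun hh => k4 ⟨_, hh, rfl⟩
  obtain ⟨L, hL1⟩ := hL _ _ Φ hΦ.stg
  have k6 : ∀ i, ({e | (L i).GoodEig e}.ncard : ℝ) ≤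
      ε / 2 / (I + 1) * p ^ Fintype.card (Fin n) := fun i => by
    refine (hlat i m (le_trans (single_le_sum (fun _ _ => Nat.zero_le _) (mem_univ i)) (by omega))
      hΦ hf (fun j => ?_) (fun hh => k5 (Or.inl ⟨i, hh⟩)) (L i)).trans ?_
    · refine le_trans (Nat.pow_le_pow_right hm1 ?_) (hv2 _).2.2.2.1.le
      exact le_trans (single_le_sum (fun _ _ => Nat.zero_le _) (mem_univ i)) (by omega)
    · refine mul_le_mul_of_nonneg_right ?_ (by positivity)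
      have : ε / 2 / (I + 1) = ε / 4 / (I + 1) + ε / 4 / (I + 1) := by ring
      linarith
  have k7 := hMx hΦ fun hh => k5 (Or.inr hh)
  have k8 := (FMain_un (fun i => {e | (L i).GoodEig e}) ∅
    (fun i => ⟨Set.toFinite _, k6 i⟩) ⟨Set.finite_empty, by simp; positivity⟩).2
  have k9 : (Nat.card nu.range : ℝ) = p ^ Fintype.card (Fin n) := by
    rw [← Nat.card_congr (nu.ofInjective hnu).toEquiv, Nat.card_fun, Nat.card_zmod,
      Nat.card_eq_fintype_card, Nat.cast_pow]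
  have k10 : {e | e ∈ nu.range ∧ IsCoprime (a' * P + a'' * b' + e) (b' * P) ∧
      BadD (algebraMap k[X] (RatFunc k) (a' * P + a'' * b' + e) / algebraMap k[X] _ (b' * P))} ⊆
      nu '' ({e | (∃ i, e ∈ {e | (L i).GoodEig e}) ∨ e ∈ (∅ : Set _)} ∪
        {e | Tight p A F (b' * P) v0 Mx (Φ.de e)}) := by
    rintro _ ⟨⟨e, rfl⟩, -, he⟩
    exact ⟨e, (hL1 e ((hde e).symm ▸ he)).imp Or.inl id, rfl⟩
  have k11 := (Set.ncard_le_ncard k10 (Set.toFinite _)).trans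
    ((Set.ncard_image_le (Set.toFinite _)).trans (Set.ncard_union_le _ _))
  have k12 : ((I : ℝ) + 1) * (ε / 2 / (I + 1) * p ^ Fintype.card (Fin n)) =
      ε / 2 * p ^ Fintype.card (Fin n) := by
    field_simp
  rw [k9]
  refine (Nat.cast_le.2 k11).trans ?_
  rw [Nat.cast_add]
  exact (add_le_add (k8.trans_eq k12) k7).trans_eq (by ring)

end Pool.Agent.ASel
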