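import Pool.Agent.Work.MP_60d5ce_nt.AS.FTi
import Pool.Agent.Work.MP_60d5ce_nt.AS.FFix

/-!
# Tightness: counting  (AS, function field side)

PLAN.  `Cc_fin`: `card_fix`.  `AA_fin`: `card_bounded` (or `card_a`).  `AA0_le`: count the `y` with `card_bounded`, `S = insert none (fac' F)`: `y` is integral outside `InS0` (`wp_int`; at `InAn` `℘ (y - y_v) = t d` has norm `≤ 2 < 2 ^ p`, `wp_norm`, `norm_disc`),
`‖y‖ ≤ 2 ^ natDegree A` at `InS0`, `v ≠ v0` (`wp_le`), and `‖y‖ ≤ 2 ^ M` at `v0` (`wp_norm`, `‖A‖ ≤ 1`).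
`AA_ge`: let `κ` be the set of the places `InAn`, `t v ^ (p - 1) = A` (`an_root`, a unit).  `V1`: pairs `(a, μ)`, `μ : κ → ZMod p`, `a - μ v * t v * d` integral at `κ`, `av v0 a ≤ 2 ^ Mx`, `a` integral elsewhere; `V ≤ V1`: moreover small at `InS0`, `v ≠ v0`.
`card V1 ≥ p ^ card κ * q ^ (Mx * pdg v0)` (`pf_many` for each `μ`, plus `c / plp v0 ^ Mx`, `deg c < Mx * pdg v0`); `card V1 ≤ q ^ c * card V` (`card_ball'`, `cov_pi`, `cov_graph`, `Cov.card_le`, or the index of a kernel).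
`ψ (a, μ) v = res ((a - μ t d) / (t * uL v))`; `ρ α v = m` with `‖uL v * α - m / t‖ < 1` (`ca_anom`, unique and additive by `fp_small`); `∑ ψ ρ = ∑ res (a α) = 0` (`res_sum`; argue as in `res_AA` at `InS0`; `ca_na` at `InNa`);
`ρ` is injective for large `Mx` (`prod_formula`, `ca_bound`); `card_ker_ge`; `ker ψ → AA`, `(a, μ) ↦ a` (`as_solve`: `t (s ^ p - s) = ℘ (t s)`) is injective because `d` has a pole.
-/

set_option linter.unusedSectionVars false

namespace Pool.Agent.ASel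

open Polynomial Pool.Agent.Smith Finset

variable {p : ℕ} {k : Type} [Field k] [Fintype k] [hp : Fact p.Prime] [CharP k p] {A F : k[X]}
  {v0 : Pl k} (hF : F ≠ 0) (hA : A ∣ F) (h0 : v0 ≠ none) (h1 : plp v0 ∣ F)

theorem FTc_fib {G X Y : Type} [AddCommGroup G] [Finite Y] (V : AddSubgroup G) [Finite V]
    (e : X → G) (he : Function.Injective e) (f : X → Y)
    (h : ∀ x x', f x = f x' → e x - e x' ∈ V) : Nat.card X ≤ Nat.card Y * Nat.card V := by
  rcases isEmpty_or_nonempty X with hX | hX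
  · simp
  rw [← Nat.card_prod]
  refine Nat.card_le_card_of_injective (fun x => (f x, (⟨e x - e (Function.invFun f (f x)),
    h _ _ (Function.invFun_eq ⟨x, rfl⟩).symm⟩ : V))) fun x x' hx => he ?_
  have h1 : f x = f x' := congrArg Prod.fst hx
  have h2 : e x - e (Function.invFun f (f x)) = e x' - e (Function.invFun f (f x')) :=
    congrArg (fun z : Y × V => (z.2 : G)) hx
  rwa [h1, sub_left_inj] at h2

theorem FTc_root {v : Pl k} {B y : Lv v} (h0 : B ≠ 0) (hB : ‖B‖ ≤ 1) {M : ℕ}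
    (h : ‖y ^ p / B - y‖ < 2 ^ (p * (M + 1))) : ‖y‖ ≤ 2 ^ M := by
  by_contra hc
  have h1 : (2 : ℝ) ^ (M + 1) ≤ ‖y‖ := not_lt.1 fun e => hc (by
    have := Wp_half (n := M) (x := y) (by exact_mod_cast e)
    exact_mod_cast this)
  have h2 : 1 < ‖y‖ := (one_lt_pow₀ one_lt_two M.succ_ne_zero).trans_le h1
  have h3 : ‖y ^ p / B - y‖ = ‖y‖ ^ p / ‖B‖ := wp_norm (p := p) (Wp_na v) h0
    (hB.trans_lt (one_lt_pow₀ h2 (Nat.sub_ne_zero_of_lt hp.out.one_lt)))
  rw [h3, mul_comm, pow_mul] at h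
  have h4 := pow_le_pow_left₀ (by positivity) h1 p
  have h5 : ‖y‖ ^ p ≤ ‖y‖ ^ p / ‖B‖ := le_div_self (by positivity) (norm_pos_iff.2 h0) hB
  linarith

theorem FTc_int {v : Pl k} {B y : Lv v} (hB : ‖B‖ = 1) (hy : ‖y‖ ≤ 1) : ‖y ^ p / B - y‖ ≤ 1 := by
  refine PF_sub ?_ hy
  rw [norm_div, norm_pow, hB, div_one]
  exact pow_le_one₀ (norm_nonneg _) hy

theorem FTc_zero {v : Pl k} {μ : ZMod p} (h : ‖algebraMap (ZMod p) (Lv v) μ‖ < 1) : μ = 0 := by
  refine (algebraMap (ZMod p) (Lv v)).injective ?_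
  rw [← ZMod.natCast_zmod_val μ, map_natCast] at h ⊢
  have := fp_small (p := p) (Wp_na v) (l := 1) (m := μ.val) (map_one _) (by rwa [mul_one])
  rwa [mul_one, ← map_zero (algebraMap (ZMod p) (Lv v))] at this

theorem FTc_res (v : Pl k) (μ : ZMod p) (z : Lv v) :
    res p v (algebraMap (ZMod p) (Lv v) μ * z) = μ * res p v z := by
  rw [← ZMod.natCast_zmod_val μ, map_natCast, ← nsmul_eq_mul, map_nsmul, nsmul_eq_mul]

theorem FTc_tors {v : Pl k} {B t : Lv v} (h0 : B ≠ 0) (ht : t ^ (p - 1) = B) (μ : ZMod p) :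
    (algebraMap (ZMod p) (Lv v) μ * t) ^ p / B - algebraMap (ZMod p) (Lv v) μ * t = 0 := by
  rw [mul_pow, ← map_pow, ZMod.pow_card, Wp_pow t, ht, ← mul_assoc, mul_div_cancel_right₀ _ h0,
    sub_self]

theorem FTc_pole (h0 : v0 ≠ none) (M : ℕ) {c : k[X]} (hc : c ∈ degreeLT k (M * pdg v0)) :
    av v0 (pk _ c / pk _ (plp v0 ^ M)) ≤ 2 ^ M ∧
      ∀ v, v ≠ v0 → av v (pk _ c / pk _ (plp v0 ^ M)) ≤ 1 := by
  change av v0 (algebraMap k[X] _ c / algebraMap k[X] _ _) ≤ _ ∧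
    ∀ v, v ≠ v0 → av v (algebraMap k[X] _ c / algebraMap k[X] _ _) ≤ 1
  refine ⟨?_, fun v hv => ?_⟩
  · rw [map_div₀, map_pow, map_pow, av_plp h0, inv_pow, div_inv_eq_mul]
    exact mul_le_of_le_one_left (by positivity) (av_poly_le h0 c)
  · by_cases e : v = none
    · subst e
      refine (PF_inf ?_).le
      rw [degree_eq_natDegree ((PF_monic v0).pow M).ne_zero, natDegree_pow, PF_deg h0]
      exact mem_degreeLT.1 hc
    · rw [map_div₀, map_pow, map_pow, PF_one e fun h => hv (PF_inj e h0 h), one_pow, div_one]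
      exact av_poly_le e c

variable (p) in
/-- pairs of a function and the classes of its polar parts -/
noncomputable def FTc_V (F : k[X]) (v0 : Pl k) (Mx n : ℕ) (K : Finset (Pl k)) (u : ∀ v : Pl k, Lv v) :
    AddSubgroup (RatFunc k × (K → ZMod p)) where
  carrier := {x | av v0 x.1 ≤ 2 ^ Mx ∧
    (∀ v : K, ‖algebraMap _ (Lv v.1) x.1 - algebraMap (ZMod p) _ (x.2 v) * u v.1‖ ≤ 1) ∧
    (∀ v ∉ K, ¬ InS0 F v → av v x.1 ≤ 1) ∧ ∀ v, InS0 F v → v ≠ v0 → av v x.1 ≤ 2⁻¹ ^ n}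
  zero_mem' := ⟨by simp, fun v => by simp, fun v _ _ => by simp, fun v _ _ => by simp⟩
  add_mem' {x y} hx hy := ⟨Hasse_add hx.1 hy.1, fun v => by
      rw [Prod.fst_add, Prod.snd_add, Pi.add_apply, map_add, map_add, add_mul, add_sub_add_comm]
      exact PF_add (hx.2.1 v) (hy.2.1 v),
    fun v a b => Hasse_add (hx.2.2.1 v a b) (hy.2.2.1 v a b),
    fun v a b => Hasse_add (hx.2.2.2 v a b) (hy.2.2.2 v a b)⟩
  neg_mem' {x} hx := ⟨((av v0).map_neg x.1).trans_le hx.1, fun v => by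
      rw [Prod.fst_neg, Prod.snd_neg, Pi.neg_apply, map_neg, map_neg, neg_mul, neg_sub_neg,
        norm_sub_rev]
      exact hx.2.1 v,
    fun v a b => ((av v).map_neg x.1).trans_le (hx.2.2.1 v a b),
    fun v a b => ((av v).map_neg x.1).trans_le (hx.2.2.2 v a b)⟩

theorem FTc_low (hF : F ≠ 0) (h0 : v0 ≠ none) (h1 : plp v0 ∣ F) (n : ℕ) : ∃ N : ℕ, ∀ (Mx : ℕ)
    (K : Finset (Pl k)) (u : ∀ v : Pl k, Lv v), (∀ v ∈ K, ¬ InS0 F v) →
    Finite (FTc_V p F v0 Mx n K u) →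
    p ^ K.card * Fintype.card k ^ (Mx * pdg v0) ≤ N * Nat.card (FTc_V p F v0 Mx n K u) := by
  classical
  choose T _ t2 using fun v : Pl k => card_ball' v n
  refine ⟨Nat.card (∀ v : (insert none (fac' F)).erase v0, T v), fun Mx K u hK hV => ?_⟩
  have hv0 : v0 ∉ K := fun e => hK v0 e (Or.inr h1)
  choose y y1 y2 _ using fun μ : K → ZMod p => pf_many K fun v =>
    if h : v ∈ K then algebraMap (ZMod p) _ (μ ⟨v, h⟩) * u v else 0
  have mS : ∀ v, v ∈ (insert none (fac' F)).erase v0 ↔ v ≠ v0 ∧ InS0 F v := fun v => by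
    simp only [InS0, mem_erase, mem_insert, mem_fac' hF]
    tauto
  obtain ⟨e, he⟩ : ∃ e : (K → ZMod p) × degreeLT k (Mx * pdg v0) → RatFunc k × (K → ZMod p),
      ∀ x, e x = (y x.1 + pk _ x.2.1 / pk _ (plp v0 ^ Mx), x.1) := ⟨_, fun _ => rfl⟩
  have m1 : ∀ x, e x ∈ FTc_V p F v0 Mx 0 K u := fun x => by
    obtain ⟨z1, z2⟩ := FTc_pole h0 Mx x.2.2
    rw [he]
    refine ⟨Hasse_add ((y2 _ v0 hv0).trans (one_le_pow₀ one_le_two)) z1, fun v => ?_,
      fun v a b => Hasse_add (y2 _ v a) (z2 v fun e => b (Or.inr (e ▸ h1))),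
      fun v a b => Hasse_add ((y2 _ v fun e => hK v e a).trans_eq (pow_zero _).symm)
        ((z2 v b).trans_eq (pow_zero _).symm)⟩
    have a := y1 x.1 v v.2
    rw [dif_pos v.2, norm_sub_rev] at a
    rw [map_add, add_sub_right_comm]
    exact PF_add a ((norm_alg _ _).trans_le (z2 v fun e => hv0 (e ▸ v.2)))
  choose f f1 _ f3 using fun (x : (K → ZMod p) × degreeLT k (Mx * pdg v0))
    (v : (insert none (fac' F)).erase v0) => t2 v (algebraMap _ _ (e x).1) ((norm_alg _ _).trans_le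
      (((m1 x).2.2.2 v ((mS v).1 v.2).2 ((mS v).1 v.2).1).trans_eq (pow_zero _)))
  refine le_trans (le_of_eq ?_) (FTc_fib (FTc_V p F v0 Mx n K u) e (fun x x' h => ?_)
    (fun x (v : (insert none (fac' F)).erase v0) => (⟨f x v, f1 x v⟩ : T v)) fun x x' h => ?_)
  · rw [Nat.card_prod, Nat.card_fun, Nat.card_zmod, Nat.card_eq_fintype_card (α := K),
      Fintype.card_coe, Nat.card_congr (degreeLTEquiv k _).toEquiv, Nat.card_fun,
      Nat.card_eq_fintype_card (α := k), Nat.card_fin]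
  · rw [he, he, Prod.mk.injEq] at h
    refine Prod.ext h.2 (Subtype.ext ?_)
    have h2 := h.1
    rw [h.2, add_right_inj, div_left_inj' (FB_pk ((PF_monic v0).pow Mx).ne_zero _)] at h2
    exact RatFunc.algebraMap_injective k h2
  · have m2 := sub_mem (m1 x) (m1 x')
    refine ⟨m2.1, m2.2.1, m2.2.2.1, fun v a b => ?_⟩
    have h2 : f x ⟨v, (mS v).2 ⟨b, a⟩⟩ = f x' ⟨v, (mS v).2 ⟨b, a⟩⟩ :=
      congrArg Subtype.val (congrFun h _)
    have h3 := f3 x ⟨v, (mS v).2 ⟨b, a⟩⟩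
    have h4 := f3 x' ⟨v, (mS v).2 ⟨b, a⟩⟩
    rw [norm_sub_rev, ← h2] at h4
    rw [Prod.fst_sub, ← norm_alg, map_sub]
    exact PF_tri h3 h4

theorem FTc_z {α : RatFunc k} (h : cK p (α / pk _ A) = α) (v : Pl k) :
    ‖uL v * (algebraMap _ _ α - cL p v (algebraMap _ _ α / pk (Lv v) A))‖ = 0 := by
  rw [FTi_loc v h, sub_self, mul_zero, norm_zero]

theorem FTc_bd (hA : A ≠ 0) {α : RatFunc k} (h : cK p (α / pk _ A) = α) (v : Pl k) :
    ‖uL v * algebraMap _ _ α‖ ≤ 2 ^ A.natDegree :=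
  ca_bound (p := p) (FB_pk hA _) (one_le_pow₀ one_le_two) (FTi_inv hA v)
    ((FTc_z h v).trans_le (by positivity))

theorem FTc_off (hA : A ∣ F) {b : k[X]} (hc : IsCoprime b F) {Mx : ℕ} {d α : RatFunc k}
    (h : α ∈ Cc p A F b v0 Mx d) {v : Pl k} (hv : ¬ InS p A F b v) : av v α ≤ 1 := by
  by_cases h1 : InNa p A b v
  · exact (norm_alg v α).symm.trans_le ((int_iff h1.1 _).1 (ca_na (norm_pk_one hA
      (not_S0_of_dvd hc h1.1 h1.2.1)) (na_root hA hc h1) ((FTc_z h.1 v).trans_lt one_pos)))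
  · exact (h.2.2 v).1 (inU_iff.2 ⟨hv, h1⟩)

theorem FTc_van (hF : F ≠ 0) (h0 : v0 ≠ none) {n Mx : ℕ} (hM : n + n * F.natDegree < Mx)
    {α : RatFunc k} (a0 : av v0 α ≤ 2⁻¹ ^ Mx) (a1 : ∀ v, av v α ≤ 2 ^ n)
    (a2 : ∀ v, ¬ InS0 F v → av v α ≤ 1) : α = 0 := by
  have e := eq_zero_of_small (y := α * algebraMap k[X] _ F ^ n / algebraMap k[X] _ (plp v0) ^ Mx)
    (fun v hv => ?_) ?_
  · have f1 := pow_ne_zero n (PF_ne hF)
    have f2 := pow_ne_zero Mx (PF_ne (PF_monic v0).ne_zero)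
    simpa only [div_eq_zero_iff, mul_eq_zero, f1, f2, or_false] using e
  · rw [map_div₀, map_mul, map_pow, map_pow]
    have b1 := pow_le_one₀ (n := n) ((av v).nonneg _) (av_poly_le hv F)
    by_cases e : v = v0
    · subst e
      rw [av_plp h0, div_le_one (by positivity)]
      exact (mul_le_of_le_one_right ((av v).nonneg _) b1).trans a0
    rw [PF_one hv fun h => e (PF_inj hv h0 h), one_pow, div_one]
    by_cases e' : InS0 F v
    · have b2 := pow_le_pow_left₀ ((av v).nonneg _)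
        (PF_half' ((av_poly_lt hv F).2 (e'.resolve_left hv))) n
      refine (mul_le_mul (a1 v) b2 (by positivity) (by positivity)).trans_eq ?_
      rw [← mul_pow, mul_inv_cancel₀ two_ne_zero, one_pow]
    · exact mul_le_one₀ (a2 v e') (by positivity) b1
  · rw [map_div₀, map_mul, map_pow, map_pow, av_inf hF, av_inf (PF_monic v0).ne_zero,
      div_lt_one (by positivity), ← pow_mul, ← pow_mul]
    refine (mul_le_mul_of_nonneg_right (a1 none) (by positivity)).trans_lt ?_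
    rw [← pow_add, PF_deg h0]
    refine pow_lt_pow_right₀ one_lt_two ?_
    rw [mul_comm F.natDegree]
    exact hM.trans_le (Nat.le_mul_of_pos_left _ (pdg_pos v0))

include hF hA h0 h1

theorem Cc_fin {b : k[X]} (hb : b ≠ 0) (hc : IsCoprime b F) (Mx : ℕ) (d : RatFunc k) :
    (Cc p A F b v0 Mx d : Set (RatFunc k)).Finite := by
  obtain ⟨C, hC⟩ := card_fix (p := p) hF hA
  obtain ⟨T, -, t2⟩ := hC b hb hc
  exact T.finite_toSet.subset fun α hα => t2 α hα.1 fun v hv => (hα.2.2 v).1 hv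

theorem AA_fin {b : k[X]} (hb : b ≠ 0) (hc : IsCoprime b F) (Mx : ℕ) (d : RatFunc k) :
    (AA p A F b v0 Mx d : Set (RatFunc k)).Finite := by
  choose! t ht using fun (v : Pl k) (hv : InAn p A b v) => an_root hA hc hv
  choose R r1 r2 using fun v : Pl k => FFix_R (k := k) (p := p)
    fun m : Lv v => m * t v * algebraMap _ _ d
  obtain ⟨T, -, t2⟩ := FFix_count (p := p) (A := A) hF hb Mx ∅ R r1
  refine T.finite_toSet.subset fun a ha => t2 a (fun v hv => ?_) (fun v hv => ?_)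
    fun v hv _ => (ha.2 v).2.2 hv
  · by_cases e : v = v0
    · exact e ▸ ha.1
    · exact ((le_mul_of_one_le_right ((av v).nonneg a) (one_le_pow₀ one_le_two)).trans
        ((ha.2 v).1 (hv.resolve_right (notMem_empty v)) e).le).trans (one_le_pow₀ one_le_two)
  · obtain ⟨y, s, a1, a2, a3⟩ := (ha.2 v).2.1 hv
    have n1 := norm_pk_one hA (not_S0_of_dvd hc hv.1 hv.2.1)
    obtain ⟨m, hm⟩ := wp_ker (ht v hv) (norm_pos_iff.1 (one_pos.trans_eq
      (Wp_one n1 (ht v hv)).symm)) a2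
    refine ⟨_, r2 v m, ?_⟩
    rw [a3, hm, add_sub_cancel_right]
    exact FTc_int n1 a1

theorem AA0_le : ∃ c : ℕ, ∀ (b : k[X]) (d : RatFunc k) (M : ℕ), b ≠ 0 → IsCoprime b F →
    (∀ v, av v d ≤ 2) →
    Nat.card (AA0 p A F b v0 (p * M) d) ≤ Fintype.card k ^ (c + M * pdg v0) := by
  classical
  have A0 := ne_zero_of_dvd_ne_zero hF hA
  refine ⟨1 + A.natDegree, fun b d M hb hc hd => ?_⟩
  choose B b1 b2 using fun (v : Pl k) (n : ℕ) => card_ball v n
  obtain ⟨Y, y1, y2⟩ := card_bounded {none, v0} fun v => B v (if v = v0 then M else A.natDegree)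
  have hs : (AA0 p A F b v0 (p * M) d : Set (RatFunc k)) ⊆
      (Y.image fun y => y ^ p / pk _ A - y : Finset _) := by
    rintro a ⟨ha, y, rfl⟩
    refine mem_coe.2 (mem_image_of_mem _ ?_)
    have e1 : ∀ v : Pl k, algebraMap _ (Lv v) (y ^ p / pk _ A - y) =
        algebraMap _ _ y ^ p / pk _ A - algebraMap _ _ y := fun v => by
      rw [map_sub, map_div₀, map_pow]
      rfl
    have e2 : ∀ (v : Pl k) (n : ℕ), v ≠ none → av v (y ^ p / pk _ A - y) < 2 ^ (p * (n + 1)) →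
        ‖algebraMap _ (Lv v) y‖ ≤ 2 ^ n := fun v n hv h =>
      FTc_root (p := p) (FB_pk A0 _) ((norm_alg v _).trans_le (av_poly_le hv A))
        (by rwa [← e1, norm_alg])
    have e3 : ∀ v, InS0 F v → v ≠ v0 → av v (y ^ p / pk _ A - y) ≤ 1 := fun v a b =>
      (le_mul_of_one_le_right ((av v).nonneg _) (one_le_pow₀ one_le_two)).trans
        ((ha.2 v).1 a b).le
    refine y2 y (fun v hv => b2 v _ _ ?_) fun v hv => ?_
    · split_ifs with e
      · subst e
        exact e2 v M h0 (ha.1.trans_lt (pow_lt_pow_right₀ one_lt_two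
          (Nat.mul_lt_mul_of_pos_left M.lt_succ_self hp.out.pos)))
      · obtain rfl : v = none := (mem_insert.1 hv).resolve_right fun h => e (mem_singleton.1 h)
        rw [norm_alg]
        exact wp_le (p := p) (av_na none) (FB_pk A0 _) (one_le_pow₀ one_le_two) (av_inf A0).le
          ((e3 none (Or.inl rfl) e).trans (one_le_pow₀ one_le_two))
    · rw [mem_insert, mem_singleton, not_or] at hv
      refine (norm_alg v y).symm.trans_le ((e2 v 0 hv.1 (lt_of_le_of_lt (b := 2 ^ 1) ?_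
        (pow_lt_pow_right₀ one_lt_two (by simpa using hp.out.one_lt)))).trans_eq (pow_zero _))
      rw [pow_one]
      by_cases hS : InS p A F b v
      · rcases inS_iff.1 hS with h | h
        · exact (e3 v h hv.2).trans one_le_two
        · obtain ⟨z, s, a1, a2, a3⟩ := (ha.2 v).2.1 h
          have n1 := norm_pk_one hA (not_S0_of_dvd hc h.1 h.2.1)
          have n2 : ‖s‖ ≤ 1 := wp_int (p := p) (Wp_na v) n1
            ((congrArg norm a2).trans_le (norm_zero.trans_le zero_le_one))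
          rw [← norm_alg, a3]
          refine PF_add ((FTc_int n1 a1).trans one_le_two) ?_
          rw [norm_mul, norm_alg]
          exact (mul_le_of_le_one_left ((av v).nonneg _) n2).trans (hd v)
      · exact ((ha.2 v).2.2 hS).trans one_le_two
  refine ((Set.ncard_le_ncard hs (finite_toSet _)).trans_eq (Set.ncard_coe_finset _)).trans
    (card_image_le.trans (y1.trans ?_))
  rw [prod_pair h0.symm, if_neg h0.symm, if_pos rfl, pow_add, pow_add, pow_one, mul_assoc]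
  exact Nat.mul_le_mul_left _ (Nat.mul_le_mul ((b1 _ _).trans_eq (congrArg _ (mul_one _))) (b1 _ _))

theorem AA_ge : ∃ c M0 : ℕ, ∀ (b : k[X]) (d : RatFunc k), ∀ Mx ≥ M0, b ≠ 0 → IsCoprime b F →
    (∀ v, InAn p A b v → 1 < av v d) →
    Nat.card (Cc p A F b v0 Mx d) * Fintype.card k ^ (Mx * pdg v0) ≤
      Fintype.card k ^ c * Nat.card (AA p A F b v0 Mx d) := by
  classical
  have A0 := ne_zero_of_dvd_ne_zero hF hA
  obtain ⟨N, hN⟩ := FTc_low (p := p) hF h0 h1 (A.natDegree + 1)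
  refine ⟨N, A.natDegree + 1 + (A.natDegree + 1) * F.natDegree + 1, fun b d Mx hM hb hc hd => ?_⟩
  obtain ⟨K, mK⟩ : ∃ K : Finset (Pl k), ∀ v, v ∈ K ↔ InAn p A b v :=
    ⟨(fac' b).filter fun v => Anom p A (plp v), fun v => by
      simp only [InAn, mem_filter, mem_fac' hb, and_assoc]⟩
  choose! t ht using fun (v : Pl k) (hv : InAn p A b v) => an_root hA hc hv
  have nS : ∀ v ∈ K, ¬ InS0 F v := fun v hv => not_S0_of_dvd hc ((mK v).1 hv).1 ((mK v).1 hv).2.1
  have oS : ∀ v, ¬ InS p A F b v ↔ v ∉ K ∧ ¬ InS0 F v := fun v => by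
    rw [inS_iff, mK, not_or, and_comm]
  have n0 : ∀ v : K, t v.1 ^ (p - 1) = pk _ A := fun v => ht v ((mK v).1 v.2)
  have n1 : ∀ v : K, ‖pk (Lv v.1) A‖ = 1 := fun v => norm_pk_one hA (nS v v.2)
  have n2 : ∀ v : K, ‖t v.1‖ = 1 := fun v => Wp_one (n1 v) (n0 v)
  have n3 : ∀ v : K, t v.1 ≠ 0 := fun v => norm_pos_iff.1 (one_pos.trans_eq (n2 v).symm)
  have n4 : (2 : ℝ)⁻¹ ^ (A.natDegree + 1) * 2 ^ A.natDegree < 1 := by
    rw [pow_succ', mul_assoc, ← mul_pow, inv_mul_cancel₀ two_ne_zero, one_pow]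
    norm_num
  obtain ⟨ψ, hψ⟩ : ∃ ψ : FTc_V p F v0 Mx (A.natDegree + 1) K (fun v => t v * algebraMap _ _ d) →+
      (K → ZMod p), ∀ x v, ψ x v = res p v.1 ((algebraMap _ _ x.1.1 -
        algebraMap (ZMod p) _ (x.1.2 v) * (t v.1 * algebraMap _ _ d)) / t v.1 / uL v.1) :=
    ⟨AddMonoidHom.mk' (fun x v => res p v.1 ((algebraMap _ _ x.1.1 -
        algebraMap (ZMod p) _ (x.1.2 v) * (t v.1 * algebraMap _ _ d)) / t v.1 / uL v.1))
      fun x y => funext fun v => by
        rw [Pi.add_apply, ← map_add, AddSubgroup.coe_add, Prod.fst_add, Prod.snd_add, Pi.add_apply,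
          map_add (algebraMap (RatFunc k) _), map_add (algebraMap (ZMod p) _), add_mul,
          add_sub_add_comm, add_div, add_div], fun _ _ => rfl⟩
  have ex : ∀ (α : Cc p A F b v0 Mx d) (v : K), ∃ μ : ZMod p,
      ‖uL v.1 * algebraMap _ _ α.1 - algebraMap (ZMod p) _ μ / t v.1‖ < 1 := fun α v => by
    obtain ⟨m, hm⟩ := ca_anom (n1 v) (n0 v) ((FTc_z α.2.1 v.1).trans_lt one_pos)
    exact ⟨m, by rwa [map_natCast]⟩
  choose r hr using ex
  obtain ⟨ρ, hρ⟩ : ∃ ρ : Cc p A F b v0 Mx d →+ (K → ZMod p), ∀ α, ρ α = r α :=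
    ⟨AddMonoidHom.mk' r fun α β => funext fun v => sub_eq_zero.1 (FTc_zero (v := v.1) (by
      have h := Wp_sub_lt (Wp_add_lt (hr α v) (hr β v)) (hr (α + β) v)
      rwa [AddSubgroup.coe_add, map_add, mul_add, ← add_sub_add_comm, sub_sub_sub_cancel_left,
        ← add_div, ← sub_div, norm_div, n2, div_one, ← map_add, ← map_sub] at h)), fun _ => rfl⟩
  have i1 : Function.Injective ρ := (injective_iff_map_eq_zero ρ).2 fun α hα =>
    Subtype.ext (FTc_van hF h0 hM α.2.2.1 (fun v => by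
      have h2 := FTc_bd A0 α.2.1 v
      have h3 := (av v).nonneg α.1
      have h4 : (0 : ℝ) < 2 ^ A.natDegree := by positivity
      rw [norm_mul, Wp_uL, norm_alg] at h2
      rw [pow_succ]
      split_ifs at h2 <;> linarith) fun v hv => by
      by_cases e : v ∈ K
      · have h2 := hr α ⟨v, e⟩
        rw [← hρ, hα, Pi.zero_apply, map_zero, zero_div, sub_zero] at h2
        exact (norm_alg v _).symm.trans_le ((int_iff ((mK v).1 e).1 _).1 h2)
      · exact FTc_off hA hc α.2 ((oS v).2 ⟨e, hv⟩))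
  have i2 : ∀ x α, ∑ v, ψ x v * ρ α v = 0 := fun x α => by
    have h2 := res_sum (p := p) (x.1.1 * α.1) (Sf p A F b) fun v hv => by
      rw [mem_Sf hF hb] at hv
      rw [map_mul, map_mul, av_uu, if_neg fun e => hv (Or.inl (Or.inl e))]
      have h3 := mul_le_one₀ (x.2.2.2.1 v ((oS v).1 hv).1 ((oS v).1 hv).2) ((av v).nonneg _)
        (FTc_off hA hc α.2 hv)
      linarith
    rw [← sum_subset (s₁ := K) (fun v hv => (mem_Sf hF hb).2 (inS_iff.2 (Or.inr ((mK v).1 hv))))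
      fun v hv hv' => ?_, ← sum_coe_sort] at h2
    · refine (sum_congr rfl fun v _ => ?_).trans h2
      have h3 := hr α v
      have h4 := x.2.2.1 v
      dsimp only at h4
      have h5 := (α.2.2.2 v).2 ((mK v).1 v.2) _ (FTc_tors (FB_pk A0 _) (n0 v) (x.1.2 v))
      rw [hψ, hρ, map_mul]
      generalize algebraMap (RatFunc k) (Lv v.1) x.1.1 = a at h4 ⊢
      generalize algebraMap (RatFunc k) (Lv v.1) α.1 = w at h3 h5 ⊢
      generalize algebraMap (RatFunc k) (Lv v.1) d = δ at h4 h5 ⊢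
      generalize algebraMap (ZMod p) (Lv v.1) (x.1.2 v) = c at h4 h5 ⊢
      have h6 : a * w = algebraMap (ZMod p) _ (r α v) * ((a - c * (t v.1 * δ)) / t v.1 / uL v.1) +
          (a - c * (t v.1 * δ)) * (uL v.1 * w - algebraMap (ZMod p) _ (r α v) / t v.1) / uL v.1 +
          c * t v.1 * δ * w := by
        have := n3 v
        have := Wp_uL0 v.1
        field_simp
        ring
      rw [h6, map_add, map_add, FTc_res, h5, add_zero, res_small (f := _ * _ / _), add_zero,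
        mul_comm]
      rw [mul_div_cancel₀ _ (Wp_uL0 _), norm_mul]
      exact mul_lt_one_of_nonneg_of_lt_one_right h4 (norm_nonneg _) h3
    · have h3 := (inS_iff.1 ((mem_Sf hF hb).1 hv)).resolve_right fun e => hv' ((mK v).2 e)
      by_cases e : v = v0
      · subst e
        refine res_int h0 ?_
        rw [norm_alg, map_mul]
        refine (mul_le_mul x.2.1 α.2.2.1 ((av v).nonneg _) (by positivity)).trans_eq ?_
        rw [← mul_pow, mul_inv_cancel₀ two_ne_zero, one_pow]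
      · refine res_small ?_
        rw [map_mul, mul_left_comm, norm_mul, norm_alg]
        exact (mul_le_mul (x.2.2.2.2 v h3 e) (FTc_bd A0 α.2.1 v) (norm_nonneg _)
          (by positivity)).trans_lt n4
  have i3 : ∀ x : ψ.ker, x.1.1.1 ∈ AA p A F b v0 Mx d := fun ⟨x, hx⟩ => by
    refine ⟨x.2.1, fun v => ⟨fun a b => (mul_le_mul_of_nonneg_right (x.2.2.2.2 v a b)
      (by positivity)).trans_lt n4, fun hv => ?_,
      fun hv => x.2.2.2.1 v ((oS v).1 hv).1 ((oS v).1 hv).2⟩⟩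
    lift v to K using (mK v).2 hv
    obtain ⟨s, s1, s2⟩ := as_solve (p := p) (by
      rw [norm_div, n2, div_one]
      exact x.2.2.1 v) ((hψ x v).symm.trans (congrFun hx v))
    refine ⟨t v.1 * s, _, by rwa [norm_mul, n2, one_mul], FTc_tors (FB_pk A0 _) (n0 v) (x.1.2 v), ?_⟩
    rw [mul_pow, Wp_pow (t v.1), n0, mul_right_comm, mul_div_cancel_right₀ _ (FB_pk A0 _), ← mul_sub,
      s2, mul_div_cancel₀ _ (n3 v), mul_assoc, sub_add_cancel]
  have i4 : Function.Injective fun x : ψ.ker => (⟨_, i3 x⟩ : AA p A F b v0 Mx d) := fun x y h => by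
    have e : x.1.1.1 = y.1.1.1 := congrArg Subtype.val h
    refine Subtype.ext (Subtype.ext (Prod.ext e (funext fun v =>
      sub_eq_zero.1 (FTc_zero (v := v.1) ?_))))
    have h2 := PF_sub (y.1.2.2.1 v) (x.1.2.2.1 v)
    rw [e, sub_sub_sub_cancel_left, ← sub_mul, ← map_sub, norm_mul, norm_mul, n2, one_mul,
      norm_alg] at h2
    have h3 := hd v ((mK v).1 v.2)
    by_contra h4
    linarith [mul_le_mul_of_nonneg_right (not_lt.1 h4) ((av v.1).nonneg d)]
  have f1 : Finite (AA p A F b v0 Mx d) := (AA_fin hF hA h0 h1 hb hc Mx d).to_subtype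
  have f2 : Finite _ := ψ.finite_iff_finite_ker_range.2 ⟨Finite.of_injective _ i4, inferInstance⟩
  have g1 := card_ker_ge ψ _ ρ i1 i2
  have g2 := hN Mx K _ nS f2
  have g3 := Nat.card_le_card_of_injective _ i4
  have g4 : N ≤ Fintype.card k ^ N := (Nat.lt_pow_self Fintype.one_lt_card).le
  rw [Fintype.card_coe] at g1
  refine Nat.le_of_mul_le_mul_left ?_ (pow_pos hp.out.pos K.card)
  rw [mul_left_comm]
  refine (Nat.mul_le_mul_left _ g2).trans ?_
  rw [mul_left_comm, mul_comm (Nat.card (Cc p A F b v0 Mx d)), mul_left_comm (p ^ K.card),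
    mul_comm (p ^ K.card)]
  exact Nat.mul_le_mul g4 (g1.trans (Nat.mul_le_mul_right _ g3))

end Pool.Agent.ASel
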