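import Pool.Agent.Work.MP_60d5ce_nt.AS.FB

/-!
# Tightness: the pairing  (AS, function field side)

`AA`: test elements, `Cc`: leading coefficients, `TT`: the triple pairing.

PLAN.  `sl_spec`: `wp_surj`, `na_root`, `norm_pk_one`; the solution in `Lv v` is unique (a nonzero `z` with `z ^ p / A = z` has `z ^ (p - 1) = A`).  `res_AA`: at `InS0`, `v ≠ v0`: `ca_bound` (`‖A‖⁻¹ ≤ 2 ^ natDegree A`), `res_small`; at `v0`: `res_int`; at `InAn`: `res_wp`.
`mem_Cc`: `β - C (β / A) = -2 C (d α / A)`, so `res_wp` with `y = t` gives `2 res (t d α) = 0` (`cL_frob`, `res_car`); with `s = emb v (WW Φ e)` in `Lv v` (`WW_split`, `WW_pow`) `t * hh e = ℘ (t s)`.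
`TT_zero`: `h = hh (e - e') = de e - de e'`, `Δ = β - β'` has `Δ - C (Δ / A) = -2 C (h α / A)`; `res_sum` for `a Δ` over `Sf ∪ Nf`.  At `Nf`: `res (a Δ) = 2 res (h φ(y) α)` (`res_wp`).  At `Sf`, `h = s ^ p - s`: `ω = Δ + 2 s α` is fixed by `C (· / A)`, and
`γ'' = γ + β s + α s ^ 2 - γ'` has `C ((γ'' - d' ω) / A) = γ''`, `d' = de e'`, because `γ'' - d' ω = (γ - d β + d ^ 2 α) + s ^ p (β - 2 d α) + (s ^ 2) ^ p α - (γ' - d' β' + d' ^ 2 α)`, `d = de e`; so `res (t d' ω) = 0`, and `res_AA` gives `res (a ω) = 0`.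
-/

set_option linter.unusedSectionVars false

namespace Pool.Agent.ASel

open Polynomial Pool.Agent.Smith Finset
open scoped Classical

noncomputable section

variable {p : ℕ} {k : Type} [Field k] [Fintype k] [hp : Fact p.Prime] [CharP k p] {ι : Type}

theorem FTi_neg {M : Type} [Field M] [CharP M p] (A y : M) :
    (-y) ^ p / A - -y = -(y ^ p / A - y) := by
  rw [neg_pow, neg_one_pow_char]
  ring

theorem FTi_fix {v : Pl k} {A ω : Lv v} (hA : A ≠ 0) (h : cL p v (ω / A) = ω) (y : Lv v) :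
    res p v ((y ^ p / A - y) * ω) = 0 := by
  rw [res_wp v hA, h, sub_self, mul_zero, map_zero, neg_zero]

theorem FTi_car {v : Pl k} (A y x : Lv v) :
    res p v (y * cL p v (x / A)) = res p v (y ^ p / A * x) := by
  rw [← cL_frob, res_car, div_mul_eq_mul_div, mul_div_assoc]

theorem FTi_tors {v : Pl k} {A t x y : Lv v} (ht : t ^ p / A - t = 0)
    (h : cL p v ((y - x) / A) = y) : res p v (t * x) = 0 := by
  have h1 := FTi_car (p := p) A t (y - x)
  rwa [h, sub_eq_zero.1 ht, mul_sub, map_sub, eq_comm, sub_eq_self] at h1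

theorem FTi_loc {A : k[X]} (v : Pl k) {x y : RatFunc k} (h : cK p (x / pk _ A) = y) :
    cL p v (algebraMap _ _ x / pk _ A) = algebraMap _ _ y := by
  rw [← h, alg_cK, map_div₀ (algebraMap _ (Lv v))]
  rfl

theorem FTi_inv {A : k[X]} (hA : A ≠ 0) (v : Pl k) : ‖pk (Lv v) A‖⁻¹ ≤ 2 ^ A.natDegree := by
  rw [show ‖pk (Lv v) A‖ = av v (algebraMap k[X] _ A) from norm_alg v _]
  by_cases hv : v = none
  · subst hv
    rw [av_inf hA]
    exact (inv_le_one_of_one_le₀ (one_le_pow₀ one_le_two)).trans (one_le_pow₀ one_le_two)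
  · rw [av_poly_eq hv hA, ← inv_pow, inv_inv]
    refine pow_le_pow_right₀ one_le_two ?_
    have h1 := natDegree_le_of_dvd (pow_multiplicity_dvd (plp v) A) hA
    rw [natDegree_pow] at h1
    exact (Nat.le_mul_of_pos_right _ (PF_irr hv).natDegree_pos).trans h1

variable (p) in
/-- test elements -/
def AA (A F b : k[X]) (v0 : Pl k) (Mx : ℕ) (d : RatFunc k) : AddSubgroup (RatFunc k) where
  carrier := {a | av v0 a ≤ 2 ^ Mx ∧ ∀ v, (InS0 F v → v ≠ v0 → av v a * 2 ^ A.natDegree < 1) ∧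
    (InAn p A b v → ∃ y t : Lv v, ‖y‖ ≤ 1 ∧ t ^ p / pk _ A - t = 0 ∧
      algebraMap _ _ a = y ^ p / pk _ A - y + t * algebraMap _ _ d) ∧
    (¬ InS p A F b v → av v a ≤ 1)}
  zero_mem' := ⟨by simp, fun v => ⟨fun _ _ => by simp, fun _ =>
    ⟨0, 0, by simp, by simp [hp.out.ne_zero], by simp [hp.out.ne_zero]⟩, fun _ => by simp⟩⟩
  add_mem' {x y} hx hy := ⟨Hasse_add hx.1 hy.1, fun v => ⟨fun h h' => by
      refine (mul_le_mul_of_nonneg_right (av_na v x y) (by positivity)).trans_lt ?_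
      rw [max_mul_of_nonneg _ _ (by positivity)]
      exact max_lt ((hx.2 v).1 h h') ((hy.2 v).1 h h'), fun h => by
      obtain ⟨y1, t1, a1, a2, a3⟩ := (hx.2 v).2.1 h
      obtain ⟨y2, t2, b1, b2, b3⟩ := (hy.2 v).2.1 h
      refine ⟨y1 + y2, t1 + t2, PF_add a1 b1, by rw [Wp_add, a2, b2, add_zero], ?_⟩
      rw [map_add, a3, b3, Wp_add]
      ring, fun h => Hasse_add ((hx.2 v).2.2 h) ((hy.2 v).2.2 h)⟩⟩
  neg_mem' {x} hx := ⟨((av v0).map_neg x).trans_le hx.1, fun v => ⟨fun h h' => by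
      rw [(av v).map_neg]
      exact (hx.2 v).1 h h', fun h => by
      obtain ⟨y1, t1, a1, a2, a3⟩ := (hx.2 v).2.1 h
      refine ⟨-y1, -t1, by rwa [norm_neg], by rw [FTi_neg, a2, neg_zero], ?_⟩
      rw [map_neg, a3, FTi_neg]
      ring, fun h => ((av v).map_neg x).trans_le ((hx.2 v).2.2 h)⟩⟩

variable (p) in
/-- trivial test elements -/
def AA0 (A F b : k[X]) (v0 : Pl k) (Mx : ℕ) (d : RatFunc k) : AddSubgroup (RatFunc k) where
  carrier := {a | a ∈ AA p A F b v0 Mx d ∧ ∃ y : RatFunc k, a = y ^ p / pk _ A - y}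
  zero_mem' := ⟨zero_mem _, 0, by simp [hp.out.ne_zero]⟩
  add_mem' := fun ⟨a1, y, a2⟩ ⟨b1, z, b2⟩ => ⟨add_mem a1 b1, y + z, by rw [Wp_add, ← a2, ← b2]⟩
  neg_mem' := fun ⟨a1, y, a2⟩ => ⟨neg_mem a1, -y, by rw [FTi_neg, ← a2]⟩

variable (p) in
/-- leading coefficients -/
def Cc (A F b : k[X]) (v0 : Pl k) (Mx : ℕ) (d : RatFunc k) : AddSubgroup (RatFunc k) where
  carrier := {α | cK p (α / pk _ A) = α ∧ av v0 α ≤ 2⁻¹ ^ Mx ∧ ∀ v, (InU F b v → av v α ≤ 1) ∧
    (InAn p A b v → ∀ t : Lv v, t ^ p / pk _ A - t = 0 →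
      res p v (t * algebraMap _ _ d * algebraMap _ _ α) = 0)}
  zero_mem' := ⟨by simp, by simp, fun v => ⟨fun _ => by simp, fun _ _ _ => by simp⟩⟩
  add_mem' {x y} hx hy := ⟨by rw [add_div, map_add, hx.1, hy.1], Hasse_add hx.2.1 hy.2.1, fun v =>
    ⟨fun h => Hasse_add ((hx.2.2 v).1 h) ((hy.2.2 v).1 h), fun h t ht => by
      rw [map_add, mul_add, map_add, (hx.2.2 v).2 h t ht, (hy.2.2 v).2 h t ht, add_zero]⟩⟩
  neg_mem' {x} hx := ⟨by rw [neg_div, map_neg, hx.1], ((av v0).map_neg x).trans_le hx.2.1, fun v =>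
    ⟨fun h => ((av v).map_neg x).trans_le ((hx.2.2 v).1 h), fun h t ht => by
      rw [map_neg, mul_neg, map_neg, (hx.2.2 v).2 h t ht, neg_zero]⟩⟩

variable (p) in
/-- a fixed quadratic form with leading coefficient `α` -/
def TgD (A F b : k[X]) (v0 : Pl k) (Mx : ℕ) (d α : RatFunc k) : Prop :=
  ∃ β γ : RatFunc k, cK p (α / pk _ A) = α ∧ cK p ((β - 2 * d * α) / pk _ A) = β ∧
    cK p ((γ - d * β + d ^ 2 * α) / pk _ A) = γ ∧
    (∀ v, v ≠ none → ¬ plp v ∣ F * b → av v α ≤ 1 ∧ av v β ≤ 1) ∧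
    av v0 α ≤ 2⁻¹ ^ Mx ∧ av v0 β ≤ 2⁻¹ ^ Mx

variable (p) in
/-- a local solution of `℘ y = a` -/
def sl (A : k[X]) (v : Pl k) (a : RatFunc k) : Lv v :=
  if h : ∃ y : Lv v, y ^ p / pk _ A - y = algebraMap _ _ a then h.choose else 0

variable {A F b : k[X]} {v0 : Pl k} {Mx : ℕ}

theorem sl_spec (hA : A ∣ F) (hc : IsCoprime b F) {v : Pl k} (hv : InNa p A b v) {a : RatFunc k}
    (ha : av v a ≤ 1) : ‖sl p A v a‖ ≤ 1 ∧ sl p A v a ^ p / pk _ A - sl p A v a = algebraMap _ _ a := by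
  have h1 := norm_pk_one hA (not_S0_of_dvd hc hv.1 hv.2.1)
  have h2 : ‖algebraMap _ (Lv v) a‖ ≤ 1 := (norm_alg v a).trans_le ha
  obtain ⟨y, -, hy⟩ := wp_surj h1 (na_root hA hc hv) h2
  have h3 : sl p A v a ^ p / pk _ A - sl p A v a = algebraMap _ _ a := by
    rw [sl, dif_pos ⟨y, hy⟩]
    exact Exists.choose_spec (⟨y, hy⟩ : ∃ y : Lv v, y ^ p / pk _ A - y = algebraMap _ _ a)
  exact ⟨wp_int (p := p) (Wp_na v) h1 ((congrArg norm h3).trans_le h2), h3⟩

theorem sl_add (hA : A ∣ F) (hc : IsCoprime b F) {v : Pl k} (hv : InNa p A b v) {a a' : RatFunc k}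
    (ha : av v a ≤ 1) (ha' : av v a' ≤ 1) : sl p A v (a + a') = sl p A v a + sl p A v a' := by
  have h1 := norm_pk_one hA (not_S0_of_dvd hc hv.1 hv.2.1)
  have h0 : pk (Lv v) A ≠ 0 := fun e => by simp [e] at h1
  have h2 := Wp_sub (p := p) (pk (Lv v) A) (sl p A v (a + a')) (sl p A v a + sl p A v a')
  rw [Wp_add, (sl_spec hA hc hv ha).2, (sl_spec hA hc hv ha').2,
    (sl_spec hA hc hv (Hasse_add ha ha')).2, map_add, sub_self, sub_eq_zero, div_eq_iff h0,
    Wp_pow] at h2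
  exact by_contra fun e => na_root hA hc hv _ (mul_left_cancel₀ (sub_ne_zero.2 e) h2)

theorem res_AA (hF : F ≠ 0) (hA : A ∣ F) (hc : IsCoprime b F) (h0 : v0 ≠ none) {d a : RatFunc k}
    (ha : a ∈ AA p A F b v0 Mx d) {v : Pl k} (hv : InS p A F b v) {ω : Lv v}
    (h1 : cL p v (ω / pk _ A) = ω) (h2 : v = v0 → ‖ω‖ ≤ 2⁻¹ ^ Mx)
    (h3 : InAn p A b v → ∀ t : Lv v, t ^ p / pk _ A - t = 0 → res p v (t * algebraMap _ _ d * ω) = 0) :
    res p v (algebraMap _ _ a * ω) = 0 := by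
  have A0 := ne_zero_of_dvd_ne_zero hF hA
  rcases inS_iff.1 hv with h | h
  · by_cases e : v = v0
    · subst e
      refine res_int h0 ?_
      rw [norm_mul, norm_alg]
      refine (mul_le_mul ha.1 (h2 rfl) (norm_nonneg _) (by positivity)).trans_eq ?_
      rw [← mul_pow, mul_inv_cancel₀ two_ne_zero, one_pow]
    · have h4 := ca_bound (p := p) (w := ω) (FB_pk A0 _) (one_le_pow₀ one_le_two) (FTi_inv A0 v) (by
        rw [h1, sub_self, mul_zero, norm_zero]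
        positivity)
      refine res_small ?_
      rw [mul_left_comm, norm_mul, norm_alg]
      exact (mul_le_mul_of_nonneg_left h4 ((av v).nonneg _)).trans_lt ((ha.2 v).1 h e)
  · obtain ⟨y, t, -, a2, a3⟩ := (ha.2 v).2.1 h
    rw [a3, add_mul, map_add, FTi_fix (FB_pk A0 _) h1, h3 h t a2, add_zero]

variable [Fintype ι]

/-- the triple pairing -/
def TT (A F b : k[X]) (Φ : ASF p k ι) (α a : RatFunc k) (e : ι → ZMod p) : ZMod p :=
  ∑ v ∈ Sf p A F b, res p v (rt v (emb v (WW Φ e)) * algebraMap _ _ (a * α)) -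
    ∑ v ∈ Nf p A b, res p v (algebraMap _ _ (hh Φ e) * (sl p A v a ^ p / pk _ A * algebraMap _ _ α))

variable {Φ : ASF p k ι}

theorem TT_add_e (α a : RatFunc k) (e e' : ι → ZMod p) :
    TT A F b Φ α a (e + e') = TT A F b Φ α a e + TT A F b Φ α a e' := by
  simp only [TT, WW_add, hh_add, map_add, add_mul, sum_add_distrib]
  ring

variable (hT : Ty p A F 0 1) (hS : Stg A F b Φ)
include hT hS

theorem TT_add_a (α : RatFunc k) {a a' : RatFunc k} (ha : a ∈ AA p A F b v0 Mx Φ.d)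
    (ha' : a' ∈ AA p A F b v0 Mx Φ.d) (e : ι → ZMod p) :
    TT A F b Φ α (a + a') e = TT A F b Φ α a e + TT A F b Φ α a' e := by
  rw [TT, TT, TT, ← add_sub_add_comm, ← sum_add_distrib, ← sum_add_distrib]
  refine congrArg₂ _ (sum_congr rfl fun v _ => ?_) (sum_congr rfl fun v hv => ?_)
  · rw [add_mul, map_add, mul_add, map_add]
  · have h := (mem_Nf hS.b_ne).1 hv
    rw [sl_add hT.dvd hS.cop h ((ha.2 v).2.2 (h.not_S hS.cop)) ((ha'.2 v).2.2 (h.not_S hS.cop)),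
      add_pow_char, add_div, add_mul, mul_add, map_add]

theorem FTi_two {x : ZMod p} (h : x + x = 0) : x = 0 := by
  rw [← two_mul] at h
  refine (mul_eq_zero.1 h).resolve_left fun e => ?_
  have h1 := Nat.le_of_dvd two_pos ((ZMod.natCast_eq_zero_iff 2 p).1 (by exact_mod_cast e))
  have h2 := hT.five
  omega

theorem FTi_split (e : ι → ZMod p) {v : Pl k} (hv : InS p A F b v) : ∃ s : Lv v, ‖s‖ ≤ 1 ∧
    rt v (emb v (WW Φ e)) = s ∧ s ^ p - s = algebraMap _ _ (hh Φ e) := by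
  obtain ⟨s, h1, h2⟩ := WW_split hS e hv
  refine ⟨s, h1, by rw [← h2, rt_alg], (algebraMap _ (Lb v)).injective ?_⟩
  rw [map_sub, map_pow, h2, ← map_pow, ← map_sub, WW_pow, emb_algK]

theorem FTi_de (e : ι → ZMod p) {v : Pl k} (hv : InS p A F b v) {t ω : Lv v}
    (ht : t ^ p / pk _ A - t = 0) (h : cL p v (ω / pk _ A) = ω)
    (h1 : res p v (t * (algebraMap _ _ (Φ.de e) * ω)) = 0) :
    res p v (t * algebraMap _ _ Φ.d * ω) = 0 := by
  obtain ⟨s, -, -, hs⟩ := FTi_split hT hS e hv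
  have h2 := FTi_fix (FC_pk hS hT _) h (t * s)
  rw [mul_pow, mul_div_right_comm, sub_eq_zero.1 ht, ← mul_sub, hs] at h2
  rwa [show Φ.de e = Φ.d + hh Φ e from rfl, map_add, ← mul_assoc, mul_add, add_mul, map_add, h2,
    add_zero] at h1

theorem mem_Cc {α : RatFunc k} {e : ι → ZMod p} (h : TgD p A F b v0 Mx (Φ.de e) α) :
    α ∈ Cc p A F b v0 Mx Φ.d := by
  obtain ⟨β, γ, h1, h2, -, h4, h5, -⟩ := h
  refine ⟨h1, h5, fun v => ⟨fun hv => (h4 v hv.1 hv.2).1, fun hv t ht =>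
    FTi_de hT hS e (inS_iff.2 (Or.inr hv)) ht (FTi_loc v h1) (FTi_two hT hS ?_)⟩⟩
  have h6 := FTi_loc v h2
  rw [map_sub, map_mul, map_mul, map_ofNat] at h6
  rw [← map_add, ← FTi_tors ht h6]
  exact congrArg _ (by ring)

theorem TT_zero (h0 : v0 ≠ none) {α a : RatFunc k} {e e' : ι → ZMod p}
    (h : TgD p A F b v0 Mx (Φ.de e) α) (h' : TgD p A F b v0 Mx (Φ.de e') α)
    (ha : a ∈ AA p A F b v0 Mx Φ.d) : TT A F b Φ α a (e - e') = 0 := by
  obtain ⟨β, γ, h1, h2, h3, h4, h5, h6⟩ := h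
  obtain ⟨β', γ', -, g2, g3, g4, -, g6⟩ := h'
  have hd : hh Φ (e - e') = Φ.de e - Φ.de e' := by
    have := hh_add Φ (e - e') e'
    rw [sub_add_cancel] at this
    rw [show Φ.de e = Φ.d + hh Φ e from rfl, show Φ.de e' = Φ.d + hh Φ e' from rfl, this]
    ring
  have hΔ : cK p ((β - β' - 2 * hh Φ (e - e') * α) / pk _ A) = β - β' := by
    rw [hd, show β - β' - 2 * (Φ.de e - Φ.de e') * α =
      β - 2 * Φ.de e * α - (β' - 2 * Φ.de e' * α) by ring, sub_div, map_sub, h2, g2]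
  have hs := res_sum (p := p) (a * (β - β')) (Sf p A F b ∪ Nf p A b) fun v hv => by
    rw [mem_union, mem_Sf hT.F_ne hS.b_ne, mem_Nf hS.b_ne, not_or] at hv
    have hu := inU_iff.2 hv
    rw [map_mul, map_mul, av_uu, if_neg hu.1]
    have := mul_le_one₀ ((ha.2 v).2.2 hv.1) ((av v).nonneg _)
      (Hasse_sub (h4 v hu.1 hu.2).2 (g4 v hu.1 hu.2).2)
    linarith
  rw [sum_union (disjoint_left.2 fun v a1 a2 =>
    ((mem_Nf hS.b_ne).1 a2).not_S hS.cop ((mem_Sf hT.F_ne hS.b_ne).1 a1))] at hs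
  refine FTi_two hT hS ?_
  rw [TT, ← add_sub_add_comm, ← sum_add_distrib, ← sum_add_distrib, ← neg_eq_zero, neg_sub,
    sub_eq_neg_add, ← sum_neg_distrib, ← hs]
  refine congrArg₂ _ (sum_congr rfl fun v hv => ?_) (sum_congr rfl fun v hv => ?_)
  · have hv' := (mem_Sf hT.F_ne hS.b_ne).1 hv
    obtain ⟨s, s1, s2, s3⟩ := FTi_split hT hS (e - e') hv'
    have l1 := FTi_loc v h1
    have l2 := FTi_loc v h2
    have l3 := FTi_loc v h3
    have l4 := FTi_loc v g3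
    have l5 := FTi_loc v hΔ
    rw [hd] at s3 l5
    simp only [map_sub, map_add, map_mul, map_pow, map_ofNat] at l2 l3 l4 l5 s3
    have n1 : v = v0 → ‖algebraMap _ (Lv v) α‖ ≤ 2⁻¹ ^ Mx ∧ ‖algebraMap _ (Lv v) β‖ ≤ 2⁻¹ ^ Mx ∧
        ‖algebraMap _ (Lv v) β'‖ ≤ 2⁻¹ ^ Mx := by
      rintro rfl
      simp only [norm_alg]
      exact ⟨h5, h6, g6⟩
    rw [s2, map_mul (algebraMap _ (Lv v)), map_mul (algebraMap _ (Lv v)),
      map_sub (algebraMap _ (Lv v))]
    generalize algebraMap _ (Lv v) α = α at *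
    generalize algebraMap _ (Lv v) β = β at *
    generalize algebraMap _ (Lv v) β' = β' at *
    generalize algebraMap _ (Lv v) γ = γ at *
    generalize algebraMap _ (Lv v) γ' = γ' at *
    have sp := eq_add_of_sub_eq s3
    have o1 : cL p v ((β - β' + (s * α + s * α)) / pk _ A) = β - β' + (s * α + s * α) := by
      rw [show (β - β' + (s * α + s * α)) / pk _ A = (β - β' - 2 * (algebraMap _ _ (Φ.de e) -
        algebraMap _ _ (Φ.de e')) * α) / pk _ A + (s ^ p * (α / pk _ A) + s ^ p * (α / pk _ A)) by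
          rw [sp]; ring, map_add, map_add, l5, cL_frob, l1]
    have o2 := res_AA hT.F_ne hT.dvd hS.cop h0 ha hv' o1 (fun e0 => by
      have := (norm_mul s α).trans_le ((mul_le_of_le_one_left (norm_nonneg _) s1).trans (n1 e0).1)
      exact PF_add (PF_sub (n1 e0).2.1 (n1 e0).2.2) (PF_add this this)) fun _ t ht =>
      FTi_de hT hS e' hv' ht o1 (FTi_tors (y := γ + s * β + s ^ 2 * α - γ') ht (by
        rw [show (γ + s * β + s ^ 2 * α - γ' - algebraMap _ _ (Φ.de e') * (β - β' + (s * α + s * α))) /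
          pk _ A = (γ - algebraMap _ _ (Φ.de e) * β + algebraMap _ _ (Φ.de e) ^ 2 * α) / pk _ A +
            s ^ p * ((β - 2 * algebraMap _ _ (Φ.de e) * α) / pk _ A) + (s ^ 2) ^ p * (α / pk _ A) -
            (γ' - algebraMap _ _ (Φ.de e') * β' + algebraMap _ _ (Φ.de e') ^ 2 * α) / pk _ A by
          rw [← pow_mul, mul_comm 2 p, pow_mul, sp]; ring, map_sub, map_add, map_add, l3, l4,
          cL_frob, cL_frob, l2, l1]))
    rw [mul_add, map_add, mul_add, map_add] at o2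
    rw [mul_left_comm]
    linear_combination -o2
  · have hv' := (mem_Nf hS.b_ne).1 hv
    have l5 := FTi_loc v hΔ
    have y1 := (sl_spec hT.dvd hS.cop hv' ((ha.2 v).2.2 (hv'.not_S hS.cop))).2
    rw [map_sub, sub_div, map_sub, map_mul, map_mul, map_ofNat, sub_eq_iff_eq_add'] at l5
    rw [map_mul (algebraMap _ (Lv v)), ← y1, res_wp v (FC_pk hS hT _), ← map_neg, ← mul_neg,
      neg_sub, l5, add_sub_cancel_right, FTi_car, ← map_add]
    exact congrArg _ (by ring)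

end

end Pool.Agent.ASel
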