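import Pool.Agent.Work.MP_60d5ce_nt.AS.TDef

/-!
# The operator `π = σ0 - 1` on `K1` and on the Tate modules; lattices

`Lat n s` is the group of the `u` with `F u ∈ π ^ s T (n+1)`.  `RepL n s u a w`: there are `u'` with
`π ^ s u' = F u` and `α, ω ∈ K1` such that `π α` is the first component of `κ u'`, `κ u = (π ^ (s+1) α, π ω)`,
`a = π ^ (p-1) α`, `w = π ^ (p-1) ω`.

PLAN.  Every `σ` moves the roots by elements of `F_p`, so the fixer of the roots is normal with abelian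
quotient, and `σ0 ^ p` lies in it.  On `K1`, `π ^ (p-1) = ∑ σ0 ^ i` (characteristic `p`) and
`θ = -w0 ^ (p-1)` has trace one: `k1_tr`: `y = ∑ σ0 ^ i (θ y)`; `k1_h90`: explicit Hilbert 90.
`pi_pow`: `∑_{i<p} (1 + π) ^ i = ∑_{i<p} choose p (i+1) π ^ i = 0`.
-/

namespace Pool.Agent.ASel

open Polynomial Pool.Agent.Smith

noncomputable section

variable {p : ℕ} {k : Type} [Field k] {ι : Type}

/-- `σ0 - 1` on the algebraic closure -/
def ASF.pi (Φ : ASF p k ι) : Kb k →+ Kb k :=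
  (Φ.σ0 : Kb k →+* Kb k).toAddMonoidHom - AddMonoidHom.id _

/-- the constant attached to the lattice `(n, s)` -/
def vps (ϖ0 : RatFunc k) (n s : ℕ) : RatFunc k := if s = 0 then vpn ϖ0 n else 0

variable [Fintype k] [hp : Fact p.Prime] [CharP k p]

theorem LatA_move {w : Kb k} {a : RatFunc k} (h : w ^ p - w = algebraMap _ _ a) (σ : Gk k) :
    ∃ m : ℕ, σ w = w + m := by
  have e := congrArg σ h
  rw [map_sub, map_pow, σ.commutes, ← h] at e
  obtain ⟨m, hm⟩ := Wp_fix (p := p) (x := σ w - w) (by rw [sub_pow_char]; linear_combination e)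
  exact ⟨m, eq_add_of_sub_eq' hm⟩

theorem LatA_cm {w : Kb k} {a : RatFunc k} (h : w ^ p - w = algebraMap _ _ a) (σ τ : Gk k) :
    (σ * τ) w = (τ * σ) w := by
  obtain ⟨m, hm⟩ := LatA_move h σ
  obtain ⟨n, hn⟩ := LatA_move h τ
  simp only [AlgEquiv.mul_apply, hm, hn, map_add, map_natCast]
  ring

theorem LatA_fix {w : Kb k} {a : RatFunc k} (h : w ^ p - w = algebraMap _ _ a) (σ : Gk k) {τ : Gk k}
    (hτ : τ w = w) : (τ * σ) w = σ w := by
  rw [LatA_cm h, AlgEquiv.mul_apply, hτ]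

omit [Fintype k] in
theorem LatA_inv {σ τ : Gk k} {w : Kb k} : (τ⁻¹ * σ) w = w ↔ σ w = τ w := by
  rw [AlgEquiv.mul_apply, AlgEquiv.aut_inv, AlgEquiv.symm_apply_eq]

omit [Fintype k] in
theorem LatA_sub (P : Gk k → Prop) : ∃ S : IntermediateField (RatFunc k) (Kb k),
    ∀ x, x ∈ S ↔ x ∈ Om (RatFunc k) (Kb k) ∧ ∀ σ, P σ → σ x = x :=
  ⟨(Om (RatFunc k) (Kb k) ⊓ ⨅ σ : {σ // P σ}, RingHom.eqLocusField (σ.1 : Kb k →+* Kb k)
    (RingHom.id _)).toIntermediateField fun a =>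
      ⟨om_alg a, Subfield.mem_iInf.2 fun σ => σ.1.commutes a⟩,
    fun _ => and_congr_right fun _ => Subfield.mem_iInf.trans Subtype.forall⟩

theorem LatA_om {w : Kb k} {a : RatFunc k} (h : w ^ p - w = algebraMap _ _ a) :
    w ∈ Om (RatFunc k) (Kb k) :=
  om_wp (p := p) (one_mem _) one_ne_zero (om_alg a) (by rw [div_one, h])

namespace ASF

variable (Φ : ASF p k ι)

theorem pi_apply (x : Kb k) : Φ.pi x = Φ.σ0 x - x := rfl

theorem move0 (σ : Gk k) : ∃ m : ℕ, σ Φ.w0 = Φ.w0 + m := LatA_move Φ.hw0 σ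

theorem move (σ : Gk k) (l : ι) : ∃ m : ℕ, σ (Φ.w l) = Φ.w l + m :=
  LatA_move (Φ.hw l) σ

theorem LatA_pow0 (m : ℕ) : (Φ.σ0 ^ m) Φ.w0 = Φ.w0 + m := by
  induction m with
  | zero => simp
  | succ m ih =>
    rw [pow_succ', AlgEquiv.mul_apply, ih, map_add, map_natCast, Φ.σ_w0]
    push_cast
    ring

theorem LatA_pow {x : Kb k} (h : Φ.σ0 x = x) (m : ℕ) : (Φ.σ0 ^ m) x = x := by
  induction m with
  | zero => rfl
  | succ m ih => rw [pow_succ, AlgEquiv.mul_apply, h, ih]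

/-- binomial coefficients of `w0` -/
def LatA_e (j : ℕ) : Kb k := (∏ i ∈ Finset.range j, (Φ.w0 - i)) / j.factorial

theorem LatA_e1 {j : ℕ} (hj : j + 1 < p) {z : Kb k} (hz : Φ.pi z = 0) :
    Φ.pi (Φ.LatA_e (j + 1) * z) = Φ.LatA_e j * z := by
  have n : ((j + 1).factorial : Kb k) ≠ 0 := fun h =>
    absurd ((hp.1.dvd_factorial).1 ((CharP.cast_eq_zero_iff _ p _).1 h)) (not_le.2 hj)
  have e : Φ.σ0 (∏ i ∈ Finset.range (j + 1), (Φ.w0 - i)) =
      (∏ i ∈ Finset.range j, (Φ.w0 - i)) * (Φ.w0 + 1) := by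
    rw [Finset.prod_range_succ']
    simp [Φ.σ_w0]
  rw [pi_apply, map_mul, show Φ.σ0 z = z from sub_eq_zero.1 hz, LatA_e, map_div₀, map_natCast, e, Finset.prod_range_succ,
    LatA_e]
  rw [Nat.factorial_succ, Nat.cast_mul] at n ⊢
  have n1 := left_ne_zero_of_mul n
  have n2 := right_ne_zero_of_mul n
  field_simp
  push_cast
  ring

theorem LatA_e2 {j : ℕ} (hj : j < p) {z : Kb k} (hz : Φ.pi z = 0) :
    Φ.pi^[j] (Φ.LatA_e j * z) = z := by
  induction j with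
  | zero => simp [LatA_e]
  | succ j ih => rw [Function.iterate_succ_apply, LatA_e1 Φ hj hz, ih (by omega)]

variable {Φ}

theorem K2.k1 {x : Kb k} (h : Φ.K2 x) : Φ.K1 x := ⟨h.1, fun σ _ h2 => h.2 σ h2⟩

theorem LatA_agree {x : Kb k} (h : Φ.K1 x) {σ τ : Gk k} (h0 : σ Φ.w0 = τ Φ.w0)
    (h1 : ∀ l, σ (Φ.w l) = τ (Φ.w l)) : σ x = τ x :=
  LatA_inv.1 (h.2 _ (LatA_inv.2 h0) fun l => LatA_inv.2 (h1 l))

theorem K1.act {x : Kb k} (h : Φ.K1 x) (σ : Gk k) : Φ.K1 (σ x) :=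
  ⟨om_act σ h.1, fun τ h0 h1 => LatA_agree (σ := τ * σ) h (LatA_fix Φ.hw0 σ h0)
    fun l => LatA_fix (Φ.hw l) σ (h1 l)⟩

theorem K2.act {x : Kb k} (h : Φ.K2 x) (σ : Gk k) : Φ.K2 (σ x) :=
  ⟨om_act σ h.1, fun τ h1 => (LatA_inv (σ := τ * σ)).1
    (h.2 _ fun l => LatA_inv.2 (LatA_fix (Φ.hw l) σ (h1 l)))⟩

theorem K1.comm {x : Kb k} (h : Φ.K1 x) (σ τ : Gk k) : σ (τ x) = τ (σ x) :=
  LatA_agree (σ := σ * τ) (τ := τ * σ) h (LatA_cm Φ.hw0 σ τ) fun l => LatA_cm (Φ.hw l) σ τ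

/-- `K1` and `K2` are subfields containing `k(t)` -/
theorem exists_K1 : ∃ S : IntermediateField (RatFunc k) (Kb k), ∀ x, x ∈ S ↔ Φ.K1 x := by
  obtain ⟨S, h⟩ := LatA_sub fun σ : Gk k => σ Φ.w0 = Φ.w0 ∧ ∀ l, σ (Φ.w l) = Φ.w l
  exact ⟨S, fun x => (h x).trans (and_congr_right fun _ => forall_congr' fun _ => and_imp)⟩

theorem exists_K2 : ∃ S : IntermediateField (RatFunc k) (Kb k), ∀ x, x ∈ S ↔ Φ.K2 x :=
  LatA_sub _

theorem k1_w0 : Φ.K1 Φ.w0 := ⟨LatA_om Φ.hw0, fun _ h _ => h⟩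

theorem k2_w (l : ι) : Φ.K2 (Φ.w l) := ⟨LatA_om (Φ.hw l), fun _ h => h l⟩

theorem K1.pi {x : Kb k} (h : Φ.K1 x) (i : ℕ) : Φ.K1 (Φ.pi^[i] x) := by
  obtain ⟨S, hS⟩ := exists_K1 (Φ := Φ)
  induction i with
  | zero => exact h
  | succ i ih =>
    rw [Function.iterate_succ_apply', pi_apply, ← hS]
    exact sub_mem ((hS _).2 (ih.act _)) ((hS _).2 ih)

theorem K1.k2 {x : Kb k} (h : Φ.K1 x) (h0 : Φ.pi x = 0) : Φ.K2 x :=
  ⟨h.1, fun σ h1 => by
    obtain ⟨m, hm⟩ := Φ.move0 σ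
    exact (LatA_agree h (hm.trans (Φ.LatA_pow0 m).symm)
      fun l => (h1 l).trans (Φ.LatA_pow (Φ.σ_w l) m).symm).trans (Φ.LatA_pow (sub_eq_zero.1 h0) m)⟩

theorem K2.pi_eq {x : Kb k} (h : Φ.K2 x) : Φ.pi x = 0 := sub_eq_zero.2 (h.2 _ Φ.σ_w)

theorem K1.pi_tr {x : Kb k} (h : Φ.K1 x) :
    Φ.pi^[p - 1] x = ∑ i ∈ Finset.range p, (Φ.σ0 ^ i) x := by
  have e : (X - 1 : (RatFunc k)[X]) ^ (p - 1) = ∑ i ∈ Finset.range p, X ^ i :=
    mul_right_cancel₀ (X_sub_C_ne_zero 1) (by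
      rw [C_1, geom_sum_mul, pow_sub_one_mul hp.1.ne_zero, sub_pow_char, one_pow])
  have e2 := congrArg (fun f => aeval (Φ.σ0.toLinearMap : Module.End (RatFunc k) (Kb k)) f x) e
  simp only [map_pow, map_sub, map_sum, aeval_X, map_one, LinearMap.sum_apply,
    Module.End.pow_apply] at e2
  simp only [AlgEquiv.coe_pow]
  exact e2

theorem K1.pi_p {x : Kb k} (h : Φ.K1 x) {i : ℕ} (hi : p ≤ i) : Φ.pi^[i] x = 0 := by
  obtain ⟨j, rfl⟩ : ∃ j, i = j + 1 + (p - 1) := ⟨i - p, by have := hp.1.pos; omega⟩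
  have e : (Φ.σ0 ^ p) x = (Φ.σ0 ^ 0) x := LatA_agree h (by rw [LatA_pow0, LatA_pow0]; simp)
    fun l => by rw [Φ.LatA_pow (Φ.σ_w l), Φ.LatA_pow (Φ.σ_w l)]
  rw [Function.iterate_add_apply, Function.iterate_succ_apply, h.pi_tr, map_sum]
  simp only [pi_apply, ← AlgEquiv.mul_apply, ← pow_succ']
  rw [Finset.sum_range_sub (fun i => (Φ.σ0 ^ i) x), e, sub_self, iterate_map_zero]

theorem LatA_k1 (j : ℕ) {z : Kb k} (hz : Φ.K1 z) : Φ.K1 (Φ.LatA_e j * z) := by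
  obtain ⟨S, hS⟩ := exists_K1 (Φ := Φ)
  exact (hS _).1 (mul_mem (div_mem (prod_mem fun i _ => sub_mem ((hS _).2 k1_w0) (natCast_mem S i))
    (natCast_mem S _)) ((hS _).2 hz))

theorem k1_tr {y : Kb k} (h : Φ.K2 y) : ∃ x, Φ.K1 x ∧ y = Φ.pi^[p - 1] x :=
  ⟨_, LatA_k1 _ h.k1, (Φ.LatA_e2 (Nat.sub_one_lt hp.1.ne_zero) h.pi_eq).symm⟩

theorem k1_h90 {y : Kb k} (h : Φ.K1 y) (h0 : Φ.pi^[p - 1] y = 0) : ∃ x, Φ.K1 x ∧ y = Φ.pi x := by
  obtain ⟨S, hS⟩ := exists_K1 (Φ := Φ)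
  have hj := Nat.sub_one_lt hp.1.ne_zero
  generalize p - 1 = j at h0 hj
  induction j generalizing y with
  | zero => exact ⟨0, (hS _).1 (zero_mem S), h0.trans (map_zero _).symm⟩
  | succ j ih =>
    rw [Function.iterate_succ_apply'] at h0
    obtain ⟨x, h1, h2⟩ := ih ((hS _).1 (sub_mem ((hS _).2 h) ((hS _).2 (LatA_k1 j (h.pi j)))))
      (by rw [iterate_map_sub, Φ.LatA_e2 (by omega) h0, sub_self]) (by omega)
    exact ⟨x + _, (hS _).1 (add_mem ((hS _).2 h1) ((hS _).2 (LatA_k1 (j + 1) (h.pi j)))),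
      by rw [map_add, ← h2, Φ.LatA_e1 hj h0, sub_add_cancel]⟩

theorem pi_wp (A : k[X]) (y : Kb k) (i : ℕ) :
    Φ.pi^[i] (y ^ p / pk _ A) = (Φ.pi^[i] y) ^ p / pk _ A :=
  Function.Commute.iterate_left (g := fun y => y ^ p / pk _ A) (fun y => by
    have e : Φ.σ0 (pk _ A) = pk _ A := Φ.σ0.commutes _
    simp only [pi_apply, map_div₀, map_pow, e, sub_pow_char, sub_div]) i y

theorem pi_mul (a : RatFunc k) (y : Kb k) (i : ℕ) :
    Φ.pi^[i] (y * algebraMap _ _ a) = Φ.pi^[i] y * algebraMap _ _ a :=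
  Function.Commute.iterate_left (g := fun y => y * algebraMap _ _ a) (fun y => by
    simp only [pi_apply, map_mul, AlgEquiv.commutes, sub_mul]) i y

theorem act_cB (σ : Gk k) {y : Kb k} (h : y ∈ Om (RatFunc k) (Kb k)) :
    σ (cB p y) = cB p (σ y) := by
  have e : (σ : Kb k →+* Kb k) (tv k (Kb k)) = tv k (Kb k) := σ.commutes _
  have := (sc_Kb (k := k) (p := p)).1.car_map (σ : Kb k →+* Kb k) (fun _ => om_act σ)
    (e.symm ▸ sc_Kb.1) h
  rwa [e] at this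

end ASF

theorem alg_cB (a : RatFunc k) : algebraMap _ (Kb k) (cK p a) = cB p (algebraMap _ _ a) :=
  pb_K.car_map (algebraMap _ (Kb k)) (fun x _ => om_alg x) sc_Kb.1 trivial

namespace TD

variable {A F b : k[X]} {v0 : Pl k} {ϖ0 : RatFunc k} {B : ℕ → ℕ} {Φ : ASF p k ι}
  (T : TD A F b v0 ϖ0 B Φ)

/-- `σ0 - 1` on the Tate module -/
def pi (n : ℕ) : T.T n →+ T.T n := T.ac n Φ.σ0 - AddMonoidHom.id _

theorem pi_apply (n : ℕ) (u : T.T n) : T.pi n u = T.ac n Φ.σ0 u - u := rfl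

theorem iter_sub (n s : ℕ) (u u' : T.T n) :
    (T.pi n)^[s] (u - u') = (T.pi n)^[s] u - (T.pi n)^[s] u' := iterate_map_sub _ _ _ _

theorem iter_zero (n s : ℕ) : (T.pi n)^[s] 0 = 0 := iterate_map_zero _ _

/-- the lattice `(n, s)` -/
def Lat (n s : ℕ) : AddSubgroup (T.T n) :=
  AddSubgroup.ofSub {u | ∃ u', (T.pi (n + 1))^[s] u' = T.Fr n u} ⟨0, 0, by simp [iter_zero]⟩
    fun _ ⟨x, hx⟩ _ ⟨y, hy⟩ => ⟨x - y, by rw [iter_sub, hx, hy, ← sub_eq_add_neg, map_sub]⟩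

/-- the class of `u` modulo `π` in the lattice `(n, s)` -/
def RepL (n s : ℕ) (u : T.T n) (a w : Kb k) : Prop :=
  ∃ (u' : T.T (n + 1)) (α ω w' : Kb k), (T.pi (n + 1))^[s] u' = T.Fr n u ∧ Φ.K1 α ∧ Φ.K1 ω ∧
    T.Kap (n + 1) u' (Φ.pi α) w' ∧ T.Kap n u (Φ.pi^[s + 1] α) (Φ.pi ω) ∧
    a = Φ.pi^[p - 1] α ∧ w = Φ.pi^[p - 1] ω

theorem mem_Lat {n s : ℕ} {u : T.T n} :
    u ∈ T.Lat n s ↔ ∃ u', (T.pi (n + 1))^[s] u' = T.Fr n u := Iff.rfl

theorem ac_comm (n : ℕ) (σ τ : Gk k) (u : T.T n) :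
    T.ac n σ (T.ac n τ u) = T.ac n τ (T.ac n σ u) := by
  rw [← T.ac_mul, ← T.ac_mul, ← mul_inv_cancel_left (τ * σ) (σ * τ), T.ac_mul n (τ * σ),
    T.ac_triv n _ u (LatA_inv.2 (LatA_cm Φ.hw0 σ τ)) fun l => LatA_inv.2 (LatA_cm (Φ.hw l) σ τ)]

theorem ac_pi (n s : ℕ) (σ : Gk k) (u : T.T n) :
    T.ac n σ ((T.pi n)^[s] u) = (T.pi n)^[s] (T.ac n σ u) :=
  Function.Commute.iterate_right (fun u => by rw [pi_apply, pi_apply, map_sub, ac_comm]) s u

theorem F_pi (n s : ℕ) (u : T.T n) :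
    T.Fr n ((T.pi n)^[s] u) = (T.pi (n + 1))^[s] (T.Fr n u) :=
  Function.Semiconj.iterate_right (fun u => by rw [pi_apply, pi_apply, map_sub, T.F_ac]) s u

theorem V_pi (n s : ℕ) (u : T.T (n + 1)) :
    T.Ve n ((T.pi (n + 1))^[s] u) = (T.pi n)^[s] (T.Ve n u) :=
  Function.Semiconj.iterate_right (fun u => by rw [pi_apply, pi_apply, map_sub, T.V_ac]) s u

theorem pi_inj (n s : ℕ) : Function.Injective (T.pi n)^[s] :=
  Function.Injective.iterate ((injective_iff_map_eq_zero _).2 fun u hu => T.ptf n u (by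
    have e := T.norm n u
    simp only [Function.iterate_fixed (sub_eq_zero.1 hu : T.ac n Φ.σ0 u = u)] at e
    simpa using e)) s

theorem F_inj (n : ℕ) : Function.Injective (T.Fr n) :=
  (injective_iff_map_eq_zero _).2 fun u hu => T.ptf n u (by rw [← T.VF, hu, map_zero])

theorem V_inj (n : ℕ) : Function.Injective (T.Ve n) :=
  (injective_iff_map_eq_zero _).2 fun u hu => T.ptf _ u (by rw [← T.FV, hu, map_zero])

/-- `π ^ (p-1) = -p (1 + ∑ c i π ^ (i+1))` -/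
theorem pi_pow : ∃ c : ℕ → ℕ, ∀ n (u : T.T n), (T.pi n)^[p - 1] u =
    -(p • (u + ∑ i ∈ Finset.range p, c i • (T.pi n)^[i + 1] u)) := by
  refine ⟨fun i => p.choose (i + 2) / p, fun n u => ?_⟩
  have h2 := hp.1.two_le
  have e := congrArg (fun f => aeval ((T.pi n).toIntLinearMap : Module.End ℤ (T.T n)) f u)
    (geom_sum_X_comp_X_add_one_eq_sum (R := ℤ) p)
  have e1 : ⇑((T.pi n).toIntLinearMap + 1 : Module.End ℤ (T.T n)) = T.ac n Φ.σ0 :=
    funext fun x => sub_add_cancel _ _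
  simp only [aeval_comp, map_add, map_mul, map_pow, map_sum, aeval_X, map_one, map_natCast,
    LinearMap.sum_apply, Module.End.pow_apply, Module.End.mul_apply, Module.End.natCast_apply, e1,
    T.norm, AddMonoidHom.coe_toIntLinearMap] at e
  have e2 := Finset.sum_range_succ' (fun i => p.choose (i + 1) • (T.pi n)^[i] u) p
  rw [Finset.sum_range_succ, ← e, Nat.choose_succ_self, zero_smul, add_zero, zero_add,
    Nat.choose_one_right, Function.iterate_zero_apply] at e2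
  have e3 : ∀ i ∈ Finset.range p, p.choose (i + 1 + 1) • (T.pi n)^[i + 1] u =
      p • (p.choose (i + 2) / p) • (T.pi n)^[i + 1] u +
        if i = p - 2 then (T.pi n)^[p - 1] u else 0 := fun i _ => by
    rcases lt_trichotomy (i + 2) p with h | h | h
    · rw [if_neg (by omega), add_zero, ← mul_smul,
        Nat.mul_div_cancel' (hp.1.dvd_choose_self (by omega) h)]
    · rw [if_pos (by omega), show p - 1 = i + 1 by omega, show i + 1 + 1 = p from h,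
        Nat.choose_self, Nat.div_eq_of_lt h2, zero_smul, smul_zero, zero_add, one_smul]
    · rw [if_neg (by omega), Nat.choose_eq_zero_of_lt h, Nat.zero_div, zero_smul, smul_zero,
        add_zero]
  rw [Finset.sum_congr rfl e3, Finset.sum_add_distrib, Finset.sum_ite_eq',
    if_pos (Finset.mem_range.2 (by omega)), ← Finset.smul_sum] at e2
  rw [smul_add, eq_neg_iff_add_eq_zero, e2]
  abel

theorem lat_ac {n s : ℕ} {u : T.T n} (hu : u ∈ T.Lat n s) (σ : Gk k) : T.ac n σ u ∈ T.Lat n s := by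
  obtain ⟨u', h⟩ := hu
  exact ⟨T.ac _ σ u', by rw [← ac_pi, h, T.F_ac]⟩

variable {T}

theorem kap_zero (n : ℕ) : T.Kap n 0 0 0 := by
  obtain ⟨a, w, h⟩ := T.ex n 0
  simpa using T.sub h h

theorem LatA_add {n : ℕ} {u u' : T.T n} {a w a' w' : Kb k} (h : T.Kap n u a w)
    (h' : T.Kap n u' a' w') : T.Kap n (u + u') (a + a') (w + w') := by
  simpa using T.sub h (T.sub (kap_zero n) h')

theorem kap_p (n : ℕ) (u : T.T n) : T.Kap n (p • u) 0 0 := by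
  obtain ⟨a, w, h⟩ := T.ex n u
  have e : ∀ m : ℕ, T.Kap n (m • u) (m • a) (m • w) := fun m => by
    induction m with
    | zero => simpa using kap_zero n
    | succ m ih => simpa only [succ_nsmul] using LatA_add ih h
  simpa using e p

theorem kap_add {n : ℕ} {u u' : T.T n} {a w a' w' : Kb k} (h : T.Kap n u a w)
    (h' : T.Kap n u' a' w') : T.Kap n (u + u') (a + a') (w + w') := LatA_add h h'

theorem kap_pi {n : ℕ} {u : T.T n} {a w : Kb k} (h : T.Kap n u a w) (s : ℕ) :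
    T.Kap n ((T.pi n)^[s] u) (Φ.pi^[s] a) (Φ.pi^[s] w) := by
  induction s with
  | zero => exact h
  | succ s ih =>
    simp only [Function.iterate_succ_apply']
    exact T.sub (T.act Φ.σ0 ih) ih

theorem kap_diff {n : ℕ} {u : T.T n} {a w a' w' : Kb k} (h : T.Kap n u a w) (h' : T.Kap n u a' w') :
    ∃ y, Φ.K1 y ∧ a' = a + (y ^ p / pk _ A - y) ∧
      w' = w - y ^ p / pk _ A * algebraMap _ _ (vpn ϖ0 n) := by
  have e := T.sub h' h
  rw [sub_self, ← smul_zero p] at e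
  obtain ⟨y, h1, h2, h3⟩ := T.uniq e
  exact ⟨y, h1, eq_add_of_sub_eq' h2, by linear_combination h3⟩

end TD

end

end Pool.Agent.ASel
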