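import Pool.Agent.Work.MP_60d5ce_nt.AS.LatR

/-!
# The chain of lattices

PLAN.  If `RepL n s u 0 w` then `u' = π u2'`: `κ (π ^ (p-2) u') = (0, w'')` and `w'' = 0` (for `s = 0`, `u' = F u`,
use `kF`; for `1 ≤ s ≤ p - 2`, `π ^ s V u' = p u`, so `π ^ (p-2) V u' ∈ p T` and `kV`), then argue as in `rep_ker`.
`rep_step`: `κ u2' = (π α2, _)` as in `rep_ex`, `π α - π ^ 2 α2 = ℘ y` with `π ^ (p-2) y = 0`, so `y = π ^ 2 y''`
(`k1_h90` twice); change `κ u` by the coboundary of `-π ^ s y`.  `rep_jump`: `F u = π ^ (p-1) u2' = p u3 = F V u3`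
(`pi_pow`); `κ u3 = (π α3, π ω3)`, `kV`, `kap_diff`, `noT` give `ρ π ω3 = π ω`.
`chain`: by `sep` and `pi_pow` write `u = π ^ m u1` with `u1 ∉ π T`; `Lat 0 0` is everything; if
`a = ℘ y` then `RepL 0 0 u1 0 w1` (`rep_cob`) with `w1 ≠ 0` (`rep_ker`).  Then induct along
`(0,0), (0,1), …, (0,p-2), (1,0), …`: in each lattice there is a representative with `w ≠ 0` and
`vps = 0`; either `a ∉ ℘ K2` or one can go on.  Invariance under `Γ` passes through `pi_inj`, `V_inj`.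
-/

namespace Pool.Agent.ASel

open Polynomial Pool.Agent.Smith

variable {p : ℕ} {k : Type} [Field k] {ι : Type} [Fintype k] [hp : Fact p.Prime] [CharP k p]
  {A F b : k[X]} {v0 : Pl k} {ϖ0 : RatFunc k} {B : ℕ → ℕ} {Φ : ASF p k ι}

namespace TD

variable {T : TD A F b v0 ϖ0 B Φ} {n s : ℕ} {u : T.T n} {w : Kb k}

theorem LatC_pow : ∃ D : ∀ n, AddMonoid.End (T.T n), (∀ n s u, D n ((T.pi n)^[s] u) =
    (T.pi n)^[s] (D n u)) ∧ ∀ n u, (T.pi n)^[p - 1] u = p • -(u + T.pi n (D n u)) := by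
  obtain ⟨c, hc⟩ := T.pi_pow
  obtain ⟨E, e⟩ : ∃ E : ∀ n, AddMonoid.End (T.T n), ∀ n (u : T.T n) (i : ℕ),
      (E n ^ i) u = (T.pi n)^[i] u :=
    ⟨fun n => T.pi n, fun n u i => congrFun (AddMonoid.End.coe_pow _ _ i) u⟩
  refine ⟨fun n => ∑ i ∈ Finset.range p, c i • E n ^ i, fun n s u => ?_, fun n u => ?_⟩
  · rw [← e, ← e]
    exact DFunLike.congr_fun (Commute.sum_left _ _ _ fun i _ =>
      (Commute.pow_pow_self (E n) i s).smul_left (c i)).eq u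
  · have h : (∑ i ∈ Finset.range p, c i • E n ^ i) u = ∑ i ∈ Finset.range p, c i • (E n ^ i) u :=
      AddMonoidHom.finsetSum_apply _ _ _
    rw [hc, smul_neg, h, map_sum]
    refine congrArg (fun x => -(p • (u + x))) (Finset.sum_congr rfl fun i _ => ?_)
    rw [Function.iterate_succ_apply', ← e, ← map_nsmul]

/-- if `κ (π ^ (p-2) u) = 0` then `u ∈ π T` -/
theorem LatC_div (h : T.Kap n ((T.pi n)^[p - 2] u) 0 0) : ∃ u2, u = T.pi n u2 := by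
  obtain ⟨D, h1, h2⟩ := LatC_pow (T := T)
  obtain ⟨x, hx⟩ := T.ker h
  have h3 := h2 n x
  rw [show p - 1 = p - 2 + 1 by have := hp.out.two_le; omega, Function.iterate_succ_apply,
    smul_neg, smul_add, ← map_nsmul, ← map_nsmul, ← hx, h1,
    ← Function.iterate_succ_apply' (T.pi n), Function.iterate_succ_apply, ← iterate_map_add,
    ← iterate_map_neg] at h3
  refine ⟨-x - D n u, ?_⟩
  rw [map_sub, map_neg, T.pi_inj n _ h3]
  abel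

theorem LatC_wp (T : TD A F b v0 ϖ0 B Φ) {y : Kb k} (hy : Φ.K1 y) (i : ℕ) (h : Φ.pi^[i] (y ^ p / pk _ A - y) = 0) :
    Φ.pi^[i] y = 0 := by
  rw [iterate_map_sub, ASF.pi_wp] at h
  exact T.noT _ (hy.pi i) h

theorem LatC_up (hs : s + 2 ≤ p) {u' : T.T (n + 1)} {α w' : Kb k}
    (h1 : (T.pi (n + 1))^[s] u' = T.Fr n u) (h2 : T.Kap (n + 1) u' (Φ.pi α) w')
    (h3 : 0 = Φ.pi^[p - 1] α) : ∃ u2, (T.pi (n + 1))^[s + 1] u2 = T.Fr n u := by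
  have h4 := kap_pi h2 (p - 2)
  rw [← Function.iterate_succ_apply Φ.pi, show (p - 2).succ = p - 1 by omega, ← h3] at h4
  have h5 := T.kV h4
  rw [show (T.pi (n + 1))^[p - 2] u' = (T.pi (n + 1))^[p - 2 - s] ((T.pi (n + 1))^[s] u') by
    rw [← Function.iterate_add_apply, Nat.sub_add_cancel (by omega)], h1, T.V_pi, T.VF,
    iterate_map_nsmul] at h5
  obtain ⟨y, y1, y2, y3⟩ := T.uniq h5
  rw [T.noT y y1 y2.symm, zero_pow hp.out.ne_zero, zero_div, zero_mul, neg_zero] at y3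
  rw [(mul_eq_zero.1 y3).resolve_left T.ρ_ne] at h4
  obtain ⟨u2, rfl⟩ := LatC_div h4
  exact ⟨u2, h1⟩

theorem rep_step (hs : s + 3 ≤ p) (h : T.RepL n s u 0 w) : ∃ a, T.RepL n (s + 1) u a w := by
  obtain ⟨u', α, ω, w', h1, h2, h3, h4, h5, h6, rfl⟩ := h
  obtain ⟨a, w2, h7⟩ := rep_ex (T.mem_Lat.2 (LatC_up (by omega) h1 h4 h6))
  refine ⟨a, ?_⟩
  have h8 := h7
  obtain ⟨-, α2, ω2, -, -, g2, -, -, g5, -, rfl⟩ := h8
  obtain ⟨y, y1, y2, y3⟩ := kap_diff g5 h5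
  have e : p - 1 = p - 2 + 1 := by omega
  have y4 : Φ.pi^[p - 2] y = 0 := LatC_wp T y1 _ (by
    rw [← sub_eq_iff_eq_add'.2 y2, iterate_map_sub, ← Function.iterate_add_apply,
      ← Function.iterate_add_apply, g2.pi_p (i := p - 2 + (s + 1 + 1)) (by omega), show p - 2 + (s + 1) = s + (p - 1) by omega,
      Function.iterate_add_apply, ← h6, iterate_map_zero, sub_zero])
  rw [e, Function.iterate_succ_apply, y3, iterate_map_sub, ASF.pi_mul, ASF.pi_wp, y4,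
    zero_pow hp.out.ne_zero, zero_div, zero_mul, sub_zero, ← Function.iterate_succ_apply Φ.pi,
    Nat.succ_eq_add_one, ← e]
  exact h7

theorem rep_jump (hs : s + 2 = p) (h0 : s ≠ 0) (h : T.RepL n s u 0 w) :
    ∃ u3 a3 w3, u = T.Ve n u3 ∧ T.RepL (n + 1) 0 u3 a3 w3 ∧ T.ρ * w3 = w := by
  obtain ⟨u', α, ω, w', h1, h2, h3, h4, h5, h6, rfl⟩ := h
  obtain ⟨u2, g1⟩ := LatC_up hs.le h1 h4 h6
  obtain ⟨D, -, hD⟩ := LatC_pow (T := T)
  have e : s + 1 = p - 1 := by omega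
  rw [e, hD, ← T.FV] at g1
  obtain rfl := T.F_inj n g1
  generalize -(u2 + T.pi (n + 1) (D (n + 1) u2)) = u3 at h5 ⊢
  obtain ⟨a3, w3, g2⟩ := rep_ex (s := 0) (u := u3) (T.mem_Lat.2 ⟨_, rfl⟩)
  refine ⟨u3, a3, w3, rfl, g2, ?_⟩
  obtain ⟨-, α3, ω3, -, -, -, -, -, g5, -, rfl⟩ := g2
  rw [e, ← h6] at h5
  obtain ⟨y, y1, y2, y3⟩ := kap_diff (T.kV g5) h5
  rw [T.noT y y1 (by rw [← zero_add (_ - y), ← y2]), zero_pow hp.out.ne_zero, zero_div, zero_mul,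
    sub_zero] at y3
  rw [show p - 1 = p - 2 + 1 by omega, Function.iterate_succ_apply, Function.iterate_succ_apply,
    y3, ← nsmul_eq_mul, ← nsmul_eq_mul, iterate_map_nsmul]

theorem LatC_prim {u0 : T.T n} (h0 : u0 ≠ 0) :
    ∃ m u1, u0 = (T.pi n)^[m] u1 ∧ ∀ u2, u1 ≠ T.pi n u2 := by
  by_contra hc
  have h1 : ∀ m : ℕ, ∃ u1, u0 = (T.pi n)^[m] u1 := fun m => by
    induction m with
    | zero => exact ⟨u0, rfl⟩
    | succ m ih =>
      obtain ⟨u1, h1⟩ := ih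
      obtain ⟨u2, h2⟩ := not_forall.1 fun h => hc ⟨m, u1, h1, h⟩
      exact ⟨u2, by rw [h1, not_not.1 h2, Function.iterate_succ_apply]⟩
  obtain ⟨D, -, hD⟩ := LatC_pow (T := T)
  have h2 : ∀ (m : ℕ) (x : T.T n), ∃ x', (T.pi n)^[(p - 1) * m] x = p ^ m • x' := fun m => by
    induction m with
    | zero => exact fun x => ⟨x, by simp⟩
    | succ m ih =>
      intro x
      obtain ⟨x', hx⟩ := ih (-(x + T.pi n (D n x)))
      exact ⟨x', by rw [Nat.mul_succ, Function.iterate_add_apply, hD, iterate_map_nsmul, hx,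
        smul_smul, pow_succ']⟩
  refine h0 (T.sep n u0 fun m => ?_)
  obtain ⟨u1, rfl⟩ := h1 ((p - 1) * m)
  exact h2 m u1

theorem LatC_kill {a y : Kb k} (h : T.RepL n s u a w) (hy : Φ.K2 y) (ha : a = y ^ p / pk _ A - y) :
    T.RepL n s u 0 (w + y ^ p / pk _ A * algebraMap _ _ (vps ϖ0 n s)) := by
  obtain ⟨S, hS⟩ := ASF.exists_K2 (Φ := Φ)
  have h1 := rep_cob h ((hS _).1 (neg_mem ((hS _).2 hy)))
  have h2 : (-y) ^ p = -y ^ p := map_neg (frobenius (Kb k) p) y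
  rwa [h2, ha, neg_div, neg_mul, sub_neg_eq_add, sub_neg_eq_add, show y ^ p / pk _ A - y +
    (-(y ^ p / pk _ A) + y) = 0 by ring] at h1

theorem chain (h5 : 5 ≤ p) (hϖ : ϖ0 ≠ 0) (Γ : Set (Gk k)) {u0 : T.T 0} (h0 : u0 ≠ 0)
    (hΓ : ∀ σ ∈ Γ, T.ac 0 σ u0 = u0) (N : ℕ) :
    (∃ n ≤ N, ∃ s, s + 2 ≤ p ∧ ∃ (u : T.T n) (a w : Kb k), (∀ σ ∈ Γ, T.ac n σ u = u) ∧
      T.RepL n s u a w ∧ (∀ y, Φ.K2 y → a ≠ y ^ p / pk _ A - y) ∧ (vps ϖ0 n s = 0 → w ≠ 0)) ∨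
    ∃ (u : T.T N) (a w : Kb k), (∀ σ ∈ Γ, T.ac N σ u = u) ∧ T.RepL N 2 u a w ∧ w ≠ 0 := by
  refine or_iff_not_imp_left.2 fun hL => ?_
  have hz : ∀ n ≤ N, ∀ s, s + 2 ≤ p → ∀ (u : T.T n) (a w : Kb k), (∀ σ ∈ Γ, T.ac n σ u = u) →
      T.RepL n s u a w → (vps ϖ0 n s = 0 → w ≠ 0) → ∃ y : Kb k,
        T.RepL n s u 0 (w + y ^ p / pk _ A * algebraMap _ _ (vps ϖ0 n s)) := by
    intro n hn s hs u a w h1 h2 h3
    obtain ⟨y, hy⟩ := not_forall.1 fun h => hL ⟨n, hn, s, hs, u, a, w, h1, h2, h, h3⟩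
    exact ⟨y, LatC_kill h2 (Classical.not_imp.1 hy).1 (not_not.1 (Classical.not_imp.1 hy).2)⟩
  have hz' : ∀ n ≤ N, ∀ s, s + 2 ≤ p → vps ϖ0 n s = 0 → ∀ (u : T.T n) (a w : Kb k),
      (∀ σ ∈ Γ, T.ac n σ u = u) → T.RepL n s u a w → w ≠ 0 → T.RepL n s u 0 w := by
    intro n hn s hs hv u a w h1 h2 h3
    obtain ⟨y, hy⟩ := hz n hn s hs u a w h1 h2 fun _ => h3
    rwa [hv, map_zero, mul_zero, add_zero] at hy
  have hs : ∀ n ≤ N, ∀ (u : T.T n) (w : Kb k), (∀ σ ∈ Γ, T.ac n σ u = u) → w ≠ 0 →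
      T.RepL n 0 u 0 w → ∀ s, s + 2 ≤ p → T.RepL n s u 0 w := by
    intro n hn u w h1 h2 h3 s
    induction s with
    | zero => exact fun _ => h3
    | succ s ih =>
      intro h4
      obtain ⟨a, ha⟩ := rep_step h4 (ih (by omega))
      exact hz' n hn _ h4 (if_neg (Nat.succ_ne_zero s)) u a w h1 ha h2
  have hn : ∀ n ≤ N, ∃ (u : T.T n) (w : Kb k), (∀ σ ∈ Γ, T.ac n σ u = u) ∧ w ≠ 0 ∧
      T.RepL n 0 u 0 w := by
    intro n
    induction n with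
    | zero =>
      intro hn
      obtain ⟨m, u1, rfl, h1⟩ := LatC_prim h0
      have h2 : ∀ σ ∈ Γ, T.ac 0 σ u1 = u1 := fun σ hσ =>
        T.pi_inj 0 m (by rw [← T.ac_pi, hΓ σ hσ])
      obtain ⟨a, w, h3⟩ := rep_ex (s := 0) (u := u1) (T.mem_Lat.2 ⟨_, rfl⟩)
      obtain ⟨y, hy⟩ := hz 0 hn 0 (by omega) u1 a w h2 h3 fun h => absurd h hϖ
      refine ⟨u1, _, h2, fun h => ?_, hy⟩
      rw [h] at hy
      obtain ⟨u2, -, h4⟩ := rep_ker (by omega) hy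
      exact h1 u2 h4
    | succ n ih =>
      intro hn
      obtain ⟨u, w, h1, h2, h3⟩ := ih (by omega)
      obtain ⟨u3, a3, w3, rfl, h4, rfl⟩ := rep_jump (s := p - 2) (by omega) (by omega)
        (hs n (by omega) u w h1 h2 h3 _ (by omega))
      have h6 : ∀ σ ∈ Γ, T.ac (n + 1) σ u3 = u3 := fun σ hσ =>
        T.V_inj n (by rw [T.V_ac, h1 σ hσ])
      have h7 : w3 ≠ 0 := right_ne_zero_of_mul h2
      exact ⟨u3, w3, h6, h7, hz' _ hn 0 (by omega) rfl u3 a3 w3 h6 h4 h7⟩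
  obtain ⟨u, w, h1, h2, h3⟩ := hn N le_rfl
  exact ⟨u, 0, w, h1, hs N le_rfl u w h1 h2 h3 2 (by omega), h2⟩

end TD

end Pool.Agent.ASel
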