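import Pool.Agent.Work.MP_60d5ce_nt.AS.LatR
import Pool.Agent.Work.MP_60d5ce_nt.AS.LatE

/-!
# Isotropy of the lattices; tightness

PLAN.  `tr_res`: put `θ_i = σ0 ^ i θ0`; `j θ_i = η_i - C η_i` with `η_i ∈ L1`.  All local `τ` fix the `j (w l)`
(`l2_split`).  If they all fix `j w0`, each `η_i` lies in `Lv v`; otherwise take `τ` with
`τ (j w0) = j w0 + 1`, it restricts to `σ0` on `K1`, replace `η_i` by `τ ^ i η_0` (`PB.car_map`), the sum lies in
`Lv v`.  Then `res_car`.  `rep_iso`: write `Tr = ∑ σ0 ^ i = π ^ (p-1)` on `K1`; `Tr (π x * y) = -Tr (σ0 x * π y)`,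
so `Tr (π ^ i x * π ^ (p-1-i) y) = (-1) ^ i Tr x * Tr y` (move all `π` to `y`; `π ^ (p-1) y` is fixed), and it
vanishes when the exponents add up to more than `p - 1`.  For `s ≤ p - 3` apply `iso` to `u` and
`π ^ (p-3-s) u'`: the trace is `(-1) ^ (s+1) a w' - a' w` (and `- a a' ϖ` if `s = 0`).  For `s = p - 2` let
`u1, u1'` be the elements of level `n + 1`, `υ = -(1 + ∑ c i π ^ (i+1))` (`pi_pow`); `V (υ u1) = π u`, so by `kV`,
`kap_diff`, `noT`: `κ (υ u1) = (υ π α, ρ⁻¹ π ^ 2 ω)`; apply `iso` to `υ u1` and `π ^ (p-4) υ u1'`.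
`rep_tight`: `κ (π ^ (p-4) u) = (_, ω3)`, `ω3 = π ^ (p-3) ω`; as `vpn = 0` the second component is well defined
(`kap_diff`), so `ω3` is fixed by the stabiliser of `x = we e`, `C (ω3 / A) = ω3`, `π ^ 3 ω3 = 0`, `π ^ 2 ω3 = w ≠ 0`.
Elements fixed by that stabiliser and `σ0` lie in `k(t)`.  So `ω3 = α x ^ 2 + β x + γ`, `2 α = w`; substitute
`x = x ^ p - d` and compare coefficients of `1, x, x ^ 2` (apply `π`).  `π ω3 = 2 α x + α + β` is the second
component of `κ (π ^ (p-3) u) = (π ^ p α', _) = (0, _)`: `good` (with `wp_int`) and `tight` bound it and its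
conjugate; `x` is integral where `d`, `h l` are.
-/

namespace Pool.Agent.ASel

open Polynomial Pool.Agent.Smith

variable {p : ℕ} {k : Type} [Field k] {ι : Type} [Fintype k] [hp : Fact p.Prime] [CharP k p]
  {A F b : k[X]} {v0 : Pl k} {ϖ0 : RatFunc k} {B : ℕ → ℕ} {Φ : ASF p k ι}

theorem LatI_per {M : Type} [AddCommGroup M] (g : ℕ → M) (q : ℕ) (hg : ∀ i, g (q + i) = g i) (m : ℕ) :
    ∑ i ∈ Finset.range q, g (i + m) = ∑ i ∈ Finset.range q, g i := by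
  induction m with
  | zero => rfl
  | succ m ih =>
    have h1 := Finset.sum_range_succ' (fun i => g (i + m)) q
    rw [Finset.sum_range_succ, ih, hg, zero_add] at h1
    rw [add_right_cancel h1]
    exact Finset.sum_congr rfl fun i _ => by rw [add_assoc, add_comm 1 m]

theorem LatI_fin {v : Pl k} {η : Lb v} (h1 : η ∈ Om (Lv v) (Lb v))
    (h2 : ∀ τ : Lb v ≃ₐ[Lv v] Lb v, τ η = η) {θ : Lv v}
    (h : algebraMap _ _ θ = η - car p (Om (Lv v) (Lb v)) (tv k (Lb v)) η) : res p v θ = 0 := by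
  obtain ⟨y, rfl⟩ := om_fix h1 h2
  have e : algebraMap (Lv v) (Lb v) (tv k (Lv v)) = tv k (Lb v) :=
    (IsScalarTower.algebraMap_apply _ _ _ _).symm
  have hc := (pb_L (p := p) v).car_map (algebraMap (Lv v) (Lb v)) (fun x _ => om_alg x)
    (e ▸ (sc_Lb v).1) (Subfield.mem_top y)
  rw [e] at hc
  rw [← hc, ← map_sub] at h
  rw [(algebraMap (Lv v) (Lb v)).injective h, map_sub]
  exact sub_eq_zero.2 (res_car v y).symm

theorem LatI_car {v : Pl k} (τ : Lb v ≃ₐ[Lv v] Lb v) {η : Lb v} (h : η ∈ Om (Lv v) (Lb v)) :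
    τ (car p (Om (Lv v) (Lb v)) (tv k (Lb v)) η) = car p (Om (Lv v) (Lb v)) (tv k (Lb v)) (τ η) := by
  have e : (τ : Lb v →+* Lb v) (tv k (Lb v)) = tv k (Lb v) := by
    have : tv k (Lb v) = algebraMap (Lv v) (Lb v) (tv k (Lv v)) :=
      IsScalarTower.algebraMap_apply _ _ _ _
    rw [this]
    exact τ.commutes _
  have hc := (sc_Lb (p := p) v).1.car_map (τ : Lb v →+* Lb v) (fun x hx => om_act τ hx)
    (e.symm ▸ (sc_Lb v).1) h
  rw [e] at hc
  exact hc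

theorem tr_res (hS : Stg A F b Φ) {v : Pl k} (hv : InS p A F b v) (j : Kb k →ₐ[RatFunc k] Lb v)
    {θ0 : Kb k} (h0 : Φ.K1 θ0) (h : ∀ i : ℕ, ∃ η, Φ.L1 v j η ∧ j ((Φ.σ0 ^ i) θ0) =
      η - car p (Om (Lv v) (Lb v)) (tv k (Lb v)) η) {θ : Lv v}
    (hθ : algebraMap _ _ θ = j (Φ.pi^[p - 1] θ0)) : res p v θ = 0 := by
  have hw : ∀ (τ : Lb v ≃ₐ[Lv v] Lb v) l, τ (j (Φ.w l)) = j (Φ.w l) := fun τ l => by
    obtain ⟨y, hy⟩ := l2_split hS hv (k2_loc (ASF.k2_w (Φ := Φ) l) v j)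
    rw [← hy, τ.commutes]
  rw [h0.pi_tr, map_sum] at hθ
  by_cases hc : ∀ τ : Lb v ≃ₐ[Lv v] Lb v, τ (j Φ.w0) = j Φ.w0
  · choose η h1 h2 using h
    refine LatI_fin (η := ∑ i ∈ Finset.range p, η i) (sum_mem fun i _ => (h1 i).1) (fun τ => ?_) ?_
    · rw [map_sum]
      exact Finset.sum_congr rfl fun i _ => (h1 i).2 τ (hc τ) (hw τ)
    · rw [hθ, map_sum, ← Finset.sum_sub_distrib]
      exact Finset.sum_congr rfl fun i _ => h2 i
  obtain ⟨τ0, h3⟩ := not_forall.1 hc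
  obtain ⟨ρ, hρ⟩ := exists_rst v j
  have mv : ∀ τ : Lb v ≃ₐ[Lv v] Lb v, ∃ m : ℕ, τ (j Φ.w0) = j Φ.w0 + m := fun τ => by
    obtain ⟨m, hm⟩ := Φ.move0 (ρ τ)
    exact ⟨m, by rw [← hρ, hm, map_add, map_natCast]⟩
  have pw : ∀ (τ : Lb v ≃ₐ[Lv v] Lb v) (c : ℕ), τ (j Φ.w0) = j Φ.w0 + c → ∀ i : ℕ,
      (τ ^ i) (j Φ.w0) = j Φ.w0 + i * c := fun τ c hτ i => by
    induction i with
    | zero => simp
    | succ i ih =>
      rw [pow_succ', AlgEquiv.mul_apply, ih, map_add, hτ, map_mul, map_natCast, map_natCast]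
      push_cast
      ring
  obtain ⟨τ, hτ⟩ : ∃ τ : Lb v ≃ₐ[Lv v] Lb v, τ (j Φ.w0) = j Φ.w0 + (1 : ℕ) := by
    obtain ⟨m, hm⟩ := mv τ0
    have m0 : (m : Lb v) ≠ 0 := fun e => h3 (by rw [hm, e, add_zero])
    refine ⟨τ0 ^ m ^ (p - 2), ?_⟩
    have e1 : (m : Lb v) ^ p = m := map_natCast (frobenius (Lb v) p) m
    have e2 : p = p - 2 + 1 + 1 := by
      have := hp.out.two_le
      omega
    rw [pw τ0 m hm, Nat.cast_pow, ← pow_succ, Nat.cast_one, add_right_inj]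
    apply mul_right_cancel₀ m0
    rw [← pow_succ, ← e2, e1, one_mul]
  obtain ⟨η, h1, h2⟩ := h 0
  rw [pow_zero, AlgEquiv.one_apply] at h2
  have k1 : ∀ τ1 τ2 : Lb v ≃ₐ[Lv v] Lb v, τ1 (j Φ.w0) = τ2 (j Φ.w0) → τ1 η = τ2 η := fun τ1 τ2 e => by
    have := h1.2 (τ2⁻¹ * τ1) (by rw [AlgEquiv.mul_apply, e, AlgEquiv.aut_inv, AlgEquiv.symm_apply_apply]) (hw _)
    rw [AlgEquiv.mul_apply, AlgEquiv.aut_inv, AlgEquiv.symm_apply_eq] at this
    exact this
  have ji : Function.Injective j := j.injective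
  have k2 : ∀ x, Φ.K1 x → τ (j x) = j (Φ.σ0 x) := fun x hx => by
    have := hx.2 (Φ.σ0⁻¹ * ρ τ) (by
      rw [AlgEquiv.mul_apply, AlgEquiv.aut_inv, AlgEquiv.symm_apply_eq, Φ.σ_w0]
      apply ji
      rw [hρ, hτ, map_add, map_one, Nat.cast_one]) (fun l => by
      rw [AlgEquiv.mul_apply, AlgEquiv.aut_inv, AlgEquiv.symm_apply_eq, Φ.σ_w]
      apply ji
      rw [hρ, hw])
    rw [AlgEquiv.mul_apply, AlgEquiv.aut_inv, AlgEquiv.symm_apply_eq] at this
    rw [← hρ, this]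
  have k3 : ∀ i : ℕ, (τ ^ i) (j θ0) = j ((Φ.σ0 ^ i) θ0) := fun i => by
    induction i with
    | zero => rfl
    | succ i ih => rw [pow_succ', pow_succ', AlgEquiv.mul_apply, AlgEquiv.mul_apply, ih, k2 _ (h0.act _)]
  refine LatI_fin (η := ∑ i ∈ Finset.range p, (τ ^ i) η) (sum_mem fun i _ => om_act _ h1.1)
    (fun τ' => ?_) ?_
  · obtain ⟨m, hm⟩ := mv τ'
    rw [map_sum, ← LatI_per (fun i => (τ ^ i) η) p (fun i => k1 _ _ (by
      rw [pw τ 1 hτ, pw τ 1 hτ, Nat.cast_add, CharP.cast_eq_zero, zero_add])) m]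
    refine Finset.sum_congr rfl fun i _ => k1 (τ' * τ ^ i) _ ?_
    rw [AlgEquiv.mul_apply, pw τ 1 hτ, pw τ 1 hτ, map_add, hm, map_mul, map_natCast, map_natCast]
    push_cast
    ring
  · rw [hθ, map_sum, ← Finset.sum_sub_distrib]
    exact Finset.sum_congr rfl fun i _ => by rw [← k3, h2, map_sub, LatI_car _ h1.1]

theorem LatI_mul {x y : Kb k} (hx : Φ.K1 x) (hy : Φ.K1 y) : Φ.K1 (x * y) := by
  obtain ⟨S, hS⟩ := ASF.exists_K1 (Φ := Φ)
  exact (hS _).1 (mul_mem ((hS _).2 hx) ((hS _).2 hy))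

theorem LatI_add {x y : Kb k} (hx : Φ.K1 x) (hy : Φ.K1 y) : Φ.K1 (x + y) := by
  obtain ⟨S, hS⟩ := ASF.exists_K1 (Φ := Φ)
  exact (hS _).1 (add_mem ((hS _).2 hx) ((hS _).2 hy))

theorem LatI_fix {z : Kb k} (hz : Φ.pi z = 0) (m : ℕ) (x : Kb k) :
    Φ.pi^[m] (x * z) = Φ.pi^[m] x * z := by
  induction m with
  | zero => rfl
  | succ m ih =>
    rw [Φ.pi_apply, sub_eq_zero] at hz
    rw [Function.iterate_succ_apply', Function.iterate_succ_apply', ih, Φ.pi_apply, Φ.pi_apply,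
      map_mul, hz, sub_mul]

theorem LatI_tr {y : Kb k} (hy : Φ.K1 y) (i : ℕ) : ∀ (x : Kb k) (j : ℕ), Φ.K1 x → p ≤ i + j + 1 →
    Φ.pi^[p - 1] (Φ.pi^[i] x * Φ.pi^[j] y) = (-1) ^ i * (Φ.pi^[p - 1] x * Φ.pi^[i + j] y) := by
  have e : ∀ z, Φ.K1 z → Φ.pi^[p - 1] (Φ.pi z) = 0 := fun z hz =>
    hz.pi_p (i := p - 1 + 1) (by omega)
  induction i with
  | zero =>
    intro x j hx hj
    rw [pow_zero, one_mul, zero_add, LatI_fix]
    · rfl
    · rw [← Function.iterate_succ_apply' Φ.pi]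
      exact hy.pi_p (by omega)
  | succ i ih =>
    intro x j hx hj
    have h1 := e _ (LatI_mul (hx.pi i) (hy.pi j))
    have h2 := ih (x + Φ.pi x) (j + 1) (LatI_add hx (hx.pi 1)) (by omega)
    have h3 : Φ.pi (Φ.pi^[i] x * Φ.pi^[j] y) = Φ.pi^[i] (x + Φ.pi x) * Φ.pi^[j + 1] y +
        Φ.pi^[i + 1] x * Φ.pi^[j] y := by
      rw [iterate_map_add, ← Function.iterate_succ_apply Φ.pi i, Function.iterate_succ_apply',
        Function.iterate_succ_apply']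
      simp only [Φ.pi_apply, map_mul]
      ring
    rw [h3, iterate_map_add, h2, iterate_map_add, e x hx, add_zero, ← add_assoc] at h1
    rw [add_right_comm, pow_succ]
    linear_combination h1

namespace TD

variable {T : TD A F b v0 ϖ0 B Φ} {n s : ℕ} {u u' : T.T n} {a w a' w' : Kb k}

theorem LatI_iso (hS : Stg A F b Φ) (h : T.Kap n u a w) (h' : T.Kap n u' a' w') {v : Pl k}
    (hv : InS p A F b v) (j : Kb k →ₐ[RatFunc k] Lb v) {θ : Lv v} (hθ : algebraMap _ _ θ =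
      j (Φ.pi^[p - 1] (a * w') + Φ.pi^[p - 1] (w * a') +
        Φ.pi^[p - 1] (a * a') * algebraMap _ _ (vpn ϖ0 n))) : res p v θ = 0 := by
  obtain ⟨S, hK⟩ := ASF.exists_K1 (Φ := Φ)
  refine tr_res hS hv j (θ0 := a * w' + a' * w + a * a' * algebraMap _ _ (vpn ϖ0 n)) ?_ (fun i => ?_) ?_
  · exact LatI_add (LatI_add (LatI_mul (T.mem h).1 (T.mem h').2) (LatI_mul (T.mem h').1 (T.mem h).2))
      (LatI_mul (LatI_mul (T.mem h).1 (T.mem h').1) ((hK _).1 (S.algebraMap_mem _)))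
  · simpa only [map_add, map_mul, AlgEquiv.commutes] using
      T.iso (T.act (Φ.σ0 ^ i) h) (T.act (Φ.σ0 ^ i) h') v j
  · rw [hθ, iterate_map_add, iterate_map_add, ASF.pi_mul, mul_comm a' w]

theorem LatI_nsmul (h : T.Kap n u a w) (m : ℕ) : T.Kap n (m • u) (m • a) (m • w) := by
  induction m with
  | zero => simpa only [zero_smul] using kap_zero (T := T) n
  | succ m ih => simpa only [succ_nsmul] using kap_add ih h

theorem LatI_top (hs : s + 2 = p) (h : T.RepL n s u a w) : ∃ (U : T.T (n + 1)) (β W ω : Kb k),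
    Φ.K1 β ∧ Φ.K1 ω ∧ T.Kap (n + 1) U (Φ.pi^[1] β) W ∧ T.ρ • W = -Φ.pi^[2] ω ∧
      a = Φ.pi^[p - 1] β ∧ w = Φ.pi^[p - 1] ω := by
  obtain ⟨u1, α, ω, w1, e1, hα, hω, k1, k0, rfl, rfl⟩ := h
  obtain ⟨c, hc⟩ := T.pi_pow
  obtain ⟨S, hK⟩ := ASF.exists_K1 (Φ := Φ)
  have key : ∀ m : ℕ, ∃ β W, Φ.K1 β ∧ Φ.pi^[p - 1] α = Φ.pi^[p - 1] β ∧ T.Kap (n + 1)
      (u1 + ∑ i ∈ Finset.range m, c i • (T.pi (n + 1))^[i + 1] u1) (Φ.pi β) W := fun m => by
    induction m with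
    | zero => exact ⟨α, w1, hα, rfl, by simpa only [Finset.sum_range_zero, add_zero] using k1⟩
    | succ m ih =>
      obtain ⟨β, W, h1, h2, h3⟩ := ih
      refine ⟨β + c m • Φ.pi^[m + 1] α, W + c m • Φ.pi^[m + 1] w1,
        LatI_add h1 ((hK _).1 (nsmul_mem ((hK _).2 (hα.pi _)) _)), ?_, ?_⟩
      · rw [iterate_map_add, iterate_map_nsmul, ← Function.iterate_add_apply,
          hα.pi_p (i := p - 1 + (m + 1)) (by omega), smul_zero, add_zero, h2]
      · rw [Finset.sum_range_succ, ← add_assoc, map_add, map_nsmul,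
          ← Function.iterate_succ_apply' Φ.pi, Function.iterate_succ_apply Φ.pi]
        exact kap_add h3 (LatI_nsmul (kap_pi k1 (m + 1)) (c m))
  obtain ⟨β, W, h1, h2, h3⟩ := key p
  refine ⟨_, β, W, ω, h1, hω, h3, ?_, h2, rfl⟩
  have h4 := kap_add (T.kV h3) (kap_pi k0 1)
  have e2 : p - 1 = 1 + s := by omega
  have h5 := hc (n + 1) u1
  rw [e2, Function.iterate_add_apply, e1, ← T.F_pi, ← T.FV, eq_neg_iff_add_eq_zero, ← map_add,
    ← map_zero (T.Fr n)] at h5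
  rw [add_comm, T.F_inj n h5, ← Function.iterate_add_apply, hα.pi_p (i := 1 + (s + 1)) (by omega)] at h4
  obtain ⟨y, y1, y2, y3⟩ := kap_diff (kap_zero (T := T) n) h4
  rw [add_zero, zero_add] at y2
  rw [T.noT y y1 y2.symm, zero_pow hp.out.ne_zero, zero_div, zero_mul, sub_zero] at y3
  rw [nsmul_eq_mul]
  exact eq_neg_of_add_eq_zero_left y3

theorem rep_iso (h5 : 5 ≤ p) (hS : Stg A F b Φ) (hs : s + 2 ≤ p) (h : T.RepL n s u a w)
    (h' : T.RepL n s u' a' w') {v : Pl k} (hv : InS p A F b v) (j : Kb k →ₐ[RatFunc k] Lb v)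
    {θ : Lv v} (hθ : algebraMap _ _ θ =
      j (a * w' + ((-1) ^ s : ℤ) • (a' * w) + a * a' * algebraMap _ _ (vps ϖ0 n s))) :
    res p v θ = 0 := by
  rcases hs.eq_or_lt with hs | hs
  · obtain ⟨U, β, W, ω, h1, h2, h3, h4, rfl, rfl⟩ := LatI_top hs h
    obtain ⟨U', β', W', ω', h1', h2', h3', h4', rfl, rfl⟩ := LatI_top hs h'
    refine LatI_iso hS h3 (LatI_nsmul (kap_pi h3' (p - 4)) T.ρ) hv j ?_
    have so : Odd s := by
      have := hp.out.odd_of_ne_two (by omega)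
      rw [← hs] at this
      simpa [Nat.odd_add] using this
    have e : W * T.ρ • Φ.pi^[p - 4] (Φ.pi^[1] β') = -(Φ.pi^[2] ω * Φ.pi^[p - 4 + 1] β') := by
      rw [mul_smul_comm, ← smul_mul_assoc, h4, neg_mul, ← Function.iterate_add_apply]
    have e1 : 1 + (p - 4 + 2) = p - 1 := by omega
    have e2 : 2 + (p - 4 + 1) = p - 1 := by omega
    rw [hθ, e, ← iterate_map_nsmul Φ.pi (p - 4) W', h4', iterate_map_neg,
      ← Function.iterate_add_apply, mul_neg, iterate_map_neg, iterate_map_neg,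
      LatI_tr h2' 1 _ _ h1 (by omega), LatI_tr h1' 2 _ _ h2 (by omega), e1, e2, so.neg_one_pow,
      vps, if_neg (by omega), vpn, if_neg (by omega), map_zero]
    exact congrArg j (by ring)
  obtain ⟨u1, α, ω, w1, -, hα, hω, -, k0, rfl, rfl⟩ := h
  obtain ⟨u1', α', ω', w1', -, hα', hω', -, k0', rfl, rfl⟩ := h'
  have key := LatI_iso hS k0 (kap_pi k0' (p - 3 - s)) hv j (θ := ((-1) ^ (s + 1) : ℤ) • θ) (by
    have e1 : s + 1 + (p - 3 - s + 1) = p - 1 := by omega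
    have e2 : 1 + (p - 3 - s + (s + 1)) = p - 1 := by omega
    have e3 : s + 1 + (p - 3 - s + (s + 1)) = p - 1 + s := by omega
    have e4 := LatI_tr hα' 1 _ (p - 3 - s + (s + 1)) hω (by omega)
    rw [Function.iterate_one] at e4
    rw [map_zsmul, hθ, ← map_zsmul, ← Function.iterate_succ_apply Φ.pi (p - 3 - s),
      ← Function.iterate_add_apply, e4, LatI_tr hω' _ _ _ hα (by omega),
      LatI_tr hα' _ _ _ hα (by omega), e1, e2, e3, vps]
    refine congrArg j ?_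
    have e5 : ((-1 : Kb k) ^ s) ^ 2 = 1 := by rw [← pow_mul, mul_comm, pow_mul, neg_one_sq, one_pow]
    split_ifs with h0
    · subst h0
      simp only [add_zero, zero_add, pow_zero, pow_one, one_smul, neg_smul]
      ring
    · rw [hα'.pi_p (i := p - 1 + s) (by omega), map_zero]
      simp only [zsmul_eq_mul, Int.cast_pow, Int.cast_neg, Int.cast_one]
      linear_combination (-(Φ.pi^[p - 1] α' * Φ.pi^[p - 1] ω)) * e5)
  rw [map_zsmul] at key
  rcases neg_one_pow_eq_or ℤ (s + 1) with e | e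
  · rwa [e, one_smul] at key
  · rwa [e, neg_smul, one_smul, neg_eq_zero] at key

end TD

end Pool.Agent.ASel
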