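import Pool.Agent.Work.MP_60d5ce_nt.AS.LatR
import Pool.Agent.Work.MP_60d5ce_nt.AS.LatE

/-!
# Tightness (plan in the header of `LatI.lean`)
-/

namespace Pool.Agent.ASel

open Polynomial Pool.Agent.Smith

variable {p : ℕ} {k : Type} [Field k] {ι : Type} [Fintype k] [hp : Fact p.Prime] [CharP k p]
  {A F b : k[X]} {v0 : Pl k} {ϖ0 : RatFunc k} {B : ℕ → ℕ} {Φ : ASF p k ι}

set_option linter.unusedSectionVars false

theorem LatT_two (h5 : 5 ≤ p) (M : Type) [Field M] [CharP M p] : (2 : M) ≠ 0 := fun h => by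
  have := Nat.le_of_dvd two_pos ((CharP.cast_eq_zero_iff M p 2).1 (by exact_mod_cast h))
  omega

theorem LatT_s0 [Fintype ι] (e : ι → ZMod p) : Φ.σ0 (Φ.we e) = Φ.we e + 1 := by
  simp only [ASF.we, map_add, map_sum, map_mul, map_natCast, Φ.σ_w0, Φ.σ_w]
  ring

theorem LatT_move [Fintype ι] (e : ι → ZMod p) (σ : Gk k) :
    ∃ m : ℕ, σ (Φ.we e) = Φ.we e + m := by
  obtain ⟨m0, h0⟩ := Φ.move0 σ
  choose m hm using Φ.move σ
  refine ⟨m0 + ∑ l, (e l).val * m l, ?_⟩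
  simp only [ASF.we, map_add, map_sum, map_mul, map_natCast, h0, hm, mul_add,
    Finset.sum_add_distrib, Nat.cast_add, Nat.cast_sum, Nat.cast_mul]
  ring

theorem LatT_k1 [Fintype ι] (e : ι → ZMod p) : Φ.K1 (Φ.we e) := by
  obtain ⟨S, hS⟩ := ASF.exists_K1 (Φ := Φ)
  exact (hS _).1 (add_mem ((hS _).2 ASF.k1_w0) (sum_mem fun l _ =>
    mul_mem (natCast_mem S _) ((hS _).2 (ASF.k2_w l).k1)))

theorem LatT_wp [Fintype ι] (e : ι → ZMod p) :
    Φ.we e ^ p - Φ.we e = algebraMap _ _ (Φ.de e) := by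
  have h : ∀ n : ℕ, (n : Kb k) ^ p = n := fun n => map_natCast (frobenius (Kb k) p) n
  simp only [ASF.we, ASF.de, map_add, map_sum, map_mul, map_natCast, ← Φ.hw0, ← Φ.hw,
    add_pow_char, sum_pow_char, mul_pow, h, mul_sub, Finset.sum_sub_distrib]
  ring

theorem LatT_fix [Fintype ι] (e : ι → ZMod p) {z : Kb k} (hz : z ∈ Om (RatFunc k) (Kb k))
    (h : ∀ σ : Gk k, σ (Φ.we e) = Φ.we e → σ z = z) (h0 : Φ.σ0 z = z) :
    ∃ a : RatFunc k, algebraMap _ _ a = z := by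
  have key : ∀ (m : ℕ) (σ : Gk k), σ (Φ.we e) = Φ.we e + m → σ z = z := by
    intro m
    induction m with
    | zero => exact fun σ hσ => h σ (by simpa using hσ)
    | succ m ih =>
      intro σ hσ
      have := ih (Φ.σ0⁻¹ * σ) (Φ.σ0.injective (by
        rw [← AlgEquiv.mul_apply, mul_inv_cancel_left, hσ, map_add, LatT_s0, map_natCast]
        push_cast
        ring))
      have e := congrArg Φ.σ0 this
      rwa [← AlgEquiv.mul_apply, mul_inv_cancel_left, h0] at e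
  exact om_fix hz fun σ => (LatT_move e σ).elim fun m hm => key m σ hm

theorem LatT_int [Fintype ι] (hS : Stg A F b Φ) (e : ι → ZMod p) {v : Pl k} (hv : ¬ plp v ∣ b) :
    av v (Φ.de e) ≤ 1 :=
  Hasse_add (hS.d_int v (Or.inr hv))
    (PF_sum zero_le_one fun l _ => (Hasse_nat v _ _).trans (hS.h_int l v (Or.inr hv)))

theorem LatT_bd (h5 : 5 ≤ p) {v : Pl k} (j : Kb k →ₐ[RatFunc k] Lb v) {x : Kb k}
    {d α β : RatFunc k} (hx : x ^ p - x = algebraMap _ _ d) (hd : av v d ≤ 1) {C : ℝ}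
    (h1 : nm v (j (algebraMap _ _ α * (2 * x + 1) + algebraMap _ _ β)) ≤ C)
    (h2 : nm v (j (2 * algebraMap _ _ α)) ≤ C) : av v α ≤ C ∧ av v β ≤ C := by
  have a2 : nm v (2 : Lb v) = 1 := by
    have := (nm_algK v _).trans (av_const v (LatT_two h5 k))
    rwa [map_ofNat, map_ofNat] at this
  have a3 : nm v (j x) ≤ 1 := wp_int (p := p) (nm_na v) (map_one _) (by
    rwa [div_one, ← map_pow, ← map_sub, hx, j.commutes, nm_algK])
  rw [map_mul, map_ofNat, map_mul, a2, one_mul, j.commutes, nm_algK] at h2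
  refine ⟨h2, ?_⟩
  have a4 : nm v (j (2 * x + 1)) ≤ 1 := by
    rw [map_add, map_one]
    refine (nm_na v _ _).trans (max_le ?_ (map_one _).le)
    rwa [map_mul, map_ofNat, map_mul, a2, one_mul]
  have a5 : nm v (-j (algebraMap _ _ α * (2 * x + 1))) ≤ C := by
    rw [AbsoluteValue.map_neg, map_mul, map_mul, j.commutes, nm_algK]
    exact (mul_le_of_le_one_right (AbsoluteValue.nonneg _ _) a4).trans h2
  have := (nm_na v _ _).trans (max_le a5 h1)
  rwa [map_add j, neg_add_cancel_left, j.commutes, nm_algK] at this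

theorem LatT_cmp (h5 : 5 ≤ p) (σ : Gk k) {x : Kb k} (hx : σ x = x + 1) {α β γ : RatFunc k}
    (h : algebraMap _ _ α * x ^ 2 + algebraMap _ _ β * x + algebraMap _ _ γ = 0) :
    α = 0 ∧ β = 0 ∧ γ = 0 := by
  have h1 := congrArg σ h
  simp only [map_add, map_mul, map_pow, map_zero, hx, AlgEquiv.commutes] at h1
  have h2 := congrArg σ h1
  simp only [map_add, map_mul, map_pow, map_zero, map_one, hx, AlgEquiv.commutes] at h2
  have a1 : algebraMap _ (Kb k) α = 0 :=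
    (mul_eq_zero.1 (by linear_combination h2 - 2 * h1 + h)).resolve_left (LatT_two h5 _)
  have a2 : algebraMap _ (Kb k) β = 0 := by linear_combination h1 - h - (2 * x + 1) * a1
  have a3 : algebraMap _ (Kb k) γ = 0 := by linear_combination h - x ^ 2 * a1 - x * a2
  exact ⟨(map_eq_zero _).1 a1, (map_eq_zero _).1 a2, (map_eq_zero _).1 a3⟩

theorem LatT_quad [Fintype ι] (h5 : 5 ≤ p) (e : ι → ZMod p) {W : Kb k} (hW : Φ.K1 W)
    (h : ∀ σ : Gk k, σ (Φ.we e) = Φ.we e → σ W = W) (h3 : Φ.pi (Φ.pi (Φ.pi W)) = 0) :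
    ∃ α β γ : RatFunc k, W = algebraMap _ _ α * Φ.we e ^ 2 + algebraMap _ _ β * Φ.we e +
      algebraMap _ _ γ ∧ Φ.pi W = algebraMap _ _ α * (2 * Φ.we e + 1) + algebraMap _ _ β ∧
      Φ.pi (Φ.pi W) = 2 * algebraMap _ _ α := by
  have st : ∀ {z : Kb k}, Φ.K1 z → (∀ σ : Gk k, σ (Φ.we e) = Φ.we e → σ z = z) →
      ∀ σ : Gk k, σ (Φ.we e) = Φ.we e → σ (Φ.pi z) = Φ.pi z := fun hz k σ hσ => by
    rw [Φ.pi_apply, map_sub, hz.comm, k σ hσ]
  have k1 : Φ.K1 (Φ.pi W) := hW.pi 1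
  have k2 : Φ.K1 (Φ.pi (Φ.pi W)) := hW.pi 2
  have kx := (LatT_k1 (Φ := Φ) e).1
  have s0 := LatT_s0 (Φ := Φ) e
  obtain ⟨α0, h0⟩ := LatT_fix e k2.1 (st k1 (st hW h)) (sub_eq_zero.1 h3)
  obtain ⟨α, hα⟩ : ∃ α : RatFunc k, Φ.pi (Φ.pi W) = 2 * algebraMap _ _ α :=
    ⟨α0 / 2, by rw [← h0, map_div₀, map_ofNat, mul_div_cancel₀ _ (LatT_two h5 _)]⟩
  obtain ⟨β, hβ⟩ := LatT_fix (Φ := Φ) e (z := Φ.pi W - algebraMap _ _ α * (2 * Φ.we e + 1))
    (sub_mem k1.1 (mul_mem (om_alg _) (add_mem (mul_mem (ofNat_mem _ 2) kx) (one_mem _))))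
    (fun σ hσ => by
      simp only [map_sub, map_mul, map_add, map_one, map_ofNat, AlgEquiv.commutes, hσ,
        st hW h σ hσ]) (by
      simp only [map_sub, map_mul, map_add, map_one, map_ofNat, AlgEquiv.commutes, s0]
      linear_combination hα - Φ.pi_apply (Φ.pi W))
  obtain ⟨γ, hγ⟩ := LatT_fix (Φ := Φ) e
    (z := W - algebraMap _ _ α * Φ.we e ^ 2 - algebraMap _ _ β * Φ.we e)
    (sub_mem (sub_mem hW.1 (mul_mem (om_alg _) (pow_mem kx 2))) (mul_mem (om_alg _) kx))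
    (fun σ hσ => by simp only [map_sub, map_mul, map_pow, AlgEquiv.commutes, hσ, h σ hσ]) (by
      simp only [map_sub, map_mul, map_pow, AlgEquiv.commutes, s0]
      linear_combination -hβ - Φ.pi_apply W)
  exact ⟨α, β, γ, by linear_combination -hγ, by linear_combination -hβ, hα⟩

theorem LatT_car (h5 : 5 ≤ p) (σ : Gk k) {x : Kb k} (hx : σ x = x + 1)
    (hO : x ∈ Om (RatFunc k) (Kb k)) {d α β γ : RatFunc k} (hd : x ^ p - x = algebraMap _ _ d)
    {W : Kb k} (hW : W = algebraMap _ _ α * x ^ 2 + algebraMap _ _ β * x + algebraMap _ _ γ)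
    (hc : cB p (W / pk _ A) = W) : cK p (α / pk _ A) = α ∧ cK p ((β - 2 * d * α) / pk _ A) = β ∧
      cK p ((γ - d * β + d ^ 2 * α) / pk _ A) = γ := by
  have e0 : algebraMap (RatFunc k) (Kb k) (pk _ A) = pk _ A := rfl
  have e1 : W / pk _ A = (x ^ 2) ^ p * algebraMap _ _ (α / pk _ A) +
      x ^ p * algebraMap _ _ ((β - 2 * d * α) / pk _ A) +
      algebraMap _ _ ((γ - d * β + d ^ 2 * α) / pk _ A) := by
    rw [← pow_mul, mul_comm 2 p, pow_mul, sub_eq_iff_eq_add.1 hd, hW]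
    simp only [map_div₀, map_sub, map_add, map_mul, map_pow, map_ofNat, e0]
    ring
  have e2 : ∀ {g : Kb k} (f : RatFunc k), g ∈ Om (RatFunc k) (Kb k) →
      cB p (g ^ p * algebraMap _ _ f) = g * algebraMap _ _ (cK p f) := fun f hg => by
    rw [alg_cB]
    exact (sc_Kb (k := k) (p := p)).1.car_frob_mul hg (om_alg f)
  rw [e1, map_add, map_add, e2 _ (pow_mem hO 2), e2 _ hO, ← alg_cB, hW] at hc
  have := LatT_cmp h5 σ hx (α := cK p (α / pk _ A) - α)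
    (β := cK p ((β - 2 * d * α) / pk _ A) - β) (γ := cK p ((γ - d * β + d ^ 2 * α) / pk _ A) - γ)
    (by simp only [map_sub]; linear_combination hc)
  exact ⟨sub_eq_zero.1 this.1, sub_eq_zero.1 this.2.1, sub_eq_zero.1 this.2.2⟩

theorem TD.rep_tight [Fintype ι] {T : TD A F b v0 ϖ0 B Φ} (h5 : 5 ≤ p) (hS : Stg A F b Φ)
    (hAF : A ∣ F) (hA : A ≠ 0) (h0 : v0 ≠ none) (h1 : plp v0 ∣ F) (e : ι → ZMod p) {n : ℕ}
    {u : T.T (n + 1)} {a w : Kb k} (hu : ∀ σ : Gk k, σ (Φ.we e) = Φ.we e → T.ac (n + 1) σ u = u)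
    (h : T.RepL (n + 1) 2 u a w) (hw : w ≠ 0) : Tight p A F b v0 (n + 1) (Φ.de e) := by
  obtain ⟨u', α1, ω, w', -, hα1, hω, -, hk, -, rfl⟩ := h
  have hv : algebraMap (RatFunc k) (Kb k) (vpn ϖ0 (n + 1)) = 0 := map_zero _
  have k0 := TD.kap_pi hk (p - 4)
  have k1 := TD.kap_pi k0 1
  rw [← Function.iterate_add_apply Φ.pi, ← Function.iterate_add_apply Φ.pi,
    hα1.pi_p (by omega)] at k1
  have k2 := TD.kap_pi k1 1
  rw [Function.iterate_one Φ.pi, map_zero] at k2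
  rw [Function.iterate_one Φ.pi] at k1
  have e2 : Φ.pi (Φ.pi (Φ.pi^[p - 4] (Φ.pi ω))) = Φ.pi^[p - 1] ω := by
    rw [show p - 1 = 2 + (p - 4) + 1 by omega, Function.iterate_add_apply,
      Function.iterate_add_apply]
    rfl
  have hc := T.coc k0
  rw [hv, mul_zero, add_zero, sub_eq_zero] at hc
  obtain ⟨α, β, γ, q0, q1, q2⟩ := LatT_quad h5 e (T.mem k0).2 (fun σ hσ => by
    have := T.act σ k0
    rw [T.ac_pi, hu σ hσ] at this
    obtain ⟨y, -, -, hy⟩ := TD.kap_diff k0 this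
    rw [hy, hv, mul_zero, sub_zero]) (by
      rw [e2, ← Function.iterate_succ_apply' Φ.pi]
      exact hω.pi_p (by omega))
  obtain ⟨c1, c2, c3⟩ := LatT_car h5 Φ.σ0 (LatT_s0 e) (LatT_k1 e).1 (LatT_wp e) q0 hc.symm
  rw [q2] at k2
  rw [q1] at k1
  refine ⟨α, β, γ, fun h => hw (by rw [← e2, q2, h, map_zero, mul_zero]), c1, c2, c3,
    fun v v1 v2 => ?_, ?_⟩
  · obtain ⟨j⟩ := exists_emb v
    have hv' : algebraMap (RatFunc k) (Lb v) (vpn ϖ0 (n + 1)) = 0 := map_zero _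
    obtain ⟨y1, -, -, b1⟩ := T.good k1 v v1 v2 j
    obtain ⟨y2, -, -, b2⟩ := T.good k2 v v1 v2 j
    rw [hv', mul_zero, add_zero] at b1 b2
    exact LatT_bd h5 j (LatT_wp e) (LatT_int hS e fun h => v2 (h.mul_left F)) b1 b2
  · obtain ⟨j⟩ := exists_emb v0
    exact LatT_bd h5 j (LatT_wp e)
      (LatT_int hS e fun h => (PF_irr h0).not_isUnit (hS.cop.isUnit_of_dvd' h h1))
      (T.tight k1 j) (T.tight k2 j)

end Pool.Agent.ASel
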