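import Pool.Agent.Work.MP_60d5ce_nt.AS.LatC
import Pool.Agent.Work.MP_60d5ce_nt.AS.LatI
import Pool.Agent.Work.MP_60d5ce_nt.AS.LatT

/-!
# From Tate data to lattice data

PLAN.  `exists_lat`: `M = Lat n s`, `ac` restricted (`lat_ac`), `Rep = RepL`.  `et0`: `rep_kap` (second part),
`TD.et0`, `desc_unr` with `C = 2 ^ max (B (n+1)) c`, `l2_split`; the new bound is `C ^ p / |A|`.  `et1`, `na`:
`TD.et1`, `desc_anom`, `desc_na` (`b` is prime to `F`).  `good`: for `s = 0` use `TD.good` for `π ^ (p-2) u` and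
`desc_unr` with `C = 1` (`ϖ` is integral); for `s ≥ 1`, `TD.good` with first component `0` shows that `j w` is
integral (`wp_int`), and `TD.et1`, `desc_unr` give `y`.  `sec2_of_TD`: given `Mx` take `N = Mx + 1`, the
lattices `(n, s)`, `n ≤ N`, `s ≤ p - 2` (`finProdFinEquiv`), `chain` with `Γ` the stabiliser of `we e`;
`γ g * σ0 ^ (-m)` fixes `we e` for `m = (∑ e l * g l).val`, so `u` is an eigenvector.
-/

namespace Pool.Agent.ASel

open Polynomial Pool.Agent.Smith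

variable {p : ℕ} {k : Type} [Field k] {ι : Type} [Fintype k] [hp : Fact p.Prime] [CharP k p]
  {A F b : k[X]} {v0 : Pl k} {ϖ0 : RatFunc k} {B : ℕ → ℕ} {Φ : ASF p k ι}

theorem LatM_nmA (v : Pl k) (A : k[X]) : nm v (pk _ A) = av v (pk _ A) := nm_algK v _

theorem LatM_nu {v : Pl k} (hv : v ≠ none) : ¬ IsUnit (plp v) := by
  rcases v with _ | P
  · exact absurd rfl hv
  · exact P.2.2.not_isUnit

theorem LatM_one {v : Pl k} (hv : v ≠ none) {A : k[X]} (h : ¬ plp v ∣ A) : av v (pk _ A) = 1 :=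
  le_antisymm (av_poly_le hv A) (not_lt.1 fun h' => h ((av_poly_lt hv A).1 h'))

theorem LatM_sub {v : Pl k} {x y : Lb v} {t : ℝ} (hx : nm v x ≤ t) (hy : nm v y ≤ t) :
    nm v (x - y) ≤ t := by
  rw [sub_eq_add_neg]
  exact LocA_add_le (nm_na v) hx (by rwa [AbsoluteValue.map_neg])

theorem LatM_unr (hA : A ≠ 0) {v : Pl k} (hd : av v Φ.d ≤ 1) {j : Kb k →ₐ[RatFunc k] Lb v}
    {a : Kb k} (ha : Φ.K2 a) {y : Lb v} (hy : Φ.L1 v j y) {C D : ℝ} (hC : 1 ≤ C)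
    (hAC : av v (pk _ A) ≤ C) (hD : C ≤ D) (hD' : C ^ p * (av v (pk _ A))⁻¹ ≤ D)
    (h : nm v (j a - (y ^ p / pk _ A - y)) ≤ C) :
    ∃ y0, Φ.L2 v j y0 ∧ nm v (y - y0) ≤ C ∧ nm v (j a - (y0 ^ p / pk _ A - y0)) ≤ D := by
  obtain ⟨y0, h0, h1⟩ := desc_unr hA hd ha hy hC hAC h
  refine ⟨y0, h0, h1, ?_⟩
  have e : j a - (y0 ^ p / pk _ A - y0) =
      j a - (y ^ p / pk _ A - y) + ((y - y0) ^ p / pk _ A - (y - y0)) := by
    rw [Wp_sub]; ring
  rw [e]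
  refine LocA_add_le (nm_na v) (h.trans hD) (LatM_sub ?_ (h1.trans hD))
  rw [map_div₀, map_pow, LatM_nmA, div_eq_mul_inv]
  exact (mul_le_mul_of_nonneg_right (pow_le_pow_left₀ ((nm v).nonneg _) h1 p)
    (inv_nonneg.2 ((av v).nonneg _))).trans hD'

theorem LatM_nF (hS : Stg A F b Φ) {v : Pl k} (hv : v ≠ none) (hb : plp v ∣ b) : ¬ plp v ∣ F :=
  fun h => LatM_nu hv (hS.cop.isUnit_of_dvd' hb h)

theorem LatM_et0 (h : Ari p A F v0 ϖ0) (hS : Stg A F b Φ) {T : TD A F b v0 ϖ0 B Φ} {c n s n0 : ℕ}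
    (hc : ∀ v, InS0 F v → av v (pk _ A) ≤ 2 ^ c ∧ (av v (pk _ A))⁻¹ ≤ 2 ^ c)
    (hn : p * max (B (n + 1)) c + c ≤ n0) {u : T.T n} {a w : Kb k} (hr : T.RepL n s u a w)
    (v : Pl k) (hv : InS0 F v) (j : Kb k →ₐ[RatFunc k] Lb v) : ∃ y : Lv v,
    nm v (j a - algebraMap _ _ (y ^ p / pk _ A - y)) ≤ 2 ^ n0 := by
  have hA : A ≠ 0 := fun h0 => h.F_ne (zero_dvd_iff.1 (h0 ▸ h.dvd))
  obtain ⟨u1, w1, h1⟩ := (TD.rep_kap hr).2
  obtain ⟨y, hy, h2⟩ := T.et0 h1 v hv j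
  have hd : av v Φ.d ≤ 1 := hS.d_int v (by
    by_cases h0 : v = none
    · exact Or.inl h0
    · exact Or.inr fun hb => LatM_nF hS h0 hb (hv.resolve_left h0))
  have hm : max (B (n + 1)) c ≤ n0 :=
    (Nat.le_mul_of_pos_left _ hp.out.pos).trans ((Nat.le_add_right _ _).trans hn)
  have h12 : (1 : ℝ) ≤ 2 := one_le_two
  obtain ⟨y0, h3, -, h4⟩ := LatM_unr (C := 2 ^ max (B (n + 1)) c) (D := 2 ^ n0) hA hd
    (TD.rep_mem hr).1 hy (one_le_pow₀ h12)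
    ((hc v hv).1.trans (pow_le_pow_right₀ h12 (le_max_right _ _))) (pow_le_pow_right₀ h12 hm)
    (by
      refine (mul_le_mul_of_nonneg_left (hc v hv).2 (by positivity)).trans ?_
      rw [← pow_mul, ← pow_add, mul_comm]
      exact pow_le_pow_right₀ h12 hn)
    (h2.trans (pow_le_pow_right₀ h12 (le_max_left _ _)))
  obtain ⟨y1, rfl⟩ := l2_split hS (Or.inl hv) h3
  refine ⟨y1, ?_⟩
  have e : algebraMap (Lv v) (Lb v) (pk _ A) = pk _ A :=
    (IsScalarTower.algebraMap_apply (RatFunc k) (Lv v) (Lb v) _).symm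
  rwa [map_sub (algebraMap (Lv v) (Lb v)), map_div₀, map_pow, e]

theorem LatM_good (h : Ari p A F v0 ϖ0) (hS : Stg A F b Φ) {T : TD A F b v0 ϖ0 B Φ} {n s : ℕ}
    {u : T.T n} {a w : Kb k} (hr : T.RepL n s u a w) (v : Pl k) (hv : v ≠ none)
    (hb : ¬ plp v ∣ F * b) (j : Kb k →ₐ[RatFunc k] Lb v) : ∃ y, Φ.L2 v j y ∧
    nm v (j a - (y ^ p / pk _ A - y)) ≤ 1 ∧
      nm v (j w + y ^ p / pk _ A * algebraMap (RatFunc k) _ (vps ϖ0 n s)) ≤ 1 := by
  have hA : A ≠ 0 := fun h0 => h.F_ne (zero_dvd_iff.1 (h0 ▸ h.dvd))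
  have hF : ¬ plp v ∣ F := fun h' => hb (h'.mul_right _)
  have hS0 : ¬ InS0 F v := fun h' => h'.elim hv hF
  have h1 : av v (pk _ A) = 1 := LatM_one hv fun h' => hF (h'.trans h.dvd)
  have hd : av v Φ.d ≤ 1 := hS.d_int v (Or.inr fun h' => hb (h'.mul_left _))
  have hD : (1 : ℝ) ^ p * (av v (pk _ A))⁻¹ ≤ 1 := by rw [h1]; simp
  have hm : ∀ z : Lb v, nm v z ≤ 1 →
      nm v (z ^ p / pk _ A * algebraMap (RatFunc k) _ (vpn ϖ0 n)) ≤ 1 := fun z hz => by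
    rw [map_mul, map_div₀, map_pow, LatM_nmA, h1, div_one, nm_algK]
    refine mul_le_one₀ (pow_le_one₀ ((nm v).nonneg _) hz) ((av v).nonneg _) ?_
    unfold vpn
    split_ifs
    · exact h.ϖ_int v hS0
    · simp
  obtain ⟨y, hy, h2, h3⟩ := T.good (TD.rep_kap hr).1 v hv hb j
  by_cases hs : s = 0
  · rw [if_pos hs] at h2
    obtain ⟨y0, h4, h5, h6⟩ := LatM_unr hA hd (TD.rep_mem hr).1 hy le_rfl h1.le le_rfl hD h2
    refine ⟨y0, h4, h6, ?_⟩
    have e : j w + y0 ^ p / pk _ A * algebraMap (RatFunc k) _ (vps ϖ0 n s) =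
        j w + y ^ p / pk _ A * algebraMap (RatFunc k) _ (vpn ϖ0 n) -
          (y - y0) ^ p / pk _ A * algebraMap (RatFunc k) _ (vpn ϖ0 n) := by
      rw [vps, if_pos hs, sub_pow_char]; ring
    rw [e]
    exact LatM_sub h3 (hm _ h5)
  · rw [if_neg hs, map_zero, zero_sub, AbsoluteValue.map_neg] at h2
    have h7 := hm y (wp_int (nm_na v) ((LatM_nmA v A).trans h1) h2)
    obtain ⟨u1, w1, h8⟩ := (TD.rep_kap hr).2
    obtain ⟨y', hy', h9⟩ := T.et1 h8 v hS0 j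
    obtain ⟨y0, h4, -, h6⟩ := LatM_unr hA hd (TD.rep_mem hr).1 hy' le_rfl h1.le le_rfl hD h9
    refine ⟨y0, h4, h6, ?_⟩
    rw [vps, if_neg hs, map_zero, mul_zero, add_zero]
    have := LatM_sub h3 h7
    rwa [add_sub_cancel_right] at this

/-- the action on a lattice -/
def LatM_ac (T : TD A F b v0 ϖ0 B Φ) (n s : ℕ) (σ : Gk k) : T.Lat n s →+ T.Lat n s :=
  ((T.ac n σ).comp (T.Lat n s).subtype).codRestrict _ fun x => T.lat_ac x.2 σ

theorem LatM_iter (T : TD A F b v0 ϖ0 B Φ) (n s : ℕ) (σ : Gk k) (i : ℕ) (x : T.Lat n s) :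
    (((LatM_ac T n s σ)^[i] x : T.Lat n s) : T.T n) = (T.ac n σ)^[i] x :=
  Function.Semiconj.iterate_right (f := ((↑) : T.Lat n s → T.T n)) (ga := LatM_ac T n s σ)
    (gb := T.ac n σ) (fun _ => rfl) i x

theorem TD.exists_lat (h : Ari p A F v0 ϖ0) (hS : Stg A F b Φ) (T : TD A F b v0 ϖ0 B Φ) {c n s n0 : ℕ}
    (hc : ∀ v, InS0 F v → av v (pk _ A) ≤ 2 ^ c ∧ (av v (pk _ A))⁻¹ ≤ 2 ^ c) (hs : s + 2 ≤ p)
    (hn : p * max (B (n + 1)) c + c ≤ n0) :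
    ∃ (L : LatD A F b n0 Φ (vps ϖ0 n s) ((-1) ^ s)) (f : L.M → T.T n), Function.Injective f ∧
      (∀ u ∈ T.Lat n s, ∃ x, f x = u) ∧ (∀ σ x, f (L.ac σ x) = T.ac n σ (f x)) ∧
      ∀ x a w, L.Rep x a w ↔ T.RepL n s (f x) a w := by
  have hS0 : ∀ {v : Pl k}, v ≠ none → plp v ∣ b → ¬ InS0 F v :=
    fun hv hb h' => h'.elim hv (LatM_nF hS hv hb)
  refine ⟨{ M := T.Lat n s
            ac := LatM_ac T n s
            Rep := fun x a w => T.RepL n s x a w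
            ac_mul := fun σ τ u => Subtype.ext (T.ac_mul n σ τ u)
            ac_triv := fun σ u h1 h2 => Subtype.ext (T.ac_triv n σ u h1 h2)
            comm := fun σ τ u => Subtype.ext (T.ac_comm n σ τ u)
            norm := fun u => Subtype.ext ?_
            tf := fun u hu => Subtype.ext (T.pi_inj n 1 ?_)
            ex := fun u => TD.rep_ex u.2
            mem := fun hr => TD.rep_mem hr
            sub := fun hr hr' => TD.rep_sub hr hr'
            act := fun σ hr => TD.rep_act hr σ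
            cob := fun hr hy => TD.rep_cob hr hy
            uniq := fun hr => TD.rep_uniq hr
            ker := fun hr => ?_
            coc := fun hr => TD.rep_coc hr
            et0 := fun hr v hv j => LatM_et0 h hS hc hn hr v hv j
            et1 := fun hr v hv hb han j => ?_
            iso := fun hr hr' v hv j θ hθ => TD.rep_iso h.five hS hs hr hr' hv j hθ
            na := fun hr v hv hb han j => ?_
            good := fun hr v hv hb j => LatM_good h hS hr v hv hb j },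
    Subtype.val, Subtype.val_injective, fun u hu => ⟨⟨u, hu⟩, rfl⟩, fun _ _ => rfl,
    fun _ _ _ => Iff.rfl⟩
  · rw [AddSubgroup.val_finsetSum]
    simp only [LatM_iter]
    exact T.norm n u
  · rw [ZeroMemClass.coe_zero, T.iter_zero, Function.iterate_one, T.pi_apply, sub_eq_zero]
    exact congrArg Subtype.val hu
  · obtain ⟨u2, h2, e⟩ := TD.rep_ker hs hr
    exact ⟨⟨u2, h2⟩, Subtype.ext e⟩
  · obtain ⟨u1, w1, h1⟩ := (TD.rep_kap hr).2
    obtain ⟨y, hy, h2⟩ := T.et1 h1 v (hS0 hv hb) j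
    exact desc_anom hS h.dvd hv hb han (TD.rep_mem hr).1 hy h2
  · obtain ⟨u1, w1, h1⟩ := (TD.rep_kap hr).2
    obtain ⟨y, hy, h2⟩ := T.et1 h1 v (hS0 hv hb) j
    exact desc_na hv (fun h' => LatM_nF hS hv hb (h'.trans h.dvd)) han (TD.rep_mem hr).1 hy h2

theorem LatM_c {A : k[X]} (hA : A ≠ 0) (v : Pl k) :
    av v (pk _ A) ≤ 2 ^ A.natDegree ∧ (av v (pk _ A))⁻¹ ≤ 2 ^ A.natDegree := by
  have h1 : (1 : ℝ) ≤ 2 ^ A.natDegree := one_le_pow₀ one_le_two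
  by_cases hv : v = none
  · subst hv
    have e : av (none : Pl k) (pk _ A) = 2 ^ A.natDegree := av_inf hA
    rw [e]
    exact ⟨le_rfl, (inv_le_one_of_one_le₀ h1).trans h1⟩
  · have e : av v (pk _ A) = 2⁻¹ ^ multiplicity (plp v) A := av_poly_eq hv hA
    refine ⟨(av_poly_le hv A).trans h1, ?_⟩
    rw [e, inv_pow, inv_inv]
    refine pow_le_pow_right₀ one_le_two ?_
    have h2 := natDegree_le_of_dvd (pow_multiplicity_dvd (plp v) A) hA
    rcases v with _ | P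
    · exact absurd rfl hv
    · rw [natDegree_pow] at h2
      exact (Nat.le_mul_of_pos_right _ P.2.2.natDegree_pos).trans h2

theorem LatM_pow (T : TD A F b v0 ϖ0 B Φ) (n : ℕ) (σ : Gk k) (m : ℕ) (u : T.T n) :
    T.ac n (σ ^ m) u = (T.ac n σ)^[m] u := by
  induction m with
  | zero => exact T.ac_triv n _ u rfl fun _ => rfl
  | succ m ih => rw [pow_succ', T.ac_mul, ih, Function.iterate_succ_apply']

theorem LatM_we [Fintype ι] (Φ : ASF p k ι) (e g : ι → ZMod p) :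
    Φ.γ g (Φ.we e) = (Φ.σ0 ^ (∑ l, e l * g l).val) (Φ.we e) := by
  have h1 : ∀ m : ℕ, (Φ.σ0 ^ m) (Φ.we e) = Φ.we e + m := fun m => by
    induction m with
    | zero => simp
    | succ m ih =>
      rw [pow_succ', AlgEquiv.mul_apply, ih]
      simp only [ASF.we, map_add, map_sum, map_mul, map_natCast, Φ.σ_w0, Φ.σ_w]
      push_cast
      ring
  rw [h1, Gal_cast, map_sum]
  simp only [ASF.we, map_add, map_sum, map_mul, map_natCast, Φ.γ_w0, Φ.γ_w, mul_add,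
    Finset.sum_add_distrib, add_assoc, ← Gal_cast]

theorem LatM_eig [Fintype ι] (T : TD A F b v0 ϖ0 B Φ) {n : ℕ} {u : T.T n} {e : ι → ZMod p}
    (hu : ∀ σ : Gk k, σ (Φ.we e) = Φ.we e → T.ac n σ u = u) (g : ι → ZMod p) :
    T.ac n (Φ.γ g) u = (T.ac n Φ.σ0)^[(∑ l, e l * g l).val] u := by
  have h1 := hu ((Φ.σ0 ^ (∑ l, e l * g l).val)⁻¹ * Φ.γ g) (by
    rw [AlgEquiv.mul_apply, LatM_we, ← AlgEquiv.mul_apply, inv_mul_cancel, AlgEquiv.one_apply])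
  have h2 := T.ac_mul n (Φ.σ0 ^ (∑ l, e l * g l).val) ((Φ.σ0 ^ (∑ l, e l * g l).val)⁻¹ * Φ.γ g) u
  rwa [h1, mul_inv_cancel_left, LatM_pow] at h2

theorem sec2_of_TD (h : Ari p A F v0 ϖ0) {BadD : RatFunc k → Prop}
    (hT : ∀ (ι : Type) [Fintype ι] (b : k[X]) (Φ : ASF p k ι), Stg A F b Φ →
      ∃ T : TD A F b v0 ϖ0 B Φ, ∀ e, BadD (Φ.de e) →
        ∃ u : T.T 0, u ≠ 0 ∧ ∀ σ : Gk k, σ (Φ.we e) = Φ.we e → T.ac 0 σ u = u) :
    Sec2 p A F v0 ϖ0 BadD := by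
  intro Mx
  have hA : A ≠ 0 := fun h0 => h.F_ne (zero_dvd_iff.1 (h0 ▸ h.dvd))
  have h5 := h.five
  let E : Fin ((Mx + 2) * (p - 1)) ≃ Fin (Mx + 2) × Fin (p - 1) := finProdFinEquiv.symm
  refine ⟨p * max ((Finset.range (Mx + 3)).sup B) A.natDegree + A.natDegree, _,
    fun i => vps ϖ0 (E i).1 (E i).2, fun i => (-1) ^ ((E i).2 : ℕ), fun i => ?_,
    fun ι _ b Φ hS => ?_⟩
  · simp only [vps, vpn]
    split_ifs with h1 h2
    · exact Or.inl ⟨rfl, by rw [h1, pow_zero]⟩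
    · exact Or.inr ⟨rfl, neg_one_pow_eq_or _ _⟩
    · exact Or.inr ⟨rfl, neg_one_pow_eq_or _ _⟩
  obtain ⟨T, hT⟩ := hT ι b Φ hS
  choose L f hf h1 h2 h3 using fun q : Fin (Mx + 2) × Fin (p - 1) =>
    T.exists_lat h hS (n := q.1) (s := q.2)
      (n0 := p * max ((Finset.range (Mx + 3)).sup B) A.natDegree + A.natDegree)
      (fun v _ => LatM_c hA v) (by have := q.2.2; omega)
      (Nat.add_le_add_right (Nat.mul_le_mul_left _ (max_le_max_right _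
        (Finset.le_sup (f := B) (Finset.mem_range.2 (by have := q.1.2; omega))))) _)
  refine ⟨fun i => L (E i), fun e he => ?_⟩
  obtain ⟨u0, h0, hu0⟩ := hT e he
  rcases TD.chain h5 h.ϖ_ne {σ | σ (Φ.we e) = Φ.we e} h0 hu0 (Mx + 1) with
    ⟨n, hn, s, hs, u, a, w, hu, hr, ha, hw⟩ | ⟨u, a, w, hu, hr, hw⟩
  · left
    have key : ∃ q, (L q).GoodEig e := by
      let q : Fin (Mx + 2) × Fin (p - 1) := (⟨n, by omega⟩, ⟨s, by omega⟩)
      obtain ⟨x, hx⟩ := h1 q u (by obtain ⟨u', -, -, -, h', -⟩ := hr; exact ⟨u', h'⟩)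
      refine ⟨q, x, a, w, fun g => hf q ?_, (h3 q x a w).2 (hx ▸ hr), ha, hw⟩
      rw [h2, Function.Semiconj.iterate_right (f := f q) (h2 q Φ.σ0), hx]
      exact LatM_eig T hu g
    obtain ⟨q, hq⟩ := key
    obtain ⟨i, rfl⟩ := E.surjective q
    exact ⟨i, hq⟩
  · right
    have hv : plp v0 ∣ F := (dvd_of_multiplicity_pos h.odd.pos).trans h.dvd
    obtain ⟨α, β, γ, g1, g2, g3, g4, g5, g6, g7⟩ :=
      TD.rep_tight h5 hS h.dvd hA h.v0_ne hv e hu hr hw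
    have hm : (2⁻¹ : ℝ) ^ (Mx + 1) ≤ 2⁻¹ ^ Mx :=
      pow_le_pow_of_le_one (by norm_num) (by norm_num) (Nat.le_succ _)
    exact ⟨α, β, γ, g1, g2, g3, g4, g5, g6.trans hm, g7.trans hm⟩

end Pool.Agent.ASel
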