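import Pool.Agent.Work.MP_60d5ce_nt.AS.LatA

/-!
# The relation `RepL`

PLAN (`℘ y = y ^ p / A - y`, injective on `K1` by `noT`).  `rep_ex`: `κ u' = (a', w')`; `π ^ (p-1) u' ∈ p T`
(`pi_pow`) so `π ^ (p-1) a' = ℘ y`; `π y = 0`, `y = π ^ (p-1) y'`, `a' - ℘ y' = π α` (`k1_h90`).  `κ u = (a, w)`,
`kF` and `kap_pi` give `a - π ^ (s+1) α ∈ ℘ K1`, change the representative; `π ^ (p-1) (a, w)` is the coboundary
of some `y` with `℘ y = 0`, so `w = π ω`.  `rep_cob`: `y = π ^ (p-1) y'`, `α + ℘ y'`, `ω - π ^ s (y' ^ p / A) ϖ`.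
`rep_uniq`: `u' = 0`, `π α = ℘ y1`, `y1 = π y2`, the answer is `π ^ (p-1) y2`.  `rep_ker`: `κ (π ^ (p-2) u) = 0`, so
`π ^ (p-2) u = p u''`; by `pi_pow`, `π ^ (p-1) u'' = -π ^ (p-2) (u + π …)`, so `u = π u2`.  For `s ≥ 1` also
`u' = π u2'`: `κ (π ^ (p-2) u') = (0, w'')`, `kV` gives `κ (V π ^ (p-2) u') = (0, ρ w'')`, and
`π ^ s V u' = p u = p π u2` gives `π ^ (p-2) V u' ∈ p T`, so `w'' = 0`.
-/

namespace Pool.Agent.ASel

open Polynomial Pool.Agent.Smith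

variable {p : ℕ} {k : Type} [Field k] {ι : Type} [Fintype k] [hp : Fact p.Prime] [CharP k p]
  {A F b : k[X]} {v0 : Pl k} {ϖ0 : RatFunc k} {B : ℕ → ℕ} {Φ : ASF p k ι}

/-- `y ^ p / A - y` -/
noncomputable def LatR_wp (p : ℕ) [Fact p.Prime] [CharP k p] (A : k[X]) : Kb k →+ Kb k where
  toFun y := y ^ p / pk _ A - y
  map_zero' := by simp [(Fact.out : p.Prime).ne_zero]
  map_add' x y := by
    have : CharP (Kb k) p := charP_of_injective_algebraMap (algebraMap k (Kb k)).injective p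
    rw [add_pow_char]; ring

theorem LatR_wp_pi (i : ℕ) (y : Kb k) : Φ.pi^[i] (LatR_wp p A y) = LatR_wp p A (Φ.pi^[i] y) :=
  (iterate_map_sub Φ.pi i _ _).trans (congrArg (· - _) (ASF.pi_wp A y i))

theorem LatR_sub {x y : Kb k} (hx : Φ.K1 x) (hy : Φ.K1 y) : Φ.K1 (x - y) := by
  obtain ⟨S, h⟩ := ASF.exists_K1 (Φ := Φ)
  exact (h _).1 (S.sub_mem ((h _).2 hx) ((h _).2 hy))

theorem LatR_ph {y : Kb k} (hy : Φ.K1 y) (c : RatFunc k) :
    Φ.K1 (y ^ p / pk _ A * algebraMap _ _ c) := by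
  obtain ⟨S, h⟩ := ASF.exists_K1 (Φ := Φ)
  exact (h _).1 (S.mul_mem (S.div_mem (pow_mem ((h _).2 hy) p) (S.algebraMap_mem _))
    (S.algebraMap_mem _))

theorem LatR_k1wp {y : Kb k} (hy : Φ.K1 y) : Φ.K1 (LatR_wp p A y) :=
  LatR_sub (by simpa using LatR_ph (A := A) hy 1) hy

theorem LatR_neg {y : Kb k} (hy : Φ.K1 y) : Φ.K1 (-y) := by
  simpa using LatR_sub (LatR_sub hy hy) hy

theorem LatR_top {X : Type} (f : X → X) (x : X) : f^[p - 2] (f x) = f^[p - 1] x := by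
  rw [← Function.iterate_succ_apply, show (p - 2).succ = p - 1 by have := hp.out.two_le; omega]

theorem LatR_k2 {x : Kb k} (h : Φ.K1 x) : Φ.K2 (Φ.pi^[p - 1] x) :=
  (h.pi _).k2 ((Function.iterate_succ_apply' Φ.pi _ x).symm.trans
    (h.pi_p (by have := hp.out.two_le; omega)))

theorem LatR_act {x : Kb k} (h : Φ.K1 x) (σ : Gk k) (i : ℕ) :
    σ (Φ.pi^[i] x) = Φ.pi^[i] (σ x) := by
  induction i with
  | zero => rfl
  | succ i ih =>
    rw [Function.iterate_succ_apply', Function.iterate_succ_apply', ← ih, ASF.pi_apply, ASF.pi_apply,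
      map_sub, (h.pi i).comm]

theorem LatR_one (y : Kb k) (c : RatFunc k) (s : ℕ) :
    Φ.pi (Φ.pi^[s] y ^ p / pk _ A * algebraMap _ _ c) =
      Φ.pi^[s + 1] y ^ p / pk _ A * algebraMap _ _ c := by
  rw [Function.iterate_succ_apply']
  exact (ASF.pi_mul _ _ 1).trans (congrArg (· * _) (ASF.pi_wp A _ 1))

theorem LatR_vps {y : Kb k} (hy : Φ.K1 y) (n s : ℕ) :
    Φ.pi^[p - 1] (Φ.pi^[s] y ^ p / pk _ A * algebraMap _ _ (vpn ϖ0 n)) =
      Φ.pi^[p - 1] y ^ p / pk _ A * algebraMap _ _ (vps ϖ0 n s) := by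
  rw [ASF.pi_mul, ASF.pi_wp, vps]
  split_ifs with h
  · rw [h]; rfl
  · rw [← Function.iterate_add_apply, hy.pi_p (by have := hp.out.two_le; omega)]
    simp [hp.out.ne_zero]

namespace TD

variable {T : TD A F b v0 ϖ0 B Φ} {n s : ℕ} {u u' : T.T n} {a w a' w' : Kb k}

theorem LatR_uniq (h : T.Kap n ((T.pi n)^[p - 1] u) a w) : ∃ y, Φ.K1 y ∧ a = LatR_wp p A y ∧
    w = -(y ^ p / pk _ A * algebraMap _ _ (vpn ϖ0 n)) := by
  obtain ⟨c, hc⟩ := T.pi_pow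
  rw [hc, ← smul_neg] at h
  exact T.uniq h

theorem LatR_zero (h : T.Kap n (p • u) 0 w) : w = 0 := by
  obtain ⟨y, h1, h2, h3⟩ := T.uniq h
  rw [h3, T.noT y h1 h2.symm]
  simp [hp.out.ne_zero]

theorem LatR_div (h : T.Kap n ((T.pi n)^[p - 2] u) 0 0) : ∃ u2, u = T.pi n u2 := by
  obtain ⟨x, hx⟩ := T.ker h
  obtain ⟨c, hc⟩ := T.pi_pow
  refine ⟨-(x + ∑ i ∈ Finset.range p, c i • (T.pi n)^[i] u), T.pi_inj n (p - 2) ?_⟩
  have e : ∀ i, (T.pi n)^[p - 1] (c i • (T.pi n)^[i] u) = p • c i • (T.pi n)^[i + 1] x := fun i => by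
    have e' : (T.pi n)^[i + 1] (p • x) = p • (T.pi n)^[i + 1] x := iterate_map_nsmul _ _ _ _
    rw [iterate_map_nsmul, smul_comm p, ← e', ← hx, ← Function.iterate_add_apply, ← Function.iterate_add_apply,
      show p - 1 + i = i + 1 + (p - 2) by have := hp.out.two_le; omega]
  have e2 : ∀ t : Finset ℕ, (T.pi n)^[p - 1] (∑ i ∈ t, c i • (T.pi n)^[i] u) =
      ∑ i ∈ t, p • c i • (T.pi n)^[i + 1] x := fun t => by
    induction t using Finset.induction_on with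
    | empty => exact iter_zero T n _
    | insert i t hi ih => rw [Finset.sum_insert hi, Finset.sum_insert hi, iterate_map_add, ih, e]
  rw [LatR_top, iterate_map_neg, iterate_map_add, hc n x, hx, smul_add, Finset.smul_sum, e2]
  abel

theorem rep_ex (hu : u ∈ T.Lat n s) : ∃ a w, T.RepL n s u a w := by
  obtain ⟨x, hx⟩ := T.mem_Lat.1 hu
  obtain ⟨a', w', h'⟩ := T.ex _ x
  obtain ⟨a, w, h⟩ := T.ex _ u
  have m := (T.mem h').1
  obtain ⟨y, y1, y2, -⟩ := LatR_uniq (kap_pi h' (p - 1))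
  have y3 : Φ.pi y = 0 := T.noT _ (y1.pi 1) (by
    have e := LatR_wp_pi (Φ := Φ) (A := A) 1 y
    rw [← y2] at e
    exact e.symm.trans (LatR_k2 m).pi_eq)
  obtain ⟨y', z1, rfl⟩ := ASF.k1_tr (y1.k2 y3)
  obtain ⟨α, α1, α2⟩ := ASF.k1_h90 (LatR_sub m (LatR_k1wp (A := A) z1))
    (by rw [iterate_map_sub, LatR_wp_pi, y2, sub_self])
  have k1 := T.cob h' (LatR_neg z1)
  rw [show a' + ((-y') ^ p / pk _ A - -y') = Φ.pi α from by
    rw [← α2, sub_eq_add_neg a', ← map_neg]; rfl] at k1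
  have k2 := kap_pi k1 s
  rw [hx] at k2
  obtain ⟨z, z2, z3, -⟩ := kap_diff (T.kF h) k2
  have k3 := T.cob h z2
  rw [← z3, ← Function.iterate_succ_apply] at k3
  have k4 := kap_pi k3 (p - 1)
  obtain ⟨c, hc⟩ := T.pi_pow
  rw [hc, ← smul_neg, ← Function.iterate_add_apply,
    α1.pi_p (by have := hp.out.two_le; omega)] at k4
  obtain ⟨η, η1, η2⟩ := ASF.k1_h90 (T.mem k3).2 (LatR_zero k4)
  exact ⟨_, _, x, α, η, _, hx, α1, η1, k1, η2 ▸ k3, rfl, rfl⟩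

theorem rep_mem (h : T.RepL n s u a w) : Φ.K2 a ∧ Φ.K2 w := by
  obtain ⟨x, α, η, v, -, h1, h2, -, -, rfl, rfl⟩ := h
  exact ⟨LatR_k2 h1, LatR_k2 h2⟩

theorem rep_sub (h : T.RepL n s u a w) (h' : T.RepL n s u' a' w') :
    T.RepL n s (u - u') (a - a') (w - w') := by
  obtain ⟨x, α, η, v, h0, h1, h2, h3, h4, rfl, rfl⟩ := h
  obtain ⟨x', α', η', v', k0, k1, k2, k3, k4, rfl, rfl⟩ := h'
  refine ⟨x - x', α - α', η - η', v - v', by rw [iter_sub, h0, k0, map_sub], LatR_sub h1 k1,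
    LatR_sub h2 k2, ?_, ?_, (iterate_map_sub _ _ _ _).symm, (iterate_map_sub _ _ _ _).symm⟩
  · rw [map_sub]; exact T.sub h3 k3
  · rw [map_sub, iterate_map_sub]; exact T.sub h4 k4

theorem rep_act (h : T.RepL n s u a w) (σ : Gk k) : T.RepL n s (T.ac n σ u) (σ a) (σ w) := by
  obtain ⟨x, α, η, v, h0, h1, h2, h3, h4, rfl, rfl⟩ := h
  refine ⟨T.ac _ σ x, σ α, σ η, σ v, by rw [← ac_pi, h0, T.F_ac], h1.act σ, h2.act σ, ?_, ?_,
    LatR_act h1 σ _, LatR_act h2 σ _⟩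
  · rw [← show σ (Φ.pi α) = Φ.pi (σ α) from LatR_act h1 σ 1]
    exact T.act σ h3
  · rw [← show σ (Φ.pi η) = Φ.pi (σ η) from LatR_act h2 σ 1, ← LatR_act h1]
    exact T.act σ h4

theorem rep_cob (h : T.RepL n s u a w) {y : Kb k} (hy : Φ.K2 y) : T.RepL n s u
    (a + (y ^ p / pk _ A - y)) (w - y ^ p / pk _ A * algebraMap _ _ (vps ϖ0 n s)) := by
  obtain ⟨x, α, η, v, h0, h1, h2, h3, h4, rfl, rfl⟩ := h
  obtain ⟨z, hz, rfl⟩ := ASF.k1_tr hy
  refine ⟨x, α + LatR_wp p A z, η - Φ.pi^[s] z ^ p / pk _ A * algebraMap _ _ (vpn ϖ0 n),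
    v - Φ.pi z ^ p / pk _ A * algebraMap _ _ (vpn ϖ0 (n + 1)), h0, by simpa using LatR_sub h1 (LatR_neg (LatR_k1wp (A := A) hz)), LatR_sub h2 (LatR_ph (hz.pi s) _),
    ?_, ?_, ?_, ?_⟩
  · rw [map_add, show Φ.pi (LatR_wp p A z) = LatR_wp p A (Φ.pi z) from LatR_wp_pi 1 z]
    exact T.cob h3 (hz.pi 1)
  · rw [iterate_map_add, LatR_wp_pi, map_sub, LatR_one]
    exact T.cob h4 (hz.pi _)
  · rw [iterate_map_add, LatR_wp_pi]; rfl
  · rw [iterate_map_sub, LatR_vps hz]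

theorem rep_uniq (h : T.RepL n s 0 a w) : ∃ y, Φ.K2 y ∧ a = y ^ p / pk _ A - y ∧
    w = -(y ^ p / pk _ A * algebraMap _ _ (vps ϖ0 n s)) := by
  obtain ⟨x, α, η, v, h0, h1, h2, h3, h4, rfl, rfl⟩ := h
  obtain rfl : x = 0 := T.pi_inj _ s (by rw [h0, map_zero, iter_zero])
  obtain ⟨y, y1, y2, -⟩ := T.uniq (n := n + 1) (u := 0) (by rwa [smul_zero])
  obtain ⟨z, z1, z2, z3⟩ := T.uniq (n := n) (u := 0) (by rwa [smul_zero])
  change _ = LatR_wp p A _ at y2 z2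
  obtain ⟨t, t1, rfl⟩ := ASF.k1_h90 y1 (T.noT _ (y1.pi _) (by
    change LatR_wp p A _ = 0
    rw [← LatR_wp_pi, ← y2, ← Function.iterate_succ_apply]
    exact h1.pi_p (by have := hp.out.two_le; omega)))
  obtain rfl : z = Φ.pi^[s + 1] t := sub_eq_zero.1 (T.noT _ (LatR_sub z1 (t1.pi _)) (by
    change LatR_wp p A _ = 0
    rw [map_sub, ← z2, Function.iterate_succ_apply, Function.iterate_succ_apply, y2, LatR_wp_pi,
      sub_self]))
  refine ⟨_, LatR_k2 t1, ?_, ?_⟩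
  · rw [← LatR_top, y2, LatR_wp_pi, LatR_top]; rfl
  · rw [← LatR_vps t1, ← LatR_top Φ.pi η, z3, iterate_map_neg, ← LatR_top, LatR_one]

theorem rep_kap (h : T.RepL n s u a w) :
    T.Kap n ((T.pi n)^[p - 2] u) (if s = 0 then a else 0) w ∧
      ∃ u1 w1, T.Kap (n + 1) u1 a w1 := by
  obtain ⟨x, α, η, v, h0, h1, h2, h3, h4, rfl, rfl⟩ := h
  have k := kap_pi h4 (p - 2)
  rw [LatR_top Φ.pi η] at k
  refine ⟨?_, _, _, LatR_top (p := p) Φ.pi α ▸ kap_pi h3 (p - 2)⟩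
  split_ifs with hs
  · subst hs
    exact LatR_top (p := p) Φ.pi α ▸ k
  · rwa [← Function.iterate_add_apply, h1.pi_p (by have := hp.out.two_le; omega)] at k

theorem rep_ker (hs : s + 2 ≤ p) (h : T.RepL n s u 0 0) : ∃ u2 ∈ T.Lat n s, u = T.pi n u2 := by
  obtain ⟨u2, rfl⟩ := LatR_div (by simpa using (rep_kap h).1)
  refine ⟨u2, T.mem_Lat.2 ?_, rfl⟩
  obtain ⟨x, α, η, v, h0, h1, h2, h3, h4, h5, h6⟩ := h
  rcases s with _ | s
  · exact ⟨_, rfl⟩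
  have k := kap_pi h3 (p - 2)
  rw [LatR_top, ← h5] at k
  have e : (T.pi n)^[s] (T.Ve n x) = p • u2 := T.pi_inj n 1 (by
    rw [← Function.iterate_add_apply, add_comm, ← V_pi, h0, T.VF, iterate_map_nsmul]; rfl)
  have k2 := T.kV k
  rw [V_pi, show p - 2 = p - 2 - s + s by omega, Function.iterate_add_apply, e,
    iterate_map_nsmul] at k2
  rw [show p - 2 = p - 2 - s + s by omega, (mul_eq_zero.1 (LatR_zero k2)).resolve_left T.ρ_ne,
    ← show p - 2 = p - 2 - s + s by omega] at k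
  obtain ⟨x2, rfl⟩ := LatR_div k
  refine ⟨x2, T.pi_inj _ 1 ?_⟩
  rw [← Function.iterate_add_apply, add_comm 1, Function.iterate_succ_apply, h0]
  exact T.F_pi n 1 u2

theorem rep_coc (h : T.RepL n s u a w) :
    w - cB p (w / pk _ A) + a * algebraMap _ _ (vps ϖ0 n s) = 0 := by
  have k := T.coc (rep_kap h).1
  rw [vps]
  split_ifs at k ⊢
  · exact k
  · simpa using k

end TD

end Pool.Agent.ASel
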