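import Pool.Agent.Work.MP_60d5ce_nt.AS.FDef

/-!
# Tate modules of the Selmer groups: the abstract data

`K1` is the field `K(w0, w l)`, `L1 v j` its completion along `j`.  `T n` is the part of the Tate module
of the Selmer group of level `n` over `K1` that is killed by the norm of `σ0`; `Kap u a w` says that
`(a, w)` represents the first component of `u`.
-/

namespace Pool.Agent.ASel

open Polynomial Pool.Agent.Smith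

noncomputable section

variable {p : ℕ} {k : Type} [Field k] {ι : Type}

/-- the field generated by `w0` and the `w l` -/
def ASF.K1 (Φ : ASF p k ι) (x : Kb k) : Prop :=
  x ∈ Om (RatFunc k) (Kb k) ∧ ∀ σ : Gk k, σ Φ.w0 = Φ.w0 → (∀ l, σ (Φ.w l) = Φ.w l) → σ x = x

/-- the local field generated by `w0` and the `w l` -/
def ASF.L1 (Φ : ASF p k ι) (v : Pl k) (j : Kb k →ₐ[RatFunc k] Lb v) (y : Lb v) : Prop :=
  y ∈ Om (Lv v) (Lb v) ∧ ∀ τ : Lb v ≃ₐ[Lv v] Lb v, τ (j Φ.w0) = j Φ.w0 →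
    (∀ l, τ (j (Φ.w l)) = j (Φ.w l)) → τ y = y

/-- the root of the member `e` of the family -/
def ASF.we [Fintype ι] (Φ : ASF p k ι) (e : ι → ZMod p) : Kb k :=
  Φ.w0 + ∑ l, ((e l).val : Kb k) * Φ.w l

/-- the constant of level `n` -/
def vpn (ϖ0 : RatFunc k) (n : ℕ) : RatFunc k := if n = 0 then ϖ0 else 0

variable [Fintype k] [hp : Fact p.Prime] [CharP k p]

/-- Tate data -/
structure TD (A F b : k[X]) (v0 : Pl k) (ϖ0 : RatFunc k) (B : ℕ → ℕ) (Φ : ASF p k ι) : Type 1 where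
  T : ℕ → Type
  [grp : ∀ n, AddCommGroup (T n)]
  ac : ∀ n, Gk k → T n →+ T n
  Fr : ∀ n, T n →+ T (n + 1)
  Ve : ∀ n, T (n + 1) →+ T n
  Kap : ∀ n, T n → Kb k → Kb k → Prop
  ρ : ℕ
  ρ_ne : (ρ : Kb k) ≠ 0
  ac_mul : ∀ n σ τ u, ac n (σ * τ) u = ac n σ (ac n τ u)
  ac_triv : ∀ n σ u, σ Φ.w0 = Φ.w0 → (∀ l, σ (Φ.w l) = Φ.w l) → ac n σ u = u
  norm : ∀ n u, ∑ i ∈ Finset.range p, (ac n Φ.σ0)^[i] u = 0
  FV : ∀ n u, Fr n (Ve n u) = p • u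
  VF : ∀ n u, Ve n (Fr n u) = p • u
  F_ac : ∀ n σ u, Fr n (ac n σ u) = ac (n + 1) σ (Fr n u)
  V_ac : ∀ n σ u, Ve n (ac (n + 1) σ u) = ac n σ (Ve n u)
  ptf : ∀ n (u : T n), p • u = 0 → u = 0
  sep : ∀ n (u : T n), (∀ m : ℕ, ∃ u', u = p ^ m • u') → u = 0
  ex : ∀ n u, ∃ a w, Kap n u a w
  mem : ∀ {n u a w}, Kap n u a w → Φ.K1 a ∧ Φ.K1 w
  sub : ∀ {n u a w u' a' w'}, Kap n u a w → Kap n u' a' w' → Kap n (u - u') (a - a') (w - w')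
  act : ∀ {n u a w} (σ : Gk k), Kap n u a w → Kap n (ac n σ u) (σ a) (σ w)
  cob : ∀ {n u a w y}, Kap n u a w → Φ.K1 y →
    Kap n u (a + (y ^ p / pk _ A - y)) (w - y ^ p / pk _ A * algebraMap _ _ (vpn ϖ0 n))
  uniq : ∀ {n u a w}, Kap n (p • u) a w → ∃ y, Φ.K1 y ∧ a = y ^ p / pk _ A - y ∧
    w = -(y ^ p / pk _ A * algebraMap _ _ (vpn ϖ0 n))
  ker : ∀ {n u}, Kap n u 0 0 → ∃ u', u = p • u'
  noT : ∀ y, Φ.K1 y → y ^ p / pk _ A - y = 0 → y = 0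
  coc : ∀ {n u a w}, Kap n u a w → w - cB p (w / pk _ A) + a * algebraMap _ _ (vpn ϖ0 n) = 0
  kF : ∀ {n u a w}, Kap n u a w → Kap (n + 1) (Fr n u) a 0
  kV : ∀ {n u a w}, Kap (n + 1) u a w → Kap n (Ve n u) 0 (ρ * w)
  et0 : ∀ {n u a w}, Kap n u a w → ∀ v, InS0 F v → ∀ j : Kb k →ₐ[RatFunc k] Lb v,
    ∃ y, Φ.L1 v j y ∧ nm v (j a - (y ^ p / pk _ A - y)) ≤ 2 ^ B n
  et1 : ∀ {n u a w}, Kap n u a w → ∀ v, ¬ InS0 F v → ∀ j : Kb k →ₐ[RatFunc k] Lb v,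
    ∃ y, Φ.L1 v j y ∧ nm v (j a - (y ^ p / pk _ A - y)) ≤ 1
  good : ∀ {n u a w}, Kap n u a w → ∀ v, v ≠ none → ¬ plp v ∣ F * b →
    ∀ j : Kb k →ₐ[RatFunc k] Lb v, ∃ y, Φ.L1 v j y ∧ nm v (j a - (y ^ p / pk _ A - y)) ≤ 1 ∧
      nm v (j w + y ^ p / pk _ A * algebraMap (RatFunc k) _ (vpn ϖ0 n)) ≤ 1
  iso : ∀ {n u a w u' a' w'}, Kap n u a w → Kap n u' a' w' →
    ∀ (v : Pl k) (j : Kb k →ₐ[RatFunc k] Lb v), ∃ η, Φ.L1 v j η ∧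
      j (a * w' + a' * w + a * a' * algebraMap _ _ (vpn ϖ0 n)) =
        η - car p (Om (Lv v) (Lb v)) (tv k (Lb v)) η
  tight : ∀ {n u w}, Kap (n + 1) u 0 w → ∀ j : Kb k →ₐ[RatFunc k] Lb v0,
    nm v0 (j w) ≤ 2⁻¹ ^ (n + 1)

attribute [instance] TD.grp

end

end Pool.Agent.ASel
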