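import Pool.Agent.Work.MP_60d5ce_nt.AS.SelL
import Pool.Agent.Work.MP_60d5ce_nt.AS.TDef

/-!
# The Tate modules of the Selmer groups form Tate data

PLAN.  `H` is the normal subgroup of the `σ` that fix `w0` and all `w l` (`σ w - w ∈ F_p`), `Hy.opn`.
`T n` is the subgroup of the `u : ℕ → Amb H n` with `u 0 = 0`, `u m ∈ Sel`, `p u (m+1) = u m` and
`∑ (acA σ0)^[i] (u m) = 0`; `ac`, `Fr`, `Ve` act on components, `Kap n u a w := Kap H n (u 1) a w`.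
`ptf`: `u m = p u (m+1)`; `sep`: `(p ^ m u') m = u' 0`; `ker`: `kap_ker` and the shift `m ↦ u (m+1)`;
`uniq`: `(p u) 1 = u 0 = 0`.  `noT`: `wp_ker`, the roots are the `zz t` (`lam_pow`, `zz_map`, `lam_ne`).
`LH H v j ↔ Φ.L1 v j` by `exists_rst`.  For `good`, `tight`: if `d`, `h l` are integral at `v` then so
are the roots (`wp_int` with `A = 1`) and `I0` fixes them (`i0_small`, `fp_small`); `v0 ∣ A ∣ F` is prime to
`b`, `av v0 A ≤ 1/2`, `uk p (n+2) ≥ n + 1`.  Last part: `δ - we e ∈ F_p`, so the stabiliser of `δ` is that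
of `we e` and contains `H`; restrict with `Rm` (`Rm_inj`, `Rm_acA`, `acA_triv`: `σ0` of `BadD` and `Φ.σ0`
differ by an element of the stabiliser).
-/

namespace Pool.Agent.ASel

open Polynomial Pool.Agent.Smith

noncomputable section

section Aux

open Pool.Agent.ShaAsc
open scoped Classical

variable {k : Type} [Field k] {p : ℕ} [Fintype k] [hp : Fact p.Prime] [CharP k p] {a4 a6 : k[X]}
  {ι : Type}

/-- the automorphisms that fix all roots -/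
def SelT_H (Φ : ASF p k ι) : Subgroup (Gk k) :=
  MulAction.stabilizer (Gk k) Φ.w0 ⊓ ⨅ l, MulAction.stabilizer (Gk k) (Φ.w l)

omit [Fintype k] hp [CharP k p] in
theorem SelT_mem {Φ : ASF p k ι} {σ : Gk k} :
    σ ∈ SelT_H Φ ↔ σ Φ.w0 = Φ.w0 ∧ ∀ l, σ (Φ.w l) = Φ.w l := by
  simp only [SelT_H, Subgroup.mem_inf, Subgroup.mem_iInf, MulAction.mem_stabilizer_iff,
    AlgEquiv.smul_def]

instance SelT_normal (Φ : ASF p k ι) : (SelT_H Φ).Normal :=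
  ⟨fun σ hσ γ => Subgroup.mem_inf.2 ⟨(stab_normal Φ.hw0).conj_mem σ (Subgroup.mem_inf.1 hσ).1 γ,
    Subgroup.mem_iInf.2 fun l => (stab_normal (Φ.hw l)).conj_mem σ
      (Subgroup.mem_iInf.1 (Subgroup.mem_inf.1 hσ).2 l) γ⟩⟩

omit [Fintype k] in
theorem SelT_diff {δ δ' : Kb k} (h : δ ^ p - δ = δ' ^ p - δ') : ∃ m : ℕ, δ = δ' + m := by
  obtain ⟨m, hm⟩ := Wp_fix (p := p) (x := δ - δ') (by
    rw [sub_pow_char]
    linear_combination h)
  exact ⟨m, by rw [← hm, add_sub_cancel]⟩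

omit [Fintype k] in
theorem SelT_mv {δ : Kb k} {d : RatFunc k} (h : δ ^ p - δ = algebraMap _ _ d) (σ : Gk k) :
    ∃ m : ℕ, σ δ = δ + m :=
  SelT_diff (p := p) (by rw [← map_pow, ← map_sub, h, AlgEquiv.commutes])

omit [Fintype k] in
theorem SelT_comm1 {δ : Kb k} {d : RatFunc k} (h : δ ^ p - δ = algebraMap _ _ d) (σ τ : Gk k) :
    ((τ * σ)⁻¹ * (σ * τ)) δ = δ := by
  obtain ⟨m, hm⟩ := SelT_mv h σ
  obtain ⟨m', hm'⟩ := SelT_mv h τ
  have h1 : (σ * τ) δ = (τ * σ) δ := by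
    rw [AlgEquiv.mul_apply, AlgEquiv.mul_apply, hm, hm', map_add, map_add, hm, hm', map_natCast,
      map_natCast]
    ring
  rw [AlgEquiv.mul_apply, h1, ← AlgEquiv.mul_apply, inv_mul_cancel, AlgEquiv.one_apply]

theorem SelT_ac_eq {H : Subgroup (Gk k)} [H.Normal] {n : ℕ} {σ τ : Gk k} (h : τ⁻¹ * σ ∈ H)
    {s : Amb a4 a6 p H n} (hs : s ∈ Sel a4 a6 p H n) :
    acA a4 a6 p H n σ s = acA a4 a6 p H n τ s := by
  rw [← mul_inv_cancel_left τ σ, acA_mul, acA_triv h hs]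

theorem SelT_comm (Φ : ASF p k ι) {n : ℕ} (σ τ : Gk k) {s : Amb a4 a6 p (SelT_H Φ) n}
    (hs : s ∈ Sel a4 a6 p _ n) :
    acA a4 a6 p _ n σ (acA a4 a6 p _ n τ s) = acA a4 a6 p _ n τ (acA a4 a6 p _ n σ s) := by
  rw [← acA_mul, ← acA_mul]
  exact SelT_ac_eq (SelT_mem.2 ⟨SelT_comm1 Φ.hw0 σ τ, fun l => SelT_comm1 (Φ.hw l) σ τ⟩) hs

theorem SelT_opn (h : Hy p a4 a6) [Fintype ι] (Φ : ASF p k ι) : Opn a4 a6 p (SelT_H Φ) := by
  refine h.opn (insert Φ.w0 (Finset.univ.image Φ.w)) (fun y hy => ?_) fun σ hσ => ?_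
  · rcases Finset.mem_insert.1 hy with rfl | hy
    · exact ⟨_, Φ.hw0⟩
    · obtain ⟨l, -, rfl⟩ := Finset.mem_image.1 hy
      exact ⟨_, Φ.hw l⟩
  · exact SelT_mem.2 ⟨hσ _ (Finset.mem_insert_self _ _), fun l =>
      hσ _ (Finset.mem_insert_of_mem (Finset.mem_image_of_mem _ (Finset.mem_univ l)))⟩

variable (a4 a6 p) in
/-- the part of the Tate module that is killed by the norm -/
def SelT_T (H : Subgroup (Gk k)) [H.Normal] (σ0 : Gk k) (n : ℕ) :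
    AddSubgroup (ℕ → Amb a4 a6 p H n) where
  carrier := {u | u 0 = 0 ∧ ∀ m, u m ∈ Sel a4 a6 p H n ∧ p • u (m + 1) = u m ∧
    ∑ i ∈ Finset.range p, (acA a4 a6 p H n σ0)^[i] (u m) = 0}
  zero_mem' := ⟨rfl, fun _ => ⟨zero_mem _, smul_zero _,
    Finset.sum_eq_zero fun i _ => iterate_map_zero _ i⟩⟩
  add_mem' {u u'} hu hu' := ⟨by rw [Pi.add_apply, hu.1, hu'.1, add_zero], fun m =>
    ⟨add_mem (hu.2 m).1 (hu'.2 m).1,
      (smul_add p (u (m + 1)) (u' (m + 1))).trans (congrArg₂ _ (hu.2 m).2.1 (hu'.2 m).2.1),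
      by simp only [Pi.add_apply, iterate_map_add, Finset.sum_add_distrib, (hu.2 m).2.2,
        (hu'.2 m).2.2, add_zero]⟩⟩
  neg_mem' {u} hu := ⟨by rw [Pi.neg_apply, hu.1, neg_zero], fun m =>
    ⟨neg_mem (hu.2 m).1, (smul_neg p (u (m + 1))).trans (congrArg _ (hu.2 m).2.1),
      by simp only [Pi.neg_apply, iterate_map_neg, Finset.sum_neg_distrib, (hu.2 m).2.2,
        neg_zero]⟩⟩

theorem SelT_iter {H H' : Subgroup (Gk k)} [H.Normal] [H'.Normal] {σ0 σ1 : Gk k} {n n' : ℕ}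
    (g : Amb a4 a6 p H n →+ Amb a4 a6 p H' n')
    (h2 : ∀ s ∈ Sel a4 a6 p H n, g (acA a4 a6 p H n σ0 s) = acA a4 a6 p H' n' σ1 (g s))
    (i : ℕ) : ∀ s ∈ Sel a4 a6 p H n,
      (acA a4 a6 p H' n' σ1)^[i] (g s) = g ((acA a4 a6 p H n σ0)^[i] s) := by
  induction i with
  | zero => exact fun _ _ => rfl
  | succ i ih =>
    intro s hs
    rw [Function.iterate_succ_apply, Function.iterate_succ_apply, ← h2 s hs, ih _ (acA_mem σ0 hs)]

/-- the map induced on Tate modules -/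
def SelT_map {H H' : Subgroup (Gk k)} [H.Normal] [H'.Normal] {σ0 σ1 : Gk k} {n n' : ℕ}
    (g : Amb a4 a6 p H n →+ Amb a4 a6 p H' n')
    (h1 : ∀ s ∈ Sel a4 a6 p H n, g s ∈ Sel a4 a6 p H' n')
    (h2 : ∀ s ∈ Sel a4 a6 p H n, g (acA a4 a6 p H n σ0 s) = acA a4 a6 p H' n' σ1 (g s)) :
    SelT_T p a4 a6 H σ0 n →+ SelT_T p a4 a6 H' σ1 n' where
  toFun u := ⟨fun m => g (u.1 m), (congrArg g u.2.1).trans (map_zero g), fun m =>
    ⟨h1 _ (u.2.2 m).1, (map_nsmul g p _).symm.trans (congrArg g (u.2.2 m).2.1), by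
      rw [Finset.sum_congr rfl fun i _ => SelT_iter g h2 i _ (u.2.2 m).1, ← map_sum, (u.2.2 m).2.2,
        map_zero]⟩⟩
  map_zero' := Subtype.ext (funext fun _ => map_zero g)
  map_add' _ _ := Subtype.ext (funext fun _ => map_add g _ _)

theorem SelT_pow {H : Subgroup (Gk k)} [H.Normal] {σ0 : Gk k} {n : ℕ} (u : SelT_T p a4 a6 H σ0 n)
    (m : ℕ) : p ^ m • u.1 m = 0 := by
  induction m with
  | zero => rw [pow_zero, one_smul, u.2.1]
  | succ m ih => rw [pow_succ, mul_smul, (u.2.2 m).2.1, ih]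

theorem SelT_noT (h : Hy p a4 a6) {H : Subgroup (Gk k)} (hH : Opn a4 a6 p H) {y : Kb k}
    (hy : ∀ σ ∈ H, σ y = y) (h0 : y ^ p / pk _ (hasseInv p a4 a6) - y = 0) : y = 0 := by
  have ho := h.ord_Kb
  obtain ⟨t, t0, ht⟩ := ho.ex
  obtain ⟨m, hm⟩ := wp_ker (ho.lam_pow t0 ht) (ho.lam_ne t0 ht) h0
  rw [← ho.zz_nsmul ht] at hm
  have h1 : p • m • t = 0 := by rw [smul_comm, ht, smul_zero]
  have h2 := hH.noT (m • t) h1 fun σ hσ => by
    by_contra hne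
    have h3 : p • -(m • t) = 0 := by rw [smul_neg, h1, neg_zero]
    have h4 : p • (act (Ew a4 a6) σ (m • t) + -(m • t)) = 0 := by
      rw [smul_add, h3, ← map_nsmul, h1, map_zero, add_zero]
    refine ho.lam_ne (fun e => hne (add_neg_eq_zero.1 e)) h4 ?_
    rw [ho.zz_add_tors _ h3, ho.zz_neg, ho.zz_map (cmp_act σ), ← hm]
    exact add_neg_eq_zero.2 (hy σ hσ)
  rw [hm, h2, ho.zz_zero]

omit [Fintype k] hp [CharP k p] in
theorem SelT_L1 {Φ : ASF p k ι} {v : Pl k} {j : Kb k →ₐ[RatFunc k] Lb v} {y : Lb v}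
    (hy : LH (SelT_H Φ) v j y) : Φ.L1 v j y := by
  obtain ⟨ρ, hρ⟩ := exists_rst v j
  exact ⟨hy.1, fun τ h1 h2 => hy.2 τ (ρ τ) (SelT_mem.2 ⟨j.injective ((hρ τ _).trans h1),
    fun l => j.injective ((hρ τ _).trans (h2 l))⟩) (hρ τ)⟩

theorem SelT_fix {δ : Kb k} {d : RatFunc k} (h : δ ^ p - δ = algebraMap _ _ d) {v : Pl k}
    (hd : av v d ≤ 1) (j : Kb k →ₐ[RatFunc k] Lb v) {τ : Lb v ≃ₐ[Lv v] Lb v} (hτ : τ ∈ I0 p v)
    {σ : Gk k} (hσ : ∀ x, j (σ x) = τ (j x)) : σ δ = δ := by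
  obtain ⟨m, hm⟩ := SelT_mv h σ
  have h1 : nm v (j δ) ≤ 1 := wp_int (p := p) (nm_na v) (map_one _) (by
    rw [div_one, ← map_pow, ← map_sub, h, AlgHom.commutes, nm_algK]
    exact hd)
  have h2 := i0_small hτ h1
  rw [← hσ, hm, map_add, add_sub_cancel_left, map_natCast, ← mul_one (m : Lb v)] at h2
  have h3 := fp_small (p := p) (nm_na v) (map_one _) h2
  rw [mul_one, ← map_natCast j, ← map_zero j] at h3
  rw [hm, j.injective h3, add_zero]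

theorem SelT_I0 {A F b : k[X]} {Φ : ASF p k ι} (hΦ : Stg A F b Φ) {v : Pl k} (hv : ¬ plp v ∣ b)
    (j : Kb k →ₐ[RatFunc k] Lb v) :
    ∀ τ ∈ I0 p v, ∃ σ ∈ SelT_H Φ, ∀ x, j (σ x) = τ (j x) := by
  obtain ⟨ρ, hρ⟩ := exists_rst v j
  exact fun τ hτ => ⟨ρ τ, SelT_mem.2 ⟨SelT_fix Φ.hw0 (hΦ.d_int v (Or.inr hv)) j hτ (hρ τ),
    fun l => SelT_fix (Φ.hw l) (hΦ.h_int l v (Or.inr hv)) j hτ (hρ τ)⟩, hρ τ⟩

omit [Fintype k] [CharP k p] in
theorem SelT_tight {A : k[X]} {v : Pl k} (h0 : v ≠ none) (h1 : plp v ∣ A) (n : ℕ) :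
    av v (pk _ A) ^ uk p (n + 2) ≤ 2⁻¹ ^ (n + 1) := by
  obtain ⟨c, rfl⟩ := h1
  have h2 : av v (pk _ (plp v * c)) ≤ 2⁻¹ := by
    change av v (algebraMap k[X] (RatFunc k) (plp v * c)) ≤ _
    rw [map_mul, map_mul, av_plp h0]
    exact mul_le_of_le_one_right (by norm_num) (av_poly_le h0 c)
  have h3 : n + 2 ≤ uk p (n + 2) := by
    have h4 := Finset.card_nsmul_le_sum (Finset.range (n + 2)) (fun i => p ^ i) 1
      fun i _ => Nat.one_le_pow i p hp.out.pos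
    rwa [Finset.card_range, smul_eq_mul, mul_one] at h4
  exact (pow_le_pow_left₀ ((av v).nonneg _) h2 _).trans
    (pow_le_pow_of_le_one (by norm_num) (by norm_num) (by omega))

omit [Fintype k] in
theorem SelT_we [Fintype ι] (Φ : ASF p k ι) (e : ι → ZMod p) :
    Φ.we e ^ p - Φ.we e = algebraMap _ _ (Φ.de e) := by
  have h1 : ∀ l, (((e l).val : Kb k) * Φ.w l) ^ p =
      ((e l).val : Kb k) * Φ.w l + algebraMap _ _ (((e l).val : RatFunc k) * Φ.h l) := by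
    intro l
    rw [mul_pow, ← frobenius_def, map_natCast, map_mul, map_natCast, ← Φ.hw l]
    ring
  rw [ASF.we, ASF.de, add_pow_char, sum_pow_char, Finset.sum_congr rfl fun l _ => h1 l,
    Finset.sum_add_distrib, map_add, map_sum, ← Φ.hw0]
  ring

theorem SelT_bad (h : Hy p a4 a6) [Fintype ι] (Φ : ASF p k ι) (e : ι → ZMod p)
    (hb : BadD a4 a6 p (Φ.de e)) : ∃ u : SelT_T p a4 a6 (SelT_H Φ) Φ.σ0 0, u ≠ 0 ∧
      ∀ σ : Gk k, σ (Φ.we e) = Φ.we e → ∀ m, acA a4 a6 p _ 0 σ (u.1 m) = u.1 m := by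
  obtain ⟨δ, hδ, σ1, u, h1, h2, h3, h4⟩ := hb
  have hN := stab_normal hδ
  obtain ⟨c, hc⟩ := SelT_diff (p := p) (hδ.trans (SelT_we Φ e).symm)
  have h5 : ∀ σ : Gk k, σ (Φ.we e) = Φ.we e → σ ∈ MulAction.stabilizer (Gk k) δ := fun σ hσ => by
    rw [MulAction.mem_stabilizer_iff, AlgEquiv.smul_def, hc, map_add, hσ, map_natCast]
  have hle : SelT_H Φ ≤ MulAction.stabilizer (Gk k) δ := fun σ hσ => h5 σ (by
    simp only [ASF.we, map_add, map_sum, map_mul, map_natCast, (SelT_mem.1 hσ).1, (SelT_mem.1 hσ).2])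
  have h6 : Φ.σ0 δ = σ1 δ := by
    rw [h1, hc]
    simp only [ASF.we, map_add, map_sum, map_mul, map_natCast, Φ.σ_w0, Φ.σ_w]
    ring
  have h7 : Φ.σ0⁻¹ * σ1 ∈ MulAction.stabilizer (Gk k) δ := by
    rw [MulAction.mem_stabilizer_iff, AlgEquiv.smul_def, AlgEquiv.mul_apply, ← h6,
      ← AlgEquiv.mul_apply, inv_mul_cancel, AlgEquiv.one_apply]
  refine ⟨SelT_map (σ0 := σ1) (Rm a4 a6 p hle 0) (fun _ hs => Rm_mem hle hs)
    (fun s hs => by rw [SelT_ac_eq h7 hs, Rm_acA]) ⟨u, h3, h4⟩, fun h0 => h2 (funext fun m => ?_),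
    fun σ hσ m => ?_⟩
  · exact h.Rm_inj hle (h4 m).1 (congrFun (congrArg Subtype.val h0) m)
  · change acA a4 a6 p _ 0 σ (Rm a4 a6 p hle 0 (u m)) = Rm a4 a6 p hle 0 (u m)
    rw [← Rm_acA, acA_triv (h5 σ hσ) (h4 m).1]

end Aux

theorem exists_TD {k : Type} [Field k] {p : ℕ} [Fintype k] [Fact p.Prime] [CharP k p]
    {a4 a6 : k[X]} (h : Hy p a4 a6) {v0 : Pl k} (h0 : v0 ≠ none) (h1 : plp v0 ∣ hasseInv p a4 a6)
    (h2 : ¬ plp v0 ∣ Dc a4 a6) : ∃ B : ℕ → ℕ, ∀ (ι : Type) [Fintype ι] (b : k[X]) (Φ : ASF p k ι),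
      Stg (hasseInv p a4 a6) (hasseInv p a4 a6 * Dc a4 a6) b Φ →
      ∃ T : TD (hasseInv p a4 a6) (hasseInv p a4 a6 * Dc a4 a6) b v0 (vp0 a4 a6 p) B Φ,
        ∀ e, BadD a4 a6 p (Φ.de e) →
          ∃ u : T.T 0, u ≠ 0 ∧ ∀ σ : Gk k, σ (Φ.we e) = Φ.we e → T.ac 0 σ u = u := by
  classical
  obtain ⟨ρ, ρ0, hρ⟩ := h.kap_V
  choose B hB using h.kap_et0
  refine ⟨B, fun ι _ b Φ hΦ => ?_⟩
  have ho := SelT_opn h Φ
  have K1 : ∀ {x}, KH (SelT_H Φ) x ↔ Φ.K1 x :=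
    ⟨fun hx => ⟨hx.1, fun σ e1 e2 => hx.2 σ (SelT_mem.2 ⟨e1, e2⟩)⟩,
      fun hx => ⟨hx.1, fun σ hσ => hx.2 σ (SelT_mem.1 hσ).1 (SelT_mem.1 hσ).2⟩⟩
  have hb : ¬ plp v0 ∣ b := fun e => by
    have h3 := hΦ.cop.isUnit_of_dvd' e (h1.mul_right _)
    rcases v0 with _ | P
    · exact h0 rfl
    · exact P.2.2.not_isUnit h3
  let ac : ∀ n, Gk k → SelT_T p a4 a6 (SelT_H Φ) Φ.σ0 n →+ SelT_T p a4 a6 (SelT_H Φ) Φ.σ0 n :=
    fun n σ => SelT_map (acA a4 a6 p _ n σ) (fun _ hs => acA_mem σ hs)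
      fun _ hs => SelT_comm Φ σ Φ.σ0 hs
  refine ⟨{
    T := fun n => SelT_T p a4 a6 (SelT_H Φ) Φ.σ0 n
    grp := fun _ => inferInstance
    ac := ac
    Fr := fun n => SelT_map (Fm a4 a6 p _ n) (fun _ hs => Fm_mem hs) fun s _ => Fm_acA _ s
    Ve := fun n => SelT_map (Vm h _ n) (fun _ hs => h.Vm_mem hs) fun s _ => h.Vm_acA _ s
    Kap := fun n u a w => Kap a4 a6 p _ n (u.1 1) a w
    ρ := ρ
    ρ_ne := ρ0
    ac_mul := fun n σ τ u => Subtype.ext (funext fun m => acA_mul σ τ (u.1 m))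
    ac_triv := fun n σ u e1 e2 =>
      Subtype.ext (funext fun m => acA_triv (SelT_mem.2 ⟨e1, e2⟩) (u.2.2 m).1)
    norm := fun n u => Subtype.ext (funext fun m => ?_)
    FV := fun n u => Subtype.ext (funext fun m => h.Fm_Vm (u.1 m))
    VF := fun n u => Subtype.ext (funext fun m => h.Vm_Fm (u.1 m))
    F_ac := fun n σ u => Subtype.ext (funext fun m => Fm_acA σ (u.1 m))
    V_ac := fun n σ u => Subtype.ext (funext fun m => h.Vm_acA σ (u.1 m))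
    ptf := fun n u hu => Subtype.ext (funext fun m =>
      (u.2.2 m).2.1.symm.trans (congrFun (congrArg Subtype.val hu) (m + 1)))
    sep := fun n u hu => Subtype.ext (funext fun m => ?_)
    ex := fun n u => h.kap_ex ho (u.2.2 1).1 ((u.2.2 0).2.1.trans u.2.1)
    mem := fun hu => ⟨K1.1 (h.kap_mem hu).1, K1.1 (h.kap_mem hu).2⟩
    sub := fun hu hu' => h.kap_sub hu hu'
    act := fun σ hu => Kap.act h hu σ
    cob := fun hu hy => h.kap_cob hu (K1.2 hy)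
    uniq := fun {n u a w} hu => ?_
    ker := fun {n u} hu => ⟨⟨fun m => u.1 (m + 1), h.kap_ker hu, fun m => u.2.2 (m + 1)⟩,
      Subtype.ext (funext fun m => (u.2.2 m).2.1.symm)⟩
    noT := fun y hy e => SelT_noT h ho (K1.2 hy).2 e
    coc := fun hu => h.kap_coc hu
    kF := fun hu => h.kap_F hu
    kV := fun hu => hρ _ _ _ _ _ hu
    et0 := fun hu v hv j => (hB _ _ _ _ _ hu v hv j).imp fun _ hy => ⟨SelT_L1 hy.1, hy.2⟩
    et1 := fun hu v hv j => (h.kap_et1 hu hv j).imp fun _ hy => ⟨SelT_L1 hy.1, hy.2⟩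
    good := fun hu v hv hd j => (h.kap_good hu (fun e => e.elim hv fun e => hd (e.mul_right b)) j
      (SelT_I0 hΦ (fun e => hd (e.mul_left _)) j)).imp fun _ hy => ⟨SelT_L1 hy.1, hy.2⟩
    iso := fun hu hu' v j => (h.kap_iso hu hu' v j).imp fun _ hy => ⟨SelT_L1 hy.1, hy.2⟩
    tight := fun hu j => (h.kap_tight hu (fun e => e.elim h0 h2) j (SelT_I0 hΦ hb j)).trans
      (SelT_tight h0 h1 _) }, fun e he => ?_⟩
  · have h3 : ∀ (i : ℕ) (u : SelT_T p a4 a6 (SelT_H Φ) Φ.σ0 n),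
        ((ac n Φ.σ0)^[i] u).1 m = (acA a4 a6 p _ n Φ.σ0)^[i] (u.1 m) := fun i => by
      induction i with
      | zero => exact fun _ => rfl
      | succ i ih => exact fun u => ih (ac n Φ.σ0 u)
    rw [AddSubgroup.val_finsetSum, Finset.sum_apply, Finset.sum_congr rfl fun i _ => h3 i u]
    exact (u.2.2 m).2.2
  · obtain ⟨u', rfl⟩ := hu m
    exact SelT_pow u' m
  · have h3 : (p • u).1 1 = 0 := (u.2.2 0).2.1.trans u.2.1
    rw [h3] at hu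
    exact (h.kap_uniq ho hu).imp fun _ hy => ⟨K1.1 hy.1, hy.2⟩
  · exact (SelT_bad h Φ e he).elim fun u hu =>
      ⟨u, hu.1, fun σ hσ => Subtype.ext (funext (hu.2 σ hσ))⟩

end

end Pool.Agent.ASel
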