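import Pool.Agent.Work.MP_60d5ce_nt.AS.BrgB
import Pool.Agent.Work.MP_60d5ce_nt.AS.SelT
import Pool.Agent.Work.MP_60d5ce_nt.AS.LatM
import Pool.Agent.Work.MP_60d5ce_nt.AS.FMain

/-!
# The main theorem
-/

namespace Pool.Agent.ASel

open Polynomial Filter Pool.Agent.Smith Pool.Agent.ShaAsc
open scoped Topology IntermediateField

variable {k : Type} [Field k] {p : ℕ} [Fintype k] [hp : Fact p.Prime] [CharP k p] {a4 a6 P : k[X]}

omit [Fintype k] in
theorem exists_pl (hP : Irreducible P) : ∃ v : Pl k, v ≠ none ∧ Associated (plp v) P := by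
  classical
  exact ⟨some ⟨normalize P, monic_normalize hP.ne_zero, (associated_normalize P).irreducible hP⟩,
    Option.some_ne_none _, normalize_associated P⟩

omit [Fintype k] [CharP k p] in
theorem hy_of (h5 : 5 ≤ p) (hA : hasseInv p a4 a6 ≠ 0) (hP : Irreducible P)
    (hm : Odd (multiplicity P (hasseInv p a4 a6))) (hD : ¬ P ∣ Dc a4 a6)
    (hκ : 2 * a4 * derivative a6 ≠ 3 * derivative a4 * a6) : Hy p a4 a6 := by
  refine ⟨h5, fun e => hD (e ▸ dvd_zero P), hκ, fun y hy => ?_⟩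
  obtain ⟨v, hv, ha⟩ := exists_pl hP
  have h1 := av_poly_eq hv hA
  have hy0 : y ≠ 0 := fun e => PF_ne hA (by
    rw [e, zero_pow (by omega)] at hy
    exact hy.symm)
  obtain ⟨n, hn⟩ := av_disc v y hy0
  have h2 : av v (y ^ (p - 1)) = av v (algebraMap k[X] _ (hasseInv p a4 a6)) := congrArg _ hy
  rw [h1, map_pow, hn, ← zpow_natCast, ← zpow_mul, inv_pow, ← zpow_natCast, ← zpow_neg,
    multiplicity_eq_of_associated_left ha.symm] at h2
  have h3 := zpow_right_injective₀ (by norm_num) (by norm_num) h2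
  obtain ⟨r, hr⟩ := hp.1.even_sub_one (by omega)
  obtain ⟨s, hs⟩ := hm
  rw [hr, hs] at h3
  push_cast at h3
  have : (2 : ℤ) ∣ 1 := ⟨-(n * r) - s, by linear_combination h3⟩
  omega

theorem Hy.bad_rare (h : Hy p a4 a6) (hP : Irreducible P)
    (hm : Odd (multiplicity P (hasseInv p a4 a6))) (hD : ¬ P ∣ Dc a4 a6) :
    Tendsto (fun N : ℕ => ({x | x ∈ ASW.Fam (hasseInv p a4 a6 * Dc a4 a6) N ∧
      ¬ BadD a4 a6 p (algebraMap k[X] (RatFunc k) x.1 / algebraMap k[X] _ x.2)}.ncard : ℝ) /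
        (ASW.Fam (hasseInv p a4 a6 * Dc a4 a6) N).ncard) atTop (𝓝 1) := by
  obtain ⟨v, hv, ha⟩ := exists_pl hP
  have h5 := h.five
  have hm' : Odd (multiplicity (plp v) (hasseInv p a4 a6)) := by
    rwa [multiplicity_eq_of_associated_left ha.symm]
  have hF := mul_ne_zero h.A_ne h.disc
  have hA : Ari p (hasseInv p a4 a6) (hasseInv p a4 a6 * Dc a4 a6) v (vp0 a4 a6 p) :=
    ⟨h5, hF, dvd_mul_right _ _, hv, hm', h.vp0_ne, h.car_vp0, fun u hu => h.vp_int hu⟩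
  obtain ⟨B, hB⟩ := exists_TD h hv (dvd_of_multiplicity_pos hm'.pos) fun e => hD (ha.symm.dvd.trans e)
  have hq : 5 ≤ Fintype.card k := h5.trans (Nat.le_of_dvd Fintype.card_pos
    ((CharP.cast_eq_zero_iff k p _).1 (FiniteField.cast_card_eq_zero k)))
  have h2 : (2 : k) ≠ 0 := fun e => by
    have := Nat.le_of_dvd two_pos ((CharP.cast_eq_zero_iff k p 2).1 (by exact_mod_cast e))
    omega
  exact ASW.stat_main hq h2 h.A_ne hP hm hF
    (fun a b => BadD a4 a6 p (algebraMap k[X] (RatFunc k) a / algebraMap k[X] _ b))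
    (cos_main hA (sec2_of_TD hA hB))

theorem fam_d {F : k[X]} {N : ℕ} (hN : 1 ≤ N) {x : k[X] × k[X]} (hx : x ∈ ASW.Fam F N) :
    (∀ y : RatFunc k, y ^ p - y ≠ algebraMap k[X] (RatFunc k) x.1 / algebraMap k[X] _ x.2) ∧
    (∀ v, av v (algebraMap k[X] (RatFunc k) x.1 / algebraMap k[X] _ x.2) ≤ 2) ∧
    ∀ v, v = none ∨ ¬ plp v ∣ x.2 →
      av v (algebraMap k[X] (RatFunc k) x.1 / algebraMap k[X] _ x.2) ≤ 1 := by
  obtain ⟨h1, h2, h3, -, h5, h6⟩ := hx
  obtain ⟨k1, k2, k3⟩ := FSet_frac (a := x.1) h2 (by rwa [degree_eq_natDegree h1.ne_zero, h3])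
  refine ⟨fun y hy => ?_, k1, k3⟩
  have h7 := (div_eq_zero_iff.1 (as_zero k1 k2 hy)).resolve_right (PF_ne h1.ne_zero)
  rw [(map_eq_zero_iff _ (IsFractionRing.injective _ _)).1 h7, isCoprime_zero_left] at h5
  have := natDegree_eq_zero_of_isUnit h5
  omega

theorem tendsto_of_imp {F : k[X]} {B G : k[X] × k[X] → Prop}
    (h : Tendsto (fun N : ℕ => ({x | x ∈ ASW.Fam F N ∧ B x}.ncard : ℝ) / (ASW.Fam F N).ncard)
      atTop (𝓝 1)) (hBG : ∀ N, 1 ≤ N → ∀ x ∈ ASW.Fam F N, B x → G x) :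
    Tendsto (fun N : ℕ => ({x | x ∈ Prs F N ∧ G x}.ncard : ℝ) / (Prs F N).ncard) atTop (𝓝 1) := by
  have e : ∀ N, Prs F N = ASW.Fam F N := fun N => Set.ext fun x =>
    ⟨fun h => ⟨h.1, h.2.2.1, h.2.1, h.2.2.2⟩, fun h => ⟨h.1, h.2.2.1, h.2.1, h.2.2.2⟩⟩
  simp only [e]
  refine tendsto_of_tendsto_of_tendsto_of_le_of_le' h tendsto_const_nhds ?_
    (Eventually.of_forall fun N => div_le_one_of_le₀ (Nat.cast_le.2
      (Set.ncard_le_ncard (fun x hx => hx.1) (ASW.fin_fam F N))) (Nat.cast_nonneg _))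
  filter_upwards [eventually_ge_atTop 1] with N hN
  exact div_le_div_of_nonneg_right (Nat.cast_le.2 (Set.ncard_le_ncard
    (fun x hx => ⟨hx.1, hBG N hN x hx.1 hx.2⟩) ((ASW.fin_fam F N).subset fun x hx => hx.1)))
    (Nat.cast_nonneg _)

end Pool.Agent.ASel
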