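import Pool.Agent.Work.MP_60d5ce_nt.AS.SStr
import Pool.Agent.Work.MP_60d5ce_nt.AS.SFam

/-!
# From cosets to the density  (AS, section 5)

Plan.  Fix `ε`; `m` with `m ^ (4 a) ≤ N < (m + 1) ^ (4 a)` (`Nat.find`, or `Nat.nthRoot`).  For `b'` choose (as a function of `b'` only) `v` and `Bad b'` when they exist.
A pair `(a, b)` of the family with `Grow a b` is of one of three kinds.  (1) `¬ Str A K a m b`: at most `ε q ^ N * q ^ N` (`str_most`).  Otherwise choose `P = P b`,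
`b = b' * P` (`P` is none of the `v i` since `m ^ (2 a) ≤ m ^ (3 a)`, so `b'` has the medium primes, `om b' ≤ m`), and write `a = a' * P + a'' * b'` with small degrees.
(2) `P ∈ Bad b' a'`: the triples `(b', a', P, a'')` with `deg P = n > m ^ (3 a)` number at most
`∑ n, q ^ (N - n) * q ^ (N - n) * q ^ (C m ^ (2 a)) * (N + 1) * q ^ n`, which is `o (q ^ (2 N))`.
(3) otherwise: for fixed `b` the set of such `a` meets each coset of `E` in the group of polynomials of degree `< N` in at most `ε * card E` points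
(if it is not empty take `a0` in it), so has at most `ε q ^ N` points.  Divide by `fam_lower`.
-/

set_option linter.unusedSectionVars false

namespace Pool.Agent.ASW

open Polynomial Filter Topology

variable {k : Type} [Field k] [Fintype k]

/-- the hypothesis on cosets -/
def Cos (A Δ : k[X]) (Grow : k[X] → k[X] → Prop) (ε : ℝ) (K a C m : ℕ) : Prop :=
  ∀ (b' : k[X]) (v : Fin K → k[X]), b'.Monic → Squarefree b' → IsCoprime b' Δ → om b' ≤ m →
    Function.Injective v → (∀ i, Prm (v i) ∧ v i ∣ b' ∧ NS A (v i) ∧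
      m ^ a < (v i).natDegree ∧ (v i).natDegree ≤ m ^ (2 * a)) →
    ∃ Bad : k[X] → Set k[X], (∀ a', (Bad a').Finite ∧
        (Bad a').ncard ≤ Fintype.card k ^ (C * m ^ (2 * a)) * (b'.natDegree + 1)) ∧
      ∀ P, Prm P → ¬ P ∣ b' → IsCoprime P Δ → NS A P →
        ∃ E : AddSubgroup k[X], (∀ e ∈ E, e.degree < (b' * P).degree) ∧
          ∀ a' a'' : k[X], a'.degree < b'.degree → a''.degree < P.degree →
            IsCoprime (a' * P + a'' * b') (b' * P) → P ∉ Bad a' →
            ({e | e ∈ E ∧ IsCoprime (a' * P + a'' * b' + e) (b' * P) ∧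
              Grow (a' * P + a'' * b' + e) (b' * P)}.ncard : ℝ) ≤ ε * Nat.card E

theorem SMain_card {α : Type} {s : Set α} (hs : s.Finite) : hs.toFinset.card = s.ncard :=
  (Set.ncard_eq_toFinset_card s hs).symm

/-- A set that is thin in every coset is thin. -/
theorem SMain_coset {G : Type} [AddCommGroup G] {V T : Set G} (hV : V.Finite) (E : AddSubgroup G)
    (hE : (E : Set G).Finite) (hVE : ∀ v ∈ V, ∀ e ∈ E, v + e ∈ V) (hT : T ⊆ V) {ε : ℝ}
    (hε : 0 ≤ ε) (h : ∀ a ∈ T, ({e | e ∈ E ∧ a + e ∈ T}.ncard : ℝ) ≤ ε * Nat.card E) :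
    (T.ncard : ℝ) ≤ ε * V.ncard := by
  classical
  have hT' := hV.subset hT
  have e0 : Nat.card E = (E : Set G).ncard := rfl
  have p0 : (0 : ℝ) < Nat.card E := by
    rw [e0]
    exact_mod_cast (Set.ncard_pos hE).2 ⟨0, E.zero_mem⟩
  have key := Finset.card_nsmul_le_card_nsmul (fun t v : G => v - t ∈ E) (s := hT'.toFinset)
    (t := hV.toFinset) (m := (Nat.card E : ℝ)) (n := ε * Nat.card E) (fun a ha => ?_) fun v hv => ?_
  · rw [nsmul_eq_mul, nsmul_eq_mul, SMain_card, SMain_card,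
      ← mul_assoc, mul_comm _ ε] at key
    exact le_of_mul_le_mul_right key p0
  · rw [e0, ← Set.ncard_coe_finset, Nat.cast_le]
    refine Set.ncard_le_ncard_of_injOn (fun e => a + e) (fun e he => ?_)
      (add_right_injective a).injOn (Finset.finite_toSet _)
    rw [Finset.mem_coe, Finset.mem_bipartiteAbove, Set.Finite.mem_toFinset, add_sub_cancel_left]
    exact ⟨hVE a (hT (hT'.mem_toFinset.1 ha)) e he, he⟩
  · rcases (Finset.bipartiteBelow (fun t v : G => v - t ∈ E) hT'.toFinset v).eq_empty_or_nonempty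
      with h0 | ⟨a, ha⟩
    · rw [h0, Finset.card_empty, Nat.cast_zero]
      positivity
    rw [Finset.mem_bipartiteBelow, Set.Finite.mem_toFinset] at ha
    refine le_trans ?_ (h a ha.1)
    rw [← Set.ncard_coe_finset, Nat.cast_le]
    refine Set.ncard_le_ncard_of_injOn (fun t => t - a) (fun t ht => ?_)
      (sub_left_injective).injOn (hE.subset fun e he => he.1)
    rw [Finset.mem_coe, Finset.mem_bipartiteBelow, Set.Finite.mem_toFinset] at ht
    refine ⟨?_, by rw [add_sub_cancel]; exact ht.1⟩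
    have := E.sub_mem ha.2 ht.2
    rwa [sub_sub_sub_cancel_left] at this

theorem SMain_fiber {α β : Type} {S : Set (α × β)} (hS : S.Finite) (M : Finset β)
    (hM : ∀ d ∈ S, d.2 ∈ M) : S.ncard ≤ ∑ b ∈ M, {a | (a, b) ∈ S}.ncard := by
  classical
  rw [Set.ncard_eq_toFinset_card S hS, Finset.card_eq_sum_card_fiberwise (f := Prod.snd) (t := M)
    fun d hd => hM d (hS.mem_toFinset.1 hd)]
  refine Finset.sum_le_sum fun b _ => ?_
  rw [← Set.ncard_coe_finset]
  refine Set.ncard_le_ncard_of_injOn Prod.fst (fun d hd => ?_) (fun d hd d' hd' e => ?_)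
    (hS.preimage (f := fun a => (a, b)) (Prod.mk_left_injective b).injOn)
  · obtain ⟨h1, rfl⟩ := Finset.mem_filter.1 (Finset.mem_coe.1 hd)
    exact hS.mem_toFinset.1 h1
  · exact Prod.ext e ((Finset.mem_filter.1 (Finset.mem_coe.1 hd)).2.trans
      (Finset.mem_filter.1 (Finset.mem_coe.1 hd')).2.symm)

theorem SMain_split {b P a : k[X]} (hb : b.Monic) (hP : P.Monic) (hc : IsCoprime P b)
    (ha : a.degree < (b * P).degree) :
    ∃ a' a'' : k[X], a'.degree < b.degree ∧ a''.degree < P.degree ∧ a = a' * P + a'' * b := by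
  obtain ⟨u, w, e⟩ := hc
  have e1 := modByMonic_add_div (a * u) b
  have d1 := degree_modByMonic_lt (a * u) hb
  have e2 : b * (a * w + (a * u) /ₘ b * P) = a - (a * u) %ₘ b * P := by
    linear_combination a * e + P * e1
  refine ⟨(a * u) %ₘ b, a * w + (a * u) /ₘ b * P, d1, ?_, by linear_combination -e2⟩
  rw [← WithBot.add_lt_add_iff_left (degree_ne_bot.2 hb.ne_zero), ← degree_mul, ← degree_mul, e2]
  refine (degree_sub_le _ _).trans_lt (max_lt ha ?_)
  rw [degree_mul, degree_mul]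
  exact WithBot.add_lt_add_right (degree_ne_bot.2 hP.ne_zero) d1

/-- The pairs with a bad large prime are few. -/
theorem SMain_bad (Bad : k[X] → k[X] → Set k[X]) (B L N : ℕ)
    (hB : ∀ b a, (Bad b a).Finite ∧ (Bad b a).ncard ≤ B * (b.natDegree + 1)) :
    ∃ S : Finset (k[X] × k[X]),
      S.card ≤ N * (Fintype.card k ^ (N - L) * Fintype.card k ^ N * (B * (N + 1))) ∧
      ∀ b P a' a'' : k[X], b.Monic → P.Monic → L < P.natDegree → (b * P).natDegree = N →
        a'.degree < b.degree → a''.degree < P.degree → P ∈ Bad b a' →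
        (a' * P + a'' * b, b * P) ∈ S := by
  classical
  have q0 : 0 < Fintype.card k := Fintype.card_pos
  refine ⟨(Finset.Ioc L N).biUnion fun n => (fin_mon (k := k) (N - n)).toFinset.biUnion fun b =>
    (fin_lt (k := k) (N - n)).toFinset.biUnion fun a' => (hB b a').1.toFinset.biUnion fun P =>
      (fin_lt (k := k) n).toFinset.image fun a'' => (a' * P + a'' * b, b * P), ?_, ?_⟩
  · refine (Finset.card_biUnion_le_card_mul _ _ _ fun n hn => ?_).trans
      (Nat.mul_le_mul_right _ (by simp))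
    obtain ⟨n1, n2⟩ := Finset.mem_Ioc.1 hn
    refine (Finset.card_biUnion_le_card_mul _ _
      (Fintype.card k ^ (N - n) * (B * (N + 1) * Fintype.card k ^ n)) fun b hb => ?_).trans ?_
    · refine (Finset.card_biUnion_le_card_mul _ _ (B * (N + 1) * Fintype.card k ^ n)
        fun a' _ => ?_).trans_eq (by rw [SMain_card, ncard_lt])
      refine (Finset.card_biUnion_le_card_mul _ _ (Fintype.card k ^ n) fun P _ => ?_).trans
        (Nat.mul_le_mul_right _ ?_)
      · exact Finset.card_image_le.trans_eq (by rw [SMain_card, ncard_lt])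
      · rw [SMain_card]
        refine (hB b a').2.trans (Nat.mul_le_mul_left _ ?_)
        have := ((fin_mon (k := k) (N - n)).mem_toFinset.1 hb).2
        omega
    · rw [SMain_card, ncard_mon]
      have e : Fintype.card k ^ N = Fintype.card k ^ (N - n) * Fintype.card k ^ n := by
        rw [← pow_add, Nat.sub_add_cancel n2]
      rw [e]
      refine (Nat.mul_le_mul_right _ (Nat.pow_le_pow_right q0 (by omega : N - n ≤ N - L))).trans_eq
        (by ring)
  · intro b P a' a'' hb hP h1 h2 h3 h4 h5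
    rw [hb.natDegree_mul hP] at h2
    simp only [Finset.mem_biUnion, Finset.mem_image, Set.Finite.mem_toFinset, Finset.mem_Ioc,
      Set.mem_ofPred_eq]
    refine ⟨P.natDegree, ⟨h1, by omega⟩, b, ⟨hb, by omega⟩, a', ?_, P, h5, a'', ?_, rfl⟩
    · rwa [show N - P.natDegree = b.natDegree by omega, ← degree_eq_natDegree hb.ne_zero]
    · rwa [← degree_eq_natDegree hP.ne_zero]

/-- The count for given `m` and `N`. -/
theorem SMain_count {A Δ : k[X]} {Grow : k[X] → k[X] → Prop} {ε : ℝ} (hε : 0 ≤ ε) {K a C m : ℕ}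
    (hm : 1 ≤ m) (H : Cos A Δ Grow ε K a C m) (N : ℕ) :
    ({d | d ∈ Fam Δ N ∧ Grow d.1 d.2}.ncard : ℝ) ≤
      (N * (Fintype.card k ^ (N - m ^ (3 * a)) * Fintype.card k ^ N *
        (Fintype.card k ^ (C * m ^ (2 * a)) * (N + 1))) : ℕ) +
      ((Fintype.card k : ℝ) ^ N * (ε * (Fintype.card k : ℝ) ^ N) +
        {b : k[X] | b.Monic ∧ b.natDegree = N ∧ ¬ Str A K a m b}.ncard *
          (Fintype.card k : ℝ) ^ N) := by
  classical
  have hC : ∀ b' : k[X], ∃ Bad : k[X] → Set k[X], (∀ a', (Bad a').Finite ∧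
      (Bad a').ncard ≤ Fintype.card k ^ (C * m ^ (2 * a)) * (b'.natDegree + 1)) ∧
      ((b'.Monic ∧ Squarefree b' ∧ IsCoprime b' Δ ∧ om b' ≤ m ∧ ∃ v : Fin K → k[X],
        Function.Injective v ∧ ∀ i, Prm (v i) ∧ v i ∣ b' ∧ NS A (v i) ∧
          m ^ a < (v i).natDegree ∧ (v i).natDegree ≤ m ^ (2 * a)) →
      ∀ P, Prm P → ¬ P ∣ b' → IsCoprime P Δ → NS A P →
        ∃ E : AddSubgroup k[X], (∀ e ∈ E, e.degree < (b' * P).degree) ∧
          ∀ a' a'' : k[X], a'.degree < b'.degree → a''.degree < P.degree →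
            IsCoprime (a' * P + a'' * b') (b' * P) → P ∉ Bad a' →
            ({e | e ∈ E ∧ IsCoprime (a' * P + a'' * b' + e) (b' * P) ∧
              Grow (a' * P + a'' * b' + e) (b' * P)}.ncard : ℝ) ≤ ε * Nat.card E) := fun b' => by
    by_cases h : b'.Monic ∧ Squarefree b' ∧ IsCoprime b' Δ ∧ om b' ≤ m ∧ ∃ v : Fin K → k[X],
        Function.Injective v ∧ ∀ i, Prm (v i) ∧ v i ∣ b' ∧ NS A (v i) ∧
          m ^ a < (v i).natDegree ∧ (v i).natDegree ≤ m ^ (2 * a)
    · obtain ⟨h1, h2, h3, h4, v, h5, h6⟩ := h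
      obtain ⟨Bad, k1, k2⟩ := H b' v h1 h2 h3 h4 h5 h6
      exact ⟨Bad, k1, fun _ => k2⟩
    · exact ⟨fun _ => ∅, fun _ => ⟨Set.finite_empty, by simp⟩, fun h' => absurd h' h⟩
  choose Bad hB hE using hC
  obtain ⟨S, hS, hS'⟩ := SMain_bad Bad _ (m ^ (3 * a)) N hB
  set G := {d | d ∈ Fam Δ N ∧ Grow d.1 d.2} with hG
  have fG : G.Finite := (fin_fam Δ N).subset fun d hd => hd.1
  have s1 : G.ncard ≤ S.card + (G \ S).ncard := by
    rw [← Set.ncard_inter_add_ncard_sdiff_eq_ncard G S fG, ← Set.ncard_coe_finset]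
    exact Nat.add_le_add_right (Set.ncard_le_ncard Set.inter_subset_right S.finite_toSet) _
  have s2 := SMain_fiber (fG.subset Set.sdiff_subset : (G \ S).Finite) (fin_mon (k := k) N).toFinset
    fun d hd => (fin_mon N).mem_toFinset.2 ⟨hd.1.1.1, hd.1.1.2.2.1⟩
  have sub : ∀ b, {x | (x, b) ∈ G \ S} ⊆ {x : k[X] | x.degree < N} := fun b x hx =>
    hx.1.1.2.2.2.2.2
  have s3 : ∀ b, ({x | (x, b) ∈ G \ S}.ncard : ℝ) ≤ ε * (Fintype.card k : ℝ) ^ N +
      if Str A K a m b then 0 else (Fintype.card k : ℝ) ^ N := fun b => by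
    split_ifs with h
    swap
    · refine le_add_of_nonneg_of_le (by positivity) ?_
      exact_mod_cast (Set.ncard_le_ncard (sub b) (fin_lt N)).trans_eq (ncard_lt N)
    rcases Set.eq_empty_or_nonempty {x | (x, b) ∈ G \ S} with h0 | ⟨x, hx⟩
    · rw [h0, Set.ncard_empty, Nat.cast_zero]
      positivity
    obtain ⟨b1, b2, b3, b4, -, -⟩ := hx.1.1
    obtain ⟨h1, ⟨v, h2, h3⟩, P, h4, ⟨b', rfl⟩, h5, h6⟩ := h
    dsimp only at b1 b2 b3 b4
    have c1 : b'.Monic := h4.1.of_mul_monic_left b1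
    have c2 : ¬ P ∣ b' := fun c => h4.2.not_isUnit (b2 P (mul_dvd_mul_left P c))
    have c0 : om b' ≤ om (P * b') := by
      refine Set.ncard_le_ncard (fun Q hQ => ?_) (fin_prm b1.ne_zero)
      exact ⟨hQ.1, hQ.2.mul_left P⟩
    have dN : (b' * P).degree = N := by rw [mul_comm, degree_eq_natDegree b1.ne_zero, b3]
    obtain ⟨E, e1, e2⟩ := hE b' ⟨c1, b2.of_mul_right, b4.of_mul_left_right,
      c0.trans h1,
      v, h2, fun i => ⟨(h3 i).1, ((h3 i).1.2.prime.dvd_or_dvd (h3 i).2.1).resolve_left fun c => by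
        have c3 := natDegree_eq_of_degree_eq (degree_eq_degree_of_associated
          ((h3 i).1.2.associated_of_dvd h4.2 c))
        have c4 : m ^ (2 * a) ≤ m ^ (3 * a) := Nat.pow_le_pow_right hm (by omega)
        have := (h3 i).2.2.2.2
        omega, (h3 i).2.2⟩⟩ P h4 c2 b4.of_mul_left_left h5
    rw [dN] at e1
    have fE : (E : Set k[X]).Finite := (fin_lt N).subset e1
    have := SMain_coset (fin_lt N) E fE
      (fun y hy e he => (degree_add_le _ _).trans_lt (max_lt hy (e1 e he))) (sub (P * b')) hε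
      fun y hy => ?_
    · rw [ncard_lt, Nat.cast_pow] at this
      rwa [add_zero]
    obtain ⟨a', a'', d1, d2, rfl⟩ := SMain_split c1 h4.1 (h4.2.coprime_iff_not_dvd.2 c2)
      (dN ▸ sub _ hy : y.degree < (b' * P).degree)
    rw [mul_comm P b'] at hy b3 ⊢
    refine le_trans ?_ (e2 a' a'' d1 d2 hy.1.1.2.2.2.2.1
      fun c => hy.2 (hS' b' P a' a'' c1 h4.1 h6 b3 d1 d2 c))
    rw [Nat.cast_le]
    refine Set.ncard_le_ncard (fun e he => ?_) (fE.subset fun e he => he.1)
    exact ⟨he.1, he.2.1.1.2.2.2.2.1, he.2.1.2⟩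
  have s4 : ((G \ S).ncard : ℝ) ≤ ∑ b ∈ (fin_mon (k := k) N).toFinset,
      (ε * (Fintype.card k : ℝ) ^ N + if Str A K a m b then 0 else (Fintype.card k : ℝ) ^ N) :=
    le_trans (by exact_mod_cast s2) (Finset.sum_le_sum fun b _ => s3 b)
  rw [Finset.sum_add_distrib, Finset.sum_const, Finset.sum_ite, Finset.sum_const_zero, zero_add,
    Finset.sum_const, SMain_card, ncard_mon, nsmul_eq_mul, nsmul_eq_mul,
    Nat.cast_pow, ← Set.ncard_coe_finset] at s4
  have e : (((fin_mon (k := k) N).toFinset.filter fun b => ¬ Str A K a m b : Finset k[X]) :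
      Set k[X]) = {b : k[X] | b.Monic ∧ b.natDegree = N ∧ ¬ Str A K a m b} := by
    ext b
    simp only [Finset.coe_filter, Set.Finite.mem_toFinset, Set.mem_ofPred_eq, and_assoc]
  rw [e] at s4
  refine le_trans (by exact_mod_cast s1.trans (Nat.add_le_add_right hS _)) (add_le_add le_rfl s4)

theorem SMain_small {q : ℕ} (hq : 2 ≤ q) (C a : ℕ) (ha : 1 ≤ a) {ε : ℝ} (hε : 0 < ε) :
    ∃ m0 : ℕ, ∀ m ≥ m0, ∀ N, m ^ (4 * a) ≤ N → N < (m + 1) ^ (4 * a) →
      ((N * (q ^ (N - m ^ (3 * a)) * q ^ N * (q ^ (C * m ^ (2 * a)) * (N + 1))) : ℕ) : ℝ) ≤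
        ε * (q : ℝ) ^ N * (q : ℝ) ^ N := by
  have q1 : (1 : ℝ) < q := by exact_mod_cast hq
  have t := ((tendsto_pow_const_div_const_pow_of_one_lt (8 * a) q1).comp
    (tendsto_add_atTop_nat 1)).eventually (gt_mem_nhds (show 0 < ε / q by positivity))
  obtain ⟨m0, h0⟩ := eventually_atTop.1 t
  refine ⟨max m0 (C + 1), fun m hm N h1 h2 => ?_⟩
  have m1 : C + 1 ≤ m := le_of_max_le_right hm
  have a1 := h0 m (le_of_max_le_left hm)
  simp only [Function.comp] at a1
  rw [div_lt_div_iff₀ (by positivity) (by positivity), pow_succ, ← mul_assoc] at a1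
  have a2 : (((m + 1) ^ (8 * a) : ℕ) : ℝ) ≤ ε * q ^ m := by
    rw [Nat.cast_pow]
    exact (lt_of_mul_lt_mul_right a1 (by positivity)).le
  have a3 : N * (N + 1) ≤ (m + 1) ^ (8 * a) := by
    rw [show 8 * a = 4 * a + 4 * a by ring, pow_add]
    exact Nat.mul_le_mul h2.le h2
  have a4 : C * m ^ (2 * a) + m ≤ m ^ (3 * a) := by
    have b1 : m ≤ m ^ (2 * a) := Nat.le_self_pow (by omega) m
    have b2 : C + 1 ≤ m ^ a := m1.trans (Nat.le_self_pow (by omega) m)
    calc _ ≤ (C + 1) * m ^ (2 * a) := by rw [add_mul, one_mul]; omega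
      _ ≤ m ^ a * m ^ (2 * a) := Nat.mul_le_mul_right _ b2
      _ = _ := by rw [← pow_add]; ring_nf
  have a5 : m ^ (3 * a) ≤ N := (Nat.pow_le_pow_right (by omega) (by omega)).trans h1
  have a6 : (q : ℝ) ^ m * (q ^ (N - m ^ (3 * a)) * q ^ (C * m ^ (2 * a))) ≤ q ^ N := by
    rw [← pow_add, ← pow_add]
    exact pow_le_pow_right₀ q1.le (by omega)
  have a7 : ((N * (N + 1) : ℕ) : ℝ) ≤ ε * q ^ m := le_trans (by exact_mod_cast a3) a2
  calc _ = ((N * (N + 1) : ℕ) : ℝ) * (q ^ (N - m ^ (3 * a)) * q ^ (C * m ^ (2 * a))) * q ^ N := by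
        push_cast; ring
    _ ≤ ε * q ^ m * (q ^ (N - m ^ (3 * a)) * q ^ (C * m ^ (2 * a))) * q ^ N := by gcongr
    _ ≤ _ := by rw [mul_assoc ε]; gcongr

theorem stat_main (hq : 5 ≤ Fintype.card k) (h2 : (2 : k) ≠ 0) {A P0 Δ : k[X]} (hA : A ≠ 0)
    (hP : Irreducible P0) (hm : Odd (multiplicity P0 A)) (hΔ : Δ ≠ 0)
    (Grow : k[X] → k[X] → Prop)
    (H : ∀ ε : ℝ, 0 < ε → ∃ K a C m0 : ℕ, 1 ≤ a ∧ ∀ m ≥ m0, Cos A Δ Grow ε K a C m) :
    Tendsto (fun N : ℕ => ({d | d ∈ Fam Δ N ∧ ¬ Grow d.1 d.2}.ncard : ℝ) / (Fam Δ N).ncard)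
      atTop (𝓝 1) := by
  have q0 : (0 : ℝ) < Fintype.card k := by exact_mod_cast (by omega : 0 < Fintype.card k)
  have key : ∀ ε : ℝ, 0 < ε → ∀ᶠ N : ℕ in atTop, ({d | d ∈ Fam Δ N ∧ Grow d.1 d.2}.ncard : ℝ) ≤
      3 * ε * (Fintype.card k : ℝ) ^ (2 * N) := fun ε hε => by
    obtain ⟨K, a, C, m0, ha, h0⟩ := H ε hε
    obtain ⟨m1, h1⟩ := str_most h2 hA hP hm K a ha hε
    obtain ⟨m2, h3⟩ := SMain_small (show 2 ≤ Fintype.card k by omega) C a ha hε
    filter_upwards [eventually_ge_atTop ((m0 + m1 + m2 + 1) ^ (4 * a))] with N hN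
    have n1 : Nat.nthRoot (4 * a) N ^ (4 * a) ≤ N := Nat.pow_nthRoot_le (Or.inl (by omega))
    have n2 := Nat.lt_pow_nthRoot_add_one (show 4 * a ≠ 0 by omega) N
    generalize Nat.nthRoot (4 * a) N = m at n1 n2
    have n3 := lt_of_pow_lt_pow_left₀ _ (Nat.zero_le _) (hN.trans_lt n2)
    refine (SMain_count hε.le (by omega) (h0 m (by omega)) N).trans ?_
    have a1 := mul_le_mul_of_nonneg_right (h1 m (by omega) N n1 n2) (pow_pos q0 N).le
    have a2 := h3 m (by omega) N n1 n2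
    rw [two_mul N, pow_add _ N N]
    linarith
  obtain ⟨c, c0, N0, hc⟩ := fam_lower hq hΔ
  have p0 : ∀ N ≥ N0, (0 : ℝ) < (Fam Δ N).ncard := fun N hN =>
    lt_of_lt_of_le (by positivity) (hc N hN)
  have t : Tendsto (fun N : ℕ => ({d | d ∈ Fam Δ N ∧ Grow d.1 d.2}.ncard : ℝ) / (Fam Δ N).ncard)
      atTop (𝓝 0) := by
    refine tendsto_order.2 ⟨fun δ hδ => Eventually.of_forall fun N => hδ.trans_le (by positivity),
      fun δ hδ => ?_⟩
    filter_upwards [key (δ * c / 4) (by positivity), eventually_ge_atTop N0] with N h1 h3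
    rw [div_lt_iff₀ (p0 N h3)]
    have a1 := mul_le_mul_of_nonneg_left (hc N h3) hδ.le
    have a2 : 0 < δ * c * (Fintype.card k : ℝ) ^ (2 * N) := by positivity
    linarith
  have t' := t.const_sub 1
  rw [sub_zero] at t'
  refine t'.congr' ?_
  filter_upwards [eventually_ge_atTop N0] with N hN
  have e := Set.ncard_inter_add_ncard_sdiff_eq_ncard (Fam Δ N) {d | Grow d.1 d.2} (fin_fam Δ N)
  rw [eq_div_iff (p0 N hN).ne', sub_mul, one_mul, div_mul_cancel₀ _ (p0 N hN).ne',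
    sub_eq_iff_eq_add']
  exact_mod_cast e.symm

end Pool.Agent.ASW
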