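import Pool.Agent.Work.MP_60d5ce_nt.AS.STk
import Pool.Agent.Work.MP_60d5ce_nt.AS.SNs

/-!
# Almost all `b` have the prime factors that are needed  (AS, section 5)

Plan.  Three bad events.  `om_le` with `log N ≤ 4 a log (m + 1)`.  `few_le` for the primes with `NS A P` of degree in `(m ^ a, m ^ (2 a)]`
(`2 m ^ (2 a) ≤ m ^ (4 a) ≤ N`) and in `(m ^ (3 a), m ^ (4 a) / 2]`; by `ns_lower` the mass of such primes with degree in `(Y, Y']` is at least
`∑ 1 / (4 n)` over the multiples `n` of `d0` in `(Y, Y']`, which tends to infinity when `Y' / Y` and `Y` do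
(for instance by dyadic blocks: the multiples of `d0` in `(Z, 2 Z]` give at least `1 / (16 d0)` when `Z ≥ 2 d0`).
-/

set_option linter.unusedSectionVars false

namespace Pool.Agent.ASW

open Polynomial

variable {k : Type} [Field k]

/-- few prime factors, `K` of medium size and one large, with `A` not a square -/
def Str (A : k[X]) (K a m : ℕ) (b : k[X]) : Prop :=
  om b ≤ m ∧ (∃ v : Fin K → k[X], Function.Injective v ∧ ∀ i, Prm (v i) ∧ v i ∣ b ∧ NS A (v i) ∧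
    m ^ a < (v i).natDegree ∧ (v i).natDegree ≤ m ^ (2 * a)) ∧
  ∃ P, Prm P ∧ P ∣ b ∧ NS A P ∧ m ^ (3 * a) < P.natDegree

variable [Fintype k]

theorem SStr_harm {Y : ℕ} (hY : 0 < Y) (t : ℕ) :
    (t : ℝ) / 2 ≤ ∑ j ∈ Finset.Ioc Y (2 ^ t * Y), (j : ℝ)⁻¹ := by
  induction t with
  | zero => simp
  | succ t ih =>
    have h0 : 0 < 2 ^ t * Y := by positivity
    have h1 : Y ≤ 2 ^ t * Y := Nat.le_mul_of_pos_left _ (by positivity)
    rw [pow_succ', mul_assoc]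
    generalize 2 ^ t * Y = Z at *
    have h2 := Finset.card_nsmul_le_sum (Finset.Ioc Z (2 * Z)) (fun j => (j : ℝ)⁻¹) (2 * Z : ℝ)⁻¹
      fun j hj => by
        obtain ⟨h3, h4⟩ := Finset.mem_Ioc.1 hj
        exact inv_anti₀ (by exact_mod_cast h0.trans h3) (by exact_mod_cast h4)
    have h3 : (0 : ℝ) < Z := by exact_mod_cast h0
    rw [Nat.card_Ioc, show 2 * Z - Z = Z by omega, nsmul_eq_mul,
      show (Z : ℝ) * (2 * Z : ℝ)⁻¹ = 1 / 2 by field_simp] at h2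
    rw [← Finset.sum_Ioc_consecutive _ h1 (by omega : Z ≤ 2 * Z)]
    push_cast
    linarith

theorem SStr_mass {p : k[X] → Prop} {d0 n0 : ℕ} (hd : 0 < d0) (h : ∀ n ≥ n0, d0 ∣ n →
    Fintype.card k ^ n ≤ 4 * n * {P : k[X] | Prm P ∧ p P ∧ P.natDegree = n}.ncard) (R : ℝ) :
    ∃ L Y0 : ℕ, ∀ Y ≥ Y0, ∀ Y' ≥ L * Y, ∃ S : Finset k[X],
      (∀ P ∈ S, Prm P ∧ p P ∧ Y < P.natDegree ∧ P.natDegree ≤ Y') ∧
        R ≤ ∑ P ∈ S, ((Fintype.card k : ℝ) ^ P.natDegree)⁻¹ := by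
  classical
  obtain ⟨t, ht⟩ := exists_nat_ge (8 * d0 * R)
  refine ⟨d0 * 2 ^ t, n0 + 1, fun Y hY Y' hY' => ?_⟩
  have hf : ∀ n, {P : k[X] | Prm P ∧ p P ∧ P.natDegree = n}.Finite := fun n =>
    (fin_mon n).subset fun P hP => ⟨hP.1.1, hP.2.2⟩
  have hd' : (0 : ℝ) < d0 := by exact_mod_cast hd
  refine ⟨(Finset.Ioc Y (2 ^ t * Y)).biUnion fun j => (hf (d0 * j)).toFinset, fun P hP => ?_, ?_⟩
  · obtain ⟨j, hj, hP⟩ := Finset.mem_biUnion.1 hP
    obtain ⟨h1, h2, h3⟩ := (Set.Finite.mem_toFinset _).1 hP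
    obtain ⟨h4, h5⟩ := Finset.mem_Ioc.1 hj
    exact ⟨h1, h2, h3 ▸ h4.trans_le (Nat.le_mul_of_pos_left _ hd),
      h3 ▸ (Nat.mul_le_mul_left _ h5).trans (mul_assoc d0 _ _ ▸ hY')⟩
  rw [Finset.sum_biUnion fun i _ j _ hij => Finset.disjoint_left.2 fun P h1 h2 => hij
    (Nat.eq_of_mul_eq_mul_left hd (((Set.Finite.mem_toFinset _).1 h1).2.2.symm.trans
      ((Set.Finite.mem_toFinset _).1 h2).2.2))]
  have h1 := mul_le_mul_of_nonneg_left (SStr_harm (show 0 < Y by omega) t)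
    (show (0 : ℝ) ≤ (4 * d0 : ℝ)⁻¹ by positivity)
  rw [Finset.mul_sum] at h1
  refine le_trans ?_ (h1.trans (Finset.sum_le_sum fun j hj => ?_))
  · rw [le_inv_mul_iff₀ (by positivity)]
    linarith
  have h2 := (Finset.mem_Ioc.1 hj).1
  have h3 : ((Fintype.card k : ℝ)) ^ (d0 * j) ≤
      4 * (d0 * j) * {P : k[X] | Prm P ∧ p P ∧ P.natDegree = d0 * j}.ncard := by
    exact_mod_cast h _ (le_trans (by omega) (Nat.le_mul_of_pos_left j hd)) (dvd_mul_right _ _)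
  have h4 : (0 : ℝ) < j := by exact_mod_cast (show 0 < j by omega)
  have h5 : (0 : ℝ) < Fintype.card k := by exact_mod_cast Fintype.card_pos
  rw [Finset.sum_congr rfl fun P hP => by rw [((Set.Finite.mem_toFinset _).1 hP).2.2],
    Finset.sum_const, ← Set.ncard_eq_toFinset_card _ (hf _), nsmul_eq_mul, ← mul_inv, ← div_eq_mul_inv,
    le_div_iff₀ (by positivity), inv_mul_le_iff₀ (by positivity), mul_assoc 4]
  exact h3

theorem SStr_few {p : k[X] → Prop} {d0 n0 : ℕ} (hd : 0 < d0) (h : ∀ n ≥ n0, d0 ∣ n →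
    Fintype.card k ^ n ≤ 4 * n * {P : k[X] | Prm P ∧ p P ∧ P.natDegree = n}.ncard) (K : ℕ) {ε : ℝ}
    (hε : 0 < ε) : ∃ L Y0 : ℕ, ∀ Y ≥ Y0, ∀ Y' ≥ L * Y, ∀ N ≥ 2 * Y',
      ({b : k[X] | b.Monic ∧ b.natDegree = N ∧ ¬ ∃ v : Fin K → k[X], Function.Injective v ∧
        ∀ i, Prm (v i) ∧ v i ∣ b ∧ p (v i) ∧ Y < (v i).natDegree ∧
          (v i).natDegree ≤ Y'}.ncard : ℝ) ≤ ε * (Fintype.card k : ℝ) ^ N := by
  classical
  obtain ⟨L, Y0, h1⟩ := SStr_mass hd h (max (2 * K) (4 / ε))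
  refine ⟨L, Y0, fun Y hY Y' hY' N hN => ?_⟩
  obtain ⟨S, hS, hR⟩ := h1 Y hY Y' hY'
  have h2 := few_le N K S (fun P hP => ⟨(hS P hP).1, by have := (hS P hP).2.2.2; omega⟩) rfl
    ((le_max_left _ _).trans hR)
  have h3 := (mul_le_mul_of_nonneg_right ((le_max_right _ _).trans hR) (Nat.cast_nonneg _)).trans h2
  rw [div_mul_eq_mul_div, div_le_iff₀ hε] at h3
  refine le_trans (Nat.cast_le.2 (Set.ncard_le_ncard (fun b hb => ?_) ((fin_mon N).subset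
    fun b hb => ⟨hb.1, hb.2.1⟩) (t := {b : k[X] | b.Monic ∧ b.natDegree = N ∧
      {P | P ∈ S ∧ P ∣ b}.ncard < K}))) (by linarith)
  refine ⟨hb.1, hb.2.1, not_le.1 fun hK => hb.2.2 ?_⟩
  rw [← Finset.coe_filter, Set.ncard_coe_finset] at hK
  refine ⟨fun i => ((S.filter (· ∣ b)).equivFin.symm (Fin.castLE hK i)).1, fun i j e =>
    Fin.castLE_injective hK ((Equiv.injective _) (Subtype.ext e)), fun i => ?_⟩
  obtain ⟨h4, h5⟩ := Finset.mem_filter.1 ((S.filter (· ∣ b)).equivFin.symm (Fin.castLE hK i)).2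
  exact ⟨(hS _ h4).1, h5, (hS _ h4).2⟩

theorem SStr_om (a : ℕ) {ε : ℝ} (hε : 0 < ε) : ∃ m0 : ℕ, ∀ m ≥ m0, ∀ N, 0 < N → N < (m + 1) ^ a →
    ({b : k[X] | b.Monic ∧ b.natDegree = N ∧ m < om b}.ncard : ℝ) ≤
      ε * (Fintype.card k : ℝ) ^ N := by
  obtain ⟨x, hx⟩ := Filter.eventually_atTop.1
    (Real.isLittleO_log_id_atTop.bound (show 0 < ε / (4 * (a + 1)) by positivity))
  obtain ⟨m0, h0⟩ := exists_nat_ge (max x (2 / ε))
  refine ⟨m0 + 1, fun m hm N hN hN' => ?_⟩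
  have h1 : (m0 + 1 : ℝ) ≤ m := by exact_mod_cast hm
  have h2 : (0 : ℝ) ≤ m0 := Nat.cast_nonneg _
  have h3 := (le_abs_self _).trans (hx (m + 1) (by linarith [le_max_left x (2 / ε)]))
  rw [id, Real.norm_of_nonneg (by linarith), div_mul_eq_mul_div, le_div_iff₀ (by positivity)] at h3
  have h4 : Real.log N ≤ a * Real.log (m + 1) := by
    rw [← Real.log_pow]
    exact Real.log_le_log (by exact_mod_cast hN) (by exact_mod_cast hN'.le)
  have h5 : 2 ≤ m * ε := (div_le_iff₀ hε).1 (by linarith [le_max_right x (2 / ε)])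
  have h6 : 0 ≤ Real.log (m + 1) := Real.log_nonneg (by linarith)
  have h7 : 1 + Real.log N ≤ m * ε := by nlinarith
  refine le_of_mul_le_mul_left ((om_le N m).trans ?_) (show (0 : ℝ) < m by linarith)
  rw [← mul_assoc]
  exact mul_le_mul_of_nonneg_right h7 (by positivity)

theorem str_most (h2 : (2 : k) ≠ 0) {A P0 : k[X]} (hA : A ≠ 0) (hP : Irreducible P0)
    (hm : Odd (multiplicity P0 A)) (K a : ℕ) (ha : 1 ≤ a) {ε : ℝ} (hε : 0 < ε) :
    ∃ m0 : ℕ, ∀ m ≥ m0, ∀ N, m ^ (4 * a) ≤ N → N < (m + 1) ^ (4 * a) →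
      ({b : k[X] | b.Monic ∧ b.natDegree = N ∧ ¬ Str A K a m b}.ncard : ℝ) ≤
        ε * (Fintype.card k : ℝ) ^ N := by
  obtain ⟨d0, n0, hd, h⟩ := ns_lower h2 hA hP hm
  have h3 : 0 < ε / 3 := by positivity
  obtain ⟨m1, e1⟩ := SStr_om (k := k) (4 * a) h3
  obtain ⟨L2, Y2, e2⟩ := SStr_few hd h K h3
  obtain ⟨L3, Y3, e3⟩ := SStr_few hd h 1 h3
  refine ⟨m1 + L2 + Y2 + 2 * L3 + Y3 + 2, fun m hm N hN hN' => ?_⟩
  have hp : ∀ j, 1 ≤ j → m ≤ m ^ (j * a) := fun j hj =>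
    Nat.le_self_pow (Nat.mul_pos hj ha).ne' m
  have p1 := hp 1 le_rfl
  have p2 := hp 2 one_le_two
  have p3 := hp 3 (by norm_num)
  have p4 := hp 4 (by norm_num)
  rw [one_mul] at p1
  have b1 := e1 m (by omega) N (by omega) hN'
  have b2 := e2 (m ^ a) (by omega) (m ^ (2 * a))
    (by rw [two_mul, pow_add]; exact Nat.mul_le_mul_right _ (by omega)) N
    (le_trans (by rw [show 4 * a = 2 * a + 2 * a by ring, pow_add]
                  exact Nat.mul_le_mul_right _ (by omega)) hN)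
  have b3 := e3 (m ^ (3 * a)) (by omega) _ le_rfl N
    (le_trans (by rw [show 4 * a = a + 3 * a by ring, pow_add, ← mul_assoc]
                  exact Nat.mul_le_mul_right _ (by omega)) hN)
  have hf : ∀ p : k[X] → Prop, {b : k[X] | b.Monic ∧ b.natDegree = N ∧ p b}.Finite := fun p =>
    (fin_mon N).subset fun b hb => ⟨hb.1, hb.2.1⟩
  refine le_trans ?_ ((add_le_add (add_le_add b1 b2) b3).trans_eq (by ring))
  rw [← Nat.cast_add, ← Nat.cast_add, Nat.cast_le]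
  refine (Set.ncard_le_ncard (fun b hb => ?_) (((hf _).union (hf _)).union (hf _))).trans
    ((Set.ncard_union_le _ _).trans (Nat.add_le_add_right (Set.ncard_union_le _ _) _))
  by_contra hc
  simp only [Set.mem_union, Set.mem_ofPred_eq, hb.1, hb.2.1, true_and, not_or, not_not, not_lt] at hc
  obtain ⟨v, -, hv⟩ := hc.2
  exact hb.2.2 ⟨hc.1.1, hc.1.2, v 0, (hv 0).1, (hv 0).2.1, (hv 0).2.2.1, (hv 0).2.2.2.1⟩

end Pool.Agent.ASW
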