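import Pool.Agent.Work.MP_60d5ce_nt.AS.EllL
import Pool.Agent.Work.MP_60d5ce_nt.AS.EllM
import Pool.Agent.Work.MP_60d5ce_nt.AS.EllO
import Pool.Agent.Work.MP_60d5ce_nt.AS.FDef
import Pool.Agent.Work.MP_60d5ce_nt.Asc.Basic

/-!
# Selmer groups of the Frobenius twists of `E`, inside `E(Kb)`

`Zs H n`: pairs `(ξ, Q)`, `ξ` a smooth cocycle on `H` with values of level `n`, `ξ - ∂ Q` killed by a power
of `p`, `ξ` locally split by points of level `n`.  `Bs H n`: the pairs `(∂ P, P + t)`.  `Amb H n` is the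
quotient of all pairs by `Bs H n`, `Sel H n` the image of `Zs H n`.  `Kap s a w`: the cocycle `(a, w)`
represents the `p`-torsion class `s`.

PLAN.  `ord_Kb`: `ord_exists` with `sc_Kb`, `der_poly`, `PB.der_map`; `hasseInv` commutes with ring maps.
`ord_Lb`: `Cmp.ord` along `exists_emb`.  Closure properties: two local splittings along the same `j`
add up; for `cj γ` use the embedding `j ∘ γ`.  `exists_vp0`: `Ord.exists_vp`; `ϖ = bk 1 t / zz t` is fixed by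
every `σ` (`σ t` is again of order `p`, `Cmp.bk_eq`, `zz_map`), `om_fix`.  `lev0_tors`: `Ord.manin`,
induction on `n`.
-/

namespace Pool.Agent.ASel

open Polynomial Pool.Agent.Smith Pool.Agent.ShaAsc WeierstrassCurve WeierstrassCurve.Affine
open scoped Classical

noncomputable section

variable {k : Type} [Field k]

/-- the curve `y ^ 2 = x ^ 3 + a4 x + a6` over `k(t)` -/
def Ew (a4 a6 : k[X]) : WeierstrassCurve (RatFunc k) :=
  ⟨0, 0, 0, algebraMap k[X] _ a4, algebraMap k[X] _ a6⟩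

/-- the curve over an extension field -/
abbrev Wm (a4 a6 : k[X]) (M : Type) [Field M] [Algebra (RatFunc k) M] : Affine M :=
  (Ew a4 a6).toAffine.baseChange M

/-- the discriminant -/
def Dc (a4 a6 : k[X]) : k[X] := 4 * a4 ^ 3 + 27 * a6 ^ 2

/-- hypotheses on the curve -/
structure Hy (p : ℕ) (a4 a6 : k[X]) : Prop where
  five : 5 ≤ p
  disc : Dc a4 a6 ≠ 0
  kap : 2 * a4 * derivative a6 ≠ 3 * derivative a4 * a6
  nsq : ∀ y : RatFunc k, y ^ (p - 1) ≠ pk _ (hasseInv p a4 a6)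

variable (a4 a6 : k[X])

/-- points over the algebraic closure -/
abbrev EK : Type := Pts (Ew a4 a6) (Kb k)

/-- the map on points induced by an embedding -/
def em {v : Pl k} (j : Kb k →ₐ[RatFunc k] Lb v) : EK a4 a6 →+ Pts (Ew a4 a6) (Lb v) :=
  Point.map (W' := (Ew a4 a6).toAffine) j

/-- conjugation of pairs -/
def cj (γ : Gk k) : (Gk k → EK a4 a6) × EK a4 a6 →+ (Gk k → EK a4 a6) × EK a4 a6 where
  toFun x := (fun σ => act _ γ (x.1 (γ⁻¹ * σ * γ)), act _ γ x.2)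
  map_zero' := by ext <;> simp
  map_add' x y := by ext <;> simp

variable {a4 a6}

/-- separable elements fixed by `H` -/
def KH (H : Subgroup (Gk k)) (x : Kb k) : Prop := x ∈ Om (RatFunc k) (Kb k) ∧ ∀ σ ∈ H, σ x = x

/-- local separable elements fixed by the decomposition group in `H` -/
def LH (H : Subgroup (Gk k)) (v : Pl k) (j : Kb k →ₐ[RatFunc k] Lb v) (y : Lb v) : Prop :=
  y ∈ Om (Lv v) (Lb v) ∧ ∀ τ : Lb v ≃ₐ[Lv v] Lb v, ∀ σ ∈ H, (∀ x, j (σ x) = τ (j x)) → τ y = y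

variable (p : ℕ) [Fintype k] [hp : Fact p.Prime] [CharP k p] (a4 a6)

/-- global points of level `n` -/
abbrev LG (n : ℕ) : AddSubgroup (EK a4 a6) := Lev p (Om (RatFunc k) (Kb k)) (Wm a4 a6 (Kb k)) n

/-- local points of level `n` -/
abbrev LL (v : Pl k) (n : ℕ) : AddSubgroup (Pts (Ew a4 a6) (Lb v)) :=
  Lev p (Om (Lv v) (Lb v)) (Wm a4 a6 (Lb v)) n

/-- the global differential of level `n` -/
abbrev bG (n : ℕ) (Q : EK a4 a6) : Kb k :=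
  bk p (Om (RatFunc k) (Kb k)) (tv k (Kb k)) (pk _ (hasseInv p a4 a6)) n Q

/-- the local differential of level `n` -/
abbrev bL (v : Pl k) (n : ℕ) (Q : Pts (Ew a4 a6) (Lb v)) : Lb v :=
  bk p (Om (Lv v) (Lb v)) (tv k (Lb v)) (pk _ (hasseInv p a4 a6)) n Q

/-- the conditions on Selmer pairs -/
def IsZ (H : Subgroup (Gk k)) (n : ℕ) (x : (Gk k → EK a4 a6) × EK a4 a6) : Prop :=
  (∀ σ ∈ H, x.1 σ ∈ LG a4 a6 p n) ∧
  (∀ σ ∈ H, ∀ τ ∈ H, x.1 (σ * τ) = x.1 σ + act _ σ (x.1 τ)) ∧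
  (∃ X : Finset (Kb k), ∀ σ ∈ H, (∀ y ∈ X, σ y = y) → x.1 σ = 0) ∧
  (∃ m : ℕ, ∀ σ ∈ H, p ^ m • (x.1 σ - (act _ σ x.2 - x.2)) = 0) ∧
  ∀ (v : Pl k) (j : Kb k →ₐ[RatFunc k] Lb v), ∃ R ∈ LL a4 a6 p v n,
    ∀ τ : Lb v ≃ₐ[Lv v] Lb v, ∀ σ ∈ H, (∀ y, j (σ y) = τ (j y)) →
      em a4 a6 j (x.1 σ) = act _ τ R - R

/-- the conditions on trivial pairs -/
def IsB (H : Subgroup (Gk k)) (n : ℕ) (x : (Gk k → EK a4 a6) × EK a4 a6) : Prop :=
  ∃ P ∈ LG a4 a6 p n, (∀ σ ∈ H, x.1 σ = act _ σ P - P) ∧ ∃ m : ℕ, p ^ m • (x.2 - P) = 0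

variable {p a4 a6}

theorem IsZ.sub {H : Subgroup (Gk k)} {n : ℕ} {x y : (Gk k → EK a4 a6) × EK a4 a6}
    (hx : IsZ a4 a6 p H n x) (hy : IsZ a4 a6 p H n y) : IsZ a4 a6 p H n (x - y) := by
  obtain ⟨a1, a2, ⟨X, a3⟩, ⟨m, a4'⟩, a5⟩ := hx
  obtain ⟨b1, b2, ⟨Y, b3⟩, ⟨m', b4⟩, b5⟩ := hy
  refine ⟨fun σ hσ => sub_mem (a1 σ hσ) (b1 σ hσ), fun σ hσ τ hτ => ?_, ⟨X ∪ Y, fun σ hσ e => ?_⟩,
    ⟨m + m', fun σ hσ => ?_⟩, fun v j => ?_⟩
  · simp only [Prod.fst_sub, Pi.sub_apply, map_sub, a2 σ hσ τ hτ, b2 σ hσ τ hτ]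
    abel
  · simp only [Prod.fst_sub, Pi.sub_apply]
    rw [a3 σ hσ fun y hy => e y (Finset.mem_union_left _ hy),
      b3 σ hσ fun y hy => e y (Finset.mem_union_right _ hy), sub_zero]
  · have e : (x - y).1 σ - (act _ σ (x - y).2 - (x - y).2) =
        (x.1 σ - (act _ σ x.2 - x.2)) - (y.1 σ - (act _ σ y.2 - y.2)) := by
      simp only [Prod.fst_sub, Prod.snd_sub, Pi.sub_apply, map_sub]
      abel
    rw [e, smul_sub, pow_add, mul_smul, mul_smul, b4 σ hσ, smul_comm, a4' σ hσ, smul_zero,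
      smul_zero, sub_zero]
  · obtain ⟨R, r1, r2⟩ := a5 v j
    obtain ⟨R', s1, s2⟩ := b5 v j
    refine ⟨R - R', sub_mem r1 s1, fun τ σ hσ e => ?_⟩
    simp only [Prod.fst_sub, Pi.sub_apply, map_sub, r2 τ σ hσ e, s2 τ σ hσ e]
    abel

theorem isZ_zero (H : Subgroup (Gk k)) (n : ℕ) : IsZ a4 a6 p H n 0 :=
  ⟨fun _ _ => zero_mem _, fun _ _ _ _ => by simp, ⟨∅, fun _ _ _ => rfl⟩, ⟨0, fun _ _ => by simp⟩,
    fun _ _ => ⟨0, zero_mem _, fun _ _ _ _ => by simp⟩⟩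

theorem IsB.sub {H : Subgroup (Gk k)} {n : ℕ} {x y : (Gk k → EK a4 a6) × EK a4 a6}
    (hx : IsB a4 a6 p H n x) (hy : IsB a4 a6 p H n y) : IsB a4 a6 p H n (x - y) := by
  obtain ⟨P, a1, a2, m, a3⟩ := hx
  obtain ⟨Q, b1, b2, m', b3⟩ := hy
  refine ⟨P - Q, sub_mem a1 b1, fun σ hσ => ?_, m + m', ?_⟩
  · simp only [Prod.fst_sub, Pi.sub_apply, map_sub, a2 σ hσ, b2 σ hσ]
    abel
  · have e : (x - y).2 - (P - Q) = (x.2 - P) - (y.2 - Q) := by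
      simp only [Prod.snd_sub]
      abel
    rw [e, smul_sub, pow_add, mul_smul, mul_smul, b3, smul_comm, a3, smul_zero, smul_zero, sub_zero]

theorem isB_zero (H : Subgroup (Gk k)) (n : ℕ) : IsB a4 a6 p H n 0 :=
  ⟨0, zero_mem _, fun _ _ => by simp, 0, by simp⟩

variable (p a4 a6)

/-- Selmer pairs -/
def Zs (H : Subgroup (Gk k)) (n : ℕ) : AddSubgroup ((Gk k → EK a4 a6) × EK a4 a6) :=
  AddSubgroup.ofSub {x | IsZ a4 a6 p H n x} ⟨0, isZ_zero H n⟩ fun _ hx _ hy => IsZ.sub hx hy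

/-- trivial pairs -/
def Bs (H : Subgroup (Gk k)) (n : ℕ) : AddSubgroup ((Gk k → EK a4 a6) × EK a4 a6) :=
  AddSubgroup.ofSub {x | IsB a4 a6 p H n x} ⟨0, isB_zero H n⟩ fun _ hx _ hy => IsB.sub hx hy

/-- all pairs modulo trivial pairs -/
abbrev Amb (H : Subgroup (Gk k)) (n : ℕ) : Type := ((Gk k → EK a4 a6) × EK a4 a6) ⧸ Bs a4 a6 p H n

/-- the Selmer group of level `n` -/
def Sel (H : Subgroup (Gk k)) (n : ℕ) : AddSubgroup (Amb a4 a6 p H n) :=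
  (Zs a4 a6 p H n).map (QuotientAddGroup.mk' _)

/-- the constant `ϖ` of level zero -/
def vp0 : RatFunc k := Classical.epsilon fun ϖ => ∀ P : EK a4 a6, p • P = 0 →
  bG a4 a6 p 1 P = zz p P * algebraMap _ _ ϖ

/-- the constant `ϖ` of level `n` -/
def vpk (n : ℕ) : RatFunc k := if n = 0 then vp0 a4 a6 p else 0

/-- `(a, w)` represents the class `s` -/
def Kap (H : Subgroup (Gk k)) (n : ℕ) (s : Amb a4 a6 p H n) (a w : Kb k) : Prop :=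
  ∃ (x : (Gk k → EK a4 a6) × EK a4 a6) (Q : EK a4 a6) (z : Kb k), (x : Amb a4 a6 p H n) = s ∧
    IsZ a4 a6 p H n x ∧ Q ∈ LG a4 a6 p (n + 1) ∧ (∃ m : ℕ, p ^ m • (x.2 - Q) = 0) ∧
    (∀ σ ∈ H, p • (x.1 σ - (act _ σ Q - Q)) = 0) ∧ z ∈ Om (RatFunc k) (Kb k) ∧
    (∀ σ ∈ H, σ z - z = -zz p (x.1 σ - (act _ σ Q - Q))) ∧
    a = z ^ p / pk _ (hasseInv p a4 a6) - z ∧
    w = bG a4 a6 p (n + 1) Q - z ^ p / pk _ (hasseInv p a4 a6) * algebraMap _ _ (vpk a4 a6 p n)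

/-- open subgroups that fix no point of order `p` -/
structure Opn (H : Subgroup (Gk k)) : Prop where
  opn : ∃ X : Finset (Kb k), ∀ σ : Gk k, (∀ y ∈ X, σ y = y) → σ ∈ H
  noT : ∀ t : EK a4 a6, p • t = 0 → (∀ σ ∈ H, act _ σ t = t) → t = 0

variable {p a4 a6}

theorem mem_Zs {H : Subgroup (Gk k)} {n : ℕ} {x : (Gk k → EK a4 a6) × EK a4 a6} :
    x ∈ Zs a4 a6 p H n ↔ IsZ a4 a6 p H n x := Iff.rfl

theorem mem_Bs {H : Subgroup (Gk k)} {n : ℕ} {x : (Gk k → EK a4 a6) × EK a4 a6} :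
    x ∈ Bs a4 a6 p H n ↔ IsB a4 a6 p H n x := Iff.rfl

theorem cmp_act (σ : Gk k) : Cmp (act (Ew a4 a6) σ) (σ : Kb k →+* Kb k) :=
  cmp_map (Ew a4 a6) σ.toAlgHom

theorem cmp_actL {v : Pl k} (τ : Lb v ≃ₐ[Lv v] Lb v) :
    Cmp (act (Ew a4 a6) τ) (τ : Lb v →+* Lb v) :=
  ⟨WeierstrassCurve.map_baseChange (Ew a4 a6) τ.toAlgHom, fun _ _ _ => ⟨_, rfl⟩⟩

theorem cmp_em {v : Pl k} (j : Kb k →ₐ[RatFunc k] Lb v) :
    Cmp (em a4 a6 j) (j : Kb k →+* Lb v) :=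
  cmp_map (Ew a4 a6) j

theorem em_act {v : Pl k} (j : Kb k →ₐ[RatFunc k] Lb v) {σ : Gk k} {τ : Lb v ≃ₐ[Lv v] Lb v}
    (h : ∀ y, j (σ y) = τ (j y)) (P : EK a4 a6) :
    em a4 a6 j (act _ σ P) = act _ τ (em a4 a6 j P) :=
  map_act j h P

theorem Wm_a4 (M : Type) [Field M] [Algebra (RatFunc k) M] : (Wm a4 a6 M).a₄ = pk M a4 := rfl

theorem Wm_a6 (M : Type) [Field M] [Algebra (RatFunc k) M] : (Wm a4 a6 M).a₆ = pk M a6 := rfl

theorem SelD_omL (v : Pl k) (a : RatFunc k) : algebraMap _ (Lb v) a ∈ Om (Lv v) (Lb v) :=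
  om_alg (algebraMap _ (Lv v) a)

theorem SelD_lev {M M' : Type} [Field M] [Field M'] [CharP M p] [CharP M' p] {W : Affine M}
    {W' : Affine M'} {s : W.Point →+ W'.Point} {f : M →+* M'} (h : Cmp s f) {S : Subfield M}
    {S' : Subfield M'} (hS : ∀ x ∈ S, f x ∈ S')
    (hW : W.a₁ ∈ S ∧ W.a₂ ∈ S ∧ W.a₃ ∈ S ∧ W.a₄ ∈ S) {n : ℕ} {P : W.Point}
    (hP : P ∈ Lev p S W n) : s P ∈ Lev p S' W' n := by
  intro _
  rw [h.xc_eq, h.yc_eq, ← map_pow, ← map_pow]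
  exact (hP hW).imp (hS _) (hS _)

theorem SelD_emom {v : Pl k} (j : Kb k →ₐ[RatFunc k] Lb v) {x : Kb k}
    (hx : x ∈ Om (RatFunc k) (Kb k)) : j x ∈ Om (Lv v) (Lb v) :=
  om_map (algebraMap (RatFunc k) (Lv v)) (j : Kb k →+* Lb v) (fun a => j.commutes a) hx

theorem pk_om (f : k[X]) : pk (Kb k) f ∈ Om (RatFunc k) (Kb k) := om_alg _

theorem pk_omL (v : Pl k) (f : k[X]) : pk (Lb v) f ∈ Om (Lv v) (Lb v) := SelD_omL v _

theorem lg_act {n : ℕ} (σ : Gk k) {P : EK a4 a6} (hP : P ∈ LG a4 a6 p n) :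
    act _ σ P ∈ LG a4 a6 p n :=
  SelD_lev (cmp_act σ) (fun _ hx => om_act σ hx) ⟨om_alg _, om_alg _, om_alg _, om_alg _⟩ hP

theorem ll_act {n : ℕ} {v : Pl k} (τ : Lb v ≃ₐ[Lv v] Lb v) {P : Pts (Ew a4 a6) (Lb v)}
    (hP : P ∈ LL a4 a6 p v n) : act _ τ P ∈ LL a4 a6 p v n :=
  SelD_lev (cmp_actL τ) (fun _ hx => om_act τ hx)
    ⟨SelD_omL v _, SelD_omL v _, SelD_omL v _, SelD_omL v _⟩ hP

theorem ll_em {n : ℕ} {v : Pl k} (j : Kb k →ₐ[RatFunc k] Lb v) {P : EK a4 a6}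
    (hP : P ∈ LG a4 a6 p n) : em a4 a6 j P ∈ LL a4 a6 p v n :=
  SelD_lev (cmp_em j) (fun _ hx => SelD_emom j hx) ⟨om_alg _, om_alg _, om_alg _, om_alg _⟩ hP

theorem IsB.isZ {H : Subgroup (Gk k)} {n : ℕ} {x : (Gk k → EK a4 a6) × EK a4 a6}
    (hx : IsB a4 a6 p H n x) : IsZ a4 a6 p H n x := by
  obtain ⟨P, a1, a2, m, a3⟩ := hx
  obtain ⟨X, hX⟩ := act_fix (K := RatFunc k) P
  refine ⟨fun σ hσ => ?_, fun σ hσ τ hτ => ?_, ⟨X, fun σ hσ e => ?_⟩, ⟨m, fun σ hσ => ?_⟩,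
    fun v j => ⟨em a4 a6 j P, ll_em j a1, fun τ σ hσ e => ?_⟩⟩
  · rw [a2 σ hσ]
    exact sub_mem (lg_act σ a1) a1
  · rw [a2 _ (mul_mem hσ hτ), a2 σ hσ, a2 τ hτ, act_mul, map_sub]
    abel
  · rw [a2 σ hσ, hX σ e, sub_self]
  · have e : x.1 σ - (act _ σ x.2 - x.2) = (x.2 - P) - act _ σ (x.2 - P) := by
      rw [a2 σ hσ, map_sub]
      abel
    rw [e, smul_sub, ← map_nsmul, a3, map_zero, sub_zero]
  · rw [a2 σ hσ, map_sub, em_act j e]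

theorem SelD_cj (γ σ : Gk k) (Q : EK a4 a6) :
    act _ γ (act _ (γ⁻¹ * σ * γ) Q) = act _ σ (act _ γ Q) := by
  rw [← act_mul, ← act_mul, ← mul_assoc, ← mul_assoc, mul_inv_cancel, one_mul]

theorem IsZ.cj {H : Subgroup (Gk k)} [H.Normal] {n : ℕ} {x : (Gk k → EK a4 a6) × EK a4 a6}
    (hx : IsZ a4 a6 p H n x) (γ : Gk k) : IsZ a4 a6 p H n (cj a4 a6 γ x) := by
  obtain ⟨a1, a2, ⟨X, a3⟩, ⟨m, a4'⟩, a5⟩ := hx
  have c : ∀ σ ∈ H, γ⁻¹ * σ * γ ∈ H := fun σ hσ => Subgroup.Normal.conj_mem' inferInstance σ hσ γ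
  refine ⟨fun σ hσ => lg_act γ (a1 _ (c σ hσ)), fun σ hσ τ hτ => ?_,
    ⟨X.image γ, fun σ hσ e => ?_⟩, ⟨m, fun σ hσ => ?_⟩, fun v j => ?_⟩
  · change act _ γ (x.1 (γ⁻¹ * (σ * τ) * γ)) =
      act _ γ (x.1 (γ⁻¹ * σ * γ)) + act _ σ (act _ γ (x.1 (γ⁻¹ * τ * γ)))
    rw [show γ⁻¹ * (σ * τ) * γ = (γ⁻¹ * σ * γ) * (γ⁻¹ * τ * γ) by group,
      a2 _ (c σ hσ) _ (c τ hτ), map_add, SelD_cj]
  · change act _ γ (x.1 (γ⁻¹ * σ * γ)) = 0
    rw [a3 _ (c σ hσ) fun y hy => ?_, map_zero]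
    rw [AlgEquiv.mul_apply, AlgEquiv.mul_apply, e _ (Finset.mem_image_of_mem _ hy),
      ← AlgEquiv.mul_apply, inv_mul_cancel, AlgEquiv.one_apply]
  · change p ^ m • (act _ γ (x.1 (γ⁻¹ * σ * γ)) - (act _ σ (act _ γ x.2) - act _ γ x.2)) = 0
    rw [← SelD_cj, ← map_sub, ← map_sub, ← map_nsmul, a4' _ (c σ hσ), map_zero]
  · obtain ⟨R, r1, r2⟩ := a5 v (j.comp γ.toAlgHom)
    refine ⟨R, r1, fun τ σ hσ e => ?_⟩
    rw [← r2 τ _ (c σ hσ) fun y => ?_]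
    · exact map_act_eq j (j.comp γ.toAlgHom) (fun _ => rfl) _
    · change j (γ ((γ⁻¹ * σ * γ) y)) = τ (j (γ y))
      rw [← e, ← AlgEquiv.mul_apply, ← mul_assoc, ← mul_assoc, mul_inv_cancel, one_mul,
        AlgEquiv.mul_apply]

theorem IsB.cj {H : Subgroup (Gk k)} [H.Normal] {n : ℕ} {x : (Gk k → EK a4 a6) × EK a4 a6}
    (hx : IsB a4 a6 p H n x) (γ : Gk k) : IsB a4 a6 p H n (cj a4 a6 γ x) := by
  obtain ⟨P, a1, a2, m, a3⟩ := hx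
  have c : ∀ σ ∈ H, γ⁻¹ * σ * γ ∈ H := fun σ hσ => Subgroup.Normal.conj_mem' inferInstance σ hσ γ
  refine ⟨act _ γ P, lg_act γ a1, fun σ hσ => ?_, m, ?_⟩
  · change act _ γ (x.1 (γ⁻¹ * σ * γ)) = _
    rw [a2 _ (c σ hσ), map_sub, SelD_cj]
  · change p ^ m • (act _ γ x.2 - act _ γ P) = 0
    rw [← map_sub, ← map_nsmul, a3, map_zero]

theorem IsZ.mono {H H' : Subgroup (Gk k)} (h : H' ≤ H) {n : ℕ} {x : (Gk k → EK a4 a6) × EK a4 a6}
    (hx : IsZ a4 a6 p H n x) : IsZ a4 a6 p H' n x := by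
  obtain ⟨a1, a2, ⟨X, a3⟩, ⟨m, a4'⟩, a5⟩ := hx
  refine ⟨fun σ hσ => a1 σ (h hσ), fun σ hσ τ hτ => a2 σ (h hσ) τ (h hτ),
    ⟨X, fun σ hσ => a3 σ (h hσ)⟩, ⟨m, fun σ hσ => a4' σ (h hσ)⟩, fun v j => ?_⟩
  obtain ⟨R, r1, r2⟩ := a5 v j
  exact ⟨R, r1, fun τ σ hσ => r2 τ σ (h hσ)⟩

theorem IsB.mono {H H' : Subgroup (Gk k)} (h : H' ≤ H) {n : ℕ} {x : (Gk k → EK a4 a6) × EK a4 a6}
    (hx : IsB a4 a6 p H n x) : IsB a4 a6 p H' n x := by
  obtain ⟨P, a1, a2, a3⟩ := hx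
  exact ⟨P, a1, fun σ hσ => a2 σ (h hσ), a3⟩

theorem IsZ.up {H : Subgroup (Gk k)} {n : ℕ} {x : (Gk k → EK a4 a6) × EK a4 a6}
    (hx : IsZ a4 a6 p H n x) : IsZ a4 a6 p H (n + 1) x := by
  obtain ⟨a1, a2, a3, a4', a5⟩ := hx
  refine ⟨fun σ hσ => lev_mono n (a1 σ hσ), a2, a3, a4', fun v j => ?_⟩
  obtain ⟨R, r1, r2⟩ := a5 v j
  exact ⟨R, lev_mono n r1, r2⟩

theorem IsB.up {H : Subgroup (Gk k)} {n : ℕ} {x : (Gk k → EK a4 a6) × EK a4 a6}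
    (hx : IsB a4 a6 p H n x) : IsB a4 a6 p H (n + 1) x := by
  obtain ⟨P, a1, a2⟩ := hx
  exact ⟨P, lev_mono n a1, a2⟩

theorem SelD_hasse {R R' : Type} [CommRing R] [CommRing R'] (p : ℕ) (f : R →+* R') (a b : R) :
    f (hasseInv p a b) = hasseInv p (f a) (f b) := by
  unfold hasseInv
  rw [← Polynomial.coeff_map]
  simp

theorem SelD_inj (M : Type) [Field M] [Algebra (RatFunc k) M] :
    Function.Injective (pk (k := k) M) :=
  (algebraMap (RatFunc k) M).injective.comp (IsFractionRing.injective k[X] (RatFunc k))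

theorem SelD_der (f : k[X]) : der p (Om (RatFunc k) (Kb k)) (tv k (Kb k)) (pk (Kb k) f) =
    pk (Kb k) (derivative f) := by
  have d1 := (pb_K (k := k) (p := p)).der_map (algebraMap _ (Kb k)) (fun a _ => om_alg a)
    (sc_Kb (p := p)).1 (x := algebraMap k[X] _ f) trivial
  rw [der_poly] at d1
  exact d1.symm

theorem SelD_as {y : Kb k} {d : RatFunc k} (h : y ^ p - y = algebraMap _ _ d) (σ : Gk k) :
    ∃ c : ℕ, σ y = y + c := by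
  have e : (σ y - y) ^ p = σ y - y := by
    have e1 := congrArg σ h
    rw [map_sub, map_pow, AlgEquiv.commutes] at e1
    rw [sub_pow_char]
    linear_combination e1 - h
  obtain ⟨c, hc⟩ := Wp_fix e
  exact ⟨c, by rw [← hc, add_sub_cancel]⟩

namespace Hy

variable (h : Hy p a4 a6)
include h

theorem SelD_A : hasseInv p a4 a6 ≠ 0 := fun e => h.nsq 0 (by
  rw [e, map_zero, zero_pow (Nat.sub_ne_zero_of_lt hp.out.one_lt)])

theorem ord_Kb : Ord p (Wm a4 a6 (Kb k)) (pk _ (hasseInv p a4 a6)) := by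
  have sw : Quad.SW (Wm a4 a6 (Kb k)) := by
    refine ⟨map_zero (algebraMap (RatFunc k) (Kb k)), map_zero (algebraMap (RatFunc k) (Kb k)),
      map_zero (algebraMap (RatFunc k) (Kb k)), fun e => h.disc (SelD_inj (Kb k) ?_), fun e => ?_⟩
    · rw [Wm_a4, Wm_a6] at e
      rw [map_zero, ← e, Dc, map_add, map_mul, map_mul, map_pow, map_pow, map_ofNat, map_ofNat]
    · have e1 : p ∣ 2 * 3 := (CharP.cast_eq_zero_iff (Kb k) p 6).1 (by exact_mod_cast e)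
      have := h.five
      rcases (Nat.Prime.dvd_mul hp.out).1 e1 with e2 | e2
      · have := Nat.le_of_dvd two_pos e2
        omega
      · have := Nat.le_of_dvd three_pos e2
        omega
  have hA : pk (Kb k) (hasseInv p a4 a6) =
      hasseInv p (Wm a4 a6 (Kb k)).a₄ (Wm a4 a6 (Kb k)).a₆ := SelD_hasse p _ a4 a6
  refine ⟨sw, hA, ord_exists sw fun e => h.SelD_A (SelD_inj (Kb k) ?_)⟩
  rw [hA, e, map_zero]

theorem ord_Lb (v : Pl k) : Ord p (Wm a4 a6 (Lb v)) (pk _ (hasseInv p a4 a6)) := by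
  obtain ⟨j⟩ := exists_emb v
  have e : (j : Kb k →+* Lb v) (pk _ (hasseInv p a4 a6)) = pk _ (hasseInv p a4 a6) := j.commutes _
  exact e ▸ (cmp_em j).ord h.ord_Kb

theorem A_ne : hasseInv p a4 a6 ≠ 0 := h.SelD_A

theorem lev0_tors {P : EK a4 a6} (hP : P ∈ LG a4 a6 p 0) {m : ℕ} (hm : p ^ m • P = 0) : P = 0 := by
  induction m with
  | zero => simpa using hm
  | succ m ih =>
    refine ih (h.ord_Kb.manin sc_Kb (pk_om a4) (pk_om a6) (fun e => h.kap (SelD_inj (Kb k) ?_)) ?_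
      (nsmul_mem hP _))
    · rw [Wm_a4, Wm_a6, SelD_der, SelD_der] at e
      rw [map_mul, map_mul, map_mul, map_mul, map_ofNat, map_ofNat, e]
    · rw [← mul_smul, ← pow_succ', hm]

theorem SelD_bact (σ : Gk k) {n : ℕ} {P : EK a4 a6} (hP : P ∈ LG a4 a6 p n) :
    bG a4 a6 p n (act _ σ P) = σ (bG a4 a6 p n P) := by
  have e1 : (σ : Kb k →+* Kb k) (tv k (Kb k)) = tv k (Kb k) := σ.commutes _
  have e2 : (σ : Kb k →+* Kb k) (pk _ (hasseInv p a4 a6)) = pk _ (hasseInv p a4 a6) := σ.commutes _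
  have e := (cmp_act σ).bk_eq h.ord_Kb.sw (fun _ hx => om_act σ hx) (pk_om a4) (sc_Kb (p := p)).1
    (e1.symm ▸ (sc_Kb (p := p)).1) (pk _ (hasseInv p a4 a6)) hP
  rw [e1, e2] at e
  exact e

theorem SelD_bem {v : Pl k} (j : Kb k →ₐ[RatFunc k] Lb v) {n : ℕ} {P : EK a4 a6}
    (hP : P ∈ LG a4 a6 p n) : bL a4 a6 p v n (em a4 a6 j P) = j (bG a4 a6 p n P) := by
  have e1 : (j : Kb k →+* Lb v) (tv k (Kb k)) = tv k (Lb v) := j.commutes _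
  have e2 : (j : Kb k →+* Lb v) (pk _ (hasseInv p a4 a6)) = pk _ (hasseInv p a4 a6) := j.commutes _
  have e := (cmp_em j).bk_eq h.ord_Kb.sw (fun _ hx => SelD_emom j hx) (pk_om a4) (sc_Kb (p := p)).1
    (e1.symm ▸ (sc_Lb (p := p) v).1) (pk _ (hasseInv p a4 a6)) hP
  rw [e1, e2] at e
  exact e

theorem SelD_vp0 : ∃ ϖ : RatFunc k, ∀ P : EK a4 a6, p • P = 0 →
    bG a4 a6 p 1 P = zz p P * algebraMap _ _ ϖ := by
  have o := h.ord_Kb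
  obtain ⟨ϖ, h1, h2⟩ := o.exists_vp sc_Kb (pk_om a4) (pk_om a6) 0
  obtain ⟨t, t0, t1⟩ := o.ex
  obtain ⟨a, rfl⟩ := om_fix h1 fun σ => by
    have e1 := h.SelD_bact σ (o.tors_lev sc_Kb (pk_om a4) (pk_om a6) t1)
    have e2 : zz p (act (Ew a4 a6) σ t) = σ (zz p t) := o.zz_map (cmp_act σ) t
    have e3 : bG a4 a6 p 1 (act _ σ t) = _ := h2 _ (by rw [← map_nsmul, t1, map_zero])
    have e4 : bG a4 a6 p 1 t = _ := h2 t t1
    rw [e3, e4, e2, map_mul] at e1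
    exact (mul_left_cancel₀ ((_root_.map_ne_zero σ).2 (o.lam_ne t0 t1)) e1).symm
  exact ⟨a, h2⟩

theorem vpk_spec (n : ℕ) {P : EK a4 a6} (hP : p • P = 0) :
    bG a4 a6 p (n + 1) P = zz p P * algebraMap _ _ (vpk a4 a6 p n) := by
  rcases n with _ | n
  · exact Classical.epsilon_spec h.SelD_vp0 P hP
  · have o := h.ord_Kb
    rw [vpk, if_neg n.succ_ne_zero, map_zero, mul_zero]
    exact (o.bk_eq_zero sc_Kb (pk_om a4) (pk_om a6)
      (o.EllR_tors sc_Kb (pk_om a4) (pk_om a6) _ hP)).2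
      (o.EllR_tors sc_Kb (pk_om a4) (pk_om a6) _ hP)

theorem vpk_specL (n : ℕ) (v : Pl k) {P : Pts (Ew a4 a6) (Lb v)} (hP : p • P = 0) :
    bL a4 a6 p v (n + 1) P = zz p P * algebraMap _ _ (vpk a4 a6 p n) := by
  have o := h.ord_Kb
  obtain ⟨j⟩ := exists_emb v
  obtain ⟨t, rfl⟩ := o.tors_surj (cmp_em j) 1 (t' := P) (by rw [pow_one, hP])
  have ht : p • t = 0 := (cmp_em j).inj (by rw [map_nsmul, hP, map_zero])
  have e2 : zz p (em a4 a6 j t) = j (zz p t) := o.zz_map (cmp_em j) t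
  rw [h.SelD_bem j (o.EllR_tors sc_Kb (pk_om a4) (pk_om a6) _ ht), h.vpk_spec n ht, map_mul, e2,
    AlgHom.commutes]

theorem vp0_ne : vp0 a4 a6 p ≠ 0 := fun e => by
  have o := h.ord_Kb
  obtain ⟨t, t0, t1⟩ := o.ex
  have e1 := h.vpk_spec 0 t1
  rw [vpk, if_pos rfl, e, map_zero, mul_zero] at e1
  exact t0 (h.lev0_tors ((o.bk_eq_zero sc_Kb (pk_om a4) (pk_om a6)
    (o.EllR_tors sc_Kb (pk_om a4) (pk_om a6) _ t1)).1 e1) (m := 1) (by rw [pow_one, t1]))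

theorem exists_lev (P : EK a4 a6) : ∃ n, P ∈ LG a4 a6 p n := by
  obtain ⟨n, hn⟩ := om_exists_pow p (F := RatFunc k) (Quad.xc P)
  exact ⟨n, h.ord_Kb.lev_of_x sc_Kb (pk_om a4) (pk_om a6) hn⟩

theorem isZ_down {H : Subgroup (Gk k)} {n : ℕ} {x : (Gk k → EK a4 a6) × EK a4 a6}
    (hx : IsZ a4 a6 p H (n + 1) x) : IsZ a4 a6 p H n (p • x) := by
  obtain ⟨a1, a2, ⟨X, a3⟩, ⟨m, a4'⟩, a5⟩ := hx
  refine ⟨fun σ hσ => h.ord_Kb.p_lev sc_Kb (pk_om a4) (pk_om a6) (a1 σ hσ), fun σ hσ τ hτ => ?_,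
    ⟨X, fun σ hσ e => ?_⟩, ⟨m, fun σ hσ => ?_⟩, fun v j => ?_⟩
  · change p • x.1 (σ * τ) = p • x.1 σ + act _ σ (p • x.1 τ)
    rw [a2 σ hσ τ hτ, map_nsmul, smul_add]
  · change p • x.1 σ = 0
    rw [a3 σ hσ e, smul_zero]
  · change p ^ m • (p • x.1 σ - (act _ σ (p • x.2) - p • x.2)) = 0
    rw [map_nsmul, ← smul_sub, ← smul_sub, smul_comm, a4' σ hσ, smul_zero]
  · obtain ⟨R, r1, r2⟩ := a5 v j
    refine ⟨p • R, (h.ord_Lb v).p_lev (sc_Lb v) (pk_omL v a4) (pk_omL v a6) r1,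
      fun τ σ hσ e => ?_⟩
    change em a4 a6 j (p • x.1 σ) = _
    rw [map_nsmul, r2 τ σ hσ e, map_nsmul, smul_sub]

theorem isB_down {H : Subgroup (Gk k)} {n : ℕ} {x : (Gk k → EK a4 a6) × EK a4 a6}
    (hx : IsB a4 a6 p H (n + 1) x) : IsB a4 a6 p H n (p • x) := by
  obtain ⟨P, a1, a2, m, a3⟩ := hx
  refine ⟨p • P, h.ord_Kb.p_lev sc_Kb (pk_om a4) (pk_om a6) a1, fun σ hσ => ?_, m, ?_⟩
  · change p • x.1 σ = _
    rw [a2 σ hσ, map_nsmul, smul_sub]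
  · change p ^ m • (p • x.2 - p • P) = 0
    rw [← smul_sub, smul_comm, a3, smul_zero]

/-- the fixer of finitely many Artin-Schreier roots is open and fixes no point of order `p` -/
theorem opn {H : Subgroup (Gk k)} (X : Finset (Kb k))
    (hX : ∀ y ∈ X, ∃ d : RatFunc k, y ^ p - y = algebraMap _ _ d)
    (hH : ∀ σ : Gk k, (∀ y ∈ X, σ y = y) → σ ∈ H) : Opn a4 a6 p H := by
  refine ⟨⟨X, hH⟩, fun t t1 ht => ?_⟩
  by_contra t0
  have o := h.ord_Kb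
  obtain ⟨a, ha⟩ := om_fix (o.zz_tors_mem sc_Kb (pk_om a4) (pk_om a6) t1) fun σ => by
    obtain ⟨m, hm⟩ := o.tors_cyc t0 t1 (t := act _ σ t) (by rw [← map_nsmul, t1, map_zero])
    have e1 : σ (zz p t) = m * zz p t := by
      rw [← o.zz_nsmul t1, ← hm]
      exact (o.zz_map (cmp_act σ) t).symm
    have e2 : ∀ i : ℕ, (σ ^ i) (zz p t) = m ^ i * zz p t := fun i => by
      induction i with
      | zero => simp
      | succ i ih =>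
        rw [pow_succ, AlgEquiv.mul_apply, e1, map_mul, map_natCast, ih]
        ring
    have e3 : σ ^ p ∈ H := hH _ fun y hy => by
      obtain ⟨d, hd⟩ := hX y hy
      obtain ⟨c, hc⟩ := SelD_as hd σ
      have e4 : ∀ i : ℕ, (σ ^ i) y = y + i * c := fun i => by
        induction i with
        | zero => simp
        | succ i ih =>
          rw [pow_succ, AlgEquiv.mul_apply, hc, map_add, map_natCast, ih]
          push_cast
          ring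
      rw [e4, CharP.cast_eq_zero, zero_mul, add_zero]
    have e5 : (σ ^ p) (zz p t) = zz p t := by
      conv_rhs => rw [← ht _ e3]
      exact (o.zz_map (cmp_act (σ ^ p)) t).symm
    have e6 : (m : Kb k) ^ p = m := map_natCast (frobenius (Kb k) p) m
    rw [e2, e6] at e5
    rw [e1, e5]
  refine h.nsq a ((algebraMap (RatFunc k) (Kb k)).injective ?_)
  rw [map_pow, ha, o.lam_pow t0 t1]
  rfl

end Hy

variable (p a4 a6)

/-- the action on classes -/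
def acA (H : Subgroup (Gk k)) [H.Normal] (n : ℕ) (γ : Gk k) :
    Amb a4 a6 p H n →+ Amb a4 a6 p H n :=
  QuotientAddGroup.map _ _ (cj a4 a6 γ) fun _ hx => IsB.cj hx γ

/-- Frobenius -/
def Fm (H : Subgroup (Gk k)) (n : ℕ) : Amb a4 a6 p H n →+ Amb a4 a6 p H (n + 1) :=
  QuotientAddGroup.map _ _ (AddMonoidHom.id _) fun _ hx => IsB.up hx

/-- restriction -/
def Rm {H H' : Subgroup (Gk k)} (h : H' ≤ H) (n : ℕ) : Amb a4 a6 p H n →+ Amb a4 a6 p H' n :=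
  QuotientAddGroup.map _ _ (AddMonoidHom.id _) fun _ hx => IsB.mono h hx

variable {p a4 a6}

/-- Verschiebung -/
def Vm (h : Hy p a4 a6) (H : Subgroup (Gk k)) (n : ℕ) :
    Amb a4 a6 p H (n + 1) →+ Amb a4 a6 p H n :=
  QuotientAddGroup.map _ _ (nsmulAddMonoidHom p) fun _ hx => h.isB_down hx

theorem stab_normal {δ : Kb k} {d : RatFunc k} (h : δ ^ p - δ = algebraMap _ _ d) :
    (MulAction.stabilizer (Gk k) δ).Normal := by
  refine ⟨fun σ hσ g => ?_⟩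
  obtain ⟨c, hc⟩ := SelD_as h g⁻¹
  have e : σ δ = δ := hσ
  change g (σ (g⁻¹ δ)) = δ
  rw [hc, map_add, map_natCast, e, ← hc, ← AlgEquiv.mul_apply, mul_inv_cancel, AlgEquiv.one_apply]

variable (p a4 a6) in
/-- the part of the Tate module of the Selmer group over `K(δ)` killed by the norm is nonzero -/
def BadD (d : RatFunc k) : Prop :=
  ∃ (δ : Kb k) (h : δ ^ p - δ = algebraMap _ _ d) (σ0 : Gk k)
    (u : ℕ → Amb a4 a6 p (MulAction.stabilizer (Gk k) δ) 0), σ0 δ = δ + 1 ∧ u ≠ 0 ∧ u 0 = 0 ∧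
    ∀ n, u n ∈ Sel a4 a6 p _ 0 ∧ p • u (n + 1) = u n ∧
      ∑ i ∈ Finset.range p, (@acA _ _ a4 a6 p _ _ _ _ (stab_normal h) 0 σ0)^[i] (u n) = 0

end

end Pool.Agent.ASel
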