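import Pool.Agent.Work.MP_60d5ce_nt.AS.SelD

/-!
# The map `κ` on `p`-torsion Selmer classes: global properties

PLAN (`A` the Hasse invariant, `℘ y = y ^ p / A - y`, `λ = zz`, `τ σ = ξ σ - (σ Q - Q)`).
`kap_ex`: `p (ξ, Q') = (∂ P, P + t)`; `T_∞` is divisible, so there is `Q` with `p Q = P`, `Q' - Q ∈ T_∞`
(`divp`: `Q = Q' - t'`, `p t' = t`), `Q` has level `n + 1` (`lev_of_p`); `σ ↦ -λ (τ σ)` is a smooth cocycle with
separable values, `h90`.  `kap_mem`: `σ (z ^ p / A) - z ^ p / A = -λ τ` as `λ ^ p / A = λ` (`lam_pow`), and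
`σ b Q - b Q = b (ξ σ) - b (τ σ) = -λ(τ) ϖ` (`bk_add`, `bk_eq_zero`, `vpk_spec`).  `kap_uniq`: `ξ = ∂ P`,
`t = Q - P ∈ T_∞`, `p t` is fixed by `H`, so `p t = 0` (`noT`, induction on the order), `y = z - λ t`.
`kap_ker`: `z = λ t` (`wp_ker`, `tors_cyc`, `zz_nsmul`), `ξ = ∂ (Q - t)` (`lam_ne`), `b (Q - t) = 0`.
`kap_coc`: `car_bk`, `car_vp`, `car_frob_mul`.  `kap_F`: same `Q`, `z`.  `kap_V`: new `Q` is `p Q`, `z = 0`, `vbeta`.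
`acA_triv`: the difference is `(∂ (ξ γ), γ Q - Q)`.  `amb0_eq`: `lev0_tors`.  `sel_prim`: `exists_lev`, `p_lev`.
-/

namespace Pool.Agent.ASel

open Polynomial Pool.Agent.Smith Pool.Agent.ShaAsc
open scoped Classical

variable {k : Type} [Field k] {p : ℕ} [Fintype k] [hp : Fact p.Prime] [CharP k p] {a4 a6 : k[X]}
  {H : Subgroup (Gk k)} {n : ℕ}

theorem SelK_eq {x y : (Gk k → EK a4 a6) × EK a4 a6} :
    (x : Amb a4 a6 p H n) = y ↔ IsB a4 a6 p H n (x - y) := QuotientAddGroup.eq_iff_sub_mem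

theorem SelK_zero {x : (Gk k → EK a4 a6) × EK a4 a6} :
    (x : Amb a4 a6 p H n) = 0 ↔ IsB a4 a6 p H n x := QuotientAddGroup.eq_zero_iff x

omit [Fintype k] hp [CharP k p] in
theorem SelK_add {G : Type} [AddCommGroup G] {u v : G} {a b : ℕ} (hu : p ^ a • u = 0)
    (hv : p ^ b • v = 0) : p ^ (a + b) • (u + v) = 0 := by
  rw [smul_add, pow_add, mul_smul _ _ v, hv, mul_comm, mul_smul, hu, smul_zero, smul_zero, add_zero]

omit [Fintype k] hp [CharP k p] in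
theorem SelK_sub {G : Type} [AddCommGroup G] {u v : G} {a b : ℕ} (hu : p ^ a • u = 0)
    (hv : p ^ b • v = 0) : p ^ (a + b) • (u - v) = 0 := by
  rw [sub_eq_add_neg]
  exact SelK_add hu (by rw [smul_neg, hv, neg_zero])

omit [Fintype k] in
theorem SelK_pk (σ : Gk k) (f : k[X]) : σ (pk (Kb k) f) = pk (Kb k) f := σ.commutes _

theorem SelK_zz (h : Hy p a4 a6) (σ : Gk k) (Q : EK a4 a6) : zz p (act _ σ Q) = σ (zz p Q) :=
  h.ord_Kb.zz_map (cmp_act σ) Q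

theorem SelK_bG (h : Hy p a4 a6) (σ : Gk k) {Q : EK a4 a6} (hQ : Q ∈ LG a4 a6 p n) :
    bG a4 a6 p n (act _ σ Q) = σ (bG a4 a6 p n Q) := by
  have e : (σ : Kb k →+* Kb k) (tv k (Kb k)) = tv k (Kb k) := σ.commutes _
  have h1 := (cmp_act σ).bk_eq h.ord_Kb.sw (S' := Om (RatFunc k) (Kb k)) (fun _ => om_act σ)
    (pk_om a4) sc_Kb.1 (e.symm ▸ sc_Kb.1) (pk _ (hasseInv p a4 a6)) hQ
  rw [e, show (σ : Kb k →+* Kb k) (pk _ (hasseInv p a4 a6)) = _ from SelK_pk σ _] at h1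
  exact h1

theorem acA_mul [H.Normal] (σ τ : Gk k) (s : Amb a4 a6 p H n) :
    acA a4 a6 p H n (σ * τ) s = acA a4 a6 p H n σ (acA a4 a6 p H n τ s) := by
  obtain ⟨x, rfl⟩ := QuotientAddGroup.mk_surjective s
  refine congrArg (QuotientAddGroup.mk (s := Bs a4 a6 p H n))
    (?_ : cj a4 a6 (σ * τ) x = cj a4 a6 σ (cj a4 a6 τ x))
  refine Prod.ext (funext fun ρ => ?_) (act_mul σ τ _)
  change act _ (σ * τ) (x.1 _) = act _ σ (act _ τ (x.1 _))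
  rw [act_mul, mul_inv_rev]
  simp only [mul_assoc]

theorem acA_mem [H.Normal] (σ : Gk k) {s : Amb a4 a6 p H n} (hs : s ∈ Sel a4 a6 p H n) :
    acA a4 a6 p H n σ s ∈ Sel a4 a6 p H n := by
  obtain ⟨x, hx, rfl⟩ := hs
  exact ⟨_, IsZ.cj hx σ, rfl⟩

theorem acA_triv [H.Normal] {σ : Gk k} (hσ : σ ∈ H) {s : Amb a4 a6 p H n}
    (hs : s ∈ Sel a4 a6 p H n) : acA a4 a6 p H n σ s = s := by
  obtain ⟨x, ⟨h1, h2, -, ⟨m, h4⟩, -⟩, rfl⟩ := hs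
  refine SelK_eq.2 (⟨x.1 σ, h1 σ hσ, fun ρ hρ => ?_, m, ?_⟩ :
    IsB a4 a6 p H n (cj a4 a6 σ x - x))
  · have e1 := h2 σ hσ (σ⁻¹ * ρ * σ) (mul_mem (mul_mem (inv_mem hσ) hρ) hσ)
    rw [← mul_assoc, mul_inv_cancel_left, h2 ρ hρ σ hσ] at e1
    change act _ σ (x.1 (σ⁻¹ * ρ * σ)) - x.1 ρ = _
    rw [sub_eq_sub_iff_add_eq_add, add_comm, ← e1, add_comm]
  · change p ^ m • (act _ σ x.2 - x.2 - x.1 σ) = 0
    rw [← neg_sub, smul_neg, h4 σ hσ, neg_zero]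

theorem Fm_mem {s : Amb a4 a6 p H n} (hs : s ∈ Sel a4 a6 p H n) :
    Fm a4 a6 p H n s ∈ Sel a4 a6 p H (n + 1) := by
  obtain ⟨x, hx, rfl⟩ := hs
  exact ⟨x, IsZ.up hx, rfl⟩

theorem Fm_acA [H.Normal] (σ : Gk k) (s : Amb a4 a6 p H n) :
    Fm a4 a6 p H n (acA a4 a6 p H n σ s) = acA a4 a6 p H (n + 1) σ (Fm a4 a6 p H n s) := by
  obtain ⟨x, rfl⟩ := QuotientAddGroup.mk_surjective s
  simp only [Fm, acA, QuotientAddGroup.map_mk, AddMonoidHom.id_apply]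

theorem Rm_mem {H' : Subgroup (Gk k)} (hH : H' ≤ H) {s : Amb a4 a6 p H n}
    (hs : s ∈ Sel a4 a6 p H n) : Rm a4 a6 p hH n s ∈ Sel a4 a6 p H' n := by
  obtain ⟨x, hx, rfl⟩ := hs
  exact ⟨x, IsZ.mono hH hx, rfl⟩

theorem Rm_acA {H' : Subgroup (Gk k)} [H.Normal] [H'.Normal] (hH : H' ≤ H) (σ : Gk k)
    (s : Amb a4 a6 p H n) :
    Rm a4 a6 p hH n (acA a4 a6 p H n σ s) = acA a4 a6 p H' n σ (Rm a4 a6 p hH n s) := by
  obtain ⟨x, rfl⟩ := QuotientAddGroup.mk_surjective s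
  simp only [Rm, acA, QuotientAddGroup.map_mk, AddMonoidHom.id_apply]

theorem Kap.act [H.Normal] (h : Hy p a4 a6) {s : Amb a4 a6 p H n} {a w : Kb k}
    (hs : Kap a4 a6 p H n s a w) (σ : Gk k) :
    Kap a4 a6 p H n (acA a4 a6 p H n σ s) (σ a) (σ w) := by
  obtain ⟨x, Q, z, rfl, hx, hQ, ⟨m, hm⟩, hτ, hz, hzz, rfl, rfl⟩ := hs
  have hc : ∀ ρ ∈ H, σ⁻¹ * ρ * σ ∈ H := fun ρ hρ =>
    Subgroup.Normal.conj_mem' inferInstance ρ hρ σ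
  have e : ∀ ρ : Gk k, (cj a4 a6 σ x).1 ρ -
      (ShaAsc.act _ ρ (ShaAsc.act _ σ Q) - ShaAsc.act _ σ Q) =
      ShaAsc.act _ σ (x.1 (σ⁻¹ * ρ * σ) - (ShaAsc.act _ (σ⁻¹ * ρ * σ) Q - Q)) := by
    intro ρ
    rw [map_sub, map_sub, ← act_mul, ← act_mul, ← mul_assoc, mul_inv_cancel_left]
    rfl
  refine ⟨cj a4 a6 σ x, ShaAsc.act _ σ Q, σ z, rfl, hx.cj σ, lg_act σ hQ, ⟨m, ?_⟩,
    fun ρ hρ => ?_, om_act σ hz, fun ρ hρ => ?_, ?_, ?_⟩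
  · change p ^ m • (ShaAsc.act _ σ x.2 - ShaAsc.act _ σ Q) = 0
    rw [← map_sub, ← map_nsmul, hm, map_zero]
  · rw [e, ← map_nsmul, hτ _ (hc ρ hρ), map_zero]
  · rw [e, SelK_zz h, ← map_neg, ← hzz _ (hc ρ hρ), map_sub]
    simp
  · rw [map_sub, map_div₀, map_pow, SelK_pk]
  · rw [map_sub, map_mul, map_div₀, map_pow, SelK_pk, SelK_bG h σ hQ, σ.commutes]

namespace Hy

variable (h : Hy p a4 a6)
include h

theorem SelK_A : pk (Kb k) (hasseInv p a4 a6) ≠ 0 := h.ord_Kb.A_ne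

theorem SelK_lam {t : EK a4 a6} (ht : p • t = 0) :
    zz p t ^ p / pk _ (hasseInv p a4 a6) = zz p t := by
  rw [h.ord_Kb.EllR_lam ht, mul_div_cancel_left₀ _ h.SelK_A]

theorem SelK_zsub (u : EK a4 a6) {t : EK a4 a6} (ht : p • t = 0) :
    zz p (u - t) = zz p u - zz p t := by
  rw [eq_sub_iff_add_eq, ← h.ord_Kb.zz_add_tors _ ht, sub_add_cancel]

theorem SelK_zom {t : EK a4 a6} (ht : p • t = 0) : zz p t ∈ Om (RatFunc k) (Kb k) :=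
  h.ord_Kb.zz_tors_mem sc_Kb (pk_om a4) (pk_om a6) ht

theorem SelK_tl {t : EK a4 a6} (ht : p • t = 0) : t ∈ LG a4 a6 p (n + 1) :=
  h.ord_Kb.EllR_tors sc_Kb (pk_om a4) (pk_om a6) n ht

theorem SelK_bsub {Q Q' : EK a4 a6} (hQ : Q ∈ LG a4 a6 p (n + 1)) (hQ' : Q' ∈ LG a4 a6 p (n + 1)) :
    bG a4 a6 p (n + 1) (Q - Q') = bG a4 a6 p (n + 1) Q - bG a4 a6 p (n + 1) Q' := by
  rw [eq_sub_iff_add_eq, ← h.ord_Kb.bk_add sc_Kb (pk_om a4) (pk_om a6) (sub_mem hQ hQ') hQ',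
    sub_add_cancel]

theorem SelK_b0 {P : EK a4 a6} (hP : P ∈ LG a4 a6 p n) : bG a4 a6 p (n + 1) P = 0 :=
  (h.ord_Kb.bk_eq_zero sc_Kb (pk_om a4) (pk_om a6) (lev_mono n hP)).2 hP

theorem SelK_plev {P : EK a4 a6} (hP : P ∈ LG a4 a6 p n) : p ^ n • P ∈ LG a4 a6 p 0 := by
  induction n generalizing P with
  | zero => rwa [pow_zero, one_smul]
  | succ n ih =>
    rw [pow_succ, mul_smul]
    exact ih (h.ord_Kb.p_lev sc_Kb (pk_om a4) (pk_om a6) hP)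

omit h in
theorem SelK_noT (hH : Opn a4 a6 p H) {u : EK a4 a6} (hu : ∀ σ ∈ H, act _ σ u = u) {m : ℕ}
    (hm : p ^ m • u = 0) : u = 0 := by
  induction m with
  | zero => rwa [pow_zero, one_smul] at hm
  | succ m ih =>
    refine ih (hH.noT _ (by rwa [← mul_smul, ← pow_succ']) fun σ hσ => ?_)
    rw [map_nsmul, hu σ hσ]

theorem Vm_mem {s : Amb a4 a6 p H (n + 1)} (hs : s ∈ Sel a4 a6 p H (n + 1)) :
    Vm h H n s ∈ Sel a4 a6 p H n := by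
  obtain ⟨x, hx, rfl⟩ := hs
  exact ⟨p • x, h.isZ_down hx, rfl⟩

theorem Vm_acA [H.Normal] (σ : Gk k) (s : Amb a4 a6 p H (n + 1)) :
    Vm h H n (acA a4 a6 p H (n + 1) σ s) = acA a4 a6 p H n σ (Vm h H n s) := by
  obtain ⟨x, rfl⟩ := QuotientAddGroup.mk_surjective s
  exact congrArg (QuotientAddGroup.mk (s := Bs a4 a6 p H n)) (map_nsmul (cj a4 a6 σ) p x).symm

theorem Fm_Vm (s : Amb a4 a6 p H (n + 1)) : Fm a4 a6 p H n (Vm h H n s) = p • s := by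
  obtain ⟨x, rfl⟩ := QuotientAddGroup.mk_surjective s
  rfl

theorem Vm_Fm (s : Amb a4 a6 p H n) : Vm h H n (Fm a4 a6 p H n s) = p • s := by
  obtain ⟨x, rfl⟩ := QuotientAddGroup.mk_surjective s
  rfl

theorem sel_prim {s : Amb a4 a6 p H 0} (hs : s ∈ Sel a4 a6 p H 0) : ∃ m : ℕ, p ^ m • s = 0 := by
  obtain ⟨x, ⟨-, -, -, ⟨m, hm⟩, -⟩, rfl⟩ := hs
  obtain ⟨n, hn⟩ := h.exists_lev x.2
  refine ⟨m + n, SelK_zero.2 (⟨p ^ (m + n) • x.2, ?_, fun σ hσ => ?_, 0, ?_⟩ :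
    IsB a4 a6 p H 0 (p ^ (m + n) • x))⟩
  · rw [pow_add, mul_smul]
    exact nsmul_mem (h.SelK_plev hn) _
  · change p ^ (m + n) • x.1 σ = _
    rw [map_nsmul, ← smul_sub, ← sub_eq_zero, ← smul_sub, pow_add, mul_comm, mul_smul, hm σ hσ,
      smul_zero]
  · change p ^ 0 • (p ^ (m + n) • x.2 - _) = 0
    rw [sub_self, smul_zero]

theorem amb0_eq {x y : (Gk k → EK a4 a6) × EK a4 a6} (hx : IsZ a4 a6 p H 0 x)
    (hy : IsZ a4 a6 p H 0 y) {P : EK a4 a6} (hP : P ∈ LG a4 a6 p 0) {m : ℕ}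
    (hm : p ^ m • (x.2 - y.2 - P) = 0) : (x : Amb a4 a6 p H 0) = y := by
  obtain ⟨h1, -, -, ⟨a, ha⟩, -⟩ := hx.sub hy
  refine SelK_eq.2 ⟨P, hP, fun σ hσ => ?_, m, hm⟩
  have e : p ^ m • act _ σ (x.2 - y.2 - P) = 0 := by rw [← map_nsmul, hm, map_zero]
  have h2 := SelK_add (ha σ hσ) (SelK_sub e hm)
  refine sub_eq_zero.1 (h.lev0_tors (sub_mem (h1 σ hσ) (sub_mem (lg_act σ hP) hP))
    (m := a + (m + m)) ?_)
  rw [← h2, Prod.snd_sub, map_sub _ _ P]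
  congr 1
  abel

theorem Rm_inj {H' : Subgroup (Gk k)} (hH : H' ≤ H) {s : Amb a4 a6 p H 0}
    (hs : s ∈ Sel a4 a6 p H 0) (h0 : Rm a4 a6 p hH 0 s = 0) : s = 0 := by
  obtain ⟨x, hx, rfl⟩ := hs
  obtain ⟨P, hP, -, m, hm⟩ := SelK_zero.1 (show (x : Amb a4 a6 p H' 0) = 0 from h0)
  exact h.amb0_eq hx (isZ_zero H 0) hP (m := m) (by rwa [Prod.snd_zero, sub_zero])

theorem kap_ex (hH : Opn a4 a6 p H) {s : Amb a4 a6 p H n} (hs : s ∈ Sel a4 a6 p H n)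
    (h0 : p • s = 0) : ∃ a w, Kap a4 a6 p H n s a w := by
  obtain ⟨x, hx, rfl⟩ := hs
  obtain ⟨P, hP, h1, m, hm⟩ :=
    SelK_zero.1 (show ((p • x : (Gk k → EK a4 a6) × EK a4 a6) : Amb a4 a6 p H n) = 0 from h0)
  obtain ⟨Q, rfl⟩ := h.ord_Kb.divp P
  have hτ : ∀ σ ∈ H, p • (x.1 σ - (act _ σ Q - Q)) = 0 := fun σ hσ => by
    rw [smul_sub, smul_sub, ← map_nsmul, ← h1 σ hσ]
    exact sub_self _
  obtain ⟨X1, hX1⟩ := hH.opn
  obtain ⟨X2, hX2⟩ := hx.2.2.1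
  obtain ⟨X3, hX3⟩ := act_fix (K := RatFunc k) Q
  obtain ⟨z, hz, hzz⟩ := h90 p H (fun σ => -zz p (x.1 σ - (act _ σ Q - Q)))
    (fun σ hσ => neg_mem (h.SelK_zom (hτ σ hσ))) (fun σ hσ τ hτ' => by
      have e : p • act _ σ (x.1 τ - (act _ τ Q - Q)) = 0 := by
        rw [← map_nsmul, hτ τ hτ', map_zero]
      rw [map_neg, ← SelK_zz h, ← neg_add, ← h.ord_Kb.zz_add_tors _ e, hx.2.1 σ hσ τ hτ', act_mul,
        map_sub, map_sub]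
      congr 2
      abel) (X1 ∪ X2 ∪ X3) fun σ hσ => by
      have h2 := hX1 σ fun y hy => hσ y (by simp [hy])
      refine ⟨h2, ?_⟩
      rw [hX2 σ h2 fun y hy => hσ y (by simp [hy]), hX3 σ fun y hy => hσ y (by simp [hy]),
        sub_self, sub_self, h.ord_Kb.zz_zero, neg_zero]
  refine ⟨_, _, x, Q, z, rfl, hx, h.ord_Kb.lev_of_p sc_Kb (pk_om a4) (pk_om a6) hP, ⟨m + 1, ?_⟩,
    hτ, hz, hzz, rfl, rfl⟩
  rw [pow_succ, mul_smul, smul_sub]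
  exact hm

theorem kap_mem {s : Amb a4 a6 p H n} {a w : Kb k} (hs : Kap a4 a6 p H n s a w) :
    KH H a ∧ KH H w := by
  obtain ⟨x, Q, z, -, hx, hQ, -, hτ, hz, hzz, rfl, rfl⟩ := hs
  have h1 := div_mem (pow_mem hz p) (pk_om (hasseInv p a4 a6))
  have h2 : ∀ σ ∈ H, σ (z ^ p / pk _ (hasseInv p a4 a6)) =
      z ^ p / pk _ (hasseInv p a4 a6) - zz p (x.1 σ - (act _ σ Q - Q)) := fun σ hσ => by
    rw [map_div₀, map_pow, SelK_pk, eq_add_of_sub_eq (hzz σ hσ), neg_add_eq_sub, sub_pow_char,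
      sub_div, h.SelK_lam (hτ σ hσ)]
  refine ⟨⟨sub_mem h1 hz, fun σ hσ => ?_⟩, sub_mem
    (h.ord_Kb.bk_mem sc_Kb (pk_om a4) (pk_om a6) hQ) (mul_mem h1 (om_alg _)), fun σ hσ => ?_⟩
  · rw [map_sub, h2 σ hσ, eq_add_of_sub_eq (hzz σ hσ)]
    ring
  · have h3 := h.vpk_spec n (hτ σ hσ)
    rw [h.SelK_bsub (lev_mono n (hx.1 σ hσ)) (sub_mem (lg_act σ hQ) hQ), h.SelK_b0 (hx.1 σ hσ),
      h.SelK_bsub (lg_act σ hQ) hQ, SelK_bG h σ hQ] at h3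
    rw [map_sub, map_mul, h2 σ hσ, σ.commutes]
    linear_combination -h3

theorem kap_zero : Kap a4 a6 p H n 0 0 0 := by
  refine ⟨0, 0, 0, rfl, isZ_zero H n, zero_mem _, ⟨0, by simp⟩, fun σ _ => by simp, zero_mem _,
    fun σ _ => ?_, by simp [hp.out.ne_zero], ?_⟩
  · simp [h.ord_Kb.zz_zero]
  · rw [h.SelK_b0 (zero_mem _)]
    simp [hp.out.ne_zero]

theorem kap_sub {s s' : Amb a4 a6 p H n} {a w a' w' : Kb k} (hs : Kap a4 a6 p H n s a w)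
    (hs' : Kap a4 a6 p H n s' a' w') : Kap a4 a6 p H n (s - s') (a - a') (w - w') := by
  obtain ⟨x, Q, z, rfl, hx, hQ, ⟨m, hm⟩, hτ, hz, hzz, rfl, rfl⟩ := hs
  obtain ⟨x', Q', z', rfl, hx', hQ', ⟨m', hm'⟩, hτ', hz', hzz', rfl, rfl⟩ := hs'
  have e : ∀ σ : Gk k, (x - x').1 σ - (act _ σ (Q - Q') - (Q - Q')) =
      x.1 σ - (act _ σ Q - Q) - (x'.1 σ - (act _ σ Q' - Q')) := fun σ => by
    rw [map_sub, Prod.fst_sub, Pi.sub_apply]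
    abel
  refine ⟨x - x', Q - Q', z - z', rfl, hx.sub hx', sub_mem hQ hQ', ⟨m + m', ?_⟩, fun σ hσ => ?_,
    sub_mem hz hz', fun σ hσ => ?_, ?_, ?_⟩
  · rw [← SelK_sub hm hm', Prod.snd_sub]
    congr 1
    abel
  · rw [e, smul_sub, hτ σ hσ, hτ' σ hσ, sub_self]
  · rw [e, h.SelK_zsub _ (hτ' σ hσ), map_sub]
    linear_combination hzz σ hσ - hzz' σ hσ
  · rw [sub_pow_char]
    ring
  · rw [sub_pow_char, h.SelK_bsub hQ hQ']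
    ring

theorem kap_cob {s : Amb a4 a6 p H n} {a w y : Kb k} (hs : Kap a4 a6 p H n s a w) (hy : KH H y) :
    Kap a4 a6 p H n s (a + (y ^ p / pk _ (hasseInv p a4 a6) - y))
      (w - y ^ p / pk _ (hasseInv p a4 a6) * algebraMap _ _ (vpk a4 a6 p n)) := by
  obtain ⟨x, Q, z, rfl, hx, hQ, hm, hτ, hz, hzz, rfl, rfl⟩ := hs
  refine ⟨x, Q, z + y, rfl, hx, hQ, hm, hτ, add_mem hz hy.1, fun σ hσ => ?_, ?_, ?_⟩
  · rw [map_add, hy.2 σ hσ, ← hzz σ hσ]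
    ring
  · rw [add_pow_char]
    ring
  · rw [add_pow_char]
    ring

theorem kap_uniq (hH : Opn a4 a6 p H) {a w : Kb k} (hs : Kap a4 a6 p H n 0 a w) :
    ∃ y, KH H y ∧ a = y ^ p / pk _ (hasseInv p a4 a6) - y ∧
      w = -(y ^ p / pk _ (hasseInv p a4 a6) * algebraMap _ _ (vpk a4 a6 p n)) := by
  obtain ⟨x, Q, z, h0, -, hQ, ⟨m, hm⟩, hτ, hz, hzz, rfl, rfl⟩ := hs
  obtain ⟨P, hP, h1, m', hm'⟩ := SelK_zero.1 h0
  have e : ∀ σ ∈ H, x.1 σ - (act _ σ Q - Q) = Q - P - act _ σ (Q - P) := fun σ hσ => by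
    rw [h1 σ hσ, map_sub]
    abel
  have ht : p • (Q - P) = 0 := by
    refine SelK_noT hH (fun σ hσ => ?_) (m := m' + m) ?_
    · have := hτ σ hσ
      rw [e σ hσ, smul_sub, sub_eq_zero] at this
      rw [map_nsmul, ← this]
    · rw [smul_comm, show Q - P = x.2 - P - (x.2 - Q) by abel, SelK_sub hm' hm, smul_zero]
  have h2 := h.vpk_spec n ht
  rw [h.SelK_bsub hQ (lev_mono n hP), h.SelK_b0 hP, sub_zero] at h2
  refine ⟨z - zz p (Q - P), ⟨sub_mem hz (h.SelK_zom ht), fun σ hσ => ?_⟩, ?_, ?_⟩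
  · have h3 := hzz σ hσ
    rw [e σ hσ, h.SelK_zsub _ (by rw [← map_nsmul, ht, map_zero]), SelK_zz h] at h3
    rw [map_sub]
    linear_combination h3
  · rw [sub_pow_char, sub_div, h.SelK_lam ht]
    ring
  · rw [sub_pow_char, sub_div, h.SelK_lam ht, h2]
    ring

theorem kap_ker {s : Amb a4 a6 p H n} (hs : Kap a4 a6 p H n s 0 0) : s = 0 := by
  obtain ⟨x, Q, z, rfl, -, hQ, ⟨m, hm⟩, hτ, -, hzz, ha, hw⟩ := hs
  obtain ⟨t0, h0, h1⟩ := h.ord_Kb.ex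
  obtain ⟨j, hj⟩ := wp_ker (h.ord_Kb.lam_pow h0 h1) (h.ord_Kb.lam_ne h0 h1) ha.symm
  rw [← h.ord_Kb.zz_nsmul h1] at hj
  have ht : p • j • t0 = 0 := by rw [smul_comm, h1, smul_zero]
  generalize j • t0 = t at hj ht
  subst hj
  refine SelK_zero.2 ⟨Q - t, ?_, fun σ hσ => ?_, m + 1, ?_⟩
  · refine (h.ord_Kb.bk_eq_zero sc_Kb (pk_om a4) (pk_om a6) (sub_mem hQ (h.SelK_tl ht))).1 ?_
    rw [h.SelK_lam ht, ← h.vpk_spec n ht, ← h.SelK_bsub hQ (h.SelK_tl ht)] at hw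
    exact hw.symm
  · have h2 : p • act _ σ t = 0 := by rw [← map_nsmul, ht, map_zero]
    have e : x.1 σ - (act _ σ (Q - t) - (Q - t)) = x.1 σ - (act _ σ Q - Q) + act _ σ t - t := by
      rw [map_sub]
      abel
    rw [← sub_eq_zero, e]
    by_contra h3
    refine h.ord_Kb.lam_ne h3 (by rw [smul_sub, smul_add, hτ σ hσ, h2, ht]; simp) ?_
    rw [h.SelK_zsub _ ht, h.ord_Kb.zz_add_tors _ h2, SelK_zz h]
    linear_combination hzz σ hσ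
  · rw [show x.2 - (Q - t) = x.2 - Q + t by abel]
    exact SelK_add hm (by rwa [pow_one])

theorem kap_coc {s : Amb a4 a6 p H n} {a w : Kb k} (hs : Kap a4 a6 p H n s a w) :
    w - cB p (w / pk _ (hasseInv p a4 a6)) + a * algebraMap _ _ (vpk a4 a6 p n) = 0 := by
  obtain ⟨x, Q, z, -, -, hQ, -, -, hz, -, rfl, rfl⟩ := hs
  have h1 := h.ord_Kb.car_bk sc_Kb (pk_om a4) (pk_om a6) hQ
  have h2 := h.ord_Kb.car_vp sc_Kb (pk_om a4) (pk_om a6) fun P => h.vpk_spec n (P := P)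
  have h3 := sc_Kb.1.car_frob_mul (p := p) hz
    (div_mem (om_alg (vpk a4 a6 p n)) (pow_mem (pk_om (hasseInv p a4 a6)) 2))
  rw [sub_div, map_sub, show z ^ p / pk _ (hasseInv p a4 a6) * algebraMap _ _ (vpk a4 a6 p n) /
    pk _ (hasseInv p a4 a6) = z ^ p * (algebraMap _ _ (vpk a4 a6 p n) /
      pk _ (hasseInv p a4 a6) ^ 2) by ring, cB, h1, h3, h2]
  ring

theorem kap_F {s : Amb a4 a6 p H n} {a w : Kb k} (hs : Kap a4 a6 p H n s a w) :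
    Kap a4 a6 p H (n + 1) (Fm a4 a6 p H n s) a 0 := by
  obtain ⟨x, Q, z, rfl, hx, hQ, hm, hτ, hz, hzz, ha, -⟩ := hs
  refine ⟨x, Q, z, rfl, hx.up, lev_mono _ hQ, hm, hτ, hz, hzz, ha, ?_⟩
  rw [h.SelK_b0 hQ]
  simp [vpk]

theorem kap_V : ∃ ρ : ℕ, (ρ : Kb k) ≠ 0 ∧ ∀ (H : Subgroup (Gk k)) (n : ℕ)
    (s : Amb a4 a6 p H (n + 1)) (a w : Kb k), Kap a4 a6 p H (n + 1) s a w →
      Kap a4 a6 p H n (Vm h H n s) 0 (ρ * w) := by
  obtain ⟨ρ, h0, hρ⟩ := h.ord_Kb.vbeta sc_Kb (pk_om a4) (pk_om a6)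
  refine ⟨ρ, h0, ?_⟩
  rintro H n s a w ⟨x, Q, z, rfl, hx, hQ, ⟨m, hm⟩, hτ, -, -, -, rfl⟩
  have e : ∀ σ ∈ H, (p • x).1 σ - (act _ σ (p • Q) - p • Q) = 0 := fun σ hσ => by
    rw [← hτ σ hσ, map_nsmul, smul_sub, smul_sub]
    rfl
  refine ⟨p • x, p • Q, 0, rfl, h.isZ_down hx, h.ord_Kb.p_lev sc_Kb (pk_om a4) (pk_om a6) hQ,
    ⟨m, ?_⟩, fun σ hσ => by rw [e σ hσ, smul_zero], zero_mem _, fun σ hσ => ?_,
    by simp [hp.out.ne_zero], ?_⟩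
  · rw [Prod.smul_snd, ← smul_sub, smul_comm, hm, smul_zero]
  · rw [e σ hσ, h.ord_Kb.zz_zero]
    simp
  · rw [bG, bG, hρ n Q hQ]
    simp [vpk, hp.out.ne_zero]

theorem car_vp0 : cK p (vp0 a4 a6 p / pk _ (hasseInv p a4 a6) ^ 2) = vp0 a4 a6 p := by
  refine (algebraMap (RatFunc k) (Kb k)).injective ?_
  rw [cK, pb_K.car_map (algebraMap _ (Kb k)) (fun x _ => om_alg x) sc_Kb.1 trivial, map_div₀,
    map_pow]
  exact h.ord_Kb.car_vp sc_Kb (pk_om a4) (pk_om a6) fun P => h.vpk_spec 0 (P := P)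

end Hy

end Pool.Agent.ASel
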