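import Pool.Agent.Work.MP_60d5ce_nt.AS.SelK

/-!
# The map `κ`: local properties

PLAN.  `kap_loc`: `ξ = ∂ R` locally, `Q1 = j Q - R`, `τ Q1 - Q1 = -j (ξ σ - ∂ Q σ)`; `Z = zk (n+1) Q1` has the same
Galois differences as `j z` (`zk_map`, `zk_add_tors`), `y = j z - Z`; `b Q1 = j (b Q)` as `b R = 0`.
`kap_et0`, `kap_et1`: `Ord.dich` with `ρ` from `exists_rho` (resp. `ρ = 1`, `tors_e1`).  If `Q2 = Q1 + t ∈ E_1`
then `τ Q2 - Q2 ∈ T ∩ E_1 = 0` (`E_1` is a group stable under isometries), `Z = Z(Q2) - λ t`, `℘ (λ t) = 0`, and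
`y + Z(Q2)` is fixed.  Otherwise `|Z| ≤ ρ ^ p ^ (n+1) / |A| ^ uk`.  Only finitely many `v` are in `S0`.
`kap_good`: `Q1` is fixed by `I0`: `λ t` is fixed by `I0` (`i0_small`, `fp_small`, `|λ t| = 1`), so `T` is; in the
second case `τ Z - Z = λ(τ Q1 - Q1)` is small, so zero.  Then `bk_le` with the field of the separable
elements fixed by `I0` (`i0_der`).  `vp_int`: the same with `Q1 = t`.  `kap_tight`: `℘ (y + Z) = 0`, so
`y + Z = λ t` and `Q1 - t` is fixed by the decomposition group, `b (Q1 - t) = j w` as `vpk (n+1) = 0`.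
`kap_iso`: with `Z, b, Z', b'`, first for the representatives `(℘ Z, b - (Z ^ p / A) ϖ)`:
`θ = (1 - C) (θ - rho0)` because `Ξ = φZ w' + φZ' w + φZ φZ' ϖ` has `(1 - C) Ξ = θ` (`car_bk`, `car_vp`) and
`Ξ - θ = Z b' + Z' b - Z Z' ϖ` (`iso_car`); `rho0` is fixed (`rho0_tors` and functoriality).  Changing a
representative by the coboundary of `y` changes `θ` by `(1 - C) (φ y w')`.
-/

namespace Pool.Agent.ASel

open Polynomial Pool.Agent.Smith Pool.Agent.ShaAsc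
open scoped Classical

variable {k : Type} [Field k] {p : ℕ} [Fintype k] [hp : Fact p.Prime] [CharP k p] {a4 a6 : k[X]}
  {H : Subgroup (Gk k)} {n : ℕ}

section gen

open WeierstrassCurve WeierstrassCurve.Affine Pool.Agent.Quad

variable {M : Type} [Field M] [CharP M p] [IsAlgClosed M] {W : Affine M} {A : M}
  {S : Subfield M} {t ϖ : M} {s : W.Point →+ W.Point} {f : M →+* M} {m : ℕ}
  {w : AbsoluteValue M ℝ} {ρ : ℝ}

theorem SelL_zk (hO : Ord p W A) (hc : Cmp s f) (hA : f A = A) (m : ℕ) {Q : W.Point}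
    (hQ : p • (s Q - Q) = 0) : f (zk p A m Q) = zk p A m Q + zz p (s Q - Q) := by
  rw [← hO.zk_map hc, hA, ← hO.zk_add_tors m Q hQ, add_sub_cancel]

theorem SelL_lam (hO : Ord p W A) {P : W.Point} (hP : p • P = 0) : zz p P ^ p / A = zz p P := by
  rw [hO.EllR_lam hP, mul_div_cancel_left₀ _ hO.A_ne]

theorem SelL_small (hO : Ord p W A) (hA : w A = 1) {P : W.Point} (hP : p • P = 0) (h0 : P ≠ 0) :
    w (zz p P) = 1 := by
  have h1 := congrArg w (hO.lam_pow h0 hP)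
  rw [map_pow, hA] at h1
  exact (pow_eq_one_iff_of_nonneg (w.nonneg _) (Nat.sub_ne_zero_of_lt hp.out.one_lt)).1 h1

omit hp [CharP M p] [IsAlgClosed M] in
theorem SelL_tors {Q P : W.Point} (hQ : p • (s Q - Q) = 0) (hP : p • P = 0) :
    p • (s (Q + P) - (Q + P)) = 0 := by
  rw [map_add, add_sub_add_comm, smul_add, hQ, smul_sub, ← map_nsmul, hP, map_zero, sub_self,
    add_zero]

omit hp [CharP M p] [IsAlgClosed M] in
theorem SelL_e1 (hW : SW W) (hs : Sz W w ρ) (hT : ∀ P : W.Point, p • P = 0 → InE1 w ρ P → P = 0)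
    (hc : Cmp s f) (hw : ∀ x, w (f x) = w x) {Q : W.Point} (h1 : InE1 w ρ Q)
    (hQ : p • (s Q - Q) = 0) : s Q - Q = 0 := by
  refine hT _ hQ ?_
  rw [sub_eq_add_neg]
  refine InE1_add hW hs ?_ h1.neg
  rcases Q with _ | ⟨x, y, hn⟩
  · exact (s.map_zero : s .zero = .zero) ▸ h1
  · obtain ⟨h', e⟩ := hc.pt x y hn
    rw [e]
    exact lt_of_lt_of_eq h1 (hw x).symm

omit [IsAlgClosed M] in
theorem SelL_alg (hS : PB p S t) {u u' b b' : M} (hA : A ∈ S) (hu : u ∈ S) (hu' : u' ∈ S)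
    (hb : b ∈ S) (hb' : b' ∈ S) (hϖ : ϖ ∈ S) (h1 : car p S t (b / A) = b)
    (h2 : car p S t (b' / A) = b') (h3 : car p S t (ϖ / A ^ 2) = ϖ) :
    car p S t (u ^ p * (b' / A) + u' ^ p * (b / A) - (u * u') ^ p * (ϖ / A ^ 2)) =
      u * b' + u' * b - u * u' * ϖ := by
  rw [map_sub, map_add, hS.car_frob_mul hu (div_mem hb' hA), hS.car_frob_mul hu' (div_mem hb hA),
    hS.car_frob_mul (mul_mem hu hu') (div_mem hϖ (pow_mem hA 2)), h1, h2, h3]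

variable (hO : Ord p W A) (hS : SC p S t) (h4 : W.a₄ ∈ S) (h6 : W.a₆ ∈ S)
  (hϖ : ∀ P : W.Point, p • P = 0 → bk p S t A (m + 1) P = zz p P * ϖ)
include hO hS h4 h6 hϖ

theorem SelL_add {Q P : W.Point} (hl : Q ∈ Lev p S W (m + 1)) (hP : p • P = 0) :
    bk p S t A (m + 1) (Q + P) = bk p S t A (m + 1) Q + zz p P * ϖ := by
  rw [hO.bk_add hS h4 h6 hl (hO.EllR_tors hS h4 h6 m hP), hϖ _ hP]

variable (hc : Cmp s f) (hA : f A = A) (ht : f t = t) (hf : ∀ x ∈ S, f x ∈ S) (h0 : f ϖ = ϖ)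
include hc hA ht hf h0

theorem SelL_bz {Q : W.Point} (hl : Q ∈ Lev p S W (m + 1)) (hQ : p • (s Q - Q) = 0) :
    f (bk p S t A (m + 1) Q - zk p A (m + 1) Q * ϖ) =
      bk p S t A (m + 1) Q - zk p A (m + 1) Q * ϖ := by
  have e := hc.bk_eq hO.sw hf h4 hS.1 (ht.symm ▸ hS.1) A hl
  rw [ht, hA, ← add_sub_cancel Q (s Q), SelL_add hO hS h4 h6 hϖ hl hQ] at e
  rw [map_sub, map_mul, ← e, SelL_zk hO hc hA _ hQ, h0]
  ring

theorem SelL_rho {Q Q' : W.Point} (hl : Q ∈ Lev p S W (m + 1)) (hl' : Q' ∈ Lev p S W (m + 1))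
    (hQ : p • (s Q - Q) = 0) (hQ' : p • (s Q' - Q') = 0) :
    f (rho0 p S t A (m + 1) ϖ Q Q') = rho0 p S t A (m + 1) ϖ Q Q' := by
  have e := hO.rho0_tors hS h4 h6 hϖ hl hl' hQ hQ'
  have e1 := hc.bk_eq hO.sw hf h4 hS.1 (ht.symm ▸ hS.1) A hl
  have e2 := hc.bk_eq hO.sw hf h4 hS.1 (ht.symm ▸ hS.1) A hl'
  have e3 := hO.zk_map hc (m + 1)
  have e4 := hO.wk_map hc (m + 1)
  rw [ht, hA] at e1 e2
  rw [hA] at e3 e4
  rw [add_sub_cancel, add_sub_cancel] at e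
  conv_rhs => rw [← e]
  simp only [rho0, ← map_add s, e1, e2, e3, e4, map_add f, map_sub f, map_mul f, map_div₀,
    map_pow f, h0, map_ofNat f]

end gen

open Pool.Agent.Quad

omit [Fintype k] in
theorem SelL_fix {v : Pl k} (τ : Lb v ≃ₐ[Lv v] Lb v) (c : RatFunc k) :
    τ (algebraMap (RatFunc k) (Lb v) c) = algebraMap (RatFunc k) (Lb v) c := by
  rw [IsScalarTower.algebraMap_apply (RatFunc k) (Lv v) (Lb v), AlgEquiv.commutes]

omit [Fintype k] in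
theorem SelL_om {v : Pl k} (j : Kb k →ₐ[RatFunc k] Lb v) {x : Kb k}
    (hx : x ∈ Om (RatFunc k) (Kb k)) : j x ∈ Om (Lv v) (Lb v) :=
  om_map (algebraMap (RatFunc k) (Lv v)) (j : Kb k →+* Lb v)
    (fun a => (j.commutes a).trans (IsScalarTower.algebraMap_apply _ (Lv v) _ a)) hx

omit [Fintype k] in
theorem SelL_omK (v : Pl k) (c : RatFunc k) :
    algebraMap (RatFunc k) (Lb v) c ∈ Om (Lv v) (Lb v) := by
  rw [IsScalarTower.algebraMap_apply (RatFunc k) (Lv v) (Lb v)]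
  exact om_alg _

omit [Fintype k] in
theorem SelL_pk (v : Pl k) (f : k[X]) : nm v (pk (Lb v) f) = av v (algebraMap k[X] _ f) :=
  nm_algK v _

omit [Fintype k] in
theorem SelL_S0 {v : Pl k} {f g : k[X]} (hv : ¬ InS0 (f * g) v) :
    nm v (pk (Lb v) f) = 1 ∧ ¬ InS0 g v :=
  ⟨(SelL_pk v f).trans (PF_one (fun e => hv (Or.inl e)) fun e => hv (Or.inr (e.mul_right g))),
    fun e => hv (e.imp_right fun e => e.mul_left f)⟩

omit [Fintype k] in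
theorem SelL_kh {v : Pl k} (j : Kb k →ₐ[RatFunc k] Lb v) {x : Kb k} (hx : KH H x) :
    LH H v j (j x) :=
  ⟨SelL_om j hx.1, fun τ σ hσ e => by rw [← e, hx.2 σ hσ]⟩

namespace Hy

variable (h : Hy p a4 a6)
include h

theorem SelL_sz {v : Pl k} (hv : v ≠ none) : Sz (Wm a4 a6 (Lb v)) (nm v) 1 := by
  obtain ⟨ρ, -, hs, -⟩ := (h.ord_Lb v).exists_rho (nm_na v)
  refine ⟨hs.na, hs.two, hs.three, one_pos, ?_, ?_⟩
  · rw [one_pow, Wm_a4, SelL_pk]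
    exact av_poly_le hv _
  · rw [one_pow, Wm_a6, SelL_pk]
    exact av_poly_le hv _

theorem SelL_le {v : Pl k} (hv : ¬ InS0 (Dc a4 a6) v) {Q : Pts (Ew a4 a6) (Lb v)}
    (hl : Q ∈ LL a4 a6 p v (n + 1)) (hQ : ∀ τ ∈ I0 p v, act _ τ Q = Q) :
    nm v (bL a4 a6 p v (n + 1) Q) ≤ nm v (pk _ (hasseInv p a4 a6)) ^ uk p (n + 1) := by
  have h0 : v ≠ none := fun e => hv (Or.inl e)
  have hO := h.ord_Lb v
  have hm := (mem_lev hO.sw (pk_omL v a4)).1 hl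
  refine hO.bk_le (sc_Lb v) (pk_omL v a4) (pk_omL v a6) (h.SelL_sz h0) ?_
    (Om (Lv v) (Lb v) ⊓ (IntermediateField.fixedField (I0 p v)).toSubfield) inf_le_left
    (fun x hx h1 => i0_der h0 hx.1 ((IntermediateField.mem_fixedField_iff _ x).1 hx.2) h1)
    ⟨hm.1, (IntermediateField.mem_fixedField_iff _ _).2 fun τ hτ => ?_⟩
    ⟨hm.2, (IntermediateField.mem_fixedField_iff _ _).2 fun τ hτ => ?_⟩
  · have e : 4 * (Wm a4 a6 (Lb v)).a₄ ^ 3 + 27 * (Wm a4 a6 (Lb v)).a₆ ^ 2 =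
        pk (Lb v) (Dc a4 a6) := by
      simp only [Dc, map_add, map_mul, map_pow, map_ofNat, Wm_a4, Wm_a6]
    rw [e, SelL_pk]
    exact PF_one h0 fun e => hv (Or.inr e)
  · have e := (cmp_actL τ).xc_eq Q
    rw [hQ τ hτ] at e
    rw [map_pow]
    exact congrArg (· ^ _) e.symm
  · have e := (cmp_actL τ).yc_eq Q
    rw [hQ τ hτ] at e
    rw [map_pow]
    exact congrArg (· ^ _) e.symm

theorem SelL_i0 {v : Pl k} (hA : nm v (pk _ (hasseInv p a4 a6)) = 1) {τ : Lb v ≃ₐ[Lv v] Lb v}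
    (hτ : τ ∈ I0 p v) {P : Pts (Ew a4 a6) (Lb v)} (hP : p • P = 0) {Z : Lb v} (hZ : nm v Z ≤ 1)
    (e : τ Z = Z + zz p P) : P = 0 := by
  by_contra h0
  have h1 := i0_small hτ hZ
  rw [e, add_sub_cancel_left, SelL_small (h.ord_Lb v) hA hP h0] at h1
  exact lt_irrefl _ h1

theorem kap_loc {s : Amb a4 a6 p H n} {a w : Kb k} (hs : Kap a4 a6 p H n s a w) (v : Pl k)
    (j : Kb k →ₐ[RatFunc k] Lb v) : ∃ Q1 ∈ LL a4 a6 p v (n + 1), ∃ y, LH H v j y ∧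
      (∀ τ : Lb v ≃ₐ[Lv v] Lb v, ∀ σ ∈ H, (∀ x, j (σ x) = τ (j x)) → p • (act _ τ Q1 - Q1) = 0) ∧
      j a = (y + zk p (pk _ (hasseInv p a4 a6)) (n + 1) Q1) ^ p / pk _ (hasseInv p a4 a6) -
        (y + zk p (pk _ (hasseInv p a4 a6)) (n + 1) Q1) ∧
      j w = bL a4 a6 p v (n + 1) Q1 - (y + zk p (pk _ (hasseInv p a4 a6)) (n + 1) Q1) ^ p /
        pk _ (hasseInv p a4 a6) * algebraMap (RatFunc k) _ (vpk a4 a6 p n) := by
  obtain ⟨x, Q, z, -, hZ, hQ, -, hτ, hz, hσ, rfl, rfl⟩ := hs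
  obtain ⟨R, hR, hx⟩ := hZ.2.2.2.2 v j
  have hO := h.ord_Lb v
  have hj : j (pk _ (hasseInv p a4 a6)) = pk _ (hasseInv p a4 a6) := j.commutes _
  have hR' : R ∈ LL a4 a6 p v (n + 1) := lev_mono n hR
  have hl : em a4 a6 j Q - R ∈ LL a4 a6 p v (n + 1) := sub_mem (ll_em j hQ) hR'
  have h1 : ∀ τ : Lb v ≃ₐ[Lv v] Lb v, ∀ σ ∈ H, (∀ x, j (σ x) = τ (j x)) →
      act _ τ (em a4 a6 j Q - R) - (em a4 a6 j Q - R) =
        -em a4 a6 j (x.1 σ - (act _ σ Q - Q)) := fun τ σ h2 e => by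
    rw [map_sub, map_sub, map_sub, hx τ σ h2 e, em_act j e]
    abel
  have h2 : ∀ τ : Lb v ≃ₐ[Lv v] Lb v, ∀ σ ∈ H, (∀ x, j (σ x) = τ (j x)) →
      p • (act _ τ (em a4 a6 j Q - R) - (em a4 a6 j Q - R)) = 0 := fun τ σ h2 e => by
    rw [h1 τ σ h2 e, smul_neg, ← map_nsmul, hτ σ h2, map_zero, neg_zero]
  refine ⟨_, hl, j z - zk p (pk _ (hasseInv p a4 a6)) (n + 1) (em a4 a6 j Q - R),
    ⟨sub_mem (SelL_om j hz) (hO.zk_mem (sc_Lb v) (pk_omL v a4) (pk_omL v a6) hl),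
      fun τ σ h3 e => ?_⟩, h2, ?_, ?_⟩
  · have e1 := SelL_zk hO (cmp_actL τ) (SelL_fix τ _) (n + 1) (h2 τ σ h3 e)
    rw [h1 τ σ h3 e, hO.zz_neg, h.ord_Kb.zz_map (cmp_em j)] at e1
    have e2 := congrArg j (hσ σ h3)
    rw [map_sub, map_neg, e] at e2
    replace e1 : τ _ = _ + -j _ := e1
    rw [map_sub]
    linear_combination e2 - e1
  · rw [sub_add_cancel, map_sub, map_div₀, map_pow, hj]
  · have e1 := hO.bk_add (sc_Lb v) (pk_omL v a4) (pk_omL v a6) hl hR'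
    have e2 := (cmp_em j).bk_eq h.ord_Kb.sw (fun _ => SelL_om j) (pk_om a4) sc_Kb.1
      ((j.commutes RatFunc.X).symm ▸ (sc_Lb v).1) (pk _ (hasseInv p a4 a6)) hQ
    rw [(hO.bk_eq_zero (sc_Lb v) (pk_omL v a4) (pk_omL v a6) hR').2 hR, sub_add_cancel,
      add_zero] at e1
    rw [show (j : Kb k →+* Lb v) (tv k _) = tv k _ from j.commutes _,
      show (j : Kb k →+* Lb v) (pk _ _) = pk _ _ from hj, e1] at e2
    rw [sub_add_cancel, map_sub, map_mul, map_div₀, map_pow, hj, j.commutes]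
    exact congrArg (· - _) e2.symm

theorem SelL_split {s : Amb a4 a6 p H n} {a w : Kb k} (hs : Kap a4 a6 p H n s a w) (v : Pl k)
    (j : Kb k →ₐ[RatFunc k] Lb v) {ρ : ℝ} (hz : Sz (Wm a4 a6 (Lb v)) (nm v) ρ)
    (hT : ∀ P : Pts (Ew a4 a6) (Lb v), p • P = 0 → InE1 (nm v) ρ P → P = 0) :
    ∃ Q ∈ LL a4 a6 p v (n + 1), ∃ y Z, LH H v j y ∧
      (∀ τ : Lb v ≃ₐ[Lv v] Lb v, ∀ σ ∈ H, (∀ x, j (σ x) = τ (j x)) →
        p • (act _ τ Q - Q) = 0 ∧ τ Z = Z + zz p (act _ τ Q - Q)) ∧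
      j a - (y ^ p / pk _ (hasseInv p a4 a6) - y) = Z ^ p / pk _ (hasseInv p a4 a6) - Z ∧
      j w + y ^ p / pk _ (hasseInv p a4 a6) * algebraMap (RatFunc k) _ (vpk a4 a6 p n) =
        bL a4 a6 p v (n + 1) Q - Z ^ p / pk _ (hasseInv p a4 a6) *
          algebraMap (RatFunc k) _ (vpk a4 a6 p n) ∧
      nm v Z ≤ ρ ^ p ^ (n + 1) / nm v (pk _ (hasseInv p a4 a6)) ^ uk p (n + 1) := by
  obtain ⟨Q, hl, y, hy, hτ, ha, hw⟩ := h.kap_loc hs v j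
  have hO := h.ord_Lb v
  rcases hO.dich hz Q with ⟨P, hP, h1⟩ | h1
  · have hl' := add_mem hl (hO.EllR_tors (sc_Lb v) (pk_omL v a4) (pk_omL v a6) n hP)
    have h2 := fun τ σ h2 e => SelL_e1 hO.sw hz hT (cmp_actL τ) (nm_iso v τ) h1
      (SelL_tors (hτ τ σ h2 e) hP)
    have h3 := SelL_lam hO hP
    refine ⟨Q + P, hl', y + zk p (pk _ (hasseInv p a4 a6)) (n + 1) (Q + P), 0,
      ⟨add_mem hy.1 (hO.zk_mem (sc_Lb v) (pk_omL v a4) (pk_omL v a6) hl'), fun τ σ h4 e => ?_⟩,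
      fun τ σ h4 e => ?_, ?_, ?_, ?_⟩
    · have e1 := SelL_zk hO (cmp_actL τ) (SelL_fix τ _) (n + 1) (SelL_tors (hτ τ σ h4 e) hP)
      rw [h2 τ σ h4 e, hO.zz_zero, add_zero] at e1
      rw [map_add, hy.2 τ σ h4 e]
      exact congrArg (y + ·) e1
    · rw [h2 τ σ h4 e, hO.zz_zero, smul_zero, map_zero, add_zero]
      exact ⟨rfl, rfl⟩
    · rw [ha, hO.zk_add_tors _ Q hP, ← add_assoc, add_pow_char _ (zz p P), add_div, h3,
        zero_pow hp.out.ne_zero]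
      ring
    · rw [hw, hO.zk_add_tors _ Q hP, ← add_assoc, add_pow_char _ (zz p P), add_div, h3,
        zero_pow hp.out.ne_zero, bL, bL,
        SelL_add hO (sc_Lb v) (pk_omL v a4) (pk_omL v a6) (fun _ => h.vpk_specL n v) hl hP]
      ring
    · rw [map_zero]
      have := hz.pos
      positivity
  · refine ⟨Q, hl, y, zk p (pk _ (hasseInv p a4 a6)) (n + 1) Q, hy, fun τ σ h4 e =>
      ⟨hτ τ σ h4 e, SelL_zk hO (cmp_actL τ) (SelL_fix τ _) (n + 1) (hτ τ σ h4 e)⟩, ?_, ?_, ?_⟩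
    · rw [ha, Wp_add, add_sub_cancel_left]
    · rw [hw, add_pow_char]
      ring
    · rw [zk, map_div₀, map_pow, map_pow]
      gcongr

theorem kap_et0 (n : ℕ) : ∃ B : ℕ, ∀ (H : Subgroup (Gk k)) (s : Amb a4 a6 p H n) (a w : Kb k),
    Kap a4 a6 p H n s a w → ∀ v, InS0 (hasseInv p a4 a6 * Dc a4 a6) v →
      ∀ j : Kb k →ₐ[RatFunc k] Lb v, ∃ y, LH H v j y ∧
        nm v (j a - (y ^ p / pk _ (hasseInv p a4 a6) - y)) ≤ 2 ^ B := by
  have hF : hasseInv p a4 a6 * Dc a4 a6 ≠ 0 := mul_ne_zero h.A_ne h.disc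
  choose ρ h1 h2 h3 using fun v : Pl k => (h.ord_Lb v).exists_rho (nm_na v)
  obtain ⟨c, hc⟩ : ∃ c : Pl k → ℝ, ∀ v, c v =
    ρ v ^ p ^ (n + 1) / nm v (pk _ (hasseInv p a4 a6)) ^ uk p (n + 1) := ⟨_, fun _ => rfl⟩
  obtain ⟨C, hC⟩ := (((fin_dvd hF).insert none).image fun v =>
    max (c v ^ p / nm v (pk _ (hasseInv p a4 a6))) (c v)).bddAbove
  obtain ⟨B, hB⟩ := pow_unbounded_of_one_lt C one_lt_two
  refine ⟨B, fun H s a w hs v hv j => ?_⟩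
  obtain ⟨Q, -, y, Z, hy, -, ha, -, hZ⟩ := h.SelL_split hs v j (h2 v) (h3 v)
  rw [← hc] at hZ
  refine ⟨y, hy, le_trans ?_ ((hC ⟨v, ?_, rfl⟩).trans hB.le)⟩
  · rw [ha]
    refine EllB_sub (nm_na v) (le_max_of_le_left ?_) (le_max_of_le_right hZ)
    rw [map_div₀, map_pow]
    gcongr
  · by_cases h0 : v = none
    · exact Or.inl h0
    · exact Or.inr ⟨h0, hv.resolve_left h0⟩

theorem SelL_one {s : Amb a4 a6 p H n} {a w : Kb k} (hs : Kap a4 a6 p H n s a w) {v : Pl k}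
    (hv : ¬ InS0 (hasseInv p a4 a6 * Dc a4 a6) v) (j : Kb k →ₐ[RatFunc k] Lb v) :
    ∃ Q ∈ LL a4 a6 p v (n + 1), ∃ y Z, LH H v j y ∧
      (∀ τ ∈ I0 p v, ∀ σ ∈ H, (∀ x, j (σ x) = τ (j x)) → act _ τ Q = Q) ∧
      nm v (j a - (y ^ p / pk _ (hasseInv p a4 a6) - y)) ≤ 1 ∧
      j w + y ^ p / pk _ (hasseInv p a4 a6) * algebraMap (RatFunc k) _ (vpk a4 a6 p n) =
        bL a4 a6 p v (n + 1) Q - Z * algebraMap (RatFunc k) _ (vpk a4 a6 p n) ∧ nm v Z ≤ 1 := by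
  have hz := h.SelL_sz (v := v) fun e => hv (Or.inl e)
  have hA := (SelL_S0 hv).1
  obtain ⟨Q, hl, y, Z, hy, hτ, ha, hw, hZ⟩ := h.SelL_split hs v j hz
    fun P => (h.ord_Lb v).tors_e1 hz hA
  rw [hA, one_pow, one_pow, div_one] at hZ
  have h1 : nm v (Z ^ p / pk _ (hasseInv p a4 a6)) ≤ 1 := by
    rw [map_div₀, map_pow, hA, div_one]
    exact pow_le_one₀ ((nm v).nonneg _) hZ
  refine ⟨Q, hl, y, _, hy, fun τ h2 σ h3 e => sub_eq_zero.1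
    (h.SelL_i0 hA h2 (hτ τ σ h3 e).1 hZ (hτ τ σ h3 e).2), ?_, hw, h1⟩
  rw [ha]
  exact EllB_sub (nm_na v) h1 hZ

theorem kap_et1 {s : Amb a4 a6 p H n} {a w : Kb k} (hs : Kap a4 a6 p H n s a w) {v : Pl k}
    (hv : ¬ InS0 (hasseInv p a4 a6 * Dc a4 a6) v) (j : Kb k →ₐ[RatFunc k] Lb v) :
    ∃ y, LH H v j y ∧ nm v (j a - (y ^ p / pk _ (hasseInv p a4 a6) - y)) ≤ 1 := by
  obtain ⟨Q, -, y, Z, hy, -, ha, -⟩ := h.SelL_one hs hv j
  exact ⟨y, hy, ha⟩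

theorem vp_int {v : Pl k} (hv : ¬ InS0 (hasseInv p a4 a6 * Dc a4 a6) v) :
    av v (vp0 a4 a6 p) ≤ 1 := by
  have hO := h.ord_Lb v
  obtain ⟨P, h0, hP⟩ := hO.ex
  obtain ⟨hA, hD⟩ := SelL_S0 hv
  have h1 := SelL_small hO hA hP h0
  have h2 := h.SelL_le (n := 0) hD (hO.tors_lev (sc_Lb v) (pk_omL v a4) (pk_omL v a6) hP)
    fun τ hτ => by
      have h3 : p • (act _ τ P - P) = 0 := by
        rw [smul_sub, ← map_nsmul, hP, map_zero, sub_self]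
      refine sub_eq_zero.1 (h.SelL_i0 hA hτ h3 h1.le ?_)
      rw [← hO.zz_add_tors P h3, add_sub_cancel]
      exact (hO.zz_map (cmp_actL τ) P).symm
  rwa [h.vpk_specL 0 v hP, map_mul, h1, hA, one_pow, one_mul, nm_algK] at h2

theorem kap_good {s : Amb a4 a6 p H n} {a w : Kb k} (hs : Kap a4 a6 p H n s a w) {v : Pl k}
    (hv : ¬ InS0 (hasseInv p a4 a6 * Dc a4 a6) v) (j : Kb k →ₐ[RatFunc k] Lb v)
    (hI : ∀ τ ∈ I0 p v, ∃ σ ∈ H, ∀ x, j (σ x) = τ (j x)) :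
    ∃ y, LH H v j y ∧ nm v (j a - (y ^ p / pk _ (hasseInv p a4 a6) - y)) ≤ 1 ∧
      nm v (j w + y ^ p / pk _ (hasseInv p a4 a6) * algebraMap (RatFunc k) _ (vpk a4 a6 p n)) ≤ 1 := by
  obtain ⟨Q, hl, y, Z, hy, hτ, ha, hw, hZ⟩ := h.SelL_one hs hv j
  obtain ⟨hA, hD⟩ := SelL_S0 hv
  have h1 := h.SelL_le hD hl fun τ h1 => (hI τ h1).elim fun σ h2 => hτ τ h1 σ h2.1 h2.2
  rw [hA, one_pow] at h1
  refine ⟨y, hy, ha, ?_⟩
  rw [hw]
  refine EllB_sub (nm_na v) h1 ?_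
  rw [map_mul, nm_algK]
  refine mul_le_one₀ hZ ((av v).nonneg _) ?_
  unfold vpk
  split_ifs
  · exact h.vp_int hv
  · rw [map_zero]
    exact zero_le_one

theorem kap_tight {s : Amb a4 a6 p H (n + 1)} {w : Kb k} (hs : Kap a4 a6 p H (n + 1) s 0 w)
    {v : Pl k} (hv : ¬ InS0 (Dc a4 a6) v) (j : Kb k →ₐ[RatFunc k] Lb v)
    (hI : ∀ τ ∈ I0 p v, ∃ σ ∈ H, ∀ x, j (σ x) = τ (j x)) :
    nm v (j w) ≤ av v (pk _ (hasseInv p a4 a6)) ^ uk p (n + 2) := by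
  obtain ⟨Q, hl, y, hy, hτ, ha, hw⟩ := h.kap_loc hs v j
  have hO := h.ord_Lb v
  have h0 : algebraMap (RatFunc k) (Lb v) (vpk a4 a6 p (n + 1)) = 0 := by
    rw [vpk, if_neg n.succ_ne_zero, map_zero]
  obtain ⟨P, h1, hP⟩ := hO.ex
  obtain ⟨m, hm⟩ := wp_ker (hO.lam_pow h1 hP) (hO.lam_ne h1 hP) (ha.symm.trans (map_zero j))
  have h2 : p • -(m • P) = 0 := by rw [smul_neg, smul_comm, hP, smul_zero, neg_zero]
  have h3 : zk p (pk _ (hasseInv p a4 a6)) (n + 1 + 1) (Q + -(m • P)) = -y := by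
    rw [hO.zk_add_tors _ Q h2, hO.zz_neg, hO.zz_nsmul hP, ← hm]
    ring
  have h4 := h.SelL_le hv (add_mem hl (hO.EllR_tors (sc_Lb v) (pk_omL v a4) (pk_omL v a6) _ h2))
    fun τ h4 => by
      obtain ⟨σ, h5, e⟩ := hI τ h4
      have h6 := SelL_tors (hτ τ σ h5 e) h2
      have e1 := SelL_zk hO (cmp_actL τ) (SelL_fix τ _) (n + 1 + 1) h6
      rw [h3, map_neg, show (τ : Lb v →+* Lb v) y = y from hy.2 τ σ h5 e, left_eq_add] at e1
      exact sub_eq_zero.1 (by_contra fun h7 => hO.lam_ne h7 h6 e1)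
  rw [bL, SelL_add hO (sc_Lb v) (pk_omL v a4) (pk_omL v a6) (fun _ => h.vpk_specL (n + 1) v) hl h2,
    h0, mul_zero, add_zero, SelL_pk] at h4
  rw [hw, h0, mul_zero, sub_zero]
  exact h4

theorem kap_iso {s s' : Amb a4 a6 p H n} {a w a' w' : Kb k} (hs : Kap a4 a6 p H n s a w)
    (hs' : Kap a4 a6 p H n s' a' w') (v : Pl k) (j : Kb k →ₐ[RatFunc k] Lb v) :
    ∃ η, LH H v j η ∧ j (a * w' + a' * w + a * a' * algebraMap _ _ (vpk a4 a6 p n)) =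
      η - car p (Om (Lv v) (Lb v)) (tv k (Lb v)) η := by
  obtain ⟨Q, hl, y, hy, hτ, ha, hw⟩ := h.kap_loc hs v j
  obtain ⟨Q', hl', y', hy', hτ', ha', hw'⟩ := h.kap_loc hs' v j
  have hO := h.ord_Lb v
  have hS := sc_Lb (p := p) v
  have h4 := pk_omL v a4
  have h6 := pk_omL v a6
  have hϖ := fun (P : Pts (Ew a4 a6) (Lb v)) (hP : p • P = 0) => h.vpk_specL n v hP
  have m1 := SelL_kh j (h.kap_mem hs).1
  have m2 := SelL_kh j (h.kap_mem hs).2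
  have m3 := SelL_kh j (h.kap_mem hs').1
  have m4 := SelL_kh j (h.kap_mem hs').2
  have mZ := hO.zk_mem hS h4 h6 hl
  have mZ' := hO.zk_mem hS h4 h6 hl'
  have mb := hO.bk_mem hS h4 h6 hl
  have mb' := hO.bk_mem hS h4 h6 hl'
  have mϖ := SelL_omK v (vpk a4 a6 p n)
  have c1 := SelL_alg hS.1 (pk_omL v _) (add_mem hy.1 mZ) (add_mem hy'.1 mZ') mb mb' mϖ
    (hO.car_bk hS h4 h6 hl) (hO.car_bk hS h4 h6 hl') (hO.car_vp hS h4 h6 hϖ)
  have c2 := hO.iso_car hS h4 h6 hϖ hl hl'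
  have mr := hO.rho0_mem hS h4 h6 hϖ hl hl'
  have f1 := fun τ σ h1 e => SelL_bz hO hS h4 h6 hϖ (cmp_actL τ) (SelL_fix τ _) (SelL_fix τ _)
    (fun _ => om_act τ) (SelL_fix τ _) hl (hτ τ σ h1 e)
  have f2 := fun τ σ h1 e => SelL_bz hO hS h4 h6 hϖ (cmp_actL τ) (SelL_fix τ _) (SelL_fix τ _)
    (fun _ => om_act τ) (SelL_fix τ _) hl' (hτ' τ σ h1 e)
  have f3 := fun τ σ h1 e => SelL_rho hO hS h4 h6 hϖ (cmp_actL τ) (SelL_fix τ _) (SelL_fix τ _)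
    (fun _ => om_act τ) (SelL_fix τ _) hl hl' (hτ τ σ h1 e) (hτ' τ σ h1 e)
  have f4 := fun τ : Lb v ≃ₐ[Lv v] Lb v => SelL_fix τ (vpk a4 a6 p n)
  rw [map_add, map_add, map_mul, map_mul, map_mul, map_mul, j.commutes]
  unfold bL at hw hw'
  generalize zk p (pk (Lb v) (hasseInv p a4 a6)) (n + 1) Q = Z at *
  generalize zk p (pk (Lb v) (hasseInv p a4 a6)) (n + 1) Q' = Z' at *
  generalize bk p (Om (Lv v) (Lb v)) (tv k (Lb v)) (pk (Lb v) (hasseInv p a4 a6)) (n + 1) Q = b at *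
  generalize bk p (Om (Lv v) (Lb v)) (tv k (Lb v)) (pk (Lb v) (hasseInv p a4 a6)) (n + 1) Q' = b'
    at *
  generalize rho0 p (Om (Lv v) (Lb v)) (tv k (Lb v)) (pk (Lb v) (hasseInv p a4 a6)) (n + 1)
    (algebraMap (RatFunc k) (Lb v) (vpk a4 a6 p n)) Q Q' = r at *
  generalize algebraMap (RatFunc k) (Lb v) (vpk a4 a6 p n) = ϖ at *
  refine ⟨j a * j w' + j a' * j w + j a * j a' * ϖ + y * (b' - Z' * ϖ) + y' * (b - Z * ϖ) -
    y * y' * ϖ - r, ⟨?_, fun τ σ h1 e => ?_⟩, ?_⟩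
  · exact sub_mem (sub_mem (add_mem (add_mem (add_mem (add_mem (mul_mem m1.1 m4.1)
      (mul_mem m3.1 m2.1)) (mul_mem (mul_mem m1.1 m3.1) mϖ))
      (mul_mem hy.1 (sub_mem mb' (mul_mem mZ' mϖ)))) (mul_mem hy'.1 (sub_mem mb (mul_mem mZ mϖ))))
      (mul_mem (mul_mem hy.1 hy'.1) mϖ)) mr
  · have e1 : τ (b - Z * ϖ) = _ := f1 τ σ h1 e
    have e2 : τ (b' - Z' * ϖ) = _ := f2 τ σ h1 e
    have e3 : τ r = _ := f3 τ σ h1 e
    rw [map_sub, map_sub, map_add, map_add, map_add, map_add, map_mul, map_mul, map_mul, map_mul,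
      map_mul, map_mul, map_mul, map_mul, e1, e2, e3, f4, m1.2 τ σ h1 e, m2.2 τ σ h1 e,
      m3.2 τ σ h1 e, m4.2 τ σ h1 e, hy.2 τ σ h1 e, hy'.2 τ σ h1 e]
  · have e : j a * j w' + j a' * j w + j a * j a' * ϖ + y * (b' - Z' * ϖ) + y' * (b - Z * ϖ) -
        y * y' * ϖ - r = (y + Z) ^ p * (b' / pk _ (hasseInv p a4 a6)) +
        (y' + Z') ^ p * (b / pk _ (hasseInv p a4 a6)) -
        ((y + Z) * (y' + Z')) ^ p * (ϖ / pk _ (hasseInv p a4 a6) ^ 2) -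
        (Z * b' + Z' * b - Z * Z' * ϖ + r) := by
      rw [ha, hw, ha', hw', mul_pow]
      generalize (y + Z) ^ p = u
      generalize (y' + Z') ^ p = u'
      ring
    conv_rhs => rw [e, map_sub, c1, c2, ← e]
    ring

end Hy

end Pool.Agent.ASel
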